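import Pool.Agent.P.MP_3f5ce9_co.W.AGad

/-!
Attaching units at ports.
-/

open Finset

namespace Pool.Agent.P.MP_3f5ce9_co

namespace BM

variable {N P : BM} {I J A Z : Finset ℕ} {t t' : ℕ → Fin 3 → ℕ} {Q : ℕ → Finset ℕ} {U U' : ℕ → BM}
  {i a : ℕ} {s : Fin 3 → ℕ}

theorem aa_bsum_empty (N : BM) (U : ℕ → BM) : N.bsum ∅ U = N := by
  refine ext_cyc (union_empty _) fun C => ⟨?_, fun h => ⟨C, fun _ => ∅, h, by simp,
    (symmDiff_bot C).symm⟩⟩
  rintro ⟨D0, D, h1, -, rfl⟩
  rw [oddSum_empty]
  exact (symmDiff_bot D0).symm ▸ h1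

theorem aa_bsum_insert (N : BM) (U : ℕ → BM) (hi : i ∉ I) :
    N.bsum (insert i I) U = (N.bsum I U).sum (U i) := by
  refine ext_cyc ?_ fun C => ⟨?_, ?_⟩
  · change N.E ∪ (insert i I).biUnion (fun i => (U i).E) =
      (N.E ∪ I.biUnion fun i => (U i).E) ∪ (U i).E
    rw [biUnion_insert, union_assoc, union_comm (U i).E]
  · rintro ⟨D0, D, h1, h2, rfl⟩
    refine ⟨_, D i, ⟨D0, D, h1, fun j hj => h2 j (mem_insert_of_mem hj), rfl⟩,
      h2 i (mem_insert_self _ _), ?_⟩
    rw [lin_ins D hi, symmDiff_comm (D i), symmDiff_assoc]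
  · rintro ⟨_, F, ⟨D0, D, h1, h2, rfl⟩, h3, rfl⟩
    refine ⟨D0, Function.update D i F, h1, fun j hj => ?_, ?_⟩
    · rcases mem_insert.1 hj with rfl | hj
      · rwa [Function.update_self]
      · rw [Function.update_of_ne (ne_of_mem_of_not_mem hj hi)]
        exact h2 j hj
    · rw [lin_ins _ hi, Function.update_self, symmDiff_comm F, symmDiff_assoc,
        lin_cg (φ := Function.update D i F) (ψ := D) fun j hj =>
          Function.update_of_ne (ne_of_mem_of_not_mem hj hi) _ _]

theorem aa_pts_insert (I : Finset ℕ) (t : ℕ → Fin 3 → ℕ) (i : ℕ) :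
    pts (insert i I) t = tset (t i) ∪ pts I t := biUnion_insert

theorem aa_mem_pts {x : ℕ} : x ∈ pts I t ↔ ∃ i ∈ I, x ∈ tset (t i) := mem_biUnion

theorem Ports.aa_pts_sub (h : N.Ports I t) : pts I t ⊆ N.E :=
  biUnion_subset.2 fun i hi => (h.tri i hi).subset

theorem att_empty (N : BM) (t : ℕ → Fin 3 → ℕ) (U : ℕ → BM) : N.att ∅ t U = N := by
  unfold att
  rw [aa_bsum_empty]
  exact N.del_of_disjoint (disjoint_empty_right _)

theorem att_congr (h : ∀ i ∈ I, t i = t' i ∧ U i = U' i) : N.att I t U = N.att I t' U' := by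
  have h1 : N.bsum I U = N.bsum I U' := by
    refine ext_cyc ?_ fun C => ?_
    · change N.E ∪ I.biUnion (fun i => (U i).E) = N.E ∪ I.biUnion fun i => (U' i).E
      rw [biUnion_congr rfl fun i hi => by rw [(h i hi).2]]
    · refine exists_congr fun D0 => exists_congr fun D => and_congr_right fun _ =>
        and_congr_left fun _ => forall₂_congr fun i hi => ?_
      rw [(h i hi).2]
  unfold att
  rw [h1, biUnion_congr rfl fun i hi => by rw [(h i hi).1]]

theorem Ported.mono (h : N.Ported I t Q U) (hJ : J ⊆ I) : N.Ported J t Q U := by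
  exact ⟨⟨fun i hi => h.tri i (hJ hi), fun i hi j hj => h.disj i (hJ hi) j (hJ hj)⟩,
    fun i hi => h.unit i (hJ hi), fun i hi => h.fresh i (hJ hi),
    fun i hi j hj => h.apart i (hJ hi) j (hJ hj)⟩

theorem Ported.att_E (h : N.Ported I t Q U) : (N.att I t U).E = (N.E \ pts I t) ∪ I.biUnion Q := by
  change (N.E ∪ I.biUnion fun i => (U i).E) \ pts I t = _
  ext x
  simp only [mem_sdiff, mem_union, mem_biUnion]
  constructor
  · rintro ⟨h1 | ⟨i, hi, h1⟩, h2⟩
    · exact Or.inl ⟨h1, h2⟩
    · rw [(h.unit i hi).ground, mem_union] at h1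
      exact Or.inr ⟨i, hi, h1.resolve_right fun h3 => h2 (aa_mem_pts.2 ⟨i, hi, h3⟩)⟩
  · rintro (⟨h1, h2⟩ | ⟨i, hi, h1⟩)
    · exact ⟨Or.inl h1, h2⟩
    · refine ⟨Or.inr ⟨i, hi, ?_⟩, fun h2 =>
        disjoint_left.1 (h.fresh i hi) h1 (h.toPorts.aa_pts_sub h2)⟩
      rw [(h.unit i hi).ground]
      exact mem_union_left _ h1

theorem Ported.att_card (h : N.Ported I t Q U) : (N.att I t U).E.card = N.E.card + 3 * I.card := by
  have h1 : (pts I t).card = 3 * I.card := by
    unfold pts
    rw [card_biUnion fun i hi j hj e => h.disj i hi j hj e,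
      sum_congr rfl fun i hi => (h.tri i hi).card, sum_const, smul_eq_mul, mul_comm]
  have h2 : (I.biUnion Q).card = 6 * I.card := by
    rw [card_biUnion fun i hi j hj e => h.apart i hi j hj e,
      sum_congr rfl fun i hi => (h.unit i hi).card, sum_const, smul_eq_mul, mul_comm]
  have h3 := card_sdiff_add_card_eq_card h.toPorts.aa_pts_sub
  have h4 : Disjoint (N.E \ pts I t) (I.biUnion Q) :=
    disjoint_biUnion_right _ _ _ |>.2 fun i hi => ((h.fresh i hi).symm).mono_left sdiff_subset
  rw [h.att_E, card_union_of_disjoint h4]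
  omega

theorem Ported.aa_disj (h : N.Ported (insert i I) t Q U) (hi : i ∉ I) :
    Disjoint (tset (t i)) (pts I t) :=
  disjoint_biUnion_right _ _ _ |>.2 fun j hj =>
    h.disj i (mem_insert_self _ _) j (mem_insert_of_mem hj) fun e => hi (e ▸ hj)

theorem Ported.aa_insert (h : N.Ported (insert i I) t Q U) (hi : i ∉ I) :
    N.att (insert i I) t U = ((N.att I t U).sum (U i)).del (tset (t i)) := by
  have hd : Disjoint (pts I t) (U i).E := by
    rw [(h.unit i (mem_insert_self _ _)).ground, disjoint_union_right]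
    exact ⟨(h.fresh i (mem_insert_self _ _)).symm.mono_left
      (h.mono (subset_insert _ _)).toPorts.aa_pts_sub, (h.aa_disj hi).symm⟩
  change (N.bsum (insert i I) U).del (pts (insert i I) t) =
    (((N.bsum I U).del (pts I t)).sum (U i)).del (tset (t i))
  rw [← sum_del_left hd, del_del, aa_bsum_insert N U hi, aa_pts_insert, union_comm]

theorem Ported.aa_inter (h : N.Ported (insert i I) t Q U) (hi : i ∉ I) :
    (N.att I t U).E ∩ (U i).E = tset (t i) := by
  have hi' := mem_insert_self i I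
  rw [(h.mono (subset_insert _ _)).att_E, (h.unit i hi').ground]
  ext x
  simp only [mem_inter, mem_sdiff, mem_union, mem_biUnion]
  refine ⟨?_, fun hx => ⟨Or.inl ⟨(h.tri i hi').subset hx, disjoint_left.1 (h.aa_disj hi) hx⟩,
    Or.inr hx⟩⟩
  rintro ⟨⟨h1, -⟩ | ⟨j, hj, h1⟩, h2 | h2⟩
  · exact (disjoint_left.1 (h.fresh i hi') h2 h1).elim
  · exact h2
  · exact (disjoint_left.1 (h.apart i hi' j (mem_insert_of_mem hj) fun e => hi (e ▸ hj))
      h2 h1).elim
  · exact h2

theorem aa_isTri (I : Finset ℕ) : ∀ s, N.Ported I t Q U → N.IsTri s →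
    Disjoint (tset s) (pts I t) → (N.att I t U).IsTri s := by
  induction I using Finset.induction_on with
  | empty => intro s _ hs _; rwa [att_empty]
  | insert i I hi ih =>
    intro s h hs hd
    have hi' := mem_insert_self i I
    have h' := h.mono (subset_insert i I)
    rw [aa_pts_insert, disjoint_union_right] at hd
    have h1 := tri_sum (ih _ h' (h.tri i hi') (h.aa_disj hi)) (h.unit i hi').tri (h.aa_inter hi)
    have h2 := ih s h' hs hd.2
    rw [← h1.2.1] at h2
    rw [h.aa_insert hi]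
    exact h2.of_res.del hd.1

theorem Ported.aa_one (h : N.Ported (insert i I) t Q U) (hi : i ∉ I) :
    ((N.att I t U).sum (U i)).Tri (t i) ((N.att (insert i I) t U).E \ Q i) (Q i) ∧
      ((N.att I t U).sum (U i)).res ((N.att (insert i I) t U).E \ Q i ∪ tset (t i)) =
        N.att I t U ∧ ((N.att I t U).sum (U i)).res (Q i ∪ tset (t i)) = U i := by
  have hi' := mem_insert_self i I
  have hu := h.unit i hi'
  have h0 := aa_isTri I _ (h.mono (subset_insert i I)) (h.tri i hi') (h.aa_disj hi)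
  have h1 := tri_sum h0 hu.tri (h.aa_inter hi)
  have e1 : (U i).E \ tset (t i) = Q i := by
    rw [hu.ground, union_sdiff_right, sdiff_eq_self_of_disjoint hu.disj]
  have e2 : (N.att (insert i I) t U).E \ Q i = (N.att I t U).E \ tset (t i) := by
    rw [h.aa_insert hi, h1.1.del_E, e1, union_sdiff_right]
    exact sdiff_eq_self_of_disjoint (e1 ▸ h1.1.d12)
  rw [e2, sdiff_union_of_subset h0.subset, ← hu.ground]
  exact ⟨e1 ▸ h1.1, h1.2⟩

theorem Ported.att_one (h : N.Ported I t Q U) (hi : i ∈ I) :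
    ((N.att (I.erase i) t U).sum (U i)).Tri (t i) ((N.att I t U).E \ Q i) (Q i) ∧
      ((N.att (I.erase i) t U).sum (U i)).del (tset (t i)) = N.att I t U ∧
      ((N.att (I.erase i) t U).sum (U i)).res ((N.att I t U).E \ Q i ∪ tset (t i)) =
        N.att (I.erase i) t U ∧
      ((N.att (I.erase i) t U).sum (U i)).res (Q i ∪ tset (t i)) = U i := by
  have e := insert_erase hi
  have h' : N.Ported (insert i (I.erase i)) t Q U := e.symm ▸ h
  have h1 := h'.aa_one (notMem_erase i I)
  have h2 := h'.aa_insert (notMem_erase i I)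
  rw [e] at h1 h2
  exact ⟨h1.1, h2.symm, h1.2⟩

theorem Ported.att_isTri (h : N.Ported I t Q U) (hs : N.IsTri s) (hd : Disjoint (tset s) (pts I t)) :
    (N.att I t U).IsTri s := by
  exact aa_isTri I s h hs hd

theorem Ported.att_reg (h : N.Ported I t Q U) (hr : N.Reg) : (N.att I t U).Reg := by
  induction I using Finset.induction_on with
  | empty => rwa [att_empty]
  | insert i I hi ih =>
    obtain ⟨h1, h2, h3⟩ := h.aa_one hi
    rw [h.aa_insert hi]
    refine (h1.reg ?_ ?_).del _
    · rw [h2]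
      exact ih (h.mono (subset_insert i I))
    · rw [h3]
      exact (h.unit i (mem_insert_self _ _)).reg

theorem Ported.att_graphic (h : N.Ported I t Q U) (hg : N.Graphic) (hU : ∀ i ∈ I, (U i).Graphic) :
    (N.att I t U).Graphic := by
  induction I using Finset.induction_on with
  | empty => rwa [att_empty]
  | insert i I hi ih =>
    obtain ⟨h1, h2, h3⟩ := h.aa_one hi
    rw [h.aa_insert hi]
    refine (h1.graphic ?_ ?_).del _
    · rw [h2]
      exact ih (h.mono (subset_insert i I)) fun j hj => hU j (mem_insert_of_mem hj)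
    · rw [h3]
      exact hU i (mem_insert_self _ _)

end BM

end Pool.Agent.P.MP_3f5ce9_co
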