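import Pool.Agent.P.MP_3f5ce9_co.W.AAtt

/-!
Attaching units: cographic case, leaves, vertical connectivity.
-/

open Finset

namespace Pool.Agent.P.MP_3f5ce9_co

namespace BM

variable {N P : BM} {I J A L1 Z : Finset ℕ} {t : ℕ → Fin 3 → ℕ} {Q : ℕ → Finset ℕ} {U : ℕ → BM}
  {a : ℕ} {s : Fin 3 → ℕ} {H : Gr ℕ ℕ}

/-- the end of `e` other than `z` -/
def atb_oth (H : Gr ℕ ℕ) (z e : ℕ) : ℕ := if H.s e = z then H.t e else H.s e

theorem atb_inc (H : Gr ℕ ℕ) (z e : ℕ) : H.Inc e (atb_oth H z e) := by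
  unfold atb_oth Gr.Inc
  split_ifs <;> simp

theorem atb_cut {H : Gr ℕ ℕ} {z e : ℕ} {W : Finset ℕ} (he : H.Inc e z) (hz : z ∉ W) :
    ¬ (H.s e ∈ W ↔ H.t e ∈ W) ↔ atb_oth H z e ∈ W := by
  unfold atb_oth
  split_ifs with h
  · simp [h, hz]
  · simp [he.resolve_left h, hz]

theorem atb_ne {H : Gr ℕ ℕ} {z e : ℕ} {W : Finset ℕ} (h : ¬ (H.s e ∈ W ↔ H.t e ∈ W)) :
    atb_oth H z e ≠ z := by
  unfold atb_oth
  split_ifs with h1
  · exact fun h2 => h (by rw [h1, h2])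
  · exact h1

theorem atb_cyc {M : BM} {H : Gr ℕ ℕ} {D : Finset ℕ} (h : M.Cog H) :
    M.cyc D ↔ ∃ W, D = H.cut M.E W := by
  rw [← cocyc_gm, ← h, dual_dual]

theorem atb_avoid (H : Gr ℕ ℕ) (Es W : Finset ℕ) (z : ℕ) :
    ∃ W', z ∉ W' ∧ H.cut Es W = H.cut Es W' := by
  by_cases hz : z ∈ W
  · refine ⟨GA.vs H Es \ W, fun h => (mem_sdiff.1 h).2 hz, filter_congr fun e he => ?_⟩
    rw [mem_sdiff, mem_sdiff, and_iff_right (GA.within_vs H Es e he).1,
      and_iff_right (GA.within_vs H Es e he).2, not_iff_not (a := H.s e ∈ W)]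
  · exact ⟨W, hz, rfl⟩

/-- two graphs with the stars at `z1` and `z2` joined up -/
def atb_glue (H1 H2 : Gr ℕ ℕ) (L1 L2 : Finset ℕ) (z1 z2 : ℕ) : Gr ℕ ℕ where
  s e := if e ∈ L1 then 2 * H1.s e else if e ∈ L2 then 2 * H2.s e + 1 else 2 * atb_oth H1 z1 e
  t e := if e ∈ L1 then 2 * H1.t e else if e ∈ L2 then 2 * H2.t e + 1 else 2 * atb_oth H2 z2 e + 1

theorem atb_glue_cut {H1 H2 : Gr ℕ ℕ} {L1 L2 T W W1 W2 : Finset ℕ} {z1 z2 : ℕ}
    (d12 : Disjoint L1 L2) (d1 : Disjoint L1 T) (d2 : Disjoint L2 T)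
    (s1 : H1.star (L1 ∪ T) z1 = T) (s2 : H2.star (L2 ∪ T) z2 = T)
    (n1 : ∀ e ∈ T, atb_oth H1 z1 e ≠ z1) (n2 : ∀ e ∈ T, atb_oth H2 z2 e ≠ z2)
    (a1 : z1 ∉ W1) (a2 : z2 ∉ W2) (w1 : ∀ v ≠ z1, 2 * v ∈ W ↔ v ∈ W1)
    (w2 : ∀ v ≠ z2, 2 * v + 1 ∈ W ↔ v ∈ W2) :
    (atb_glue H1 H2 L1 L2 z1 z2).cut (L1 ∪ L2 ∪ T) W =
      symmDiff (H1.cut (L1 ∪ T) W1) (H2.cut (L2 ∪ T) W2) := by
  ext e
  have i1 := Gr.mem_star (G := H1) (Es := L1 ∪ T) (z := z1) (e := e)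
  have i2 := Gr.mem_star (G := H2) (Es := L2 ∪ T) (z := z2) (e := e)
  rw [s1] at i1
  rw [s2] at i2
  simp only [mem_symmDiff, Gr.mem_cut, mem_union, atb_glue, Gr.Inc] at i1 i2 ⊢
  by_cases e1 : e ∈ L1
  · have e2 := disjoint_left.1 d12 e1
    have e3 := disjoint_left.1 d1 e1
    simp only [e1, e3, true_or, true_and, false_iff, not_or] at i1
    simp [e1, e2, e3, w1 _ i1.1, w1 _ i1.2]
  by_cases e2 : e ∈ L2
  · have e3 := disjoint_left.1 d2 e2
    simp only [e2, e3, true_or, true_and, false_iff, not_or] at i2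
    simp [e1, e2, e3, w2 _ i2.1, w2 _ i2.2]
  by_cases e3 : e ∈ T
  · rw [atb_cut (i1.1 e3).2 a1, atb_cut (i2.1 e3).2 a2, if_neg e1, if_neg e2, if_neg e1, if_neg e2,
      w1 _ (n1 e e3), w2 _ (n2 e e3)]
    simp only [e3, or_true, true_and]
    tauto
  · simp [e1, e2, e3]

/-- the three-sum of two bond matroids along stars -/
theorem Tri.cog_del {L2 : Finset ℕ} (h : P.Tri s L1 L2) (h1 : (P.res (L1 ∪ tset s)).Cog H)
    (hz : ∃ z, H.star (L1 ∪ tset s) z = tset s) (h2 : (P.res (L2 ∪ tset s)).CoStar s) :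
    ∃ H', (P.del (tset s)).Cog H' ∧ ∀ z, (H.star (L1 ∪ tset s) z).Nonempty →
      Disjoint (H.star (L1 ∪ tset s) z) (tset s) →
      ∃ z', H'.star (L1 ∪ L2) z' = H.star (L1 ∪ tset s) z := by
  obtain ⟨z1, s1⟩ := hz
  obtain ⟨H2, z2, h2, s2⟩ := h2
  rw [h.symm.res_E] at s2
  have c1 : ∀ D, (P.res (L1 ∪ tset s)).cyc D ↔ ∃ W, D = H.cut (L1 ∪ tset s) W := fun D => by
    rw [atb_cyc h1, h.res_E]
  have c2 : ∀ D, (P.res (L2 ∪ tset s)).cyc D ↔ ∃ W, D = H2.cut (L2 ∪ tset s) W := fun D => by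
    rw [atb_cyc h2, h.symm.res_E]
  obtain ⟨V1, v1⟩ := (c1 _).1 ⟨h.tri.cyc, subset_union_right⟩
  obtain ⟨V2, v2⟩ := (c2 _).1 ⟨h.tri.cyc, subset_union_right⟩
  have n1 : ∀ e ∈ tset s, atb_oth H z1 e ≠ z1 := fun e he => atb_ne (Gr.mem_cut.1 (v1 ▸ he)).2
  have n2 : ∀ e ∈ tset s, atb_oth H2 z2 e ≠ z2 := fun e he => atb_ne (Gr.mem_cut.1 (v2 ▸ he)).2
  have key : P.dual = gm (atb_glue H H2 L1 L2 z1 z2) P.E := by
    rw [← dual_dual (gm _ P.E)]
    refine congrArg dual (ext_cyc rfl fun C => ?_)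
    rw [cocyc_gm, h.ground]
    constructor
    · intro hC
      obtain ⟨D1, D2, d1, d2, e1, e2, rfl⟩ := h.cyc_split hC
      obtain ⟨W1, rfl⟩ := (c1 _).1 ⟨d1, e1⟩
      obtain ⟨W2, rfl⟩ := (c2 _).1 ⟨d2, e2⟩
      obtain ⟨Y1, a1, y1⟩ := atb_avoid H (L1 ∪ tset s) W1 z1
      obtain ⟨Y2, a2, y2⟩ := atb_avoid H2 (L2 ∪ tset s) W2 z2
      refine ⟨Y1.image (2 * ·) ∪ Y2.image (2 * · + 1), ?_⟩
      rw [y1, y2]
      refine (atb_glue_cut h.d12 h.d1 h.d2 s1 s2 n1 n2 a1 a2 (fun v _ => ?_) fun v _ => ?_).symm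
      · simp only [mem_union, mem_image]
        exact ⟨fun h => h.elim (fun ⟨x, a, b⟩ => (show x = v by omega) ▸ a) fun ⟨x, _, b⟩ => by omega,
          fun h => Or.inl ⟨v, h, rfl⟩⟩
      · simp only [mem_union, mem_image]
        exact ⟨fun h => h.elim (fun ⟨x, _, b⟩ => by omega) fun ⟨x, a, b⟩ => (show x = v by omega) ▸ a,
          fun h => Or.inr ⟨v, h, rfl⟩⟩
    · rintro ⟨W, rfl⟩
      rw [atb_glue_cut (W1 := ((W.image (· / 2)).filter fun v => 2 * v ∈ W).erase z1)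
        (W2 := ((W.image (· / 2)).filter fun v => 2 * v + 1 ∈ W).erase z2) h.d12 h.d1 h.d2 s1 s2 n1 n2
        (notMem_erase _ _) (notMem_erase _ _) (fun v hv => ?_) fun v hv => ?_]
      · exact P.sd _ _ ((c1 _).2 ⟨_, rfl⟩).1 ((c2 _).2 ⟨_, rfl⟩).1
      · rw [mem_erase, mem_filter, and_iff_right hv]
        exact ⟨fun h => ⟨mem_image.2 ⟨_, h, by omega⟩, h⟩, fun h => h.2⟩
      · rw [mem_erase, mem_filter, and_iff_right hv]
        exact ⟨fun h => ⟨mem_image.2 ⟨_, h, by omega⟩, h⟩, fun h => h.2⟩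
  obtain ⟨ρ, -, hρ⟩ := GA.exists_rep (atb_glue H H2 L1 L2 z1 z2) (tset s)
  refine ⟨(atb_glue H H2 L1 L2 z1 z2).map ρ, ?_, fun z _ hd => ⟨ρ (2 * z), ?_⟩⟩
  · rw [Cog, dual_del, key, gm_con h.tri.subset (GA.within_vs _ _) fun u _ w _ => hρ u w]
    rfl
  have iso : ∀ u, ρ u = ρ (2 * z) ↔ u = 2 * z := fun u => by
    refine ⟨fun hu => ((hρ _ _).1 hu.symm).eq_of_isolated fun e he hi => ?_, fun hu => hu ▸ rfl⟩
    have e1 := disjoint_right.1 h.d1 he
    have e2 := disjoint_right.1 h.d2 he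
    simp only [Gr.Inc, atb_glue, e1, e2, if_false] at hi
    refine disjoint_right.1 hd he (Gr.mem_star.2 ⟨mem_union_right _ he, ?_⟩)
    rw [← show atb_oth H z1 e = z by omega]
    exact atb_inc _ _ _
  ext e
  have e0 : e ∈ _ → e ∉ _ := fun he => disjoint_left.1 hd he
  simp only [Gr.mem_star, Gr.Inc, Gr.map_s, Gr.map_t, iso, mem_union, atb_glue] at e0 ⊢
  by_cases e1 : e ∈ L1
  · simp [e1]
  by_cases e2 : e ∈ L2
  · have e3 := disjoint_left.1 h.d2 e2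
    simp only [e1, e2, e3, if_true, if_false, or_true, true_and, or_self, false_and, iff_false]
    omega
  · simp only [e1, e2, false_or, false_and, false_iff] at e0 ⊢
    exact fun h => e0 h h.1

theorem Ported.att_cog (h : N.Ported I t Q U) (hH : N.Cog H)
    (hs : ∀ i ∈ I, ∃ z, H.star N.E z = tset (t i)) (hU : ∀ i ∈ I, (U i).CoStar (t i)) :
    ∃ H', (N.att I t U).Cog H' ∧ ∀ z, (H.star N.E z).Nonempty → Disjoint (H.star N.E z) (pts I t) →
      ∃ z', H'.star (N.att I t U).E z' = H.star N.E z := by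
  induction I using Finset.induction_on with
  | empty => exact ⟨H, by rwa [att_empty], fun z _ _ => ⟨z, by rw [att_empty]⟩⟩
  | insert i I hi ih =>
    have m := mem_insert_self i I
    obtain ⟨H1, c1, k1⟩ := ih (h.mono (subset_insert _ _))
      (fun j hj => hs j (mem_insert_of_mem hj)) fun j hj => hU j (mem_insert_of_mem hj)
    obtain ⟨a1, a2, a3, a4⟩ := h.att_one m
    have e1 := a1.res_E
    have e2 := a1.del_E
    rw [a3] at e1
    rw [a2] at e2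
    rw [erase_insert hi] at a1 a2 a3 a4 e1
    obtain ⟨z, hz⟩ := hs i m
    obtain ⟨z1, hz1⟩ := k1 z (hz ▸ ⟨_, ta_mem (t i) 0⟩) (hz ▸ (disjoint_biUnion_right _ _ _).2
      fun j hj => h.disj i m j (mem_insert_of_mem hj) fun e => hi (e ▸ hj))
    obtain ⟨H2, c2, k2⟩ := a1.cog_del (H := H1) (a3.symm ▸ c1) ⟨z1, by rw [← e1, hz1, hz]⟩
      (a4.symm ▸ hU i m)
    refine ⟨H2, a2 ▸ c2, fun y y1 y2 => ?_⟩
    rw [pts, biUnion_insert, disjoint_union_right] at y2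
    obtain ⟨y', hy⟩ := k1 y y1 y2.2
    rw [e1] at hy
    obtain ⟨y'', hy'⟩ := k2 y' (hy ▸ y1) (hy ▸ y2.1)
    exact ⟨y'', by rw [e2, hy', hy]⟩

theorem atb_res {X : Finset ℕ} (h : P.Ported I t Q U) (hJ : J ⊆ I) (h1 : ∀ i ∈ J, tset (t i) ⊆ X) :
    (P.res X).Ported J t Q U :=
  ⟨⟨fun i hi => (h.tri i (hJ hi)).res (h1 i hi), fun i hi j hj => h.disj i (hJ hi) j (hJ hj)⟩,
    fun i hi => h.unit i (hJ hi), fun i hi => (h.fresh i (hJ hi)).mono_right inter_subset_left,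
    fun i hi j hj => h.apart i (hJ hi) j (hJ hj)⟩

theorem atb_bsum {M : BM} (h : Disjoint I J) :
    (M.sum N).bsum (I ∪ J) U = (M.bsum I U).sum (N.bsum J U) := by
  have e : ∀ D, oddSum D (I ∪ J) = symmDiff (oddSum D I) (oddSum D J) := fun D => by
    rw [← oddSum_symmDiff, h.symmDiff_eq_sup]
    rfl
  refine ext_cyc ?_ fun C => ⟨?_, ?_⟩
  · simp only [bsum, sum_E, union_biUnion]
    exact union_union_union_comm _ _ _ _
  · rintro ⟨_, D, ⟨X, Y, hX, hY, rfl⟩, hD, rfl⟩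
    exact ⟨_, _, ⟨X, D, hX, fun i hi => hD i (mem_union_left _ hi), rfl⟩,
      ⟨Y, D, hY, fun i hi => hD i (mem_union_right _ hi), rfl⟩,
      by rw [e, symmDiff_symmDiff_symmDiff_comm]⟩
  · rintro ⟨_, _, ⟨X, D, hX, hD, rfl⟩, ⟨Y, F, hY, hF, rfl⟩, rfl⟩
    refine ⟨_, fun i => if i ∈ I then D i else F i, ⟨X, Y, hX, hY, rfl⟩, fun i hi => ?_, ?_⟩
    · beta_reduce
      split_ifs with h1
      exacts [hD i h1, hF i ((mem_union.1 hi).resolve_left h1)]
    · rw [e, symmDiff_symmDiff_symmDiff_comm, lin_cg (C := I) (ψ := D) fun x hx => if_pos hx,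
        lin_cg (C := J) (ψ := F) fun x hx => if_neg (disjoint_right.1 h hx)]

theorem atb_bdel {X : Finset ℕ} (h : ∀ i ∈ I, Disjoint X (U i).E) :
    (N.bsum I U).del X = (N.del X).bsum I U := by
  have e : ∀ D : ℕ → Finset ℕ, (∀ i ∈ I, (U i).cyc (D i)) → Disjoint (oddSum D I) X := fun D hD =>
    ((disjoint_biUnion_right _ _ _).2 h).symm.mono_left
      (lin_sub fun i hi => ((U i).sub _ (hD i hi)).trans (subset_biUnion_of_mem (fun i => (U i).E) hi))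
  refine ext_cyc ?_ fun C => ⟨?_, ?_⟩
  · simp only [bsum, del_E, union_sdiff_distrib]
    rw [sdiff_eq_self_of_disjoint ((disjoint_biUnion_right _ _ _).2 h).symm]
  · rintro ⟨⟨D0, D, h0, hD, rfl⟩, hd⟩
    exact ⟨D0, D, ⟨h0, disjoint_left.2 fun x hx hX => disjoint_left.1 hd
      (mem_symmDiff.2 (Or.inl ⟨hx, disjoint_right.1 (e D hD) hX⟩)) hX⟩, hD, rfl⟩
  · rintro ⟨D0, D, h0, hD, rfl⟩
    exact ⟨⟨D0, D, h0.1, hD, rfl⟩, disjoint_left.2 fun x hx => (mem_symmDiff.1 hx).elim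
      (fun a => disjoint_left.1 h0.2 a.1) fun a => disjoint_left.1 (e D hD) a.1⟩

theorem atb_cl {M : BM} {X : Finset ℕ} (hE : M.E ⊆ N.E) (h : ∀ C, M.cyc C → N.cyc C) :
    M.cl X ⊆ N.cl X := fun e he => by
  rcases (r_insert_eq_iff (mem_cl.1 he).1).1 (mem_cl.1 he).2 with h1 | ⟨C, c1, c2, c3⟩
  · exact mem_cl.2 ⟨hE (mem_cl.1 he).1, by rw [insert_eq_of_mem h1]⟩
  · exact mem_cl_of_cyc (h C c1) c2 c3

theorem atb_span {S : Finset ℕ} (h : P.Ported I t Q U) (hJ : J ⊆ I) (hA : A ⊆ P.E) (hS : S ⊆ P.E)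
    (hd : Disjoint S (pts I t)) (h1 : ∀ i ∈ I, i ∉ J → Disjoint (tset (t i)) A)
    (hr : P.r (A ∪ S) = P.r A) :
    (P.att I t U).r (A \ pts I t ∪ J.biUnion Q ∪ S) = (P.att I t U).r (A \ pts I t ∪ J.biUnion Q) := by
  have d : Disjoint (A \ pts I t ∪ J.biUnion Q) (pts I t) := disjoint_union_left.2 ⟨sdiff_disjoint,
    (disjoint_biUnion_left _ _ _).2 fun i hi => (h.fresh i (hJ hi)).mono_right
      (biUnion_subset.2 fun j hj => (h.tri j hj).subset)⟩
  refine ((P.bsum I U).r_del_of_disjoint (disjoint_union_left.2 ⟨d, hd⟩)).trans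
    (Eq.trans (r_union_of_subset_cl ?_) ((P.bsum I U).r_del_of_disjoint d).symm)
  have c0 : P.cl A ⊆ (P.bsum I U).cl A := atb_cl subset_union_left fun C hC =>
    ⟨C, fun _ => ∅, hC, fun i _ => (U i).nil, by
      rw [subset_empty.1 (lin_sub fun _ _ => Subset.rfl)]; exact (symmDiff_bot C).symm⟩
  refine (subset_cl_of_r hS hr).trans (c0.trans ?_)
  rw [← cl_cl _ (_ ∪ _)]
  refine cl_mono _ fun x hx => ?_
  by_cases hp : x ∈ pts I t
  · obtain ⟨i, hi, hx'⟩ := mem_biUnion.1 hp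
    have hiJ : i ∈ J := by_contra fun hn => disjoint_left.1 (h1 i hi hn) hx' hx
    have u := h.unit i hi
    have c1 : (U i).cl (Q i) ⊆ (P.bsum I U).cl (Q i) :=
      atb_cl ((subset_biUnion_of_mem (fun i => (U i).E) hi).trans subset_union_right) fun C hC =>
        ⟨∅, fun j => if j = i then C else ∅, P.nil, fun j _ => by
          beta_reduce
          split_ifs with e
          exacts [e ▸ hC, (U j).nil], by
          rw [← insert_erase hi, lin_ins _ (notMem_erase _ _), if_pos rfl, subset_empty.1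
            (lin_sub fun y hy => (if_neg (ne_of_mem_erase hy)).subset)]
          exact (symmDiff_bot C).symm.trans (bot_symmDiff _).symm⟩
    exact cl_mono _ ((subset_biUnion_of_mem Q hiJ).trans subset_union_right)
      (c1 (subset_cl_of_r u.tri.subset (by rw [← u.ground, u.span]) hx'))
  · exact mem_cl.2 ⟨mem_union_left _ (hA hx),
      by rw [insert_eq_of_mem (mem_union_left _ (mem_sdiff.2 ⟨hx, hp⟩))]⟩

theorem atb_E (h : P.Ported I t Q U) (hJ : J ⊆ I) (hT : P.Tri s A L1)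
    (h1 : ∀ i ∈ J, tset (t i) ⊆ A) (h2 : ∀ i ∈ I \ J, tset (t i) ⊆ L1) :
    ((P.res (A ∪ tset s)).att J t U).E = A \ pts I t ∪ J.biUnion Q ∪ tset s := by
  rw [(atb_res h hJ fun i hi => (h1 i hi).trans subset_union_left).att_E, hT.res_E,
    union_sdiff_distrib, sdiff_eq_self_of_disjoint
      (hT.d1.symm.mono_right (show pts J t ⊆ A from biUnion_subset.2 h1)), union_right_comm]
  congr 2
  conv_rhs => rw [← union_sdiff_of_subset hJ, pts, union_biUnion]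
  exact (sdiff_eq_self_of_disjoint (hT.d12.mono sdiff_subset (biUnion_subset.2 h2))).symm.trans
    (sdiff_sdiff _ _ _)

theorem Ported.att_tri (h : P.Ported I t Q U) (hT : P.Tri s L1 A) (hJ : J ⊆ I)
    (h1 : ∀ i ∈ J, tset (t i) ⊆ A) (h2 : ∀ i ∈ I \ J, tset (t i) ⊆ L1) :
    (P.att I t U).Tri s (L1 \ pts I t ∪ (I \ J).biUnion Q) (A \ pts I t ∪ J.biUnion Q) ∧
      (P.att I t U).del (tset s) = (P.del (tset s)).att I t U ∧
      (P.att I t U).res (A \ pts I t ∪ J.biUnion Q ∪ tset s) = (P.res (A ∪ tset s)).att J t U ∧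
      (P.att I t U).res (L1 \ pts I t ∪ (I \ J).biUnion Q ∪ tset s) =
        (P.res (L1 ∪ tset s)).att (I \ J) t U ∧
      (P.res (A ∪ tset s)).Ported J t Q U ∧ (P.res (L1 ∪ tset s)).Ported (I \ J) t Q U ∧
      (P.r (L1 ∪ tset s) = P.r L1 → (P.att I t U).r (L1 \ pts I t ∪ (I \ J).biUnion Q ∪ tset s) =
        (P.att I t U).r (L1 \ pts I t ∪ (I \ J).biUnion Q)) ∧
      (P.r (A ∪ tset s) = P.r A → (P.att I t U).r (A \ pts I t ∪ J.biUnion Q ∪ tset s) =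
        (P.att I t U).r (A \ pts I t ∪ J.biUnion Q)) := by
  have ee : I \ (I \ J) = J := Finset.sdiff_sdiff_eq_self hJ
  have sA : A ⊆ P.E := hT.ground ▸ subset_union_right.trans subset_union_left
  have sL : L1 ⊆ P.E := hT.ground ▸ subset_union_left.trans subset_union_left
  have p1 := atb_res h hJ fun i hi => (h1 i hi).trans (subset_union_left (s₂ := tset s))
  have p2 := atb_res h sdiff_subset fun i hi => (h2 i hi).trans (subset_union_left (s₂ := tset s))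
  have e1 := atb_E h hJ hT.symm h1 h2
  have e2 := atb_E h sdiff_subset hT h2 (ee.symm ▸ h1)
  have k1 : pts J t ⊆ A := biUnion_subset.2 h1
  have k2 : pts (I \ J) t ⊆ L1 := biUnion_subset.2 h2
  have ep : pts I t = pts (I \ J) t ∪ pts J t := by
    rw [pts, pts, pts, ← union_biUnion, sdiff_union_of_subset hJ]
  have dS : Disjoint (tset s) (pts I t) :=
    ep ▸ disjoint_union_right.2 ⟨hT.d1.symm.mono_right k2, hT.d2.symm.mono_right k1⟩
  have dQ : ∀ K ⊆ I, Disjoint (K.biUnion Q) P.E := fun K hK =>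
    (disjoint_biUnion_left _ _ _).2 fun i hi => h.fresh i (hK hi)
  have dU : ∀ X ⊆ P.E, ∀ i ∈ I, Disjoint X (tset (t i)) → Disjoint X (U i).E := fun X hX i hi hd =>
    (h.unit i hi).ground ▸ disjoint_union_right.2 ⟨(h.fresh i hi).symm.mono_left hX, hd⟩
  have es : P.att I t U =
      ((P.res (L1 ∪ tset s)).att (I \ J) t U).sum ((P.res (A ∪ tset s)).att J t U) := by
    have := atb_bsum (M := P.res (L1 ∪ tset s)) (N := P.res (A ∪ tset s)) (U := U)
      (sdiff_disjoint (s := J) (t := I))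
    rw [← hT.eq_sum, sdiff_union_of_subset hJ] at this
    change (P.bsum I U).del (pts I t) = _
    rw [this, ep, ← del_del, sum_del_left, sum_comm, sum_del_left, sum_comm]
    · rfl
    · change Disjoint _ ((P.res (L1 ∪ tset s)).att (I \ J) t U).E
      rw [e2]
      exact disjoint_union_right.2 ⟨disjoint_union_right.2 ⟨hT.d12.symm.mono k1 sdiff_subset,
        (dQ _ sdiff_subset).symm.mono_left (k1.trans sA)⟩, hT.d2.mono_left k1⟩
    · refine disjoint_union_right.2 ⟨?_, (disjoint_biUnion_right _ _ _).2 fun i hi =>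
        dU _ (k2.trans sL) i (hJ hi) (hT.d12.mono k2 (h1 i hi))⟩
      rw [hT.symm.res_E]
      exact disjoint_union_right.2 ⟨hT.d12.mono_left k2, hT.d1.mono_left k2⟩
  have f1 : Disjoint (A \ pts I t ∪ J.biUnion Q) (tset s) := disjoint_union_left.2
    ⟨hT.d2.mono_left sdiff_subset, (dQ _ hJ).mono_right hT.tri.subset⟩
  have f2 : Disjoint (L1 \ pts I t ∪ (I \ J).biUnion Q) (tset s) := disjoint_union_left.2
    ⟨hT.d1.mono_left sdiff_subset, (dQ _ sdiff_subset).mono_right hT.tri.subset⟩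
  have f3 : Disjoint (L1 \ pts I t ∪ (I \ J).biUnion Q) (A \ pts I t ∪ J.biUnion Q) :=
    disjoint_union_left.2 ⟨disjoint_union_right.2 ⟨hT.d12.mono sdiff_subset sdiff_subset,
      (dQ _ hJ).symm.mono_left (sdiff_subset.trans sL)⟩, disjoint_union_right.2
      ⟨(dQ _ sdiff_subset).mono_right (sdiff_subset.trans sA), (disjoint_biUnion_left _ _ _).2
        fun i hi => (disjoint_biUnion_right _ _ _).2 fun j hj =>
          h.apart i (mem_sdiff.1 hi).1 j (hJ hj) fun e => (mem_sdiff.1 hi).2 (e ▸ hj)⟩⟩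
  obtain ⟨a1, a2, a3⟩ := tri_sum
    (p2.att_isTri (hT.tri.res subset_union_right) (hT.d1.symm.mono_right k2))
    (p1.att_isTri (hT.tri.res subset_union_right) (hT.d2.symm.mono_right k1))
    (by rw [e1, e2, ← inter_union_distrib_right, disjoint_iff_inter_eq_empty.1 f3, empty_union])
  rw [← es] at a1 a2 a3
  rw [e1, e2, union_sdiff_cancel_right f1, union_sdiff_cancel_right f2] at a1
  refine ⟨a1, ?_, e1 ▸ a3, e2 ▸ a2, p1, p2,
    atb_span h sdiff_subset sL hT.tri.subset dS fun i hi hn =>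
      hT.d12.symm.mono_left (h1 i (ee ▸ mem_sdiff.2 ⟨hi, hn⟩)),
    atb_span h hJ sA hT.tri.subset dS fun i hi hn => hT.d12.mono_left (h2 i (mem_sdiff.2 ⟨hi, hn⟩))⟩
  rw [att, att, del_del, union_comm, ← del_del, atb_bdel fun i hi => dU _ hT.tri.subset i hi
    (dS.mono_right (subset_biUnion_of_mem (fun i => tset (t i)) hi))]

end BM

end Pool.Agent.P.MP_3f5ce9_co
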