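import Pool.Agent.P.MP_3f5ce9_co.W.DefsH

/-!
Basic properties of admissible leaf moves.
-/

open Finset

namespace Pool.Agent.P.MP_3f5ce9_co

namespace Gr

variable {G : Gr ℕ ℕ} {X Y Z W Es F R R' S T U U' L Φ : Finset ℕ} {p q α β β' σ : Finset ℕ × Finset ℕ}
  {u w v r a b c a' b' c' e f g x y z φ ψ n : ℕ}

theorem ALM.symm (h : G.ALM F R w p q) (hp : G.St X Es p) (hq : G.St X Es q) :
    G.ALM F R w q p := by
  obtain ⟨e, he, f, hf, heF, hfF, ie, jf, hl, h1, h2, hw⟩ := h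
  have de := hp.disj e
  have df := hp.disj f
  refine ⟨f, by simp [h1], e, by simp [h2], hfF, heF, jf, ie, ?_, ?_, ?_, fun hR => ?_⟩
  · intro g hg hi
    rw [h1] at hg
    rcases mem_insert.1 hg with rfl | hg
    · rfl
    · exact absurd (hl g (mem_of_mem_erase hg) hi) (mem_erase.1 hg).1
  · rw [h1]
    ext g
    simp only [mem_insert, mem_erase]
    grind
  · rw [h2]
    ext g
    simp only [mem_insert, mem_erase]
    grind
  · obtain ⟨u, hu⟩ := ie.exists_joins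
    obtain ⟨u', hu'⟩ := jf.exists_joins
    have he2 : e ∈ q.2 := by simp [h2]
    rcases Conn.erase_or hu' (hu.conn' (hw hR)) with h3 | h3
    · refine (hq.snd.acyc.not_conn he2 hu (h3.mono fun g hg => ?_)).elim
      simp only [h2, mem_insert, mem_erase, mem_sdiff] at hg ⊢
      grind
    · refine hu'.conn ((Conn.edge (mem_sdiff.2 ⟨he2, heF⟩) hu).trans (h3.symm.mono fun g hg => ?_))
      simp only [h2, mem_insert, mem_erase, mem_sdiff] at hg ⊢
      grind

theorem AStep.symm (h : G.AStep X Es F R p q) : G.AStep X Es F R q p := by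
  obtain ⟨hp, hq, w, h | h⟩ := h
  · exact ⟨hq, hp, w, Or.inl (h.symm hp hq)⟩
  · exact ⟨hq, hp, w, Or.inr (h.symm hp.swap hq.swap)⟩

theorem AStep.swap (h : G.AStep X Es F R p q) : G.AStep X Es F R p.swap q.swap := by
  obtain ⟨hp, hq, w, h⟩ := h
  exact ⟨hp.swap, hq.swap, w, h.symm⟩

theorem AStep.reach (h : G.AStep X Es F R p q) : G.AReach X Es F R p q :=
  Relation.ReflTransGen.single h

theorem AReach.refl (p : Finset ℕ × Finset ℕ) : G.AReach X Es F R p p :=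
  Relation.ReflTransGen.refl

theorem AReach.trans (h : G.AReach X Es F R p q) (h' : G.AReach X Es F R q α) :
    G.AReach X Es F R p α := Relation.ReflTransGen.trans h h'

theorem AReach.symm (h : G.AReach X Es F R p q) : G.AReach X Es F R q p := by
  induction h with
  | refl => exact AReach.refl _
  | tail _ h ih => exact h.symm.reach.trans ih

theorem AReach.swap (h : G.AReach X Es F R p q) : G.AReach X Es F R p.swap q.swap := by
  induction h with
  | refl => exact AReach.refl _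
  | tail _ h ih => exact ih.trans h.swap.reach

theorem AReach.st (h : G.AReach X Es F R p q) (hp : G.St X Es p) : G.St X Es q := by
  induction h with
  | refl => exact hp
  | tail _ h _ => exact h.2.1

theorem AReach.agree (h : G.AReach X Es F R p q) : Agree F p q := by
  induction h with
  | refl => exact fun _ _ => Iff.rfl
  | tail _ h ih =>
    refine fun g hg => (ih g hg).trans ?_
    obtain ⟨-, -, w, ⟨e, -, f, -, heF, hfF, -, -, -, h1, -⟩ |
      ⟨e, -, f, -, heF, hfF, -, -, -, -, h1, -⟩⟩ := h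
    all_goals
      try simp only [Prod.snd_swap] at h1
      simp only [h1, mem_insert, mem_erase]
      grind

theorem ALM.mono (hR : R' ⊆ R) (h : G.ALM F R w p q) : G.ALM F R' w p q := by
  obtain ⟨e, he, f, hf, h1, h2, h3, h4, h5, h6, h7, h8⟩ := h
  exact ⟨e, he, f, hf, h1, h2, h3, h4, h5, h6, h7, fun h => h8 (hR h)⟩

theorem AReach.mono (h : G.AReach X Es F R p q) (hR : R' ⊆ R) : G.AReach X Es F R' p q := by
  induction h with
  | refl => exact AReach.refl _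
  | tail _ h ih =>
    obtain ⟨hp, hq, w, h⟩ := h
    exact ih.trans (AStep.reach ⟨hp, hq, w, h.imp (ALM.mono hR) (ALM.mono hR)⟩)

theorem AReach.exists_flip (h : G.AReach X Es F R p q) (hg : ¬ (e ∈ p.1 ↔ e ∈ q.1)) :
    ∃ p' q', G.AReach X Es F R p p' ∧ G.AStep X Es F R p' q' ∧ ¬ (e ∈ p'.1 ↔ e ∈ q'.1) := by
  induction h with
  | refl => simp at hg
  | @tail p' q' h1 h2 ih =>
    by_cases h3 : e ∈ p.1 ↔ e ∈ p'.1
    · exact ⟨p', q', h1, h2, by tauto⟩
    · exact ih h3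

/-- a step that recolours `e` recolours exactly one further edge, in the opposite direction -/
theorem AStep.exists_other (h : G.AStep X Es F R p q) (hg : ¬ (e ∈ p.1 ↔ e ∈ q.1)) :
    ∃ o, o ≠ e ∧ (o ∈ p.1 ↔ e ∈ q.1) ∧ (o ∈ q.1 ↔ e ∈ p.1) ∧ o ∈ Es ∧ e ∈ Es ∧
      ∀ g, g ≠ e → g ≠ o → (g ∈ p.1 ↔ g ∈ q.1) := by
  obtain ⟨hp, -, w, ⟨e', he, f, hf, -, -, -, -, -, h1, -⟩ |
    ⟨f, hf, e', he, -, -, -, -, -, -, h1, -⟩⟩ := h
  all_goals
    try simp only [Prod.snd_swap, Prod.fst_swap] at h1 he hf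
    have := hp.disj e'
    have := hp.disj f
    have := hp.cov e'
    have := hp.cov f
    simp only [h1, mem_insert, mem_erase] at hg ⊢
    by_cases h2 : e = e'
    · exact ⟨f, by grind⟩
    · exact ⟨e', by grind⟩

theorem astep_of_st {S' T' : Finset ℕ} (hp : G.St X Es (S, T)) (hq : G.St X Es (S', T'))
    (he : e ∈ S) (hf : f ∈ T) (heF : e ∉ F) (hfF : f ∉ F) (ie : G.Inc e w) (jf : G.Inc f w)
    (hl : ∀ g ∈ S, G.Inc g w → g = e) (h1 : S' = insert f (S.erase e))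
    (h2 : T' = insert e (T.erase f)) (hw : w ∈ R → G.Conn (T \ F) (G.s e) (G.t e)) :
    G.AStep X Es F R (S, T) (S', T') := by
  exact ⟨hp, hq, w, Or.inl ⟨e, he, f, hf, heF, hfF, ie, jf, hl, h1, h2, hw⟩⟩

theorem astep_mk {S' T' : Finset ℕ} (hp : G.St X Es (S, T)) (he : e ∈ S) (hf : f ∈ T)
    (heF : e ∉ F) (hfF : f ∉ F) (ie : G.Inc e w) (jf : G.Joins f w u)
    (hl : ∀ g ∈ S, G.Inc g w → g = e) (h1 : S' = insert f (S.erase e))
    (h2 : T' = insert e (T.erase f)) (hc : G.Conn T' w u)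
    (hw : w ∈ R → G.Conn (T \ F) (G.s e) (G.t e)) : G.AStep X Es F R (S, T) (S', T') := by
  exact astep_of_st hp (step_mk (r := w + 1) hp (by omega) he hf ie jf hl h1 h2 hc).2.1 he hf heF
    hfF ie jf.inc hl h1 h2 hw

/-- a leaf whose edge is spanned by unfrozen edges of the other tree can move -/
theorem exists_astep (hp : G.St X Es (S, T)) (he : e ∈ S) (heF : e ∉ F) (ie : G.Inc e w)
    (hl : ∀ g ∈ S, G.Inc g w → g = e) (hc : G.Conn (T \ F) (G.s e) (G.t e)) :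
    ∃ f ∈ T, G.Inc f w ∧ G.AStep X Es F R (S, T) (insert f (S.erase e), insert e (T.erase f)) := by
  obtain ⟨q, hq⟩ := ie.exists_joins
  obtain ⟨f, hf, a, ha, hc'⟩ := exists_first (hq.conn' hc) (hp.fst.acyc.ne he hq).symm
  refine ⟨f, (mem_sdiff.1 hf).1, ha.inc, astep_mk hp he (mem_sdiff.1 hf).1 heF (mem_sdiff.1 hf).2
    ie ha hl rfl rfl ?_ fun _ => hc⟩
  refine (Conn.edge (mem_insert_self _ _) hq).trans (hc'.symm.mono ?_)
  intro g hg
  refine mem_insert_of_mem (mem_erase.2 ⟨?_, (mem_sdiff.1 (mem_filter.1 hg).1).1⟩)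
  rintro rfl
  exact (mem_filter.1 hg).2 ha.inc

theorem Node.vto_or (N : G.Node Es v x y z a' b' c') (h : G.St X Es p) (ht : Ty x y z p) :
    G.VTo x y z a' b' p ∨ G.VTo x z y a' c' p := by
  have hm := N.jx.mem h.within N.hx
  rcases ht with ⟨hx, -⟩ | ⟨hx, -⟩
  · exact (N.side h.snd (fun g hg => (h.cov g).2 (Or.inr hg)) (h.disj x hx) hm.1 hm.2 N.av).imp
      (fun h1 => Or.inl ⟨hx, h1⟩) fun h1 => Or.inl ⟨hx, by rwa [erase_right_comm]⟩
  · exact (N.side h.fst (fun g hg => (h.cov g).2 (Or.inl hg)) (fun h1 => h.disj x h1 hx) hm.1 hm.2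
      N.av).imp (fun h1 => Or.inr ⟨hx, h1⟩) fun h1 => Or.inr ⟨hx, by rwa [erase_right_comm]⟩

theorem Node.avstep0 (N : G.Node Es v x y z a' b' c') (hv : v ∉ R) (hxF : x ∉ F) (hyF : y ∉ F)
    (h : G.St X Es (S, T)) (hx : x ∈ S) (hy : y ∈ T) (hz : z ∈ T)
    (hc : G.Conn ((T.erase y).erase z) a' b') :
    G.AStep X Es F R (S, T) (insert y (S.erase x), insert x (T.erase y)) := by
  refine astep_mk h hx hy hxF hyF N.jx.inc N.jy (fun g hg hi => ?_) rfl rfl ?_
    fun h => absurd h hv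
  · have := N.all g ((h.cov g).2 (Or.inl hg)) hi
    have := h.disj g
    grind
  · exact (Conn.edge (mem_insert_self _ _) N.jx).trans
      (hc.mono ((erase_subset _ _).trans (subset_insert _ _)))

theorem Node.avstep (N : G.Node Es v x y z a' b' c') (hv : v ∉ R) (hx : x ∉ F) (hy : y ∉ F)
    (h : G.St X Es p) (ht : Ty x y z p) (hc : G.VTo x y z a' b' p) :
    ∃ q, G.AStep X Es F R p q ∧ Ty y x z q ∧ G.VTo y x z b' a' q ∧
      ∀ g, g ≠ x → g ≠ y → (g ∈ q.1 ↔ g ∈ p.1) := by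
  have dx := h.disj x
  have yz := N.yz
  rcases hc with ⟨h1, h2⟩ | ⟨h1, h2⟩
  · have h3 : y ∈ p.2 ∧ z ∈ p.2 := by unfold Ty at ht; tauto
    refine ⟨_, N.avstep0 hv hx hy h h1 h3.1 h3.2 h2, Or.inl ⟨mem_insert_self _ _,
      mem_insert_self _ _, ?_⟩, Or.inl ⟨mem_insert_self _ _, h2.symm.mono fun g hg => ?_⟩,
      fun g _ _ => ?_⟩ <;> simp only [mem_insert, mem_erase] at * <;> grind
  · have h3 : y ∈ p.1 ∧ z ∈ p.1 := by unfold Ty at ht; tauto
    refine ⟨(insert x (p.1.erase y), insert y (p.2.erase x)),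
      (N.avstep0 hv hx hy h.swap h1 h3.1 h3.2 h2).swap, Or.inr ⟨mem_insert_self _ _,
      mem_insert_self _ _, ?_⟩, Or.inr ⟨mem_insert_self _ _, h2.symm.mono fun g hg => ?_⟩,
      fun g _ _ => ?_⟩ <;> simp only [mem_insert, mem_erase] at * <;> grind

theorem Node2.avmove (N : G.Node2 Es v x y a' b') (hW : G.Within Es X) (hv : v ∉ R) (hx : x ∉ F)
    (hy : y ∉ F) (h : G.St (X.erase v) ((Es.erase x).erase y) (S, T)) :
    G.AStep X Es F R (insert x S, insert y T) (insert y S, insert x T) := by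
  have h' := h
  rw [erase_right_comm] at h'
  have cx := h.cov x
  have cy := h.cov y
  refine astep_of_st (N.up hW h) (N.symm.up hW h') (mem_insert_self _ _) (mem_insert_self _ _) hx hy
    N.jx.inc N.jy.inc (fun g hg hi => ?_) ?_ ?_ fun h => absurd h hv
  · have := N.all g (((N.up hW h).cov g).2 (Or.inl hg)) hi
    have := N.xy
    simp only [mem_insert, mem_erase] at *
    grind
  · rw [erase_insert]
    simp only [mem_erase] at *
    grind
  · rw [erase_insert]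
    simp only [mem_erase] at *
    grind

theorem Node2.alift1 (N : G.Node2 Es v x y a' b') (hW : G.Within Es X) {S' T' : Finset ℕ}
    (h : G.St (X.erase v) ((Es.erase x).erase y) (S, T))
    (h' : G.St (X.erase v) ((Es.erase x).erase y) (S', T')) (hwa : w ≠ a')
    (hm : G.ALM F R w (S, T) (S', T')) :
    G.AStep X Es F R (insert x S, insert y T) (insert x S', insert y T') := by
  obtain ⟨e, he, f, hf, heF, hfF, ie, jf, hl, h1, h2, hw⟩ := hm
  have hwv : w ≠ v := (mem_erase.1 (ie.mem h.fst.within he)).1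
  have hx := h.cov x
  have hy := h.cov y
  simp only at *
  refine astep_of_st (N.up hW h) (N.up hW h') (mem_insert_of_mem he) (mem_insert_of_mem hf) heF hfF
    ie jf (fun g hg hi => ?_) ?_ ?_ fun hR =>
      (hw hR).mono (sdiff_subset_sdiff (subset_insert _ _) Subset.rfl)
  · rcases mem_insert.1 hg with rfl | hg
    · have := N.jx.inc_iff.1 hi
      grind
    · exact hl g hg hi
  · rw [h1]; ext g
    simp only [mem_insert, mem_erase] at *
    grind
  · rw [h2]; ext g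
    simp only [mem_insert, mem_erase] at *
    grind

theorem Node2.alift2 (N : G.Node2 Es v x y a' b') (hW : G.Within Es X) (hv : v ∉ R) (hx : x ∉ F)
    (hy : y ∉ F) (hab : a' ≠ b') {S' T' : Finset ℕ}
    (h : G.St (X.erase v) ((Es.erase x).erase y) (S, T))
    (h' : G.St (X.erase v) ((Es.erase x).erase y) (S', T'))
    (hm : G.ALM F R w (S, T) (S', T')) :
    G.AReach X Es F R (insert x S, insert y T) (insert x S', insert y T') := by
  by_cases hwa : w = a'
  · have h1 := h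
    have h2 := h'
    rw [erase_right_comm] at h1 h2
    have := N.symm.alift1 hW h1 h2 (hwa ▸ hab) hm
    exact (N.avmove hW hv hx hy h).reach.trans
      (this.reach.trans (N.avmove hW hv hx hy h').symm.reach)
  · exact (N.alift1 hW h h' hwa hm).reach

theorem Node2.alift (N : G.Node2 Es v x y a' b') (hW : G.Within Es X) (hv : v ∉ R) (hx : x ∉ F)
    (hy : y ∉ F) (hab : a' ≠ b') (h : G.AReach (X.erase v) ((Es.erase x).erase y) F R p q) :
    G.AReach X Es F R (insert x p.1, insert y p.2) (insert x q.1, insert y q.2) := by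
  induction h with
  | refl => exact AReach.refl _
  | @tail p' q' _ h ih =>
    refine ih.trans ?_
    obtain ⟨h1, h2, w, hm | hm⟩ := h
    · exact N.alift2 hW hv hx hy hab h1 h2 hm
    · have h3 := h1.swap
      have h4 := h2.swap
      rw [erase_right_comm] at h3 h4
      exact (N.symm.alift2 hW hv hy hx hab.symm h3 h4 hm).swap

theorem alift_cw1 (hE : G.Within Es X) (hZ : Z ⊆ X) (hr : r ∈ Z) (hα : G.St Z (G.ind Es Z) α)
    (hF : Disjoint F (G.ind Es Z))
    (hp : (G.map (cw Z r)).St (insert r (X \ Z)) (Es \ G.ind Es Z) p)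
    (hq : (G.map (cw Z r)).St (insert r (X \ Z)) (Es \ G.ind Es Z) q)
    (hχ : ∃ g ∈ F, g ∈ p.1 ∧ G.Inc g r) (hm : (G.map (cw Z r)).ALM F R w p q) :
    G.AStep X Es F R (α.1 ∪ p.1, α.2 ∪ p.2) (α.1 ∪ q.1, α.2 ∪ q.2) := by
  obtain ⟨e, he, f, hf, heF, hfF, ie, jf, hl, h1, h2, hw⟩ := hm
  have hwZ : w ∉ Z := by
    rcases mem_insert.1 (ie.mem hp.fst.within he) with rfl | h3
    · obtain ⟨g, g1, g2, g3⟩ := hχ
      refine (heF (hl g g2 ?_ ▸ g1)).elim
      exact g3.imp (fun h => by rw [map_s, h, cw_of_mem hr]) fun h => by rw [map_t, h, cw_of_mem hr]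
    · exact (mem_sdiff.1 h3).2
  have hc : ∀ u, cw Z r u = w ↔ u = w := fun u => by unfold cw; grind
  have hi : ∀ g, (G.map (cw Z r)).Inc g w ↔ G.Inc g w := fun g => by
    simp only [Inc, map_s, map_t, hc]
  have he' := mem_sdiff.1 ((hp.cov e).2 (Or.inl he))
  have hf' := mem_sdiff.1 ((hp.cov f).2 (Or.inr hf))
  have ce := hα.cov e
  have cf := hα.cov f
  refine astep_of_st (St.combine hE hZ hr hα hp) (St.combine hE hZ hr hα hq) (mem_union_right _ he)
    (mem_union_right _ hf) heF hfF ((hi e).1 ie) ((hi f).1 jf) (fun g hg ig => ?_) ?_ ?_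
    fun hR => ?_
  · rcases mem_union.1 hg with hg | hg
    · exact absurd (ig.mem hα.fst.within hg) hwZ
    · exact hl g hg ((hi g).2 ig)
  · rw [h1]; ext g
    simp only [mem_insert, mem_erase, mem_union]
    grind
  · rw [h2]; ext g
    simp only [mem_insert, mem_erase, mem_union]
    grind
  · refine Conn.unmap (hE.mono fun g hg => (mem_sdiff.1 ((hp.cov g).2
      (Or.inr (mem_sdiff.1 hg).1))).1) (hE e he'.1).1 (hE e he'.1).2 (fun a _ b _ hab => ?_)
      (sdiff_subset_sdiff subset_union_right Subset.rfl) (hw hR)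
    unfold cw at hab
    split_ifs at hab with k1 k2 k2
    · exact (hα.snd.conn a k1 b k2).mono fun g hg => mem_sdiff.2 ⟨mem_union_left _ hg,
        disjoint_right.1 hF ((hα.cov g).2 (Or.inr hg))⟩
    · exact absurd (hab ▸ hr) k2
    · exact absurd (hab ▸ hr) k1
    · rw [hab]; exact Conn.refl _ _ _

/-- moves outside a tight set `Z` lift when the contracted vertex carries frozen edges of both
colours -/
theorem alift_cw (hE : G.Within Es X) (hZ : Z ⊆ X) (hr : r ∈ Z) (hα : G.St Z (G.ind Es Z) α)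
    (hF : Disjoint F (G.ind Es Z)) (h1 : φ ∈ F) (h2 : ψ ∈ F) (i1 : G.Inc φ r) (i2 : G.Inc ψ r)
    (hβ : ¬ (φ ∈ β.1 ↔ ψ ∈ β.1)) (m1 : φ ∈ Es) (m2 : ψ ∈ Es)
    (h : (G.map (cw Z r)).AReach (insert r (X \ Z)) (Es \ G.ind Es Z) F R β β') :
    G.AReach X Es F R (α.1 ∪ β.1, α.2 ∪ β.2) (α.1 ∪ β'.1, α.2 ∪ β'.2) := by
  induction h with
  | refl => exact AReach.refl _
  | @tail p' q' h0 h ih =>
    refine ih.trans (AStep.reach ?_)
    obtain ⟨k1, k2, w, hm⟩ := h
    have a1 := AReach.agree h0 φ h1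
    have a2 := AReach.agree h0 ψ h2
    have c1 := (k1.cov φ).1 (mem_sdiff.2 ⟨m1, disjoint_left.1 hF h1⟩)
    have c2 := (k1.cov ψ).1 (mem_sdiff.2 ⟨m2, disjoint_left.1 hF h2⟩)
    rcases hm with hm | hm
    · refine alift_cw1 hE hZ hr hα hF k1 k2 ?_ hm
      by_cases h3 : φ ∈ p'.1
      exacts [⟨φ, h1, h3, i1⟩, ⟨ψ, h2, by tauto, i2⟩]
    · refine (alift_cw1 hE hZ hr hα.swap hF k1.swap k2.swap ?_ hm).swap
      by_cases h3 : φ ∈ p'.1
      exacts [⟨ψ, h2, c2.resolve_left (by tauto), i2⟩, ⟨φ, h1, c1.resolve_left h3, i1⟩]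

theorem HS.not_inc (H : G.HS X Es φ ψ a b c) (hv : v ∉ ({a, b, c} : Finset ℕ)) (hx : G.Inc x v) :
    x ∉ ({φ, ψ} : Finset ℕ) := by
  intro h
  simp only [mem_insert, mem_singleton] at h hv
  rcases h with rfl | rfl
  · have := H.jφ.inc_iff.1 hx
    tauto
  · rcases H.jψ with h | h <;> have := h.inc_iff.1 hx <;> tauto

theorem HS.node2 (H : G.HS X Es φ ψ a b c) (hv : v ∉ ({a, b, c} : Finset ℕ))
    (N : G.Node2 Es v x y a' b') : G.HS (X.erase v) ((Es.erase x).erase y) φ ψ a b c := by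
  have h1 := H.not_inc hv N.jx.inc
  have h2 := H.not_inc hv N.jy.inc
  have := H.hφ
  have := H.hψ
  simp only [mem_insert, mem_singleton, not_or] at h1 h2 hv
  exact ⟨mem_erase.2 ⟨Ne.symm hv.1, H.ma⟩, mem_erase.2 ⟨Ne.symm hv.2.1, H.mb⟩,
    mem_erase.2 ⟨Ne.symm hv.2.2, H.mc⟩, H.ab, H.ac, H.bc, by simp only [mem_erase]; tauto,
    by simp only [mem_erase]; tauto, H.ne, H.jφ, H.jψ⟩

theorem HS.node (H : G.HS X Es φ ψ a b c) (hv : v ∉ ({a, b, c} : Finset ℕ))
    (N : G.Node Es v x y z a' b' c') :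
    (G.map (ctr v b')).HS (X.erase v) ((Es.erase x).erase y) φ ψ a b c ∧
      ((G.map (ctr v b')).Joins ψ b c ↔ G.Joins ψ b c) ∧
      ((G.map (ctr v b')).Joins ψ a b ↔ G.Joins ψ a b) := by
  have h1 := H.not_inc hv N.jx.inc
  have h2 := H.not_inc hv N.jy.inc
  have h3 := H.not_inc hv N.jz.inc
  have := H.hφ
  have := H.hψ
  simp only [mem_insert, mem_singleton, not_or] at h1 h2 h3 hv
  have e1 := N.ends H.hφ (Ne.symm h1.1) (Ne.symm h2.1) (Ne.symm h3.1)
  have e2 := N.ends H.hψ (Ne.symm h1.2) (Ne.symm h2.2) (Ne.symm h3.2)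
  have j1 : ∀ u w, (G.map (ctr v b')).Joins φ u w ↔ G.Joins φ u w := fun u w => by
    rw [Joins, Joins, e1.1, e1.2]
  have j2 : ∀ u w, (G.map (ctr v b')).Joins ψ u w ↔ G.Joins ψ u w := fun u w => by
    rw [Joins, Joins, e2.1, e2.2]
  exact ⟨⟨mem_erase.2 ⟨Ne.symm hv.1, H.ma⟩, mem_erase.2 ⟨Ne.symm hv.2.1, H.mb⟩,
    mem_erase.2 ⟨Ne.symm hv.2.2, H.mc⟩, H.ab, H.ac, H.bc, by simp only [mem_erase]; tauto,
    by simp only [mem_erase]; tauto, H.ne, (j1 _ _).2 H.jφ, H.jψ.imp (j2 _ _).2 (j2 _ _).2⟩,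
    j2 _ _, j2 _ _⟩

theorem HS.rev (H : G.HS X Es φ ψ a b c) (h : G.Joins ψ b c) : G.HS X Es ψ φ c b a := by
  exact ⟨H.mc, H.mb, H.ma, H.bc.symm, H.ac.symm, H.ab.symm, H.hψ, H.hφ, H.ne.symm, h.symm,
    Or.inl H.jφ.symm⟩

theorem HS.flip (H : G.HS X Es φ ψ a b c) (h : G.Joins ψ a b) : G.HS X Es φ ψ b a c := by
  exact ⟨H.mb, H.ma, H.mc, H.ab.symm, H.bc, H.ac, H.hφ, H.hψ, H.ne, H.jφ.symm, Or.inr h.symm⟩

theorem HS.not_both (H : G.HS X Es φ ψ a b c) (h : G.Joins ψ b c) : ¬ G.Joins ψ a b := by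
  exact fun h' => (h.inc_iff.1 h'.inc).elim H.ab H.ac

theorem HS.par_colour (H : G.HS X Es φ ψ a b c) (h : G.Joins ψ a b) (hp : G.St X Es p) :
    ¬ (φ ∈ p.1 ↔ ψ ∈ p.1) := by
  have k : ∀ T, G.Tr X T → φ ∈ T → ψ ∉ T := fun T hT h1 h2 =>
    hT.acyc.not_conn h1 H.jφ (Conn.edge (mem_erase.2 ⟨H.ne.symm, h2⟩) h)
  have := k _ hp.fst
  have := k _ hp.snd
  have := (hp.cov φ).1 H.hφ
  have := (hp.cov ψ).1 H.hψ
  tauto

end Gr

end Pool.Agent.P.MP_3f5ce9_co
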