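import Pool.Agent.P.MP_3f5ce9_co.W.Graph

/-!
Closure properties of regular matroids.
-/

open Finset

namespace Pool.Agent.P.MP_3f5ce9_co

namespace BM

variable {M N : BM} {X : Finset ℕ}

section
variable {V : Type} [AddCommGroup V] [Module (ZMod 3) V]

local instance rl_prime : Fact (Nat.Prime 3) := ⟨Nat.prime_three⟩

theorem rl_fin (v : ℕ → V) (X : Finset ℕ) :
    Module.Finite (ZMod 3) (Submodule.span (ZMod 3) (v '' (X : Set ℕ))) :=
  Module.Finite.span_of_finite _ (X.finite_toSet.image v)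

theorem rl_indep (v : ℕ → V) (I : Finset ℕ) : LinearIndepOn (ZMod 3) v (I : Set ℕ) ↔
    Module.finrank (ZMod 3) (Submodule.span (ZMod 3) (v '' (I : Set ℕ))) = I.card := by
  rw [LinearIndepOn, linearIndependent_iff_card_eq_finrank_span, Set.finrank,
    ← Set.image_eq_range, eq_comm]
  simp

theorem rl_of_rank (v : ℕ → V) (h : ∀ X ⊆ M.E,
    M.r X = Module.finrank (ZMod 3) (Submodule.span (ZMod 3) (v '' (X : Set ℕ)))) : M.Reg := by
  have := rl_fin v M.E
  obtain ⟨U, hU⟩ : ∃ U, U = Submodule.span (ZMod 3) (v '' (M.E : Set ℕ)) := ⟨_, rfl⟩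
  rw [← hU] at this
  let ψ : U →ₗ[ZMod 3] (ℕ → ZMod 3) :=
    (Function.ExtendByZero.linearMap (ZMod 3) Fin.val).comp
      (Module.finBasis (ZMod 3) U).equivFun.toLinearMap
  have hψ : Function.Injective ψ :=
    (Function.extend_injective Fin.val_injective _).comp
      (Module.finBasis (ZMod 3) U).equivFun.injective
  obtain ⟨φ, hφ⟩ := LinearMap.exists_extend ψ
  refine ⟨fun e => φ (v e), fun X hX => ?_⟩
  rw [h X hX, ← Set.image_image φ v, Submodule.span_image, ← LinearMap.range_domRestrict,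
    LinearMap.finrank_range_of_inj]
  have hle : Submodule.span (ZMod 3) (v '' (X : Set ℕ)) ≤ U :=
    hU ▸ Submodule.span_mono (Set.image_mono hX)
  intro x y hxy
  have e : ∀ x : Submodule.span (ZMod 3) (v '' (X : Set ℕ)), φ x = ψ ⟨x, hle x.2⟩ :=
    fun x => by rw [← hφ]; rfl
  simp only [LinearMap.domRestrict_apply, e] at hxy
  exact Subtype.ext (congrArg Subtype.val (hψ hxy) :)

theorem rl_three {v : ℕ → V} {p q r : ℕ} (hpq : p ≠ q) (hpr : p ≠ r) (hqr : q ≠ r)
    (h : LinearIndepOn (ZMod 3) v (({p, q, r} : Finset ℕ) : Set ℕ)) {x y z : ZMod 3}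
    (h0 : x • v p + y • v q + z • v r = 0) : x = 0 ∧ y = 0 ∧ z = 0 := by
  have := linearIndepOn_finset_iff.1 h (fun i => if i = p then x else if i = q then y else z) (by
    rw [sum_insert (by simp [hpq, hpr]), sum_pair hqr]
    simpa [hpq.symm, hpr.symm, hqr.symm, add_assoc] using h0)
  exact ⟨by simpa using this p (by simp), by simpa [hpq.symm] using this q (by simp),
    by simpa [hpr.symm, hqr.symm] using this r (by simp)⟩

end

theorem rl_conn (G : Gr ℕ ℕ) (F : Finset ℕ) (u w : ℕ) :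
    (Finsupp.single u 1 - Finsupp.single w 1 : ℕ →₀ ZMod 3) ∈ Submodule.span (ZMod 3)
      ((fun e => (Finsupp.single (G.s e) 1 - Finsupp.single (G.t e) 1 : ℕ →₀ ZMod 3)) ''
        (F : Set ℕ)) ↔ G.Conn F u w := by
  classical
  constructor
  · intro h Z hZ
    let l : (ℕ →₀ ZMod 3) →ₗ[ZMod 3] ZMod 3 :=
      Finsupp.linearCombination (ZMod 3) fun z => if z ∈ Z then 1 else 0
    have h1 : ∀ a b, l (Finsupp.single a 1 - Finsupp.single b 1) = 0 ↔ (a ∈ Z ↔ b ∈ Z) := by
      intro a b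
      simp only [l, map_sub, Finsupp.linearCombination_single, one_smul]
      by_cases ha : a ∈ Z <;> by_cases hb : b ∈ Z <;> simp [ha, hb]
    refine (h1 u w).1 ((Submodule.span_le (p := LinearMap.ker l)).2 ?_ h)
    rintro _ ⟨e, he, rfl⟩
    exact (h1 _ _).2 (hZ e he)
  · intro h
    refine (h {z | (Finsupp.single u 1 - Finsupp.single z 1 : ℕ →₀ ZMod 3) ∈ Submodule.span (ZMod 3)
      ((fun e => (Finsupp.single (G.s e) 1 - Finsupp.single (G.t e) 1 : ℕ →₀ ZMod 3)) ''
        (F : Set ℕ))} fun e he => ?_).1 (by simp)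
    have h1 := Submodule.subset_span (R := ZMod 3) (Set.mem_image_of_mem
      (fun e => (Finsupp.single (G.s e) 1 - Finsupp.single (G.t e) 1 : ℕ →₀ ZMod 3))
      (mem_coe.2 he))
    exact ⟨fun h2 => by simpa using Submodule.add_mem _ h2 h1,
      fun h2 => by simpa using Submodule.sub_mem _ h2 h1⟩

theorem rl_F7_indep {I : Finset ℕ} (h : I ⊆ range 7) (h' : ∀ C ∈ I.powerset,
    oddSum (fun i => (range 16).filter fun j => ([1, 2, 3, 4, 5, 6, 7].getD i 0).testBit j) C = ∅ →
      C = ∅) : F7.Indep I :=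
  ⟨h, fun C hC hI => h' C (mem_powerset.2 hI) hC.2⟩

theorem Reg.of_indep {V : Type} [AddCommGroup V] [Module (ZMod 3) V] (v : ℕ → V)
    (h : ∀ I ⊆ M.E, M.Indep I ↔ LinearIndepOn (ZMod 3) v (I : Set ℕ)) : M.Reg := by
  refine rl_of_rank v fun X hX => ?_
  obtain ⟨I, h1, h2, h3⟩ := M.exists_basis X
  have h4 := (h I h2.1).1 h2
  suffices h5 : Submodule.span (ZMod 3) (v '' (I : Set ℕ)) =
      Submodule.span (ZMod 3) (v '' (X : Set ℕ)) by rw [← h3, ← (rl_indep v I).1 h4, h5]
  refine le_antisymm (Submodule.span_mono (Set.image_mono h1)) (Submodule.span_le.2 ?_)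
  rintro _ ⟨e, he, rfl⟩
  by_contra hc
  have heI : e ∉ I := fun h5 => hc (Submodule.subset_span ⟨e, h5, rfl⟩)
  have h5 := ((h (insert e I) (insert_subset (hX he) h2.1)).2
    (by rw [coe_insert]; exact h4.insert hc)).card_le_r (insert_subset he h1)
  rw [card_insert_of_notMem heI] at h5
  omega

theorem Reg.exists_indep (h : M.Reg) : ∃ v : ℕ → ℕ → ZMod 3,
    (∀ I ⊆ M.E, M.Indep I ↔ LinearIndepOn (ZMod 3) v (I : Set ℕ)) ∧
    (∀ X ⊆ M.E, ∀ e ∈ M.E, e ∈ M.cl X ↔ v e ∈ Submodule.span (ZMod 3) (v '' (X : Set ℕ))) := by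
  obtain ⟨v, hv⟩ := h
  refine ⟨v, fun I hI => ?_, fun X hX e he => ?_⟩
  · rw [indep_iff, rl_indep, hv I hI, and_iff_right hI]
  · rw [mem_cl, and_iff_right he, hv X hX, hv _ (insert_subset he hX), coe_insert,
      Set.image_insert_eq]
    refine ⟨fun h1 => ?_, fun h1 => by rw [Submodule.span_insert_eq_span h1]⟩
    have := rl_fin v (insert e X)
    rw [coe_insert, Set.image_insert_eq] at this
    rw [Submodule.eq_of_le_of_finrank_eq (Submodule.span_mono (Set.subset_insert _ _)) h1.symm]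
    exact Submodule.subset_span (Set.mem_insert _ _)

theorem Reg.res (h : M.Reg) (X : Finset ℕ) : (M.res X).Reg := by
  obtain ⟨v, hv⟩ := h
  exact ⟨v, fun Y hY => by
    rw [r_res_of_subset M (hY.trans inter_subset_right), hv Y (hY.trans inter_subset_left)]⟩

theorem Reg.del (h : M.Reg) (X : Finset ℕ) : (M.del X).Reg := by
  rw [del_eq_res]
  exact h.res _

theorem Reg.con (h : M.Reg) (X : Finset ℕ) : (M.con X).Reg := by
  obtain ⟨v, hv⟩ := h
  obtain ⟨S, hS⟩ : ∃ S, S = Submodule.span (ZMod 3) (v '' ((X ∩ M.E : Finset ℕ) : Set ℕ)) :=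
    ⟨_, rfl⟩
  refine rl_of_rank (fun e => S.mkQ (v e)) fun Y hY => ?_
  have hY' : Y ⊆ M.E := hY.trans sdiff_subset
  have h1 := r_con M X Y
  rw [← r_inter_E M X, ← r_inter_E M (Y ∪ X), union_inter_distrib_right, inter_eq_left.2 hY',
    hv _ inter_subset_right, hv _ (union_subset hY' inter_subset_right), ← hS] at h1
  have := rl_fin v (Y ∪ X ∩ M.E)
  obtain ⟨T, hT⟩ : ∃ T, T = Submodule.span (ZMod 3) (v '' ((Y ∪ X ∩ M.E : Finset ℕ) : Set ℕ)) :=
    ⟨_, rfl⟩
  rw [← hT] at this h1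
  have h2 : T = Submodule.span (ZMod 3) (v '' (Y : Set ℕ)) ⊔ S := by
    rw [hT, hS, coe_union, Set.image_union, Submodule.span_union]
  have h3 := LinearMap.finrank_range_add_finrank_ker (S.mkQ.domRestrict T)
  rw [LinearMap.range_domRestrict, LinearMap.ker_domRestrict, Submodule.ker_mkQ,
    (Submodule.comapSubtypeEquivOfLe (h2 ▸ le_sup_right : S ≤ T)).finrank_eq] at h3
  have h4 : T.map S.mkQ = Submodule.span (ZMod 3) ((fun e => S.mkQ (v e)) '' (Y : Set ℕ)) := by
    rw [h2, Submodule.map_sup, Submodule.mkQ_map_self, sup_bot_eq, ← Set.image_image S.mkQ v,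
      Submodule.span_image]
  rw [h4] at h3
  omega

theorem Reg.pull {π : ℕ → ℕ} (h : M.Reg) (hπ : ∀ x ∈ X, π x ∈ M.E) : (M.pull π X).Reg := by
  obtain ⟨v, hv⟩ := h
  refine ⟨fun e => v (π e), fun Y hY => ?_⟩
  rw [r_pull hπ hY, hv _ (image_subset_iff.2 fun x hx => hπ x (hY hx)), coe_image,
    Set.image_image]

theorem Reg.dual (h : M.Reg) : M.dual.Reg := by
  obtain ⟨v, -, hv⟩ := h.exists_indep
  let L : (ℕ → ZMod 3) →ₗ[ZMod 3] (ℕ → ZMod 3) :=
    ∑ e ∈ M.E, (LinearMap.proj e : (ℕ → ZMod 3) →ₗ[ZMod 3] ZMod 3).smulRight (v e)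
  have hL : ∀ x, L x = ∑ e ∈ M.E, x e • v e := fun x => by simp [L, LinearMap.sum_apply]
  refine Reg.of_indep (V := Module.Dual (ZMod 3) (LinearMap.ker L))
    (fun e => (LinearMap.proj e).comp (LinearMap.ker L).subtype) fun I hI => ?_
  have hI' : I ⊆ M.E := hI
  have h1 : M.dual.Indep I ↔
      ∀ e ∈ I, v e ∈ Submodule.span (ZMod 3) (v '' ((M.E \ I : Finset ℕ) : Set ℕ)) := by
    rw [indep_dual, and_iff_right hI']
    have e1 : M.E \ I ∪ I = M.E := sdiff_union_of_subset hI'
    constructor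
    · intro h2 e he
      exact (hv _ sdiff_subset e (hI' he)).1 (subset_cl_of_r hI' (by rw [e1, h2]) he)
    · intro h2
      have := r_union_of_subset_cl (M := M) (X := M.E \ I) (Y := I)
        fun e he => (hv _ sdiff_subset e (hI' he)).2 (h2 e he)
      rw [e1] at this
      exact this.symm
  rw [h1, linearIndepOn_finset_iff]
  constructor
  · intro h2 f hf e he
    obtain ⟨c, hc⟩ := (Submodule.mem_span_image_finset_iff_exists_fun' _).1 (h2 e he)
    have h3 : (fun x => if x ∈ I then (if x = e then 1 else 0) else -c x) ∈ LinearMap.ker L := by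
      rw [LinearMap.mem_ker, hL, ← sum_sdiff hI', sum_congr rfl (g := fun x => -(c x • v x))
        fun x hx => by simp [(mem_sdiff.1 hx).2], sum_neg_distrib, hc, sum_eq_single e
        (fun x hx hne => by simp [hx, hne]) (fun h => absurd he h)]
      simp [he]
    have h4 := LinearMap.congr_fun hf ⟨_, h3⟩
    rw [LinearMap.sum_apply, sum_eq_single e (fun x hx hne => by simp [hx, hne])
      (fun h => absurd he h)] at h4
    simpa [he] using h4
  · intro h2 e he
    by_contra hc
    obtain ⟨l, hl, hl'⟩ := Submodule.exists_le_ker_of_notMem hc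
    refine hl (h2 (fun x => l (v x)) (LinearMap.ext fun u => ?_) e he)
    have h3 := congrArg l (LinearMap.mem_ker.1 u.2)
    rw [hL, ← sum_sdiff hI', map_add, map_sum, map_sum, sum_eq_zero fun x hx => by
      rw [map_smul, LinearMap.mem_ker.1 (hl' (Submodule.subset_span ⟨x, hx, rfl⟩)), smul_zero]]
      at h3
    simpa [LinearMap.sum_apply, mul_comm] using h3

theorem HasMinor.reg (h : M.HasMinor N) (hM : M.Reg) : N.Reg := by
  obtain ⟨f, C, h⟩ := h
  rw [h.eq_pull]
  exact (hM.con C).pull fun x hx => mem_sdiff.2 (h.maps x hx)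

theorem reg_gm (G : Gr ℕ ℕ) (Es : Finset ℕ) : (gm G Es).Reg := by
  refine Reg.of_indep
    (fun e => (Finsupp.single (G.s e) 1 - Finsupp.single (G.t e) 1 : ℕ →₀ ZMod 3)) fun I hI => ?_
  rw [indep_gm, and_iff_right (show I ⊆ Es from hI), linearIndepOn_iff_notMem_span]
  refine forall₂_congr fun e _ => ?_
  rw [← coe_erase, rl_conn]

theorem Graphic.reg (h : M.Graphic) : M.Reg := by
  obtain ⟨G, hG⟩ := h
  rw [hG]
  exact reg_gm G _

theorem Cographic.reg (h : M.Cographic) : M.Reg := by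
  have := (Graphic.reg (cographic_iff.1 h)).dual
  rwa [dual_dual] at this

theorem not_reg_F7 : ¬ F7.Reg := by
  intro h
  obtain ⟨v, h1, h2⟩ := h.exists_indep
  have hl : ∀ p q r : ℕ, F7.cyc {p, q, r} → ∃ x y : ZMod 3, x • v q + y • v r = v p := by
    intro p q r hc
    have h3 := F7.sub _ hc
    have h4 := (h2 {q, r} ((subset_insert _ _).trans h3) p (h3 (mem_insert_self _ _))).1
      (mem_cl_of_cyc hc (mem_insert_self _ _) Subset.rfl)
    rwa [coe_pair, Set.image_pair, Submodule.mem_span_pair] at h4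
  have hi : ∀ I, F7.Indep I → LinearIndepOn (ZMod 3) v (I : Set ℕ) := fun I hI =>
    (h1 I hI.1).1 hI
  obtain ⟨a, b, e2⟩ := hl 2 0 1 ⟨by decide, by decide +kernel⟩
  obtain ⟨c, d, e4⟩ := hl 4 0 3 ⟨by decide, by decide +kernel⟩
  obtain ⟨e, f, e5⟩ := hl 5 1 3 ⟨by decide, by decide +kernel⟩
  obtain ⟨g, h, e5'⟩ := hl 5 2 4 ⟨by decide, by decide +kernel⟩
  obtain ⟨i, j, e6⟩ := hl 6 2 3 ⟨by decide, by decide +kernel⟩
  obtain ⟨k, l, e6'⟩ := hl 6 1 4 ⟨by decide, by decide +kernel⟩
  obtain ⟨m, n, e6''⟩ := hl 6 0 5 ⟨by decide, by decide +kernel⟩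
  have i013 := hi {0, 1, 3} (rl_F7_indep (by decide) (by decide +kernel))
  have i613 := hi {6, 1, 3} (rl_F7_indep (by decide) (by decide +kernel))
  have i603 := hi {6, 0, 3} (rl_F7_indep (by decide) (by decide +kernel))
  have i601 := hi {6, 0, 1} (rl_F7_indep (by decide) (by decide +kernel))
  have n1 : i * a ≠ 0 := fun h0 => one_ne_zero (rl_three (by decide) (by decide) (by decide) i613
    (x := 1) (y := -(i * b)) (z := -j) (by
      rw [← e6, ← e2]; linear_combination (norm := module) h0 • v 0)).1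
  have n2 : i * b ≠ 0 := fun h0 => one_ne_zero (rl_three (by decide) (by decide) (by decide) i603
    (x := 1) (y := -(i * a)) (z := -j) (by
      rw [← e6, ← e2]; linear_combination (norm := module) h0 • v 1)).1
  have n3 : j ≠ 0 := fun h0 => one_ne_zero (rl_three (by decide) (by decide) (by decide) i601
    (x := 1) (y := -(i * a)) (z := -(i * b)) (by
      rw [← e6, ← e2]; linear_combination (norm := module) h0 • v 3)).1
  obtain ⟨a1, a2, a3⟩ := rl_three (by decide) (by decide) (by decide) i013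
    (x := g * a + h * c) (y := g * b - e) (z := h * d - f) (by
      rw [← e5, ← e2, ← e4] at e5'; linear_combination (norm := module) e5')
  obtain ⟨b1, -, b3⟩ := rl_three (by decide) (by decide) (by decide) i013
    (x := i * a - l * c) (y := i * b - k) (z := j - l * d) (by
      rw [← e6, ← e2, ← e4] at e6'; linear_combination (norm := module) -e6')
  obtain ⟨-, c2, c3⟩ := rl_three (by decide) (by decide) (by decide) i013
    (x := i * a - m) (y := i * b - n * e) (z := j - n * f) (by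
      rw [← e6, ← e2, ← e5] at e6''; linear_combination (norm := module) -e6'')
  have hb : b ≠ 0 := right_ne_zero_of_mul n2
  have hd : d ≠ 0 := fun h0 => n3 (by linear_combination b3 + l * h0)
  have d1 : n * g = i := mul_right_cancel₀ hb (by linear_combination n * a2 - c2)
  have d2 : n * h = l := mul_right_cancel₀ hd (by linear_combination n * a3 - c3 + b3)
  have d3 : (2 : ZMod 3) * (i * a) = 0 := by linear_combination n * a1 + b1 - a * d1 - c * d2
  exact mul_ne_zero (by decide) n1 d3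

end BM

end Pool.Agent.P.MP_3f5ce9_co
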