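import Pool.Agent.P.MP_3f5ce9_co.W.TriA
import Pool.Agent.P.MP_3f5ce9_co.W.RegL

/-!
Traces of closures on a triangle, gluing of ternary representations.
-/

open Finset

namespace Pool.Agent.P.MP_3f5ce9_co

theorem tc_mem (t : Fin 3 → ℕ) (i : Fin 3) : t i ∈ tset t := mem_tset.2 ⟨i, rfl⟩

theorem tc_sub {t : Fin 3 → ℕ} {X : Finset ℕ} (h : ∀ i, t i ∈ X) : tset t ⊆ X := fun e he => by
  obtain ⟨i, rfl⟩ := mem_tset.1 he
  exact h i

namespace BM

variable {P : BM} {t : Fin 3 → ℕ} {X Y S L1 L2 : Finset ℕ}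

theorem tc_le (h : P.IsTri t) (hS : S ⊆ tset t) (hc : S.card ≤ 2) (hX : S ⊆ P.cl X) :
    P.r (X ∪ tset t) + S.card ≤ P.r X + 2 := by
  have h1 := P.r_submod (X ∪ S) (tset t)
  have h2 := (h.indep hS hc).card_le_r (X := (X ∪ S) ∩ tset t) (subset_inter subset_union_right hS)
  have h3 := P.r_mono (X := X ∪ tset t) (Y := X ∪ S ∪ tset t)
    (union_subset_union_left subset_union_left)
  rw [r_union_of_subset_cl hX, h.rk] at h1
  omega

theorem tc_one (h : P.IsTri t) {i : Fin 3} (hi : t i ∈ P.cl X) :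
    P.r (X ∪ tset t) ≤ P.r X + 1 := by
  have := tc_le h (S := {t i}) (by simp [tc_mem]) (by simp) (singleton_subset_iff.2 hi)
  rw [card_singleton] at this
  omega

theorem tc_all (h : P.IsTri t) (hr : P.r (X ∪ tset t) ≤ P.r X) (k : Fin 3) : t k ∈ P.cl X :=
  subset_cl_of_r h.subset (le_antisymm hr (P.r_mono subset_union_left)) (tc_mem t k)

theorem tc_two (h : P.IsTri t) {i j : Fin 3} (hij : i ≠ j) (hi : t i ∈ P.cl X)
    (hj : t j ∈ P.cl X) : P.r (X ∪ tset t) ≤ P.r X := by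
  have := tc_le h (X := X) (S := {t i, t j}) (by simp [insert_subset_iff, tc_mem]) card_le_two
    (by simp [insert_subset_iff, hi, hj])
  rw [card_pair (h.inj.ne hij)] at this
  omega

theorem tc_zero (h : P.IsTri t) (h0 : ∀ i, t i ∉ P.cl X) : P.r (X ∪ tset t) = P.r X + 2 := by
  have h1 := tc_le h (X := X) (empty_subset _) (by simp) (empty_subset _)
  by_contra h2
  obtain ⟨i, hi⟩ := h.exists_mem_cl (X := X) (by rw [card_empty] at h1; omega)
  exact h0 i hi

theorem tc_trace (h : P.IsTri t) (β : Tp) :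
    (P.r (X ∪ tset t) + β.dim = P.r X + 2 ∧ ∀ i, β = .p i → t i ∈ P.cl X) ↔
      ∀ i, (t i ∈ P.cl X ↔ β = .u ∨ β = .p i) := by
  rcases β with _ | k | _
  · simp only [Tp.dim, reduceCtorEq, false_imp_iff, implies_true, and_true, or_self, iff_false]
    exact ⟨fun h1 i hi => by have := tc_one h hi; omega, tc_zero h⟩
  · simp only [Tp.dim, reduceCtorEq, false_or, Tp.p.injEq]
    refine ⟨fun h1 i => ⟨fun hi => by_contra fun hk => ?_, h1.2 i⟩, fun h1 => ⟨?_, fun i => (h1 i).2⟩⟩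
    · have := tc_two h hk (h1.2 k rfl) hi
      omega
    · have h2 := tc_one h ((h1 k).2 rfl)
      obtain ⟨i, hi⟩ := exists_ne k
      have h3 : ¬ P.r (X ∪ tset t) ≤ P.r X := fun e => hi ((h1 i).1 (tc_all h e i)).symm
      omega
  · simp only [Tp.dim, reduceCtorEq, false_imp_iff, implies_true, and_true, or_false, iff_true]
    exact ⟨fun h1 => tc_all h (by omega), fun h1 => by rw [r_union_of_subset_cl (tc_sub h1)]⟩

theorem tc_skew (h : P.Tri t L1 L2) (h1 : X ⊆ L1 ∪ tset t) (h2 : Y ⊆ L2 ∪ tset t) :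
    P.r (X ∪ Y) = P.r X + P.r Y ↔ ¬ ∃ i, t i ∈ P.cl X ∧ t i ∈ P.cl Y := by
  constructor
  · rintro e ⟨i, hX, hY⟩
    have h3 := P.r_submod (P.cl X) (P.cl Y)
    have h4 := (h.tri.indep (X := {t i}) (by simp [tc_mem]) (by simp)).card_le_r
      (X := P.cl X ∩ P.cl Y) (by simp [hX, hY])
    rw [r_cl_union, union_comm, r_cl_union, union_comm, r_cl, r_cl] at h3
    rw [card_singleton] at h4
    omega
  · intro hn
    by_cases hY : ∀ i, t i ∉ P.cl Y
    · exact h.r_skew h1 h2 (tc_zero h.tri hY)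
    by_cases hX : ∀ i, t i ∉ P.cl X
    · rw [union_comm, add_comm]
      exact h.symm.r_skew h2 h1 (tc_zero h.tri hX)
    push Not at hX hY
    obtain ⟨i, hi⟩ := hX
    obtain ⟨j, hj⟩ := hY
    have h3 := tc_two h.tri (X := X ∪ Y) (fun e : i = j => hn ⟨i, hi, e ▸ hj⟩)
      (P.cl_mono subset_union_left hi) (P.cl_mono subset_union_right hj)
    have h4 := h.r_union h1 h2
    have h5 : ¬ P.r (X ∪ tset t) ≤ P.r X := fun e => hn ⟨j, tc_all h.tri e j, hj⟩
    have h6 : ¬ P.r (Y ∪ tset t) ≤ P.r Y := fun e => hn ⟨i, hi, tc_all h.tri e i⟩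
    have h7 := P.r_union_le X Y
    omega

theorem tc_indep (hd : Disjoint X Y) :
    P.Indep (X ∪ Y) ↔ P.Indep X ∧ P.Indep Y ∧ P.r (X ∪ Y) = P.r X + P.r Y := by
  refine ⟨fun h => ?_, fun h => ?_⟩
  · have h1 := h.subset subset_union_left
    have h2 := h.subset subset_union_right
    exact ⟨h1, h2, by rw [h.r_eq, h1.r_eq, h2.r_eq, card_union_of_disjoint hd]⟩
  · exact indep_iff.2 ⟨union_subset h.1.1 h.2.1.1,
      by rw [h.2.2, h.1.r_eq, h.2.1.r_eq, card_union_of_disjoint hd]⟩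

/-- the point of the triangle that a nonzero vector of the line detects -/
def tc_idx (p q : ZMod 3) : Fin 3 := if p = 0 then 1 else if p = q then 2 else 0

theorem tc_cases : ∀ p q : ZMod 3, p ≠ 0 → p ≠ q → q = 0 ∨ q = -p := by decide

theorem tc_ne : (2 : ZMod 3) ≠ 0 := by decide

theorem tc_side (h : P.IsTri t) (hT : tset t ⊆ Y) (hY : Y ⊆ P.E) (hr : (P.res Y).Reg) :
    ∃ (v : ℕ → ℕ → ZMod 3) (a b : ℕ → ZMod 3),
      (∀ I ⊆ Y, P.Indep I ↔ LinearIndepOn (ZMod 3) v (I : Set ℕ)) ∧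
      (∀ p q : ZMod 3, p • a + q • b = 0 → p = 0 ∧ q = 0) ∧
      (∀ I ⊆ Y, ∀ i, t i ∈ P.cl I →
        ![a, b, a + b] i ∈ Submodule.span (ZMod 3) (v '' (I : Set ℕ))) ∧
      ∀ I ⊆ Y, ∀ p q : ZMod 3, ¬ (p = 0 ∧ q = 0) →
        p • a + q • b ∈ Submodule.span (ZMod 3) (v '' (I : Set ℕ)) → t (tc_idx p q) ∈ P.cl I := by
  have : Fact (Nat.Prime 3) := ⟨Nat.prime_three⟩
  obtain ⟨v, hI, hc⟩ := hr.exists_indep
  have hE : (P.res Y).E = Y := by rw [res_E, inter_eq_right.2 hY]
  rw [hE] at hI hc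
  have hm : ∀ i, t i ∈ Y := fun i => hT (tc_mem t i)
  have hc' : ∀ X ⊆ Y, ∀ i, t i ∈ P.cl X ↔ v (t i) ∈ Submodule.span (ZMod 3) (v '' (X : Set ℕ)) :=
    fun X hX i => by
      rw [← hc X hX _ (hm i), mem_cl, mem_cl, hE, r_res_of_subset _ hX,
        r_res_of_subset _ (insert_subset (hm i) hX)]
      exact and_congr_left' (iff_of_true (hY (hm i)) (hm i))
  have h1 : ∀ i j, i ≠ j → v (t i) ∉ Submodule.span (ZMod 3) {v (t j)} := fun i j hij e => by
    have h2 := (mem_cl.1 ((hc' {t j} (by simp [hm]) i).2 (by simpa using e))).2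
    rw [(h.indep (by simp [insert_subset_iff, tc_mem]) card_le_two).r_eq, card_pair (h.inj.ne hij)]
      at h2
    have := P.r_le_card {t j}
    rw [card_singleton] at this
    omega
  obtain ⟨α, β, e⟩ : ∃ α β : ZMod 3, α • v (t 0) + β • v (t 1) = v (t 2) := by
    have := (hc' {t 0, t 1} (by simp [insert_subset_iff, hm]) 2).1
      (mem_cl_of_cyc h.cyc (tc_mem t 2) (tc_sub fun i => by fin_cases i <;> simp))
    rw [coe_pair, Set.image_pair] at this
    exact Submodule.mem_span_pair.1 this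
  have hα : α ≠ 0 := fun z => h1 2 1 (by decide)
    (Submodule.mem_span_singleton.2 ⟨β, by rw [← e, z, zero_smul, zero_add]⟩)
  have hβ : β ≠ 0 := fun z => h1 2 0 (by decide)
    (Submodule.mem_span_singleton.2 ⟨α, by rw [← e, z, zero_smul, add_zero]⟩)
  have hw : ∀ X ⊆ Y, ∀ i, t i ∈ P.cl X ↔ ![α • v (t 0), β • v (t 1), α • v (t 0) + β • v (t 1)] i ∈
      Submodule.span (ZMod 3) (v '' (X : Set ℕ)) := fun X hX i => by
    rw [hc' X hX, e]
    fin_cases i
    · exact (Submodule.smul_mem_iff _ hα).symm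
    · exact (Submodule.smul_mem_iff _ hβ).symm
    · rfl
  generalize α • v (t 0) = a, β • v (t 1) = b at hw
  have key : ∀ I ⊆ Y, ∀ p q : ZMod 3, ¬ (p = 0 ∧ q = 0) →
      p • a + q • b ∈ Submodule.span (ZMod 3) (v '' (I : Set ℕ)) → t (tc_idx p q) ∈ P.cl I := by
    intro I hIY p q hpq hs
    rw [hw I hIY, tc_idx]
    split_ifs with hp hq
    · rw [hp, zero_smul, zero_add] at hs
      exact (Submodule.smul_mem_iff _ fun z => hpq ⟨hp, z⟩).1 hs
    · rw [← hq, ← smul_add] at hs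
      exact (Submodule.smul_mem_iff _ hp).1 hs
    · obtain rfl | rfl := tc_cases p q hp hq
      · rw [zero_smul, add_zero] at hs
        exact (Submodule.smul_mem_iff _ hp).1 hs
      rw [neg_smul, ← sub_eq_add_neg, ← smul_sub, Submodule.smul_mem_iff _ hp] at hs
      have hJ : insert (t 0) I ⊆ Y := insert_subset (hm 0) hIY
      have h0 : t 0 ∈ P.cl (insert (t 0) I) := subset_cl (hJ.trans hY) (mem_insert_self _ _)
      have h2 : t 1 ∈ P.cl (insert (t 0) I) := (hw _ hJ 1).2 (by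
        have := sub_mem ((hw _ hJ 0).1 h0)
          (Submodule.span_mono (Set.image_mono (coe_subset.2 (subset_insert _ _))) hs)
        simpa using this)
      have h3 := tc_two h (by decide) h0 h2
      have h4 := P.r_insert_le (t 0) I
      have h5 := P.r_mono (union_subset_union_left (t := tset t) (subset_insert (t 0) I))
      obtain ⟨i, hi⟩ := h.exists_mem_cl (X := I) (by omega)
      rw [hw I hIY] at hi
      fin_cases i
      · exact hi
      · simpa using add_mem hs hi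
      · have := add_mem hs hi
        rw [← Submodule.smul_mem_iff _ tc_ne, two_smul]
        simpa using this
  refine ⟨v, a, b, fun I hIY => by rw [← hI I hIY, indep_res, and_iff_left hIY],
    fun p q z => by_contra fun hpq => ?_, fun I hIY i => (hw I hIY i).1, key⟩
  have := (mem_cl.1 (key ∅ (empty_subset _) p q hpq (z ▸ zero_mem _))).2
  rw [r_empty, (h.indep (by simp [tc_mem]) (by simp)).r_eq] at this
  simp at this

theorem tc_glue {V : Type} [AddCommGroup V] [Module (ZMod 3) V] (a b a' b' : V) :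
    ∃ (W : Type) (_ : AddCommGroup W) (_ : Module (ZMod 3) W) (f g : V →ₗ[ZMod 3] W),
      ∀ x y, f x = g y ↔ ∃ p q : ZMod 3, p • a + q • b = x ∧ p • a' + q • b' = y := by
  let U : Submodule (ZMod 3) (V × V) := Submodule.span _ {(a, -a'), (b, -b')}
  refine ⟨(V × V) ⧸ U, inferInstance, inferInstance, U.mkQ.comp (LinearMap.inl _ _ _),
    U.mkQ.comp (LinearMap.inr _ _ _), fun x y => ?_⟩
  simp only [LinearMap.comp_apply, Submodule.mkQ_apply, Submodule.Quotient.eq, U,
    Submodule.mem_span_pair, LinearMap.inl_apply, LinearMap.inr_apply, Prod.ext_iff, Prod.mk_sub_mk,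
    Prod.smul_mk, Prod.mk_add_mk, sub_zero, zero_sub, smul_neg, ← neg_add, neg_inj]

theorem tc_reg (h : P.Tri t L1 L2) (h1 : (P.res (L1 ∪ tset t)).Reg)
    (h2 : (P.res (L2 ∪ tset t)).Reg) : P.Reg := by
  obtain ⟨v, a, b, i1, z1, c1, d1⟩ := tc_side h.tri subset_union_right
    (h.ground ▸ union_subset_union_left subset_union_left) h1
  obtain ⟨w, a', b', i2, z2, c2, d2⟩ := tc_side h.tri subset_union_right
    (h.ground ▸ union_subset_union_left subset_union_right) h2
  obtain ⟨W, _, _, f, g, hfg⟩ := tc_glue a b a' b'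
  have hf : Function.Injective f := (injective_iff_map_eq_zero f).2 fun x hx => by
    obtain ⟨p, q, rfl, e⟩ := (hfg x 0).1 (by rw [hx, map_zero])
    simp [z2 p q e]
  have hg : Function.Injective g := (injective_iff_map_eq_zero g).2 fun y hy => by
    obtain ⟨p, q, e, rfl⟩ := (hfg 0 y).1 (by rw [hy, map_zero])
    simp [z1 p q e]
  refine Reg.of_indep (fun e => if e ∈ L2 then g (w e) else f (v e)) fun I hI => ?_
  have s1 : I \ L2 ⊆ L1 ∪ tset t := fun e he => by
    have := h.ground ▸ hI (mem_sdiff.1 he).1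
    have := (mem_sdiff.1 he).2
    simp only [mem_union] at *
    tauto
  have s2 : I ∩ L2 ⊆ L2 ∪ tset t := inter_subset_right.trans subset_union_left
  have e1 : Set.EqOn (fun e => if e ∈ L2 then g (w e) else f (v e)) (f ∘ v) (I \ L2 : Finset ℕ) :=
    fun e he => if_neg (mem_sdiff.1 he).2
  have e2 : Set.EqOn (fun e => if e ∈ L2 then g (w e) else f (v e)) (g ∘ w) (I ∩ L2 : Finset ℕ) :=
    fun e he => if_pos (mem_inter.1 he).2
  rw [← sdiff_union_inter I L2, tc_indep (disjoint_sdiff_inter I L2), coe_union,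
    linearIndepOn_union_iff (disjoint_coe.2 (disjoint_sdiff_inter I L2)), linearIndepOn_congr e1,
    linearIndepOn_congr e2, f.linearIndepOn_iff_of_injOn hf.injOn,
    g.linearIndepOn_iff_of_injOn hg.injOn, i1 _ s1, i2 _ s2, tc_skew h s1 s2, e1.image_eq,
    e2.image_eq, Set.image_comp, Set.image_comp, ← Submodule.map_span, ← Submodule.map_span,
    Submodule.disjoint_def]
  refine and_congr_right' (and_congr_right' ⟨?_, ?_⟩)
  · rintro hn _ ⟨x, hx, rfl⟩ ⟨y, hy, e⟩
    obtain ⟨p, q, rfl, rfl⟩ := (hfg x y).1 e.symm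
    by_cases hpq : p = 0 ∧ q = 0
    · simp [hpq]
    · exact (hn ⟨_, d1 _ s1 p q hpq hx, d2 _ s2 p q hpq hy⟩).elim
  · rintro hd ⟨i, k1, k2⟩
    obtain ⟨p, q, hpq, e, e'⟩ : ∃ p q : ZMod 3, ¬ (p = 0 ∧ q = 0) ∧
        p • a + q • b = ![a, b, a + b] i ∧ p • a' + q • b' = ![a', b', a' + b'] i := by
      fin_cases i
      · exact ⟨1, 0, by decide, by simp, by simp⟩
      · exact ⟨0, 1, by decide, by simp, by simp⟩
      · exact ⟨1, 1, by decide, by simp, by simp⟩
    have := hd _ ⟨_, c1 _ s1 i k1, rfl⟩ ⟨_, c2 _ s2 i k2, ((hfg _ _).2 ⟨p, q, e, e'⟩).symm⟩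
    exact hpq (z1 p q (e ▸ hf (this.trans (map_zero f).symm)))

end BM

end Pool.Agent.P.MP_3f5ce9_co
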