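import Pool.Agent.P.MP_3f5ce9_co.W.TriB
import Pool.Agent.P.MP_3f5ce9_co.W.TriCA

/-!
Regular and graphic three-sums, typings of graphs.
-/

open Finset

namespace Pool.Agent.P.MP_3f5ce9_co

variable {G : Gr ℕ ℕ} {X L L1 L2 F : Finset ℕ} {t ρ : Fin 3 → ℕ} {β : Tp}

theorem tc_join (ht : TriAt G ρ t) {i j k : Fin 3} (h1 : i ≠ j) (h2 : i ≠ k) (h3 : j ≠ k) :
    G.Joins (t i) (ρ j) (ρ k) := by
  obtain ⟨a, b, c⟩ := ht
  fin_cases i <;> fin_cases j <;> fin_cases k <;>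
    first | exact absurd rfl h1 | exact absurd rfl h2 | exact absurd rfl h3 | assumption
          | (apply Gr.Joins.symm; assumption)

theorem tc_third : ∀ j k : Fin 3, j ≠ k → ∃ i, i ≠ j ∧ i ≠ k := by decide

theorem tc_other : ∀ i : Fin 3, ∃ j k, i ≠ j ∧ i ≠ k ∧ j ≠ k := by decide

theorem tc_lnk : ∀ (β : Tp) (i j k : Fin 3), i ≠ j → i ≠ k → j ≠ k →
    (β.lnk j k = true ↔ β = .u ∨ β = .p i) := by decide

theorem tc_refl : ∀ (β : Tp) (i : Fin 3), β.lnk i i = true := by decide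

theorem tc_compat : ∀ α β : Tp, α.compat β = β.compat α := by decide

theorem tc_roots (ht : TriAt G ρ t) (hT : tset t ⊆ F) (j k : Fin 3) : G.Conn F (ρ j) (ρ k) := by
  by_cases h : j = k
  · rw [h]; exact Gr.Conn.refl _ _ _
  · obtain ⟨i, h1, h2⟩ := tc_third j k h
    exact Gr.Conn.edge (hT (tc_mem t i)) (tc_join ht h1 h2 h)

theorem tc_norm (hR : Rooted G X ρ L) (ht : TriAt G ρ t) (hF : F ⊆ L)
    (h : ∀ v ∈ X, ∃ i, G.Conn F v (ρ i)) : G.Norm X (F ∪ tset t) := by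
  refine ⟨fun e he => ?_, ⟨_, hR.mem 0⟩, fun u hu w hw => ?_⟩
  · rcases mem_union.1 he with he | he
    · exact hR.within e (hF he)
    · obtain ⟨i, rfl⟩ := mem_tset.1 he
      obtain ⟨j, k, h1, h2, h3⟩ := tc_other i
      rcases tc_join ht h1 h2 h3 with ⟨a, b⟩ | ⟨a, b⟩ <;> rw [a, b] <;> exact ⟨hR.mem _, hR.mem _⟩
  · obtain ⟨i, hi⟩ := h u hu
    obtain ⟨j, hj⟩ := h w hw
    exact ((hi.mono subset_union_left).trans (tc_roots ht subset_union_right i j)).trans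
      (hj.mono subset_union_left).symm

theorem tc_fresh (L : Finset ℕ) : ∃ t : Fin 3 → ℕ, Function.Injective t ∧ Disjoint L (tset t) := by
  refine ⟨fun i => L.sup id + 1 + i, fun i j e => Fin.ext (by simpa using e),
    disjoint_left.2 fun e he h => ?_⟩
  obtain ⟨i, hi⟩ := mem_tset.1 h
  have : e ≤ L.sup id := le_sup (f := id) he
  omega

theorem GTy.norm (h : GTy G X ρ L F β) (hR : Rooted G X ρ L) (ht : TriAt G ρ t) :
    G.Norm X (L ∪ tset t) := by
  exact tc_norm hR ht Subset.rfl fun v hv => (h.2.2.1 v hv).imp fun _ hi => hi.mono h.1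

theorem gTy_congr {G' : Gr ℕ ℕ} (h : ∀ e ∈ L, G'.s e = G.s e ∧ G'.t e = G.t e) :
    GTy G' X ρ L = GTy G X ρ L := by
  have c : ∀ F ⊆ L, ∀ u w, G'.Conn F u w ↔ G.Conn F u w := fun F hF u w =>
    ⟨Gr.conn_congr fun e he => ⟨(h e (hF he)).1.symm, (h e (hF he)).2.symm⟩,
      Gr.conn_congr fun e he => h e (hF he)⟩
  funext F β
  refine propext (and_congr_right fun hF => and_congr (forall₂_congr fun e he => ?_) ?_)
  · rw [c _ ((erase_subset _ _).trans hF), (h e (hF he)).1, (h e (hF he)).2]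
  · simp only [c F hF]

/-- the edges of a triangle with new names can be added to a rooted graph -/
theorem Rooted.exists_triAt (hR : Rooted G X ρ L) (ht : Function.Injective t)
    (hd : Disjoint L (tset t)) :
    ∃ G' : Gr ℕ ℕ, TriAt G' ρ t ∧ Rooted G' X ρ L ∧ ∀ e ∈ L, G'.s e = G.s e ∧ G'.t e = G.t e := by
  let G' : Gr ℕ ℕ :=
    ⟨fun e => if e = t 0 then ρ 1 else if e = t 1 then ρ 0 else if e = t 2 then ρ 0 else G.s e,
     fun e => if e = t 0 then ρ 2 else if e = t 1 then ρ 2 else if e = t 2 then ρ 1 else G.t e⟩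
  have h : ∀ e ∈ L, G'.s e = G.s e ∧ G'.t e = G.t e := fun e he => by
    have : ∀ i, e ≠ t i := fun i hi => disjoint_left.1 hd he (hi ▸ tc_mem t i)
    simp [G', this]
  refine ⟨G', ⟨Or.inl ?_, Or.inl ?_, Or.inl ?_⟩, ⟨hR.inj, hR.mem, fun e he => ?_⟩, h⟩
  · simp [G']
  · simp [G', ht.eq_iff]
  · simp [G', ht.eq_iff]
  · rw [(h e he).1, (h e he).2]
    exact hR.within e he

namespace BM

variable {P N : BM}

theorem hasTy_gm (hR : Rooted G X ρ L) (ht : TriAt G ρ t) (hd : Disjoint L (tset t))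
    (hn : G.Norm X (L ∪ tset t)) : (gm G (L ∪ tset t)).HasTy t L = GTy G X ρ L := by
  have hT : (gm G (L ∪ tset t)).IsTri t := isTri_gm hR.inj ht subset_union_right
  funext F β
  refine propext (and_congr_right fun hF => ?_)
  have hF' : F ⊆ L ∪ tset t := hF.trans subset_union_left
  rw [indep_gm, and_iff_right hF']
  refine and_congr_right fun hA => and_congr ⟨fun hr v hv => ?_, fun h => ?_⟩ ?_
  · have h1 : L ∪ tset t ⊆ (gm G (L ∪ tset t)).cl (F ∪ tset t) := subset_cl_of_r Subset.rfl (by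
      rw [union_eq_right.2 (union_subset_union_left hF), hr])
    have h2 : G.Conn (F ∪ tset t) v (ρ 0) := (hn.conn v hv _ (hR.mem 0)).of_spans fun e he =>
      (mem_cl_gm (union_subset_union_left hF) he).1 (h1 he)
    refine (h2 {v | ∃ i, G.Conn F v (ρ i)} fun e he => ?_).2 ⟨0, Gr.Conn.refl _ _ _⟩
    rcases mem_union.1 he with he | he
    · have := Gr.Conn.edge he (G.joins_st e)
      exact exists_congr fun i => ⟨this.symm.trans, this.trans⟩
    · obtain ⟨i, rfl⟩ := mem_tset.1 he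
      obtain ⟨j, k, h1, h2, h3⟩ := tc_other i
      rcases tc_join ht h1 h2 h3 with ⟨a, b⟩ | ⟨a, b⟩ <;> rw [a, b] <;>
        exact iff_of_true ⟨_, Gr.Conn.refl _ _ _⟩ ⟨_, Gr.Conn.refl _ _ _⟩
  · have h1 := r_gm_conn (union_subset_union_left hF) (tc_norm hR ht hF h)
    have h2 := r_gm_conn Subset.rfl hn
    omega
  · have hc : ∀ i j k, i ≠ j → i ≠ k → j ≠ k →
        (t i ∈ (gm G (L ∪ tset t)).cl F ↔ G.Conn F (ρ j) (ρ k)) := fun i j k h1 h2 h3 => by
      rw [mem_cl_gm hF' (mem_union_right _ (tc_mem t i))]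
      exact ⟨(tc_join ht h1 h2 h3).conn', (tc_join ht h1 h2 h3).conn⟩
    rw [← (indep_gm.2 ⟨hF', hA⟩).r_eq]
    refine Iff.trans (and_congr_right' (forall₂_congr fun i _ => ?_)) ((tc_trace hT β).trans
      ⟨fun h j k => ?_, fun h i => ?_⟩)
    · rw [mem_cl, and_iff_right (hT.subset (tc_mem t i))]
    · by_cases e : j = k
      · rw [e]; exact iff_of_true (Gr.Conn.refl _ _ _) (tc_refl β k)
      · obtain ⟨i, h1, h2⟩ := tc_third j k e
        rw [← hc i j k h1 h2 e, h, tc_lnk β i j k h1 h2 e]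
    · obtain ⟨j, k, h1, h2, h3⟩ := tc_other i
      rw [hc i j k h1 h2 h3, h, tc_lnk β i j k h1 h2 h3]

theorem Graphic.exists_rooted (h : N.Graphic) (ht : N.IsTri t) (hE : N.E = L ∪ tset t) :
    ∃ G X ρ, Rooted G X ρ L ∧ TriAt G ρ t ∧ G.Norm X (L ∪ tset t) ∧ N = gm G (L ∪ tset t) := by
  obtain ⟨G, X, hn, e⟩ := h.exists_norm
  rw [hE] at hn e
  obtain ⟨ρ, h1, h2⟩ := IsTri.exists_triAt (e ▸ ht)
  refine ⟨G, X, ρ, ⟨h1, fun i => ?_, hn.within.mono subset_union_left⟩, h2, hn, e⟩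
  obtain ⟨j, k, a, b, c⟩ := tc_other i
  exact ((tc_join h2 a.symm c b).mem hn.within (mem_union_right _ (tc_mem t j))).1

theorem Tri.reg (h : P.Tri t L1 L2) (h1 : (P.res (L1 ∪ tset t)).Reg)
    (h2 : (P.res (L2 ∪ tset t)).Reg) : P.Reg := by
  exact tc_reg h h1 h2

theorem tc_ren (h : N.Graphic) (ht : N.IsTri t) (hE : N.E = L ∪ tset t) (c : ℕ) :
    ∃ G X, TriAt G (fun i => i) t ∧ G.Within (L ∪ tset t) X ∧
      (∀ v ∈ X, v < 3 ∨ ∃ w, v = 2 * w + 4 + c) ∧ N = gm G (L ∪ tset t) := by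
  obtain ⟨G, X, ρ, hR, h1, hn, e⟩ := h.exists_rooted ht hE
  let φ : ℕ → ℕ := fun v =>
    if v = ρ 0 then 0 else if v = ρ 1 then 1 else if v = ρ 2 then 2 else 2 * v + 4 + c
  have hφ : ∀ i, φ (ρ i) = i := fun i => by fin_cases i <;> simp [φ, hR.inj.eq_iff]
  refine ⟨G.map φ, X.image φ, ⟨?_, ?_, ?_⟩, fun e he => ⟨mem_image_of_mem _ (hn.within e he).1,
    mem_image_of_mem _ (hn.within e he).2⟩, fun v hv => ?_,
    e.trans (gm_map_inj hn.within fun u _ w _ huw => ?_).symm⟩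
  · simpa only [hφ] using h1.1.map φ
  · simpa only [hφ] using h1.2.1.map φ
  · simpa only [hφ] using h1.2.2.map φ
  · obtain ⟨w, -, rfl⟩ := mem_image.1 hv
    simp only [φ]
    split_ifs
    exacts [Or.inl (by omega), Or.inl (by omega), Or.inl (by omega), Or.inr ⟨w, rfl⟩]
  · simp only [φ] at huw
    split_ifs at huw <;> omega

theorem Tri.graphic (h : P.Tri t L1 L2) (h1 : (P.res (L1 ∪ tset t)).Graphic)
    (h2 : (P.res (L2 ∪ tset t)).Graphic) : P.Graphic := by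
  obtain ⟨G1, X1, a1, b1, c1, e1⟩ := tc_ren h1 (h.tri.res subset_union_right) h.res_E 0
  obtain ⟨G2, X2, a2, b2, c2, e2⟩ := tc_ren h2 (h.tri.res subset_union_right) h.symm.res_E 1
  let G : Gr ℕ ℕ := ⟨fun e => if e ∈ L1 then G1.s e else G2.s e,
    fun e => if e ∈ L1 then G1.t e else G2.t e⟩
  have k2 : ∀ e ∉ L1, G.s e = G2.s e ∧ G.t e = G2.t e := fun e he => ⟨if_neg he, if_neg he⟩
  have n2 : ∀ e ∈ L2 ∪ tset t, e ∉ L1 := fun e he h' =>
    (mem_union.1 he).elim (disjoint_left.1 h.d12 h') (disjoint_left.1 h.d1 h')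
  have a : TriAt G (fun i => i) t := by
    have : ∀ i u w, G2.Joins (t i) u w → G.Joins (t i) u w := fun i u w hj => by
      have := k2 _ (n2 _ (mem_union_right _ (tc_mem t i)))
      rwa [Gr.Joins, this.1, this.2]
    exact ⟨this _ _ _ a2.1, this _ _ _ a2.2.1, this _ _ _ a2.2.2⟩
  have j1 : ∀ e ∈ L1 ∪ tset t, G.Joins e (G1.s e) (G1.t e) := fun e he => by
    rcases mem_union.1 he with he | he
    · exact Or.inl ⟨if_pos he, if_pos he⟩
    · obtain ⟨i, rfl⟩ := mem_tset.1 he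
      obtain ⟨j, k, x, y, z⟩ := tc_other i
      rcases tc_join a1 x y z with ⟨p, q⟩ | ⟨p, q⟩ <;> rw [p, q]
      exacts [tc_join a x y z, (tc_join a x y z).symm]
  have j2 : ∀ e ∈ L2 ∪ tset t, G.Joins e (G2.s e) (G2.t e) := fun e he => Or.inl (k2 e (n2 e he))
  have w : ∀ {H : Gr ℕ ℕ} {Es Y : Finset ℕ}, (∀ e ∈ Es, G.Joins e (H.s e) (H.t e)) →
      H.Within Es Y → G.Within Es Y := fun hj hw e he => by
    rcases hj e he with ⟨p, q⟩ | ⟨p, q⟩ <;> rw [p, q]
    exacts [hw e he, (hw e he).symm]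
  have r : ∀ u ∈ X1 ∩ X2, u < 3 := fun u hu => by
    rcases c1 u (mem_inter.1 hu).1 with p | ⟨p, hp⟩
    · exact p
    rcases c2 u (mem_inter.1 hu).2 with q | ⟨q, hq⟩ <;> omega
  rw [h.eq_sum, e1, e2, ← gm_congr j1, ← gm_congr j2, gm_sum G (w j1 b1) (w j2 b2) fun u hu v hv =>
    tc_roots a (subset_inter subset_union_right subset_union_right) ⟨u, r u hu⟩ ⟨v, r v hv⟩]
  exact graphic_gm _ _

end BM

theorem GTy.card (h : GTy G X ρ L F β) (hR : Rooted G X ρ L) : F.card + 3 = X.card + β.dim := by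
  obtain ⟨t, h1, h2⟩ := tc_fresh L
  obtain ⟨G', h3, h4, h5⟩ := hR.exists_triAt h1 h2
  rw [← gTy_congr h5] at h
  have hn := h.norm h4 h3
  rw [← BM.hasTy_gm h4 h3 h2 hn] at h
  have := BM.r_gm_conn Subset.rfl hn
  have := h.2.2.1
  have := h.2.2.2.1
  omega

/-- a labelled set has a compatible type iff the union is a spanning tree -/
theorem gTy_iff_tr (hR : Rooted G X ρ L) (ht : TriAt G ρ t) (hd : Disjoint L (tset t))
    {S : Finset ℕ} {α : Tp} (hS : tyT t S α) (hF : F ⊆ L) :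
    (∃ β, GTy G X ρ L F β ∧ α.compat β = true) ↔ G.Tr X (F ∪ S) := by
  have hs : F ∪ S ⊆ L ∪ tset t := union_subset_union hF hS.1
  by_cases hn : G.Norm X (L ∪ tset t)
  · have hT : (BM.gm G (L ∪ tset t)).IsTri t := BM.isTri_gm hR.inj ht subset_union_right
    have e1 : (F ∪ S) ∩ L = F := by
      rw [union_inter_distrib_right, inter_eq_left.2 hF,
        disjoint_iff_inter_eq_empty.1 (hd.symm.mono_left hS.1), union_empty]
    have e2 : (F ∪ S) ∩ tset t = S := by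
      rw [union_inter_distrib_right, inter_eq_left.2 hS.1,
        disjoint_iff_inter_eq_empty.1 (hd.mono_left hF), empty_union]
    rw [← and_iff_right (b := G.Tr X (F ∪ S)) hs, ← BM.isBase_gm hn, BM.isBase_labels hT rfl hd,
      BM.hasTy_gm hR ht hd hn, Glue, and_iff_right hs, e1, e2]
    refine exists_congr fun β => ⟨fun h => ⟨α, h.1, hS, tc_compat α β ▸ h.2⟩, ?_⟩
    rintro ⟨γ, h1, h2, h3⟩
    exact ⟨h1, by rw [(mSide_tyT hT.inj).uniq _ _ _ hS h2, tc_compat, h3]⟩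
  · refine iff_of_false (fun ⟨_, h, _⟩ => hn (h.norm hR ht)) fun h => hn ?_
    exact tc_norm hR ht Subset.rfl fun v hv => by
      have h2 := (h.conn v hv _ (hR.mem 0)).mono hs
      refine (h2 {v | ∃ i, G.Conn L v (ρ i)} fun e he => ?_).2 ⟨0, Gr.Conn.refl _ _ _⟩
      rcases mem_union.1 he with he | he
      · have := Gr.Conn.edge he (G.joins_st e)
        exact exists_congr fun i => ⟨this.symm.trans, this.trans⟩
      · obtain ⟨i, rfl⟩ := mem_tset.1 he
        obtain ⟨j, k, h1, h2, h3⟩ := tc_other i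
        rcases tc_join ht h1 h2 h3 with ⟨a, b⟩ | ⟨a, b⟩ <;> rw [a, b] <;>
          exact iff_of_true ⟨_, Gr.Conn.refl _ _ _⟩ ⟨_, Gr.Conn.refl _ _ _⟩

theorem mSide_gTy (hR : Rooted G X ρ L) : MSide L (GTy G X ρ L) := by
  by_cases h : ∃ F β, GTy G X ρ L F β
  · obtain ⟨F, β, h⟩ := h
    obtain ⟨t, h1, h2⟩ := tc_fresh L
    obtain ⟨G', h3, h4, h5⟩ := hR.exists_triAt h1 h2
    rw [← gTy_congr h5] at h ⊢
    rw [← BM.hasTy_gm h4 h3 h2 (h.norm h4 h3)]
    exact BM.mSide_hasTy (BM.isTri_gm hR.inj h3 subset_union_right) subset_union_left h2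
  · push Not at h
    exact ⟨fun F β a => (h F β a).elim, fun F β _ _ a => (h F β a).elim,
      fun F β _ a => (h F β a).elim, fun F β _ _ _ a => (h F β a).elim,
      fun F β _ _ _ a => (h F β a).elim⟩

end Pool.Agent.P.MP_3f5ce9_co
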