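import Pool.Agent.P.MP_3f5ce9_co.W.AGen
import Pool.Agent.P.MP_3f5ce9_co.W.HBasic
import Pool.Agent.P.MP_3f5ce9_co.W.TriC
import Pool.Agent.P.MP_3f5ce9_co.Unique

/-!
States with the same outer part are connected.
-/

open Finset

namespace Pool.Agent.P.MP_3f5ce9_co

/-- `F` has a type compatible with `α` -/
def FzOK (ty : Typing) (α : Tp) (F : Finset ℕ) : Prop := ∃ β, ty F β ∧ α.compat β = true

/-- the inner parts of a state whose outer parts have the types `α1`, `α2` -/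
structure FzP (ty : Typing) (L : Finset ℕ) (α1 α2 : Tp) (p : Pr) : Prop where
  fst : FzOK ty α1 p.1
  snd : FzOK ty α2 p.2
  disj : Disjoint p.1 p.2
  cov : p.1 ∪ p.2 = L

/-- an inner exchange with a unique inner partner and without outer partners -/
def FzU (ty : Typing) (α1 α2 : Tp) (p q : Pr) : Prop :=
  ∃ e ∈ p.1, ∃ f ∈ p.2, q = xch p e f ∧
    (∀ g ∈ p.2, FzOK ty α1 (xch p e g).1 → FzOK ty α2 (xch p e g).2 → g = f) ∧
    ¬ ((∃ γ, ty (p.1.erase e) γ) ∧ ∃ γ, ty (insert e p.2) γ)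

def FzS (ty : Typing) (L : Finset ℕ) (α1 α2 : Tp) (p q : Pr) : Prop :=
  FzP ty L α1 α2 p ∧ FzP ty L α1 α2 q ∧ (FzU ty α1 α2 p q ∨ FzU ty α2 α1 p.swap q.swap)

section glue

variable {ty ty1 : Typing} {L L1 x x1 x2 F : Finset ℕ} {α α1 α2 : Tp} {p q : Pr} {a : ℕ}

theorem FzP.swap (h : FzP ty L α1 α2 p) : FzP ty L α2 α1 p.swap :=
  ⟨h.snd, h.fst, h.disj.symm, (union_comm _ _).trans h.cov⟩

theorem fz_swap (h : Relation.ReflTransGen (FzS ty L α1 α2) p.swap q.swap) :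
    Relation.ReflTransGen (FzS ty L α2 α1) p q := by
  have k : ∀ p q : Pr, Relation.ReflTransGen (FzS ty L α1 α2) p q →
      Relation.ReflTransGen (FzS ty L α2 α1) p.swap q.swap := by
    intro p q h
    induction h with
    | refl => exact Relation.ReflTransGen.refl
    | tail _ h ih => exact ih.tail ⟨h.1.swap, h.2.1.swap, h.2.2.symm⟩
  exact k _ _ h

theorem fz_inter (hd : Disjoint L1 L) (hx : x ⊆ L1) (hF : F ⊆ L) :
    (x ∪ F) ∩ L1 = x ∧ (x ∪ F) ∩ L = F := by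
  have hd' := disjoint_left.1 hd
  constructor <;> ext g <;> have := @hx g <;> have := @hF g <;>
    have := @hd' g <;> simp only [mem_inter, mem_union] <;> tauto

theorem fz_glue (h1 : MSide L1 ty1) (hd : Disjoint L1 L) (t : ty1 x α) (hF : F ⊆ L) :
    Glue L1 ty1 L ty (x ∪ F) ↔ FzOK ty α F := by
  obtain ⟨e1, e2⟩ := fz_inter hd (h1.sub _ _ t) hF
  rw [Glue, e1, e2, and_iff_right (union_subset_union (h1.sub _ _ t) hF)]
  constructor
  · rintro ⟨α', β, h2, h3, h4⟩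
    exact ⟨β, h3, by rw [h1.uniq _ _ _ t h2, h4]⟩
  · rintro ⟨β, h3, h4⟩
    exact ⟨α, β, t, h3, h4⟩

theorem fz_st (h1 : MSide L1 ty1) (hd : Disjoint L1 L) (t1 : ty1 x1 α1) (t2 : ty1 x2 α2)
    (hx : Disjoint x1 x2) (hc : x1 ∪ x2 = L1) (hp : FzP ty L α1 α2 p) :
    St2 (Glue L1 ty1 L ty) (L1 ∪ L) (x1 ∪ p.1, x2 ∪ p.2) := by
  have s1 : p.1 ⊆ L := hp.cov ▸ subset_union_left
  have s2 : p.2 ⊆ L := hp.cov ▸ subset_union_right
  refine ⟨(fz_glue h1 hd t1 s1).2 hp.fst, (fz_glue h1 hd t2 s2).2 hp.snd, ?_, ?_⟩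
  · simp only [disjoint_union_left, disjoint_union_right]
    exact ⟨⟨hx, (hd.mono (h1.sub _ _ t2) s1).symm⟩, hd.mono (h1.sub _ _ t1) s2, hp.disj⟩
  · rw [← hc, ← hp.cov]
    exact union_union_union_comm _ _ _ _

theorem fz_ux (h1 : MSide L1 ty1) (hd : Disjoint L1 L) (ha : a ∈ L1) (t1 : ty1 x1 α1)
    (t2 : ty1 x2 α2) (hp : FzP ty L α1 α2 p) (h : FzU ty α1 α2 p q) :
    UX2 (Glue L1 ty1 L ty) a (x1 ∪ p.1, x2 ∪ p.2) (x1 ∪ q.1, x2 ∪ q.2) := by
  obtain ⟨e, he, f, hf, rfl, hu, hn⟩ := h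
  have s1 : p.1 ⊆ L := hp.cov ▸ subset_union_left
  have s2 : p.2 ⊆ L := hp.cov ▸ subset_union_right
  have u1 := h1.sub _ _ t1
  have u2 := h1.sub _ _ t2
  have n : ∀ g ∈ L, g ∉ L1 := fun g hg h => disjoint_left.1 hd h hg
  have k : ∀ g ∈ p.2, xch (x1 ∪ p.1, x2 ∪ p.2) e g = (x1 ∪ (xch p e g).1, x2 ∪ (xch p e g).2) := by
    intro g hg
    have a1 : e ∉ x1 := fun h => n e (s1 he) (u1 h)
    have a2 : g ∉ x2 := fun h => n g (s2 hg) (u2 h)
    refine Prod.ext ?_ ?_ <;> ext i <;> simp only [xch, mem_union, mem_insert, mem_erase] <;> grind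
  refine ⟨e, mem_union_right _ he, f, mem_union_right _ hf, fun h => n e (s1 he) (h ▸ ha),
    fun h => n f (s2 hf) (h ▸ ha), (k f hf).symm, fun g hg g1 g2 => ?_⟩
  rcases mem_union.1 hg with hg | hg
  · exfalso
    obtain ⟨-, _, β, -, b1, -⟩ := g1
    obtain ⟨-, _, γ, -, b2, -⟩ := g2
    refine hn ⟨⟨β, ?_⟩, γ, ?_⟩
    · rwa [show (xch (x1 ∪ p.1, x2 ∪ p.2) e g).1 ∩ L = p.1.erase e from ?_] at b1
      ext i
      have := n i
      have := @u1 i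
      have := @u2 i
      have := @s1 i
      simp only [xch, mem_union, mem_insert, mem_erase, mem_inter]
      grind
    · rwa [show (xch (x1 ∪ p.1, x2 ∪ p.2) e g).2 ∩ L = insert e p.2 from ?_] at b2
      ext i
      have := n i
      have := @u2 i
      have := @s2 i
      have := s1 he
      have := u2 hg
      simp only [xch, mem_union, mem_insert, mem_erase, mem_inter]
      grind
  · rw [k g hg] at g1 g2
    refine hu g hg ((fz_glue h1 hd t1 ?_).1 g1) ((fz_glue h1 hd t2 ?_).1 g2)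
    · exact insert_subset (s2 hg) ((erase_subset _ _).trans s1)
    · exact insert_subset (s1 he) ((erase_subset _ _).trans s2)

theorem fz_lift (h1 : MSide L1 ty1) (hd : Disjoint L1 L) (ha : a ∈ L1) (t1 : ty1 x1 α1)
    (t2 : ty1 x2 α2) (hx : Disjoint x1 x2) (hc : x1 ∪ x2 = L1)
    (h : Relation.ReflTransGen (FzS ty L α1 α2) p q) :
    Relation.EqvGen (US (Glue L1 ty1 L ty) (L1 ∪ L) a) (x1 ∪ p.1, x2 ∪ p.2)
      (x1 ∪ q.1, x2 ∪ q.2) := by
  induction h with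
  | refl => exact Relation.EqvGen.refl _
  | tail _ h ih =>
    refine ih.trans _ _ _ (Relation.EqvGen.rel _ _ ⟨fz_st h1 hd t1 t2 hx hc h.1,
      fz_st h1 hd t1 t2 hx hc h.2.1, h.2.2.imp (fz_ux h1 hd ha t1 t2 h.1) ?_⟩)
    exact fz_ux h1 hd ha t2 t1 h.1.swap

end glue

section core

variable {G : Gr ℕ ℕ} {X X' L K1 K2 Es Fz R U : Finset ℕ} {ρ : Fin 3 → ℕ} {α α1 α2 : Tp}
  {p q : Pr} {w φ ψ a b c s : ℕ}

theorem fz_dim : ∀ α β : Tp, α.compat β = true → α.dim + β.dim = 2 := by decide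

theorem fz_le : ∀ α : Tp, α.dim ≤ 2 := by decide

theorem fz_split (hE : ∀ e, e ∈ Es ↔ e ∈ L ∨ e ∈ K1 ∨ e ∈ K2) (hp : G.St X' Es p)
    (p1 : K1 ⊆ p.1) (p2 : K2 ⊆ p.2) : p.1 ∩ L ∪ K1 = p.1 := by
  ext g
  have := hE g
  have := hp.cov g
  have := hp.disj g
  have := @p1 g
  have := @p2 g
  simp only [mem_union, mem_inter]
  tauto

theorem fz_p (hE : ∀ e, e ∈ Es ↔ e ∈ L ∨ e ∈ K1 ∨ e ∈ K2)
    (T1 : ∀ F ⊆ L, FzOK (GTy G X ρ L) α1 F ↔ G.Tr X' (F ∪ K1))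
    (T2 : ∀ F ⊆ L, FzOK (GTy G X ρ L) α2 F ↔ G.Tr X' (F ∪ K2)) (hp : G.St X' Es p)
    (p1 : K1 ⊆ p.1) (p2 : K2 ⊆ p.2) : FzP (GTy G X ρ L) L α1 α2 (p.1 ∩ L, p.2 ∩ L) := by
  refine ⟨(T1 _ inter_subset_right).2 ?_, (T2 _ inter_subset_right).2 ?_, ?_, ?_⟩
  · rw [fz_split hE hp p1 p2]; exact hp.fst
  · have := fz_split (K1 := K2) (K2 := K1) (fun e => (hE e).trans (or_congr_right or_comm)) hp.swap p2 p1
    simp only [Prod.fst_swap] at this
    rw [this]; exact hp.snd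
  · exact disjoint_left.2 fun g h1 h2 => hp.disj g (mem_inter.1 h1).1 (mem_inter.1 h2).1
  · ext g
    have := hE g
    have := hp.cov g
    simp only [mem_union, mem_inter]
    tauto

theorem fz_alm (hR : Rooted G X ρ L) (hE : ∀ e, e ∈ Es ↔ e ∈ L ∨ e ∈ K1 ∨ e ∈ K2)
    (d1 : Disjoint L K1) (d2 : Disjoint L K2)
    (T1 : ∀ F ⊆ L, FzOK (GTy G X ρ L) α1 F ↔ G.Tr X' (F ∪ K1))
    (T2 : ∀ F ⊆ L, FzOK (GTy G X ρ L) α2 F ↔ G.Tr X' (F ∪ K2))
    (hr : ∀ k, (∃ g ∈ K1, G.Inc g (ρ k)) ∨ (ρ k ∈ R ∧ K2 ⊆ Fz) ∨ α2 = .z)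
    (hp : G.St X' Es p) (hq : G.St X' Es q) (p1 : K1 ⊆ p.1) (p2 : K2 ⊆ p.2) (q1 : K1 ⊆ q.1)
    (q2 : K2 ⊆ q.2) (h : G.ALM Fz R w p q) :
    FzU (GTy G X ρ L) α1 α2 (p.1 ∩ L, p.2 ∩ L) (q.1 ∩ L, q.2 ∩ L) := by
  obtain ⟨e, he, f, hf, heF, hfF, ie, jf, hl, h1, h2, hw⟩ := h
  obtain ⟨e', he', f', hf', h3, hu⟩ := Gr.LM.ux hp hq ⟨e, he, f, hf, ie, jf, hl, h1, h2⟩
  have de := hp.disj e he
  have df : f ∉ p.1 := fun h => hp.disj f h hf
  have eq1 : e ∉ q.1 := by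
    rw [h1]
    simp only [mem_insert, mem_erase]
    grind
  have fq1 : f ∈ q.1 := by simp [h1]
  have ee : e' = e := by
    by_contra hne
    exact eq1 (by rw [h3]; exact mem_insert_of_mem (mem_erase.2 ⟨Ne.symm hne, he⟩))
  have ff : f' = f := by
    rw [h3] at fq1
    rcases mem_insert.1 fq1 with h | h
    · exact h.symm
    · exact absurd (mem_of_mem_erase h) df
  subst ee ff
  have eL : e' ∈ L := by
    rcases (hE e').1 ((hp.cov e').2 (Or.inl he)) with h | h | h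
    exacts [h, absurd (q1 h) eq1, absurd (p2 h) de]
  have fL : f' ∈ L := by
    rcases (hE f').1 ((hp.cov f').2 (Or.inr hf)) with h | h | h
    exacts [h, absurd (p1 h) df, (hq.disj f' fq1 (q2 h)).elim]
  have sp1 := fz_split hE hp p1 p2
  have sp2 := fz_split (K1 := K2) (K2 := K1) (fun e => (hE e).trans (or_congr_right or_comm)) hp.swap p2 p1
  simp only [Prod.fst_swap] at sp2
  have n1 : ∀ g ∈ L, g ∉ K1 := fun g hg => disjoint_left.1 d1 hg
  have n2 : ∀ g ∈ L, g ∉ K2 := fun g hg => disjoint_left.1 d2 hg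
  refine ⟨e', mem_inter.2 ⟨he, eL⟩, f', mem_inter.2 ⟨hf, fL⟩, ?_, fun g hg g1 g2 => ?_, ?_⟩
  · rw [h1, h2]
    refine Prod.ext ?_ ?_ <;> ext i <;> simp only [xch, mem_inter, mem_insert, mem_erase] <;> grind
  · obtain ⟨hg, gL⟩ := mem_inter.1 hg
    have g3 := (T1 _ (insert_subset gL ((erase_subset _ _).trans inter_subset_right))).1 g1
    have g4 := (T2 _ (insert_subset eL ((erase_subset _ _).trans inter_subset_right))).1 g2
    have gp : g ∉ p.1 := fun h => hp.disj g h hg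
    refine hu g hg ⟨?_, ?_, ?_, ?_⟩
    · rwa [show insert g ((p.1 ∩ L).erase e') ∪ K1 = insert g (p.1.erase e') from ?_] at g3
      ext i
      have := Finset.ext_iff.1 sp1 i
      have := n1 e' eL
      simp only [mem_inter, mem_insert, mem_erase, mem_union] at this ⊢
      grind
    · rwa [show insert e' ((p.2 ∩ L).erase g) ∪ K2 = insert e' (p.2.erase g) from ?_] at g4
      ext i
      have := Finset.ext_iff.1 sp2 i
      have := n2 g gL
      simp only [mem_inter, mem_insert, mem_erase, mem_union] at this ⊢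
      grind
    · intro i
      have := hp.disj i
      simp only [mem_insert, mem_erase] at this ⊢
      grind
    · intro i
      have := hp.cov i
      simp only [mem_insert, mem_erase] at this ⊢
      grind
  · rintro ⟨⟨γ, g1⟩, δ, g2⟩
    obtain ⟨k, hk⟩ := g1.2.2.1 w (ie.mem hR.within eL)
    have hk : ρ k = w := hk.eq_of_isolated fun g hg hi =>
      (mem_erase.1 hg).1 (hl g (mem_inter.1 (mem_of_mem_erase hg)).1 hi)
    have ne : e' ∉ p.2 ∩ L := fun h => de (mem_inter.1 h).1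
    rcases hr k with ⟨g, hg, hi⟩ | ⟨h4, h5⟩ | h4
    · exact n1 e' eL (hl g (p1 hg) (hk ▸ hi) ▸ hg)
    · refine g2.2.1 e' (mem_insert_self _ _) ?_
      rw [erase_insert ne]
      refine (hw (hk ▸ h4)).mono fun g hg => ?_
      obtain ⟨h6, h7⟩ := mem_sdiff.1 hg
      rw [← sp2] at h6
      exact (mem_union.1 h6).resolve_right fun h => h7 (h5 h)
    · obtain ⟨β, b1, b2⟩ := (fz_p hE T1 T2 hp p1 p2).snd
      have c1 := b1.card hR
      have c2 := g2.card hR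
      have c3 := fz_dim _ _ b2
      have c4 := fz_le δ
      rw [card_insert_of_notMem ne] at c2
      rw [h4] at c3
      simp only [Tp.dim] at c1 c2 c3 c4
      omega

theorem fz_core (H : ∀ n, Gr.CONNn n) (hR : Rooted G X ρ L) (d1 : Disjoint L K1)
    (d2 : Disjoint L K2) (d12 : Disjoint K1 K2)
    (T1 : ∀ F ⊆ L, FzOK (GTy G X ρ L) α1 F ↔ G.Tr X' (F ∪ K1))
    (T2 : ∀ F ⊆ L, FzOK (GTy G X ρ L) α2 F ↔ G.Tr X' (F ∪ K2))
    (hs : G.HS X' (L ∪ (K1 ∪ K2)) φ ψ a b c) (hφ : φ ∉ L) (hψ : ψ ∉ L)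
    (hU : (L ∪ (K1 ∪ K2)) \ {φ, ψ} ⊆ U) (sp : G.SpA X' U)
    (bp : G.Joins ψ a b → ¬ G.BP X' U a b c)
    (r1 : ∀ k, (∃ g ∈ K1, G.Inc g (ρ k)) ∨
      (ρ k ∈ ({a, b, c} : Finset ℕ) ∧ K2 ⊆ {φ, ψ}) ∨ α2 = .z)
    (r2 : ∀ k, (∃ g ∈ K2, G.Inc g (ρ k)) ∨
      (ρ k ∈ ({a, b, c} : Finset ℕ) ∧ K1 ⊆ {φ, ψ}) ∨ α1 = .z)
    (inv : ∀ q, G.St X' (L ∪ (K1 ∪ K2)) q → (φ ∈ q.1 ↔ φ ∈ K1) → (ψ ∈ q.1 ↔ ψ ∈ K1) →
      K1 ⊆ q.1 ∧ K2 ⊆ q.2)
    (hp : FzP (GTy G X ρ L) L α1 α2 p) (hq : FzP (GTy G X ρ L) L α1 α2 q) :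
    Relation.ReflTransGen (FzS (GTy G X ρ L) L α1 α2) p q := by
  have hE : ∀ e, e ∈ L ∪ (K1 ∪ K2) ↔ e ∈ L ∨ e ∈ K1 ∨ e ∈ K2 := fun e => by simp
  have up : ∀ p, FzP (GTy G X ρ L) L α1 α2 p → G.St X' (L ∪ (K1 ∪ K2)) (p.1 ∪ K1, p.2 ∪ K2) ∧
      (φ ∈ p.1 ∪ K1 ↔ φ ∈ K1) ∧ (ψ ∈ p.1 ∪ K1 ↔ ψ ∈ K1) ∧
      ((p.1 ∪ K1) ∩ L, (p.2 ∪ K2) ∩ L) = p := by
    intro p hp
    have s1 : p.1 ⊆ L := hp.cov ▸ subset_union_left
    have s2 : p.2 ⊆ L := hp.cov ▸ subset_union_right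
    refine ⟨⟨(T1 _ s1).1 hp.fst, (T2 _ s2).1 hp.snd, fun g => ?_, fun g => ?_⟩, ?_, ?_, ?_⟩
    · simp only [mem_union]
      rintro (h1 | h1) (h2 | h2)
      exacts [disjoint_left.1 hp.disj h1 h2, disjoint_left.1 d2 (s1 h1) h2,
        disjoint_left.1 d1 (s2 h2) h1, disjoint_left.1 d12 h1 h2]
    · rw [← hp.cov, ← union_union_union_comm, mem_union]
    · exact mem_union.trans (or_iff_right fun h => hφ (s1 h))
    · exact mem_union.trans (or_iff_right fun h => hψ (s1 h))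
    · rw [union_comm p.1, union_comm p.2, (fz_inter d1.symm Subset.rfl s1).2,
        (fz_inter d2.symm Subset.rfl s2).2]
  obtain ⟨a1, a2, a3, a4⟩ := up p hp
  obtain ⟨b1, b2, b3, b4⟩ := up q hq
  have mono : ∀ Y, (G.ind ((L ∪ (K1 ∪ K2)) \ {φ, ψ}) Y).card ≤ (G.ind U Y).card := fun Y =>
    card_le_card (filter_subset_filter _ hU)
  have h := H _ G X' _ φ ψ a b c _ _ le_rfl hs a1 b1
    (fun Y h1 h2 => by have := sp Y h1 h2; have := mono Y; omega) (a2.trans b2.symm)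
    (a3.trans b3.symm) fun j ⟨⟨P, c1, c2, c3, c4, c5⟩, Q, e1, e2, e3, e4, e5⟩ =>
      (bp j ⟨⟨P, c1, c2, c3, c4, c5.trans (by have := mono P; omega)⟩, Q, e1, e2, e3, e4,
        e5.trans (by have := mono Q; omega)⟩).elim
  have key : ∀ σ, G.AReach X' (L ∪ (K1 ∪ K2)) {φ, ψ} {a, b, c} (p.1 ∪ K1, p.2 ∪ K2) σ →
      Relation.ReflTransGen (FzS (GTy G X ρ L) L α1 α2) p (σ.1 ∩ L, σ.2 ∩ L) := by
    have i : ∀ σ, G.AReach X' (L ∪ (K1 ∪ K2)) {φ, ψ} {a, b, c} (p.1 ∪ K1, p.2 ∪ K2) σ →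
        K1 ⊆ σ.1 ∧ K2 ⊆ σ.2 := fun σ h =>
      inv σ (h.st a1) ((h.agree φ (by simp)).symm.trans a2) ((h.agree ψ (by simp)).symm.trans a3)
    intro σ h
    induction h with
    | refl => rw [a4]
    | @tail σ τ h0 h ih =>
      obtain ⟨i1, i2⟩ := i σ h0
      obtain ⟨i3, i4⟩ := i τ (Relation.ReflTransGen.tail h0 h)
      obtain ⟨k1, k2, w, h⟩ := h
      refine ih.tail ⟨fz_p hE T1 T2 k1 i1 i2, fz_p hE T1 T2 k2 i3 i4, h.imp
        (fz_alm hR hE d1 d2 T1 T2 r1 k1 k2 i1 i2 i3 i4) ?_⟩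
      exact fz_alm (K1 := K2) (K2 := K1) hR (fun e => (hE e).trans (or_congr_right or_comm)) d2 d1 T2 T1 r2
        k1.swap k2.swap i2 i1 i4 i3
  have := key _ h
  rwa [b4] at this

theorem fz_congr {G' : Gr ℕ ℕ} (h : LB G X ρ L s)
    (hG : ∀ e ∈ L, G'.s e = G.s e ∧ G'.t e = G.t e) : LB G' X ρ L s := by
  have hi : ∀ Y, G'.ind L Y = G.ind L Y := fun Y =>
    filter_congr fun e he => by rw [(hG e he).1, (hG e he).2]
  refine ⟨⟨h.rooted.inj, h.rooted.mem, fun e he => ?_⟩, fun e he => ?_, h.lo, h.hi, h.card,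
    ?_, ?_, ?_, ?_⟩
  · rw [(hG e he).1, (hG e he).2]; exact h.rooted.within e he
  · rw [(hG e he).1, (hG e he).2]; exact h.loopless e he
  · simpa only [Gr.SpA, hi] using h.b1
  · simpa only [hi] using h.b2
  · simpa only [hi] using h.b3
  · simpa only [Gr.BP, Gr.Crit, hi] using h.b4

theorem fz_two (hR : Rooted G X ρ L) : ∃ (G' : Gr ℕ ℕ) (t t' : Fin 3 → ℕ),
    (∀ e ∈ L, G'.s e = G.s e ∧ G'.t e = G.t e) ∧ TriAt G' ρ t ∧ TriAt G' ρ t' ∧
    Function.Injective t ∧ Function.Injective t' ∧ Disjoint L (tset t) ∧ Disjoint L (tset t') ∧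
    Disjoint (tset t) (tset t') := by
  obtain ⟨t, i1, d1⟩ := tc_fresh L
  obtain ⟨G1, a1, a2, a3⟩ := hR.exists_triAt i1 d1
  obtain ⟨t', i2, d2⟩ := tc_fresh (L ∪ tset t)
  have hR' : Rooted G1 X ρ (L ∪ tset t) := ⟨hR.inj, hR.mem, fun e he => by
    rcases mem_union.1 he with he | he
    · exact a2.within e he
    · obtain ⟨i, rfl⟩ := mem_tset.1 he
      obtain ⟨j, k, h1, h2, h3⟩ := tc_other i
      rcases tc_join a1 h1 h2 h3 with ⟨a, b⟩ | ⟨a, b⟩ <;> rw [a, b] <;>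
        exact ⟨hR.mem _, hR.mem _⟩⟩
  obtain ⟨G2, b1, -, b3⟩ := hR'.exists_triAt i2 d2
  have : ∀ i u w, G1.Joins (t i) u w → G2.Joins (t i) u w := fun i u w hj => by
    have := b3 _ (mem_union_right _ (tc_mem t i))
    rwa [Gr.Joins, this.1, this.2]
  refine ⟨G2, t, t', fun e he => ?_, ⟨this _ _ _ a1.1, this _ _ _ a1.2.1, this _ _ _ a1.2.2⟩, b1,
    i1, i2, d1, (disjoint_union_left.1 d2).1, (disjoint_union_left.1 d2).2⟩
  have := b3 e (mem_union_left _ he)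
  exact ⟨this.1.trans (a3 e he).1, this.2.trans (a3 e he).2⟩

theorem fz_s (h : LB G X ρ L s) (hp : FzP (GTy G X ρ L) L α1 α2 p) :
    s + α1.dim + α2.dim = 4 := by
  obtain ⟨β1, a1, a2⟩ := hp.fst
  obtain ⟨β2, b1, b2⟩ := hp.snd
  have := a1.card h.rooted
  have := b1.card h.rooted
  have := fz_dim _ _ a2
  have := fz_dim _ _ b2
  have := h.card
  have := card_union_of_disjoint hp.disj
  rw [hp.cov] at this
  omega

theorem fz_ty1 (t : Fin 3 → ℕ) (i : Fin 3) : tyT t {t i} (.p i) :=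
  ⟨singleton_subset_iff.2 (tc_mem t i), rfl, fun j hj => by cases hj; rfl⟩

theorem fz_ty0 (t : Fin 3 → ℕ) : tyT t ∅ .z := ⟨empty_subset _, rfl, fun j hj => by cases hj⟩

theorem fz_add : ∀ i : Fin 3, i ≠ i + 1 ∧ i ≠ i + 2 ∧ i + 1 ≠ i + 2 := by decide

theorem fz_ind (G : Gr ℕ ℕ) (x : ℕ) (L Y : Finset ℕ) :
    G.ind (insert x L) Y ⊆ insert x (G.ind L Y) := by
  intro g
  simp only [Gr.mem_ind, mem_insert]
  tauto

/-- the first outer part has type `u` -/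
theorem fz_modeA (H : ∀ n, Gr.CONNn n) (h : LB G X ρ L s)
    (hp : FzP (GTy G X ρ L) L .u α p) (hq : FzP (GTy G X ρ L) L .u α q) :
    Relation.ReflTransGen (FzS (GTy G X ρ L) L .u α) p q := by
  have hs := fz_s h hp
  obtain ⟨G', t, t', hG, a1, a2, i1, -, d1, d2, d3⟩ := fz_two h.rooted
  rw [← gTy_congr hG] at hp hq ⊢
  replace h := fz_congr h hG
  have hR := h.rooted
  have ty1 : tyT t {t 2, t 0} .u :=
    ⟨by simp [insert_subset_iff, tc_mem], card_pair (i1.ne (by decide)), fun j hj => by cases hj⟩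
  obtain ⟨S, ty2, sp⟩ : ∃ S, tyT t' S α ∧ G'.SpA X (L ∪ S) := by
    rcases α with _ | i | _
    · exact ⟨∅, fz_ty0 t', by rw [union_empty]; exact h.b1⟩
    · refine ⟨{t' i}, fz_ty1 t' i, fun Y h1 h2 => ?_⟩
      rw [union_comm, ← insert_eq]
      obtain ⟨c1, c2, c3⟩ := fz_add i
      by_cases hm : t' i ∈ G'.ind (insert (t' i) L) Y
      · have h3 := (tc_join a2 c1 c2 c3).mem_ind.1 hm
        have := h.b2 Y h1 i h3.2.1 h3.2.2
        have := (card_le_card (fz_ind G' (t' i) L Y)).trans (card_insert_le _ _)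
        simp only [Tp.dim] at hs
        omega
      · have := h.b1 Y h1 h2
        have := card_le_card ((subset_insert_iff_of_notMem hm).1 (fz_ind G' (t' i) L Y))
        omega
    · have := h.lo
      simp only [Tp.dim] at hs
      omega
  have HS : G'.HS X (L ∪ ({t 2, t 0} ∪ S)) (t 2) (t 0) (ρ 0) (ρ 1) (ρ 2) :=
    ⟨hR.mem _, hR.mem _, hR.mem _, hR.inj.ne (by decide), hR.inj.ne (by decide),
      hR.inj.ne (by decide), by simp, by simp, i1.ne (by decide), a1.2.2, Or.inl a1.1⟩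
  have cn : ∀ k, G'.Conn {t 2, t 0} (ρ 1) (ρ k) := fun k => by
    fin_cases k
    exacts [Gr.Conn.edge (by simp) a1.2.2.symm, Gr.Conn.refl _ _ _, Gr.Conn.edge (by simp) a1.1]
  refine fz_core (U := L ∪ S) H hR (d1.mono_right ty1.1) (d2.mono_right ty2.1)
    (d3.mono ty1.1 ty2.1) (fun F hF => gTy_iff_tr hR a1 d1 ty1 hF)
    (fun F hF => gTy_iff_tr hR a2 d2 ty2 hF) HS (fun h => disjoint_left.1 d1 h (tc_mem t 2))
    (fun h => disjoint_left.1 d1 h (tc_mem t 0)) (fun g => ?_) sp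
    (fun j => (HS.not_both a1.1 j).elim) (fun k => Or.inl ?_)
    (fun k => Or.inr (Or.inl ⟨?_, Subset.rfl⟩)) (fun σ hσ k1 k2 => ?_) hp hq
  · simp only [mem_sdiff, mem_union]
    tauto
  · fin_cases k
    exacts [⟨t 2, by simp, a1.2.2.inc⟩, ⟨t 2, by simp, a1.2.2.inc'⟩, ⟨t 0, by simp, a1.1.inc'⟩]
  · fin_cases k <;> simp
  · have s1 : ({t 2, t 0} : Finset ℕ) ⊆ σ.1 :=
      insert_subset (k1.2 (by simp)) (singleton_subset_iff.2 (k2.2 (by simp)))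
    refine ⟨s1, fun g hg => ((hσ.cov g).1 (by simp [hg])).resolve_left fun h1 => ?_⟩
    obtain ⟨i, rfl⟩ := mem_tset.1 (ty2.1 hg)
    obtain ⟨c1, c2, c3⟩ := fz_add i
    refine hσ.fst.acyc.not_conn h1 (tc_join a2 c1 c2 c3) (((cn _).symm.trans (cn _)).mono ?_)
    intro x hx
    refine mem_erase.2 ⟨?_, s1 hx⟩
    rintro rfl
    exact disjoint_left.1 d3 (ty1.1 hx) (tc_mem t' i)

theorem fz_pick : ∀ i j : Fin 3, ∃ j' k, i ≠ j' ∧ i ≠ k ∧ j' ≠ k ∧ (j = j' ∨ j = i) := by decide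

theorem fz_all : ∀ i j k l : Fin 3, i ≠ j → i ≠ k → j ≠ k → l = j ∨ l = k ∨ l = i := by decide

/-- both outer parts have a point type -/
theorem fz_modeB {i j : Fin 3} (H : ∀ n, Gr.CONNn n) (h : LB G X ρ L s)
    (hp : FzP (GTy G X ρ L) L (.p i) (.p j) p) (hq : FzP (GTy G X ρ L) L (.p i) (.p j) q) :
    Relation.ReflTransGen (FzS (GTy G X ρ L) L (.p i) (.p j)) p q := by
  have hs := fz_s h hp
  simp only [Tp.dim] at hs
  obtain ⟨G', t, t', hG, a1, a2, -, -, d1, d2, d3⟩ := fz_two h.rooted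
  rw [← gTy_congr hG] at hp hq ⊢
  replace h := fz_congr h hG
  have hR := h.rooted
  obtain ⟨j', k, c1, c2, c3, c4⟩ := fz_pick i j
  have ne : t i ≠ t' j := fun e => disjoint_left.1 d3 (tc_mem t i) (e ▸ tc_mem t' j)
  have HS : G'.HS X (L ∪ ({t i} ∪ {t' j})) (t i) (t' j) (ρ j') (ρ k) (ρ i) := by
    refine ⟨hR.mem _, hR.mem _, hR.mem _, hR.inj.ne c3, hR.inj.ne c1.symm,
      hR.inj.ne c2.symm, by simp, by simp, ne, tc_join a1 c1 c2 c3, c4.imp ?_ ?_⟩ <;> rintro rfl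
    exacts [tc_join a2 c3 c1.symm c2.symm, tc_join a2 c1 c2 c3]
  have rt : ∀ l, ρ l ∈ ({ρ j', ρ k, ρ i} : Finset ℕ) := fun l => by
    rcases fz_all i j' k l c1 c2 c3 with rfl | rfl | rfl <;> simp
  refine fz_core (U := L) H hR (d1.mono_right (fz_ty1 t i).1) (d2.mono_right (fz_ty1 t' j).1)
    (by simpa using ne) (fun F hF => gTy_iff_tr hR a1 d1 (fz_ty1 t i) hF)
    (fun F hF => gTy_iff_tr hR a2 d2 (fz_ty1 t' j) hF) HS
    (fun h => disjoint_left.1 d1 h (tc_mem t i))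
    (fun h => disjoint_left.1 d2 h (tc_mem t' j)) (fun g => ?_) h.b1
    (fun _ => h.b4 (by omega) j' k i c3 c1.symm c2.symm)
    (fun l => Or.inr (Or.inl ⟨rt l, by simp⟩)) (fun l => Or.inr (Or.inl ⟨rt l, by simp⟩))
    (fun σ hσ k1 k2 => ?_) hp hq
  · simp only [mem_sdiff, mem_union, mem_insert, mem_singleton]
    tauto
  · refine ⟨singleton_subset_iff.2 (k1.2 (by simp)), singleton_subset_iff.2 ?_⟩
    exact ((hσ.cov _).1 HS.hψ).resolve_left fun h1 => ne.symm (mem_singleton.1 (k2.1 h1))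

theorem fz_leaf {S : Finset ℕ} {r x : ℕ} (hr : r ∉ X) (hx : x ∉ S) (hj : G.Joins x r a)
    (ha : a ∈ X) (hW : G.Within S X) : G.Tr X S ↔ G.Tr (insert r X) (insert x S) := by
  constructor
  · intro h
    rw [← erase_insert hr] at h ha
    exact h.leaf_add (mem_insert_self _ _) hj ha
  · intro h
    have := h.leaf_del (mem_insert_self _ _) hj.inc fun g hg hi =>
      (mem_insert.1 hg).resolve_right fun hg => hr (hi.mem hW hg)
    rwa [erase_insert hr, erase_insert hx] at this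

/-- the outer parts have a point type and the zero type -/
theorem fz_modeC {i : Fin 3} (H : ∀ n, Gr.CONNn n) (h : LB G X ρ L s)
    (hp : FzP (GTy G X ρ L) L (.p i) .z p) (hq : FzP (GTy G X ρ L) L (.p i) .z q) :
    Relation.ReflTransGen (FzS (GTy G X ρ L) L (.p i) .z) p q := by
  obtain ⟨G0, t, t', hG0, a0, -, -, i2, d1, d2, d3⟩ := fz_two h.rooted
  obtain ⟨j, k, c1, c2, c3⟩ := tc_other i
  obtain ⟨r, hr⟩ := Infinite.exists_notMem_finset X
  obtain ⟨G', hG1, j1, j2⟩ : ∃ G' : Gr ℕ ℕ,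
      (∀ e ∉ tset t', G'.s e = G0.s e ∧ G'.t e = G0.t e) ∧ G'.Joins (t' 0) r (ρ j) ∧
      G'.Joins (t' 1) r (ρ i) := by
    refine ⟨⟨fun e => if e ∈ tset t' then r else G0.s e,
      fun e => if e = t' 0 then ρ j else if e = t' 1 then ρ i else G0.t e⟩, fun e he => ?_,
      Or.inl ?_, Or.inl ?_⟩
    · have : ∀ l, e ≠ t' l := fun l hl => he (hl ▸ tc_mem t' l)
      simp [he, this]
    · simp [tc_mem]
    · simp [tc_mem, i2.eq_iff]
  have hG : ∀ e ∈ L, G'.s e = G.s e ∧ G'.t e = G.t e := fun e he => by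
    have := hG1 e (disjoint_left.1 d2 he)
    exact ⟨this.1.trans (hG0 e he).1, this.2.trans (hG0 e he).2⟩
  have a1 : TriAt G' ρ t := by
    have : ∀ i u w, G0.Joins (t i) u w → G'.Joins (t i) u w := fun i u w hj => by
      have := hG1 _ (disjoint_left.1 d3 (tc_mem t i))
      rwa [Gr.Joins, this.1, this.2]
    exact ⟨this _ _ _ a0.1, this _ _ _ a0.2.1, this _ _ _ a0.2.2⟩
  rw [← gTy_congr hG] at hp hq ⊢
  replace h := fz_congr h hG
  have hR := h.rooted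
  have n0 : ∀ l, t' l ∉ L := fun l h => disjoint_left.1 d2 h (tc_mem t' l)
  have n1 : t i ∉ L := fun h => disjoint_left.1 d1 h (tc_mem t i)
  have n2 : ∀ l, t' l ≠ t i := fun l e => disjoint_left.1 d3 (tc_mem t i) (e ▸ tc_mem t' l)
  have n3 : t' 0 ≠ t' 1 := i2.ne (by decide)
  have n4 : ∀ l, r ≠ ρ l := fun l e => hr (e ▸ hR.mem l)
  have j3 := tc_join a1 c1 c2 c3
  have HS : G'.HS (insert r X) (L ∪ ({t' 0, t i} ∪ {t' 1})) (t' 0) (t i) r (ρ j) (ρ k) :=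
    ⟨by simp, mem_insert_of_mem (hR.mem _), mem_insert_of_mem (hR.mem _), n4 _, n4 _,
      hR.inj.ne c3, by simp, by simp, n2 0, j1, Or.inl j3⟩
  refine fz_core (U := insert (t' 1) L) H hR (by simp [n0, n1]) (by simp [n0])
    (by simp [n3.symm, n2]) (fun F hF => ?_) (fun F hF => ?_) HS (n0 0) n1 (fun g => ?_)
    (fun Y h1 h2 => ?_) (fun j => (HS.not_both j3 j).elim) (fun l => Or.inr (Or.inr rfl))
    (fun l => ?_) (fun σ hσ k1 k2 => ?_) hp hq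
  · rw [union_insert]
    refine (gTy_iff_tr hR a1 d1 (fz_ty1 t i) hF).trans (fz_leaf hr ?_ j1 (hR.mem _) fun g hg => ?_)
    · simp only [mem_union, mem_singleton, not_or]
      exact ⟨fun h => n0 0 (hF h), n2 0⟩
    · rcases mem_union.1 hg with hg | hg
      · exact hR.within g (hF hg)
      · rw [mem_singleton.1 hg]
        rcases j3 with ⟨a, b⟩ | ⟨a, b⟩ <;> rw [a, b] <;> exact ⟨hR.mem _, hR.mem _⟩
  · rw [union_comm, ← insert_eq]
    refine (gTy_iff_tr hR a1 d1 (fz_ty0 t) hF).trans ?_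
    rw [union_empty]
    exact fz_leaf hr (fun h => n0 1 (hF h)) j2 (hR.mem _) (hR.within.mono hF)
  · simp only [mem_sdiff, mem_union, mem_insert, mem_singleton]
    tauto
  · have e1 : G'.ind L Y ⊆ G'.ind L (Y.erase r) := fun g hg => by
      obtain ⟨g1, g2, g3⟩ := Gr.mem_ind.1 hg
      refine Gr.mem_ind.2 ⟨g1, mem_erase.2 ⟨?_, g2⟩, mem_erase.2 ⟨?_, g3⟩⟩ <;> intro e
      exacts [hr (e ▸ (hR.within g g1).1), hr (e ▸ (hR.within g g1).2)]
    have e2 := card_le_card e1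
    have e3 : Y.erase r ⊆ X := subset_insert_iff.1 h1
    have e4 := h.b1 _ e3
    by_cases hY : r ∈ Y
    · have e5 := (card_le_card (fz_ind G' (t' 1) L Y)).trans (card_insert_le _ _)
      have e6 := card_erase_of_mem hY
      by_cases e7 : 2 ≤ (Y.erase r).card
      · have := e4 e7
        omega
      · have : G'.ind L (Y.erase r) = ∅ := eq_empty_of_forall_notMem fun g hg => by
          obtain ⟨g1, g2, g3⟩ := Gr.mem_ind.1 hg
          exact h.loopless g g1 (card_le_one.1 (by omega) _ g2 _ g3)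
        rw [this, card_empty] at e2
        omega
    · have hm : t' 1 ∉ G'.ind (insert (t' 1) L) Y := fun hm => hY (j2.mem_ind.1 hm).2.1
      have := card_le_card ((subset_insert_iff_of_notMem hm).1 (fz_ind G' (t' 1) L Y))
      rw [erase_eq_of_notMem hY] at e4
      have := e4 h2
      omega
  · rcases fz_all i j k l c1 c2 c3 with rfl | rfl | rfl
    exacts [Or.inr (Or.inl ⟨by simp, Subset.rfl⟩), Or.inr (Or.inl ⟨by simp, Subset.rfl⟩),
      Or.inl ⟨_, mem_singleton_self _, j2.inc'⟩]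
  · have k3 := k1.2 (by simp)
    refine ⟨insert_subset k3 (singleton_subset_iff.2 (k2.2 (by simp))), singleton_subset_iff.2 ?_⟩
    obtain ⟨g, g1, g2⟩ := hσ.snd.exists_inc HS.ma HS.mb (n4 j).symm
    have := (hσ.cov g).2 (Or.inr g1)
    simp only [mem_union, mem_insert, mem_singleton] at this
    rcases this with g3 | (rfl | rfl) | rfl
    · exact absurd (g2.mem hR.within g3) hr
    · exact (hσ.disj _ k3 g1).elim
    · exact ((j3.inc_iff.1 g2).elim (n4 _) (n4 _)).elim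
    · exact g1

theorem fz_conn (H : ∀ n, Gr.CONNn n) (h : LB G X ρ L s)
    (hp : FzP (GTy G X ρ L) L α1 α2 p) (hq : FzP (GTy G X ρ L) L α1 α2 q) :
    Relation.ReflTransGen (FzS (GTy G X ρ L) L α1 α2) p q := by
  have hs := fz_s h hp
  have := h.hi
  rcases α1 with _ | i | _
  · rcases α2 with _ | j | _
    · simp only [Tp.dim] at hs
      omega
    · exact fz_swap (fz_modeC H h hp.swap hq.swap)
    · exact fz_swap (fz_modeA H h hp.swap hq.swap)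
  · rcases α2 with _ | j | _
    · exact fz_modeC H h hp hq
    · exact fz_modeB H h hp hq
    · exact fz_swap (fz_modeA H h hp.swap hq.swap)
  · exact fz_modeA H h hp hq

end core

theorem fz_down {ty ty1 : Typing} {L L1 : Finset ℕ} {p : Pr}
    (hp : St2 (Glue L1 ty1 L ty) (L1 ∪ L) p) :
    ∃ α1 α2, ty1 (p.1 ∩ L1) α1 ∧ ty1 (p.2 ∩ L1) α2 ∧ FzP ty L α1 α2 (p.1 ∩ L, p.2 ∩ L) ∧
      p.2 ∩ L1 = L1 \ (p.1 ∩ L1) ∧ (p.1 ∩ L1 ∪ p.1 ∩ L, p.2 ∩ L1 ∪ p.2 ∩ L) = p := by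
  obtain ⟨s1, α1, β1, a1, a2, a3⟩ := hp.fst
  obtain ⟨s2, α2, β2, b1, b2, b3⟩ := hp.snd
  refine ⟨α1, α2, a1, b1, ⟨⟨β1, a2, a3⟩, ⟨β2, b2, b3⟩,
    hp.disj.mono inter_subset_left inter_subset_left, ?_⟩, ?_, ?_⟩
  · rw [← union_inter_distrib_right, hp.cov, union_inter_cancel_right]
  · ext g
    have := Finset.ext_iff.1 hp.cov g
    have : g ∈ p.1 → g ∉ p.2 := fun h => disjoint_left.1 hp.disj h
    simp only [mem_inter, mem_sdiff, mem_union] at *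
    tauto
  · rw [← inter_union_distrib_left, ← inter_union_distrib_left, inter_eq_left.2 s1,
      inter_eq_left.2 s2]

theorem LB.r3 {G : Gr ℕ ℕ} {X L L1 : Finset ℕ} {ρ : Fin 3 → ℕ} {ty1 : Typing} {s a : ℕ}
    (H : ∀ n, Gr.CONNn n) (h : LB G X ρ L s) (h1 : MSide L1 ty1) (hd : Disjoint L1 L)
    (ha : a ∈ L1) : R3 (Glue L1 ty1 L (GTy G X ρ L)) (L1 ∪ L) L1 a := by
  intro p q hp hq e1
  obtain ⟨α1, α2, a1, a2, a3, a4, a5⟩ := fz_down hp
  obtain ⟨β1, β2, b1, b2, b3, b4, b5⟩ := fz_down hq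
  have e2 : p.2 ∩ L1 = q.2 ∩ L1 := by rw [a4, b4, e1]
  rw [← e1] at b1 b5
  rw [← e2] at b2 b5
  rw [← h1.uniq _ _ _ a1 b1, ← h1.uniq _ _ _ a2 b2] at b3
  have := fz_lift h1 hd ha a1 a2 (hp.disj.mono inter_subset_left inter_subset_left)
    (by rw [a4, union_sdiff_of_subset inter_subset_right]) (fz_conn H h a3 b3)
  rwa [a5, b5] at this

end Pool.Agent.P.MP_3f5ce9_co
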