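import Pool.Agent.P.MP_3f5ce9_co.W.Lin

/-!
Computing with concrete matroids.
-/

open Finset

namespace Pool.Agent.P.MP_3f5ce9_co

/-- the subset of `range n` given by the binary digits of `m` -/
def mset (n m : ℕ) : Finset ℕ := (range n).filter fun i => m.testBit i

/-- the entries of a list selected by the binary digits of `m` -/
def msel : List ℕ → ℕ → List ℕ
  | [], _ => []
  | a :: l, m => if m % 2 = 1 then a :: msel l (m / 2) else msel l (m / 2)

/-- the binary sum of a list of vectors -/
def xorAll (l : List ℕ) : ℕ := l.foldr Nat.xor 0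

/-- reduction of a vector by a list of vectors with different leading digits -/
def redBy (b : List ℕ) (x : ℕ) : ℕ := b.foldr (fun y x => min x (x ^^^ y)) x

/-- Gaussian elimination -/
def elim (l : List ℕ) : List ℕ :=
  l.foldl (fun b x => if redBy b x = 0 then b else redBy b x :: b) []

/-- the rank of the selected vectors -/
def rkm (l : List ℕ) (m : ℕ) : ℕ := (elim (msel l m)).length

/-- the incidence vectors of the listed edges -/
def edgeBits (l : List (ℕ × ℕ)) : List ℕ := l.map fun p => 2 ^ p.1 ^^^ 2 ^ p.2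

/-- splitting a bounded check into blocks, to keep the recursion depth of the kernel small -/
theorem forall_lt_split {p : ℕ → Prop} (k n : ℕ) (h : ∀ a < k, ∀ b < n, p (n * a + b)) :
    ∀ m < k * n, p m := fun m hm => by
  have hn : 0 < n := Nat.pos_of_ne_zero fun h0 => by simp [h0] at hm
  have := h (m / n) (Nat.div_lt_of_lt_mul (mul_comm k n ▸ hm)) (m % n) (Nat.mod_lt _ hn)
  rwa [Nat.div_add_mod] at this

theorem mem_mset {n m i : ℕ} : i ∈ mset n m ↔ i < n ∧ m.testBit i = true := by
  rw [mset, mem_filter, mem_range]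

theorem mset_subset (n m : ℕ) : mset n m ⊆ range n := filter_subset _ _

theorem exists_mset {n : ℕ} {X : Finset ℕ} (h : X ⊆ range n) : ∃ m < 2 ^ n, X = mset n m := by
  induction X using Finset.induction_on with
  | empty => exact ⟨0, Nat.two_pow_pos n, by ext i; simp [mem_mset]⟩
  | insert a X _ ih =>
    obtain ⟨m, h1, rfl⟩ := ih ((subset_insert _ _).trans h)
    have h2 := mem_range.1 (h (mem_insert_self _ _))
    refine ⟨2 ^ a ||| m, Nat.or_lt_two_pow (Nat.pow_lt_pow_right one_lt_two h2) h1, ?_⟩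
    ext i
    simp only [mem_insert, mem_mset, Nat.testBit_or, Nat.testBit_two_pow, Bool.or_eq_true,
      decide_eq_true_eq]
    exact ⟨fun h3 => h3.elim (fun h4 => ⟨h4 ▸ h2, Or.inl h4.symm⟩) fun h4 => ⟨h4.1, Or.inr h4.2⟩,
      fun h3 => h3.2.imp Eq.symm fun h4 => ⟨h3.1, h4⟩⟩

theorem bt_hi {n m i : ℕ} (h : m < 2 ^ n) (hi : ¬ i < n) : m.testBit i = false :=
  Nat.testBit_lt_two_pow (h.trans_le (Nat.pow_le_pow_right two_pos (not_lt.1 hi)))

theorem mset_inj {n m m' : ℕ} (h : m < 2 ^ n) (h' : m' < 2 ^ n) (e : mset n m = mset n m') :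
    m = m' := by
  refine Nat.eq_of_testBit_eq fun i => ?_
  by_cases hi : i < n
  · have := Finset.ext_iff.1 e i
    rw [mem_mset, mem_mset, and_iff_right hi, and_iff_right hi] at this
    exact Bool.eq_iff_iff.2 this
  · rw [bt_hi h hi, bt_hi h' hi]

theorem mset_union (n m m' : ℕ) : mset n (m ||| m') = mset n m ∪ mset n m' := by
  ext i
  simp only [mem_union, mem_mset, Nat.testBit_or, Bool.or_eq_true, and_or_left]

theorem mset_inter (n m m' : ℕ) : mset n (m &&& m') = mset n m ∩ mset n m' := by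
  ext i
  simp only [mem_inter, mem_mset, Nat.testBit_and, Bool.and_eq_true]
  tauto

theorem mset_symmDiff (n m m' : ℕ) : mset n (m ^^^ m') = symmDiff (mset n m) (mset n m') := by
  ext i
  simp only [mem_symmDiff, mem_mset, Nat.testBit_xor]
  cases m.testBit i <;> cases m'.testBit i <;> simp

theorem mset_compl {n m : ℕ} (h : m < 2 ^ n) : mset n (2 ^ n - 1 - m) = range n \ mset n m := by
  ext i
  rw [Nat.sub_sub, add_comm 1 m, mem_sdiff, mem_mset, mem_mset, Nat.testBit_two_pow_sub_succ h,
    mem_range]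
  cases m.testBit i <;> simp

theorem mset_pow {n i : ℕ} (h : i < n) : mset n (2 ^ i) = {i} := by
  ext j
  rw [mem_mset, Nat.testBit_two_pow, mem_singleton, decide_eq_true_eq]
  exact ⟨fun h1 => h1.2.symm, fun h1 => ⟨h1 ▸ h, h1.symm⟩⟩

theorem bt_sum {A : Type} [AddCommMonoid A] (g : ℕ → A) (l : List ℕ) (m : ℕ) :
    ∑ i ∈ mset l.length m, g (l.getD i 0) = ((msel l m).map g).sum := by
  induction l generalizing m with
  | nil => rfl
  | cons a l ih =>
    have := ih (m / 2)
    rw [mset, sum_filter] at this ⊢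
    rw [List.length_cons, sum_range_succ', msel]
    simp only [Nat.testBit_add_one, List.getD_cons_succ, this, Nat.testBit_zero,
      decide_eq_true_eq, List.getD_cons_zero]
    split_ifs
    · rw [List.map_cons, List.sum_cons, add_comm]
    · rw [add_zero]

theorem bt_mem {l : List ℕ} {m x : ℕ} :
    x ∈ msel l m ↔ ∃ i ∈ mset l.length m, l.getD i 0 = x := by
  induction l generalizing m with
  | nil => simp [msel, mset]
  | cons a l ih =>
    have := @ih (m / 2)
    simp only [mem_mset, and_assoc] at this ⊢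
    rw [List.length_cons, Nat.exists_lt_succ_left, msel]
    simp only [Nat.testBit_add_one, List.getD_cons_succ, ← this, Nat.testBit_zero,
      decide_eq_true_eq, List.getD_cons_zero]
    split_ifs with h <;> simp [h, eq_comm]

theorem bt_lor (L : List ℕ) (c i : ℕ) :
    ((L.map (2 ^ ·)).foldr Nat.lor c).testBit i = true ↔ i ∈ L ∨ c.testBit i = true := by
  induction L with
  | nil => simp
  | cons a L ih =>
    rw [List.map_cons, List.foldr_cons, Nat.lor_eq, Nat.testBit_or, Bool.or_eq_true, ih,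
      Nat.testBit_two_pow, decide_eq_true_eq, List.mem_cons, or_assoc, eq_comm]

/-- the vector of binary digits -/
def bv (x : ℕ) : ℕ → ZMod 2 := fun j => if x.testBit j = true then 1 else 0

theorem bv_zero : bv 0 = 0 := by
  funext j
  simp [bv]

theorem bv_xor (x y : ℕ) : bv (x ^^^ y) = bv x + bv y := by
  funext j
  simp only [bv, Nat.testBit_xor, Pi.add_apply]
  cases x.testBit j <;> cases y.testBit j <;> rfl

theorem bv_inj : Function.Injective bv := fun x y h => Nat.eq_of_testBit_eq fun j => by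
  have := congrFun h j
  simp only [bv] at this
  revert this
  cases x.testBit j <;> cases y.testBit j <;> decide

theorem bt_xorAll (l : List ℕ) : (l.map bv).sum = bv (xorAll l) := by
  induction l with
  | nil => exact bv_zero.symm
  | cons a l ih => rw [List.map_cons, List.sum_cons, ih, ← bv_xor]; rfl

/-- the span of a list of numbers -/
abbrev bsp (l : List ℕ) : Submodule (ZMod 2) (ℕ → ZMod 2) :=
  Submodule.span (ZMod 2) (bv '' {x | x ∈ l})

theorem bsp_cons (a : ℕ) (l : List ℕ) : bsp (a :: l) = Submodule.span (ZMod 2) {bv a} ⊔ bsp l := by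
  rw [← Submodule.span_insert, ← Set.image_insert_eq]
  exact congrArg (fun S => Submodule.span (ZMod 2) (bv '' S)) (Set.ext fun _ => List.mem_cons)

/-- echelon form -/
def Ech : List ℕ → Prop
  | [] => True
  | y :: b => Ech b ∧ y ≠ 0 ∧ ∀ z ∈ b, y.testBit z.log2 = false

theorem bt_step {y : ℕ} (hy : y ≠ 0) (x : ℕ) : (min x (x ^^^ y)).testBit y.log2 = false := by
  have h1 := Nat.testBit_log2 hy
  have h2 : ∀ j, y.log2 < j → (x ^^^ y).testBit j = x.testBit j := fun j hj => by
    rw [Nat.testBit_xor, bt_hi (Nat.lt_log2_self (n := y)) (by omega), Bool.xor_false]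
  cases h : x.testBit y.log2
  · rw [min_eq_left (Nat.lt_of_testBit y.log2 h (by simp [h, h1]) fun j hj => (h2 j hj).symm).le, h]
  · rw [min_eq_right (Nat.lt_of_testBit y.log2 (by simp [h, h1]) h h2).le]
    simp [h, h1]

theorem bt_red_bits {b : List ℕ} (hb : Ech b) (x : ℕ) :
    ∀ z ∈ b, (redBy b x).testBit z.log2 = false := by
  induction b with
  | nil => simp
  | cons y b ih =>
    intro z hz
    rcases List.mem_cons.1 hz with rfl | hz
    · exact bt_step hb.2.1 _
    · change (min (redBy b x) (redBy b x ^^^ y)).testBit z.log2 = false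
      rcases min_choice (redBy b x) (redBy b x ^^^ y) with h | h <;>
        simp [h, ih hb.1 z hz, hb.2.2 z hz]

theorem bt_red_span (b : List ℕ) (x : ℕ) : bv (redBy b x) - bv x ∈ bsp b := by
  induction b with
  | nil => exact (sub_self (bv x)).symm ▸ Submodule.zero_mem _
  | cons y b ih =>
    change bv (min (redBy b x) (redBy b x ^^^ y)) - bv x ∈ _
    rw [bsp_cons]
    rcases min_choice (redBy b x) (redBy b x ^^^ y) with h | h <;> rw [h]
    · exact Submodule.mem_sup_right ih
    · rw [bv_xor, add_sub_right_comm, add_comm]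
      exact Submodule.add_mem_sup (Submodule.mem_span_singleton_self _) ih

theorem bt_zero {b : List ℕ} (hb : Ech b) {w : ℕ → ZMod 2} (hw : w ∈ bsp b)
    (h : ∀ z ∈ b, w z.log2 = 0) : w = 0 := by
  induction b generalizing w with
  | nil => simpa [bsp] using hw
  | cons y b ih =>
    rw [bsp_cons, Submodule.mem_sup] at hw
    obtain ⟨u, hu, w', hw', rfl⟩ := hw
    obtain ⟨c, rfl⟩ := Submodule.mem_span_singleton.1 hu
    have h1 := ih hb.1 hw' fun z hz => by
      simpa [bv, hb.2.2 z hz] using h z (List.mem_cons_of_mem _ hz)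
    have h2 : c = 0 := by simpa [h1, bv, Nat.testBit_log2 hb.2.1] using h y List.mem_cons_self
    simp [h1, h2]

theorem bt_len {b : List ℕ} (hb : Ech b) : b.length = Module.finrank (ZMod 2) (bsp b) := by
  induction b with
  | nil => rw [show bsp [] = ⊥ by simp [bsp], finrank_bot, List.length_nil]
  | cons y b ih =>
    have : FiniteDimensional (ZMod 2) (bsp b) :=
      FiniteDimensional.span_of_finite _ (b.finite_toSet.image _)
    have h0 : bv y ≠ 0 := fun h => hb.2.1 (bv_inj (h.trans bv_zero.symm))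
    have h1 := Submodule.finrank_sup_add_finrank_inf_eq (Submodule.span (ZMod 2) {bv y}) (bsp b)
    rw [((Submodule.disjoint_span_singleton' h0).2 fun h =>
      h0 (bt_zero hb.1 h fun z hz => by simp [bv, hb.2.2 z hz])).symm.eq_bot, finrank_bot,
      finrank_span_singleton h0, ← ih hb.1] at h1
    rw [bsp_cons, List.length_cons]
    omega

theorem bt_fold (l : List ℕ) : ∀ b, Ech b →
    Ech (l.foldl (fun b x => if redBy b x = 0 then b else redBy b x :: b) b) ∧
      bsp (l.foldl (fun b x => if redBy b x = 0 then b else redBy b x :: b) b) = bsp l ⊔ bsp b := by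
  induction l with
  | nil => exact fun b hb => ⟨hb, by simp [bsp]⟩
  | cons x l ih =>
    intro b hb
    have h1 := bt_red_span b x
    rw [List.foldl_cons, bsp_cons, sup_comm _ (bsp l), sup_assoc]
    split_ifs with h
    · rw [h, bv_zero, zero_sub, neg_mem_iff, ← Submodule.span_singleton_le_iff_mem] at h1
      rw [sup_eq_right.2 h1]
      exact ih b hb
    · have h2 := ih (redBy b x :: b) ⟨hb, h, bt_red_bits hb x⟩
      refine ⟨h2.1, h2.2.trans (congrArg _ ?_)⟩
      rw [bsp_cons]
      refine le_antisymm (sup_le ?_ le_sup_right) (sup_le ?_ le_sup_right) <;>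
        rw [Submodule.span_singleton_le_iff_mem]
      · simpa using Submodule.add_mem_sup (Submodule.mem_span_singleton_self (bv x)) h1
      · simpa using Submodule.add_mem_sup (Submodule.mem_span_singleton_self (bv (redBy b x)))
          (neg_mem h1)

theorem bt_elim (l : List ℕ) : (elim l).length = Module.finrank (ZMod 2) (bsp l) := by
  obtain ⟨h1, h2⟩ := bt_fold l [] trivial
  rw [elim, bt_len h1, h2, show bsp [] = ⊥ by simp [bsp], sup_bot_eq]

theorem card_mset (l : List ℕ) (m : ℕ) : (mset l.length m).card = (msel l m).length := by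
  simpa using bt_sum (fun _ => (1 : ℕ)) l m

namespace BM

theorem bt_rep {l : List ℕ} (hl : ∀ x ∈ l, x < 2 ^ 16) : (ofBits l).Rep fun e => bv (l.getD e 0) := by
  have h : ∀ e, l.getD e 0 < 2 ^ 16 := fun e => by
    by_cases he : e < l.length
    · rw [List.getD_eq_getElem _ _ he]; exact hl _ (List.getElem_mem _)
    · rw [List.getD_eq_default _ _ (not_lt.1 he)]; norm_num
  refine Eq.subst (motive := fun v : ℕ → ℕ → ZMod 2 => (ofBits l).Rep v) ?_ (rep_ofVec _ _)
  funext e j
  refine if_congr ?_ rfl rfl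
  rw [mem_filter, mem_range]
  exact and_iff_right_of_imp fun h1 => by_contra fun h2 =>
    Bool.false_ne_true ((bt_hi (h e) h2).symm.trans h1)

theorem bt_rE {l : List ℕ} (hl : ∀ x ∈ l, x < 2 ^ 16) :
    (ofBits l).r (range l.length) = (elim l).length := by
  rw [(bt_rep hl).r_eq (X := range l.length) Subset.rfl, bt_elim]
  refine congrArg (fun S => Module.finrank (ZMod 2) (Submodule.span (ZMod 2) S)) ?_
  ext w
  simp only [Set.mem_image, Set.mem_ofPred_eq, List.mem_iff_getElem, mem_coe, mem_range]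
  exact ⟨fun ⟨i, hi, h⟩ => ⟨_, ⟨i, hi, rfl⟩, by rwa [List.getD_eq_getElem _ _ hi] at h⟩,
    fun ⟨_, ⟨i, hi, rfl⟩, h⟩ => ⟨i, hi, by rwa [List.getD_eq_getElem _ _ hi]⟩⟩

/-- a cycle space containing another one of at most the same rank is equal to it -/
theorem bt_eq {M N : BM} (hE : M.E = N.E) (h : ∀ C, M.cyc C → N.cyc C)
    (hr : M.r M.E ≤ N.r N.E) : M = N := by
  obtain ⟨B, hB⟩ := N.exists_base
  have h1 : M.Indep B := ⟨hE ▸ hB.1.1, fun C hC => hB.1.2 C (h C hC)⟩
  have h2 : M.IsBase B := ⟨h1, le_antisymm (h1.card_le_r h1.1) (hr.trans hB.2.ge)⟩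
  refine ext_cyc hE fun C => ⟨h C, fun hC => ?_⟩
  choose! φ h3 h4 using fun e (he : e ∈ C \ B) =>
    h2.exists_cyc (hE ▸ N.sub C hC (mem_sdiff.1 he).1) (mem_sdiff.1 he).2
  rw [hB.cyc_eq hC φ fun e he => ⟨h _ (h3 e he), h4 e he⟩]
  exact cyc_oddSum φ _ h3

theorem bt_dim (K : BM) (cs : List ℕ) (n : ℕ) (h : ∀ m ∈ cs, m < 2 ^ n ∧ K.cyc (mset n m)) :
    (elim cs).length + K.r K.E ≤ K.E.card := by
  obtain ⟨B, hB⟩ := K.exists_base
  have h1 : ∀ w ∈ bsp cs, ∃ m < 2 ^ n, K.cyc (mset n m) ∧ w = bv m := fun w hw => by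
    induction hw using Submodule.span_induction with
    | mem w hw => obtain ⟨m, hm, rfl⟩ := hw; exact ⟨m, (h m hm).1, (h m hm).2, rfl⟩
    | zero =>
      exact ⟨0, Nat.two_pow_pos n, (show mset n 0 = ∅ by simp [mset]) ▸ K.nil, bv_zero.symm⟩
    | add _ _ _ _ h1 h2 =>
      obtain ⟨m, a1, a2, rfl⟩ := h1
      obtain ⟨m', b1, b2, rfl⟩ := h2
      exact ⟨_, Nat.xor_lt_two_pow a1 b1, mset_symmDiff n m m' ▸ K.sd _ _ a2 b2, (bv_xor _ _).symm⟩
    | smul c _ _ h1 =>
      rcases (by decide : ∀ c : ZMod 2, c = 0 ∨ c = 1) c with rfl | rfl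
      · exact ⟨0, Nat.two_pow_pos n, (show mset n 0 = ∅ by simp [mset]) ▸ K.nil,
          (zero_smul _ _).trans bv_zero.symm⟩
      · rwa [one_smul]
  have h2 := LinearMap.finrank_le_finrank_of_injective (f := (LinearMap.funLeft (ZMod 2) (ZMod 2)
    (Subtype.val : ↥(K.E \ B) → ℕ)).domRestrict (bsp cs)) ((injective_iff_map_eq_zero _).2
      fun w hw => by
        obtain ⟨m, a1, a2, a3⟩ := h1 w.1 w.2
        have a4 := hB.1.2 _ a2 fun e he => by_contra fun heB => by
          have : w.1 e = 0 := congrFun hw ⟨e, mem_sdiff.2 ⟨K.sub _ a2 he, heB⟩⟩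
          simp [a3, bv, (mem_mset.1 he).2] at this
        rw [mset_inj a1 (Nat.two_pow_pos n) (a4.trans (by simp [mset])), bv_zero] at a3
        exact Subtype.ext a3)
  rw [Module.finrank_fintype_fun_eq_card, Fintype.card_coe, card_sdiff_of_subset hB.subset,
    ← bt_elim, hB.2] at h2
  have := K.r_le_card K.E
  omega

@[simp] theorem ofBits_E (l : List ℕ) : (ofBits l).E = range l.length := rfl

theorem cyc_ofBits {l : List ℕ} (hl : ∀ x ∈ l, x < 2 ^ 16) (m : ℕ) :
    (ofBits l).cyc (mset l.length m) ↔ xorAll (msel l m) = 0 := by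
  rw [bt_rep hl, bt_sum bv, bt_xorAll, ofBits_E, and_iff_right (mset_subset _ _), ← bv_zero,
    bv_inj.eq_iff]

theorem r_ofBits {l : List ℕ} (hl : ∀ x ∈ l, x < 2 ^ 16) (m : ℕ) :
    (ofBits l).r (mset l.length m) = rkm l m := by
  rw [(bt_rep hl).r_eq (mset_subset _ _), rkm, bt_elim]
  refine congrArg (fun S => Module.finrank (ZMod 2) (Submodule.span (ZMod 2) S)) ?_
  ext w
  simp only [Set.mem_image, Set.mem_ofPred_eq, bt_mem, mem_coe, exists_exists_and_eq_and]

theorem gm_gl {l : List (ℕ × ℕ)} (hl : ∀ p ∈ l, p.1 < 16 ∧ p.2 < 16) :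
    gm (gl l) (range l.length) = ofBits (edgeBits l) := by
  rw [gm, ofBits, edgeBits, List.length_map]
  refine ofVec_congr fun e he => ?_
  rw [mem_range] at he
  obtain ⟨h1, h2⟩ := hl _ (List.getElem_mem he)
  ext j
  simp only [gl, mem_symmDiff, mem_singleton, mem_filter, mem_range, List.getD_eq_getElem?_getD,
    List.getElem?_map, List.getElem?_eq_getElem he, Option.map_some, Option.getD_some,
    Nat.testBit_xor, Nat.testBit_two_pow, bne_iff_ne, ne_eq, decide_eq_decide]
  omega

/-- a certificate for duality: orthogonal rows and complementary ranks -/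
theorem dual_ofBits {l l' : List ℕ} (hl : ∀ x ∈ l, x < 2 ^ 16) (hl' : ∀ x ∈ l', x < 2 ^ 16)
    (hn : l'.length = l.length)
    (ho : ∀ i < 16, ∀ j < 16, Even ((range l.length).filter fun e =>
      (l.getD e 0).testBit i ∧ (l'.getD e 0).testBit j).card)
    (hr : (elim l).length + (elim l').length = l.length) : (ofBits l).dual = ofBits l' := by
  refine bt_eq (by rw [dual_E, ofBits_E, ofBits_E, hn]) (fun D hD => ⟨hn ▸ hD.1, ?_⟩) ?_
  · refine eq_empty_of_forall_notMem fun j hj => ?_
    rw [mem_oddSum, ← Nat.not_even_iff_odd] at hj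
    by_cases h16 : j < 16
    · have := hD.2 ((range l.length).filter fun e => (l'.getD e 0).testBit j)
        ⟨filter_subset _ _, eq_empty_of_forall_notMem fun i hi => by
          rw [mem_oddSum, ← Nat.not_even_iff_odd, filter_filter] at hi
          by_cases i16 : i < 16
          · exact hi (by simpa [i16, and_comm] using ho i i16 j h16)
          · simp [i16] at hi⟩
      refine hj (Eq.subst (motive := fun X : Finset ℕ => Even X.card) ?_ this)
      ext x
      have := @hD.1 x
      simp only [mem_inter, mem_filter, mem_range, ofBits_E, h16, true_and] at this ⊢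
      tauto
    · simp [h16] at hj
  · have := (ofBits l).r_dual_E
    rw [dual_E, ofBits_E, ofBits_E, bt_rE hl']
    rw [ofBits_E, bt_rE hl, card_range] at this
    omega

/-- a certificate for a minor of an arbitrary matroid: the rank is right and cycles that span the
cycle space are mapped to cycles -/
theorem minorAt_ofBits {M : BM} {l : List ℕ} (hl : ∀ x ∈ l, x < 2 ^ 16) {f : ℕ → ℕ}
    {C : Finset ℕ} (hf : Set.InjOn f (range l.length)) (hC : C ⊆ M.E)
    (hm : ∀ e < l.length, f e ∈ M.E ∧ f e ∉ C) (cs : List ℕ)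
    (h1 : ∀ m ∈ cs, m < 2 ^ l.length ∧ (M.con C).cyc ((mset l.length m).image f))
    (h2 : ∀ m ∈ cs, xorAll (msel l m) = 0)
    (h3 : (elim cs).length + (elim l).length = l.length)
    (h4 : (elim l).length + M.r C ≤ M.r ((range l.length).image f ∪ C)) :
    M.MinorAt (ofBits l) f C := by
  have hm' : ∀ x ∈ range l.length, f x ∈ M.E \ C := fun x hx => mem_sdiff.2 (hm x (mem_range.1 hx))
  let K : BM := ⟨range l.length,
    fun D => (ofBits l).cyc D ∧ ((M.con C).pull f (range l.length)).cyc D,
    fun D h => (ofBits l).sub D h.1, ⟨(ofBits l).nil, BM.nil _⟩,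
    fun D D' h h' => ⟨BM.sd _ _ _ h.1 h'.1, BM.sd _ _ _ h.2 h'.2⟩⟩
  have a1 : (elim cs).length + K.r K.E ≤ (range l.length).card := bt_dim K cs l.length
    fun m hm => ⟨(h1 m hm).1, (cyc_ofBits hl m).2 (h2 m hm),
      (cyc_pull_inj hf).2 ⟨mset_subset _ _, (h1 m hm).2⟩⟩
  rw [card_range] at a1
  have a2 : K = ofBits l := bt_eq rfl (fun D h => h.1) (by rw [ofBits_E, bt_rE hl]; omega)
  have a3 : ofBits l = (M.con C).pull f (range l.length) := by
    refine bt_eq rfl (fun D h => (show K.cyc D from a2 ▸ h).2) ?_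
    have := M.r_con C ((range l.length).image f)
    rw [ofBits_E, bt_rE hl, pull_E, r_pull hm' Subset.rfl]
    omega
  rw [a3]
  exact minorAt_pull hC hf hm'

/-- a certificate for a minor of a concrete matroid -/
theorem minorAt_bits {l l' : List ℕ} (hl : ∀ x ∈ l, x < 2 ^ 16) (hl' : ∀ x ∈ l', x < 2 ^ 16)
    (f : List ℕ) (c : ℕ) (hf : f.length = l'.length) (hnd : f.Nodup)
    (hm : ∀ x ∈ f, x < l.length ∧ c.testBit x = false)
    (h : ∀ m < 2 ^ l'.length,
      rkm l' m + rkm l c = rkm l (((msel f m).map (2 ^ ·)).foldr Nat.lor c)) :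
    (ofBits l).MinorAt (ofBits l') (fun i => f.getD i 0) (mset l.length c) := by
  have h1 : ∀ e < l'.length, f.getD e 0 ∈ f := fun e he => by
    rw [List.getD_eq_getElem _ _ (hf ▸ he)]; exact List.getElem_mem _
  refine ⟨fun a ha b hb hab => ?_, mset_subset _ _, fun e he => ?_, fun X hX => ?_⟩
  · rw [ofBits_E, coe_range, Set.mem_Iio, ← hf] at ha hb
    simp only [List.getD_eq_getElem _ _ ha, List.getD_eq_getElem _ _ hb] at hab
    exact hnd.getElem_inj_iff.1 hab
  · obtain ⟨h2, h3⟩ := hm _ (h1 e (mem_range.1 he))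
    exact ⟨mem_range.2 h2, fun h4 => Bool.false_ne_true (h3.symm.trans (mem_mset.1 h4).2)⟩
  · obtain ⟨m, h2, rfl⟩ := exists_mset hX
    rw [r_ofBits hl', r_ofBits hl, h m h2, ← r_ofBits hl]
    congr 1
    ext i
    rw [mem_mset, bt_lor, bt_mem, mem_union, mem_image, mem_mset, hf, and_or_left]
    refine or_congr_left (and_iff_right_of_imp ?_)
    rintro ⟨e, he, rfl⟩
    exact (hm _ (h1 e (mem_mset.1 he).1)).1

theorem K4_eq : K4 = ofBits [3, 5, 9, 6, 10, 12] := by
  exact (gm_gl (l := [(0, 1), (0, 2), (0, 3), (1, 2), (1, 3), (2, 3)]) (by decide)).trans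
    (congrArg ofBits (by decide))

theorem K33_eq : K33 = ofBits [9, 17, 33, 10, 18, 34, 12, 20, 36] := by
  exact (gm_gl (l := [(0, 3), (0, 4), (0, 5), (1, 3), (1, 4), (1, 5), (2, 3), (2, 4), (2, 5)])
    (by decide)).trans (congrArg ofBits (by decide))

theorem K5_eq : K5 = ofBits [3, 5, 9, 17, 6, 10, 18, 12, 20, 24] := by
  exact (gm_gl
    (l := [(0, 1), (0, 2), (0, 3), (0, 4), (1, 2), (1, 3), (1, 4), (2, 3), (2, 4), (3, 4)])
    (by decide)).trans (congrArg ofBits (by decide))

end BM

end Pool.Agent.P.MP_3f5ce9_co
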