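import Pool.Agent.P.MP_3f5ce9_co.W.Minor

/-!
The matroid union theorem.
-/

open Finset

namespace Pool.Agent.P.MP_3f5ce9_co

namespace BM

/-- `P` partitions `E` into independent sets -/
def UnSol (I : Finset ℕ) (M : ℕ → BM) (E : Finset ℕ) (P : ℕ → Finset ℕ) : Prop :=
  (∀ i ∈ I, (M i).Indep (P i) ∧ P i ⊆ E) ∧
    (∀ i ∈ I, ∀ j ∈ I, i ≠ j → Disjoint (P i) (P j)) ∧ ∀ e ∈ E, ∃ i ∈ I, e ∈ P i

theorem un_glue {M : BM} {I J C : Finset ℕ} (hI : M.Indep I) (hIC : I ⊆ C)
    (hJ : (M.con C).Indep J) : M.Indep (J ∪ I) := by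
  obtain ⟨I', h1, h2, h3, h4⟩ := hI.exists_basis_superset hIC
  exact ((indep_con h3 h2 h4).1 hJ).2.subset (union_subset_union_right h1)

theorem un_step {I E S : Finset ℕ} {M : ℕ → BM} {C P Q : ℕ → Finset ℕ} (hS : S ⊆ E)
    (hP : UnSol I M S P) (hC : ∀ i ∈ I, P i ⊆ C i)
    (hQ : UnSol I (fun i => (M i).con (C i)) (E \ S) Q) : UnSol I M E fun i => Q i ∪ P i := by
  have hd : ∀ i ∈ I, ∀ j ∈ I, Disjoint (Q i) (P j) := fun i hi j hj =>
    sdiff_disjoint.mono (hQ.1 i hi).2 (hP.1 j hj).2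
  refine ⟨fun i hi => ⟨un_glue (hP.1 i hi).1 (hC i hi) (hQ.1 i hi).1,
    union_subset ((hQ.1 i hi).2.trans sdiff_subset) ((hP.1 i hi).2.trans hS)⟩,
    fun i hi j hj hij => ?_, fun e he => ?_⟩
  · rw [disjoint_union_left, disjoint_union_right, disjoint_union_right]
    exact ⟨⟨hQ.2.1 i hi j hj hij, hd i hi j hj⟩, (hd j hj i hi).symm, hP.2.1 i hi j hj hij⟩
  · by_cases h : e ∈ S
    · obtain ⟨i, hi, h1⟩ := hP.2.2 e h
      exact ⟨i, hi, mem_union_right _ h1⟩
    · obtain ⟨i, hi, h1⟩ := hQ.2.2 e (mem_sdiff.2 ⟨he, h⟩)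
      exact ⟨i, hi, mem_union_left _ h1⟩

theorem un_main (I E : Finset ℕ) : ∀ M : ℕ → BM, (∀ S ⊆ E, S.card ≤ ∑ i ∈ I, (M i).r S) →
    ∃ P, UnSol I M E P := by
  induction E using Finset.strongInduction with
  | H E ih =>
    intro M h
    by_cases h1 : ∃ S, S ⊂ E ∧ S.Nonempty ∧ ∑ i ∈ I, (M i).r S ≤ S.card
    · obtain ⟨S, s1, s2, s3⟩ := h1
      obtain ⟨P, hP⟩ := ih S s1 M fun T hT => h T (hT.trans s1.subset)
      obtain ⟨Q, hQ⟩ := ih (E \ S) (sdiff_ssubset s1.subset s2) (fun i => (M i).con S)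
        fun T hT => by
          have h2 := h (T ∪ S) (union_subset (hT.trans sdiff_subset) s1.subset)
          rw [card_union_of_disjoint (sdiff_disjoint.mono_left hT)] at h2
          simp only [← r_con, sum_add_distrib] at h2
          omega
      exact ⟨_, un_step s1.subset hP (fun i hi => (hP.1 i hi).2) hQ⟩
    rcases E.eq_empty_or_nonempty with rfl | ⟨e, he⟩
    · exact ⟨fun _ => ∅, fun i _ => ⟨indep_empty _, Subset.rfl⟩, fun _ _ _ _ _ => disjoint_bot_left,
        fun e he => absurd he (notMem_empty e)⟩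
    have h2 := h {e} (singleton_subset_iff.2 he)
    obtain ⟨k, hk, h3⟩ := exists_ne_zero_of_sum_ne_zero (Nat.one_le_iff_ne_zero.1 h2)
    have h4 : (M k).Indep {e} := by
      obtain ⟨J, j1, j2, j3⟩ := (M k).exists_basis {e}
      rcases subset_singleton_iff.1 j1 with rfl | rfl
      · exact absurd j3.symm h3
      · exact j2
    let P : ℕ → Finset ℕ := fun i => if i = k then {e} else ∅
    have hP : UnSol I M {e} P := by
      refine ⟨fun i _ => ?_, fun i _ j _ hij => ?_, fun x hx => ⟨k, hk, by simpa [P] using hx⟩⟩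
      · by_cases h5 : i = k
        · subst h5
          simpa [P] using h4
        · simpa [P, h5] using indep_empty _
      · by_cases h5 : i = k
        · subst h5
          simp [P, hij.symm]
        · simp [P, h5]
    have h5 : E \ {e} ⊂ E := sdiff_ssubset (singleton_subset_iff.2 he) (singleton_nonempty e)
    obtain ⟨Q, hQ⟩ := ih _ h5 (fun i => (M i).con (P i)) fun T hT => by
      rcases T.eq_empty_or_nonempty with rfl | h6
      · exact Nat.zero_le _
      have h7 : T.card < ∑ i ∈ I, (M i).r T :=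
        lt_of_not_ge fun h7 => h1 ⟨T, lt_of_le_of_lt hT h5, h6, h7⟩
      have h8 : ∑ i ∈ I, (M i).r T ≤
          ∑ i ∈ I, (((M i).con (P i)).r T + if i = k then 1 else 0) := sum_le_sum fun i _ => by
        have h9 := (M i).r_con (P i) T
        have h10 := (M i).r_mono (subset_union_left (s₁ := T) (s₂ := P i))
        have h11 := (M i).r_le_card (P i)
        have h12 : (P i).card = if i = k then 1 else 0 := by
          by_cases h : i = k <;> simp [P, h]
        omega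
      rw [sum_add_distrib, sum_ite_eq', if_pos hk] at h8
      omega
    exact ⟨_, un_step (singleton_subset_iff.2 he) hP (fun _ _ => Subset.rfl) hQ⟩

/-- partition form -/
theorem union_part (I : Finset ℕ) (M : ℕ → BM) (E : Finset ℕ)
    (h : ∀ S ⊆ E, S.card ≤ ∑ i ∈ I, (M i).r S) :
    ∃ P : ℕ → Finset ℕ, (∀ i ∈ I, (M i).Indep (P i) ∧ P i ⊆ E) ∧
      (∀ i ∈ I, ∀ j ∈ I, i ≠ j → Disjoint (P i) (P j)) ∧ ∀ e ∈ E, ∃ i ∈ I, e ∈ P i := by
  exact un_main I E M h

/-- two matroids -/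
theorem union_two (M N : BM) (E : Finset ℕ) (h : ∀ S ⊆ E, S.card ≤ M.r S + N.r S) :
    ∃ A B, M.Indep A ∧ N.Indep B ∧ Disjoint A B ∧ A ∪ B = E := by
  obtain ⟨P, h1, h2, h3⟩ := union_part {0, 1} (fun i => if i = 0 then M else N) E
    fun S hS => by simpa using h S hS
  have h4 := h1 0 (by simp)
  have h5 := h1 1 (by simp)
  refine ⟨P 0, P 1, h4.1, h5.1, h2 0 (by simp) 1 (by simp) (by simp),
    Subset.antisymm (union_subset h4.2 h5.2) fun e he => ?_⟩
  simpa using h3 e he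

/-- multiset form -/
theorem union_mul (I : Finset ℕ) (M : ℕ → BM) (E : Finset ℕ) (μ : ℕ → ℕ)
    (hμ : ∀ e, e ∉ E → μ e = 0) (h : ∀ S ⊆ E, ∑ e ∈ S, μ e ≤ ∑ i ∈ I, (M i).r S) :
    ∃ P : ℕ → Finset ℕ, (∀ i ∈ I, (M i).Indep (P i)) ∧
      ∀ e, (I.filter fun i => e ∈ P i).card = μ e := by
  let π : ℕ → ℕ := fun x => x.unpair.1
  let E' : Finset ℕ := E.biUnion fun e => (range (μ e)).image (Nat.pair e)
  have hF : ∀ e, (E'.filter fun x => π x = e).card = μ e := by
    intro e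
    have h1 : (E'.filter fun x => π x = e) = (range (μ e)).image (Nat.pair e) := by
      ext x
      simp only [E', π, mem_filter, mem_biUnion, mem_image, mem_range]
      constructor
      · rintro ⟨⟨a, -, k, hk, rfl⟩, h2⟩
        rw [Nat.unpair_pair] at h2
        subst h2
        exact ⟨k, hk, rfl⟩
      · rintro ⟨k, hk, rfl⟩
        refine ⟨⟨e, by_contra fun h2 => ?_, k, hk, rfl⟩, by rw [Nat.unpair_pair]⟩
        rw [hμ e h2] at hk
        exact Nat.not_lt_zero _ hk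
    rw [h1, card_image_of_injective _ fun a b h2 => (Nat.pair_eq_pair.1 h2).2, card_range]
  have hE : ∀ x ∈ E', π x ∈ E := by
    intro x hx
    obtain ⟨a, ha, h1⟩ := mem_biUnion.1 hx
    obtain ⟨k, -, rfl⟩ := mem_image.1 h1
    simpa [π] using ha
  let X : ℕ → Finset ℕ := fun i => E'.filter fun x => π x ∈ (M i).E
  have hX : ∀ i, ∀ x ∈ X i, π x ∈ (M i).E := fun i x hx => (mem_filter.1 hx).2
  obtain ⟨Q, h1, h2, h3⟩ := union_part I (fun i => (M i).pull π (X i)) E' fun S hS => by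
    have h1 : ∀ i, ((M i).pull π (X i)).r S = (M i).r (S.image π) := fun i => by
      rw [← r_inter_E, pull_E, r_pull (hX i) inter_subset_right, ← (M i).r_inter_E (S.image π)]
      congr 1
      ext y
      simp only [X, mem_image, mem_inter, mem_filter]
      constructor
      · rintro ⟨x, ⟨a, -, b⟩, rfl⟩
        exact ⟨⟨x, a, rfl⟩, b⟩
      · rintro ⟨⟨x, a, rfl⟩, b⟩
        exact ⟨x, ⟨a, hS a, b⟩, rfl⟩
    simp only [h1]
    refine le_trans ?_ (h _ (image_subset_iff.2 fun x hx => hE x (hS hx)))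
    rw [card_eq_sum_card_image π]
    exact sum_le_sum fun e _ => hF e ▸ card_le_card (filter_subset_filter _ hS)
  have h4 := fun i hi => (indep_pull (hX i)).1 (h1 i hi).1
  refine ⟨fun i => (Q i).image π, fun i hi => (h4 i hi).2.2, fun e => ?_⟩
  have h5 : (E'.filter fun x => π x = e) = I.biUnion fun i => (Q i).filter fun x => π x = e := by
    ext x
    simp only [mem_filter, mem_biUnion]
    constructor
    · rintro ⟨a, b⟩
      obtain ⟨i, hi, c⟩ := h3 x a
      exact ⟨i, hi, c, b⟩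
    · rintro ⟨i, hi, c, b⟩
      exact ⟨(h1 i hi).2 c, b⟩
  rw [← hF, h5, card_biUnion fun i hi j hj hij => disjoint_filter_filter (h2 i hi j hj hij),
    card_filter]
  refine sum_congr rfl fun i hi => ?_
  split_ifs with h6
  · obtain ⟨x, hx, h7⟩ := mem_image.1 h6
    refine (card_eq_one.2 ⟨x, eq_singleton_iff_unique_mem.2 ⟨mem_filter.2 ⟨hx, h7⟩,
      fun y hy => ?_⟩⟩).symm
    rw [mem_filter] at hy
    exact (h4 i hi).2.1 hy.1 hx (hy.2.trans h7.symm)
  · exact (card_eq_zero.2 (filter_eq_empty_iff.2 fun x hx h7 =>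
      h6 (mem_image.2 ⟨x, hx, h7⟩))).symm

end BM

end Pool.Agent.P.MP_3f5ce9_co
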