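import Pool.Agent.P.MP_3f5ce9_co.W.TriA
import Pool.Agent.P.MP_3f5ce9_co.W.RegL
import Pool.Agent.P.MP_3f5ce9_co.W.Union

/-!
The sides of a three-sum as typed sides; duality of typed sides.
-/

open Finset

namespace Pool.Agent.P.MP_3f5ce9_co

variable {L L1 L2 K B E : Finset ℕ} {ty ty1 ty2 tk : Typing} {t : Fin 3 → ℕ} {a : ℕ}

namespace TriBA

theorem co_co (a : Tp) : a.co.co = a := by cases a <;> rfl

theorem co_inj {a b : Tp} (h : a.co = b.co) : a = b := by rw [← co_co a, h, co_co]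

theorem compat_co (a b : Tp) : a.co.compat b.co = a.compat b := by
  cases a <;> cases b <;> rfl

theorem compat_comm (a b : Tp) : a.compat b = b.compat a := by
  cases a <;> cases b <;> first | rfl | exact bne_comm

theorem dim_co (a : Tp) : a.co.dim + a.dim = 2 := by cases a <;> rfl

theorem dim_le (a : Tp) : a.dim ≤ 2 := by cases a <;> simp [Tp.dim]

theorem eq_of_dim {a b : Tp} (h : a.dim = b.dim) (hp : ∀ i j, a = .p i → b = .p j → i = j) :
    a = b := by
  cases a <;> cases b <;> simp [Tp.dim] at h ⊢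
  exact hp _ _ rfl rfl

theorem eq_p {a : Tp} (h : a.dim = 1) : ∃ i, a = .p i := by
  cases a <;> simp [Tp.dim] at h ⊢

theorem ss {X Y : Finset ℕ} (h : X ⊆ Y) : Y \ (Y \ X) = X := Finset.sdiff_sdiff_eq_self h

theorem co_sdiff {F : Finset ℕ} {β : Tp} (hF : F ⊆ L) (h : ty F β.co) :
    coTy L ty (L \ F) β := ⟨sdiff_subset, by rwa [ss hF]⟩

theorem same_iff {A B A' B' : Finset ℕ} : Same A B A' B' ↔
    ∀ x, ((x ∈ A ∨ x ∈ B) ↔ (x ∈ A' ∨ x ∈ B')) ∧ ((x ∈ A ∧ x ∈ B) ↔ (x ∈ A' ∧ x ∈ B')) := by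
  simp only [Same, Finset.ext_iff, mem_union, mem_inter, forall_and]

theorem same_co {A B A' B' : Finset ℕ} (hA : A ⊆ L) (hB : B ⊆ L)
    (h : Same (L \ A) (L \ B) A' B') : Same A B (L \ A') (L \ B') := by
  rw [same_iff] at h ⊢
  intro x
  have h1 := h x
  have h2 := @hA x
  have h3 := @hB x
  simp only [mem_sdiff] at h1 ⊢
  tauto

theorem same_co' {A B A' B' : Finset ℕ} (h : Same A B A' B') :
    Same (L \ A) (L \ B) (L \ A') (L \ B') := by
  rw [same_iff] at h ⊢
  intro x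
  have h1 := h x
  simp only [mem_sdiff]
  tauto

theorem same_r {A B A' B' : Finset ℕ} (h : Same A B A' B') : Same A B B' A' :=
  ⟨h.1.trans (union_comm _ _), h.2.trans (inter_comm _ _)⟩

theorem same_l {A B A' B' : Finset ℕ} (h : Same A B A' B') : Same B A A' B' :=
  ⟨(union_comm _ _).trans h.1, (inter_comm _ _).trans h.2⟩

theorem same_card {A B A' B' : Finset ℕ} (h : Same A B A' B') (S : Finset ℕ) :
    (S ∩ A).card + (S ∩ B).card = (S ∩ A').card + (S ∩ B').card := by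
  rw [← card_union_add_card_inter, ← card_union_add_card_inter (S ∩ A'),
    ← inter_union_distrib_left, ← inter_union_distrib_left, ← inter_inter_distrib_left,
    ← inter_inter_distrib_left, h.1, h.2]

theorem part_sdiff {X Y : Finset ℕ} (h1 : Disjoint X Y) (h2 : X ∪ Y = L) :
    L \ X = Y ∧ L \ Y = X := by
  subst h2
  exact ⟨union_sdiff_cancel_left h1, union_sdiff_cancel_right h1⟩

theorem part_move {X Y : Finset ℕ} {f : ℕ} (h1 : Disjoint X Y) (h2 : X ∪ Y = L) (hf : f ∈ Y) :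
    Disjoint (insert f X) (Y.erase f) ∧ insert f X ∪ Y.erase f = L := by
  subst h2
  refine ⟨disjoint_left.2 fun x hx hy => ?_, ?_⟩
  · rw [mem_erase] at hy
    exact disjoint_left.1 h1 ((mem_insert.1 hx).resolve_left hy.1) hy.2
  · rw [insert_union_comm, insert_erase hf]

theorem part_xch {p : Pr} {e f : ℕ} (h1 : Disjoint p.1 p.2) (h2 : p.1 ∪ p.2 = L) (he : e ∈ p.1)
    (hf : f ∈ p.2) : Disjoint (xch p e f).1 (xch p e f).2 ∧ (xch p e f).1 ∪ (xch p e f).2 = L := by
  subst h2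
  have h3 := disjoint_left.1 h1
  refine ⟨disjoint_left.2 fun x hx hy => ?_, ?_⟩
  · simp only [xch, mem_insert, mem_erase] at hx hy
    rcases hx with rfl | hx
    · rcases hy with rfl | hy
      · exact h3 he hf
      · exact hy.1 rfl
    · rcases hy with rfl | hy
      · exact hx.1 rfl
      · exact h3 hx.2 hy.2
  · ext x
    simp only [xch, mem_insert, mem_erase, mem_union]
    by_cases h4 : x = e
    · subst h4; tauto
    · by_cases h5 : x = f
      · subst h5; tauto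
      · tauto

theorem part_co {κ : Pr} {a1 a2 : Tp} {f : ℕ} (h1 : Disjoint κ.1 κ.2) (h2 : κ.1 ∪ κ.2 = K) :
    Part (coTy K tk) κ a1 a2 f ↔ Part tk κ a2.co a1.co f := by
  refine and_congr_right fun hf => ?_
  obtain ⟨h3, h4⟩ := part_move h1 h2 hf
  obtain ⟨h5, h6⟩ := part_sdiff h3 h4
  constructor
  · rintro ⟨β1, β2, ⟨-, c1⟩, ⟨-, c2⟩, c3, c4⟩
    rw [h5] at c1
    rw [h6] at c2
    exact ⟨_, _, c2, c1, by rwa [compat_co], by rwa [compat_co]⟩
  · rintro ⟨β1, β2, c1, c2, c3, c4⟩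
    refine ⟨β2.co, β1.co, ⟨h4 ▸ subset_union_left, by rwa [h5, co_co]⟩,
      ⟨h4 ▸ subset_union_right, by rwa [h6, co_co]⟩, ?_, ?_⟩
    · rwa [← compat_co, co_co]
    · rwa [← compat_co, co_co]

theorem low_co {κ : Pr} {a1 a2 : Tp} (h1 : Disjoint κ.1 κ.2) (h2 : κ.1 ∪ κ.2 = K) :
    Low (coTy K tk) κ a1 a2 ↔ Low tk κ a2.co a1.co := by
  simp only [Low, part_co h1 h2]

theorem tyT_ex {F : Finset ℕ} (hF : F ⊆ tset t) (hc : F.card ≤ 2) : ∃ β, tyT t F β := by
  rcases Nat.lt_or_ge F.card 1 with h | h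
  · exact ⟨.z, hF, by simp only [Tp.dim]; omega, fun i hi => by cases hi⟩
  rcases Nat.lt_or_ge F.card 2 with h' | h'
  · obtain ⟨x, rfl⟩ := card_eq_one.1 (by omega : F.card = 1)
    obtain ⟨i, rfl⟩ := mem_tset.1 (hF (mem_singleton_self x))
    exact ⟨.p i, hF, rfl, fun j hj => by cases hj; rfl⟩
  · exact ⟨.u, hF, by simp only [Tp.dim]; omega, fun i hi => by cases hi⟩

end TriBA

open TriBA

theorem coTy_coTy (h : ∀ F β, ty F β → F ⊆ L) : coTy L (coTy L ty) = ty := by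
  funext F β
  refine propext ⟨fun ⟨h1, _, h2⟩ => by rwa [ss h1, co_co] at h2, fun h1 => ?_⟩
  exact ⟨h F β h1, co_sdiff (h F β h1) (by rwa [co_co])⟩

theorem MSide.co (h : MSide L ty) : MSide L (coTy L ty) := by
  refine ⟨fun F β h1 => h1.1, fun F β F' β' h1 h2 => ?_,
    fun F β β' h1 h2 => co_inj (h.uniq _ _ _ h1.2 h2.2), fun F β e f β' h1 he hn h2 => ?_,
    fun F β e f β' h1 he heF hn h2 => ?_⟩
  · have c1 := h.card _ _ _ _ h1.2 h2.2
    have c2 := card_sdiff_add_card_eq_card h1.1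
    have c3 := card_sdiff_add_card_eq_card h2.1
    have c4 := dim_co β
    have c5 := dim_co β'
    omega
  · by_cases hf : f = e
    · rw [hf, insert_erase he] at h2
      exact co_inj (h.uniq _ _ _ h2.2 h1.2)
    have e1 : L \ F.erase e = insert e (L \ F) := sdiff_erase (h1.1 he)
    have e2 : L \ insert f (F.erase e) = insert e ((L \ F).erase f) := by
      rw [sdiff_insert, e1, erase_insert_of_ne (Ne.symm hf)]
    refine co_inj (h.triv2 (L \ F) _ e f _ h1.2 (h1.1 he) (by simp [he]) (fun γ hγ => ?_)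
      (e2 ▸ h2.2))
    exact hn γ.co ⟨(erase_subset _ _).trans h1.1, by rwa [e1, co_co]⟩
  · by_cases hf : f ∈ F
    swap
    · rw [erase_eq_of_notMem hf] at h2
      exact (hn _ h2).elim
    have e2 : L \ insert e (F.erase f) = insert f ((L \ F).erase e) := by
      rw [sdiff_insert, sdiff_erase (h1.1 hf), erase_insert_of_ne (by rintro rfl; exact heF hf)]
    refine co_inj (h.triv1 (L \ F) _ e f _ h1.2 (by simp [he, heF]) (fun γ hγ => ?_)
      (e2 ▸ h2.2))
    exact hn γ.co ⟨insert_subset he h1.1, by rwa [sdiff_insert, co_co]⟩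

theorem BSide.co (h : BSide L ty) : BSide L (coTy L ty) := by
  refine ⟨h.toMSide.co, fun A B k l hA hB hkl => ?_, fun A B hA hB => ?_,
    fun A B A' B' k l hA hB hA' hB' hkl hs => ?_⟩
  · obtain ⟨A', B', c1, c2, c3⟩ := h.mg _ _ k l hA.2 hB.2 hkl
    exact ⟨_, _, co_sdiff (h.sub _ _ c2) c2, co_sdiff (h.sub _ _ c1) c1,
      same_co hA.1 hB.1 (same_r c3)⟩
  · obtain ⟨A', B', k, l, c0, c1, c2, c3⟩ := h.od _ _ hB.2 hA.2
    exact ⟨_, _, k, l, c0, co_sdiff (h.sub _ _ c1) c1, co_sdiff (h.sub _ _ c2) c2,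
      same_co hA.1 hB.1 (same_l c3)⟩
  · obtain ⟨A'', B'', c1, c2, c3⟩ := h.ux _ _ _ _ k l hA.2 hB.2 hA'.2 hB'.2 hkl (same_co' hs)
    exact ⟨_, _, co_sdiff (h.sub _ _ c2) c2, co_sdiff (h.sub _ _ c1) c1,
      same_co hA.1 hB.1 (same_r c3)⟩

theorem glue_comm : Glue L1 ty1 L2 ty2 = Glue L2 ty2 L1 ty1 := by
  funext B
  refine propext ⟨?_, ?_⟩ <;>
  · rintro ⟨h1, α, β, h2, h3, h4⟩
    exact ⟨union_comm L1 L2 ▸ h1, β, α, h3, h2, by rwa [compat_comm]⟩

theorem glue_co (hd : Disjoint L1 L2) :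
    Glue L1 (coTy L1 ty1) L2 (coTy L2 ty2) B ↔
      B ⊆ L1 ∪ L2 ∧ Glue L1 ty1 L2 ty2 ((L1 ∪ L2) \ B) := by
  have e1 : (L1 ∪ L2) \ B ∩ L1 = L1 \ (B ∩ L1) := by
    ext x
    simp only [mem_inter, mem_sdiff, mem_union]
    tauto
  have e2 : (L1 ∪ L2) \ B ∩ L2 = L2 \ (B ∩ L2) := by
    ext x
    simp only [mem_inter, mem_sdiff, mem_union]
    tauto
  refine and_congr_right fun _ => ?_
  unfold Glue
  rw [e1, e2]
  constructor
  · rintro ⟨α, β, h2, h3, h4⟩
    exact ⟨sdiff_subset, _, _, h2.2, h3.2, by rwa [compat_co]⟩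
  · rintro ⟨-, α, β, h2, h3, h4⟩
    exact ⟨α.co, β.co, ⟨inter_subset_right, by rwa [co_co]⟩, ⟨inter_subset_right, by rwa [co_co]⟩,
      by rwa [compat_co]⟩

theorem Cfg.swap {κ : Pr} {β1 β2 : Tp} (h : Cfg L ty κ β1 β2) : Cfg L ty κ.swap β2 β1 := by
  exact ⟨h.disj.symm, (union_comm _ _).trans h.cov, h.snd, h.fst⟩

theorem cfg_co {κ : Pr} {β1 β2 : Tp} :
    Cfg L (coTy L ty) κ β1 β2 ↔ Cfg L ty κ β2.co β1.co := by
  constructor
  · rintro ⟨h1, h2, h3, h4⟩
    obtain ⟨h5, h6⟩ := part_sdiff h1 h2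
    exact ⟨h1, h2, h6 ▸ h4.2, h5 ▸ h3.2⟩
  · rintro ⟨h1, h2, h3, h4⟩
    obtain ⟨h5, h6⟩ := part_sdiff h1 h2
    exact ⟨h1, h2, ⟨h2 ▸ subset_union_left, by rwa [h5]⟩, ⟨h2 ▸ subset_union_right, by rwa [h6]⟩⟩

theorem IsGad.co {g : Gd} (h : IsGad K tk g) : IsGad K (coTy K tk) g.co := by
  have hd : ∀ n, (∀ κ β1 β2, Cfg K tk κ β1 β2 → β1.dim + β2.dim = n) →
      ∀ κ β1 β2, Cfg K (coTy K tk) κ β1 β2 → β1.dim + β2.dim = 4 - n := fun n h κ β1 β2 hc => by
    have c1 := h _ _ _ (cfg_co.1 hc)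
    have c2 := dim_co β1
    have c3 := dim_co β2
    omega
  cases g with
  | tri =>
    obtain ⟨h1, h2, h3⟩ := h
    exact ⟨hd 3 h1, fun k => (h2 k).imp fun κ hκ => cfg_co.2 hκ,
      fun κ k hc hl => h3 κ k (cfg_co.1 hc) ((low_co hc.disj hc.cov).1 hl)⟩
  | wye =>
    obtain ⟨h1, h2, h3⟩ := h
    exact ⟨hd 1 h1, fun k => (h2 k).imp fun κ hκ => cfg_co.2 hκ,
      fun κ k hc hl => h3 κ k (cfg_co.1 hc) ((low_co hc.disj hc.cov).1 hl)⟩
  | whl i =>
    obtain ⟨h1, h2, h3, h4, h5⟩ := h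
    exact ⟨hd 2 h1, h2.imp fun κ hκ => cfg_co.2 hκ,
      fun l => (h3 l).elim fun κ hκ => ⟨κ.swap, cfg_co.2 hκ.swap⟩,
      fun κ k l hc => (h4 κ l k (cfg_co.1 hc)).symm,
      fun κ j hj hc hl => h5 κ j hj (cfg_co.1 hc) ((low_co hc.disj hc.cov).1 hl)⟩
  | unit =>
    obtain ⟨h1, h2, h3, h4, h5⟩ := h
    exact ⟨hd 2 h1, h2.imp fun κ hκ => cfg_co.2 hκ,
      fun k l hkl => (h3 l k hkl.symm).imp fun κ hκ => cfg_co.2 hκ,
      fun κ k hc hl => h4 κ k (cfg_co.1 hc) ((low_co hc.disj hc.cov).1 hl),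
      fun κ j hc hl => h5 κ j (cfg_co.1 hc) ((low_co hc.disj hc.cov).1 hl)⟩

/-- connectivity only depends on the family up to complements -/
theorem UE.compl {𝓑 𝓑' : Fam} (h : UE 𝓑 E a) (h' : ∀ B ⊆ E, 𝓑' B ↔ 𝓑 (E \ B)) : UE 𝓑' E a := by
  have k1 : ∀ X Y : Finset ℕ, Disjoint X Y → X ∪ Y = E → (𝓑' X ↔ 𝓑 Y) ∧ (𝓑' Y ↔ 𝓑 X) :=
    fun X Y h1 h2 => by
      obtain ⟨h5, h6⟩ := part_sdiff h1 h2
      exact ⟨by rw [h' X (h2 ▸ subset_union_left), h5], by rw [h' Y (h2 ▸ subset_union_right), h6]⟩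
  have k2 : ∀ q, St2 𝓑' E q ↔ St2 𝓑 E q := fun q =>
    ⟨fun ⟨c1, c2, c3, c4⟩ => ⟨(k1 _ _ c3 c4).2.1 c2, (k1 _ _ c3 c4).1.1 c1, c3, c4⟩,
      fun ⟨c1, c2, c3, c4⟩ => ⟨(k1 _ _ c3 c4).1.2 c2, (k1 _ _ c3 c4).2.2 c1, c3, c4⟩⟩
  have k3 : ∀ p q : Pr, Disjoint p.1 p.2 → p.1 ∪ p.2 = E → UX2 𝓑 a p q → UX2 𝓑' a p q := by
    rintro p q c3 c4 ⟨e, he, f, hf, c5, c6, c7, c8⟩
    refine ⟨e, he, f, hf, c5, c6, c7, fun g hg d1 d2 => ?_⟩
    obtain ⟨d3, d4⟩ := part_xch c3 c4 he hg
    exact c8 g hg ((k1 _ _ d3 d4).2.1 d2) ((k1 _ _ d3 d4).1.1 d1)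
  intro p q hp hq ha
  refine Relation.EqvGen.mono ?_ _ _ (h p q ((k2 p).1 hp) ((k2 q).1 hq) ha)
  rintro p q ⟨c1, c2, c3⟩
  exact ⟨(k2 p).2 c1, (k2 q).2 c2, c3.imp (k3 p q c1.disj c1.cov)
    (k3 p.swap q.swap c1.disj.symm ((union_comm _ _).trans c1.cov))⟩

theorem GadUE.co {g : Gd} (h : GadUE L1 ty1 a g) : GadUE L1 (coTy L1 ty1) a g.co := by
  obtain ⟨K, tk, h1, h2, h3, h4⟩ := h
  exact ⟨K, coTy K tk, h1, h2.co, h3.co,
    h4.compl fun B hB => by rw [glue_co h1, and_iff_right hB]⟩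

theorem mSide_tyT (ht : Function.Injective t) : MSide (tset t) (tyT t) := by
  refine ⟨fun F β h1 => h1.1, fun F β F' β' h1 h2 => by rw [h1.2.1, h2.2.1, add_comm],
    fun F β β' h1 h2 => eq_of_dim (h1.2.1.symm.trans h2.2.1) fun i j hi hj =>
      ht (singleton_injective ((h1.2.2 i hi).symm.trans (h2.2.2 j hj))),
    fun F β e f β' h1 he hn h2 => ?_, fun F β e f β' h1 he heF hn h2 => ?_⟩
  · obtain ⟨γ, hγ⟩ := tyT_ex ((erase_subset e F).trans h1.1)
      (card_erase_le.trans (h1.2.1 ▸ dim_le β))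
    exact (hn γ hγ).elim
  · by_cases hf : f ∈ F
    swap
    · rw [erase_eq_of_notMem hf] at h2
      exact (hn _ h2).elim
    have c1 : 2 < (insert e F).card := lt_of_not_ge fun c =>
      (tyT_ex (insert_subset he h1.1) c).elim hn
    have c2 := h2.2.1
    have c3 := h1.2.1
    have c4 := dim_le β
    rw [card_insert_of_notMem heF] at c1
    rw [card_insert_of_notMem fun c => heF (mem_of_mem_erase c), card_erase_add_one hf] at c2
    refine eq_of_dim (by omega) fun i j hi hj => ?_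
    rw [hj, Tp.dim] at c3
    omega

namespace BM

variable {N : BM}

theorem tb_mem (t : Fin 3 → ℕ) (i : Fin 3) : t i ∈ tset t := mem_tset.2 ⟨i, rfl⟩

theorem tb_pair (h : N.IsTri t) {i j : Fin 3} (hij : i ≠ j) (X : Finset ℕ) :
    N.r (insert (t i) (insert (t j) X)) = N.r (X ∪ tset t) := by
  have h1 : ({t i, t j} : Finset ℕ) ⊆ tset t :=
    insert_subset (tb_mem t i) (singleton_subset_iff.2 (tb_mem t j))
  have h2 := (h.indep h1 card_le_two).r_eq
  rw [card_pair fun c => hij (h.inj c)] at h2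
  have h3 := r_union_congr h1 (h2.trans h.rk.symm) X
  rwa [insert_union, ← insert_eq, union_comm] at h3

theorem tb_cl (h : N.IsTri t) {F : Finset ℕ} {i : Fin 3} (hF : N.HasTy t L F (.p i)) :
    t i ∈ N.cl F :=
  mem_cl.2 ⟨h.subset (tb_mem t i), (hF.2.2.2.2 i rfl).trans hF.2.1.r_eq.symm⟩

theorem tb_eq (h : N.IsTri t) {F : Finset ℕ} {i m : Fin 3} (hF : N.HasTy t L F (.p i))
    (hm : t m ∈ N.cl F) : m = i := by
  by_contra hc
  have h1 := tb_pair h hc F
  have h2 : N.r (F ∪ {t m, t i}) = N.r F := r_union_of_subset_cl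
    (insert_subset hm (singleton_subset_iff.2 (tb_cl h hF)))
  rw [union_comm, insert_union, ← insert_eq, h1, hF.2.1.r_eq] at h2
  have h3 := hF.2.2.2.1
  rw [Tp.dim] at h3
  omega

theorem tb_not (hd : Disjoint L (tset t)) {F : Finset ℕ} (hF : F ⊆ L) (i : Fin 3) : t i ∉ F :=
  fun c => disjoint_left.1 hd (hF c) (tb_mem t i)

theorem tb_ins (h : N.IsTri t) (hd : Disjoint L (tset t)) {F : Finset ℕ} {i m : Fin 3}
    (hF : N.HasTy t L F (.p i)) (hm : m ≠ i) : N.Indep (insert (t m) F) :=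
  (hF.2.1.insert_iff_cl (h.subset (tb_mem t m)) (tb_not hd hF.1 m)).2 fun c => hm (tb_eq h hF c)

theorem tb_card {F : Finset ℕ} {β : Tp} (hF : N.HasTy t L F β) :
    N.r (L ∪ tset t) + β.dim = F.card + 2 := hF.2.2.1 ▸ hF.2.2.2.1

theorem tb_le {F : Finset ℕ} (hF : F ⊆ L) : N.r (F ∪ tset t) ≤ N.r (L ∪ tset t) :=
  N.r_mono (union_subset_union_left hF)

theorem tb_u {F : Finset ℕ} (hF : F ⊆ L) (hI : N.Indep F) (hc : F.card = N.r (L ∪ tset t)) :
    N.HasTy t L F .u := by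
  have h1 : N.r (F ∪ tset t) = N.r (L ∪ tset t) :=
    le_antisymm (tb_le hF) (hc ▸ hI.card_le_r subset_union_left)
  exact ⟨hF, hI, h1, by rw [h1, hc, Tp.dim], fun i hi => by cases hi⟩

theorem mSide_hasTy (h : N.IsTri t) (hL : L ⊆ N.E) (hd : Disjoint L (tset t)) :
    MSide L (N.HasTy t L) := by
  refine ⟨fun F β h1 => h1.1, fun F β F' β' h1 h2 => ?_, fun F β β' h1 h2 => ?_,
    fun F β e f β' h1 he hn h2 => ?_, fun F β e f β' h1 he heF hn h2 => ?_⟩
  · have c1 := tb_card h1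
    have c2 := tb_card h2
    omega
  · have c1 := tb_card h1
    have c2 := tb_card h2
    refine eq_of_dim (by omega) fun i j hi hj => ?_
    subst hi hj
    exact tb_eq h h2 (tb_cl h h1)
  · have hf : f ∉ F.erase e := fun c => hn β' (by rwa [insert_eq_of_mem c] at h2)
    have c1 := tb_card h1
    have c2 := tb_card h2
    have c3 := card_erase_add_one he
    rw [card_insert_of_notMem hf] at c2
    refine eq_of_dim (by omega) fun j i hj hi => ?_
    subst hi hj
    have hs : F.erase e ⊆ L := (erase_subset _ _).trans h1.1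
    have hI : N.Indep (F.erase e) := h1.2.1.subset (erase_subset _ _)
    have c4 : N.r (F.erase e ∪ tset t) ≠ N.r (L ∪ tset t) := fun c =>
      (exists_hasTy h hs hI c).elim hn
    have c5 := tb_le (N := N) (t := t) hs
    have c6 := hI.r_eq
    rw [Tp.dim] at c1
    obtain ⟨m, hm⟩ := h.exists_mem_cl (X := F.erase e) (by omega)
    exact (tb_eq h h2 (N.cl_mono (subset_insert _ _) hm)).symm.trans
      (tb_eq h h1 (N.cl_mono (erase_subset _ _) hm))
  · by_cases hf : f ∈ F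
    swap
    · rw [erase_eq_of_notMem hf] at h2
      exact (hn _ h2).elim
    have c1 := tb_card h1
    have c2 := tb_card h2
    rw [card_insert_of_notMem fun c => heF (mem_of_mem_erase c), card_erase_add_one hf] at c2
    refine eq_of_dim (by omega) fun j i hj hi => ?_
    subst hi hj
    have hs : insert e F ⊆ L := insert_subset he h1.1
    have c3 : e ∈ N.cl F := by_contra fun c =>
      (exists_hasTy h hs ((h1.2.1.insert_iff_cl (hL he) heF).2 c) (le_antisymm (tb_le hs)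
        (h1.2.2.1 ▸ N.r_mono (union_subset_union_left (subset_insert _ _))))).elim hn
    have c4 : insert e (F.erase f) ⊆ N.cl F :=
      insert_subset c3 ((erase_subset _ _).trans (subset_cl h1.2.1.1))
    exact tb_eq h h1 (N.cl_cl F ▸ N.cl_mono c4 (tb_cl h h2))

theorem tb_mg (h : N.IsTri t) (hd : Disjoint L (tset t)) {A B : Finset ℕ} {k l : Fin 3}
    (hA : N.HasTy t L A (.p k)) (hB : N.HasTy t L B (.p l)) (hkl : k ≠ l) :
    ∃ A' B', N.HasTy t L A' .u ∧ N.HasTy t L B' .z ∧ Same A B A' B' := by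
  have hb : ∀ {F : Finset ℕ} {i m : Fin 3}, N.HasTy t L F (.p i) → m ≠ i →
      (N.res (L ∪ tset t)).IsBase (insert (t m) F) := fun {F i m} hF hm => by
    have c1 := tb_card hF
    rw [Tp.dim] at c1
    refine isBase_res.2 ⟨tb_ins h hd hF hm, insert_subset (mem_union_right _ (tb_mem t m))
      (hF.1.trans subset_union_left), ?_⟩
    rw [card_insert_of_notMem (tb_not hd hF.1 m)]
    omega
  have hne : t k ≠ t l := fun c => hkl (h.inj c)
  obtain ⟨f, f1, f2, f3, f4⟩ := sym_exch (hb hB hkl) (hb hA hkl.symm) (mem_insert_self _ _)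
    (by simp [hne, tb_not hd hA.1 k])
  rw [erase_insert (tb_not hd hB.1 k), isBase_res] at f3
  rw [isBase_res] at f4
  have f5 : f ≠ t l := by
    rintro rfl
    exact (hB.2.1.insert_iff_cl (h.subset (tb_mem t l)) (tb_not hd hB.1 l)).1 f3.1 (tb_cl h hB)
  have f6 : f ∈ A := (mem_insert.1 f1).resolve_left f5
  have f7 : f ∉ B := fun c => f2 (mem_insert_of_mem c)
  rw [erase_insert_of_ne f5.symm] at f4
  have c1 := tb_card hA
  have c2 := card_erase_add_one f6
  have c3 := f4.1.r_eq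
  rw [Tp.dim] at c1
  rw [tb_pair h hkl, f4.2.2] at c3
  refine ⟨insert f B, A.erase f, tb_u (insert_subset (hA.1 f6) hB.1) f3.1 f3.2.2,
    ⟨(erase_subset _ _).trans hA.1, hA.2.1.subset (erase_subset _ _), c3,
      by rw [c3, Tp.dim]; omega, fun i hi => by cases hi⟩, same_iff.2 fun x => ?_⟩
  simp only [mem_insert, mem_erase]
  by_cases hx : x = f
  · subst hx; tauto
  · tauto

theorem tb_ux (h : N.IsTri t) (hd : Disjoint L (tset t)) {A B A' B' : Finset ℕ} {k l : Fin 3}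
    (hA : N.HasTy t L A (.p k)) (hB : N.HasTy t L B (.p k)) (hA' : N.HasTy t L A' (.p l))
    (hB' : N.HasTy t L B' (.p l)) (hkl : k ≠ l) (hs : Same A B A' B') :
    ∃ A'' B'', N.HasTy t L A'' .u ∧ N.HasTy t L B'' .z ∧ Same A B A'' B'' := by
  have hb : ∀ {F : Finset ℕ} {i m : Fin 3} (S : Finset ℕ), N.HasTy t L F (.p i) → m ≠ i →
      t m ∈ N.cl S → (S ∩ F).card + 1 ≤ N.r S := fun {F i m} S hF hm hS => by
    have c1 : N.Indep (insert (t m) (S ∩ F)) :=
      (tb_ins h hd hF hm).subset (insert_subset_insert _ inter_subset_right)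
    have c2 := c1.card_le_r (insert_subset_insert _ inter_subset_left)
    rwa [(mem_cl.1 hS).2,
      card_insert_of_notMem (tb_not hd (inter_subset_right.trans hF.1) m)] at c2
  obtain ⟨P, p1, p2⟩ := union_mul {0, 1} (fun i => if i = 0 then N.res L
    else (N.con (tset t)).res L) L
    (fun e => (if e ∈ A then 1 else 0) + if e ∈ B then 1 else 0)
    (fun e he => by rw [if_neg fun c => he (hA.1 c), if_neg fun c => he (hB.1 c)])
    (fun S hS => by
      rw [sum_add_distrib, ← card_filter, ← card_filter, filter_mem_eq_inter, filter_mem_eq_inter,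
        sum_pair zero_ne_one, if_pos rfl, if_neg one_ne_zero, r_res_of_subset _ hS,
        r_res_of_subset _ hS]
      have c1 := N.r_con (tset t) S
      have c2 := N.r_mono (subset_union_left (s₁ := S) (s₂ := tset t))
      rw [h.rk] at c1
      by_cases c3 : N.r (S ∪ tset t) ≤ N.r S + 1
      · obtain ⟨m, hm⟩ := h.exists_mem_cl c3
        by_cases c4 : m = k
        · have c5 := hb S hA' (c4 ▸ hkl) hm
          have c6 := hb S hB' (c4 ▸ hkl) hm
          have c7 := same_card hs S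
          omega
        · have c5 := hb S hA c4 hm
          have c6 := hb S hB c4 hm
          omega
      · have c5 := (hA.2.1.subset (inter_subset_right (s₁ := S))).card_le_r inter_subset_left
        have c6 := (hB.2.1.subset (inter_subset_right (s₁ := S))).card_le_r inter_subset_left
        omega)
  have q0 := p1 0 (by simp)
  have q1 := p1 1 (by simp)
  rw [if_pos rfl, indep_res] at q0
  rw [if_neg one_ne_zero, indep_res] at q1
  have hS : Same A B (P 0) (P 1) := same_iff.2 fun x => by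
    have c := p2 x
    rw [card_filter, sum_pair zero_ne_one] at c
    split_ifs at c <;> simp_all
  have c1 := same_card hS L
  rw [inter_eq_right.2 hA.1, inter_eq_right.2 hB.1, inter_eq_right.2 q0.2,
    inter_eq_right.2 q1.2] at c1
  have c2 := tb_card hA
  have c3 := tb_card hB
  have c4 := q0.1.card_le_r (q0.2.trans (subset_union_left (s₂ := tset t)))
  have c5 := N.r_con (tset t) (P 1)
  have c6 := tb_le (N := N) (t := t) q1.2
  rw [h.rk, q1.1.r_eq] at c5
  rw [Tp.dim] at c2 c3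
  obtain ⟨I, i1, i2, i3⟩ := N.exists_basis (tset t)
  exact ⟨P 0, P 1, tb_u q0.2 q0.1 (by omega),
    ⟨q1.2, ((indep_con i2 i1 i3).1 q1.1).2.subset subset_union_left, by omega,
      by rw [Tp.dim]; omega, fun i hi => by cases hi⟩, hS⟩

theorem tb_od (h : N.IsTri t) (hL : L ⊆ N.E) (hd : Disjoint L (tset t)) (hr : N.Reg)
    {A B : Finset ℕ} (hA : N.HasTy t L A .u) (hB : N.HasTy t L B .z) :
    ∃ A' B' k l, k ≠ l ∧ N.HasTy t L A' (.p k) ∧ N.HasTy t L B' (.p l) ∧ Same A B A' B' := by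
  obtain ⟨v, -, hv⟩ := hr.exists_indep
  have hT : ∀ i, t i ∈ N.E := fun i => h.subset (tb_mem t i)
  have hAE := hA.2.1.1
  have hBE := hB.2.1.1
  have cA : N.r (L ∪ tset t) + 2 = A.card + 2 := tb_card hA
  have cB : N.r (L ∪ tset t) + 0 = B.card + 2 := tb_card hB
  have r01 : N.r (insert (t 0) (insert (t 1) B)) = N.r (L ∪ tset t) :=
    (tb_pair h (by decide) B).trans hB.2.2.1
  have rB := hB.2.1.r_eq
  set U := Submodule.span (ZMod 3) (v '' (B : Set ℕ)) with hU
  have key : ∀ x y : ZMod 3, x • v (t 0) + y • v (t 1) ∈ U → x = 0 ∧ y = 0 := fun x y hxy => by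
    have c1 := N.r_insert_le (t 1) B
    have c2 := N.r_insert_le (t 0) (insert (t 1) B)
    have hx : x = 0 := by_contra fun hx => by
      have c3 : t 0 ∈ N.cl (insert (t 1) B) := by
        rw [hv _ (insert_subset (hT 1) hBE) _ (hT 0), coe_insert, Set.image_insert_eq,
          ← Submodule.smul_mem_iff _ hx, Submodule.mem_span_insert']
        exact ⟨y, hxy⟩
      have c4 := (mem_cl.1 c3).2
      omega
    refine ⟨hx, by_contra fun hy => ?_⟩
    rw [hx, zero_smul, zero_add, Submodule.smul_mem_iff _ hy, hU, ← hv _ hBE _ (hT 1)] at hxy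
    have c4 := (mem_cl.1 hxy).2
    omega
  have hxy : ∀ e ∈ A, ∃ p : ZMod 3 × ZMod 3, v e + (p.1 • v (t 0) + p.2 • v (t 1)) ∈ U :=
    fun e he => by
      have c1 : e ∈ N.cl (insert (t 0) (insert (t 1) B)) := by
        refine mem_cl.2 ⟨hAE he, le_antisymm (r01 ▸ N.r_mono ?_) (N.r_le_insert _ _)⟩
        exact insert_subset (mem_union_left _ (hA.1 he)) (insert_subset
          (mem_union_right _ (tb_mem t 0)) (insert_subset (mem_union_right _ (tb_mem t 1))
            (hB.1.trans subset_union_left)))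
      rw [hv _ (insert_subset (hT 0) (insert_subset (hT 1) hBE)) _ (hAE he), coe_insert, coe_insert,
        Set.image_insert_eq, Set.image_insert_eq, Submodule.mem_span_insert'] at c1
      obtain ⟨x, hx⟩ := c1
      obtain ⟨y, hy⟩ := Submodule.mem_span_insert'.1 hx
      exact ⟨(x, y), by rwa [← add_assoc]⟩
  choose! p hp using hxy
  have hc : ∀ i, ∃ c : ℕ → ZMod 3, ∑ e ∈ A, c e • v e = v (t i) := fun i => by
    rw [← Submodule.mem_span_image_finset_iff_exists_fun', ← hv _ hAE _ (hT i)]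
    refine subset_cl_of_r h.subset ?_ (tb_mem t i)
    rw [hA.2.2.1, hA.2.1.r_eq]
    omega
  choose c hc using hc
  have hs : ∀ i, v (t i) + ((∑ e ∈ A, c i e * (p e).1) • v (t 0) +
      (∑ e ∈ A, c i e * (p e).2) • v (t 1)) ∈ U := fun i => by
    have := U.sum_mem (t := A) fun e he => U.smul_mem (c i e) (hp e he)
    simp only [smul_add, sum_add_distrib, hc, smul_smul] at this
    rwa [sum_smul, sum_smul]
  have s0 : 1 + ∑ e ∈ A, c 0 e * (p e).1 = 0 :=
    (key _ _ (by rw [add_smul, one_smul, add_assoc]; exact hs 0)).1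
  have s1 : 1 + ∑ e ∈ A, c 1 e * (p e).2 = 0 :=
    (key (∑ e ∈ A, c 1 e * (p e).1) _ (by rw [add_smul, one_smul, add_left_comm]; exact hs 1)).2
  obtain ⟨e, he, hne⟩ : ∃ e ∈ A, c 0 e * (p e).1 + c 1 e * (p e).2 ≠ 0 := by
    by_contra hc
    push Not at hc
    have := sum_eq_zero hc
    rw [sum_add_distrib] at this
    exact absurd (by linear_combination s0 + s1 - this : (2 : ZMod 3) = 0) (by decide)
  set w := (p e).1 • v (t 0) + (p e).2 • v (t 1) with hw
  set U' := Submodule.span (ZMod 3) (v '' ((A.erase e : Finset ℕ) : Set ℕ)) with hU'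
  have hsE : A.erase e ⊆ N.E := (erase_subset _ _).trans hAE
  have hIe : N.Indep (A.erase e) := hA.2.1.subset (erase_subset _ _)
  have w1 : w ∉ U' := fun hc' => by
    have c1 : w = ∑ g ∈ A, (c 0 g * (p e).1 + c 1 g * (p e).2) • v g := by
      simp only [hw, ← hc, smul_sum, smul_smul, add_smul, sum_add_distrib, mul_comm]
    rw [c1, ← add_sum_erase _ _ he, Submodule.add_mem_iff_left _ (U'.sum_mem fun g hg =>
      U'.smul_mem _ (Submodule.subset_span ⟨g, hg, rfl⟩)), Submodule.smul_mem_iff _ hne, hU',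
      ← hv _ hsE _ (hAE he)] at hc'
    exact (hIe.insert_iff_cl (hAE he) (notMem_erase _ _)).1 (by rw [insert_erase he]; exact hA.2.1)
      hc'
  have w2 : e ∉ N.cl B := fun hc' => by
    have c1 := hp e he
    rw [Submodule.add_mem_iff_right _ ((hv _ hBE _ (hAE he)).1 hc')] at c1
    obtain ⟨c2, c3⟩ := key _ _ c1
    exact hne (by rw [c2, c3, mul_zero, mul_zero, add_zero])
  have heB : e ∉ B := fun c => w2 (subset_cl hBE c)
  have hs1 : insert e B ⊆ L := insert_subset (hA.1 he) hB.1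
  have hs2 : A.erase e ⊆ L := (erase_subset _ _).trans hA.1
  obtain ⟨β, hβ⟩ := exists_hasTy h hs1 ((hB.2.1.insert_iff_cl (hAE he) heB).2 w2)
    (le_antisymm (tb_le hs1) (hB.2.2.1 ▸ N.r_mono (union_subset_union_left (subset_insert _ _))))
  have cE := card_erase_add_one he
  obtain ⟨α, hα⟩ := exists_hasTy h hs2 hIe (le_antisymm (tb_le hs2) (by
    by_contra hc'
    have c1 : tset t ⊆ N.cl (A.erase e) := subset_cl_of_r h.subset (le_antisymm
      (by rw [hIe.r_eq]; omega) (N.r_mono subset_union_left))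
    exact w1 (U'.add_mem (U'.smul_mem _ ((hv _ hsE _ (hT 0)).1 (c1 (tb_mem t 0))))
      (U'.smul_mem _ ((hv _ hsE _ (hT 1)).1 (c1 (tb_mem t 1)))))))
  have c1 := tb_card hα
  have c2 := tb_card hβ
  rw [card_insert_of_notMem heB] at c2
  obtain ⟨k, rfl⟩ := eq_p (a := α) (by omega)
  obtain ⟨l, rfl⟩ := eq_p (a := β) (by omega)
  refine ⟨_, _, k, l, ?_, hα, hβ, same_iff.2 fun x => ?_⟩
  · rintro rfl
    have d1 := (hv _ hsE _ (hT k)).1 (tb_cl h hα)
    have d2 := (hv _ hβ.2.1.1 _ (hT k)).1 (tb_cl h hβ)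
    have d3 : t k ∈ N.cl {t 0, t 1} := by
      have c3 := tb_pair h (show (0 : Fin 3) ≠ 1 by decide) ∅
      have c4 : ({t 0, t 1} : Finset ℕ) ∪ tset t = tset t :=
        union_eq_right.2 (insert_subset (tb_mem t 0) (singleton_subset_iff.2 (tb_mem t 1)))
      rw [insert_empty_eq, empty_union] at c3
      exact subset_cl_of_r h.subset (by rw [c4, c3]) (tb_mem t k)
    rw [hv _ (insert_subset (hT 0) (singleton_subset_iff.2 (hT 1))) _ (hT k), coe_pair,
      Set.image_pair, Submodule.mem_span_pair] at d3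
    obtain ⟨x, y, d3⟩ := d3
    rw [coe_insert, Set.image_insert_eq, Submodule.mem_span_insert'] at d2
    obtain ⟨z, d2⟩ := d2
    obtain ⟨d4, d5⟩ := key (x - z * (p e).1) (y - z * (p e).2) (by
      have := U.sub_mem d2 (U.smul_mem z (hp e he))
      rw [← d3] at this
      convert this using 1
      module)
    have d6 : v (t k) = z • w := by
      rw [← d3, sub_eq_zero.1 d4, sub_eq_zero.1 d5, hw]
      module
    by_cases hz : z = 0
    · have d7 : t k ∈ N.cl B := (hv _ hBE _ (hT k)).2 (by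
        rw [d6, hz, zero_smul]
        exact Submodule.zero_mem _)
      have d8 := (mem_cl.1 d7).2
      obtain ⟨j, hj⟩ := exists_ne k
      have d9 := tb_pair h hj B
      have d10 := N.r_insert_le (t j) (insert (t k) B)
      have d11 := hB.2.2.1
      omega
    · rw [d6, Submodule.smul_mem_iff _ hz] at d1
      exact w1 d1
  · simp only [mem_insert, mem_erase]
    by_cases hx : x = e
    · subst hx; tauto
    · tauto

theorem bSide_hasTy (h : N.IsTri t) (hL : L ⊆ N.E) (hd : Disjoint L (tset t)) (hr : N.Reg) :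
    BSide L (N.HasTy t L) := by
  exact ⟨mSide_hasTy h hL hd, fun A B k l hA hB hkl => tb_mg h hd hA hB hkl,
    fun A B hA hB => tb_od h hL hd hr hA hB,
    fun A B A' B' k l hA hB hA' hB' hkl hs => tb_ux h hd hA hB hA' hB' hkl hs⟩

theorem pOdd (M : BM) : POdd M.IsBase M.E := by
  intro p hp e he
  exact partners_odd hp.fst hp.snd he (disjoint_left.1 hp.disj he)

end BM

end Pool.Agent.P.MP_3f5ce9_co
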