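import Pool.Agent.P.MP_3f5ce9_co.W.TriC
import Pool.Agent.P.MP_3f5ce9_co.W.TriB

/-!
The dual of a three-sum.
-/

open Finset

namespace Pool.Agent.P.MP_3f5ce9_co

theorem td_add (φ ψ : ℕ → Finset ℕ) (C : Finset ℕ) :
    oddSum (fun e => symmDiff (φ e) (ψ e)) C = symmDiff (oddSum φ C) (oddSum ψ C) := by
  ext y
  have : (C.filter fun x => y ∈ symmDiff (φ x) (ψ x)) =
      symmDiff (C.filter fun x => y ∈ φ x) (C.filter fun x => y ∈ ψ x) := by
    ext x
    simp only [mem_filter, mem_symmDiff]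
    tauto
  rw [mem_symmDiff, mem_oddSum, mem_oddSum, mem_oddSum, this, odd_card_symmDiff]
  tauto

theorem td_ind (S W C : Finset ℕ) : oddSum (fun e => if e ∈ S then W else ∅) C =
    if Even (C ∩ S).card then ∅ else W := by
  ext y
  rw [mem_oddSum]
  by_cases hy : y ∈ W
  · have : (C.filter fun x => y ∈ if x ∈ S then W else ∅) = C ∩ S := by
      ext x
      by_cases hx : x ∈ S <;> simp [hx, hy]
    rw [this, ← Nat.not_even_iff_odd]
    split_ifs with h <;> simp [h, hy]
  · have : (C.filter fun x => y ∈ if x ∈ S then W else ∅) = ∅ := by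
      ext x
      by_cases hx : x ∈ S <;> simp [hx, hy]
    rw [this]
    split_ifs with h <;> simp [hy]

theorem td_odd (T C : Finset ℕ) : oddSum (fun e => if e ∈ T then T.erase e else {e}) C =
    if Even (C ∩ T).card then C else symmDiff C T := by
  have : (fun e => if e ∈ T then T.erase e else {e}) =
      fun e => symmDiff (if e ∈ T then T else ∅) {e} := by
    funext e
    ext y
    split_ifs with h <;> simp only [mem_symmDiff, mem_erase, mem_singleton] <;> grind
  rw [this, BM.lin_sing, td_ind]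
  split_ifs
  · simp
  · exact symmDiff_comm _ _

theorem td_par {T : Finset ℕ} (hT : T.card = 3) (C : Finset ℕ) :
    Even (T ∩ symmDiff C T).card ↔ ¬ Even (T ∩ C).card := by
  have h1 : T ∩ symmDiff C T = T \ C := by
    ext x
    simp only [mem_inter, mem_symmDiff, mem_sdiff]
    tauto
  have h2 := card_sdiff_add_card_inter T C
  rw [h1]
  simp only [Nat.even_iff]
  omega

theorem td_tset (t : Fin 3 → ℕ) : tset t = univ.image t := by
  ext e
  simp [mem_tset]

theorem td_mem (t : Fin 3 → ℕ) (i : Fin 3) : t i ∈ tset t := mem_tset.2 ⟨i, rfl⟩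

theorem td_ex {t : Fin 3 → ℕ} (ht : Function.Injective t) (γ : Tp) : ∃ S, tyT t S γ := by
  rcases γ with _ | i | _
  · exact ⟨∅, empty_subset _, rfl, fun i h => by cases h⟩
  · exact ⟨{t i}, singleton_subset_iff.2 (td_mem t i), rfl, fun j h => by cases h; rfl⟩
  · refine ⟨{t 0, t 1}, ?_, card_pair (ht.ne (by decide)), fun i h => by cases h⟩
    simp [insert_subset_iff, td_mem]

theorem td_fin : ∀ (s s' a : Finset (Fin 3)) (γ : Tp), s.card = γ.dim →
    (∀ i, γ = .p i → s = {i}) → s'.card = γ.co.dim → (∀ i, γ.co = .p i → s' = {i}) →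
    Even a.card → (Disjoint a s' ↔ a ⊆ s ∨ univ \ a ⊆ s) := by
  decide

theorem td_cond {t : Fin 3 → ℕ} (ht : Function.Injective t) {S S' A : Finset ℕ} {γ : Tp}
    (hS : tyT t S γ) (hS' : tyT t S' γ.co) (hA : A ⊆ tset t) (h : Even A.card) :
    Disjoint A S' ↔ A ⊆ S ∨ tset t \ A ⊆ S := by
  obtain ⟨h1, h2, h3⟩ := hS
  obtain ⟨h4, h5, h6⟩ := hS'
  rw [td_tset] at *
  obtain ⟨s, -, rfl⟩ := subset_image_iff.1 h1
  obtain ⟨s', -, rfl⟩ := subset_image_iff.1 h4
  obtain ⟨a, -, rfl⟩ := subset_image_iff.1 hA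
  rw [card_image_of_injective _ ht] at h2 h5 h
  rw [← image_sdiff _ _ ht, disjoint_image ht, image_subset_image_iff ht,
    image_subset_image_iff ht]
  exact td_fin s s' a γ h2 (fun i hi => image_injective ht (by rw [h3 i hi, image_singleton])) h5
    (fun i hi => image_injective ht (by rw [h6 i hi, image_singleton])) h

theorem td_co : ∀ β γ : Tp, β.co.compat γ = β.compat γ.co ∧ γ.co.co = γ ∧
    γ.dim + γ.co.dim = 2 := by
  decide

theorem td_four {G : Gr ℕ ℕ} {e w a b c : ℕ} {W : Finset ℕ} (h : G.Joins e b c) (h1 : w ≠ a)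
    (h2 : w ≠ b) (h3 : w ≠ c) (h4 : a ≠ b) (h5 : a ≠ c) (h6 : b ≠ c) (hW : W = {w, a, b, c}) :
    symmDiff ({w} : Finset ℕ) {a} = symmDiff W (symmDiff {G.s e} {G.t e}) := by
  have : symmDiff ({G.s e} : Finset ℕ) {G.t e} = symmDiff {b} {c} := by
    rcases h with h | h
    · rw [h.1, h.2]
    · rw [h.1, h.2, symmDiff_comm]
  rw [this, hW]
  ext y
  simp only [mem_symmDiff, mem_singleton, mem_insert]
  grind

namespace BM

variable {P N : BM} {L L1 L2 : Finset ℕ} {t : Fin 3 → ℕ}

theorem td_even (h : N.IsTri t) {D : Finset ℕ} (hD : N.dual.cyc D) : Even (tset t ∩ D).card :=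
  hD.2 _ h.cyc

theorem td_cyc (h : N.IsTri t) {C : Finset ℕ} :
    (N.dy t).cyc C ↔ N.dual.cyc C ∨ N.dual.cyc (symmDiff C (tset t)) := by
  change C ⊆ N.E ∧ N.dual.cyc (oddSum _ C) ↔ _
  rw [td_odd, inter_comm]
  constructor
  · rintro ⟨-, h2⟩
    split_ifs at h2
    · exact Or.inl h2
    · exact Or.inr h2
  · rintro (h1 | h1)
    · exact ⟨h1.1, by rwa [if_pos (td_even h h1)]⟩
    · refine ⟨?_, by rwa [if_neg ((td_par h.card C).1 (td_even h h1))]⟩
      have := symmDiff_sub h1.1 h.subset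
      rwa [symmDiff_symmDiff_cancel_right] at this

theorem td_cycT (h : N.IsTri t) : (N.dy t).cyc (tset t) :=
  (td_cyc h).2 (Or.inr (by rw [symmDiff_self]; exact N.dual.nil))

theorem td_cocyc (h : N.IsTri t) {D : Finset ℕ} :
    (N.dy t).dual.cyc D ↔ N.cyc D ∧ Even (D ∩ tset t).card := by
  constructor
  · intro hD
    refine ⟨cyc_iff_dual.2 ⟨hD.1, fun C hC => hD.2 C ((td_cyc h).2 (Or.inl hC))⟩, ?_⟩
    rw [inter_comm]
    exact hD.2 _ (td_cycT h)
  · rintro ⟨h1, h2⟩
    refine ⟨N.sub D h1, fun C hC => ?_⟩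
    rcases (td_cyc h).1 hC with h3 | h3
    · rw [inter_comm]
      exact h3.2 D h1
    · have h4 := h3.2 D h1
      have h5 : D ∩ symmDiff C (tset t) = symmDiff (C ∩ D) (D ∩ tset t) := by
        ext x
        simp only [mem_inter, mem_symmDiff]
        tauto
      have h6 := odd_card_symmDiff (C ∩ D) (D ∩ tset t)
      rw [h5] at h4
      simp only [← Nat.not_odd_iff_even] at *
      tauto

theorem td_sdiff (hE : N.E = L ∪ tset t) (hd : Disjoint L (tset t)) :
    N.E \ tset t = L ∧ N.E \ L = tset t := by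
  rw [hE]
  exact ⟨union_sdiff_cancel_right hd, union_sdiff_cancel_left hd⟩

@[simp] theorem dy_E (N : BM) (t : Fin 3 → ℕ) : (N.dy t).E = N.E := rfl

theorem isTri_dy (h : N.IsTri t) (hE : N.E = L ∪ tset t) (hd : Disjoint L (tset t))
    (hs : N.r L = N.r N.E) : (N.dy t).IsTri t := by
  have hT : N.dual.Indep (tset t) := indep_dual.2 ⟨h.subset, by rw [(td_sdiff hE hd).1, hs]⟩
  have h3 := h.card
  refine ⟨td_cycT h, h.card, le_antisymm ?_ ?_⟩
  · by_contra hn
    have h1 := (N.dy t).r_le_card (tset t)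
    have h2 := (indep_iff (M := N.dy t)).2 ⟨h.subset, by omega⟩
    rw [h2.2 _ (td_cycT h) Subset.rfl] at h3
    simp at h3
  · obtain ⟨S, h1, h2, -⟩ := td_ex h.inj .u
    have h2 : S.card = 2 := h2
    rw [← h2]
    refine Indep.card_le_r ⟨h1.trans h.subset, fun C hC hCS => ?_⟩ h1
    rcases (td_cyc h).1 hC with h4 | h4
    · exact hT.2 C h4 (hCS.trans h1)
    · have := hT.2 _ h4 (symmDiff_sub (hCS.trans h1) Subset.rfl)
      rw [show C = tset t from symmDiff_eq_bot.1 this] at hCS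
      have := card_le_card hCS
      omega

theorem r_dy_span (h : N.IsTri t) (hE : N.E = L ∪ tset t) (hd : Disjoint L (tset t)) :
    (N.dy t).r L = (N.dy t).r N.E := by
  have h1 : (N.dy t).dual.Indep (tset t) := by
    refine ⟨h.subset, fun D hD hDT => ?_⟩
    obtain ⟨h2, h3⟩ := (td_cocyc h).1 hD
    rw [inter_eq_left.2 hDT, Nat.even_iff] at h3
    have h4 := card_le_card hDT
    have h5 := h.card
    exact (h.indep hDT (by omega)).2 D h2 Subset.rfl
  have h2 := (indep_dual.1 h1).2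
  rwa [dy_E, (td_sdiff hE hd).1] at h2

theorem td_rank (h : N.IsTri t) (hE : N.E = L ∪ tset t) (hd : Disjoint L (tset t)) :
    (N.dy t).r N.E + 1 = N.dual.r N.E := by
  have h1 : (N.dy t).res L = N.dual.res L := by
    refine ext_cyc rfl fun C => and_congr_left fun hC => (td_cyc h).trans ⟨?_, Or.inl⟩
    rintro (h2 | h2)
    · exact h2
    · refine absurd ?_ ((td_par h.card C).1 (td_even h h2))
      rw [disjoint_iff_inter_eq_empty.1 (hd.mono_left hC).symm]
      simp
  have h2 : (N.dy t).r L = N.dual.r L := by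
    rw [← (N.dy t).r_res_of_subset (Subset.refl L), h1, r_res_of_subset _ (Subset.refl L)]
  have h3 := r_dual (M := N) (X := L) (by rw [hE]; exact subset_union_left)
  have h4 := N.r_dual_E
  have h5 : N.E.card = L.card + 3 := by rw [hE, card_union_of_disjoint hd, h.card]
  rw [(td_sdiff hE hd).2, h.rk] at h3
  rw [← r_dy_span h hE hd]
  omega

theorem td_base (h : N.IsTri t) (hE : N.E = L ∪ tset t) (hd : Disjoint L (tset t))
    {F S S' : Finset ℕ} {γ : Tp} (hF : F ⊆ L) (hS : tyT t S γ) (hS' : tyT t S' γ.co) :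
    (N.dy t).IsBase (F ∪ S) ↔ N.IsBase (L \ F ∪ S') := by
  have hFT : ∀ x ∈ F, x ∉ tset t := fun x hx => disjoint_left.1 hd (hF hx)
  have hLT := disjoint_left.1 hd
  have h1 := hS.1
  have h2 := hS'.1
  have h3 := h.card
  have e1 : N.E \ (F ∪ (tset t \ S')) = L \ F ∪ S' := by
    ext x
    have := @hF x
    have := @hLT x
    have := @h2 x
    simp only [hE, mem_sdiff, mem_union]
    tauto
  have s1 : F ∪ (tset t \ S') ⊆ N.E := hE ▸ union_subset_union hF sdiff_subset
  have s2 : F ∪ S ⊆ N.E := hE ▸ union_subset_union hF h1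
  have c1 : (F ∪ (tset t \ S')).card = (F ∪ S).card + 1 := by
    rw [card_union_of_disjoint ((hd.mono_left hF).mono_right sdiff_subset),
      card_union_of_disjoint ((hd.mono_left hF).mono_right h1), card_sdiff_of_subset h2,
      hS.2.1, hS'.2.1]
    have := (td_co γ γ).2.2
    omega
  have c2 := td_rank h hE hd
  have c3 : ¬ tset t ⊆ F ∪ S := fun hT => by
    have : tset t ⊆ S := fun x hx => (mem_union.1 (hT hx)).resolve_left fun h' => hFT x h' hx
    have := card_le_card this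
    have := hS.2.1
    have := (td_co γ γ).2.2
    omega
  have key : ∀ D, N.dual.cyc D → (D ⊆ F ∪ (tset t \ S') ↔
      D ⊆ F ∪ S ∨ symmDiff D (tset t) ⊆ F ∪ S) := by
    intro D hD
    have k := td_cond h.inj hS hS' inter_subset_left (td_even h hD)
    have k1 : D ⊆ F ∪ (tset t \ S') ↔ D \ tset t ⊆ F ∧ Disjoint (tset t ∩ D) S' := by
      simp only [subset_iff, disjoint_left, mem_union, mem_sdiff, mem_inter]
      grind
    have k2 : D ⊆ F ∪ S ↔ D \ tset t ⊆ F ∧ tset t ∩ D ⊆ S := by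
      simp only [subset_iff, mem_union, mem_sdiff, mem_inter]
      grind
    have k3 : symmDiff D (tset t) ⊆ F ∪ S ↔ D \ tset t ⊆ F ∧ tset t \ (tset t ∩ D) ⊆ S := by
      simp only [subset_iff, mem_union, mem_sdiff, mem_inter, mem_symmDiff]
      grind
    rw [k1, k2, k3, k, and_or_left]
  rw [← e1]
  refine Iff.trans ?_ (isBase_dual.trans (and_iff_right s1))
  refine and_congr ⟨fun hI => ⟨s1, fun D hD hs => ?_⟩, fun hI => ⟨s2, fun C hC hs => ?_⟩⟩
    (by rw [dy_E, dual_E]; omega)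
  · rcases (key D hD).1 hs with h4 | h4
    · exact hI.2 D ((td_cyc h).2 (Or.inl hD)) h4
    · have h5 := hI.2 _ ((td_cyc h).2 (Or.inr (by rwa [symmDiff_symmDiff_cancel_right]))) h4
      have h6 := td_even h hD
      rw [show D = tset t from symmDiff_eq_bot.1 h5, inter_self, h3] at h6
      exact absurd h6 (by decide)
  · rcases (td_cyc h).1 hC with h4 | h4
    · exact hI.2 C h4 ((key C h4).2 (Or.inl hs))
    · have h5 := hI.2 _ h4 ((key _ h4).2 (Or.inr (by rwa [symmDiff_symmDiff_cancel_right])))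
      rw [show C = tset t from symmDiff_eq_bot.1 h5] at hs
      exact absurd hs c3

theorem hasTy_dy (h : N.IsTri t) (hE : N.E = L ∪ tset t) (hd : Disjoint L (tset t))
    (hs : N.r L = N.r N.E) : (N.dy t).HasTy t L = coTy L (N.HasTy t L) := by
  funext F β
  refine propext ?_
  rw [hasTy_iff (isTri_dy h hE hd hs) hE hd, coTy, hasTy_iff h hE hd]
  refine and_congr_right fun hF => ⟨fun H => ⟨sdiff_subset, fun S' γ hS' => ?_⟩,
    fun H S γ hS => ?_⟩
  · obtain ⟨S, hS⟩ := td_ex h.inj γ.co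
    rw [← td_base h hE hd hF hS (by rwa [(td_co γ γ).2.1]), H S _ hS, (td_co β γ).1]
  · obtain ⟨S', hS'⟩ := td_ex h.inj γ.co
    rw [td_base h hE hd hF hS hS', H.2 S' _ hS', (td_co β γ.co).1, (td_co γ γ).2.1]

/-- the delta-wye exchange in a graph -/
theorem td_graph (hc : N.Graphic) (h : N.IsTri t) :
    ∃ H z, (N.dy t).Cog H ∧ H.star N.E z = tset t := by
  obtain ⟨G, hG⟩ := hc
  obtain ⟨ρ, hρ, a0, a1, a2⟩ := IsTri.exists_triAt (hG ▸ h :)
  set w := N.E.sup (fun e => G.s e + G.t e) + 1 with hw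
  have w1 : ∀ e ∈ N.E, G.s e ≠ w ∧ G.t e ≠ w := fun e he => by
    have : G.s e + G.t e ≤ N.E.sup (fun e => G.s e + G.t e) :=
      le_sup (f := fun e => G.s e + G.t e) he
    omega
  have w2 : ∀ e ∈ N.E, w ∉ symmDiff ({G.s e} : Finset ℕ) {G.t e} := fun e he => by
    have := w1 e he
    simp only [mem_symmDiff, mem_singleton]
    omega
  set H : Gr ℕ ℕ := ⟨fun e => if e ∈ tset t then w else G.s e,
    fun e => if e ∈ tset t then Function.extend t ρ id e else G.t e⟩ with hH
  have key : ∀ e ∈ N.E, symmDiff ({H.s e} : Finset ℕ) {H.t e} =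
      symmDiff (if e ∈ tset t then {w, ρ 0, ρ 1, ρ 2} else ∅) (symmDiff {G.s e} {G.t e}) := by
    intro e he
    by_cases h1 : e ∈ tset t
    · obtain ⟨i, rfl⟩ := mem_tset.1 h1
      have b0 := w1 _ (h.subset (td_mem t 0))
      have b1 := w1 _ (h.subset (td_mem t 1))
      have n1 : ρ 0 ≠ ρ 1 := hρ.ne (by decide)
      have n2 : ρ 0 ≠ ρ 2 := hρ.ne (by decide)
      have n3 : ρ 1 ≠ ρ 2 := hρ.ne (by decide)
      have c0 : w ≠ ρ 0 := by rcases a1 with a | a <;> omega
      have c1 : w ≠ ρ 1 := by rcases a0 with a | a <;> omega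
      have c2 : w ≠ ρ 2 := by rcases a0 with a | a <;> omega
      simp only [hH, h1, if_true, h.inj.extend_apply]
      obtain rfl | rfl | rfl : i = 0 ∨ i = 1 ∨ i = 2 := by omega
      · exact td_four a0 c0 c1 c2 n1 n2 n3 rfl
      · exact td_four a1 c1 c0 c2 n1.symm n3 n2 (by rw [insert_comm (ρ 0)])
      · exact td_four a2 c2 c0 c1 n2.symm n3.symm n1
          (by rw [insert_comm (ρ 2), pair_comm (ρ 2)])
    · simp only [hH, h1, if_false]
      exact (bot_symmDiff _).symm
  refine ⟨H, w, ext_cyc rfl fun C => ?_, ?_⟩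
  · rw [td_cocyc h]
    change _ ↔ C ⊆ N.E ∧ oddSum _ C = ∅
    rw [show N.cyc C ↔ C ⊆ N.E ∧ oddSum (fun e => symmDiff {G.s e} {G.t e}) C = ∅ from by
      conv_lhs => rw [hG]
      exact Iff.rfl, and_assoc]
    refine and_congr_right fun hC => ?_
    rw [lin_cg fun e he => key e (hC he), td_add (fun e => if e ∈ tset t then _ else ∅), td_ind]
    split_ifs with h1
    · simp [h1]
    · refine iff_of_false (fun h2 => h1 h2.2) fun h2 => ?_
      have h3 : w ∈ oddSum (fun e => symmDiff {G.s e} {G.t e}) C := by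
        rw [← show _ = _ from symmDiff_eq_bot.1 h2]
        simp
      rw [mem_oddSum, filter_false_of_mem fun e he => w2 e (hC he)] at h3
      simp at h3
  · ext e
    rw [Gr.mem_star]
    refine ⟨fun h1 => by_contra fun h2 => ?_, fun h1 => ⟨h.subset h1, Or.inl (if_pos h1)⟩⟩
    have := w1 e h1.1
    have h3 := h1.2
    simp only [hH, Gr.Inc, h2, if_false] at h3
    omega

theorem Reg.dy (hr : N.Reg) (h : N.IsTri t) : (N.dy t).Reg := by
  obtain ⟨s, π, d1, si, p1, p2, tr, -⟩ := exists_par_tri h ∅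
  rw [empty_union] at d1
  set N' := N.pull π (N.E ∪ tset s) with hN'
  set p := oddSum fun x => {π x} with hp
  have pE : ∀ x ∈ N.E ∪ tset s, π x ∈ N.E := fun x hx => by
    rcases mem_union.1 hx with hx | hx
    · rwa [p2 x hx]
    · obtain ⟨i, rfl⟩ := mem_tset.1 hx
      exact p1 i ▸ h.subset (td_mem t i)
  have q1 : ∀ C ⊆ N.E, p C = C := fun C hC => by
    rw [hp, mn_inj fun x hx y hy hxy => by rwa [p2 x (hC hx), p2 y (hC hy)] at hxy,
      image_congr (g := id) fun x hx => p2 x (hC hx), image_id]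
  have q2 : ∀ A ⊆ tset s, p A ⊆ tset t := fun A hA => lin_sub fun x hx => by
    obtain ⟨i, rfl⟩ := mem_tset.1 (hA hx)
    exact singleton_subset_iff.2 (p1 i ▸ td_mem t i)
  have pc : ∀ C, (N'.dy s).dual.cyc C ↔
      (C ⊆ N.E ∪ tset s ∧ N.cyc (p C)) ∧ Even (C ∩ tset s).card := fun C => td_cocyc tr
  set P := (N'.dy s).dual with hP
  have r1 : P.res N.E = N := by
    refine ext_cyc (inter_eq_right.2 subset_union_left) fun C => ⟨fun hC => ?_, fun hC => ?_⟩
    · exact q1 C hC.2 ▸ ((pc C).1 hC.1).1.2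
    · have := N.sub C hC
      refine ⟨(pc C).2 ⟨⟨this.trans subset_union_left, by rwa [q1 C this]⟩, ?_⟩, this⟩
      rw [disjoint_iff_inter_eq_empty.1 (d1.mono_right this).symm]
      simp
  have kE : (N.E ∪ tset s) ∩ (tset s ∪ tset t) = tset s ∪ tset t :=
    inter_eq_right.2 (union_subset subset_union_right (h.subset.trans subset_union_left))
  have kt : (N'.res (tset s ∪ tset t)).IsTri s := tr.res subset_union_left
  have k1 : P.res (tset s ∪ tset t) = ((N'.res (tset s ∪ tset t)).dy s).dual := by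
    refine ext_cyc rfl fun C => ?_
    rw [td_cocyc kt]
    exact (and_congr_left' (td_cocyc tr)).trans and_right_comm
  have k2 : (P.res (tset s ∪ tset t)).Reg := by
    obtain ⟨H, z, h1, -⟩ := td_graph (graphic_of_r_le_two (M := N'.res (tset s ∪ tset t)) (by
      rw [res_E, r_res_of_subset _ inter_subset_right, hN', pull_E, r_pull pE inter_subset_left,
        ← h.rk]
      refine N.r_mono (image_subset_iff.2 fun x hx => ?_)
      rcases mem_union.1 (mem_inter.1 hx).2 with hx | hx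
      · obtain ⟨i, rfl⟩ := mem_tset.1 hx
        exact p1 i ▸ td_mem t i
      · rwa [p2 x (h.subset hx)])) kt
    rw [k1, h1]
    exact reg_gm _ _
  have k3 : (P.res (tset s ∪ tset t)).IsTri t :=
    (IsTri.of_res (r1.symm ▸ h : (P.res N.E).IsTri t)).res subset_union_right
  have e1 : P = N.sum (P.res (tset s ∪ tset t)) := by
    refine ext_cyc ?_ fun C => ⟨fun hC => ?_, ?_⟩
    · change N.E ∪ tset s = N.E ∪ (N.E ∪ tset s) ∩ (tset s ∪ tset t)
      rw [kE, ← union_assoc, union_eq_left.2 (h.subset.trans subset_union_left)]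
    · have a1 := q2 _ (inter_subset_right (s₁ := C))
      have a2 : symmDiff (C ∩ tset s) (p (C ∩ tset s)) ⊆ tset s ∪ tset t :=
        symmDiff_sub (inter_subset_right.trans subset_union_left) (a1.trans subset_union_right)
      have a3 : ∀ x ∈ p (C ∩ tset s), x ∉ tset s := fun x hx h' =>
        disjoint_left.1 d1 h' (h.subset (a1 hx))
      have a4 : P.cyc (symmDiff (C ∩ tset s) (p (C ∩ tset s))) := by
        refine (pc _).2 ⟨⟨a2.trans (kE ▸ inter_subset_left), ?_⟩, ?_⟩
        · rw [hp, oddSum_symmDiff, ← hp, q1 _ (a1.trans h.subset), symmDiff_self]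
          exact N.nil
        · have : symmDiff (C ∩ tset s) (p (C ∩ tset s)) ∩ tset s = C ∩ tset s := by
            ext x
            have := a3 x
            simp only [mem_inter, mem_symmDiff]
            tauto
          rw [this]
          exact ((pc C).1 hC).2
      refine ⟨_, _, ?_, ⟨a4, a2⟩, (symmDiff_symmDiff_cancel_right _ C).symm⟩
      rw [← r1]
      refine ⟨P.sd _ _ hC a4, fun x hx => ?_⟩
      have b1 := @((pc C).1 hC).1.1 x
      have b2 : x ∈ p (C ∩ tset s) → x ∈ N.E := fun h' => h.subset (a1 h')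
      simp only [mem_inter, mem_symmDiff, mem_union] at hx b1
      tauto
    · rintro ⟨D, D', h1, h2, rfl⟩
      exact P.sd _ _ (r1.symm ▸ h1 : (P.res N.E).cyc D).1 h2.1
  have e2 : N.E ∩ (P.res (tset s ∪ tset t)).E = tset t := by
    change N.E ∩ ((N.E ∪ tset s) ∩ (tset s ∪ tset t)) = _
    rw [kE, inter_union_distrib_left, disjoint_iff_inter_eq_empty.1 d1.symm, empty_union,
      inter_eq_right.2 h.subset]
  obtain ⟨f1, f2, f3⟩ := tri_sum h k3 e2
  have pr : P.Reg := by
    rw [e1]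
    refine f1.reg ?_ ?_
    · rwa [sdiff_union_of_subset h.subset, f2]
    · rwa [sdiff_union_of_subset k3.subset, f3]
  have pT : ∀ x ∈ N.E \ tset t ∪ tset s, π x ∈ tset t ↔ x ∈ tset s := fun x hx => by
    rcases mem_union.1 hx with hx | hx
    · rw [p2 x (mem_sdiff.1 hx).1]
      exact iff_of_false (mem_sdiff.1 hx).2 (disjoint_right.1 d1 (mem_sdiff.1 hx).1)
    · obtain ⟨i, rfl⟩ := mem_tset.1 hx
      exact iff_of_true (p1 i ▸ td_mem t i) hx
  have xs : N.E \ tset t ∪ tset s ⊆ N.E ∪ tset s := union_subset_union sdiff_subset Subset.rfl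
  have iso : (N.dy t).dual.Iso (P.res (N.E \ tset t ∪ tset s)) := by
    have hE : (P.res (N.E \ tset t ∪ tset s)).E = N.E \ tset t ∪ tset s := inter_eq_right.2 xs
    refine iso_iff_pull.2 ⟨π, ?_, ?_, ext_cyc rfl fun C => ?_⟩
    · rw [hE]
      intro x hx y hy hxy
      have := (pT x hx).symm.trans (hxy ▸ pT y hy)
      by_cases h1 : x ∈ tset s
      · obtain ⟨i, rfl⟩ := mem_tset.1 h1
        obtain ⟨j, rfl⟩ := mem_tset.1 (this.1 h1)
        rw [p1, p1] at hxy
        rw [h.inj hxy]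
      · have h2 := (mem_union.1 hx).resolve_right h1
        have h3 := (mem_union.1 hy).resolve_right (mt this.2 h1)
        rwa [p2 x (mem_sdiff.1 h2).1, p2 y (mem_sdiff.1 h3).1] at hxy
    · rw [hE]
      refine Subset.antisymm (image_subset_iff.2 fun x hx => pE x (xs hx)) fun x hx => ?_
      by_cases h1 : x ∈ tset t
      · obtain ⟨i, rfl⟩ := mem_tset.1 h1
        exact mem_image.2 ⟨s i, mem_union_right _ (td_mem s i), p1 i⟩
      · exact mem_image.2 ⟨x, mem_union_left _ (mem_sdiff.2 ⟨hx, h1⟩), p2 x hx⟩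
    · rw [hE]
      change P.cyc C ∧ _ ↔ _ ∧ (N.dy t).dual.cyc (p C)
      rw [and_comm]
      refine and_congr_right fun hC => ?_
      have : (C.filter fun x => π x ∈ tset t) = C ∩ tset s := by
        ext x
        rw [mem_filter, mem_inter]
        exact and_congr_right fun hx => pT x (hC hx)
      rw [pc, td_cocyc h, and_iff_right (hC.trans xs), ← Nat.not_odd_iff_even,
        ← Nat.not_odd_iff_even, hp, mn_par, this]
  have := (iso.symm.hasMinor.reg (pr.res _)).dual
  rwa [dual_dual] at this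

theorem isBase_dy_dual (h : N.IsTri t) (hE : N.E = L ∪ tset t) (hd : Disjoint L (tset t))
    (hs : N.r L = N.r N.E) :
    (N.dy t).dual.IsBase = Glue L (N.HasTy t L) (tset t) (coTy (tset t) (tyT t)) := by
  funext B
  rw [isBase_dual, isBase_labels (isTri_dy h hE hd hs) hE hd, hasTy_dy h hE hd hs, dy_E, hE,
    ← glue_co hd, coTy_coTy fun _ _ h => h.1]

theorem CoStar.graphic_dy (hc : N.CoStar t) (h : N.IsTri t) : (N.dy t).Graphic := by
  obtain ⟨H, z, h1, h2⟩ := hc
  have hz : ∀ e ∈ tset t, ∃ n, symmDiff ({H.s e} : Finset ℕ) {H.t e} = symmDiff {z} {n} := by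
    intro e he
    rcases (Gr.mem_star.1 (h2 ▸ he :)).2 with h3 | h3
    · exact ⟨_, by rw [h3]⟩
    · exact ⟨_, by rw [h3, symmDiff_comm]⟩
  have key : ∀ x, ∃ a b, oddSum (fun e => symmDiff ({H.s e} : Finset ℕ) {H.t e})
      (if x ∈ tset t then (tset t).erase x else {x}) = symmDiff {a} {b} := by
    intro x
    split_ifs with hx
    · obtain ⟨u, v, huv, h3⟩ := card_eq_two.1
        (show ((tset t).erase x).card = 2 by rw [card_erase_of_mem hx, h.card])
      obtain ⟨a, ha⟩ := hz u (mem_of_mem_erase (h3 ▸ mem_insert_self _ _ :))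
      obtain ⟨b, hb⟩ := hz v (mem_of_mem_erase (h3 ▸ mem_insert_of_mem (mem_singleton_self _) :))
      refine ⟨a, b, ?_⟩
      rw [h3, lin_ins _ (by simpa using huv), lin_one, ha, hb, symmDiff_symmDiff_symmDiff_comm,
        symmDiff_self, bot_symmDiff]
    · exact ⟨_, _, lin_one _ _⟩
  choose a b hab using key
  refine ⟨⟨a, b⟩, ?_⟩
  rw [dy_E, BM.dy, h1, gm, ofVec_lin, gm]
  · exact ofVec_congr fun x _ => hab x
  · intro x hx
    split_ifs
    · exact (erase_subset _ _).trans h.subset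
    · exact singleton_subset_iff.2 hx

theorem Graphic.coStar_dy (hc : N.Graphic) (h : N.IsTri t) (hE : N.E = L ∪ tset t)
    (hd : Disjoint L (tset t)) (hs : N.r L = N.r N.E) : (N.dy t).CoStar t :=
  td_graph hc h

theorem td_side (h : P.TriS t L1 L2) : (P.res (L1 ∪ tset t)).IsTri t ∧
    (P.res (L1 ∪ tset t)).r L1 = (P.res (L1 ∪ tset t)).r (P.res (L1 ∪ tset t)).E := by
  refine ⟨h.tri.res subset_union_right, ?_⟩
  rw [h.toTri.res_E, r_res_of_subset _ subset_union_left, r_res_of_subset _ Subset.rfl, h.s1]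

theorem TriS.exists_dual (h : P.TriS t L1 L2) : ∃ P' : BM, P'.TriS t L1 L2 ∧
    P'.del (tset t) = (P.del (tset t)).dual ∧
    P'.res (L1 ∪ tset t) = (P.res (L1 ∪ tset t)).dy t ∧
    P'.res (L2 ∪ tset t) = (P.res (L2 ∪ tset t)).dy t := by
  obtain ⟨a1, a2⟩ := td_side h
  obtain ⟨b1, b2⟩ := td_side h.symm
  have a3 := h.toTri.res_E
  have b3 := h.toTri.symm.res_E
  obtain ⟨f1, f2, f3⟩ := tri_sum (isTri_dy a1 a3 h.d1 a2) (isTri_dy b1 b3 h.d2 b2) (by
    rw [dy_E, dy_E, a3, b3, ← inter_union_distrib_right,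
      disjoint_iff_inter_eq_empty.1 h.d12, empty_union])
  rw [dy_E, dy_E, (td_sdiff a3 h.d1).1, (td_sdiff b3 h.d2).1] at f1
  rw [dy_E, a3] at f2
  rw [dy_E, b3] at f3
  set P' := ((P.res (L1 ∪ tset t)).dy t).sum ((P.res (L2 ∪ tset t)).dy t)
  have g : P'.TriS t L1 L2 := by
    refine ⟨f1, ?_, ?_⟩
    · rw [← P'.r_res_of_subset (Subset.refl (L1 ∪ tset t)),
        ← P'.r_res_of_subset (subset_union_left (s₁ := L1) (s₂ := tset t)), f2,
        r_dy_span a1 a3 h.d1, a3]
    · rw [← P'.r_res_of_subset (Subset.refl (L2 ∪ tset t)),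
        ← P'.r_res_of_subset (subset_union_left (s₁ := L2) (s₂ := tset t)), f3,
        r_dy_span b1 b3 h.d2, b3]
  refine ⟨P', g, ext_base (by rw [dual_E, f1.del_E, h.toTri.del_E]) fun B => ?_, f2, f3⟩
  rw [isBase_dual, f1.isBase_del g.r_eq, h.toTri.isBase_del h.r_eq, h.toTri.del_E,
    ← glue_co h.d12, ← hasTy_res (P := P') (L := L1) Subset.rfl,
    ← hasTy_res (P := P') (L := L2) Subset.rfl, f2, f3, hasTy_dy a1 a3 h.d1 a2,
    hasTy_dy b1 b3 h.d2 b2, hasTy_res Subset.rfl, hasTy_res Subset.rfl]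

/-- the dual typing of a cographic side is the typing of a rooted graph -/
theorem CoStar.exists_rooted (hc : N.CoStar t) (h : N.IsTri t) (hE : N.E = L ∪ tset t)
    (hd : Disjoint L (tset t)) (hs : N.r L = N.r N.E) :
    ∃ G X ρ, Rooted G X ρ L ∧ coTy L (N.HasTy t L) = GTy G X ρ L := by
  obtain ⟨G, X, ρ, h1, h2, h3, h4⟩ := (hc.graphic_dy h).exists_rooted (isTri_dy h hE hd hs) hE
  exact ⟨G, X, ρ, h1, by rw [← hasTy_dy h hE hd hs, h4, hasTy_gm h1 h2 hd h3]⟩

end BM

end Pool.Agent.P.MP_3f5ce9_co
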