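import Pool.Agent.P.MP_3f5ce9_co.W.DefsC
import Pool.Agent.P.MP_3f5ce9_co.W.TriB
import Pool.Agent.P.MP_3f5ce9_co.W.TriD
import Pool.Agent.P.MP_3f5ce9_co.W.Bits

/-!
The gadgets exist.
-/

open Finset

namespace Pool.Agent.P.MP_3f5ce9_co

/-- the gadget conditions for abstract configurations -/
def agG {X : Type} (cf nl : X → Tp → Tp → Prop) : Gd → Prop
  | .tri => (∀ κ β1 β2, cf κ β1 β2 → β1.dim + β2.dim = 3) ∧
      (∀ k, ∃ κ, cf κ (.p k) .u) ∧ ∀ κ k, cf κ (.p k) .u → nl κ .z (.p k)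
  | .wye => (∀ κ β1 β2, cf κ β1 β2 → β1.dim + β2.dim = 1) ∧
      (∀ k, ∃ κ, cf κ .z (.p k)) ∧ ∀ κ k, cf κ .z (.p k) → nl κ (.p k) .u
  | .whl i => (∀ κ β1 β2, cf κ β1 β2 → β1.dim + β2.dim = 2) ∧
      (∃ κ, cf κ .z .u) ∧ (∀ l, ∃ κ, cf κ (.p i) (.p l)) ∧
      (∀ κ k l, cf κ (.p k) (.p l) → k = i ∨ l = i) ∧
      ∀ κ j, j ≠ i → cf κ .z .u → nl κ (.p j) (.p j)
  | .unit => (∀ κ β1 β2, cf κ β1 β2 → β1.dim + β2.dim = 2) ∧
      (∃ κ, cf κ .z .u) ∧ (∀ k l, k ≠ l → ∃ κ, cf κ (.p k) (.p l)) ∧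
      (∀ κ k, cf κ (.p k) (.p k) → nl κ .z .u) ∧
      ∀ κ j, cf κ .z .u → nl κ (.p j) (.p j)

theorem ag_transfer {X : Type} {cf nl : X → Tp → Tp → Prop} {K : Finset ℕ} {tk : Typing}
    (f : X → Pr) (h1 : ∀ κ a b, Cfg K tk κ a b ↔ ∃ x, κ = f x ∧ cf x a b)
    (h2 : ∀ x a b, nl x a b → ¬ Low tk (f x) a b) {g : Gd} (h : agG cf nl g) : IsGad K tk g := by
  have h3 : ∀ a b, (∃ x, cf x a b) → ∃ κ, Cfg K tk κ a b := fun a b ⟨x, hx⟩ =>
    ⟨f x, (h1 _ _ _).2 ⟨x, rfl, hx⟩⟩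
  have h4 : ∀ n : ℕ, (∀ x a b, cf x a b → a.dim + b.dim = n) →
      ∀ κ a b, Cfg K tk κ a b → a.dim + b.dim = n := fun n h κ a b hκ => by
    obtain ⟨x, -, hx⟩ := (h1 _ _ _).1 hκ
    exact h x a b hx
  have h5 : ∀ a b c d, (∀ x, cf x a b → nl x c d) → ∀ κ, Cfg K tk κ a b → ¬ Low tk κ c d :=
    fun a b c d h κ hκ => by
      obtain ⟨x, rfl, hx⟩ := (h1 _ _ _).1 hκ
      exact h2 _ _ _ (h x hx)
  rcases g with _ | _ | i | _
  · exact ⟨h4 _ h.1, fun k => h3 _ _ (h.2.1 k), fun κ k => h5 _ _ _ _ (fun x => h.2.2 x k) κ⟩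
  · exact ⟨h4 _ h.1, fun k => h3 _ _ (h.2.1 k), fun κ k => h5 _ _ _ _ (fun x => h.2.2 x k) κ⟩
  · refine ⟨h4 _ h.1, h3 _ _ h.2.1, fun k => h3 _ _ (h.2.2.1 k), fun κ k l hκ => ?_,
      fun κ j hj => h5 _ _ _ _ (fun x => h.2.2.2.2 x j hj) κ⟩
    obtain ⟨x, -, hx⟩ := (h1 _ _ _).1 hκ
    exact h.2.2.2.1 x k l hx
  · exact ⟨h4 _ h.1, h3 _ _ h.2.1, fun k l hkl => h3 _ _ (h.2.2.1 k l hkl),
      fun κ k => h5 _ _ _ _ (fun x => h.2.2.2.1 x k) κ,
      fun κ j => h5 _ _ _ _ (fun x => h.2.2.2.2 x j) κ⟩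

/-- the mask of the triangle -/
def agW (k : ℕ) : ℕ := 2 ^ k ||| 2 ^ (k + 1) ||| 2 ^ (k + 2)

/-- the types on masks -/
def agTy (l : List ℕ) (k m : ℕ) (β : Tp) : Prop :=
  rkm l m = (msel l m).length ∧ rkm l (m ||| agW k) = rkm l ((2 ^ k - 1) ||| agW k) ∧
    rkm l (m ||| agW k) + β.dim = (msel l m).length + 2 ∧
    ∀ i : Fin 3, β = .p i → rkm l (2 ^ (k + i) ||| m) = (msel l m).length

instance (l : List ℕ) (k m : ℕ) (β : Tp) : Decidable (agTy l k m β) := by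
  unfold agTy
  infer_instance

def agCf (l : List ℕ) (k n : ℕ) (m : Fin n) (a b : Tp) : Prop :=
  agTy l k m a ∧ agTy l k (2 ^ k - 1 - m) b

instance (l : List ℕ) (k n : ℕ) (m : Fin n) (a b : Tp) : Decidable (agCf l k n m a b) := by
  unfold agCf
  infer_instance

def agPt (l : List ℕ) (k m : ℕ) (a b : Tp) (i : ℕ) : Prop :=
  m.testBit i = false ∧ ∃ c d, a.compat c = true ∧ b.compat d = true ∧
    agTy l k (2 ^ i ||| m) c ∧ agTy l k (2 ^ k - 1 - (2 ^ i ||| m)) d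

instance (l : List ℕ) (k m : ℕ) (a b : Tp) (i : ℕ) : Decidable (agPt l k m a b i) := by
  unfold agPt
  infer_instance

def agNl (l : List ℕ) (k n : ℕ) (m : Fin n) (a b : Tp) : Prop :=
  ∃ i < k, agPt l k m a b i ∧ ∃ j < i, agPt l k m a b j

instance (l : List ℕ) (k n : ℕ) (m : Fin n) (a b : Tp) : Decidable (agNl l k n m a b) := by
  unfold agNl
  infer_instance

instance (l : List ℕ) (k n : ℕ) (g : Gd) : Decidable (agG (agCf l k n) (agNl l k n) g) := by
  rcases g with _ | _ | i | _ <;> unfold agG <;> infer_instance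

namespace BM

variable {t : Fin 3 → ℕ} {K L1 : Finset ℕ}

theorem ag_enum {k : ℕ} (ht : Function.Injective t) (hK : K.card = k)
    (hd : Disjoint K (tset t)) : ∃ π : ℕ → ℕ, Set.InjOn π (K ∪ tset t : Finset ℕ) ∧
      (∀ x ∈ K, π x < k) ∧ (∀ i < k, ∃ x ∈ K, π x = i) ∧ ∀ i, π (t i) = k + i := by
  classical
  have e := equivOfCardEq (hK.trans (card_range k).symm)
  have hn : ∀ i, t i ∉ K := fun i h => disjoint_left.1 hd h (mem_tset.2 ⟨i, rfl⟩)
  let π : ℕ → ℕ := fun x => if h : x ∈ K then (e ⟨x, h⟩).1 else k + (Function.invFun t x).1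
  have h1 : ∀ x ∈ K, π x < k := fun x hx => by
    simp only [π, dif_pos hx]
    exact mem_range.1 (e ⟨x, hx⟩).2
  have h2 : ∀ i, π (t i) = k + i := fun i => by
    simp only [π, dif_neg (hn i), Function.leftInverse_invFun ht i]
  refine ⟨π, fun x hx y hy hxy => ?_, h1, fun i hi => ?_, h2⟩
  · rcases mem_union.1 (mem_coe.1 hx) with hx | hx <;>
      rcases mem_union.1 (mem_coe.1 hy) with hy | hy
    · simp only [π, dif_pos hx, dif_pos hy] at hxy
      exact congrArg Subtype.val (e.injective (Subtype.ext hxy))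
    · obtain ⟨j, rfl⟩ := mem_tset.1 hy
      have := h1 x hx
      rw [h2] at hxy
      omega
    · obtain ⟨j, rfl⟩ := mem_tset.1 hx
      have := h1 y hy
      rw [h2] at hxy
      omega
    · obtain ⟨i, rfl⟩ := mem_tset.1 hx
      obtain ⟨j, rfl⟩ := mem_tset.1 hy
      rw [h2, h2] at hxy
      rw [show i = j from Fin.ext (by omega)]
  · refine ⟨(e.symm ⟨i, mem_range.2 hi⟩).1, (e.symm ⟨i, mem_range.2 hi⟩).2, ?_⟩
    simp only [π, dif_pos (e.symm ⟨i, mem_range.2 hi⟩).2, Subtype.coe_eta, Equiv.apply_symm_apply]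

theorem ag_main {g : Gd} {k n : ℕ} (l : List (ℕ × ℕ)) (ht : Function.Injective t)
    (hK : K.card = k) (hd : Disjoint K (tset t)) (hn : n = 2 ^ k) (hl : l.length = k + 3)
    (h16 : ∀ p ∈ l, p.1 < 16 ∧ p.2 < 16) (hb : ∀ x ∈ edgeBits l, x < 2 ^ 16)
    (hc : xorAll (msel (edgeBits l) (agW k)) = 0) (hr : rkm (edgeBits l) (agW k) = 2)
    (hs : rkm (edgeBits l) (2 ^ k - 1) = rkm (edgeBits l) ((2 ^ k - 1) ||| agW k))
    (hg : agG (agCf (edgeBits l) k n) (agNl (edgeBits l) k n) g) :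
    ∃ U : BM, U.E = K ∪ tset t ∧ U.IsTri t ∧ U.Graphic ∧
      U.r K = U.r U.E ∧ IsGad K (U.HasTy t K) g := by
  obtain ⟨π, p1, p2, p3, p4⟩ := ag_enum ht hK hd
  have hG : (ofBits (edgeBits l)).Graphic := gm_gl h16 ▸ graphic_gm _ _
  have hL : (edgeBits l).length = k + 3 := by rw [edgeBits, List.length_map, hl]
  generalize edgeBits l = b at *
  have hπ : ∀ x ∈ K ∪ tset t, π x ∈ (ofBits b).E := fun x hx => by
    rw [ofBits_E, hL, mem_range]
    rcases mem_union.1 hx with hx | hx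
    · have := p2 x hx
      omega
    · obtain ⟨i, rfl⟩ := mem_tset.1 hx
      rw [p4]
      omega
  have hsur : ∀ i < k + 3, ∃ x ∈ K ∪ tset t, π x = i := fun i hi => by
    by_cases h : i < k
    · obtain ⟨x, h1, h2⟩ := p3 i h
      exact ⟨x, mem_union_left _ h1, h2⟩
    · exact ⟨t ⟨i - k, by omega⟩, mem_union_right _ (mem_tset.2 ⟨_, rfl⟩), by
        rw [p4]; simp only; omega⟩
  let S : ℕ → Finset ℕ := fun m => (K ∪ tset t).filter fun x => m.testBit (π x) = true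
  have s0 : ∀ m x, x ∈ S m ↔ x ∈ K ∪ tset t ∧ m.testBit (π x) = true := fun m x => mem_filter
  have s1 : ∀ m, S m ⊆ K ∪ tset t := fun m => filter_subset _ _
  have s2 : ∀ m, (S m).image π = mset b.length m := fun m => by
    ext i
    rw [mem_image, mem_mset, hL]
    constructor
    · rintro ⟨x, hx, rfl⟩
      have := hπ x (s1 m hx)
      rw [ofBits_E, hL, mem_range] at this
      exact ⟨this, ((s0 _ _).1 hx).2⟩
    · rintro ⟨h1, h2⟩
      obtain ⟨x, hx, rfl⟩ := hsur i h1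
      exact ⟨x, (s0 _ _).2 ⟨hx, h2⟩, rfl⟩
  set U := (ofBits b).pull π (K ∪ tset t) with hU
  have s3 : ∀ m, U.r (S m) = rkm b m := fun m => by
    rw [hU, r_pull hπ (s1 m), s2, r_ofBits hb]
  have s4 : ∀ m, (S m).card = (msel b m).length := fun m => by
    rw [← card_mset, ← s2, card_image_of_injOn (p1.mono (coe_subset.2 (s1 m)))]
  have s5 : ∀ m m', S (m ||| m') = S m ∪ S m' := fun m m' => by
    ext x
    simp only [mem_union (s := S m), s0, Nat.testBit_or, Bool.or_eq_true, and_or_left]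
  have s6 : ∀ x ∈ K ∪ tset t, S (2 ^ π x) = {x} := fun x hx => by
    ext y
    rw [s0, Nat.testBit_two_pow, decide_eq_true_eq, mem_singleton]
    exact ⟨fun h => p1 (mem_coe.2 h.1) (mem_coe.2 hx) h.2.symm, fun h => by subst h; exact ⟨hx, rfl⟩⟩
  have s7 : ∀ i : Fin 3, S (2 ^ (k + i)) = {t i} := fun i => by
    rw [← p4, s6 _ (mem_union_right _ (mem_tset.2 ⟨i, rfl⟩))]
  have s8 : S (agW k) = tset t := by
    rw [agW, s5, s5]
    exact (congrArg₂ _ (congrArg₂ _ (s7 0) (s7 1)) (s7 2)).trans (by ext x; simp [tset])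
  have s9 : ∀ m < 2 ^ k, ∀ x, x ∈ S m ↔ x ∈ K ∧ m.testBit (π x) = true := fun m hm x => by
    rw [s0, mem_union]
    refine and_congr_left fun h => or_iff_left_of_imp fun hx => ?_
    obtain ⟨i, rfl⟩ := mem_tset.1 hx
    rw [bt_hi hm (by rw [p4]; omega)] at h
    exact absurd h Bool.false_ne_true
  have s10 : ∀ m < 2 ^ k, S (2 ^ k - 1 - m) = K \ S m := fun m hm => by
    ext x
    rw [mem_sdiff, s9 _ hm, s9 _ (by omega), Nat.sub_sub, add_comm 1 m,
      Nat.testBit_two_pow_sub_succ hm]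
    refine and_congr_right fun hx => ?_
    simp [hx, p2 x hx]
  have s11 : S (2 ^ k - 1) = K := by
    have := s10 0 (Nat.two_pow_pos k)
    rw [Nat.sub_zero] at this
    rw [this]
    ext x
    simp [s0]
  have s12 : ∀ F ⊆ K, ∃ m < 2 ^ k, F = S m := fun F hF => by
    obtain ⟨m, h1, h2⟩ := exists_mset (n := k) (X := F.image π) fun i hi => by
      obtain ⟨x, hx, rfl⟩ := mem_image.1 hi
      exact mem_range.2 (p2 x (hF hx))
    refine ⟨m, h1, Finset.ext fun x => ?_⟩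
    rw [s9 _ h1]
    constructor
    · intro hx
      exact ⟨hF hx, (mem_mset.1 (h2 ▸ mem_image_of_mem π hx)).2⟩
    · rintro ⟨h3, h4⟩
      have : π x ∈ F.image π := h2 ▸ mem_mset.2 ⟨p2 x h3, h4⟩
      obtain ⟨y, hy, h5⟩ := mem_image.1 this
      rwa [← p1 (mem_coe.2 (mem_union_left _ (hF hy))) (mem_coe.2 (mem_union_left _ h3)) h5]
  have sE : K ∪ tset t = S ((2 ^ k - 1) ||| agW k) := by rw [s5, s11, s8]
  have ty : ∀ m < 2 ^ k, ∀ β, U.HasTy t K (S m) β ↔ agTy b k m β := fun m hm β => by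
    have e1 : S m ∪ tset t = S (m ||| agW k) := by rw [s5, s8]
    have e2 : ∀ i : Fin 3, insert (t i) (S m) = S (2 ^ (k + i) ||| m) := fun i => by
      rw [s5, s7, insert_eq]
    have e3 : S m ⊆ K := fun x hx => ((s9 m hm x).1 hx).1
    have e4 : S m ⊆ U.E := s1 m
    simp only [HasTy, agTy, indep_iff, e1, e2, sE, s3, s4, e3, e4, true_and]
  refine ⟨U, rfl, ⟨?_, ?_, ?_⟩, hG.pull hπ, ?_, ?_⟩
  · rw [hU, cyc_pull_inj p1]
    refine ⟨subset_union_right, ?_⟩
    rw [← s8, s2, cyc_ofBits hb]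
    exact hc
  · rw [td_tset, card_image_of_injective _ ht]
    rfl
  · rw [← s8, s3, hr]
  · rw [show U.E = _ from sE, s3, ← hs, ← s3, s11]
  · subst hn
    refine ag_transfer (fun m : Fin (2 ^ k) => (S m, S (2 ^ k - 1 - m))) (fun κ a c => ?_)
      (fun m a c h hlow => ?_) hg
    · constructor
      · intro h
        obtain ⟨m, hm, e⟩ := s12 κ.1 h.fst.1
        have e2 : κ.2 = S (2 ^ k - 1 - m) := by rw [s10 m hm, ← e, (TriBA.part_sdiff h.disj h.cov).1]
        exact ⟨⟨m, hm⟩, Prod.ext e e2, (ty m hm a).1 (e ▸ h.fst),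
          (ty _ (by omega) c).1 (e2 ▸ h.snd)⟩
      · rintro ⟨m, rfl, h1, h2⟩
        have hm := m.2
        refine ⟨?_, ?_, (ty _ hm a).2 h1, (ty _ (by omega) c).2 h2⟩
        · simp only [s10 _ hm]
          exact disjoint_sdiff
        · simp only [s10 _ hm]
          exact union_sdiff_of_subset fun x hx => ((s9 _ hm x).1 hx).1
    · have hm := m.2
      have key : ∀ x ∈ K, agPt b k m a c (π x) →
          Part (U.HasTy t K) (S m, S (2 ^ k - 1 - m)) a c x := fun x hx ⟨h1, c1, c2, h2, h3, h4, h5⟩ => by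
        have hm' : 2 ^ π x ||| m.1 < 2 ^ k :=
          Nat.or_lt_two_pow (Nat.pow_lt_pow_right one_lt_two (p2 x hx)) hm
        have e1 : S (2 ^ π x ||| m.1) = insert x (S m) := by
          rw [s5, s6 x (mem_union_left _ hx), insert_eq]
        refine ⟨?_, c1, c2, e1 ▸ (ty _ hm' _).2 h4, ?_, h2, h3⟩
        · simp only [s10 _ hm, mem_sdiff, s9 _ hm, h1]
          simpa using hx
        · have := (ty _ (by omega) _).2 h5
          rw [s10 _ hm', e1, sdiff_insert] at this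
          simp only [s10 _ hm]
          exact this
      obtain ⟨i, hi, h1, j, hj, h2⟩ := h
      obtain ⟨x, hx, rfl⟩ := p3 i hi
      obtain ⟨y, hy, rfl⟩ := p3 j (hj.trans hi)
      rw [hlow x y (key x hx h1) (key y hy h2)] at hj
      exact lt_irrefl _ hj

theorem exists_gadget (g : Gd) (ht : Function.Injective t) (hK : K.card = g.size)
    (hd : Disjoint K (tset t)) : ∃ U : BM, U.E = K ∪ tset t ∧ U.IsTri t ∧ U.Graphic ∧
      U.r K = U.r U.E ∧ IsGad K (U.HasTy t K) g := by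
  rcases g with _ | _ | i | _
  · exact ag_main (k := 3) (n := 8) [(1, 2), (0, 2), (0, 1), (1, 2), (0, 2), (0, 1)] ht hK hd rfl rfl
      (by decide) (by decide) (by decide +kernel) (by decide +kernel) (by decide +kernel)
      (by decide +kernel)
  · exact ag_main (k := 3) (n := 8) [(3, 0), (3, 1), (3, 2), (1, 2), (0, 2), (0, 1)] ht hK hd rfl rfl
      (by decide) (by decide) (by decide +kernel) (by decide +kernel) (by decide +kernel)
      (by decide +kernel)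
  · fin_cases i
    · exact ag_main (k := 4) (n := 16) [(3, 0), (3, 1), (3, 2), (1, 2), (1, 2), (0, 2), (0, 1)]
        ht hK hd rfl rfl (by decide) (by decide) (by decide +kernel) (by decide +kernel)
        (by decide +kernel) (by decide +kernel)
    · exact ag_main (k := 4) (n := 16) [(3, 0), (3, 1), (3, 2), (0, 2), (1, 2), (0, 2), (0, 1)]
        ht hK hd rfl rfl (by decide) (by decide) (by decide +kernel) (by decide +kernel)
        (by decide +kernel) (by decide +kernel)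
    · exact ag_main (k := 4) (n := 16) [(3, 0), (3, 1), (3, 2), (0, 1), (1, 2), (0, 2), (0, 1)]
        ht hK hd rfl rfl (by decide) (by decide) (by decide +kernel) (by decide +kernel)
        (by decide +kernel) (by decide +kernel)
  · exact ag_main (k := 6) (n := 64)
      [(3, 0), (3, 1), (3, 2), (4, 0), (4, 1), (4, 2), (1, 2), (0, 2), (0, 1)] ht hK hd rfl rfl
      (by decide) (by decide) (by decide +kernel) (by decide +kernel) (by decide +kernel)
      (by decide +kernel)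

theorem exists_unit_graphic (ht : Function.Injective t) (hK : K.card = 6)
    (hd : Disjoint K (tset t)) : ∃ U : BM, U.UnitM t K ∧ U.Graphic := by
  obtain ⟨U, h1, h2, h3, h4, h5⟩ := exists_gadget .unit ht hK hd
  exact ⟨U, ⟨h1, hd, h2, hK, h4, Or.inl h3, h5⟩, h3⟩

theorem exists_unit_coStar (ht : Function.Injective t) (hK : K.card = 6)
    (hd : Disjoint K (tset t)) : ∃ U : BM, U.UnitM t K ∧ U.CoStar t := by
  obtain ⟨U, h1, h2, h3, h4, h5⟩ := exists_gadget .unit ht hK hd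
  have h6 := h3.coStar_dy h2 h1 hd h4
  refine ⟨U.dy t, ⟨h1, hd, isTri_dy h2 h1 hd h4, hK, r_dy_span h2 h1 hd, Or.inr h6, ?_⟩, h6⟩
  rw [hasTy_dy h2 h1 hd h4]
  exact h5.co

theorem UnitM.reg {U : BM} (h : U.UnitM t K) : U.Reg := by
  rcases h.kind with h | ⟨H, -, h, -⟩
  · exact h.reg
  · exact Cographic.reg ⟨H, h⟩

theorem Tri.gadUE {P : BM} {g : Gd} {a : ℕ} (h : P.Tri t L1 K) (hs : P.r (K ∪ tset t) = P.r K)
    (hg : IsGad K (P.HasTy t K) g) (hu : UE (P.del (tset t)).IsBase (L1 ∪ K) a) :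
    GadUE L1 (P.HasTy t L1) a g := by
  refine ⟨K, P.HasTy t K, h.d12, mSide_hasTy h.tri ?_ h.d2, hg, ?_⟩
  · rw [h.ground]
    exact subset_union_right.trans subset_union_left
  · rwa [← h.isBase_del (h.r_eq_of_span hs)]

theorem gadUE_of_ih {N : BM} {n a : ℕ} (g : Gd) (h : N.IsTri t) (hE : N.E = L1 ∪ tset t)
    (hd : Disjoint L1 (tset t)) (hr : N.Reg) (ih : IHA n) (hn : L1.card + g.size < n) :
    GadUE L1 (N.HasTy t L1) a g := by
  obtain ⟨K, hK, hKN⟩ : ∃ K : Finset ℕ, K.card = g.size ∧ Disjoint K N.E := by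
    refine ⟨Ico (N.E.sup id + 1) (N.E.sup id + 1 + g.size), by simp, disjoint_left.2 ?_⟩
    intro x hx hx'
    have h1 : x ≤ N.E.sup id := le_sup (f := id) hx'
    have h2 := (mem_Ico.1 hx).1
    omega
  rw [hE, disjoint_union_right] at hKN
  obtain ⟨U, h1, h2, h3, h4, h5⟩ := exists_gadget g h.inj hK hKN.2
  have hI : N.E ∩ U.E = tset t := by
    rw [hE, h1, ← inter_union_distrib_right, disjoint_iff_inter_eq_empty.1 hKN.1.symm, empty_union]
  obtain ⟨a1, a2, a3⟩ := tri_sum h h2 hI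
  have e1 : N.E \ tset t = L1 := by rw [hE, union_sdiff_cancel_right hd]
  have e2 : U.E \ tset t = K := by rw [h1, union_sdiff_cancel_right hKN.2]
  rw [e1, e2] at a1
  have b1 : (N.sum U).HasTy t L1 = N.HasTy t L1 := by
    rw [← hasTy_res (X := N.E) hE.ge, a2]
  have b2 : (N.sum U).HasTy t K = U.HasTy t K := by
    rw [← hasTy_res (X := U.E) h1.ge, a3]
  have hP : (N.sum U).Reg := a1.reg (by rw [← hE, a2]; exact hr) (by rw [← h1, a3]; exact h3.reg)
  rw [← b1]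
  refine a1.gadUE ?_ (b2 ▸ h5) ?_
  · have c1 := (N.sum U).r_res_of_subset (X := U.E) (Y := K) (h1 ▸ subset_union_left)
    have c2 := (N.sum U).r_res_of_subset (X := U.E) (Y := U.E) Subset.rfl
    rw [a3] at c1 c2
    rw [← h1, ← c1, ← c2, h4]
  · have := ih _ (hP.del (tset t)) (by
      rw [a1.del_E]
      have := card_union_le L1 K
      omega) a
    rwa [a1.del_E] at this

end BM

end Pool.Agent.P.MP_3f5ce9_co
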