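import Pool.Agent.P.MP_3f5ce9_co.W.Fin2
import Pool.Agent.P.MP_3f5ce9_co.W.TriB

/-!
General facts on pairs of bases.
-/

open Finset

namespace Pool.Agent.P.MP_3f5ce9_co

variable {𝓑 𝓑' : Fam} {E X : Finset ℕ} {a : ℕ} {p q : Pr} {M : BM}

theorem St2.swap (h : St2 𝓑 E p) : St2 𝓑 E p.swap := by
  exact f2_swap h

theorem US.swap (h : US 𝓑 E a p q) : US 𝓑 E a p.swap q.swap := by
  exact ⟨h.1.swap, h.2.1.swap, h.2.2.symm⟩

theorem eqv_swap (h : Relation.EqvGen (US 𝓑 E a) p q) :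
    Relation.EqvGen (US 𝓑 E a) p.swap q.swap := by
  induction h with
  | rel _ _ h => exact Relation.EqvGen.rel _ _ h.swap
  | refl => exact Relation.EqvGen.refl _
  | symm _ _ _ ih => exact ih.symm
  | trans _ _ _ _ _ h1 h2 => exact h1.trans _ _ _ h2

theorem eqv_st2 (h : Relation.EqvGen (US 𝓑 E a) p q) : St2 𝓑 E p ↔ St2 𝓑 E q := by
  induction h with
  | rel _ _ h => exact iff_of_true h.1 h.2.1
  | refl => exact Iff.rfl
  | symm _ _ _ ih => exact ih.symm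
  | trans _ _ _ _ _ h1 h2 => exact h1.trans h2

theorem ue_of_fst (h : ∀ p q, St2 𝓑 E p → St2 𝓑 E q → a ∈ p.1 → a ∈ q.1 →
    Relation.EqvGen (US 𝓑 E a) p q) (ha : a ∈ E) : UE 𝓑 E a := by
  intro p q hp hq hpq
  by_cases h1 : a ∈ p.1
  · exact h p q hp hq h1 (hpq.1 h1)
  · exact eqv_swap (h p.swap q.swap hp.swap hq.swap ((mem_union.1 (hp.cov ▸ ha)).resolve_left h1)
      ((mem_union.1 (hq.cov ▸ ha)).resolve_left (mt hpq.2 h1)))

theorem St2.card (h : St2 M.IsBase M.E p) : M.E.card = 2 * M.r M.E := by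
  rw [two_mul]
  nth_rw 1 [← h.cov]
  rw [card_union_of_disjoint h.disj, h.fst.2, h.snd.2]

/-- the first set starts the reverse of a unique exchange -/
theorem UX2.symm (hp : St2 M.IsBase M.E p) (hq : St2 M.IsBase M.E q) (h : UX2 M.IsBase a p q) :
    UX2 M.IsBase a q p := by
  exact f2_ux hp hq h

theorem BM.ueall_of_frozen (h : ∀ a ∈ M.E, UE M.IsBase M.E a) : M.UEall := by
  intro a
  by_cases ha : a ∈ M.E
  · exact h a ha
  have k1 : ∀ b (p q : Pr), St2 M.IsBase M.E p → UX2 M.IsBase b p q → UX2 M.IsBase a p q := by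
    rintro b p q hp ⟨e, he, f, hf, -, -, c⟩
    exact ⟨e, he, f, hf, fun k => ha (k ▸ hp.fst.subset he), fun k => ha (k ▸ hp.snd.subset hf), c⟩
  have k2 : ∀ b ∈ M.E, ∀ p q : Pr, St2 M.IsBase M.E p → St2 M.IsBase M.E q → (b ∈ p.1 ↔ b ∈ q.1) →
      Relation.EqvGen (US M.IsBase M.E a) p q := fun b hb p q hp hq k =>
    Relation.EqvGen.mono (fun p q c => ⟨c.1, c.2.1, c.2.2.imp (k1 b p q c.1)
      (k1 b _ _ c.1.swap)⟩) _ _ (h b hb p q hp hq k)
  intro p q hp hq _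
  rcases p.1.eq_empty_or_nonempty with h1 | ⟨e, he⟩
  · have h2 := hp.fst.2
    rw [h1, card_empty] at h2
    rw [Prod.ext (h1.trans (card_eq_zero.1 (hq.fst.2.trans h2.symm)).symm)
      ((card_eq_zero.1 (hp.snd.2.trans h2.symm)).trans
        (card_eq_zero.1 (hq.snd.2.trans h2.symm)).symm)]
    exact Relation.EqvGen.refl _
  by_cases h1 : e ∈ q.1
  · exact k2 e (hp.fst.subset he) p q hp hq (iff_of_true he h1)
  obtain ⟨f, f1, f2, f3, f4⟩ := BM.sym_exch hp.fst hp.snd he (disjoint_left.1 hp.disj he)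
  obtain ⟨c1, c2⟩ := TriBA.part_xch hp.disj hp.cov he f1
  have hp' : St2 M.IsBase M.E (xch p e f) := ⟨f3, f4, c1, c2⟩
  refine Relation.EqvGen.trans _ (xch p e f) _ ?_ (k2 e (hp.fst.subset he) _ q hp' hq
    (iff_of_false (disjoint_right.1 c1 (mem_insert_self _ _)) h1))
  by_cases h2 : ∃ g ∈ p.2, g ≠ f
  · obtain ⟨g, g1, g2⟩ := h2
    exact k2 g (hp.snd.subset g1) _ _ hp hp' (iff_of_false (disjoint_right.1 hp.disj g1)
      (disjoint_right.1 c1 (mem_insert_of_mem (mem_erase.2 ⟨g2, g1⟩))))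
  · exact Relation.EqvGen.rel _ _ ⟨hp, hp', Or.inl ⟨e, he, f, f1, fun k => ha (k ▸ hp.fst.subset he),
      fun k => ha (k ▸ hp.snd.subset f1), rfl, fun g hg _ _ => by_contra fun k => h2 ⟨g, hg, k⟩⟩⟩

theorem BM.ue_dual (h : UE M.dual.IsBase M.E a) : UE M.IsBase M.E a := by
  refine h.compl fun B hB => ?_
  rw [BM.isBase_dual, BM.du_ss hB, and_iff_right sdiff_subset]

theorem BM.NoTight.dual (h : M.NoTight) (hE : M.E.card = 2 * M.r M.E) : M.dual.NoTight := by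
  intro Z hZ h1 h2
  have hZ' : Z ⊆ M.E := hZ
  have a1 := BM.r_dual hZ'
  have a2 := card_sdiff_add_card_eq_card hZ'
  have a3 := h (M.E \ Z) sdiff_subset (sdiff_nonempty.2 fun k => h2 (Subset.antisymm hZ k))
    fun k => by
      have := h1.card_pos
      rw [k] at a2
      omega
  omega

theorem BM.ue_pull {π : ℕ → ℕ} (hπ : Set.InjOn π X) (hX : X.image π = M.E) (ha : a ∈ X)
    (h : UE M.IsBase M.E (π a)) : UE (M.pull π X).IsBase X a := by
  let g : Finset ℕ → Finset ℕ := fun B => X.filter fun x => π x ∈ B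
  have hm : ∀ x ∈ X, π x ∈ M.E := fun x hx => hX ▸ mem_image_of_mem π hx
  have b0 : ∀ B, (M.pull π X).IsBase B ↔ B ⊆ X ∧ M.IsBase (B.image π) := fun B => by
    rw [BM.isBase_pull hm (by rw [hX])]
    exact and_congr_right fun hB => and_iff_right (hπ.mono hB)
  have g1 : ∀ B ⊆ M.E, (g B).image π = B := fun B hB => by
    rw [← filter_image (p := fun y => y ∈ B), hX, filter_mem_eq_inter, inter_eq_right.2 hB]
  have g2 : ∀ B ⊆ X, g (B.image π) = B := fun B hB => by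
    ext x
    simp only [g, mem_filter, mem_image]
    exact ⟨fun ⟨k1, y, k2, k3⟩ => hπ (hB k2) k1 k3 ▸ k2, fun k => ⟨hB k, x, k, rfl⟩⟩
  have g3 : ∀ B ⊆ M.E, (M.pull π X).IsBase (g B) ↔ M.IsBase B := fun B hB => by
    rw [b0, g1 B hB, and_iff_right (filter_subset _ _)]
  have g4 : ∀ B, ∀ e ∈ X, ∀ f ∈ X, g (insert (π f) (B.erase (π e))) = insert f ((g B).erase e) := by
    intro B e he f hf
    ext x
    simp only [g, mem_filter, mem_insert, mem_erase]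
    refine ⟨fun k => k.2.imp (hπ k.1 hf) fun k' => ⟨fun k2 => k'.1 (k2 ▸ rfl), k.1, k'.2⟩, ?_⟩
    rintro (rfl | k)
    · exact ⟨hf, Or.inl rfl⟩
    · exact ⟨k.2.1, Or.inr ⟨fun k2 => k.1 (hπ k.2.1 he k2), k.2.2⟩⟩
  have s1 : ∀ p : Pr, St2 M.IsBase M.E p → St2 (M.pull π X).IsBase X (g p.1, g p.2) := fun p hp =>
    ⟨(g3 _ hp.fst.subset).2 hp.fst, (g3 _ hp.snd.subset).2 hp.snd,
      disjoint_filter.2 fun x _ k => disjoint_left.1 hp.disj k, by
        rw [← filter_or]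
        exact filter_true_of_mem fun x hx => mem_union.1 (hp.cov ▸ hm x hx)⟩
  have s2 : ∀ p q : Pr, St2 M.IsBase M.E p → UX2 M.IsBase (π a) p q →
      UX2 (M.pull π X).IsBase a (g p.1, g p.2) (g q.1, g q.2) := by
    rintro p q hp ⟨e, he, f, hf, c1, c2, rfl, c3⟩
    obtain ⟨e, he', rfl⟩ := mem_image.1 (hX ▸ hp.fst.subset he)
    obtain ⟨f, hf', rfl⟩ := mem_image.1 (hX ▸ hp.snd.subset hf)
    refine ⟨e, mem_filter.2 ⟨he', he⟩, f, mem_filter.2 ⟨hf', hf⟩, fun k => c1 (k ▸ rfl),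
      fun k => c2 (k ▸ rfl), Prod.ext (g4 _ e he' f hf') (g4 _ f hf' e he'), fun x hx d1 d2 => ?_⟩
    obtain ⟨x1, x2⟩ := mem_filter.1 hx
    refine hπ x1 hf' (c3 _ x2 ((g3 _ (insert_subset (hm x x1) ((erase_subset _ _).trans
      hp.fst.subset))).1 ?_) ((g3 _ (insert_subset (hm e he') ((erase_subset _ _).trans
      hp.snd.subset))).1 ?_))
    · rwa [g4 _ e he' x x1]
    · rwa [g4 _ x x1 e he']
  have s3 : ∀ p q : Pr, Relation.EqvGen (US M.IsBase M.E (π a)) p q →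
      Relation.EqvGen (US (M.pull π X).IsBase X a) (g p.1, g p.2) (g q.1, g q.2) := by
    intro p q k
    induction k with
    | rel p q k =>
      exact Relation.EqvGen.rel _ _ ⟨s1 p k.1, s1 q k.2.1, k.2.2.imp (s2 p q k.1) (s2 _ _ k.1.swap)⟩
    | refl => exact Relation.EqvGen.refl _
    | symm _ _ _ ih => exact ih.symm
    | trans _ _ _ _ _ h1 h2 => exact h1.trans _ _ _ h2
  have s4 : ∀ p : Pr, St2 (M.pull π X).IsBase X p →
      St2 M.IsBase M.E (p.1.image π, p.2.image π) ∧ (π a ∈ p.1.image π ↔ a ∈ p.1) ∧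
        (g (p.1.image π), g (p.2.image π)) = p := fun p hp => by
    obtain ⟨c1, c2⟩ := (b0 _).1 hp.fst
    obtain ⟨c3, c4⟩ := (b0 _).1 hp.snd
    refine ⟨⟨c2, c4, disjoint_left.2 fun x k1 k2 => ?_, by rw [← image_union, hp.cov, hX]⟩,
      ⟨fun k => by
        obtain ⟨y, y1, y2⟩ := mem_image.1 k
        exact hπ (c1 y1) ha y2 ▸ y1, mem_image_of_mem π⟩, Prod.ext (g2 _ c1) (g2 _ c3)⟩
    obtain ⟨y, y1, rfl⟩ := mem_image.1 k1
    obtain ⟨z, z1, z2⟩ := mem_image.1 k2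
    exact disjoint_left.1 hp.disj y1 (hπ (c3 z1) (c1 y1) z2 ▸ z1)
  intro p q hp hq hpq
  obtain ⟨c1, c2, c3⟩ := s4 p hp
  obtain ⟨d1, d2, d3⟩ := s4 q hq
  have := s3 _ _ (h _ _ c1 d1 (c2.trans (hpq.trans d2.symm)))
  rwa [c3, d3] at this

/-- some state has a unique exchange that starts with the given element -/
theorem BM.exists_clean {e : ℕ} (h : M.UEall) (hp : St2 M.IsBase M.E p) (he : e ∈ M.E) :
    ∃ q f, St2 M.IsBase M.E q ∧ e ∈ q.1 ∧ f ∈ q.2 ∧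
      ∀ g ∈ q.2, M.IsBase (xch q e g).1 ∧ M.IsBase (xch q e g).2 ↔ g = f := by
  obtain ⟨a, ha⟩ := Infinite.exists_notMem_finset M.E
  have k0 := h a p p.swap hp hp.swap
    (iff_of_false (fun k => ha (hp.fst.subset k)) fun k => ha (hp.snd.subset k))
  have k1 : ¬ (e ∈ p.1 ↔ e ∈ p.swap.1) := fun k =>
    (mem_union.1 (hp.cov ▸ he)).elim (fun c => disjoint_left.1 hp.disj c (k.1 c))
      fun c => disjoint_left.1 hp.disj (k.2 c) c
  by_contra hc
  have k2 : ∀ p q : Pr, St2 M.IsBase M.E p → St2 M.IsBase M.E q → UX2 M.IsBase a p q → e ∈ p.1 →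
      e ∈ q.1 := by
    rintro p q hp hq ⟨x, hx, f, hf, -, -, rfl, c⟩ h1
    refine mem_insert_of_mem (mem_erase.2 ⟨?_, h1⟩)
    rintro rfl
    exact hc ⟨p, f, hp, h1, hf, fun g hg => ⟨fun k => c g hg k.1 k.2, fun k => k ▸ ⟨hq.fst, hq.snd⟩⟩⟩
  have k3 : ∀ p q : Pr, US M.IsBase M.E a p q → e ∈ p.1 → e ∈ q.1 := by
    rintro p q ⟨hp, hq, c | c⟩ h1
    · exact k2 p q hp hq c h1
    · exact (mem_union.1 (hq.cov ▸ he)).resolve_right fun k => disjoint_left.1 hp.disj h1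
        (k2 _ _ hq.swap hp.swap (c.symm hp.swap hq.swap) k)
  refine k1 ?_
  generalize p.swap = q at k0
  clear k1 hp
  induction k0 with
  | rel p q k => exact ⟨k3 p q k, k3 q p k.symm⟩
  | refl => exact Iff.rfl
  | symm _ _ _ ih => exact ih.symm
  | trans _ _ _ _ _ h1 h2 => exact h1.trans h2

end Pool.Agent.P.MP_3f5ce9_co
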