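import Pool.Agent.P.MP_3f5ce9_co.W.AGen
import Pool.Agent.P.MP_3f5ce9_co.W.HBasic
import Pool.Agent.P.MP_3f5ce9_co.Unique

/-!
The pair theorem with a frozen element for graphs.
-/

open Finset

namespace Pool.Agent.P.MP_3f5ce9_co

namespace AG

variable {G : Gr ℕ ℕ} {X Es F R : Finset ℕ} {p q α β : Pr} {a w x y r u v φ τ : ℕ}

theorem st2_iff (h : G.Norm X Es) : St2 (BM.gm G Es).IsBase Es p ↔ G.St X Es p :=
  ⟨fun k => ⟨((BM.isBase_gm h).1 k.fst).2, ((BM.isBase_gm h).1 k.snd).2,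
      fun _ h1 h2 => disjoint_left.1 k.disj h1 h2, fun e => by rw [← k.cov, mem_union]⟩,
    fun k => ⟨(BM.isBase_gm h).2 ⟨fun e he => (k.cov e).2 (Or.inl he), k.fst⟩,
      (BM.isBase_gm h).2 ⟨fun e he => (k.cov e).2 (Or.inr he), k.snd⟩,
      disjoint_left.2 fun e => k.disj e, by ext e; rw [mem_union, k.cov]⟩⟩

theorem ux2 (h : G.Norm X Es) (hp : G.St X Es p) (hq : G.St X Es q) (hm : G.LM w p q)
    (ha : a ∈ p.1 ↔ a ∈ q.1) : UX2 (BM.gm G Es).IsBase a p q := by
  obtain ⟨e, he, f, hf, rfl, hu⟩ := hm.ux hp hq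
  have d1 := hp.disj e
  have d2 := hp.disj f
  simp only [mem_insert, mem_erase] at ha
  refine ⟨e, he, f, hf, by grind, by grind, rfl, fun g hg b1 b2 => hu g hg
    ⟨((BM.isBase_gm h).1 b1).2, ((BM.isBase_gm h).1 b2).2, fun k => ?_, fun k => ?_⟩⟩
  · have := hp.disj k
    simp only [mem_insert, mem_erase]
    grind
  · have := hp.cov k
    simp only [mem_insert, mem_erase]
    grind

theorem down_lm (hα : G.St X Es α) (hm : G.ALM F R w α β) (h1 : x ∈ α.1) (h2 : y ∈ α.2)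
    (h3 : x ∈ β.1) (h4 : y ∈ β.2) :
    G.LM w (α.1.erase x, α.2.erase y) (β.1.erase x, β.2.erase y) := by
  obtain ⟨e, he, f, hf, -, -, ie, jf, hl, e1, e2, -⟩ := hm
  have d1 := hα.disj x
  have d2 := hα.disj y
  simp only [e1, e2, mem_insert, mem_erase] at h3 h4
  refine ⟨e, mem_erase.2 ⟨by grind, he⟩, f, mem_erase.2 ⟨by grind, hf⟩, ie, jf,
    fun g hg => hl g (mem_of_mem_erase hg), ?_, ?_⟩ <;> ext k <;>
    simp only [e1, e2, mem_insert, mem_erase] <;> grind

theorem down_st (hW : G.Within Es X) (hr : r ∉ X) (hφ : φ ∉ Es) (hτ : τ ∉ Es) (hu : u ∈ X)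
    (j1 : G.Inc φ r) (j2 : G.Inc τ r) (hα : G.St (insert r X) (insert φ (insert τ Es)) α)
    (h : φ ∈ α.1) : τ ∈ α.2 ∧ G.St X Es (α.1.erase φ, α.2.erase τ) := by
  have all : ∀ e, e ∈ α.1 ∨ e ∈ α.2 → G.Inc e r → e = φ ∨ e = τ := fun e he hi => by
    have := (hα.cov e).2 he
    have := fun k => hr (hi.mem hW k)
    simp only [mem_insert] at *
    tauto
  obtain ⟨e, he, hi⟩ := hα.snd.exists_inc (mem_insert_self r X) (mem_insert_of_mem hu)
    fun k => hr (k ▸ hu)
  have d1 := hα.disj φ h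
  have h2 : τ ∈ α.2 := by
    rcases all e (Or.inr he) hi with rfl | rfl
    exacts [absurd he d1, he]
  have d2 := fun k => hα.disj τ k h2
  have t1 := hα.fst.leaf_del h j1 fun g hg hi =>
    (all g (Or.inl hg) hi).resolve_right fun k => d2 (k ▸ hg)
  have t2 := hα.snd.leaf_del h2 j2 fun g hg hi =>
    (all g (Or.inr hg) hi).resolve_left fun k => d1 (k ▸ hg)
  rw [erase_insert hr] at t1 t2
  refine ⟨h2, t1, t2, fun k a1 a2 => hα.disj k (mem_of_mem_erase a1) (mem_of_mem_erase a2),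
    fun k => ?_⟩
  have := hα.cov k
  simp only [mem_insert, mem_erase] at this ⊢
  grind

theorem up_st (hr : r ∉ X) (hφ : φ ∉ Es) (hτ : τ ∉ Es) (hne : φ ≠ τ) (hu : u ∈ X) (hv : v ∈ X)
    (j1 : G.Joins φ r u) (j2 : G.Joins τ r v) (hp : G.St X Es p) :
    G.St (insert r X) (insert φ (insert τ Es)) (insert φ p.1, insert τ p.2) := by
  refine ⟨Gr.Tr.leaf_add (v := r) (by rw [erase_insert hr]; exact hp.fst) (mem_insert_self _ _) j1
      (by rwa [erase_insert hr]), Gr.Tr.leaf_add (v := r) (by rw [erase_insert hr]; exact hp.snd)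
      (mem_insert_self _ _) j2 (by rwa [erase_insert hr]), fun k => ?_, fun k => ?_⟩ <;>
    have := hp.cov k <;> have := hp.disj k <;> simp only [mem_insert] <;> grind

theorem sparse (hn : (BM.gm G Es).NoTight) (hW : G.Within Es X) (hr : r ∉ X) (ha : a ∈ Es)
    (j2 : G.Inc τ r) (hp : G.St X Es p) :
    G.SpA (insert r X) (insert φ (insert τ Es) \ {φ, a}) := by
  intro Y _ h2
  by_cases h : r ∈ Y
  · have h3 := hp.sparse (Y := Y.erase r) (card_pos.1 (by rw [card_erase_of_mem h]; omega))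
    have h4 : G.ind (insert φ (insert τ Es) \ {φ, a}) Y ⊆ insert τ (G.ind Es (Y.erase r)) := by
      intro e he
      have := hW e
      simp only [Gr.mem_ind, mem_insert, mem_erase, mem_sdiff, mem_singleton] at he ⊢
      grind
    have := (card_le_card h4).trans (card_insert_le _ _)
    rw [card_erase_of_mem h] at h3
    omega
  · have h4 : G.ind (insert φ (insert τ Es) \ {φ, a}) Y ⊆ (G.ind Es Y).erase a := by
      intro e he
      unfold Gr.Inc at j2
      simp only [Gr.mem_ind, mem_insert, mem_erase, mem_sdiff, mem_singleton] at he ⊢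
      grind
    have h5 := card_le_card h4
    have hY : Y.Nonempty := card_pos.1 (by omega)
    have h3 := hp.sparse hY
    by_cases h6 : a ∈ G.ind Es Y
    · rw [card_erase_of_mem h6] at h5
      have := card_pos.2 ⟨a, h6⟩
      omega
    · rw [erase_eq_of_notMem h6] at h5
      rcases (G.ind Es Y).eq_empty_or_nonempty with h7 | h7
      · rw [h7, card_empty] at h5
        omega
      · have := hn _ (G.ind_subset Es Y) h7 fun k => h6 (k ▸ ha)
        have := BM.r_gm_lt (Es := Es) ((G.within_ind Es Y).mono inter_subset_left) hY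
        omega

end AG

theorem BM.Graphic.ue {M : BM} {a : ℕ} (H : ∀ n, Gr.CONNn n) (h : M.Graphic) (hn : M.NoTight)
    (ha : a ∈ M.E) : UE M.IsBase M.E a := by
  obtain ⟨G0, X, N0, h0⟩ := h.exists_norm
  generalize M.E = Es at *
  obtain ⟨r, hr⟩ := Infinite.exists_notMem_finset X
  obtain ⟨φ, hφ⟩ := Infinite.exists_notMem_finset Es
  obtain ⟨τ, hτ⟩ := Infinite.exists_notMem_finset (insert φ Es)
  rw [mem_insert, not_or] at hτ
  obtain ⟨G, h1, j1, j2⟩ : ∃ G : Gr ℕ ℕ, (∀ e ∈ Es, G.s e = G0.s e ∧ G.t e = G0.t e) ∧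
      G.Joins φ r (G0.s a) ∧ G.Joins τ r (G0.t a) :=
    ⟨⟨fun e => if e ∈ Es then G0.s e else r,
      fun e => if e ∈ Es then G0.t e else if e = φ then G0.s a else G0.t a⟩,
      fun e he => by simp [he], Or.inl (by simp [hφ]), Or.inl (by simp [hτ.1, hτ.2])⟩
  have N : G.Norm X Es := ⟨fun e he => by rw [(h1 e he).1, (h1 e he).2]; exact N0.within e he,
    N0.ne, fun u hu w hw => Gr.conn_congr h1 (N0.conn u hu w hw)⟩
  rw [← BM.gm_congr (G' := G) fun e he => Or.inl (h1 e he)] at h0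
  subst h0
  rw [← (h1 a ha).1] at j1
  rw [← (h1 a ha).2] at j2
  obtain ⟨hu, hv⟩ := N.within a ha
  refine ue_of_fst (fun p q hp hq a1 a2 => ?_) ha
  rw [AG.st2_iff N] at hp hq
  have S : G.HS (insert r X) (insert φ (insert τ Es)) φ a r (G.s a) (G.t a) :=
    ⟨mem_insert_self _ _, mem_insert_of_mem hu, mem_insert_of_mem hv, fun k => hr (k ▸ hu),
      fun k => hr (k ▸ hv), hp.ne ha (G.joins_st a), mem_insert_self _ _, by simp [ha],
      fun k => hφ (k ▸ ha), j1, Or.inl (G.joins_st a)⟩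
  have up := fun p => AG.up_st (p := p) hr hφ hτ.2 (Ne.symm hτ.1) hu hv j1 j2
  have dn := fun α => AG.down_st (α := α) N.within hr hφ hτ.2 hu j1.inc j2.inc
  have key : ∀ β, G.AReach (insert r X) (insert φ (insert τ Es)) {φ, a} {r, G.s a, G.t a}
      (insert φ p.1, insert τ p.2) β → Relation.EqvGen (US (BM.gm G Es).IsBase Es a)
      ((insert φ p.1).erase φ, (insert τ p.2).erase τ) (β.1.erase φ, β.2.erase τ) := by
    intro β hβ
    induction hβ with
    | refl => exact .refl _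
    | @tail α β b1 b2 ih =>
      have g1 := Gr.AReach.agree b1
      have g2 := Gr.AReach.agree (b1.tail b2)
      have c1 := (g1 φ (by simp)).1 (mem_insert_self _ _)
      have c2 := (g2 φ (by simp)).1 (mem_insert_self _ _)
      have c3 := mem_erase.2 ⟨S.ne.symm, (g1 a (by simp)).1 (mem_insert_of_mem a1)⟩
      have c4 := mem_erase.2 ⟨S.ne.symm, (g2 a (by simp)).1 (mem_insert_of_mem a1)⟩
      obtain ⟨s1, s2, w, hm⟩ := b2
      obtain ⟨t1, u1⟩ := dn α s1 c1
      obtain ⟨t2, u2⟩ := dn β s2 c2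
      refine .trans _ _ _ ih (.rel _ _ ⟨(AG.st2_iff N).2 u1, (AG.st2_iff N).2 u2, hm.imp
        (fun k => AG.ux2 N u1 u2 (AG.down_lm s1 k c1 t1 c2 t2) (iff_of_true c3 c4))
        fun k => AG.ux2 N u1.swap u2.swap (AG.down_lm s1.swap k t1 c1 t2 c2)
          (iff_of_false (u1.disj a c3) (u2.disj a c4))⟩)
  have := key _ (H _ G _ _ φ a r _ _ _ _ le_rfl S (up p hp) (up q hq)
    (AG.sparse hn N.within hr ha j2.inc hp) (by simp) (by simp [a1, a2])
    fun k => absurd k (S.not_both (G.joins_st a)))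
  rwa [erase_insert fun k => hφ ((hp.cov φ).2 (Or.inl k)),
    erase_insert fun k => hτ.2 ((hp.cov τ).2 (Or.inr k)),
    erase_insert fun k => hφ ((hq.cov φ).2 (Or.inl k)),
    erase_insert fun k => hτ.2 ((hq.cov τ).2 (Or.inr k))] at this

theorem BM.Cographic.ue {M : BM} {a : ℕ} (H : ∀ n, Gr.CONNn n) (h : M.Cographic) (hn : M.NoTight)
    (ha : a ∈ M.E) : UE M.IsBase M.E a := by
  intro p q hp
  exact BM.ue_dual (BM.Graphic.ue H (BM.cographic_iff.1 h) (hn.dual hp.card) ha) p q hp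

end Pool.Agent.P.MP_3f5ce9_co
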