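import Pool.Agent.P.MP_3f5ce9_co.W.DefsC

/-!
General facts on sequences of members of a family.
-/

open Finset

namespace Pool.Agent.P.MP_3f5ce9_co

variable {𝓑 𝓑' 𝓑1 𝓑2 : Fam} {I E A B X S : Finset ℕ} {μ μ' : ℕ → ℕ} {P Q : ℕ → Finset ℕ}
  {i j l : ℕ}

lemma bg_sum (I : Finset ℕ) (P : ℕ → Finset ℕ) (e : ℕ) :
    (I.filter fun i => e ∈ P i).card = ∑ i ∈ I, one (P i) e := by
  rw [card_filter]
  rfl

lemma bg_wt (h : MS 𝓑 I μ P) (e : ℕ) : ∑ i ∈ I, one (P i) e = μ e := by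
  rw [← bg_sum, h.wt]

lemma bg_mk (h1 : ∀ i ∈ I, 𝓑 (P i)) (h2 : ∀ e, ∑ i ∈ I, one (P i) e = μ e) : MS 𝓑 I μ P :=
  ⟨h1, fun e => by rw [bg_sum, h2]⟩

lemma bg_split2 (f : ℕ → ℕ) (hi : i ∈ I) (hj : j ∈ I) (hij : i ≠ j) :
    ∑ l ∈ I, f l = f i + f j + ∑ l ∈ (I.erase i).erase j, f l := by
  rw [← add_sum_erase I f hi, ← add_sum_erase (I.erase i) f (mem_erase.2 ⟨hij.symm, hj⟩),
    add_assoc]

lemma bg_same {A' B' : Finset ℕ} :
    Same A B A' B' ↔ ∀ e, one A e + one B e = one A' e + one B' e := by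
  unfold Same one
  constructor
  · rintro ⟨h1, h2⟩ e
    have a1 := Finset.ext_iff.1 h1 e
    have a2 := Finset.ext_iff.1 h2 e
    simp only [mem_union, mem_inter] at a1 a2
    by_cases c1 : e ∈ A <;> by_cases c2 : e ∈ B <;> by_cases c3 : e ∈ A' <;>
      by_cases c4 : e ∈ B' <;> simp_all
  · intro h
    constructor <;> ext e <;> have := h e <;> by_cases c1 : e ∈ A <;> by_cases c2 : e ∈ B <;>
      by_cases c3 : e ∈ A' <;> by_cases c4 : e ∈ B' <;> simp_all

lemma bg_lift {I' : Finset ℕ} (F : ℕ → Finset ℕ → Finset ℕ)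
    (hF : ∀ R, MS 𝓑 I μ R → MS 𝓑' I' μ' fun i => F i (R i))
    (hc : ∀ l ∈ I', l ∈ I ∨ ∀ X Y, F l X = F l Y)
    (h : Relation.ReflTransGen (RS2 𝓑 I μ) P Q) :
    Relation.ReflTransGen (RS2 𝓑' I' μ') (fun i => F i (P i)) fun i => F i (Q i) := by
  induction h with
  | refl => exact Relation.ReflTransGen.refl
  | tail _ hs ih =>
    obtain ⟨h1, h2, a, b, h3⟩ := hs
    refine ih.tail ⟨hF _ h1, hF _ h2, a, b, fun l hl ha hb => ?_⟩
    rcases hc l hl with h4 | h4
    · show F l _ = F l _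
      rw [h3 l h4 ha hb]
    · exact h4 _ _

lemma bg_liftSh (F : ℕ → Finset ℕ → Finset ℕ)
    (hF : ∀ R, MS 𝓑 I μ R → MS 𝓑' I μ' fun i => F i (R i))
    (h : Relation.ReflTransGen (Sh 𝓑 I μ) P Q) :
    Relation.ReflTransGen (Sh 𝓑' I μ') (fun i => F i (P i)) fun i => F i (Q i) := by
  induction h with
  | refl => exact Relation.ReflTransGen.refl
  | tail _ hs ih =>
    obtain ⟨h1, h2, a, ha, h3⟩ := hs
    refine ih.tail ⟨hF _ h1, hF _ h2, a, ha, ?_⟩
    show F a _ = F a _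
    rw [h3]

lemma bg_swap (hi : i ∈ I) (hj : j ∈ I) : Set.BijOn (Equiv.swap i j) I I := by
  have hm : Set.MapsTo (Equiv.swap i j) (I : Set ℕ) I := by
    intro x hx
    rw [Equiv.swap_apply_def]
    split_ifs
    · exact hj
    · exact hi
    · exact hx
  refine ⟨hm, (Equiv.swap i j).injective.injOn, fun y hy => ⟨Equiv.swap i j y, hm hy, ?_⟩⟩
  simp

theorem RS2.symm (h : RS2 𝓑 I μ P Q) : RS2 𝓑 I μ Q P := by
  obtain ⟨h1, h2, a, b, h3⟩ := h
  exact ⟨h2, h1, a, b, fun l hl ha hb => (h3 l hl ha hb).symm⟩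

theorem Sh.symm (h : Sh 𝓑 I μ P Q) : Sh 𝓑 I μ Q P := by
  obtain ⟨h1, h2, a, ha, h3⟩ := h
  exact ⟨h2, h1, a, ha, h3.symm⟩

theorem rs2_reach_symm (h : Relation.ReflTransGen (RS2 𝓑 I μ) P Q) :
    Relation.ReflTransGen (RS2 𝓑 I μ) Q P := by
  induction h with
  | refl => exact Relation.ReflTransGen.refl
  | tail _ hs ih => exact Relation.ReflTransGen.head hs.symm ih

theorem sh_reach_symm (h : Relation.ReflTransGen (Sh 𝓑 I μ) P Q) :
    Relation.ReflTransGen (Sh 𝓑 I μ) Q P := by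
  induction h with
  | refl => exact Relation.ReflTransGen.refl
  | tail _ hs ih => exact Relation.ReflTransGen.head hs.symm ih

theorem rs2_reach_ms (h : Relation.ReflTransGen (RS2 𝓑 I μ) P Q) (hP : MS 𝓑 I μ P) :
    MS 𝓑 I μ Q := by
  induction h with
  | refl => exact hP
  | tail _ hs _ => exact hs.2.1

theorem MS.congr (h : MS 𝓑 I μ P) (hPQ : ∀ i ∈ I, P i = Q i) : MS 𝓑 I μ Q := by
  refine bg_mk (fun i hi => hPQ i hi ▸ h.mem i hi) fun e => ?_
  rw [← bg_wt h e]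
  exact sum_congr rfl fun i hi => by rw [hPQ i hi]

theorem RS2.of_eqOn (h : MS 𝓑 I μ P) (hPQ : ∀ i ∈ I, P i = Q i) : RS2 𝓑 I μ P Q := by
  exact ⟨h, h.congr hPQ, 0, 0, fun l hl _ _ => hPQ l hl⟩

theorem RS2.sh (h : RS2 𝓑 I μ P Q) (hI : 3 ≤ I.card) : Sh 𝓑 I μ P Q := by
  obtain ⟨h1, h2, a, b, h3⟩ := h
  refine ⟨h1, h2, ?_⟩
  by_contra hc
  have hsub : I ⊆ {a, b} := by
    intro x hx
    by_contra hx'
    simp only [mem_insert, mem_singleton, not_or] at hx'
    exact hc ⟨x, hx, h3 x hx hx'.1 hx'.2⟩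
  have := (card_le_card hsub).trans (card_le_two (a := a) (b := b))
  omega

theorem rs2_reach_sh (h : Relation.ReflTransGen (RS2 𝓑 I μ) P Q) (hI : 3 ≤ I.card) :
    Relation.ReflTransGen (Sh 𝓑 I μ) P Q := by
  induction h with
  | refl => exact Relation.ReflTransGen.refl
  | tail _ hs ih => exact ih.tail (hs.sh hI)

theorem MS.update2 (h : MS 𝓑 I μ P) (hi : i ∈ I) (hj : j ∈ I) (hij : i ≠ j) (hA : 𝓑 A) (hB : 𝓑 B)
    (hs : Same (P i) (P j) A B) :
    RS2 𝓑 I μ P (Function.update (Function.update P i A) j B) := by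
  have e1 : Function.update (Function.update P i A) j B i = A := by
    rw [Function.update_of_ne hij, Function.update_self]
  have e2 : Function.update (Function.update P i A) j B j = B := Function.update_self _ _ _
  have e3 : ∀ l, l ≠ i → l ≠ j → Function.update (Function.update P i A) j B l = P l :=
    fun l h1 h2 => by rw [Function.update_of_ne h2, Function.update_of_ne h1]
  refine ⟨h, bg_mk (fun l hl => ?_) fun e => ?_, i, j, fun l _ h1 h2 => (e3 l h1 h2).symm⟩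
  · by_cases h1 : l = i
    · rw [h1, e1]; exact hA
    · by_cases h2 : l = j
      · rw [h2, e2]; exact hB
      · rw [e3 l h1 h2]; exact h.mem l hl
  · rw [← bg_wt h e, bg_split2 _ hi hj hij, bg_split2 _ hi hj hij, e1, e2, bg_same.1 hs e]
    refine congrArg _ (sum_congr rfl fun l hl => ?_)
    rw [e3 l (mem_erase.1 (mem_erase.1 hl).2).1 (mem_erase.1 hl).1]

theorem MS.same (hP : MS 𝓑 I μ P) (hQ : MS 𝓑 I μ Q) (hi : i ∈ I) (hj : j ∈ I) (hij : i ≠ j)
    (h : ∀ l ∈ I, l ≠ i → l ≠ j → P l = Q l) : Same (P i) (P j) (Q i) (Q j) := by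
  refine bg_same.2 fun e => ?_
  have a1 := bg_wt hP e
  have a2 := bg_wt hQ e
  rw [bg_split2 _ hi hj hij] at a1 a2
  have a3 : ∑ l ∈ (I.erase i).erase j, one (P l) e = ∑ l ∈ (I.erase i).erase j, one (Q l) e :=
    sum_congr rfl fun l hl => by
      rw [h l (mem_erase.1 (mem_erase.1 hl).2).2 (mem_erase.1 (mem_erase.1 hl).2).1
        (mem_erase.1 hl).1]
  omega

theorem MS.eq_of_one (hP : MS 𝓑 I μ P) (hQ : MS 𝓑 I μ Q) (h : ∀ l ∈ I, l ≠ i → P l = Q l) :
    ∀ l ∈ I, P l = Q l := by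
  intro l hl
  by_cases hli : l = i
  swap
  · exact h l hl hli
  subst hli
  ext e
  have a1 := bg_wt hP e
  have a2 := bg_wt hQ e
  rw [← add_sum_erase I _ hl] at a1 a2
  have a3 : ∑ x ∈ I.erase l, one (P x) e = ∑ x ∈ I.erase l, one (Q x) e :=
    sum_congr rfl fun x hx => by rw [h x (mem_erase.1 hx).2 (mem_erase.1 hx).1]
  have a4 : one (P l) e = one (Q l) e := by omega
  unfold one at a4
  by_cases c1 : e ∈ P l <;> by_cases c2 : e ∈ Q l <;> simp_all

theorem MS.perm (h : MS 𝓑 I μ P) {σ : ℕ → ℕ} (hσ : Set.BijOn σ I I) : MS 𝓑 I μ (P ∘ σ) := by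
  refine bg_mk (fun i hi => h.mem _ (hσ.mapsTo hi)) fun e => ?_
  rw [← bg_wt h e]
  exact sum_nbij σ (fun i hi => hσ.mapsTo hi) hσ.injOn hσ.surjOn fun _ _ => rfl

theorem MS.perm_reach (h : MS 𝓑 I μ P) {σ : ℕ → ℕ} (hσ : Set.BijOn σ I I) :
    Relation.ReflTransGen (RS2 𝓑 I μ) P (P ∘ σ) := by
  induction hn : (I.filter fun i => σ i ≠ i).card using Nat.strong_induction_on
    generalizing σ with
  | _ n ih =>
    by_cases hex : ∃ i ∈ I, σ i ≠ i
    · obtain ⟨a, ha, hne⟩ := hex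
      obtain ⟨b, hb, hba⟩ := hσ.surjOn (mem_coe.2 ha)
      have hσ' : Set.BijOn (σ ∘ Equiv.swap a b) I I := hσ.comp (bg_swap ha hb)
      have hlt : (I.filter fun i => (σ ∘ Equiv.swap a b) i ≠ i).card < n := by
        rw [← hn]
        refine card_lt_card ⟨fun x hx => ?_, fun hsub => ?_⟩
        · rw [mem_filter] at hx ⊢
          refine ⟨hx.1, ?_⟩
          by_cases h1 : x = a
          · rw [h1]; exact hne
          · by_cases h2 : x = b
            · rw [h2, hba]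
              exact fun h3 => h1 (h2.trans h3.symm)
            · have := hx.2
              rwa [Function.comp_apply, Equiv.swap_apply_of_ne_of_ne h1 h2] at this
        · have := (mem_filter.1 (hsub (mem_filter.2 ⟨ha, hne⟩))).2
          rw [Function.comp_apply, Equiv.swap_apply_left] at this
          exact this hba
      refine (ih _ hlt hσ' rfl).tail ⟨h.perm hσ', h.perm hσ, a, b, fun l _ h1 h2 => ?_⟩
      simp only [Function.comp_apply, Equiv.swap_apply_of_ne_of_ne h1 h2]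
    · refine Relation.ReflTransGen.single (RS2.of_eqOn h fun i hi => ?_)
      have : σ i = i := by
        by_contra hc
        exact hex ⟨i, hi, hc⟩
      rw [Function.comp_apply, this]

/-- two states with a common member in any positions -/
theorem sh_reach_of_mem (hI : 3 ≤ I.card) (hP : MS 𝓑 I μ P) (hQ : MS 𝓑 I μ Q) (hi : i ∈ I)
    (hj : j ∈ I) (h : P i = Q j) : Relation.ReflTransGen (Sh 𝓑 I μ) P Q := by
  have hb := bg_swap hi hj
  refine Relation.ReflTransGen.head ⟨hP, hQ.perm hb, i, hi, ?_⟩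
    (sh_reach_symm (rs2_reach_sh (hQ.perm_reach hb) hI))
  rw [Function.comp_apply, Equiv.swap_apply_left, h]

theorem MS.not_mem (h : MS 𝓑 I μ P) (hi : i ∈ I) {e : ℕ} (he : μ e = 0) : e ∉ P i := by
  intro hc
  have := h.wt e
  rw [he, card_eq_zero] at this
  exact absurd (mem_filter.2 ⟨hi, hc⟩ : i ∈ I.filter fun i => e ∈ P i) (by simp [this])

theorem MS.le_card (h : MS 𝓑 I μ P) (e : ℕ) : μ e ≤ I.card := by
  rw [← h.wt e]
  exact card_filter_le _ _

theorem MS.sum_card (h : MS 𝓑 I μ P) (A : Finset ℕ) :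
    ∑ i ∈ I, (P i ∩ A).card = ∑ e ∈ A, μ e := by
  have : ∀ i, (P i ∩ A).card = ∑ e ∈ A, one (P i) e := fun i => by
    rw [inter_comm, ← filter_mem_eq_inter, card_filter]
    rfl
  simp only [this]
  rw [sum_comm]
  exact sum_congr rfl fun e _ => bg_wt h e

theorem MS.erase (h : MS 𝓑 I μ P) (hl : l ∈ I) :
    MS 𝓑 (I.erase l) (fun e => μ e - one (P l) e) P := by
  refine bg_mk (fun i hi => h.mem i (mem_erase.1 hi).2) fun e => ?_
  have := bg_wt h e
  rw [← add_sum_erase I _ hl] at this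
  show _ = μ e - one (P l) e
  omega

theorem TEw.of_card_le (hI : I.card ≤ 2) : TEw 𝓑 I μ := by
  intro P Q hP hQ
  have : ∃ a b, I ⊆ {a, b} := by
    rcases Nat.lt_or_ge I.card 2 with h1 | h1
    · obtain ⟨a, ha⟩ := card_le_one_iff_subset_singleton.1 (Nat.lt_succ_iff.1 h1)
      exact ⟨a, a, by simpa using ha⟩
    · obtain ⟨a, b, -, hab⟩ := card_eq_two.1 (le_antisymm hI h1)
      exact ⟨a, b, hab.le⟩
  obtain ⟨a, b, hab⟩ := this
  refine Relation.ReflTransGen.single ⟨hP, hQ, a, b, fun l hl h1 h2 => ?_⟩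
  have := hab hl
  simp only [mem_insert, mem_singleton] at this
  tauto

theorem TEw.sc (h : TEw 𝓑 I μ) (hI : 3 ≤ I.card) : SC 𝓑 I μ := by
  exact fun P Q hP hQ => rs2_reach_sh (h P Q hP hQ) hI

theorem te_of_sc (h : ∀ I μ, 3 ≤ I.card → SC 𝓑 I μ) : TE 𝓑 := by
  intro I
  induction hn : I.card using Nat.strong_induction_on generalizing I with
  | _ n ih =>
    intro μ
    rcases Nat.lt_or_ge I.card 3 with h3 | h3
    · exact TEw.of_card_le (by omega)
    have step : ∀ P Q, Sh 𝓑 I μ P Q → Relation.ReflTransGen (RS2 𝓑 I μ) P Q := by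
      rintro P Q ⟨hP, hQ, l, hl, hPQ⟩
      have hlt : (I.erase l).card < n := by rw [← hn]; exact card_erase_lt_of_mem hl
      have h1 := ih _ hlt (I.erase l) rfl _ P Q (hP.erase hl) (by rw [hPQ]; exact hQ.erase hl)
      have h2 := bg_lift (𝓑' := 𝓑) (I' := I) (μ' := μ) (fun x X => if x = l then P l else X)
        (fun R hR => bg_mk (fun x hx => by
            split_ifs with hx'
            · exact hP.mem l hl
            · exact hR.mem x (mem_erase.2 ⟨hx', hx⟩)) fun e => by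
          have a1 := bg_wt hR e
          have a2 := bg_wt hP e
          rw [← add_sum_erase I _ hl] at a2 ⊢
          have a3 : ∑ x ∈ I.erase l, one (if x = l then P l else R x) e =
              ∑ x ∈ I.erase l, one (R x) e :=
            sum_congr rfl fun x hx => by rw [if_neg (mem_erase.1 hx).1]
          rw [a3, if_pos rfl]
          have a4 : ∑ x ∈ I.erase l, one (R x) e = μ e - one (P l) e := a1
          omega)
        (fun x hx => by
          by_cases hx' : x = l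
          · exact Or.inr fun _ _ => by simp only [if_pos hx']
          · exact Or.inl (mem_erase.2 ⟨hx', hx⟩)) h1
      have e1 : (fun x => if x = l then P l else P x) = P := by
        funext x
        split_ifs with hx
        · rw [hx]
        · rfl
      have e2 : (fun x => if x = l then P l else Q x) = Q := by
        funext x
        split_ifs with hx
        · rw [hx, hPQ]
        · rfl
      rwa [e1, e2] at h2
    intro P Q hP hQ
    have := h I μ h3 P Q hP hQ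
    clear hP hQ
    induction this with
    | refl => exact Relation.ReflTransGen.refl
    | tail _ hs ih2 => exact ih2.trans (step _ _ hs)

lemma bg_supp (h : MS 𝓑 I μ P) (hμ : ∀ e, e ∉ S → μ e = 0) (h' : ∀ B ⊆ S, 𝓑 B ↔ 𝓑' B) :
    MS 𝓑' I μ P :=
  ⟨fun i hi => (h' _ fun e he => by
    by_contra hc
    exact h.not_mem hi (hμ e hc) he).1 (h.mem i hi), h.wt⟩

lemma bg_sdiff (h : MS 𝓑 I μ P) {e : ℕ} (he : e ∈ E) :
    ∑ i ∈ I, one (E \ P i) e = I.card - μ e := by
  have a1 : ∑ i ∈ I, (one (E \ P i) e + one (P i) e) = I.card := by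
    rw [card_eq_sum_ones]
    refine sum_congr rfl fun i _ => ?_
    by_cases c : e ∈ P i <;> simp [one, he, c]
  rw [sum_add_distrib, bg_wt h e] at a1
  omega

lemma bg_compl (h : MS 𝓑' I μ P) (h' : ∀ B, 𝓑' B ↔ B ⊆ E ∧ 𝓑 (E \ B)) :
    MS 𝓑 I (fun e => if e ∈ E then I.card - μ e else 0) fun i => E \ P i :=
  bg_mk (fun i hi => ((h' _).1 (h.mem i hi)).2) fun e => by
    by_cases he : e ∈ E
    · rw [if_pos he]
      exact bg_sdiff h he
    · rw [if_neg he]
      exact sum_eq_zero fun i _ => by simp [one, he]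

lemma bg_uncompl (h : MS 𝓑' I μ P) (h' : ∀ B, 𝓑' B ↔ B ⊆ E ∧ 𝓑 (E \ B)) {R : ℕ → Finset ℕ}
    (hR : MS 𝓑 I (fun e => if e ∈ E then I.card - μ e else 0) R) :
    MS 𝓑' I μ fun i => E \ R i := by
  refine bg_mk (fun i hi => (h' _).2 ⟨sdiff_subset, ?_⟩) fun e => ?_
  · have : R i ⊆ E := fun e he => by
      by_contra hc
      exact hR.not_mem hi (if_neg hc) he
    rw [Finset.sdiff_sdiff_eq_self this]
    exact hR.mem i hi
  · by_cases he : e ∈ E
    · have a1 := bg_sdiff hR he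
      have a2 := h.le_card e
      rw [if_pos he] at a1
      rw [a1]
      omega
    · rw [← bg_wt h e]
      refine sum_congr rfl fun i hi => ?_
      have : e ∉ P i := fun hc => he (((h' _).1 (h.mem i hi)).1 hc)
      simp [one, he, this]

lemma bg_cc (h : MS 𝓑' I μ P) (h' : ∀ B, 𝓑' B ↔ B ⊆ E ∧ 𝓑 (E \ B)) :
    RS2 𝓑' I μ P fun i => E \ (E \ P i) :=
  RS2.of_eqOn h fun i hi => (Finset.sdiff_sdiff_eq_self ((h' _).1 (h.mem i hi)).1).symm

/-- only the members inside the support of the weight matter -/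
theorem TEw.of_support (h : TEw 𝓑' I μ) (hμ : ∀ e, e ∉ S → μ e = 0)
    (h' : ∀ B ⊆ S, 𝓑 B ↔ 𝓑' B) : TEw 𝓑 I μ := by
  intro P Q hP hQ
  exact bg_lift (fun _ X => X) (fun R hR => bg_supp hR hμ fun B hB => (h' B hB).symm)
    (fun l hl => Or.inl hl) (h P Q (bg_supp hP hμ h') (bg_supp hQ hμ h'))

theorem SC.of_support (h : SC 𝓑' I μ) (hμ : ∀ e, e ∉ S → μ e = 0)
    (h' : ∀ B ⊆ S, 𝓑 B ↔ 𝓑' B) : SC 𝓑 I μ := by
  intro P Q hP hQ
  exact bg_liftSh (fun _ X => X) (fun R hR => bg_supp hR hμ fun B hB => (h' B hB).symm)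
    (h P Q (bg_supp hP hμ h') (bg_supp hQ hμ h'))

theorem TE.compl (h : TE 𝓑) (h' : ∀ B, 𝓑' B ↔ B ⊆ E ∧ 𝓑 (E \ B)) : TE 𝓑' := by
  intro I μ P Q hP hQ
  have h1 := bg_lift (fun _ X => E \ X) (fun R hR => bg_uncompl hP h' hR) (fun l hl => Or.inl hl)
    (h I _ _ _ (bg_compl hP h') (bg_compl hQ h'))
  exact (Relation.ReflTransGen.head (bg_cc hP h') h1).tail (bg_cc hQ h').symm

theorem MS.compl (h : MS 𝓑' I μ P) (h' : ∀ B, 𝓑' B ↔ B ⊆ E ∧ 𝓑 (E \ B)) :
    MS 𝓑 I (fun e => if e ∈ E then I.card - μ e else 0) fun i => E \ P i := by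
  exact bg_compl h h'

theorem sh_reach_compl (hI : 3 ≤ I.card) (hP : MS 𝓑' I μ P) (hQ : MS 𝓑' I μ Q)
    (h' : ∀ B, 𝓑' B ↔ B ⊆ E ∧ 𝓑 (E \ B))
    (h : Relation.ReflTransGen (Sh 𝓑 I fun e => if e ∈ E then I.card - μ e else 0)
      (fun i => E \ P i) fun i => E \ Q i) : Relation.ReflTransGen (Sh 𝓑' I μ) P Q := by
  have h1 := bg_liftSh (fun _ X => E \ X) (fun R hR => bg_uncompl hP h' hR) h
  exact (Relation.ReflTransGen.head ((bg_cc hP h').sh hI) h1).tail ((bg_cc hQ h').symm.sh hI)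

theorem TEw.prod (h1 : TEw 𝓑1 I fun e => if e ∈ A then μ e else 0)
    (h2 : TEw 𝓑2 I fun e => if e ∈ A then 0 else μ e)
    (hs : ∀ P, MS 𝓑 I μ P → ∀ i ∈ I, 𝓑1 (P i ∩ A) ∧ 𝓑2 (P i \ A))
    (hg : ∀ B1 B2, 𝓑1 B1 → 𝓑2 B2 → B1 ⊆ A → Disjoint B2 A → 𝓑 (B1 ∪ B2)) : TEw 𝓑 I μ := by
  intro P Q hP hQ
  have m1 : ∀ R, MS 𝓑 I μ R → MS 𝓑1 I (fun e => if e ∈ A then μ e else 0) fun i => R i ∩ A :=
    fun R hR => bg_mk (fun i hi => (hs R hR i hi).1) fun e => by
      by_cases he : e ∈ A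
      · rw [if_pos he, ← bg_wt hR e]
        exact sum_congr rfl fun i _ => by simp [one, he]
      · rw [if_neg he]
        exact sum_eq_zero fun i _ => by simp [one, he]
  have m2 : ∀ R, MS 𝓑 I μ R → MS 𝓑2 I (fun e => if e ∈ A then 0 else μ e) fun i => R i \ A :=
    fun R hR => bg_mk (fun i hi => (hs R hR i hi).2) fun e => by
      by_cases he : e ∈ A
      · rw [if_pos he]
        exact sum_eq_zero fun i _ => by simp [one, he]
      · rw [if_neg he, ← bg_wt hR e]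
        exact sum_congr rfl fun i _ => by simp [one, he]
  have m3 : ∀ R1 R2, MS 𝓑1 I (fun e => if e ∈ A then μ e else 0) R1 →
      MS 𝓑2 I (fun e => if e ∈ A then 0 else μ e) R2 → MS 𝓑 I μ fun i => R1 i ∪ R2 i := by
    intro R1 R2 g1 g2
    have s1 : ∀ i ∈ I, ∀ e, e ∉ A → e ∉ R1 i := fun i hi e he => g1.not_mem hi (if_neg he)
    have s2 : ∀ i ∈ I, ∀ e, e ∈ A → e ∉ R2 i := fun i hi e he => g2.not_mem hi (if_pos he)
    refine bg_mk (fun i hi => hg _ _ (g1.mem i hi) (g2.mem i hi) (fun e he => ?_)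
      (disjoint_left.2 fun e he he' => s2 i hi e he' he)) fun e => ?_
    · by_contra hc
      exact s1 i hi e hc he
    · by_cases he : e ∈ A
      · have := bg_wt g1 e
        rw [if_pos he] at this
        rw [← this]
        exact sum_congr rfl fun i hi => by simp [one, s2 i hi e he]
      · have := bg_wt g2 e
        rw [if_neg he] at this
        rw [← this]
        exact sum_congr rfl fun i hi => by simp [one, s1 i hi e he]
  have r1 := bg_lift (fun i X => X ∪ (P i \ A)) (fun R hR => m3 R _ hR (m2 P hP))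
    (fun l hl => Or.inl hl) (h1 _ _ (m1 P hP) (m1 Q hQ))
  have r2 := bg_lift (fun i X => (Q i ∩ A) ∪ X) (fun R hR => m3 _ R (m1 Q hQ) hR)
    (fun l hl => Or.inl hl) (h2 _ _ (m2 P hP) (m2 Q hQ))
  have e1 : ∀ R : ℕ → Finset ℕ, (fun i => R i ∩ A ∪ R i \ A) = R := fun R => by
    funext i
    rw [union_comm, sdiff_union_inter]
  have r3 := r1.trans r2
  rwa [e1, e1] at r3

end Pool.Agent.P.MP_3f5ce9_co
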