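import Pool.Agent.P.MP_3f5ce9_co.W.XA
import Pool.Agent.P.MP_3f5ce9_co.W.Union
import Pool.Agent.P.MP_3f5ce9_co.W.BGen

/-!
The partition lemma.
-/

open Finset

namespace Pool.Agent.P.MP_3f5ce9_co

variable {G : Gr ℕ ℕ} {X L I : Finset ℕ} {ρ : Fin 3 → ℕ} {μ : ℕ → ℕ} {κ : ℕ → XK}

theorem xb_f1 : ∀ k : Fin 3, k + 1 ≠ k ∧ k + 2 ≠ k ∧ k + 2 ≠ k + 1 := by decide

theorem xb_f2 : ∀ k j : Fin 3, j = k ∨ j = k + 1 ∨ j = k + 2 := by decide

theorem xb_star {F : Finset ℕ} {z : ℕ} (hW : G.Within L X) (hF : F ⊆ L \ G.star L z) :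
    (∀ e ∈ F, ¬ G.Inc e z) ∧ G.Within F (X.erase z) := by
  have h1 : ∀ e ∈ F, ¬ G.Inc e z := fun e he hi =>
    (mem_sdiff.1 (hF he)).2 (Gr.mem_star.2 ⟨(mem_sdiff.1 (hF he)).1, hi⟩)
  refine ⟨h1, fun e he => ?_⟩
  have h2 := hW e (mem_sdiff.1 (hF he)).1
  exact ⟨mem_erase.2 ⟨fun h => h1 e he (Or.inl h), h2.1⟩,
    mem_erase.2 ⟨fun h => h1 e he (Or.inr h), h2.2⟩⟩

theorem xb_lnk {F : Finset ℕ} {n x y : Fin 3} (hx : x ≠ n) (hy : y ≠ n) (hxy : x ≠ y)
    (h1 : G.Conn F (ρ x) (ρ y)) (h2 : ¬ G.Conn F (ρ x) (ρ n)) (i j : Fin 3) :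
    G.Conn F (ρ i) (ρ j) ↔ (Tp.p n).lnk i j = true := by
  have a1 : ∀ i, i ≠ n → G.Conn F (ρ x) (ρ i) := fun i hi => by
    rcases (by decide : ∀ n x y i : Fin 3, x ≠ n → y ≠ n → x ≠ y → i ≠ n → i = x ∨ i = y)
      n x y i hx hy hxy hi with rfl | rfl
    · exact Gr.Conn.refl _ _ _
    · exact h1
  simp only [Tp.lnk, Bool.or_eq_true, beq_iff_eq, Bool.and_eq_true, bne_iff_ne]
  by_cases hi : i = n <;> by_cases hj : j = n
  · rw [hi, hj]
    exact iff_of_true (Gr.Conn.refl _ _ _) (Or.inl rfl)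
  · refine iff_of_false (fun h => h2 ((a1 j hj).trans (hi ▸ h.symm))) ?_
    rintro (h | h)
    · exact hj (h ▸ hi)
    · exact h.1 hi
  · refine iff_of_false (fun h => h2 ((a1 i hi).trans (hj ▸ h))) ?_
    rintro (h | h)
    · exact hi (h ▸ hj)
    · exact h.2 hj
  · exact iff_of_true ((a1 i hi).symm.trans (a1 j hj)) (Or.inr ⟨hi, hj⟩)

theorem xb_sub (k : XK) : (k.mat G ρ L).E ⊆ L := by
  rcases k with _ | k | k
  exacts [Subset.rfl, Subset.rfl, sdiff_subset]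

theorem XK.card_le (hR : Rooted G X ρ L) (k : XK) {F : Finset ℕ} (hF : (k.mat G ρ L).Indep F) :
    F.card + (if k = .tree then 1 else 2) ≤ X.card := by
  rcases k with _ | k | k
  · obtain ⟨h1, h2⟩ := BM.indep_gm.1 hF
    exact Gr.card_le_of_acyc _ G F X rfl (hR.within.mono h1) ⟨_, hR.mem 0⟩ h2
  · obtain ⟨h1, h2⟩ := BM.indep_gm.1 hF
    have h3 : ρ (k + 2) ≠ ρ (k + 1) := hR.inj.ne (xb_f1 k).2.2
    have h4 := Gr.card_le_of_acyc _ _ F _ rfl ((hR.within.mono h1).ctr (hR.mem _) h3)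
      ⟨_, mem_erase.2 ⟨h3, hR.mem _⟩⟩ h2
    have := card_erase_add_one (hR.mem (k + 1))
    rw [if_neg (by simp)]
    omega
  · obtain ⟨h1, h2⟩ := BM.indep_gm.1 hF
    have h4 := Gr.card_le_of_acyc _ _ F _ rfl (xb_star hR.within h1).2
      ⟨_, mem_erase.2 ⟨hR.inj.ne (xb_f1 k).1, hR.mem _⟩⟩ h2
    have := card_erase_add_one (hR.mem k)
    rw [if_neg (by simp)]
    omega

theorem XK.has_of_card (hR : Rooted G X ρ L) (k : XK) {F : Finset ℕ} (hF : (k.mat G ρ L).Indep F)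
    (hc : X.card ≤ F.card + if k = .tree then 1 else 2) : k.Has G X ρ L F := by
  have hle := XK.card_le hR k hF
  rcases k with _ | k | k
  · obtain ⟨h1, h2⟩ := BM.indep_gm.1 hF
    have h3 := h2.tr (hR.within.mono h1) hc ⟨_, hR.mem 0⟩
    exact ⟨h1, h2, fun v hv => ⟨0, h3.conn v hv _ (hR.mem 0)⟩,
      fun i j => iff_of_true (h3.conn _ (hR.mem i) _ (hR.mem j)) rfl⟩
  · obtain ⟨h1, h2⟩ := BM.indep_gm.1 hF
    rw [if_neg (by simp)] at hc hle
    obtain ⟨f1, f2, f3⟩ := xb_f1 k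
    have h3 : ρ (k + 2) ≠ ρ (k + 1) := hR.inj.ne f3
    have h0 := card_erase_add_one (hR.mem (k + 1))
    have h4 := h2.tr ((hR.within.mono h1).ctr (hR.mem _) h3) (by omega)
      ⟨_, mem_erase.2 ⟨h3, hR.mem _⟩⟩
    have h5 : G.Acyc F := fun e he hc => h2 e he (hc.map _)
    have h6 : ∀ v ∈ X, G.Conn F (ρ (k + 1)) v ∨ G.Conn F (ρ (k + 2)) v := by
      intro v hv
      have a1 : ∀ z, Gr.ctr (ρ (k + 1)) (ρ (k + 2)) z ∈
          {z | G.Conn F (ρ (k + 1)) z ∨ G.Conn F (ρ (k + 2)) z} ↔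
          (G.Conn F (ρ (k + 1)) z ∨ G.Conn F (ρ (k + 2)) z) := fun z => by
        by_cases hz : z = ρ (k + 1)
        · rw [hz, Gr.ctr_self]
          exact iff_of_true (Or.inr (Gr.Conn.refl _ _ _)) (Or.inl (Gr.Conn.refl _ _ _))
        · rw [Gr.ctr_of_ne hz]
          rfl
      refine (a1 v).1 ((h4.conn _ (Gr.ctr_mem (hR.mem _) h3 hv) _ (mem_erase.2 ⟨h3, hR.mem _⟩) _
        fun e he => ?_).2 (Or.inr (Gr.Conn.refl _ _ _)))
      rw [Gr.map_s, Gr.map_t, a1, a1]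
      exact or_congr (G.closed_comp F _ e he) (G.closed_comp F _ e he)
    have h7 : ¬ G.Conn F (ρ (k + 1)) (ρ (k + 2)) := fun h => by
      have a1 : ∀ v ∈ X, G.Conn F (ρ (k + 1)) v := fun v hv => (h6 v hv).elim id h.trans
      have := Gr.card_le_of_conn _ G F X rfl (hR.within.mono h1)
        fun u hu w hw => (a1 u hu).symm.trans (a1 w hw)
      omega
    have h8 : ∀ v ∈ X, ∃ i, G.Conn F v (ρ i) := fun v hv =>
      (h6 v hv).elim (fun h => ⟨_, h.symm⟩) fun h => ⟨_, h.symm⟩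
    rcases h6 _ (hR.mem k) with h | h
    · exact ⟨k + 2, f2, h1, h5, h8, xb_lnk f3.symm f2.symm f1 h h7⟩
    · exact ⟨k + 1, f1, h1, h5, h8, xb_lnk f3 f1.symm f2 h fun h' => h7 h'.symm⟩
  · obtain ⟨h1, h2⟩ := BM.indep_gm.1 hF
    rw [if_neg (by simp)] at hc
    obtain ⟨f1, f2, f3⟩ := xb_f1 k
    obtain ⟨a1, a2⟩ := xb_star hR.within h1
    have h0 := card_erase_add_one (hR.mem k)
    have m1 : ρ (k + 1) ∈ X.erase (ρ k) := mem_erase.2 ⟨hR.inj.ne f1, hR.mem _⟩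
    have m2 : ρ (k + 2) ∈ X.erase (ρ k) := mem_erase.2 ⟨hR.inj.ne f2, hR.mem _⟩
    have h4 := h2.tr a2 (by omega) ⟨_, m1⟩
    refine ⟨⟨h1.trans sdiff_subset, h2, fun v hv => ?_, xb_lnk f1 f2 f3.symm (h4.conn _ m1 _ m2)
      fun h => hR.inj.ne f1 (h.symm.eq_of_isolated a1)⟩, a1⟩
    by_cases h : v = ρ k
    · exact ⟨k, h ▸ Gr.Conn.refl _ _ _⟩
    · exact ⟨k + 1, h4.conn _ (mem_erase.2 ⟨h, hv⟩) _ m1⟩

theorem x_main (hR : Rooted G X ρ L) (h : XHyp G X ρ L I μ κ) (hμ : ∀ e, e ∉ L → μ e = 0)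
    (tot : I.card * X.card ≤ ∑ e ∈ L, μ e + (I.filter fun i => κ i ≠ .tree).card + I.card) :
    ∃ y : ℕ → Finset ℕ, (∀ i ∈ I, (κ i).Has G X ρ L (y i)) ∧
      ∀ e, (I.filter fun i => e ∈ y i).card = μ e := by
  obtain ⟨P, h1, h2⟩ := BM.union_mul I (fun i => (κ i).mat G ρ L) L μ hμ
    fun S hS => x_rank hR h hS
  have h3 : MS (fun _ => True) I μ P := ⟨fun _ _ => trivial, h2⟩
  have h4 : ∑ i ∈ I, (P i).card = ∑ e ∈ L, μ e := by
    rw [← h3.sum_card L]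
    exact sum_congr rfl fun i hi => by rw [inter_eq_left.2 ((h1 i hi).1.trans (xb_sub _))]
  have h5 : ∑ i ∈ I, (if κ i = .tree then 1 else 2) =
      (I.filter fun i => κ i ≠ .tree).card + I.card := by
    rw [card_filter, card_eq_sum_ones I, ← sum_add_distrib]
    exact sum_congr rfl fun i _ => by by_cases hi : κ i = .tree <;> simp [hi]
  have h6 := fun i hi => XK.card_le hR (κ i) (h1 i hi)
  have h7 := (sum_eq_sum_iff_of_le h6).1 (le_antisymm (sum_le_sum h6) (by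
    rw [sum_add_distrib, h4, h5, sum_const, smul_eq_mul]
    omega))
  exact ⟨P, fun i hi => XK.has_of_card hR _ (h1 i hi) (h7 i hi).ge, h2⟩

/-- the case of two parts -/
theorem x_two (hR : Rooted G X ρ L) {k1 k2 : XK}
    (h : XHyp G X ρ L {0, 1} (one L) fun i => if i = 0 then k1 else k2)
    (tot : 2 * X.card ≤ L.card + (if k1 = .tree then 0 else 1) + (if k2 = .tree then 0 else 1) + 2) :
    ∃ F1 F2, Disjoint F1 F2 ∧ F1 ∪ F2 = L ∧ k1.Has G X ρ L F1 ∧ k2.Has G X ρ L F2 := by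
  obtain ⟨y, h1, h2⟩ := x_main hR h (fun e he => if_neg he) (by
    have a1 : ∑ e ∈ L, one L e = L.card := by
      rw [card_eq_sum_ones]
      exact sum_congr rfl fun e he => if_pos he
    rw [a1, card_filter, sum_pair zero_ne_one, card_pair zero_ne_one]
    by_cases c1 : k1 = .tree <;> by_cases c2 : k2 = .tree <;> simp [c1, c2] at tot ⊢ <;> omega)
  have h3 : ∀ e, one (y 0) e + one (y 1) e = one L e := fun e => by
    rw [← h2 e, bg_sum, sum_pair zero_ne_one]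
  refine ⟨y 0, y 1, disjoint_left.2 fun e c1 c2 => ?_, ?_, h1 0 (by simp), h1 1 (by simp)⟩
  · have := h3 e
    unfold one at this
    rw [if_pos c1, if_pos c2] at this
    split_ifs at this
    omega
  · ext e
    have := h3 e
    unfold one at this
    rw [mem_union]
    by_cases c1 : e ∈ y 0 <;> by_cases c2 : e ∈ y 1 <;> by_cases c3 : e ∈ L <;> simp_all

theorem xb_assign (ks : List XK) : ∀ I : Finset ℕ, I.card = ks.length →
    ∃ κ : ℕ → XK, ∀ f : XK → ℕ, ∑ i ∈ I, f (κ i) = (ks.map f).sum := by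
  induction ks with
  | nil => exact fun I hI => ⟨fun _ => .tree, fun f => by simp [card_eq_zero.1 hI]⟩
  | cons k ks ih =>
    intro I hI
    obtain ⟨a, J, ha, rfl, hJ⟩ := card_eq_succ.1 hI
    obtain ⟨κ, hκ⟩ := ih J hJ
    refine ⟨Function.update κ a k, fun f => ?_⟩
    rw [sum_insert ha, Function.update_self, List.map_cons, List.sum_cons, ← hκ]
    exact congrArg _ (sum_congr rfl fun i hi => by
      rw [Function.update_of_ne (ne_of_mem_of_not_mem hi ha)])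

theorem xb_kinds (l x : Fin 3 → ℕ) (h : ∑ k, l k + ∑ k, x k ≤ I.card) :
    ∃ κ : ℕ → XK, ∀ p : XK → Prop, ∀ [DecidablePred p], ¬ p .tree →
      (I.filter fun i => p (κ i)).card =
        ∑ k, ((if p (.lab k) then l k else 0) + if p (.ex k) then x k else 0) := by
  simp only [Fin.sum_univ_three] at h ⊢
  obtain ⟨κ, hκ⟩ := xb_assign (List.replicate (l 0) (.lab 0) ++ List.replicate (l 1) (.lab 1) ++
    List.replicate (l 2) (.lab 2) ++ List.replicate (x 0) (.ex 0) ++ List.replicate (x 1) (.ex 1) ++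
    List.replicate (x 2) (.ex 2) ++
    List.replicate (I.card - (l 0 + l 1 + l 2 + (x 0 + x 1 + x 2))) .tree) I (by
      simp only [List.length_append, List.length_replicate]
      omega)
  refine ⟨κ, fun p _ hp => ?_⟩
  rw [card_filter, hκ fun τ => if p τ then 1 else 0]
  simp only [List.map_append, List.sum_append, List.map_replicate, List.sum_replicate, smul_eq_mul,
    mul_ite, mul_one, mul_zero, if_neg hp]
  omega

theorem xb_arith {A a0 a1 a2 b0 b1 b2 : ℕ} (ha : a0 + a1 + a2 = A) (hb : b0 + b1 + b2 = A)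
    (h : max a0 b0 + max a1 b1 + max a2 b2 ≤ A + 1 ∨ (max a0 b0 + max a1 b1 + max a2 b2 = A + 2 ∧
      1 ≤ max a0 b0 ∧ 1 ≤ max a1 b1 ∧ 1 ≤ max a2 b2)) :
    ∃ x0 x1 x2, x0 ≤ 1 ∧ x1 ≤ 1 ∧ x2 ≤ 1 ∧ x1 + x2 ≤ max a0 b0 ∧ x2 + x0 ≤ max a1 b1 ∧
      x0 + x1 ≤ max a2 b2 ∧ max a0 b0 + max a1 b1 + max a2 b2 = A + (x0 + x1 + x2) := by
  have e0 := le_max_left a0 b0
  have e1 := le_max_left a1 b1
  have e2 := le_max_left a2 b2
  have f0 := le_max_right a0 b0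
  have f1 := le_max_right a1 b1
  have f2 := le_max_right a2 b2
  have g0 := max_le_add_of_nonneg (Nat.zero_le a0) (Nat.zero_le b0)
  have g1 := max_le_add_of_nonneg (Nat.zero_le a1) (Nat.zero_le b1)
  have g2 := max_le_add_of_nonneg (Nat.zero_le a2) (Nat.zero_le b2)
  have i0 : max a0 b0 ≤ A := max_le (by omega) (by omega)
  have i1 : max a1 b1 ≤ A := max_le (by omega) (by omega)
  have i2 : max a2 b2 ≤ A := max_le (by omega) (by omega)
  generalize max a0 b0 = u0, max a1 b1 = u1, max a2 b2 = u2 at *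
  rcases h with h | h
  · rcases Nat.lt_or_ge A (u0 + u1 + u2) with h1 | h1
    · by_cases c0 : u0 = 0
      · exact ⟨1, 0, 0, by omega⟩
      by_cases c1 : u1 = 0
      · exact ⟨0, 1, 0, by omega⟩
      exact ⟨0, 0, 1, by omega⟩
    · exact ⟨0, 0, 0, by omega⟩
  · by_cases c0 : 2 ≤ u0
    · exact ⟨0, 1, 1, by omega⟩
    by_cases c1 : 2 ≤ u1
    · exact ⟨1, 0, 1, by omega⟩
    exact ⟨1, 1, 0, by omega⟩

theorem xb_slack {m c c' : ℕ} {Y : Finset ℕ} (h : Slack G L μ m Y c) (hc : c' ≤ c) :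
    Slack G L μ m Y c' := by
  unfold Slack at h ⊢
  omega

/-- close count vectors below the slack bounds have a common neighbour -/
theorem x_close (hR : Rooted G X ρ L) {A : ℕ} {c a b : Fin 3 → ℕ} (hμ : ∀ e, e ∉ L → μ e = 0)
    (hA : A ≤ I.card) (tot : ∑ e ∈ L, μ e + A + I.card = I.card * X.card)
    (h0 : ∀ Y ⊆ X, Y.Nonempty → Slack G L μ I.card Y 0)
    (h1 : ∀ Y ⊆ X, 2 ≤ Y.card → (∀ i j, ρ i ∈ Y → ρ j ∈ Y → i = j) → Slack G L μ I.card Y 1)
    (h2 : ∀ k, ∀ Y ⊆ X, ρ (k + 1) ∈ Y → ρ (k + 2) ∈ Y → Slack G L μ I.card Y (A - c k))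
    (h3 : ∀ Y ⊆ X, (∀ k, ρ k ∈ Y) → Slack G L μ I.card Y A) (hc : ∑ k, c k < A)
    (ha : ∑ k, a k = A) (hb : ∑ k, b k = A) (ha' : ∀ k, a k + c k ≤ A) (hb' : ∀ k, b k + c k ≤ A)
    (hab : Close A a b) :
    ∃ y σ, TS (GTy G X ρ L) I μ y σ ∧ (∀ i ∈ I, σ i ≠ .z) ∧ ∑ k, cnt I σ k = A ∧
      ∀ k, a k + cnt I σ k ≤ A ∧ b k + cnt I σ k ≤ A := by
  obtain ⟨l, x, x1, x2, x3⟩ : ∃ l x : Fin 3 → ℕ, (∀ k, x k ≤ 1) ∧ ∑ k, l k + ∑ k, x k = A ∧
      ∀ k, l k + x (k + 1) + x (k + 2) = max (a k) (b k) := by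
    unfold Close at hab
    simp only [Fin.sum_univ_three, Fin.forall_fin_succ] at ha hb hab
    obtain ⟨x0, x1, x2, h⟩ := xb_arith ha hb (hab.imp_right fun h => ⟨h.1, h.2.1, h.2.2.1, h.2.2.2.1⟩)
    refine ⟨![max (a 0) (b 0) - (x1 + x2), max (a 1) (b 1) - (x2 + x0),
      max (a 2) (b 2) - (x0 + x1)], ![x0, x1, x2], fun k => ?_, ?_, fun k => ?_⟩
    · fin_cases k <;> simp <;> omega
    · simp [Fin.sum_univ_three]
      omega
    · fin_cases k <;> simp <;> omega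
  obtain ⟨κ, hκ⟩ := xb_kinds (I := I) l x (by omega)
  have k1 : (I.filter fun i => κ i ≠ .tree).card = A := by
    rw [hκ (fun τ => τ ≠ .tree) (by simp), ← x2, ← sum_add_distrib]
    simp
  have k2 : ∀ k, (I.filter fun i => κ i = .ex k).card = x k := fun k => by
    rw [hκ (fun τ => τ = .ex k) (by simp)]
    simp
  have k3 : ∀ k, (I.filter fun i => κ i = .lab k ∨ κ i = .ex (k + 1) ∨ κ i = .ex (k + 2)).card =
      max (a k) (b k) := fun k => by
    rw [hκ (fun τ => τ = .lab k ∨ τ = .ex (k + 1) ∨ τ = .ex (k + 2)) (by simp), ← x3]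
    fin_cases k <;> simp [Fin.sum_univ_three] <;> omega
  have k4 : ∀ k, max (a k) (b k) ≤ A - c k := fun k => by
    have := ha' k
    have := hb' k
    omega
  have k5 : ∀ k, c (k + 1) + c (k + 2) < A := fun k => by
    rw [Fin.sum_univ_three] at hc
    fin_cases k <;> simp <;> omega
  have hX : XHyp G X ρ L I μ κ := by
    refine ⟨fun i hi j hj k e1 e2 => card_le_one.1 ((k2 k).trans_le (x1 k))
      i (mem_filter.2 ⟨hi, e1⟩) j (mem_filter.2 ⟨hj, e2⟩), h0, fun i hi k hk Y hY m0 hc2 => ?_,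
      fun k Y hY m1 m2 => xb_slack (h2 k Y hY m1 m2) ((k3 k).trans_le (k4 k)),
      fun Y hY m => k1 ▸ h3 Y hY m, fun i _ k _ Y hY Z hZ m1 m2 m3 m4 => ?_⟩
    · have b1 : 1 ≤ x k := k2 k ▸ card_pos.2 ⟨i, mem_filter.2 ⟨hi, hk⟩⟩
      obtain ⟨f1, f2, f3, f4⟩ := xa_f3 k
      by_cases c1 : ρ (k + 1) ∈ Y
      · refine xb_slack (h2 (k + 2) Y hY (f3.symm ▸ m0) (f4.symm ▸ c1)) ?_
        have := x3 (k + 2)
        have := k4 (k + 2)
        rw [f3] at *
        omega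
      by_cases c2 : ρ (k + 2) ∈ Y
      · refine xb_slack (h2 (k + 1) Y hY (f1.symm ▸ c2) (f2.symm ▸ m0)) ?_
        have := x3 (k + 1)
        have := k4 (k + 1)
        rw [f2] at *
        omega
      have b2 : ∀ j, ρ j ∈ Y → j = k := fun j hj => by
        rcases xb_f2 k j with h | rfl | rfl
        exacts [h, absurd hj c1, absurd hj c2]
      exact h1 Y hY hc2 fun i j hi hj => (b2 i hi).trans (b2 j hj).symm
    · obtain ⟨f1, f2, f3, f4⟩ := xa_f3 k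
      have b1 := h2 (k + 2) Y hY (f3.symm ▸ m1) (f4.symm ▸ m2)
      have b2 := h2 (k + 1) Z hZ (f1.symm ▸ m4) (f2.symm ▸ m3)
      have b3 := k5 k
      unfold Slack at b1 b2
      rw [k1, mul_add]
      omega
  obtain ⟨y, y1, y2⟩ := x_main hR hX hμ (by omega)
  have y3 : ∀ i, ∃ β, i ∈ I → GTy G X ρ L (y i) β ∧ β ≠ .z ∧ (κ i = .tree ↔ β = .u) ∧
      ∀ k, β = .p k → ¬ (κ i = .lab k ∨ κ i = .ex (k + 1) ∨ κ i = .ex (k + 2)) := fun i => by
    by_cases hi : i ∈ I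
    swap
    · exact ⟨.u, fun h => absurd h hi⟩
    have := y1 i hi
    rcases hk : κ i with _ | k | k <;> rw [hk] at this
    · exact ⟨.u, fun _ => ⟨this, by simp, by simp, by simp⟩⟩
    · obtain ⟨j, hj, h⟩ := this
      exact ⟨.p j, fun _ => ⟨h, by simp, by simp, by simpa using hj.symm⟩⟩
    · exact ⟨.p k, fun _ => ⟨this.1, by simp, by simp, by simp⟩⟩
  choose σ hσ using y3
  refine ⟨y, σ, ⟨fun i hi => (hσ i hi).1, y2⟩, fun i hi => (hσ i hi).2.1, ?_, fun k => ?_⟩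
  · rw [← k1]
    simp only [cnt, card_filter]
    rw [Finset.sum_comm]
    refine sum_congr rfl fun i hi => ?_
    obtain ⟨-, b1, b2, -⟩ := hσ i hi
    simp only [ne_eq, b2]
    rcases hβ : σ i with _ | j | _
    · exact absurd hβ b1
    · simp
    · simp
  · have b1 : cnt I σ k + max (a k) (b k) ≤ A := by
      rw [← k1, ← k3, cnt, ← card_union_of_disjoint (disjoint_filter.2
        fun i hi e => (hσ i hi).2.2.2 k e)]
      refine card_le_card (union_subset (monotone_filter_right _ fun i hi e e' => ?_)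
        (monotone_filter_right _ fun i _ e e' => ?_))
      · rw [(hσ i hi).2.2.1.1 e'] at e
        cases e
      · simp [e'] at e
    omega

end Pool.Agent.P.MP_3f5ce9_co
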