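import Pool.Agent.P.MP_3f5ce9_co.W.HX1
import Pool.Agent.P.MP_3f5ce9_co.W.TriC
import Pool.Agent.P.MP_3f5ce9_co.W.XB

/-!
The diagonal configuration of a leaf with one critical pair.
-/

open Finset

namespace Pool.Agent.P.MP_3f5ce9_co

namespace AX2

variable {G : Gr ℕ ℕ} {X L P Y Z A B S T Es : Finset ℕ} {ρ : Fin 3 → ℕ} {i : Fin 3} {ψ : ℕ → ℕ}
  {a b x y : ℕ}

lemma un (hA : G.Acyc A) (hB : G.Acyc B) (h1 : G.Within A Y) (h2 : G.Within B Z)
    (h : (Y ∩ Z).card ≤ 1) (hd : Disjoint A B) (hs : A ∪ B ⊆ Es) : (BM.gm G Es).Indep (A ∪ B) := by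
  refine BM.indep_iff.2 ⟨hs, ?_⟩
  rw [BM.r_gm_union h1 h2 h, card_union_of_disjoint hd,
    (BM.indep_gm.2 ⟨subset_union_left.trans hs, hA⟩).r_eq,
    (BM.indep_gm.2 ⟨subset_union_right.trans hs, hB⟩).r_eq]

lemma map_acyc (hA : G.Acyc A) (h1 : G.Within A Y) (h : Set.InjOn ψ Y) : (G.map ψ).Acyc A := by
  have : (BM.gm G A).Indep A := BM.indep_gm.2 ⟨Subset.rfl, hA⟩
  rw [← BM.gm_map_inj h1 h] at this
  exact (BM.indep_gm.1 this).2

lemma ctr_inj (h : ¬ (x ∈ Y ∧ y ∈ Y)) : Set.InjOn (Gr.ctr x y) Y := by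
  intro u hu w hw huw
  simp only [Gr.ctr, mem_coe] at *
  grind

lemma un_ctr (hA : G.Acyc A) (hB : G.Acyc B) (h1 : G.Within A Y) (h2 : G.Within B Z)
    (h : Disjoint Y Z) (h3 : ¬ (x ∈ Y ∧ y ∈ Y)) (h4 : ¬ (x ∈ Z ∧ y ∈ Z)) (hd : Disjoint A B)
    (hs : A ∪ B ⊆ Es) : (BM.gm (G.map (Gr.ctr x y)) Es).Indep (A ∪ B) := by
  refine un (Y := Y.image (Gr.ctr x y)) (Z := Z.image (Gr.ctr x y)) (map_acyc hA h1 (ctr_inj h3))
    (map_acyc hB h2 (ctr_inj h4))
    (fun e he => ⟨mem_image_of_mem _ (h1 e he).1, mem_image_of_mem _ (h1 e he).2⟩)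
    (fun e he => ⟨mem_image_of_mem _ (h2 e he).1, mem_image_of_mem _ (h2 e he).2⟩)
    ((card_le_card fun z hz => ?_).trans (card_singleton y).le) hd hs
  obtain ⟨u, hu, h5⟩ := mem_image.1 (mem_inter.1 hz).1
  obtain ⟨w, hw, h6⟩ := mem_image.1 (mem_inter.1 hz).2
  have := disjoint_left.1 h hu
  simp only [Gr.ctr, mem_singleton] at *
  grind

lemma fin (h : LB G X ρ L 2) (hd : Disjoint S T) (hc : S ∪ T = L)
    (hS : (BM.gm G (L \ G.star L (ρ i))).Indep S)
    (h1 : (BM.gm (G.map (Gr.ctr (ρ i) (ρ (i + 1)))) L).Indep T)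
    (h2 : (BM.gm (G.map (Gr.ctr (ρ (i + 2)) (ρ i))) L).Indep T) :
    ∃ γ, Cfg L (GTy G X ρ L) γ (.p i) (.p i) ∧ Iso0 G ρ i γ.1 := by
  have h1' : ((XK.lab (i + 2)).mat G ρ L).Indep T := by
    rw [XK.mat, (xa_f3 i).2.2.1, (xa_f3 i).2.2.2]
    exact h1
  have h2' : ((XK.lab (i + 1)).mat G ρ L).Indep T := by
    rw [XK.mat, (xa_f3 i).1, (xa_f3 i).2.1]
    exact h2
  have a1 := XK.card_le h.rooted (.ex i) hS
  have a2 := XK.card_le h.rooted _ h1'
  have a3 := card_union_of_disjoint hd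
  have a4 := h.card
  rw [if_neg (by simp)] at a1 a2
  rw [hc] at a3
  obtain ⟨b1, b2⟩ := XK.has_of_card h.rooted (.ex i) hS (by rw [if_neg (by simp)]; omega)
  obtain ⟨j, j1, j2⟩ := XK.has_of_card h.rooted _ h1' (by rw [if_neg (by simp)]; omega)
  obtain ⟨k, k1, k2⟩ := XK.has_of_card h.rooted _ h2' (by rw [if_neg (by simp)]; omega)
  have a5 := (mSide_gTy h.rooted).uniq _ _ _ j2 k2
  cases a5
  have a6 : j = i := by
    rcases xb_f2 i j with c | c | c
    · exact c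
    · exact (k1 c).elim
    · exact (j1 c).elim
  exact ⟨(S, T), ⟨hd, hc, b1, a6 ▸ j2⟩, b2⟩

/-- the exceptional case: the rest of the graph meets the critical set in one vertex -/
lemma exc {p : ℕ} (h : LB G X ρ L 2) (hP : P ⊆ X) (ha : ρ (i + 1) ∈ P) (hc : ρ (i + 2) ∈ P)
    (hb : ρ i ∉ P) (hcr : G.Crit L P) (hn : ∀ j, j ≠ i → ¬ CP G X ρ L j) (hp : p ∈ P)
    (hQ : G.Crit L (insert p (X \ P))) :
    ∃ γ, Cfg L (GTy G X ρ L) γ (.p i) (.p i) ∧ Iso0 G ρ i γ.1 := by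
  obtain ⟨Q, hQ'⟩ : ∃ Q, Q = insert p (X \ P) := ⟨_, rfl⟩
  have mQ : ∀ z, z ∈ Q ↔ z = p ∨ (z ∈ X ∧ z ∉ P) := fun z => by
    rw [hQ', mem_insert, mem_sdiff]
  have cQ := Gr.card_cw hP hp
  rw [← hQ'] at hQ cQ
  have hQX : Q ⊆ X := fun z hz => ((mQ z).1 hz).elim (fun c => c ▸ hP hp) fun c => c.1
  have hbQ : ρ i ∈ Q := (mQ _).2 (Or.inr ⟨h.rooted.mem i, hb⟩)
  have hpQ : p ∈ Q := (mQ _).2 (Or.inl rfl)
  have hac : ρ (i + 2) ≠ ρ (i + 1) := h.rooted.inj.ne (xb_f1 i).2.2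
  have hpa : ρ (i + 1) ≠ p := fun c => hn (i + 2) (xb_f1 i).2.1 ⟨Q, hQX,
    by rw [(xa_f3 i).2.2.1]; exact hbQ, by rw [(xa_f3 i).2.2.2, c]; exact hpQ,
    fun c' => ((mQ _).1 c').elim (fun d => hac (d.trans c.symm)) fun d => d.2 hc, hQ⟩
  have hpc : ρ (i + 2) ≠ p := fun c => hn (i + 1) (xb_f1 i).1 ⟨Q, hQX,
    by rw [(xa_f3 i).1, c]; exact hpQ, by rw [(xa_f3 i).2.1]; exact hbQ,
    fun c' => ((mQ _).1 c').elim (fun d => hac (c.trans d.symm)) fun d => d.2 ha, hQ⟩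
  have sp : ∀ Y ⊆ X, G.SpA Y (G.ind L Y) := fun Y hY Z hZ h2 =>
    (Nat.add_le_add_right (card_le_card (Gr.ind_mono (G.ind_subset L Y) Subset.rfl)) 3).trans
      (h.b1 Z (hZ.trans hY) h2)
  have lo : ∀ Y, ∀ e ∈ G.ind L Y, G.s e ≠ G.t e := fun Y e he => h.loopless e (G.ind_subset L Y he)
  have e1 := h.b1 P hP (one_lt_card.2 ⟨_, hc, _, ha, hac⟩)
  have e2 := h.b1 Q hQX (one_lt_card.2 ⟨_, hbQ, _, hpQ, fun c => hb (c ▸ hp)⟩)
  unfold Gr.Crit at hcr hQ
  obtain ⟨A1, B1, p1, p2, p3, p4⟩ := Gr.x1 (G.within_ind L P) (lo P) (sp P hP) (by omega) hp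
  obtain ⟨A2, B2, q1, q2, q3, q4⟩ := Gr.x1 (G.within_ind L Q) (lo Q) (sp Q hQX) (by omega) hbQ
  have dd : Disjoint (G.ind L P) (G.ind L Q) := disjoint_left.2 fun e h1 h2 => by
    obtain ⟨-, c1, c2⟩ := Gr.mem_ind.1 h1
    obtain ⟨-, c3, c4⟩ := Gr.mem_ind.1 h2
    exact lo P e h1 ((((mQ _).1 c3).resolve_right fun d => d.2 c1).trans
      (((mQ _).1 c4).resolve_right fun d => d.2 c2).symm)
  have uu : G.ind L P ∪ G.ind L Q = L := by
    refine eq_of_subset_of_card_le (union_subset (G.ind_subset _ _) (G.ind_subset _ _)) ?_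
    have := h.card
    rw [card_union_of_disjoint dd]
    omega
  have s1 : A1 ⊆ G.ind L P := p2 ▸ subset_union_left
  have s2 : B1 ⊆ G.ind L P := p2 ▸ subset_union_right
  have s3 : A2 ⊆ G.ind L Q := q2 ▸ subset_union_left
  have s4 : B2 ⊆ G.ind L Q := q2 ▸ subset_union_right
  have dY : Disjoint (P.erase p) Q := disjoint_left.2 fun z h1 h2 =>
    ((mQ z).1 h2).elim (mem_erase.1 h1).1 fun d => d.2 (mem_erase.1 h1).2
  have sT : B1 ∪ A2 ⊆ L := uu ▸ union_subset_union s2 s3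
  refine fin (S := A1 ∪ B2) (T := B1 ∪ A2) h ?_ ?_ ?_ ?_ ?_
  · exact disjoint_union_left.2 ⟨disjoint_union_right.2 ⟨p1, dd.mono s1 s3⟩,
      disjoint_union_right.2 ⟨(dd.mono s2 s4).symm, q1.symm⟩⟩
  · rw [← uu, ← p2, ← q2]
    ext z
    simp only [mem_union]
    tauto
  · refine un p3.acyc q4.acyc p3.within q4.within
      ((card_le_card fun z hz => ?_).trans (card_singleton p).le) (dd.mono s1 s4) fun e he => ?_
    · exact mem_singleton.2 (((mQ z).1 (mem_erase.1 (mem_inter.1 hz).2).2).resolve_right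
        fun d => d.2 (mem_inter.1 hz).1)
    · refine mem_sdiff.2 ⟨(uu ▸ union_subset_union s1 s4 : A1 ∪ B2 ⊆ L) he, fun c => ?_⟩
      rcases mem_union.1 he with he | he
      · exact hb ((Gr.mem_star.1 c).2.mem p3.within he)
      · exact notMem_erase _ _ ((Gr.mem_star.1 c).2.mem q4.within he)
  · exact un_ctr p4.acyc q3.acyc p4.within q3.within dY (fun c => hb (mem_erase.1 c.1).2)
      (fun c => ((mQ _).1 c.2).elim hpa fun d => d.2 ha) (dd.mono s2 s3) sT
  · exact un_ctr p4.acyc q3.acyc p4.within q3.within dY (fun c => hb (mem_erase.1 c.2).2)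
      (fun c => ((mQ _).1 c.1).elim hpc fun d => d.2 hc) (dd.mono s2 s3) sT

/-- the edges of `A` keep their ends, the ends of the others are mapped by `φ` -/
def mix (G : Gr ℕ ℕ) (A : Finset ℕ) (φ : ℕ → ℕ) : Gr ℕ ℕ :=
  ⟨fun e => if e ∈ A then G.s e else φ (G.s e), fun e => if e ∈ A then G.t e else φ (G.t e)⟩

lemma mix_in {φ : ℕ → ℕ} {e : ℕ} (h : e ∈ A) :
    (mix G A φ).s e = G.s e ∧ (mix G A φ).t e = G.t e := ⟨if_pos h, if_pos h⟩

lemma mix_out {φ : ℕ → ℕ} {e : ℕ} (h : e ∉ A) :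
    (mix G A φ).s e = φ (G.s e) ∧ (mix G A φ).t e = φ (G.t e) := ⟨if_neg h, if_neg h⟩

lemma mix_indep {φ : ℕ → ℕ} (hA : G.Within A P) (h1 : Set.InjOn ψ P) (h2 : ∀ z, φ (ψ z) = φ z)
    (h3 : ∀ z ∈ P, φ z = a) (hT : (BM.gm (mix G A φ) L).Indep T) :
    (BM.gm (G.map ψ) L).Indep T := by
  refine ⟨hT.1, fun C hC hCT => ?_⟩
  obtain ⟨c1, c2⟩ := BM.cyc_chi.1 hC
  have a1 : C \ A = ∅ := by
    refine hT.2 _ (BM.cyc_chi.2 ⟨sdiff_subset.trans c1, fun χ => ?_⟩) (sdiff_subset.trans hCT)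
    have b1 := c2 fun z => χ (φ z)
    simp only [Gr.map_s, Gr.map_t, h2] at b1
    rw [← sum_inter_add_sum_sdiff C A, sum_eq_zero fun e he => by
      rw [h3 _ (hA e (mem_inter.1 he).2).1, h3 _ (hA e (mem_inter.1 he).2).2,
        CharTwo.add_self_eq_zero], zero_add] at b1
    rw [← b1]
    exact sum_congr rfl fun e he => by
      rw [(mix_out (mem_sdiff.1 he).2).1, (mix_out (mem_sdiff.1 he).2).2]
  have a2 : C ⊆ A := sdiff_eq_empty_iff_subset.1 a1
  have a3 : (BM.gm (G.map ψ) A).cyc C := BM.cyc_chi.2 ⟨a2, c2⟩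
  rw [BM.gm_map_inj hA h1] at a3
  refine hT.2 _ (BM.cyc_chi.2 ⟨c1, fun χ => ?_⟩) hCT
  rw [← (BM.cyc_chi.1 a3).2 χ]
  exact sum_congr rfl fun e he => by rw [(mix_in (a2 he)).1, (mix_in (a2 he)).2]

/-- the rank condition outside the exceptional case -/
lemma rank (h : LB G X ρ L 2) (hP : P ⊆ X) (ha : ρ (i + 1) ∈ P) (hc : ρ (i + 2) ∈ P)
    (hb : ρ i ∉ P) (hcr : G.Crit L P) (hn : ∀ p ∈ P, ¬ G.Crit L (insert p (X \ P))) :
    ∀ S ⊆ L, S.card ≤ (BM.gm G (L \ G.star L (ρ i))).r S +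
      (BM.gm (mix G (G.ind L P) (Gr.cw (insert (ρ i) P) (ρ (i + 1)))) L).r S := by
  obtain ⟨a, ea⟩ : ∃ a, a = ρ (i + 1) := ⟨_, rfl⟩
  obtain ⟨b, eb⟩ : ∃ b, b = ρ i := ⟨_, rfl⟩
  obtain ⟨φ, hφ⟩ : ∃ φ, φ = Gr.cw (insert b P) a := ⟨_, rfl⟩
  obtain ⟨A, hA⟩ : ∃ A, A = G.ind L P := ⟨_, rfl⟩
  have hroot : ∀ V : Finset ℕ, b ∈ V → P ⊆ V → ∀ k, ρ k ∈ V := fun V h1 h2 k => by
    rcases xb_f2 i k with c | c | c <;> rw [c]
    · exact eb ▸ h1
    · exact h2 ha
    · exact h2 hc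
  have hbX : b ∈ X := eb ▸ h.rooted.mem i
  unfold Gr.Crit at hcr
  rw [← ea] at ha ⊢
  rw [← eb] at hb ⊢
  rw [← hφ, ← hA]
  rw [← hA] at hcr
  have mA : ∀ e, e ∈ A ↔ e ∈ L ∧ G.s e ∈ P ∧ G.t e ∈ P := fun e => by rw [hA, Gr.mem_ind]
  have f1 : ∀ z ∈ P, φ z = a := fun z hz => hφ ▸ Gr.cw_of_mem (mem_insert_of_mem hz)
  have f2 : φ b = a := hφ ▸ Gr.cw_of_mem (mem_insert_self _ _)
  have f3 : ∀ z, z ≠ b → z ∉ P → φ z = z := fun z h1 h2 =>
    hφ ▸ Gr.cw_of_not fun c => (mem_insert.1 c).elim h1 h2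
  have f4 : ∀ (Y : Finset ℕ) z, z ∈ insert b Y → φ z ∈ insert a (Y \ P) := fun Y z hz => by
    by_cases c : z = b
    · rw [c, f2]; exact mem_insert_self _ _
    · by_cases c' : z ∈ P
      · rw [f1 z c']; exact mem_insert_self _ _
      · rw [f3 z c c']
        exact mem_insert_of_mem (mem_sdiff.2 ⟨(mem_insert.1 hz).resolve_left c, c'⟩)
  have w2 : ∀ S Y : Finset ℕ, G.Within S (insert b Y) → (mix G A φ).Within S (insert a Y) := by
    intro S Y hS e he
    by_cases c : e ∈ A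
    · rw [(mix_in c).1, (mix_in c).2]
      exact ⟨mem_insert_of_mem ((mem_insert.1 (hS e he).1).resolve_left
          fun d => hb (d ▸ ((mA e).1 c).2.1)), mem_insert_of_mem
        ((mem_insert.1 (hS e he).2).resolve_left fun d => hb (d ▸ ((mA e).1 c).2.2))⟩
    · rw [(mix_out c).1, (mix_out c).2]
      exact ⟨insert_subset_insert _ sdiff_subset (f4 _ _ (hS e he).1),
        insert_subset_insert _ sdiff_subset (f4 _ _ (hS e he).2)⟩
  have cn : ∀ (S : Finset ℕ) u w, G.Conn S u w → (mix G A φ).Conn (S \ A) (φ u) (φ w) := by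
    intro S u w hc
    refine Gr.conn_congr (G := G.map φ) (fun e he => mix_out (mem_sdiff.1 he).2)
      ((hc.map φ).of_spans fun e he => ?_)
    by_cases c : e ∈ A
    · rw [Gr.map_s, Gr.map_t, f1 _ ((mA e).1 c).2.1, f1 _ ((mA e).1 c).2.2]
      exact Gr.Conn.refl _ _ _
    · exact Gr.Conn.edge (mem_sdiff.2 ⟨he, c⟩) (Gr.joins_st _ e)
  have wA : (mix G A φ).Within A P := fun e he => by
    rw [(mix_in he).1, (mix_in he).2]
    exact ((mA e).1 he).2
  have spA : (mix G A φ).SpA P A := fun Z hZ h2 =>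
    (Nat.add_le_add_right (card_le_card fun e he => by
      obtain ⟨c1, c2⟩ := Gr.mem_ind.1 he
      rw [(mix_in c1).1, (mix_in c1).2] at c2
      exact Gr.mem_ind.2 ⟨((mA e).1 c1).1, c2⟩) 3).trans (h.b1 Z (hZ.trans hP) h2)
  refine Gr.hx_split h.rooted.within h.loopless b
    (fun S => (BM.gm G (L \ G.star L b)).r S + (BM.gm (mix G A φ) L).r S)
    (fun Y S1 S2 _ _ _ h1 h2 => ?_) fun Y hY hbY hne S hS hSne h1 hcn => ?_
  · have a1 := BM.r_gm_union (Es := L \ G.star L b) h1 h2 (Gr.hx_one b X Y)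
    have a2 := BM.r_gm_union (Es := L) (w2 _ _ h1) (w2 _ (X \ Y) fun e he =>
      ⟨mem_insert_of_mem (h2 e he).1, mem_insert_of_mem (h2 e he).2⟩)
      ((card_le_card fun z hz => by
        simp only [mem_inter, mem_insert, mem_sdiff, mem_singleton] at hz ⊢
        tauto).trans (card_singleton a).le)
    omega
  · have a0 := Gr.hx_star hS hcn
    have a1 : (BM.gm (mix G A φ) L).r S =
        (BM.gm (mix G A φ) L).r (S ∩ A) + (BM.gm (mix G A φ) L).r (S \ A) := by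
      rw [← BM.r_gm_union (X := P) (Y := insert a (Y \ P)) (wA.mono inter_subset_right)
        (fun e he => by
          rw [(mix_out (mem_sdiff.1 he).2).1, (mix_out (mem_sdiff.1 he).2).2]
          exact ⟨f4 _ _ (h1 e (mem_sdiff.1 he).1).1, f4 _ _ (h1 e (mem_sdiff.1 he).1).2⟩)
        ((card_le_card fun z hz => by
          simp only [mem_inter, mem_insert, mem_sdiff, mem_singleton] at hz ⊢
          tauto).trans (card_singleton a).le), union_comm, sdiff_union_inter]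
    have a2 : ∀ v, φ v = a → (∀ u ∈ Y, G.Conn S u v) →
        (Y \ P).card ≤ (BM.gm (mix G A φ) L).r (S \ A) := fun v hv hc => by
      have := BM.le_r_gm' (G := mix G A φ) (Es := L) (X := insert a (Y \ P)) (Y := {a})
        (sdiff_subset.trans hS) (singleton_subset_iff.2 (mem_insert_self _ _)) fun u hu => by
          refine ⟨a, mem_singleton_self a, ?_⟩
          rcases mem_insert.1 hu with rfl | hu
          · exact Gr.Conn.refl _ _ _
          · obtain ⟨u1, u2⟩ := mem_sdiff.1 hu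
            have := cn S u v (hc u u1)
            rwa [hv, f3 u (fun c => hbY (c ▸ u1)) u2] at this
      rw [card_insert_of_notMem fun c => (mem_sdiff.1 c).2 ha, card_singleton] at this
      omega
    have a3 := card_sdiff_add_card_inter Y P
    have a4 := card_sdiff_add_card_inter S A
    show S.card ≤ (BM.gm G (L \ G.star L b)).r S + (BM.gm (mix G A φ) L).r S
    rcases (Y ∩ P).eq_empty_or_nonempty with c | ⟨p, hp⟩
    · rw [c, card_empty] at a3
      rcases Gr.hx_cases h.loopless hS h1 hcn with d | ⟨-, d⟩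
      · have b1 := h.b1.hx_le h.loopless hS hSne hY d
        have b2 := BM.le_r_gm (G := mix G A φ) (Es := L) (X := Y) (sdiff_subset.trans hS)
          fun u hu w hw => by
            have n : ∀ u ∈ Y, φ u = u := fun u hu => f3 u (fun c => hbY (c ▸ hu))
              fun c' => notMem_empty u (c ▸ mem_inter.2 ⟨hu, c'⟩)
            have := cn S u w ((hcn u hu w hw).mono sdiff_subset)
            rwa [n u hu, n w hw] at this
        omega
      · have b1 := h.b1.hx_le h.loopless hS hSne (insert_subset hbX hY) h1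
        have b2 := a2 b f2 fun u hu => d u (mem_insert_of_mem hu)
        rw [card_insert_of_notMem hbY] at b1
        omega
    · obtain ⟨p1, p2⟩ := mem_inter.1 hp
      have b1 := a2 p (f1 p p2) fun u hu => (hcn u hu p p1).mono sdiff_subset
      obtain ⟨V, hV⟩ : ∃ V, V = insert b (P ∪ Y \ P) := ⟨_, rfl⟩
      have mV : ∀ z, z ∈ V ↔ z = b ∨ z ∈ P ∨ z ∈ Y := fun z => by
        rw [hV, union_sdiff_self_eq_union, mem_insert, mem_union]
      have cV : V.card = P.card + (Y \ P).card + 1 := by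
        rw [hV, card_insert_of_notMem, card_union_of_disjoint disjoint_sdiff]
        exact fun c => (mem_union.1 c).elim hb fun d => hbY (mem_sdiff.1 d).1
      have hVX : V ⊆ X := fun z hz => by
        rcases (mV z).1 hz with c | c | c
        exacts [c ▸ hbX, hP c, hY c]
      have b2 : (S \ A).card + A.card ≤ (G.ind L V).card := by
        rw [← card_union_of_disjoint sdiff_disjoint]
        refine card_le_card (union_subset (fun e he => ?_) fun e he => ?_)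
        · have := h1 e (mem_sdiff.1 he).1
          simp only [mem_insert] at this
          refine Gr.mem_ind.2 ⟨hS (mem_sdiff.1 he).1, ?_⟩
          rw [mV, mV]
          tauto
        · have := (mA e).1 he
          refine Gr.mem_ind.2 ⟨this.1, ?_⟩
          rw [mV, mV]
          tauto
      have b3 := card_le_card (G.ind_subset L V)
      have b4 := card_le_card hVX
      have b5 := h.card
      have b6 : V ≠ X → (G.ind L V).card + 7 ≤ 2 * V.card + 2 := fun c => h.b3 V hVX c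
        (hroot V ((mV b).2 (Or.inl rfl)) fun z hz => (mV z).2 (Or.inr (Or.inl hz)))
      have b7 : (S \ A).card ≤ 2 * (Y \ P).card + 1 := by
        by_cases c : V = X
        · rw [c] at cV
          omega
        · have := b6 c
          omega
      rcases (S ∩ A).eq_empty_or_nonempty with c | c
      swap
      · have d1 := spA.card_lt wA (fun e he => by
          rw [(mix_in he).1, (mix_in he).2]
          exact h.loopless e ((mA e).1 he).1) (fun e he => ((mA e).1 he).1) inter_subset_right c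
        have d2 := BM.r_gm_lt (G := mix G A φ) (F := S ∩ A) (Es := L) (X := Y ∩ P)
          (fun e he => by
            obtain ⟨e1, e2⟩ := mem_inter.1 (mem_inter.1 he).1
            rw [(mix_in e2).1, (mix_in e2).2]
            have e3 := (mA e).1 e2
            exact ⟨mem_inter.2 ⟨(mem_insert.1 (h1 e e1).1).resolve_left
              fun d => hb (d ▸ e3.2.1), e3.2.1⟩, mem_inter.2 ⟨(mem_insert.1
              (h1 e e1).2).resolve_left fun d => hb (d ▸ e3.2.2), e3.2.2⟩⟩) ⟨p, hp⟩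
        omega
      · rw [c, card_empty] at a4
        by_contra hlt
        have d0 := card_pos.2 ⟨p, hp⟩
        have d1 : V = X := by
          by_contra d
          have := b6 d
          omega
        have d2 : Y ∩ P = {p} :=
          eq_singleton_iff_unique_mem.2 ⟨hp, fun z hz => card_le_one.1 (by omega) z hz p hp⟩
        have d3 : insert b Y = insert p (X \ P) := by
          ext z
          have e1 := mV z
          have e2 := Finset.ext_iff.1 d2 z
          rw [d1] at e1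
          simp only [mem_inter, mem_singleton, mem_insert, mem_sdiff] at e2 ⊢
          grind
        refine hn p p2 ?_
        have d4 : S.card ≤ (G.ind L (insert b Y)).card :=
          card_le_card fun e he => Gr.mem_ind.2 ⟨hS he, h1 e he⟩
        unfold Gr.Crit
        rw [← d3, card_insert_of_notMem hbY]
        omega

end AX2

open AX2

theorem LB.ax2 {G : Gr ℕ ℕ} {X L : Finset ℕ} {ρ : Fin 3 → ℕ} {i : Fin 3} (h : LB G X ρ L 2)
    (hc : CP G X ρ L i) (hn : ∀ j, j ≠ i → ¬ CP G X ρ L j) :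
    ∃ γ, Cfg L (GTy G X ρ L) γ (.p i) (.p i) ∧ Iso0 G ρ i γ.1 := by
  obtain ⟨P, hP, ha, hc, hb, hcr⟩ := hc
  by_cases c : ∃ p ∈ P, G.Crit L (insert p (X \ P))
  · obtain ⟨p, hp, hQ⟩ := c
    exact exc h hP ha hc hb hcr hn hp hQ
  · obtain ⟨S, T, h1, h2, h3, h4⟩ := BM.union_two _ _ L
      (rank h hP ha hc hb hcr fun p hp d => c ⟨p, hp, d⟩)
    have f1 : ∀ z ∈ insert (ρ i) P, Gr.cw (insert (ρ i) P) (ρ (i + 1)) z = ρ (i + 1) :=
      fun z hz => Gr.cw_of_mem hz
    have f2 : ∀ x ∈ insert (ρ i) P, ∀ y ∈ insert (ρ i) P, ∀ z,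
        Gr.cw (insert (ρ i) P) (ρ (i + 1)) (Gr.ctr x y z) =
          Gr.cw (insert (ρ i) P) (ρ (i + 1)) z := fun x hx y hy z => by
      by_cases d : z = x
      · rw [d, Gr.ctr_self, f1 x hx, f1 y hy]
      · rw [Gr.ctr_of_ne d]
    exact fin h h3 h4 h1
      (mix_indep (G.within_ind L P) (ctr_inj fun d => hb d.1)
        (f2 _ (mem_insert_self _ _) _ (mem_insert_of_mem ha))
        (fun z hz => f1 z (mem_insert_of_mem hz)) h2)
      (mix_indep (G.within_ind L P) (ctr_inj fun d => hb d.2)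
        (f2 _ (mem_insert_of_mem hc) _ (mem_insert_self _ _))
        (fun z hz => f1 z (mem_insert_of_mem hz)) h2)

end Pool.Agent.P.MP_3f5ce9_co
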