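import Pool.Agent.P.MP_3f5ce9_co.W.AX
import Pool.Agent.P.MP_3f5ce9_co.W.AX2
import Pool.Agent.P.MP_3f5ce9_co.W.TriB

/-!
A graphic leaf imitates one of the gadgets.
-/

open Finset

namespace Pool.Agent.P.MP_3f5ce9_co

variable {G : Gr ℕ ℕ} {X L K : Finset ℕ} {ρ : Fin 3 → ℕ} {tk : Typing} {i : Fin 3}

theorem aim_dim : ∀ α β : Tp, α.compat β = true → α.dim + β.dim = 2 := by decide

theorem aim_cases : ∀ β1 β2 a1 a2 : Tp, a1.dim + β1.dim = 1 → a2.dim + β2.dim = 3 →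
    ∃ k l, (β1 = .p k ∧ β2 = .u ∧ a1 = .z ∧ a2 = .p l) ∨ (β1 = .z ∧ β2 = .p k ∧ a1 = .p l ∧ a2 = .u) ∨
      (β1 = .p k ∧ β2 = .p l ∧ a1 = .z ∧ a2 = .u) ∨ (β1 = .z ∧ β2 = .u ∧ a1 = .p k ∧ a2 = .p l) := by
  decide

/-- both sides only have type pairs in `up` and have all type pairs in `lo` -/
theorem aim_mk {ty : Typing} (up lo : Tp → Tp → Prop)
    (h1 : ∀ γ β1 β2, Cfg L ty γ β1 β2 → up β1 β2) (h2 : ∀ β1 β2, lo β1 β2 → ∃ γ, Cfg L ty γ β1 β2)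
    (h3 : ∀ κ β1 β2, Cfg K tk κ β1 β2 → up β1 β2) (h4 : ∀ β1 β2, lo β1 β2 → ∃ κ, Cfg K tk κ β1 β2)
    (d : ∀ β1 β2 α1 α2, up β1 β2 → Tp.compat α1 β1 = true → Tp.compat α2 β2 = true →
      (∃ δ, lo δ β2 ∧ α1.compat δ = true) ∧ ∃ δ, lo β1 δ ∧ α2.compat δ = true)
    (a1 : ∀ κ k l, Cfg K tk κ (.p k) .u → Low tk κ .z (.p l) →
      ∃ γ, Cfg L ty γ (.p k) .u ∧ Low ty γ .z (.p l))
    (a2 : ∀ κ k l, Cfg K tk κ .z (.p k) → Low tk κ (.p l) .u →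
      ∃ γ, Cfg L ty γ .z (.p k) ∧ Low ty γ (.p l) .u)
    (a3 : ∀ κ k l, Cfg K tk κ (.p k) (.p l) → Low tk κ .z .u →
      ∃ γ, Cfg L ty γ (.p k) (.p l) ∧ Low ty γ .z .u)
    (a4 : ∀ κ k l, Cfg K tk κ .z .u → Low tk κ (.p k) (.p l) →
      ∃ γ, Cfg L ty γ .z .u ∧ Low ty γ (.p k) (.p l)) : Imit L ty K tk where
  r1 γ β1 β2 α1 α2 h c1 c2 := by
    obtain ⟨δ, b1, b2⟩ := (d _ _ _ _ (h1 _ _ _ h) c1 c2).1
    obtain ⟨κ, hκ⟩ := h4 _ _ b1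
    exact ⟨κ, δ, β2, hκ, b2, c2⟩
  r2 κ β1 β2 α1 α2 α1' α2' h c1 c2 e1 e2 hl := by
    have b1 := aim_dim _ _ c1
    have b2 := aim_dim _ _ c2
    obtain ⟨k, l, ⟨rfl, rfl, rfl, rfl⟩ | ⟨rfl, rfl, rfl, rfl⟩ | ⟨rfl, rfl, rfl, rfl⟩ |
      ⟨rfl, rfl, rfl, rfl⟩⟩ := aim_cases β1 β2 α1' α2' (by omega) (by omega)
    exacts [a1 κ k l h hl, a2 κ k l h hl, a3 κ k l h hl, a4 κ k l h hl]
  r3 κ β1 β2 α1 α2 h c1 c2 := by
    obtain ⟨⟨δ, b1, b2⟩, δ', b3, b4⟩ := d _ _ _ _ (h3 _ _ _ h) c1 c2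
    obtain ⟨γ, hγ⟩ := h2 _ _ b1
    obtain ⟨γ', hγ'⟩ := h2 _ _ b3
    exact ⟨⟨γ, δ, hγ, b2⟩, γ', δ', hγ', b4⟩

theorem aim_ex3 (h : ∀ k, ∃ κ, Cfg K tk κ (.p k) .u) (β1 β2 : Tp) (e : β1.dim + β2.dim = 3) :
    ∃ κ, Cfg K tk κ β1 β2 := by
  rcases β1 with _ | k | _ <;> rcases β2 with _ | l | _ <;> simp [Tp.dim] at e
  · exact h k
  · exact (h l).elim fun κ hκ => ⟨_, hκ.swap⟩

theorem aim_ex1 (h : ∀ k, ∃ κ, Cfg K tk κ .z (.p k)) (β1 β2 : Tp) (e : β1.dim + β2.dim = 1) :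
    ∃ κ, Cfg K tk κ β1 β2 := by
  rcases β1 with _ | k | _ <;> rcases β2 with _ | l | _ <;> simp [Tp.dim] at e
  · exact h l
  · exact (h k).elim fun κ hκ => ⟨_, hκ.swap⟩

theorem aim_ex2 {R : Fin 3 → Fin 3 → Prop} (h0 : ∃ κ, Cfg K tk κ .z .u)
    (h : ∀ k l, R k l → ∃ κ, Cfg K tk κ (.p k) (.p l)) (β1 β2 : Tp)
    (e : β1.dim + β2.dim = 2 ∧ ∀ k l, β1 = .p k → β2 = .p l → R k l) :
    ∃ κ, Cfg K tk κ β1 β2 := by
  obtain ⟨e, e'⟩ := e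
  rcases β1 with _ | k | _ <;> rcases β2 with _ | l | _ <;> simp [Tp.dim] at e
  · exact h0
  · exact h k l (e' k l rfl rfl)
  · exact h0.elim fun κ hκ => ⟨_, hκ.swap⟩

theorem LB.imit_tri (h : LB G X ρ L 3) (hg : IsGad K tk .tri) : Imit L (GTy G X ρ L) K tk := by
  obtain ⟨g1, g2, g3⟩ := hg
  refine aim_mk (fun a b => a.dim + b.dim = 3) (fun a b => a.dim + b.dim = 3)
    (fun _ _ _ => h.dim) (aim_ex3 fun k => (h.ax3 k).imp fun _ a => a.1) g1 (aim_ex3 g2)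
    (by decide) (fun κ k l a b => ?_) (fun κ _ _ a => absurd (g1 _ _ _ a) (by simp [Tp.dim]))
    (fun κ _ _ a => absurd (g1 _ _ _ a) (by simp [Tp.dim]))
    fun κ _ _ a => absurd (g1 _ _ _ a) (by simp [Tp.dim])
  obtain ⟨γ, c1, c2⟩ := h.ax3 k
  exact ⟨γ, c1, low_of_iso c1 h.rooted c2 (Or.inl rfl) fun e => g3 κ k a (e ▸ b)⟩

theorem LB.imit_wye (h : LB G X ρ L 1) (hg : IsGad K tk .wye) : Imit L (GTy G X ρ L) K tk := by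
  obtain ⟨g1, g2, g3⟩ := hg
  have n : ∀ k : Fin 3, k ≠ k + 1 := by decide
  refine aim_mk (fun a b => a.dim + b.dim = 1) (fun a b => a.dim + b.dim = 1)
    (fun _ _ _ => h.dim) (aim_ex1 fun k => (h.ax1 (n k)).imp fun _ a => a.1) g1 (aim_ex1 g2)
    (by decide) (fun κ _ _ a => absurd (g1 _ _ _ a) (by simp [Tp.dim])) (fun κ k l a b => ?_)
    (fun κ _ _ a => absurd (g1 _ _ _ a) (by simp [Tp.dim]))
    fun κ _ _ a => absurd (g1 _ _ _ a) (by simp [Tp.dim])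
  obtain ⟨γ, c1, c2⟩ := h.ax1 (k := k) (l := l) fun e => g3 κ k a (e ▸ b)
  exact ⟨γ, c1, low_of_iso c1 h.rooted c2 (Or.inr rfl) (by simp)⟩

theorem LB.imit_whl (h : LB G X ρ L 2) (hc : CP G X ρ L i) (hg : IsGad K tk (.whl i)) :
    Imit L (GTy G X ρ L) K tk := by
  obtain ⟨g1, g2, g3, g4, g5⟩ := hg
  have hn : ∀ j, j ≠ i → ¬ CP G X ρ L j := fun j a b => a (h.cp_unique hc b)
  have key : ∀ k l, k = i ∨ l = i →
      ∃ γ, Cfg L (GTy G X ρ L) γ (.p k) (.p l) ∧ Iso0 G ρ k γ.1 := fun k l a => by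
    by_cases e : k = l
    · obtain rfl : k = i := by rcases a with a | a; exacts [a, e.trans a]
      exact e ▸ h.ax2 hc hn
    · exact h.axoff e fun n b1 b2 => hn n (by rcases a with a | a; exacts [a ▸ b1, a ▸ b2])
  refine aim_mk (fun a b => a.dim + b.dim = 2 ∧ ∀ k l, a = .p k → b = .p l → k = i ∨ l = i)
    (fun a b => a.dim + b.dim = 2 ∧ ∀ k l, a = .p k → b = .p l → k = i ∨ l = i)
    (fun _ _ _ a => ⟨h.dim a, by rintro k l rfl rfl; exact cp_types a hc⟩)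
    (aim_ex2 ((h.ax0u i).imp fun _ a => a.1) fun k l a => (key k l a).imp fun _ a => a.1)
    (fun _ _ _ a => ⟨g1 _ _ _ a, by rintro k l rfl rfl; exact g4 _ _ _ a⟩)
    (aim_ex2 g2 ?_) (fun β1 β2 _ _ a b c => ⟨⟨β1, a, b⟩, β2, a, c⟩)
    (fun κ _ _ a => absurd (g1 _ _ _ a) (by simp [Tp.dim]))
    (fun κ _ _ a => absurd (g1 _ _ _ a) (by simp [Tp.dim])) (fun κ k l a _ => ?_)
    fun κ k l a b => ?_
  · rintro k l (rfl | rfl)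
    · exact g3 l
    · exact (g3 k).elim fun κ hκ => ⟨_, hκ.swap⟩
  · obtain ⟨γ, c1, c2⟩ := key k l (g4 κ k l a)
    exact ⟨γ, c1, low_of_iso c1 h.rooted c2 (Or.inl rfl) (by simp)⟩
  · obtain ⟨γ, c1, c2⟩ := h.ax0u k
    refine ⟨γ, c1, ?_⟩
    by_cases e : l = k
    · subst e
      obtain rfl : l = i := by_contra fun e => g5 κ l e a b
      exact low_of_cp c1 h.rooted c2 hc
    · exact low_of_iso c1 h.rooted c2 (Or.inr rfl) (by simpa using e)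

theorem aim_unit0 : ∀ β1 β2 α1 α2 : Tp, β1.dim + β2.dim = 2 → Tp.compat α1 β1 = true →
    Tp.compat α2 β2 = true → (∃ δ : Tp, (δ.dim + β2.dim = 2 ∧ δ ≠ β2) ∧ α1.compat δ = true) ∧
      ∃ δ : Tp, (β1.dim + δ.dim = 2 ∧ β1 ≠ δ) ∧ α2.compat δ = true := by decide

theorem LB.imit_unit (h : LB G X ρ L 2) (hc : ∀ k, ¬ CP G X ρ L k) (hg : IsGad K tk .unit) :
    Imit L (GTy G X ρ L) K tk := by
  obtain ⟨g1, g2, g3, g4, g5⟩ := hg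
  refine aim_mk (fun a b => a.dim + b.dim = 2)
    (fun a b => a.dim + b.dim = 2 ∧ a ≠ b) (fun _ _ _ => h.dim)
    (fun β1 β2 e => aim_ex2 (R := fun k l => k ≠ l) ((h.ax0u 0).imp fun _ a => a.1) (fun k l a =>
      (h.axoff a fun n _ _ => hc n).imp fun _ a => a.1) β1 β2
      ⟨e.1, by rintro k l rfl rfl rfl; exact e.2 rfl⟩) g1
    (fun β1 β2 e => aim_ex2 g2 g3 β1 β2 ⟨e.1, by rintro k l rfl rfl rfl; exact e.2 rfl⟩) aim_unit0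
    (fun κ _ _ a => absurd (g1 _ _ _ a) (by simp [Tp.dim]))
    (fun κ _ _ a => absurd (g1 _ _ _ a) (by simp [Tp.dim])) (fun κ k l a b => ?_)
    fun κ k l a b => ?_
  · obtain ⟨γ, c1, c2⟩ := h.axoff (k := k) (l := l) (fun e => g4 κ k (e ▸ a) b) fun n _ _ => hc n
    exact ⟨γ, c1, low_of_iso c1 h.rooted c2 (Or.inl rfl) (by simp)⟩
  · obtain ⟨γ, c1, c2⟩ := h.ax0u k
    exact ⟨γ, c1, low_of_iso c1 h.rooted c2 (Or.inr rfl) fun e => g5 κ k a (e ▸ b)⟩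

end Pool.Agent.P.MP_3f5ce9_co
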