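import Pool.Agent.P.MP_3f5ce9_co.W.HBasic

/-!
Counting lemmas for tight and critical vertex sets.
-/

open Finset

namespace Pool.Agent.P.MP_3f5ce9_co

namespace Gr

variable {G : Gr ℕ ℕ} {X Y Z W Es F R R' S T U U' L Φ : Finset ℕ} {p q α β β' σ : Finset ℕ × Finset ℕ}
  {u w v r a b c a' b' c' e f g x y z φ ψ n : ℕ}

theorem St.ind_le (hp : G.St X Es p) (hU : U ⊆ Es) (hY : Y.Nonempty) :
    (G.ind U Y).card + 2 ≤ 2 * Y.card := by
  have := hp.sparse hY
  have := card_le_card (ind_mono (G := G) hU (Subset.refl Y))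
  omega

/-- frozen edges inside `Y` lower the bound -/
theorem St.ind_add_le (hp : G.St X Es p) (hU : U ⊆ Es) (hF : F ⊆ G.ind Es Y) (hd : Disjoint U F)
    (hY : Y.Nonempty) : (G.ind U Y).card + F.card + 2 ≤ 2 * Y.card := by
  have h1 := hp.sparse hY
  have h2 := card_le_card (union_subset (ind_mono (G := G) hU (Subset.refl Y)) hF)
  rw [card_union_of_disjoint (hd.mono_left (G.ind_subset U Y))] at h2
  omega

theorem SpA.mono (h : G.SpA X U) (hU : U' ⊆ U) (hY : Y ⊆ X) : G.SpA Y U' := by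
  intro Z hZ h2
  have := h Z (hZ.trans hY) h2
  have := card_le_card (ind_mono (G := G) hU (Subset.refl Z))
  omega

theorem SpA.spB (h : G.SpA X U) : G.SpB X U r := by
  exact fun Y hY _ h2 => h Y hY h2

theorem SpA.ne (h : G.SpA X U) (hx : x ∈ U) (hy : y ∈ U) (hxy : x ≠ y) (jx : G.Joins x v a')
    (jy : G.Joins y v b') (hv : v ∈ X) (ha : a' ∈ X) (hav : a' ≠ v) : a' ≠ b' := by
  rintro rfl
  have h1 := h {v, a'} (by intro g hg; simp only [mem_insert, mem_singleton] at hg; grind)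
    (by rw [card_pair hav.symm])
  have h2 : {x, y} ⊆ G.ind U {v, a'} := by
    intro g hg
    simp only [mem_insert, mem_singleton] at hg
    rcases hg with rfl | rfl
    · rw [jx.mem_ind]; simp [hx]
    · rw [jy.mem_ind]; simp [hy]
  have h3 := card_le_card h2
  rw [card_pair hxy] at h3
  rw [card_pair hav.symm] at h1
  omega

/-- edges inside a set that avoids `v` after splitting at `v` -/
theorem Node.ind_map (N : G.Node Es v x y z a' b' c') (hU : U ⊆ (Es.erase x).erase y)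
    (hv : v ∉ Z) : (G.map (ctr v b')).ind U Z =
      if z ∈ U ∧ b' ∈ Z ∧ c' ∈ Z then insert z (G.ind U Z) else G.ind U Z := by
  ext g
  by_cases hgz : g = z
  · subst hgz
    rw [N.jz'.mem_ind]
    split_ifs with h
    · simp [h]
    · rw [N.jz.mem_ind]
      tauto
  · have h1 : g ∈ (G.map (ctr v b')).ind U Z ↔ g ∈ G.ind U Z := by
      simp only [mem_ind]
      refine and_congr_right fun hg => ?_
      have h2 := hU hg
      simp only [mem_erase] at h2
      have := N.ends h2.2.2 h2.2.1 h2.1 hgz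
      rw [this.1, this.2]
    rw [h1]
    split_ifs <;> simp [hgz]

theorem Node.hc_card (N : G.Node Es v x y z a' b' c') (hU : U ⊆ (Es.erase x).erase y)
    (hv : v ∉ Z) : ((G.map (ctr v b')).ind U Z).card =
      (G.ind U Z).card + if z ∈ U ∧ b' ∈ Z ∧ c' ∈ Z then 1 else 0 := by
  rw [N.ind_map hU hv]
  split_ifs
  · exact card_insert_of_notMem fun h => hv (N.jz.mem_ind.1 h).2.1
  · rfl

theorem Node.hc_card' (N : G.Node Es v x y z a' b' c') (hz : z ∉ F) (hv : v ∉ Z) :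
    ((G.map (ctr v b')).ind (((Es.erase x).erase y) \ F) Z).card =
      (G.ind (Es \ F) Z).card + if b' ∈ Z ∧ c' ∈ Z then 1 else 0 := by
  have h1 : G.ind (((Es.erase x).erase y) \ F) Z = G.ind (Es \ F) Z := by
    refine Subset.antisymm (ind_mono (sdiff_subset_sdiff
      ((erase_subset _ _).trans (erase_subset _ _)) Subset.rfl) Subset.rfl) fun g hg => ?_
    have h2 : g ≠ x := by
      rintro rfl
      exact hv (N.jx.mem_ind.1 hg).2.1
    have h3 : g ≠ y := by
      rintro rfl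
      exact hv (N.jy.mem_ind.1 hg).2.1
    simp only [mem_ind, mem_sdiff, mem_erase] at hg ⊢
    tauto
  rw [N.hc_card sdiff_subset hv, h1]
  simp only [mem_sdiff.2 ⟨N.z_mem, hz⟩, true_and]

theorem Node.hc_del (N : G.Node Es v x y z a' b' c') (hU : U ⊆ Es) (Y : Finset ℕ) :
    (G.ind U Y).card ≤ (G.ind U (Y.erase v)).card + ((if a' ∈ Y then 1 else 0) +
      ((if b' ∈ Y then 1 else 0) + if c' ∈ Y then 1 else 0)) := by
  have h1 : G.ind U Y ⊆ G.ind U (Y.erase v) ∪ ((if a' ∈ Y then {x} else ∅) ∪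
      ((if b' ∈ Y then {y} else ∅) ∪ if c' ∈ Y then {z} else ∅)) := by
    intro g hg
    by_cases hi : G.Inc g v
    · rcases N.all g (hU (mem_ind.1 hg).1) hi with rfl | rfl | rfl
      · simp [(N.jx.mem_ind.1 hg).2.2]
      · simp [(N.jy.mem_ind.1 hg).2.2]
      · simp [(N.jz.mem_ind.1 hg).2.2]
    · refine mem_union_left _ ?_
      unfold Inc at hi
      simp only [mem_ind, mem_erase] at hg ⊢
      tauto
  refine (card_le_card h1).trans ((card_union_le _ _).trans (Nat.add_le_add_left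
    ((card_union_le _ _).trans (add_le_add ?_ ((card_union_le _ _).trans (add_le_add ?_ ?_)))) _))
  all_goals split_ifs <;> simp

theorem hc_gap (hU : U ⊆ L) (hY : Y ⊆ Z) :
    (G.ind U Z).card + (G.ind L Y).card ≤ (G.ind L Z).card + (G.ind U Y).card := by
  rw [← card_union_add_card_inter]
  refine add_le_add (card_le_card (union_subset (ind_mono hU Subset.rfl) (ind_mono Subset.rfl hY)))
    (card_le_card fun e he => ?_)
  simp only [mem_inter, mem_ind] at he ⊢
  tauto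

theorem Node.spA_mark (N : G.Node Es v x y z a' b' c') (h : G.SpA X U)
    (hU : U' ⊆ (Es.erase x).erase y) (hU' : U' ⊆ U) (hz : z ∉ U') :
    (G.map (ctr v b')).SpA (X.erase v) U' := by
  intro Z hZ h2
  rw [N.ind_map hU fun hv => by simpa using hZ hv, if_neg (by tauto)]
  exact h.mono hU' (erase_subset _ _) Z hZ h2

theorem Node.badA (N : G.Node Es v x y z a' b' c') (h : G.SpA X U)
    (hU : U' ⊆ (Es.erase x).erase y) (hU' : U' ⊆ U)
    (hb : ¬ (G.map (ctr v b')).SpA (X.erase v) U') :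
    z ∈ U' ∧ ∃ Z ⊆ X, v ∉ Z ∧ b' ∈ Z ∧ c' ∈ Z ∧ 2 ≤ Z.card ∧ G.Crit U' Z := by
  unfold SpA at hb
  push Not at hb
  obtain ⟨Z, hZ, h2, h3⟩ := hb
  have hv : v ∉ Z := fun hv => by simpa using hZ hv
  have h4 := h.mono hU' (erase_subset _ _) Z hZ h2
  rw [N.hc_card hU hv] at h3
  split_ifs at h3 with h5
  · exact ⟨h5.1, Z, hZ.trans (erase_subset _ _), hv, h5.2.1, h5.2.2, h2, by unfold Crit; omega⟩
  · omega

theorem Node.badB (N : G.Node Es v x y z a' b' c') (h : G.SpB X U r)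
    (hU : U' ⊆ (Es.erase x).erase y) (hU' : U' ⊆ U)
    (hb : ¬ (G.map (ctr v b')).SpB (X.erase v) U' r) :
    z ∈ U' ∧ ∃ Z ⊆ X, v ∉ Z ∧ r ∈ Z ∧ b' ∈ Z ∧ c' ∈ Z ∧ 2 ≤ Z.card ∧ G.Crit U' Z := by
  unfold SpB at hb
  push Not at hb
  obtain ⟨Z, hZ, hr, h2, h3⟩ := hb
  have hv : v ∉ Z := fun hv => by simpa using hZ hv
  have h4 := h Z (hZ.trans (erase_subset _ _)) hr h2
  have h6 := card_le_card (ind_mono (G := G) hU' (Subset.refl Z))
  rw [N.hc_card hU hv] at h3
  split_ifs at h3 with h5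
  · exact ⟨h5.1, Z, hZ.trans (erase_subset _ _), hv, hr, h5.2.1, h5.2.2, h2,
      by unfold Crit; omega⟩
  · omega

theorem Node.goodC_iff (N : G.Node Es v x y z a' b' c') (h : G.SpA X (Es \ F)) (hz : z ∉ F)
    (hbc : b' ≠ c') : (G.map (ctr v b')).SpA (X.erase v) (((Es.erase x).erase y) \ F) ↔
      G.GoodC X (Es \ F) v b' c' := by
  constructor
  · intro h1 Z hZ hv hb hc hk
    have h2 := h1 Z (subset_erase.2 ⟨hZ, hv⟩) (one_lt_card.2 ⟨_, hb, _, hc, hbc⟩)
    rw [N.hc_card' hz hv, if_pos ⟨hb, hc⟩] at h2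
    unfold Crit at hk
    omega
  · intro h1 Z hZ h2
    obtain ⟨hZ', hv⟩ := subset_erase.1 hZ
    have h3 := h Z hZ' h2
    rw [N.hc_card' hz hv]
    split_ifs with h4
    · have := h1 Z hZ' hv h4.1 h4.2
      unfold Crit at this
      omega
    · omega

theorem GoodC.symm (h : G.GoodC X L v b' c') : G.GoodC X L v c' b' := by
  exact fun Z hZ hv h1 h2 => h Z hZ hv h2 h1

theorem Node.bpx_iff (N : G.Node Es v x y z a' b' c') (hz : z ∉ F) :
    (G.map (ctr v b')).BP (X.erase v) (((Es.erase x).erase y) \ F) a b c ↔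
      G.BPX X (Es \ F) v b' c' a b c := by
  have key : ∀ P ⊆ X.erase v, ((G.map (ctr v b')).Crit (((Es.erase x).erase y) \ F) P ↔
      G.CritX (Es \ F) b' c' P) := fun P hP => by
    unfold CritX Crit
    rw [N.hc_card' hz (subset_erase.1 hP).2]
    split_ifs with h
    · simp only [h, true_and]
      omega
    · rw [add_zero]
      tauto
  unfold BP BPX
  refine and_congr (exists_congr fun P => and_congr_right fun hP => ?_)
    (exists_congr fun P => and_congr_right fun hP => ?_) <;> rw [key P hP]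

theorem BPX.symm (h : G.BPX X L v b' c' a b c) : G.BPX X L v c' b' a b c := by
  have key : ∀ P, G.CritX L b' c' P → G.CritX L c' b' P := fun P h => by
    unfold CritX at *
    tauto
  obtain ⟨⟨P, h1, h2, h3, h4, h5⟩, Q, k1, k2, k3, k4, k5⟩ := h
  exact ⟨⟨P, h1, h2, h3, h4, key P h5⟩, Q, k1, k2, k3, k4, key Q k5⟩

theorem Node.two_badA (N : G.Node Es v x y z a' b' c') (h : G.SpA X U) (hx : x ∈ U) (hy : y ∈ U)
    (hz : z ∈ U) (hvX : v ∈ X) (hY : Y ⊆ X) (hZ : Z ⊆ X) (vY : v ∉ Y) (vZ : v ∉ Z)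
    (bY : b' ∈ Y) (cY : c' ∈ Y) (aZ : a' ∈ Z) (cZ : c' ∈ Z) (k1 : G.Crit U Y) (k2 : G.Crit U Z) :
    ∀ w ∈ Y, w ∈ Z → w = c' := by
  intro w wY wZ
  by_contra hwc
  unfold Crit at k1 k2
  have h1 : 2 ≤ (Y ∩ Z).card :=
    one_lt_card.2 ⟨_, mem_inter.2 ⟨wY, wZ⟩, _, mem_inter.2 ⟨cY, cZ⟩, hwc⟩
  have h2 := h (Y ∩ Z) (inter_subset_left.trans hY) h1
  have h3 := G.ind_supermod U Y Z
  have h4 := card_union_add_card_inter Y Z
  have h5 : v ∉ Y ∪ Z := by simp [vY, vZ]
  have h6 := N.card_insert hx hy hz h5 (by simp [aZ]) (by simp [bY]) (by simp [cY])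
  have h7 := h (insert v (Y ∪ Z)) (insert_subset hvX (union_subset hY hZ))
    (by rw [card_insert_of_notMem h5]; have := card_pos.2 ⟨c', mem_union_left Z cY⟩; omega)
  rw [card_insert_of_notMem h5] at h7
  omega

theorem Node.two_badB (N : G.Node Es v x y z a' b' c') (hp : G.St X Es p) (h : G.SpA X U)
    (hB : G.SpB X L r) (hUL : U ⊆ L) (hL : L ⊆ Es) (hx : x ∈ L) (hy : y ∈ L) (hz : z ∈ L)
    (hY : Y ⊆ X) (hZ : Z ⊆ X) (vY : v ∉ Y) (vZ : v ∉ Z) (bY : b' ∈ Y) (cY : c' ∈ Y)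
    (aZ : a' ∈ Z) (cZ : c' ∈ Z) (k1 : G.Crit L Y) (k2 : G.Crit L Z) (hr : r ∈ Y ∨ r ∈ Z)
    (k : (r ∈ Y ∧ r ∈ Z) ∨ G.Crit U Y ∨ G.Crit U Z) : ∀ w ∈ Y, w ∈ Z → w = c' := by
  intro w wY wZ
  by_contra hwc
  unfold Crit at k1 k2
  have hvX := (N.jx.mem hp.within N.hx).1
  have h1 : 2 ≤ (Y ∩ Z).card :=
    one_lt_card.2 ⟨_, mem_inter.2 ⟨wY, wZ⟩, _, mem_inter.2 ⟨cY, cZ⟩, hwc⟩
  have h2 := h (Y ∩ Z) (inter_subset_left.trans hY) h1
  have h3 := G.ind_supermod L Y Z
  have h4 := card_union_add_card_inter Y Z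
  have h5 : v ∉ Y ∪ Z := by simp [vY, vZ]
  have h6 := N.card_insert hx hy hz h5 (by simp [aZ]) (by simp [bY]) (by simp [cY])
  have h7 := hB (insert v (Y ∪ Z)) (insert_subset hvX (union_subset hY hZ))
    (mem_insert_of_mem (mem_union.2 hr))
    (by rw [card_insert_of_notMem h5]; have := card_pos.2 ⟨c', mem_union_left Z cY⟩; omega)
  rw [card_insert_of_notMem h5] at h7
  have h8 := hp.ind_le hL (Y := Y ∩ Z) (card_pos.1 (by omega))
  rcases k with k | k | k
  · have := hB (Y ∩ Z) (inter_subset_left.trans hY) (mem_inter.2 k) h1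
    omega
  · have := hc_gap (G := G) hUL (inter_subset_left : Y ∩ Z ⊆ Y)
    unfold Crit at k
    omega
  · have := hc_gap (G := G) hUL (inter_subset_right : Y ∩ Z ⊆ Z)
    unfold Crit at k
    omega

theorem Node.three_crit (N : G.Node Es v x y z a' b' c') (hx : x ∈ U) (hy : y ∈ U) (hz : z ∈ U)
    (hloop : ∀ e ∈ U, G.s e ≠ G.t e) (vY : v ∉ Y) (vZ : v ∉ Z) (vW : v ∉ W) (bY : b' ∈ Y)
    (cY : c' ∈ Y) (aZ : a' ∈ Z) (cZ : c' ∈ Z) (aW : a' ∈ W) (bW : b' ∈ W) (hab : a' ≠ b')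
    (hac : a' ≠ c') (hbc : b' ≠ c') (i1 : ∀ w ∈ Y, w ∈ Z → w = c')
    (i2 : ∀ w ∈ Y, w ∈ W → w = b') (i3 : ∀ w ∈ Z, w ∈ W → w = a') :
    (insert v (Y ∪ Z ∪ W)).card + 2 = Y.card + Z.card + W.card ∧
      (G.ind U Y).card + (G.ind U Z).card + (G.ind U W).card + 3 ≤
        (G.ind U (insert v (Y ∪ Z ∪ W))).card := by
  have c1 : (Y ∩ Z).card = 1 := by
    rw [card_eq_one]
    exact ⟨c', by ext g; simp only [mem_inter, mem_singleton]; grind⟩
  have c2 : ((Y ∪ Z) ∩ W).card = 2 := by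
    rw [← card_pair hab]
    congr 1
    ext g; simp only [mem_inter, mem_union, mem_insert, mem_singleton]; grind
  have h4 := card_union_add_card_inter Y Z
  have h4' := card_union_add_card_inter (Y ∪ Z) W
  have d1 : Disjoint (G.ind U Y) (G.ind U Z) := by
    rw [disjoint_left]
    intro e h1 h2
    rw [mem_ind] at h1 h2
    exact hloop e h1.1 ((i1 _ h1.2.1 h2.2.1).trans (i1 _ h1.2.2 h2.2.2).symm)
  have d2 : Disjoint (G.ind U Y ∪ G.ind U Z) (G.ind U W) := by
    rw [disjoint_left]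
    intro e h1 h2
    rw [mem_union, mem_ind, mem_ind] at h1
    rw [mem_ind] at h2
    rcases h1 with h1 | h1
    · exact hloop e h1.1 ((i2 _ h1.2.1 h2.2.1).trans (i2 _ h1.2.2 h2.2.2).symm)
    · exact hloop e h1.1 ((i3 _ h1.2.1 h2.2.1).trans (i3 _ h1.2.2 h2.2.2).symm)
  have h3 : G.ind U Y ∪ G.ind U Z ∪ G.ind U W ⊆ G.ind U (Y ∪ Z ∪ W) :=
    union_subset (union_subset (ind_mono Subset.rfl (subset_union_left.trans subset_union_left))
      (ind_mono Subset.rfl (subset_union_right.trans subset_union_left)))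
      (ind_mono Subset.rfl subset_union_right)
  have h3' := card_le_card h3
  rw [card_union_of_disjoint d2, card_union_of_disjoint d1] at h3'
  have h5 : v ∉ Y ∪ Z ∪ W := by simp [vY, vZ, vW]
  have h6 := N.card_insert hx hy hz h5 (by simp [aZ]) (by simp [bY]) (by simp [cY])
  rw [card_insert_of_notMem h5]
  omega

/-- a tight set survives the removal of a vertex of degree two -/
theorem Node2.tight (N : G.Node2 Es v x y a' b') (hU : U ⊆ Es) (hp : G.St X Es p) (hab : a' ≠ b')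
    (h : ∃ Y ⊆ X, 2 ≤ Y.card ∧ G.Tight U Y) :
    ∃ Y ⊆ X.erase v, 2 ≤ Y.card ∧ G.Tight ((U.erase x).erase y) Y := by
  obtain ⟨Y, hY, h2, h3⟩ := h
  unfold Tight at *
  have hsub : ∀ g ∈ G.ind U Y, g ≠ x → g ≠ y → g ∈ G.ind ((U.erase x).erase y) (Y.erase v) := by
    intro g hg h4 h5
    rw [mem_ind] at hg
    have : ¬ G.Inc g v := fun hi => by have := N.all g (hU hg.1) hi; tauto
    unfold Inc at this
    simp only [mem_ind, mem_erase]
    tauto
  by_cases hv : v ∈ Y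
  · have h4 : G.ind U Y ⊆ insert x (insert y (G.ind ((U.erase x).erase y) (Y.erase v))) := by
      intro g hg
      have := hsub g hg
      simp only [mem_insert]
      tauto
    have h5 := (card_le_card h4).trans ((card_insert_le _ _).trans
      (Nat.succ_le_succ (card_insert_le _ _)))
    have h6 := card_erase_add_one hv
    refine ⟨Y.erase v, erase_subset_erase _ hY, ?_, by omega⟩
    by_contra h7
    obtain ⟨w, hw⟩ := card_eq_one.1 (show (Y.erase v).card = 1 by omega)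
    have h8 := ind_empty_of_le (G := G) (U := (U.erase x).erase y) (Y := Y.erase v) (c := w)
      (fun e he => hp.ne (hU (mem_of_mem_erase (mem_of_mem_erase he))) (G.joins_st e))
      (by simp [hw])
    rw [card_eq_zero.1 h8] at h4
    have h9 : G.ind U Y = insert x (insert y ∅) :=
      eq_of_subset_of_card_le h4 ((card_insert_le _ _).trans (by simp; omega))
    have k1 : x ∈ G.ind U Y := by simp [h9]
    have k2 : y ∈ G.ind U Y := by simp [h9]
    rw [N.jx.mem_ind] at k1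
    rw [N.jy.mem_ind] at k2
    have k3 := mem_erase.2 ⟨N.av, k1.2.2⟩
    have k4 := mem_erase.2 ⟨N.bv, k2.2.2⟩
    rw [hw, mem_singleton] at k3 k4
    exact hab (k3.trans k4.symm)
  · refine ⟨Y, subset_erase.2 ⟨hY, hv⟩, h2, h3.trans (Nat.add_le_add_right (card_le_card ?_) _)⟩
    intro g hg
    refine ind_mono Subset.rfl (erase_subset v Y) (hsub g hg ?_ ?_)
    · rintro rfl
      exact hv (N.jx.mem_ind.1 hg).2.1
    · rintro rfl
      exact hv (N.jy.mem_ind.1 hg).2.1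

/-- a tight set survives the splitting -/
theorem Node.tight (N : G.Node Es v x y z a' b' c') (hp : G.St X Es p) (ht : Ty x y z p)
    (hz : z ∉ F) (hab : a' ≠ b') (hac : a' ≠ c') (h : ∃ Y ⊆ X, 2 ≤ Y.card ∧ G.Tight (Es \ F) Y) :
    ∃ Y ⊆ X.erase v, 2 ≤ Y.card ∧
      (G.map (ctr v b')).Tight (((Es.erase x).erase y) \ F) Y := by
  obtain ⟨Y, hY, h2, h3⟩ := h
  unfold Tight at *
  have hbc := N.ty_ne hp ht
  by_cases hv : v ∈ Y
  swap
  · refine ⟨Y, subset_erase.2 ⟨hY, hv⟩, h2, ?_⟩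
    rw [N.hc_card' hz hv]
    omega
  have h6 := card_erase_add_one hv
  have h4 := N.hc_del (U := Es \ F) sdiff_subset Y
  refine ⟨Y.erase v, erase_subset_erase _ hY, ?_, ?_⟩
  · by_contra h7
    obtain ⟨w, hw⟩ := card_eq_one.1 (show (Y.erase v).card = 1 by omega)
    have h8 := ind_empty_of_le (G := G) (U := Es \ F) (Y := Y.erase v) (c := w)
      (fun e he => hp.ne (mem_sdiff.1 he).1 (G.joins_st e)) (by simp [hw])
    have k : ∀ u ∈ Y, u ≠ v → u = w := fun u hu h => by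
      have := mem_erase.2 ⟨h, hu⟩
      rwa [hw, mem_singleton] at this
    have k1 := fun h => k a' h N.av
    have k2 := fun h => k b' h N.bv
    have k3 := fun h => k c' h N.cv
    split_ifs at h4 <;> first | omega | grind
  · rw [N.hc_card' hz (notMem_erase v Y)]
    have k2 : b' ∈ Y.erase v ↔ b' ∈ Y := by simp [N.bv]
    have k3 : c' ∈ Y.erase v ↔ c' ∈ Y := by simp [N.cv]
    simp only [k2, k3]
    split_ifs at h4 ⊢ <;> first | omega | tauto

/-- critical sets through two neighbours are closed under union -/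
theorem Node.exists_max_crit (N : G.Node Es v x y z a' b' c') (h : G.SpA X U) (hac : a' ≠ c')
    (hb : ¬ G.GoodC X U v a' c') : ∃ Z ⊆ X, v ∉ Z ∧ a' ∈ Z ∧ c' ∈ Z ∧ G.Crit U Z ∧
      ∀ Y ⊆ X, v ∉ Y → a' ∈ Y → c' ∈ Y → G.Crit U Y → Y ⊆ Z := by
  unfold GoodC at hb
  push Not at hb
  obtain ⟨Z₀, h0⟩ := hb
  obtain ⟨Z, hZ, hmax⟩ := exists_max_image
    (X.powerset.filter fun Z => v ∉ Z ∧ a' ∈ Z ∧ c' ∈ Z ∧ 2 * Z.card ≤ (G.ind U Z).card + 3)
    card ⟨Z₀, mem_filter.2 ⟨mem_powerset.2 h0.1, h0.2⟩⟩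
  rw [mem_filter, mem_powerset] at hZ
  obtain ⟨z1, z2, z3, z4, z5⟩ := hZ
  refine ⟨Z, z1, z2, z3, z4, z5, fun Y y1 y2 y3 y4 y5 => ?_⟩
  unfold Crit at y5
  have h1 : 2 ≤ (Y ∩ Z).card :=
    one_lt_card.2 ⟨_, mem_inter.2 ⟨y3, z3⟩, _, mem_inter.2 ⟨y4, z4⟩, hac⟩
  have h2 := h (Y ∩ Z) (inter_subset_left.trans y1) h1
  have h3 := G.ind_supermod U Y Z
  have h4 := card_union_add_card_inter Y Z
  have h5 := hmax (Y ∪ Z) (mem_filter.2 ⟨mem_powerset.2 (union_subset y1 z1), by simp [y2, z2],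
    by simp [y3], by simp [y4], by omega⟩)
  rw [eq_of_subset_of_card_le (subset_union_right : Z ⊆ Y ∪ Z) h5]
  exact subset_union_left

/-- if all vertices outside the roots have degree at least four, their set is empty or tight and
no unfrozen edge joins two roots -/
theorem HS.degen (H : G.HS X Es φ ψ a b c) (hp : G.St X Es p)
    (hd : ∀ v ∈ X, v ∉ ({a, b, c} : Finset ℕ) → 4 ≤ G.deg Es v) (hne : (X \ {a, b, c}).Nonempty) :
    G.Tight (Es \ {φ, ψ}) (X \ {a, b, c}) ∧ G.ind (Es \ {φ, ψ}) {a, b, c} = ∅ := by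
  set R : Finset ℕ := {a, b, c} with hR
  have hRX : R ⊆ X := by
    intro g hg
    simp only [hR, mem_insert, mem_singleton] at hg
    rcases hg with rfl | rfl | rfl
    exacts [H.ma, H.mb, H.mc]
  have hR3 : R.card = 3 := card_eq_three.2 ⟨a, b, c, H.ab, H.ac, H.bc, rfl⟩
  have h1 := G.sum_deg_le Es (X \ R)
  have h2 : (X \ R).card • 4 ≤ ∑ u ∈ X \ R, G.deg Es u :=
    card_nsmul_le_sum _ _ _ fun u hu => hd u (mem_sdiff.1 hu).1 (mem_sdiff.1 hu).2
  rw [smul_eq_mul] at h2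
  have h3 := card_union_add_card_inter (Es.filter fun e => G.s e ∈ X \ R)
    (Es.filter fun e => G.t e ∈ X \ R)
  have h4 : (Es.filter fun e => G.s e ∈ X \ R) ∩ (Es.filter fun e => G.t e ∈ X \ R) =
      G.ind Es (X \ R) := by
    ext e
    simp only [mem_inter, mem_filter, mem_ind]
    tauto
  have h5 : ((Es.filter fun e => G.s e ∈ X \ R) ∪ (Es.filter fun e => G.t e ∈ X \ R)).card +
      (G.ind Es R).card ≤ Es.card := by
    rw [← card_union_of_disjoint]
    · exact card_le_card (union_subset (union_subset (filter_subset _ _) (filter_subset _ _))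
        (G.ind_subset _ _))
    · rw [disjoint_left]
      intro e h1 h2
      simp only [mem_union, mem_filter, mem_sdiff, mem_ind] at h1 h2
      tauto
  have hφ : φ ∈ G.ind Es R := by
    rw [H.jφ.mem_ind]
    simp [hR, H.hφ]
  have hψ : ψ ∈ G.ind Es R := by
    rcases H.jψ with h | h <;> rw [h.mem_ind] <;> simp [hR, H.hψ]
  have h6 : (G.ind (Es \ {φ, ψ}) R).card + 2 ≤ (G.ind Es R).card := by
    rw [← card_pair H.ne, ← card_union_of_disjoint]
    · exact card_le_card (union_subset (ind_mono sdiff_subset Subset.rfl)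
        (insert_subset hφ (singleton_subset_iff.2 hψ)))
    · exact sdiff_disjoint.mono_left (G.ind_subset _ _)
  have h7 : G.ind Es (X \ R) ⊆ G.ind (Es \ {φ, ψ}) (X \ R) := by
    intro e he
    rw [mem_ind] at he hφ hψ ⊢
    refine ⟨mem_sdiff.2 ⟨he.1, fun h => (mem_sdiff.1 he.2.1).2 ?_⟩, he.2⟩
    rcases mem_insert.1 h with rfl | h
    · exact hφ.2.1
    · rw [mem_singleton.1 h]
      exact hψ.2.1
  have h8 := card_le_card h7
  have h9 := hp.sparse hne
  have h10 := hp.card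
  have h11 := card_sdiff_add_card_eq_card hRX
  rw [h4] at h3
  unfold Tight
  exact ⟨by omega, card_eq_zero.1 (by omega)⟩

end Gr

end Pool.Agent.P.MP_3f5ce9_co
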