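import Pool.Agent.P.MP_3f5ce9_co.W.DefsC
import Pool.Agent.P.MP_3f5ce9_co.W.TriC
import Pool.Agent.P.MP_3f5ce9_co.W.HCount

/-!
The bounds on a leaf.
-/

open Finset

namespace Pool.Agent.P.MP_3f5ce9_co

section

variable {G : Gr ℕ ℕ} {X L F Y : Finset ℕ} {ρ : Fin 3 → ℕ} {β : Tp} {u v w : ℕ}

open Classical in
theorem alb_split (G : Gr ℕ ℕ) (F Y : Finset ℕ) (u : ℕ) : (G.ind F Y).card ≤
    (G.ind F (Y.filter (G.Conn F u))).card + (G.ind F (Y.filter fun z => ¬ G.Conn F u z)).card := by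
  refine (card_le_card fun e he => ?_).trans (card_union_le _ _)
  rw [Gr.mem_ind] at he
  have := G.closed_comp F u e he.1
  simp only [mem_union, Gr.mem_ind, mem_filter, Set.mem_ofPred_eq] at this ⊢
  tauto

theorem alb_two (h : G.Acyc F) (hu : u ∈ Y) (hw : w ∈ Y) (huw : ¬ G.Conn F u w) :
    (G.ind F Y).card + 2 ≤ Y.card := by
  classical
  have h1 := alb_split G F Y u
  have h2 := h.card_ind (X := Y.filter (G.Conn F u)) ⟨u, mem_filter.2 ⟨hu, .refl _ _ _⟩⟩
  have h3 := h.card_ind (X := Y.filter fun z => ¬ G.Conn F u z) ⟨w, mem_filter.2 ⟨hw, huw⟩⟩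
  have h4 := card_filter_add_card_filter_not (s := Y) (G.Conn F u)
  omega

theorem alb_three (h : G.Acyc F) (hu : u ∈ Y) (hv : v ∈ Y) (hw : w ∈ Y) (huv : ¬ G.Conn F u v)
    (huw : ¬ G.Conn F u w) (hvw : ¬ G.Conn F v w) : (G.ind F Y).card + 3 ≤ Y.card := by
  classical
  have h1 := alb_split G F Y u
  have h2 := h.card_ind (X := Y.filter (G.Conn F u)) ⟨u, mem_filter.2 ⟨hu, .refl _ _ _⟩⟩
  have h3 := alb_two h (Y := Y.filter fun z => ¬ G.Conn F u z) (mem_filter.2 ⟨hv, huv⟩)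
    (mem_filter.2 ⟨hw, huw⟩) hvw
  have h4 := card_filter_add_card_filter_not (s := Y) (G.Conn F u)
  omega

theorem alb_b2 (h : GTy G X ρ L F β) {i j : Fin 3} (hij : i ≠ j) (hi : ρ i ∈ Y) (hj : ρ j ∈ Y) :
    (G.ind F Y).card + 2 ≤ Y.card + β.dim := by
  have h1 := h.2.1.card_ind ⟨_, hi⟩
  rcases β with _ | k | _
  · exact alb_two h.2.1 hi hj (by simp [h.2.2.2, Tp.lnk, hij])
  all_goals simp only [Tp.dim]; omega

theorem alb_b3 (h : GTy G X ρ L F β) (hY : ∀ k, ρ k ∈ Y) :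
    (G.ind F Y).card + 3 ≤ Y.card + β.dim := by
  rcases β with _ | k | _
  · exact alb_three h.2.1 (hY 0) (hY 1) (hY 2) (by simp [h.2.2.2, Tp.lnk])
      (by simp [h.2.2.2, Tp.lnk]) (by simp [h.2.2.2, Tp.lnk])
  · exact Nat.succ_le_succ (alb_two h.2.1 (hY k) (hY (k + 1)) (by simp [h.2.2.2, Tp.lnk]))
  · have := h.2.1.card_ind ⟨_, hY 0⟩
    simp only [Tp.dim]; omega

end

theorem exists_lb {M : BM} {G : Gr ℕ ℕ} {X L L1 : Finset ℕ} {ρ : Fin 3 → ℕ} {ty1 : Typing} {p : Pr}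
    (hE : M.E = L1 ∪ L) (hB : M.IsBase = Glue L1 ty1 L (GTy G X ρ L)) (h1 : MSide L1 ty1)
    (hd : Disjoint L1 L) (hR : Rooted G X ρ L) (h3 : M.Conn3) (hn : M.NoTight) (h2 : 2 ≤ L1.card)
    (h5 : 5 ≤ L.card) (hp : St2 M.IsBase M.E p) : ∃ s, LB G X ρ L s := by
  have key : ∀ B, M.IsBase B → ∃ β, GTy G X ρ L (B ∩ L) β ∧
      (B ∩ L1).card + X.card + β.dim = M.r M.E + 3 ∧ (B ∩ L).card + 3 = X.card + β.dim :=
    fun B hb => by
      obtain ⟨a, α, β, -, b, -⟩ := hB ▸ hb
      have c := b.card hR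
      have d := card_union_of_disjoint (hd.mono (inter_subset_right (s₁ := B))
        (inter_subset_right (s₁ := B)))
      rw [← inter_union_distrib_left, inter_eq_left.2 a, hb.2] at d
      exact ⟨β, b, by omega, c⟩
  have ei : ∀ B Y, B ∩ G.ind L Y = G.ind (B ∩ L) Y := fun B Y => by
    ext e; simp only [mem_inter, Gr.mem_ind, and_assoc]
  have rA : ∀ Y : Finset ℕ, Y.Nonempty → M.r (G.ind L Y) + 1 ≤ Y.card := fun Y hY => by
    obtain ⟨B, hb, e⟩ := M.exists_base_inter (G.ind L Y)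
    obtain ⟨β, b, -⟩ := key B hb
    rw [← e, ei]
    exact b.2.1.card_ind hY
  have rU : ∀ Y : Finset ℕ, ∃ F β, GTy G X ρ L F β ∧
      M.r (L1 ∪ G.ind L Y) + X.card + β.dim ≤ M.r M.E + 3 + (G.ind F Y).card := fun Y => by
    obtain ⟨B, hb, e⟩ := M.exists_base_inter (L1 ∪ G.ind L Y)
    obtain ⟨β, b, c, -⟩ := key B hb
    have := card_union_le (B ∩ L1) (B ∩ G.ind L Y)
    rw [← inter_union_distrib_left, e, ei] at this
    exact ⟨_, β, b, by omega⟩
  have r1 : M.r L1 + X.card ≤ M.r M.E + 3 := by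
    obtain ⟨B, hb, e⟩ := M.exists_base_inter L1
    obtain ⟨β, -, c, -⟩ := key B hb
    omega
  have hL : L ⊆ M.E := hE ▸ subset_union_right
  have hL1 : L1 ⊆ M.E := hE ▸ subset_union_left
  have cE : L1.card + L.card = 2 * M.r M.E := by
    rw [← card_union_of_disjoint hd, ← hE, ← hp.cov, card_union_of_disjoint hp.disj, hp.fst.2,
      hp.snd.2, hp.cov, two_mul]
  have cE' : M.E.card = L1.card + L.card := by rw [hE, card_union_of_disjoint hd]
  obtain ⟨β1, b1, -, c1⟩ := key _ hp.fst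
  obtain ⟨β2, b2, -, c2⟩ := key _ hp.snd
  have cL : L.card + 6 = 2 * X.card + (β1.dim + β2.dim) := by
    have := card_union_of_disjoint (hp.disj.mono (inter_subset_left (s₂ := L))
      (inter_subset_left (s₂ := L)))
    rw [← union_inter_distrib_right, hp.cov, inter_eq_right.2 hL] at this
    omega
  generalize β1.dim + β2.dim = s at cL
  have ci : ∀ Y, (G.ind L Y).card ≤ L.card := fun Y => card_le_card (G.ind_subset L Y)
  have cU : ∀ Y, (L1 ∪ G.ind L Y).card = L1.card + (G.ind L Y).card := fun Y =>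
    card_union_of_disjoint (hd.mono_right (G.ind_subset L Y))
  have nt : ∀ Z ⊆ M.E, 0 < Z.card → Z.card < M.E.card → Z.card < 2 * M.r Z := fun Z a b c =>
    hn Z a (card_pos.1 b) fun d => by rw [d] at c; omega
  have sA : ∀ Y : Finset ℕ, Y.Nonempty →
      (G.ind L Y).card = 0 ∨ (G.ind L Y).card + 3 ≤ 2 * Y.card := fun Y hY => by
    have := rA Y hY
    have := ci Y
    have := nt _ ((G.ind_subset L Y).trans hL)
    omega
  have c3 : ∀ Z ⊆ L, M.r Z + M.r (M.E \ Z) ≤ M.r M.E + 1 → Z.card ≤ 1 := fun Z a b => by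
    have := h3 Z (a.trans hL)
    have := card_le_card (subset_sdiff.2 ⟨hL1, hd.mono_right a⟩)
    unfold BM.lam at *
    omega
  have k3 : ∀ Y ⊆ X, Y ≠ X → (∀ k, ρ k ∈ Y) → (G.ind L Y).card + 7 ≤ 2 * Y.card + s :=
    fun Y hY a b => by
      obtain ⟨F, β, c, d⟩ := rU Y
      have := alb_b3 c b
      have := cU Y
      have := nt _ (union_subset hL1 ((G.ind_subset L Y).trans hL))
      have : (G.ind L Y).card < L.card := card_lt_card ⟨G.ind_subset L Y, fun e => by
        obtain ⟨v, v1, v2⟩ := exists_of_ssubset (hY.ssubset_of_ne a)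
        obtain ⟨i, hi⟩ := c.2.2.1 v v1
        refine v2 ((hi Y fun f hf => ?_).2 (b i))
        have := Gr.mem_ind.1 (e (c.1 hf))
        exact iff_of_true this.2.1 this.2.2⟩
      omega
  have k3' : ∀ Y ⊆ X, (∀ k, ρ k ∈ Y) → (G.ind L Y).card + 6 ≤ 2 * Y.card + s := fun Y hY b => by
    by_cases a : Y = X
    · have := ci Y
      rw [a] at this ⊢
      omega
    · have := k3 Y hY a b
      omega
  have eX : G.ind L X = L := filter_true_of_mem hR.within
  refine ⟨s, hR, fun e he => ?_, ?_, ?_, cL, fun Y _ a => ?_, fun Y hY k a b => ?_, k3, ?_⟩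
  · rcases mem_union.1 (hp.cov ▸ hL he) with a | a
    · exact b1.2.1.ne (mem_inter.2 ⟨a, he⟩) (G.joins_st e)
    · exact b2.2.1.ne (mem_inter.2 ⟨a, he⟩) (G.joins_st e)
  · have := nt _ hL1
    omega
  · have := rA X ⟨_, hR.mem 0⟩
    have := nt _ hL
    rw [eX] at *
    omega
  · have := sA Y (card_pos.1 (by omega))
    omega
  · by_cases c : ρ k ∈ Y
    · have := k3' Y hY fun l => by
        rcases (by decide : ∀ k l : Fin 3, l = k ∨ l = k + 1 ∨ l = k + 2) k l with rfl | rfl | rfl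
        exacts [c, a, b]
      omega
    obtain ⟨F, β, d, e⟩ := rU Y
    have := alb_b2 d ((by decide : ∀ k : Fin 3, k + 1 ≠ k + 2) k) a b
    have := cU Y
    have := nt _ (union_subset hL1 ((G.ind_subset L Y).trans hL))
    have : (G.ind L Y).card < L.card := card_lt_card ⟨G.ind_subset L Y, fun f => by
      have g1 := rA Y ⟨_, a⟩
      have g2 := card_lt_card (hY.ssubset_of_ne fun g => c (g ▸ hR.mem k))
      have g3 := M.r_mono f
      have g4 : M.r (M.E \ L) ≤ M.r L1 := M.r_mono fun y hy => by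
        rw [hE, mem_sdiff, mem_union] at hy
        tauto
      have := c3 L Subset.rfl (by omega)
      omega⟩
    omega
  · rintro rfl i j k hij hik hjk ⟨⟨P, p1, p2, p3, -, p5⟩, Q, q1, q2, q3, -, q5⟩
    unfold Gr.Crit at p5 q5
    have a1 := card_union_add_card_inter P Q
    have a2 := Gr.ind_supermod G L P Q
    have a3 : ∀ l, ρ l ∈ P ∪ Q := fun l => by
      rcases (by decide : ∀ i j k l : Fin 3, i ≠ j → i ≠ k → j ≠ k → l = i ∨ l = j ∨ l = k)
        i j k l hij hik hjk with rfl | rfl | rfl <;> simp [*]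
    have a4 := k3' _ (union_subset p1 q1) a3
    have a5 := sA (P ∩ Q) ⟨_, mem_inter.2 ⟨p3, q3⟩⟩
    have a6 := card_pos.2 ⟨_, mem_inter.2 ⟨p3, q3⟩⟩
    have a7 : P ∪ Q = X := by_contra fun a => by
      have := k3 _ (union_subset p1 q1) a a3
      omega
    rw [a7] at a1 a2 a4
    have a8 : G.ind L P ∪ G.ind L Q = L := by
      refine eq_of_subset_of_card_le (union_subset (G.ind_subset ..) (G.ind_subset ..)) ?_
      have b1 := card_union_add_card_inter (G.ind L P) (G.ind L Q)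
      have b2 : (G.ind L P ∩ G.ind L Q).card ≤ (G.ind L (P ∩ Q)).card := card_le_card fun e he => by
        simp only [mem_inter, Gr.mem_ind] at he ⊢
        tauto
      omega
    have aux : ∀ P Q : Finset ℕ, ∀ j, j ≠ k → ρ k ∈ P → ρ j ∈ Q → ρ k ∈ Q →
        G.ind L P ∪ G.ind L Q = L → P.card + Q.card ≤ X.card + 1 → (G.ind L P).card ≤ 1 :=
      fun P Q j a b c d e f => by
        obtain ⟨F, β, g1, g2⟩ := rU Q
        have := alb_b2 g1 a c d
        have := rA P ⟨_, b⟩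
        have : M.r (M.E \ G.ind L P) ≤ M.r (L1 ∪ G.ind L Q) := M.r_mono fun y hy => by
          have := Finset.ext_iff.1 e y
          simp only [hE, mem_sdiff, mem_union] at hy this ⊢
          tauto
        exact c3 _ (G.ind_subset ..) (by omega)
    have := aux P Q j hjk p3 q2 q3 a8 (by omega)
    have := aux Q P i hik q3 p2 p3 ((union_comm _ _).trans a8) (by omega)
    have := card_union_le (G.ind L P) (G.ind L Q)
    rw [a8] at this
    omega

end Pool.Agent.P.MP_3f5ce9_co
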