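import Pool.Agent.P.MP_3f5ce9_co.W.ASim
import Pool.Agent.P.MP_3f5ce9_co.W.AImit
import Pool.Agent.P.MP_3f5ce9_co.W.ALB
import Pool.Agent.P.MP_3f5ce9_co.W.AFroz
import Pool.Agent.P.MP_3f5ce9_co.W.AGad

/-!
Replacing a leaf by a gadget.
-/

open Finset

namespace Pool.Agent.P.MP_3f5ce9_co

theorem leaf_abs {M : BM} {G : Gr ℕ ℕ} {X L L1 : Finset ℕ} {ρ : Fin 3 → ℕ} {ty1 : Typing} {a : ℕ}
    (H : ∀ n, Gr.CONNn n) (hE : M.E = L1 ∪ L) (hB : M.IsBase = Glue L1 ty1 L (GTy G X ρ L))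
    (h1 : MSide L1 ty1) (hd : Disjoint L1 L) (hR : Rooted G X ρ L) (h3 : M.Conn3) (hn : M.NoTight)
    (h2 : 2 ≤ L1.card) (h5 : 5 ≤ L.card) (ha : a ∈ L1) (g1 : GadUE L1 ty1 a .tri)
    (g2 : GadUE L1 ty1 a .wye) (g3 : ∀ i, GadUE L1 ty1 a (.whl i))
    (g4 : 6 ≤ L.card → GadUE L1 ty1 a .unit) : UE M.IsBase M.E a := by
  intro p q hp
  obtain ⟨s, hs⟩ := exists_lb hE hB h1 hd hR h3 hn h2 h5 hp
  have key : ∀ g, GadUE L1 ty1 a g → (∀ K tk, IsGad K tk g → Imit L (GTy G X ρ L) K tk) →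
      UE M.IsBase M.E a := by
    rintro g ⟨K, tk, d, hK, hg, hu⟩ hi
    have ho := M.pOdd
    rw [hB, hE] at ho ⊢
    exact sim h1 (mSide_gTy hR) hK hd d (hi K tk hg) ho (hs.r3 H h1 hd ha) ha hu
  refine (?_ : UE M.IsBase M.E a) p q hp
  have := hs.lo
  have := hs.hi
  have := hs.card
  obtain rfl | rfl | rfl : s = 1 ∨ s = 2 ∨ s = 3 := by omega
  · exact key _ g2 fun K tk => hs.imit_wye
  · by_cases c : ∃ i, CP G X ρ L i
    · obtain ⟨i, hi⟩ := c
      exact key _ (g3 i) fun K tk => hs.imit_whl hi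
    · exact key _ (g4 (by omega)) fun K tk => hs.imit_unit fun k hk => c ⟨k, hk⟩
  · exact key _ g1 fun K tk => hs.imit_tri

theorem BM.leaf {P : BM} {s : Fin 3 → ℕ} {L1 A : Finset ℕ} {a : ℕ} (H : ∀ n, Gr.CONNn n)
    (h : P.TriS s L1 A) (hr : P.Reg) (h3 : (P.del (tset s)).Conn3) (hn : (P.del (tset s)).NoTight)
    (ha : a ∈ L1) (h5 : 5 ≤ A.card) (ih : IHA (L1 ∪ A).card)
    (hk : (P.res (A ∪ tset s)).Graphic ∨ (P.res (A ∪ tset s)).CoStar s)
    (h6 : A.card = 6 → GadUE L1 (P.HasTy s L1) a .unit) :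
    UE (P.del (tset s)).IsBase (L1 ∪ A) a := by
  have hT := h.toTri
  have hE := hT.del_E
  have h2 : 2 ≤ L1.card := by
    have := P.r_le_card L1
    have := P.r_mono (subset_union_right (s₁ := L1) (s₂ := tset s))
    have := h.tri.rk
    have := h.s1
    omega
  have hc := card_union_of_disjoint h.d12
  have hg : ∀ g : Gd, g.size < A.card → GadUE L1 (P.HasTy s L1) a g := fun g hg =>
    BM.hasTy_res (P := P) (t := s) (L := L1) Subset.rfl ▸
      BM.gadUE_of_ih g (h.tri.res subset_union_right) hT.res_E h.d1 (hr.res _) ih (by omega)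
  have g4 : 6 ≤ A.card → GadUE L1 (P.HasTy s L1) a .unit := fun c =>
    c.lt_or_eq.elim (hg .unit) fun e => h6 e.symm
  have g1 := hg .tri (by simp only [Gd.size]; omega)
  have g2 := hg .wye (by simp only [Gd.size]; omega)
  have g3 := fun i => hg (.whl i) (by simp only [Gd.size]; omega)
  have hB := hT.isBase_del h.r_eq
  have h1 : MSide L1 (P.HasTy s L1) := BM.mSide_hasTy h.tri
    (h.ground ▸ subset_union_left.trans subset_union_left) h.d1
  obtain ⟨t1, t2⟩ := BM.td_side h.symm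
  have t3 := hT.symm.res_E
  have t4 := BM.hasTy_res (P := P) (t := s) (L := A) Subset.rfl
  rw [← hE]
  rcases hk with hk | hk
  · obtain ⟨G, X, ρ, a1, a2, a3, a4⟩ := hk.exists_rooted t1 t3
    rw [a4, hasTy_gm a1 a2 h.d2 a3] at t4
    exact leaf_abs H hE (t4 ▸ hB) h1 h.d12 a1 h3 hn h2 h5 ha g1 g2 g3 g4
  · obtain ⟨G, X, ρ, a1, a2⟩ := hk.exists_rooted t1 t3 h.d2 t2
    intro p q hp
    refine BM.ue_dual (leaf_abs (M := (P.del (tset s)).dual) H hE ?_ h1.co h.d12 a1 h3.dual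
      (hn.dual hp.card) h2 h5 ha g2.co g1.co (fun i => (g3 i).co) fun c => (g4 c).co) p q hp
    funext B
    rw [← a2, t4, glue_co h.d12, BM.isBase_dual, hB, hE]

end Pool.Agent.P.MP_3f5ce9_co
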