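import Pool.Agent.P.MP_3f5ce9_co.W.AAtt

/-!
Three-connectivity after attaching units gives vertical connectivity.
-/

open Finset

namespace Pool.Agent.P.MP_3f5ce9_co

namespace BM

variable {N : BM} {I X : Finset ℕ} {t : ℕ → Fin 3 → ℕ} {Q : ℕ → Finset ℕ} {U : ℕ → BM}

theorem ap_ss {X Y : Finset ℕ} (h : X ⊆ Y) : Y \ (Y \ X) = X :=
  Finset.sdiff_sdiff_eq_self h

theorem ap_half {s : Fin 3 → ℕ} (hs : N.IsTri s) {k : ℕ} (hX : X ⊆ N.E)
    (hc : (tset s \ X).card ≤ 1) (hl : N.lam X < min k (min (N.r X) (N.r (N.E \ X)))) :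
    N.lam (X ∪ tset s) < min k (min (N.r (X ∪ tset s)) (N.r (N.E \ (X ∪ tset s)))) := by
  have h1 : tset s ⊆ N.cl X := fun e he => by
    by_cases h : e ∈ X
    · exact subset_cl hX h
    · refine mem_cl_of_cyc hs.cyc he fun x hx => ?_
      by_cases h' : x ∈ X
      · exact mem_insert_of_mem h'
      · rw [card_le_one.1 hc x (mem_sdiff.2 ⟨hx, h'⟩) e (mem_sdiff.2 ⟨he, h⟩)]
        exact mem_insert_self _ _
  have h2 := r_union_of_subset_cl h1
  have h3 : N.E \ X ⊆ N.E \ (X ∪ tset s) ∪ tset s \ X := fun x hx => by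
    simp only [mem_union, mem_sdiff] at hx ⊢
    tauto
  have h4 := (N.r_mono h3).trans (N.r_union_le_card _ _)
  have h5 := N.r_mono (sdiff_subset_sdiff (Subset.rfl (s := N.E))
    (subset_union_left (s₁ := X) (s₂ := tset s)))
  have h6 := N.lam_add X
  have h7 := N.lam_add (X ∪ tset s)
  omega

theorem ap_step {s : Fin 3 → ℕ} (hs : N.IsTri s) {k : ℕ} (hX : X ⊆ N.E)
    (hl : N.lam X < min k (min (N.r X) (N.r (N.E \ X)))) :
    ∃ Y ⊆ N.E, (tset s ⊆ Y ∨ Disjoint (tset s) Y) ∧ (∀ x, x ∉ tset s → (x ∈ Y ↔ x ∈ X)) ∧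
      N.lam Y < min k (min (N.r Y) (N.r (N.E \ Y))) := by
  by_cases hc : (tset s \ X).card ≤ 1
  · exact ⟨X ∪ tset s, union_subset hX hs.subset, Or.inl subset_union_right,
      fun x hx => by simp [hx], ap_half hs hX hc hl⟩
  · have h1 : tset s \ (N.E \ X) = tset s ∩ X := by
      ext x
      have : x ∈ tset s → x ∈ N.E := fun h => hs.subset h
      simp only [mem_sdiff, mem_inter]
      tauto
    have h2 := card_sdiff_add_card_inter (tset s) X
    have h3 := hs.card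
    have h4 := ap_half (X := N.E \ X) (k := k) hs sdiff_subset (by rw [h1]; omega)
      (by rw [lam_compl hX, ap_ss hX]; omega)
    have h5 : N.E \ X ∪ tset s ⊆ N.E := union_subset sdiff_subset hs.subset
    refine ⟨N.E \ (N.E \ X ∪ tset s), sdiff_subset,
      Or.inr (disjoint_sdiff_self_right.mono_left subset_union_right), fun x hx => ?_, ?_⟩
    · have : x ∈ X → x ∈ N.E := fun h => hX h
      simp only [mem_sdiff, mem_union]
      tauto
    · rw [lam_compl h5, ap_ss h5]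
      omega

/-- a vertical separation can be chosen so that it splits no port -/
theorem Ports.exists_closed (h : N.Ports I t) {k : ℕ} (hX : X ⊆ N.E)
    (hl : N.lam X < min k (min (N.r X) (N.r (N.E \ X)))) :
    ∃ Y ⊆ N.E, PClosed I t Y ∧ N.lam Y < min k (min (N.r Y) (N.r (N.E \ Y))) := by
  induction I using Finset.induction_on with
  | empty => exact ⟨X, hX, fun i hi => (notMem_empty i hi).elim, hl⟩
  | insert i I hi ih =>
    have hi' := mem_insert_self i I
    obtain ⟨Y, h1, h2, h3⟩ := ih ⟨fun j hj => h.tri j (mem_insert_of_mem hj), fun j hj l hl =>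
      h.disj j (mem_insert_of_mem hj) l (mem_insert_of_mem hl)⟩
    obtain ⟨Z, g1, g2, g3, g4⟩ := ap_step (h.tri i hi') h1 h3
    refine ⟨Z, g1, fun j hj => ?_, g4⟩
    rcases mem_insert.1 hj with rfl | hj'
    · exact g2
    · have hd := disjoint_left.1 (h.disj j hj i hi' (ne_of_mem_of_not_mem hj' hi))
      rcases h2 j hj' with g | g
      · exact Or.inl fun x hx => (g3 x (hd hx)).2 (g hx)
      · exact Or.inr (disjoint_left.2 fun x hx hz => disjoint_left.1 g hx ((g3 x (hd hx)).1 hz))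

theorem ap_out {P : BM} {s : Fin 3 → ℕ} {L1 L2 Y : Finset ℕ} (h : P.Tri s L1 L2)
    (hs : P.r (L2 ∪ tset s) = P.r L2) (hc : 3 ≤ L2.card) (hY : Y ⊆ L1) :
    (P.del (tset s)).lam Y ≤ (P.res (L1 ∪ tset s)).lam Y ∧
      ((L1 ∪ tset s) \ Y).card ≤ ((L1 ∪ L2) \ Y).card := by
  refine ⟨h.symm.lam_le (by rw [union_comm]; exact h.r_eq_of_span hs) hY, ?_⟩
  rw [card_sdiff_of_subset (hY.trans subset_union_left),
    card_sdiff_of_subset (hY.trans subset_union_left), card_union_of_disjoint h.d1,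
    card_union_of_disjoint h.d12, h.tri.card]
  omega

theorem ap_one {P : BM} {s : Fin 3 → ℕ} {L1 L2 Y : Finset ℕ} (h : P.Tri s L1 L2)
    (hs : P.r (L2 ∪ tset s) = P.r L2) (hc : 3 ≤ L2.card) (hY : Y ⊆ L1 ∪ tset s)
    (hcl : tset s ⊆ Y ∨ Disjoint (tset s) Y) :
    ∃ Y' ⊆ L1 ∪ L2, (P.del (tset s)).lam Y' ≤ (P.res (L1 ∪ tset s)).lam Y ∧ Y.card ≤ Y'.card ∧
      ((L1 ∪ tset s) \ Y).card ≤ ((L1 ∪ L2) \ Y').card ∧ ∀ x ∈ L1, (x ∈ Y' ↔ x ∈ Y) := by
  rcases hcl with g | g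
  · have h1 : (L1 ∪ tset s) \ Y ⊆ L1 := fun x hx =>
      (mem_union.1 (mem_sdiff.1 hx).1).resolve_right fun h2 => (mem_sdiff.1 hx).2 (g h2)
    have h2 : (L1 ∪ tset s) \ Y ⊆ L1 ∪ L2 := h1.trans subset_union_left
    obtain ⟨h3, h4⟩ := ap_out h hs hc h1
    rw [ap_ss hY] at h4
    have h5 := lam_compl (M := P.del (tset s)) (h.del_E.symm ▸ h2)
    have h6 := lam_compl (M := P.res (L1 ∪ tset s)) (h.res_E.symm ▸ hY)
    rw [h.del_E] at h5
    rw [h.res_E] at h6
    refine ⟨(L1 ∪ L2) \ ((L1 ∪ tset s) \ Y), sdiff_subset, by omega, h4,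
      by rw [ap_ss h2], fun x hx => ?_⟩
    simp [hx]
  · have h1 : Y ⊆ L1 := fun x hx =>
      (mem_union.1 (hY hx)).resolve_right fun h2 => disjoint_left.1 g h2 hx
    obtain ⟨h3, h4⟩ := ap_out h hs hc h1
    exact ⟨Y, h1.trans subset_union_left, h3, le_rfl, h4, fun _ _ => Iff.rfl⟩

theorem ap_lift {Y : Finset ℕ} (h : N.Ported I t Q U) (hY : Y ⊆ N.E) (hc : PClosed I t Y) :
    ∃ Y' ⊆ (N.att I t U).E, (N.att I t U).lam Y' ≤ N.lam Y ∧ Y.card ≤ Y'.card ∧
      (N.E \ Y).card ≤ ((N.att I t U).E \ Y').card ∧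
      ∀ x ∈ N.E, x ∉ pts I t → (x ∈ Y' ↔ x ∈ Y) := by
  induction I using Finset.induction_on with
  | empty =>
    rw [att_empty]
    exact ⟨Y, hY, le_rfl, le_rfl, le_rfl, fun _ _ _ => Iff.rfl⟩
  | insert i I hi ih =>
    have hi' := mem_insert_self i I
    have hu := h.unit i hi'
    obtain ⟨Z, g1, g2, g3, g4, g5⟩ := ih (h.mono (subset_insert i I))
      fun j hj => hc j (mem_insert_of_mem hj)
    obtain ⟨h1, h2, h3⟩ := h.aa_one hi
    have h4 := h.aa_insert hi
    have e1 := h1.res_E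
    have e2 := h1.del_E
    rw [h2] at e1
    rw [← h4] at e2
    have hs : ((N.att I t U).sum (U i)).r (Q i ∪ tset (t i)) =
        ((N.att I t U).sum (U i)).r (Q i) := by
      rw [← r_res_of_subset _ (Subset.rfl (s := Q i ∪ tset (t i))),
        ← r_res_of_subset _ (subset_union_left (s₁ := Q i) (s₂ := tset (t i))), h3, hu.span,
        hu.ground]
    have g6 : ∀ x ∈ tset (t i), (x ∈ Z ↔ x ∈ Y) := fun x hx =>
      g5 x ((h.tri i hi').subset hx) (disjoint_left.1 (h.aa_disj hi) hx)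
    obtain ⟨W, f1, f2, f3, f4, f5⟩ := ap_one h1 hs (by rw [hu.card]; omega) (e1 ▸ g1)
      ((hc i hi').imp (fun g x hx => (g6 x hx).2 (g hx)) fun g =>
        disjoint_left.2 fun x hx hz => disjoint_left.1 g hx ((g6 x hx).1 hz))
    rw [h2, ← h4] at f2
    rw [← e1, ← e2] at f4
    rw [← e2] at f1
    refine ⟨W, f1, f2.trans g2, g3.trans f3, g4.trans f4, fun x hx hp => ?_⟩
    rw [aa_pts_insert, notMem_union] at hp
    refine (f5 x (mem_sdiff.2 ⟨?_, fun hq => disjoint_left.1 (h.fresh i hi') hq hx⟩)).trans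
      (g5 x hx hp.2)
    rw [h.att_E, aa_pts_insert]
    exact mem_union_left _ (mem_sdiff.2 ⟨hx, notMem_union.2 hp⟩)

theorem Ported.vc (h : N.Ported I t Q U) (h3 : (N.att I t U).Conn3) : N.VC := by
  intro X hX
  by_contra hl
  obtain ⟨Y, h1, h2, h4⟩ := h.toPorts.exists_closed hX (not_le.1 hl)
  obtain ⟨Z, g1, g2, g3, g4, -⟩ := ap_lift h h1 h2
  have h5 := h3 Z g1
  have h6 := N.r_le_card Y
  have h7 := N.r_le_card (N.E \ Y)
  omega

theorem Ported.loopless (h : N.Ported I t Q U) (h3 : (N.att I t U).Conn3)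
    (h2 : 2 ≤ (N.att I t U).E.card) : N.Loopless := by
  intro e he
  by_cases hp : e ∈ pts I t
  · obtain ⟨i, hi, hx⟩ := aa_mem_pts.1 hp
    exact ((h.tri i hi).indep (singleton_subset_iff.2 hx) (by simp)).r_eq
  · have he' : e ∈ (N.att I t U).E := by
      rw [h.att_E]
      exact mem_union_left _ (mem_sdiff.2 ⟨he, hp⟩)
    have h4 := h3.loopless h2 e he'
    have h5 := N.r_le_card {e}
    rw [card_singleton] at h5
    by_contra h6
    have h7 : N.cyc {e} := (cyc_singleton_iff he).2 (by omega)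
    have h8 : (N.att I t U).cyc {e} := ⟨⟨{e}, fun _ => ∅, h7, fun i _ => (U i).nil, by
      rw [subset_empty.1 (lin_sub (X := ∅) fun _ _ => Subset.rfl)]
      exact (symmDiff_bot _).symm⟩, disjoint_singleton_left.2 hp⟩
    have h9 := (cyc_singleton_iff he').1 h8
    omega

end BM

end Pool.Agent.P.MP_3f5ce9_co
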