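import Pool.Agent.P.MP_3f5ce9_co.W.AGen
import Pool.Agent.P.MP_3f5ce9_co.W.Bits

/-!
The pair theorem for R10.
-/

open Finset

namespace Pool.Agent.P.MP_3f5ce9_co

namespace AR

/-- the vectors of `R10` -/
def vl : List ℕ := [35, 37, 41, 49, 38, 42, 50, 44, 52, 56]

/-- the test for a basis -/
def bs (m : ℕ) : Bool := (msel vl m).length == 5 && rkm vl m == 5

/-- the bases whose complement is a basis -/
def sl : List ℕ :=
  [59, 61, 87, 93, 103, 107, 155, 158, 173, 174, 211, 220, 229, 234, 242, 244, 279, 286, 307, 316,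
    333, 334, 358, 361, 370, 376, 391, 395, 422, 425, 433, 436, 453, 458, 465, 472, 551, 558, 565,
    570, 587, 590, 598, 601, 628, 632, 647, 653, 662, 665, 689, 690, 707, 716, 737, 744, 779, 781,
    789, 794, 803, 812, 849, 850, 865, 868, 916, 920, 930, 936, 962, 964]

/-- the exchange of two elements -/
def fl (m e f : ℕ) : ℕ := m ^^^ 2 ^ e ^^^ 2 ^ f

/-- the state to which all states are joined -/
def root (a : ℕ) : ℕ := [391, 391, 391, 173, 689, 173, 744, 173, 391, 689].getD a 0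

/-- a unique exchange that leads nearer to the root -/
def ok (a m e f : ℕ) : Bool :=
  e != a && f != a && m.testBit e != m.testBit f && Nat.blt (fl m e f ^^^ root a) (m ^^^ root a) &&
    sl.elem (fl m e f) &&
    (List.range 10).all fun g => m.testBit g == m.testBit e || g == f || !sl.elem (fl m e g)

/-- the state with first set `m` -/
def st (m : ℕ) : Pr := (mset 10 m, range 10 \ mset 10 m)

theorem c1 : ∀ a < 32, ∀ b < 32,
    (bs (32 * a + b) && bs (1023 - (32 * a + b))) = sl.elem (32 * a + b) := by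
  decide +kernel

theorem c2 : (List.range 10).all (fun a => sl.all fun m => !m.testBit a || m == root a ||
    (List.range 10).any fun e => (List.range 10).any fun f => ok a m e f) = true := by
  decide +kernel

theorem c3 : ∀ m ∈ sl, m < 2 ^ 10 := by decide +kernel

theorem base_iff (m : ℕ) : BM.R10.IsBase (mset 10 m) ↔ bs m = true := by
  have hl : ∀ x ∈ vl, x < 2 ^ 16 := by decide
  have h1 : BM.R10.r (mset 10 m) = rkm vl m := BM.r_ofBits hl m
  have h2 : (mset 10 m).card = (msel vl m).length := card_mset vl m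
  have h3 : BM.R10.r BM.R10.E = 5 := (BM.bt_rE hl).trans (by decide +kernel)
  rw [BM.isBase_iff, h1, h2, h3, and_iff_right (show mset 10 m ⊆ BM.R10.E from mset_subset 10 m)]
  simp only [bs, Bool.and_eq_true, beq_iff_eq]
  omega

theorem st_iff {m : ℕ} (h : m < 2 ^ 10) :
    BM.R10.IsBase (st m).1 ∧ BM.R10.IsBase (st m).2 ↔ m ∈ sl := by
  have := forall_lt_split (p := fun m => (bs m && bs (1023 - m)) = sl.elem m) 32 32 c1 m h
  rw [st, ← mset_compl h, base_iff, base_iff, ← Bool.and_eq_true, ← List.elem_iff, ← this]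
  rfl

theorem st2 {m : ℕ} (h : m ∈ sl) : St2 BM.R10.IsBase BM.R10.E (st m) :=
  ⟨((st_iff (c3 m h)).2 h).1, ((st_iff (c3 m h)).2 h).2, disjoint_sdiff,
    union_sdiff_of_subset (mset_subset 10 m)⟩

theorem exists_st {p : Pr} (h : St2 BM.R10.IsBase BM.R10.E p) : ∃ m ∈ sl, p = st m := by
  obtain ⟨m, h1, h2⟩ := exists_mset (n := 10) h.fst.subset
  have h3 : p = st m := by
    refine Prod.ext h2 ?_
    rw [st, ← h2, show range 10 = p.1 ∪ p.2 from h.cov.symm, union_sdiff_cancel_left h.disj]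
  exact ⟨m, (st_iff h1).1 (h3 ▸ ⟨h.fst, h.snd⟩), h3⟩

theorem mem_fl {m e f : ℕ} (he : e < 10) (hf : f < 10) (i : ℕ) :
    i ∈ mset 10 (fl m e f) ↔ i ∈ symmDiff (symmDiff (mset 10 m) {e}) {f} := by
  rw [fl, mset_symmDiff, mset_symmDiff, mset_pow he, mset_pow hf]

theorem fl_lt {m e f : ℕ} (h : m < 2 ^ 10) (he : e < 10) (hf : f < 10) : fl m e f < 2 ^ 10 :=
  Nat.xor_lt_two_pow (Nat.xor_lt_two_pow h (Nat.pow_lt_pow_right one_lt_two he))
    (Nat.pow_lt_pow_right one_lt_two hf)

theorem xch1 {m e f : ℕ} (he : e ∈ (st m).1) (hf : f ∈ (st m).2) :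
    xch (st m) e f = st (fl m e f) := by
  have h1 := (mem_mset.1 he).1
  have h2 := mem_range.1 (mem_sdiff.1 hf).1
  refine Prod.ext ?_ ?_ <;> ext i <;>
    simp only [xch, st, mem_fl h1 h2, mem_symmDiff, mem_insert, mem_erase, mem_sdiff,
      mem_singleton, mem_range] at he hf ⊢ <;> grind

theorem xch2 {m e f : ℕ} (he : e ∈ (st m).2) (hf : f ∈ (st m).1) :
    xch (st m).swap e f = (st (fl m e f)).swap := by
  have h1 := (mem_mset.1 hf).1
  have h2 := mem_range.1 (mem_sdiff.1 he).1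
  refine Prod.ext ?_ ?_ <;> ext i <;>
    simp only [xch, st, Prod.swap_prod_mk, mem_fl h2 h1, mem_symmDiff, mem_insert, mem_erase,
      mem_sdiff, mem_singleton, mem_range] at he hf ⊢ <;> grind

theorem step {a m e f : ℕ} (hm : m ∈ sl) (he : e < 10) (hf : f < 10) (h : ok a m e f = true) :
    US BM.R10.IsBase BM.R10.E a (st m) (st (fl m e f)) ∧ fl m e f ∈ sl ∧
      fl m e f ^^^ root a < m ^^^ root a ∧ (m.testBit a = true → a < 10 →
        (fl m e f).testBit a = true) := by
  simp only [ok, Bool.and_eq_true, bne_iff_ne, ne_eq, Nat.blt_eq, List.elem_iff, List.all_eq_true,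
    List.mem_range, Bool.or_eq_true, beq_iff_eq, Bool.not_eq_true', ← Bool.not_eq_true] at h
  obtain ⟨⟨⟨⟨⟨h1, h2⟩, h3⟩, h4⟩, h5⟩, h6⟩ := h
  have m1 : ∀ i, i ∈ (st m).1 ↔ i < 10 ∧ m.testBit i = true := fun i => mem_mset
  have m2 : ∀ i, i ∈ (st m).2 ↔ i < 10 ∧ m.testBit i = false := fun i => by
    simp only [st, mem_sdiff, mem_range, mem_mset]
    grind
  refine ⟨⟨st2 hm, st2 h5, ?_⟩, h5, h4, fun ha ha' => ?_⟩
  · by_cases hb : m.testBit e = true
    · have e1 := (m1 e).2 ⟨he, hb⟩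
      have f1 := (m2 f).2 ⟨hf, by grind⟩
      refine Or.inl ⟨e, e1, f, f1, h1, h2, (xch1 e1 f1).symm, fun g hg b1 b2 => ?_⟩
      rw [xch1 e1 hg] at b1 b2
      have g1 := (m2 g).1 hg
      have := (st_iff (fl_lt (c3 m hm) he g1.1)).1 ⟨b1, b2⟩
      have := h6 g g1.1
      grind
    · have e1 := (m2 e).2 ⟨he, by grind⟩
      have f1 := (m1 f).2 ⟨hf, by grind⟩
      refine Or.inr ⟨e, e1, f, f1, h1, h2, (xch2 e1 f1).symm, fun g hg b1 b2 => ?_⟩
      rw [xch2 e1 hg] at b1 b2
      have g1 := (m1 g).1 hg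
      have := (st_iff (fl_lt (c3 m hm) he g1.1)).1 ⟨b2, b1⟩
      have := h6 g g1.1
      grind
  · have := (mem_fl (m := m) he hf a).2 (by
      simp only [mem_symmDiff, mem_singleton, mem_mset]
      grind)
    exact (mem_mset.1 this).2

theorem to_root {a : ℕ} (ha : a < 10) (n : ℕ) : ∀ m ∈ sl, m ^^^ root a = n →
    m.testBit a = true → Relation.EqvGen (US BM.R10.IsBase BM.R10.E a) (st m) (st (root a)) := by
  induction n using Nat.strong_induction_on with
  | _ n ih =>
  intro m hm hn hb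
  have := c2
  simp only [List.all_eq_true, List.any_eq_true, List.mem_range, Bool.or_eq_true, beq_iff_eq,
    Bool.not_eq_true'] at this
  rcases this a ha m hm with (h | h) | ⟨e, he, f, hf, h⟩
  · rw [h] at hb
    exact absurd hb Bool.false_ne_true
  · rw [h]
    exact .refl _
  · obtain ⟨h1, h2, h3, h4⟩ := step hm he hf h
    exact .trans _ _ _ (.rel _ _ h1) (ih _ (hn ▸ h3) _ h2 rfl (h4 hb ha))

end AR

namespace BM

theorem ue_R10 {a : ℕ} (ha : a < 10) : UE R10.IsBase R10.E a := by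
  refine ue_of_fst (fun p q hp hq h1 h2 => ?_) (mem_range.2 ha)
  obtain ⟨m, a1, rfl⟩ := AR.exists_st hp
  obtain ⟨m', a2, rfl⟩ := AR.exists_st hq
  exact .trans _ _ _ (AR.to_root ha _ m a1 rfl (mem_mset.1 h1).2)
    (.symm _ _ (AR.to_root ha _ m' a2 rfl (mem_mset.1 h2).2))

theorem ParR10.ue {N : BM} {a : ℕ} (h : N.ParR10) (h3 : N.Conn3) (ha : a ∈ N.E) :
    UE N.IsBase N.E a := by
  obtain ⟨π, h1, h2⟩ := h
  have h4 : (range 10).card ≤ N.E.card := h1 ▸ card_image_le
  have h5 := h3.simple (by rw [card_range] at h4; omega)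
  have h6 : Set.InjOn π N.E := fun x hx y hy hxy => by
    by_contra hne
    have := (h5 {x, y} (insert_subset hx (singleton_subset_iff.2 hy)) card_le_two).2 _
      (h2 ▸ mn_pair (M := R10) hx hy hne hxy) Subset.rfl
    exact insert_ne_empty _ _ this
  rw [h2]
  exact ue_pull h6 h1 ha (ue_R10 (mem_range.1 (h1 ▸ mem_image_of_mem π ha)))

end BM

end Pool.Agent.P.MP_3f5ce9_co
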