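import Pool.Agent.P.MP_3f5ce9_co.W.SSide

/-!
Ports of cographic matroids.
-/

open Finset

namespace Pool.Agent.P.MP_3f5ce9_co

namespace BM

variable {M N : BM} {I X : Finset ℕ} {t : ℕ → Fin 3 → ℕ} {s : Fin 3 → ℕ} {H : Gr ℕ ℕ} {π z : ℕ → ℕ}

theorem scog_cyc (h : M.Cog H) {C : Finset ℕ} : M.cyc C ↔ ∃ W, C = H.cut M.E W := by
  rw [← cocyc_gm, ← show M.dual = gm H M.E from h, dual_dual]

theorem scog_min (hs : M.IsTri s) {D : Finset ℕ} (hD : M.cyc D) (h1 : D ⊆ tset s)
    (h2 : D.Nonempty) : D = tset s := by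
  refine eq_of_subset_of_card_le h1 ?_
  by_contra hc
  have := hs.card
  exact h2.ne_empty ((hs.indep h1 (by omega)).2 D hD Subset.rfl)

theorem scog_star (h : M.Cog H) (hl : ∀ e ∈ M.E, H.s e ≠ H.t e) (hs : M.IsTri s) {Y : Finset ℕ}
    (hY : tset s = H.cut M.E Y) (h0 : H.ind M.E Y = ∅) : ∃ v, H.star M.E v = tset s := by
  have h1 := Gr.mem_cut.1 (hY ▸ (show s 0 ∈ tset s by simp [tset]))
  obtain ⟨v, hv, hv'⟩ : ∃ v ∈ Y, H.Inc (s 0) v := by
    by_cases h2 : H.s (s 0) ∈ Y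
    · exact ⟨_, h2, Or.inl rfl⟩
    · exact ⟨_, by tauto, Or.inr rfl⟩
  refine ⟨v, scog_min hs ?_ (fun e he => ?_) ⟨_, Gr.mem_star.2 ⟨h1.1, hv'⟩⟩⟩
  · have := cocyc_star (G := H) (Es := M.E) (v := v) fun e he _ => hl e he
    rwa [← show M.dual = gm H M.E from h, dual_dual] at this
  · obtain ⟨a1, a2⟩ := Gr.mem_star.1 he
    have a3 : e ∉ H.ind M.E Y := h0 ▸ notMem_empty e
    rw [Gr.mem_ind] at a3
    rw [hY, Gr.mem_cut]
    rcases a2 with rfl | rfl <;> tauto

theorem scog_norm (h : M.Cog H) (hn : H.Norm X M.E) (hs : M.IsTri s) {Y : Finset ℕ} (hX : Y ⊆ X)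
    (hY : tset s = H.cut M.E Y) : H.Norm Y (H.ind M.E Y) := by
  classical
  have h1 := Gr.mem_cut.1 (hY ▸ (show s 0 ∈ tset s by simp [tset]))
  have h2 := hn.within _ h1.1
  refine ⟨fun e he => (Gr.mem_ind.1 he).2, ?_, fun u hu w hw => ?_⟩
  · by_cases h2 : H.s (s 0) ∈ Y
    · exact ⟨_, h2⟩
    · exact ⟨H.t (s 0), by tauto⟩
  let Z := Y.filter fun p => H.Conn (H.ind M.E Y) u p
  have mZ : ∀ p, p ∈ Z ↔ p ∈ Y ∧ H.Conn (H.ind M.E Y) u p := fun p => mem_filter
  have uZ : u ∈ Z := (mZ u).2 ⟨hu, Gr.Conn.refl _ _ _⟩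
  have a1 : H.cut M.E Z ⊆ tset s := fun e he => by
    obtain ⟨b1, b2⟩ := Gr.mem_cut.1 he
    rw [hY, Gr.mem_cut]
    refine ⟨b1, fun b3 => b2 ?_⟩
    rw [mZ, mZ]
    by_cases b4 : H.s e ∈ Y
    · have := H.closed_comp (H.ind M.E Y) u e (Gr.mem_ind.2 ⟨b1, b4, b3.1 b4⟩)
      exact and_congr b3 this
    · tauto
  have a2 : (H.cut M.E Z).Nonempty := by
    by_contra hc
    rw [not_nonempty_iff_eq_empty] at hc
    have cl : H.Closed M.E (Z : Set ℕ) := fun e he => by
      have : e ∉ H.cut M.E Z := hc ▸ notMem_empty e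
      rw [Gr.mem_cut] at this
      simpa [he] using this
    have b1 := (hn.conn u (hX hu) _ h2.1 _ cl).1 uZ
    have b2 := (hn.conn u (hX hu) _ h2.2 _ cl).1 uZ
    exact h1.2 (iff_of_true ((mZ _).1 b1).1 ((mZ _).1 b2).1)
  have a3 := scog_min hs ((scog_cyc h).2 ⟨Z, rfl⟩) a1 a2
  have cl : H.Closed M.E {p | p ∈ Y ∧ p ∉ Z} := fun e he => by
    have b1 : e ∈ H.cut M.E Z ↔ e ∈ H.cut M.E Y := by rw [a3, hY]
    have b2 : H.s e ∈ Z → H.s e ∈ Y := fun b => ((mZ _).1 b).1
    have b3 : H.t e ∈ Z → H.t e ∈ Y := fun b => ((mZ _).1 b).1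
    rw [Gr.mem_cut, Gr.mem_cut] at b1
    simp only [Set.mem_ofPred_eq]
    tauto
  have := hn.conn u (hX hu) w (hX hw) _ cl
  simp only [Set.mem_ofPred_eq] at this
  refine ((mZ w).1 ?_).2
  tauto

theorem scog_tel (key : ℕ → ℕ) (f : Finset ℕ → ZMod 2) (S : Finset ℕ) (hk : Set.InjOn key S) :
    ∑ x ∈ S, (f (S.filter fun y => key y < key x) + f (S.filter fun y => key y ≤ key x)) =
      f ∅ + f S := by
  induction S using Finset.induction_on_max_value key with
  | empty => simp [CharTwo.add_self_eq_zero]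
  | insert a S ha hm ih =>
    have hl : ∀ x ∈ S, key x < key a := fun x hx => lt_of_le_of_ne (hm x hx) fun e =>
      ha (hk (mem_insert_of_mem hx) (mem_insert_self _ _) e ▸ hx)
    have e1 : (insert a S).filter (fun y => key y < key a) = S := by
      rw [filter_insert, if_neg (lt_irrefl _), filter_true_of_mem hl]
    have e2 : (insert a S).filter (fun y => key y ≤ key a) = insert a S := by
      rw [filter_insert, if_pos le_rfl, filter_true_of_mem hm]
    rw [sum_insert ha, e1, e2, sum_congr rfl (g := fun x =>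
      f (S.filter fun y => key y < key x) + f (S.filter fun y => key y ≤ key x)) fun x hx => by
        rw [filter_insert, filter_insert, if_neg (hl x hx).not_gt, if_neg (hl x hx).not_ge],
      ih (hk.mono (by simp))]
    linear_combination CharTwo.add_self_eq_zero (f S)

/-- the vertex of the subdivided edge `g` after the elements of `S` -/
def scog_V (H : Gr ℕ ℕ) (π : ℕ → ℕ) (X : Finset ℕ) (g : ℕ) (S : Finset ℕ) : ℕ ⊕ ℕ × Finset ℕ :=
  if S = ∅ then .inl (H.s g) else if S = X.filter (fun y => π y = g) then .inl (H.t g)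
    else .inr (g, S)

theorem scog_aux (h : M.Cog H) (hπ : X.image π = M.E) (key : ℕ → ℕ)
    (hk : ∀ x ∈ X, ∀ y ∈ X, π x = π y → key x = key y → x = y) :
    ∃ H', (M.pull π X).Cog H' ∧ ∀ p, ∃ v, ∀ x, x ∈ H'.star X v ↔ x ∈ X ∧
      (((∀ y ∈ X, π y = π x → key x ≤ key y) ∧ H.s (π x) = p) ∨
        ((∀ y ∈ X, π y = π x → key y ≤ key x) ∧ H.t (π x) = p)) := by
  have hπ' : ∀ x ∈ X, π x ∈ M.E := fun x hx => hπ ▸ mem_image_of_mem π hx
  let c : ℕ → Finset ℕ := fun g => X.filter fun y => π y = g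
  let lo : ℕ → Finset ℕ := fun x => (c (π x)).filter fun y => key y < key x
  let hi : ℕ → Finset ℕ := fun x => (c (π x)).filter fun y => key y ≤ key x
  let en : ℕ ⊕ ℕ × Finset ℕ → ℕ := Encodable.encode
  have hen : Function.Injective en := Encodable.encode_injective
  have hc : ∀ g ∈ M.E, c g ≠ ∅ := fun g hg => by
    obtain ⟨x, hx, rfl⟩ := mem_image.1 (hπ ▸ hg)
    exact ne_empty_of_mem (mem_filter.2 ⟨hx, rfl⟩)
  have xc : ∀ x ∈ X, x ∈ c (π x) := fun x hx => mem_filter.2 ⟨hx, rfl⟩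
  have xl : ∀ x, x ∉ lo x := fun x hx => lt_irrefl _ (mem_filter.1 hx).2
  have xh : ∀ x ∈ X, hi x = insert x (lo x) := fun x hx => by
    ext y
    simp only [hi, lo, c, mem_filter, mem_insert]
    constructor
    · rintro ⟨⟨a1, a2⟩, a3⟩
      rcases a3.eq_or_lt with a4 | a4
      · exact Or.inl (hk y a1 x hx a2 a4)
      · exact Or.inr ⟨⟨a1, a2⟩, a4⟩
    · rintro (rfl | ⟨a1, a2⟩)
      · exact ⟨⟨hx, rfl⟩, le_rfl⟩
      · exact ⟨a1, a2.le⟩
  refine ⟨⟨fun x => en (scog_V H π X (π x) (lo x)), fun x => en (scog_V H π X (π x) (hi x))⟩,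
    ext_cyc rfl fun C => ⟨fun hC => ?_, fun hC => ⟨hC.1, fun K hK => ?_⟩⟩, fun p => ?_⟩
  · obtain ⟨D, hD, rfl⟩ := (cocyc_pull hπ').1 hC
    rw [show M.dual = gm H M.E from h, cyc_chi] at hD
    refine cyc_chi.2 ⟨filter_subset _ _, fun χ => ?_⟩
    rw [← sum_fiberwise_of_maps_to (g := π) (t := D) fun x hx => (mem_filter.1 hx).2,
      ← hD.2 fun v => χ (en (.inl v))]
    refine sum_congr rfl fun g hg => ?_
    have e1 : (X.filter fun x => π x ∈ D).filter (fun x => π x = g) = c g := by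
      ext x
      simp only [c, mem_filter]
      exact ⟨fun a => ⟨a.1.1, a.2⟩, fun a => ⟨⟨a.1, a.2 ▸ hg⟩, a.2⟩⟩
    have e2 := scog_tel key (fun S => χ (en (scog_V H π X g S))) (c g) fun x hx y hy e =>
      hk x (mem_filter.1 hx).1 y (mem_filter.1 hy).1
        ((mem_filter.1 hx).2.trans (mem_filter.1 hy).2.symm) e
    rw [e1]
    refine Eq.trans (sum_congr rfl fun x hx => ?_) (e2.trans ?_)
    · obtain rfl := (mem_filter.1 hx).2
      rfl
    · simp only [scog_V, if_pos, if_neg (hc g (hD.1 hg)), c]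
  · obtain ⟨W, hW⟩ := (scog_cyc h).1 hK.2
    let χ : ℕ → ZMod 2 := fun v => if v ∈ W then 1 else 0
    let χ' : ℕ ⊕ ℕ × Finset ℕ → ZMod 2 :=
      Sum.elim χ fun q => χ (H.s q.1) + ((K ∩ q.2).card : ZMod 2)
    have e1 : ∀ g ∈ M.E, ∀ S, χ' (scog_V H π X g S) = χ (H.s g) + ((K ∩ S).card : ZMod 2) := by
      intro g hg S
      unfold scog_V
      split_ifs with a1 a2
      · simp [χ', a1]
      · have b1 : g ∈ oddSum (fun x => {π x}) K ↔ g ∈ H.cut M.E W := by rw [← hW]
        have b2 : K.filter (fun x => g ∈ ({π x} : Finset ℕ)) = K ∩ S := by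
          ext x
          simp only [a2, mem_filter, mem_inter, mem_singleton]
          exact ⟨fun a => ⟨a.1, hK.1 a.1, a.2.symm⟩, fun a => ⟨a.1, a.2.2.symm⟩⟩
        rw [mem_oddSum, b2, Gr.mem_cut, and_iff_right hg, ← ZMod.natCast_eq_one_iff_odd] at b1
        change χ (H.t g) = _
        generalize ((K ∩ S).card : ZMod 2) = n at b1 ⊢
        simp only [χ]
        revert n
        by_cases b3 : H.s g ∈ W <;> by_cases b4 : H.t g ∈ W <;> simp only [b3, b4] <;> decide
      · rfl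
    have e2 := (cyc_chi.1 hC).2 (Function.extend en χ' 0)
    rw [← ZMod.natCast_eq_zero_iff_even, ← e2, inter_comm, ← filter_mem_eq_inter, card_filter,
      Nat.cast_sum]
    refine sum_congr rfl fun x hx => ?_
    have a1 := hC.1 hx
    simp only [hen.extend_apply, e1 _ (hπ' x a1), xh x a1]
    by_cases a2 : x ∈ K
    · rw [if_pos a2, inter_insert_of_mem a2,
        card_insert_of_notMem fun a => xl x (mem_inter.1 a).2]
      push_cast
      linear_combination -CharTwo.add_self_eq_zero (χ (H.s (π x)) + ((K ∩ lo x).card : ZMod 2))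
    · rw [if_neg a2, inter_insert_of_notMem a2, CharTwo.add_self_eq_zero, Nat.cast_zero]
  · refine ⟨en (.inl p), fun x => Gr.mem_star.trans (and_congr_right fun hx => or_congr ?_ ?_)⟩
    · have a1 : lo x ≠ X.filter fun y => π y = π x := fun e => xl x (e ▸ xc x hx)
      have a2 : lo x = ∅ ↔ ∀ y ∈ X, π y = π x → key x ≤ key y := by
        simp only [lo, c, filter_eq_empty_iff, mem_filter, not_lt, and_imp]
      rw [← a2]
      change en _ = en _ ↔ _
      rw [hen.eq_iff, scog_V, if_neg a1]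
      split_ifs with a3 <;> simp [a3]
    · have a1 : hi x ≠ ∅ := by rw [xh x hx]; exact insert_ne_empty _ _
      have a2 : hi x = X.filter (fun y => π y = π x) ↔ ∀ y ∈ X, π y = π x → key y ≤ key x := by
        simp only [hi, c, filter_eq_self, mem_filter, and_imp]
      rw [← a2]
      change en _ = en _ ↔ _
      rw [hen.eq_iff, scog_V, if_neg a1]
      split_ifs with a3 <;> simp [a3]

theorem Cog.loopless (h : M.Cog H) (h3 : M.Conn3) (h2 : 2 ≤ M.E.card) :
    ∀ e ∈ M.E, H.s e ≠ H.t e := by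
  intro e he hst
  have h1 := h3.dual.loopless h2 e he
  have h4 : (gm H M.E).cyc {e} := cyc_chi.2 ⟨singleton_subset_iff.2 he, fun χ => by
    rw [sum_singleton, hst, CharTwo.add_self_eq_zero]⟩
  rw [← show M.dual = gm H M.E from h, cyc_singleton_iff (M := M.dual) he] at h4
  omega

/-- a triangle of a three-connected bond matroid is a star or splits the matroid -/
theorem Cog.star_or_split (h : M.Cog H) (hn : H.Norm X M.E) (h3 : M.Conn3) (h4 : 4 ≤ M.E.card)
    (hs : M.IsTri s) : (∃ v, H.star M.E v = tset s) ∨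
      ∃ B1 B2, M.Tri s B1 B2 ∧ B1.Nonempty ∧ B2.Nonempty := by
  have hl := h.loopless h3 (by omega)
  obtain ⟨W, hW⟩ := (scog_cyc h).1 hs.cyc
  have h1 : tset s = H.cut M.E (X ∩ W) := by
    rw [hW]
    refine filter_congr fun e he => ?_
    have := hn.within e he
    simp only [mem_inter]
    tauto
  have h2 : tset s = H.cut M.E (X \ W) := by
    rw [hW]
    refine filter_congr fun e he => ?_
    have := hn.within e he
    simp only [mem_sdiff]
    tauto
  rcases (H.ind M.E (X ∩ W)).eq_empty_or_nonempty with a1 | a1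
  · exact Or.inl (scog_star h hl hs h1 a1)
  rcases (H.ind M.E (X \ W)).eq_empty_or_nonempty with a2 | a2
  · exact Or.inl (scog_star h hl hs h2 a2)
  have m : ∀ e, (e ∈ H.ind M.E (X ∩ W) ↔ e ∈ M.E ∧ H.s e ∈ W ∧ H.t e ∈ W) ∧
      (e ∈ H.ind M.E (X \ W) ↔ e ∈ M.E ∧ H.s e ∉ W ∧ H.t e ∉ W) ∧
      (e ∈ tset s ↔ e ∈ M.E ∧ ¬ (H.s e ∈ W ↔ H.t e ∈ W)) := fun e => by
    have := hn.within e
    rw [hW, Gr.mem_cut, Gr.mem_ind, Gr.mem_ind]
    simp only [mem_inter, mem_sdiff]
    tauto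
  have s1 : H.ind M.E (X ∩ W) ⊆ M.E := filter_subset _ _
  have s2 : H.ind M.E (X \ W) ⊆ M.E := filter_subset _ _
  have r0 := r_gm_conn Subset.rfl hn
  have r1 := r_gm_conn s1 (scog_norm h hn hs inter_subset_left h1)
  have r2 := r_gm_conn s2 (scog_norm h hn hs sdiff_subset h2)
  rw [← show M.dual = gm H M.E from h] at r0 r1 r2
  generalize H.ind M.E (X ∩ W) = B1 at *
  generalize H.ind M.E (X \ W) = B2 at *
  have g : M.E = B1 ∪ B2 ∪ tset s := by
    ext e
    have := m e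
    simp only [mem_union]
    tauto
  have d12 : Disjoint B1 B2 := disjoint_left.2 fun e => by have := m e; tauto
  have d1 : Disjoint B1 (tset s) := disjoint_left.2 fun e => by have := m e; tauto
  have d2 : Disjoint B2 (tset s) := disjoint_left.2 fun e => by have := m e; tauto
  have e1 : M.E \ B2 = B1 ∪ tset s := by
    ext e
    have := m e
    simp only [mem_union, mem_sdiff]
    tauto
  have e2 : M.E \ B1 = B2 ∪ tset s := by
    ext e
    have := m e
    simp only [mem_union, mem_sdiff]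
    tauto
  have c0 : M.E.card = B1.card + B2.card + 3 := by
    rw [g, card_union_of_disjoint (disjoint_union_left.2 ⟨d1, d2⟩), card_union_of_disjoint d12,
      hs.card]
  have c1 := card_inter_add_card_sdiff X W
  have q0 := M.r_dual_E
  have q1 := r_dual s1
  have q2 := r_dual s2
  rw [e2] at q1
  rw [e1] at q2
  exact Or.inr ⟨B1, B2, ⟨hs, g, d12, d1, d2, by omega⟩, a1, a2⟩

/-- parallel classes become subdivided edges, with the ports at the ends -/
theorem Cog.sub (h : M.Cog H) (hl : ∀ e ∈ M.E, H.s e ≠ H.t e) (hπ : X.image π = M.E)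
    (hp : (M.pull π X).Ports I t) (hz : Set.InjOn z I)
    (hs : ∀ i ∈ I, H.star M.E (z i) = (tset (t i)).image π) :
    ∃ H', (M.pull π X).Cog H' ∧ ∀ i ∈ I, ∃ v, H'.star X v = tset (t i) := by
  classical
  have hπ' : ∀ x ∈ X, π x ∈ M.E := fun x hx => hπ ▸ mem_image_of_mem π hx
  have sub : ∀ i ∈ I, tset (t i) ⊆ X := fun i hi => (hp.tri i hi).subset
  have inj : ∀ i ∈ I, ∀ x ∈ tset (t i), ∀ y ∈ tset (t i), π x = π y → x = y := by
    intro i hi x hx y hy e
    by_contra hne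
    have a1 : ({x, y} : Finset ℕ) ⊆ tset (t i) := insert_subset hx (singleton_subset_iff.2 hy)
    have a2 := ((hp.tri i hi).indep a1 card_le_two).r_eq
    rw [r_pull hπ' (a1.trans (sub i hi)), card_pair hne, image_insert, image_singleton, e,
      insert_eq_of_mem (mem_singleton_self _)] at a2
    have := M.r_le_card {π y}
    rw [card_singleton] at this
    omega
  let P : (ℕ → ℕ) → ℕ → Prop := fun f x => ∃ i ∈ I, x ∈ tset (t i) ∧ f (π x) = z i
  have uP : ∀ f x y, P f x → P f y → π x = π y → x = y := by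
    rintro f x y ⟨i, hi, a1, a2⟩ ⟨j, hj, b1, b2⟩ e
    obtain rfl : i = j := hz hi hj (by rw [← a2, ← b2, e])
    exact inj i hi x a1 y b1 e
  have nP : ∀ x, P H.t x → ¬ P H.s x := by
    rintro x ⟨i, hi, a1, a2⟩ ⟨j, hj, b1, b2⟩
    obtain rfl : i = j := by
      by_contra hne
      exact disjoint_left.1 (hp.disj i hi j hj hne) a1 b1
    exact hl _ (hπ' x (sub i hi a1)) (b2.trans a2.symm)
  let key : ℕ → ℕ := fun x => if P H.s x then 0 else if P H.t x then X.sup id + 2 else x + 1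
  have bd : ∀ x ∈ X, x ≤ X.sup id := fun x hx => le_sup (f := id) hx
  have k0 : ∀ x, P H.s x → key x = 0 := fun x hx => if_pos hx
  have k1 : ∀ x, P H.t x → key x = X.sup id + 2 := fun x hx => by
    simp only [key, if_neg (nP x hx), if_pos hx]
  have k2 : ∀ x ∈ X, key x ≤ X.sup id + 2 := fun x hx => by
    have := bd x hx
    simp only [key]
    split_ifs <;> omega
  have hk : ∀ x ∈ X, ∀ y ∈ X, π x = π y → key x = key y → x = y := by
    intro x hx y hy e1 e2
    have a1 := bd x hx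
    have a2 := bd y hy
    simp only [key] at e2
    split_ifs at e2 with b1 b2 b3 b4 b5 b6 b7 b8
    all_goals first | exact uP _ x y ‹_› ‹_› e1 | omega
  obtain ⟨H', h1, h2⟩ := scog_aux h hπ key hk
  refine ⟨H', h1, fun i hi => ?_⟩
  obtain ⟨v, hv⟩ := h2 (z i)
  refine ⟨v, Finset.ext fun x => (hv x).trans ⟨?_, fun hx => ⟨sub i hi hx, ?_⟩⟩⟩
  · rintro ⟨hx, a1⟩
    have a2 : π x ∈ H.star M.E (z i) := Gr.mem_star.2 ⟨hπ' x hx, a1.imp And.right And.right⟩
    obtain ⟨y, hy, e⟩ := mem_image.1 (hs i hi ▸ a2)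
    have yX := sub i hi hy
    rcases a1 with ⟨b1, b2⟩ | ⟨b1, b2⟩
    · have := b1 y yX e
      have b3 := k0 y ⟨i, hi, hy, e ▸ b2⟩
      exact hk y yX x hx e (by omega) ▸ hy
    · have := b1 y yX e
      have b3 := k1 y ⟨i, hi, hy, e ▸ b2⟩
      have b4 := k2 x hx
      exact hk y yX x hx e (by omega) ▸ hy
  · have a2 : π x ∈ H.star M.E (z i) := hs i hi ▸ mem_image_of_mem π hx
    rcases (Gr.mem_star.1 a2).2 with b | b
    · exact Or.inl ⟨fun y _ _ => by rw [k0 x ⟨i, hi, hx, b⟩]; exact Nat.zero_le _, b⟩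
    · exact Or.inr ⟨fun y hy _ => by rw [k1 x ⟨i, hi, hx, b⟩]; exact k2 y hy, b⟩

end BM

end Pool.Agent.P.MP_3f5ce9_co
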