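import Pool.Agent.P.MP_3f5ce9_co.W.SSide

/-!
The separation induced by an R12 minor.
-/

open Finset

namespace Pool.Agent.P.MP_3f5ce9_co

namespace BM

variable {N P : BM} {I A C L1 L2 : Finset ℕ} {t : ℕ → Fin 3 → ℕ} {s b : Fin 3 → ℕ} {f : ℕ → ℕ}

theorem s12_req {X Y : Finset ℕ} (h1 : X ⊆ P.cl Y) (h2 : Y ⊆ P.cl X) : P.r X = P.r Y := by
  rw [← r_union_of_subset_cl h2, union_comm, r_union_of_subset_cl h1]

theorem sr_match (h : P.TriS s L1 L2) (hC : C ⊆ L1) (hb : ∀ i, b i ∈ L1 \ C)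
    (h2 : ∀ i j, i ≠ j → P.r (C ∪ {b i, b j}) = P.r C + 2)
    (hc : ∀ i, b i ∈ P.cl (L2 ∪ C)) : P.r (C ∪ tset s) = P.r C + 2 ∧
      ∃ c : Fin 3 → ℕ, Function.Injective c ∧ ∀ k, c k ∈ L1 \ C ∧ s k ∈ P.cl (insert (c k) C) ∧
        c k ∈ P.cl (insert (s k) C) := by
  have hbL : ∀ i, b i ∈ L1 := fun i => (mem_sdiff.1 (hb i)).1
  have hbE : ∀ i, b i ∈ P.E := fun i => P.cl_subset _ (hc i)
  have a1 : ∀ i, P.r (insert (b i) C ∪ tset s) = P.r (C ∪ tset s) := fun i => by
    have e1 := h.toTri.r_union (X1 := C) (X2 := L2) (hC.trans subset_union_left) subset_union_left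
    have e2 := h.toTri.r_union (X1 := insert (b i) C) (X2 := L2)
      ((insert_subset (hbL i) hC).trans subset_union_left) subset_union_left
    have e3 : b i ∈ P.cl (C ∪ L2 ∪ tset s) :=
      P.cl_mono (by rw [union_comm]; exact subset_union_left) (hc i)
    have e4 := (mem_cl.1 e3).2
    rw [insert_union, insert_union] at e2
    omega
  have a2 : ∀ i, b i ∈ P.cl (C ∪ tset s) := fun i =>
    mem_cl.2 ⟨hbE i, by rw [← insert_union]; exact a1 i⟩
  have a3 : P.r (C ∪ tset s) = P.r C + 2 := by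
    have e1 := P.r_union_le C (tset s)
    have e2 := h.tri.rk
    have e3 := h2 0 1 (by decide)
    have e4 : P.r (C ∪ tset s ∪ {b 0, b 1}) = P.r (C ∪ tset s) :=
      r_union_of_subset_cl (insert_subset (a2 0) (singleton_subset_iff.2 (a2 1)))
    have e5 : P.r (C ∪ {b 0, b 1}) ≤ P.r (C ∪ tset s ∪ {b 0, b 1}) :=
      P.r_mono (union_subset_union subset_union_left Subset.rfl)
    omega
  have a4 : ∀ i, ∃ k, s k ∈ P.cl (insert (b i) C) := fun i => by
    obtain ⟨j, hj⟩ := exists_ne i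
    have e1 := h2 j i hj
    have e2 : C ∪ {b j, b i} = insert (b j) (insert (b i) C) := by
      ext x
      simp only [mem_union, mem_insert, mem_singleton]
      tauto
    have e3 := P.r_insert_le (b j) (insert (b i) C)
    have e4 := a1 i
    rw [e2] at e1
    exact h.tri.exists_mem_cl (by omega)
  choose σ hσ using a4
  have a5 : ∀ i, b i ∈ P.cl (insert (s (σ i)) C) := fun i =>
    cl_exch (hσ i) (fun hk => by have := tc_one h.tri hk; omega) (hbE i)
  have a6 : Function.Injective σ := fun i j e => by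
    by_contra hij
    have e1 := h2 i j hij
    have e2 : P.r (insert (s (σ j)) C ∪ {b i, b j}) = P.r (insert (s (σ j)) C) :=
      r_union_of_subset_cl (insert_subset (e ▸ a5 i) (singleton_subset_iff.2 (a5 j)))
    have e3 : P.r (C ∪ {b i, b j}) ≤ P.r (insert (s (σ j)) C ∪ {b i, b j}) :=
      P.r_mono (union_subset_union (subset_insert _ _) Subset.rfl)
    have e4 := P.r_insert_le (s (σ j)) C
    omega
  have a7 : Function.Injective b := fun i j e => by
    by_contra hij
    have e1 := h2 i j hij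
    have e2 := P.r_union_le_card C {b i, b j}
    rw [e, pair_eq_singleton] at e1 e2
    rw [card_singleton] at e2
    omega
  obtain ⟨τ, hτ⟩ := (Finite.surjective_of_injective a6).hasRightInverse
  refine ⟨a3, b ∘ τ, a7.comp hτ.injective, fun k => ⟨hb _, ?_, ?_⟩⟩
  · have := hσ (τ k)
    rwa [hτ] at this
  · have := a5 (τ k)
    rwa [hτ] at this

theorem TriS.plus_minor (h : P.TriS s L1 L2) (hC : C ⊆ L1) (hb : ∀ i, b i ∈ L1 \ C)
    (h2 : ∀ i j, i ≠ j → P.r (C ∪ {b i, b j}) = P.r C + 2)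
    (hc : ∀ i, b i ∈ P.cl (L2 ∪ C)) : (P.del (tset s)).HasMinor (P.res (L2 ∪ tset s)) := by
  obtain ⟨a3, c, hci, hc⟩ := sr_match h hC hb h2 hc
  have hE : (P.res (L2 ∪ tset s)).E = L2 ∪ tset s := h.toTri.symm.res_E
  have hD : (P.del (tset s)).E = L1 ∪ L2 := h.toTri.del_E
  have hL : ∀ x ∈ L2, x ∈ P.E := fun x hx => by
    rw [h.ground]
    exact mem_union_left _ (mem_union_right _ hx)
  have f1 : ∀ k, Function.extend s c id (s k) = c k := fun k => h.tri.inj.extend_apply _ _ _
  have f2 : ∀ x ∈ L2, Function.extend s c id x = x := fun x hx =>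
    Function.extend_apply' _ _ _ fun hk => disjoint_left.1 h.d2 hx (mem_tset.2 hk)
  generalize Function.extend s c id = g at f1 f2
  have hcase : ∀ x ∈ L2 ∪ tset s, (x ∈ L2 ∧ g x = x) ∨ ∃ k, x = s k ∧ g x = c k := fun x hx => by
    rcases mem_union.1 hx with hx | hx
    · exact Or.inl ⟨hx, f2 x hx⟩
    · obtain ⟨k, rfl⟩ := mem_tset.1 hx
      exact Or.inr ⟨k, rfl, f1 k⟩
  have hcL : ∀ k, c k ∈ L1 := fun k => (mem_sdiff.1 (hc k).1).1
  have hm : ∀ x ∈ L2 ∪ tset s, g x ∈ L1 ∪ L2 ∧ g x ∉ C := fun x hx => by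
    rcases hcase x hx with ⟨h1, h2⟩ | ⟨k, -, h2⟩
    · rw [h2]
      exact ⟨mem_union_right _ h1, fun hx' => disjoint_left.1 h.d12 (hC hx') h1⟩
    · rw [h2]
      exact ⟨mem_union_left _ (hcL k), (mem_sdiff.1 (hc k).1).2⟩
  have hT : Disjoint (L1 ∪ L2) (tset s) := disjoint_union_left.2 ⟨h.d1, h.d2⟩
  refine ⟨g, C, ?_, ?_, ?_, ?_⟩
  · rw [hE]
    intro x hx y hy e
    rcases hcase x hx with ⟨h1, h2⟩ | ⟨k, h1, h2⟩ <;>
      rcases hcase y hy with ⟨h3, h4⟩ | ⟨l, h3, h4⟩
    · rw [← h2, e, h4]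
    · exact absurd (by rw [← h4, ← e, h2]; exact h1) (disjoint_left.1 h.d12 (hcL l))
    · exact absurd (by rw [← h2, e, h4]; exact h3) (disjoint_left.1 h.d12 (hcL k))
    · rw [h1, h3, hci (h2.symm.trans (e.trans h4))]
  · rw [hD]
    exact hC.trans subset_union_left
  · rw [hE, hD]
    exact hm
  · rw [hE]
    intro X hX
    have e1 : X.image g ∪ C ⊆ L1 ∪ L2 :=
      union_subset (image_subset_iff.2 fun x hx => (hm x (hX hx)).1) (hC.trans subset_union_left)
    have hCE : C ⊆ P.E := fun x hx => by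
      rw [h.ground]
      exact mem_union_left _ (mem_union_left _ (hC hx))
    rw [P.r_res_of_subset hX, P.r_del_of_disjoint (h.d1.mono_left hC),
      P.r_del_of_disjoint (hT.mono_left e1),
      ← h.toTri.symm.r_skew hX (hC.trans subset_union_left) a3]
    refine s12_req (union_subset (fun x hx => ?_) fun x hx => ?_)
      (union_subset (image_subset_iff.2 fun x hx => ?_) fun x hx => ?_)
    · have hg : g x ∈ X.image g ∪ C := mem_union_left _ (mem_image_of_mem g hx)
      rcases hcase x (hX hx) with ⟨h1, h2⟩ | ⟨k, h1, h2⟩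
      · exact P.cl_mono (singleton_subset_iff.2 (h2 ▸ hg))
          (subset_cl (singleton_subset_iff.2 (hL x h1)) (mem_singleton_self x))
      · exact P.cl_mono (insert_subset (h2 ▸ hg) subset_union_right) (h1 ▸ (hc k).2.1)
    · exact P.cl_mono subset_union_right (subset_cl hCE hx)
    · have hg : x ∈ X ∪ C := mem_union_left _ hx
      rcases hcase x (hX hx) with ⟨h1, h2⟩ | ⟨k, h1, h2⟩
      · rw [h2]
        exact P.cl_mono (singleton_subset_iff.2 hg)
          (subset_cl (singleton_subset_iff.2 (hL x h1)) (mem_singleton_self x))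
      · rw [h2]
        exact P.cl_mono (insert_subset (h1 ▸ hg) subset_union_right) (hc k).2.2
    · exact P.cl_mono subset_union_right (subset_cl hCE hx)

theorem sr_side {R : BM} (hf : N.MinorAt R f C) (h : P.TriS s L1 L2) (hN : P.del (tset s) = N)
    (D W : Finset ℕ) (β : Fin 3 → ℕ) (hD : D ⊆ R.E) (hW : W ⊆ R.E) (hβ : ∀ i, β i ∈ R.E \ D)
    (h1 : ∀ x ∈ D, f x ∈ L1) (h2 : ∀ i, f (β i) ∈ L1) (h3 : ∀ x ∈ W, f x ∈ L2)
    (h4 : ∀ i j, i ≠ j → R.r (D ∪ {β i, β j}) = R.r D + 2)
    (h5 : ∀ i, R.r (insert (β i) (W ∪ D)) = R.r (W ∪ D)) :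
    N.HasMinor (P.res (L2 ∪ tset s)) := by
  have hE : N.E = L1 ∪ L2 := hN ▸ h.toTri.del_E
  have hT : Disjoint N.E (tset s) := hE ▸ disjoint_union_left.2 ⟨h.d1, h.d2⟩
  have hr : ∀ X ⊆ N.E, N.r X = P.r X := fun X hX =>
    hN ▸ P.r_del_of_disjoint (hT.mono_left hX)
  have hk : ∀ X ⊆ R.E, R.r X + P.r C = P.r (X.image f ∪ C) := fun X hX => by
    rw [← hr C hf.sub, ← hr _ (union_subset (image_subset_iff.2 fun x hx => (hf.maps x (hX hx)).1)
      hf.sub)]
    exact hf.rk X hX
  have hβE : ∀ i, β i ∈ R.E := fun i => (mem_sdiff.1 (hβ i)).1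
  rw [← hN]
  refine h.plus_minor (C := D.image f ∪ C ∩ L1) (b := fun i => f (β i))
    (union_subset (image_subset_iff.2 h1) inter_subset_right) (fun i => ?_) (fun i j hij => ?_)
    fun i => ?_
  · refine mem_sdiff.2 ⟨h2 i, fun hx => ?_⟩
    rcases mem_union.1 hx with hx | hx
    · obtain ⟨y, hy, e⟩ := mem_image.1 hx
      exact (mem_sdiff.1 (hβ i)).2 (hf.inj (hD hy) (hβE i) e ▸ hy)
    · exact (hf.maps _ (hβE i)).2 (mem_inter.1 hx).1
  · have e1 := P.r_dimin (X := D.image f ∪ C ∩ L1) (Y := D.image f ∪ C)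
      (union_subset_union Subset.rfl inter_subset_left) {f (β i), f (β j)}
    have e2 := hk D hD
    have e3 := hk (D ∪ {β i, β j})
      (union_subset hD (insert_subset (hβE i) (singleton_subset_iff.2 (hβE j))))
    have e4 := h4 i j hij
    have e5 := P.r_union_le_card (D.image f ∪ C ∩ L1) {f (β i), f (β j)}
    have e6 : ({f (β i), f (β j)} : Finset ℕ).card ≤ 2 := card_le_two
    rw [image_union, image_insert, image_singleton, union_right_comm] at e3
    omega
  · have e1 := hk (W ∪ D) (union_subset hW hD)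
    have e2 := hk (insert (β i) (W ∪ D)) (insert_subset (hβE i) (union_subset hW hD))
    have e3 := h5 i
    rw [image_insert, insert_union] at e2
    have e4 : f (β i) ∈ P.cl ((W ∪ D).image f ∪ C) := by
      refine mem_cl.2 ⟨?_, by omega⟩
      rw [h.ground]
      exact mem_union_left _ (mem_union_left _ (h2 i))
    refine P.cl_mono (union_subset (image_subset_iff.2 fun x hx => ?_) fun x hx => ?_) e4
    · rcases mem_union.1 hx with hx | hx
      · exact mem_union_left _ (h3 x hx)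
      · exact mem_union_right _ (mem_union_left _ (mem_image_of_mem f hx))
    · rcases mem_union.1 (hE ▸ hf.sub hx) with h6 | h6
      · exact mem_union_right _ (mem_union_right _ (mem_inter.2 ⟨hx, h6⟩))
      · exact mem_union_left _ h6

/-- the rank in `R12` by elimination -/
def srk (X : Finset ℕ) (n : ℕ) : Prop :=
  X = mset 12 (∑ i ∈ X, 2 ^ i) ∧
    rkm [9, 10, 12, 17, 18, 20, 32, 64, 96, 38, 69, 99] (∑ i ∈ X, 2 ^ i) = n

instance (X : Finset ℕ) (n : ℕ) : Decidable (srk X n) := inferInstanceAs (Decidable (_ ∧ _))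

theorem sr_rk {X : Finset ℕ} {n : ℕ} (h : srk X n) : R12.r X = n := by
  rw [← h.2, h.1, ← h.1]
  conv_lhs => rw [h.1]
  exact r_ofBits (l := [9, 10, 12, 17, 18, 20, 32, 64, 96, 38, 69, 99]) (by decide) _

theorem sr_lam {X : Finset ℕ} {m n : ℕ} (h : srk X m ∧ srk (range 12 \ X) n) :
    R12.lam X = m + n - 6 := by
  have e : R12.r (range 12) = 6 := sr_rk (by decide +kernel)
  change R12.r X + R12.r (range 12 \ X) - R12.r (range 12) = _
  rw [sr_rk h.1, sr_rk h.2, e]

theorem exists_sep_R12 (hr : N.Reg) (hp : N.Ports I t) (hf : N.MinorAt R12 f C) (hA : A ⊆ N.E)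
    (h1 : ∀ i < 6, f i ∈ A) (h2 : ∀ i < 12, 6 ≤ i → f i ∉ A) (hl : N.lam A ≤ 2) :
    ∃ A' ⊆ N.E, PClosed I t A' ∧ 6 ≤ A'.card ∧ 6 ≤ (N.E \ A').card ∧ N.lam A' = 2 ∧
      ∀ (P : BM) s, P.TriS s (N.E \ A') A' → P.del (tset s) = N → P.Reg := by
  have hE : R12.E = range 12 := rfl
  have hm : ∀ i < 12, f i ∈ N.E := fun i hi => (hf.maps i (mem_range.2 hi)).1
  have hi : ∀ i < 12, ∀ j < 12, f i = f j → i = j := fun i hi j hj e =>
    hf.inj (mem_coe.2 (mem_range.2 hi)) (mem_coe.2 (mem_range.2 hj)) e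
  obtain ⟨A', hA', hcl, c1, c2, -⟩ := hp.exists_pclosed hA
  have a1 : ∀ j < 12, 6 ≤ j → f j ∉ A' := fun j hj hj' hx => by
    have e1 := lam_insert_of_cl hA (c1 hx)
    have e2 := hf.lam_le (insert_subset (hm j hj) hA)
    have e3 : (R12.E.filter fun x => f x ∈ insert (f j) A) = insert j (range 6) := by
      ext x
      rw [hE, mem_filter, mem_range, mem_insert, mem_insert, mem_range]
      refine ⟨fun hx => hx.2.imp (hi x hx.1 j hj) fun hy => ?_, fun hx => ?_⟩
      · by_contra h6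
        exact h2 x hx.1 (by omega) hy
      · rcases hx with rfl | hx
        · exact ⟨hj, Or.inl rfl⟩
        · exact ⟨by omega, Or.inr (h1 x hx)⟩
    have e4 : ∀ j < 12, 6 ≤ j → srk (insert j (range 6)) 5 ∧
        srk (range 12 \ insert j (range 6)) 4 := by decide +kernel
    rw [e3, sr_lam (e4 j hj hj')] at e2
    omega
  have a2 : ∀ j < 6, f j ∈ A' := fun j hj => by
    by_contra hx
    have hj' : j < 12 := by omega
    have e1 := lam_insert_of_cl sdiff_subset (c2 (mem_sdiff.2 ⟨hm j hj', hx⟩))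
    have e2 := hf.lam_le (insert_subset (hm j hj') (sdiff_subset (t := A)))
    have e3 : (R12.E.filter fun x => f x ∈ insert (f j) (N.E \ A)) =
        insert j (range 12 \ range 6) := by
      ext x
      rw [hE, mem_filter, mem_range, mem_insert, mem_insert, mem_sdiff, mem_sdiff, mem_range,
        mem_range]
      refine ⟨fun hx => hx.2.imp (hi x hx.1 j hj') fun hy => ⟨hx.1, fun h6 => hy.2 (h1 x h6)⟩,
        fun hx => ?_⟩
      rcases hx with rfl | hx
      · exact ⟨hj', Or.inl rfl⟩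
      · exact ⟨hx.1, Or.inr ⟨hm x hx.1, h2 x hx.1 (by omega)⟩⟩
    have e4 : ∀ j < 6, srk (insert j (range 12 \ range 6)) 5 ∧
        srk (range 12 \ insert j (range 12 \ range 6)) 4 := by decide +kernel
    have e5 := lam_compl hA
    rw [e3, sr_lam (e4 j hj)] at e2
    omega
  have a3 : ∀ j < 12, 6 ≤ j → f j ∈ N.E \ A' := fun j hj hj' => mem_sdiff.2 ⟨hm j hj, a1 j hj hj'⟩
  refine ⟨A', hA', hcl, ?_, ?_, ?_, fun P s h hN => h.toTri.reg ?_ ?_⟩
  · refine le_trans (by simp) (card_le_card_of_injOn f (s := range 6) (fun x hx => ?_)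
      (hf.inj.mono (coe_subset.2 (by rw [hE]; decide))))
    exact a2 x (mem_range.1 hx)
  · refine le_trans (by decide) (card_le_card_of_injOn f (s := range 12 \ range 6) (fun x hx => ?_)
      (hf.inj.mono (coe_subset.2 sdiff_subset)))
    have hx' := mem_sdiff.1 (mem_coe.1 hx)
    exact a3 x (mem_range.1 hx'.1) (Nat.le_of_not_lt fun h6 => hx'.2 (mem_range.2 h6))
  · have e1 := N.r_mono c1
    have e2 := N.r_mono c2
    have e3 := N.lam_add A
    have e4 := N.lam_add A'
    have e5 := hf.lam_le hA'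
    have e6 : (R12.E.filter fun x => f x ∈ A') = range 6 := by
      ext x
      rw [hE, mem_filter, mem_range, mem_range]
      refine ⟨fun hx => ?_, fun hx => ⟨by omega, a2 x hx⟩⟩
      by_contra h6
      exact a1 x hx.1 (by omega) hx.2
    rw [e6, sr_lam (m := 4) (n := 4) (by decide +kernel)] at e5
    rw [r_cl] at e1 e2
    omega
  · refine HasMinor.reg (sr_side hf h.symm hN {0, 4} (range 12 \ range 6) ![1, 2, 5]
      (by rw [hE]; decide) sdiff_subset (by rw [hE]; decide) (fun x hx => a2 x ?_)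
      (fun i => a2 _ ?_) (fun x hx => ?_) (fun i j hij => ?_) fun i => ?_) hr
    · revert x
      decide
    · revert i
      decide
    · have hx' := mem_sdiff.1 hx
      exact a3 x (mem_range.1 hx'.1) (Nat.le_of_not_lt fun h6 => hx'.2 (mem_range.2 h6))
    · have e : ∀ i j : Fin 3, i ≠ j → srk ({0, 4} ∪ {![1, 2, 5] i, ![1, 2, 5] j}) 4 := by
        decide +kernel
      rw [sr_rk (e i j hij), sr_rk (n := 2) (by decide +kernel)]
    · have e : ∀ i : Fin 3, srk (insert (![1, 2, 5] i) (range 12 \ range 6 ∪ {0, 4})) 6 := by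
        decide +kernel
      rw [sr_rk (e i), sr_rk (n := 6) (by decide +kernel)]
  · refine HasMinor.reg (sr_side hf h hN {6, 7} (range 6) ![9, 10, 11]
      (by rw [hE]; decide) (by rw [hE]; decide) (by rw [hE]; decide) (fun x hx => a3 x ?_ ?_)
      (fun i => a3 _ ?_ ?_) (fun x hx => a2 x (mem_range.1 hx)) (fun i j hij => ?_) fun i => ?_) hr
    · revert x
      decide
    · revert x
      decide
    · revert i
      decide
    · revert i
      decide
    · have e : ∀ i j : Fin 3, i ≠ j → srk ({6, 7} ∪ {![9, 10, 11] i, ![9, 10, 11] j}) 4 := by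
        decide +kernel
      rw [sr_rk (e i j hij), sr_rk (n := 2) (by decide +kernel)]
    · have e : ∀ i : Fin 3, srk (insert (![9, 10, 11] i) (range 6 ∪ {6, 7})) 6 := by
        decide +kernel
      rw [sr_rk (e i), sr_rk (n := 6) (by decide +kernel)]

theorem not_isTri_R10 : ¬ R10.IsTri s := by
  intro h
  have e : ∀ x ∈ range 10, 5 ∈ (range 16).filter fun j =>
      ([35, 37, 41, 49, 38, 42, 50, 44, 52, 56].getD x 0).testBit j := by decide +kernel
  have h1 : 5 ∈ oddSum (fun i => (range 16).filter fun j =>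
      ([35, 37, 41, 49, 38, 42, 50, 44, 52, 56].getD i 0).testBit j) (tset s) := by
    rw [mem_oddSum, filter_true_of_mem fun x hx => e x (h.cyc.1 hx), h.card]
    decide
  rw [h.cyc.2] at h1
  exact notMem_empty _ h1

end BM

end Pool.Agent.P.MP_3f5ce9_co
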