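import Pool.Agent.P.MP_3f5ce9_co.W.RegL
import Pool.Agent.P.MP_3f5ce9_co.W.Bits
import Pool.Agent.P.MP_3f5ce9_co.W.SbD

/-!
The three-separation of `R12` is induced in every regular matroid with an `R12` minor.
-/

open Finset

namespace Pool.Agent.P.MP_3f5ce9_co

namespace BM

variable {M : BM}

theorem sb_disj {f : ℕ → ℕ} {C : Finset ℕ} (h : M.SbSt f C) :
    Disjoint ((mset 12 63).image f) ((mset 12 4032).image f) := disjoint_left.2 fun x h1 h2 => by
  obtain ⟨y, hy, rfl⟩ := mem_image.1 h1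
  obtain ⟨z, hz, e⟩ := mem_image.1 h2
  exact disjoint_left.1 (by decide : Disjoint (mset 12 63) (mset 12 4032)) hy
    (h.mn.inj (mset_subset 12 _ hz) (mset_subset 12 _ hy) e ▸ hz)

theorem sb_main (hr : M.Reg) (k : ℕ) : ∀ f C, M.SbSt f C → ∀ v,
    M.SbBlk C ((mset 12 63).image f) ((mset 12 4032).image f) k v →
      M.SbLow C ((mset 12 63).image f) (insert v ((mset 12 4032).image f)) := by
  induction k using Nat.strong_induction_on with
  | _ k ih =>
  intro f C hs v0 b0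
  by_contra n0
  have ih0 := fun j hj => ih j hj f C hs
  have L0 := hs.lv
  obtain ⟨hb, hl⟩ := hs.base
  have hd := sb_disj hs
  generalize (mset 12 63).image f = A at *
  generalize hB : (mset 12 4032).image f = B at *
  -- the shortening
  have short : ∀ {g C₀ c l a p j}, M.SbLv C A B g C₀ c l → p < l.length →
      sbSh sbTS l c a p = true → j < k → ∀ A'', (mset l.length a).image g = A'' → A ⊆ A'' →
      Disjoint A'' B → M.SbLow C A'' B → g p ∉ A'' → M.SbBlk C A B j (g p) →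
      (∀ i < j, ∀ w, M.SbBlk C A B i w → M.SbLow C A'' (insert w B) ∧ w ∉ A'') → False := by
    rintro g C₀ c l a p j L hp h1 hj _ rfl h2 h3 h4 h5 h6 h7
    obtain ⟨f', C', s1, s2, s3, s4, s5, s6⟩ := L.sh hs.rk hp h1
    have := ih j hj f' C' s1 (g p)
    rw [s2] at this
    exact s6 (this (sb_transfer (s2 ▸ s1.base.1) h2 s3 s4 s5 h3 h4 j h7 _ h5 h6))
  -- the first element
  obtain ⟨g1, C1, c1, l1, L1, T1, n1, -, e1⟩ := L0.ext (T := sbT1) (by decide) b0.mem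
    (fun i hi h12 => absurd hi (not_lt.2 h12)) (Bool.forall_bool.2 ⟨sb_chk0, sb_chk1⟩)
  change l1.length = 13 at n1
  change g1 12 = v0 at e1
  simp only [sbT1, Bool.or_eq_true, Bool.and_eq_true, ← L1.lowA (n1 ▸ by decide : 12 < _),
    ← L1.lowB (n1 ▸ by decide : 12 < _), e1] at T1
  obtain ⟨⟨a0, T2f⟩, T2t⟩ := T1.resolve_left fun h => h.elim n0 (L1.nr hr)
  rcases k with _ | k
  · exact b0.2 a0
  obtain ⟨m0, v1, n01, b1⟩ := b0
  have p0 : ∀ i < k, ∀ w, M.SbBlk C A B i w → M.SbLow C (insert v0 A) (insert w B) :=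
    fun i hi w hw => by_contra fun hc => n0 (ih0 (i + 1) (by omega) v0 ⟨m0, w, hc, hw⟩)
  have q0 : ∀ i ≤ k, ∀ w, M.SbBlk C A B i w → w ∉ insert v0 A := fun i hi w hw hc =>
    (mem_insert.1 hc).elim (fun e => n0 (e ▸ ih0 i (by omega) w hw)) hw.mem.2.1
  -- the second element
  obtain ⟨g2, C2, c2, l2, L2, T2, n2, e1', e2⟩ := L1.ext (T := sbT2) (by omega) b1.mem
    (fun i hi h12 e => q0 k le_rfl v1 b1 (by
      rw [← e, show i = 12 by omega, e1]; exact mem_insert_self _ _))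
    (Bool.forall_bool.2 ⟨T2f, T2t⟩)
  rw [n1] at n2 e2 e1'
  replace e1 := (e1' 12 (by decide)).trans e1
  simp only [sbT2, Bool.or_eq_true, Bool.and_eq_true, ← L2.lowA (n2 ▸ by decide : 13 < _),
    ← L2.lowAB (n2 ▸ by decide : 12 < _) (n2 ▸ by decide : 13 < _), e1, e2,
    (L2.lowB (n2 ▸ by decide : 13 < _)).1 (e2 ▸ ih0 k (by omega) v1 b1), Bool.not_true,
    Bool.false_eq_true, false_or, n01, L2.nr hr] at T2
  have d0 : Disjoint (insert v0 A) B := disjoint_insert_left.2 ⟨m0.2.2, hd⟩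
  obtain ⟨⟨a1, T3f⟩, T3t⟩ := T2.resolve_left fun h => short L2 (n2 ▸ by decide) h
    (Nat.lt_succ_self k) (insert v0 A)
    (by rw [sb_ins _ (n2 ▸ by decide), image_insert, e1, ← L2.hA]) (subset_insert _ _) d0 a0
    (e2 ▸ q0 k le_rfl v1 b1) (e2 ▸ b1) fun i hi w hw => ⟨p0 i hi w hw, q0 i hi.le w hw⟩
  rcases k with _ | k
  · exact b1.2 a1
  obtain ⟨m1, v2, n12, b2⟩ := b1
  have p1 : ∀ i < k, ∀ w, M.SbBlk C A B i w → M.SbLow C (insert v1 A) (insert w B) :=
    fun i hi w hw => by_contra fun hc => n01 (p0 (i + 1) (by omega) v1 ⟨m1, w, hc, hw⟩)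
  have q1 : ∀ i ≤ k, ∀ w, M.SbBlk C A B i w → w ∉ insert v1 (insert v0 A) := fun i hi w hw hc =>
    (mem_insert.1 hc).elim (fun e => n01 (e ▸ p0 i (by omega) w hw)) (q0 i (by omega) w hw)
  have u : ∀ Q, B ⊆ Q → M.SbLow C (insert v1 A) Q → M.SbLow C (insert v0 A) Q →
      M.SbLow C (insert v1 (insert v0 A)) Q := fun Q h1 h2 h3 =>
    (SbLow.union hb h2 h3 (subset_insert _ _) (subset_insert _ _) h1).mono
      (insert_subset (mem_union_left _ (mem_insert_self _ _)) subset_union_right) Subset.rfl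
  -- the third element
  obtain ⟨g3, C3, c3, l3, L3, T3, n3, e2', e3⟩ := L2.ext (T := sbT3) (by omega) b2.mem
    (fun i hi h12 e => q1 k le_rfl v2 b2 (by
      rw [← e]
      rcases (by omega : i = 12 ∨ i = 13) with rfl | rfl
      · exact e1 ▸ mem_insert_of_mem (mem_insert_self _ _)
      · exact e2 ▸ mem_insert_self _ _))
    (Bool.forall_bool.2 ⟨T3f, T3t⟩)
  rw [n2] at n3 e3 e2'
  replace e1 := (e2' 12 (by decide)).trans e1
  replace e2 := (e2' 13 (by decide)).trans e2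
  simp only [sbT3, Bool.or_eq_true,
    ← L3.lowAB (n3 ▸ by decide : 13 < _) (n3 ▸ by decide : 14 < _), e2, e3,
    (L3.lowB (n3 ▸ by decide : 14 < _)).1 (e3 ▸ ih0 k (by omega) v2 b2), Bool.not_true,
    Bool.false_eq_true, false_or, n12, L3.nr hr] at T3
  exact short L3 (n3 ▸ by decide) T3 (by omega : k < _) (insert v1 (insert v0 A))
    (by rw [sb_ins _ (n3 ▸ by decide), sb_ins _ (n3 ▸ by decide), image_insert, image_insert, e1,
      e2, ← L3.hA]) ((subset_insert _ _).trans (subset_insert _ _))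
    (disjoint_insert_left.2 ⟨m1.2.2, d0⟩) (u B Subset.rfl a1 a0) (e3 ▸ q1 k le_rfl v2 b2) (e3 ▸ b2)
    fun i hi w hw => ⟨u _ (subset_insert _ _) (p1 i hi w hw) (p0 i (by omega) w hw),
      q1 i hi.le w hw⟩

theorem ind12 (hr : M.Reg) (h3 : M.Conn3) (h : M.HasMinor R12) :
    ∃ f C A, M.MinorAt R12 f C ∧ A ⊆ M.E ∧ (∀ i < 6, f i ∈ A) ∧
      (∀ i < 12, 6 ≤ i → f i ∉ A) ∧ M.lam A ≤ 2 := by
  obtain ⟨f, C0, h0⟩ := h
  obtain ⟨C, h1, h2, h4⟩ := h0.exists_indep
  have h5 := h1.rk _ Subset.rfl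
  have h6 : R12.r R12.E = 6 := (bt_rE (by decide)).trans (by decide)
  have hs : M.SbSt f C := ⟨h1, h2.r_eq, by rw [← h4, ← h5, h6, h2.r_eq, add_comm]⟩
  have h7 : ∀ m, (mset 12 m).image f ⊆ M.E := fun m => image_subset_iff.2 fun x hx =>
    (h1.maps x (mset_subset _ _ hx)).1
  obtain ⟨X, x1, x2, x3, x4⟩ := sb_induced hs.base.1 hs.base.2 (h7 _) (h7 _) h1.sub (sb_disj hs)
    hs.rk fun k => sb_main hr k f C hs
  exact ⟨f, C, X, h1, x1, fun i hi => x2 (mem_image_of_mem f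
    ((by decide : ∀ i < 6, i ∈ mset 12 63) i hi)), fun i hi h6 hx => disjoint_left.1 x3 hx
      (mem_image_of_mem f ((by decide : ∀ i < 12, 6 ≤ i → i ∈ mset 12 4032) i hi h6)), x4⟩

end BM

end Pool.Agent.P.MP_3f5ce9_co
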