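import Pool.Agent.P.MP_3f5ce9_co.W.SeyA
import Pool.Agent.P.MP_3f5ce9_co.W.SeyB

/-!
Seymour's decomposition theorem, three-connected form.
-/

open Finset

namespace Pool.Agent.P.MP_3f5ce9_co

namespace BM

variable {M : BM}

theorem seymour (hr : M.Reg) (h3 : M.Conn3) :
    M.Graphic ∨ M.Cographic ∨ M.Iso R10 ∨
      ∃ f C A, M.MinorAt R12 f C ∧ A ⊆ M.E ∧ (∀ i < 6, f i ∈ A) ∧
        (∀ i < 12, 6 ≤ i → f i ∉ A) ∧ M.lam A ≤ 2 := by
  have key : M.HasMinor K33 → M.Graphic ∨ M.Cographic ∨ M.Iso R10 ∨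
      ∃ f C A, M.MinorAt R12 f C ∧ A ⊆ M.E ∧ (∀ i < 6, f i ∈ A) ∧
        (∀ i < 12, 6 ≤ i → f i ∉ A) ∧ M.lam A ≤ 2 := fun h => by
    rcases key33 hr h3 h with h | h | h
    · exact Or.inl h
    · exact Or.inr (Or.inr (Or.inl (spl10 hr h3 h)))
    · exact Or.inr (Or.inr (Or.inr (ind12 hr h3 h)))
  rcases tutte3 hr.dual h3.dual with h | h | h
  · exact Or.inr (Or.inl h)
  · exact key (by simpa using h.dual)
  · rcases spl5 hr h3 (by simpa using h.dual) with h | h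
    · exact Or.inl (h.symm.hasMinor.graphic (graphic_gm _ _))
    · exact key h

end BM

end Pool.Agent.P.MP_3f5ce9_co
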