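import Pool.Agent.P.MP_3f5ce9_co.W.SRec
import Pool.Agent.P.MP_3f5ce9_co.W.SR12
import Pool.Agent.P.MP_3f5ce9_co.W.SCog
import Pool.Agent.P.MP_3f5ce9_co.W.Sey

/-!
The structure theorem.
-/

open Finset

namespace Pool.Agent.P.MP_3f5ce9_co

namespace BM

variable {N : BM} {I : Finset ℕ} {t : ℕ → Fin 3 → ℕ} {a : ℕ}

section

variable {M : BM} {X A B1 B2 : Finset ℕ} {s : Fin 3 → ℕ} {π : ℕ → ℕ} {b i : ℕ}

theorem st_img (π : ℕ → ℕ) (s : Fin 3 → ℕ) : tset (π ∘ s) = (tset s).image π := by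
  simp [tset]

theorem st_tri (hπ : ∀ x ∈ X, π x ∈ M.E) (h : (M.pull π X).IsTri s) : M.IsTri (π ∘ s) := by
  have h1 : Set.InjOn π (tset s) := fun x hx y hy => ((indep_pull hπ).1 (h.indep (X := {x, y})
    (insert_subset hx (singleton_subset_iff.2 hy)) card_le_two)).2.1 (by simp) (by simp)
  refine ⟨?_, ?_, ?_⟩ <;> rw [st_img]
  · exact mn_inj h1 ▸ h.cyc.2
  · rw [card_image_of_injOn h1, h.card]
  · rw [← r_pull hπ h.subset, h.rk]

theorem st_mk (h : M.IsTri s) (hA : A ⊆ M.E) (hd : Disjoint A (tset s))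
    (hr : M.r (A ∪ tset s) + M.r (M.E \ A) = M.r M.E + 2) : M.Tri s A (M.E \ (A ∪ tset s)) := by
  have h1 := h.subset
  refine ⟨h, ?_, disjoint_sdiff.mono_left subset_union_left, hd,
    sdiff_disjoint.mono_right subset_union_right, ?_⟩
  · rw [union_right_comm, union_sdiff_of_subset (union_subset hA h1)]
  · rwa [show M.E \ (A ∪ tset s) ∪ tset s = M.E \ A from ?_]
    ext x
    have := @h1 x
    have := @disjoint_left.1 hd x
    simp only [mem_union, mem_sdiff]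
    tauto

theorem st_simple (hs : M.Simple) (h : M.IsTri s) (hb : b ∈ M.E) (hb' : b ∉ tset s) :
    M.r (insert b (tset s)) ≠ 2 := fun k => by
  have h1 := (hs {b} (singleton_subset_iff.2 hb) (by simp)).r_eq
  rw [card_singleton] at h1
  obtain ⟨j, hj⟩ := h.exists_mem_cl (X := {b}) (by rw [← insert_eq, k, h1])
  have h2 := (hs {s j, b} (insert_subset (mem_cl.1 hj).1 (singleton_subset_iff.2 hb))
    card_le_two).r_eq
  rw [card_pair fun e : s j = b => hb' (e ▸ ta_mem s j), (mem_cl.1 hj).2, h1] at h2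
  omega

theorem st_fin (ih : IHS N.E.card) (hr : N.Reg) (hv : N.VC) (hl : N.Loopless)
    (hp : N.Ports I t) (ha : a ∈ N.E) (hi : i ∈ I) (h : N.Tri (t i) B1 B2)
    (h1 : (B1 \ N.cl (tset (t i))).Nonempty ∨ ∃ j ∈ I, tset (t j) ⊆ B1)
    (h2 : (B2 \ N.cl (tset (t i))).Nonempty) (Z : Finset ℕ) : N.Struct I t a Z := by
  obtain ⟨C1, C2, k, c1, c2, k1, k2, -, -, k3⟩ := h.pclose hp hi
  refine struct_split ih hr hv hl hp ha hi k c1 c2 ?_ (k.symm.two_le_r hv hl Subset.rfl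
    sdiff_subset (h2.mono (subset_sdiff.2 ⟨k2, sdiff_disjoint⟩))) Z
  rcases h1 with h1 | ⟨j, hj, h1⟩
  · exact k.two_le_r hv hl Subset.rfl sdiff_subset (h1.mono (subset_sdiff.2 ⟨k1, sdiff_disjoint⟩))
  · exact (hp.tri j hj).rk.ge.trans (N.r_mono (k3 j hj h1))

end

theorem struct_cog (ih : IHS N.E.card) (hr : N.Reg) (hv : N.VC) (hl : N.Loopless)
    (hp : N.Ports I t) (ha : a ∈ N.E) {X0 : Finset ℕ} {π : ℕ → ℕ} (h0 : X0 ⊆ N.E)
    (h1 : ∀ x ∈ N.E, π x ∈ X0) (h2 : ∀ x ∈ X0, π x = x) (hs : (N.res X0).Simple)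
    (h : N = (N.res X0).pull π N.E) (hc : (N.res X0).Cographic) (Z : Finset ℕ) :
    N.Struct I t a Z := by
  have h3 := hv.conn3_si h0 h1 h2 hs h
  have hE : (N.res X0).E = X0 := inter_eq_right.2 h0
  have hS := hr.res X0
  generalize N.res X0 = S at hs h hc h3 hE hS
  subst hE
  have hk : ∀ Y ⊆ N.E, N.r Y = S.r (Y.image π) := fun Y hY => by
    rw [← r_pull h1 hY, ← h]
  have hπ : N.E.image π = S.E := Subset.antisymm (image_subset_iff.2 h1)
    fun x hx => mem_image.2 ⟨x, h0 hx, h2 x hx⟩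
  by_cases h8 : S.E.card ≤ 8
  · refine Or.inl (Or.inl ?_)
    rw [h]
    exact (small_graphic hS h3.vc (fun e he => (hs {e} (singleton_subset_iff.2 he)
      (by simp)).r_eq) h8).pull h1
  obtain ⟨H, X, hn, hH⟩ := Graphic.exists_norm (cographic_iff.1 hc)
  have tri : ∀ i ∈ I, S.IsTri (π ∘ t i) := fun i hi => st_tri h1 (h ▸ hp.tri i hi)
  have out : ∀ i ∈ I, ∀ b ∈ S.E, b ∉ tset (π ∘ t i) → b ∉ N.cl (tset (t i)) := by
    intro i hi b hb hb' k
    refine st_simple hs (tri i hi) hb hb' ?_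
    rw [st_img, ← h2 b hb, ← image_insert, ← hk _ (insert_subset (h0 hb) (hp.tri i hi).subset),
      (mem_cl.1 k).2, (hp.tri i hi).rk]
  by_cases c1 : ∃ i ∈ I, ∃ B1 B2, S.Tri (π ∘ t i) B1 B2 ∧ B1.Nonempty ∧ B2.Nonempty
  · obtain ⟨i, hi, B1, B2, k, ⟨b1, m1⟩, b2, m2⟩ := c1
    have s1 : B1 ⊆ S.E := k.ground ▸ subset_union_left.trans subset_union_left
    have s2 : B2 ⊆ S.E := k.ground ▸ subset_union_right.trans subset_union_left
    have e1 : (N.E.filter fun x => π x ∈ B1).image π = B1 := by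
      rw [← filter_image (p := fun y => y ∈ B1), hπ, filter_mem_eq_inter, inter_eq_right.2 s1]
    have e2 : (N.E \ N.E.filter fun x => π x ∈ B1).image π = B2 ∪ tset (π ∘ t i) := by
      rw [← filter_not, ← filter_image (p := fun y => y ∉ B1), hπ, ← sdiff_eq_filter, k.ground,
        union_assoc, union_sdiff_cancel_left (disjoint_union_right.2 ⟨k.d12, k.d1⟩)]
    have o1 := out i hi b1 (s1 m1) (disjoint_left.1 k.d1 m1)
    have o2 := out i hi b2 (s2 m2) (disjoint_left.1 k.d2 m2)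
    refine st_fin ih hr hv hl hp ha hi (st_mk (A := N.E.filter fun x => π x ∈ B1) (hp.tri i hi)
      (filter_subset _ _) (disjoint_left.2 fun x hx k' => disjoint_left.1 k.d1 (mem_filter.1 hx).2
        (st_img π _ ▸ mem_image_of_mem π k')) ?_) (Or.inl ⟨b1, mem_sdiff.2 ⟨mem_filter.2
        ⟨h0 (s1 m1), (h2 b1 (s1 m1)).symm ▸ m1⟩, o1⟩⟩) ⟨b2, mem_sdiff.2 ⟨mem_sdiff.2
        ⟨h0 (s2 m2), fun k' => ?_⟩, o2⟩⟩ Z
    · rw [hk _ (union_subset (filter_subset _ _) (hp.tri i hi).subset), hk _ sdiff_subset,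
        hk _ Subset.rfl, image_union, e1, e2, hπ, ← st_img, k.rk]
    · rcases mem_union.1 k' with k' | k'
      · exact disjoint_left.1 k.d12 (h2 b2 (s2 m2) ▸ (mem_filter.1 k').2) m2
      · exact o2 (subset_cl (hp.tri i hi).subset k')
  have c2 : ∀ i, ∃ v, i ∈ I → H.star S.E v = (tset (t i)).image π := fun i => by
    by_cases hi : i ∈ I
    · obtain ⟨v, k⟩ := (Cog.star_or_split hH hn h3 (by omega) (tri i hi)).resolve_right
        fun k => c1 ⟨i, hi, k⟩
      exact ⟨v, fun _ => st_img π _ ▸ k⟩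
    · exact ⟨0, fun k => absurd k hi⟩
  choose z hz using c2
  by_cases c3 : Set.InjOn z I
  · obtain ⟨H', k1, k2⟩ := Cog.sub hH (Cog.loopless hH h3 (by omega)) hπ (h ▸ hp) c3 hz
    exact Or.inl (Or.inr ⟨H', h ▸ k1, k2⟩)
  simp only [Set.InjOn, not_forall, mem_coe] at c3
  obtain ⟨i, hi, j, hj, e, hij⟩ := c3
  have ti := hp.tri i hi
  have k1 : tset (t j) ⊆ N.cl (tset (t i)) := subset_cl_of_r (hp.tri j hj).subset (by
    rw [hk _ (union_subset ti.subset (hp.tri j hj).subset), hk _ ti.subset, image_union, ← hz j hj,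
      ← e, hz i hi, union_self])
  have k2 := subset_cl ti.subset
  obtain ⟨b, b1, b2⟩ := exists_mem_notMem_of_card_lt_card (s := tset (π ∘ t i)) (t := S.E)
    (by rw [(tri i hi).card]; omega)
  refine st_fin ih hr hv hl hp ha hi (st_mk (A := N.cl (tset (t i)) \ tset (t i)) ti
    (sdiff_subset.trans (N.cl_subset _)) sdiff_disjoint ?_)
    (Or.inr ⟨j, hj, subset_sdiff.2 ⟨k1, (hp.disj i hi j hj hij).symm⟩⟩)
    ⟨b, mem_sdiff.2 ⟨mem_sdiff.2 ⟨h0 b1, ?_⟩, out i hi b b1 b2⟩⟩ Z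
  · have k3 := r_union_of_subset_cl (M := N) (X := N.E \ (N.cl (tset (t i)) \ tset (t i)))
      (Y := N.cl (tset (t i)) \ tset (t i)) (sdiff_subset.trans (N.cl_mono
        (subset_sdiff.2 ⟨ti.subset, disjoint_sdiff⟩)))
    rw [sdiff_union_of_subset (sdiff_subset.trans (N.cl_subset _))] at k3
    rw [sdiff_union_of_subset k2, r_cl, ti.rk, k3, add_comm]
  · rw [sdiff_union_of_subset k2]
    exact out i hi b b1 b2

theorem st_step (ih : IHS N.E.card) (hr : N.Reg) (hv : N.VC) (hl : N.Loopless) (hp : N.Ports I t)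
    (ha : a ∈ N.E) (Z : Finset ℕ) : N.Struct I t a Z := by
  obtain ⟨X0, π, h0, h1, h2, hs, h⟩ := hl.exists_si
  have hE : (N.res X0).E = X0 := inter_eq_right.2 h0
  have h1' : ∀ x ∈ N.E, π x ∈ (N.res X0).E := hE.symm ▸ h1
  have hπ : N.E.image π = (N.res X0).E := Subset.antisymm (image_subset_iff.2 h1')
    fun x hx => mem_image.2 ⟨x, (mem_inter.1 hx).1, h2 x (mem_inter.1 hx).2⟩
  rcases seymour (hr.res X0) (hv.conn3_si h0 h1 h2 hs h) with k | k | k | ⟨f, C, A, k, a1, a2, a3, a4⟩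
  · exact Or.inl (Or.inl (h ▸ k.pull h1'))
  · exact struct_cog ih hr hv hl hp ha h0 h1 h2 hs h k Z
  · obtain ⟨f, -, f2, f3⟩ := iso_iff_pull.1 k.symm
    have e1 : N = R10.pull (f ∘ π) N.E := by rw [← pull_pull _ h1', ← f3, ← h]
    have e2 : N.E.image (f ∘ π) = range 10 := by
      rw [← image_image, hπ]
      exact f2
    refine Or.inr (Or.inl ⟨eq_empty_of_forall_notMem fun i hi => not_isTri_R10 (st_tri
      (fun x hx => ?_) (e1 ▸ hp.tri i hi)), _, e2, e1⟩)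
    exact (show (f ∘ π) x ∈ range 10 from e2 ▸ mem_image_of_mem _ hx)
  have hk : ∀ Y ⊆ N.E, N.r Y = (N.res X0).r (Y.image π) := fun Y hY => by
    rw [← r_pull h1' hY, ← h]
  have hf : ∀ i < 12, f i ∈ N.E ∧ π (f i) = f i := fun i hi =>
    have := mem_inter.1 (k.maps i (mem_range.2 hi)).1
    ⟨this.1, h2 _ this.2⟩
  obtain ⟨A', b1, b2, b3, b4, b5, b6⟩ := exists_sep_R12 (A := N.E.filter fun x => π x ∈ A) hr hp
    k.of_res (filter_subset _ _) (fun i hi => mem_filter.2 ⟨(hf i (by omega)).1,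
      (hf i (by omega)).2.symm ▸ a2 i hi⟩)
    (fun i hi hi' c => a3 i hi hi' ((hf i hi).2 ▸ (mem_filter.1 c).2)) (by
      rw [lam, hk _ (filter_subset _ _), hk _ sdiff_subset, hk _ Subset.rfl, ← filter_not,
        ← filter_image (p := fun y => y ∈ A), ← filter_image (p := fun y => y ∉ A), hπ,
        ← sdiff_eq_filter, filter_mem_eq_inter, inter_eq_right.2 a1]
      exact a4)
  by_cases c : a ∈ A'
  · obtain ⟨P, s, p1, p2, p3⟩ := exists_plus sdiff_subset ((lam_compl b1).trans b5) Z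
    refine struct_rec ih hv hl hp p1 p2 p3 (b6 P s (by simpa only [du_ss b1] using p1.symm) p2) sdiff_subset
      (fun k => (mem_sdiff.1 k).2 c) (fun i hi => (b2 i hi).symm.imp
        (fun k => subset_sdiff.2 ⟨(hp.tri i hi).subset, k⟩) disjoint_sdiff.mono_left)
      (Or.inl (by omega)) (by rw [du_ss b1]; omega)
  · obtain ⟨P, s, p1, p2, p3⟩ := exists_plus b1 b5 Z
    exact struct_rec ih hv hl hp p1 p2 p3 (b6 P s p1 p2) b1 c b2 (Or.inl (by omega)) (by omega)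

theorem struct (hr : N.Reg) (hv : N.VC) (hl : N.Loopless) (hp : N.Ports I t) (ha : a ∈ N.E)
    (Z : Finset ℕ) : N.Struct I t a Z := by
  have key : ∀ n, IHS n := fun n => by
    induction n with
    | zero => exact fun _ _ _ _ _ h => absurd h (Nat.not_lt_zero _)
    | succ n ih =>
      exact fun N I t a Z h hr hv hl hp ha => st_step
        (fun N' I' t' a' Z' h' => ih N' I' t' a' Z' (by omega)) hr hv hl hp ha Z
  exact st_step (key _) hr hv hl hp ha Z

end BM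

end Pool.Agent.P.MP_3f5ce9_co
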