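import Pool.Agent.P.MP_3f5ce9_co.W.ARed
import Pool.Agent.P.MP_3f5ce9_co.W.ALeaf
import Pool.Agent.P.MP_3f5ce9_co.W.AGraph
import Pool.Agent.P.MP_3f5ce9_co.W.AAttB
import Pool.Agent.P.MP_3f5ce9_co.W.AR10
import Pool.Agent.P.MP_3f5ce9_co.W.Struct
import Pool.Agent.P.MP_3f5ce9_co.W.APort

/-!
The theorem on pairs of bases.
-/

open Finset

namespace Pool.Agent.P.MP_3f5ce9_co

namespace BM

variable {N : BM} {I : Finset ℕ} {t : ℕ → Fin 3 → ℕ} {Q : ℕ → Finset ℕ} {U U' : ℕ → BM} {i a : ℕ}

theorem am_red {M : BM} (ih : IHA M.E.card) (hr : M.Reg)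
    (h : M.Conn3 → M.NoTight → M.E.card = 2 * M.r M.E → UE M.IsBase M.E a) :
    UE M.IsBase M.E a := by
  by_cases h3 : M.Conn3 ∧ M.NoTight
  · intro p q hp hq hpq
    exact h h3.1 h3.2 hp.card p q hp hq hpq
  · exact reduce_A ih hr h3 a

theorem Ported.am_mem (h : N.Ported I t Q U) (ha : a ∈ N.E \ pts I t) : a ∈ (N.att I t U).E := by
  rw [h.att_E]
  exact mem_union_left _ ha

theorem Ported.am_sub (h : N.Ported I t Q U) (hi : i ∈ I) : Q i ⊆ (N.att I t U).E := by
  rw [h.att_E]
  exact (subset_biUnion_of_mem Q hi).trans subset_union_right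

theorem UnitM.am_span {P V : BM} {s : Fin 3 → ℕ} {K : Finset ℕ} (h : V.UnitM s K)
    (hV : P.res (K ∪ tset s) = V) : P.r (K ∪ tset s) = P.r K := by
  have h1 := h.span
  rw [h.ground, ← hV, r_res_of_subset _ subset_union_left, r_res_of_subset _ Subset.rfl] at h1
  exact h1.symm

theorem Ported.am_gad (h : N.Ported I t Q U) (hi : i ∈ I) {N1 : BM} {L : Finset ℕ}
    (h1 : N.att (I.erase i) t U = N1) (hE : N1.E = L ∪ tset (t i)) (hd : Disjoint L (tset (t i)))
    (hu : UE (N.att I t U).IsBase (N.att I t U).E a) :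
    GadUE L (N1.HasTy (t i) L) a .unit := by
  obtain ⟨hT, hdel, hr1, hr2⟩ := h.att_one hi
  have hL : (N.att I t U).E \ Q i = L := by
    have h2 := hT.res_E
    rw [hr1, h1, hE] at h2
    have h3 := hT.d1
    rw [← union_sdiff_cancel_right hd, h2, union_sdiff_cancel_right h3]
  have hU := h.unit i hi
  have hE2 := hT.del_E
  rw [hL] at hT hr1 hE2
  have hg := hU.gad
  rw [← hr2, hasTy_res Subset.rfl] at hg
  rw [← hdel, hE2] at hu
  have := hT.gadUE (hU.am_span hr2) hg hu
  rw [← h1, ← hr1, hasTy_res Subset.rfl]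
  exact this

/-- a unit can be replaced by another unit -/
theorem Ported.switch_one (H : ∀ n, Gr.CONNn n) (h : N.Ported I t Q U) (h' : N.Ported I t Q U')
    (hr : N.Reg) (ih : IHA (N.E.card + 3 * I.card)) (hi : i ∈ I) (hU : ∀ j ∈ I, j ≠ i → U j = U' j)
    (ha : a ∈ N.E \ pts I t) (hu : UE (N.att I t U').IsBase (N.att I t U').E a) :
    UE (N.att I t U).IsBase (N.att I t U).E a := by
  have ihM : IHA (N.att I t U).E.card := by rwa [h.att_card]
  refine am_red ihM (h.att_reg hr) fun h3 hn hev => ?_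
  obtain ⟨hT, hdel, hr1, hr2⟩ := h.att_one hi
  have hUi := h.unit i hi
  have hsub := h.am_sub hi
  have haL : a ∈ (N.att I t U).E \ Q i :=
    mem_sdiff.2 ⟨h.am_mem ha, fun hq => disjoint_left.1 (h.fresh i hi) hq (mem_sdiff.1 ha).1⟩
  have hc := card_sdiff_add_card_eq_card hsub
  have hp := card_pos.2 ⟨a, haL⟩
  have h6 := hUi.card
  have hl := h3 (Q i) hsub
  have hS := hT.triS (hT.r_eq_of_span (hUi.am_span hr2)) (by rw [hdel]; omega)
  have hreg := hT.reg (by rw [hr1]; exact (h.mono (erase_subset _ _)).att_reg hr)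
    (by rw [hr2]; exact hUi.reg)
  have hE : (N.att I t U).E \ Q i ∪ Q i = (N.att I t U).E := sdiff_union_of_subset hsub
  have hc1 : N.att (I.erase i) t U' = N.att (I.erase i) t U :=
    att_congr fun j hj => ⟨rfl, (hU j (mem_erase.1 hj).2 (mem_erase.1 hj).1).symm⟩
  have hE1 := hT.res_E
  rw [hr1] at hE1
  have hg := h'.am_gad hi hc1 hE1 hT.d1 hu
  have := BM.leaf H hS hreg (by rw [hdel]; exact h3) (by rw [hdel]; exact hn) haL (by omega)
    (by rw [hE]; exact ihM) (by rw [hr2]; exact hUi.kind) fun _ => by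
      rw [← hasTy_res (X := (N.att I t U).E \ Q i ∪ tset (t i)) Subset.rfl, hr1]
      exact hg
  rwa [hdel, hE] at this

theorem Ported.am_switch (H : ∀ n, Gr.CONNn n) (h' : N.Ported I t Q U')
    (hr : N.Reg) (ih : IHA (N.E.card + 3 * I.card)) (ha : a ∈ N.E \ pts I t)
    (hu : UE (N.att I t U').IsBase (N.att I t U').E a) (S : Finset ℕ) :
    ∀ U : ℕ → BM, N.Ported I t Q U → (∀ j ∈ I, j ∉ S → U j = U' j) →
      UE (N.att I t U).IsBase (N.att I t U).E a := by
  induction S using Finset.induction_on with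
  | empty =>
    intro U _ hU
    have : N.att I t U = N.att I t U' := att_congr fun j hj => ⟨rfl, hU j hj (notMem_empty _)⟩
    rw [this]
    exact hu
  | insert i S _ ihS =>
    intro U h hU
    by_cases hi : i ∈ I
    · have h2 : N.Ported I t Q (Function.update U i (U' i)) :=
        { toPorts := h.toPorts
          unit := fun j hj => by
            by_cases hji : j = i
            · subst hji
              rw [Function.update_self]
              exact h'.unit j hj
            · rw [Function.update_of_ne hji]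
              exact h.unit j hj
          fresh := h.fresh
          apart := h.apart }
      refine h.switch_one H h2 hr ih hi (fun j _ hji => (Function.update_of_ne hji _ _).symm) ha
        (ihS _ h2 fun j hj hS => ?_)
      by_cases hji : j = i
      · subst hji
        rw [Function.update_self]
      · rw [Function.update_of_ne hji]
        exact hU j hj fun hm => (mem_insert.1 hm).elim hji hS
    · exact ihS U h fun j hj hS => hU j hj fun hm =>
        (mem_insert.1 hm).elim (fun e => hi (e ▸ hj)) hS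

theorem Ported.switch (H : ∀ n, Gr.CONNn n) (h : N.Ported I t Q U) (h' : N.Ported I t Q U')
    (hr : N.Reg) (ih : IHA (N.E.card + 3 * I.card)) (ha : a ∈ N.E \ pts I t)
    (hu : UE (N.att I t U').IsBase (N.att I t U').E a) :
    UE (N.att I t U).IsBase (N.att I t U).E a := by
  exact h'.am_switch H hr ih ha hu I U h fun j hj hn => (hn hj).elim

theorem Ported.am_graphic (h : N.Ported I t Q U) :
    ∃ V : ℕ → BM, N.Ported I t Q V ∧ ∀ i ∈ I, (V i).Graphic := by
  have : ∀ i, ∃ V : BM, i ∈ I → V.UnitM (t i) (Q i) ∧ V.Graphic := fun i => by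
    by_cases hi : i ∈ I
    · obtain ⟨V, hV⟩ := exists_unit_graphic (h.tri i hi).inj (h.unit i hi).card (h.unit i hi).disj
      exact ⟨V, fun _ => hV⟩
    · exact ⟨N, fun h => (hi h).elim⟩
  choose V hV using this
  exact ⟨V, ⟨h.toPorts, fun i hi => (hV i hi).1, h.fresh, h.apart⟩, fun i hi => (hV i hi).2⟩

theorem Ported.am_coStar (h : N.Ported I t Q U) :
    ∃ V : ℕ → BM, N.Ported I t Q V ∧ ∀ i ∈ I, (V i).CoStar (t i) := by
  have : ∀ i, ∃ V : BM, i ∈ I → V.UnitM (t i) (Q i) ∧ V.CoStar (t i) := fun i => by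
    by_cases hi : i ∈ I
    · obtain ⟨V, hV⟩ := exists_unit_coStar (h.tri i hi).inj (h.unit i hi).card (h.unit i hi).disj
      exact ⟨V, fun _ => hV⟩
    · exact ⟨N, fun h => (hi h).elim⟩
  choose V hV using this
  exact ⟨V, ⟨h.toPorts, fun i hi => (hV i hi).1, h.fresh, h.apart⟩, fun i hi => (hV i hi).2⟩

/-- a further port -/
theorem Ported.am_add (h : N.Ported I t Q U) {s : Fin 3 → ℕ} (hs : N.IsTri s)
    (hd : Disjoint (tset s) (pts I t)) :
    ∃ i0 t' Q' U', i0 ∉ I ∧ N.Ported (insert i0 I) t' Q' U' ∧ t' i0 = s ∧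
      ∀ i ∈ I, t' i = t i ∧ U' i = U i := by
  obtain ⟨i0, hi0⟩ := Infinite.exists_notMem_finset I
  obtain ⟨K, hK1, hK2⟩ : ∃ K : Finset ℕ, K.card = 6 ∧ Disjoint K (N.E ∪ I.biUnion Q) := by
    refine ⟨(range 6).image fun x => x + ((N.E ∪ I.biUnion Q).sup id + 1), ?_, ?_⟩
    · rw [card_image_of_injective _ (add_left_injective _), card_range]
    · refine disjoint_left.2 fun x hx hx' => ?_
      obtain ⟨y, -, rfl⟩ := mem_image.1 hx
      have := le_sup (f := id) hx'
      simp only [id] at this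
      omega
  have hKN : Disjoint K N.E := hK2.mono_right subset_union_left
  have hKQ : ∀ j ∈ I, Disjoint K (Q j) := fun j hj =>
    hK2.mono_right ((subset_biUnion_of_mem Q hj).trans subset_union_right)
  have hst : ∀ j ∈ I, Disjoint (tset s) (tset (t j)) := fun j hj =>
    hd.mono_right (subset_biUnion_of_mem (fun i => tset (t i)) hj)
  obtain ⟨V, hV, -⟩ := exists_unit_graphic hs.inj hK1 (hKN.mono_right hs.subset)
  have hne : ∀ j ∈ I, j ≠ i0 := fun j hj e => hi0 (e ▸ hj)
  refine ⟨i0, Function.update t i0 s, Function.update Q i0 K, Function.update U i0 V, hi0,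
    ⟨⟨fun i hi => ?_, fun i hi j hj hij => ?_⟩, fun i hi => ?_, fun i hi => ?_,
      fun i hi j hj hij => ?_⟩, Function.update_self _ _ _, fun i hi =>
    ⟨Function.update_of_ne (hne i hi) _ _, Function.update_of_ne (hne i hi) _ _⟩⟩
  · rcases mem_insert.1 hi with rfl | hi
    · rw [Function.update_self]; exact hs
    · rw [Function.update_of_ne (hne i hi)]; exact h.tri i hi
  · rcases mem_insert.1 hi with rfl | hi' <;> rcases mem_insert.1 hj with rfl | hj'
    · exact (hij rfl).elim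
    · rw [Function.update_self, Function.update_of_ne (hne j hj')]; exact hst j hj'
    · rw [Function.update_self, Function.update_of_ne (hne i hi')]; exact (hst i hi').symm
    · rw [Function.update_of_ne (hne i hi'), Function.update_of_ne (hne j hj')]
      exact h.disj i hi' j hj' hij
  · rcases mem_insert.1 hi with rfl | hi
    · simp only [Function.update_self]; exact hV
    · simp only [Function.update_of_ne (hne i hi)]; exact h.unit i hi
  · rcases mem_insert.1 hi with rfl | hi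
    · rw [Function.update_self]; exact hKN
    · rw [Function.update_of_ne (hne i hi)]; exact h.fresh i hi
  · rcases mem_insert.1 hi with rfl | hi' <;> rcases mem_insert.1 hj with rfl | hj'
    · exact (hij rfl).elim
    · rw [Function.update_self, Function.update_of_ne (hne j hj')]; exact hKQ j hj'
    · rw [Function.update_self, Function.update_of_ne (hne i hi')]; exact (hKQ i hi').symm
    · rw [Function.update_of_ne (hne i hi'), Function.update_of_ne (hne j hj')]
      exact h.apart i hi' j hj' hij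

/-- the leaf case of the main induction -/
theorem Ported.am_leaf (H : ∀ n, Gr.CONNn n) {P : BM} {s : Fin 3 → ℕ} {A : Finset ℕ}
    (h : N.Ported I t Q U) (hr : N.Reg) (ih : IHA (N.E.card + 3 * I.card))
    (ha : a ∈ N.E \ pts I t) (hL : N.LeafAt I t a (I.biUnion Q) P s A)
    (hk : ((P.res (A ∪ tset s)).Graphic ∧ ∀ i ∈ I, (U i).Graphic) ∨
      ((∃ H, (P.res (A ∪ tset s)).Cog H ∧ (∃ z, H.star (A ∪ tset s) z = tset s) ∧
        ∀ i ∈ I, tset (t i) ⊆ A → ∃ z, H.star (A ∪ tset s) z = tset (t i)) ∧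
        ∀ i ∈ I, (U i).CoStar (t i)))
    (ihn : ∀ (N' : BM) (I : Finset ℕ) (t : ℕ → Fin 3 → ℕ)
      (Q : ℕ → Finset ℕ) (U : ℕ → BM) (a : ℕ), N'.E.card < N.E.card → N'.Ported I t Q U → N'.Reg →
      IHA (N'.E.card + 3 * I.card) → a ∈ N'.E \ pts I t →
      UE (N'.att I t U).IsBase (N'.att I t U).E a) :
    UE (N.att I t U).IsBase (N.att I t U).E a := by
  have ihM : IHA (N.att I t U).E.card := by rwa [h.att_card]
  refine am_red ihM (h.att_reg hr) fun h3 hn _ => ?_
  have hT := hL.tri.toTri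
  have hE : N.E \ A ∪ A = N.E := sdiff_union_of_subset hL.sub
  have hNs : Disjoint N.E (tset s) := by
    rw [← hE]
    exact disjoint_union_left.2 ⟨hT.d1, hT.d2⟩
  have hps : Disjoint (tset s) (pts I t) := hNs.symm.mono_right h.toPorts.aa_pts_sub
  have hP : P.Ported I t Q U := by
    refine ⟨⟨fun i hi => ?_, h.disj⟩, h.unit, fun i hi => ?_, h.apart⟩
    · have := h.tri i hi
      rw [← hL.del] at this
      exact this.of_del
    · rw [hT.ground, hE]
      exact disjoint_union_right.2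
        ⟨h.fresh i hi, (hL.fresh.mono_right (subset_biUnion_of_mem Q hi)).symm⟩
  obtain ⟨J, hJ⟩ : ∃ J : Finset ℕ, J = I.filter fun i => tset (t i) ⊆ A := ⟨_, rfl⟩
  have hJI : J ⊆ I := hJ ▸ filter_subset _ _
  have hJm : ∀ i, i ∈ J ↔ i ∈ I ∧ tset (t i) ⊆ A := fun i => by rw [hJ, mem_filter]
  have h2 : ∀ i ∈ I \ J, tset (t i) ⊆ N.E \ A := fun i hi => by
    obtain ⟨hi1, hi2⟩ := mem_sdiff.1 hi
    rcases hL.closed i hi1 with hc | hc
    · exact (hi2 ((hJm i).2 ⟨hi1, hc⟩)).elim
    · exact subset_sdiff.2 ⟨(h.tri i hi1).subset, hc⟩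
  obtain ⟨hT', hdel, hrA, hrL, hPA, hPL, hs1, hs2⟩ :=
    hP.att_tri hT hJI (fun i hi => ((hJm i).1 hi).2) h2
  rw [hL.del] at hdel
  have hS : (P.att I t U).TriS s _ _ := ⟨hT', hs1 hL.tri.s1, hs2 hL.tri.s2⟩
  have hEM := hT'.del_E
  rw [hdel] at hEM
  have hs3 := hT.tri.card
  have hcA : (A \ pts I t ∪ J.biUnion Q).card = A.card + 3 * J.card := by
    have e1 := hT'.symm.res_E
    have e2 := hPA.att_card
    rw [← hrA, e1, hT.symm.res_E, card_union_of_disjoint hT'.d2, card_union_of_disjoint hT.d2] at e2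
    omega
  have hbig : 5 ≤ A.card ∨ (4 ≤ A.card ∧ 1 ≤ J.card) := by
    rcases hL.big with hb | ⟨hb, i, hi, hiA⟩
    · exact Or.inl hb
    · exact Or.inr ⟨hb, card_pos.2 ⟨i, (hJm i).2 ⟨hi, hiA⟩⟩⟩
  have haL : a ∈ N.E \ A := mem_sdiff.2 ⟨(mem_sdiff.1 ha).1, hL.avoid⟩
  have hpJ : ∀ J' ⊆ I, pts J' t ⊆ pts I t := fun J' hJ' => biUnion_subset_biUnion_of_subset_left _ hJ'
  have := BM.leaf (a := a) H hS (hP.att_reg hL.reg) (by rw [hdel]; exact h3) (by rw [hdel]; exact hn)
    (mem_union_left _ (mem_sdiff.2 ⟨haL, (mem_sdiff.1 ha).2⟩)) (by omega)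
    (by rw [← hEM]; exact ihM) ?_ fun h6 => ?_
  · rwa [hdel, ← hEM] at this
  · rw [hrA]
    rcases hk with ⟨hg, hU⟩ | ⟨⟨G, hG, ⟨z, hz⟩, hst⟩, hU⟩
    · exact Or.inl (hPA.att_graphic hg fun i hi => hU i (hJI hi))
    · have e1 := hT.symm.res_E
      obtain ⟨G', hG', hz'⟩ := hPA.att_cog hG
        (fun i hi => by rw [e1]; exact hst i (hJI hi) ((hJm i).1 hi).2) fun i hi => hU i (hJI hi)
      rw [e1] at hz'
      obtain ⟨z', e2⟩ := hz' z (by rw [hz]; exact card_pos.1 (by omega))
        (by rw [hz]; exact hps.mono_right (hpJ J hJI))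
      exact Or.inr ⟨G', z', hG', e2.trans hz⟩
  · have hJ0 : J.card = 0 := by omega
    have hA6 : A.card = 6 := by omega
    have hIJ := card_le_card (sdiff_subset (s := I) (t := J))
    have hIJ' := le_card_sdiff J I
    have e1 := hT.res_E
    have hcN := card_sdiff_add_card_eq_card hL.sub
    have hc1 : (P.res (N.E \ A ∪ tset s)).E.card + 3 = N.E.card := by
      rw [e1, card_union_of_disjoint hT.d1]
      omega
    obtain ⟨i0, t', Q', V, hi0, hV, hts, hag⟩ := hPL.am_add (hT.tri.res subset_union_right)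
      (hps.mono_right (hpJ _ sdiff_subset))
    have hu := ihn _ _ t' Q' V a (by omega) hV (hL.reg.res _)
      (by
        rw [card_insert_of_notMem hi0]
        intro M hM hc
        exact ih M hM (by omega))
      (by
        rw [e1]
        refine mem_sdiff.2 ⟨mem_union_left _ haL, fun hm => ?_⟩
        obtain ⟨j, hj, hm'⟩ := aa_mem_pts.1 hm
        rcases mem_insert.1 hj with e | hj'
        · rw [e, hts] at hm'
          exact disjoint_left.1 hNs (mem_sdiff.1 ha).1 hm'
        · rw [(hag j hj').1] at hm'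
          exact (mem_sdiff.1 ha).2 (aa_mem_pts.2 ⟨j, (mem_sdiff.1 hj').1, hm'⟩))
    have e3 : (P.res (N.E \ A ∪ tset s)).att ((insert i0 (I \ J)).erase i0) t' V =
        (P.att I t U).res ((N.E \ A) \ pts I t ∪ (I \ J).biUnion Q ∪ tset s) := by
      rw [erase_insert hi0, hrL]
      exact att_congr hag
    have := hV.am_gad (mem_insert_self _ _) e3 (by rw [hts]; exact hT'.res_E)
      (by rw [hts]; exact hT'.d1) hu
    rwa [hts, hasTy_res Subset.rfl] at this

theorem ue_att (H : ∀ n, Gr.CONNn n) (n : ℕ) : ∀ (N : BM) (I : Finset ℕ) (t : ℕ → Fin 3 → ℕ)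
    (Q : ℕ → Finset ℕ) (U : ℕ → BM) (a : ℕ), N.E.card ≤ n → N.Ported I t Q U → N.Reg →
    IHA (N.E.card + 3 * I.card) → a ∈ N.E \ pts I t →
    UE (N.att I t U).IsBase (N.att I t U).E a := by
  induction n with
  | zero =>
    intro N I t Q U a hn _ _ _ ha
    have := card_pos.2 ⟨a, (mem_sdiff.1 ha).1⟩
    omega
  | succ n ihn =>
    intro N I t Q U a hn h hr ih ha
    have ihM : IHA (N.att I t U).E.card := by rwa [h.att_card]
    refine am_red ihM (h.att_reg hr) fun h3 _ hev => ?_
    have hp := card_pos.2 ⟨a, h.am_mem ha⟩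
    obtain ⟨V, hV, hVg⟩ := h.am_graphic
    obtain ⟨W, hW, hWc⟩ := h.am_coStar
    rcases struct hr (h.vc h3) (h.loopless h3 (by omega)) h.toPorts (mem_sdiff.1 ha).1
      (I.biUnion Q) with (hg | ⟨G, hG, hst⟩) | ⟨hI, h10⟩ | ⟨P, s, A, hL⟩
    · refine h.switch H hV hr ih ha (am_red (by rwa [hV.att_card]) (hV.att_reg hr) fun _ hn' _ => ?_)
      exact (hV.att_graphic hg hVg).ue H hn' (hV.am_mem ha)
    · refine h.switch H hW hr ih ha (am_red (by rwa [hW.att_card]) (hW.att_reg hr) fun _ hn' _ => ?_)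
      obtain ⟨G', hG', -⟩ := hW.att_cog hG hst hWc
      exact Cographic.ue H ⟨G', hG'⟩ hn' (hW.am_mem ha)
    · subst hI
      rw [att_empty] at h3 ⊢
      exact h10.ue h3 (mem_sdiff.1 ha).1
    · rcases hL.basic with hg | hc
      · exact h.switch H hV hr ih ha (hV.am_leaf H hr ih ha hL (Or.inl ⟨hg, hVg⟩)
          fun N' I t Q U a hc => ihn N' I t Q U a (by omega))
      · exact h.switch H hW hr ih ha (hW.am_leaf H hr ih ha hL (Or.inr ⟨hc, hWc⟩)
          fun N' I t Q U a hc => ihn N' I t Q U a (by omega))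

theorem am_all (H : ∀ n, Gr.CONNn n) (n : ℕ) : IHA n := by
  induction n with
  | zero => intro M _ h; omega
  | succ n ihn =>
    intro M hr hn
    refine ueall_of_frozen fun a ha => ?_
    have hp : M.Ported ∅ (fun _ _ => 0) (fun _ => ∅) (fun _ => M) :=
      ⟨⟨by simp, by simp⟩, by simp, by simp, by simp⟩
    have := ue_att H M.E.card M ∅ _ _ _ a le_rfl hp hr
      (fun M' hr' hc => ihn M' hr' (by rw [card_empty] at hc; omega)) (by simpa [pts] using ha)
    rwa [att_empty] at this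

theorem ueall_of_reg (H : ∀ n, Gr.CONNn n) (M : BM) (hr : M.Reg) : M.UEall := by
  exact am_all H (M.E.card + 1) M hr (Nat.lt_succ_self _)

end BM

end Pool.Agent.P.MP_3f5ce9_co
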