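import Pool.Agent.P.MP_3f5ce9_co.W.Minor

/-!
Vector representations, sums of cycle spaces, the union theorem.
-/

open Finset

namespace Pool.Agent.P.MP_3f5ce9_co

namespace BM

variable {M N K : BM} {I J X Y Z A B C D : Finset ℕ} {e : ℕ} {φ : ℕ → Finset ℕ}

/-- `v` is a binary representation -/
def Rep {V : Type} [AddCommGroup V] [Module (ZMod 2) V] (M : BM) (v : ℕ → V) : Prop :=
  ∀ C, M.cyc C ↔ C ⊆ M.E ∧ ∑ e ∈ C, v e = 0

theorem lin_one (φ : ℕ → Finset ℕ) (i : ℕ) : oddSum φ {i} = φ i := by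
  ext y
  rw [mem_oddSum, filter_singleton]
  split_ifs with hy <;> simp [hy]

theorem lin_ins (φ : ℕ → Finset ℕ) (h : e ∉ C) :
    oddSum φ (insert e C) = symmDiff (φ e) (oddSum φ C) := by
  rw [← lin_one φ, ← oddSum_symmDiff, (disjoint_singleton_left.2 h).symmDiff_eq_sup, insert_eq]
  rfl

theorem lin_assoc (w φ : ℕ → Finset ℕ) (C : Finset ℕ) :
    oddSum w (oddSum φ C) = oddSum (fun x => oddSum w (φ x)) C := by
  induction C using Finset.induction_on with
  | empty => rfl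
  | insert i C hi ih => rw [lin_ins _ hi, lin_ins _ hi, oddSum_symmDiff, ih]

theorem lin_cg {ψ : ℕ → Finset ℕ} (h : ∀ x ∈ C, φ x = ψ x) : oddSum φ C = oddSum ψ C := by
  ext y
  rw [mem_oddSum, mem_oddSum, filter_congr fun x hx => by rw [h x hx]]

theorem lin_sub (h : ∀ x ∈ C, φ x ⊆ X) : oddSum φ C ⊆ X :=
  (filter_subset _ _).trans (biUnion_subset.2 h)

theorem lin_sing (φ : ℕ → Finset ℕ) (C : Finset ℕ) :
    oddSum (fun e => symmDiff (φ e) {e}) C = symmDiff (oddSum φ C) C := by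
  induction C using Finset.induction_on with
  | empty => simp [oddSum_empty]
  | insert i C hi ih =>
    rw [lin_ins _ hi, lin_ins _ hi, ih, symmDiff_symmDiff_symmDiff_comm,
      (disjoint_singleton_left.2 hi).symmDiff_eq_sup, insert_eq]
    rfl

theorem lin_rep (E : Finset ℕ) (w : ℕ → Finset ℕ) :
    (ofVec E w).Rep fun e => fun p : ℕ => if p ∈ w e then (1 : ZMod 2) else 0 := by
  refine fun C => and_congr_right fun _ => ?_
  simp only [eq_empty_iff_forall_notMem, mem_oddSum, funext_iff, Finset.sum_apply, sum_boole,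
    Pi.zero_apply, ZMod.natCast_eq_zero_iff_even, Nat.not_odd_iff_even]

theorem exists_rep (M : BM) : ∃ v : ℕ → ℕ → ZMod 2, M.Rep v := by
  obtain ⟨B, hB⟩ := M.exists_base
  have : ∀ e ∈ M.E, ∃ C, M.cyc C ∧ symmDiff C {e} ⊆ B := fun e he => by
    by_cases h : e ∈ B
    · exact ⟨∅, M.nil, (bot_symmDiff _).subset.trans (singleton_subset_iff.2 h)⟩
    · obtain ⟨C, c1, c2, c3⟩ := hB.exists_cyc he h
      refine ⟨C, c1, fun y hy => ?_⟩
      have := @c3 y
      simp only [mem_symmDiff, mem_singleton, mem_insert] at hy this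
      rcases hy with hy | ⟨rfl, hy⟩ <;> tauto
  choose! u h1 h2 using this
  have e : M = ofVec M.E fun e => symmDiff (u e) {e} := by
    refine ext_cyc rfl fun C => ⟨fun h => ⟨M.sub C h, hB.1.2 _ ?_
      (lin_sub fun x hx => h2 x (M.sub C h hx))⟩, fun h => ?_⟩
    · rw [lin_sing]
      exact M.sd _ _ (rk_odd u C fun x hx => h1 x (M.sub C h hx)) h
    · have := h.2
      rw [lin_sing, symmDiff_eq_empty] at this
      exact this ▸ rk_odd u C fun x hx => h1 x (h.1 hx)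
  exact ⟨_, e ▸ lin_rep _ _⟩

section

variable {V : Type} [AddCommGroup V] [Module (ZMod 2) V] {v : ℕ → V}

theorem lin_sd (v : ℕ → V) (C D : Finset ℕ) :
    ∑ e ∈ symmDiff C D, v e = ∑ e ∈ C, v e + ∑ e ∈ D, v e := by
  rw [Finset.symmDiff_def, sum_union disjoint_sdiff_sdiff,
    ← sum_sdiff (inter_subset_left (s₁ := C) (s₂ := D)),
    ← sum_sdiff (inter_subset_right (s₁ := C) (s₂ := D)), sdiff_inter_self_left,
    sdiff_inter_self_right, add_add_add_comm, ZModModule.add_self, add_zero]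

theorem lin_odd (v : ℕ → V) (φ : ℕ → Finset ℕ) (C : Finset ℕ) :
    ∑ e ∈ oddSum φ C, v e = ∑ x ∈ C, ∑ e ∈ φ x, v e := by
  induction C using Finset.induction_on with
  | empty => rfl
  | insert i C hi ih => rw [lin_ins _ hi, lin_sd, ih, sum_insert hi]

theorem lin_two (c : ZMod 2) : c = 0 ∨ c = 1 := by revert c; decide

theorem lin_span (X : Finset ℕ) (w : V) :
    w ∈ Submodule.span (ZMod 2) (v '' (X : Set ℕ)) ↔ ∃ Y ⊆ X, ∑ e ∈ Y, v e = w := by
  refine ⟨fun h => ?_, fun ⟨Y, h1, h2⟩ => h2 ▸ Submodule.sum_mem _ fun e he =>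
    Submodule.subset_span ⟨e, h1 he, rfl⟩⟩
  induction h using Submodule.span_induction with
  | mem x h =>
    obtain ⟨e, he, rfl⟩ := h
    exact ⟨{e}, singleton_subset_iff.2 he, sum_singleton _ _⟩
  | zero => exact ⟨∅, empty_subset _, rfl⟩
  | add x y _ _ h1 h2 =>
    obtain ⟨Y, a, rfl⟩ := h1
    obtain ⟨Z, b, rfl⟩ := h2
    exact ⟨_, symmDiff_sub a b, lin_sd v Y Z⟩
  | smul c x _ h =>
    rcases lin_two c with rfl | rfl
    · exact ⟨∅, empty_subset _, (zero_smul _ _).symm⟩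
    · rwa [one_smul]

theorem lin_cl (h : M.Rep v) (hX : X ⊆ M.E) (he : e ∈ M.E) :
    e ∈ M.cl X ↔ v e ∈ Submodule.span (ZMod 2) (v '' (X : Set ℕ)) := by
  rw [mem_cl, and_iff_right he, r_insert_eq_iff he, lin_span]
  by_cases h1 : e ∈ X
  · exact iff_of_true (Or.inl h1) ⟨{e}, singleton_subset_iff.2 h1, sum_singleton _ _⟩
  rw [or_iff_right h1]
  refine ⟨fun ⟨C, c1, c2, c3⟩ => ⟨C.erase e, subset_insert_iff.1 c3, ?_⟩,
    fun ⟨Y, y1, y2⟩ => ⟨insert e Y, (h _).2 ⟨insert_subset he (y1.trans hX), ?_⟩,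
      mem_insert_self _ _, insert_subset_insert _ y1⟩⟩
  · rw [← add_right_inj (v e), add_sum_erase _ _ c2, ((h C).1 c1).2, ZModModule.add_self]
  · rw [sum_insert fun h2 => h1 (y1 h2), y2, ZModModule.add_self]

theorem Rep.indep_iff (h : M.Rep v) :
    M.Indep I ↔ I ⊆ M.E ∧ LinearIndepOn (ZMod 2) v (I : Set ℕ) := by
  refine and_congr_right fun hI => ?_
  rw [linearIndepOn_iff']
  refine ⟨fun H t g ht hg i hi => (lin_two _).resolve_right fun h1 => ?_, fun H C c1 c2 =>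
    eq_empty_of_forall_notMem fun i hi => one_ne_zero (H C (fun _ => 1) c2 ?_ i hi)⟩
  · have h2 : t.filter (fun i => g i = 1) ⊆ I := (filter_subset _ _).trans ht
    refine ne_empty_of_mem (mem_filter.2 ⟨hi, h1⟩) (H _ ((h _).2 ⟨h2.trans hI, ?_⟩) h2)
    rw [← hg, sum_filter]
    exact sum_congr rfl fun j _ => by rcases lin_two (g j) with a | a <;> simp [a]
  · simpa using ((h C).1 c1).2

theorem Rep.r_eq (h : M.Rep v) (hX : X ⊆ M.E) :
    M.r X = Module.finrank (ZMod 2) (Submodule.span (ZMod 2) (v '' (X : Set ℕ))) := by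
  obtain ⟨I, h1, h2, h3⟩ := M.exists_basis X
  have e : Submodule.span (ZMod 2) (v '' (X : Set ℕ)) =
      Submodule.span (ZMod 2) (v '' (I : Set ℕ)) := by
    refine le_antisymm (Submodule.span_le.2 ?_) (Submodule.span_mono (Set.image_mono h1))
    rintro _ ⟨e, he, rfl⟩
    exact (lin_cl h h2.1 (hX he)).1 (subset_cl_of_r hX
      (by rw [union_eq_right.2 h1, h2.r_eq, h3]) he)
  rw [e, Set.image_eq_range, finrank_span_eq_card (h.indep_iff.1 h2).2, ← h3]
  simp

theorem Rep.mem_cl (h : M.Rep v) (hX : X ⊆ M.E) (he : e ∈ M.E) :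
    e ∈ M.cl X ↔ v e ∈ Submodule.span (ZMod 2) (v '' (X : Set ℕ)) := by
  exact lin_cl h hX he

theorem mem_span_image (X : Finset ℕ) (w : V) :
    w ∈ Submodule.span (ZMod 2) (v '' (X : Set ℕ)) ↔ ∃ Y ⊆ X, ∑ e ∈ Y, v e = w := by
  exact lin_span X w

theorem Rep.lin (h : M.Rep v) (hφ : ∀ x ∈ X, φ x ⊆ M.E) :
    (M.lin φ X).Rep fun x => ∑ e ∈ φ x, v e := by
  refine fun C => and_congr_right fun hC => ?_
  rw [h, lin_odd, and_iff_right (lin_sub fun x hx => hφ x (hC hx))]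

theorem Rep.res (h : M.Rep v) (X : Finset ℕ) : (M.res X).Rep v := by
  intro C
  rw [res_E, subset_inter_iff, and_right_comm, ← h]
  rfl

theorem Rep.del (h : M.Rep v) (X : Finset ℕ) : (M.del X).Rep v := by
  intro C
  rw [del_E, subset_sdiff, and_right_comm, ← h]
  rfl

/-- cocycles are the supports of linear functionals -/
theorem Rep.cocyc (h : M.Rep v) :
    M.dual.cyc D ↔ ∃ l : V →ₗ[ZMod 2] ZMod 2, D = M.E.filter fun e => l (v e) = 1 := by
  refine ⟨fun hD => ?_, ?_⟩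
  · obtain ⟨B, hB⟩ := M.exists_base
    have li := (h.indep_iff.1 hB.1).2
    obtain ⟨l, hl⟩ := LinearMap.exists_extend ((Finsupp.linearCombination (ZMod 2)
      fun i : (B : Set ℕ) => if i.1 ∈ D then (1 : ZMod 2) else 0).comp (LinearIndependent.repr li))
    have h1 : ∀ e ∈ B, l (v e) = if e ∈ D then 1 else 0 := fun e he => by
      have := LinearMap.congr_fun hl ⟨v e, Submodule.subset_span ⟨⟨e, he⟩, rfl⟩⟩
      rw [LinearMap.comp_apply, LinearMap.comp_apply,
        LinearIndependent.repr_eq_single li ⟨e, he⟩ _ rfl] at this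
      simpa using this
    have h2 : ∀ e ∈ M.E, l (v e) = if e ∈ D then 1 else 0 := fun e he => by
      by_cases heB : e ∈ B
      · exact h1 e heB
      obtain ⟨C, c1, c2, c3⟩ := hB.exists_cyc he heB
      have a1 := congrArg l ((h C).1 c1).2
      have a2 : ∑ e ∈ C, (if e ∈ D then (1 : ZMod 2) else 0) = 0 := by
        rw [sum_boole, filter_mem_eq_inter, ZMod.natCast_eq_zero_iff_even]
        exact hD.2 C c1
      rw [map_sum, map_zero, ← a2, ← add_sum_erase _ _ c2, ← add_sum_erase _ _ c2,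
        sum_congr rfl fun x hx => h1 x (subset_insert_iff.1 c3 hx)] at a1
      exact add_right_cancel a1
    refine ⟨l, ext fun e => ⟨fun he => mem_filter.2 ⟨hD.1 he, ?_⟩, fun he => ?_⟩⟩
    · rw [h2 e (hD.1 he), if_pos he]
    · have := (mem_filter.1 he).2
      rw [h2 e (mem_filter.1 he).1] at this
      simpa using this
  · rintro ⟨l, rfl⟩
    refine ⟨filter_subset _ _, fun C hC => ?_⟩
    obtain ⟨c1, c2⟩ := (h C).1 hC
    have a1 := congrArg l c2
    rw [map_sum, map_zero] at a1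
    rw [inter_filter, inter_eq_left.2 c1, ← ZMod.natCast_eq_zero_iff_even, ← sum_boole]
    exact (sum_congr rfl fun j _ => by rcases lin_two (l (v j)) with a | a <;> simp [a]).trans a1

theorem Rep.ext (h : M.Rep v) (h' : N.Rep v) (hE : M.E = N.E) : M = N := by
  exact ext_cyc hE fun C => by rw [h, h', hE]

/-- the matroid of a family of vectors -/
theorem exists_of_vec (E : Finset ℕ) (v : ℕ → V) : ∃ M : BM, M.E = E ∧ M.Rep v := by
  exact ⟨⟨E, fun C => C ⊆ E ∧ ∑ e ∈ C, v e = 0, fun _ h => h.1, ⟨empty_subset _, rfl⟩,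
    fun C D hC hD => ⟨symmDiff_sub hC.1 hD.1, by rw [lin_sd, hC.2, hD.2, add_zero]⟩⟩, rfl,
    fun _ => Iff.rfl⟩

end

theorem rep_ofVec (E : Finset ℕ) (w : ℕ → Finset ℕ) :
    (ofVec E w).Rep fun e => fun p : ℕ => if p ∈ w e then (1 : ZMod 2) else 0 := by
  exact lin_rep E w

@[simp] theorem ofVec_E (E : Finset ℕ) (w : ℕ → Finset ℕ) : (ofVec E w).E = E := rfl

theorem ofVec_congr {w w' : ℕ → Finset ℕ} (h : ∀ e ∈ X, w e = w' e) : ofVec X w = ofVec X w' := by
  refine ext_cyc rfl fun C => and_congr_right fun hC => ?_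
  rw [lin_cg fun x hx => h x (hC hx)]

theorem ofVec_lin {w : ℕ → Finset ℕ} (hφ : ∀ x ∈ Y, φ x ⊆ X) :
    (ofVec X w).lin φ Y = ofVec Y fun x => oddSum w (φ x) := by
  refine ext_cyc rfl fun C => and_congr_right fun hC => ?_
  rw [← lin_assoc]
  exact and_iff_right (lin_sub fun x hx => hφ x (hC hx))

theorem ofVec_res (w : ℕ → Finset ℕ) (X Y : Finset ℕ) : (ofVec X w).res Y = ofVec (X ∩ Y) w := by
  exact ext_cyc rfl fun C => and_right_comm.trans (and_congr_left' subset_inter_iff.symm)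

theorem lin_congr (M : BM) {ψ : ℕ → Finset ℕ} (h : ∀ x ∈ X, φ x = ψ x) :
    M.lin φ X = M.lin ψ X := by
  refine ext_cyc rfl fun C => and_congr_right fun hC => ?_
  rw [lin_cg fun x hx => h x (hC hx)]

theorem lin_res (M : BM) (φ : ℕ → Finset ℕ) (X Y : Finset ℕ) :
    (M.lin φ X).res Y = M.lin φ (X ∩ Y) := by
  exact ext_cyc rfl fun C => and_right_comm.trans (and_congr_left' subset_inter_iff.symm)

theorem lin_pull (M : BM) {g : ℕ → ℕ} (h : ∀ y ∈ Y, g y ∈ X) :
    (M.lin φ X).pull g Y = M.lin (φ ∘ g) Y := by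
  refine ext_cyc rfl fun C => and_congr_right fun hC => (and_iff_right (lin_sub fun x hx =>
    singleton_subset_iff.2 (h x (hC hx)))).trans ?_
  rw [lin_assoc]
  simp only [lin_one]
  rfl

theorem r_lin_le (hφ : ∀ x ∈ X, φ x ⊆ M.E) (hY : Y ⊆ X) :
    (M.lin φ X).r Y ≤ M.r (Y.biUnion φ) := by
  obtain ⟨v, h⟩ := M.exists_rep
  rw [(h.lin hφ).r_eq hY, h.r_eq (biUnion_subset.2 fun x hx => hφ x (hY hx))]
  have := Module.Finite.span_of_finite (ZMod 2) ((Y.biUnion φ).finite_toSet.image v)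
  refine Submodule.finrank_mono (Submodule.span_le.2 ?_)
  rintro _ ⟨x, hx, rfl⟩
  exact (lin_span _ _).2 ⟨φ x, subset_biUnion_of_mem φ hx, rfl⟩

/-! sums -/

@[simp] theorem sum_E (M N : BM) : (M.sum N).E = M.E ∪ N.E := rfl

theorem sum_comm (M N : BM) : M.sum N = N.sum M := by
  exact ext_cyc (union_comm _ _) fun C =>
    ⟨fun ⟨D, D', a, b, c⟩ => ⟨D', D, b, a, c.trans (symmDiff_comm _ _)⟩,
      fun ⟨D, D', a, b, c⟩ => ⟨D', D, b, a, c.trans (symmDiff_comm _ _)⟩⟩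

theorem sum_assoc (M N K : BM) : (M.sum N).sum K = M.sum (N.sum K) := by
  refine ext_cyc (union_assoc _ _ _) fun C => ⟨?_, ?_⟩
  · rintro ⟨_, D, ⟨A, B, a, b, rfl⟩, c, rfl⟩
    exact ⟨A, _, a, ⟨B, D, b, c, rfl⟩, symmDiff_assoc _ _ _⟩
  · rintro ⟨A, _, a, ⟨B, D, b, c, rfl⟩, rfl⟩
    exact ⟨_, D, ⟨A, B, a, b, rfl⟩, c, (symmDiff_assoc _ _ _).symm⟩

theorem lin_l (N : BM) (h : M.cyc C) : (M.sum N).cyc C :=
  ⟨C, ∅, h, N.nil, (symmDiff_bot C).symm⟩

theorem lin_r (M : BM) (h : N.cyc C) : (M.sum N).cyc C :=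
  ⟨∅, C, M.nil, h, (bot_symmDiff C).symm⟩

theorem lin_indep (h : Disjoint M.E N.E) :
    (M.sum N).Indep I ↔ I ⊆ M.E ∪ N.E ∧ M.Indep (I ∩ M.E) ∧ N.Indep (I ∩ N.E) := by
  refine and_congr_right fun _ => ⟨fun H => ⟨⟨inter_subset_right, fun C c1 c2 =>
    H C (lin_l N c1) (c2.trans inter_subset_left)⟩, inter_subset_right, fun C c1 c2 =>
    H C (lin_r M c1) (c2.trans inter_subset_left)⟩, ?_⟩
  rintro ⟨h1, h2⟩ _ ⟨D, D', a, b, rfl⟩ c
  rw [(h.mono (M.sub D a) (N.sub D' b)).symmDiff_eq_sup] at c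
  rw [h1.2 D a (subset_inter (subset_union_left.trans c) (M.sub D a)),
    h2.2 D' b (subset_inter (subset_union_right.trans c) (N.sub D' b)), symmDiff_self]
  rfl

/-- the restriction of a sum to a summand, when the summands agree on the common part -/
theorem sum_res_left (h : ∀ D, N.cyc D → D ⊆ M.E → M.cyc D) : (M.sum N).res M.E = M := by
  refine ext_cyc (union_inter_cancel_left) fun C => ⟨?_, fun hC => ⟨lin_l N hC, M.sub C hC⟩⟩
  rintro ⟨⟨D, D', a, b, rfl⟩, c⟩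
  refine M.sd _ _ a (h D' b ?_)
  rw [← symmDiff_symmDiff_cancel_left D D']
  exact symmDiff_sub (M.sub D a) c

theorem sum_del_left (h : Disjoint X N.E) : (M.sum N).del X = (M.del X).sum N := by
  refine ext_cyc ?_ fun C => ⟨?_, ?_⟩
  · rw [del_E, sum_E, sum_E, del_E, union_sdiff_distrib, sdiff_eq_self_of_disjoint h.symm]
  · rintro ⟨⟨D, D', a, b, rfl⟩, c⟩
    refine ⟨D, D', ⟨a, ?_⟩, b, rfl⟩
    rw [← symmDiff_symmDiff_cancel_right D' D]
    exact (disjoint_union_left.2 ⟨c, h.symm.mono_left (N.sub D' b)⟩).mono_left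
      symmDiff_subset_union
  · rintro ⟨D, D', a, b, rfl⟩
    exact ⟨⟨D, D', a.1, b, rfl⟩, (disjoint_union_left.2 ⟨a.2, h.symm.mono_left
      (N.sub D' b)⟩).mono_left symmDiff_subset_union⟩

theorem sum_con_left (h : Disjoint X N.E) : (M.sum N).con X = (M.con X).sum N := by
  have e : ∀ D D', N.cyc D' → symmDiff D D' \ X = symmDiff (D \ X) D' := fun D D' b => by
    ext x
    have : x ∈ X → x ∉ D' := fun a c => disjoint_left.1 h a (N.sub D' b c)
    simp only [mem_sdiff, mem_symmDiff]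
    tauto
  refine ext_cyc ?_ fun C => ⟨?_, ?_⟩
  · rw [con_E, sum_E, sum_E, con_E, union_sdiff_distrib, sdiff_eq_self_of_disjoint h.symm]
  · rintro ⟨_, ⟨D, D', a, b, rfl⟩, rfl⟩
    exact ⟨_, D', ⟨D, a, rfl⟩, b, e D D' b⟩
  · rintro ⟨_, D', ⟨D, a, rfl⟩, b, rfl⟩
    exact ⟨_, ⟨D, D', a, b, rfl⟩, (e D D' b).symm⟩

theorem cocyc_sum : (M.sum N).dual.cyc D ↔
    D ⊆ M.E ∪ N.E ∧ M.dual.cyc (D ∩ M.E) ∧ N.dual.cyc (D ∩ N.E) := by
  have e : ∀ (K : BM) (C : Finset ℕ), K.cyc C → C ∩ (D ∩ K.E) = C ∩ D := fun K C hC => by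
    rw [← inter_assoc, inter_eq_left.2 (inter_subset_left.trans (K.sub C hC))]
  refine and_congr_right fun _ => ⟨fun H => ⟨⟨inter_subset_right, fun C c =>
    (e M C c).symm ▸ H C (lin_l N c)⟩, inter_subset_right, fun C c =>
    (e N C c).symm ▸ H C (lin_r M c)⟩, ?_⟩
  rintro ⟨h1, h2⟩ _ ⟨A, B, a, b, rfl⟩
  have a1 := h1.2 A a
  have b1 := h2.2 B b
  rw [e M A a] at a1
  rw [e N B b] at b1
  rw [show symmDiff A B ∩ D = symmDiff (A ∩ D) (B ∩ D) from inf_symmDiff_distrib_right A B D,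
    ← Nat.not_odd_iff_even, odd_card_symmDiff, not_not]
  exact iff_of_false (Nat.not_odd_iff_even.2 a1) (Nat.not_odd_iff_even.2 b1)

theorem r_sum_disjoint (h : Disjoint M.E N.E) (X : Finset ℕ) :
    (M.sum N).r X = M.r X + N.r X := by
  refine le_antisymm ?_ ?_
  · obtain ⟨I, h1, h2, h3⟩ := (M.sum N).exists_basis X
    obtain ⟨a, b, c⟩ := (lin_indep h).1 h2
    rw [← h3, ← inter_eq_left.2 a, inter_union_distrib_left]
    exact (card_union_le _ _).trans (add_le_add (b.card_le_r (inter_subset_left.trans h1))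
      (c.card_le_r (inter_subset_left.trans h1)))
  · obtain ⟨I, h1, h2, h3⟩ := M.exists_basis X
    obtain ⟨J, a1, a2, a3⟩ := N.exists_basis X
    rw [← h3, ← a3, ← card_union_of_disjoint (h.mono h2.1 a2.1)]
    refine Indep.card_le_r ((lin_indep h).2 ⟨union_subset_union h2.1 a2.1, h2.subset fun x hx => ?_,
      a2.subset fun x hx => ?_⟩) (union_subset h1 a1)
    · exact (mem_union.1 (mem_inter.1 hx).1).resolve_right fun c =>
        disjoint_left.1 h (mem_inter.1 hx).2 (a2.1 c)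
    · exact (mem_union.1 (mem_inter.1 hx).1).resolve_left fun c =>
        disjoint_left.1 h (h2.1 c) (mem_inter.1 hx).2

theorem indep_sum_disjoint (h : Disjoint M.E N.E) :
    (M.sum N).Indep I ↔ I ⊆ M.E ∪ N.E ∧ M.Indep (I ∩ M.E) ∧ N.Indep (I ∩ N.E) := by
  exact lin_indep h

/-- a separator splits the matroid -/
theorem eq_sum_of_lam (hX : X ⊆ M.E) (h : M.lam X = 0) : M = (M.res X).sum (M.del X) := by
  refine ext_r ((sdiff_union_inter _ _).symm.trans (union_comm _ _)) fun Y hY => ?_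
  rw [r_sum_disjoint (disjoint_sdiff_self_right.mono_left inter_subset_right), r_res, r_del]
  have h1 := M.r_union_le (Y ∩ X) (Y \ X)
  have h2 := M.r_dimin (inter_subset_right (s₁ := Y) (s₂ := X)) (M.E \ X)
  have h3 := M.r_dimin (sdiff_subset_sdiff hY (Subset.refl X)) (Y ∩ X)
  rw [union_comm, sdiff_union_inter] at h1
  rw [union_sdiff_of_subset hX] at h2
  rw [sdiff_union_inter, union_comm] at h3
  unfold lam at h
  omega

end BM

end Pool.Agent.P.MP_3f5ce9_co
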