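import Pool.Agent.P.MP_3f5ce9_co.W.Bits

/-!
Auxiliary facts on modular pairs, triangles and extensions by points of a separator.
-/

open Finset

namespace Pool.Agent.P.MP_3f5ce9_co

namespace BM

variable {M N P P' N1 N2 : BM} {t : Fin 3 → ℕ} {L T S Y1 Y2 X X1 X2 A A1 A2 C D F F1 F2 : Finset ℕ}
variable {β γ : Tp} {p : ℕ}

theorem ta_mem (t : Fin 3 → ℕ) (i : Fin 3) : t i ∈ tset t := by fin_cases i <;> simp [tset]

theorem ta_le (hX : X ⊆ M.E) (h : ∀ C, M.cyc C → C ⊆ X → N.cyc C) : N.r X ≤ M.r X := by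
  obtain ⟨I, h1, h2, h3⟩ := N.exists_basis X
  exact h3 ▸ Indep.card_le_r ⟨h1.trans hX, fun C c1 c2 => h2.2 C (h C c1 (c2.trans h1)) c2⟩ h1

theorem ta_union (h : P.r Y1 + P.r Y2 = P.r (Y1 ∪ Y2) + P.r T) (t1 : T ⊆ Y1) (t2 : T ⊆ Y2)
    (h1 : X1 ⊆ Y1) (h2 : X2 ⊆ Y2) :
    P.r (X1 ∪ X2 ∪ T) + P.r T = P.r (X1 ∪ T) + P.r (X2 ∪ T) := by
  have a1 := P.r_submod (X1 ∪ T) (X2 ∪ T)
  have a2 := P.r_mono (subset_inter (subset_union_right (s₁ := X1) (s₂ := T))
    (subset_union_right (s₁ := X2)))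
  have a3 := P.r_dimin (union_subset h1 t1) (X2 ∪ T)
  have a4 := P.r_dimin (union_subset h2 t2) Y1
  rw [← union_union_distrib_right] at a1 a3
  rw [union_comm Y2, union_comm _ Y1] at a4
  omega

theorem ta_skew (h : P.r (X1 ∪ X2 ∪ T) + P.r T = P.r (X1 ∪ T) + P.r (X2 ∪ T))
    (hs : P.r (X2 ∪ T) = P.r X2 + P.r T) : P.r (X1 ∪ X2) = P.r X1 + P.r X2 := by
  have a1 := P.r_union_le X1 X2
  have a2 := P.r_dimin (subset_union_left (s₁ := X1) (s₂ := X2)) T
  omega

theorem ta_sum (h : P.r Y1 + P.r Y2 = P.r P.E + P.r T) (hE : P.E = Y1 ∪ Y2) (t1 : T ⊆ Y1)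
    (t2 : T ⊆ Y2) : P = (P.res Y1).sum (P.res Y2) := by
  have e1 : (P.res Y1).E = Y1 := inter_eq_right.2 (hE ▸ subset_union_left)
  have e2 : (P.res Y2).E = Y2 := inter_eq_right.2 (hE ▸ subset_union_right)
  have hc : ∀ C, ((P.res Y1).sum (P.res Y2)).cyc C → P.cyc C := by
    rintro _ ⟨D, D', h1, h2, rfl⟩
    exact P.sd _ _ h1.1 h2.1
  have e : ((P.res Y1).sum (P.res Y2)).E = Y1 ∪ Y2 := by rw [sum_E, e1, e2]
  refine (bt_eq (e.trans hE.symm) hc ?_).symm
  have a1 := ((P.res Y1).sum (P.res Y2)).r_submod Y1 Y2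
  have a2 := ((P.res Y1).sum (P.res Y2)).r_mono (subset_inter t1 t2)
  have a3 : P.r T ≤ ((P.res Y1).sum (P.res Y2)).r T :=
    ta_le (e ▸ t1.trans subset_union_left) fun C c _ => hc C c
  have a4 : ((P.res Y1).sum (P.res Y2)).r Y1 ≤ P.r Y1 := ta_le (hE ▸ subset_union_left)
    fun C c1 c2 => ⟨C, ∅, ⟨c1, c2⟩, BM.nil _, (symmDiff_bot C).symm⟩
  have a5 : ((P.res Y1).sum (P.res Y2)).r Y2 ≤ P.r Y2 := ta_le (hE ▸ subset_union_right)
    fun C c1 c2 => ⟨∅, C, BM.nil _, ⟨c1, c2⟩, (bot_symmDiff C).symm⟩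
  rw [e]
  omega

theorem ta_sub (h : P.IsTri t) (hD : P.cyc D) (hT : D ⊆ tset t) : D = ∅ ∨ D = tset t := by
  by_cases hc : D.card ≤ 2
  · exact Or.inl ((h.indep hT hc).2 D hD Subset.rfl)
  · exact Or.inr (eq_of_subset_of_card_le hT (by rw [h.card]; omega))

theorem ta_res (h1 : N1.IsTri t) (h2 : N2.IsTri t) (hE : N1.E ∩ N2.E = tset t) :
    (N1.sum N2).res N1.E = N1 :=
  sum_res_left fun D d1 d2 => by
    rcases ta_sub h2 d1 (hE ▸ subset_inter d2 (N2.sub D d1)) with rfl | rfl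
    exacts [N1.nil, h1.cyc]

theorem ta_emp {I1 I2 D1 D2 : Finset ℕ} {g : ℕ} (hE : N1.E ∩ N2.E = T) (d1 : N1.cyc D1)
    (i1 : N1.Indep I1) (hT : T ⊆ insert g I1) (hg : g ∉ D1) (d2 : D2 ⊆ N2.E) (i2 : I2 ⊆ N2.E)
    (h : symmDiff D1 D2 ⊆ I1 ∪ I2) : D1 = ∅ :=
  i1.2 D1 d1 fun x hx => by
    by_cases h2 : x ∈ N2.E
    · exact (mem_insert.1 (hT (hE ▸ mem_inter.2 ⟨N1.sub _ d1 hx, h2⟩))).resolve_left
        fun h3 => hg (h3 ▸ hx)
    · exact (mem_union.1 (h (mem_symmDiff.2 (Or.inl ⟨hx, fun h3 => h2 (d2 h3)⟩)))).resolve_right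
        fun h3 => h2 (i2 h3)

theorem ta_rk (h1 : N1.IsTri t) (h2 : N2.IsTri t) (hE : N1.E ∩ N2.E = tset t) :
    N1.r N1.E + N2.r N2.E ≤ (N1.sum N2).r (N1.E ∪ N2.E) + 2 := by
  obtain ⟨n1, n2, n3⟩ := card_triple_eq_three_iff.1 h1.card
  have s0 : {t 1, t 2} ⊆ tset t := subset_insert _ _
  obtain ⟨I1, b1, i1⟩ := (h1.indep s0 card_le_two).exists_base
  obtain ⟨I2, b2, i2⟩ := (h2.indep s0 card_le_two).exists_base
  have k1 : tset t ⊆ insert (t 0) I1 := insert_subset_insert _ i1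
  have k2 : tset t ⊆ insert (t 0) I2 := insert_subset_insert _ i2
  have g1 : t 0 ∉ I1 := fun h =>
    ne_empty_of_mem (ta_mem t 0) (b1.1.2 _ h1.cyc (insert_eq_of_mem h ▸ k1))
  have g2 : t 0 ∉ I2 := fun h =>
    ne_empty_of_mem (ta_mem t 0) (b2.1.2 _ h2.cyc (insert_eq_of_mem h ▸ k2))
  have key : ∀ D1 D2, N1.cyc D1 → N2.cyc D2 → t 0 ∉ D1 → t 0 ∉ D2 → symmDiff D1 D2 ⊆ I1 ∪ I2 →
      symmDiff D1 D2 = ∅ := fun D1 D2 d1 d2 e1 e2 h => by
    rw [ta_emp hE d1 b1.1 k1 e1 (N2.sub _ d2) b2.subset h, ta_emp ((inter_comm _ _).trans hE) d2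
      b2.1 k2 e2 (N1.sub _ d1) b1.subset (by rwa [symmDiff_comm, union_comm])]
    exact symmDiff_self _
  have hI : (N1.sum N2).Indep (I1 ∪ I2) := ⟨union_subset_union b1.subset b2.subset, by
    rintro _ ⟨D1, D2, d1, d2, rfl⟩ h
    have h0 : t 0 ∉ symmDiff D1 D2 := fun h0 => (mem_union.1 (h h0)).elim g1 g2
    rw [mem_symmDiff] at h0
    by_cases e1 : t 0 ∈ D1
    · have e : symmDiff (symmDiff D1 (tset t)) (symmDiff D2 (tset t)) = symmDiff D1 D2 := by
        rw [symmDiff_symmDiff_symmDiff_comm, symmDiff_self, symmDiff_bot]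
      have := ta_mem t 0
      exact e ▸ key _ _ (N1.sd _ _ d1 h1.cyc) (N2.sd _ _ d2 h2.cyc)
        (by rw [mem_symmDiff]; tauto) (by rw [mem_symmDiff]; tauto) (e ▸ h)
    · exact key _ _ d1 d2 e1 (by tauto) h⟩
  have a1 := hI.card_le_r hI.1
  have a2 := card_union_add_card_inter I1 I2
  have a3 := (b1.1.subset inter_subset_left).card_le_r
    (hE ▸ inter_subset_inter b1.subset b2.subset : I1 ∩ I2 ⊆ tset t)
  rw [b1.2, b2.2] at a2
  rw [h1.rk] at a3
  rw [sum_E] at a1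
  omega

theorem ta_ty (hr : ∀ Y ⊆ L ∪ tset t, P.r Y = P'.r Y)
    (hI : ∀ Y ⊆ L ∪ tset t, P.Indep Y ↔ P'.Indep Y) : P.HasTy t L = P'.HasTy t L := by
  funext F β
  refine propext (and_congr_right fun hF => ?_)
  have h1 : ∀ i, P.r (insert (t i) F) = P'.r (insert (t i) F) := fun i =>
    hr _ (insert_subset (mem_union_right _ (ta_mem t i)) (hF.trans subset_union_left))
  rw [hI F (hF.trans subset_union_left), hr _ Subset.rfl, hr _ (union_subset_union_left hF)]
  simp only [h1]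

/-- two different points of the line span it -/
theorem ta_two (h : P.IsTri t) {i j : Fin 3} (hij : i ≠ j) (hi : t i ∈ P.cl X)
    (hj : t j ∈ P.cl X) : P.r X = P.r (X ∪ tset t) := by
  have s : {t i, t j} ⊆ tset t := insert_subset (ta_mem t i) (singleton_subset_iff.2 (ta_mem t j))
  rw [← r_union_of_subset_cl (insert_subset hi (singleton_subset_iff.2 hj)), union_comm,
    r_union_congr s (by rw [(h.indep s card_le_two).r_eq, card_pair (h.inj.ne hij), h.rk]),
    union_comm]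

theorem ta_one (h : P.IsTri t) (i : Fin 3) : P.r {t i} = 1 :=
  (h.indep (singleton_subset_iff.2 (ta_mem t i)) (by simp)).r_eq

theorem ta_cl (h : P.IsTri t) (hF : P.HasTy t L F β) {i : Fin 3} (hi : β = .p i) :
    t i ∈ P.cl F :=
  mem_cl.2 ⟨h.subset (ta_mem t i), (hF.2.2.2.2 i hi).trans hF.2.1.r_eq.symm⟩

theorem ta_dim {α β : Tp} (h : α.compat β = true) : α.dim + β.dim = 2 := by
  revert α β; decide

theorem ta_compat {α β : Tp} (h : α.dim + β.dim = 2) (h' : ∀ i, α = .p i → β ≠ .p i) :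
    α.compat β = true := by
  revert α β; decide

theorem ta_cases {α β : Tp} (h : α.compat β = true) :
    α.dim = 0 ∨ β.dim = 0 ∨ ∃ i j, i ≠ j ∧ α = .p i ∧ β = .p j := by
  revert α β; decide

theorem ta_key (h : N.IsTri t) (hE : N.E = L ∪ tset t) (hd : Disjoint L (tset t))
    (hF : N.HasTy t L F β) (hS : tyT t S γ) : N.IsBase (F ∪ S) ↔ β.compat γ = true := by
  have a1 := card_union_of_disjoint (hd.mono hF.1 hS.1)
  have a2 := hF.2.2.1
  have a3 := hF.2.2.2.1
  have a4 := hS.2.1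
  have a5 := hF.2.1.r_eq
  rw [← hE] at a2
  refine ⟨fun hB => ta_compat (by have := hB.2; omega) fun i h1 h2 => ?_, fun hc => ?_⟩
  · have a6 := hF.2.2.2.2 i h1
    have a7 := hB.1.r_eq
    rw [a1, hS.2.2 i h2, union_comm, ← insert_eq, card_singleton] at a7
    omega
  · have a6 := ta_dim hc
    refine isBase_of_span (hE ▸ union_subset_union hF.1 hS.1) ?_ (by omega)
    rcases ta_cases hc with h0 | h0 | ⟨i, j, hij, hi, hj⟩
    · rw [union_comm, r_union_congr hS.1 (by rw [(h.indep hS.1 (by omega)).r_eq, h.rk]; omega),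
        union_comm, a2]
    · rw [card_eq_zero.1 (a4.trans h0), union_empty]
      omega
    · have s := hE ▸ union_subset_union hF.1 hS.1
      rw [ta_two h hij (N.cl_mono subset_union_left (ta_cl h hF hi)) (subset_cl s
        (mem_union_right _ (hS.2.2 j hj ▸ mem_singleton_self _))), union_assoc,
        union_eq_right.2 hS.1, a2]

theorem ta_tyT (hS : S ⊆ tset t) (hc : S.card ≤ 2) : ∃ γ, tyT t S γ := by
  obtain h | h | h : S.card = 0 ∨ S.card = 1 ∨ S.card = 2 := by omega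
  · exact ⟨.z, hS, h, nofun⟩
  · obtain ⟨a, rfl⟩ := card_eq_one.1 h
    have := hS (mem_singleton_self a)
    simp only [tset, mem_insert, mem_singleton] at this
    obtain ⟨i, rfl⟩ : ∃ i, a = t i := by rcases this with h | h | h <;> exact ⟨_, h⟩
    exact ⟨.p i, hS, h, fun j hj => by cases hj; rfl⟩
  · exact ⟨.u, hS, h, nofun⟩

theorem ta_exS (h : N.IsTri t) (γ : Tp) : ∃ S, tyT t S γ := by
  rcases γ with _ | i | _
  · exact ⟨∅, empty_subset _, rfl, nofun⟩
  · exact ⟨{t i}, singleton_subset_iff.2 (ta_mem t i), rfl, fun j hj => by cases hj; rfl⟩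
  · exact ⟨{t 1, t 2}, subset_insert _ _, card_pair (h.inj.ne (by decide)), nofun⟩

/-! ### adding points of the intersection of the spans of the two sides -/

theorem ta_fin (hA : A ⊆ M.E) {v : ℕ → ℕ → ZMod 2} (hv : M.Rep v) :
    ∃ W : Finset (ℕ → ZMod 2), W.card = M.lam A ∧ Module.finrank (ZMod 2)
      (Submodule.span (ZMod 2) (W : Set (ℕ → ZMod 2))) = M.lam A ∧
      Submodule.span (ZMod 2) (W : Set (ℕ → ZMod 2)) = Submodule.span (ZMod 2) (v '' A) ⊓
        Submodule.span (ZMod 2) (v '' (M.E \ A : Finset ℕ)) := by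
  have f : ∀ X : Finset ℕ, FiniteDimensional (ZMod 2) (Submodule.span (ZMod 2) (v '' X)) :=
    fun X => FiniteDimensional.span_of_finite _ (X.finite_toSet.image _)
  have h1 := Submodule.finrank_sup_add_finrank_inf_eq (Submodule.span (ZMod 2) (v '' A))
    (Submodule.span (ZMod 2) (v '' (M.E \ A : Finset ℕ)))
  rw [← Submodule.span_union, ← Set.image_union, ← coe_union, union_sdiff_of_subset hA,
    ← hv.r_eq hA, ← hv.r_eq sdiff_subset, ← hv.r_eq Subset.rfl, ← M.lam_add, add_comm,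
    Nat.add_right_cancel_iff] at h1
  have f' : Module.Finite (ZMod 2) (Submodule.span (ZMod 2) (v '' A) ⊓
    Submodule.span (ZMod 2) (v '' (M.E \ A : Finset ℕ)) : Submodule _ _) := inferInstance
  generalize Submodule.span (ZMod 2) (v '' A) ⊓
    Submodule.span (ZMod 2) (v '' (M.E \ A : Finset ℕ)) = U at h1 f'
  rw [← Submodule.span_eq U] at f'
  obtain ⟨W, -, h2, h3, -⟩ := Submodule.exists_finset_span_eq_linearIndepOn (ZMod 2)
    (U : Set (ℕ → ZMod 2))
  rw [Submodule.span_eq] at h2 h3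
  exact ⟨W, h2.trans h1, by rw [h3, h1], h3⟩

theorem ta_add (hA : A ⊆ M.E) {v : ℕ → ℕ → ZMod 2} (hv : M.Rep v) (hS : Disjoint S M.E)
    (u : ℕ → ℕ → ZMod 2) (hu : Submodule.span (ZMod 2) (u '' S) = Submodule.span (ZMod 2) (v '' A) ⊓
      Submodule.span (ZMod 2) (v '' (M.E \ A : Finset ℕ))) :
    ∃ P : BM, P.E = M.E ∪ S ∧ P.del S = M ∧ S ⊆ P.cl A ∧ S ⊆ P.cl (M.E \ A) ∧
      P.r S = Module.finrank (ZMod 2) (Submodule.span (ZMod 2) (u '' S)) ∧
      (∑ e ∈ S, u e = 0 → P.cyc S) := by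
  obtain ⟨P, hE, hP⟩ := exists_of_vec (M.E ∪ S) fun e => if e ∈ S then u e else v e
  have h1 : ∀ X ⊆ M.E, (fun e => if e ∈ S then u e else v e) '' (X : Set ℕ) = v '' X :=
    fun X hX => Set.image_congr fun e he => if_neg (disjoint_right.1 hS (hX he))
  have h2 : ∀ X ⊆ M.E, Submodule.span (ZMod 2) (u '' S) ≤ Submodule.span (ZMod 2) (v '' X) →
      S ⊆ P.cl X := fun X hX h e he => by
    rw [hP.mem_cl (hE ▸ hX.trans subset_union_left) (hE ▸ mem_union_right _ he), h1 X hX, if_pos he]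
    exact h (Submodule.subset_span ⟨e, he, rfl⟩)
  refine ⟨P, hE, (hP.del S).ext (fun C => (hv C).trans (and_congr_right fun hC => ?_)) ?_,
    h2 A hA (hu ▸ inf_le_left), h2 _ sdiff_subset (hu ▸ inf_le_right), ?_, fun h => ?_⟩
  · rw [sum_congr rfl fun e he => if_neg (disjoint_right.1 hS (hC he))]
  · rw [del_E, hE, union_sdiff_cancel_right hS.symm]
  · rw [hP.r_eq (hE ▸ subset_union_right), Set.image_congr (s := (S : Set ℕ))
      (f := fun e => if e ∈ S then u e else v e) (g := u) fun e he => if_pos he]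
  · exact (hP S).2 ⟨hE ▸ subset_union_right, (sum_congr rfl fun e he => if_pos he).trans h⟩

/-! ### two-sums -/

/-- `p` is a basepoint for the sides `A1`, `A2` -/
structure Bp (P : BM) (p : ℕ) (A1 A2 : Finset ℕ) : Prop where
  E : P.E = insert p (A1 ∪ A2)
  d : Disjoint A1 A2
  n1 : p ∉ A1
  n2 : p ∉ A2
  c1 : p ∈ P.cl A1
  c2 : p ∈ P.cl A2
  one : P.r {p} = 1
  rk : P.r A1 + P.r A2 = P.r (A1 ∪ A2) + 1

theorem Bp.symm (h : P.Bp p A1 A2) : P.Bp p A2 A1 :=
  ⟨union_comm A1 A2 ▸ h.E, h.d.symm, h.n2, h.n1, h.c2, h.c1, h.one,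
    by rw [add_comm, union_comm]; exact h.rk⟩

theorem Bp.skew (h : P.Bp p A1 A2) (h1 : X1 ⊆ insert p A1) (h2 : X2 ⊆ insert p A2)
    (hs : P.r (insert p X2) = P.r X2 + 1) : P.r (X1 ∪ X2) = P.r X1 + P.r X2 := by
  refine ta_skew (ta_union (T := {p}) ?_ (by simp) (by simp) h1 h2)
    (by rw [h.one, ← hs, insert_eq, union_comm])
  rw [← insert_union_distrib, (mem_cl.1 h.c1).2, (mem_cl.1 h.c2).2,
    (mem_cl.1 (P.cl_mono subset_union_left h.c1)).2, h.one, h.rk]

theorem Bp.minor (h : P.Bp p A1 A2) : (P.del {p}).HasMinor (P.res (insert p A1)) := by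
  have hp := (mem_cl.1 h.c2).1
  obtain ⟨C, c1, c2, c3⟩ := ((r_insert_eq_iff hp).1 (mem_cl.1 h.c2).2).resolve_left h.n2
  obtain ⟨D, d1, d2, d3, d4⟩ := exists_circuit c1 c2
  replace d3 := d3.trans c3
  obtain ⟨z, hz⟩ : (D.erase p).Nonempty := nonempty_iff_ne_empty.2 fun h0 => by
    have := (cyc_singleton_iff hp).1 (by rwa [← insert_erase d2, h0] at d1)
    have := h.one
    omega
  have s2 : D.erase p ⊆ A2 := subset_insert_iff.1 d3
  have s0 : (D.erase p).erase z ⊆ A2 := (erase_subset _ _).trans s2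
  have e2 : ∀ x ∈ A2, x ∈ P.E \ {p} := fun x hx => mem_sdiff.2 ⟨h.E ▸ mem_insert_of_mem
    (mem_union_right _ hx), notMem_singleton.2 fun e => h.n2 (e ▸ hx)⟩
  have eE : (P.res (insert p A1)).E = insert p A1 :=
    inter_eq_right.2 (h.E ▸ insert_subset_insert p subset_union_left)
  have z1 : z ∉ A1 := disjoint_right.1 h.d (s2 hz)
  have zp := ne_of_mem_erase hz
  have eD : insert p ((D.erase p).erase z) = D.erase z := by
    rw [erase_right_comm, insert_erase (mem_erase.2 ⟨zp.symm, d2⟩)]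
  refine ⟨fun x => if x = p then z else x, (D.erase p).erase z, fun a ha b hb hab => ?_,
    fun x hx => e2 x (s0 hx), fun x hx => ?_, fun X hX => ?_⟩
  · rw [eE, mem_coe, mem_insert] at ha hb
    by_cases e1 : a = p <;> by_cases e2 : b = p <;> simp only [e1, e2, if_true, if_false] at hab ⊢
    · exact (z1 (hab ▸ hb.resolve_left e2)).elim
    · exact (z1 (hab ▸ ha.resolve_left e1)).elim
    · exact hab
  · rw [eE, mem_insert] at hx
    split_ifs with e
    · exact ⟨e2 z (s2 hz), notMem_erase _ _⟩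
    · replace hx := hx.resolve_left e
      exact ⟨mem_sdiff.2 ⟨h.E ▸ mem_insert_of_mem (mem_union_left _ hx), notMem_singleton.2 e⟩,
        fun h0 => disjoint_left.1 h.d hx (s0 h0)⟩
  · rw [eE] at hX
    have n0 : p ∉ (D.erase p).erase z := fun h0 => notMem_erase p D (mem_of_mem_erase h0)
    have i0 := d4 z (mem_of_mem_erase hz)
    rw [r_res_of_subset _ hX, r_del_of_disjoint _ (disjoint_singleton_right.2 n0),
      ← h.skew hX (s0.trans (subset_insert _ _)) (by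
        rw [(eD ▸ i0 : P.Indep _).r_eq, card_insert_of_notMem n0,
          (i0.subset (eD ▸ subset_insert _ _)).r_eq]),
      r_del_of_disjoint _ (disjoint_singleton_right.2 fun h0 => by
        rcases mem_union.1 h0 with h0 | h0
        · obtain ⟨x, -, hx⟩ := mem_image.1 h0
          split_ifs at hx with e
          exacts [zp hx, e hx]
        · exact n0 h0)]
    by_cases hp : p ∈ X
    · have a1 := mem_cl_of_cyc (X := X ∪ (D.erase p).erase z) d1 (mem_of_mem_erase hz) fun x hx => by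
        simp only [mem_insert, mem_union, mem_erase]
        by_cases e : x = p
        · exact Or.inr (Or.inl (e ▸ hp))
        · tauto
      have a2 := mem_cl_of_cyc (X := X.image (fun x => if x = p then z else x) ∪
        (D.erase p).erase z) d1 d2 fun x hx => by
          simp only [mem_insert, mem_union, mem_erase, mem_image]
          by_cases e : x = z
          · exact Or.inr (Or.inl ⟨p, hp, by simp [e]⟩)
          · tauto
      rw [← (mem_cl.1 a1).2, ← (mem_cl.1 a2).2]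
      congr 1
      ext x
      simp only [mem_insert, mem_union, mem_image]
      constructor
      · rintro (rfl | h0 | h0)
        · exact Or.inr (Or.inl ⟨p, hp, if_pos rfl⟩)
        · by_cases e : x = p
          exacts [Or.inl e, Or.inr (Or.inl ⟨x, h0, if_neg e⟩)]
        · exact Or.inr (Or.inr h0)
      · rintro (rfl | ⟨y, hy, rfl⟩ | h0)
        · exact Or.inr (Or.inl hp)
        · split_ifs
          exacts [Or.inl rfl, Or.inr (Or.inl hy)]
        · exact Or.inr (Or.inr h0)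
    · rw [image_congr (f := fun x => if x = p then z else x) (g := id)
        fun x hx => if_neg fun e : x = p => hp (e ▸ hx), image_id]

theorem Bp.base (h : P.Bp p A1 A2) (h1 : F1 ⊆ A1) (h2 : F2 ⊆ A2) :
    (P.res (insert p A1)).IsBase F1 ∧ (P.res (insert p A2)).IsBase (insert p F2) ↔
      P.Indep (F1 ∪ F2) ∧ F1.card = P.r A1 ∧ F2.card + 1 = P.r A2 := by
  have n2 : p ∉ F2 := fun h0 => h.n2 (h2 h0)
  have hc := card_union_of_disjoint (h.d.mono h1 h2)
  have s : F1 ∪ F2 ⊆ P.E := h.E ▸ (union_subset_union h1 h2).trans (subset_insert _ _)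
  rw [isBase_res, isBase_res, (mem_cl.1 h.c1).2, (mem_cl.1 h.c2).2, card_insert_of_notMem n2]
  refine ⟨fun ⟨⟨a1, _, a2⟩, a3, _, a4⟩ => ⟨indep_iff.2 ⟨s, ?_⟩, a2, a4⟩, fun ⟨a1, a2, a3⟩ =>
    ⟨⟨a1.subset subset_union_left, h1.trans (subset_insert _ _), a2⟩,
      indep_iff.2 ⟨insert_subset (mem_cl.1 h.c1).1 (subset_union_right.trans s), ?_⟩,
      insert_subset_insert p h2, a3⟩⟩
  · have a5 := (a3.subset (subset_insert _ _)).r_eq
    rw [h.skew (h1.trans (subset_insert _ _)) (h2.trans (subset_insert _ _))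
      (by rw [a3.r_eq, card_insert_of_notMem n2, a5]), a1.r_eq, a5, hc]
  · have b1 := P.r_submod (insert p F1) (insert p F2)
    have b2 := a1.card_le_r (union_subset_union (subset_insert p F1) (subset_insert p F2))
    have b3 := P.r_mono (show {p} ⊆ insert p F1 ∩ insert p F2 by simp)
    have b4 := P.r_mono (insert_subset_insert p h1)
    have b5 := P.r_le_card (insert p F2)
    rw [(mem_cl.1 h.c1).2] at b4
    rw [h.one] at b3
    rw [card_insert_of_notMem n2] at b5 ⊢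
    omega

end BM

end Pool.Agent.P.MP_3f5ce9_co
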