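import Pool.Agent.P.MP_3f5ce9_co.W.DefsAB
import Pool.Agent.P.MP_3f5ce9_co.W.Lin
import Pool.Agent.P.MP_3f5ce9_co.W.TriA2

/-!
Three-sums: rank formula, bases, existence.
-/

open Finset

namespace Pool.Agent.P.MP_3f5ce9_co

theorem mem_tset {t : Fin 3 → ℕ} {e : ℕ} : e ∈ tset t ↔ ∃ i, t i = e := by
  simp [tset, Fin.exists_fin_succ, eq_comm]

namespace BM

variable {M N P P' N1 N2 : BM} {t : Fin 3 → ℕ} {L L1 L2 X X1 X2 A B C F Z : Finset ℕ} {β : Tp}

theorem Tri.symm (h : P.Tri t L1 L2) : P.Tri t L2 L1 := by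
  exact ⟨h.tri, union_comm L1 L2 ▸ h.ground, h.d12.symm, h.d2, h.d1, (add_comm _ _).trans h.rk⟩

theorem TriS.symm (h : P.TriS t L1 L2) : P.TriS t L2 L1 := by
  exact ⟨h.toTri.symm, h.s2, h.s1⟩

theorem Tri.del_E (h : P.Tri t L1 L2) : (P.del (tset t)).E = L1 ∪ L2 := by
  rw [BM.del_E, h.ground, union_sdiff_cancel_right (disjoint_union_left.2 ⟨h.d1, h.d2⟩)]

theorem Tri.res_E (h : P.Tri t L1 L2) : (P.res (L1 ∪ tset t)).E = L1 ∪ tset t := by
  exact inter_eq_right.2 (h.ground ▸ union_subset_union_left subset_union_left)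

theorem IsTri.res (h : P.IsTri t) (hX : tset t ⊆ X) : (P.res X).IsTri t := by
  exact ⟨⟨h.cyc, hX⟩, h.card, (P.r_res_of_subset hX).trans h.rk⟩

theorem IsTri.of_res (h : (P.res X).IsTri t) : P.IsTri t := by
  exact ⟨h.cyc.1, h.card, (P.r_res_of_subset h.cyc.2).symm.trans h.rk⟩

theorem IsTri.del (h : P.IsTri t) (hX : Disjoint (tset t) X) : (P.del X).IsTri t := by
  exact ⟨⟨h.cyc, hX⟩, h.card, (P.r_del_of_disjoint hX).trans h.rk⟩

theorem IsTri.of_del (h : (P.del X).IsTri t) : P.IsTri t := by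
  exact ⟨h.cyc.1, h.card, (P.r_del_of_disjoint h.cyc.2).symm.trans h.rk⟩

theorem Tri.r_union (h : P.Tri t L1 L2) (h1 : X1 ⊆ L1 ∪ tset t) (h2 : X2 ⊆ L2 ∪ tset t) :
    P.r (X1 ∪ X2 ∪ tset t) + 2 = P.r (X1 ∪ tset t) + P.r (X2 ∪ tset t) := by
  rw [← h.tri.rk]
  exact ta_union (by rw [← union_union_distrib_right, ← h.ground, h.tri.rk, h.rk])
    subset_union_right subset_union_right h1 h2

theorem Tri.r_skew (h : P.Tri t L1 L2) (h1 : X1 ⊆ L1 ∪ tset t) (h2 : X2 ⊆ L2 ∪ tset t)
    (hs : P.r (X2 ∪ tset t) = P.r X2 + 2) : P.r (X1 ∪ X2) = P.r X1 + P.r X2 := by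
  exact ta_skew (T := tset t) (by rw [h.tri.rk, h.r_union h1 h2]) (by rw [h.tri.rk, hs])

theorem Tri.cyc_split (h : P.Tri t L1 L2) (hC : P.cyc C) : ∃ D1 D2, P.cyc D1 ∧ P.cyc D2 ∧
    D1 ⊆ L1 ∪ tset t ∧ D2 ⊆ L2 ∪ tset t ∧ C = symmDiff D1 D2 := by
  rw [ta_sum (h.tri.rk ▸ h.rk) (h.ground.trans (union_union_distrib_right _ _ _))
    subset_union_right subset_union_right] at hC
  obtain ⟨D1, D2, h1, h2, e⟩ := hC
  exact ⟨D1, D2, h1.1, h2.1, h1.2, h2.2, e⟩

theorem Tri.eq_sum (h : P.Tri t L1 L2) :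
    P = (P.res (L1 ∪ tset t)).sum (P.res (L2 ∪ tset t)) := by
  exact ta_sum (h.tri.rk ▸ h.rk) (h.ground.trans (union_union_distrib_right _ _ _))
    subset_union_right subset_union_right

theorem tri_sum (h1 : N1.IsTri t) (h2 : N2.IsTri t) (hE : N1.E ∩ N2.E = tset t) :
    (N1.sum N2).Tri t (N1.E \ tset t) (N2.E \ tset t) ∧ (N1.sum N2).res N1.E = N1 ∧
      (N1.sum N2).res N2.E = N2 := by
  have r1 := ta_res h1 h2 hE
  have r2 := ta_res h2 h1 ((inter_comm _ _).trans hE)
  rw [sum_comm] at r2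
  have t1 := IsTri.of_res (r1.symm ▸ h1 : ((N1.sum N2).res N1.E).IsTri t)
  refine ⟨⟨t1, ?_, disjoint_left.2 fun x x1 x2 => (mem_sdiff.1 x1).2
    (hE ▸ mem_inter.2 ⟨(mem_sdiff.1 x1).1, (mem_sdiff.1 x2).1⟩), sdiff_disjoint, sdiff_disjoint, ?_⟩,
    r1, r2⟩
  · rw [union_union_distrib_right, sdiff_union_of_subset h1.subset,
      sdiff_union_of_subset h2.subset, sum_E]
  · have a1 := ta_rk h1 h2 hE
    have a2 := (N1.sum N2).r_submod N1.E N2.E
    have a3 := (N1.sum N2).r_res_of_subset (Subset.rfl (s := N1.E))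
    have a4 := (N1.sum N2).r_res_of_subset (Subset.rfl (s := N2.E))
    rw [hE, t1.rk] at a2
    rw [r1] at a3
    rw [r2] at a4
    rw [sdiff_union_of_subset h1.subset, sdiff_union_of_subset h2.subset, sum_E]
    omega

/-- deleting elements of one side -/
theorem Tri.del_left (h : P.Tri t L1 L2) (hX : X ⊆ L1) : (P.del X).Tri t (L1 \ X) L2 := by
  have d1 : Disjoint (tset t) X := (h.d1.mono_left hX).symm
  have d2 : Disjoint L2 X := (h.d12.mono_left hX).symm
  have e : (P.del X).E = L1 \ X ∪ L2 ∪ tset t := by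
    rw [BM.del_E, h.ground, union_sdiff_distrib, union_sdiff_distrib, sdiff_eq_self_of_disjoint d1,
      sdiff_eq_self_of_disjoint d2]
  refine ⟨h.tri.del d1, e, h.d12.mono_left sdiff_subset, h.d1.mono_left sdiff_subset, h.d2, ?_⟩
  rw [P.r_del_of_disjoint (Y := (P.del X).E) sdiff_disjoint, e,
    P.r_del_of_disjoint (disjoint_union_left.2 ⟨sdiff_disjoint, d1⟩),
    P.r_del_of_disjoint (disjoint_union_left.2 ⟨d2, d1⟩),
    h.r_union (sdiff_subset.trans subset_union_left) subset_union_left]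

theorem TriS.r_eq (h : P.TriS t L1 L2) : P.r (L1 ∪ L2) = P.r P.E := by
  rw [union_comm, r_union_congr subset_union_left h.s2.symm, h.ground, union_comm, union_assoc]

theorem Tri.r_eq_of_span (h : P.Tri t L1 L2) (hs : P.r (L2 ∪ tset t) = P.r L2) :
    P.r (L1 ∪ L2) = P.r P.E := by
  rw [union_comm, r_union_congr subset_union_left hs.symm, h.ground, union_comm, union_assoc]

theorem Tri.ta_lam (h : P.Tri t L1 L2) (hX : X ⊆ L2) :
    (P.del (tset t)).lam X + P.r (L1 ∪ L2) = P.r X + P.r (L1 ∪ L2 \ X) := by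
  have d := disjoint_union_left.2 ⟨h.d1, h.d2⟩
  have := (P.del (tset t)).lam_add X
  rwa [h.del_E, P.r_del_of_disjoint d, P.r_del_of_disjoint (h.d2.mono_left hX),
    P.r_del_of_disjoint (d.mono_left sdiff_subset), union_sdiff_distrib,
    sdiff_eq_self_of_disjoint (h.d12.mono_right hX)] at this

theorem TriS.lam_eq (h : P.TriS t L1 L2) : (P.del (tset t)).lam L2 = 2 := by
  have a1 := h.toTri.ta_lam (Subset.rfl (s := L2))
  have a2 := h.rk
  rw [Finset.sdiff_self, union_empty, h.r_eq] at a1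
  rw [h.s1, h.s2] at a2
  omega

theorem Tri.triS (h : P.Tri t L1 L2) (hr : P.r (L1 ∪ L2) = P.r P.E)
    (hl : 2 ≤ (P.del (tset t)).lam L2) : P.TriS t L1 L2 := by
  have a1 := h.ta_lam (Subset.rfl (s := L2))
  have a2 := h.rk
  have a3 := P.r_mono (subset_union_left (s₁ := L1) (s₂ := tset t))
  have a4 := P.r_mono (subset_union_left (s₁ := L2) (s₂ := tset t))
  rw [Finset.sdiff_self, union_empty, hr] at a1
  exact ⟨h, by omega, by omega⟩

/-- the connectivity of a subset of one side -/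
theorem Tri.lam_le (h : P.Tri t L1 L2) (hr : P.r (L1 ∪ L2) = P.r P.E) (hX : X ⊆ L2) :
    (P.del (tset t)).lam X ≤ (P.res (L2 ∪ tset t)).lam X := by
  have a1 := h.ta_lam hX
  have a2 := (P.res (L2 ∪ tset t)).lam_add X
  have a3 := h.r_union (X2 := L2 \ X) subset_union_left (sdiff_subset.trans subset_union_left)
  have a4 := P.r_mono (subset_union_left (s₁ := L1 ∪ L2 \ X) (s₂ := tset t))
  have a5 := h.rk
  rw [h.symm.res_E, P.r_res_of_subset Subset.rfl, P.r_res_of_subset (hX.trans subset_union_left),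
    P.r_res_of_subset sdiff_subset, union_sdiff_distrib,
    sdiff_eq_self_of_disjoint (h.d2.mono_left hX).symm] at a2
  omega

theorem hasTy_res (hX : L ∪ tset t ⊆ X) : (P.res X).HasTy t L = P.HasTy t L := by
  exact ta_ty (fun Y hY => P.r_res_of_subset (hY.trans hX))
    fun Y hY => indep_res.trans (and_iff_left (hY.trans hX))

theorem hasTy_del (hX : Disjoint (L ∪ tset t) X) : (P.del X).HasTy t L = P.HasTy t L := by
  exact ta_ty (fun Y hY => P.r_del_of_disjoint (hX.mono_left hY))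
    fun Y hY => indep_del.trans (and_iff_left (hX.mono_left hY))

theorem hasTy_congr (h : P.res (L ∪ tset t) = P'.res (L ∪ tset t)) :
    P.HasTy t L = P'.HasTy t L := by
  rw [← hasTy_res (P := P) Subset.rfl, h, hasTy_res Subset.rfl]

/-- an independent set that spans the side together with the triangle has a type -/
theorem exists_hasTy (h : P.IsTri t) (hF : F ⊆ L) (hI : P.Indep F)
    (hr : P.r (F ∪ tset t) = P.r (L ∪ tset t)) : ∃ β, P.HasTy t L F β := by
  have a1 := hI.r_eq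
  have a2 := P.r_union_le F (tset t)
  have a3 := P.r_mono (subset_union_left (s₁ := F) (s₂ := tset t))
  rw [h.rk] at a2
  obtain h0 | h0 | h0 : P.r (F ∪ tset t) = F.card + 2 ∨ P.r (F ∪ tset t) = F.card + 1 ∨
    P.r (F ∪ tset t) = F.card := by omega
  · exact ⟨.z, hF, hI, hr, h0, nofun⟩
  · obtain ⟨i, hi⟩ := h.exists_mem_cl (X := F) (by omega)
    exact ⟨.p i, hF, hI, hr, congrArg (· + 1) h0, fun j hj => by
      cases hj; exact (mem_cl.1 hi).2.trans a1⟩
  · exact ⟨.u, hF, hI, hr, congrArg (· + 2) h0, nofun⟩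

theorem Tri.isBase_iff (h : P.Tri t L1 L2) :
    P.IsBase B ∧ Disjoint B (tset t) ↔ Glue L1 (P.HasTy t L1) L2 (P.HasTy t L2) B := by
  have a1 := card_union_of_disjoint (h.d12.mono (inter_subset_right (s₁ := B))
    (inter_subset_right (s₁ := B)))
  have s1 := (inter_subset_right (s₁ := B)).trans (subset_union_left (s₁ := L1) (s₂ := tset t))
  have s2 := (inter_subset_right (s₁ := B)).trans (subset_union_left (s₁ := L2) (s₂ := tset t))
  have a2 := h.r_union s1 s2
  have a3 := h.rk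
  have key : ∀ α β, P.HasTy t L1 (B ∩ L1) α → P.HasTy t L2 (B ∩ L2) β →
      P.r P.E + α.dim + β.dim = (B ∩ L1).card + (B ∩ L2).card + 2 := fun α β h1 h2 => by
    have := h1.2.2.1
    have := h1.2.2.2.1
    have := h2.2.2.1
    have := h2.2.2.2.1
    omega
  rw [← inter_union_distrib_left] at a1 a2
  refine ⟨fun ⟨hB, hd⟩ => ?_, fun ⟨s, α, β, h1, h2, hc⟩ => ?_⟩
  · have s : B ⊆ L1 ∪ L2 := h.del_E ▸ subset_sdiff.2 ⟨hB.subset, hd⟩
    rw [inter_eq_left.2 s] at a1 a2
    have b1 := P.r_mono (union_subset s1 subset_union_right)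
    have b2 := P.r_mono (union_subset s2 subset_union_right)
    have b3 := P.r_mono (subset_union_left (s₁ := B) (s₂ := tset t))
    have b4 := hB.r_eq
    have b5 := hB.2
    obtain ⟨α, h1⟩ := exists_hasTy h.tri inter_subset_right (hB.1.subset inter_subset_left)
      (show P.r (B ∩ L1 ∪ tset t) = _ by omega)
    obtain ⟨β, h2⟩ := exists_hasTy h.tri inter_subset_right (hB.1.subset inter_subset_left)
      (show P.r (B ∩ L2 ∪ tset t) = _ by omega)
    refine ⟨s, α, β, h1, h2, ta_compat (by have := key α β h1 h2; omega) fun i e1 e2 => ?_⟩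
    have c1 := P.r_submod (insert (t i) (B ∩ L1)) (insert (t i) (B ∩ L2))
    have c2 := P.r_mono (union_subset_union (subset_insert (t i) (B ∩ L1))
      (subset_insert (t i) (B ∩ L2)))
    have c3 := P.r_mono (show {t i} ⊆ insert (t i) (B ∩ L1) ∩ insert (t i) (B ∩ L2) by simp)
    rw [h1.2.2.2.2 i e1, h2.2.2.2.2 i e2] at c1
    rw [← inter_union_distrib_left, inter_eq_left.2 s] at c2
    rw [ta_one h.tri] at c3
    omega
  · have s' := subset_sdiff.1 (show B ⊆ P.E \ tset t from (h.del_E ▸ s : B ⊆ (P.del (tset t)).E))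
    have b1 := key α β h1 h2
    have b2 := ta_dim hc
    have b3 := h1.2.1.r_eq
    have b4 := h2.2.1.r_eq
    have b5 := h1.2.2.1
    have b6 := h2.2.2.1
    have b7 := h1.2.2.2.1
    have b8 := h2.2.2.2.1
    rw [inter_eq_left.2 s] at a1 a2
    refine ⟨isBase_of_span s'.1 ?_ (by omega), s'.2⟩
    rcases ta_cases hc with h0 | h0 | ⟨i, j, hij, hi, hj⟩
    · have := h.symm.r_skew s2 s1 (by omega)
      rw [union_comm, ← inter_union_distrib_left, inter_eq_left.2 s] at this
      omega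
    · have := h.r_skew s1 s2 (by omega)
      rw [← inter_union_distrib_left, inter_eq_left.2 s] at this
      omega
    · have := ta_two h.tri hij (P.cl_mono inter_subset_left (ta_cl h.tri h1 hi))
        (P.cl_mono inter_subset_left (ta_cl h.tri h2 hj))
      omega

theorem Tri.isBase_del (h : P.Tri t L1 L2) (hr : P.r (L1 ∪ L2) = P.r P.E) :
    (P.del (tset t)).IsBase = Glue L1 (P.HasTy t L1) L2 (P.HasTy t L2) := by
  funext B
  exact propext ((BM.isBase_del ((congrArg P.r h.del_E).trans hr)).trans h.isBase_iff)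

/-- if a glued set exists then the sides span -/
theorem Tri.r_eq_of_glue (h : P.Tri t L1 L2)
    (hB : Glue L1 (P.HasTy t L1) L2 (P.HasTy t L2) B) : P.r (L1 ∪ L2) = P.r P.E := by
  exact le_antisymm (P.r_le_rE _) ((h.isBase_iff.2 hB).1.r_eq ▸ P.r_mono hB.1)

theorem isBase_labels (h : N.IsTri t) (hE : N.E = L ∪ tset t) (hd : Disjoint L (tset t)) :
    N.IsBase = Glue L (N.HasTy t L) (tset t) (tyT t) := by
  funext B
  refine propext ⟨fun hB => ?_, fun ⟨s, α, β, h1, h2, hc⟩ => ?_⟩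
  · have s : B ⊆ L ∪ tset t := hE ▸ hB.subset
    have e : B ∩ L ∪ B ∩ tset t = B := by rw [← inter_union_distrib_left, inter_eq_left.2 s]
    obtain ⟨α, h1⟩ := exists_hasTy h (inter_subset_right (s₁ := B) (s₂ := L))
      (hB.1.subset inter_subset_left) (le_antisymm (hE ▸ N.r_le_rE _) (by
        rw [← hE, ← hB.r_eq]
        exact N.r_mono (e.ge.trans (union_subset_union_right inter_subset_right))))
    obtain ⟨β, h2⟩ := ta_tyT (inter_subset_right (s₁ := B)) (h.rk ▸ hB.card_inter_le (tset t))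
    exact ⟨s, α, β, h1, h2, (ta_key h hE hd h1 h2).1 (e.symm ▸ hB)⟩
  · have := (ta_key h hE hd h1 h2).2 hc
    rwa [← inter_union_distrib_left, inter_eq_left.2 s] at this

/-- types in terms of bases -/
theorem hasTy_iff (h : N.IsTri t) (hE : N.E = L ∪ tset t) (hd : Disjoint L (tset t)) :
    N.HasTy t L F β ↔ F ⊆ L ∧
      ∀ S γ, tyT t S γ → (N.IsBase (F ∪ S) ↔ β.compat γ = true) := by
  refine ⟨fun hF => ⟨hF.1, fun S γ hS => ta_key h hE hd hF hS⟩, fun ⟨hF, h1⟩ => ?_⟩
  obtain ⟨γ, hγ⟩ := (by decide : ∀ β : Tp, ∃ γ, β.compat γ = true) β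
  obtain ⟨S, hS⟩ := ta_exS h γ
  have hB := (h1 S γ hS).2 hγ
  obtain ⟨α, h2⟩ := exists_hasTy h hF (hB.1.subset subset_union_left)
    (le_antisymm (hE ▸ N.r_le_rE _) (by
      rw [← hE, ← hB.r_eq]
      exact N.r_mono (union_subset_union_right hS.1)))
  rwa [(by decide : ∀ α β : Tp, (∀ γ, β.compat γ = true ↔ α.compat γ = true) → β = α) α β
    fun γ => let ⟨S, hS⟩ := ta_exS h γ; (h1 S γ hS).symm.trans (ta_key h hE hd h2 hS)]

theorem ta_fresh (Z : Finset ℕ) :
    ∃ (t : Fin 3 → ℕ) (n : ℕ), (∀ i, t i = n + i) ∧ Disjoint (tset t) Z := by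
  refine ⟨fun i => Z.sup id + 1 + i, _, fun _ => rfl, disjoint_left.2 fun x hx hZ => ?_⟩
  obtain ⟨i, rfl⟩ := mem_tset.1 hx
  have : Z.sup id + 1 + i ≤ Z.sup id := le_sup (f := id) hZ
  omega

/-- an exact three-separation comes from a triangle -/
theorem exists_plus (hA : A ⊆ M.E) (h : M.lam A = 2) (Z : Finset ℕ) :
    ∃ P t, BM.TriS P t (M.E \ A) A ∧ P.del (tset t) = M ∧ Disjoint (tset t) Z := by
  let _ : DecidableEq (ℕ → ZMod 2) := Classical.decEq _
  obtain ⟨v, hv⟩ := M.exists_rep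
  obtain ⟨W, w1, w2, w3⟩ := ta_fin hA hv
  obtain ⟨a, b, -, rfl⟩ := card_eq_two.1 (w1.trans h)
  obtain ⟨t, n, ht, hd⟩ := ta_fresh (Z ∪ M.E)
  rw [disjoint_union_right] at hd
  have e : Submodule.span (ZMod 2) ((fun e => if e = n then a else if e = n + 1 then b else a + b) ''
      (tset t : Set ℕ)) = Submodule.span (ZMod 2) (({a, b} : Finset _) : Set (ℕ → ZMod 2)) := by
    simp only [tset, ht, coe_insert, coe_singleton, Set.image_insert_eq, Set.image_singleton]
    rw [Set.pair_comm, Set.insert_comm]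
    simpa using Submodule.span_insert_eq_span (Submodule.add_mem _
      (Submodule.subset_span (Set.mem_insert a {b})) (Submodule.subset_span (by simp)))
  obtain ⟨P, p1, p2, p3, p4, p5, p6⟩ := ta_add hA hv hd.2 _ (e.trans w3)
  have hr : ∀ X ⊆ M.E, P.r X = M.r X := fun X hX => by
    rw [← p2, P.r_del_of_disjoint (hd.2.symm.mono_left hX)]
  have s1 := r_union_of_subset_cl p4
  have s2 := r_union_of_subset_cl p3
  refine ⟨P, t, ⟨⟨⟨p6 ?_, by simp [tset, ht], by rw [p5, e, w2, h]⟩,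
    by rw [p1, sdiff_union_of_subset hA], sdiff_disjoint, hd.2.symm.mono_left sdiff_subset,
    hd.2.symm.mono_left hA, ?_⟩, s1, s2⟩, p2, hd.1⟩
  · have : a + (b + (a + b)) = 0 := by
      rw [← add_assoc]
      exact funext fun j => CharTwo.add_self_eq_zero ((a + b) j)
    simpa [tset, ht] using this
  · rw [s1, s2, p1, r_union_of_subset_cl (p3.trans (P.cl_mono hA)), hr _ hA, hr _ sdiff_subset,
      hr _ Subset.rfl, add_comm, ← M.lam_add, h, add_comm]

/-- a parallel copy of a triangle -/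
theorem exists_par_tri (h : N.IsTri t) (Z : Finset ℕ) :
    ∃ (s : Fin 3 → ℕ) (π : ℕ → ℕ), Disjoint (tset s) (Z ∪ N.E) ∧ Function.Injective s ∧
      (∀ i, π (s i) = t i) ∧ (∀ x ∈ N.E, π x = x) ∧ (N.pull π (N.E ∪ tset s)).IsTri s ∧
      (N.pull π (N.E ∪ tset s)).del (tset s) = N := by
  obtain ⟨s, n, hs, hd⟩ := ta_fresh (Z ∪ N.E)
  let π : ℕ → ℕ := fun x => if x = n then t 0 else if x = n + 1 then t 1 else
    if x = n + 2 then t 2 else x
  have h1 : ∀ i, π (s i) = t i := fun i => by fin_cases i <;> simp [π, hs]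
  have d : Disjoint (tset s) N.E := (disjoint_union_right.1 hd).2
  have h2 : ∀ x ∈ N.E, π x = x := fun x hx => by
    have := disjoint_right.1 d hx
    simp only [tset, hs, mem_insert, mem_singleton, not_or] at this
    exact (if_neg this.1).trans ((if_neg this.2.1).trans (if_neg this.2.2))
  have h3 : (tset s).image π = tset t := by simp only [tset, image_insert, image_singleton, h1]
  have h4 : (tset s).card = 3 := by simp [tset, hs]
  refine ⟨s, π, hd, fun i j e => Fin.ext (by simpa [hs] using e), h1, h2,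
    IsTri.of_res (X := tset s) ?_, ?_⟩
  · rw [pull_res, inter_eq_right.2 subset_union_right]
    refine ⟨(cyc_pull_inj (card_image_iff.1 (by rw [h3, h4, h.card]))).2 ⟨Subset.rfl, h3 ▸ h.cyc⟩,
      h4, ?_⟩
    rw [r_pull (fun x hx => h.subset (h3 ▸ mem_image_of_mem π hx)) Subset.rfl, h3, h.rk]
  · rw [del_eq_res, pull_res, pull_E, union_sdiff_cancel_right d.symm,
      inter_eq_right.2 subset_union_left, pull_id N h2 Subset.rfl, res_self N Subset.rfl]

/-! two-sums -/

/-- an exact two-separation comes from a basepoint -/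
theorem exists_plus2 (hA : A ⊆ M.E) (h : M.lam A = 1) :
    ∃ (P : BM) (p : ℕ), p ∉ M.E ∧ P.E = insert p M.E ∧ P.del {p} = M ∧
      M.HasMinor (P.res (insert p A)) ∧ M.HasMinor (P.res (insert p (M.E \ A))) ∧
      ∀ B, M.IsBase B ↔ B ⊆ M.E ∧
        (((P.res (insert p A)).IsBase (B ∩ A) ∧
          (P.res (insert p (M.E \ A))).IsBase (insert p (B \ A))) ∨
        ((P.res (insert p A)).IsBase (insert p (B ∩ A)) ∧
          (P.res (insert p (M.E \ A))).IsBase (B \ A))) := by
  obtain ⟨v, hv⟩ := M.exists_rep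
  obtain ⟨W, w1, w2, w3⟩ := ta_fin hA hv
  obtain ⟨a, rfl⟩ := card_eq_one.1 (w1.trans h)
  obtain ⟨p, hp⟩ := Infinite.exists_notMem_finset M.E
  have e : (fun _ => a) '' (({p} : Finset ℕ) : Set ℕ) = (({a} : Finset _) : Set (ℕ → ZMod 2)) := by
    simp
  obtain ⟨P, p1, p2, p3, p4, p5, -⟩ := ta_add hA hv (disjoint_singleton_left.2 hp) _ (e ▸ w3)
  have hr : ∀ X ⊆ M.E, P.r X = M.r X := fun X hX => by
    rw [← p2, P.r_del_of_disjoint (disjoint_singleton_right.2 fun h => hp (hX h))]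
  have hI : ∀ X ⊆ M.E, M.Indep X ↔ P.Indep X := fun X hX => by
    rw [← p2, indep_del, and_iff_left (disjoint_singleton_right.2 fun h => hp (hX h))]
  have hk := M.lam_add A
  have eE : P.E = insert p M.E := by rw [p1, union_comm, insert_eq]
  have hb : P.Bp p A (M.E \ A) := ⟨by rw [eE, union_sdiff_of_subset hA], disjoint_sdiff,
    fun h => hp (hA h), fun h => hp (mem_sdiff.1 h).1, p3 (mem_singleton_self p),
    p4 (mem_singleton_self p), by rw [p5, e, w2, h],
    by rw [union_sdiff_of_subset hA, hr _ hA, hr _ sdiff_subset, hr _ Subset.rfl]; omega⟩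
  refine ⟨P, p, hp, eE, p2, p2 ▸ hb.minor, p2 ▸ hb.symm.minor, fun B => ?_⟩
  refine (iff_self_and.2 fun hB => hB.subset).trans ?_
  rw [and_comm]
  refine and_congr_right fun hB => ?_
  have s := sdiff_subset_sdiff hB (Subset.rfl (s := A))
  have a1 := card_sdiff_add_card_inter B A
  rw [hb.base inter_subset_right s, and_comm (a := (P.res (insert p A)).IsBase _),
    hb.symm.base s inter_subset_right, union_comm (B ∩ A), sdiff_union_inter, hr _ hA,
    hr _ sdiff_subset, IsBase, hI B hB, ← and_or_left]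
  refine and_congr_right fun hi => ?_
  have a2 := (hi.subset inter_subset_left).card_le_r (inter_subset_right (s₂ := A))
  have a3 := (hi.subset sdiff_subset).card_le_r s
  rw [hr _ hA] at a2
  rw [hr _ sdiff_subset] at a3
  omega

end BM

end Pool.Agent.P.MP_3f5ce9_co
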