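import Pool.Agent.P.MP_3f5ce9_co.W.AGen
import Pool.Agent.P.MP_3f5ce9_co.W.TriA
import Pool.Agent.P.MP_3f5ce9_co.W.RegL

/-!
Reduction of the pair theorem to three-connected matroids without tight sets.
-/

open Finset

namespace Pool.Agent.P.MP_3f5ce9_co

section ared
open Relation
variable {𝓑 F G : Fam} {E X Y U V B : Finset ℕ} {a b o m n e f g : ℕ} {p x x' y y' : Pr}

theorem ared_mem (h : St2 𝓑 E p) (z : ℕ) :
    (z ∈ E ↔ z ∈ p.1 ∨ z ∈ p.2) ∧ ¬ (z ∈ p.1 ∧ z ∈ p.2) :=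
  ⟨by rw [← h.cov, mem_union], fun h' => disjoint_left.1 h.disj h'.1 h'.2⟩

theorem ared_st (h1 : 𝓑 p.1) (h2 : 𝓑 p.2)
    (h : ∀ z, (z ∈ E ↔ z ∈ p.1 ∨ z ∈ p.2) ∧ ¬ (z ∈ p.1 ∧ z ∈ p.2)) : St2 𝓑 E p :=
  ⟨h1, h2, disjoint_left.2 fun z a b => (h z).2 ⟨a, b⟩, by ext z; rw [mem_union, (h z).1]⟩

theorem ared_xch (h : St2 𝓑 E p) (he : e ∈ p.1) (hg : g ∈ p.2) (h1 : 𝓑 (xch p e g).1)
    (h2 : 𝓑 (xch p e g).2) : St2 𝓑 E (xch p e g) :=
  ared_st h1 h2 fun z => by
    have := ared_mem h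
    simp only [xch, mem_insert, mem_erase]; grind

theorem ared_card (h : St2 𝓑 E p) (he : e ∈ p.1) (hg : g ∈ p.2) :
    (xch p e g).1.card = p.1.card ∧ (xch p e g).2.card = p.2.card := by
  have := ared_mem h
  have h1 := card_erase_add_one he
  have h2 := card_erase_add_one hg
  simp only [xch]
  rw [card_insert_of_notMem (by grind), card_insert_of_notMem (by grind)]
  exact ⟨h1, h2⟩

theorem ared_lift (φ : Pr → Pr) (ok : Pr → Prop)
    (h : ∀ x x', US F X b x x' → (ok x ↔ ok x') ∧ (ok x → US 𝓑 E a (φ x) (φ x')))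
    (h' : EqvGen (US F X b) x x') :
    (ok x ↔ ok x') ∧ (ok x → EqvGen (US 𝓑 E a) (φ x) (φ x')) := by
  induction h' with
  | rel x x' hx => exact ⟨(h x x' hx).1, fun h1 => .rel _ _ ((h x x' hx).2 h1)⟩
  | refl x => exact ⟨Iff.rfl, fun _ => .refl _⟩
  | symm x x' _ ih => exact ⟨ih.1.symm, fun h1 => .symm _ _ (ih.2 (ih.1.2 h1))⟩
  | trans x x' x'' _ _ i1 i2 =>
    exact ⟨i1.1.trans i2.1, fun h1 => .trans _ _ _ (i1.2 h1) (i2.2 (i1.1.1 h1))⟩

/-- the states are the unions of the states of two factors -/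
structure AredP (𝓑 F G : Fam) (E X Y : Finset ℕ) (m n : ℕ) : Prop where
  mem : ∀ z, (z ∈ E ↔ z ∈ X ∨ z ∈ Y) ∧ ¬ (z ∈ X ∧ z ∈ Y)
  cF : ∀ B, F B → B.card = m
  cG : ∀ B, G B → B.card = n
  up : ∀ U V, U ⊆ X → V ⊆ Y → F U → G V → 𝓑 (U ∪ V)
  down : ∀ p, St2 𝓑 E p → (F (p.1 ∩ X) ∧ F (p.2 ∩ X)) ∧ G (p.1 ∩ Y) ∧ G (p.2 ∩ Y)

theorem AredP.symm (h : AredP 𝓑 F G E X Y m n) : AredP 𝓑 G F E Y X n m :=
  ⟨fun z => by have := h.mem z; tauto, h.cG, h.cF,
    fun U V a b c d => union_comm V U ▸ h.up V U b a d c, fun p hp => (h.down p hp).symm⟩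

theorem AredP.st (h : AredP 𝓑 F G E X Y m n) (hx : St2 F X x) (hy : St2 G Y y) :
    St2 𝓑 E (x.1 ∪ y.1, x.2 ∪ y.2) := by
  have h1 := ared_mem hx
  have h2 := ared_mem hy
  have h3 := h.mem
  exact ared_st (h.up _ _ (by grind) (by grind) hx.fst hy.fst)
    (h.up _ _ (by grind) (by grind) hx.snd hy.snd) (by grind)

theorem AredP.ux (h : AredP 𝓑 F G E X Y m n) (hx : St2 F X x) (hy : St2 G Y y)
    (hu : UX2 F a x x') : UX2 𝓑 a (x.1 ∪ y.1, x.2 ∪ y.2) (x'.1 ∪ y.1, x'.2 ∪ y.2) := by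
  obtain ⟨e, he, f, hf, h1, h2, rfl, h3⟩ := hu
  have m1 := ared_mem hx
  have m2 := ared_mem hy
  have m3 := h.mem
  refine ⟨e, mem_union_left _ he, f, mem_union_left _ hf, h1, h2, ?_, fun g hg g1 g2 => ?_⟩
  · simp only [xch, Prod.mk.injEq]; grind
  obtain ⟨⟨d1, d2⟩, -⟩ := h.down _ (ared_xch (h.st hx hy) (mem_union_left _ he) hg g1 g2)
  by_cases hX : g ∈ x.2
  · rw [show (xch (x.1 ∪ y.1, x.2 ∪ y.2) e g).1 ∩ X = (xch x e g).1 by
      simp only [xch]; grind] at d1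
    rw [show (xch (x.1 ∪ y.1, x.2 ∪ y.2) e g).2 ∩ X = (xch x e g).2 by
      simp only [xch]; grind] at d2
    exact h3 g hX d1 d2
  · have c1 := h.cF _ d1
    have c2 := h.cF _ hx.fst
    have c3 := card_erase_add_one he
    rw [show (xch (x.1 ∪ y.1, x.2 ∪ y.2) e g).1 ∩ X = x.1.erase e by simp only [xch]; grind] at c1
    omega

theorem AredP.eqv (h : AredP 𝓑 F G E X Y m n) (hy : St2 G Y y) (hx : EqvGen (US F X a) x x') :
    EqvGen (US 𝓑 E a) (x.1 ∪ y.1, x.2 ∪ y.2) (x'.1 ∪ y.1, x'.2 ∪ y.2) :=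
  (ared_lift (fun x => (x.1 ∪ y.1, x.2 ∪ y.2)) (fun _ => True) (fun _ _ hu => ⟨Iff.rfl, fun _ =>
    ⟨h.st hu.1 hy, h.st hu.2.1 hy, hu.2.2.imp (h.ux hu.1 hy) (h.ux hu.1.swap hy.swap)⟩⟩) hx).2 trivial

theorem AredP.tr (h : AredP 𝓑 F G E X Y m n) (hp : St2 𝓑 E p) : St2 F X (p.1 ∩ X, p.2 ∩ X) := by
  have m1 := ared_mem hp
  have m3 := h.mem
  exact ared_st (h.down p hp).1.1 (h.down p hp).1.2 (by grind)

theorem AredP.ue (h : AredP 𝓑 F G E X Y m n) (h1 : UE F X a) (h2 : UE G Y a) : UE 𝓑 E a := by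
  intro p q hp hq hpq
  have m1 := ared_mem hp
  have m2 := ared_mem hq
  have m3 := h.mem
  have e1 := h.eqv (h.symm.tr hp) (h1 _ _ (h.tr hp) (h.tr hq) (by grind))
  have e2 := h.symm.eqv (h.tr hq) (h2 _ _ (h.symm.tr hp) (h.symm.tr hq) (by grind))
  have e3 : ∀ r : Pr, St2 𝓑 E r → (r.1 ∩ X ∪ r.1 ∩ Y, r.2 ∩ X ∪ r.2 ∩ Y) = r := fun r hr => by
    have := ared_mem hr
    ext1 <;> grind
  simp only [union_comm (_ ∩ Y), e3 p hp, e3 q hq] at e1 e2
  exact .trans _ _ _ e1 e2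

/-- the bases of a two-sum with base point `o` -/
structure AredT (𝓑 F G : Fam) (E X Y : Finset ℕ) (o m n : ℕ) : Prop where
  mem : ∀ z, (z ∈ E ↔ z ∈ X ∨ z ∈ Y) ∧ ¬ (z ∈ X ∧ z ∈ Y)
  new : o ∉ E
  cF : ∀ B, F B → B.card = m
  cG : ∀ B, G B → B.card = n
  base : ∀ B, 𝓑 B ↔ B ⊆ E ∧
    (F (B ∩ X) ∧ G (insert o (B ∩ Y)) ∨ F (insert o (B ∩ X)) ∧ G (B ∩ Y))
  nF : X.card ≠ 2 * m
  nG : Y.card ≠ 2 * n

theorem AredT.symm (h : AredT 𝓑 F G E X Y o m n) : AredT 𝓑 G F E Y X o n m :=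
  ⟨fun z => by have := h.mem z; tauto, h.new, h.cG, h.cF,
    fun B => by rw [h.base]; tauto, h.nG, h.nF⟩

/-- the glued state -/
def aredGl (o : ℕ) (x y : Pr) : Pr := ((x.1 ∪ y.1).erase o, (x.2 ∪ y.2).erase o)

theorem aredGl_comm (o : ℕ) (x y : Pr) : aredGl o x y = aredGl o y x := by
  rw [aredGl, aredGl, union_comm x.1, union_comm x.2]

/-- compatible states of the two sides -/
def AredOk (F G : Fam) (X Y : Finset ℕ) (o : ℕ) (x y : Pr) : Prop :=
  St2 F (insert o X) x ∧ St2 G (insert o Y) y ∧ (o ∈ x.1 ↔ o ∉ y.1)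

theorem AredOk.symm (h : AredOk F G X Y o x y) : AredOk G F Y X o y x :=
  ⟨h.2.1, h.1, by have := h.2.2; tauto⟩

theorem AredOk.swap (h : AredOk F G X Y o x y) : AredOk F G X Y o x.swap y.swap :=
  ⟨h.1.swap, h.2.1.swap, by
    have := ared_mem h.1 o
    have := ared_mem h.2.1 o
    have := h.2.2
    simp only [Prod.fst_swap]; grind⟩

theorem AredT.key (h : AredT 𝓑 F G E X Y o m n) (hU : U ⊆ insert o X) (hV : V ⊆ insert o Y)
    (ho : o ∈ U ↔ o ∉ V) (hc : U.card = m) : 𝓑 ((U ∪ V).erase o) ↔ F U ∧ G V := by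
  have m3 := h.mem
  have := h.new
  rw [h.base, and_iff_right (by grind)]
  by_cases hU' : o ∈ U
  · have c := card_erase_add_one hU'
    rw [show (U ∪ V).erase o ∩ X = U.erase o by grind, show (U ∪ V).erase o ∩ Y = V by grind,
      insert_erase hU', or_iff_right fun h' => by have := h.cF _ h'.1; omega]
  · have c := card_insert_of_notMem hU'
    rw [show (U ∪ V).erase o ∩ X = U by grind, show (U ∪ V).erase o ∩ Y = V.erase o by grind,
      insert_erase (by grind), or_iff_left fun h' => by have := h.cF _ h'.1; omega]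

theorem AredT.st (h : AredT 𝓑 F G E X Y o m n) (k : AredOk F G X Y o x y) :
    St2 𝓑 E (aredGl o x y) := by
  have m1 := ared_mem k.1
  have m2 := ared_mem k.2.1
  have m3 := h.mem
  have := h.new
  have := k.2.2
  exact ared_st ((h.key (by grind) (by grind) k.2.2 (h.cF _ k.1.fst)).2 ⟨k.1.fst, k.2.1.fst⟩)
    ((h.key (by grind) (by grind) k.swap.2.2 (h.cF _ k.1.snd)).2 ⟨k.1.snd, k.2.1.snd⟩)
    (by simp only [aredGl]; grind)

theorem AredT.split (h : AredT 𝓑 F G E X Y o m n) (hp : St2 𝓑 E p) :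
    ∃ x y, AredOk F G X Y o x y ∧ p = aredGl o x y := by
  have m1 := ared_mem hp
  have m3 := h.mem
  have := h.new
  have c : ∀ Z ⊆ E, (p.1 ∩ Z).card + (p.2 ∩ Z).card = Z.card := fun Z hZ => by
    rw [← card_union_of_disjoint (hp.disj.mono inter_subset_left inter_subset_left)]
    congr 1; grind
  have c1 := c X (by clear c; grind)
  have c2 := c Y (by clear c; grind)
  clear c
  rcases ((h.base _).1 hp.fst).2 with a | a <;> rcases ((h.base _).1 hp.snd).2 with b | b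
  · have := h.cF _ a.1; have := h.cF _ b.1; have := h.nF; omega
  · exact ⟨(p.1 ∩ X, insert o (p.2 ∩ X)), (insert o (p.1 ∩ Y), p.2 ∩ Y),
      ⟨ared_st a.1 b.1 (by grind), ared_st a.2 b.2 (by grind), by grind⟩,
      by ext1 <;> simp only [aredGl] <;> grind⟩
  · exact ⟨(insert o (p.1 ∩ X), p.2 ∩ X), (p.1 ∩ Y, insert o (p.2 ∩ Y)),
      ⟨ared_st a.1 b.1 (by grind), ared_st a.2 b.2 (by grind), by grind⟩,
      by ext1 <;> simp only [aredGl] <;> grind⟩
  · have := h.cG _ a.2; have := h.cG _ b.2; have := h.nG; omega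

/-- the partners of an element in a glued state -/
theorem AredT.part (h : AredT 𝓑 F G E X Y o m n) (k : AredOk F G X Y o x y) (he : e ∈ x.1)
    (eo : e ≠ o) (hg : g ∈ (aredGl o x y).2) (g1 : 𝓑 (xch (aredGl o x y) e g).1)
    (g2 : 𝓑 (xch (aredGl o x y) e g).2) :
    g ≠ o ∧ g ∈ x.2 ∧ F (xch x e g).1 ∧ F (xch x e g).2 ∨
    g ∈ y.2 ∧ o ∈ x.2 ∧ (F (xch x e o).1 ∧ F (xch x e o).2) ∧ G (xch y o g).1 ∧ G (xch y o g).2 := by
  have m1 := ared_mem k.1
  have m2 := ared_mem k.2.1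
  have m3 := h.mem
  have := h.new
  have := k.2.2
  have c1 := h.cF _ k.1.fst
  have c2 := h.cF _ k.1.snd
  simp only [aredGl, mem_erase, mem_union] at hg
  by_cases hX : g ∈ x.2
  · have c := ared_card k.1 he hX
    have e1 : xch (aredGl o x y) e g = aredGl o (xch x e g) y := by
      ext1 <;> simp only [xch, aredGl] <;> grind
    rw [e1] at g1 g2
    exact .inl ⟨hg.1, hX, ((h.key (by simp only [xch]; grind) (by grind) (by simp only [xch]; grind)
      (c.1.trans c1)).1 g1).1, ((h.key (by simp only [xch]; grind) (by grind)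
        (by simp only [xch]; grind) (c.2.trans c2)).1 g2).1⟩
  by_cases ho : o ∈ x.2
  · have c := ared_card k.1 he ho
    have e1 : xch (aredGl o x y) e g = aredGl o (xch x e o) (xch y o g) := by
      ext1 <;> simp only [xch, aredGl] <;> grind
    rw [e1] at g1 g2
    have k1 := (h.key (by simp only [xch]; grind) (by simp only [xch]; grind)
      (by simp only [xch]; grind) (c.1.trans c1)).1 g1
    have k2 := (h.key (by simp only [xch]; grind) (by simp only [xch]; grind)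
      (by simp only [xch]; grind) (c.2.trans c2)).1 g2
    exact .inr ⟨by grind, ho, ⟨k1.1, k2.1⟩, k1.2, k2.2⟩
  · exfalso
    have c3 := card_erase_add_one he
    have c4 : ((x.1.erase e).erase o).card + 1 = _ := card_erase_add_one (by grind)
    have c5 := card_insert_le o ((x.1.erase e).erase o)
    have := ((h.base _).1 g1).2
    rw [show (xch (aredGl o x y) e g).1 ∩ X = (x.1.erase e).erase o by
      simp only [xch, aredGl]; grind] at this
    rcases this with a | a <;> have := h.cF _ a.1 <;> omega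

theorem AredT.ux1 (h : AredT 𝓑 F G E X Y o m n) (k : AredOk F G X Y o x y) (he : e ∈ x.1)
    (hf : f ∈ x.2) (eo : e ≠ o) (fo : f ≠ o) (ea : e ≠ a) (fa : f ≠ a)
    (hu : ∀ g ∈ x.2, F (xch x e g).1 → F (xch x e g).2 → g = f) :
    UX2 𝓑 a (aredGl o x y) (aredGl o (xch x e f) y) := by
  have m1 := ared_mem k.1
  have m2 := ared_mem k.2.1
  have m3 := h.mem
  refine ⟨e, by simp only [aredGl]; grind, f, by simp only [aredGl]; grind, ea, fa,
    by ext1 <;> simp only [xch, aredGl] <;> grind, fun g hg g1 g2 => ?_⟩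
  rcases h.part k he eo hg g1 g2 with a | a
  · exact hu g a.2.1 a.2.2.1 a.2.2.2
  · exact absurd (hu o a.2.1 a.2.2.1.1 a.2.2.1.2).symm fo

theorem AredT.us1 (h : AredT 𝓑 F G E X Y o m n) (ha : a ∉ X) (k : AredOk F G X Y o x y)
    (hu : UX2 F o x x') : UX2 𝓑 a (aredGl o x y) (aredGl o x' y) := by
  obtain ⟨e, he, f, hf, h1, h2, rfl, h3⟩ := hu
  have m1 := ared_mem k.1
  exact h.ux1 k he hf h1 h2 (by grind) (by grind) h3

theorem ared_fix (hu : UX2 F o x x') : (o ∈ x.1 ↔ o ∈ x'.1) ∧ (o ∈ x.2 ↔ o ∈ x'.2) := by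
  obtain ⟨e, he, f, hf, h1, h2, rfl, h3⟩ := hu
  simp only [xch]; grind

theorem AredT.same (h : AredT 𝓑 F G E X Y o m n) (ha : a ∉ X) (hF : UE F (insert o X) o)
    (k : AredOk F G X Y o x y) (k' : AredOk F G X Y o x' y) :
    EqvGen (US 𝓑 E a) (aredGl o x y) (aredGl o x' y) := by
  refine (ared_lift (fun x => aredGl o x y) (fun x => AredOk F G X Y o x y) (fun u v hu => ?_)
    (hF _ _ k.1 k'.1 (k.2.2.trans k'.2.2.symm))).2 k
  have e : o ∈ u.1 ↔ o ∈ v.1 := hu.2.2.elim (fun h => (ared_fix h).1) fun h => (ared_fix h).2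
  have e2 : AredOk F G X Y o u y ↔ AredOk F G X Y o v y := by
    simp only [AredOk, hu.1, hu.2.1, e]
  exact ⟨e2, fun k => ⟨h.st k, h.st (e2.1 k), hu.2.2.imp (h.us1 ha k) (h.us1 ha k.swap)⟩⟩

theorem AredT.ue (h : AredT 𝓑 F G E X Y o m n) (ha : a ∈ X) (hF : UE F (insert o X) a)
    (hG : UE G (insert o Y) o)
    (hs : ∀ x x', St2 F (insert o X) x → St2 F (insert o X) x' → UX2 F a x x' → UX2 F a x' x)
    (hc : ∀ y, St2 G (insert o Y) y → ∃ q f, St2 G (insert o Y) q ∧ o ∈ q.1 ∧ f ∈ q.2 ∧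
      ∀ g ∈ q.2, G (xch q o g).1 ∧ G (xch q o g).2 ↔ g = f) : UE 𝓑 E a := by
  have m3 := h.mem
  have := h.new
  have s : ∀ {x y y'}, AredOk F G X Y o x y → AredOk F G X Y o x y' →
      EqvGen (US 𝓑 E a) (aredGl o x y) (aredGl o x y') := fun {x y y'} k k' => by
    rw [aredGl_comm o x y, aredGl_comm o x y']
    exact h.symm.same (fun h => (m3 a).2 ⟨ha, h⟩) hG k.symm k'.symm
  have q1 : ∀ x e f y y', e ∈ x.1 → f ∈ x.2 → e ≠ a → f ≠ a → e ≠ o →
      (∀ g ∈ x.2, F (xch x e g).1 → F (xch x e g).2 → g = f) → AredOk F G X Y o x y →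
      AredOk F G X Y o (xch x e f) y' →
      EqvGen (US 𝓑 E a) (aredGl o x y) (aredGl o (xch x e f) y') := by
    intro x e f y y' he hf ea fa eo hu k k'
    have m1 := ared_mem k.1
    by_cases fo : f = o
    · subst fo
      obtain ⟨q, g, q1, q2, q3, q4⟩ := hc y k.2.1
      have m2 := ared_mem q1
      have k1 : AredOk F G X Y f x q := ⟨k.1, q1, by grind⟩
      have k2 : AredOk F G X Y f (xch x e f) (xch q f g) := ⟨k'.1, ared_xch q1 q2 q3
        ((q4 g q3).2 rfl).1 ((q4 g q3).2 rfl).2, by simp only [xch]; grind⟩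
      refine .trans _ _ _ (s k k1) (.trans _ _ _ (.rel _ _ ⟨h.st k1, h.st k2, .inl ⟨e,
        by simp only [aredGl]; grind, g, by simp only [aredGl]; grind, ea, by grind,
        by ext1 <;> simp only [xch, aredGl] <;> grind, fun g' hg g1 g2 => ?_⟩⟩) (s k2 k'))
      rcases h.part k1 he eo hg g1 g2 with a | a
      · exact absurd (hu g' a.2.1 a.2.2.1 a.2.2.2) a.1
      · exact (q4 g' a.1).1 a.2.2.2
    · have k1 : AredOk F G X Y o (xch x e f) y := ⟨k'.1, k.2.1, by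
        rw [← k.2.2]; simp only [xch]; grind⟩
      exact .trans _ _ _ (.rel _ _ ⟨h.st k, h.st k1, .inl (h.ux1 k he hf eo fo ea fa hu)⟩) (s k1 k')
  have q2 : ∀ x x' y y', UX2 F a x x' → AredOk F G X Y o x y → AredOk F G X Y o x' y' →
      EqvGen (US 𝓑 E a) (aredGl o x y) (aredGl o x' y') := by
    intro x x' y y' hu k k'
    obtain ⟨e', he', f', hf', a1, a2, a3, a4⟩ := hs x x' k.1 k'.1 hu
    obtain ⟨e, he, f, hf, h1, h2, h3, h4⟩ := hu
    by_cases eo : e = o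
    · have m1 := ared_mem k'.1 o
      have : o ∈ x'.2 := by rw [h3, ← eo]; exact mem_insert_self _ _
      subst a3
      exact .symm _ _ (q1 _ _ _ _ _ he' hf' a1 a2 (by grind) a4 k' k)
    · subst h3
      exact q1 _ _ _ _ _ he hf h1 h2 eo h4 k k'
  have q3 : ∀ x x', EqvGen (US F (insert o X) a) x x' → ∀ y y', AredOk F G X Y o x y →
      AredOk F G X Y o x' y' → EqvGen (US 𝓑 E a) (aredGl o x y) (aredGl o x' y') := by
    intro x x' hx
    induction hx with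
    | rel x x' hx =>
      exact fun y y' k k' => hx.2.2.elim (fun hu => q2 _ _ _ _ hu k k')
        fun hu => eqv_swap (q2 _ _ _ _ hu k.swap k'.swap)
    | refl x => exact fun y y' => s
    | symm x x' _ ih => exact fun y y' k k' => .symm _ _ (ih _ _ k' k)
    | trans x x' x'' h1 _ i1 i2 =>
      intro y y' k k'
      have m2 := ared_mem k.2.1 o
      have h2 := (eqv_st2 h1).1 k.1
      by_cases ho : o ∈ x'.1 ↔ o ∉ y.1
      · exact .trans _ _ _ (i1 _ _ k ⟨h2, k.2.1, ho⟩) (i2 _ _ ⟨h2, k.2.1, ho⟩ k')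
      · have k2 : AredOk F G X Y o x' y.swap := ⟨h2, k.2.1.swap, by simp only [Prod.fst_swap]; grind⟩
        exact .trans _ _ _ (i1 _ _ k k2) (i2 _ _ k2 k')
  intro p q hp hq hpq
  obtain ⟨x, y, k, rfl⟩ := h.split hp
  obtain ⟨x', y', k', rfl⟩ := h.split hq
  have m1 := ared_mem k.2.1 a
  have m2 := ared_mem k'.2.1 a
  exact q3 _ _ (hF _ _ k.1 k'.1 (by simp only [aredGl] at hpq; grind)) _ _ k k'

end ared

namespace BM

variable {M : BM} {Z A : Finset ℕ} {a : ℕ}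

theorem ue_tight (hZ : Z ⊆ M.E) (ht : 2 * M.r Z ≤ Z.card) (h1 : UE (M.res Z).IsBase Z a)
    (h2 : UE (M.con Z).IsBase (M.E \ Z) a) : UE M.IsBase M.E a := by
  refine AredP.ue (m := M.r Z) ⟨by grind, fun B h => (isBase_res.1 h).2.2, fun B h => h.2,
    fun U V _ _ c d => ?_, fun p hp => ?_⟩ h1 h2
  · obtain ⟨c1, c2, c3⟩ := isBase_res.1 c
    exact union_comm V U ▸ ((isBase_con c1 c2 c3).1 d).2
  have m := ared_mem hp
  have c : (p.1 ∩ Z).card + (p.2 ∩ Z).card = Z.card := by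
    rw [← card_union_of_disjoint (hp.disj.mono inter_subset_left inter_subset_left)]
    congr 1; grind
  have c1 := hp.fst.card_inter_le Z
  have c2 := hp.snd.card_inter_le Z
  have k : ∀ B, M.IsBase B → (B ∩ Z).card = M.r Z →
      (M.res Z).IsBase (B ∩ Z) ∧ (M.con Z).IsBase (B ∩ (M.E \ Z)) := fun B hB hc => by
    have := hB.subset
    have i := hB.1.subset (inter_subset_left (s₂ := Z))
    refine ⟨isBase_res.2 ⟨i, inter_subset_right, hc⟩, (isBase_con i inter_subset_right hc).2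
      ⟨disjoint_left.2 (by grind), ?_⟩⟩
    rwa [show B ∩ (M.E \ Z) ∪ B ∩ Z = B by grind]
  exact ⟨⟨(k _ hp.fst (by omega)).1, (k _ hp.snd (by omega)).1⟩, (k _ hp.fst (by omega)).2,
    (k _ hp.snd (by omega)).2⟩

theorem ue_two_sum (hA : A ⊆ M.E) (h : M.lam A = 1) (ha : a ∈ M.E \ A) (h2 : 2 ≤ A.card)
    (h2' : 2 ≤ (M.E \ A).card) (hn : M.NoTight) (ih : IHA M.E.card) (hr : M.Reg) :
    UE M.IsBase M.E a := by
  obtain ⟨P, o, o1, o2, -, o4, o5, o6⟩ := exists_plus2 hA h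
  have c := card_sdiff_add_card_eq_card hA
  have eY : (P.res (insert o A)).E = insert o A := by rw [res_E, o2]; grind
  have eX : (P.res (insert o (M.E \ A))).E = insert o (M.E \ A) := by rw [res_E, o2]; grind
  generalize P.res (insert o A) = N at *
  generalize P.res (insert o (M.E \ A)) = K at *
  have uY := ih _ (o4.reg hr) (by rw [eY, card_insert_of_notMem (by grind)]; omega)
  have uX := ih _ (o5.reg hr) (by rw [eX, card_insert_of_notMem (by grind)]; omega)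
  have o7 : ∀ B, M.IsBase B ↔ B ⊆ M.E ∧
      (K.IsBase (B ∩ (M.E \ A)) ∧ N.IsBase (insert o (B ∩ A)) ∨
        K.IsBase (insert o (B ∩ (M.E \ A))) ∧ N.IsBase (B ∩ A)) := fun B => by
    rw [o6]
    refine and_congr_right fun hB => ?_
    rw [show B ∩ (M.E \ A) = B \ A by grind]
    tauto
  refine AredT.ue ⟨by grind, o1, fun B h => h.2, fun B h => h.2, o7, ?_, ?_⟩ ha (eX ▸ uX a)
    (eY ▸ uY o) (fun x x' => eX ▸ UX2.symm) fun y hy => ?_
  · obtain ⟨B, b1, b2⟩ := M.exists_base_inter (M.E \ A)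
    have := hn _ sdiff_subset ⟨a, ha⟩ (fun h => by rw [h] at c; omega)
    have := card_le_card (subset_insert o (B ∩ (M.E \ A)))
    rcases ((o7 B).1 b1).2 with b | b <;> have := b.1.2 <;> omega
  · obtain ⟨B, b1, b2⟩ := M.exists_base_inter A
    have := hn _ hA (card_pos.1 (by omega)) (fun h => by rw [← h] at c; rw [← h] at h2'; omega)
    have := card_le_card (subset_insert o (B ∩ A))
    rcases ((o7 B).1 b1).2 with b | b <;> have := b.2.2 <;> omega
  · have := exists_clean (e := o) uY (eY.symm ▸ hy) (eY.symm ▸ mem_insert_self _ _)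
    rwa [eY] at this

theorem reduce_A (ih : IHA M.E.card) (hr : M.Reg) (h : ¬ (M.Conn3 ∧ M.NoTight)) : M.UEall := by
  by_cases hn : M.NoTight
  swap
  · simp only [NoTight, not_forall, not_lt] at hn
    obtain ⟨Z, z1, z2, z3, z4⟩ := hn
    have c := card_sdiff_add_card_eq_card z1
    have c1 := card_lt_card (ssubset_of_subset_of_ne z1 z3)
    have c2 := z2.card_pos
    have e : (M.res Z).E = Z := inter_eq_right.2 z1
    intro a
    have h1 := ih _ (hr.res Z) (by rw [e]; exact c1) a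
    rw [e] at h1
    exact ue_tight z1 z4 h1 (ih _ (hr.con Z) (by rw [con_E]; omega) a)
  have h3 : ¬ M.Conn3 := fun h' => h ⟨h', hn⟩
  simp only [Conn3, not_forall, not_le] at h3
  obtain ⟨X, x1, x2⟩ := h3
  have c := card_sdiff_add_card_eq_card x1
  refine ueall_of_frozen fun a ha => ?_
  by_cases h0 : M.lam X = 0
  · intro p q hp
    have h1 := hp.card
    have h2 := M.lam_add X
    have h3 := hn X x1 (card_pos.1 (by omega)) (fun h => by rw [← h] at c; rw [← h] at x2; omega)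
    have h4 := hn _ (sdiff_subset (t := X)) (card_pos.1 (by omega)) (fun h => by rw [h] at c; omega)
    omega
  by_cases hX : a ∈ X
  · have e := Finset.sdiff_sdiff_eq_self x1
    exact ue_two_sum (A := M.E \ X) sdiff_subset (by rw [lam_compl x1]; omega) (by rwa [e])
      (by omega) (by rw [e]; omega) hn ih hr
  · exact ue_two_sum x1 (by omega) (mem_sdiff.2 ⟨ha, hX⟩) (by omega) (by omega) hn ih hr

end BM

end Pool.Agent.P.MP_3f5ce9_co
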