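import Pool.Agent.P.MP_3f5ce9_co.W.AGen

/-!
Simulation of a gadget by a side.
-/

open Finset

namespace Pool.Agent.P.MP_3f5ce9_co

namespace ASim

/-- the union of two pairs -/
def jn (x γ : Pr) : Pr := (x.1 ∪ γ.1, x.2 ∪ γ.2)

/-- `g` is an exchange partner of `e` -/
def Pt (𝓑 : Fam) (p : Pr) (e g : ℕ) : Prop := 𝓑 (xch p e g).1 ∧ 𝓑 (xch p e g).2

/-- the condition for a partner in the first side -/
def PA (ty1 : Typing) (x : Pr) (e g : ℕ) (β1 β2 : Tp) : Prop :=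
  ∃ α α', ty1 (xch x e g).1 α ∧ ty1 (xch x e g).2 α' ∧ α.compat β1 = true ∧ α'.compat β2 = true

variable {L1 S : Finset ℕ} {ty1 ts : Typing} {x γ p : Pr} {α1 α2 β1 β2 : Tp} {e f g : ℕ}
  {𝓑 : Fam} {E : Finset ℕ}

theorem s1 (h : Cfg S ts γ β1 β2) : γ.1 ⊆ S := h.cov ▸ subset_union_left

theorem s2 (h : Cfg S ts γ β1 β2) : γ.2 ⊆ S := h.cov ▸ subset_union_right

theorem inter_l {A B : Finset ℕ} (hd : Disjoint L1 S) (hA : A ⊆ L1) (hB : B ⊆ S) :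
    (A ∪ B) ∩ L1 = A := by
  ext y
  have := @hA y
  have := @hB y
  have : y ∈ L1 → y ∉ S := fun h => disjoint_left.1 hd h
  simp only [mem_inter, mem_union]
  tauto

theorem inter_r {A B : Finset ℕ} (hd : Disjoint L1 S) (hA : A ⊆ L1) (hB : B ⊆ S) :
    (A ∪ B) ∩ S = B := by
  rw [union_comm]
  exact inter_l hd.symm hB hA

theorem glue_iff {A B : Finset ℕ} (hd : Disjoint L1 S) (hA : A ⊆ L1) (hB : B ⊆ S) :
    Glue L1 ty1 S ts (A ∪ B) ↔ ∃ α β, ty1 A α ∧ ts B β ∧ α.compat β = true := by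
  unfold Glue
  rw [inter_l hd hA hB, inter_r hd hA hB]
  exact ⟨fun h => h.2, fun h => ⟨union_subset_union hA hB, h⟩⟩

theorem st_jn (hd : Disjoint L1 S) (hx : Cfg L1 ty1 x α1 α2) (hγ : Cfg S ts γ β1 β2)
    (c1 : α1.compat β1 = true) (c2 : α2.compat β2 = true) :
    St2 (Glue L1 ty1 S ts) (L1 ∪ S) (jn x γ) where
  fst := (glue_iff hd (s1 hx) (s1 hγ)).2 ⟨_, _, hx.fst, hγ.fst, c1⟩
  snd := (glue_iff hd (s2 hx) (s2 hγ)).2 ⟨_, _, hx.snd, hγ.snd, c2⟩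
  disj := by
    simp only [jn, disjoint_union_left, disjoint_union_right]
    exact ⟨⟨hx.disj, (hd.symm.mono (s1 hγ) (s2 hx))⟩, hd.mono (s1 hx) (s2 hγ), hγ.disj⟩
  cov := by
    rw [← hx.cov, ← hγ.cov]
    ext y
    simp only [jn, mem_union]
    tauto

theorem st_split (h : St2 (Glue L1 ty1 S ts) (L1 ∪ S) p) :
    ∃ x γ α1 α2 β1 β2, p = jn x γ ∧ Cfg L1 ty1 x α1 α2 ∧ Cfg S ts γ β1 β2 ∧
      Tp.compat α1 β1 = true ∧ Tp.compat α2 β2 = true := by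
  obtain ⟨t1, α1, β1, a1, b1, c1⟩ := h.fst
  obtain ⟨t2, α2, β2, a2, b2, c2⟩ := h.snd
  refine ⟨(p.1 ∩ L1, p.2 ∩ L1), (p.1 ∩ S, p.2 ∩ S), α1, α2, β1, β2, ?_,
    ⟨h.disj.mono inter_subset_left inter_subset_left, ?_, a1, a2⟩,
    ⟨h.disj.mono inter_subset_left inter_subset_left, ?_, b1, b2⟩, c1, c2⟩
  · refine Prod.ext ?_ ?_
    · simp only [jn]
      rw [← inter_union_distrib_left, inter_eq_left.2 t1]
    · simp only [jn]
      rw [← inter_union_distrib_left, inter_eq_left.2 t2]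
  · simp only
    rw [← union_inter_distrib_right, h.cov, union_inter_cancel_left]
  · simp only
    rw [← union_inter_distrib_right, h.cov, union_inter_cancel_right]

theorem st_xch (h : St2 𝓑 E p) (he : e ∈ p.1) (hg : g ∈ p.2) (hp : Pt 𝓑 p e g) :
    St2 𝓑 E (xch p e g) where
  fst := hp.1
  snd := hp.2
  disj := by
    have hd := disjoint_left.1 h.disj
    refine disjoint_left.2 fun y h1 h2 => ?_
    simp only [xch, mem_insert, mem_erase] at h1 h2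
    have := @hd y
    have := @hd e
    grind
  cov := by
    rw [← h.cov]
    ext y
    simp only [xch, mem_union, mem_insert, mem_erase]
    grind

theorem xch_l (hd : Disjoint L1 S) (hx : Cfg L1 ty1 x α1 α2) (hγ : Cfg S ts γ β1 β2)
    (he : e ∈ x.1) (hg : g ∈ x.2) : xch (jn x γ) e g = jn (xch x e g) γ := by
  have h1 : e ∉ γ.1 := fun h => disjoint_left.1 hd (s1 hx he) (s1 hγ h)
  have h2 : g ∉ γ.2 := fun h => disjoint_left.1 hd (s2 hx hg) (s2 hγ h)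
  refine Prod.ext ?_ ?_ <;> ext y <;> simp only [xch, jn, mem_union, mem_insert, mem_erase] <;>
    grind

theorem xch_r (hd : Disjoint L1 S) (hx : Cfg L1 ty1 x α1 α2) (hγ : Cfg S ts γ β1 β2)
    (he : e ∈ x.1) (hg : g ∈ γ.2) :
    xch (jn x γ) e g = jn (x.1.erase e, insert e x.2) (insert g γ.1, γ.2.erase g) := by
  have h1 : e ∉ γ.1 := fun h => disjoint_left.1 hd (s1 hx he) (s1 hγ h)
  have h2 : g ∉ x.2 := fun h => disjoint_left.1 hd (s2 hx h) (s2 hγ hg)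
  refine Prod.ext ?_ ?_ <;> ext y <;> simp only [xch, jn, mem_union, mem_insert, mem_erase] <;>
    grind

theorem sub_x1 (hx : Cfg L1 ty1 x α1 α2) (hg : g ∈ x.2) : (xch x e g).1 ⊆ L1 :=
  insert_subset (s2 hx hg) ((erase_subset _ _).trans (s1 hx))

theorem sub_x2 (hx : Cfg L1 ty1 x α1 α2) (he : e ∈ x.1) : (xch x e g).2 ⊆ L1 :=
  insert_subset (s1 hx he) ((erase_subset _ _).trans (s2 hx))

theorem pa_iff (hS : MSide S ts) (hd : Disjoint L1 S) (hx : Cfg L1 ty1 x α1 α2)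
    (hγ : Cfg S ts γ β1 β2) (he : e ∈ x.1) (hg : g ∈ x.2) :
    Pt (Glue L1 ty1 S ts) (jn x γ) e g ↔ PA ty1 x e g β1 β2 := by
  unfold Pt
  rw [xch_l hd hx hγ he hg]
  simp only [jn]
  rw [glue_iff hd (sub_x1 hx hg) (s1 hγ), glue_iff hd (sub_x2 hx he) (s2 hγ)]
  constructor
  · rintro ⟨⟨α, β, a1, b1, c1⟩, α', β', a2, b2, c2⟩
    rw [hS.uniq _ _ _ b1 hγ.fst] at c1
    rw [hS.uniq _ _ _ b2 hγ.snd] at c2
    exact ⟨α, α', a1, a2, c1, c2⟩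
  · rintro ⟨α, α', a1, a2, c1, c2⟩
    exact ⟨⟨α, β1, a1, hγ.fst, c1⟩, α', β2, a2, hγ.snd, c2⟩

theorem pb_iff (hd : Disjoint L1 S) (hx : Cfg L1 ty1 x α1 α2)
    (hγ : Cfg S ts γ β1 β2) (he : e ∈ x.1) (hg : g ∈ γ.2) :
    Pt (Glue L1 ty1 S ts) (jn x γ) e g ↔
      ∃ α α', ty1 (x.1.erase e) α ∧ ty1 (insert e x.2) α' ∧ Part ts γ α α' g := by
  unfold Pt
  rw [xch_r hd hx hγ he hg]
  simp only [jn]
  rw [glue_iff hd ((erase_subset _ _).trans (s1 hx)) (insert_subset (s2 hγ hg) (s1 hγ)),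
    glue_iff hd (insert_subset (s1 hx he) (s2 hx)) ((erase_subset _ _).trans (s2 hγ))]
  constructor
  · rintro ⟨⟨α, β, a1, b1, c1⟩, α', β', a2, b2, c2⟩
    exact ⟨α, α', a1, a2, hg, β, β', b1, b2, c1, c2⟩
  · rintro ⟨α, α', a1, a2, -, β, β', b1, b2, c1, c2⟩
    exact ⟨⟨α, β, a1, b1, c1⟩, α', β', a2, b2, c2⟩

theorem fst_l (hd : Disjoint L1 S) (hx : Cfg L1 ty1 x α1 α2) (hγ : Cfg S ts γ β1 β2)
    (he : e ∈ x.1) (hg : g ∈ x.2) : (xch (jn x γ) e g).1 ∩ L1 = (xch x e g).1 := by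
  rw [xch_l hd hx hγ he hg]
  exact inter_l hd (sub_x1 hx hg) (s1 hγ)

theorem fst_r (hd : Disjoint L1 S) (hx : Cfg L1 ty1 x α1 α2) (hγ : Cfg S ts γ β1 β2)
    (he : e ∈ x.1) (hg : g ∈ γ.2) : (xch (jn x γ) e g).1 ∩ L1 = x.1.erase e := by
  rw [xch_r hd hx hγ he hg]
  exact inter_l hd ((erase_subset _ _).trans (s1 hx)) (insert_subset (s2 hγ hg) (s1 hγ))

theorem rev (hd : Disjoint p.1 p.2) (he : e ∈ p.1) (hf : f ∈ p.2)
    (hu : ∀ g ∈ p.2, Pt 𝓑 p e g → g = f) :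
    xch (xch p e f) f e = p ∧ ∀ g ∈ (xch p e f).2, Pt 𝓑 (xch p e f) f g → g = e := by
  have h1 : e ∉ p.2 := disjoint_left.1 hd he
  have h2 : f ∉ p.1 := disjoint_right.1 hd hf
  constructor
  · refine Prod.ext ?_ ?_ <;> ext y <;> simp only [xch, mem_insert, mem_erase] <;> grind
  · intro g hg hp
    by_contra hge
    have hg' : g ≠ f ∧ g ∈ p.2 := by
      simp only [xch, mem_insert, mem_erase] at hg
      tauto
    have : xch (xch p e f) f g = xch p e g := by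
      refine Prod.ext ?_ ?_ <;> ext y <;> simp only [xch, mem_insert, mem_erase] <;> grind
    unfold Pt at hp
    rw [this] at hp
    exact hg'.1 (hu g hg'.2 hp)

theorem odd_ex (ho : POdd 𝓑 E) (h : St2 𝓑 E p) (he : e ∈ p.1) : ∃ g ∈ p.2, Pt 𝓑 p e g := by
  classical
  obtain ⟨g, hg⟩ := card_pos.1 (ho p h e he).pos
  exact ⟨g, (mem_filter.1 hg).1, (mem_filter.1 hg).2⟩

theorem odd_two (ho : POdd 𝓑 E) (h : St2 𝓑 E p) (he : e ∈ p.1) (hf : f ∈ p.2) (hg : g ∈ p.2)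
    (pf : Pt 𝓑 p e f) (pg : Pt 𝓑 p e g) (hu : ∀ y ∈ p.2, Pt 𝓑 p e y → y = f ∨ y = g) :
    f = g := by
  classical
  by_contra hne
  have h1 := ho p h e he
  have h2 : (p.2.filter fun f => 𝓑 (xch p e f).1 ∧ 𝓑 (xch p e f).2) = {f, g} := by
    ext y
    simp only [mem_filter, mem_insert, mem_singleton]
    constructor
    · exact fun hy => hu y hy.1 hy.2
    · rintro (rfl | rfl)
      · exact ⟨hf, pf⟩
      · exact ⟨hg, pg⟩
  rw [h2, card_pair hne] at h1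
  exact absurd h1 (by decide)

variable {L K : Finset ℕ} {ty tk : Typing} {κ : Pr} {a : ℕ}

/-- the exchange of an element of the first side is imitated -/
theorem stepA (h1 : MSide L1 ty1) (hL : MSide L ty) (hK : MSide K tk) (hd : Disjoint L1 L)
    (hd' : Disjoint L1 K) (hi : Imit L ty K tk) (ho : POdd (Glue L1 ty1 L ty) (L1 ∪ L))
    (ha : a ∈ L1) (hx : Cfg L1 ty1 x α1 α2) (hκ : Cfg K tk κ β1 β2)
    (c1 : α1.compat β1 = true) (c2 : α2.compat β2 = true) (he : e ∈ x.1) (hf : f ∈ (jn x κ).2)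
    (hfa : f ≠ a) (pf : Pt (Glue L1 ty1 K tk) (jn x κ) e f)
    (hu : ∀ g ∈ (jn x κ).2, Pt (Glue L1 ty1 K tk) (jn x κ) e g → g = f) :
    ∃ γ δ1 δ2, Cfg L ty γ δ1 δ2 ∧ α1.compat δ1 = true ∧ α2.compat δ2 = true ∧
      ∃ g ∈ (jn x γ).2, g ≠ a ∧ Pt (Glue L1 ty1 L ty) (jn x γ) e g ∧
        (∀ y ∈ (jn x γ).2, Pt (Glue L1 ty1 L ty) (jn x γ) e y → y = g) ∧
        (xch (jn x γ) e g).1 ∩ L1 = (xch (jn x κ) e f).1 ∩ L1 := by
  have he2 : e ∉ x.2 := disjoint_left.1 hx.disj he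
  have huA : ∀ g ∈ x.2, PA ty1 x e g β1 β2 → g = f := fun g hg h =>
    hu g (mem_union_left _ hg) ((pa_iff hK hd' hx hκ he hg).2 h)
  -- the case without partners in the second side
  have triv : (¬ ∃ α α', ty1 (x.1.erase e) α ∧ ty1 (insert e x.2) α') → ∀ γ δ1 δ2,
      Cfg L ty γ δ1 δ2 → (∀ g ∈ x.2, PA ty1 x e g δ1 δ2 ↔ PA ty1 x e g β1 β2) →
      ∃ g ∈ (jn x γ).2, g ≠ a ∧ Pt (Glue L1 ty1 L ty) (jn x γ) e g ∧
        (∀ y ∈ (jn x γ).2, Pt (Glue L1 ty1 L ty) (jn x γ) e y → y = g) ∧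
        (xch (jn x γ) e g).1 ∩ L1 = (xch (jn x κ) e f).1 ∩ L1 := by
    intro hn γ δ1 δ2 hγ hpa
    have hf1 : f ∈ x.2 := by
      rcases mem_union.1 hf with h | h
      · exact h
      · obtain ⟨α, α', a1, a2, -⟩ := (pb_iff hd' hx hκ he h).1 pf
        exact absurd ⟨α, α', a1, a2⟩ hn
    refine ⟨f, mem_union_left _ hf1, hfa, (pa_iff hL hd hx hγ he hf1).2 ((hpa f hf1).2
      ((pa_iff hK hd' hx hκ he hf1).1 pf)), fun y hy hp => ?_, ?_⟩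
    · rcases mem_union.1 hy with h | h
      · exact huA y h ((hpa y h).1 ((pa_iff hL hd hx hγ he h).1 hp))
      · obtain ⟨α, α', a1, a2, -⟩ := (pb_iff hd hx hγ he h).1 hp
        exact absurd ⟨α, α', a1, a2⟩ hn
    · rw [fst_l hd hx hγ he hf1, fst_l hd' hx hκ he hf1]
  by_cases t1 : ∃ α, ty1 (x.1.erase e) α
  swap
  · obtain ⟨⟨γ, δ, hγ, c⟩, -⟩ := hi.r3 κ β1 β2 α1 α2 hκ c1 c2
    refine ⟨γ, δ, β2, hγ, c, c2, triv (fun ⟨α, _, h, _⟩ => t1 ⟨α, h⟩) γ δ β2 hγ fun g _ => ?_⟩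
    have key : ∀ α, ty1 (xch x e g).1 α → α = α1 := fun α h =>
      h1.triv1 _ _ e g _ hx.fst he (fun γ h => t1 ⟨γ, h⟩) h
    constructor <;> rintro ⟨α, α', a1, a2, -, d2⟩
    · exact ⟨α, α', a1, a2, by rw [key α a1]; exact c1, d2⟩
    · exact ⟨α, α', a1, a2, by rw [key α a1]; exact c, d2⟩
  by_cases t2 : ∃ α, ty1 (insert e x.2) α
  swap
  · obtain ⟨-, γ, δ, hγ, c⟩ := hi.r3 κ β1 β2 α1 α2 hκ c1 c2
    refine ⟨γ, β1, δ, hγ, c1, c, triv (fun ⟨_, α, _, h⟩ => t2 ⟨α, h⟩) γ β1 δ hγ fun g _ => ?_⟩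
    have key : ∀ α, ty1 (xch x e g).2 α → α = α2 := fun α h =>
      h1.triv2 _ _ e g _ hx.snd (s1 hx he) he2 (fun γ h => t2 ⟨γ, h⟩) h
    constructor <;> rintro ⟨α, α', a1, a2, d1, -⟩
    · exact ⟨α, α', a1, a2, d1, by rw [key α' a2]; exact c2⟩
    · exact ⟨α, α', a1, a2, d1, by rw [key α' a2]; exact c⟩
  obtain ⟨α, a1⟩ := t1
  obtain ⟨α', a2⟩ := t2
  have d1 : α.dim + 1 = α1.dim := by
    have := h1.card _ _ _ _ hx.fst a1
    have := card_erase_add_one he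
    omega
  have d2 : α'.dim = α2.dim + 1 := by
    have := h1.card _ _ _ _ hx.snd a2
    have := card_insert_of_notMem he2
    omega
  have low : Low tk κ α α' := fun g g' hg hg' =>
    (hu g (mem_union_right _ hg.1) ((pb_iff hd' hx hκ he hg.1).2 ⟨α, α', a1, a2, hg⟩)).trans
      (hu g' (mem_union_right _ hg'.1) ((pb_iff hd' hx hκ he hg'.1).2 ⟨α, α', a1, a2, hg'⟩)).symm
  obtain ⟨γ, hγ, lw⟩ := hi.r2 κ β1 β2 α1 α2 α α' hκ c1 c2 d1 d2 low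
  have st := st_jn hd hx hγ c1 c2
  have he' : e ∈ (jn x γ).1 := mem_union_left _ he
  have part : ∀ y ∈ γ.2, Pt (Glue L1 ty1 L ty) (jn x γ) e y → Part ty γ α α' y := by
    intro y hy hp
    obtain ⟨η, η', b1, b2, h⟩ := (pb_iff hd hx hγ he hy).1 hp
    rwa [h1.uniq _ _ _ b1 a1, h1.uniq _ _ _ b2 a2] at h
  refine ⟨γ, β1, β2, hγ, c1, c2, ?_⟩
  rcases mem_union.1 hf with hf1 | hf2
  · have pf' := (pa_iff hL hd hx hγ he hf1).2 ((pa_iff hK hd' hx hκ he hf1).1 pf)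
    refine ⟨f, mem_union_left _ hf1, hfa, pf', fun y hy hp => ?_, ?_⟩
    · rcases mem_union.1 hy with h | h
      · exact huA y h ((pa_iff hL hd hx hγ he h).1 hp)
      · refine (odd_two ho st he' (mem_union_left _ hf1) hy pf' hp fun z hz hq => ?_).symm
        rcases mem_union.1 hz with h' | h'
        · exact Or.inl (huA z h' ((pa_iff hL hd hx hγ he h').1 hq))
        · exact Or.inr (lw _ _ (part z h' hq) (part y h hp))
    · rw [fst_l hd hx hγ he hf1, fst_l hd' hx hκ he hf1]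
  · have no : ∀ y ∈ (jn x γ).2, Pt (Glue L1 ty1 L ty) (jn x γ) e y → y ∈ γ.2 := by
      intro y hy hp
      refine (mem_union.1 hy).resolve_left fun h => ?_
      have := huA y h ((pa_iff hL hd hx hγ he h).1 hp)
      exact disjoint_left.1 hd' (s2 hx h) (this ▸ s2 hκ hf2)
    obtain ⟨g, hg, pg⟩ := odd_ex ho st he'
    have hg2 := no g hg pg
    refine ⟨g, hg, fun h => disjoint_left.1 hd ha (h ▸ s2 hγ hg2), pg,
      fun y hy hp => lw _ _ (part y (no y hy hp) hp) (part g hg2 pg), ?_⟩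
    rw [fst_r hd hx hγ he hg2, fst_r hd' hx hκ he hf2]

/-- all states over the two sets are connected -/
def Rel (𝓑 : Fam) (E L1 : Finset ℕ) (a : ℕ) (X Y : Finset ℕ) : Prop :=
  ∀ P Q, St2 𝓑 E P → St2 𝓑 E Q → P.1 ∩ L1 = X → Q.1 ∩ L1 = Y → Relation.EqvGen (US 𝓑 E a) P Q

theorem Rel.symm {X Y : Finset ℕ} (h : Rel 𝓑 E L1 a X Y) : Rel 𝓑 E L1 a Y X :=
  fun P Q hP hQ e1 e2 => (h Q P hQ hP e2 e1).symm _ _

theorem Rel.rfl {X : Finset ℕ} (h3 : R3 𝓑 E L1 a) : Rel 𝓑 E L1 a X X :=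
  fun P Q hP hQ e1 e2 => h3 P Q hP hQ (e1.trans e2.symm)

theorem stepB (h1 : MSide L1 ty1) (hL : MSide L ty) (hK : MSide K tk) (hd : Disjoint L1 L)
    (hd' : Disjoint L1 K) (hi : Imit L ty K tk) (ho : POdd (Glue L1 ty1 L ty) (L1 ∪ L))
    (h3 : R3 (Glue L1 ty1 L ty) (L1 ∪ L) L1 a) (ha : a ∈ L1)
    (hp : St2 (Glue L1 ty1 K tk) (L1 ∪ K) p) (he : e ∈ p.1) (hf : f ∈ p.2) (he1 : e ∈ L1)
    (hea : e ≠ a) (hfa : f ≠ a) (pf : Pt (Glue L1 ty1 K tk) p e f)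
    (hu : ∀ g ∈ p.2, Pt (Glue L1 ty1 K tk) p e g → g = f) :
    Rel (Glue L1 ty1 L ty) (L1 ∪ L) L1 a (p.1 ∩ L1) ((xch p e f).1 ∩ L1) := by
  obtain ⟨x, κ, α1, α2, β1, β2, rfl, hx, hκ, c1, c2⟩ := st_split hp
  have hex : e ∈ x.1 := (mem_union.1 he).resolve_right fun h =>
    disjoint_left.1 hd' he1 (s1 hκ h)
  obtain ⟨γ, δ1, δ2, hγ, d1, d2, g, hg, hga, pg, ug, eg⟩ :=
    stepA h1 hL hK hd hd' hi ho ha hx hκ c1 c2 hex hf hfa pf hu
  have st := st_jn hd hx hγ d1 d2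
  have he' : e ∈ (jn x γ).1 := mem_union_left _ hex
  have st' := st_xch st he' hg pg
  intro P Q hP hQ e1 e2
  refine .trans _ _ _ (h3 P _ hP st ?_) (.trans _ _ _ (.rel _ _ ⟨st, st', Or.inl
    ⟨e, he', g, hg, hea, hga, rfl, fun y hy b1 b2 => ug y hy ⟨b1, b2⟩⟩⟩) (h3 _ Q st' hQ ?_))
  · rw [e1]
    exact (inter_l hd' (s1 hx) (s1 hκ)).trans (inter_l hd (s1 hx) (s1 hγ)).symm
  · rw [e2, eg]

theorem stepC (h1 : MSide L1 ty1) (hL : MSide L ty) (hK : MSide K tk) (hd : Disjoint L1 L)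
    (hd' : Disjoint L1 K) (hi : Imit L ty K tk) (ho : POdd (Glue L1 ty1 L ty) (L1 ∪ L))
    (h3 : R3 (Glue L1 ty1 L ty) (L1 ∪ L) L1 a) (ha : a ∈ L1) {q : Pr}
    (hp : St2 (Glue L1 ty1 K tk) (L1 ∪ K) p) (hq : St2 (Glue L1 ty1 K tk) (L1 ∪ K) q)
    (h : UX2 (Glue L1 ty1 K tk) a p q) :
    Rel (Glue L1 ty1 L ty) (L1 ∪ L) L1 a (p.1 ∩ L1) (q.1 ∩ L1) := by
  obtain ⟨e, he, f, hf, hea, hfa, rfl, hu⟩ := h
  have hu' : ∀ g ∈ p.2, Pt (Glue L1 ty1 K tk) p e g → g = f := fun g hg h => hu g hg h.1 h.2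
  by_cases he1 : e ∈ L1
  · exact stepB h1 hL hK hd hd' hi ho h3 ha hp he hf he1 hea hfa ⟨hq.fst, hq.snd⟩ hu'
  by_cases hf1 : f ∈ L1
  · obtain ⟨r1, r2⟩ := rev hp.disj he hf hu'
    have := stepB h1 hL hK hd hd' hi ho h3 ha hq (mem_insert_self _ _) (mem_insert_self _ _) hf1
      hfa hea (by unfold Pt; rw [r1]; exact ⟨hp.fst, hp.snd⟩) r2
    rw [r1] at this
    exact this.symm
  · have : (xch p e f).1 ∩ L1 = p.1 ∩ L1 := by
      ext y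
      simp only [xch, mem_inter, mem_insert, mem_erase]
      grind
    rw [this]
    exact Rel.rfl h3

theorem snd_eq {𝓑' : Fam} {P : Pr} {E' : Finset ℕ} (hp : St2 𝓑 E p) (hP : St2 𝓑' E' P)
    (s : L1 ⊆ E) (s' : L1 ⊆ E') (h : P.1 ∩ L1 = p.1 ∩ L1) : P.2 ∩ L1 = p.2 ∩ L1 := by
  ext y
  have a1 := Finset.ext_iff.1 h y
  have a2 := Finset.ext_iff.1 hp.cov y
  have a3 := Finset.ext_iff.1 hP.cov y
  have a4 : y ∈ p.1 → y ∉ p.2 := fun h => disjoint_left.1 hp.disj h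
  have a5 : y ∈ P.1 → y ∉ P.2 := fun h => disjoint_left.1 hP.disj h
  have a6 := @s y
  have a7 := @s' y
  simp only [mem_inter, mem_union] at a1 a2 a3 ⊢
  tauto

end ASim

theorem sim {L1 L K : Finset ℕ} {ty1 ty tk : Typing} {a : ℕ} (h1 : MSide L1 ty1) (hL : MSide L ty)
    (hK : MSide K tk) (hd : Disjoint L1 L) (hd' : Disjoint L1 K) (hi : Imit L ty K tk)
    (ho : POdd (Glue L1 ty1 L ty) (L1 ∪ L)) (h3 : R3 (Glue L1 ty1 L ty) (L1 ∪ L) L1 a)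
    (ha : a ∈ L1) (hg : UE (Glue L1 ty1 K tk) (L1 ∪ K) a) :
    UE (Glue L1 ty1 L ty) (L1 ∪ L) a := by
  have key : ∀ p q, Relation.EqvGen (US (Glue L1 ty1 K tk) (L1 ∪ K) a) p q →
      St2 (Glue L1 ty1 K tk) (L1 ∪ K) p →
      ASim.Rel (Glue L1 ty1 L ty) (L1 ∪ L) L1 a (p.1 ∩ L1) (q.1 ∩ L1) := by
    intro p q h
    induction h with
    | rel p q h =>
      intro _
      obtain ⟨hp, hq, h | h⟩ := h
      · exact ASim.stepC h1 hL hK hd hd' hi ho h3 ha hp hq h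
      · intro P Q hP hQ e1 e2
        exact eqv_swap (ASim.stepC h1 hL hK hd hd' hi ho h3 ha hp.swap hq.swap h P.swap Q.swap
          hP.swap hQ.swap (ASim.snd_eq hp hP subset_union_left subset_union_left e1)
          (ASim.snd_eq hq hQ subset_union_left subset_union_left e2))
    | refl p => exact fun _ => ASim.Rel.rfl h3
    | symm p q h ih => exact fun hq => (ih ((eqv_st2 h).2 hq)).symm
    | trans p q r h _ ih1 ih2 =>
      intro hp P R hP hR e1 e2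
      have hq := (eqv_st2 h).1 hp
      obtain ⟨x, κ, α1, α2, β1, β2, e, hx, hκ, c1, c2⟩ := ASim.st_split hq
      obtain ⟨⟨γ, δ, hγ, c⟩, -⟩ := hi.r3 κ β1 β2 α1 α2 hκ c1 c2
      have st := ASim.st_jn hd hx hγ c c2
      have e3 : (ASim.jn x γ).1 ∩ L1 = q.1 ∩ L1 := by
        rw [e]
        exact (ASim.inter_l hd (ASim.s1 hx) (ASim.s1 hγ)).trans
          (ASim.inter_l hd' (ASim.s1 hx) (ASim.s1 hκ)).symm
      exact .trans _ _ _ (ih1 hp P _ hP st e1 e3) (ih2 hq _ R st hR e3 e2)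
  have lift : ∀ p, St2 (Glue L1 ty1 L ty) (L1 ∪ L) p →
      ∃ p', St2 (Glue L1 ty1 K tk) (L1 ∪ K) p' ∧ p.1 ∩ L1 = p'.1 ∩ L1 := by
    intro p hp
    obtain ⟨x, γ, α1, α2, β1, β2, rfl, hx, hγ, c1, c2⟩ := ASim.st_split hp
    obtain ⟨κ, δ1, δ2, hκ, d1, d2⟩ := hi.r1 γ β1 β2 α1 α2 hγ c1 c2
    exact ⟨_, ASim.st_jn hd' hx hκ d1 d2, (ASim.inter_l hd (ASim.s1 hx) (ASim.s1 hγ)).trans
      (ASim.inter_l hd' (ASim.s1 hx) (ASim.s1 hκ)).symm⟩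
  intro p q hp hq hpq
  obtain ⟨p', hp', e1⟩ := lift p hp
  obtain ⟨q', hq', e2⟩ := lift q hq
  refine key p' q' (hg p' q' hp' hq' ?_) hp' p q hp hq e1 e2
  have a1 := Finset.ext_iff.1 e1 a
  have a2 := Finset.ext_iff.1 e2 a
  simp only [mem_inter] at a1 a2
  tauto

end Pool.Agent.P.MP_3f5ce9_co
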