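import Pool.Agent.P.MP_3f5ce9_co.W.XB
import Pool.Agent.P.MP_3f5ce9_co.Many

/-!
Configurations of a leaf with an isolated root.
-/

open Finset

namespace Pool.Agent.P.MP_3f5ce9_co

variable {G : Gr ℕ ℕ} {X L : Finset ℕ} {ρ : Fin 3 → ℕ} {i k l : Fin 3} {γ : Pr} {s : ℕ}
  {α1 α2 β1 β2 : Tp}

theorem ax_slack {Y : Finset ℕ} {c : ℕ} (h : (G.ind L Y).card + c + 2 ≤ 2 * Y.card) :
    Slack G L (one L) ({0, 1} : Finset ℕ).card Y c := by
  have a1 : ∑ e ∈ G.ind L Y, one L e = (G.ind L Y).card := by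
    rw [card_eq_sum_ones]
    exact sum_congr rfl fun e he => if_pos (G.ind_subset L Y he)
  unfold Slack
  rw [a1, card_pair zero_ne_one]
  exact h

theorem ax_two_le (hR : Rooted G X ρ L) {Y : Finset ℕ} (hkl : k ≠ l) (h1 : ρ k ∈ Y)
    (h2 : ρ l ∈ Y) : 2 ≤ Y.card := one_lt_card.2 ⟨_, h1, _, h2, hR.inj.ne hkl⟩

theorem ax_shapeA (hR : Rooted G X ρ L)
    (h0 : ∀ Y ⊆ X, Y.Nonempty → (G.ind L Y).card + 2 ≤ 2 * Y.card)
    (h1 : ∀ Y ⊆ X, ρ k ∈ Y → 2 ≤ Y.card → (G.ind L Y).card + 3 ≤ 2 * Y.card)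
    (tot : 2 * X.card ≤ L.card + 3) :
    ∃ γ, Cfg L (GTy G X ρ L) γ (.p k) .u ∧ Iso0 G ρ k γ.1 := by
  obtain ⟨f1, f2, f3⟩ := xb_f1 k
  suffices hX : XHyp G X ρ L {0, 1} (one L) fun i => if i = 0 then .ex k else .tree by
    obtain ⟨F1, F2, a1, a2, a3, a4⟩ := x_two hR hX (by simpa using tot)
    exact ⟨(F1, F2), ⟨a1, a2, a3.1, a4⟩, a3.2⟩
  refine ⟨?_, ?_, ?_, ?_, ?_, ?_⟩
  · intro i _ j _ m e1 e2
    by_cases hi : i = 0 <;> by_cases hj : j = 0 <;> simp_all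
  · exact fun Y hY hn => ax_slack (h0 Y hY hn)
  · intro i _ m e Y hY m1 m2
    by_cases hi : i = 0 <;> simp only [hi, if_true, if_false, reduceCtorEq, XK.ex.injEq] at e
    exact ax_slack (h1 Y hY (e ▸ m1) m2)
  · intro m Y hY m1 m2
    have b0 := ax_two_le hR (xb_f1 m).2.2 m2 m1
    refine ax_slack ?_
    rw [card_filter, sum_pair zero_ne_one]
    by_cases c : k = m + 1 ∨ k = m + 2
    · have := h1 Y hY (c.elim (fun c => c ▸ m1) fun c => c ▸ m2) b0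
      simp [c]
      omega
    · have := h0 Y hY ⟨_, m1⟩
      simp [c]
      omega
  · intro Y hY m
    have := h1 Y hY (m k) (ax_two_le hR f1 (m _) (m _))
    refine ax_slack ?_
    rw [card_filter, sum_pair zero_ne_one]
    simp
    omega
  · intro i _ m e Y hY Z hZ m1 m2 m3 m4
    by_cases hi : i = 0 <;> simp only [hi, if_true, if_false, reduceCtorEq, XK.ex.injEq] at e
    subst e
    have b1 := ax_slack (c := 1) (h1 Y hY m1 (ax_two_le hR f1 m2 m1))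
    have b2 := ax_slack (c := 1) (h1 Z hZ m3 (ax_two_le hR f2 m4 m3))
    unfold Slack at b1 b2
    rw [card_filter, sum_pair zero_ne_one]
    rw [card_pair zero_ne_one] at b1 b2 ⊢
    simp
    omega

theorem ax_shapeB (hR : Rooted G X ρ L) (hkl : k ≠ l)
    (h0 : ∀ Y ⊆ X, Y.Nonempty → (G.ind L Y).card + 2 ≤ 2 * Y.card)
    (h1 : ∀ Y ⊆ X, 2 ≤ Y.card → (G.ind L Y).card + 3 ≤ 2 * Y.card)
    (h2 : ∀ Y ⊆ X, ρ k ∈ Y → ρ l ∈ Y → (G.ind L Y).card + 4 ≤ 2 * Y.card)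
    (tot : 2 * X.card ≤ L.card + 4) :
    ∃ γ, Cfg L (GTy G X ρ L) γ (.p k) (.p l) ∧ Iso0 G ρ k γ.1 ∧ Iso0 G ρ l γ.2 := by
  suffices hX : XHyp G X ρ L {0, 1} (one L) fun i => if i = 0 then .ex k else .ex l by
    obtain ⟨F1, F2, a1, a2, a3, a4⟩ := x_two hR hX (by simpa using tot)
    exact ⟨(F1, F2), ⟨a1, a2, a3.1, a4.1⟩, a3.2, a4.2⟩
  refine ⟨?_, ?_, ?_, ?_, ?_, ?_⟩
  · intro i hi j hj m e1 e2
    simp only [mem_insert, mem_singleton] at hi hj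
    rcases hi with rfl | rfl <;> rcases hj with rfl | rfl <;> simp_all
  · exact fun Y hY hn => ax_slack (h0 Y hY hn)
  · exact fun i _ m _ Y hY _ m2 => ax_slack (h1 Y hY m2)
  · intro m Y hY m1 m2
    have b0 := h1 Y hY (ax_two_le hR (xb_f1 m).2.2 m2 m1)
    refine ax_slack ?_
    rw [card_filter, sum_pair zero_ne_one]
    by_cases c : k = m + 1 ∨ k = m + 2 <;> by_cases c' : l = m + 1 ∨ l = m + 2
    · have := h2 Y hY (c.elim (fun c => c ▸ m1) fun c => c ▸ m2)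
        (c'.elim (fun c => c ▸ m1) fun c => c ▸ m2)
      simp [c, c']
      omega
    all_goals
      simp [c, c']
      omega
  · intro Y hY m
    have := h2 Y hY (m k) (m l)
    refine ax_slack ?_
    rw [card_filter, sum_pair zero_ne_one]
    simp
    omega
  · intro i _ m e Y hY Z hZ m1 m2 m3 m4
    obtain ⟨f1, f2, f3⟩ := xb_f1 m
    have b1 := ax_slack (c := 1) (h1 Y hY (ax_two_le hR f1 m2 m1))
    have b2 := ax_slack (c := 1) (h1 Z hZ (ax_two_le hR f2 m4 m3))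
    have b3 : Slack G L (one L) ({0, 1} : Finset ℕ).card Y 2 ∨
        Slack G L (one L) ({0, 1} : Finset ℕ).card Z 2 := by
      by_cases hi : i = 0 <;> simp only [hi, if_true, if_false, XK.ex.injEq] at e <;> subst e
      · rcases xa_f1 _ _ hkl.symm with c | c
        · exact Or.inl (ax_slack (h2 Y hY m1 (c ▸ m2)))
        · exact Or.inr (ax_slack (h2 Z hZ m3 (c ▸ m4)))
      · rcases xa_f1 _ _ hkl with c | c
        · exact Or.inl (ax_slack (h2 Y hY (c ▸ m2) m1))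
        · exact Or.inr (ax_slack (h2 Z hZ (c ▸ m4) m3))
    unfold Slack at b1 b2 b3
    rw [card_filter, sum_pair zero_ne_one]
    rw [card_pair zero_ne_one] at b1 b2 b3 ⊢
    simp
    omega

theorem LB.ax_h0 (h : LB G X ρ L s) : ∀ Y ⊆ X, Y.Nonempty → (G.ind L Y).card + 2 ≤ 2 * Y.card := by
  intro Y hY hn
  by_cases c : 2 ≤ Y.card
  · have := h.b1 Y hY c
    omega
  · have e : G.ind L Y = ∅ := eq_empty_of_forall_notMem fun e he => by
      obtain ⟨a1, a2, a3⟩ := Gr.mem_ind.1 he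
      exact c (one_lt_card.2 ⟨_, a2, _, a3, h.loopless e a1⟩)
    have := card_pos.2 hn
    rw [e, card_empty]
    omega

theorem LB.ax_h2 (h : LB G X ρ L s) {Y : Finset ℕ} (hY : Y ⊆ X) (hkl : k ≠ l) (h1 : ρ k ∈ Y)
    (h2 : ρ l ∈ Y) : (G.ind L Y).card + 5 ≤ 2 * Y.card + s := by
  obtain ⟨n, hn | hn⟩ := (by decide : ∀ k l : Fin 3, k ≠ l →
    ∃ n, (k = n + 1 ∧ l = n + 2) ∨ (k = n + 2 ∧ l = n + 1)) k l hkl
  · exact h.b2 Y hY n (hn.1 ▸ h1) (hn.2 ▸ h2)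
  · exact h.b2 Y hY n (hn.2 ▸ h2) (hn.1 ▸ h1)

theorem LB.ax_h3 (h : LB G X ρ L s) {Y : Finset ℕ} (hY : Y ⊆ X) (h1 : ∀ k, ρ k ∈ Y) :
    (G.ind L Y).card + 6 ≤ 2 * Y.card + s := by
  by_cases c : Y = X
  · have := card_le_card (G.ind_subset L Y)
    have := h.card
    rw [c] at *
    omega
  · have := h.b3 Y hY c h1
    omega

theorem ax_all {Y : Finset ℕ} {n : Fin 3} (hkl : k ≠ l) (hn : n ≠ k) (hn' : n ≠ l) (h1 : ρ k ∈ Y)
    (h2 : ρ l ∈ Y) (h3 : ρ n ∈ Y) (j : Fin 3) : ρ j ∈ Y := by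
  rcases (by decide : ∀ k l n j : Fin 3, k ≠ l → n ≠ k → n ≠ l → j = k ∨ j = l ∨ j = n)
    k l n j hkl hn hn' with rfl | rfl | rfl
  exacts [h1, h2, h3]

theorem ax_third : ∀ k l : Fin 3, k ≠ l → ∃ n, n ≠ k ∧ n ≠ l := by decide

theorem ax_cp (hc : CP G X ρ L i) : ∃ P ⊆ X, (∀ j, j ≠ i → ρ j ∈ P) ∧ ρ i ∉ P ∧ G.Crit L P := by
  obtain ⟨P, h1, h2, h3, h4, h5⟩ := hc
  exact ⟨P, h1, fun j hj => (xa_f1 j i hj).elim (fun c => c ▸ h2) fun c => c ▸ h3, h4, h5⟩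

theorem ax_two {F P : Finset ℕ} {u w : ℕ} (hA : G.Acyc F) (hu : u ∈ P) (hw : w ∈ P)
    (h : ¬ G.Conn F u w) : (G.ind F P).card + 2 ≤ P.card := by
  by_contra c
  exact h (((((hA.mono (G.ind_subset F P)).tr (G.within_ind F P) (by omega) ⟨u, hu⟩)).conn u hu w
    hw).mono (G.ind_subset F P))

theorem ax_ind {A B P : Finset ℕ} (h : ∀ e ∈ G.ind L P, e ∈ A ∨ e ∈ B) :
    (G.ind L P).card ≤ (G.ind A P).card + (G.ind B P).card :=
  (card_le_card fun e he => mem_union.2 ((h e he).imp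
    (fun c => Gr.mem_ind.2 ⟨c, (Gr.mem_ind.1 he).2⟩) fun c =>
      Gr.mem_ind.2 ⟨c, (Gr.mem_ind.1 he).2⟩)).trans (card_union_le _ _)

theorem ax_inc {F : Finset ℕ} {f : ℕ} {β : Tp} (hR : Rooted G X ρ L) (hi : Iso0 G ρ i F)
    (h : GTy G X ρ L (insert f F) β) (h1 : α1 = .z ∨ α1 = .p i) (hc : α1.compat β = true) :
    G.Inc f (ρ i) := by
  obtain ⟨m, hm, hl⟩ := (by decide : ∀ (i : Fin 3) (α β : Tp), (α = .z ∨ α = .p i) →
    α.compat β = true → ∃ m, m ≠ i ∧ β.lnk i m = true) i α1 β h1 hc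
  by_contra c
  refine hR.inj.ne hm (((h.2.2.2 i m).2 hl).eq_of_isolated fun e he => ?_)
  rcases mem_insert.1 he with rfl | he
  exacts [c, hi e he]

theorem ax_far {F : Finset ℕ} {f g r a b w : ℕ} (hA : G.Acyc F) (hf : f ∈ F) (jf : G.Joins f r a)
    (jg : G.Joins g r b) (h : G.Conn (F.erase f) a w) : G.Conn ((F.erase f).erase g) a w :=
  Gr.Conn.erase_of_side (Y := {z | G.Conn (F.erase f) a z}) jg.symm
    (fun e he => G.closed_comp _ a e (mem_of_mem_erase he))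
    (fun c => hA.not_conn hf jf (Gr.Conn.symm c)) (Gr.Conn.refl _ _ _) h h

theorem ax_add (hR : Rooted G X ρ L) (k l : Fin 3) : ∃ (G' : Gr ℕ ℕ) (g : ℕ), g ∉ L ∧
    G'.Joins g (ρ k) (ρ l) ∧ (∀ e ∈ L, G'.s e = G.s e ∧ G'.t e = G.t e) ∧
    Rooted G' X ρ (insert g L) ∧ ∀ Y, (G'.ind (insert g L) Y).card ≤ (G.ind L Y).card + 1 ∧
      (¬ (ρ k ∈ Y ∧ ρ l ∈ Y) → (G'.ind (insert g L) Y).card ≤ (G.ind L Y).card) := by
  obtain ⟨g, hg⟩ := Infinite.exists_notMem_finset L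
  let G' : Gr ℕ ℕ := ⟨Function.update G.s g (ρ k), Function.update G.t g (ρ l)⟩
  have h1 : ∀ e ∈ L, G'.s e = G.s e ∧ G'.t e = G.t e := fun e he =>
    ⟨Function.update_of_ne (ne_of_mem_of_not_mem he hg) _ _,
      Function.update_of_ne (ne_of_mem_of_not_mem he hg) _ _⟩
  have h2 : G'.Joins g (ρ k) (ρ l) := Or.inl ⟨Function.update_self .., Function.update_self ..⟩
  have h3 : ∀ Y, ∀ e ∈ G'.ind (insert g L) Y, e ≠ g → e ∈ G.ind L Y := fun Y e he hn => by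
    obtain ⟨a1, a2⟩ := Gr.mem_ind.1 he
    have a3 := mem_of_mem_insert_of_ne a1 hn
    exact Gr.mem_ind.2 ⟨a3, (h1 e a3).1 ▸ (h1 e a3).2 ▸ a2⟩
  refine ⟨G', g, hg, h2, h1, ⟨hR.inj, hR.mem, fun e he => ?_⟩, fun Y => ⟨?_, fun c => ?_⟩⟩
  · rcases mem_insert.1 he with rfl | he
    · rcases h2 with ⟨a, b⟩ | ⟨a, b⟩ <;> rw [a, b] <;> exact ⟨hR.mem _, hR.mem _⟩
    · rw [(h1 e he).1, (h1 e he).2]
      exact hR.within e he
  · refine (card_le_card (t := insert g (G.ind L Y)) fun e he => ?_).trans (card_insert_le _ _)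
    exact mem_insert.2 ((em (e = g)).imp_right (h3 Y e he))
  · exact card_le_card fun e he => h3 Y e he fun c' => c (h2.mem_ind.1 (c' ▸ he)).2

theorem ax_trp {F : Finset ℕ} (hR : Rooted G X ρ L) (h : GTy G X ρ L F (.p l))
    (hi : Iso0 G ρ l F) : G.Tr (X.erase (ρ l)) F := by
  have a1 := h.card hR
  have a2 := card_erase_add_one (hR.mem l)
  refine h.2.1.tr (xb_star hR.within fun e he => mem_sdiff.2 ⟨h.1 he, fun c =>
    hi e he (Gr.mem_star.1 c).2⟩).2 ?_ ⟨_, mem_erase.2 ⟨hR.inj.ne (xb_f1 l).1, hR.mem _⟩⟩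
  simp only [Tp.dim] at a1
  omega

theorem ax_tru {F : Finset ℕ} (hR : Rooted G X ρ L) (h : GTy G X ρ L F .u) : G.Tr X F := by
  have a1 := h.card hR
  refine h.2.1.tr (hR.within.mono h.1) ?_ ⟨_, hR.mem 0⟩
  simp only [Tp.dim] at a1
  omega

theorem ax_remove {F L' : Finset ℕ} {g : ℕ} {n : Fin 3} (hR : Rooted G X ρ L')
    (h : G.Tr (X.erase (ρ l)) F) (hg : g ∈ F) (hj : G.Joins g (ρ k) (ρ n)) (hk : k ≠ l)
    (hn : n ≠ l) (hkn : k ≠ n) (hL : F.erase g ⊆ L) :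
    GTy G X ρ L (F.erase g) .z ∧ Iso0 G ρ l (F.erase g) := by
  have hi : Iso0 G ρ l (F.erase g) := fun e he c =>
    notMem_erase _ _ (c.mem h.within (mem_of_mem_erase he))
  refine ⟨⟨hL, h.acyc.mono (erase_subset _ _), fun v hv => ?_, fun i j => ⟨fun c => ?_, fun c => ?_⟩⟩,
    hi⟩
  · by_cases c : v = ρ l
    · exact ⟨l, c ▸ Gr.Conn.refl _ _ _⟩
    · exact (Gr.Conn.erase_or hj (h.conn _ (mem_erase.2 ⟨hR.inj.ne hk, hR.mem _⟩) _
        (mem_erase.2 ⟨c, hv⟩))).elim (fun c => ⟨k, c.symm⟩) fun c => ⟨n, c.symm⟩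
  · have a1 := h.acyc.not_conn hg hj
    rcases (by decide : ∀ k l n i j : Fin 3, k ≠ l → n ≠ l → k ≠ n → Tp.z.lnk i j = true ∨ i = l ∨
      j = l ∨ (i = k ∧ j = n) ∨ (i = n ∧ j = k)) k l n i j hk hn hkn with
      a | rfl | rfl | ⟨rfl, rfl⟩ | ⟨rfl, rfl⟩
    · exact a
    · rw [hR.inj (c.eq_of_isolated hi)]
      simp [Tp.lnk]
    · rw [hR.inj (c.symm.eq_of_isolated hi)]
      simp [Tp.lnk]
    · exact absurd c a1
    · exact absurd c.symm a1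
  · have : i = j := by simpa [Tp.lnk] using c
    exact this ▸ Gr.Conn.refl _ _ _

theorem ax_exch {A B X' : Finset ℕ} {g : ℕ} (hA : G.Tr X A) (hB : G.Tr X' B) (hX : X' ⊆ X)
    (hd : Disjoint B A) (hg : g ∈ A) (hm : G.s g ∈ X' ∧ G.t g ∈ X') :
    ∃ h ∈ B, G.Tr X (insert h (A.erase g)) ∧ G.Tr X' (insert g (B.erase h)) := by
  classical
  have hn := hA.acyc g hg
  obtain ⟨h, hh, hc, hb⟩ : ∃ h ∈ B,
      ¬ (G.Conn (A.erase g) (G.s g) (G.s h) ↔ G.Conn (A.erase g) (G.s g) (G.t h)) ∧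
      ¬ G.Conn (B.erase h) (G.s g) (G.t g) := by
    by_contra hc
    push Not at hc
    have h1 := Gr.Conn.sdiff hB.acyc (B.filter fun h =>
      ¬ (G.Conn (A.erase g) (G.s g) (G.s h) ↔ G.Conn (A.erase g) (G.s g) (G.t h)))
      (fun a ha => ⟨(mem_filter.1 ha).1, hc a (mem_filter.1 ha).1 (by
        have := (mem_filter.1 ha).2
        tauto)⟩) (hB.conn _ hm.1 _ hm.2)
    have h2 := h1 {z | G.Conn (A.erase g) (G.s g) z} (by
      intro k hk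
      simp only [mem_sdiff, mem_filter, Set.mem_ofPred_eq] at hk ⊢
      by_contra h3
      exact hk.2 ⟨hk.1, h3⟩)
    exact hn (h2.1 (Gr.Conn.refl _ _ _))
  have hm' := hB.within h hh
  refine ⟨h, hh, hA.exchange hg (disjoint_left.1 hd hh) (hX hm'.1) (hX hm'.2) ?_,
    hB.exchange hh (disjoint_right.1 hd hg) hm.1 hm.2 ?_⟩
  · have e1 := Gr.Conn.erase_or (G.joins_st g) (hA.conn _ (hX hm.1) _ (hX hm'.1))
    have e2 := Gr.Conn.erase_or (G.joins_st g) (hA.conn _ (hX hm.1) _ (hX hm'.2))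
    have e3 : G.Conn (insert h (A.erase g)) (G.s h) (G.t h) :=
      Gr.Conn.edge (mem_insert_self _ _) (G.joins_st h)
    have s := subset_insert h (A.erase g)
    by_cases h1 : G.Conn (A.erase g) (G.s g) (G.s h)
    · exact (h1.mono s).trans (e3.trans ((e2.resolve_left (by tauto)).mono s).symm)
    · have h2 : G.Conn (A.erase g) (G.s g) (G.t h) := by
        by_contra h2
        exact hc ⟨fun h => absurd h h1, fun h => absurd h h2⟩
      exact (h2.mono s).trans (e3.symm.trans ((e1.resolve_left h1).mono s).symm)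
  · have e1 := Gr.Conn.erase_or (G.joins_st h) (hB.conn _ hm'.1 _ hm.1)
    have e2 := Gr.Conn.erase_or (G.joins_st h) (hB.conn _ hm'.1 _ hm.2)
    have e3 : G.Conn (insert g (B.erase h)) (G.s g) (G.t g) :=
      Gr.Conn.edge (mem_insert_self _ _) (G.joins_st g)
    have s := subset_insert g (B.erase h)
    rcases e1 with e1 | e1 <;> rcases e2 with e2 | e2
    · exact absurd (e1.symm.trans e2) hb
    · exact (e1.mono s).trans (e3.trans (e2.mono s).symm)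
    · exact (e2.mono s).trans (e3.symm.trans (e1.mono s).symm)
    · exact absurd (e1.symm.trans e2) hb

theorem ax_back {G' : Gr ℕ ℕ} {S T : Finset ℕ} {g : ℕ} {n : Fin 3} {β : Tp} (hg : g ∉ L)
    (h1 : ∀ e ∈ L, G'.s e = G.s e ∧ G'.t e = G.t e) (hR : Rooted G' X ρ (insert g L))
    (hj : G'.Joins g (ρ k) (ρ n)) (hk : k ≠ l) (hn : n ≠ l) (hkn : k ≠ n) (hd : Disjoint S T)
    (hu : S ∪ T = insert g L) (hS : G'.Tr (X.erase (ρ l)) S) (hgS : g ∈ S)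
    (hT : GTy G' X ρ (insert g L) T β) :
    ∃ γ, Cfg L (GTy G X ρ L) γ .z β ∧ Iso0 G ρ l γ.1 := by
  have hgT := disjoint_left.1 hd hgS
  have a1 : S.erase g ∪ T = L := by
    rw [← erase_insert hg, ← hu, erase_union_distrib, erase_eq_of_notMem hgT]
  have a2 : S.erase g ⊆ L := a1 ▸ subset_union_left
  obtain ⟨b1, b2⟩ := ax_remove hR hS hgS hj hk hn hkn a2
  refine ⟨(S.erase g, T), ⟨hd.mono_left (erase_subset _ _), a1, gTy_congr h1 ▸ b1,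
    gTy_congr h1 ▸ ⟨a1 ▸ subset_union_right, hT.2⟩⟩, fun e he c => b2 e he ?_⟩
  unfold Gr.Inc at c ⊢
  rwa [(h1 e (a2 he)).1, (h1 e (a2 he)).2]

theorem LB.dim (h : LB G X ρ L s) (hγ : Cfg L (GTy G X ρ L) γ β1 β2) : β1.dim + β2.dim = s := by
  have a1 := hγ.fst.card h.rooted
  have a2 := hγ.snd.card h.rooted
  have a3 := card_union_of_disjoint hγ.disj
  have a4 := h.card
  rw [hγ.cov] at a3
  omega

theorem low_of_iso (hγ : Cfg L (GTy G X ρ L) γ β1 β2) (hR : Rooted G X ρ L) (hi : Iso0 G ρ i γ.1)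
    (h1 : α1 = .z ∨ α1 = .p i) (h2 : α2 ≠ .p i) : Low (GTy G X ρ L) γ α1 α2 := by
  rintro f g ⟨f1, β, β', f2, f3, f4, f5⟩ ⟨g1, δ, δ', g2, g3, g4, g5⟩
  by_contra hfg
  obtain ⟨a, ja⟩ := (ax_inc hR hi f2 h1 f4).exists_joins
  obtain ⟨b, jb⟩ := (ax_inc hR hi g2 h1 g4).exists_joins
  have hA := hγ.snd.2.1
  obtain ⟨m, hm⟩ := f3.2.2.1 a (ja.mem hR.within (hγ.snd.1 f1)).2
  obtain ⟨n, hn⟩ := g3.2.2.1 b (jb.mem hR.within (hγ.snd.1 g1)).2
  have a1 := ax_far hA f1 ja jb hm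
  have a2 := ax_far hA g1 jb ja hn
  have a3 := hA.not_conn f1 ja
  have a4 := hA.not_conn g1 jb
  have a5 : G.Conn (γ.2.erase f) (ρ i) (ρ n) :=
    (Gr.Conn.edge (mem_erase.2 ⟨Ne.symm hfg, g1⟩) jb).trans
      (a2.mono (erase_subset_erase _ (erase_subset _ _)))
  have a6 : G.Conn (γ.2.erase g) (ρ i) (ρ m) :=
    (Gr.Conn.edge (mem_erase.2 ⟨hfg, f1⟩) ja).trans
      (a1.mono (erase_subset_erase _ (erase_subset _ _)))
  exact h2 ((by decide : ∀ (i m n : Fin 3) (α β δ : Tp), β.lnk i n = true → ¬ β.lnk i m = true →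
    δ.lnk i m = true → ¬ δ.lnk i n = true → α.compat β = true → α.compat δ = true → α = .p i)
    i m n α2 β' δ' ((f3.2.2.2 _ _).1 a5) (fun c => a3 (((f3.2.2.2 _ _).2 c).trans hm.symm))
    ((g3.2.2.2 _ _).1 a6) (fun c => a4 (((g3.2.2.2 _ _).2 c).trans hn.symm)) f5 g5)

theorem low_of_cp (hγ : Cfg L (GTy G X ρ L) γ .z .u) (hR : Rooted G X ρ L) (hi : Iso0 G ρ i γ.1)
    (hc : CP G X ρ L i) : Low (GTy G X ρ L) γ (.p i) (.p i) := by
  rintro f g ⟨f1, β, β', f2, f3, f4, f5⟩ -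
  exfalso
  obtain ⟨P, -, h2, h3, h4, h5⟩ := hc
  have a0 := ax_inc hR hi f2 (Or.inr rfl) f4
  have a1 := ax_two hγ.fst.2.1 h2 h3 fun c => by
    have := (hγ.fst.2.2.2 _ _).1 c
    revert this
    exact (by decide : ∀ i : Fin 3, ¬ Tp.z.lnk (i + 1) (i + 2) = true) i
  have a2 := ax_two f3.2.1 h2 h3 fun c => (by decide : ∀ (i : Fin 3) (β : Tp),
    (Tp.p i).compat β = true → ¬ β.lnk (i + 1) (i + 2) = true) i β' f5 ((f3.2.2.2 _ _).1 c)
  have a3 := ax_ind (G := G) (L := L) (A := γ.1) (B := γ.2.erase f) (P := P) fun e he => by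
    obtain ⟨b1, b2, b3⟩ := Gr.mem_ind.1 he
    refine (mem_union.1 (hγ.cov ▸ b1)).imp_right fun c => mem_erase.2 ⟨?_, c⟩
    rintro rfl
    exact h4 (a0.elim (fun c => c ▸ b2) fun c => c ▸ b3)
  unfold Gr.Crit at h5
  omega

theorem cp_types (hγ : Cfg L (GTy G X ρ L) γ (.p k) (.p l)) (hc : CP G X ρ L i) :
    k = i ∨ l = i := by
  by_contra hn
  push Not at hn
  obtain ⟨P, -, h2, h3, -, h5⟩ := hc
  have d := (by decide : ∀ i k : Fin 3, k ≠ i → ¬ (Tp.p k).lnk (i + 1) (i + 2) = true)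
  have a1 := ax_two hγ.fst.2.1 h2 h3 fun c => d i k hn.1 ((hγ.fst.2.2.2 _ _).1 c)
  have a2 := ax_two hγ.snd.2.1 h2 h3 fun c => d i l hn.2 ((hγ.snd.2.2.2 _ _).1 c)
  have a3 := ax_ind (G := G) (L := L) (A := γ.1) (B := γ.2) (P := P) fun e he =>
    mem_union.1 (hγ.cov ▸ (Gr.mem_ind.1 he).1)
  unfold Gr.Crit at h5
  omega

theorem LB.cp_unique (h : LB G X ρ L 2) (hi : CP G X ρ L i) (hk : CP G X ρ L k) : k = i := by
  by_contra hn
  obtain ⟨n, h1, h2⟩ := ax_third k i hn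
  obtain ⟨P, a1, a2, a3, a4⟩ := ax_cp hi
  obtain ⟨Q, b1, b2, b3, b4⟩ := ax_cp hk
  exact h.b4 rfl i k n (Ne.symm hn) h2.symm h1.symm
    ⟨⟨Q, b1, b2 i (Ne.symm hn), b2 n h1, b3, b4⟩, P, a1, a2 k hn, a2 n h2, a3, a4⟩

theorem LB.ax3 (h : LB G X ρ L 3) (k : Fin 3) :
    ∃ γ, Cfg L (GTy G X ρ L) γ (.p k) .u ∧ Iso0 G ρ k γ.1 := by
  have := h.card
  exact ax_shapeA h.rooted h.ax_h0 (fun Y hY _ => h.b1 Y hY) (by omega)

theorem LB.ax1 (h : LB G X ρ L 1) (hkl : k ≠ l) :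
    ∃ γ, Cfg L (GTy G X ρ L) γ .z (.p k) ∧ Iso0 G ρ l γ.1 := by
  obtain ⟨n, h1, h2⟩ := ax_third k l hkl
  obtain ⟨G', g, g1, g2, g3, g4, g5⟩ := ax_add h.rooted k n
  have hc := h.card
  have b1 : ∀ Y ⊆ X, 2 ≤ Y.card → (G'.ind (insert g L) Y).card + 3 ≤ 2 * Y.card := fun Y hY c => by
    by_cases c' : ρ k ∈ Y ∧ ρ n ∈ Y
    · have := h.ax_h2 hY h1.symm c'.1 c'.2
      have := (g5 Y).1
      omega
    · have := h.b1 Y hY c
      have := (g5 Y).2 c'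
      omega
  obtain ⟨γ, a1, a2, a3⟩ := ax_shapeB g4 hkl.symm (fun Y hY c => by
    by_cases c' : ρ k ∈ Y ∧ ρ n ∈ Y
    · have := b1 Y hY (ax_two_le h.rooted h1.symm c'.1 c'.2)
      omega
    · have := h.ax_h0 Y hY c
      have := (g5 Y).2 c'
      omega) b1 (fun Y hY c1 c2 => by
    by_cases c' : ρ n ∈ Y
    · have := h.ax_h3 hY (ax_all hkl h1 h2 c2 c1 c')
      have := (g5 Y).1
      omega
    · have := h.ax_h2 hY hkl c2 c1
      have := (g5 Y).2 fun c => c' c.2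
      omega) (by rw [card_insert_of_notMem g1]; omega)
  exact ax_back g1 g3 g4 g2 hkl h2 h1.symm a1.disj a1.cov (ax_trp g4 a1.fst a2)
    ((mem_union.1 (a1.cov ▸ mem_insert_self g L)).resolve_right fun c => a3 g c g2.inc) a1.snd

theorem LB.ax0u (h : LB G X ρ L 2) (i : Fin 3) :
    ∃ γ, Cfg L (GTy G X ρ L) γ .z .u ∧ Iso0 G ρ i γ.1 := by
  obtain ⟨f1, f2, f3⟩ := xb_f1 i
  obtain ⟨G', g, g1, g2, g3, g4, g5⟩ := ax_add h.rooted (i + 1) (i + 2)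
  have hc := h.card
  obtain ⟨γ, a1, a2⟩ := ax_shapeA (k := i) g4 (fun Y hY c => by
    by_cases c' : ρ (i + 1) ∈ Y ∧ ρ (i + 2) ∈ Y
    · have := h.b2 Y hY i c'.1 c'.2
      have := (g5 Y).1
      omega
    · have := h.ax_h0 Y hY c
      have := (g5 Y).2 c'
      omega) (fun Y hY c1 c2 => by
    by_cases c' : ρ (i + 1) ∈ Y ∧ ρ (i + 2) ∈ Y
    · have := h.ax_h3 hY (ax_all f3.symm f1.symm f2.symm c'.1 c'.2 c1)
      have := (g5 Y).1
      omega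
    · have := h.b1 Y hY c2
      have := (g5 Y).2 c'
      omega) (by rw [card_insert_of_notMem g1]; omega)
  have b1 := ax_trp g4 a1.fst a2
  rcases mem_union.1 (a1.cov ▸ mem_insert_self g L) with c | c
  · exact ax_back g1 g3 g4 g2 f1 f2 f3.symm a1.disj a1.cov b1 c a1.snd
  have m1 : ρ (i + 1) ∈ X.erase (ρ i) := mem_erase.2 ⟨g4.inj.ne f1, g4.mem _⟩
  have m2 : ρ (i + 2) ∈ X.erase (ρ i) := mem_erase.2 ⟨g4.inj.ne f2, g4.mem _⟩
  obtain ⟨f, d1, d2, d3⟩ := ax_exch (ax_tru g4 a1.snd) b1 (erase_subset _ _) a1.disj c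
    (by rcases g2 with ⟨a, b⟩ | ⟨a, b⟩ <;> rw [a, b] <;> constructor <;> assumption)
  have d4 := disjoint_left.1 a1.disj
  have d5 : insert g (γ.1.erase f) ∪ insert f (γ.2.erase g) = insert g L := by
    rw [← a1.cov]
    ext e
    simp only [mem_union, mem_insert, mem_erase]
    by_cases e1 : e = g <;> by_cases e2 : e = f <;> simp_all
  refine ax_back g1 g3 g4 g2 f1 f2 f3.symm (disjoint_left.2 fun e e1 e2 => ?_) d5 d3
    (mem_insert_self _ _) ⟨d5 ▸ subset_union_right, d2.acyc,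
      fun v hv => ⟨0, d2.conn v hv _ (g4.mem 0)⟩,
      fun a b => iff_of_true (d2.conn _ (g4.mem a) _ (g4.mem b)) rfl⟩
  simp only [mem_insert, mem_erase] at e1 e2
  rcases e1 with rfl | e1 <;> rcases e2 with rfl | e2
  exacts [d4 d1 c, e2.1 rfl, e1.1 rfl, d4 e1.2 e2.2]

theorem LB.axoff (h : LB G X ρ L 2) (hkl : k ≠ l) (hn : ∀ n, n ≠ k → n ≠ l → ¬ CP G X ρ L n) :
    ∃ γ, Cfg L (GTy G X ρ L) γ (.p k) (.p l) ∧ Iso0 G ρ k γ.1 := by
  obtain ⟨n, h1, h2⟩ := ax_third k l hkl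
  have hc := h.card
  obtain ⟨γ, a1, a2, -⟩ := ax_shapeB h.rooted hkl h.ax_h0 h.b1 (fun Y hY c1 c2 => by
    by_cases c' : ρ n ∈ Y
    · have := h.ax_h3 hY (ax_all hkl h1 h2 c1 c2 c')
      omega
    · have a : ∀ j, j ≠ n → ρ j ∈ Y := fun j hj => by
        rcases (by decide : ∀ k l n j : Fin 3, k ≠ l → n ≠ k → n ≠ l → j ≠ n → j = k ∨ j = l)
          k l n j hkl h1 h2 hj with rfl | rfl
        exacts [c1, c2]
      by_contra c
      exact hn n h1 h2 ⟨Y, hY, a _ (xb_f1 n).1, a _ (xb_f1 n).2.1, c', by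
        unfold Gr.Crit
        omega⟩) (by omega)
  exact ⟨γ, a1, a2⟩

end Pool.Agent.P.MP_3f5ce9_co
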