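import Pool.Agent.P.MP_3f5ce9_co.W.BS

/-!
Compatible count vectors, normalization.
-/

open Finset

namespace Pool.Agent.P.MP_3f5ce9_co

variable {L1 L2 I : Finset ℕ} {ty1 ty2 : Typing} {μ1 μ2 : ℕ → ℕ} {x y : ℕ → Finset ℕ}
  {τ σ : ℕ → Tp} {A : ℕ}

/-- the number of positions of a given type -/
def bcw (K : Finset ℕ) (τ : ℕ → Tp) (β : Tp) : ℕ := (K.filter fun i => τ i = β).card

theorem cnt_eq_bcw (K : Finset ℕ) (τ : ℕ → Tp) (k : Fin 3) : cnt K τ k = bcw K τ (.p k) := rfl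

theorem bcw_eq_sum (K : Finset ℕ) (τ : ℕ → Tp) (β : Tp) :
    bcw K τ β = ∑ i ∈ K, if τ i = β then 1 else 0 := card_filter _ _

theorem bcw_card (K : Finset ℕ) (τ : ℕ → Tp) :
    K.card = bcw K τ .z + bcw K τ (.p 0) + bcw K τ (.p 1) + bcw K τ (.p 2) + bcw K τ .u := by
  simp only [bcw_eq_sum, ← sum_add_distrib]
  rw [card_eq_sum_ones]
  refine sum_congr rfl fun i _ => ?_
  generalize τ i = β
  revert β
  decide

theorem bcw_dim (K : Finset ℕ) (τ : ℕ → Tp) :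
    ∑ i ∈ K, (τ i).dim = bcw K τ (.p 0) + bcw K τ (.p 1) + bcw K τ (.p 2) + 2 * bcw K τ .u := by
  simp only [bcw_eq_sum, mul_sum, ← sum_add_distrib]
  refine sum_congr rfl fun i _ => ?_
  generalize τ i = β
  revert β
  decide

theorem bcw_eq_zero {K : Finset ℕ} {β : Tp} : bcw K τ β = 0 ↔ ∀ i ∈ K, τ i ≠ β := by
  unfold bcw
  rw [card_eq_zero, filter_eq_empty_iff]

theorem bcw_pos {K : Finset ℕ} {β : Tp} (h : 0 < bcw K τ β) : ∃ i ∈ K, τ i = β := by
  obtain ⟨i, hi⟩ := card_pos.1 h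
  exact ⟨i, (mem_filter.1 hi).1, (mem_filter.1 hi).2⟩

theorem bcw_pos_of {K : Finset ℕ} {β : Tp} {i : ℕ} (hi : i ∈ K) (h : τ i = β) : 0 < bcw K τ β :=
  card_pos.2 ⟨i, mem_filter.2 ⟨hi, h⟩⟩

theorem bcw_congr {K : Finset ℕ} (h : ∀ i ∈ K, τ i = σ i) (β : Tp) : bcw K τ β = bcw K σ β :=
  congrArg card (filter_congr fun i hi => by rw [h i hi])

theorem bcw_union {K J : Finset ℕ} (h : Disjoint K J) (τ : ℕ → Tp) (β : Tp) :
    bcw (K ∪ J) τ β = bcw K τ β + bcw J τ β := by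
  simp only [bcw_eq_sum]
  rw [sum_union h]

theorem bcw_split {K : Finset ℕ} (h : K ⊆ I) (τ : ℕ → Tp) (β : Tp) :
    bcw I τ β = bcw K τ β + bcw (I \ K) τ β := by
  rw [← bcw_union disjoint_sdiff, union_sdiff_of_subset h]

theorem bcw_mono {K : Finset ℕ} (h : K ⊆ I) (τ : ℕ → Tp) (β : Tp) : bcw K τ β ≤ bcw I τ β :=
  card_le_card (filter_subset_filter _ h)

theorem bcw_const {K : Finset ℕ} {α : Tp} (h : ∀ i ∈ K, τ i = α) (β : Tp) :
    bcw K τ β = if α = β then K.card else 0 := by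
  split_ifs with hh
  · exact congrArg card (filter_true_of_mem fun i hi => (h i hi).trans hh)
  · exact bcw_eq_zero.2 fun i hi h1 => hh ((h i hi).symm.trans h1)

theorem bcw_upd {K : Finset ℕ} {i j : ℕ} (hi : i ∈ K) (hj : j ∈ K) (hij : i ≠ j)
    (h : ∀ n ∈ K, n ≠ i → n ≠ j → σ n = τ n) (β : Tp) :
    bcw K σ β + (if τ i = β then 1 else 0) + (if τ j = β then 1 else 0) =
      bcw K τ β + (if σ i = β then 1 else 0) + (if σ j = β then 1 else 0) := by
  have hj' : j ∈ K.erase i := mem_erase.2 ⟨hij.symm, hj⟩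
  simp only [bcw_eq_sum]
  rw [← add_sum_erase _ _ hi, ← add_sum_erase _ _ hj', ← add_sum_erase _ _ hi,
    ← add_sum_erase _ _ hj']
  have : ∑ n ∈ (K.erase i).erase j, (if σ n = β then 1 else 0) =
      ∑ n ∈ (K.erase i).erase j, (if τ n = β then 1 else 0) :=
    sum_congr rfl fun n hn => by
      rw [h n (mem_erase.1 (mem_erase.1 hn).2).2 (mem_erase.1 (mem_erase.1 hn).2).1
        (mem_erase.1 hn).1]
  omega

theorem TS.bccMS {ty : Typing} {μ : ℕ → ℕ} (h : TS ty I μ x τ) : MS (fun _ => True) I μ x :=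
  ⟨fun _ _ => trivial, h.wt⟩

theorem TS.bccUpd {ty : Typing} {μ : ℕ → ℕ} {i j : ℕ} {B C : Finset ℕ} {α β : Tp}
    (h : TS ty I μ x τ) (hi : i ∈ I) (hj : j ∈ I) (hij : i ≠ j) (hB : ty B α) (hC : ty C β)
    (hs : Same (x i) (x j) B C) :
    TS ty I μ (Function.update (Function.update x i B) j C)
      (Function.update (Function.update τ i α) j β) := by
  refine ⟨fun n hn => ?_, (h.bccMS.update2 hi hj hij trivial trivial hs).2.1.wt⟩
  by_cases h1 : n = j
  · subst h1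
    simpa using hC
  rw [Function.update_of_ne h1, Function.update_of_ne h1]
  by_cases h2 : n = i
  · subst h2
    simpa using hB
  rw [Function.update_of_ne h2, Function.update_of_ne h2]
  exact h.typ n hn

theorem sum_cnt_of_ne_u (hτ : ∀ i ∈ I, τ i ≠ .u) : ∑ k, cnt I τ k = ∑ i ∈ I, (τ i).dim := by
  rw [bcw_dim, bcw_eq_zero.2 hτ, Fin.sum_univ_three]
  rfl

theorem sum_cnt_of_ne_z (hσ : ∀ i ∈ I, σ i ≠ .z) :
    ∑ k, cnt I σ k + ∑ i ∈ I, (σ i).dim = 2 * I.card := by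
  have h1 := bcw_card I σ
  rw [bcw_dim, Fin.sum_univ_three]
  rw [bcw_eq_zero.2 hσ] at h1
  simp only [cnt_eq_bcw]
  omega

theorem exists_cnt (b : Fin 3 → ℕ) (h : ∑ k, b k ≤ I.card) :
    ∃ σ : ℕ → Tp, (∀ i ∈ I, σ i ≠ .z) ∧ cnt I σ = b := by
  rw [Fin.sum_univ_three] at h
  obtain ⟨S0, h0, c0⟩ := exists_subset_card_eq (s := I) (n := b 0) (by omega)
  obtain ⟨S1, h1, c1⟩ := exists_subset_card_eq (s := I \ S0) (n := b 1)
    (by rw [card_sdiff_of_subset h0]; omega)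
  obtain ⟨S2, h2, c2⟩ := exists_subset_card_eq (s := (I \ S0) \ S1) (n := b 2)
    (by rw [card_sdiff_of_subset h1, card_sdiff_of_subset h0]; omega)
  refine ⟨fun i => if i ∈ S0 then .p 0 else if i ∈ S1 then .p 1 else if i ∈ S2 then .p 2 else .u,
    fun i _ => by beta_reduce; split_ifs <;> simp, funext fun k => ?_⟩
  have m0 : ∀ i ∈ S0, i ∈ I := fun i hi => h0 hi
  have m1 : ∀ i ∈ S1, i ∈ I ∧ i ∉ S0 := fun i hi => mem_sdiff.1 (h1 hi)
  have m2 : ∀ i ∈ S2, (i ∈ I ∧ i ∉ S0) ∧ i ∉ S1 := fun i hi =>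
    ⟨mem_sdiff.1 (mem_sdiff.1 (h2 hi)).1, (mem_sdiff.1 (h2 hi)).2⟩
  unfold cnt
  fin_cases k
  · refine (congrArg card (ext fun i => ?_)).trans c0
    have := m0 i
    rw [mem_filter]
    beta_reduce
    split_ifs <;> simp_all
  · refine (congrArg card (ext fun i => ?_)).trans c1
    have := m1 i
    clear m0 m1 m2
    rw [mem_filter]
    beta_reduce
    by_cases e1 : i ∈ S1 <;> split_ifs <;> simp_all
  · refine (congrArg card (ext fun i => ?_)).trans c2
    have := m2 i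
    clear m0 m1 m2
    rw [mem_filter]
    beta_reduce
    by_cases e1 : i ∈ S2 <;> split_ifs <;> simp_all

theorem bcc_hall (hτ : ∀ i ∈ I, τ i ≠ .u) (hσ : ∀ i ∈ I, σ i ≠ .z) (h1 : ∑ k, cnt I τ k = A)
    (h2 : ∑ k, cnt I σ k = A) (h : ∀ k, cnt I τ k + cnt I σ k ≤ A) {S N : Finset ℕ} (hS : S ⊆ I)
    (hN : ∀ i ∈ S, ∀ j ∈ I, (τ i).compat (σ j) = true → j ∈ N) : S.card ≤ N.card := by
  have key : ∀ α β : Tp, α.compat β = true → bcw S τ α = 0 ∨ bcw I σ β ≤ bcw N σ β := by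
    intro α β hc
    rcases Nat.eq_zero_or_pos (bcw S τ α) with h0 | h0
    · exact Or.inl h0
    · obtain ⟨i, hi, hα⟩ := bcw_pos h0
      refine Or.inr (card_le_card fun j hj => mem_filter.2 ⟨hN i hi j (mem_filter.1 hj).1 ?_,
        (mem_filter.1 hj).2⟩)
      rw [hα, (mem_filter.1 hj).2, hc]
  have k1 := key .z .u rfl
  have k01 := key (.p 0) (.p 1) rfl
  have k02 := key (.p 0) (.p 2) rfl
  have k10 := key (.p 1) (.p 0) rfl
  have k12 := key (.p 1) (.p 2) rfl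
  have k20 := key (.p 2) (.p 0) rfl
  have k21 := key (.p 2) (.p 1) rfl
  have a1 := bcw_card S τ
  have a2 := bcw_card N σ
  have a3 := bcw_card I τ
  have a4 := bcw_card I σ
  have b1 := bcw_mono hS τ .z
  have b2 := bcw_mono hS τ (.p 0)
  have b3 := bcw_mono hS τ (.p 1)
  have b4 := bcw_mono hS τ (.p 2)
  have b5 := bcw_mono hS τ .u
  have c1 := bcw_eq_zero.2 hτ
  have c2 := bcw_eq_zero.2 hσ
  have d0 := h 0
  have d1 := h 1
  have d2 := h 2
  simp only [Fin.sum_univ_three, cnt_eq_bcw] at h1 h2 d0 d1 d2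
  omega

theorem cc (hτ : ∀ i ∈ I, τ i ≠ .u) (hσ : ∀ i ∈ I, σ i ≠ .z) (h1 : ∑ k, cnt I τ k = A)
    (h2 : ∑ k, cnt I σ k = A) (h : ∀ k, cnt I τ k + cnt I σ k ≤ A) :
    ∃ π, Set.BijOn π I I ∧ ∀ i ∈ I, (τ i).compat (σ (π i)) = true := by
  obtain ⟨f, hf, hft⟩ := (all_card_le_biUnion_card_iff_exists_injective
    fun i : I => I.filter fun j => (τ i).compat (σ j) = true).1 fun s => by
      rw [← card_map (Function.Embedding.subtype _)]
      refine bcc_hall hτ hσ h1 h2 h (fun i hi => ?_) fun i hi j hj hc => ?_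
      · obtain ⟨a, _, rfl⟩ := mem_map.1 hi
        exact a.2
      · obtain ⟨a, ha, rfl⟩ := mem_map.1 hi
        exact mem_biUnion.2 ⟨a, ha, mem_filter.2 ⟨hj, hc⟩⟩
  have hm : Set.MapsTo (fun n => if h : n ∈ I then f ⟨n, h⟩ else n) I I := fun n hn => by
    simp only [mem_coe.1 hn, dif_pos]
    exact (mem_filter.1 (hft ⟨n, hn⟩)).1
  refine ⟨fun n => if h : n ∈ I then f ⟨n, h⟩ else n,
    (I.finite_toSet.injOn_iff_bijOn_of_mapsTo hm).1 fun a ha b hb hab => ?_, fun i hi => ?_⟩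
  · simp only [mem_coe.1 ha, mem_coe.1 hb, dif_pos] at hab
    exact congrArg Subtype.val (hf hab)
  · simp only [hi, dif_pos]
    exact (mem_filter.1 (hft ⟨i, hi⟩)).2

theorem cnt_add_le (h : ∀ i ∈ I, (τ i).compat (σ i) = true) (k : Fin 3) :
    cnt I τ k + cnt I σ k ≤ ∑ k, cnt I τ k ∧ ∑ k, cnt I τ k = ∑ k, cnt I σ k := by
  simp only [Fin.sum_univ_three, cnt_eq_bcw, bcw_eq_sum, ← sum_add_distrib]
  refine ⟨sum_le_sum fun i hi => ?_, sum_congr rfl fun i hi => ?_⟩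
  · have := h i hi
    revert this k
    generalize τ i = α
    generalize σ i = β
    revert α β
    decide
  · have := h i hi
    revert this
    generalize τ i = α
    generalize σ i = β
    revert α β
    decide

theorem bcc_uz {α β : Tp} (h : α.compat β = true) : (α = .u → β = .z) ∧ (α = .z → β = .u) := by
  revert α β
  decide

theorem bcc_pair {k l k' l' : Fin 3} (h : k ≠ l) (h' : k' ≠ l') :
    ((Tp.p k).compat (.p k') = true ∧ (Tp.p l).compat (.p l') = true) ∨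
      ((Tp.p k).compat (.p l') = true ∧ (Tp.p l).compat (.p k') = true) := by
  revert k l k' l'
  decide

theorem Same.bccL {B C B' C' : Finset ℕ} (h : Same B C B' C') : Same C B B' C' :=
  ⟨(union_comm _ _).trans h.1, (inter_comm _ _).trans h.2⟩

theorem Same.bccR {B C B' C' : Finset ℕ} (h : Same B C B' C') : Same B C C' B' :=
  ⟨h.1.trans (union_comm _ _), h.2.trans (inter_comm _ _)⟩

theorem bcc_norm (h1 : BSide L1 ty1) (h2 : BSide L2 ty2) (hd : Disjoint L1 L2) (n : ℕ) :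
    ∀ x y τ σ, bcw I τ .u = n → GS ty1 ty2 I μ1 μ2 x y τ σ → ∑ i ∈ I, (τ i).dim ≤ I.card →
    ∃ x' y' τ' σ', GS ty1 ty2 I μ1 μ2 x' y' τ' σ' ∧ (∀ i ∈ I, τ' i ≠ .u) ∧
      Relation.ReflTransGen (RS2 (Glue L1 ty1 L2 ty2) I fun e => μ1 e + μ2 e)
        (fun i => x i ∪ y i) fun i => x' i ∪ y' i := by
  induction n with
  | zero =>
    intro x y τ σ hn h _
    exact ⟨x, y, τ, σ, h, bcw_eq_zero.1 hn, Relation.ReflTransGen.refl⟩
  | succ n ih =>
    intro x y τ σ hn h hA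
    obtain ⟨i, hi, hu⟩ := bcw_pos (show 0 < bcw I τ .u by omega)
    have a1 := bcw_card I τ
    have a2 := bcw_dim I τ
    obtain ⟨j, hj, hz⟩ := bcw_pos (show 0 < bcw I τ .z by omega)
    have hij : i ≠ j := fun hh => by
      rw [hh, hz] at hu
      cases hu
    obtain ⟨B, C, k, l, hkl, hB, hC, hs⟩ := h1.od (x i) (x j) (hu ▸ h.left.typ i hi)
      (hz ▸ h.left.typ j hj)
    obtain ⟨B', C', k', l', hkl', hB', hC', hs'⟩ := h2.od (y j) (y i)
      ((bcc_uz (h.compat j hj)).2 hz ▸ h.right.typ j hj)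
      ((bcc_uz (h.compat i hi)).1 hu ▸ h.right.typ i hi)
    obtain ⟨B2, C2, k2, l2, hB2, hC2, hs2, c1, c2⟩ : ∃ B2 C2 k2 l2, ty2 B2 (.p k2) ∧
        ty2 C2 (.p l2) ∧ Same (y i) (y j) B2 C2 ∧ (Tp.p k).compat (.p k2) = true ∧
        (Tp.p l).compat (.p l2) = true := by
      rcases bcc_pair hkl hkl' with hc | hc
      · exact ⟨B', C', k', l', hB', hC', hs'.bccL, hc.1, hc.2⟩
      · exact ⟨C', B', l', k', hC', hB', hs'.bccL.bccR, hc.1, hc.2⟩
    have hg : GS ty1 ty2 I μ1 μ2 _ _ _ _ := ⟨h.left.bccUpd hi hj hij hB hC hs,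
      h.right.bccUpd hi hj hij hB2 hC2 hs2, fun m hm => by
        by_cases e1 : m = j
        · subst e1
          simpa using c2
        rw [Function.update_of_ne e1, Function.update_of_ne e1]
        by_cases e2 : m = i
        · subst e2
          simpa using c1
        rw [Function.update_of_ne e2, Function.update_of_ne e2]
        exact h.compat m hm⟩
    have hu' := bcw_upd (σ := Function.update (Function.update τ i (.p k)) j (.p l)) (τ := τ)
      hi hj hij (fun m _ e2 e1 => by rw [Function.update_of_ne e1, Function.update_of_ne e2]) .u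
    simp [hu, hz, hij] at hu'
    obtain ⟨x', y', τ', σ', g1, g2, g3⟩ := ih _ _ _ _ (by omega) hg
      (by rw [← TS.sum_dim h1.toMSide h.left hg.left]; exact hA)
    refine ⟨x', y', τ', σ', g1, g2, Relation.ReflTransGen.head ⟨h.ms h1.sub h2.sub hd,
      hg.ms h1.sub h2.sub hd, i, j, fun m _ e2 e1 => ?_⟩ g3⟩
    simp only [Function.update_of_ne e1, Function.update_of_ne e2]

/-- with few dimensions on the left every state can be normalized -/
theorem GS.normalize (h : GS ty1 ty2 I μ1 μ2 x y τ σ) (h1 : BSide L1 ty1) (h2 : BSide L2 ty2)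
    (hd : Disjoint L1 L2) (hA : ∑ i ∈ I, (τ i).dim ≤ I.card) :
    ∃ x' y' τ' σ', GS ty1 ty2 I μ1 μ2 x' y' τ' σ' ∧ (∀ i ∈ I, τ' i ≠ .u) ∧
      Relation.ReflTransGen (RS2 (Glue L1 ty1 L2 ty2) I fun e => μ1 e + μ2 e)
        (fun i => x i ∪ y i) fun i => x' i ∪ y' i :=
  bcc_norm h1 h2 hd _ x y τ σ rfl h hA

end Pool.Agent.P.MP_3f5ce9_co
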