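import Pool.Agent.P.MP_3f5ce9_co.W.BRed

/-!
The induction for sequences: tight sets and small graphs.
-/

open Finset

namespace Pool.Agent.P.MP_3f5ce9_co

namespace BGLa

variable {t ρ : Fin 3 → ℕ} {L1 L L0 T X Y I F A : Finset ℕ} {G G' : Gr ℕ ℕ} {μ ψ : ℕ → ℕ}
  {r u w : ℕ} {β : Tp} {ty1 ty ty' : Typing}

/-! ### contraction of a subtree -/

lemma cw_iff (hA : G.Tr Y A) (hr : r ∈ Y) : Gr.cw Y r u = Gr.cw Y r w ↔ G.Conn A u w := by
  constructor
  · intro h
    unfold Gr.cw at h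
    split_ifs at h with h1 h2 h2
    · exact hA.conn u h1 w h2
    · exact absurd (h ▸ hr) h2
    · exact absurd (h ▸ hr) h1
    · rw [h]; exact Gr.Conn.refl _ _ _
  · intro h
    refine ((h {z | Gr.cw Y r z = Gr.cw Y r u} fun e he => ?_).1 rfl).symm
    simp only [Set.mem_ofPred_eq, Gr.cw_of_mem (hA.within e he).1, Gr.cw_of_mem (hA.within e he).2]

lemma cw_conn (hA : G.Tr Y A) (hr : r ∈ Y) (hF : G.Within F X) (hu : u ∈ X) (hw : w ∈ X) :
    G.Conn (A ∪ F) u w ↔ (G.map (Gr.cw Y r)).Conn F (Gr.cw Y r u) (Gr.cw Y r w) := by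
  refine ⟨fun h => (h.map _).of_spans fun e he => ?_, Gr.Conn.unmap hF hu hw
    (fun p _ q _ hpq => ((cw_iff hA hr).1 hpq).mono subset_union_left) subset_union_right⟩
  rcases mem_union.1 he with he | he
  · simp only [Gr.map_s, Gr.map_t, Gr.cw_of_mem (hA.within e he).1,
      Gr.cw_of_mem (hA.within e he).2]
    exact Gr.Conn.refl _ _ _
  · exact Gr.Conn.edge he (Gr.joins_st _ e)

lemma cw_acyc (hA : G.Tr Y A) (hr : r ∈ Y) (hF : G.Within F X) (hY : Y ⊆ X) (hd : Disjoint A F) :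
    G.Acyc (A ∪ F) ↔ (G.map (Gr.cw Y r)).Acyc F := by
  constructor
  · intro h e he hc
    refine h e (mem_union_right _ he) (((cw_conn hA hr (hF.mono (erase_subset _ _)) (hF e he).1
      (hF e he).2).2 hc).mono fun g hg => ?_)
    rcases mem_union.1 hg with hg | hg
    · exact mem_erase.2 ⟨fun c => disjoint_left.1 hd hg (c ▸ he), mem_union_left _ hg⟩
    · exact mem_erase.2 ⟨(mem_erase.1 hg).1, mem_union_right _ (mem_erase.1 hg).2⟩
  · intro h
    have hW : G.Within (A ∪ F) X := fun e he => by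
      rcases mem_union.1 he with he | he
      · exact ⟨hY (hA.within e he).1, hY (hA.within e he).2⟩
      · exact hF e he
    have h1 := BM.gm_con (φ := Gr.cw Y r) (subset_union_left (s₁ := A) (s₂ := F)) hW
      fun u _ w _ => cw_iff hA hr
    rw [union_sdiff_cancel_left hd] at h1
    have h2 : ((BM.gm G (A ∪ F)).con A).Indep F := by
      rw [h1]
      exact BM.indep_gm.2 ⟨Subset.rfl, h⟩
    have h3 : (BM.gm G (A ∪ F)).Indep A := BM.indep_gm.2 ⟨subset_union_left, hA.acyc⟩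
    refine (BM.indep_gm.1 (⟨Subset.rfl, fun C hC hs => h3.2 C hC ?_⟩ :
      (BM.gm G (A ∪ F)).Indep (A ∪ F))).2
    refine sdiff_eq_empty_iff_subset.1 (h2.2 _ ⟨C, hC, rfl⟩ fun e he => ?_)
    exact (mem_union.1 (hs (mem_sdiff.1 he).1)).resolve_left (mem_sdiff.1 he).2

lemma cw_ty (hR : Rooted G X ρ L) (hY : Y ⊆ X) (hr : r ∈ Y) (hρ : ∀ i, Gr.cw Y r (ρ i) = ρ i)
    (hA : G.Tr Y A) (hAL : A ⊆ L) (hF : F ⊆ L \ G.ind L Y) :
    GTy G X ρ L (A ∪ F) β ↔
      GTy (G.map (Gr.cw Y r)) (insert r (X \ Y)) ρ (L \ G.ind L Y) F β := by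
  have hFL : F ⊆ L := hF.trans sdiff_subset
  have hW : G.Within F X := hR.within.mono hFL
  have hd : Disjoint A F := disjoint_left.2 fun e h1 h2 =>
    (mem_sdiff.1 (hF h2)).2 (Gr.mem_ind.2 ⟨hAL h1, hA.within e h1⟩)
  have hc : ∀ v ∈ X, ∀ i, G.Conn (A ∪ F) v (ρ i) ↔
      (G.map (Gr.cw Y r)).Conn F (Gr.cw Y r v) (ρ i) := fun v hv i => by
    rw [cw_conn hA hr hW hv (hR.mem i), hρ]
  unfold GTy
  rw [and_iff_right (union_subset hAL hFL), and_iff_right hF, cw_acyc hA hr hW hY hd]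
  refine and_congr_right fun _ => and_congr ⟨fun h v hv => ?_, fun h v hv => ?_⟩ ?_
  · have hv' : v ∈ X := insert_subset (hY hr) sdiff_subset hv
    obtain ⟨i, hi⟩ := h v hv'
    rw [hc v hv', Gr.cw_fix hr hv] at hi
    exact ⟨i, hi⟩
  · obtain ⟨i, hi⟩ := h _ (Gr.cw_mem hv)
    exact ⟨i, (hc v hv i).2 hi⟩
  · refine forall₂_congr fun i j => ?_
    rw [hc _ (hR.mem i), hρ]

/-! ### parallel edges -/

lemma par_conn (h : ∀ e ∈ F, G'.Joins (ψ e) (G.s e) (G.t e)) :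
    G.Conn F u w ↔ G'.Conn (F.image ψ) u w := by
  refine forall_congr' fun Z => imp_congr_left ⟨fun c f hf => ?_, fun c e he => ?_⟩
  · obtain ⟨e, he, rfl⟩ := mem_image.1 hf
    have := c e he
    rcases h e he with ⟨a, b⟩ | ⟨a, b⟩ <;> rw [a, b]
    · exact this
    · exact this.symm
  · have := c _ (mem_image_of_mem ψ he)
    rcases h e he with ⟨a, b⟩ | ⟨a, b⟩ <;> rw [a, b] at this
    · exact this
    · exact this.symm

lemma par_acyc (h : ∀ e ∈ F, G'.Joins (ψ e) (G.s e) (G.t e)) :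
    G.Acyc F ↔ Set.InjOn ψ F ∧ G'.Acyc (F.image ψ) := by
  have h' : ∀ e, ∀ g ∈ F.erase e, G'.Joins (ψ g) (G.s g) (G.t g) :=
    fun e g hg => h g (mem_erase.1 hg).2
  constructor
  · intro hA
    refine ⟨fun e he g hg heg => ?_, fun f hf hc => ?_⟩
    · by_contra hne
      refine hA e he ((par_conn (h' e)).2 (Gr.Conn.edge ?_ (h e he)))
      rw [heg]
      exact mem_image_of_mem ψ (mem_erase.2 ⟨fun c => hne c.symm, hg⟩)
    · obtain ⟨e, he, rfl⟩ := mem_image.1 hf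
      refine hA e he ((par_conn (h' e)).2 (((h e he).conn' hc).mono fun g hg => ?_))
      obtain ⟨g1, g2⟩ := mem_erase.1 hg
      obtain ⟨k, hk, rfl⟩ := mem_image.1 g2
      exact mem_image_of_mem ψ (mem_erase.2 ⟨fun c => g1 (by rw [c]), hk⟩)
  · rintro ⟨hi, hA⟩ e he hc
    refine hA _ (mem_image_of_mem ψ he) ((h e he).conn (((par_conn (h' e)).1 hc).mono
      fun g hg => ?_))
    obtain ⟨k, hk, rfl⟩ := mem_image.1 hg
    obtain ⟨g1, g2⟩ := mem_erase.1 hk
    exact mem_erase.2 ⟨fun c => g1 (hi g2 he c), mem_image_of_mem ψ g2⟩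

lemma par_ty (hF : F ⊆ L) (h : ∀ e ∈ F, ψ e ∈ T ∧ G'.Joins (ψ e) (G.s e) (G.t e)) :
    GTy G X ρ L F β ↔ Set.InjOn ψ F ∧ GTy G' X ρ T (F.image ψ) β := by
  have h' : ∀ e ∈ F, G'.Joins (ψ e) (G.s e) (G.t e) := fun e he => (h e he).2
  unfold GTy
  rw [and_iff_right hF, and_iff_right (image_subset_iff.2 fun e he => (h e he).1), par_acyc h',
    and_assoc]
  simp only [par_conn h']

lemma par_te (hT : TE (Glue L1 ty1 T ty)) (hd : Disjoint L (L1 ∪ T)) (hd1 : Disjoint L1 T)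
    (h0 : L0 ⊆ L) (h1 : ∀ e, e ∉ L → ψ e = e) (h2 : ∀ e ∈ L0, ψ e ∈ T)
    (h3 : ∀ F ⊆ L0, ∀ β, ty' F β ↔ Set.InjOn ψ F ∧ ty (F.image ψ) β)
    (hμ : ∀ P, MS (Glue L1 ty1 L ty') I μ P → ∀ e ∈ L, e ∉ L0 → μ e = 0) :
    TEw (Glue L1 ty1 L ty') I μ := by
  intro P Q hP hQ
  have h4 : ∀ e ∈ L1, e ∉ L := fun e he c => disjoint_left.1 hd c (mem_union_left _ he)
  refine TEw.of_support (S := L1 ∪ L0) (hT.pull (X := L1 ∪ L0) (π := ψ) (fun _ => Iff.rfl) I μ)
    (fun e he => ?_) (fun B hB => ?_) P Q hP hQ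
  · by_cases c : e ∈ L
    · exact hμ P hP e c fun c' => he (mem_union_right _ c')
    · rw [← hP.wt e, card_eq_zero, filter_eq_empty_iff]
      intro i hi hc
      rcases mem_union.1 ((hP.mem i hi).1 hc) with c' | c'
      · exact he (mem_union_left _ c')
      · exact c c'
  · have a1 : B ∩ L ⊆ L0 := fun e he =>
      (mem_union.1 (hB (mem_inter.1 he).1)).resolve_left fun c => h4 e c (mem_inter.1 he).2
    have a2 : ∀ e ∈ B, e ∉ L → e ∈ L1 := fun e he c =>
      (mem_union.1 (hB he)).resolve_right fun c' => c (h0 c')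
    have a3 : ∀ e ∈ B, e ∈ L → ψ e ∈ T := fun e he c => h2 e (a1 (mem_inter.2 ⟨he, c⟩))
    have e1 : B.image ψ ∩ L1 = B ∩ L1 := by
      ext f
      simp only [mem_inter, mem_image]
      constructor
      · rintro ⟨⟨e, he, rfl⟩, hf⟩
        by_cases c : e ∈ L
        · exact (disjoint_left.1 hd1 hf (a3 e he c)).elim
        · rw [h1 e c] at hf ⊢
          exact ⟨he, hf⟩
      · exact fun hf => ⟨⟨f, hf.1, h1 f (h4 f hf.2)⟩, hf.2⟩
    have e2 : B.image ψ ∩ T = (B ∩ L).image ψ := by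
      ext f
      simp only [mem_inter, mem_image]
      constructor
      · rintro ⟨⟨e, he, rfl⟩, hf⟩
        by_cases c : e ∈ L
        · exact ⟨e, ⟨he, c⟩, rfl⟩
        · rw [h1 e c] at hf
          exact (disjoint_left.1 hd1 (a2 e he c) hf).elim
      · rintro ⟨e, ⟨he, c⟩, rfl⟩
        exact ⟨⟨e, he, rfl⟩, a3 e he c⟩
    have e3 : B.image ψ ⊆ L1 ∪ T := image_subset_iff.2 fun e he => by
      by_cases c : e ∈ L
      · exact mem_union_right _ (a3 e he c)
      · rw [h1 e c]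
        exact mem_union_left _ (a2 e he c)
    have e4 : Set.InjOn ψ (B ∩ L : Finset ℕ) → Set.InjOn ψ B := fun hi e he g hg heg => by
      by_cases c : e ∈ L <;> by_cases c' : g ∈ L
      · exact hi (mem_coe.2 (mem_inter.2 ⟨he, c⟩)) (mem_coe.2 (mem_inter.2 ⟨hg, c'⟩)) heg
      · have := a3 e he c
        rw [heg, h1 g c'] at this
        exact (disjoint_left.1 hd1 (a2 g hg c') this).elim
      · have := a3 g hg c'
        rw [← heg, h1 e c] at this
        exact (disjoint_left.1 hd1 (a2 e he c) this).elim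
      · rwa [h1 e c, h1 g c'] at heg
    unfold Glue
    rw [and_iff_right (hB.trans (union_subset_union_right h0)), and_iff_right hB,
      and_iff_right e3, e1, e2]
    simp only [h3 _ a1]
    constructor
    · rintro ⟨α, γ, c1, ⟨c2, c3⟩, c4⟩
      exact ⟨e4 c2, α, γ, c1, c3, c4⟩
    · rintro ⟨c2, α, γ, c1, c3, c4⟩
      exact ⟨α, γ, c1, ⟨c2.mono (coe_subset.2 inter_subset_left), c3⟩, c4⟩

/-! ### the triangle and the star -/

lemma lnk_symm : ∀ (β : Tp) (i j : Fin 3), β.lnk i j = β.lnk j i := by decide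

lemma ex_lnk (G : Gr ℕ ℕ) (F : Finset ℕ) (ρ : Fin 3 → ℕ) :
    ∃ β : Tp, ∀ i j, G.Conn F (ρ i) (ρ j) ↔ β.lnk i j = true := by
  have r : ∀ i, G.Conn F (ρ i) (ρ i) := fun i => Gr.Conn.refl _ _ _
  have key : ∀ β : Tp, (G.Conn F (ρ 0) (ρ 1) ↔ β.lnk 0 1 = true) →
      (G.Conn F (ρ 0) (ρ 2) ↔ β.lnk 0 2 = true) → (G.Conn F (ρ 1) (ρ 2) ↔ β.lnk 1 2 = true) →
      ∀ i j, G.Conn F (ρ i) (ρ j) ↔ β.lnk i j = true := by
    intro β a b c i j
    have s : ∀ i j, (G.Conn F (ρ i) (ρ j) ↔ β.lnk i j = true) →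
        (G.Conn F (ρ j) (ρ i) ↔ β.lnk j i = true) := fun i j h => by
      rw [lnk_symm β j i, ← h]
      exact ⟨Gr.Conn.symm, Gr.Conn.symm⟩
    fin_cases i <;> fin_cases j
    exacts [iff_of_true (r _) (tc_refl _ _), a, b, s _ _ a, iff_of_true (r _) (tc_refl _ _), c,
      s _ _ b, s _ _ c, iff_of_true (r _) (tc_refl _ _)]
  by_cases a : G.Conn F (ρ 0) (ρ 1)
  · by_cases b : G.Conn F (ρ 0) (ρ 2)
    · exact ⟨.u, key _ (iff_of_true a rfl) (iff_of_true b rfl) (iff_of_true (a.symm.trans b) rfl)⟩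
    · exact ⟨.p 2, key _ (iff_of_true a rfl) (iff_of_false b (by decide))
        (iff_of_false (fun c => b (a.trans c)) (by decide))⟩
  · by_cases b : G.Conn F (ρ 0) (ρ 2)
    · exact ⟨.p 1, key _ (iff_of_false a (by decide)) (iff_of_true b rfl)
        (iff_of_false (fun c => a (b.trans c.symm)) (by decide))⟩
    · by_cases c : G.Conn F (ρ 1) (ρ 2)
      · exact ⟨.p 0, key _ (iff_of_false a (by decide)) (iff_of_false b (by decide))
          (iff_of_true c rfl)⟩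
      · exact ⟨.z, key _ (iff_of_false a (by decide)) (iff_of_false b (by decide))
          (iff_of_false c (by decide))⟩

/-- a root other than `ρ i` is not isolated in a forest of type `p i` -/
lemma not_iso {i m : Fin 3} (h : GTy G X ρ L F (.p i)) (hρ : Function.Injective ρ) (hm : m ≠ i) :
    ¬ ∀ e ∈ F, ¬ G.Inc e (ρ m) := by
  intro hc
  obtain ⟨k, k1, k2⟩ := tc_third m i hm
  have := (h.2.2.2 m k).2 ((tc_lnk _ i m k hm.symm k2.symm k1.symm).2 (Or.inr rfl))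
  exact k1 (hρ (this.eq_of_isolated hc))

lemma tri_ty (hρ : Function.Injective ρ) (hm : ∀ i, ρ i ∈ X) (ht : Function.Injective t)
    (hT : TriAt G ρ t) (hX : ∀ v ∈ X, ∃ i, v = ρ i) (hF : F ⊆ tset t) :
    GTy G X ρ (tset t) F β ↔ tyT t F β := by
  have hR : Rooted G X ρ (tset t) := ⟨hρ, hm, fun e he => by
    obtain ⟨i, rfl⟩ := mem_tset.1 he
    obtain ⟨j, k, h1, h2, h3⟩ := tc_other i
    rcases tc_join hT h1 h2 h3 with ⟨a, b⟩ | ⟨a, b⟩ <;> rw [a, b] <;> exact ⟨hm _, hm _⟩⟩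
  have hc : X.card = 3 := by
    have : X = univ.image ρ := by
      ext v
      simp only [mem_image, mem_univ, true_and]
      exact ⟨fun hv => (hX v hv).imp fun _ h => h.symm, fun ⟨i, hi⟩ => hi ▸ hm i⟩
    rw [this, card_image_of_injective _ hρ, card_univ, Fintype.card_fin]
  have key : ∀ β, GTy G X ρ (tset t) F β → tyT t F β := fun β h => by
    have a1 := h.card hR
    refine ⟨hF, by omega, fun i hi => ?_⟩
    subst hi
    obtain ⟨x, rfl⟩ := card_eq_one.1 (by rw [Tp.dim] at a1; omega : F.card = 1)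
    obtain ⟨m, rfl⟩ := mem_tset.1 (hF (mem_singleton_self x))
    by_contra hne
    refine not_iso h hρ (m := m) (fun c => hne (by rw [c])) fun e he hi => ?_
    obtain ⟨j, k, h1, h2, h3⟩ := tc_other m
    rw [mem_singleton.1 he, (tc_join hT h1 h2 h3).inc_iff] at hi
    exact hi.elim (fun c => h1 (hρ c)) fun c => h2 (hρ c)
  refine ⟨key β, fun h => ?_⟩
  obtain ⟨γ, hγ⟩ := ex_lnk G F ρ
  have a1 : GTy G X ρ (tset t) F γ := by
    refine ⟨hF, (BM.indep_gm.1 ((BM.isTri_gm hρ hT Subset.rfl).indep hF ?_)).2, fun v hv => ?_, hγ⟩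
    · rw [h.2.1]
      exact TriBA.dim_le β
    · obtain ⟨i, rfl⟩ := hX v hv
      exact ⟨i, Gr.Conn.refl _ _ _⟩
  rwa [(mSide_tyT ht).uniq _ _ _ h (key γ a1)]

lemma wye_ty (hρ : Function.Injective ρ) (hm : ∀ i, ρ i ∈ X) (ht : Function.Injective t)
    (hT : ∀ i, G.Joins (t i) w (ρ i)) (hw : w ∈ X) (hw' : ∀ i, w ≠ ρ i)
    (hX : ∀ v ∈ X, v = w ∨ ∃ i, v = ρ i) (hF : F ⊆ tset t) :
    GTy G X ρ (tset t) F β ↔ coTy (tset t) (tyT t) F β := by
  have hR : Rooted G X ρ (tset t) := ⟨hρ, hm, fun e he => by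
    obtain ⟨i, rfl⟩ := mem_tset.1 he
    rcases hT i with ⟨a, b⟩ | ⟨a, b⟩ <;> rw [a, b]
    · exact ⟨hw, hm _⟩
    · exact ⟨hm _, hw⟩⟩
  have hc : X.card = 4 := by
    have : X = insert w (univ.image ρ) := by
      ext v
      simp only [mem_insert, mem_image, mem_univ, true_and]
      refine ⟨fun hv => (hX v hv).imp_right fun h => h.imp fun _ h => h.symm, ?_⟩
      rintro (rfl | ⟨i, rfl⟩)
      · exact hw
      · exact hm i
    rw [this, card_insert_of_notMem, card_image_of_injective _ hρ, card_univ, Fintype.card_fin]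
    simp only [mem_image, mem_univ, true_and]
    exact fun ⟨i, hi⟩ => hw' i hi.symm
  have hc3 : (tset t).card = 3 := by
    rw [td_tset, card_image_of_injective _ ht, card_univ, Fintype.card_fin]
  have hs := card_sdiff_add_card_eq_card hF
  have iso : ∀ S ⊆ tset t, ∀ m, t m ∉ S → ∀ e ∈ S, ¬ G.Inc e (ρ m) := fun S hS m hm e he hi => by
    obtain ⟨k, rfl⟩ := mem_tset.1 (hS he)
    rw [(hT k).inc_iff] at hi
    exact hi.elim (fun c => hw' m c.symm) fun c => hm (by rwa [hρ c])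
  have key : ∀ β, GTy G X ρ (tset t) F β → coTy (tset t) (tyT t) F β := fun β h => by
    have a1 := h.card hR
    have a2 := TriBA.dim_co β
    refine ⟨hF, sdiff_subset, by omega, fun i hi => ?_⟩
    have hβ : β = .p i := TriBA.co_inj (b := .p i) hi
    subst hβ
    obtain ⟨x, hx⟩ := card_eq_one.1 (by rw [Tp.dim] at a1; omega : (tset t \ F).card = 1)
    have hx' : x ∈ tset t \ F := by rw [hx]; exact mem_singleton_self x
    obtain ⟨m, rfl⟩ := mem_tset.1 (mem_sdiff.1 hx').1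
    by_contra hne
    exact not_iso h hρ (m := m) (fun c => hne (by rw [hx, c])) (iso F hF m (mem_sdiff.1 hx').2)
  refine ⟨key β, fun h => ?_⟩
  obtain ⟨γ, hγ⟩ := ex_lnk G F ρ
  have a1 : GTy G X ρ (tset t) F γ := by
    refine ⟨hF, fun e he hc => ?_, fun v hv => ?_, hγ⟩
    · obtain ⟨k, rfl⟩ := mem_tset.1 (hF he)
      exact hw' k (((hT k).conn' hc).symm.eq_of_isolated
        (iso _ ((erase_subset _ _).trans hF) k (notMem_erase _ _)))
    · rcases hX v hv with rfl | ⟨i, rfl⟩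
      · have a2 := h.2.2.1
        have a3 := TriBA.dim_le β.co
        obtain ⟨e, he⟩ := card_pos.1 (by omega : 0 < F.card)
        obtain ⟨k, rfl⟩ := mem_tset.1 (hF he)
        exact ⟨k, Gr.Conn.edge he (hT k)⟩
      · exact ⟨i, Gr.Conn.refl _ _ _⟩
  rwa [(mSide_tyT ht).co.uniq _ _ _ h (key γ a1)]

end BGLa

open BGLa

namespace BM

variable {N : BM} {t ρ : Fin 3 → ℕ} {L1 L X Y I : Finset ℕ} {G : Gr ℕ ℕ} {μ : ℕ → ℕ} {n w : ℕ}

theorem GLp.tight (ih : N.GLp t L1 n) (hn : X.card ≤ n + 1) (hR : Rooted G X ρ L)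
    (ht : TriAt G ρ t) (hd : Disjoint L (L1 ∪ tset t)) (hY : Y ⊆ X) (h2 : 2 ≤ Y.card)
    (h1 : ∀ i j, ρ i ∈ Y → ρ j ∈ Y → i = j) (hs : ¬ Slack G L μ I.card Y 1) :
    TEw (Glue L1 (N.HasTy t L1) L (GTy G X ρ L)) I μ := by
  have hne : Y.Nonempty := card_pos.1 (by omega)
  obtain ⟨r, hr, hρ⟩ : ∃ r ∈ Y, ∀ i, Gr.cw Y r (ρ i) = ρ i := by
    by_cases c : ∃ i, ρ i ∈ Y
    · obtain ⟨i, hi⟩ := c
      refine ⟨ρ i, hi, fun j => ?_⟩
      by_cases c' : ρ j ∈ Y
      · rw [Gr.cw_of_mem c', h1 i j hi c']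
      · exact Gr.cw_of_not c'
    · obtain ⟨r, hr⟩ := hne
      exact ⟨r, hr, fun j => Gr.cw_of_not fun c' => c ⟨j, c'⟩⟩
  have hj : ∀ i j k, G.Joins (t i) (ρ j) (ρ k) → (G.map (Gr.cw Y r)).Joins (t i) (ρ j) (ρ k) :=
    fun i j k h => by
      have := h.map (Gr.cw Y r)
      rwa [hρ, hρ] at this
  have hTE := ih (G.map (Gr.cw Y r)) (insert r (X \ Y)) ρ (L \ G.ind L Y)
    (by have := Gr.card_cw hY hr; omega)
    ⟨hR.inj, fun i => hρ i ▸ Gr.cw_mem (hR.mem i), fun e he =>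
      ⟨Gr.cw_mem (hR.within e (mem_sdiff.1 he).1).1, Gr.cw_mem (hR.within e (mem_sdiff.1 he).1).2⟩⟩
    ⟨hj _ _ _ ht.1, hj _ _ _ ht.2.1, hj _ _ _ ht.2.2⟩ (hd.mono_left sdiff_subset)
  have hA := G.ind_subset L Y
  have h4 : ∀ e ∈ L1, e ∉ L := fun e he c => disjoint_left.1 hd c (mem_union_left _ he)
  refine TEw.prod (A := G.ind L Y) (te_tr G Y I _) (hTE I _) (fun P hP i hi => ?_)
    fun B1 B2 b1 b2 b3 b4 => ?_
  · have a1 : ∀ i ∈ I, G.Acyc (P i ∩ G.ind L Y) := fun i hi => by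
      obtain ⟨-, α, β, -, c, -⟩ := hP.mem i hi
      exact c.2.1.mono (inter_subset_inter_left hA)
    have a2 : ∀ i, G.Within (P i ∩ G.ind L Y) Y := fun i =>
      (G.within_ind L Y).mono inter_subset_right
    have a3 : ∀ i ∈ I, (P i ∩ G.ind L Y).card + 1 ≤ Y.card := fun i hi =>
      Gr.card_le_of_acyc _ G _ Y rfl (a2 i) hne (a1 i hi)
    have a4 : (P i ∩ G.ind L Y).card + 1 = Y.card := by
      refine (sum_eq_sum_iff_of_le a3).1 (le_antisymm (sum_le_sum a3) ?_) i hi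
      rw [sum_add_distrib, hP.sum_card, sum_const, sum_const, smul_eq_mul, smul_eq_mul]
      unfold Slack at hs
      omega
    have a5 : G.Tr Y (P i ∩ G.ind L Y) := (a1 i hi).tr (a2 i) a4.ge hne
    refine ⟨a5, ?_⟩
    obtain ⟨c0, α, β, c1, c2, c3⟩ := hP.mem i hi
    refine ⟨fun e he => ?_, α, β, ?_, ?_, c3⟩
    · rcases mem_union.1 (c0 (mem_sdiff.1 he).1) with c | c
      · exact mem_union_left _ c
      · exact mem_union_right _ (mem_sdiff.2 ⟨c, (mem_sdiff.1 he).2⟩)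
    · have : P i \ G.ind L Y ∩ L1 = P i ∩ L1 := by
        ext e
        have := h4 e
        have := @hA e
        simp only [mem_inter, mem_sdiff]
        tauto
      rwa [this]
    · refine (cw_ty hR hY hr hρ a5 (inter_subset_right.trans hA) inter_subset_right).1 ?_
      have : P i ∩ G.ind L Y ∪ P i \ G.ind L Y ∩ (L \ G.ind L Y) = P i ∩ L := by
        ext e
        have := @hA e
        simp only [mem_inter, mem_sdiff, mem_union]
        tauto
      rwa [this]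
  · obtain ⟨c0, α, β, c1, c2, c3⟩ := b2
    refine ⟨union_subset ((b3.trans hA).trans subset_union_right)
      (c0.trans (union_subset_union_right sdiff_subset)), α, β, ?_, ?_, c3⟩
    · have : (B1 ∪ B2) ∩ L1 = B2 ∩ L1 := by
        ext e
        have := h4 e
        have := @hA e
        have := @b3 e
        simp only [mem_inter, mem_union]
        tauto
      rwa [this]
    · have : (B1 ∪ B2) ∩ L = B1 ∪ B2 ∩ (L \ G.ind L Y) := by
        ext e
        have := @hA e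
        have := @b3 e
        have := @disjoint_left.1 b4 e
        simp only [mem_inter, mem_union, mem_sdiff]
        tauto
      rw [this]
      exact (cw_ty hR hY hr hρ b1 (b3.trans hA) inter_subset_right).2 c2

theorem Core.multi_tri (h : N.Core t L1) (hR : Rooted G X ρ L) (hd : Disjoint L (L1 ∪ tset t))
    (hX : ∀ v ∈ X, ∃ i, v = ρ i) : TE (Glue L1 (N.HasTy t L1) L (GTy G X ρ L)) := by
  intro I μ
  obtain ⟨G', hT, -, -⟩ := hR.exists_triAt h.tri.inj (hd.mono_right subset_union_right)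
  have H : ∀ e, ∃ f, (e ∉ L → f = e) ∧ (e ∈ L.filter (fun e => G.s e ≠ G.t e) →
      f ∈ tset t ∧ G'.Joins f (G.s e) (G.t e)) := by
    intro e
    by_cases c : e ∈ L.filter fun e => G.s e ≠ G.t e
    · obtain ⟨c1, c2⟩ := mem_filter.1 c
      obtain ⟨j, hj⟩ := hX _ (hR.within e c1).1
      obtain ⟨k, hk⟩ := hX _ (hR.within e c1).2
      have hjk : j ≠ k := fun c' => c2 (by rw [hj, hk, c'])
      obtain ⟨i, i1, i2⟩ := tc_third j k hjk
      exact ⟨t i, fun c' => (c' c1).elim, fun _ =>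
        ⟨tc_mem t i, by rw [hj, hk]; exact tc_join hT i1 i2 hjk⟩⟩
    · exact ⟨e, fun _ => rfl, fun c' => (c c').elim⟩
  choose ψ h1 h2 using H
  refine par_te h.lab hd h.disj (filter_subset _ _) h1 (fun e he => (h2 e he).1)
    (fun F hF β => ?_) fun P hP e he he' => ?_
  · rw [par_ty (hF.trans (filter_subset _ _)) fun e he => h2 e (hF he),
      tri_ty hR.inj hR.mem h.tri.inj hT hX (image_subset_iff.2 fun e he => (h2 e (hF he)).1)]
  · rw [← hP.wt e, card_eq_zero, filter_eq_empty_iff]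
    intro i hi hc
    obtain ⟨-, α, β, -, c, -⟩ := hP.mem i hi
    exact he' (mem_filter.2 ⟨he, c.2.1.ne (mem_inter.2 ⟨hc, he⟩) (G.joins_st e)⟩)

theorem Core.multi_wye (h : N.Core t L1) (hR : Rooted G X ρ L) (hd : Disjoint L (L1 ∪ tset t))
    (hw : w ∈ X) (hw' : ∀ i, w ≠ ρ i) (hX : ∀ v ∈ X, v = w ∨ ∃ i, v = ρ i)
    (hμ : ∀ e ∈ L, e ∉ G.cut L {w} → μ e = 0) :
    TEw (Glue L1 (N.HasTy t L1) L (GTy G X ρ L)) I μ := by
  obtain ⟨G', hT⟩ : ∃ G' : Gr ℕ ℕ, ∀ i, G'.Joins (t i) w (ρ i) := by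
    refine ⟨⟨fun _ => w, fun e => if e = t 0 then ρ 0 else if e = t 1 then ρ 1 else ρ 2⟩,
      fun i => Or.inl ⟨rfl, ?_⟩⟩
    fin_cases i <;> simp [h.tri.inj.eq_iff]
  have H : ∀ e, ∃ f, (e ∉ L → f = e) ∧ (e ∈ G.cut L {w} →
      f ∈ tset t ∧ G'.Joins f (G.s e) (G.t e)) := by
    intro e
    by_cases c : e ∈ G.cut L {w}
    · obtain ⟨c1, c2⟩ := Gr.mem_cut.1 c
      rw [mem_singleton, mem_singleton] at c2
      rcases hX _ (hR.within e c1).1 with hj | ⟨j, hj⟩ <;>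
        rcases hX _ (hR.within e c1).2 with hk | ⟨k, hk⟩
      · exact (c2 (iff_of_true hj hk)).elim
      · exact ⟨t k, fun c' => (c' c1).elim, fun _ => ⟨tc_mem t k, by rw [hj, hk]; exact hT k⟩⟩
      · exact ⟨t j, fun c' => (c' c1).elim, fun _ =>
          ⟨tc_mem t j, by rw [hj, hk]; exact (hT j).symm⟩⟩
      · exact (c2 (iff_of_false (fun c' => hw' j (c'.symm.trans hj))
          fun c' => hw' k (c'.symm.trans hk))).elim
    · exact ⟨e, fun _ => rfl, fun c' => (c c').elim⟩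
  choose ψ h1 h2 using H
  have h0 : G.cut L {w} ⊆ L := fun e he => (Gr.mem_cut.1 he).1
  refine par_te h.colab hd h.disj h0 h1 (fun e he => (h2 e he).1) (fun F hF β => ?_) fun _ _ => hμ
  rw [par_ty (hF.trans h0) fun e he => h2 e (hF he),
    wye_ty hR.inj hR.mem h.tri.inj hT hw hw' hX (image_subset_iff.2 fun e he => (h2 e (hF he)).1)]

end BM

end Pool.Agent.P.MP_3f5ce9_co
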