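import Pool.Agent.P.MP_3f5ce9_co.W.BSplC
import Pool.Agent.P.MP_3f5ce9_co.W.TriC
import Pool.Agent.P.MP_3f5ce9_co.W.Bits

/-!
The induction for sequences: interior vertices of small degree.
-/

open Finset

namespace Pool.Agent.P.MP_3f5ce9_co

namespace BM

section

variable {N M : BM} {t ρ : Fin 3 → ℕ} {L1 L X D E' Es : Finset ℕ} {G : Gr ℕ ℕ} {v w : ℕ}
  {φ : ℕ → Finset ℕ}

/-- the three-sum of the core and a graph -/
theorem gb_fam (h : N.Core t L1) (hR : Rooted G X ρ L) (ht : TriAt G ρ t)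
    (hd : Disjoint L (L1 ∪ tset t)) (hn : G.Norm X (L ∪ tset t)) :
    (N.sum (gm G (L ∪ tset t))).Tri t L1 L ∧
      Glue L1 ((N.sum (gm G (L ∪ tset t))).HasTy t L1) L
        ((N.sum (gm G (L ∪ tset t))).HasTy t L) = Glue L1 (N.HasTy t L1) L (GTy G X ρ L) ∧
      (N.sum (gm G (L ∪ tset t))).r (N.sum (gm G (L ∪ tset t))).E + 3 = N.r N.E + X.card := by
  have d1 := disjoint_union_right.1 hd
  obtain ⟨a1, a2, a3⟩ := tri_sum h.tri (isTri_gm (G := G) (Es := L ∪ tset t) hR.inj ht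
    subset_union_right) (by
      rw [h.ground, gm_E, ← inter_union_distrib_right, disjoint_iff_inter_eq_empty.1 d1.1.symm,
        empty_union])
  rw [gm_E, union_sdiff_cancel_right d1.2, h.ground, union_sdiff_cancel_right h.disj] at a1
  rw [gm_E] at a3
  refine ⟨a1, ?_, ?_⟩
  · rw [← hasTy_res (L := L1) h.ground.ge, a2, ← hasTy_res (L := L) Subset.rfl, a3,
      hasTy_gm hR ht d1.2 hn]
  · have b1 := a1.rk
    have b2 := r_gm_conn (Es := L ∪ tset t) Subset.rfl hn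
    rw [← r_res_of_subset _ h.ground.ge, a2, ← h.ground, ← r_res_of_subset _ (Subset.refl (L ∪ tset t)),
      a3] at b1
    omega

theorem gb_sub (h : M.Cover D E' φ) (hD : D ⊆ M.E) : ∀ n ∈ E', φ n ⊆ M.E := fun n hn => by
  rcases h.all n hn with h1 | ⟨x, hx, y, hy, -, h1⟩
  · rw [(h.out n h1).2]
    exact singleton_subset_iff.2 (mem_sdiff.1 h1).1
  · rw [h1]
    exact insert_subset (hD hx) (singleton_subset_iff.2 (hD hy))

/-- splitting off a vertex -/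
theorem gb_split (hn : G.Norm X Es) (hv : v ∈ X) (hw : w ∈ X.erase v)
    (hne : (G.cut Es {v}).Nonempty) (h : (gm G Es).Cover (G.cut Es {v}) E' φ) :
    ∃ G' : Gr ℕ ℕ, G'.Norm (X.erase v) E' ∧ (gm G Es).lin φ E' = gm G' E' ∧
      ∀ n ∈ Es, ¬ G.Inc n v → G'.s n = G.s n ∧ G'.t n = G.t n := by
  have a1 : ∀ x ∈ G.cut Es {v}, ∃ a ∈ X.erase v, GA.gv G x = symmDiff {v} {a} := fun x hx => by
    obtain ⟨h1, h2⟩ := Gr.mem_cut.1 hx
    simp only [mem_singleton] at h2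
    by_cases h3 : G.s x = v
    · exact ⟨G.t x, mem_erase.2 ⟨fun h4 => h2 (iff_of_true h3 h4), (hn.within x h1).2⟩, by rw [← h3]⟩
    · have h4 : G.t x = v := by tauto
      exact ⟨G.s x, mem_erase.2 ⟨h3, (hn.within x h1).1⟩, by rw [← h4, symmDiff_comm]⟩
  have a2 : ∀ n, ∃ p : ℕ × ℕ, (n ∈ E' → (p.1 ∈ X.erase v ∧ p.2 ∈ X.erase v) ∧
      oddSum (GA.gv G) (φ n) = symmDiff {p.1} {p.2}) ∧
      (n ∈ Es → ¬ G.Inc n v → p = (G.s n, G.t n)) := fun n => by
    by_cases h0 : n ∈ Es ∧ ¬ G.Inc n v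
    · refine ⟨(G.s n, G.t n), fun _ => ⟨⟨mem_erase.2 ⟨fun k => h0.2 (Or.inl k), (hn.within n h0.1).1⟩,
        mem_erase.2 ⟨fun k => h0.2 (Or.inr k), (hn.within n h0.1).2⟩⟩, ?_⟩, fun _ _ => rfl⟩
      rw [(h.out n (mem_sdiff.2 ⟨h0.1, fun k => (Gr.mem_cut.1 k).2 (iff_of_false
        (fun k => h0.2 (Or.inl (mem_singleton.1 k)))
        fun k => h0.2 (Or.inr (mem_singleton.1 k)))⟩)).2, lin_one]
    by_cases hn' : n ∈ E'
    swap
    · exact ⟨(0, 0), fun k => absurd k hn', fun k k' => absurd ⟨k, k'⟩ h0⟩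
    rcases h.all n hn' with h1 | ⟨x, hx, y, hy, hxy, h1⟩
    · refine ⟨(w, w), fun _ => ⟨⟨hw, hw⟩, ?_⟩, fun k k' => absurd ⟨k, k'⟩ h0⟩
      obtain ⟨h2, h3⟩ := mem_sdiff.1 h1
      have h4 : G.s n = G.t n := by
        simp only [Gr.mem_cut, mem_singleton, Gr.Inc, gm_E] at h0 h2 h3
        grind
      rw [(h.out n h1).2, lin_one, GA.gv, h4, symmDiff_self, symmDiff_self]
    · obtain ⟨a, ha, e1⟩ := a1 x hx
      obtain ⟨b, hb, e2⟩ := a1 y hy
      refine ⟨(a, b), fun _ => ⟨⟨ha, hb⟩, ?_⟩, fun k k' => absurd ⟨k, k'⟩ h0⟩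
      rw [h1, lin_ins _ (notMem_singleton.2 hxy), lin_one, e1, e2,
        symmDiff_symmDiff_symmDiff_comm, symmDiff_self, bot_symmDiff]
  choose p p1 p2 using a2
  have a3 : (gm G Es).lin φ E' = gm ⟨fun n => (p n).1, fun n => (p n).2⟩ E' := by
    exact (ofVec_lin (gb_sub h (filter_subset _ _))).trans (ofVec_congr fun n hn => (p1 n hn).2)
  have a4 : Gr.Within ⟨fun n => (p n).1, fun n => (p n).2⟩ E' (X.erase v) := fun n hn => (p1 n hn).1
  refine ⟨_, ⟨a4, ⟨w, hw⟩, fun x hx y hy => (Gr.comp_eq_iff hx hy).1 ?_⟩, a3, fun n h1 h2 => by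
    simp [p2 n h1 h2]⟩
  have b1 := h.r_add (cocyc_gm.2 ⟨_, rfl⟩) hne
  have b2 := r_gm_conn (Es := Es) Subset.rfl hn
  have b3 := r_gm_add (Es := E') Subset.rfl a4
  have b4 := card_erase_add_one hv
  rw [a3, gm_E] at b1
  exact card_le_one.1 (show Gr.ncomp _ (X.erase v) E' ≤ 1 by omega) _ (mem_image_of_mem _ hx) _
    (mem_image_of_mem _ hy)

theorem gb_id {C : Finset ℕ} (h : ∀ x ∈ C, φ x = {x}) : oddSum φ C = C := by
  rw [lin_cg h, mn_inj (π := fun x => x) fun _ _ _ _ e => e, image_id']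

end

theorem GLp.low {N : BM} {t ρ : Fin 3 → ℕ} {L1 L X I : Finset ℕ} {G : Gr ℕ ℕ} {μ : ℕ → ℕ} {n v : ℕ}
    (ih : N.GLp t L1 n) (h : N.Core t L1) (hn : X.card ≤ n + 1) (hR : Rooted G X ρ L)
    (ht : TriAt G ρ t) (hd : Disjoint L (L1 ∪ tset t)) (hI : 3 ≤ I.card) (hv : v ∈ X)
    (hv' : ∀ i, v ≠ ρ i) (hμ : ∑ e ∈ G.cut L {v}, μ e < 2 * I.card) :
    SC (Glue L1 (N.HasTy t L1) L (GTy G X ρ L)) I μ := by
  intro P0 Q0 hP hQ
  obtain ⟨i, hi⟩ := card_pos.1 (show 0 < I.card by omega)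
  have g0 := hP.mem i hi
  obtain ⟨-, α, β, -, g1, -⟩ := id g0
  have hN := g1.norm hR ht
  obtain ⟨a1, a2, a3⟩ := gb_fam h hR ht hd hN
  obtain ⟨d1, d2⟩ := disjoint_union_right.1 hd
  have a4 := a1.r_eq_of_glue (a2 ▸ g0)
  have a5 := (a1.isBase_del a4).trans a2
  have a6 := a1.del_E
  have hT : ∀ e ∈ tset t, ¬ G.Inc e v := fun e he k => by
    obtain ⟨j, rfl⟩ := mem_tset.1 he
    obtain ⟨j1, j2, k1, k2, k3⟩ := tc_other j
    exact ((tc_join ht k1 k2 k3).inc_iff.1 k).elim (hv' _) (hv' _)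
  have c1 : G.cut (L ∪ tset t) {v} = G.cut L {v} := by
    ext e
    have := hT e
    simp only [Gr.mem_cut, mem_union, mem_singleton, Gr.Inc] at this ⊢
    tauto
  have c2 : G.cut L {v} ⊆ L := filter_subset _ _
  have c3 : ((N.sum (gm G (L ∪ tset t))).del (tset t)).dual.cyc (G.cut L {v}) := by
    refine ⟨a6 ▸ c2.trans subset_union_right, fun C hC => (cocyc_sum.2 ⟨(c2.trans
      subset_union_left).trans subset_union_right, ?_, ?_⟩).2 C hC.1⟩
    · rw [h.ground, disjoint_iff_inter_eq_empty.1 (hd.mono_left c2)]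
      exact BM.nil _
    · rw [gm_E, inter_eq_left.2 (c2.trans subset_union_left)]
      exact cocyc_gm.2 ⟨_, c1.symm⟩
  have c4 : (G.cut L {v}).Nonempty := by
    rw [← c1, nonempty_iff_ne_empty]
    intro k
    refine hv' 0 ((hN.conn v hv _ (hR.mem 0) {v} fun e he => ?_).1 rfl).symm
    by_contra k'
    exact notMem_empty e (k ▸ Gr.mem_cut.2 ⟨he, by simpa using k'⟩)
  obtain ⟨E', φ, hc, hf⟩ := exists_cover ((N.sum (gm G (L ∪ tset t))).del (tset t)) (G.cut L {v})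
    (L1 ∪ tset t)
  have r1 := hc.r_add c3 c4
  have o1 : ∀ e ∈ (L1 ∪ L) \ G.cut L {v}, e ∈ E' ∧ φ e = {e} := a6 ▸ hc.out
  have o2 : ∀ e ∈ L1, e ∈ E' ∧ φ e = {e} := fun e he => o1 e (mem_sdiff.2
    ⟨mem_union_left _ he, fun k => disjoint_left.1 d1 (c2 k) he⟩)
  have o3 : Disjoint E' (tset t) := disjoint_left.2 fun e he k => by
    refine disjoint_left.1 hf (mem_sdiff.2 ⟨he, fun k' => ?_⟩) (mem_union_right _ k)
    exact (mem_sdiff.1 (mem_sdiff.1 k').1).2 k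
  have o4 : L1 ∪ E' \ L1 = E' := union_sdiff_of_subset fun e he => (o2 e he).1
  have hc' : (gm G (L ∪ tset t)).Cover (G.cut (L ∪ tset t) {v}) (E' \ L1 ∪ tset t)
      fun n => if n ∈ tset t then {n} else φ n := by
    rw [c1]
    refine ⟨fun e he => ?_, fun x hx y hy hxy => ?_, fun m hm => ?_⟩
    · by_cases k : e ∈ tset t
      · exact ⟨mem_union_right _ k, if_pos k⟩
      · obtain ⟨k1, k2⟩ := mem_sdiff.1 he
        have k3 := (mem_union.1 k1).resolve_right k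
        have k4 := o1 e (mem_sdiff.2 ⟨mem_union_right _ k3, k2⟩)
        exact ⟨mem_union_left _ (mem_sdiff.2 ⟨k4.1, disjoint_left.1 d1 k3⟩), (if_neg k).trans k4.2⟩
    · obtain ⟨m, hm, k⟩ := hc.pair x hx y hy hxy
      refine ⟨m, mem_union_left _ (mem_sdiff.2 ⟨hm, fun k1 => ?_⟩),
        (if_neg (disjoint_left.1 o3 hm)).trans k⟩
      have := congrArg card ((o2 m k1).2.symm.trans k)
      rw [card_singleton, card_pair hxy] at this
      omega
    · rcases mem_union.1 hm with k | k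
      · obtain ⟨k1, k2⟩ := mem_sdiff.1 k
        rw [if_neg (disjoint_left.1 o3 k1)]
        refine (hc.all m k1).imp_left fun k3 => ?_
        rw [a6, mem_sdiff, mem_union] at k3
        exact mem_sdiff.2 ⟨mem_union_left _ (k3.1.resolve_left k2), k3.2⟩
      · exact Or.inl (mem_sdiff.2 ⟨mem_union_right _ k, fun k' => disjoint_left.1 d2 (c2 k') k⟩)
  have m0 : ∀ j, ρ j ∈ X.erase v := fun j => mem_erase.2 ⟨(hv' j).symm, hR.mem j⟩
  obtain ⟨G', n1, n2, n3⟩ := gb_split hN hv (m0 0) (c1 ▸ c4) hc'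
  have hR' : Rooted G' (X.erase v) ρ (E' \ L1) := ⟨hR.inj, m0, n1.within.mono subset_union_left⟩
  have ht' : TriAt G' ρ t := by
    have k := fun j => n3 (t j) (mem_union_right _ (tc_mem t j)) (hT _ (tc_mem t j))
    unfold TriAt Gr.Joins at ht ⊢
    simpa only [(k _).1, (k _).2] using ht
  have hd' : Disjoint (E' \ L1) (L1 ∪ tset t) :=
    disjoint_union_right.2 ⟨sdiff_disjoint, o3.mono_left sdiff_subset⟩
  obtain ⟨b1, b2, b3⟩ := gb_fam h hR' ht' hd' n1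
  have b4 := b1.del_E
  have b5 := card_erase_add_one hv
  rw [o4] at b4
  rw [a6, r_del_of_disjoint _ (disjoint_union_left.2 ⟨h.disj, d2⟩), a4] at r1
  have b6 : (N.sum (gm G' (E' \ L1 ∪ tset t))).del (tset t) =
      ((N.sum (gm G (L ∪ tset t))).del (tset t)).lin φ E' := by
    refine bt_eq b4 ?_ ?_
    · rintro C ⟨⟨D1, D2, k1, k2, k3⟩, k4⟩
      have k5 : C ⊆ E' := b4 ▸ BM.sub _ C ⟨⟨D1, D2, k1, k2, k3⟩, k4⟩
      rw [← n2] at k2
      refine ⟨k5, ⟨D1, _, k1, k2.2, ?_⟩, Disjoint.mono_left (lin_sub fun x hx =>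
        gb_sub hc c3.1 x (k5 hx)) sdiff_disjoint⟩
      rw [lin_cg (ψ := fun n => if n ∈ tset t then {n} else φ n)
        fun x hx => (if_neg (disjoint_left.1 k4 hx)).symm, k3, oddSum_symmDiff, gb_id]
      intro x hx
      split_ifs with k
      · rfl
      · exact (o2 x ((mem_union.1 (h.ground ▸ N.sub _ k1 hx)).resolve_right k)).2
    · rw [b4, r_del_of_disjoint _ o3, lin_E]
      have := (N.sum (gm G' (E' \ L1 ∪ tset t))).r_le_rE E'
      omega
  have b7 := b1.isBase_del (by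
    rw [o4, ← r_del_of_disjoint _ o3, b6]
    omega)
  rw [b6, b2] at b7
  rw [← a5] at hP hQ ⊢
  refine sc_split hI c3 c4 hμ hc (fun μ' _ => ?_) P0 Q0 hP hQ
  rw [b7]
  exact (ih G' _ ρ _ (by omega) hR' ht' hd' I μ').sc hI

end BM

end Pool.Agent.P.MP_3f5ce9_co
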