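import Pool.Agent.P.MP_3f5ce9_co.W.BRich
import Pool.Agent.P.MP_3f5ce9_co.W.BGLa
import Pool.Agent.P.MP_3f5ce9_co.W.BGLb

/-!
The induction for sequences.
-/

open Finset

namespace Pool.Agent.P.MP_3f5ce9_co

theorem bgl_count (G : Gr ℕ ℕ) (L W : Finset ℕ) (μ : ℕ → ℕ) :
    ∑ v ∈ W, ∑ e ∈ G.cut L {v}, μ e ≤ ∑ e ∈ G.ind L W, μ e + ∑ e ∈ L, μ e := by
  simp only [Gr.cut, Gr.ind, sum_filter]
  rw [sum_comm, ← sum_add_distrib]
  refine sum_le_sum fun e _ => (sum_le_sum (g := fun v =>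
    (if G.s e = v then μ e else 0) + if G.t e = v then μ e else 0) fun v _ => ?_).trans ?_
  · simp only [mem_singleton]
    by_cases a : G.s e = v <;> by_cases b : G.t e = v <;> simp [a, b]
  · rw [sum_add_distrib, sum_ite_eq, sum_ite_eq]
    by_cases a : G.s e ∈ W <;> by_cases b : G.t e ∈ W <;> simp [a, b]

namespace BM

theorem Core.glp {N : BM} {t : Fin 3 → ℕ} {L1 : Finset ℕ} (h : N.Core t L1) (n : ℕ) :
    N.GLp t L1 n := by
  induction n with
  | zero => exact fun G X ρ L hn hR _ _ => absurd (card_pos.2 ⟨_, hR.mem 0⟩) (by omega)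
  | succ n ih =>
    intro G X ρ L hn hR ht hd
    refine te_of_sc fun I μ hI => ?_
    by_cases c1 : ∀ Y ⊆ X, 2 ≤ Y.card → (∀ i j, ρ i ∈ Y → ρ j ∈ Y → i = j) →
      Slack G L μ I.card Y 1
    swap
    · push Not at c1
      obtain ⟨Y, a1, a2, a3, a4⟩ := c1
      exact (ih.tight hn hR ht hd a1 a2 a3 a4).sc hI
    by_cases c2 : ∃ v ∈ X, (∀ i, v ≠ ρ i) ∧ ∑ e ∈ G.cut L {v}, μ e < 2 * I.card
    · obtain ⟨v, a1, a2, a3⟩ := c2
      exact ih.low h hn hR ht hd hI a1 a2 a3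
    push Not at c2
    obtain ⟨W, hW, cW⟩ : ∃ W : Finset ℕ, (∀ v, v ∈ W ↔ v ∈ X ∧ ∀ i, v ≠ ρ i) ∧
        W.card + 3 = X.card := by
      refine ⟨X \ univ.image ρ, fun v => by simp [eq_comm], ?_⟩
      have := card_sdiff_add_card_eq_card (image_subset_iff.2 fun i (_ : i ∈ univ) => hR.mem i)
      rwa [card_image_of_injective _ hR.inj, card_univ, Fintype.card_fin] at this
    have hX : ∀ v ∈ X, v ∈ W ∨ ∃ i, v = ρ i := fun v hv => by
      by_contra c
      push Not at c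
      exact c.1 ((hW v).2 ⟨hv, c.2⟩)
    rcases Nat.lt_trichotomy W.card 1 with c | c | c
    · obtain rfl : W = ∅ := card_eq_zero.1 (by omega)
      exact (h.multi_tri hR hd (fun v hv => (hX v hv).resolve_left (notMem_empty v)) I μ).sc hI
    · obtain ⟨w, rfl⟩ := card_eq_one.1 c
      obtain ⟨a1, a2⟩ := (hW w).1 (mem_singleton_self w)
      by_cases c3 : I.card * X.card < ∑ e ∈ L, μ e + 2 * I.card
      · exact h.sc_rich hR ht hd hI c3 c1
      refine (h.multi_wye hR hd a1 a2 (fun v hv => (hX v hv).imp_left mem_singleton.1)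
        fun e he he' => ?_).sc hI
      have a3 := c2 w a1 a2
      have a4 := sum_le_sum_of_subset (f := μ) (insert_subset he
        (fun x hx => (Gr.mem_cut.1 hx).1 : G.cut L {w} ⊆ L))
      rw [sum_insert he'] at a4
      rw [← cW, c] at c3
      omega
    · refine h.sc_rich hR ht hd hI ?_ c1
      have a1 := c1 W (fun v hv => ((hW v).1 hv).1) c fun i _ hi => absurd rfl (((hW _).1 hi).2 i)
      have a2 := (card_nsmul_le_sum W _ _ fun v hv =>
        c2 v ((hW v).1 hv).1 ((hW v).1 hv).2).trans (bgl_count G L W μ)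
      rw [Slack] at a1
      rw [← cW]
      simp only [smul_eq_mul] at a2
      nlinarith

theorem bgl_leaf {P : BM} {s : Fin 3 → ℕ} {L1 A : Finset ℕ} (h : P.TriS s L1 A) (hr : P.Reg)
    (hA : 4 ≤ A.card) (ih : IHB (L1 ∪ A).card) (hk : (P.res (A ∪ tset s)).Graphic) :
    TE (P.del (tset s)).IsBase := by
  obtain ⟨a1, a2⟩ := td_side h
  have a3 := h.toTri.res_E
  have a4 : (P.res (L1 ∪ tset s)).E.card < (L1 ∪ A).card := by
    rw [a3, card_union_of_disjoint h.d1, card_union_of_disjoint h.d12, h.tri.card]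
    omega
  have hc : (P.res (L1 ∪ tset s)).Core s L1 := ⟨a1, a3, h.d1, hr.res _,
    isBase_labels a1 a3 h.d1 ▸ ih _ (hr.res _) a4,
    isBase_dy_dual a1 a3 h.d1 a2 ▸ ih _ ((hr.res _).dy a1).dual a4⟩
  obtain ⟨G, X, ρ, b1, b2, b3, b4⟩ := hk.exists_rooted (td_side h.symm).1 h.toTri.symm.res_E
  rw [h.toTri.isBase_del h.r_eq, ← hasTy_res (X := L1 ∪ tset s) Subset.rfl,
    ← hasTy_res (P := P) (L := A) (X := A ∪ tset s) Subset.rfl, b4, hasTy_gm b1 b2 h.d2 b3]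
  exact hc.glp _ G X ρ A le_rfl b1 b2 (disjoint_union_right.2 ⟨h.d12.symm, h.d2⟩)

/-- a three-sum with a graphic or cographic leaf -/
theorem te_leaf {P : BM} {s : Fin 3 → ℕ} {L1 A : Finset ℕ} (h : P.TriS s L1 A) (hr : P.Reg)
    (hA : 4 ≤ A.card) (ih : IHB (L1 ∪ A).card)
    (hk : (P.res (A ∪ tset s)).Graphic ∨ (P.res (A ∪ tset s)).CoStar s) :
    TE (P.del (tset s)).IsBase := by
  refine hk.elim (bgl_leaf h hr hA ih) fun hk => ?_
  obtain ⟨P', h', e0, e1, e2⟩ := h.exists_dual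
  have a1 := (td_side h).1
  have a2 := (td_side h.symm).1
  exact te_dual (e0 ▸ bgl_leaf h' (h'.toTri.reg (e1 ▸ (hr.res _).dy a1) (e2 ▸ (hr.res _).dy a2))
    hA ih (e2 ▸ hk.graphic_dy a2))

end BM

end Pool.Agent.P.MP_3f5ce9_co
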