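import Pool.Agent.P.MP_3f5ce9_co.W.BSplC
import Pool.Agent.P.MP_3f5ce9_co.W.Bits

/-!
Sequences of bases of R10.
-/

open Finset

namespace Pool.Agent.P.MP_3f5ce9_co

namespace BM

/-- the columns of R10 -/
def rtL : List ℕ := [35, 37, 41, 49, 38, 42, 50, 44, 52, 56]

theorem rt_hl : ∀ x ∈ rtL, x < 2 ^ 16 := by decide

theorem rt_rE : R10.r R10.E = 5 := (bt_rE rt_hl).trans (by decide +kernel)

/-- the test for bases -/
def rtB (m : ℕ) : Bool := (msel rtL m).length == 5 && rkm rtL m == 5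

theorem rt_base (m : ℕ) : R10.IsBase (mset 10 m) ↔ rtB m = true := by
  have h1 : R10.r (mset 10 m) = rkm rtL m := r_ofBits rt_hl m
  have h2 : (mset 10 m).card = (msel rtL m).length := card_mset rtL m
  have h3 : mset 10 m ⊆ R10.E := mset_subset 10 m
  rw [isBase_iff, rt_rE, h1, h2, rtB, and_iff_right h3, Bool.and_eq_true, beq_iff_eq, beq_iff_eq]
  omega

/-- four bases that cover every element twice -/
def rtOk (a b c d : ℕ) : Bool :=
  rtB a && rtB b && rtB c && rtB d && (List.range 10).all fun e =>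
    (a.testBit e).toNat + (b.testBit e).toNat + (c.testBit e).toNat + (d.testBit e).toNat == 2

/-- the check of the certificate -/
def rtChk : List (ℕ × ℕ × ℕ × ℕ) → List ℕ → Bool
  | [], r => (List.range 1024).all fun m => !rtB m || r.contains m
  | (a, b, c, d) :: l, r => rtOk a b c d && r.contains a && rtChk l (b :: c :: d :: r)

def rtCert : List (ℕ × ℕ × ℕ × ℕ) :=
  [(31,115,932,968),(31,117,936,962),(31,121,930,964),(31,186,868,961),(31,214,872,929),
  (31,229,866,920),(31,234,865,916),(31,357,744,914),(31,362,740,913),(31,372,738,905),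
  (31,422,737,856),(964,47,185,850),(47,248,852,899),(47,434,716,849),(47,465,690,844),
  (47,466,632,901),(47,468,689,842),(964,59,211,812),(59,436,710,841),(962,61,220,803),
  (932,79,241,794),(961,87,188,810),(87,458,696,805),(936,93,230,787),(930,103,217,796),
  (103,472,692,779),(916,107,242,781),(968,143,307,628),(964,155,301,626),(866,158,233,789),
  (962,173,286,625),(968,174,309,595),(968,199,314,565),(964,203,316,563),(930,205,341,570),
  (936,206,369,535),(930,244,271,601),(744,279,358,665),(279,370,684,713),(286,376,677,707),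
  (744,295,348,659),(737,299,342,668),(737,302,403,604),(309,457,618,662),(696,333,406,611),
  (689,334,425,598),(341,440,587,678),(628,361,410,647),(370,433,590,653),(626,395,453,572),
  (632,421,454,539),(465,426,541,614),(241,872,391,542),(465,472,551,558),(115,436,968,527)]

theorem rt_cert : rtChk rtCert [31] = true := by decide +kernel

theorem rt_one (m e : ℕ) : one (mset 10 m) e = if e < 10 then (m.testBit e).toNat else 0 := by
  unfold one
  simp only [mem_mset]
  by_cases he : e < 10 <;> cases m.testBit e <;> simp [he]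

theorem rt_index {I : Finset ℕ} {n : ℕ} (hI : I.card = n) : ∃ g : ℕ → ℕ,
    (∀ f : ℕ → ℕ, ∑ i ∈ I, f (g i) = ∑ j ∈ range n, f j) ∧ ∀ j < n, ∃ i ∈ I, g i = j := by
  let σ := I.equivFinOfCardEq hI
  refine ⟨fun i => if h : i ∈ I then (σ ⟨i, h⟩ : ℕ) else 0, fun f => ?_, fun j hj => ?_⟩
  · rw [← sum_coe_sort I, ← Fin.sum_univ_eq_sum_range f n, ← Equiv.sum_comp σ]
    exact sum_congr rfl fun i _ => congrArg f (dif_pos i.2)
  · refine ⟨σ.symm ⟨j, hj⟩, (σ.symm ⟨j, hj⟩).2, ?_⟩
    simp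

/-- the members of a padded quadruple -/
def rtW (a b c d j : ℕ) : ℕ :=
  if j = 0 then a else if j = 1 then b else if j = 2 then c else if j = 3 then d
  else if j % 2 = 0 then 59 else 964

theorem rt_state {I : Finset ℕ} {k a b c d : ℕ} (hk : 2 ≤ k) (hI : I.card = 2 * k)
    (h : rtOk a b c d = true) : ∃ R, MS R10.IsBase I (fun e => if e < 10 then k else 0) R ∧
      ∀ x ∈ [a, b, c, d], ∃ i ∈ I, R i = mset 10 x := by
  obtain ⟨g, g1, g2⟩ := rt_index hI
  simp only [rtOk, Bool.and_eq_true, List.all_eq_true, List.mem_range, beq_iff_eq] at h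
  obtain ⟨⟨⟨⟨ha, hb⟩, hc⟩, hd⟩, he⟩ := h
  refine ⟨fun i => mset 10 (rtW a b c d (g i)), bg_mk (fun i _ => (rt_base _).2 ?_) fun e => ?_,
    fun x hx => ?_⟩
  · unfold rtW
    split_ifs
    exacts [ha, hb, hc, hd, by decide +kernel, by decide +kernel]
  · rw [g1 fun j => one (mset 10 (rtW a b c d j)) e]
    obtain ⟨n, rfl⟩ := Nat.exists_eq_add_of_le hk
    clear g1 g2 hI hk
    induction n with
    | zero =>
      show ∑ j ∈ range 4, _ = _
      by_cases h1 : e < 10
      · simpa [rt_one, sum_range_succ, rtW, h1] using he e h1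
      · simp [rt_one, h1]
    | succ n ih =>
      have e1 : rtW a b c d (2 * (2 + n)) = 59 := by
        unfold rtW
        rw [if_neg (by omega), if_neg (by omega), if_neg (by omega), if_neg (by omega),
          if_pos (by omega)]
      have e2 : rtW a b c d (2 * (2 + n) + 1) = 964 := by
        unfold rtW
        rw [if_neg (by omega), if_neg (by omega), if_neg (by omega), if_neg (by omega),
          if_neg (by omega)]
      rw [show 2 * (2 + (n + 1)) = 2 * (2 + n) + 1 + 1 by omega, sum_range_succ, sum_range_succ, ih,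
        e1, e2, rt_one, rt_one]
      split_ifs with h1
      · have : ∀ e < 10, ((59 : ℕ).testBit e).toNat + ((964 : ℕ).testBit e).toNat = 1 := by decide
        have := this e h1
        omega
      · rfl
  · have h4 : ∀ j < 4, ∃ i ∈ I, g i = j := fun j hj => g2 j (by omega)
    simp only [List.mem_cons, List.not_mem_nil, or_false] at hx
    rcases hx with rfl | rfl | rfl | rfl
    · obtain ⟨i, hi, h5⟩ := h4 0 (by omega)
      exact ⟨i, hi, by simp [h5, rtW]⟩
    · obtain ⟨i, hi, h5⟩ := h4 1 (by omega)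
      exact ⟨i, hi, by simp [h5, rtW]⟩
    · obtain ⟨i, hi, h5⟩ := h4 2 (by omega)
      exact ⟨i, hi, by simp [h5, rtW]⟩
    · obtain ⟨i, hi, h5⟩ := h4 3 (by omega)
      exact ⟨i, hi, by simp [h5, rtW]⟩

theorem rt_run {G : ℕ → Prop} (hG : ∀ a b c d, rtOk a b c d = true → G a → G b ∧ G c ∧ G d)
    (l : List (ℕ × ℕ × ℕ × ℕ)) : ∀ r, rtChk l r = true → (∀ m ∈ r, G m) →
      ∀ m < 1024, rtB m = true → G m := by
  induction l with
  | nil =>
    intro r h hr m hm hb
    simp only [rtChk, List.all_eq_true, List.mem_range] at h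
    have := h m hm
    rw [hb] at this
    exact hr m (by simpa using this)
  | cons q l ih =>
    obtain ⟨a, b, c, d⟩ := q
    intro r h hr
    simp only [rtChk, Bool.and_eq_true, List.contains_iff_mem] at h
    obtain ⟨h1, h2, h3⟩ := hG a b c d h.1.1 (hr a h.1.2)
    refine ih _ h.2 fun m hm => ?_
    simp only [List.mem_cons] at hm
    rcases hm with rfl | rfl | rfl | hm
    exacts [h1, h2, h3, hr m hm]

theorem sc_R10_uniform {I : Finset ℕ} {k : ℕ} (hk : 2 ≤ k) (hI : I.card = 2 * k) :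
    SC R10.IsBase I fun e => if e < 10 then k else 0 := by
  have h3 : 3 ≤ I.card := by omega
  obtain ⟨T, hT, hT'⟩ := rt_state hk hI (a := 31) (b := 115) (c := 932) (d := 968)
    (by decide +kernel)
  have key := rt_run (G := fun m => ∀ P, MS R10.IsBase I (fun e => if e < 10 then k else 0) P →
    (∃ i ∈ I, P i = mset 10 m) →
      Relation.ReflTransGen (Sh R10.IsBase I fun e => if e < 10 then k else 0) P T)
    (fun a b c d h ha => by
      obtain ⟨R, hR, hR'⟩ := rt_state hk hI h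
      have h1 := ha R hR (hR' a (by simp))
      have h2 : ∀ x ∈ [a, b, c, d], ∀ P, MS R10.IsBase I (fun e => if e < 10 then k else 0) P →
          (∃ i ∈ I, P i = mset 10 x) →
          Relation.ReflTransGen (Sh R10.IsBase I fun e => if e < 10 then k else 0) P T := by
        rintro x hx P hP ⟨i, hi, h4⟩
        obtain ⟨j, hj, h5⟩ := hR' x hx
        exact (sh_reach_of_mem h3 hP hR hi hj (h4.trans h5.symm)).trans h1
      exact ⟨h2 b (by simp), h2 c (by simp), h2 d (by simp)⟩) rtCert [31] rt_cert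
    (fun m hm => by
      rw [List.mem_singleton.1 hm]
      rintro P hP ⟨i, hi, h4⟩
      obtain ⟨j, hj, h5⟩ := hT' 31 (by simp)
      exact sh_reach_of_mem h3 hP hT hi hj (h4.trans h5.symm))
  have h4 : ∀ P, MS R10.IsBase I (fun e => if e < 10 then k else 0) P →
      Relation.ReflTransGen (Sh R10.IsBase I fun e => if e < 10 then k else 0) P T := by
    intro P hP
    obtain ⟨i, hi⟩ := card_pos.1 (show 0 < I.card by omega)
    have h5 := hP.mem i hi
    obtain ⟨m, hm, h6⟩ := exists_mset (n := 10) h5.subset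
    exact key m hm ((rt_base m).1 (h6 ▸ h5)) P hP ⟨i, hi, h6⟩
  exact fun P Q hP hQ => (h4 P hP).trans (sh_reach_symm (h4 Q hQ))

/-- cocycles pull back along linear maps -/
theorem rt_co {M : BM} {C : Finset ℕ} (hC : M.dual.cyc C) (φ : ℕ → Finset ℕ) (E' : Finset ℕ) :
    (M.lin φ E').dual.cyc (E'.filter fun n => Odd (φ n ∩ C).card) := by
  refine ⟨filter_subset _ _, fun Z hZ => ?_⟩
  have h1 : ∀ Z : Finset ℕ, Odd (oddSum φ Z ∩ C).card ↔
      Odd (Z.filter fun n => Odd (φ n ∩ C).card).card := fun Z => by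
    induction Z using Finset.induction_on with
    | empty => simp [oddSum_empty]
    | insert a Z ha ih =>
      have h3 : symmDiff (φ a) (oddSum φ Z) ∩ C = symmDiff (φ a ∩ C) (oddSum φ Z ∩ C) := by
        ext x
        simp only [mem_symmDiff, mem_inter]
        tauto
      rw [lin_ins φ ha, h3, odd_card_symmDiff, ih, filter_insert]
      split_ifs with h4
      · rw [card_insert_of_notMem fun h5 => ha (mem_filter.1 h5).1, Nat.odd_add_one]
        tauto
      · tauto
  have h2 := hC.2 _ hZ.2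
  rw [← Nat.not_odd_iff_even, h1, Nat.not_odd_iff_even] at h2
  have h3 : Z ∩ E'.filter (fun n => Odd (φ n ∩ C).card) =
      Z.filter fun n => Odd (φ n ∩ C).card := by
    ext x
    simp only [mem_inter, mem_filter]
    exact ⟨fun h => ⟨h.1, h.2.2⟩, fun h => ⟨h.1, hZ.1 h.1, h.2⟩⟩
  rwa [h3]

theorem rt_total {M : BM} {I : Finset ℕ} {μ : ℕ → ℕ} {P : ℕ → Finset ℕ}
    (hP : MS M.IsBase I μ P) : ∑ e ∈ M.E, μ e = I.card * M.r M.E := by
  rw [← hP.sum_card, ← smul_eq_mul, ← sum_const]
  exact sum_congr rfl fun i hi => by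
    rw [inter_eq_left.2 (hP.mem i hi).subset, (hP.mem i hi).2]

/-- two splittings -/
theorem rt_two {M : BM} {I D : Finset ℕ} {μ : ℕ → ℕ} (hI : 3 ≤ I.card) (hr : M.r M.E = 5)
    (hD : M.dual.cyc D) (hne : D.Nonempty) (hμ : ∑ e ∈ D, μ e < 2 * I.card) (C : ℕ → Finset ℕ)
    (hC : ∀ j ∈ range 7, M.dual.cyc (C j) ∧ ∃ e ∈ C j, e ∉ D)
    (h1 : ∀ e ∈ M.E \ D, ((range 7).filter fun j => e ∈ C j).card ≤ 3)
    (h2 : ∀ x ∈ D, ∀ y ∈ D, ((range 7).filter fun j => ¬ (x ∈ C j ↔ y ∈ C j)).card ≤ 4) :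
    SC M.IsBase I μ := by
  obtain ⟨E', φ, hc, -⟩ := exists_cover M D ∅
  refine sc_split hI hD hne hμ hc fun μ' hμ' P Q hP hQ => ?_
  have r4 := hc.r_add hD hne
  have a1 : ∑ e ∈ E', μ' e = I.card * (M.lin φ E').r E' := rt_total hP
  have a2 : ∀ n ∈ E', ((range 7).filter fun j => Odd (φ n ∩ C j).card).card ≤
      3 + if n ∈ E' \ (M.E \ D) then 1 else 0 := fun n hn => by
    by_cases h3 : n ∈ M.E \ D
    · refine le_trans (card_le_card fun j hj => ?_) ((h1 n h3).trans (Nat.le_add_right _ _))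
      rw [mem_filter] at hj ⊢
      refine ⟨hj.1, ?_⟩
      obtain ⟨x, hx⟩ := card_pos.1 hj.2.pos
      rw [(hc.out n h3).2, mem_inter, mem_singleton] at hx
      exact hx.1 ▸ hx.2
    · obtain ⟨x, hx, y, hy, hxy, h4⟩ := (hc.all n hn).resolve_left h3
      rw [if_pos (mem_sdiff.2 ⟨hn, h3⟩)]
      refine le_trans (card_le_card fun j hj => ?_) (h2 x hx y hy)
      rw [mem_filter] at hj ⊢
      refine ⟨hj.1, fun h5 => ?_⟩
      have h6 := hj.2
      rw [h4] at h6
      by_cases h7 : x ∈ C j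
      · rw [inter_eq_left.2 (insert_subset h7 (singleton_subset_iff.2 (h5.1 h7))),
          card_pair hxy] at h6
        exact absurd h6 (by decide)
      · obtain ⟨z, hz⟩ := card_pos.1 h6.pos
        simp only [mem_inter, mem_insert, mem_singleton] at hz
        rcases hz.1 with rfl | rfl
        · exact h7 hz.2
        · exact h7 (h5.2 hz.2)
  have a3 : ∑ j ∈ range 7, ∑ n ∈ E'.filter (fun n => Odd (φ n ∩ C j).card), μ' n ≤
      3 * ∑ e ∈ E', μ' e + ∑ n ∈ E' \ (M.E \ D), μ' n := by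
    simp only [sum_filter]
    rw [Finset.sum_comm, mul_sum, ← inter_eq_right.2 (sdiff_subset (s := E') (t := M.E \ D)),
      ← sum_ite_mem, ← sum_add_distrib]
    refine sum_le_sum fun n hn => ?_
    rw [← sum_filter, sum_const, smul_eq_mul]
    refine (Nat.mul_le_mul_right _ (a2 n hn)).trans ?_
    split_ifs <;> omega
  obtain ⟨j, hj, a4⟩ : ∃ j ∈ range 7,
      ∑ n ∈ E'.filter (fun n => Odd (φ n ∩ C j).card), μ' n < 2 * I.card := by
    refine exists_lt_of_sum_lt ?_
    rw [sum_const, card_range, smul_eq_mul]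
    rw [show (M.lin φ E').r E' = 4 by omega] at a1
    omega
  obtain ⟨b1, e, he, heD⟩ := hC j hj
  have b2 := rt_co b1 φ E'
  have b3 := hc.out e (mem_sdiff.2 ⟨b1.1 he, heD⟩)
  have b4 : (E'.filter fun n => Odd (φ n ∩ C j).card).Nonempty :=
    ⟨e, mem_filter.2 ⟨b3.1, by rw [b3.2, singleton_inter_of_mem he, card_singleton]; decide⟩⟩
  obtain ⟨E'', ψ, hc', -⟩ := exists_cover (M.lin φ E') (E'.filter fun n => Odd (φ n ∩ C j).card) ∅
  have r3 : ((M.lin φ E').lin ψ E'').r E'' + 1 = (M.lin φ E').r E' := hc'.r_add b2 b4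
  exact sc_split hI b2 b4 a4 hc' (fun μ'' _ => (te_of_r_le_three
    (show ((M.lin φ E').lin ψ E'').r E'' ≤ 3 by omega) I μ'').sc hI) P Q hP hQ

/-- the cycles of R10 -/
def rtZ : List ℕ := [0, 54, 90, 108, 149, 163, 207, 249, 281, 303, 323, 373, 396, 442, 470, 480,
  543, 553, 581, 627, 650, 700, 720, 742, 774, 816, 860, 874, 915, 933, 969, 1023]

theorem rt_Z : ((List.range 1024).all fun m => xorAll (msel rtL m) != 0 || rtZ.contains m) = true := by
  decide +kernel

/-- the test for cocycles -/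
def rtCo (c : ℕ) : Bool := rtZ.all fun z => (msel rtL (z &&& c)).length % 2 == 0

theorem rt_cocyc {c : ℕ} (h : rtCo c = true) : R10.dual.cyc (mset 10 c) := by
  refine ⟨mset_subset 10 c, fun Z hZ => ?_⟩
  obtain ⟨m, hm, rfl⟩ := exists_mset (n := 10) (R10.sub Z hZ)
  have h1 := (cyc_ofBits rt_hl m).1 hZ
  have h2 := List.all_eq_true.1 rt_Z m (List.mem_range.2 hm)
  rw [h1] at h2
  have h3 := List.all_eq_true.1 h m (by simpa using h2)
  have h4 : (mset 10 (m &&& c)).card = (msel rtL (m &&& c)).length := card_mset rtL _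
  rw [← mset_inter, h4, Nat.even_iff]
  simpa using h3

/-- the seven cocycles for each small cocycle -/
def rtT : List (ℕ × List ℕ) :=
  [(15, [897,531,293,183,198,340,610]), (113, [897,531,540,293,298,183,184]),
  (184, [15,540,298,825,340,610,113]), (198, [15,531,293,840,340,610,126]),
  (201, [15,531,298,840,340,621,113]), (293, [15,531,676,184,198,621,113]),
  (298, [15,531,676,184,201,610,126]), (340, [15,540,184,198,725,610,113]),
  (402, [15,531,676,184,198,730,113]), (531, [15,402,293,184,198,347,113]),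
  (540, [15,402,293,184,201,340,126]), (610, [15,298,184,198,340,483,113]),
  (676, [15,402,293,184,198,492,113]), (840, [15,402,298,201,340,492,113]),
  (897, [15,402,293,184,201,340,483])]

theorem rt_T : ∀ p ∈ rtT, rtCo p.1 = true ∧ (mset 10 p.1).Nonempty ∧
    (∀ j ∈ range 7, rtCo (p.2.getD j 0) = true ∧ ∃ e ∈ mset 10 (p.2.getD j 0), e ∉ mset 10 p.1) ∧
    (∀ e ∈ range 10 \ mset 10 p.1,
      ((range 7).filter fun j => e ∈ mset 10 (p.2.getD j 0)).card ≤ 3) ∧
    ∀ x ∈ mset 10 p.1, ∀ y ∈ mset 10 p.1, ((range 7).filter fun j =>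
      ¬ (x ∈ mset 10 (p.2.getD j 0) ↔ y ∈ mset 10 (p.2.getD j 0))).card ≤ 4 := by
  decide +kernel

theorem rt_sum (μ : ℕ → ℕ) (c : ℕ) :
    ∑ e ∈ mset 10 c, μ e = ∑ e ∈ range 10, (c.testBit e).toNat * μ e := by
  rw [mset, sum_filter]
  exact sum_congr rfl fun e _ => by cases c.testBit e <;> simp

theorem rt_arith {a0 a1 a2 a3 a4 a5 a6 a7 a8 a9 m : ℕ}
    (h : a0 + a1 + a2 + a3 + a4 + a5 + a6 + a7 + a8 + a9 = m * 5)
    (h1 : 2 * m ≤ a0 + a1 + a2 + a3) (h2 : 2 * m ≤ a0 + a4 + a5 + a6)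
    (h3 : 2 * m ≤ a3 + a4 + a5 + a7) (h4 : 2 * m ≤ a1 + a2 + a6 + a7)
    (h5 : 2 * m ≤ a0 + a3 + a6 + a7) (h6 : 2 * m ≤ a0 + a2 + a5 + a8)
    (h7 : 2 * m ≤ a1 + a3 + a5 + a8) (h8 : 2 * m ≤ a2 + a4 + a6 + a8)
    (h9 : 2 * m ≤ a1 + a4 + a7 + a8) (h10 : 2 * m ≤ a0 + a1 + a4 + a9)
    (h11 : 2 * m ≤ a2 + a3 + a4 + a9) (h12 : 2 * m ≤ a1 + a5 + a6 + a9)
    (h13 : 2 * m ≤ a2 + a5 + a7 + a9) (h14 : 2 * m ≤ a3 + a6 + a8 + a9)
    (h15 : 2 * m ≤ a0 + a7 + a8 + a9) :
    m = 2 * a0 ∧ a1 = a0 ∧ a2 = a0 ∧ a3 = a0 ∧ a4 = a0 ∧ a5 = a0 ∧ a6 = a0 ∧ a7 = a0 ∧ a8 = a0 ∧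
      a9 = a0 := by
  have e1 := le_antisymm h1 (by linarith)
  have e2 := le_antisymm h2 (by linarith)
  have e3 := le_antisymm h3 (by linarith)
  have e4 := le_antisymm h4 (by linarith)
  have e5 := le_antisymm h5 (by linarith)
  have e6 := le_antisymm h6 (by linarith)
  have e7 := le_antisymm h7 (by linarith)
  have e8 := le_antisymm h8 (by linarith)
  have e9 := le_antisymm h9 (by linarith)
  have e10 := le_antisymm h10 (by linarith)
  have e11 := le_antisymm h11 (by linarith)
  have e12 := le_antisymm h12 (by linarith)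
  have e13 := le_antisymm h13 (by linarith)
  have e14 := le_antisymm h14 (by linarith)
  have e15 := le_antisymm h15 (by linarith)
  clear h1 h2 h3 h4 h5 h6 h7 h8 h9 h10 h11 h12 h13 h14 h15
  refine ⟨?_, ?_, ?_, ?_, ?_, ?_, ?_, ?_, ?_, ?_⟩ <;> linarith

theorem te_R10 : TE R10.IsBase := by
  refine te_of_sc fun I μ hI P Q hP hQ => ?_
  by_cases h : ∃ p ∈ rtT, ∑ e ∈ mset 10 p.1, μ e < 2 * I.card
  · obtain ⟨p, hp, h⟩ := h
    obtain ⟨h1, h2, h3, h4, h5⟩ := rt_T p hp
    exact rt_two hI rt_rE (rt_cocyc h1) h2 h (fun j => mset 10 (p.2.getD j 0))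
      (fun j hj => ⟨rt_cocyc (h3 j hj).1, (h3 j hj).2⟩) h4 h5 P Q hP hQ
  · have a1 : ∑ e ∈ range 10, μ e = I.card * R10.r R10.E := rt_total hP
    rw [rt_rE] at a1
    simp only [not_exists, not_and, not_lt, rtT, List.forall_mem_cons, rt_sum, sum_range_succ,
      sum_range_zero] at h a1
    obtain ⟨h1, h2, h3, h4, h5, h6, h7, h8, h9, h10, h11, h12, h13, h14, h15, -⟩ := h
    obtain ⟨b, b1, b2, b3, b4, b5, b6, b7, b8, b9⟩ := rt_arith (a0 := μ 0) (a1 := μ 1) (a2 := μ 2)
      (a3 := μ 3) (a4 := μ 4) (a5 := μ 5) (a6 := μ 6) (a7 := μ 7) (a8 := μ 8) (a9 := μ 9)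
      (m := I.card) (by simpa using a1) (by simpa [Nat.testBit] using h1)
      (by simpa [Nat.testBit] using h2) (by simpa [Nat.testBit] using h3)
      (by simpa [Nat.testBit] using h4) (by simpa [Nat.testBit] using h5)
      (by simpa [Nat.testBit] using h6) (by simpa [Nat.testBit] using h7)
      (by simpa [Nat.testBit] using h8) (by simpa [Nat.testBit] using h9)
      (by simpa [Nat.testBit] using h10) (by simpa [Nat.testBit] using h11)
      (by simpa [Nat.testBit] using h12) (by simpa [Nat.testBit] using h13)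
      (by simpa [Nat.testBit] using h14) (by simpa [Nat.testBit] using h15)
    have hμ : μ = fun e => if e < 10 then μ 0 else 0 := by
      funext e
      split_ifs with he
      · interval_cases e <;> first | rfl | assumption
      · rw [← hP.wt e, card_eq_zero, filter_eq_empty_iff]
        exact fun i hi h1 => he (mem_range.1 ((hP.mem i hi).subset h1))
    have := sc_R10_uniform (k := μ 0) (by omega) b
    rw [← hμ] at this
    exact this P Q hP hQ

theorem ParR10.te {N : BM} (h : N.ParR10) : TE N.IsBase := by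
  obtain ⟨π, h1, h2⟩ := h
  rw [h2]
  exact te_pull te_R10 h1

end BM

end Pool.Agent.P.MP_3f5ce9_co
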