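import Pool.Agent.P.MP_3f5ce9_co.W.BGL
import Pool.Agent.P.MP_3f5ce9_co.W.BR10
import Pool.Agent.P.MP_3f5ce9_co.W.Struct

/-!
The theorem on sequences of bases.
-/

open Finset

namespace Pool.Agent.P.MP_3f5ce9_co

theorem BM.Conn3.bm_vc {M : BM} (h : M.Conn3) : M.VC := by
  intro X hX
  have h1 := h X hX
  have h2 := M.r_le_card X
  have h3 := M.r_le_card (M.E \ X)
  omega

theorem BM.Conn3.bm_loopless {M : BM} (h : M.Conn3) (h2 : 2 ≤ M.E.card) : M.Loopless := by
  intro e he
  have hX : ({e} : Finset ℕ) ⊆ M.E := singleton_subset_iff.2 he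
  have h1 := h {e} hX
  have h3 := M.r_le_card {e}
  have h4 := M.r_le_rE (M.E \ {e})
  have h5 := card_sdiff_add_card_eq_card hX
  unfold BM.lam at h1
  rw [card_singleton] at h1 h3 h5
  omega

theorem bm_te (n : ℕ) : ∀ M : BM, M.Reg → M.E.card < n → TE M.IsBase := by
  induction n with
  | zero => intro M _ h; omega
  | succ n ihn =>
    intro M hr hn
    have ih : IHB M.E.card := fun M' hr' h' => ihn M' hr' (by omega)
    by_cases h3 : M.Conn3
    swap
    · exact BM.te_of_not_conn3 ih hr h3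
    by_cases h2 : M.E.card ≤ 2
    · exact (BM.graphic_of_r_le_two ((M.r_le_card _).trans h2)).te
    obtain ⟨a, ha⟩ : M.E.Nonempty := card_pos.1 (by omega)
    have hp : M.Ports ∅ (fun _ _ => 0) := ⟨by simp, by simp⟩
    rcases BM.struct hr h3.bm_vc (h3.bm_loopless (by omega)) hp ha ∅ with
      (hg | ⟨H, hH, -⟩) | ⟨-, h10⟩ | ⟨P, s, A, hL⟩
    · exact hg.te
    · exact BM.Cographic.te ⟨H, hH⟩
    · exact h10.te
    · have hA : 4 ≤ A.card := by
        rcases hL.big with h | h
        · omega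
        · exact h.1
      have hE : M.E \ A ∪ A = M.E := sdiff_union_of_subset hL.sub
      have hk : (P.res (A ∪ tset s)).Graphic ∨ (P.res (A ∪ tset s)).CoStar s := by
        rcases hL.basic with h | ⟨H, hH, ⟨z, hz⟩, -⟩
        · exact Or.inl h
        · refine Or.inr ⟨H, z, hH, ?_⟩
          rw [hL.tri.toTri.symm.res_E]
          exact hz
      have := BM.te_leaf hL.tri hL.reg hA (by rw [hE]; exact ih) hk
      rwa [hL.del] at this

theorem BM.te_of_reg (M : BM) (hr : M.Reg) : TE M.IsBase := by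
  exact bm_te (M.E.card + 1) M hr (Nat.lt_succ_self _)

end Pool.Agent.P.MP_3f5ce9_co
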