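import Pool.Agent.P.MP_3f5ce9_co.W.BGen

/-!
Parallel copies and sequences.
-/

open Finset

namespace Pool.Agent.P.MP_3f5ce9_co

variable {𝓑 𝓑' : Fam} {I X : Finset ℕ} {μ : ℕ → ℕ} {π : ℕ → ℕ} {P Q : ℕ → Finset ℕ}

theorem bpar_sum_one {B : Finset ℕ} (hB : B ⊆ X) (hi : Set.InjOn π B) (y : ℕ) :
    ∑ x ∈ X with π x = y, one B x = one (B.image π) y := by
  unfold one
  rw [← card_filter]
  split_ifs with h
  · obtain ⟨x, hx, rfl⟩ := mem_image.1 h
    rw [card_eq_one]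
    refine ⟨x, ?_⟩
    ext z
    simp only [mem_filter, mem_singleton]
    constructor
    · rintro ⟨⟨_, h2⟩, h3⟩
      exact hi h3 hx h2
    · rintro rfl
      exact ⟨⟨hB hx, rfl⟩, hx⟩
  · rw [card_eq_zero, filter_eq_empty_iff]
    intro z hz hzB
    exact h (mem_image.2 ⟨z, hzB, (mem_filter.1 hz).2⟩)

theorem bpar_wt (P : ℕ → Finset ℕ) (e : ℕ) :
    (I.filter fun i => e ∈ P i).card = ∑ i ∈ I, one (P i) e := by
  unfold one
  rw [card_filter]

theorem MS.image (h' : ∀ B, 𝓑' B ↔ B ⊆ X ∧ Set.InjOn π B ∧ 𝓑 (B.image π)) (h : MS 𝓑' I μ P) :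
    MS 𝓑 I (fun y => ∑ x ∈ X with π x = y, μ x) fun i => (P i).image π := by
  refine ⟨fun i hi => ((h' _).1 (h.mem i hi)).2.2, fun y => ?_⟩
  rw [bpar_wt]
  have h1 : ∑ x ∈ X with π x = y, μ x = ∑ x ∈ X with π x = y, ∑ i ∈ I, one (P i) x :=
    sum_congr rfl fun x _ => by rw [← h.wt x, bpar_wt]
  show _ = ∑ x ∈ X with π x = y, μ x
  rw [h1, sum_comm]
  refine sum_congr rfl fun i hi => ?_
  obtain ⟨h2, h3, _⟩ := (h' _).1 (h.mem i hi)
  rw [bpar_sum_one h2 h3]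

theorem bpar_step {l : ℕ} {B : Finset ℕ}
    (h' : ∀ B, 𝓑' B ↔ B ⊆ X ∧ Set.InjOn π B ∧ 𝓑 (B.image π))
    (hμ : ∀ x, x ∉ X → μ x = 0) (h : MS 𝓑 I (fun y => ∑ x ∈ X with π x = y, μ x) P)
    (hl : l ∈ I) (hB : 𝓑' B) (hBl : B.image π = P l) (hpos : ∀ x ∈ B, 0 < μ x)
    (ih : ∀ ν : ℕ → ℕ, (∀ x, x ∉ X → ν x = 0) →
      MS 𝓑 (I.erase l) (fun y => ∑ x ∈ X with π x = y, ν x) P →
      ∃ Q, MS 𝓑' (I.erase l) ν Q ∧ ∀ i ∈ I.erase l, (Q i).image π = P i) :
    ∃ Q, MS 𝓑' I μ Q ∧ (∀ i ∈ I, (Q i).image π = P i) ∧ Q l = B := by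
  obtain ⟨hBX, hinj, _⟩ := (h' _).1 hB
  have hle : ∀ x, one B x ≤ μ x := fun x => by
    unfold one
    split_ifs with hx
    · exact hpos x hx
    · exact Nat.zero_le _
  have h1 := h.erase hl
  have h2 : (fun y => ∑ x ∈ X with π x = y, (μ x - one B x)) =
      fun e => (∑ x ∈ X with π x = e, μ x) - one (P l) e := by
    funext y
    rw [← hBl, ← bpar_sum_one hBX hinj, sum_tsub_distrib _ fun x _ => hle x]
  obtain ⟨Q, hQ, hQi⟩ := ih (fun x => μ x - one B x) (fun x hx => by simp [hμ x hx])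
    (by rw [h2]; exact h1)
  refine ⟨Function.update Q l B, ⟨fun i hi => ?_, fun e => ?_⟩, fun i hi => ?_, by simp⟩
  · by_cases hil : i = l
    · subst hil
      simpa using hB
    · rw [Function.update_of_ne hil]
      exact hQ.mem i (mem_erase.2 ⟨hil, hi⟩)
  · rw [bpar_wt, ← add_sum_erase _ _ hl]
    have h3 : ∑ i ∈ I.erase l, one (Function.update Q l B i) e = ∑ i ∈ I.erase l, one (Q i) e :=
      sum_congr rfl fun i hi => by rw [Function.update_of_ne (mem_erase.1 hi).1]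
    rw [h3, ← bpar_wt, hQ.wt, Function.update_self]
    have := hle e
    show one B e + (μ e - one B e) = μ e
    omega
  · by_cases hil : i = l
    · subst hil
      simpa using hBl
    · rw [Function.update_of_ne hil]
      exact hQi i (mem_erase.2 ⟨hil, hi⟩)

theorem bpar_lift (h' : ∀ B, 𝓑' B ↔ B ⊆ X ∧ Set.InjOn π B ∧ 𝓑 (B.image π)) (n : ℕ) :
    ∀ (I : Finset ℕ) (μ : ℕ → ℕ), I.card = n → (∀ x, x ∉ X → μ x = 0) →
      MS 𝓑 I (fun y => ∑ x ∈ X with π x = y, μ x) P →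
      ∃ Q, MS 𝓑' I μ Q ∧ ∀ i ∈ I, (Q i).image π = P i := by
  induction n with
  | zero =>
    intro I μ hI hμ h
    obtain rfl := card_eq_zero.1 hI
    refine ⟨fun _ => ∅, ⟨by simp, fun e => ?_⟩, by simp⟩
    by_cases he : e ∈ X
    · have h1 := h.wt (π e)
      simp only [filter_empty, card_empty] at h1 ⊢
      exact ((sum_eq_zero_iff.1 h1.symm) e (mem_filter.2 ⟨he, rfl⟩)).symm
    · simp [hμ e he]
  | succ n ih =>
    intro I μ hI hμ h
    obtain ⟨l, hl⟩ := card_pos.1 (show 0 < I.card by omega)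
    have hex : ∀ y, ∃ x, y ∈ P l → x ∈ X ∧ π x = y ∧ 0 < μ x := fun y => by
      by_cases hy : y ∈ P l
      · have h1 := h.wt y
        have h2 : 0 < (I.filter fun i => y ∈ P i).card :=
          card_pos.2 ⟨l, mem_filter.2 ⟨hl, hy⟩⟩
        rw [h1] at h2
        obtain ⟨x, hx, hx0⟩ := exists_ne_zero_of_sum_ne_zero h2.ne'
        exact ⟨x, fun _ => ⟨(mem_filter.1 hx).1, (mem_filter.1 hx).2, Nat.pos_of_ne_zero hx0⟩⟩
      · exact ⟨0, fun h => absurd h hy⟩
    choose s hs using hex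
    have himg : ((P l).image s).image π = P l := by
      ext y
      simp only [mem_image]
      constructor
      · rintro ⟨_, ⟨z, hz, rfl⟩, rfl⟩
        rw [(hs z hz).2.1]
        exact hz
      · intro hy
        exact ⟨s y, ⟨y, hy, rfl⟩, (hs y hy).2.1⟩
    have hB : 𝓑' ((P l).image s) := by
      refine (h' _).2 ⟨fun x hx => ?_, fun x hx x' hx' hxx => ?_, ?_⟩
      · obtain ⟨z, hz, rfl⟩ := mem_image.1 hx
        exact (hs z hz).1
      · obtain ⟨z, hz, rfl⟩ := mem_image.1 (mem_coe.1 hx)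
        obtain ⟨z', hz', rfl⟩ := mem_image.1 (mem_coe.1 hx')
        rw [(hs z hz).2.1, (hs z' hz').2.1] at hxx
        rw [hxx]
      · rw [himg]
        exact h.mem l hl
    obtain ⟨Q, hQ, hQi, _⟩ := bpar_step h' hμ h hl hB himg
      (fun x hx => by
        obtain ⟨z, hz, rfl⟩ := mem_image.1 hx
        exact (hs z hz).2.2)
      (fun ν hν hh => ih _ ν (by rw [card_erase_of_mem hl]; omega) hν hh)
    exact ⟨Q, hQ, hQi⟩

theorem MS.lift (h' : ∀ B, 𝓑' B ↔ B ⊆ X ∧ Set.InjOn π B ∧ 𝓑 (B.image π))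
    (hμ : ∀ x, x ∉ X → μ x = 0) (h : MS 𝓑 I (fun y => ∑ x ∈ X with π x = y, μ x) P) :
    ∃ Q, MS 𝓑' I μ Q ∧ ∀ i ∈ I, (Q i).image π = P i :=
  bpar_lift h' _ I μ rfl hμ h

theorem MS.lift_at {l : ℕ} {B : Finset ℕ}
    (h' : ∀ B, 𝓑' B ↔ B ⊆ X ∧ Set.InjOn π B ∧ 𝓑 (B.image π))
    (hμ : ∀ x, x ∉ X → μ x = 0) (h : MS 𝓑 I (fun y => ∑ x ∈ X with π x = y, μ x) P)
    (hl : l ∈ I) (hB : 𝓑' B) (hBl : B.image π = P l) (hpos : ∀ x ∈ B, 0 < μ x) :
    ∃ Q, MS 𝓑' I μ Q ∧ (∀ i ∈ I, (Q i).image π = P i) ∧ Q l = B :=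
  bpar_step h' hμ h hl hB hBl hpos fun _ hν hh => MS.lift h' hν hh

theorem bpar_swap {S : Finset ℕ} {x x' : ℕ}
    (h' : ∀ B, 𝓑' B ↔ B ⊆ X ∧ Set.InjOn π B ∧ 𝓑 (B.image π)) (hS : 𝓑' S) (hx : x ∈ S)
    (hx' : x' ∈ X) (he : π x' = π x) :
    𝓑' (insert x' (S.erase x)) ∧ (insert x' (S.erase x)).image π = S.image π := by
  obtain ⟨h1, h2, h3⟩ := (h' _).1 hS
  have himg : (insert x' (S.erase x)).image π = S.image π := by
    ext y
    simp only [mem_image, mem_insert, mem_erase]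
    constructor
    · rintro ⟨z, rfl | hz, rfl⟩
      · exact ⟨x, hx, he.symm⟩
      · exact ⟨z, hz.2, rfl⟩
    · rintro ⟨z, hz, rfl⟩
      by_cases hzx : z = x
      · exact ⟨x', Or.inl rfl, by rw [he, hzx]⟩
      · exact ⟨z, Or.inr ⟨hzx, hz⟩, rfl⟩
  refine ⟨(h' _).2 ⟨insert_subset hx' ((erase_subset _ _).trans h1), ?_, by rw [himg]; exact h3⟩,
    himg⟩
  intro a ha b hb hab
  rcases mem_insert.1 (mem_coe.1 ha) with rfl | ha' <;>
    rcases mem_insert.1 (mem_coe.1 hb) with rfl | hb'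
  · rfl
  · exact absurd (h2 (mem_erase.1 hb').2 hx (hab.symm.trans he)) (mem_erase.1 hb').1
  · exact absurd (h2 (mem_erase.1 ha').2 hx (hab.trans he)) (mem_erase.1 ha').1
  · exact h2 (mem_erase.1 ha').2 (mem_erase.1 hb').2 hab

theorem bpar_reach (h' : ∀ B, 𝓑' B ↔ B ⊆ X ∧ Set.InjOn π B ∧ 𝓑 (B.image π))
    (hQ : MS 𝓑' I μ Q) (n : ℕ) : ∀ P : ℕ → Finset ℕ, ∑ i ∈ I, (P i \ Q i).card ≤ n →
      MS 𝓑' I μ P → (∀ i ∈ I, (P i).image π = (Q i).image π) →
      Relation.ReflTransGen (RS2 𝓑' I μ) P Q := by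
  induction n using Nat.strong_induction_on with
  | _ n ih =>
  intro P hn hP h
  by_cases hsub : ∀ i ∈ I, P i ⊆ Q i
  · refine Relation.ReflTransGen.single (RS2.of_eqOn hP fun i hi => ?_)
    refine eq_of_subset_of_card_le (hsub i hi) (le_of_eq ?_)
    rw [← card_image_of_injOn ((h' _).1 (hP.mem i hi)).2.1,
      ← card_image_of_injOn ((h' _).1 (hQ.mem i hi)).2.1, h i hi]
  push Not at hsub
  obtain ⟨i, hi, hns⟩ := hsub
  obtain ⟨x, hxP, hxQ⟩ := not_subset.1 hns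
  obtain ⟨x', hx'Q, he⟩ := mem_image.1 (h i hi ▸ mem_image_of_mem π hxP)
  have hne : x' ≠ x := fun hh => hxQ (hh ▸ hx'Q)
  have hx'P : x' ∉ P i := fun hh => hne (((h' _).1 (hP.mem i hi)).2.1 hh hxP he)
  obtain ⟨j, hj, hjP, hjQ⟩ : ∃ j ∈ I, x' ∈ P j ∧ x' ∉ Q j := by
    by_contra hc
    push Not at hc
    have h1 : (I.filter fun l => x' ∈ P l) ⊂ I.filter fun l => x' ∈ Q l := by
      refine ⟨fun l hl => mem_filter.2 ⟨(mem_filter.1 hl).1, hc l (mem_filter.1 hl).1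
        (mem_filter.1 hl).2⟩, fun hh => hx'P (mem_filter.1 (hh (mem_filter.2 ⟨hi, hx'Q⟩))).2⟩
    have h2 := card_lt_card h1
    rw [hP.wt, hQ.wt] at h2
    exact lt_irrefl _ h2
  have hij : i ≠ j := fun hh => hx'P (hh ▸ hjP)
  have hxj : x ∉ P j := fun hh => hne (((h' _).1 (hP.mem j hj)).2.1 hjP hh he)
  obtain ⟨hA, hAi⟩ := bpar_swap h' (hP.mem i hi) hxP (((h' _).1 (hP.mem j hj)).1 hjP) he
  obtain ⟨hB, hBi⟩ := bpar_swap h' (hP.mem j hj) hjP (((h' _).1 (hP.mem i hi)).1 hxP) he.symm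
  have hs : Same (P i) (P j) (insert x' ((P i).erase x)) (insert x ((P j).erase x')) := by
    constructor
    · ext z
      simp only [mem_union, mem_insert, mem_erase]
      by_cases h1 : z = x <;> by_cases h2 : z = x' <;> simp_all
    · ext z
      simp only [mem_inter, mem_insert, mem_erase]
      by_cases h1 : z = x <;> by_cases h2 : z = x' <;> simp_all
  have hstep := hP.update2 hi hj hij hA hB hs
  refine Relation.ReflTransGen.head hstep ?_
  set P' := Function.update (Function.update P i (insert x' ((P i).erase x))) j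
    (insert x ((P j).erase x')) with hP'
  have hPi : P' i = insert x' ((P i).erase x) := by
    rw [hP', Function.update_of_ne hij, Function.update_self]
  have hPj : P' j = insert x ((P j).erase x') := by rw [hP', Function.update_self]
  have hPl : ∀ l, l ≠ i → l ≠ j → P' l = P l := fun l h1 h2 => by
    rw [hP', Function.update_of_ne h2, Function.update_of_ne h1]
  have hlt : ∑ l ∈ I, (P' l \ Q l).card < ∑ l ∈ I, (P l \ Q l).card := by
    refine sum_lt_sum (fun l hl => ?_) ⟨i, hi, ?_⟩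
    · by_cases h1 : l = i
      · subst h1
        rw [hPi]
        refine card_le_card fun z hz => ?_
        simp only [mem_sdiff, mem_insert, mem_erase] at hz ⊢
        rcases hz with ⟨rfl | hz, hz'⟩
        · exact absurd hx'Q hz'
        · exact ⟨hz.2, hz'⟩
      by_cases h2 : l = j
      · subst h2
        rw [hPj]
        have h3 : insert x ((P l).erase x') \ Q l ⊆ insert x ((P l \ Q l).erase x') := by
          intro z hz
          simp only [mem_sdiff, mem_insert, mem_erase] at hz ⊢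
          tauto
        have h4 := card_le_card h3
        have h5 := card_insert_le x ((P l \ Q l).erase x')
        have h6 := card_erase_add_one (show x' ∈ P l \ Q l from mem_sdiff.2 ⟨hjP, hjQ⟩)
        omega
      · rw [hPl l h1 h2]
    · rw [hPi]
      refine card_lt_card ⟨fun z hz => ?_, fun hh => ?_⟩
      · simp only [mem_sdiff, mem_insert, mem_erase] at hz ⊢
        rcases hz with ⟨rfl | hz, hz'⟩
        · exact absurd hx'Q hz'
        · exact ⟨hz.2, hz'⟩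
      · have h3 := hh (mem_sdiff.2 ⟨hxP, hxQ⟩)
        simp only [mem_sdiff, mem_insert, mem_erase] at h3
        rcases h3.1 with h4 | h4
        · exact hne h4.symm
        · exact h4.1 rfl
  refine ih _ (lt_of_lt_of_le hlt hn) P' le_rfl hstep.2.1 fun l hl => ?_
  by_cases h1 : l = i
  · subst h1
    rw [hPi, hAi, h l hl]
  by_cases h2 : l = j
  · subst h2
    rw [hPj, hBi, h l hl]
  · rw [hPl l h1 h2, h l hl]

/-- two lifts of the same state are connected -/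
theorem rs2_reach_of_image (h' : ∀ B, 𝓑' B ↔ B ⊆ X ∧ Set.InjOn π B ∧ 𝓑 (B.image π))
    (hP : MS 𝓑' I μ P) (hQ : MS 𝓑' I μ Q) (h : ∀ i ∈ I, (P i).image π = (Q i).image π) :
    Relation.ReflTransGen (RS2 𝓑' I μ) P Q :=
  bpar_reach h' hQ _ P le_rfl hP h

theorem SC.pull (hI : 3 ≤ I.card) (h : SC 𝓑 I fun y => ∑ x ∈ X with π x = y, μ x)
    (h' : ∀ B, 𝓑' B ↔ B ⊆ X ∧ Set.InjOn π B ∧ 𝓑 (B.image π)) : SC 𝓑' I μ := by
  intro P Q hP hQ
  have hμ : ∀ x, x ∉ X → μ x = 0 := fun x hx => by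
    rw [← hP.wt x, card_eq_zero, filter_eq_empty_iff]
    exact fun i hi hh => hx (((h' _).1 (hP.mem i hi)).1 hh)
  have key : ∀ R, Relation.ReflTransGen (Sh 𝓑 I fun y => ∑ x ∈ X with π x = y, μ x)
      (fun i => (P i).image π) R → ∀ R', MS 𝓑' I μ R' → (∀ i ∈ I, (R' i).image π = R i) →
      Relation.ReflTransGen (Sh 𝓑' I μ) P R' := by
    intro R hR
    induction hR with
    | refl =>
      intro R' h1 h2
      exact rs2_reach_sh (rs2_reach_of_image h' hP h1 fun i hi => (h2 i hi).symm) hI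
    | tail _ hs ih =>
      intro S' h1 h2
      obtain ⟨hb, _, l, hl, hbl⟩ := hs
      obtain ⟨R', h3, h4, h5⟩ := MS.lift_at h' hμ hb hl (h1.mem l hl) (by rw [h2 l hl, hbl])
        fun x hx => by
          rw [← h1.wt x]
          exact card_pos.2 ⟨l, mem_filter.2 ⟨hl, hx⟩⟩
      exact (ih R' h3 h4).tail ⟨h3, h1, l, hl, h5⟩
  exact key _ (h _ _ (hP.image h') (hQ.image h')) Q hQ fun _ _ => rfl

theorem TE.pull (h : TE 𝓑) (h' : ∀ B, 𝓑' B ↔ B ⊆ X ∧ Set.InjOn π B ∧ 𝓑 (B.image π)) : TE 𝓑' :=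
  te_of_sc fun I _ hI => SC.pull hI ((h I _).sc hI) h'

theorem SC.of_pull (hI : 3 ≤ I.card) (h : SC 𝓑' I μ) (hμ : ∀ x, x ∉ X → μ x = 0)
    (h' : ∀ B, 𝓑' B ↔ B ⊆ X ∧ Set.InjOn π B ∧ 𝓑 (B.image π)) :
    SC 𝓑 I fun y => ∑ x ∈ X with π x = y, μ x := by
  intro P Q hP hQ
  obtain ⟨P', hP', hPi⟩ := hP.lift h' hμ
  obtain ⟨Q', hQ', hQi⟩ := hQ.lift h' hμ
  have key : ∀ R, Relation.ReflTransGen (Sh 𝓑' I μ) P' R →
      Relation.ReflTransGen (Sh 𝓑 I fun y => ∑ x ∈ X with π x = y, μ x) P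
        fun i => (R i).image π := by
    intro R hR
    induction hR with
    | refl =>
      exact Relation.ReflTransGen.single ((RS2.of_eqOn hP fun i hi => (hPi i hi).symm).sh hI)
    | tail _ hs ih =>
      obtain ⟨h1, h2, l, hl, hbl⟩ := hs
      exact ih.tail ⟨h1.image h', h2.image h', l, hl, by simp only [hbl]⟩
  exact (key _ (h _ _ hP' hQ')).tail ((RS2.of_eqOn (hQ'.image h') hQi).sh hI)

/-- every finitely supported weight comes from a set of copies -/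
theorem exists_copies (E : Finset ℕ) (μ : ℕ → ℕ) (hμ : ∀ e, e ∉ E → μ e = 0) :
    ∃ (X : Finset ℕ) (π : ℕ → ℕ), (∀ x ∈ X, π x ∈ E) ∧
      μ = fun y => ∑ x ∈ X with π x = y, one X x := by
  refine ⟨E.biUnion fun e => (range (μ e)).image (Nat.pair e), fun x => x.unpair.1, ?_, ?_⟩
  · intro x hx
    obtain ⟨e, he, hx⟩ := mem_biUnion.1 hx
    obtain ⟨k, _, rfl⟩ := mem_image.1 hx
    simpa using he
  · funext y
    have h1 : ∀ S : Finset ℕ, ∑ x ∈ S with x.unpair.1 = y, one S x =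
        (S.filter fun x => x.unpair.1 = y).card := fun S => by
      rw [card_eq_sum_ones]
      exact sum_congr rfl fun x hx => by simp [one, (mem_filter.1 hx).1]
    rw [h1]
    have h2 : ((E.biUnion fun e => (range (μ e)).image (Nat.pair e)).filter
        fun x => x.unpair.1 = y) = (range (μ y)).image (Nat.pair y) := by
      ext x
      simp only [mem_filter, mem_biUnion, mem_image, mem_range]
      constructor
      · rintro ⟨⟨e, _, k, hk, rfl⟩, h⟩
        rw [Nat.unpair_pair] at h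
        subst h
        exact ⟨k, hk, rfl⟩
      · rintro ⟨k, hk, rfl⟩
        refine ⟨⟨y, ?_, k, hk, rfl⟩, by rw [Nat.unpair_pair]⟩
        by_contra hy
        rw [hμ y hy] at hk
        exact Nat.not_lt_zero _ hk
    rw [h2, card_image_of_injective _ fun a b hab => (Nat.pair_eq_pair.1 hab).2, card_range]

end Pool.Agent.P.MP_3f5ce9_co
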