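import Pool.Agent.P.MP_3f5ce9_co.W.BCC

/-!
Paths of close count vectors.
-/

open Finset

namespace Pool.Agent.P.MP_3f5ce9_co

/-- sets with types -/
abbrev BpSt := (ℕ → Finset ℕ) × (ℕ → Tp)

/-- states all of whose normalizations lie in the box -/
structure BpGood (ty : Typing) (I : Finset ℕ) (μ : ℕ → ℕ) (A : ℕ) (c : Fin 3 → ℕ) (s : BpSt) :
    Prop where
  ts : TS ty I μ s.1 s.2
  dim : bcw I s.2 (.p 0) + bcw I s.2 (.p 1) + bcw I s.2 (.p 2) + 2 * bcw I s.2 .u = A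
  box : ∀ k, bcw I s.2 (.p k) + bcw I s.2 .u + c k ≤ A

def BpEq (J : Finset ℕ) (s s' : BpSt) : Prop := ∀ n ∈ J, s.1 n = s'.1 n ∧ s.2 n = s'.2 n

/-- one normalization step -/
def BpN (ty : Typing) (I : Finset ℕ) (μ : ℕ → ℕ) (s s' : BpSt) : Prop :=
  TS ty I μ s'.1 s'.2 ∧ ∃ i ∈ I, ∃ j ∈ I, ∃ k l, k ≠ l ∧ s.2 i = .u ∧ s.2 j = .z ∧
    s'.2 i = .p k ∧ s'.2 j = .p l ∧ ∀ n ∈ I, n ≠ i → n ≠ j → s'.2 n = s.2 n ∧ s'.1 n = s.1 n

def BpFull (ty : Typing) (I : Finset ℕ) (μ : ℕ → ℕ) (s : BpSt) (a : Fin 3 → ℕ) : Prop :=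
  ∃ r, Relation.ReflTransGen (BpN ty I μ) s r ∧ bcw I r.2 .u = 0 ∧ cnt I r.2 = a

def BpR (ty : Typing) (I : Finset ℕ) (μ : ℕ → ℕ) (A : ℕ) (c : Fin 3 → ℕ) :
    (Fin 3 → ℕ) → (Fin 3 → ℕ) → Prop :=
  Relation.ReflTransGen fun a b => Box ty I μ A c a ∧ Box ty I μ A c b ∧ Close A a b

section
variable {L1 I K J : Finset ℕ} {ty : Typing} {μ : ℕ → ℕ} {A : ℕ} {c : Fin 3 → ℕ} {s s' : BpSt}

theorem BpEq.bcw (h : BpEq J s s') (β : Tp) : bcw J s.2 β = bcw J s'.2 β :=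
  bcw_congr (fun n hn => (h n hn).2) β

theorem BpEq.symm (h : BpEq J s s') : BpEq J s' s := fun n hn => ⟨(h n hn).1.symm, (h n hn).2.symm⟩

theorem BpEq.trans {r : BpSt} (h : BpEq J s s') (h' : BpEq J s' r) : BpEq J s r :=
  fun n hn => ⟨(h n hn).1.trans (h' n hn).1, (h n hn).2.trans (h' n hn).2⟩

theorem BpEq.mono (h : BpEq J s s') (hK : K ⊆ J) : BpEq K s s' := fun n hn => h n (hK hn)

theorem bp_counts {τ σ : ℕ → Tp} {i j : ℕ} {k l : Fin 3} (hi : i ∈ K) (hj : j ∈ K) (hkl : k ≠ l)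
    (h1 : τ i = .u) (h2 : τ j = .z) (h3 : σ i = .p k) (h4 : σ j = .p l)
    (h : ∀ n ∈ K, n ≠ i → n ≠ j → σ n = τ n) :
    bcw K σ .u + 1 = bcw K τ .u ∧ bcw K σ .z + 1 = bcw K τ .z ∧
      (∀ m, bcw K σ (.p m) ≤ bcw K τ (.p m) + 1) ∧
      bcw K σ (.p 0) + bcw K σ (.p 1) + bcw K σ (.p 2) =
        bcw K τ (.p 0) + bcw K τ (.p 1) + bcw K τ (.p 2) + 2 := by
  have hij : i ≠ j := fun hh => by
    rw [hh, h2] at h1
    cases h1
  have a1 := bcw_upd hi hj hij h .u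
  have a2 := bcw_upd hi hj hij h .z
  have a3 := bcw_card K τ
  have a4 := bcw_card K σ
  simp only [h1, h2, h3, h4, if_true, reduceCtorEq, if_false] at a1 a2
  refine ⟨by omega, by omega, fun m => ?_, by omega⟩
  have a5 := bcw_upd hi hj hij h (.p m)
  simp only [h1, h2, h3, h4, reduceCtorEq, if_false, Tp.p.injEq] at a5
  split_ifs at a5 with e1 e2
  · exact absurd (e1.trans e2.symm) hkl
  all_goals omega

theorem BpGood.step (h : BpGood ty I μ A c s) (hn : BpN ty I μ s s') : BpGood ty I μ A c s' := by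
  obtain ⟨h0, i, hi, j, hj, k, l, hkl, h1, h2, h3, h4, h5⟩ := hn
  obtain ⟨a1, _, a3, a4⟩ := bp_counts hi hj hkl h1 h2 h3 h4 fun n hn e1 e2 => (h5 n hn e1 e2).1
  have b1 := h.dim
  refine ⟨h0, by omega, fun m => ?_⟩
  have := h.box m
  have := a3 m
  omega

theorem BpGood.reach (h : BpGood ty I μ A c s) (hn : Relation.ReflTransGen (BpN ty I μ) s s') :
    BpGood ty I μ A c s' := by
  induction hn with
  | refl => exact h
  | tail _ h2 ih => exact ih.step h2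

theorem BpGood.toBox (h : BpGood ty I μ A c s) (h0 : bcw I s.2 .u = 0) :
    Box ty I μ A c (cnt I s.2) := by
  have b1 := h.dim
  refine ⟨⟨s.1, s.2, h.ts, bcw_eq_zero.1 h0, rfl⟩, ?_, fun k => ?_⟩
  · simp only [Fin.sum_univ_three, cnt_eq_bcw]
    omega
  · have := h.box k
    rw [cnt_eq_bcw]
    omega

theorem bp_common (hB : BSide L1 ty) (hJ : J ⊆ I) (n : ℕ) : ∀ s s' : BpSt, bcw J s.2 .u = n →
    TS ty I μ s.1 s.2 → TS ty I μ s'.1 s'.2 → BpEq J s s' → n ≤ bcw J s.2 .z →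
    ∃ r r', Relation.ReflTransGen (BpN ty I μ) s r ∧ Relation.ReflTransGen (BpN ty I μ) s' r' ∧
      BpEq J r r' ∧ BpEq (I \ J) r s ∧ BpEq (I \ J) r' s' ∧ bcw J r.2 .u = 0 ∧
      ∀ k, bcw J r.2 (.p k) ≤ bcw J s.2 (.p k) + n := by
  induction n with
  | zero =>
    intro s s' h0 _ _ he _
    exact ⟨s, s', .refl, .refl, he, fun _ _ => ⟨rfl, rfl⟩, fun _ _ => ⟨rfl, rfl⟩, h0,
      fun _ => le_rfl⟩
  | succ n ih =>
    intro s s' h0 hs hs' he hz
    obtain ⟨i, hi, hu⟩ := bcw_pos (show 0 < bcw J s.2 .u by omega)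
    obtain ⟨j, hj, hz'⟩ := bcw_pos (show 0 < bcw J s.2 .z by omega)
    have hij : i ≠ j := fun hh => by
      rw [hh, hz'] at hu
      cases hu
    obtain ⟨B, C, k, l, hkl, h1, h2, h3⟩ := hB.od (s.1 i) (s.1 j) (hu ▸ hs.typ i (hJ hi))
      (hz' ▸ hs.typ j (hJ hj))
    let up : BpSt → BpSt := fun q => (Function.update (Function.update q.1 i B) j C,
      Function.update (Function.update q.2 i (.p k)) j (.p l))
    have u1 : ∀ q, (up q).2 i = .p k := fun q => by simp [up, hij]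
    have u2 : ∀ q, (up q).2 j = .p l := fun q => by simp [up]
    have u3 : ∀ q n, n ≠ i → n ≠ j → (up q).2 n = q.2 n ∧ (up q).1 n = q.1 n :=
      fun q n e1 e2 => by simp [up, e1, e2]
    have t1 : TS ty I μ (up s).1 (up s).2 := hs.bccUpd (hJ hi) (hJ hj) hij h1 h2 h3
    have t2 : TS ty I μ (up s').1 (up s').2 := hs'.bccUpd (hJ hi) (hJ hj) hij h1 h2
      (by rw [← (he i hi).1, ← (he j hj).1]; exact h3)
    have e12 : BpEq J (up s) (up s') := fun n hn => by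
      by_cases e2 : n = j
      · simp [up, e2]
      by_cases e1 : n = i
      · simp [up, e1, hij]
      · rw [(u3 s n e1 e2).1, (u3 s n e1 e2).2, (u3 s' n e1 e2).1, (u3 s' n e1 e2).2]
        exact he n hn
    have eo : ∀ q, BpEq (I \ J) (up q) q := fun q n hn =>
      have := u3 q n (fun hh => (mem_sdiff.1 hn).2 (hh ▸ hi)) fun hh => (mem_sdiff.1 hn).2 (hh ▸ hj)
      ⟨this.2, this.1⟩
    obtain ⟨a1, a2, a3, _⟩ := bp_counts hi hj hkl hu hz' (u1 s) (u2 s)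
      fun n _ e1 e2 => (u3 s n e1 e2).1
    obtain ⟨r, r', p1, p2, p3, p4, p5, p6, p7⟩ := ih (up s) (up s') (by omega) t1 t2 e12 (by omega)
    refine ⟨r, r', .head ⟨t1, i, hJ hi, j, hJ hj, k, l, hkl, hu, hz', u1 s, u2 s,
      fun n _ => u3 s n⟩ p1, .head ⟨t2, i, hJ hi, j, hJ hj, k, l, hkl, (he i hi).2 ▸ hu,
      (he j hj).2 ▸ hz', u1 s', u2 s', fun n _ => u3 s' n⟩ p2, p3, p4.trans (eo s),
      p5.trans (eo s'), p6, fun m => ?_⟩
    have := p7 m
    have := a3 m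
    omega

theorem bp_z (hB : BSide L1 ty) (hK : K ⊆ I) (h : BpGood ty I μ A c s)
    (h' : BpGood ty I μ A c s') (he : BpEq (I \ K) s s') (h1 : bcw K s.2 .u ≤ bcw K s.2 .z)
    (h2 : bcw (I \ K) s.2 .u ≤ bcw (I \ K) s.2 .z) :
    ∃ r r', Relation.ReflTransGen (BpN ty I μ) s r ∧ Relation.ReflTransGen (BpN ty I μ) s' r' ∧
      bcw I r.2 .u = 0 ∧ bcw I r'.2 .u = 0 ∧ BpEq (I \ K) r r' ∧
      (∀ k, bcw K r.2 (.p k) ≤ bcw K s.2 (.p k) + bcw K s.2 .u) ∧
      (∀ k, bcw K r'.2 (.p k) ≤ bcw K s'.2 (.p k) + bcw K s'.2 .u) ∧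
      bcw K r.2 (.p 0) + bcw K r.2 (.p 1) + bcw K r.2 (.p 2) =
        bcw K s.2 (.p 0) + bcw K s.2 (.p 1) + bcw K s.2 (.p 2) + 2 * bcw K s.2 .u := by
  have h1' : bcw K s'.2 .u ≤ bcw K s'.2 .z := by
    have a1 := h.dim
    have a2 := h'.dim
    have a3 := bcw_card K s.2
    have a4 := bcw_card K s'.2
    simp only [bcw_split hK, he.bcw] at a1 a2
    omega
  obtain ⟨q, _, p1, _, _, p4, _, p6, p7⟩ := bp_common hB hK _ s s rfl h.ts h.ts
    (fun _ _ => ⟨rfl, rfl⟩) h1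
  obtain ⟨q', _, p1', _, _, p4', _, p6', p7'⟩ := bp_common hB hK _ s' s' rfl h'.ts h'.ts
    (fun _ _ => ⟨rfl, rfl⟩) h1'
  obtain ⟨r, r', o1, o2, o3, o4, o5, o6, _⟩ := bp_common hB sdiff_subset _ q q' rfl
    (h.reach p1).ts (h'.reach p1').ts (p4.trans (he.trans p4'.symm))
    (by rw [p4.bcw, p4.bcw]; exact h2)
  rw [Finset.sdiff_sdiff_eq_self hK] at o4 o5
  refine ⟨r, r', p1.trans o1, p1'.trans o2, ?_, ?_, o3, fun k => ?_, fun k => ?_, ?_⟩
  · rw [bcw_split hK, o6, o4.bcw, p6]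
  · rw [bcw_split hK, ← o3.bcw, o6, o5.bcw, p6']
  · rw [o4.bcw]
    exact p7 k
  · rw [o5.bcw]
    exact p7' k
  · have a1 := h.dim
    have a2 := (h.reach p1).dim
    simp only [bcw_split hK, p4.bcw] at a1 a2
    simp only [o4.bcw]
    omega

theorem bp_close {r r' : BpSt} (hK : K ⊆ I) (h : BpGood ty I μ A c r) (h' : BpGood ty I μ A c r')
    (h0 : bcw I r.2 .u = 0) (h0' : bcw I r'.2 .u = 0) (he : BpEq (I \ K) r r') (m : ℕ)
    (h1 : ∀ k, bcw K r.2 (.p k) ≤ m) (h2 : ∀ k, bcw K r'.2 (.p k) ≤ m)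
    (h3 : m ≤ 1 ∨ (m ≤ 2 ∧ 3 ≤ bcw K r.2 (.p 0) + bcw K r.2 (.p 1) + bcw K r.2 (.p 2))) :
    BpR ty I μ A c (cnt I r.2) (cnt I r'.2) := by
  refine Relation.ReflTransGen.single ⟨h.toBox h0, h'.toBox h0', ?_⟩
  have a1 := h.dim
  have a2 := h'.dim
  have := h1 0
  have := h1 1
  have := h1 2
  have := h2 0
  have := h2 1
  have := h2 2
  rw [h0] at a1
  rw [h0'] at a2
  simp only [Close, Fin.sum_univ_three, Fin.forall_fin_succ, cnt_eq_bcw, bcw_split hK, he.bcw,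
    IsEmpty.forall_iff, and_true, Fin.succ_zero_eq_one, Fin.succ_one_eq_two] at *
  omega

theorem BpR.symm {a b : Fin 3 → ℕ} (h : BpR ty I μ A c a b) : BpR ty I μ A c b a := by
  induction h with
  | refl => exact .refl
  | tail _ h2 ih =>
    refine Relation.ReflTransGen.head ⟨h2.2.1, h2.1, ?_⟩ ih
    have := h2.2.2
    simp only [Close, max_comm] at this ⊢
    exact this

theorem bp_conf (hB : BSide L1 ty) (hA : A < I.card) (n : ℕ) : ∀ s, bcw I s.2 .u = n →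
    BpGood ty I μ A c s → ∀ a a', BpFull ty I μ s a → BpFull ty I μ s a' → BpR ty I μ A c a a' := by
  induction n with
  | zero =>
    intro s hn _ a a' ⟨r, p, _, ha⟩ ⟨r', p', _, ha'⟩
    have key : ∀ q, Relation.ReflTransGen (BpN ty I μ) s q → s = q := fun q hq => by
      rcases hq.cases_head with h | ⟨_, ⟨_, i, hi, _, _, _, _, _, hu, _⟩, _⟩
      · exact h
      · exact absurd hu (bcw_eq_zero.1 hn i hi)
    rw [← ha, ← ha', ← key r p, ← key r' p']
    exact .refl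
  | succ n ih =>
    intro s hn hs a a' ⟨r, p, hr, ha⟩ ⟨r', p', hr', ha'⟩
    obtain h | ⟨s1, n1, p1⟩ := p.cases_head
    · rw [← h] at hr
      omega
    obtain h | ⟨s2, n2, p2⟩ := p'.cases_head
    · rw [← h] at hr'
      omega
    have g1 := hs.step n1
    have g2 := hs.step n2
    obtain ⟨_, i1, hi1, j1, hj1, k1, l1, hkl1, u1, z1, a1, b1, o1⟩ := n1
    obtain ⟨_, i2, hi2, j2, hj2, k2, l2, hkl2, u2, z2, a2, b2, o2⟩ := n2
    have d1 := hs.dim
    have d2 := bcw_card I s.2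
    obtain ⟨Z, hZ1, hZ2, hZ3⟩ := exists_subsuperset_card_eq (n := 2)
      (show {j1, j2} ⊆ I.filter fun i => s.2 i = .z from insert_subset (mem_filter.2 ⟨hj1, z1⟩)
        (singleton_subset_iff.2 (mem_filter.2 ⟨hj2, z2⟩))) card_le_two
      (show 2 ≤ bcw I s.2 .z by omega)
    have hU : ∀ i ∈ ({i1, i2} : Finset ℕ), s.2 i = .u := by simp [u1, u2]
    have hZ : ∀ i ∈ Z, s.2 i = .z := fun i hi => (mem_filter.1 (hZ2 hi)).2
    have hd : Disjoint {i1, i2} Z := disjoint_left.2 fun i h1 h2 => by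
      have := hU i h1
      rw [hZ i h2] at this
      cases this
    have hK : {i1, i2} ∪ Z ⊆ I := union_subset (insert_subset hi1 (singleton_subset_iff.2 hi2))
      (hZ2.trans (filter_subset _ _))
    have m1 : i1 ∈ {i1, i2} ∪ Z := by simp
    have m2 : i2 ∈ {i1, i2} ∪ Z := by simp
    have m3 : j1 ∈ {i1, i2} ∪ Z := mem_union_right _ (hZ1 (by simp))
    have m4 : j2 ∈ {i1, i2} ∪ Z := mem_union_right _ (hZ1 (by simp))
    have w := fun β => bcw_union hd s.2 β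
    simp only [bcw_const hU, bcw_const hZ, hZ3] at w
    have wu := w .u
    have wz := w .z
    have wp : ∀ k, bcw ({i1, i2} ∪ Z) s.2 (.p k) = 0 := fun k => by simpa using w (.p k)
    simp only [if_true, reduceCtorEq, if_false] at wu wz
    have c1 : 0 < ({i1, i2} : Finset ℕ).card := card_pos.2 (by simp)
    have c2 : ({i1, i2} : Finset ℕ).card ≤ 2 := card_le_two
    generalize {i1, i2} ∪ Z = K at *
    have e1 : BpEq (I \ K) s1 s := fun m hm =>
      have := o1 m (mem_sdiff.1 hm).1 (fun hh => (mem_sdiff.1 hm).2 (hh ▸ m1))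
        fun hh => (mem_sdiff.1 hm).2 (hh ▸ m3)
      ⟨this.2, this.1⟩
    have e2 : BpEq (I \ K) s2 s := fun m hm =>
      have := o2 m (mem_sdiff.1 hm).1 (fun hh => (mem_sdiff.1 hm).2 (hh ▸ m2))
        fun hh => (mem_sdiff.1 hm).2 (hh ▸ m4)
      ⟨this.2, this.1⟩
    obtain ⟨x1, x2, x3, x4⟩ := bp_counts m1 m3 hkl1 u1 z1 a1 b1
      fun m hm f1 f2 => (o1 m (hK hm) f1 f2).1
    obtain ⟨y1, y2, y3, y4⟩ := bp_counts m2 m4 hkl2 u2 z2 a2 b2
      fun m hm f1 f2 => (o2 m (hK hm) f1 f2).1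
    obtain ⟨x5, _⟩ := bp_counts hi1 hj1 hkl1 u1 z1 a1 b1 fun m hm f1 f2 => (o1 m hm f1 f2).1
    obtain ⟨y5, _⟩ := bp_counts hi2 hj2 hkl2 u2 z2 a2 b2 fun m hm f1 f2 => (o2 m hm f1 f2).1
    have su := bcw_split hK s.2 .u
    have sz := bcw_split hK s.2 .z
    obtain ⟨q, q', f1, f2, f3, f4, f5, f6, f7, f8⟩ := bp_z hB hK g1 g2 (e1.trans e2.symm)
      (by omega) (by rw [e1.bcw, e1.bcw]; omega)
    have t1 := ih s1 (by omega) g1 a _ ⟨r, p1, hr, ha⟩ ⟨q, f1, f3, rfl⟩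
    have t2 := ih s2 (by omega) g2 _ a' ⟨q', f2, f4, rfl⟩ ⟨r', p2, hr', ha'⟩
    refine t1.trans (Relation.ReflTransGen.trans (bp_close hK (g1.reach f1) (g2.reach f2) f3 f4 f5
      (bcw K s.2 .u) (fun k => ?_) (fun k => ?_) ?_) t2)
    · have := f6 k
      have := x3 k
      have := wp k
      omega
    · have := f7 k
      have := y3 k
      have := wp k
      omega
    · have := wp 0
      have := wp 1
      have := wp 2
      omega

theorem bp_num {a a' b w c : Fin 3 → ℕ} {k l k' l' : Fin 3} (hkl : k ≠ l) (hkl' : k' ≠ l')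
    (ha : ∀ n, a n = w n + if k = n then 2 else 0) (ha' : ∀ n, a' n = w n + if l = n then 2 else 0)
    (hb : ∀ n, b n = w n + (if k' = n then 1 else 0) + if l' = n then 1 else 0)
    (h1 : a 0 + a 1 + a 2 = A) (h2 : ∑ n, c n < A) (h3 : ∀ n, a n + c n ≤ A)
    (h4 : ∀ n, a' n + c n ≤ A) (h5 : ¬ Close A a a') :
    ∑ n, b n = A ∧ (∀ n, b n + c n ≤ A) ∧ Close A a b ∧ Close A b a' := by
  simp only [Close, Fin.sum_univ_three, Fin.forall_fin_succ, IsEmpty.forall_iff, and_true,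
    Fin.succ_zero_eq_one, Fin.succ_one_eq_two] at *
  fin_cases k <;> fin_cases l <;> fin_cases k' <;> fin_cases l' <;> simp at hkl hkl' ha ha' hb <;>
    omega

theorem bp_two (hB : BSide L1 ty) (hc : ∑ k, c k < A) {r r' : BpSt} {i j : ℕ} (hi : i ∈ I)
    (hj : j ∈ I) (hij : i ≠ j) (h : BpGood ty I μ A c r) (h' : BpGood ty I μ A c r')
    (h0 : bcw I r.2 .u = 0) (h0' : bcw I r'.2 .u = 0) (he : BpEq (I \ {i, j}) r r') :
    BpR ty I μ A c (cnt I r.2) (cnt I r'.2) := by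
  by_cases hcl : Close A (cnt I r.2) (cnt I r'.2)
  · exact Relation.ReflTransGen.single ⟨h.toBox h0, h'.toBox h0', hcl⟩
  have hK : {i, j} ⊆ I := insert_subset hi (singleton_subset_iff.2 hj)
  have hK2 : ({i, j} : Finset ℕ).card = 2 := card_pair hij
  obtain ⟨k, l, hkl, hk, hl⟩ : ∃ k l, k ≠ l ∧ bcw {i, j} r.2 (.p k) = 2 ∧
      bcw {i, j} r'.2 (.p l) = 2 := by
    have a1 := h.dim
    have a2 := h'.dim
    have a3 := bcw_card {i, j} r.2
    have a4 := bcw_card {i, j} r'.2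
    rw [h0] at a1
    rw [h0'] at a2
    by_contra hn
    push Not at hn
    have := hn 0 1 (by decide)
    have := hn 0 2 (by decide)
    have := hn 1 0 (by decide)
    have := hn 1 2 (by decide)
    have := hn 2 0 (by decide)
    have := hn 2 1 (by decide)
    clear hn
    simp only [Close, Fin.sum_univ_three, Fin.forall_fin_succ, cnt_eq_bcw, bcw_split hK, he.bcw,
      IsEmpty.forall_iff, and_true, Fin.succ_zero_eq_one, Fin.succ_one_eq_two] at *
    omega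
  have all : ∀ (τ : ℕ → Tp) (β : Tp), bcw {i, j} τ β = 2 → ∀ n ∈ ({i, j} : Finset ℕ), τ n = β :=
    fun τ β hh => filter_card_eq (hh.trans hK2.symm)
  have ri := all _ _ hk i (by simp)
  have rj := all _ _ hk j (by simp)
  have ri' := all _ _ hl i (by simp)
  have rj' := all _ _ hl j (by simp)
  have hs : Same (r.1 i) (r.1 j) (r'.1 i) (r'.1 j) :=
    h.ts.bccMS.same h'.ts.bccMS hi hj hij fun n hn e1 e2 => (he n (by simp [hn, e1, e2])).1
  obtain ⟨B, C, hBu, hCz, hs1⟩ := hB.ux _ _ _ _ k l (ri ▸ h.ts.typ i hi) (rj ▸ h.ts.typ j hj)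
    (ri' ▸ h'.ts.typ i hi) (rj' ▸ h'.ts.typ j hj) hkl hs
  obtain ⟨B', C', k', l', hkl', hB', hC', hs2⟩ := hB.od B C hBu hCz
  have t := h.ts.bccUpd hi hj hij hB' hC' ⟨hs1.1.trans hs2.1, hs1.2.trans hs2.2⟩
  set σ := Function.update (Function.update r.2 i (.p k')) j (.p l') with hσ
  have σi : σ i = .p k' := by simp [hσ, hij]
  have σj : σ j = .p l' := by simp [hσ]
  have σo : ∀ n, n ≠ i → n ≠ j → σ n = r.2 n := fun n e1 e2 => by simp [hσ, e1, e2]
  have a1 := h.dim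
  rw [h0] at a1
  obtain ⟨q1, q2, q3, q4⟩ := bp_num (a := cnt I r.2) (a' := cnt I r'.2) (b := cnt I σ)
    (w := fun n => bcw (I \ {i, j}) r.2 (.p n)) hkl hkl'
    (fun n => by
      rw [cnt_eq_bcw, bcw_split hK, bcw_const (all _ _ hk), hK2, add_comm]
      simp)
    (fun n => by
      rw [cnt_eq_bcw, bcw_split hK, bcw_const (all _ _ hl), hK2, add_comm, he.bcw]
      simp)
    (fun n => by
      have b1 := bcw_upd hi hj hij (fun m _ => σo m) (.p n)
      have b2 := bcw_split hK r.2 (.p n)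
      rw [bcw_const (all _ _ hk), hK2] at b2
      rw [cnt_eq_bcw]
      simp only [ri, rj, σi, σj, Tp.p.injEq] at b1 b2
      split_ifs at b1 b2 ⊢ <;> omega)
    (by simpa only [cnt_eq_bcw, mul_zero, add_zero] using a1) hc (h.toBox h0).2.2 (h'.toBox h0').2.2 hcl
  have hb : Box ty I μ A c (cnt I σ) := ⟨⟨_, σ, t, fun n hn => by
    by_cases e1 : n = i
    · simp [e1, σi]
    by_cases e2 : n = j
    · simp [e2, σj]
    · rw [σo n e1 e2]
      exact bcw_eq_zero.1 h0 n hn, rfl⟩, q1, q2⟩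
  exact Relation.ReflTransGen.head ⟨h.toBox h0, hb, q3⟩ (.single ⟨hb, h'.toBox h0', q4⟩)

theorem bp_adj (hB : BSide L1 ty) (hA : A < I.card) (hc : ∑ k, c k < A) {i j : ℕ} (hi : i ∈ I)
    (hj : j ∈ I) (hij : i ≠ j) (h : BpGood ty I μ A c s) (h' : BpGood ty I μ A c s')
    (he : BpEq (I \ {i, j}) s s') :
    ∃ a a', BpFull ty I μ s a ∧ BpFull ty I μ s' a' ∧ BpR ty I μ A c a a' := by
  have hK : {i, j} ⊆ I := insert_subset hi (singleton_subset_iff.2 hj)
  have hK2 : ({i, j} : Finset ℕ).card = 2 := card_pair hij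
  have d1 := h.dim
  have d2 := h'.dim
  have d3 := bcw_card I s.2
  have d4 := bcw_card {i, j} s.2
  have d5 := bcw_card {i, j} s'.2
  by_cases h1 : bcw {i, j} s.2 .u ≤ bcw {i, j} s.2 .z ∧
      bcw (I \ {i, j}) s.2 .u ≤ bcw (I \ {i, j}) s.2 .z
  · obtain ⟨q, q', f1, f2, f3, f4, f5, _⟩ := bp_z hB hK h h' he h1.1 h1.2
    exact ⟨_, _, ⟨q, f1, f3, rfl⟩, ⟨q', f2, f4, rfl⟩,
      bp_two hB hc hi hj hij (h.reach f1) (h'.reach f2) f3 f4 f5⟩
  simp only [bcw_split hK, ← he.bcw] at d1 d2 d3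
  obtain ⟨α, m, hm, hα⟩ : ∃ (α : Tp) (m : ℕ), m ≤ bcw (I \ {i, j}) s.2 α ∧
      ((α = .u ∧ m = 1 ∧ bcw {i, j} s.2 .z = 2) ∨
        (α = .z ∧ 0 < m ∧ m + bcw {i, j} s.2 .z = bcw {i, j} s.2 .u)) := by
    by_cases h2 : bcw {i, j} s.2 .u ≤ bcw {i, j} s.2 .z
    · exact ⟨.u, 1, by omega, Or.inl ⟨rfl, rfl, by omega⟩⟩
    · exact ⟨.z, bcw {i, j} s.2 .u - bcw {i, j} s.2 .z, by omega, Or.inr ⟨rfl, by omega, by omega⟩⟩
  obtain ⟨X, hX1, hX2⟩ := exists_subset_card_eq (s := (I \ {i, j}).filter fun n => s.2 n = α) hm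
  have hXs : X ⊆ I \ {i, j} := hX1.trans (filter_subset _ _)
  have hXα : ∀ n ∈ X, s.2 n = α := fun n hn => (mem_filter.1 (hX1 hn)).2
  have hd : Disjoint {i, j} X := disjoint_sdiff.mono_right hXs
  have hK' : {i, j} ∪ X ⊆ I := union_subset hK (hXs.trans sdiff_subset)
  have w := fun β => bcw_union hd s.2 β
  have w' := fun β => bcw_union hd s'.2 β
  simp only [← (he.mono hXs).bcw] at w'
  simp only [bcw_const hXα, hX2] at w w'
  have su := bcw_split hK' s.2 .u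
  have sz := bcw_split hK' s.2 .z
  rw [bcw_split hK] at su sz
  have he' : BpEq (I \ ({i, j} ∪ X)) s s' :=
    he.mono (sdiff_subset_sdiff Subset.rfl subset_union_left)
  have wu := w .u
  have wz := w .z
  have wu' := w' .u
  have wp : ∀ k, bcw ({i, j} ∪ X) s.2 (.p k) = bcw {i, j} s.2 (.p k) := fun k => by
    rcases hα with ⟨rfl, _⟩ | ⟨rfl, _⟩ <;> simpa using w (.p k)
  have wp' : ∀ k, bcw ({i, j} ∪ X) s'.2 (.p k) = bcw {i, j} s'.2 (.p k) := fun k => by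
    rcases hα with ⟨rfl, _⟩ | ⟨rfl, _⟩ <;> simpa using w' (.p k)
  have le3 : ∀ (τ : ℕ → Tp) (k : Fin 3), bcw {i, j} τ (.p k) ≤
      bcw {i, j} τ (.p 0) + bcw {i, j} τ (.p 1) + bcw {i, j} τ (.p 2) := fun τ k => by
    fin_cases k <;> simp <;> omega
  rcases hα with ⟨rfl, rfl, hz⟩ | ⟨rfl, hm0, hz⟩
  · simp only [if_true, reduceCtorEq, if_false] at wu wz wu'
    obtain ⟨q, q', f1, f2, f3, f4, f5, f6, f7, _⟩ := bp_z hB hK' h h' he' (by omega) (by omega)
    refine ⟨_, _, ⟨q, f1, f3, rfl⟩, ⟨q', f2, f4, rfl⟩, bp_close hK' (h.reach f1) (h'.reach f2)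
      f3 f4 f5 1 (fun k => ?_) (fun k => ?_) (Or.inl le_rfl)⟩
    · have := f6 k
      have := wp k
      have := le3 s.2 k
      omega
    · have := f7 k
      have := wp' k
      have := le3 s'.2 k
      omega
  · simp only [if_true, reduceCtorEq, if_false] at wu wz wu'
    obtain ⟨q, q', f1, f2, f3, f4, f5, f6, f7, f8⟩ := bp_z hB hK' h h' he' (by omega) (by omega)
    refine ⟨_, _, ⟨q, f1, f3, rfl⟩, ⟨q', f2, f4, rfl⟩, bp_close hK' (h.reach f1) (h'.reach f2)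
      f3 f4 f5 2 (fun k => ?_) (fun k => ?_) (Or.inr ⟨le_rfl, ?_⟩)⟩
    · have := f6 k
      have := wp k
      have := le3 s.2 k
      omega
    · have := f7 k
      have := wp' k
      have := le3 s'.2 k
      omega
    · simp only [wp] at f8
      omega

end

/-- the colabel of a type -/
def bpCo (t : Fin 3 → ℕ) : Tp → Finset ℕ
  | .p k => (tset t).erase (t k)
  | _ => tset t

theorem bp_tmem (t : Fin 3 → ℕ) (k : Fin 3) : t k ∈ tset t := by
  fin_cases k <;> simp [tset]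

theorem bp_co {t : Fin 3 → ℕ} {β : Tp} (h : β ≠ .z) : coTy (tset t) (tyT t) (bpCo t β) β := by
  rcases β with _ | k | _
  · exact absurd rfl h
  · have : tset t \ (tset t).erase (t k) = {t k} := sdiff_erase_self (bp_tmem t k)
    refine ⟨erase_subset _ _, ?_⟩
    show tyT t (tset t \ (tset t).erase (t k)) (.p k)
    rw [this]
    exact ⟨singleton_subset_iff.2 (bp_tmem t k), rfl, fun i hi => by cases hi; rfl⟩
  · refine ⟨Subset.rfl, ?_⟩
    show tyT t (tset t \ tset t) .z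
    rw [sdiff_self]
    exact ⟨empty_subset _, rfl, fun i hi => by cases hi⟩

theorem bp_pt {t : Fin 3 → ℕ} (ht : Function.Injective t) {F : Finset ℕ} {α β : Tp}
    (h : coTy (tset t) (tyT t) F β) (hc : α.compat β = true) (k : Fin 3) :
    (if α = .p k then 1 else 0) + (if α = .u then 1 else 0) + 1 ≤
      α.dim + if t k ∈ F then 1 else 0 := by
  by_cases hk : t k ∈ F
  · rcases α with _ | l | _ <;> simp [hk, Tp.dim]
    split_ifs <;> simp
  have hm : t k ∈ tset t \ F := mem_sdiff.2 ⟨bp_tmem t k, hk⟩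
  rcases α with _ | l | _
  · rw [(bcc_uz hc).2 rfl] at h
    have := h.2.2.1
    rw [show Tp.u.co.dim = 0 from rfl, card_eq_zero] at this
    simp [this] at hm
  · rcases β with _ | l' | _
    · simp [Tp.compat] at hc
    · rw [h.2.2.2 l' rfl, mem_singleton] at hm
      have : l ≠ k := fun hh => by simp [Tp.compat, hh, ht hm] at hc
      simp [hk, Tp.dim, this]
    · simp [Tp.compat] at hc
  · simp [hk, Tp.dim]

theorem box_path {L1 I : Finset ℕ} {ty1 : Typing} {t : Fin 3 → ℕ} {μ : ℕ → ℕ} {A : ℕ}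
    {c a b : Fin 3 → ℕ} (hB : BSide L1 ty1) (ht : Function.Injective t)
    (hd : Disjoint L1 (tset t)) (hT : TE (Glue L1 ty1 (tset t) (coTy (tset t) (tyT t))))
    (hA : A < I.card) (hc : ∑ k, c k < A) (ha : Box ty1 I μ A c a) (hb : Box ty1 I μ A c b) :
    Relation.ReflTransGen (fun a b => Box ty1 I μ A c a ∧ Box ty1 I μ A c b ∧ Close A a b) a b := by
  obtain ⟨⟨x, τ, hx, hτ, rfl⟩, ha1, ha2⟩ := ha
  obtain ⟨⟨x', τ', hx', hτ', rfl⟩, hb1, hb2⟩ := hb
  obtain ⟨bh, hbs, hbc, hba, hbb⟩ : ∃ bh : Fin 3 → ℕ, ∑ k, bh k = A ∧ (∀ k, c k ≤ bh k) ∧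
      (∀ k, cnt I τ k + bh k ≤ A) ∧ ∀ k, cnt I τ' k + bh k ≤ A := by
    generalize cnt I τ = a at *
    generalize cnt I τ' = b at *
    refine ⟨![min (A - max (a 0) (b 0)) (A - c 1 - c 2),
      min (A - max (a 1) (b 1)) (A - min (A - max (a 0) (b 0)) (A - c 1 - c 2) - c 2),
      A - min (A - max (a 0) (b 0)) (A - c 1 - c 2) -
        min (A - max (a 1) (b 1)) (A - min (A - max (a 0) (b 0)) (A - c 1 - c 2) - c 2)], ?_⟩
    simp only [Fin.sum_univ_three, Fin.forall_fin_succ, IsEmpty.forall_iff, and_true,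
      Fin.succ_zero_eq_one, Fin.succ_one_eq_two, Matrix.cons_val_zero, Matrix.cons_val_one,
      Matrix.cons_val] at *
    omega
  obtain ⟨σ, hσ, rfl⟩ := exists_cnt (I := I) bh (by omega)
  obtain ⟨π, hπ, hc1⟩ := cc hτ hσ ha1 hbs hba
  obtain ⟨π', hπ', hc2⟩ := cc hτ' hσ hb1 hbs hbb
  have hy : TS (coTy (tset t) (tyT t)) I
      (fun e => (I.filter fun i => e ∈ bpCo t (σ i)).card) (fun i => bpCo t (σ i)) σ :=
    ⟨fun i hi => bp_co (hσ i hi), fun _ => rfl⟩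
  set ν := fun e => (I.filter fun i => e ∈ bpCo t (σ i)).card with hν
  have hν1 : ∀ e ∈ L1, ν e = 0 := fun e he => by
    simp only [hν, card_eq_zero, filter_eq_empty_iff]
    exact fun i hi hh => disjoint_left.1 hd he ((bp_co (hσ i hi)).1 hh)
  have hν2 : ∀ k, ν (t k) + cnt I σ k = I.card := fun k => by
    rw [← card_filter_add_card_filter_not (s := I) fun i => σ i = .p k, add_comm]
    refine congrArg₂ (· + ·) rfl (congrArg card (filter_congr fun i _ => ?_))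
    rcases σ i with _ | l | _ <;> simp [bpCo, bp_tmem, ht.eq_iff, eq_comm]
  have hμ : ∀ e, e ∉ L1 → μ e = 0 := fun e he => by
    rw [← hx.wt e, card_eq_zero, filter_eq_empty_iff]
    exact fun i hi hh => he (hB.sub _ _ (hx.typ i hi) hh)
  have g0 : GS ty1 _ I μ ν x _ τ _ := ⟨hx, hy.perm hπ, hc1⟩
  have g1 : GS ty1 _ I μ ν x' _ τ' _ := ⟨hx', hy.perm hπ', hc2⟩
  have m0 := g0.ms hB.sub (fun F β h => h.1) hd
  have m1 := g1.ms hB.sub (fun F β h => h.1) hd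
  have good : ∀ R, MS (Glue L1 ty1 (tset t) (coTy (tset t) (tyT t))) I (fun e => μ e + ν e) R →
      ∃ ρ, BpGood ty1 I μ A c (fun i => R i ∩ L1, ρ) := by
    intro R hR
    obtain ⟨ρ, ρ', g, _⟩ := hR.exists_gs hd
    have e1 : (fun e => if e ∈ L1 then μ e + ν e else 0) = μ := funext fun e => by
      split_ifs with he
      · rw [hν1 e he, add_zero]
      · rw [hμ e he]
    have hl := g.left
    rw [e1] at hl
    have hdim := TS.sum_dim hB.toMSide hl hx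
    rw [← sum_cnt_of_ne_u hτ, ha1] at hdim
    refine ⟨ρ, hl, (bcw_dim I ρ).symm.trans hdim, fun k => ?_⟩
    have b1 := sum_le_sum fun i (hi : i ∈ I) => bp_pt ht (g.right.typ i hi) (g.compat i hi) k
    have b2 := g.right.wt (t k)
    simp only [bp_tmem, if_true, hμ (t k) fun hh => disjoint_left.1 hd hh (bp_tmem t k)] at b2
    simp only [sum_add_distrib, ← card_filter, ← card_eq_sum_ones] at b1
    have b3 := hν2 k
    have b4 := hbc k
    show bcw I ρ (.p k) + bcw I ρ .u + c k ≤ A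
    unfold bcw
    omega
  have ends : ∀ (z : ℕ → Finset ℕ) (θ : ℕ → Tp) (κ : ℕ → ℕ) (ρ : ℕ → Tp), TS ty1 I μ z θ →
      (∀ i ∈ I, θ i ≠ .u) → Set.BijOn κ I I →
      BpGood ty1 I μ A c (fun i => (z i ∪ ((fun i => bpCo t (σ i)) ∘ κ) i) ∩ L1, ρ) →
      BpFull ty1 I μ (fun i => (z i ∪ ((fun i => bpCo t (σ i)) ∘ κ) i) ∩ L1, ρ) (cnt I θ) := by
    intro z θ κ ρ hz hθ hκ hg
    have e : ∀ i ∈ I, ρ i = θ i := fun i hi => by
      have h1 := hg.ts.typ i hi
      have h2 : (z i ∪ bpCo t (σ (κ i))) ∩ L1 = z i := by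
        rw [union_inter_distrib_right, inter_eq_left.2 (hB.sub _ _ (hz.typ i hi)),
          disjoint_iff_inter_eq_empty.1 (hd.symm.mono_left (bp_co (hσ _ (hκ.1 hi))).1),
          union_empty]
      exact hB.uniq _ _ _ (h2 ▸ h1) (hz.typ i hi)
    exact ⟨_, .refl, bcw_eq_zero.2 fun i hi hh => hθ i hi ((e i hi).symm.trans hh),
      funext fun k => bcw_congr e _⟩
  have key : ∀ R, Relation.ReflTransGen (RS2 (Glue L1 ty1 (tset t) (coTy (tset t) (tyT t))) I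
      fun e => μ e + ν e) (fun i => x i ∪ ((fun i => bpCo t (σ i)) ∘ π) i) R →
      ∀ ρ, BpGood ty1 I μ A c (fun i => R i ∩ L1, ρ) →
      ∀ a', BpFull ty1 I μ (fun i => R i ∩ L1, ρ) a' → BpR ty1 I μ A c (cnt I τ) a' := by
    intro R hR
    induction hR with
    | refl =>
      intro ρ hg a' hf
      exact bp_conf hB hA _ _ rfl hg _ _ (ends x τ π ρ hx hτ hπ hg) hf
    | @tail R R' _ hs ih =>
      intro ρ' hg' a' hf
      obtain ⟨hR, _, i, j, hij⟩ := hs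
      obtain ⟨ρ, hg⟩ := good R hR
      obtain ⟨K, k1, k2, k3⟩ := exists_subsuperset_card_eq (n := 2)
        (show I ∩ {i, j} ⊆ I from inter_subset_left)
        ((card_le_card inter_subset_right).trans card_le_two) (by omega)
      obtain ⟨i', j', hne, rfl⟩ := card_eq_two.1 k3
      obtain ⟨a1, a2, f1, f2, f3⟩ := bp_adj hB hA hc (k2 (by simp)) (k2 (by simp)) hne hg hg'
        fun n hn => by
          have h1 := mem_sdiff.1 hn
          have h2 : R n = R' n := hij n h1.1 (fun hh => h1.2 (k1 (by simp [h1.1, ← hh])))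
            fun hh => h1.2 (k1 (by simp [h1.1, ← hh]))
          have h3 := hg.ts.typ n h1.1
          have h4 := hg'.ts.typ n h1.1
          simp only [h2] at h3 h4 ⊢
          exact ⟨trivial, hB.uniq _ _ _ h3 h4⟩
      exact (ih ρ hg a1 f1).trans (f3.trans (bp_conf hB hA _ _ rfl hg' _ _ f2 hf))
  obtain ⟨ρ, hg⟩ := good _ m1
  exact key _ (hT I _ _ _ m0 m1) ρ hg _ (ends x' τ' π' ρ hx' hτ' hπ' hg)

end Pool.Agent.P.MP_3f5ce9_co
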