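import Pool.Agent.P.MP_3f5ce9_co.W.BGen

/-!
Sequences in a two-sum.
-/

open Finset

namespace Pool.Agent.P.MP_3f5ce9_co

/-- the glued sequence -/
def btwoGl (p : ℕ) (x y : ℕ → Finset ℕ) (i : ℕ) : Finset ℕ := (x i ∪ y i).erase p

/-- the two sequences have the same members with multiplicity -/
def btwoPerm (I : Finset ℕ) (u v : ℕ → Finset ℕ) : Prop :=
  ∀ S, (I.filter fun i => u i = S).card = (I.filter fun i => v i = S).card

theorem btwo_prop {a b c d : Prop} (h3 : a ∨ b ↔ c ∨ d) (h4 : a ∧ b ↔ c ∧ d)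
    (h5 : ¬ ((c ↔ a) ∧ (d ↔ b))) : (c ↔ b) ∧ (d ↔ a) := by
  tauto

theorem btwo_comm (p : ℕ) (x y : ℕ → Finset ℕ) : btwoGl p x y = btwoGl p y x := by
  funext i
  unfold btwoGl
  rw [union_comm]

theorem btwo_bij {I : Finset ℕ} {i j : ℕ} (hi : i ∈ I) (hj : j ∈ I) :
    Set.BijOn (Equiv.swap i j) I I := by
  have hm : ∀ l ∈ I, Equiv.swap i j l ∈ I := fun l hl => by
    rw [Equiv.swap_apply_def]
    split_ifs
    exacts [hj, hi, hl]
  exact ⟨fun l hl => hm l hl, (Equiv.swap i j).injective.injOn,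
    fun l hl => ⟨Equiv.swap i j l, hm l hl, by simp⟩⟩

theorem btwo_perm_swap {I : Finset ℕ} {i j : ℕ} (hi : i ∈ I) (hj : j ∈ I) (u : ℕ → Finset ℕ) :
    btwoPerm I u (u ∘ Equiv.swap i j) := by
  intro S
  have hb := btwo_bij hi hj
  refine card_bij (fun l _ => Equiv.swap i j l) (fun l hl => ?_)
    (fun a _ b _ h => (Equiv.swap i j).injective h) fun l hl => ?_
  · exact mem_filter.2 ⟨hb.1 (mem_filter.1 hl).1, by simpa using (mem_filter.1 hl).2⟩
  · exact ⟨Equiv.swap i j l, mem_filter.2 ⟨hb.1 (mem_filter.1 hl).1, (mem_filter.1 hl).2⟩,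
      by simp⟩

section
variable {𝓑 F1 F2 : Fam} {I : Finset ℕ} {μ μ1 μ2 : ℕ → ℕ} {p : ℕ}

theorem btwo_move
    (hw : ∀ x y, MS F1 I μ1 x → MS F2 I μ2 y → (∀ i ∈ I, p ∈ x i ↔ p ∉ y i) →
      MS 𝓑 I μ (btwoGl p x y))
    {x x' y : ℕ → Finset ℕ} (hr : Relation.ReflTransGen (RS2 F1 I μ1) x x')
    (hy : MS F2 I μ2 y) (hpat : ∀ i ∈ I, p ∈ x i ↔ p ∉ y i) :
    ∃ y', MS F2 I μ2 y' ∧ (∀ i ∈ I, p ∈ x' i ↔ p ∉ y' i) ∧ btwoPerm I y y' ∧
      Relation.ReflTransGen (RS2 𝓑 I μ) (btwoGl p x y) (btwoGl p x' y') := by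
  induction hr with
  | refl => exact ⟨y, hy, hpat, fun _ => rfl, Relation.ReflTransGen.refl⟩
  | @tail u v _ hs ih =>
    obtain ⟨z, hz, hp, hperm, hreach⟩ := ih
    obtain ⟨hu, hv, i, j, hij⟩ := hs
    by_cases hsame : ∀ l ∈ I, (p ∈ v l ↔ p ∈ u l)
    · have hp' : ∀ l ∈ I, p ∈ v l ↔ p ∉ z l := fun l hl => (hsame l hl).trans (hp l hl)
      refine ⟨z, hz, hp', hperm, hreach.tail ⟨hw _ _ hu hz hp, hw _ _ hv hz hp', i, j,
        fun l hl h1 h2 => ?_⟩⟩
      unfold btwoGl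
      rw [hij l hl h1 h2]
    have hi : i ∈ I := by
      by_contra hi
      refine hsame fun l hl => ?_
      rw [hu.eq_of_one (i := j) hv (fun l hl h => hij l hl (fun hh => hi (hh ▸ hl)) h) l hl]
    have hj : j ∈ I := by
      by_contra hj
      refine hsame fun l hl => ?_
      rw [hu.eq_of_one (i := i) hv (fun l hl h => hij l hl h (fun hh => hj (hh ▸ hl))) l hl]
    have hne : i ≠ j := by
      rintro rfl
      refine hsame fun l hl => ?_
      rw [hu.eq_of_one (i := i) hv (fun l hl h => hij l hl h h) l hl]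
    obtain ⟨h1, h2⟩ := hu.same hv hi hj hne hij
    have h3 : p ∈ u i ∪ u j ↔ p ∈ v i ∪ v j := by rw [h1]
    have h4 : p ∈ u i ∩ u j ↔ p ∈ v i ∩ v j := by rw [h2]
    simp only [mem_union, mem_inter] at h3 h4
    have h5 : ¬ ((p ∈ v i ↔ p ∈ u i) ∧ (p ∈ v j ↔ p ∈ u j)) := fun hh => hsame fun l hl => by
      by_cases ha : l = i
      · rw [ha]
        exact hh.1
      by_cases hb : l = j
      · rw [hb]
        exact hh.2
      · rw [hij l hl ha hb]
    have hz' := hz.perm (btwo_bij hi hj)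
    have hp' : ∀ l ∈ I, p ∈ v l ↔ p ∉ (z ∘ Equiv.swap i j) l := fun l hl => by
      have h6 := btwo_prop h3 h4 h5
      by_cases ha : l = i
      · subst ha
        simp only [Function.comp, Equiv.swap_apply_left]
        exact h6.1.trans (hp j hj)
      by_cases hb : l = j
      · subst hb
        simp only [Function.comp, Equiv.swap_apply_right]
        exact h6.2.trans (hp i hi)
      · simp only [Function.comp, Equiv.swap_apply_of_ne_of_ne ha hb]
        rw [← hij l hl ha hb]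
        exact hp l hl
    refine ⟨_, hz', hp', fun S => (hperm S).trans (btwo_perm_swap hi hj z S),
      hreach.tail ⟨hw _ _ hu hz hp, hw _ _ hv hz' hp', i, j, fun l hl h1 h2 => ?_⟩⟩
    unfold btwoGl
    simp only [Function.comp, Equiv.swap_apply_of_ne_of_ne h1 h2]
    rw [hij l hl h1 h2]

theorem btwo_fix
    (hw : ∀ x y, MS F1 I μ1 x → MS F2 I μ2 y → (∀ i ∈ I, p ∈ x i ↔ p ∉ y i) →
      MS 𝓑 I μ (btwoGl p x y))
    {v y : ℕ → Finset ℕ} (hv : MS F1 I μ1 v) (hy : MS F2 I μ2 y)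
    (hpv : ∀ i ∈ I, p ∈ v i ↔ p ∉ y i) (n : ℕ) :
    ∀ u, (I.filter fun i => u i ≠ v i).card ≤ n → MS F1 I μ1 u → (∀ i ∈ I, p ∈ u i ↔ p ∉ y i) →
      btwoPerm I u v → Relation.ReflTransGen (RS2 𝓑 I μ) (btwoGl p u y) (btwoGl p v y) := by
  induction n using Nat.strong_induction_on with
  | _ n ih =>
  intro u hn hu hpu hperm
  by_cases heq : ∀ i ∈ I, u i = v i
  · refine Relation.ReflTransGen.single (RS2.of_eqOn (hw _ _ hu hy hpu) fun i hi => ?_)
    unfold btwoGl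
    rw [heq i hi]
  push Not at heq
  obtain ⟨i, hi, hne⟩ := heq
  obtain ⟨j, hj, hju, hjv⟩ : ∃ j ∈ I, u j = v i ∧ v j ≠ v i := by
    by_contra hc
    push Not at hc
    have h1 : (I.filter fun l => u l = v i) ⊂ I.filter fun l => v l = v i :=
      ⟨fun l hl => mem_filter.2 ⟨(mem_filter.1 hl).1, hc l (mem_filter.1 hl).1
        (mem_filter.1 hl).2⟩, fun hh => hne (mem_filter.1 (hh (mem_filter.2 ⟨hi, rfl⟩))).2⟩
    have h2 := card_lt_card h1
    rw [hperm] at h2
    exact lt_irrefl _ h2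
  have hu' := hu.perm (btwo_bij hi hj)
  have hp' : ∀ l ∈ I, p ∈ (u ∘ Equiv.swap i j) l ↔ p ∉ y l := fun l hl => by
    have h1 := hpu i hi
    have h2 := hpu j hj
    have h3 := hpv i hi
    rw [← hju] at h3
    by_cases ha : l = i
    · subst ha
      simp only [Function.comp, Equiv.swap_apply_left]
      exact h3
    by_cases hb : l = j
    · subst hb
      simp only [Function.comp, Equiv.swap_apply_right]
      exact h1.trans (h3.symm.trans h2)
    · simp only [Function.comp, Equiv.swap_apply_of_ne_of_ne ha hb]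
      exact hpu l hl
  have hlt : (I.filter fun l => (u ∘ Equiv.swap i j) l ≠ v l).card <
      (I.filter fun l => u l ≠ v l).card := by
    refine card_lt_card ⟨fun l hl => ?_, fun hh => ?_⟩
    · obtain ⟨h1, h2⟩ := mem_filter.1 hl
      refine mem_filter.2 ⟨h1, ?_⟩
      by_cases ha : l = i
      · rw [ha]
        exact hne
      by_cases hb : l = j
      · rw [hb, hju]
        exact hjv.symm
      · simpa only [Function.comp, Equiv.swap_apply_of_ne_of_ne ha hb] using h2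
    · have h1 := (mem_filter.1 (hh (mem_filter.2 ⟨hi, hne⟩))).2
      simp only [Function.comp, Equiv.swap_apply_left] at h1
      exact h1 hju
  refine Relation.ReflTransGen.head ⟨hw _ _ hu hy hpu, hw _ _ hu' hy hp', i, j,
    fun l _ h1 h2 => ?_⟩ (ih _ (lt_of_lt_of_le hlt hn) _ le_rfl hu' hp'
      fun S => (btwo_perm_swap hi hj u S).symm.trans (hperm S))
  unfold btwoGl
  simp only [Function.comp, Equiv.swap_apply_of_ne_of_ne h1 h2]

theorem btwo_main (h1 : TEw F1 I μ1) (h2 : TEw F2 I μ2)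
    (hw : ∀ x y, MS F1 I μ1 x → MS F2 I μ2 y → (∀ i ∈ I, p ∈ x i ↔ p ∉ y i) →
      MS 𝓑 I μ (btwoGl p x y))
    {x y x' y' : ℕ → Finset ℕ} (hx : MS F1 I μ1 x) (hy : MS F2 I μ2 y)
    (hp : ∀ i ∈ I, p ∈ x i ↔ p ∉ y i) (hx' : MS F1 I μ1 x') (hy' : MS F2 I μ2 y')
    (hp' : ∀ i ∈ I, p ∈ x' i ↔ p ∉ y' i) :
    Relation.ReflTransGen (RS2 𝓑 I μ) (btwoGl p x y) (btwoGl p x' y') := by
  obtain ⟨z, hz, hpz, _, r1⟩ := btwo_move hw (h1 x x' hx hx') hy hp
  have hw' : ∀ y x, MS F2 I μ2 y → MS F1 I μ1 x → (∀ i ∈ I, p ∈ y i ↔ p ∉ x i) →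
      MS 𝓑 I μ (btwoGl p y x) := fun y x a b c => by
    rw [btwo_comm]
    exact hw x y b a fun i hi => by have := c i hi; tauto
  obtain ⟨w, hw1, hpw, hperm, r2⟩ := btwo_move hw' (h2 z y' hz hy') hx'
    fun i hi => by have := hpz i hi; tauto
  rw [btwo_comm p z, btwo_comm p y'] at r2
  exact r1.trans (r2.trans (btwo_fix hw hx' hy' hp' _ w le_rfl hw1
    (fun i hi => by have := hpw i hi; tauto) fun S => (hperm S).symm))

end

theorem btwo_split {𝓑 𝓑1 𝓑2 : Fam} {E A I : Finset ℕ} {p : ℕ} {μ : ℕ → ℕ} (hp : p ∉ E)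
    (h : ∀ B, 𝓑 B ↔ B ⊆ E ∧ ((𝓑1 (B ∩ A) ∧ 𝓑2 (insert p (B \ A))) ∨
      (𝓑1 (insert p (B ∩ A)) ∧ 𝓑2 (B \ A)))) {P : ℕ → Finset ℕ} (hP : MS 𝓑 I μ P) :
    ∃ (x y : ℕ → Finset ℕ) (k : ℕ),
      MS 𝓑1 I (fun e => if e = p then k else if e ∈ A then μ e else 0) x ∧
      MS 𝓑2 I (fun e => if e = p then I.card - k else if e ∈ A then 0 else μ e) y ∧
      (∀ i ∈ I, p ∈ x i ↔ p ∉ y i) ∧ (∀ i ∈ I, btwoGl p x y i = P i) ∧
      ∑ i ∈ I, (x i).card = ∑ e ∈ A, μ e + k := by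
  have hex : ∀ i, ∃ a b : Finset ℕ, i ∈ I → 𝓑1 a ∧ 𝓑2 b ∧
      ((a = P i ∩ A ∧ b = insert p (P i \ A)) ∨ (a = insert p (P i ∩ A) ∧ b = P i \ A)) := by
    intro i
    by_cases hi : i ∈ I
    · rcases ((h _).1 (hP.mem i hi)).2 with h1 | h1
      · exact ⟨_, _, fun _ => ⟨h1.1, h1.2, Or.inl ⟨rfl, rfl⟩⟩⟩
      · exact ⟨_, _, fun _ => ⟨h1.1, h1.2, Or.inr ⟨rfl, rfl⟩⟩⟩
    · exact ⟨∅, ∅, fun hh => absurd hh hi⟩
  choose x y hxy using hex
  have hpP : ∀ i ∈ I, p ∉ P i := fun i hi hh => hp (((h _).1 (hP.mem i hi)).1 hh)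
  have hpat : ∀ i ∈ I, p ∈ x i ↔ p ∉ y i := fun i hi => by
    have := hpP i hi
    rcases (hxy i hi).2.2 with ⟨h1, h2⟩ | ⟨h1, h2⟩ <;> simp [h1, h2, this]
  have hx : ∀ i ∈ I, ∀ e, e ≠ p → (e ∈ x i ↔ e ∈ P i ∧ e ∈ A) := fun i hi e he => by
    rcases (hxy i hi).2.2 with ⟨h1, h2⟩ | ⟨h1, h2⟩ <;> simp [h1, he]
  have hy : ∀ i ∈ I, ∀ e, e ≠ p → (e ∈ y i ↔ e ∈ P i ∧ e ∉ A) := fun i hi e he => by
    rcases (hxy i hi).2.2 with ⟨h1, h2⟩ | ⟨h1, h2⟩ <;> simp [h2, he]
  refine ⟨x, y, (I.filter fun i => p ∈ x i).card, ⟨fun i hi => (hxy i hi).1, fun e => ?_⟩,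
    ⟨fun i hi => (hxy i hi).2.1, fun e => ?_⟩, hpat, fun i hi => ?_, ?_⟩
  · show _ = if e = p then _ else if e ∈ A then μ e else 0
    split_ifs with h1 h2
    · rw [h1]
    · rw [← hP.wt e]
      exact congrArg card (filter_congr fun i hi => by simp [hx i hi e h1, h2])
    · rw [card_eq_zero, filter_eq_empty_iff]
      exact fun i hi hh => h2 ((hx i hi e h1).1 hh).2
  · show _ = if e = p then _ else if e ∈ A then 0 else μ e
    split_ifs with h1 h2
    · rw [h1]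
      have h3 := card_filter_add_card_filter_not (s := I) fun i => p ∈ x i
      have h4 : (I.filter fun i => p ∈ y i) = I.filter fun i => ¬ p ∈ x i :=
        filter_congr fun i hi => by have := hpat i hi; tauto
      rw [h4]
      omega
    · rw [card_eq_zero, filter_eq_empty_iff]
      exact fun i hi hh => ((hy i hi e h1).1 hh).2 h2
    · rw [← hP.wt e]
      exact congrArg card (filter_congr fun i hi => by simp [hy i hi e h1, h2])
  · ext e
    unfold btwoGl
    rw [mem_erase, mem_union]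
    constructor
    · rintro ⟨h1, h2 | h2⟩
      · exact ((hx i hi e h1).1 h2).1
      · exact ((hy i hi e h1).1 h2).1
    · intro h1
      have h2 : e ≠ p := fun hh => hpP i hi (hh ▸ h1)
      refine ⟨h2, ?_⟩
      rw [hx i hi e h2, hy i hi e h2]
      tauto
  · rw [← hP.sum_card A, card_filter, ← sum_add_distrib]
    refine sum_congr rfl fun i hi => ?_
    have h0 : p ∉ P i ∩ A := fun hh => hpP i hi (mem_inter.1 hh).1
    rcases (hxy i hi).2.2 with ⟨h1, _⟩ | ⟨h1, _⟩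
    · rw [h1, if_neg h0, add_zero]
    · rw [h1, if_pos (mem_insert_self _ _), card_insert_of_notMem h0]

theorem TE.two_sum {𝓑 𝓑1 𝓑2 : Fam} {E A : Finset ℕ} {p : ℕ} (hp : p ∉ E) (hA : A ⊆ E)
    (h1 : TE 𝓑1) (h2 : TE 𝓑2) (hc : ∀ B B', 𝓑1 B → 𝓑1 B' → B.card = B'.card)
    (h : ∀ B, 𝓑 B ↔ B ⊆ E ∧ ((𝓑1 (B ∩ A) ∧ 𝓑2 (insert p (B \ A))) ∨
      (𝓑1 (insert p (B ∩ A)) ∧ 𝓑2 (B \ A)))) : TE 𝓑 := by
  intro I μ P Q hP hQ
  obtain ⟨x, y, k, hx, hy, hpat, hgl, hk⟩ := btwo_split hp h hP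
  obtain ⟨x', y', k', hx', hy', hpat', hgl', hk'⟩ := btwo_split hp h hQ
  have hkk : k' = k := by
    have : ∑ i ∈ I, (x i).card = ∑ i ∈ I, (x' i).card :=
      sum_congr rfl fun i hi => hc _ _ (hx.mem i hi) (hx'.mem i hi)
    omega
  subst hkk
  have hμ : ∀ e, e ∉ E → μ e = 0 := fun e he => by
    rw [← hP.wt e, card_eq_zero, filter_eq_empty_iff]
    exact fun i hi hh => he (((h _).1 (hP.mem i hi)).1 hh)
  have hw : ∀ u v, MS 𝓑1 I (fun e => if e = p then k' else if e ∈ A then μ e else 0) u →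
      MS 𝓑2 I (fun e => if e = p then I.card - k' else if e ∈ A then 0 else μ e) v →
      (∀ i ∈ I, p ∈ u i ↔ p ∉ v i) → MS 𝓑 I μ (btwoGl p u v) := by
    intro u v hu hv huv
    have ha : ∀ i ∈ I, ∀ e ∈ u i, e ≠ p → e ∈ A := fun i hi e he hep => by
      by_contra hh
      exact hu.not_mem hi (by simp [hep, hh]) he
    have hb : ∀ i ∈ I, ∀ e ∈ v i, e ≠ p → e ∉ A := fun i hi e he hep hh =>
      hv.not_mem hi (by simp [hep, hh]) he
    have hb' : ∀ i ∈ I, ∀ e ∈ v i, e ≠ p → e ∈ E := fun i hi e he hep => by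
      by_contra hh
      exact hv.not_mem hi (by simp [hep, hμ e hh]) he
    refine ⟨fun i hi => (h _).2 ⟨fun e he => ?_, ?_⟩, fun e => ?_⟩
    · obtain ⟨h3, h4⟩ := mem_erase.1 he
      rcases mem_union.1 h4 with h4 | h4
      · exact hA (ha i hi e h4 h3)
      · exact hb' i hi e h4 h3
    · have e1 : btwoGl p u v i ∩ A = (u i).erase p := by
        ext e
        have := ha i hi e
        have := hb i hi e
        simp only [btwoGl, mem_inter, mem_erase, mem_union]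
        tauto
      have e2 : btwoGl p u v i \ A = (v i).erase p := by
        ext e
        have := ha i hi e
        have := hb i hi e
        simp only [btwoGl, mem_sdiff, mem_erase, mem_union]
        tauto
      rw [e1, e2]
      by_cases hpu : p ∈ u i
      · right
        rw [insert_erase hpu, erase_eq_of_notMem ((huv i hi).1 hpu)]
        exact ⟨hu.mem i hi, hv.mem i hi⟩
      · left
        have hpv : p ∈ v i := by
          by_contra hh
          exact hpu ((huv i hi).2 hh)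
        rw [insert_erase hpv, erase_eq_of_notMem hpu]
        exact ⟨hu.mem i hi, hv.mem i hi⟩
    · by_cases hep : e = p
      · subst hep
        rw [hμ e hp, card_eq_zero, filter_eq_empty_iff]
        exact fun i _ hh => (mem_erase.1 hh).1 rfl
      by_cases heA : e ∈ A
      · have h3 := hu.wt e
        simp only [hep, heA, if_true, if_false] at h3
        rw [← h3]
        refine congrArg card (filter_congr fun i hi => ?_)
        have := hb i hi e
        simp only [btwoGl, mem_erase, mem_union]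
        tauto
      · have h3 := hv.wt e
        simp only [hep, heA, if_false] at h3
        rw [← h3]
        refine congrArg card (filter_congr fun i hi => ?_)
        have := ha i hi e
        simp only [btwoGl, mem_erase, mem_union]
        tauto
  have r := btwo_main (h1 I _) (h2 I _) hw hx hy hpat hx' hy' hpat'
  exact Relation.ReflTransGen.head (RS2.of_eqOn hP fun i hi => (hgl i hi).symm)
    (r.tail (RS2.of_eqOn (hw _ _ hx' hy' hpat') hgl'))

end Pool.Agent.P.MP_3f5ce9_co
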