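import Pool.Agent.P.MP_3f5ce9_co.W.BPar
import Pool.Agent.P.MP_3f5ce9_co.W.BTwo
import Pool.Agent.P.MP_3f5ce9_co.W.TriD
import Pool.Agent.P.MP_3f5ce9_co.Seq
import Pool.Agent.P.MP_3f5ce9_co.Mat

/-!
Reductions for sequences: graphic, cographic, products, two-sums.
-/

open Finset

namespace Pool.Agent.P.MP_3f5ce9_co

namespace BM

variable {M : BM} {I A : Finset ℕ} {μ : ℕ → ℕ}

theorem br_cnt (S : I → Finset ℕ) (e : ℕ) :
    (I.filter fun l => e ∈ (if h : l ∈ I then S ⟨l, h⟩ else ∅)).card =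
      (univ.filter fun i => e ∈ S i).card := by
  rw [← card_map (Function.Embedding.subtype _) (s := univ.filter fun i => e ∈ S i)]
  congr 1
  ext l
  simp only [mem_filter, mem_map, mem_univ, true_and, Function.Embedding.coe_subtype]
  exact ⟨fun ⟨h1, h2⟩ => ⟨⟨l, h1⟩, by simpa [h1] using h2, rfl⟩,
    fun ⟨a, h1, h2⟩ => h2 ▸ ⟨a.2, by simpa using h1⟩⟩

theorem br_ms {𝓑 : Fam} {S : I → Finset ℕ} (h : ∀ i, 𝓑 (S i))
    (hc : ∀ e, (univ.filter fun i => e ∈ S i).card = μ e) :
    MS 𝓑 I μ fun l => if h : l ∈ I then S ⟨l, h⟩ else ∅ :=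
  ⟨fun l hl => by simpa [hl] using h _, fun e => (br_cnt S e).trans (hc e)⟩

theorem br_step {𝓑 : Fam} {S T : I → Finset ℕ} (hS : ∀ i, 𝓑 (S i))
    (hcard : ∀ F F', 𝓑 F → 𝓑 F' → F.card = F'.card) (h : UAny 𝓑 S T) :
    ∃ i j : I, i ≠ j ∧ 𝓑 (T i) ∧ 𝓑 (T j) ∧ Same (S i) (S j) (T i) (T j) ∧
      T = Function.update (Function.update S i (T i)) j (T j) := by
  have hT := h.all hS
  obtain ⟨i, j, hij, x, y, hx, hy, hu, e⟩ := h
  have e1 : T i = insert y ((S i).erase x) := by simp [e, hij]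
  have e2 : T j = insert x ((S j).erase y) := by simp [e]
  refine ⟨i, j, hij, hT i, hT j, ?_, by rw [e1, e2]; exact e⟩
  have c1 := hcard _ _ (hT i) (hS i)
  have c2 := hcard _ _ (hT j) (hS j)
  rw [e1] at c1
  rw [e2] at c2
  have d1 : y ∉ (S i).erase x := fun h => by
    rw [insert_eq_of_mem h] at c1
    exact (card_erase_lt_of_mem hx).ne c1
  have d2 : x ∉ (S j).erase y := fun h => by
    rw [insert_eq_of_mem h] at c2
    exact (card_erase_lt_of_mem hy).ne c2
  rw [e1, e2]
  simp only [mem_erase, not_and] at d1 d2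
  constructor <;> ext z <;> simp only [mem_union, mem_inter, mem_insert, mem_erase] <;>
    by_cases a : z = x <;> by_cases b : z = y <;> grind

theorem te_tr (G : Gr ℕ ℕ) (X : Finset ℕ) : TE (G.Tr X) := by
  intro I μ
  by_cases hI : I.card ≤ 2
  · exact TEw.of_card_le hI
  intro P Q hP hQ
  have : Nontrivial I := Fintype.one_lt_card_iff_nontrivial.1 (by rw [Fintype.card_coe]; omega)
  have e : ∀ P : ℕ → Finset ℕ, ∀ l ∈ I,
      P l = if h : l ∈ I then (fun i : I => P i) ⟨l, h⟩ else ∅ := fun P l hl => by simp [hl]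
  have c : ∀ P, MS (G.Tr X) I μ P → ∀ x, (univ.filter fun i : I => x ∈ P i).card = μ x :=
    fun P hP x => (br_cnt (fun i : I => P i) x).symm.trans ((hP.congr (e P)).wt x)
  have hr := Gr.uany_tr (S := fun i : I => P i) (T := fun i : I => Q i)
    (fun i => hP.mem i i.2) (fun i => hQ.mem i i.2) fun x => (c P hP x).trans (c Q hQ x).symm
  have key : ∀ T : I → Finset ℕ, Relation.ReflTransGen (UAny (G.Tr X)) (fun i : I => P i) T →
      (∀ i, G.Tr X (T i)) ∧ MS (G.Tr X) I μ (fun l => if h : l ∈ I then T ⟨l, h⟩ else ∅) ∧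
      Relation.ReflTransGen (RS2 (G.Tr X) I μ) P
        fun l => if h : l ∈ I then T ⟨l, h⟩ else ∅ := by
    intro T hT
    induction hT with
    | refl =>
      exact ⟨fun i => hP.mem i i.2, hP.congr (e P),
        Relation.ReflTransGen.single (RS2.of_eqOn hP (e P))⟩
    | @tail S T _ hs ih =>
      obtain ⟨a1, a2, a3⟩ := ih
      obtain ⟨i, j, hij, b1, b2, b3, b4⟩ := br_step a1 (fun F F' h1 h2 => by
        have := h1.card
        have := h2.card
        omega) hs
      have b5 := a2.update2 i.2 j.2 (fun h => hij (Subtype.ext h)) b1 b2 (by simpa using b3)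
      have b6 : ∀ l ∈ I, Function.update (Function.update
          (fun l => if h : l ∈ I then S ⟨l, h⟩ else ∅) i (T i)) j (T j) l =
          if h : l ∈ I then T ⟨l, h⟩ else ∅ := by
        intro l hl
        by_cases a : l = j
        · simp [a]
        by_cases b : l = i
        · subst b
          simp [a]
        rw [Function.update_of_ne a, Function.update_of_ne b, dif_pos hl, dif_pos hl, b4,
          Function.update_of_ne fun h => a (congrArg Subtype.val h),
          Function.update_of_ne fun h => b (congrArg Subtype.val h)]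
      exact ⟨hs.all a1, b5.2.1.congr b6, (a3.tail b5).tail (RS2.of_eqOn b5.2.1 b6)⟩
  obtain ⟨-, k1, k2⟩ := key _ hr
  exact k2.tail (RS2.of_eqOn k1 fun l hl => (e Q l hl).symm)

theorem Graphic.te (h : M.Graphic) : TE M.IsBase := by
  obtain ⟨G, X, hn, hG⟩ := h.exists_norm
  intro I μ P Q hP hQ
  refine TEw.of_support (S := M.E) (te_tr G X I μ) (fun e he => ?_) (fun B hB => ?_) P Q hP hQ
  · rw [← hP.wt e, card_eq_zero, filter_eq_empty_iff]
    exact fun i hi h1 => he ((hP.mem i hi).subset h1)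
  · have := isBase_gm (B := B) hn
    rw [← hG] at this
    rw [this, and_iff_right hB]

theorem te_dual (h : TE M.dual.IsBase) : TE M.IsBase := by
  refine h.compl (E := M.E) fun B => ?_
  have := isBase_dual (M := M.dual) (B := B)
  rwa [dual_dual] at this

theorem Cographic.te (h : M.Cographic) : TE M.IsBase := by
  exact te_dual (Graphic.te (cographic_iff.1 h))

theorem te_pull {π : ℕ → ℕ} {X : Finset ℕ} (h : TE M.IsBase) (hπ : X.image π = M.E) :
    TE (M.pull π X).IsBase := by
  exact h.pull fun B => isBase_pull (fun x hx => hπ ▸ mem_image_of_mem π hx) (by rw [hπ])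

theorem br_prod (h1 : TE (M.res A).IsBase) (h2 : TE (M.con A).IsBase)
    (ht : ∀ P, MS M.IsBase I μ P → ∀ i ∈ I, (P i ∩ A).card = M.r A) : TEw M.IsBase I μ := by
  refine TEw.prod (A := A) (h1 _ _) (h2 _ _) (fun P hP i hi => ?_) fun B1 B2 b1 b2 _ _ => ?_
  · have a1 := (hP.mem i hi).1.subset (inter_subset_left (s₂ := A))
    refine ⟨isBase_res.2 ⟨a1, inter_subset_right, ht P hP i hi⟩,
      (isBase_con a1 inter_subset_right (ht P hP i hi)).2 ⟨sdiff_disjoint, ?_⟩⟩
    rw [sdiff_union_inter]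
    exact hP.mem i hi
  · obtain ⟨a1, a2, a3⟩ := isBase_res.1 b1
    rw [union_comm]
    exact ((isBase_con a1 a2 a3).1 b2).2

theorem tew_tight (h1 : TE (M.res A).IsBase) (h2 : TE (M.con A).IsBase) (hA : A ⊆ M.E)
    (ht : I.card * M.r A ≤ ∑ e ∈ A, μ e) : TEw M.IsBase I μ := by
  refine br_prod h1 h2 fun P hP => ?_
  have a1 : ∀ i ∈ I, (P i ∩ A).card ≤ M.r A := fun i hi => (hP.mem i hi).card_inter_le A
  refine (sum_eq_sum_iff_of_le a1).1 (le_antisymm (sum_le_sum a1) ?_)
  rwa [hP.sum_card, sum_const, smul_eq_mul]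

theorem te_of_lam_zero (h1 : TE (M.res A).IsBase) (h2 : TE (M.con A).IsBase) (hA : A ⊆ M.E)
    (h : M.lam A = 0) : TE M.IsBase := by
  refine fun I μ => br_prod h1 h2 fun P hP i hi => ?_
  have hB := hP.mem i hi
  have a1 := hB.card_inter_le A
  have a2 := hB.card_inter_le (M.E \ A)
  have a3 := M.lam_add A
  have a4 := card_sdiff_add_card_inter (P i) A
  rw [← inter_sdiff_assoc, inter_eq_left.2 hB.subset] at a2
  have a5 := hB.2
  omega

theorem te_of_not_conn3 (ih : IHB M.E.card) (hr : M.Reg) (h : ¬ M.Conn3) : TE M.IsBase := by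
  simp only [Conn3, not_forall, not_le] at h
  obtain ⟨X, hX, h⟩ := h
  have a1 := card_sdiff_add_card_eq_card hX
  rcases (by omega : M.lam X = 0 ∨ M.lam X = 1) with h0 | h0
  · refine te_of_lam_zero (ih _ (hr.res X) ?_) (ih _ (hr.con X) ?_) hX h0
    · rw [res_E, inter_eq_right.2 hX]
      omega
    · rw [con_E]
      omega
  · obtain ⟨P, p, hp, -, -, m1, m2, hb⟩ := exists_plus2 hX h0
    refine TE.two_sum hp hX (ih _ (m1.reg hr) ?_) (ih _ (m2.reg hr) ?_)
      (fun B B' b1 b2 => b1.2.trans b2.2.symm) hb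
    · have := (card_le_card (inter_subset_right (s₁ := P.E))).trans (card_insert_le p X)
      rw [res_E]
      omega
    · have := (card_le_card (inter_subset_right (s₁ := P.E))).trans (card_insert_le p (M.E \ X))
      rw [res_E]
      omega

end BM

end Pool.Agent.P.MP_3f5ce9_co
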