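import Pool.Agent.P.MP_3f5ce9_co.W.BPath
import Pool.Agent.P.MP_3f5ce9_co.W.XB
import Pool.Agent.P.MP_3f5ce9_co.W.BRed

/-!
The rich case of the induction for sequences.
-/

open Finset

namespace Pool.Agent.P.MP_3f5ce9_co

section Abstract

variable {L1 L2 I : Finset ℕ} {ty1 ty2 : Typing} {t : Fin 3 → ℕ} {μ1 μ2 : ℕ → ℕ}
  {x y x' y' : ℕ → Finset ℕ} {τ σ τ' σ' : ℕ → Tp} {A : ℕ}

theorem ri_cnt (K : Finset (Fin 3)) (σ : ℕ → Tp) :
    (I.filter fun i => ∃ j ∈ K, σ i = .p j).card = ∑ j ∈ K, cnt I σ j := by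
  simp only [cnt]
  rw [← card_biUnion fun j _ l _ h => disjoint_left.2 fun i a b =>
    h (Tp.p.inj ((mem_filter.1 a).2.symm.trans (mem_filter.1 b).2))]
  congr 1
  ext i
  simp only [mem_filter, mem_biUnion]
  tauto

theorem ri_ex (h : ∑ k, cnt I σ k < I.card) : ∃ i ∈ I, σ i = .z ∨ σ i = .u := by
  by_contra hn
  rw [← ri_cnt, filter_true_of_mem] at h
  · exact lt_irrefl _ h
  · intro i hi
    rcases e : σ i with _ | j | _
    · exact (hn ⟨i, hi, Or.inl e⟩).elim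
    · exact ⟨j, mem_univ _, rfl⟩
    · exact (hn ⟨i, hi, Or.inr e⟩).elim

theorem ri_nz (h : GS ty1 ty2 I μ1 μ2 x y τ σ) (hτ : ∀ i ∈ I, τ i ≠ .u) : ∀ i ∈ I, σ i ≠ .z := by
  intro i hi e
  have h1 := h.compat i hi
  have h2 := hτ i hi
  rw [e] at h1
  rcases e' : τ i with _ | j | _ <;> simp_all [Tp.compat]

theorem ri_dim {a b : Tp} (h : a.compat b = true) : a.dim + b.dim = 2 := by
  rcases a with _ | j | _ <;> rcases b with _ | j | _ <;> simp_all [Tp.compat, Tp.dim]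

theorem ri_swap (h : GS ty1 ty2 I μ1 μ2 x y τ σ) : GS ty2 ty1 I μ2 μ1 y x σ τ :=
  ⟨h.right, h.left, fun i hi => by
    have := h.compat i hi
    rwa [tc_compat] at this⟩

/-- the hypotheses on the two sides -/
structure RiH (L1 L2 I : Finset ℕ) (ty1 ty2 : Typing) (t : Fin 3 → ℕ) (A : ℕ) : Prop where
  hI : 3 ≤ I.card
  b1 : BSide L1 ty1
  b2 : BSide L2 ty2
  d : Disjoint L1 L2
  inj : Function.Injective t
  d1 : Disjoint L1 (tset t)
  d2 : Disjoint L2 (tset t)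
  t1 : TE (Glue L1 ty1 (tset t) (coTy (tset t) (tyT t)))
  t2 : TE (Glue L2 ty2 (tset t) (tyT t))
  lt : A < I.card

theorem RiH.link (H : RiH L1 L2 I ty1 ty2 t A) (h : GS ty1 ty2 I μ1 μ2 x y τ σ)
    (h' : GS ty1 ty2 I μ1 μ2 x' y' τ' σ') (hτ : ∀ i ∈ I, τ i ≠ .u) (hτ' : ∀ i ∈ I, τ' i ≠ .u)
    (a : ∑ k, cnt I τ k = A) (a' : ∑ k, cnt I τ' k = A) (hc : ∀ k, cnt I τ' k + cnt I σ k ≤ A) :
    Relation.ReflTransGen (Sh (Glue L1 ty1 L2 ty2) I fun e => μ1 e + μ2 e)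
      (fun i => x i ∪ y i) fun i => x' i ∪ y' i := by
  have hσ := ri_nz h hτ
  have b : ∑ k, cnt I σ k = A := (cnt_add_le h.compat 0).2.symm.trans a
  obtain ⟨π, hπ, hcomp⟩ := cc hτ' hσ a' b hc
  have g : GS ty1 ty2 I μ1 μ2 x' (y ∘ π) τ' (σ ∘ π) := ⟨h'.left, h.right.perm hπ, hcomp⟩
  obtain ⟨i, hi, e⟩ := ri_ex (b.trans_lt H.lt)
  obtain ⟨j, hj, e'⟩ := ri_ex (a'.trans_lt H.lt)
  refine (lemS_co H.hI H.b1.toMSide H.b2 H.d H.inj H.d1 H.t1 hσ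
    ⟨i, hi, e.resolve_left (hσ i hi)⟩ hπ h g).trans ?_
  have := lemS (π := id) H.hI H.b2.toMSide H.b1 H.d.symm H.inj H.d2 H.t2 hτ'
    ⟨j, hj, e'.resolve_right (hτ' j hj)⟩ (Set.bijOn_id _) (ri_swap g) (ri_swap h')
  rw [glue_comm] at this
  simpa only [add_comm (μ2 _), union_comm (x' _), Function.comp, id] using this

theorem RiH.path (H : RiH L1 L2 I ty1 ty2 t A) {c a b : Fin 3 → ℕ}
    (hx : ∀ a b, ∑ k, a k = A → ∑ k, b k = A → (∀ k, a k + c k ≤ A) → (∀ k, b k + c k ≤ A) →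
      Close A a b → ∃ y σ, TS ty2 I μ2 y σ ∧ (∀ i ∈ I, σ i ≠ .z) ∧ ∑ k, cnt I σ k = A ∧
        ∀ k, a k + cnt I σ k ≤ A ∧ b k + cnt I σ k ≤ A)
    (p : Relation.ReflTransGen
      (fun a b => Box ty1 I μ1 A c a ∧ Box ty1 I μ1 A c b ∧ Close A a b) a b)
    (h : GS ty1 ty2 I μ1 μ2 x y τ σ) (hτ : ∀ i ∈ I, τ i ≠ .u) (e : cnt I τ = a)
    (ha : ∑ k, a k = A) : ∀ x' y' τ' σ', GS ty1 ty2 I μ1 μ2 x' y' τ' σ' → (∀ i ∈ I, τ' i ≠ .u) →
      cnt I τ' = b → Relation.ReflTransGen (Sh (Glue L1 ty1 L2 ty2) I fun e => μ1 e + μ2 e)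
        (fun i => x i ∪ y i) fun i => x' i ∪ y' i := by
  subst e
  induction p with
  | refl =>
    intro x' y' τ' σ' h' hτ' e'
    exact H.link h h' hτ hτ' ha (e' ▸ ha) fun k => e' ▸ ha ▸ (cnt_add_le h.compat k).1
  | tail _ s ih =>
    rintro x' y' τ' σ' h' hτ' rfl
    obtain ⟨⟨⟨x1, τ1, g1, g2, rfl⟩, g3, g4⟩, ⟨-, g5, g6⟩, g7⟩ := s
    obtain ⟨y1, σ1, f1, f2, f3, f4⟩ := hx _ _ g3 g5 g4 g6 g7
    obtain ⟨π, hπ, hc⟩ := cc g2 f2 g3 f3 fun k => (f4 k).1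
    have g : GS ty1 ty2 I μ1 μ2 x1 (y1 ∘ π) τ1 (σ1 ∘ π) := ⟨g1, f1.perm hπ, hc⟩
    exact (ih _ _ _ _ g g2 rfl).trans
      (H.link g h' g2 hτ' g3 g5 fun k => by rw [cnt_perm hπ]; exact (f4 k).2)

end Abstract

section Graph

variable {G : Gr ℕ ℕ} {X L I Y F : Finset ℕ} {ρ : Fin 3 → ℕ} {μ : ℕ → ℕ} {y : ℕ → Finset ℕ}
  {σ : ℕ → Tp}

theorem ri_two (h : G.Acyc F) {u w : ℕ} (hu : u ∈ Y) (hw : w ∈ Y) (hn : ¬ G.Conn F u w) :
    (G.ind F Y).card + 2 ≤ Y.card := by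
  classical
  have h1 := h.card_ind (X := Y.filter fun z => G.Conn F u z)
    ⟨u, mem_filter.2 ⟨hu, Gr.Conn.refl _ _ _⟩⟩
  have h2 := h.card_ind (X := Y.filter fun z => ¬ G.Conn F u z) ⟨w, mem_filter.2 ⟨hw, hn⟩⟩
  have h3 := card_filter_add_card_filter_not (s := Y) fun z => G.Conn F u z
  have h4 : G.ind F Y ⊆ G.ind F (Y.filter fun z => G.Conn F u z) ∪
      G.ind F (Y.filter fun z => ¬ G.Conn F u z) := by
    intro e he
    have := G.closed_comp F u e (Gr.mem_ind.1 he).1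
    simp only [mem_union, Gr.mem_ind, mem_filter, Set.mem_ofPred_eq] at *
    tauto
  have h5 := (card_le_card h4).trans (card_union_le _ _)
  omega

theorem ri_sum (h : TS (GTy G X ρ L) I μ y σ) (S : Finset ℕ) :
    ∑ i ∈ I, (y i ∩ S).card = ∑ e ∈ S, μ e :=
  MS.sum_card (𝓑 := fun _ => True) ⟨fun _ _ => trivial, h.wt⟩ S

theorem ri_slack (h : TS (GTy G X ρ L) I μ y σ) (hY : Y.Nonempty) (K : Finset (Fin 3))
    (hK : ∀ j ∈ K, ∃ k l, ρ k ∈ Y ∧ ρ l ∈ Y ∧ (Tp.p j).lnk k l = false) :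
    Slack G L μ I.card Y (∑ j ∈ K, cnt I σ j) := by
  rw [Slack, ← ri_sum h, ← ri_cnt, card_filter, card_eq_sum_ones I, ← sum_add_distrib,
    ← sum_add_distrib, sum_mul]
  refine sum_le_sum fun i hi => ?_
  obtain ⟨h1, h2, -, h3⟩ := h.typ i hi
  have e : y i ∩ G.ind L Y = G.ind (y i) Y := by
    ext e
    simp only [mem_inter, Gr.mem_ind]
    exact ⟨fun a => ⟨a.1, a.2.2⟩, fun a => ⟨a.1, h1 a.1, a.2⟩⟩
  rw [e, one_mul]
  split_ifs with a
  · obtain ⟨j, hj, a⟩ := a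
    obtain ⟨k, l, b1, b2, b3⟩ := hK j hj
    exact ri_two h2 b1 b2 (by rw [h3, a, b3]; decide)
  · exact h2.card_ind hY

theorem ri_slack2 (h : TS (GTy G X ρ L) I μ y σ) (k : Fin 3) (h1 : ρ (k + 1) ∈ Y)
    (h2 : ρ (k + 2) ∈ Y) : Slack G L μ I.card Y (∑ j, cnt I σ j - cnt I σ k) := by
  rw [← add_sum_erase _ _ (mem_univ k), add_tsub_cancel_left]
  have e : ∀ j k : Fin 3, j ≠ k → (Tp.p j).lnk (k + 1) (k + 2) = false := by decide
  exact ri_slack h ⟨_, h1⟩ _ fun j hj => ⟨_, _, h1, h2, e _ _ (ne_of_mem_erase hj)⟩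

end Graph

namespace BM

theorem Core.sc_rich {N : BM} {t ρ : Fin 3 → ℕ} {L1 L X I : Finset ℕ} {G : Gr ℕ ℕ} {μ : ℕ → ℕ}
    (h : N.Core t L1) (hR : Rooted G X ρ L) (ht : TriAt G ρ t) (hd : Disjoint L (L1 ∪ tset t))
    (hI : 3 ≤ I.card) (hrich : I.card * X.card < ∑ e ∈ L, μ e + 2 * I.card)
    (h1 : ∀ Y ⊆ X, 2 ≤ Y.card → (∀ i j, ρ i ∈ Y → ρ j ∈ Y → i = j) → Slack G L μ I.card Y 1) :
    SC (Glue L1 (N.HasTy t L1) L (GTy G X ρ L)) I μ := by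
  intro P Q hP hQ
  have d1 : Disjoint L1 L := (disjoint_union_right.1 hd).1.symm
  have d2 : Disjoint L (tset t) := (disjoint_union_right.1 hd).2
  obtain ⟨τ0, σ0, g0, eP, eμ⟩ := hP.exists_gs d1
  obtain ⟨τ1, σ1, g1, eQ, -⟩ := hQ.exists_gs d1
  set μ1 := fun e => if e ∈ L1 then μ e else 0
  set μ2 := fun e => if e ∈ L then μ e else 0 with hμ2
  obtain ⟨i0, hi0⟩ : I.Nonempty := card_pos.1 (by omega)
  have hn := (g0.right.typ i0 hi0).norm hR ht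
  have tri : (gm G (L ∪ tset t)).IsTri t := isTri_gm hR.inj ht subset_union_right
  have b1 : BSide L1 (N.HasTy t L1) :=
    bSide_hasTy h.tri (h.ground ▸ subset_union_left) h.disj h.reg
  have b2 : BSide L (GTy G X ρ L) :=
    hasTy_gm hR ht d2 hn ▸ bSide_hasTy tri subset_union_left d2 (reg_gm _ _)
  have t2 : TE (Glue L (GTy G X ρ L) (tset t) (tyT t)) := by
    rw [← hasTy_gm hR ht d2 hn, ← isBase_labels tri rfl d2]
    exact (graphic_gm _ _).te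
  set A := ∑ i ∈ I, (τ0 i).dim with hA
  have sμ : ∀ S ⊆ L, ∑ e ∈ S, μ2 e = ∑ e ∈ S, μ e := fun S hS =>
    sum_congr rfl fun e he => if_pos (hS he)
  have tot : ∑ e ∈ L, μ2 e + A + I.card = I.card * X.card := by
    rw [← ri_sum g0.right, hA, card_eq_sum_ones I, ← sum_add_distrib, ← sum_add_distrib, sum_mul]
    refine sum_congr rfl fun i hi => ?_
    have a1 := (g0.right.typ i hi).card hR
    have a2 := ri_dim (g0.compat i hi)
    rw [inter_assoc, inter_self]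
    omega
  have lt : A < I.card := by rw [← sμ L Subset.rfl] at hrich; omega
  have H : RiH L1 L I _ _ t A := ⟨hI, b1, b2, d1, h.tri.inj, h.disj, d2, h.colab, t2, lt⟩
  have eA := g1.left.sum_dim b1.toMSide g0.left
  obtain ⟨x, y, τ, σ, g, hτ, r⟩ := g0.normalize b1 b2 d1 lt.le
  obtain ⟨x', y', τ', σ', g', hτ', r'⟩ := g1.normalize b1 b2 d1 (eA.trans_le lt.le)
  have a : ∑ k, cnt I τ k = A := (sum_cnt_of_ne_u hτ).trans (g.left.sum_dim b1.toMSide g0.left)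
  have a' : ∑ k, cnt I τ' k = A := (sum_cnt_of_ne_u hτ').trans (g'.left.sum_dim b1.toMSide g0.left)
  have b : ∑ k, cnt I σ k = A := (cnt_add_le g.compat 0).2.symm.trans a
  have b' : ∑ k, cnt I σ' k = A := (cnt_add_le g'.compat 0).2.symm.trans a'
  have main : Relation.ReflTransGen (Sh (Glue L1 (N.HasTy t L1) L (GTy G X ρ L)) I
      fun e => μ1 e + μ2 e) (fun i => x i ∪ y i) fun i => x' i ∪ y' i := by
    classical
    have ex : ∀ k, ∃ n, ∀ Y ⊆ X, ρ (k + 1) ∈ Y → ρ (k + 2) ∈ Y → Slack G L μ2 I.card Y (A - n) :=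
      fun k => ⟨_, fun Y _ a1 a2 => b ▸ ri_slack2 g.right k a1 a2⟩
    have c1 : ∀ k, Nat.find (ex k) ≤ cnt I σ k := fun k =>
      Nat.find_min' _ fun Y _ a1 a2 => b ▸ ri_slack2 g.right k a1 a2
    have c2 : ∀ k, Nat.find (ex k) ≤ cnt I σ' k := fun k =>
      Nat.find_min' _ fun Y _ a1 a2 => b' ▸ ri_slack2 g'.right k a1 a2
    have e0 : ∀ j : Fin 3, (Tp.p j).lnk j (j + 1) = false := by decide
    have k1 := fun k => (cnt_add_le g.compat k).1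
    have k2 := fun k => (cnt_add_le g'.compat k).1
    rcases lt_or_ge (∑ k, Nat.find (ex k)) A with hc | hc
    · refine H.path (c := fun k => Nat.find (ex k)) (fun u v u1 v1 u2 v2 => x_close hR
        (fun e he => if_neg he) lt.le tot
        (fun Y _ hY => by simpa using ri_slack g.right hY ∅ (by simp))
        (fun Y hY a1 a2 => ?_) (fun k => Nat.find_spec (ex k))
        (fun Y _ hY => b ▸ ri_slack g.right ⟨_, hY 0⟩ _ fun j _ =>
          ⟨j, j + 1, hY _, hY _, e0 j⟩) hc u1 v1 u2 v2)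
        (box_path b1 H.inj h.disj h.colab lt hc
          ⟨⟨x, τ, g.left, hτ, rfl⟩, a, fun k => (Nat.add_le_add_left (c1 k) _).trans ((k1 k).trans a.le)⟩
          ⟨⟨x', τ', g'.left, hτ', rfl⟩, a', fun k => (Nat.add_le_add_left (c2 k) _).trans ((k2 k).trans a'.le)⟩)
        g hτ rfl a _ _ _ _ g' hτ' rfl
      have := h1 Y hY a1 a2
      rwa [Slack, ← sμ _ (G.ind_subset _ _)] at this
    · refine H.link g g' hτ hτ' a a' fun k => ?_
      have := c1 0; have := c1 1; have := c1 2; have := c2 0; have := c2 1; have := c2 2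
      have := k2 0; have := k2 1; have := k2 2
      simp only [Fin.sum_univ_three] at *
      fin_cases k <;> simp only [Fin.zero_eta, Fin.mk_one, Fin.reduceFinMk] <;> omega
  rw [← eμ] at main r r'
  exact ((rs2_reach_sh (.head (RS2.of_eqOn hP eP) r) hI).trans main).trans
    (sh_reach_symm (rs2_reach_sh (.head (RS2.of_eqOn hQ eQ) r') hI))

end BM

end Pool.Agent.P.MP_3f5ce9_co
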