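import Pool.Agent.P.MP_3f5ce9_co.W.BGen
import Pool.Agent.P.MP_3f5ce9_co.W.TriB

/-!
Sequences with one fixed side.
-/

open Finset

namespace Pool.Agent.P.MP_3f5ce9_co

variable {L1 L2 I : Finset ℕ} {ty ty1 ty2 : Typing} {t : Fin 3 → ℕ} {μ μ1 μ2 : ℕ → ℕ}
  {x x' y S : ℕ → Finset ℕ} {τ τ' σ : ℕ → Tp} {π : ℕ → ℕ}

lemma bs_ms (h : TS ty I μ x τ) : MS (fun _ => True) I μ x := ⟨fun _ _ => trivial, h.wt⟩

lemma bs_zero {L : Finset ℕ} (h : TS ty I μ x τ) (hL : ∀ F β, ty F β → F ⊆ L) {e : ℕ}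
    (he : e ∉ L) : μ e = 0 := by
  rw [← h.wt e, card_eq_zero, filter_eq_empty_iff]
  exact fun i hi hc => he (hL _ _ (h.typ i hi) hc)

lemma bs_inter {A B : Finset ℕ} (hA : A ⊆ L1) (hB : B ⊆ L2) (hd : Disjoint L1 L2) :
    (A ∪ B) ∩ L1 = A ∧ (A ∪ B) ∩ L2 = B := by
  constructor
  · ext e
    have a1 := @hA e
    have a2 := @hB e
    have a3 := @disjoint_left.1 hd e
    simp only [mem_inter, mem_union]
    tauto
  · ext e
    have a1 := @hA e
    have a2 := @hB e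
    have a3 := @disjoint_left.1 hd e
    simp only [mem_inter, mem_union]
    tauto

theorem GS.ms (h : GS ty1 ty2 I μ1 μ2 x y τ σ) (h1 : ∀ F β, ty1 F β → F ⊆ L1)
    (h2 : ∀ F β, ty2 F β → F ⊆ L2) (hd : Disjoint L1 L2) :
    MS (Glue L1 ty1 L2 ty2) I (fun e => μ1 e + μ2 e) fun i => x i ∪ y i := by
  refine bg_mk (fun i hi => ?_) fun e => ?_
  · have a1 := h1 _ _ (h.left.typ i hi)
    have a2 := h2 _ _ (h.right.typ i hi)
    obtain ⟨e1, e2⟩ := bs_inter a1 a2 hd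
    refine ⟨union_subset_union a1 a2, τ i, σ i, ?_, ?_, h.compat i hi⟩
    · rw [e1]; exact h.left.typ i hi
    · rw [e2]; exact h.right.typ i hi
  · show _ = μ1 e + μ2 e
    rw [← bg_wt (bs_ms h.left) e, ← bg_wt (bs_ms h.right) e, ← sum_add_distrib]
    refine sum_congr rfl fun i hi => ?_
    have a1 := @h1 _ _ (h.left.typ i hi) e
    have a2 := @h2 _ _ (h.right.typ i hi) e
    have a3 := @disjoint_left.1 hd e
    by_cases c1 : e ∈ x i
    · have c2 : e ∉ y i := fun c => a3 (a1 c1) (a2 c)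
      simp [one, c1, c2]
    · simp [one, c1]

lemma bs_restrict {𝓑 : Fam} {P : ℕ → Finset ℕ} (h : MS 𝓑 I μ P) (L : Finset ℕ) (e : ℕ) :
    (I.filter fun i => e ∈ P i ∩ L).card = if e ∈ L then μ e else 0 := by
  by_cases he : e ∈ L
  · rw [if_pos he, ← h.wt e]
    simp only [mem_inter, he, and_true]
  · rw [if_neg he, card_eq_zero, filter_eq_empty_iff]
    exact fun i _ hc => he (mem_inter.1 hc).2

theorem MS.exists_gs {P : ℕ → Finset ℕ} (h : MS (Glue L1 ty1 L2 ty2) I μ P) (hd : Disjoint L1 L2) :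
    ∃ τ σ, GS ty1 ty2 I (fun e => if e ∈ L1 then μ e else 0) (fun e => if e ∈ L2 then μ e else 0)
      (fun i => P i ∩ L1) (fun i => P i ∩ L2) τ σ ∧ (∀ i ∈ I, P i = P i ∩ L1 ∪ P i ∩ L2) ∧
      μ = fun e => (if e ∈ L1 then μ e else 0) + if e ∈ L2 then μ e else 0 := by
  have H : ∀ i, ∃ α β : Tp, i ∈ I → ty1 (P i ∩ L1) α ∧ ty2 (P i ∩ L2) β ∧ α.compat β = true := by
    intro i
    by_cases hi : i ∈ I
    · obtain ⟨-, α, β, c⟩ := h.mem i hi
      exact ⟨α, β, fun _ => c⟩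
    · exact ⟨.z, .z, fun c => (hi c).elim⟩
  choose τ σ H using H
  refine ⟨τ, σ, ⟨⟨fun i hi => (H i hi).1, bs_restrict h L1⟩, ⟨fun i hi => (H i hi).2.1,
    bs_restrict h L2⟩, fun i hi => (H i hi).2.2⟩, fun i hi => ?_, ?_⟩
  · rw [← inter_union_distrib_left, inter_eq_left.2 (h.mem i hi).1]
  · funext e
    by_cases c1 : e ∈ L1
    · rw [if_pos c1, if_neg (disjoint_left.1 hd c1), add_zero]
    · by_cases c2 : e ∈ L2
      · rw [if_neg c1, if_pos c2, zero_add]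
      · rw [if_neg c1, if_neg c2, ← h.wt e, card_eq_zero, filter_eq_empty_iff]
        intro i hi hc
        rcases mem_union.1 ((h.mem i hi).1 hc) with c | c
        · exact c1 c
        · exact c2 c

theorem TS.perm (h : TS ty I μ x τ) (hπ : Set.BijOn π I I) : TS ty I μ (x ∘ π) (τ ∘ π) := by
  exact ⟨fun i hi => h.typ _ (hπ.mapsTo hi), ((bs_ms h).perm hπ).wt⟩

theorem cnt_perm (hπ : Set.BijOn π I I) : cnt I (τ ∘ π) = cnt I τ := by
  funext k
  unfold cnt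
  rw [card_filter, card_filter]
  exact sum_nbij π (fun i hi => hπ.mapsTo hi) hπ.injOn hπ.surjOn fun _ _ => rfl

/-- the sum of the dimensions only depends on the weight -/
theorem TS.sum_dim (hM : MSide L1 ty) (h : TS ty I μ x τ) (h' : TS ty I μ x' τ') :
    ∑ i ∈ I, (τ i).dim = ∑ i ∈ I, (τ' i).dim := by
  have a1 := (bs_ms h).sum_card L1
  have a2 := (bs_ms h').sum_card L1
  have a3 : ∑ i ∈ I, ((x i ∩ L1).card + (τ' i).dim) = ∑ i ∈ I, ((x' i ∩ L1).card + (τ i).dim) :=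
    sum_congr rfl fun i hi => by
      rw [inter_eq_left.2 (hM.sub _ _ (h.typ i hi)), inter_eq_left.2 (hM.sub _ _ (h'.typ i hi))]
      exact hM.card _ _ _ _ (h.typ i hi) (h'.typ i hi)
  rw [sum_add_distrib, sum_add_distrib] at a3
  omega

lemma bs_erase {l : ℕ} (h : TS ty I μ x τ) (hl : l ∈ I) :
    TS ty (I.erase l) (fun e => μ e - one (x l) e) x τ :=
  ⟨fun i hi => h.typ i (mem_erase.1 hi).2, ((bs_ms h).erase hl).wt⟩

lemma bs_extend {l : ℕ} (h : TS ty I μ x τ) (hl : l ∈ I)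
    (h' : TS ty (I.erase l) (fun e => μ e - one (x l) e) x' τ') :
    TS ty I μ (Function.update x' l (x l)) (Function.update τ' l (τ l)) := by
  refine ⟨fun i hi => ?_, fun e => ?_⟩
  · by_cases c : i = l
    · rw [c, Function.update_self, Function.update_self]
      exact h.typ l hl
    · rw [Function.update_of_ne c, Function.update_of_ne c]
      exact h'.typ i (mem_erase.2 ⟨c, hi⟩)
  · have a1 := bg_wt (bs_ms h) e
    have a2 : ∑ i ∈ I.erase l, one (x' i) e = μ e - one (x l) e := bg_wt (bs_ms h') e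
    rw [← add_sum_erase I _ hl] at a1
    rw [bg_sum, ← add_sum_erase I _ hl, Function.update_self]
    have a3 : ∑ i ∈ I.erase l, one (Function.update x' l (x l) i) e =
        ∑ i ∈ I.erase l, one (x' i) e :=
      sum_congr rfl fun i hi => by rw [Function.update_of_ne (mem_erase.1 hi).1]
    omega

lemma bs_cnt (I : Finset ℕ) (σ : ℕ → Tp) (k : Fin 3) :
    cnt I σ k = ∑ i ∈ I, if σ i = .p k then 1 else 0 := card_filter _ _

lemma bs_cnt_erase {l : ℕ} (hl : l ∈ I) (k : Fin 3) :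
    cnt (I.erase l) σ k + (if σ l = .p k then 1 else 0) = cnt I σ k := by
  rw [bs_cnt, bs_cnt, ← add_sum_erase I _ hl, add_comm]

lemma bs_pos {k : Fin 3} (h : 1 ≤ cnt I σ k) : ∃ j ∈ I, σ j = .p k := by
  obtain ⟨j, hj⟩ := card_pos.1 h
  exact ⟨j, (mem_filter.1 hj).1, (mem_filter.1 hj).2⟩

/-- moving the part at `j` to the position `l` -/
lemma bs_move {l j : ℕ} {A : Finset ℕ} {y1 : ℕ → Finset ℕ} {σ1 : ℕ → Tp}
    (h1 : TS ty2 I μ2 y1 σ1) (hl : l ∈ I) (hj : j ∈ I) (hA : tyT t A (σ1 j))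
    (hu : ∀ i ∈ I.erase j, σ1 i ≠ .u)
    (hc : ∀ k, cnt (I.erase j) σ1 k + one A (t k) = cnt I σ k)
    (hz : ∀ i ∈ I, σ i = .z → i ≠ j ∧ σ1 i = .z ∧ y1 i = y i) :
    ∃ y2 σ2, TS ty2 I μ2 y2 σ2 ∧ tyT t A (σ2 l) ∧ (∀ i ∈ I.erase l, σ2 i ≠ .u) ∧
      (∀ k, cnt (I.erase l) σ2 k + one A (t k) = cnt I σ k) ∧
      ∀ i ∈ I, σ i = .z → ∃ i1 ∈ I.erase l, σ2 i1 = .z ∧ y2 i1 = y i := by
  have hb := bg_swap hl hj
  have e1 : (σ1 ∘ Equiv.swap l j) l = σ1 j := by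
    rw [Function.comp_apply, Equiv.swap_apply_left]
  refine ⟨_, _, h1.perm hb, by rwa [e1], fun i hi => hu _ (mem_erase.2 ⟨fun c => ?_,
    hb.mapsTo (mem_erase.1 hi).2⟩), fun k => ?_, fun i hi hi' => ?_⟩
  · exact (mem_erase.1 hi).1 ((Equiv.swap l j).injective (c.trans (Equiv.swap_apply_left l j).symm))
  · have a1 := bs_cnt_erase (σ := σ1 ∘ Equiv.swap l j) hl k
    have a2 := bs_cnt_erase (σ := σ1) hj k
    have a3 := hc k
    rw [e1, cnt_perm hb] at a1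
    omega
  · obtain ⟨c1, c2, c3⟩ := hz i hi hi'
    refine ⟨Equiv.swap l j i, mem_erase.2 ⟨fun c => c1 ?_, hb.mapsTo hi⟩, ?_, ?_⟩
    · exact (Equiv.swap l j).injective (c.trans (Equiv.swap_apply_right l j).symm)
    · rw [Function.comp_apply, Equiv.swap_apply_self, c2]
    · rw [Function.comp_apply, Equiv.swap_apply_self, c3]

/-- a part that fits a given nonempty label at the position `l` -/
lemma bs_step {l : ℕ} {A : Finset ℕ} (hB : BSide L2 ty2) (ht : Function.Injective t)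
    (hy : TS ty2 I μ2 y σ) (hσ : ∀ i ∈ I, σ i ≠ .u) (hl : l ∈ I) (hA : A ⊆ tset t)
    (hA2 : A.card ≤ 2) (hne : A ≠ ∅) (hc : ∀ k, t k ∈ A → 1 ≤ cnt I σ k) :
    ∃ y2 σ2, TS ty2 I μ2 y2 σ2 ∧ tyT t A (σ2 l) ∧ (∀ i ∈ I.erase l, σ2 i ≠ .u) ∧
      (∀ k, cnt (I.erase l) σ2 k + one A (t k) = cnt I σ k) ∧
      ∀ i ∈ I, σ i = .z → ∃ i1 ∈ I.erase l, σ2 i1 = .z ∧ y2 i1 = y i := by
  have hp : 0 < A.card := card_pos.2 (nonempty_iff_ne_empty.2 hne)
  rcases Nat.lt_or_ge A.card 2 with h2 | h2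
  · obtain ⟨a, rfl⟩ := card_eq_one.1 (by omega : A.card = 1)
    obtain ⟨k, rfl⟩ := mem_tset.1 (hA (mem_singleton_self a))
    obtain ⟨j, hj, hjk⟩ := bs_pos (hc k (mem_singleton_self _))
    refine bs_move hy hl hj ?_ (fun i hi => hσ i (mem_erase.1 hi).2) (fun m => ?_)
      fun i _ hi => ⟨fun c => ?_, hi, rfl⟩
    · rw [hjk]
      exact ⟨hA, rfl, fun i hi => by cases hi; rfl⟩
    · rw [← bs_cnt_erase hj m, hjk]
      by_cases c : m = k
      · simp [one, c]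
      · have c' : t m ≠ t k := fun c' => c (ht c')
        have c'' : k ≠ m := fun c' => c c'.symm
        simp [one, c', c'']
    · rw [c, hjk] at hi
      cases hi
  · obtain ⟨a, b, hab, rfl⟩ := card_eq_two.1 (le_antisymm hA2 h2)
    obtain ⟨k, rfl⟩ := mem_tset.1 (hA (mem_insert_self a _))
    obtain ⟨k', rfl⟩ := mem_tset.1 (hA (mem_insert_of_mem (mem_singleton_self b)))
    have hk : k ≠ k' := fun c => hab (by rw [c])
    obtain ⟨j, hj, hjk⟩ := bs_pos (hc k (mem_insert_self _ _))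
    obtain ⟨j', hj', hjk'⟩ := bs_pos (hc k' (mem_insert_of_mem (mem_singleton_self _)))
    have hjj : j ≠ j' := fun c => by
      rw [c, hjk'] at hjk
      cases hjk
      exact hk rfl
    obtain ⟨A', B', c1, c2, c3⟩ := hB.mg _ _ k k' (hjk ▸ hy.typ j hj) (hjk' ▸ hy.typ j' hj') hk
    have s1 : Function.update (Function.update σ j .u) j' .z j = .u := by
      rw [Function.update_of_ne hjj, Function.update_self]
    have s2 : Function.update (Function.update σ j .u) j' .z j' = .z := Function.update_self _ _ _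
    have s3 : ∀ i, i ≠ j → i ≠ j' → Function.update (Function.update σ j .u) j' .z i = σ i :=
      fun i h1 h2 => by rw [Function.update_of_ne h2, Function.update_of_ne h1]
    have y3 : ∀ i, i ≠ j → i ≠ j' → Function.update (Function.update y j A') j' B' i = y i :=
      fun i h1 h2 => by rw [Function.update_of_ne h2, Function.update_of_ne h1]
    have hT : TS ty2 I μ2 (Function.update (Function.update y j A') j' B')
        (Function.update (Function.update σ j .u) j' .z) := by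
      refine ⟨fun i hi => ?_, ((bs_ms hy).update2 hj hj' hjj trivial trivial c3).2.1.wt⟩
      by_cases d1 : i = j
      · rw [d1, s1, Function.update_of_ne hjj, Function.update_self]
        exact c1
      · by_cases d2 : i = j'
        · rw [d2, s2, Function.update_self]
          exact c2
        · rw [s3 i d1 d2, y3 i d1 d2]
          exact hy.typ i hi
    refine bs_move hT hl hj ?_ (fun i hi => ?_) (fun m => ?_) fun i hi hi' => ?_
    · rw [s1]
      exact ⟨hA, card_pair hab, fun i hi => by cases hi⟩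
    · by_cases d2 : i = j'
      · rw [d2, s2]
        exact fun c => by cases c
      · rw [s3 i (mem_erase.1 hi).1 d2]
        exact hσ i (mem_erase.1 hi).2
    · have hm : j' ∈ I.erase j := mem_erase.2 ⟨hjj.symm, hj'⟩
      have a1 := bs_cnt_erase (σ := σ) hj m
      have a2 := bs_cnt_erase (σ := σ) hm m
      have a3 := bs_cnt_erase (σ := Function.update (Function.update σ j .u) j' .z) hm m
      have a4 : cnt ((I.erase j).erase j') (Function.update (Function.update σ j .u) j' .z) m =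
          cnt ((I.erase j).erase j') σ m := by
        rw [bs_cnt, bs_cnt]
        exact sum_congr rfl fun i hi => by
          rw [s3 i (mem_erase.1 (mem_erase.1 hi).2).1 (mem_erase.1 hi).1]
      rw [s2, if_neg (fun c => by cases c)] at a3
      rw [hjk] at a1
      rw [hjk'] at a2
      have a5 : one {t k, t k'} (t m) =
          (if Tp.p k = Tp.p m then 1 else 0) + if Tp.p k' = Tp.p m then 1 else 0 := by
        by_cases d1 : k = m
        · subst d1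
          simp [one, hk.symm]
        · by_cases d2 : k' = m
          · subst d2
            simp [one, hk]
          · have d3 : t m ≠ t k := fun c => d1 (ht c).symm
            have d4 : t m ≠ t k' := fun c => d2 (ht c).symm
            simp [one, d1, d2, d3, d4]
      omega
    · have d1 : i ≠ j := fun c => by
        rw [c, hjk] at hi'
        cases hi'
      have d2 : i ≠ j' := fun c => by
        rw [c, hjk'] at hi'
        cases hi'
      exact ⟨d1, by rw [s3 i d1 d2, hi'], y3 i d1 d2⟩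

lemma bs_ext {l : ℕ} {y2 : ℕ → Finset ℕ} {σ2 : ℕ → Tp} (h2 : TS ty2 I μ2 y2 σ2) (hl : l ∈ I)
    (hT : tyT t (S l) (σ2 l))
    (hz : ∀ i ∈ I, σ i = .z → ∃ i1 ∈ I.erase l, σ2 i1 = .z ∧ y2 i1 = y i)
    (H : ∃ y' σ', TS ty2 (I.erase l) (fun e => μ2 e - one (y2 l) e) y' σ' ∧
      (∀ i ∈ I.erase l, tyT t (S i) (σ' i)) ∧
      ∀ j ∈ I.erase l, σ2 j = .z → ∃ l' ∈ I.erase l, y' l' = y2 j ∧ S l' = ∅) :
    ∃ y' σ', y' l = y2 l ∧ TS ty2 I μ2 y' σ' ∧ (∀ i ∈ I, tyT t (S i) (σ' i)) ∧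
      ∀ j ∈ I, σ j = .z → ∃ l ∈ I, y' l = y j ∧ S l = ∅ := by
  obtain ⟨y', σ', c1, c2, c3⟩ := H
  refine ⟨_, _, Function.update_self _ _ _, bs_extend h2 hl c1, fun i hi => ?_, fun j hj hj' => ?_⟩
  · by_cases c : i = l
    · rw [c, Function.update_self]
      exact hT
    · rw [Function.update_of_ne c]
      exact c2 i (mem_erase.2 ⟨c, hi⟩)
  · obtain ⟨i1, d1, d2, d3⟩ := hz j hj hj'
    obtain ⟨l', d4, d5, d6⟩ := c3 i1 d1 d2
    exact ⟨l', (mem_erase.1 d4).2, by rw [Function.update_of_ne (mem_erase.1 d4).1, d5, d3], d6⟩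

lemma bs_count {l : ℕ} {σ2 : ℕ → Tp} (hl : l ∈ I)
    (hc : ∀ k, (I.filter fun i => t k ∈ S i).card = cnt I σ k)
    (h : ∀ k, cnt (I.erase l) σ2 k + one (S l) (t k) = cnt I σ k) (k : Fin 3) :
    ((I.erase l).filter fun i => t k ∈ S i).card = cnt (I.erase l) σ2 k := by
  have a1 := hc k
  have a2 := h k
  rw [bg_sum, ← add_sum_erase I _ hl] at a1
  rw [bg_sum]
  omega

lemma bs_one {l : ℕ} (hl : l ∈ I) (hc : ∀ k, (I.filter fun i => t k ∈ S i).card = cnt I σ k)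
    (k : Fin 3) (hk : t k ∈ S l) : 1 ≤ cnt I σ k := by
  rw [← hc k]
  exact card_pos.2 ⟨l, mem_filter.2 ⟨hl, hk⟩⟩

/-- label distributions with the same weight are realized by merging -/
theorem exists_real (hB : BSide L2 ty2) (ht : Function.Injective t) (hy : TS ty2 I μ2 y σ)
    (hσ : ∀ i ∈ I, σ i ≠ .u) (hS : ∀ i ∈ I, S i ⊆ tset t ∧ (S i).card ≤ 2)
    (hc : ∀ k, (I.filter fun i => t k ∈ S i).card = cnt I σ k) :
    ∃ y' σ', TS ty2 I μ2 y' σ' ∧ (∀ i ∈ I, tyT t (S i) (σ' i)) ∧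
      ∀ j ∈ I, σ j = .z → ∃ l ∈ I, y' l = y j ∧ S l = ∅ := by
  induction hn : I.card using Nat.strong_induction_on generalizing I μ2 y σ with
  | _ n ih =>
    by_cases hex : ∃ l ∈ I, S l ≠ ∅
    · obtain ⟨l, hl, hne⟩ := hex
      obtain ⟨y2, σ2, c1, c2, c3, c4, c5⟩ :=
        bs_step hB ht hy hσ hl (hS l hl).1 (hS l hl).2 hne (bs_one hl hc)
      obtain ⟨y', σ', -, H⟩ := bs_ext c1 hl c2 c5 (ih _ (hn ▸ card_erase_lt_of_mem hl)
        (bs_erase c1 hl) c3 (fun i hi => hS i (mem_erase.1 hi).2) (bs_count hl hc c4) rfl)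
      exact ⟨y', σ', H⟩
    · have he : ∀ l ∈ I, S l = ∅ := fun l hl => by
        by_contra c
        exact hex ⟨l, hl, c⟩
      refine ⟨y, σ, hy, fun i hi => ?_, fun j hj _ => ⟨j, hj, rfl, he j hj⟩⟩
      have hz : σ i = .z := by
        rcases hi' : σ i with _ | k | _
        · rfl
        · have a1 : 0 < cnt I σ k := card_pos.2 ⟨i, mem_filter.2 ⟨hi, hi'⟩⟩
          rw [← hc k] at a1
          obtain ⟨j, hj⟩ := card_pos.1 a1
          have a2 := (mem_filter.1 hj).2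
          rw [he j (mem_filter.1 hj).1] at a2
          exact absurd a2 (notMem_empty _)
        · exact (hσ i hi hi').elim
      rw [he i hi, hz]
      exact ⟨empty_subset _, rfl, fun k hk => by cases hk⟩

/-- the parts `y'` of the second side realize the labels `S` and `Y` occurs at an empty label -/
def BsReal (ty2 : Typing) (t : Fin 3 → ℕ) (I : Finset ℕ) (μ2 : ℕ → ℕ) (Y : Finset ℕ)
    (S y' : ℕ → Finset ℕ) : Prop :=
  ∃ σ', TS ty2 I μ2 y' σ' ∧ (∀ i ∈ I, tyT t (S i) (σ' i)) ∧ ∃ l ∈ I, y' l = Y ∧ S l = ∅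

lemma bs_put {Y : Finset ℕ} {y1 : ℕ → Finset ℕ} {l : ℕ} (h : BsReal ty2 t I μ2 Y S y1)
    (hl : l ∈ I) (he : S l = ∅) :
    ∃ y2, BsReal ty2 t I μ2 Y S y2 ∧ y2 l = Y ∧ ∃ j, ∀ i, i ≠ l → i ≠ j → y2 i = y1 i := by
  obtain ⟨σ', c1, c2, j, hj, c3, c4⟩ := h
  have hb := bg_swap hl hj
  have e1 : (y1 ∘ Equiv.swap l j) l = Y := by
    rw [Function.comp_apply, Equiv.swap_apply_left, c3]
  refine ⟨_, ⟨_, c1.perm hb, fun i hi => ?_, l, hl, e1, he⟩, e1, j, fun i h1 h2 => ?_⟩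
  · by_cases d1 : i = l
    · rw [d1, Function.comp_apply, Equiv.swap_apply_left, he, ← c4]
      exact c2 j hj
    · by_cases d2 : i = j
      · rw [d2, Function.comp_apply, Equiv.swap_apply_right, c4, ← he]
        exact c2 l hl
      · rw [Function.comp_apply, Equiv.swap_apply_of_ne_of_ne d1 d2]
        exact c2 i hi
  · rw [Function.comp_apply, Equiv.swap_apply_of_ne_of_ne h1 h2]

/-- two label distributions with the same label at `l` have realizations that agree at `l` -/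
lemma bs_two {S' : ℕ → Finset ℕ} {l i0 : ℕ} (hB : BSide L2 ty2) (ht : Function.Injective t)
    (hy : TS ty2 I μ2 y σ) (hσ : ∀ i ∈ I, σ i ≠ .u) (hi0 : i0 ∈ I) (h0 : σ i0 = .z)
    (hS : ∀ i ∈ I, S i ⊆ tset t ∧ (S i).card ≤ 2)
    (hc : ∀ k, (I.filter fun i => t k ∈ S i).card = cnt I σ k)
    (hS' : ∀ i ∈ I, S' i ⊆ tset t ∧ (S' i).card ≤ 2)
    (hc' : ∀ k, (I.filter fun i => t k ∈ S' i).card = cnt I σ k) (hl : l ∈ I)
    (hSl : S l = S' l) :
    ∃ y1 y2, BsReal ty2 t I μ2 (y i0) S y1 ∧ BsReal ty2 t I μ2 (y i0) S' y2 ∧ y1 l = y2 l := by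
  by_cases he : S l = ∅
  · obtain ⟨y1, σ1, c1, c2, c3⟩ := exists_real hB ht hy hσ hS hc
    obtain ⟨y2, σ2, d1, d2, d3⟩ := exists_real hB ht hy hσ hS' hc'
    obtain ⟨z1, e1, e2, -⟩ := bs_put ⟨σ1, c1, c2, c3 i0 hi0 h0⟩ hl he
    obtain ⟨z2, e3, e4, -⟩ := bs_put ⟨σ2, d1, d2, d3 i0 hi0 h0⟩ hl (hSl ▸ he)
    exact ⟨z1, z2, e1, e3, e2.trans e4.symm⟩
  · obtain ⟨y2, σ2, c1, c2, c3, c4, c5⟩ :=
      bs_step hB ht hy hσ hl (hS l hl).1 (hS l hl).2 he (bs_one hl hc)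
    obtain ⟨z1, σ1, e1, e2, e3, e4⟩ := bs_ext c1 hl c2 c5 (exists_real hB ht (bs_erase c1 hl) c3
      (fun i hi => hS i (mem_erase.1 hi).2) (bs_count hl hc c4))
    rw [hSl] at c2 c4
    obtain ⟨z2, σ3, e5, e6, e7, e8⟩ := bs_ext c1 hl c2 c5 (exists_real hB ht (bs_erase c1 hl) c3
      (fun i hi => hS' i (mem_erase.1 hi).2) (bs_count hl hc' c4))
    exact ⟨z1, z2, ⟨σ1, e2, e3, e4 i0 hi0 h0⟩, ⟨σ3, e6, e7, e8 i0 hi0 h0⟩, e1.trans e5.symm⟩

/-- the label of a type other than `u` -/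
def bsLab (t : Fin 3 → ℕ) : Tp → Finset ℕ
  | .p k => {t k}
  | _ => ∅

lemma bs_lab {β : Tp} (h : β ≠ .u) : tyT t (bsLab t β) β := by
  rcases β with _ | k | _
  · exact ⟨empty_subset _, rfl, fun k hk => by cases hk⟩
  · exact ⟨singleton_subset_iff.2 (mem_tset.2 ⟨k, rfl⟩), rfl, fun i hi => by cases hi; rfl⟩
  · exact (h rfl).elim

lemma bs_lab_mem (ht : Function.Injective t) {β : Tp} {k : Fin 3} :
    t k ∈ bsLab t β ↔ β = .p k := by
  rcases β with _ | m | _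
  · simp [bsLab]
  · simp only [bsLab, mem_singleton, Tp.p.injEq]
    exact ⟨fun c => (ht c).symm, fun c => by rw [c]⟩
  · simp [bsLab]

theorem lemS (hI : 3 ≤ I.card) (h1 : MSide L1 ty1) (hB : BSide L2 ty2) (hd : Disjoint L1 L2)
    (ht : Function.Injective t) (hdt : Disjoint L1 (tset t))
    (hT : TE (Glue L1 ty1 (tset t) (tyT t))) (hσ : ∀ i ∈ I, σ i ≠ .u) (h0 : ∃ i ∈ I, σ i = .z)
    (hπ : Set.BijOn π I I) (h : GS ty1 ty2 I μ1 μ2 x y τ σ)
    (h' : GS ty1 ty2 I μ1 μ2 x' (y ∘ π) τ' (σ ∘ π)) :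
    Relation.ReflTransGen (Sh (Glue L1 ty1 L2 ty2) I fun e => μ1 e + μ2 e)
      (fun i => x i ∪ y i) fun i => x' i ∪ y (π i) := by
  obtain ⟨i0, hi0, h0⟩ := h0
  have hM := mSide_tyT ht
  obtain ⟨ν, hν⟩ : ∃ ν : ℕ → ℕ, ∀ e, (I.filter fun i => e ∈ bsLab t (σ i)).card = ν e :=
    ⟨_, fun _ => rfl⟩
  have l1 : TS (tyT t) I ν (fun i => bsLab t (σ i)) σ := ⟨fun i hi => bs_lab (hσ i hi), hν⟩
  have g1 : GS ty1 (tyT t) I μ1 ν x (fun i => bsLab t (σ i)) τ σ := ⟨h.left, l1, h.compat⟩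
  have g2 : GS ty1 (tyT t) I μ1 ν x' ((fun i => bsLab t (σ i)) ∘ π) τ' (σ ∘ π) :=
    ⟨h'.left, l1.perm hπ, h'.compat⟩
  have m1 := g1.ms h1.sub hM.sub hdt
  have m2 := g2.ms h1.sub hM.sub hdt
  have path := rs2_reach_sh (hT I _ _ _ m1 m2) hI
  have key : ∀ R, MS (Glue L1 ty1 (tset t) (tyT t)) I (fun e => μ1 e + ν e) R →
      (∀ i ∈ I, R i ∩ tset t ⊆ tset t ∧ (R i ∩ tset t).card ≤ 2) ∧
      (∀ k, (I.filter fun i => t k ∈ R i ∩ tset t).card = cnt I σ k) ∧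
      ∀ z, BsReal ty2 t I μ2 (y i0) (fun i => R i ∩ tset t) z →
        MS (Glue L1 ty1 L2 ty2) I (fun e => μ1 e + μ2 e) fun i => R i ∩ L1 ∪ z i := by
    intro R hR
    obtain ⟨α, β, c, -, -⟩ := hR.exists_gs hdt
    refine ⟨fun i hi => ⟨inter_subset_right, ?_⟩, fun k => ?_, ?_⟩
    · have a1 : (R i ∩ tset t).card = (β i).dim := (c.right.typ i hi).2.1
      rw [a1]
      exact TriBA.dim_le _
    · have hk : t k ∈ tset t := mem_tset.2 ⟨k, rfl⟩
      rw [bs_restrict hR, if_pos hk, bs_zero h.left h1.sub (disjoint_right.1 hdt hk), zero_add,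
        ← hν]
      simp only [bs_lab_mem ht]
      rfl
    · rintro z ⟨σ', d1, d2, -⟩
      have a1 : TS ty1 I μ1 (fun i => R i ∩ L1) α := by
        refine ⟨c.left.typ, fun e => ?_⟩
        rw [bs_restrict hR]
        by_cases he : e ∈ L1
        · rw [if_pos he, bs_zero l1 hM.sub (disjoint_left.1 hdt he), add_zero]
        · rw [if_neg he, bs_zero h.left h1.sub he]
      refine GS.ms (τ := α) (σ := σ') ⟨a1, d1, fun i hi => ?_⟩ h1.sub hB.sub hd
      rw [hM.uniq _ _ _ (d2 i hi) (c.right.typ i hi)]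
      exact c.compat i hi
  have same : ∀ R, MS (Glue L1 ty1 (tset t) (tyT t)) I (fun e => μ1 e + ν e) R →
      ∀ z z', BsReal ty2 t I μ2 (y i0) (fun i => R i ∩ tset t) z →
        BsReal ty2 t I μ2 (y i0) (fun i => R i ∩ tset t) z' →
        Relation.ReflTransGen (Sh (Glue L1 ty1 L2 ty2) I fun e => μ1 e + μ2 e)
          (fun i => R i ∩ L1 ∪ z i) fun i => R i ∩ L1 ∪ z' i := by
    intro R hR z z' hz hz'
    have k1 := (key R hR).2.2
    obtain ⟨σ', d1, d2, l, hl, d3, d4⟩ := hz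
    obtain ⟨w, e1, e2, j, e3⟩ := bs_put hz' hl d4
    refine Relation.ReflTransGen.head ⟨k1 z ⟨σ', d1, d2, l, hl, d3, d4⟩, k1 w e1, l, hl, ?_⟩
      (Relation.ReflTransGen.single (RS2.sh ⟨k1 w e1, k1 z' hz', l, j, fun i _ a1 a2 => ?_⟩ hI))
    · show _ ∪ z l = _ ∪ w l
      rw [d3, e2]
    · show _ ∪ w i = _ ∪ z' i
      rw [e3 i a1 a2]
  have main : ∀ R R', Relation.ReflTransGen
      (Sh (Glue L1 ty1 (tset t) (tyT t)) I fun e => μ1 e + ν e) R R' →
      MS (Glue L1 ty1 (tset t) (tyT t)) I (fun e => μ1 e + ν e) R →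
      ∀ z z', BsReal ty2 t I μ2 (y i0) (fun i => R i ∩ tset t) z →
        BsReal ty2 t I μ2 (y i0) (fun i => R' i ∩ tset t) z' →
        Relation.ReflTransGen (Sh (Glue L1 ty1 L2 ty2) I fun e => μ1 e + μ2 e)
          (fun i => R i ∩ L1 ∪ z i) fun i => R' i ∩ L1 ∪ z' i := by
    intro R R' hp hR z
    induction hp with
    | refl => exact fun z' hz hz' => same R hR z z' hz hz'
    | @tail Q Q' _ hs ih =>
      intro z' hz hz'
      obtain ⟨q1, q2, l, hl, q3⟩ := hs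
      obtain ⟨a1, a2, a3⟩ := key Q q1
      obtain ⟨b1, b2, b3⟩ := key Q' q2
      obtain ⟨w, w', e1, e2, e3⟩ := bs_two (S := fun i => Q i ∩ tset t)
        (S' := fun i => Q' i ∩ tset t) hB ht h.right hσ hi0 h0 a1 a2 b1 b2 hl (by rw [q3])
      refine ((ih w hz e1).tail ⟨a3 w e1, b3 w' e2, l, hl, ?_⟩).trans (same Q' q2 w' z' e2 hz')
      show Q l ∩ L1 ∪ w l = Q' l ∩ L1 ∪ w' l
      rw [q3, e3]
  have i1 : ∀ i ∈ I, (x i ∪ bsLab t (σ i)) ∩ L1 = x i ∧
      (x i ∪ bsLab t (σ i)) ∩ tset t = bsLab t (σ i) := fun i hi =>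
    bs_inter (h1.sub _ _ (h.left.typ i hi)) (bs_lab (hσ i hi)).1 hdt
  have i2 : ∀ i ∈ I, (x' i ∪ bsLab t (σ (π i))) ∩ L1 = x' i ∧
      (x' i ∪ bsLab t (σ (π i))) ∩ tset t = bsLab t (σ (π i)) := fun i hi =>
    bs_inter (h1.sub _ _ (h'.left.typ i hi)) (bs_lab (hσ _ (hπ.mapsTo hi))).1 hdt
  obtain ⟨j0, hj0, hj0'⟩ := hπ.surjOn (mem_coe.2 hi0)
  have r1 : BsReal ty2 t I μ2 (y i0) (fun i => (x i ∪ bsLab t (σ i)) ∩ tset t) y :=
    ⟨σ, h.right, fun i hi => by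
      show tyT t ((x i ∪ bsLab t (σ i)) ∩ tset t) _
      rw [(i1 i hi).2]
      exact bs_lab (hσ i hi), i0, hi0, rfl, by
      show (x i0 ∪ bsLab t (σ i0)) ∩ tset t = ∅
      rw [(i1 i0 hi0).2, h0]
      rfl⟩
  have r2 : BsReal ty2 t I μ2 (y i0) (fun i => (x' i ∪ bsLab t (σ (π i))) ∩ tset t) (y ∘ π) :=
    ⟨σ ∘ π, h'.right, fun i hi => by
      show tyT t ((x' i ∪ bsLab t (σ (π i))) ∩ tset t) _
      rw [(i2 i hi).2]
      exact bs_lab (hσ _ (hπ.mapsTo hi)), j0, hj0, by rw [Function.comp_apply, hj0'], by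
      show (x' j0 ∪ bsLab t (σ (π j0))) ∩ tset t = ∅
      rw [(i2 j0 hj0).2, hj0', h0]
      rfl⟩
  have fin := main _ _ path m1 _ _ r1 r2
  refine (Relation.ReflTransGen.head (RS2.sh (RS2.of_eqOn (h.ms h1.sub hB.sub hd)
    fun i hi => ?_) hI) fin).tail (RS2.sh (RS2.of_eqOn (h'.ms h1.sub hB.sub hd)
    fun i hi => ?_).symm hI)
  · show _ = (x i ∪ bsLab t (σ i)) ∩ L1 ∪ y i
    rw [(i1 i hi).1]
  · show _ = (x' i ∪ bsLab t (σ (π i))) ∩ L1 ∪ y (π i)
    rw [(i2 i hi).1]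
    rfl

lemma bs_co {L : Finset ℕ} (h : TS ty I μ x τ) (hL : ∀ F β, ty F β → F ⊆ L) :
    TS (coTy L ty) I (fun e => if e ∈ L then I.card - μ e else 0) (fun i => L \ x i)
      fun i => (τ i).co := by
  refine ⟨fun i hi => ⟨sdiff_subset, ?_⟩, fun e => ?_⟩
  · rw [Finset.sdiff_sdiff_eq_self (hL _ _ (h.typ i hi)), TriBA.co_co]
    exact h.typ i hi
  · rw [bg_sum]
    by_cases he : e ∈ L
    · rw [if_pos he]
      exact bg_sdiff (bs_ms h) he
    · rw [if_neg he]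
      exact sum_eq_zero fun i _ => by simp [one, he]

lemma bs_sdiff {A B : Finset ℕ} (hA : A ⊆ L1) (hB : B ⊆ L2) (hd : Disjoint L1 L2) :
    L1 \ A ∪ L2 \ B = (L1 ∪ L2) \ (A ∪ B) := by
  ext e
  have a1 := @hA e
  have a2 := @hB e
  have a3 := @disjoint_left.1 hd e
  simp only [mem_sdiff, mem_union]
  tauto

theorem lemS_co (hI : 3 ≤ I.card) (h1 : MSide L1 ty1) (hB : BSide L2 ty2) (hd : Disjoint L1 L2)
    (ht : Function.Injective t) (hdt : Disjoint L1 (tset t))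
    (hT : TE (Glue L1 ty1 (tset t) (coTy (tset t) (tyT t)))) (hσ : ∀ i ∈ I, σ i ≠ .z)
    (h0 : ∃ i ∈ I, σ i = .u) (hπ : Set.BijOn π I I) (h : GS ty1 ty2 I μ1 μ2 x y τ σ)
    (h' : GS ty1 ty2 I μ1 μ2 x' (y ∘ π) τ' (σ ∘ π)) :
    Relation.ReflTransGen (Sh (Glue L1 ty1 L2 ty2) I fun e => μ1 e + μ2 e)
      (fun i => x i ∪ y i) fun i => x' i ∪ y (π i) := by
  have hT' : TE (Glue L1 (coTy L1 ty1) (tset t) (tyT t)) := by
    refine hT.compl (E := L1 ∪ tset t) fun B => ?_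
    rw [← glue_co hdt, coTy_coTy (mSide_tyT ht).sub]
  have g : ∀ {x y : ℕ → Finset ℕ} {τ σ : ℕ → Tp}, GS ty1 ty2 I μ1 μ2 x y τ σ →
      GS (coTy L1 ty1) (coTy L2 ty2) I (fun e => if e ∈ L1 then I.card - μ1 e else 0)
        (fun e => if e ∈ L2 then I.card - μ2 e else 0) (fun i => L1 \ x i) (fun i => L2 \ y i)
        (fun i => (τ i).co) fun i => (σ i).co := fun c =>
    ⟨bs_co c.left h1.sub, bs_co c.right hB.sub, fun i hi => by
      rw [TriBA.compat_co]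
      exact c.compat i hi⟩
  obtain ⟨i0, hi0, h0⟩ := h0
  have H := lemS (σ := fun i => (σ i).co) (y := fun i => L2 \ y i) hI h1.co hB.co hd ht hdt hT'
    (fun i hi c => hσ i hi (TriBA.co_inj (b := .z) c)) ⟨i0, hi0, by rw [h0]; rfl⟩ hπ (g h) (g h')
  have ew : (fun e => (if e ∈ L1 then I.card - μ1 e else 0) + if e ∈ L2 then I.card - μ2 e else 0) =
      fun e => if e ∈ L1 ∪ L2 then I.card - (μ1 e + μ2 e) else 0 := by
    funext e
    by_cases c1 : e ∈ L1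
    · have c2 := disjoint_left.1 hd c1
      rw [if_pos c1, if_neg c2, if_pos (mem_union_left _ c1), bs_zero h.right hB.sub c2]
      rfl
    · by_cases c2 : e ∈ L2
      · rw [if_neg c1, if_pos c2, if_pos (mem_union_right _ c2), bs_zero h.left h1.sub c1,
          zero_add, zero_add]
      · rw [if_neg c1, if_neg c2, if_neg (fun c => (mem_union.1 c).elim c1 c2)]
  have m1 := (g h).ms h1.co.sub hB.co.sub hd
  have m2 := (g h').ms h1.co.sub hB.co.sub hd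
  rw [ew] at H m1 m2
  refine sh_reach_compl (𝓑 := Glue L1 (coTy L1 ty1) L2 (coTy L2 ty2)) (E := L1 ∪ L2) hI
    (h.ms h1.sub hB.sub hd) (h'.ms h1.sub hB.sub hd) (fun B => ?_) ?_
  · rw [← glue_co hd, coTy_coTy h1.sub, coTy_coTy hB.sub]
  · refine (Relation.ReflTransGen.head (RS2.sh (RS2.of_eqOn m1 fun i hi => ?_).symm hI) H).tail
      (RS2.sh (RS2.of_eqOn m2 fun i hi => ?_) hI)
    · exact bs_sdiff (h1.sub _ _ (h.left.typ i hi)) (hB.sub _ _ (h.right.typ i hi)) hd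
    · exact bs_sdiff (h1.sub _ _ (h'.left.typ i hi)) (hB.sub _ _ (h'.right.typ i hi)) hd

end Pool.Agent.P.MP_3f5ce9_co
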