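import Pool.Agent.P.MP_3f5ce9_co.W.Rank

/-!
Duality and the connectivity function.
-/

open Finset

namespace Pool.Agent.P.MP_3f5ce9_co

namespace BM

variable {M N : BM} {I J X Y Z A B C D : Finset ℕ} {e f : ℕ}

theorem du_ss (h : X ⊆ Y) : Y \ (Y \ X) = X := Finset.sdiff_sdiff_eq_self h

theorem du_two (hC : M.cyc C) (hD : M.dual.cyc D) (h1 : e ∈ C) (h2 : e ∈ D) :
    ∃ f ∈ C, f ∈ D ∧ f ≠ e := by
  by_contra hc
  have h := hD.2 C hC
  rw [eq_singleton_iff_unique_mem.2 ⟨mem_inter.2 ⟨h1, h2⟩, fun f hf => by_contra fun h3 =>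
    hc ⟨f, (mem_inter.1 hf).1, (mem_inter.1 hf).2, h3⟩⟩, card_singleton] at h
  exact Nat.not_even_one h

theorem du_cl (hD : M.dual.cyc D) (he : e ∈ D) (hX : Disjoint X D) : e ∉ M.cl X := fun h => by
  rcases (r_insert_eq_iff (mem_cl.1 h).1).1 (mem_cl.1 h).2 with h1 | ⟨C, c1, c2, c3⟩
  · exact disjoint_left.1 hX h1 he
  · obtain ⟨f, f1, f2, f3⟩ := du_two c1 hD c2 he
    exact disjoint_left.1 hX ((mem_insert.1 (c3 f1)).resolve_left f3) f2

theorem du_cocyc (hB : M.IsBase B) (he : e ∈ B) : ∃ D, M.dual.cyc D ∧ D ∩ B = {e} := by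
  have h : ∀ g ∈ M.E \ B, ∃ C, M.cyc C ∧ g ∈ C ∧ C ⊆ insert g B := fun g hg =>
    hB.exists_cyc (mem_sdiff.1 hg).1 (mem_sdiff.1 hg).2
  choose! φ hφ using h
  refine ⟨insert e ((M.E \ B).filter fun g => e ∈ φ g), ⟨insert_subset (hB.subset he)
    ((filter_subset _ _).trans sdiff_subset), fun C hC => ?_⟩, ?_⟩
  · have h1 := Finset.ext_iff.1 (hB.cyc_eq hC φ fun g hg =>
      hφ g (sdiff_subset_sdiff (M.sub C hC) Subset.rfl hg)) e
    rw [mem_oddSum] at h1
    have h2 : C ∩ (M.E \ B).filter (fun g => e ∈ φ g) = (C \ B).filter fun g => e ∈ φ g := by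
      ext x
      have := @M.sub C hC x
      simp only [mem_inter, mem_filter, mem_sdiff]
      tauto
    by_cases h3 : e ∈ C
    · rw [inter_insert_of_mem h3, h2, card_insert_of_notMem (by simp [he])]
      exact (h1.1 h3).add_one
    · rw [inter_insert_of_notMem h3, h2]
      exact Nat.not_odd_iff_even.1 fun h4 => h3 (h1.2 h4)
  · ext x
    simp only [mem_inter, mem_insert, mem_filter, mem_sdiff, mem_singleton]
    exact ⟨fun h => h.1.resolve_right fun h1 => h1.1.2 h.2, fun h => ⟨Or.inl h, h ▸ he⟩⟩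

theorem du_indep (hB : M.IsBase B) : M.dual.Indep (M.E \ B) :=
  ⟨sdiff_subset, fun D hD h => eq_empty_of_forall_notMem fun e he =>
    du_cl hD he (disjoint_sdiff.mono_right h) (subset_cl_of_r Subset.rfl
      (by rw [union_eq_right.2 hB.subset, hB.r_eq]) (hD.1 he))⟩

theorem du_base (hB : M.IsBase B) : M.dual.IsBase (M.E \ B) := by
  obtain ⟨J, j1, j2⟩ := (du_indep hB).exists_base
  refine Subset.antisymm (fun b hb => mem_sdiff.2 ⟨j1.subset hb, fun h => ?_⟩) j2 ▸ j1
  obtain ⟨D, d1, d2⟩ := du_cocyc hB h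
  have h1 := fun x => Finset.ext_iff.1 d2 x
  simp only [mem_inter, mem_singleton] at h1
  refine ne_empty_of_mem ((h1 b).2 rfl).1 (j1.1.2 D d1 fun x hx => ?_)
  by_cases h2 : x ∈ B
  · exact (h1 x).1 ⟨hx, h2⟩ ▸ hb
  · exact j2 (mem_sdiff.2 ⟨d1.1 hx, h2⟩)

theorem du_rE (M : BM) : M.dual.r M.E + M.r M.E = M.E.card := by
  obtain ⟨B, hB⟩ := M.exists_base
  rw [← hB.2, ← card_sdiff_add_card_eq_card hB.subset, (du_base hB).2]
  rfl

theorem du_iff : M.dual.Indep I ↔ I ⊆ M.E ∧ M.r (M.E \ I) = M.r M.E := by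
  refine ⟨fun h => ⟨h.1, ?_⟩, fun h => ?_⟩
  · obtain ⟨B, hB, h1⟩ := M.exists_base_inter (M.E \ I)
    rw [← h1, ← hB.2, inter_eq_left.2 fun b hb => by_contra fun h2 => ?_]
    obtain ⟨D, d1, d2⟩ := du_cocyc hB hb
    have h3 := fun x => Finset.ext_iff.1 d2 x
    simp only [mem_inter, mem_singleton] at h3
    refine ne_empty_of_mem ((h3 b).2 rfl).1 (h.2 D d1 fun x hx => by_contra fun h4 => ?_)
    have h5 : x ∈ M.E \ I := mem_sdiff.2 ⟨d1.1 hx, h4⟩
    refine du_cl d1 hx (X := B ∩ (M.E \ I)) (disjoint_left.2 fun y hy h6 => h2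
      ((h3 y).1 ⟨h6, (mem_inter.1 hy).1⟩ ▸ (mem_inter.1 hy).2)) (subset_cl_of_r sdiff_subset ?_ h5)
    rw [union_eq_right.2 inter_subset_right, (hB.1.subset inter_subset_left).r_eq, h1]
  · obtain ⟨B, hB, -, h1⟩ := exists_base_between M.indep_empty (empty_subset _) h.2
    exact (du_indep hB).subset (subset_sdiff.2 ⟨h.1, (subset_sdiff.1 h1).2.symm⟩)

theorem du_card (hB : B ⊆ M.E) (hX : X ⊆ M.E) :
    ((M.E \ B) ∩ X).card + B.card = X.card + (B ∩ (M.E \ X)).card := by
  have h1 := card_sdiff_add_card_inter X B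
  have h2 := card_sdiff_add_card_inter B X
  rw [inter_comm, ← inter_sdiff_assoc, inter_eq_left.2 hX, ← inter_sdiff_assoc, inter_eq_left.2 hB]
  rw [inter_comm] at h2
  omega

theorem du_small (hA : M.IsBase A) (he : e ∈ A) (hf : f ∈ A) (h : f ≠ e) :
    ¬ M.IsBase (insert f (A.erase e)) := fun h1 => by
  rw [insert_eq_of_mem (mem_erase.2 ⟨h, hf⟩)] at h1
  exact (card_erase_lt_of_mem he).ne (h1.2.trans hA.2.symm)

@[simp] theorem dual_E (M : BM) : M.dual.E = M.E := rfl

theorem isBase_dual : M.dual.IsBase B ↔ B ⊆ M.E ∧ M.IsBase (M.E \ B) := by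
  refine ⟨fun h => ⟨h.subset, isBase_of_span sdiff_subset (du_iff.1 h.1).2 ?_⟩, fun h => ?_⟩
  · have h1 := card_sdiff_add_card_eq_card (show B ⊆ M.E from h.subset)
    have h2 := M.du_rE
    have h3 : B.card = M.dual.r M.E := h.2
    omega
  · exact du_ss h.1 ▸ du_base h.2

theorem r_dual (hX : X ⊆ M.E) : M.dual.r X + M.r M.E = X.card + M.r (M.E \ X) := by
  obtain ⟨B, hB, h1⟩ := M.exists_base_inter (M.E \ X)
  obtain ⟨B', hB', h2⟩ := M.dual.exists_base_inter X
  obtain ⟨h3, h4⟩ := isBase_dual.1 hB'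
  have a1 := du_card hB.subset hX
  have a2 := du_card h4.subset hX
  rw [du_ss h3] at a2
  have a3 := (du_base hB).card_inter_le X
  have a4 := h4.card_inter_le (M.E \ X)
  have a5 := hB.2
  have a6 := h4.2
  omega

theorem r_dual_E (M : BM) : M.dual.r M.E + M.r M.E = M.E.card := by
  exact M.du_rE

@[simp] theorem dual_dual (M : BM) : M.dual.dual = M := by
  refine ext_base rfl fun B => ?_
  rw [isBase_dual, isBase_dual, dual_E]
  exact ⟨fun h => du_ss h.1 ▸ h.2.2,
    fun h => ⟨h.subset, sdiff_subset, (du_ss h.subset).symm ▸ h⟩⟩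

theorem indep_dual : M.dual.Indep I ↔ I ⊆ M.E ∧ M.r (M.E \ I) = M.r M.E := by
  exact du_iff

/-- `e` lies in the coclosure of `X` iff it is not in the closure of the rest -/
theorem mem_cl_dual (hX : X ⊆ M.E) (he : e ∈ M.E) (heX : e ∉ X) :
    e ∈ M.dual.cl X ↔ e ∉ M.cl ((M.E \ X).erase e) := by
  have h1 := r_dual hX
  have h2 := r_dual (insert_subset he hX)
  have h3 := M.r_le_erase e (M.E \ X)
  have h4 := M.r_mono (erase_subset e (M.E \ X))
  rw [card_insert_of_notMem heX, sdiff_insert] at h2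
  rw [mem_cl, mem_cl, insert_erase (mem_sdiff.2 ⟨he, heX⟩), dual_E, and_iff_right he,
    and_iff_right he]
  omega

/-- a set is a cycle as soon as it meets every cocycle evenly -/
theorem cyc_iff_dual : M.cyc C ↔ C ⊆ M.E ∧ ∀ D, M.dual.cyc D → Even (D ∩ C).card := by
  conv_lhs => rw [← dual_dual M]
  rfl

theorem even_inter (hC : M.cyc C) (hD : M.dual.cyc D) : Even (C ∩ D).card := hD.2 C hC

theorem IsBase.exists_cocyc (hB : M.IsBase B) (he : e ∈ B) :
    ∃ D, M.dual.cyc D ∧ D ∩ B = {e} := by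
  exact du_cocyc hB he

theorem IsBase.exch_cocyc (hB : M.IsBase B) (hD : M.dual.cyc D) (h : D ∩ B = {e})
    (hf : f ∈ M.E) (hfB : f ∉ B) : M.IsBase (insert f (B.erase e)) ↔ f ∈ D := by
  have h1 := fun x => Finset.ext_iff.1 h x
  simp only [mem_inter, mem_singleton] at h1
  obtain ⟨C, c1, c2, c3⟩ := hB.exists_cyc hf hfB
  rw [hB.exch c1 c2 c3 hfB ((h1 e).2 rfl).2]
  refine ⟨fun h2 => ?_, fun h2 => ?_⟩
  · obtain ⟨g, g1, g2, g3⟩ := du_two c1 hD h2 ((h1 e).2 rfl).1
    exact (mem_insert.1 (c3 g1)).resolve_right (fun h3 => g3 ((h1 g).1 ⟨g2, h3⟩)) ▸ g2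
  · obtain ⟨g, g1, g2, g3⟩ := du_two c1 hD c2 h2
    exact (h1 g).1 ⟨g2, (mem_insert.1 (c3 g1)).resolve_left g3⟩ ▸ g1

theorem IsBase.inter_cocyc (hB : M.IsBase B) (hD : M.dual.cyc D) (hne : D.Nonempty) :
    (B ∩ D).Nonempty := by
  by_contra h
  exact hne.ne_empty ((du_indep hB).2 D hD (subset_sdiff.2
    ⟨hD.1, (disjoint_iff_inter_eq_empty.2 (not_nonempty_iff_eq_empty.1 h)).symm⟩))

/-- a set that avoids a cocycle spans nothing of it -/
theorem not_mem_cl_of_cocyc (hD : M.dual.cyc D) (he : e ∈ D) (hX : Disjoint X D) :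
    e ∉ M.cl X := by
  exact du_cl hD he hX

/-- the complement of a hyperplane is a cocycle -/
theorem cocyc_of_hyperplane (h : M.r X + 1 = M.r M.E) : M.dual.cyc (M.E \ M.cl X) := by
  refine cyc_of_circuit sdiff_subset (fun h1 => ?_) fun e he => ?_
  · have := (du_iff.1 h1).2
    rw [du_ss (M.cl_subset X), r_cl] at this
    omega
  · obtain ⟨h1, h2⟩ := mem_sdiff.1 he
    refine du_iff.2 ⟨(erase_subset _ _).trans sdiff_subset, ?_⟩
    rw [← sdiff_insert, du_ss (insert_subset h1 (M.cl_subset X))]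
    have a1 := M.r_le_insert e (M.cl X)
    have a2 := M.r_le_rE (insert e (M.cl X))
    rw [← cl_cl, mem_cl, and_iff_right h1] at h2
    rw [r_cl] at a1 h2
    omega

open Classical in
/-- the number of symmetric exchange partners is odd -/
theorem partners_odd (hA : M.IsBase A) (hB : M.IsBase B) (he : e ∈ A) (heB : e ∉ B) :
    Odd (B.filter fun f =>
      M.IsBase (insert f (A.erase e)) ∧ M.IsBase (insert e (B.erase f))).card := by
  obtain ⟨C, c1, c2, c3⟩ := hB.exists_cyc (hA.subset he) heB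
  obtain ⟨D, d1, d2⟩ := du_cocyc hA he
  have h1 := fun x => Finset.ext_iff.1 d2 x
  simp only [mem_inter, mem_singleton] at h1
  have h2 := even_inter c1 d1
  rw [filter_congr (q := fun f => f ∈ C ∩ D) fun f hf => ?_]
  · rw [show C ∩ D = insert e (B.filter fun f => f ∈ C ∩ D) from ?_,
      card_insert_of_notMem fun h => heB (mem_filter.1 h).1, Nat.even_add_one] at h2
    · exact Nat.not_even_iff_odd.1 h2
    · ext x
      have h3 := @c3 x
      simp only [mem_insert, mem_filter, mem_inter] at h3 ⊢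
      exact ⟨fun h => (h3 h.1).imp_right fun h4 => ⟨h4, h⟩,
        fun h => h.elim (fun h4 => h4 ▸ ⟨c2, ((h1 e).2 rfl).1⟩) fun h4 => h4.2⟩
  · rw [hB.exch c1 c2 c3 heB hf, mem_inter, and_comm]
    refine and_congr_right fun _ => ?_
    have h3 : f ≠ e := fun h => heB (h ▸ hf)
    by_cases h4 : f ∈ A
    · exact iff_of_false (du_small hA he h4 h3) fun h => h3 ((h1 f).1 ⟨h, h4⟩)
    · exact hA.exch_cocyc d1 d2 (hB.subset hf) h4

theorem sym_exch (hA : M.IsBase A) (hB : M.IsBase B) (he : e ∈ A) (heB : e ∉ B) :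
    ∃ f ∈ B, f ∉ A ∧ M.IsBase (insert f (A.erase e)) ∧ M.IsBase (insert e (B.erase f)) := by
  obtain ⟨f, hf⟩ := card_pos.1 (partners_odd hA hB he heB).pos
  simp only [mem_filter] at hf
  exact ⟨f, hf.1, fun h => du_small hA he h (fun h1 => heB (h1 ▸ hf.1)) hf.2.1, hf.2⟩

theorem lam_add (M : BM) (X : Finset ℕ) : M.lam X + M.r M.E = M.r X + M.r (M.E \ X) := by
  refine Nat.sub_add_cancel ((M.r_mono ?_).trans (M.r_union_le _ _))
  rw [union_sdiff_self_eq_union]
  exact subset_union_right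

theorem lam_compl (hX : X ⊆ M.E) : M.lam (M.E \ X) = M.lam X := by
  rw [lam, lam, du_ss hX, add_comm]

theorem lam_dual (hX : X ⊆ M.E) : M.dual.lam X = M.lam X := by
  have h1 := M.lam_add X
  have h2 := M.dual.lam_add X
  have h3 := r_dual hX
  have h4 := r_dual (M := M) (X := M.E \ X) sdiff_subset
  have h5 := M.r_dual_E
  have h6 := card_sdiff_add_card_eq_card hX
  rw [du_ss hX] at h4
  rw [dual_E] at h2
  omega

theorem lam_eq (hX : X ⊆ M.E) : M.lam X + X.card = M.r X + M.dual.r X := by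
  have h1 := M.lam_add X
  have h3 := r_dual hX
  omega

theorem lam_le_r (M : BM) (X : Finset ℕ) : M.lam X ≤ M.r X := by
  have h1 := M.lam_add X
  have h2 := M.r_le_rE (M.E \ X)
  omega

theorem lam_le_card (M : BM) (X : Finset ℕ) : M.lam X ≤ X.card := by
  exact (M.lam_le_r X).trans (M.r_le_card X)

theorem lam_submod (M : BM) (X Y : Finset ℕ) :
    M.lam (X ∪ Y) + M.lam (X ∩ Y) ≤ M.lam X + M.lam Y := by
  have h1 := M.lam_add X
  have h2 := M.lam_add Y
  have h3 := M.lam_add (X ∪ Y)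
  have h4 := M.lam_add (X ∩ Y)
  have h5 := M.r_submod X Y
  have h6 := M.r_submod (M.E \ X) (M.E \ Y)
  rw [sdiff_union_distrib] at h3
  rw [sdiff_inter_distrib_right] at h4
  omega

theorem lam_posimod (hX : X ⊆ M.E) (hY : Y ⊆ M.E) :
    M.lam (X \ Y) + M.lam (Y \ X) ≤ M.lam X + M.lam Y := by
  have h := M.lam_submod X (M.E \ Y)
  rwa [lam_compl hY, ← inter_sdiff_assoc, inter_eq_left.2 hX,
    ← lam_compl (union_subset hX sdiff_subset), sdiff_union_distrib, du_ss hY,
    inter_comm, ← inter_sdiff_assoc, inter_eq_left.2 hY, add_comm] at h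

theorem lam_insert_le (hX : X ⊆ M.E) (he : e ∈ M.E) : M.lam (insert e X) ≤ M.lam X + 1 := by
  have h1 := M.lam_add X
  have h2 := M.lam_add (insert e X)
  have h3 := M.r_insert_le e X
  have h4 := M.r_mono (sdiff_subset_sdiff (Subset.refl M.E) (subset_insert e X))
  omega

theorem lam_insert_of_cl (hX : X ⊆ M.E) (he : e ∈ M.cl X) : M.lam (insert e X) ≤ M.lam X := by
  have h1 := M.lam_add X
  have h2 := M.lam_add (insert e X)
  have h3 := (mem_cl.1 he).2
  have h4 := M.r_mono (sdiff_subset_sdiff (Subset.refl M.E) (subset_insert e X))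
  omega

theorem lam_insert_of_cocl (hX : X ⊆ M.E) (he : e ∈ M.dual.cl X) :
    M.lam (insert e X) ≤ M.lam X := by
  rw [← lam_dual hX, ← lam_dual (M := M) (insert_subset (M.dual.cl_subset X he) hX)]
  exact lam_insert_of_cl (M := M.dual) hX he

theorem Conn3.dual (h : M.Conn3) : M.dual.Conn3 := by
  exact fun X hX => (h X hX).trans (lam_dual (M := M) hX).ge

theorem Conn3.vc (h : M.Conn3) : M.VC := by
  exact fun X hX =>
    (min_le_min le_rfl (min_le_min (M.r_le_card _) (M.r_le_card _))).trans (h X hX)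

theorem Conn3.loopless (h : M.Conn3) (hE : 2 ≤ M.E.card) : M.Loopless := by
  intro e he
  have h1 := h {e} (singleton_subset_iff.2 he)
  have h2 := M.lam_le_r {e}
  have h3 := M.r_le_card {e}
  have h4 := card_sdiff_add_card_eq_card (singleton_subset_iff.2 he)
  rw [card_singleton] at h1 h3 h4
  omega

theorem Conn3.simple (h : M.Conn3) (hE : 4 ≤ M.E.card) : M.Simple := by
  intro X hX hc
  have h1 := h X hX
  have h2 := M.lam_le_r X
  have h3 := M.r_le_card X
  have h4 := card_sdiff_add_card_eq_card hX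
  exact indep_iff.2 ⟨hX, by omega⟩

theorem VC.conn3 (h : M.VC) (hs : M.Simple) : M.Conn3 := by
  have key : ∀ X ⊆ M.E, min 2 X.card ≤ M.r X := fun X hX => by
    obtain ⟨Y, h1, h2⟩ := exists_subset_card_eq (min_le_right 2 X.card)
    exact h2 ▸ (hs Y (h1.trans hX) (h2 ▸ min_le_left _ _)).card_le_r h1
  intro X hX
  have h1 := h X hX
  have h2 := key X hX
  have h3 := key (M.E \ X) sdiff_subset
  omega

end BM

end Pool.Agent.P.MP_3f5ce9_co
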