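import Pool.Agent.P.MP_3f5ce9_co.W.BGen
import Pool.Agent.P.MP_3f5ce9_co.W.Dual

/-!
Balancing at a cocycle of small weight.
-/

open Finset

namespace Pool.Agent.P.MP_3f5ce9_co

namespace BM

variable {M : BM} {I D : Finset ℕ} {P Q : ℕ → Finset ℕ}

theorem spa_card {A B A' B' : Finset ℕ} (h : Same A B A' B') (D : Finset ℕ) :
    (A ∩ D).card + (B ∩ D).card = (A' ∩ D).card + (B' ∩ D).card := by
  rw [← card_union_add_card_inter, ← card_union_add_card_inter (A' ∩ D),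
    ← union_inter_distrib_right, ← union_inter_distrib_right, ← inter_inter_distrib_right,
    ← inter_inter_distrib_right, h.1, h.2]

theorem spa_disj {𝓑 : Fam} {E : Finset ℕ} (hP : MS 𝓑 I (one E) P) {i j : ℕ} (hi : i ∈ I)
    (hj : j ∈ I) (hij : i ≠ j) {e : ℕ} (h1 : e ∈ P i) : e ∉ P j := fun h2 => by
  have h := hP.wt e
  have h3 : 1 < (I.filter fun i => e ∈ P i).card :=
    one_lt_card.2 ⟨i, mem_filter.2 ⟨hi, h1⟩, j, mem_filter.2 ⟨hj, h2⟩, hij⟩
  rw [h, one] at h3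
  split_ifs at h3 <;> omega

theorem spa_single (hD : M.dual.cyc D) (hne : D.Nonempty) (hμ : D.card < 2 * I.card)
    (hP : MS M.IsBase I (one M.E) P) : ∃ j ∈ I, ∃ e, D ∩ P j = {e} := by
  by_contra hc
  have h1 : ∀ j ∈ I, 2 ≤ (P j ∩ D).card := fun j hj => by
    have a := card_pos.2 ((hP.mem j hj).inter_cocyc hD hne)
    have b : (P j ∩ D).card ≠ 1 := fun k => hc ⟨j, hj, by rw [inter_comm]; exact card_eq_one.1 k⟩
    omega
  have h2 := card_nsmul_le_sum I _ 2 h1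
  have h3 : ∑ e ∈ D, one M.E e ≤ D.card • 1 := sum_le_card_nsmul _ _ _ fun e _ => by
    rw [one]; split_ifs <;> omega
  rw [hP.sum_card D] at h2
  simp only [smul_eq_mul] at h2 h3
  omega

theorem spa_step {A B : Finset ℕ} {e x z : ℕ} (hD : M.dual.cyc D) (hA : M.IsBase A)
    (hB : M.IsBase B) (dj : ∀ y ∈ A, y ∉ B) (he : D ∩ B = {e}) (xA : x ∈ A) (xD : x ∈ D)
    (zA : z ∈ A) (zD : z ∈ D) (xz : x ≠ z) :
    ∃ A' B', M.IsBase A' ∧ M.IsBase B' ∧ Same A B A' B' ∧ (B' ∩ D).card = 2 := by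
  have he' : ∀ y, y ∈ D ∧ y ∈ B ↔ y = e := fun y => by
    rw [← mem_inter, he, mem_singleton]
  obtain ⟨eD, eB⟩ := (he' e).2 rfl
  have eA : e ∉ A := fun h => dj e h eB
  have sym : ∀ g ∈ A, g ∈ D → ∀ h ∈ B, h ≠ e → M.IsBase (insert h (A.erase g)) →
      M.IsBase (insert g (B.erase h)) →
      ∃ A' B', M.IsBase A' ∧ M.IsBase B' ∧ Same A B A' B' ∧ (B' ∩ D).card = 2 := by
    intro g gA gD h hB' he1 b1 b2
    refine ⟨_, _, b1, b2, ⟨?_, ?_⟩, card_eq_two.2 ⟨g, e, fun k => eA (k ▸ gA), ?_⟩⟩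
    · ext y
      simp only [mem_union, mem_insert, mem_erase]
      grind
    · ext y
      simp only [mem_inter, mem_insert, mem_erase]
      grind
    · ext y
      simp only [mem_inter, mem_insert, mem_erase, mem_singleton]
      grind
  obtain ⟨C, c1, c2, c3⟩ := hA.exists_cyc (hB.subset eB) eA
  have out : ∀ g ∈ A, g ∈ D → g ∉ C →
      ∃ A' B', M.IsBase A' ∧ M.IsBase B' ∧ Same A B A' B' ∧ (B' ∩ D).card = 2 := by
    intro g gA gD gC
    obtain ⟨h, h1, -, h2, h3⟩ := sym_exch hA hB gA (dj g gA)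
    refine sym g gA gD h h1 ?_ h2 h3
    rintro rfl
    exact gC ((hA.exch c1 c2 c3 eA gA).1 h2)
  by_cases xC : x ∈ C
  swap
  · exact out x xA xD xC
  by_cases zC : z ∈ C
  swap
  · exact out z zA zD zC
  obtain ⟨K, k1, k2⟩ := hA.exists_cocyc zA
  have k3 : ∀ y, y ∈ K ∧ y ∈ A ↔ y = z := fun y => by rw [← mem_inter, k2, mem_singleton]
  have eK : e ∈ K := (hA.exch_cocyc k1 k2 (hB.subset eB) eA).1 ((hA.exch c1 c2 c3 eA zA).2 zC)
  have cy : ∀ g ∈ A, g ∈ D → ∃ Y, M.cyc Y ∧ g ∈ Y ∧ Y ⊆ insert g B ∧ e ∈ Y := by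
    intro g gA gD
    obtain ⟨Y, y1, y2, y3⟩ := hB.exists_cyc (hA.subset gA) (dj g gA)
    exact ⟨Y, y1, y2, y3, (hB.exch y1 y2 y3 (dj g gA) eB).1
      ((hB.exch_cocyc hD he (hA.subset gA) (dj g gA)).2 gD)⟩
  obtain ⟨Y, y1, y2, y3, y4⟩ := cy x xA xD
  obtain ⟨Y', z1, z2, z3, z4⟩ := cy z zA zD
  obtain ⟨h, hY, hK, he1⟩ := du_two y1 k1 y4 eK
  have hB' : h ∈ B := (mem_insert.1 (y3 hY)).resolve_left fun k => xz ((k3 x).1 ⟨k ▸ hK, xA⟩)
  have hA' : h ∉ A := fun k => dj h k hB'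
  have hD' : h ∉ D := fun k => he1 ((he' h).1 ⟨k, hB'⟩)
  have b1 := (hA.exch_cocyc k1 k2 (hB.subset hB') hA').2 hK
  have b2 := (hB.exch y1 y2 y3 (dj x xA) hB').2 hY
  by_cases hY' : h ∈ Y'
  · exact sym z zA zD h hB' he1 b1 ((hB.exch z1 z2 z3 (dj z zA) hB').2 hY')
  obtain ⟨Z, w1, w2, w3⟩ := hA.exists_cyc (hB.subset hB') hA'
  by_cases xZ : x ∈ Z
  · exact sym x xA xD h hB' he1 ((hA.exch w1 w2 w3 hA' xA).2 xZ) b2
  have zZ : z ∈ Z := (hA.exch w1 w2 w3 hA' zA).1 b1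
  have c4 : ∀ y ∈ C, y = e ∨ y ∈ A := fun y hy => mem_insert.1 (c3 hy)
  have w4 : ∀ y ∈ Z, y = h ∨ y ∈ A := fun y hy => mem_insert.1 (w3 hy)
  have z5 : ∀ y ∈ Y', y = z ∨ y ∈ B := fun y hy => mem_insert.1 (z3 hy)
  have b3 : M.IsBase (insert e ((insert h (A.erase z)).erase x)) := by
    refine (b1.exch (M.sd _ _ c1 w1) ?_ (fun y hy => ?_) ?_ ?_).2 ?_
    all_goals simp only [mem_symmDiff, mem_insert, mem_erase] at *
    all_goals grind
  have b4 : M.IsBase (insert z ((insert x (B.erase h)).erase e)) := by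
    refine (b2.exch z1 z2 (fun y hy => ?_) ?_ ?_).2 z4
    all_goals simp only [mem_insert, mem_erase]
    all_goals grind
  refine ⟨_, _, b3, b4, ⟨?_, ?_⟩, card_eq_two.2 ⟨x, z, xz, ?_⟩⟩
  · ext y
    simp only [mem_union, mem_insert, mem_erase]
    grind
  · ext y
    simp only [mem_inter, mem_insert, mem_erase]
    grind
  · ext y
    simp only [mem_inter, mem_insert, mem_erase, mem_singleton]
    grind

theorem spa_sum {f : ℕ → Finset ℕ → ℕ} {i j : ℕ} {A B : Finset ℕ} (hi : i ∈ I) (hij : i ≠ j)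
    (h1 : f i A < f i (P i)) (h2 : f j B ≤ f j (P j)) :
    ∑ l ∈ I, f l (Function.update (Function.update P i A) j B l) < ∑ l ∈ I, f l (P l) := by
  refine sum_lt_sum (fun l _ => ?_) ⟨i, hi, ?_⟩
  · by_cases lj : l = j
    · subst lj; simpa using h2
    by_cases li : l = i
    · subst li; simpa [lj] using h1.le
    · simp [lj, li]
  · simpa [hij] using h1

theorem sp_balance (hD : M.dual.cyc D) (hne : D.Nonempty) (hμ : D.card < 2 * I.card)
    (hP : MS M.IsBase I (one M.E) P) :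
    ∃ Q, Relation.ReflTransGen (RS2 M.IsBase I (one M.E)) P Q ∧ MS M.IsBase I (one M.E) Q ∧
      ∀ i ∈ I, (Q i ∩ D).card ≤ 2 := by
  induction hn : ∑ l ∈ I, ((P l ∩ D).card - 2) using Nat.strong_induction_on generalizing P with
  | _ n ih =>
  by_cases hb : ∀ i ∈ I, (P i ∩ D).card ≤ 2
  · exact ⟨P, .refl, hP, hb⟩
  push Not at hb
  obtain ⟨i, hi, h3⟩ := hb
  obtain ⟨j, hj, e, he⟩ := spa_single hD hne hμ hP
  have c1 : (P j ∩ D).card = 1 := by rw [inter_comm, he, card_singleton]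
  have hij : i ≠ j := by rintro rfl; omega
  obtain ⟨x, hx, z, hz, xz⟩ := one_lt_card.1 (show 1 < (P i ∩ D).card by omega)
  obtain ⟨A, B, hA, hB, sm, c2⟩ := spa_step hD (hP.mem i hi) (hP.mem j hj)
    (fun y hy => spa_disj hP hi hj hij hy) he (mem_inter.1 hx).1 (mem_inter.1 hx).2
    (mem_inter.1 hz).1 (mem_inter.1 hz).2 xz
  have st := hP.update2 hi hj hij hA hB sm
  have c3 := spa_card sm D
  obtain ⟨Q, q1, q2⟩ := ih _ (hn ▸ spa_sum (f := fun _ X => (X ∩ D).card - 2) hi hij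
    (by omega) (by omega)) st.2.1 rfl
  exact ⟨Q, .head st q1, q2⟩

theorem sp_local (hI : 3 ≤ I.card) (hD : M.dual.cyc D) (hne : D.Nonempty)
    (hμ : D.card < 2 * I.card) (hP : MS M.IsBase I (one M.E) P) (hQ : MS M.IsBase I (one M.E) Q)
    (h : ∀ i ∈ I, P i \ D = Q i \ D) : Relation.ReflTransGen (Sh M.IsBase I (one M.E)) P Q := by
  induction hn : ∑ l ∈ I, (P l \ Q l).card using Nat.strong_induction_on generalizing P with
  | _ n ih =>
  obtain ⟨l, hl, e, he⟩ := spa_single hD hne hμ hP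
  have he' : ∀ y, y ∈ D ∧ y ∈ P l ↔ y = e := fun y => by
    rw [← mem_inter, he, mem_singleton]
  obtain ⟨eD, eP⟩ := (he' e).2 rfl
  have h' : ∀ i ∈ I, ∀ y, y ∈ P i ∧ y ∉ D ↔ y ∈ Q i ∧ y ∉ D := fun i hi y => by
    rw [← mem_sdiff, h i hi, mem_sdiff]
  by_cases eQ : e ∈ Q l
  · refine .single ⟨hP, hQ, l, hl, eq_of_subset_of_card_le (fun y hy => ?_)
      ((hQ.mem l hl).2.trans (hP.mem l hl).2.symm).le⟩
    by_cases yD : y ∈ D
    · rw [(he' y).1 ⟨yD, hy⟩]; exact eQ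
    · exact ((h' l hl y).1 ⟨hy, yD⟩).1
  have eE : e ∈ M.E := (hP.mem l hl).subset eP
  obtain ⟨i, hi⟩ : (I.filter fun i => e ∈ Q i).Nonempty := by
    rw [← card_pos, hQ.wt, one, if_pos eE]; exact one_pos
  obtain ⟨hi, eQi⟩ := mem_filter.1 hi
  have il : i ≠ l := by rintro rfl; exact eQ eQi
  have ePi : e ∉ P i := spa_disj hP hl hi il.symm eP
  obtain ⟨C, c1, c2, c3⟩ := (hP.mem i hi).exists_cyc eE ePi
  obtain ⟨f, fC, fQ⟩ : ∃ f ∈ C, f ∉ Q i := by
    by_contra k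
    push Not at k
    exact ne_empty_of_mem c2 ((hQ.mem i hi).1.2 C c1 k)
  have fP : f ∈ P i := (mem_insert.1 (c3 fC)).resolve_left fun k => fQ (k ▸ eQi)
  have fD : f ∈ D := by_contra fun k => fQ ((h' i hi f).1 ⟨fP, k⟩).1
  have fl : f ∉ P l := spa_disj hP hi hl il fP
  have b1 := ((hP.mem i hi).exch c1 c2 c3 ePi fP).2 fC
  have b2 := ((hP.mem l hl).exch_cocyc hD he ((hP.mem i hi).subset fP) fl).2 fD
  have st := hP.update2 hi hl il b1 b2 (by
    constructor <;> ext y <;> simp only [mem_union, mem_inter, mem_insert, mem_erase] <;> grind)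
  refine .head (st.sh hI) (ih _ (lt_of_lt_of_eq
    (spa_sum (f := fun k X => (X \ Q k).card) hi il ?_ ?_) hn) st.2.1 (fun k hk => ?_) rfl)
  · refine card_lt_card ((ssubset_iff_of_subset fun y hy => ?_).2 ⟨f, ?_, ?_⟩)
    all_goals simp only [mem_sdiff, mem_insert, mem_erase] at *
    all_goals grind
  · have s1 : insert f ((P l).erase e) \ Q l ⊆ insert f ((P l \ Q l).erase e) := fun y hy => by
      simp only [mem_sdiff, mem_insert, mem_erase] at *
      grind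
    have s2 := card_insert_le f ((P l \ Q l).erase e)
    have s3 := card_erase_add_one (mem_sdiff.2 ⟨eP, eQ⟩)
    have s4 := card_le_card s1
    omega
  · rw [← h k hk]
    by_cases kl : k = l
    · subst kl
      ext y
      simp only [Function.update_self, mem_sdiff, mem_insert, mem_erase]
      grind
    by_cases ki : k = i
    · subst ki
      ext y
      simp only [Function.update_of_ne kl, Function.update_self, mem_sdiff, mem_insert, mem_erase]
      grind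
    · simp [kl, ki]

end BM

end Pool.Agent.P.MP_3f5ce9_co
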