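import Pool.Agent.P.MP_3f5ce9_co.W.BSplA
import Pool.Agent.P.MP_3f5ce9_co.W.Lin
import Pool.Agent.P.MP_3f5ce9_co.Split

/-!
Splitting off a matching at a cocycle of small weight.
-/

open Finset

namespace Pool.Agent.P.MP_3f5ce9_co

theorem spb_ms {𝓑 : Fam} {I E : Finset ℕ} {P : ℕ → Finset ℕ} : MS 𝓑 I (one E) P ↔
    (∀ i ∈ I, 𝓑 (P i)) ∧ (∀ i ∈ I, ∀ j ∈ I, ∀ e, e ∈ P i → e ∈ P j → i = j) ∧
      ∀ e, e ∈ E ↔ ∃ i ∈ I, e ∈ P i := by
  constructor
  · rintro ⟨h1, h2⟩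
    refine ⟨h1, fun i hi j hj e k1 k2 => ?_, fun e => ⟨fun he => ?_, ?_⟩⟩
    · have : (I.filter fun i => e ∈ P i).card ≤ 1 := by
        rw [h2, one]; split_ifs <;> omega
      exact card_le_one.1 this i (mem_filter.2 ⟨hi, k1⟩) j (mem_filter.2 ⟨hj, k2⟩)
    · have : 0 < (I.filter fun i => e ∈ P i).card := by
        rw [h2, one, if_pos he]; omega
      obtain ⟨i, hi⟩ := card_pos.1 this
      exact ⟨i, mem_filter.1 hi⟩
    · rintro ⟨i, hi, he⟩
      have := card_pos.2 ⟨i, (mem_filter (p := fun i => e ∈ P i)).2 ⟨hi, he⟩⟩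
      rw [h2, one] at this
      by_contra hn
      rw [if_neg hn] at this
      omega
  · rintro ⟨h1, h2, h3⟩
    refine ⟨h1, fun e => ?_⟩
    rw [one]
    split_ifs with he
    · obtain ⟨i, hi, k⟩ := (h3 e).1 he
      refine card_eq_one.2 ⟨i, eq_singleton_iff_unique_mem.2 ⟨mem_filter.2 ⟨hi, k⟩, fun j hj => ?_⟩⟩
      exact h2 j (mem_filter.1 hj).1 i hi e (mem_filter.1 hj).2 k
    · rw [card_eq_zero, filter_eq_empty_iff]
      exact fun i hi k => he ((h3 e).2 ⟨i, hi, k⟩)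

namespace BM

variable {M : BM} {I D : Finset ℕ}

section

variable {Z A X O : Finset ℕ} {ρ : ℕ → ℕ} {P : ℕ → Finset ℕ}

/-- the pairs that are split off -/
def spbPhi (Z : Finset ℕ) (ρ : ℕ → ℕ) (e : ℕ) : Finset ℕ := if e ∈ Z then {e, ρ e} else {e}

/-- the split matroid -/
def spb (M : BM) (D Z : Finset ℕ) (ρ : ℕ → ℕ) : BM := M.lin (spbPhi Z ρ) (M.E \ D ∪ Z)

structure SpbOk (M : BM) (D Z : Finset ℕ) (ρ : ℕ → ℕ) : Prop where
  cocyc : M.dual.cyc D
  sub : Z ⊆ D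
  out : ∀ z ∈ Z, ρ z ∈ D ∧ ρ z ∉ Z

theorem SpbOk.ne (h : SpbOk M D Z ρ) {z : ℕ} (hz : z ∈ Z) : z ≠ ρ z := fun e =>
  (h.out z hz).2 (e ▸ hz)

theorem spb_lt (h : SpbOk M D Z ρ) (hA : A ⊆ M.E \ D ∪ Z) (hX : X ⊆ M.E) (h1 : A ⊆ X)
    (h2 : ∀ z ∈ A, z ∈ Z → ρ z ∈ X) {d : ℕ} (hd : d ∈ X) (hd' : d ∈ D) :
    (M.spb D Z ρ).r A < M.r X := by
  obtain ⟨v, hv⟩ := M.exists_rep
  obtain ⟨l, hl⟩ := hv.cocyc.1 h.cocyc
  have hDE : D ⊆ M.E := h.cocyc.1
  have mD : ∀ e ∈ M.E, e ∈ D ↔ l (v e) = 1 := fun e he => by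
    conv_lhs => rw [hl]
    rw [mem_filter]; tauto
  have hφ : ∀ x ∈ M.E \ D ∪ Z, spbPhi Z ρ x ⊆ M.E := by
    intro x hx
    unfold spbPhi
    split_ifs with hz
    · exact insert_subset (hDE (h.sub hz)) (singleton_subset_iff.2 (hDE (h.out x hz).1))
    · exact singleton_subset_iff.2 (mem_sdiff.1 ((mem_union.1 hx).resolve_right hz)).1
  have hw : (M.spb D Z ρ).Rep fun x => ∑ e ∈ spbPhi Z ρ x, v e := hv.lin hφ
  rw [hw.r_eq hA, hv.r_eq hX]
  have : FiniteDimensional (ZMod 2) (Submodule.span (ZMod 2) (v '' (X : Set ℕ))) :=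
    FiniteDimensional.span_of_finite _ (X.finite_toSet.image _)
  apply Submodule.finrank_lt_finrank_of_lt
  refine lt_of_le_of_ne (Submodule.span_le.2 ?_) fun he => ?_
  · rintro _ ⟨a, ha, rfl⟩
    refine Submodule.sum_mem _ fun e he => Submodule.subset_span ⟨e, ?_, rfl⟩
    unfold spbPhi at he
    split_ifs at he with hz
    · rcases mem_insert.1 he with rfl | he
      · exact h1 ha
      · rw [mem_singleton.1 he]; exact h2 a ha hz
    · rw [mem_singleton.1 he]; exact h1 ha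
  · have k1 : Submodule.span (ZMod 2) ((fun x => ∑ e ∈ spbPhi Z ρ x, v e) '' (A : Set ℕ)) ≤
        LinearMap.ker l := by
      refine Submodule.span_le.2 ?_
      rintro _ ⟨a, ha, rfl⟩
      simp only [SetLike.mem_coe, LinearMap.mem_ker]
      unfold spbPhi
      split_ifs with hz
      · rw [sum_pair (h.ne hz), map_add, (mD _ (hDE (h.sub hz))).1 (h.sub hz),
          (mD _ (hDE (h.out a hz).1)).1 (h.out a hz).1]
        decide
      · have k := mem_sdiff.1 ((mem_union.1 (hA ha)).resolve_right hz)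
        rw [sum_singleton]
        exact (lin_two _).resolve_right fun k' => k.2 ((mD _ k.1).2 k')
    rw [he] at k1
    have k2 := k1 (Submodule.subset_span ⟨d, hd, rfl⟩)
    rw [LinearMap.mem_ker, (mD d (hX hd)).1 hd'] at k2
    exact one_ne_zero k2

theorem spb_odd {C : Finset ℕ} (h : ∀ e ∈ C, e ∉ Z) : oddSum (spbPhi Z ρ) C = C := by
  rw [lin_cg (ψ := fun x => {id x}) fun x hx => by simp [spbPhi, h x hx],
    mn_inj (Set.injOn_id _), image_id]

theorem spb_indep (h : SpbOk M D Z ρ) (hO : ∀ e ∈ O, e ∉ D) :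
    (M.spb D Z ρ).Indep O ↔ M.Indep O := by
  have hZ : ∀ C ⊆ O, ∀ e ∈ C, e ∉ Z := fun C hC e he hz => hO e (hC he) (h.sub hz)
  constructor
  · rintro ⟨h1, h2⟩
    have h3 : O ⊆ M.E := fun e he =>
      (mem_sdiff.1 ((mem_union.1 (h1 he)).resolve_right (hZ O Subset.rfl e he))).1
    refine ⟨h3, fun C hC hCO => h2 C ⟨hCO.trans h1, ?_⟩ hCO⟩
    rwa [spb_odd (hZ C hCO)]
  · rintro ⟨h1, h2⟩
    refine ⟨fun e he => mem_union_left _ (mem_sdiff.2 ⟨h1 he, hO e he⟩), fun C hC hCO => ?_⟩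
    have := hC.2
    rw [spb_odd (hZ C hCO)] at this
    exact h2 C this hCO

/-- the sum of `e` and `f` is spanned by `O` -/
def SpbS (M : BM) (O : Finset ℕ) (e f : ℕ) : Prop :=
  ∃ Y ⊆ O, M.cyc (symmDiff Y (symmDiff {e} {f}))

theorem SpbS.refl (M : BM) (O : Finset ℕ) (e : ℕ) : M.SpbS O e e :=
  ⟨∅, empty_subset _, by simpa using M.nil⟩

theorem SpbS.symm {e f : ℕ} (h : M.SpbS O e f) : M.SpbS O f e := by
  obtain ⟨Y, h1, h2⟩ := h
  exact ⟨Y, h1, by rwa [symmDiff_comm ({f} : Finset ℕ)]⟩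

theorem SpbS.trans {e f g : ℕ} (h : M.SpbS O e f) (h' : M.SpbS O f g) : M.SpbS O e g := by
  obtain ⟨Y, h1, h2⟩ := h
  obtain ⟨Y', h3, h4⟩ := h'
  refine ⟨symmDiff Y Y', symmDiff_sub h1 h3, ?_⟩
  have := M.sd _ _ h2 h4
  rwa [symmDiff_symmDiff_symmDiff_comm, symmDiff_assoc ({e} : Finset ℕ),
    symmDiff_symmDiff_cancel_left] at this

theorem spb_insert (h : SpbOk M D Z ρ) (hO : ∀ e ∈ O, e ∉ D) (hi : M.Indep O) {z : ℕ}
    (hz : z ∈ Z) (hs : ¬ M.SpbS O z (ρ z)) : (M.spb D Z ρ).Indep (insert z O) := by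
  have h1 := (spb_indep h hO).2 hi
  have hzO : z ∉ O := fun k => hO z k (h.sub hz)
  refine (h1.insert_iff (mem_union_right _ hz) hzO).2 ?_
  rintro ⟨C, c1, c2, c3⟩
  have c4 : C.erase z ⊆ O := fun e he =>
    (mem_insert.1 (c3 (mem_of_mem_erase he))).resolve_left (ne_of_mem_erase he)
  refine hs ⟨C.erase z, c4, ?_⟩
  have c5 := c1.2
  rw [← insert_erase c2, lin_ins _ (notMem_erase _ _),
    spb_odd fun e he k => hO e (c4 he) (h.sub k), spbPhi, if_pos hz,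
    mn_ins (by simpa using h.ne hz), symmDiff_comm] at c5
  exact c5

theorem spb_hall (hP : MS M.IsBase I (one M.E) P) :
    ∃ f : ℕ → ℕ → Bool, Hall D (I.filter fun i => (P i ∩ D).card = 2) f ∧
      ∀ i e e', f i e ≠ f i e' → ¬ M.SpbS (P i \ D) e e' := by
  classical
  obtain ⟨p1, p2, -⟩ := spb_ms.1 hP
  have h1 : ∀ i, ∃ x y : ℕ, (P i ∩ D).card = 2 → x ≠ y ∧ (x ∈ P i ∧ x ∈ D) ∧
      (y ∈ P i ∧ y ∈ D) := by
    intro i
    by_cases hi : (P i ∩ D).card = 2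
    · obtain ⟨x, y, hxy, hP⟩ := card_eq_two.1 hi
      have hx : x ∈ P i ∩ D := by rw [hP]; simp
      have hy : y ∈ P i ∩ D := by rw [hP]; simp
      exact ⟨x, y, fun _ => ⟨hxy, mem_inter.1 hx, mem_inter.1 hy⟩⟩
    · exact ⟨0, 0, fun h => absurd h hi⟩
  choose x y m using h1
  refine ⟨fun i e => decide (M.SpbS (P i \ D) (x i) e),
    fun Q hQ => ?_, fun i e e' hne hc => hne ?_⟩
  · refine card_le_card_of_injOn (fun s => if s.2 then x s.1 else y s.1) ?_ ?_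
    · rintro ⟨i, ε⟩ hs
      obtain ⟨hI, hi⟩ := mem_filter.1 (hQ _ hs)
      obtain ⟨hxy, ⟨m1, m2⟩, m3, m4⟩ := m i hi
      simp only [mem_coe, mem_nb]
      cases ε
      · refine ⟨m4, _, hs, ?_⟩
        simp only [Bool.false_eq_true, if_false, decide_eq_false_iff_not]
        rintro ⟨Y, k1, k2⟩
        have k3 := (p1 i hI).1.2 _ k2 (symmDiff_sub (k1.trans sdiff_subset)
          (symmDiff_sub (singleton_subset_iff.2 m1) (singleton_subset_iff.2 m3)))
        have k4 : x i ∈ symmDiff Y (symmDiff {x i} {y i}) := by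
          have : x i ∉ Y := fun k => (mem_sdiff.1 (k1 k)).2 m2
          simp [mem_symmDiff, this, hxy]
        rw [k3] at k4
        exact notMem_empty _ k4
      · refine ⟨m2, _, hs, ?_⟩
        simp only [if_true, decide_eq_true_eq]
        exact SpbS.refl _ _ _
    · rintro ⟨i, ε⟩ hs ⟨j, ε'⟩ hs' heq
      obtain ⟨hI, hi⟩ := mem_filter.1 (hQ _ hs)
      obtain ⟨hJ, hj⟩ := mem_filter.1 (hQ _ hs')
      obtain ⟨hxy, ⟨m1, -⟩, m3, -⟩ := m i hi
      obtain ⟨-, ⟨n1, -⟩, n3, -⟩ := m j hj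
      have d := p2 i hI j hJ
      have hij : i = j := by
        cases ε <;> cases ε' <;> simp only [Bool.false_eq_true, if_false, if_true] at heq
        · exact d _ m3 (heq ▸ n3)
        · exact d _ m3 (heq ▸ n1)
        · exact d _ m1 (heq ▸ n3)
        · exact d _ m1 (heq ▸ n1)
      subst hij
      cases ε <;> cases ε' <;> simp only [Bool.false_eq_true, if_false, if_true] at heq
      · rfl
      · exact absurd heq.symm hxy
      · exact absurd heq hxy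
      · rfl
  · rw [decide_eq_decide]
    exact ⟨fun h => h.trans hc, fun h => h.trans hc.symm⟩

theorem spb_sum (hP : MS M.IsBase I (one M.E) P) (hX : X ⊆ M.E) :
    ∑ i ∈ I, (P i ∩ X).card = X.card := by
  rw [hP.sum_card, card_eq_sum_ones]
  exact sum_congr rfl fun e he => if_pos (hX he)

theorem spb_bal (hD : M.dual.cyc D) (hne : D.Nonempty) (hP : MS M.IsBase I (one M.E) P)
    (hb : ∀ i ∈ I, (P i ∩ D).card ≤ 2) :
    D.card = I.card + (I.filter fun i => (P i ∩ D).card = 2).card := by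
  rw [← spb_sum hP hD.1, Finset.card_filter, card_eq_sum_ones I, ← sum_add_distrib]
  refine sum_congr rfl fun i hi => ?_
  have := hb i hi
  have := ((hP.mem i hi).inter_cocyc hD hne).card_pos
  split_ifs <;> omega

theorem spb_card (hP : MS M.IsBase I (one M.E) P) : M.E.card = I.card * M.r M.E := by
  rw [← spb_sum hP Subset.rfl, card_eq_sum_ones I, sum_mul]
  refine sum_congr rfl fun i hi => ?_
  rw [inter_eq_left.2 (hP.mem i hi).subset, (hP.mem i hi).2, one_mul]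

theorem spb_rank (h : SpbOk M D Z ρ) (hne : D.Nonempty) :
    (M.spb D Z ρ).r (M.spb D Z ρ).E < M.r M.E := by
  obtain ⟨d, hd⟩ := hne
  have hDE : D ⊆ M.E := h.cocyc.1
  exact spb_lt h Subset.rfl Subset.rfl (union_subset sdiff_subset (h.sub.trans hDE))
    (fun z _ hz => hDE (h.out z hz).1) (hDE hd) hd

theorem spb_proj (h : SpbOk M D Z ρ) (hne : D.Nonempty) (hP : MS M.IsBase I (one M.E) P)
    (hb : ∀ i ∈ I, (P i ∩ D).card ≤ 2) {π : ℕ → ℕ}
    (hπ : Set.BijOn π Z (I.filter fun i => (P i ∩ D).card = 2))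
    (hs : ∀ z ∈ Z, ¬ M.SpbS (P (π z) \ D) z (ρ z)) :
    ∃ A, MS (M.spb D Z ρ).IsBase I (one (M.E \ D ∪ Z)) A ∧ (∀ i ∈ I, A i \ D = P i \ D) ∧
      ∀ i ∈ I, (A i).card + 1 = M.r M.E := by
  obtain ⟨p1, p2, p3⟩ := spb_ms.1 hP
  have hr := spb_rank h hne
  have key : ∀ i ∈ I, (M.spb D Z ρ).Indep (P i \ D ∪ Z.filter (fun z => π z = i)) ∧
      (P i \ D ∪ Z.filter (fun z => π z = i)).card + 1 = M.r M.E := by
    intro i hi
    have k1 := card_sdiff_add_card_inter (P i) D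
    have k2 := (p1 i hi).2
    have k3 : M.Indep (P i \ D) := (p1 i hi).1.subset sdiff_subset
    have k4 : ∀ e ∈ P i \ D, e ∉ D := fun e he => (mem_sdiff.1 he).2
    by_cases h2 : (P i ∩ D).card = 2
    · obtain ⟨z, hz, hzi⟩ := hπ.surjOn (mem_coe.2 (mem_filter.2 ⟨hi, h2⟩))
      have h3 : P i \ D ∪ Z.filter (fun z => π z = i) = insert z (P i \ D) := by
        ext g
        have := @hπ.2.1 g
        simp only [mem_union, mem_filter, mem_insert, mem_coe] at *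
        grind
      rw [h3, card_insert_of_notMem fun k => k4 z k (h.sub hz)]
      exact ⟨spb_insert h k4 k3 hz (hzi ▸ hs z hz), by omega⟩
    · have h3 : Z.filter (fun z => π z = i) = ∅ := by
        rw [filter_eq_empty_iff]
        intro z hz hzi
        have := hπ.mapsTo hz
        rw [hzi, mem_coe, mem_filter] at this
        exact h2 this.2
      rw [h3, union_empty]
      have := hb i hi
      have := ((p1 i hi).inter_cocyc h.cocyc hne).card_pos
      exact ⟨(spb_indep h k4).2 k3, by omega⟩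
  refine ⟨fun i => P i \ D ∪ Z.filter (fun z => π z = i),
    spb_ms.2 ⟨fun i hi => ?_, fun i hi j hj e => ?_, fun e => ?_⟩, fun i hi => ?_,
    fun i hi => (key i hi).2⟩
  · obtain ⟨k1, k2⟩ := key i hi
    have := k1.card_le_r k1.1
    exact ⟨k1, by omega⟩
  · have := p2 i hi j hj e
    have := @h.sub e
    simp only [mem_union, mem_filter, mem_sdiff]
    grind
  · simp only [mem_union, mem_sdiff, p3 e, mem_filter]
    constructor
    · rintro (⟨⟨i, hi, h1⟩, h2⟩ | h1)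
      · exact ⟨i, hi, Or.inl ⟨h1, h2⟩⟩
      · exact ⟨π e, (mem_filter.1 (mem_coe.1 (hπ.mapsTo h1))).1, Or.inr ⟨h1, rfl⟩⟩
    · rintro ⟨i, hi, h1 | h1⟩
      · exact Or.inl ⟨⟨i, hi, h1.1⟩, h1.2⟩
      · exact Or.inr h1.1
  · ext e
    have := @h.sub e
    simp only [mem_union, mem_filter, mem_sdiff]
    tauto

theorem spb_class (h : SpbOk M D Z ρ) (hr : M.r M.E ≤ (M.spb D Z ρ).r (M.spb D Z ρ).E + 1)
    (hA : (M.spb D Z ρ).IsBase A) (hne : (A ∩ Z).Nonempty) :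
    ∃ T, M.IsBase T ∧ A \ Z ⊆ T ∧ T ⊆ A ∪ (A ∩ Z).image ρ := by
  have hDE : D ⊆ M.E := h.cocyc.1
  have hAE : A ⊆ M.E \ D ∪ Z := hA.subset
  have h1 : M.Indep (A \ Z) := (spb_indep h fun e he =>
    (mem_sdiff.1 ((mem_union.1 (hAE (mem_sdiff.1 he).1)).resolve_right (mem_sdiff.1 he).2)).2).1
    (hA.1.subset sdiff_subset)
  obtain ⟨z, hz⟩ := hne
  refine exists_base_between h1 (sdiff_subset.trans subset_union_left) ?_
  have h2 := spb_lt (X := A ∪ (A ∩ Z).image ρ) h hAE (union_subset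
    (hAE.trans (union_subset sdiff_subset (h.sub.trans hDE))) fun e he => by
      obtain ⟨k, hk, rfl⟩ := mem_image.1 he
      exact hDE (h.out k (mem_inter.1 hk).2).1) subset_union_left
    (fun y hy k => mem_union_right _ (mem_image_of_mem _ (mem_inter.2 ⟨hy, k⟩)))
    (mem_union_left _ (mem_inter.1 hz).1) (h.sub (mem_inter.1 hz).2)
  rw [hA.r_eq] at h2
  have := M.r_le_rE (A ∪ (A ∩ Z).image ρ)
  omega

theorem spb_free (h : SpbOk M D Z ρ) (hr : M.r M.E = (M.spb D Z ρ).r (M.spb D Z ρ).E + 1)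
    (hA : (M.spb D Z ρ).IsBase A) (hne : ¬ (A ∩ Z).Nonempty) {s : ℕ} (hs : s ∈ D) :
    M.IsBase (insert s A) := by
  have hDE : D ⊆ M.E := h.cocyc.1
  have hAE : A ⊆ M.E \ D ∪ Z := hA.subset
  have h1 : insert s A ⊆ M.E :=
    insert_subset (hDE hs) (hAE.trans (union_subset sdiff_subset (h.sub.trans hDE)))
  have h2 := spb_lt h hAE h1 (subset_insert _ _)
    (fun y hy k => absurd ⟨y, mem_inter.2 ⟨hy, k⟩⟩ hne) (mem_insert_self _ _) hs
  rw [hA.r_eq] at h2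
  have := M.r_le_rE (insert s A)
  have := card_insert_le s A
  have := hA.2
  exact isBase_of_span h1 (by omega) (by omega)

theorem spb_lift (h : SpbOk M D Z ρ) (hr : M.r M.E = (M.spb D Z ρ).r (M.spb D Z ρ).E + 1)
    (hcard : M.E.card = I.card * M.r M.E) (hinj : Set.InjOn ρ Z)
    {s : ℕ} (hs : s ∈ D) (hsZ : s ∉ Z) (hsρ : ∀ z ∈ Z, ρ z ≠ s) :
    ∃ Λ : Finset ℕ → Finset ℕ, ∀ A l, MS (M.spb D Z ρ).IsBase I (one (M.E \ D ∪ Z)) A →
      l ∈ I → ∃ c, MS M.IsBase I (one M.E) c ∧ (∀ i ∈ I, A i \ D = c i \ D) ∧ c l = Λ (A l) := by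
  have hDE : D ⊆ M.E := h.cocyc.1
  have h1 : ∀ A : Finset ℕ, ∃ T, (M.spb D Z ρ).IsBase A →
      (A ∩ Z).Nonempty → M.IsBase T ∧ A \ Z ⊆ T ∧ T ⊆ A ∪ (A ∩ Z).image ρ := by
    intro A
    by_cases k : (M.spb D Z ρ).IsBase A ∧ (A ∩ Z).Nonempty
    · obtain ⟨T, hT⟩ := spb_class h hr.le k.1 k.2
      exact ⟨T, fun _ _ => hT⟩
    · exact ⟨∅, fun a b => absurd ⟨a, b⟩ k⟩
  choose L hL using h1
  refine ⟨fun A => if (A ∩ Z).Nonempty then L A else insert s A, fun A l hA hl => ?_⟩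
  obtain ⟨a1, a2, a3⟩ := spb_ms.1 hA
  have hL' := fun i hi => hL (A i) (a1 i hi)
  let C : ℕ → Finset ℕ := fun i => if (A i ∩ Z).Nonempty then L (A i) else A i
  have c1 : ∀ i ∈ I, ∀ e ∈ C i, e ∈ A i ∨ ∃ z ∈ A i, z ∈ Z ∧ ρ z = e := by
    intro i hi e he
    simp only [C] at he
    split_ifs at he with k
    · have := (hL' i hi k).2.2 he
      simp only [mem_union, mem_image, mem_inter] at this
      grind
    · exact Or.inl he
  have c2 : ∀ i ∈ I, ∀ e ∈ A i, e ∉ Z → e ∈ C i := by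
    intro i hi e he heZ
    simp only [C]
    split_ifs with k
    · exact (hL' i hi k).2.1 (mem_sdiff.2 ⟨he, heZ⟩)
    · exact he
  have c3 : ∀ i ∈ I, ∀ e ∈ A i, e ∈ M.E ∧ (e ∈ D → e ∈ Z) := by
    intro i hi e he
    have := (a3 e).2 ⟨i, hi, he⟩
    have := @h.sub e
    have := @hDE e
    simp only [mem_union, mem_sdiff] at *
    tauto
  have c4 : ∀ i ∈ I, ∀ j ∈ I, ∀ e, e ∈ C i → e ∈ C j → i = j := by
    intro i hi j hj e k1 k2
    rcases c1 i hi e k1 with k1 | ⟨z, z1, z2, rfl⟩ <;> rcases c1 j hj _ k2 with k2 | ⟨y, y1, y2, y3⟩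
    · exact a2 i hi j hj e k1 k2
    · subst y3
      exact absurd ((c3 i hi _ k1).2 (h.out y y2).1) (h.out y y2).2
    · exact absurd ((c3 j hj _ k2).2 (h.out z z2).1) (h.out z z2).2
    · rw [hinj y2 z2 y3] at y1
      exact a2 i hi j hj z z1 y1
  have c5 : ∀ i ∈ I, C i ⊆ M.E := by
    intro i hi e he
    rcases c1 i hi e he with k1 | ⟨z, _, z2, rfl⟩
    · exact (c3 i hi e k1).1
    · exact hDE (h.out z z2).1
  set R := M.E \ I.biUnion C with hR
  have mR : ∀ e, e ∈ R ↔ e ∈ M.E ∧ ∀ i ∈ I, e ∉ C i := fun e => by simp [hR]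
  have r1 : ∀ e ∈ R, e ∈ D := by
    intro e he
    by_contra hi
    rw [mR] at he
    obtain ⟨i, hi', k⟩ := (a3 e).1 (mem_union_left _ (mem_sdiff.2 ⟨he.1, hi⟩))
    exact he.2 i hi' (c2 i hi' e k fun k' => hi (h.sub k'))
  have r2 : s ∈ R := by
    rw [mR]
    refine ⟨hDE hs, fun i hi k => ?_⟩
    rcases c1 i hi s k with k | ⟨z, _, z2, z3⟩
    · exact hsZ ((c3 i hi s k).2 hs)
    · exact hsρ z z2 z3
  have r3 : (I.filter fun i => ¬ (A i ∩ Z).Nonempty).card = R.card := by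
    have k1 := card_sdiff_add_card_eq_card (biUnion_subset.2 c5)
    rw [card_biUnion (fun i hi j hj hij => disjoint_left.2 fun e k1 k2 =>
      hij (c4 i hi j hj e k1 k2))] at k1
    have k2 : ∑ i ∈ I, (C i).card + (I.filter fun i => ¬ (A i ∩ Z).Nonempty).card
        = I.card * M.r M.E := by
      rw [card_filter, card_eq_sum_ones I, ← sum_add_distrib, sum_mul]
      refine sum_congr rfl fun i hi => ?_
      simp only [C]
      by_cases k : (A i ∩ Z).Nonempty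
      · have := (hL' i hi k).1.2
        simp only [k, if_true, not_true, if_false]
        omega
      · have := (a1 i hi).2
        simp only [k, if_false, not_false_iff, if_true]
        omega
    rw [← hR] at k1
    omega
  obtain ⟨β, hβ, hβl⟩ := Gr.exists_bij r3 r2 l
  have b1 : ∀ i ∈ I, ¬ (A i ∩ Z).Nonempty → β i ∈ R := fun i hi k =>
    hβ.mapsTo (mem_coe.2 (mem_filter.2 ⟨hi, k⟩))
  let c : ℕ → Finset ℕ := fun i => if (A i ∩ Z).Nonempty then L (A i) else insert (β i) (A i)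
  have mc : ∀ i e, e ∈ c i ↔ e ∈ C i ∨ (¬ (A i ∩ Z).Nonempty ∧ e = β i) := by
    intro i e
    simp only [c, C]
    split_ifs with k
    · simp [k]
    · simp [k, or_comm]
  refine ⟨c, spb_ms.2 ⟨fun i hi => ?_, fun i hi j hj e k1 k2 => ?_, fun e => ?_⟩,
    fun i hi => ?_, ?_⟩
  · simp only [c]
    split_ifs with k
    · exact (hL' i hi k).1
    · exact spb_free h hr (a1 i hi) k (r1 _ (b1 i hi k))
  · rcases (mc i e).1 k1 with k1 | ⟨k1, k4⟩ <;> rcases (mc j _).1 k2 with k2 | ⟨k2, k3⟩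
    · exact c4 i hi j hj e k1 k2
    · exact absurd k1 (((mR _).1 (k3 ▸ b1 j hj k2)).2 i hi)
    · exact absurd k2 (((mR _).1 (k4 ▸ b1 i hi k1)).2 j hj)
    · exact hβ.injOn (mem_coe.2 (mem_filter.2 ⟨hi, k1⟩)) (mem_coe.2 (mem_filter.2 ⟨hj, k2⟩))
        (k4.symm.trans k3)
  · constructor
    · intro he
      by_cases k : e ∈ R
      · obtain ⟨i, hi, rfl⟩ := hβ.surjOn k
        have := mem_filter.1 (mem_coe.1 hi)
        exact ⟨i, this.1, (mc i _).2 (Or.inr ⟨this.2, rfl⟩)⟩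
      · rw [mR] at k
        push Not at k
        obtain ⟨i, hi, k⟩ := k he
        exact ⟨i, hi, (mc i e).2 (Or.inl k)⟩
    · rintro ⟨i, hi, k⟩
      rcases (mc i e).1 k with k | ⟨k, k'⟩
      · exact c5 i hi k
      · exact k' ▸ ((mR _).1 (b1 i hi k)).1
  · ext e
    rw [mem_sdiff, mem_sdiff, mc i]
    refine and_congr_left fun he => ⟨fun k => Or.inl (c2 i hi e k fun k' => he (h.sub k')), ?_⟩
    rintro (k | ⟨k, rfl⟩)
    · rcases c1 i hi e k with k | ⟨z, _, z2, rfl⟩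
      · exact k
      · exact absurd (h.out z z2).1 he
    · exact absurd (r1 _ (b1 i hi k)) he
  · simp only [c]
    split_ifs with k
    · rfl
    · rw [hβl (mem_filter.2 ⟨hl, k⟩)]

end

theorem sp_one (hI : 3 ≤ I.card) (hD : M.dual.cyc D) (hne : D.Nonempty) (hμ : D.card < 2 * I.card)
    (H : ∀ (Z : Finset ℕ) (ρ : ℕ → ℕ), Z ⊆ D → (∀ z ∈ Z, ρ z ∈ D ∧ ρ z ∉ Z) → Set.InjOn ρ Z →
      Z.card + I.card = D.card →
      SC (M.lin (fun e => if e ∈ Z then {e, ρ e} else {e}) (M.E \ D ∪ Z)).IsBase I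
        (one (M.E \ D ∪ Z))) : SC M.IsBase I (one M.E) := by
  intro P Q hP hQ
  obtain ⟨P', p1, p2, p3⟩ := sp_balance hD hne hμ hP
  obtain ⟨Q', q1, q2, q3⟩ := sp_balance hD hne hμ hQ
  refine (rs2_reach_sh p1 hI).trans
    (Relation.ReflTransGen.trans ?_ (rs2_reach_sh (rs2_reach_symm q1) hI))
  obtain ⟨f, f1, f2⟩ := spb_hall (D := D) p2
  obtain ⟨g, g1, g2⟩ := spb_hall (D := D) q2
  have k1 := spb_bal hD hne p2 p3
  have k2 := spb_bal hD hne q2 q3
  obtain ⟨Z, ρ, π, π', z1, z2, z3, z4, z5, z6, z7⟩ := common_matching _ _ _ _ f g rfl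
    (by omega) (by omega) f1 g1
  have hok : SpbOk M D Z ρ := ⟨hD, z1, z3⟩
  obtain ⟨s, hs, hs'⟩ : ∃ s ∈ D, s ∉ Z ∪ Z.image ρ := by
    refine exists_mem_notMem_of_card_lt_card ?_
    have := card_union_le Z (Z.image ρ)
    have := card_image_le (s := Z) (f := ρ)
    omega
  simp only [mem_union, mem_image, not_or, not_exists, not_and] at hs'
  obtain ⟨A, d1, d2, d0⟩ := spb_proj hok hne p2 p3 z5 fun z hz => f2 _ _ _ (z7 z hz).1
  obtain ⟨A', d3, d4, -⟩ := spb_proj hok hne q2 q3 z6 fun z hz => g2 _ _ _ (z7 z hz).2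
  obtain ⟨i0, hi0⟩ : I.Nonempty := card_pos.1 (by omega)
  have hr : M.r M.E = (M.spb D Z ρ).r (M.spb D Z ρ).E + 1 := by
    rw [← d0 i0 hi0, (d1.mem i0 hi0).2]
  obtain ⟨Λ, hΛ⟩ := spb_lift hok hr (spb_card hP) z4 hs hs'.1 hs'.2
  have hc : Relation.ReflTransGen (Sh (M.spb D Z ρ).IsBase I (one (M.E \ D ∪ Z))) A A' :=
    H Z ρ z1 z3 z4 (by omega) A A' d1 d3
  have chain : ∀ c', MS M.IsBase I (one M.E) c' → (∀ i ∈ I, A' i \ D = c' i \ D) →
      Relation.ReflTransGen (Sh M.IsBase I (one M.E)) P' c' := by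
    clear d3 d4
    induction hc with
    | refl => exact fun c' h1 h2 => sp_local hI hD hne hμ p2 h1 fun i hi =>
        (d2 i hi).symm.trans (h2 i hi)
    | @tail A1 A2 _ h ih =>
      intro c' h1 h2
      obtain ⟨h3, h4, l, hl, h5⟩ := h
      obtain ⟨c1, a1, a2, a3⟩ := hΛ A1 l h3 hl
      obtain ⟨c2, b1, b2, b3⟩ := hΛ A2 l h4 hl
      exact ((ih c1 a1 a2).tail ⟨a1, b1, l, hl, by rw [a3, b3, h5]⟩).trans
        (sp_local hI hD hne hμ b1 h1 fun i hi => (b2 i hi).symm.trans (h2 i hi))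
  exact chain Q' q2 d4

end BM

end Pool.Agent.P.MP_3f5ce9_co
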