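import Pool.Agent.P.MP_3f5ce9_co.W.BSplB
import Pool.Agent.P.MP_3f5ce9_co.W.BRed

/-!
The splitting lemma with weights; binary matroids of rank at most three.
-/

open Finset

namespace Pool.Agent.P.MP_3f5ce9_co

namespace BM

variable {M : BM} {I D E' : Finset ℕ} {μ : ℕ → ℕ} {φ : ℕ → Finset ℕ}

theorem exists_cover (M : BM) (D Z : Finset ℕ) :
    ∃ E' φ, M.Cover D E' φ ∧ Disjoint (E' \ (M.E \ D)) Z := by
  obtain ⟨K, hK⟩ : ∃ K, ∀ e ∈ M.E ∪ Z, e < K :=
    ⟨(M.E ∪ Z).sup id + 1, fun e he => Nat.lt_succ_of_le (le_sup (f := id) he)⟩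
  refine ⟨(M.E \ D) ∪ D.offDiag.image fun q => K + Nat.pair q.1 q.2,
    fun n => if n < K then {n} else {(n - K).unpair.1, (n - K).unpair.2}, ⟨?_, ?_, ?_⟩, ?_⟩
  · intro e he
    exact ⟨mem_union_left _ he, if_pos (hK e (mem_union_left _ (mem_sdiff.1 he).1))⟩
  · intro x hx y hy hxy
    refine ⟨K + Nat.pair x y, mem_union_right _ (mem_image.2 ⟨(x, y), mem_offDiag.2 ⟨hx, hy, hxy⟩,
      rfl⟩), ?_⟩
    simp
  · intro n hn
    rcases mem_union.1 hn with hn | hn
    · exact Or.inl hn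
    · obtain ⟨q, hq, rfl⟩ := mem_image.1 hn
      obtain ⟨h1, h2, h3⟩ := mem_offDiag.1 hq
      exact Or.inr ⟨q.1, h1, q.2, h2, h3, by simp⟩
  · refine disjoint_left.2 fun n hn hz => ?_
    obtain ⟨h1, h2⟩ := mem_sdiff.1 hn
    rcases mem_union.1 h1 with h1 | h1
    · exact h2 h1
    · obtain ⟨q, _, rfl⟩ := mem_image.1 h1
      have := hK _ (mem_union_right _ hz)
      omega

theorem Cover.bsc_sub (h : M.Cover D E' φ) (hD : D ⊆ M.E) : ∀ n ∈ E', φ n ⊆ M.E := by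
  intro n hn
  rcases h.all n hn with h1 | ⟨x, hx, y, hy, _, h1⟩
  · rw [(h.out n h1).2]
    exact singleton_subset_iff.2 (mem_sdiff.1 h1).1
  · rw [h1]
    exact insert_subset (hD hx) (singleton_subset_iff.2 (hD hy))

theorem Cover.r_add (h : M.Cover D E' φ) (hD : M.dual.cyc D) (hne : D.Nonempty) :
    (M.lin φ E').r E' + 1 = M.r M.E := by
  obtain ⟨v, hv⟩ := M.exists_rep
  obtain ⟨d, hd⟩ := hne
  have hDE : D ⊆ M.E := hD.1
  obtain ⟨l, hl⟩ := hv.cocyc.1 hD
  have hl1 : ∀ e ∈ D, l (v e) = 1 := fun e he => by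
    rw [hl] at he
    exact (mem_filter.1 he).2
  have hl0 : ∀ e ∈ M.E \ D, l (v e) = 0 := fun e he => by
    rcases lin_two (l (v e)) with h0 | h0
    · exact h0
    · exact absurd (hl ▸ mem_filter.2 ⟨(mem_sdiff.1 he).1, h0⟩) (mem_sdiff.1 he).2
  rw [(hv.lin (h.bsc_sub hDE)).r_eq (show E' ⊆ (M.lin φ E').E from Subset.rfl),
    hv.r_eq Subset.rfl]
  set S := Submodule.span (ZMod 2) ((fun x => ∑ e ∈ φ x, v e) '' (E' : Set ℕ)) with hS
  have hker : S ≤ LinearMap.ker l := by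
    rw [hS, Submodule.span_le]
    rintro _ ⟨n, hn, rfl⟩
    show l (∑ e ∈ φ n, v e) = 0
    rcases h.all n hn with h1 | ⟨x, hx, y, hy, hxy, h1⟩
    · rw [(h.out n h1).2, sum_singleton]
      exact hl0 n h1
    · rw [h1, sum_pair hxy, map_add, hl1 x hx, hl1 y hy]
      rfl
  have hnot : v d ∉ S := fun hh => by
    have h1 : l (v d) = 0 := hker hh
    rw [hl1 d hd] at h1
    exact one_ne_zero h1
  have hne0 : v d ≠ 0 := fun hh => hnot (hh ▸ S.zero_mem)
  have heq : Submodule.span (ZMod 2) (v '' (M.E : Set ℕ)) = S ⊔ Submodule.span (ZMod 2) {v d} := by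
    refine le_antisymm ?_ (sup_le ?_ ?_)
    · rw [Submodule.span_le]
      rintro _ ⟨e, he, rfl⟩
      by_cases heD : e ∈ D
      · by_cases hed : e = d
        · exact Submodule.mem_sup_right (Submodule.subset_span (by rw [hed]; rfl))
        · obtain ⟨n, hn, hφ⟩ := h.pair e heD d hd hed
          have h1 : v e + v d ∈ S := by
            refine Submodule.subset_span ⟨n, hn, ?_⟩
            show ∑ e ∈ φ n, v e = _
            rw [hφ, sum_pair hed]
          have h2 : v e = (v e + v d) - v d := by abel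
          rw [h2]
          exact Submodule.sub_mem _ (Submodule.mem_sup_left h1)
            (Submodule.mem_sup_right (Submodule.subset_span rfl))
      · obtain ⟨h1, h2⟩ := h.out e (mem_sdiff.2 ⟨he, heD⟩)
        refine Submodule.mem_sup_left (Submodule.subset_span ⟨e, h1, ?_⟩)
        show ∑ e ∈ φ e, v e = _
        rw [h2, sum_singleton]
    · rw [hS, Submodule.span_le]
      rintro _ ⟨n, hn, rfl⟩
      exact Submodule.sum_mem _ fun e he =>
        Submodule.subset_span ⟨e, h.bsc_sub hDE n hn he, rfl⟩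
    · exact Submodule.span_mono (Set.singleton_subset_iff.2 ⟨d, hDE hd, rfl⟩)
  have : FiniteDimensional (ZMod 2) S :=
    FiniteDimensional.span_of_finite _ (E'.finite_toSet.image _)
  have h1 := Submodule.finrank_sup_add_finrank_inf_eq S (Submodule.span (ZMod 2) {v d})
  rw [(Submodule.disjoint_span_singleton_of_notMem hnot).eq_bot, finrank_bot,
    finrank_span_singleton hne0] at h1
  rw [heq]
  omega

theorem bsc_fib (X S : Finset ℕ) (π : ℕ → ℕ) :
    ∑ n ∈ S, ∑ x ∈ X with π x = n, one X x = (X.filter fun x => π x ∈ S).card := by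
  rw [card_eq_sum_card_fiberwise (f := π) (s := X.filter fun x => π x ∈ S) (t := S)
    fun x hx => mem_coe.2 (mem_filter.1 (mem_coe.1 hx)).2]
  refine sum_congr rfl fun n hn => ?_
  rw [card_eq_sum_ones, filter_filter]
  refine sum_congr (filter_congr fun x _ => ⟨fun h => ⟨h ▸ hn, h⟩, fun h => h.2⟩) fun x hx => ?_
  simp [one, (mem_filter.1 hx).1]

theorem bsc_count {P : ℕ → Finset ℕ} (hP : MS M.IsBase I μ P) :
    ∑ e ∈ M.E, μ e = I.card * M.r M.E := by
  rw [← hP.sum_card, ← smul_eq_mul, ← sum_const]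
  exact sum_congr rfl fun i hi => by
    rw [inter_eq_left.2 (hP.mem i hi).subset, (hP.mem i hi).2]

theorem sc_split (hI : 3 ≤ I.card) (hD : M.dual.cyc D) (hne : D.Nonempty)
    (hμ : ∑ e ∈ D, μ e < 2 * I.card) (h : M.Cover D E' φ)
    (H : ∀ μ' : ℕ → ℕ, ∑ n ∈ E' \ (M.E \ D), μ' n < I.card → SC (M.lin φ E').IsBase I μ') :
    SC M.IsBase I μ := by
  intro P Q hP hQ
  have hμ0 : ∀ e, e ∉ M.E → μ e = 0 := fun e he => by
    rw [← hP.wt e, card_eq_zero, filter_eq_empty_iff]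
    exact fun i hi hh => he ((hP.mem i hi).subset hh)
  obtain ⟨X, π, hXπ, hμX⟩ := exists_copies M.E μ hμ0
  obtain ⟨i0, hi0⟩ := card_pos.1 (show 0 < I.card by omega)
  have himg : P i0 ⊆ X.image π := fun e he => by
    have h1 : 0 < μ e := by
      rw [← hP.wt e]
      exact card_pos.2 ⟨i0, mem_filter.2 ⟨hi0, he⟩⟩
    rw [hμX] at h1
    obtain ⟨x, hx, _⟩ := exists_ne_zero_of_sum_ne_zero h1.ne'
    exact mem_image.2 ⟨x, (mem_filter.1 hx).1, (mem_filter.1 hx).2⟩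
  have hr : M.r (X.image π) = M.r M.E :=
    le_antisymm (M.r_le_rE _) ((hP.mem i0 hi0).r_eq ▸ M.r_mono himg)
  have hXc : X.card = I.card * M.r M.E := by
    rw [← bsc_count hP, hμX, bsc_fib, filter_true_of_mem hXπ]
  have hDc : (X.filter fun x => π x ∈ D).card = ∑ e ∈ D, μ e := by
    rw [hμX, bsc_fib]
  suffices hs : SC (M.pull π X).IsBase I (one X) by
    have h1 := SC.of_pull hI hs (fun x hx => by simp [one, hx]) fun B => isBase_pull hXπ hr
    rw [← hμX] at h1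
    exact h1 P Q hP hQ
  set D' := X.filter fun x => π x ∈ D with hD'
  have hD'c : (M.pull π X).dual.cyc D' := (cocyc_pull hXπ).2 ⟨D, hD, rfl⟩
  have hD'n : D'.Nonempty := by
    obtain ⟨e, he⟩ := (hP.mem i0 hi0).inter_cocyc hD hne
    obtain ⟨x, hx, rfl⟩ := mem_image.1 (himg (mem_inter.1 he).1)
    exact ⟨x, mem_filter.2 ⟨hx, (mem_inter.1 he).2⟩⟩
  refine sp_one (M := M.pull π X) hI hD'c hD'n (by omega) fun Z ρ hZ hρ _ hZc => ?_
  show SC ((M.pull π X).lin (fun e => if e ∈ Z then {e, ρ e} else {e}) (X \ D' ∪ Z)).IsBase I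
    (one (X \ D' ∪ Z))
  set Y := X \ D' ∪ Z with hY
  set ψ : ℕ → Finset ℕ := fun e => if e ∈ Z then {e, ρ e} else {e} with hψ
  intro P' Q' hP' hQ'
  have hzρ : ∀ z ∈ Z, z ≠ ρ z := fun z hz hh => (hρ z hz).2 (hh ▸ hz)
  have hne' : ∀ z ∈ Z, π z ≠ π (ρ z) := fun z hz hh => by
    have h1 : 0 < (I.filter fun i => z ∈ P' i).card := by
      rw [hP'.wt z]
      simp [one, hY, hz]
    obtain ⟨i, hi⟩ := card_pos.1 h1
    have h2 : ((M.pull π X).lin ψ Y).cyc {z} := by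
      refine ⟨singleton_subset_iff.2 (mem_union_right _ hz), ?_⟩
      rw [lin_one, hψ]
      simp only [hz, if_true]
      exact mn_pair (mem_filter.1 (hZ hz)).1 (mem_filter.1 (hρ z hz).1).1 (hzρ z hz) hh
    exact singleton_ne_empty z ((hP'.mem i (mem_filter.1 hi).1).1.2 _ h2
      (singleton_subset_iff.2 (mem_filter.1 hi).2))
  have hex : ∀ x, ∃ n, (x ∈ Z → n ∈ E' ∧ φ n = {π x, π (ρ x)}) ∧ (x ∉ Z → n = π x) := fun x => by
    by_cases hx : x ∈ Z
    · obtain ⟨n, h1, h2⟩ := h.pair _ (mem_filter.1 (hZ hx)).2 _ (mem_filter.1 (hρ x hx).1).2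
        (hne' x hx)
      exact ⟨n, fun _ => ⟨h1, h2⟩, fun hh => absurd hx hh⟩
    · exact ⟨π x, fun hh => absurd hh hx, fun _ => rfl⟩
  choose π' hπ1 hπ2 using hex
  have hout : ∀ x ∈ Y, x ∉ Z → π' x ∈ M.E \ D := fun x hx hxZ => by
    obtain ⟨h1, h2⟩ := mem_sdiff.1 ((mem_union.1 hx).resolve_right hxZ)
    rw [hπ2 x hxZ]
    exact mem_sdiff.2 ⟨hXπ x h1, fun hh => h2 (mem_filter.2 ⟨h1, hh⟩)⟩
  have hπE : ∀ x ∈ Y, π' x ∈ (M.lin φ E').E := fun x hx => by
    by_cases hxZ : x ∈ Z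
    · exact (hπ1 x hxZ).1
    · exact (h.out _ (hout x hx hxZ)).1
  have hψX : ∀ x ∈ Y, ψ x ⊆ X := fun x hx => by
    by_cases hxZ : x ∈ Z
    · simp only [hψ, hxZ, if_true]
      exact insert_subset (mem_filter.1 (hZ hxZ)).1
        (singleton_subset_iff.2 (mem_filter.1 (hρ x hxZ).1).1)
    · simp only [hψ, hxZ, if_false]
      exact singleton_subset_iff.2 (mem_sdiff.1 ((mem_union.1 hx).resolve_right hxZ)).1
  have hN : (M.pull π X).lin ψ Y = (M.lin φ E').pull π' Y := by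
    rw [lin_pull M (X := E') hπE]
    refine ext_cyc rfl fun C => and_congr_right fun hC => (and_iff_right (lin_sub fun x hx =>
      hψX x (hC hx))).trans ?_
    rw [lin_assoc, lin_cg (ψ := φ ∘ π') fun x hx => ?_]
    by_cases hxZ : x ∈ Z
    · simp only [hψ, hxZ, if_true, Function.comp]
      rw [(hπ1 x hxZ).2, lin_ins _ (by simpa using hzρ x hxZ), lin_one,
        (disjoint_singleton.2 (hne' x hxZ)).symmDiff_eq_sup]
      rfl
    · simp only [hψ, hxZ, if_false, Function.comp]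
      rw [lin_one, (h.out _ (hout x (hC hx) hxZ)).2, hπ2 x hxZ]
  rw [hN] at hP' hQ' ⊢
  have hYc : Y.card + D'.card = X.card + Z.card := by
    rw [hY, card_union_of_disjoint (disjoint_left.2 fun x hx hz => (mem_sdiff.1 hx).2 (hZ hz))]
    have := card_sdiff_add_card_eq_card (show D' ⊆ X from filter_subset _ _)
    omega
  have hrk : (M.lin φ E').r (Y.image π') = (M.lin φ E').r (M.lin φ E').E := by
    have h1 := bsc_count hP'
    have h2 : ∑ e ∈ Y, one Y e = Y.card := by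
      rw [card_eq_sum_ones]
      exact sum_congr rfl fun x hx => by simp [one, hx]
    have h3 : ((M.lin φ E').pull π' Y).r Y = (M.lin φ E').r (Y.image π') := r_pull hπE Subset.rfl
    have h4 := h.r_add hD hne
    change ∑ e ∈ Y, one Y e = I.card * ((M.lin φ E').pull π' Y).r Y at h1
    rw [h2, h3] at h1
    change _ = (M.lin φ E').r E'
    rw [← h4, mul_add] at hXc
    exact Nat.eq_of_mul_eq_mul_left (show 0 < I.card by omega) (by omega)
  refine SC.pull hI (H _ ?_) (fun B => isBase_pull hπE hrk) P' Q' hP' hQ'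
  rw [bsc_fib]
  refine lt_of_le_of_lt (card_le_card (t := Z) fun x hx => ?_) (by omega)
  by_contra hxZ
  exact (mem_sdiff.1 (mem_filter.1 hx).2).2 (hout x (mem_filter.1 hx).1 hxZ)

theorem bsc_wt (hD : D ⊆ M.E) (μ : ℕ → ℕ) :
    ∑ e ∈ D, μ e = ∑ e ∈ M.E, if e ∈ D then μ e else 0 := by
  rw [← sum_filter, filter_mem_eq_inter, inter_eq_right.2 hD]

theorem te_of_r_le_three (h : M.r M.E ≤ 3) : TE M.IsBase := by
  by_cases h2 : M.r M.E ≤ 2
  · exact (graphic_of_r_le_two h2).te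
  refine te_of_sc fun I μ hI P Q hP hQ => ?_
  have key : ∀ D, M.dual.cyc D → D.Nonempty → ∑ e ∈ D, μ e < 2 * I.card →
      Relation.ReflTransGen (Sh M.IsBase I μ) P Q := fun D hD hne hμ => by
    obtain ⟨E', φ, hc, _⟩ := M.exists_cover D ∅
    have h3 := hc.r_add hD hne
    exact sc_split hI hD hne hμ hc (fun μ' _ => ((graphic_of_r_le_two (M := M.lin φ E')
      (show (M.lin φ E').r E' ≤ 2 by omega)).te I μ').sc hI) P Q hP hQ
  obtain ⟨B, hB⟩ := M.exists_base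
  obtain ⟨a, b, c, hab, hac, hbc, hBe⟩ := card_eq_three.1 (show B.card = 3 by rw [hB.2]; omega)
  obtain ⟨Da, ha, ea⟩ := hB.exists_cocyc (show a ∈ B by simp [hBe])
  obtain ⟨Db, hb, eb⟩ := hB.exists_cocyc (show b ∈ B by simp [hBe])
  obtain ⟨Dc, hc, ec⟩ := hB.exists_cocyc (show c ∈ B by simp [hBe])
  have m : ∀ {D : Finset ℕ} {x y : ℕ}, D ∩ B = {x} → y ∈ B → (y ∈ D ↔ y = x) := by
    intro D x y h1 h2
    rw [← mem_singleton, ← h1, mem_inter, and_iff_left h2]
  have hBa : a ∈ B := by simp [hBe]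
  have hBb : b ∈ B := by simp [hBe]
  have aa := (m ea hBa).2 rfl
  have bb := (m eb hBb).2 rfl
  have cc := (m ec (show c ∈ B by simp [hBe])).2 rfl
  have ab : a ∉ Db := fun hh => hab ((m eb hBa).1 hh)
  have ac : a ∉ Dc := fun hh => hac ((m ec hBa).1 hh)
  have bc : b ∉ Dc := fun hh => hbc ((m ec hBb).1 hh)
  have hab' := M.dual.sd _ _ ha hb
  have hac' := M.dual.sd _ _ ha hc
  have hbc' := M.dual.sd _ _ hb hc
  have habc := M.dual.sd _ _ hab' hc
  by_contra hcon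
  have k1 : ∀ D, M.dual.cyc D → D.Nonempty → 2 * I.card ≤ ∑ e ∈ M.E, if e ∈ D then μ e else 0 :=
    fun D hD hne => by
      rw [← bsc_wt hD.1]
      by_contra hh
      exact hcon (key D hD hne (by omega))
  have w1 := k1 _ ha ⟨a, aa⟩
  have w2 := k1 _ hb ⟨b, bb⟩
  have w3 := k1 _ hc ⟨c, cc⟩
  have w4 := k1 _ hab' ⟨a, mem_symmDiff.2 (Or.inl ⟨aa, ab⟩)⟩
  have w5 := k1 _ hac' ⟨a, mem_symmDiff.2 (Or.inl ⟨aa, ac⟩)⟩
  have w6 := k1 _ hbc' ⟨b, mem_symmDiff.2 (Or.inl ⟨bb, bc⟩)⟩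
  have w7 := k1 _ habc ⟨a, mem_symmDiff.2 (Or.inl ⟨mem_symmDiff.2 (Or.inl ⟨aa, ab⟩), ac⟩)⟩
  have tot := bsc_count hP
  have hs : ∑ e ∈ M.E, ((if e ∈ Da then μ e else 0) + (if e ∈ Db then μ e else 0) +
      (if e ∈ Dc then μ e else 0) + (if e ∈ symmDiff Da Db then μ e else 0) +
      (if e ∈ symmDiff Da Dc then μ e else 0) + (if e ∈ symmDiff Db Dc then μ e else 0) +
      (if e ∈ symmDiff (symmDiff Da Db) Dc then μ e else 0)) ≤ ∑ e ∈ M.E, 4 * μ e := by
    refine sum_le_sum fun e _ => ?_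
    by_cases e1 : e ∈ Da <;> by_cases e2 : e ∈ Db <;> by_cases e3 : e ∈ Dc <;>
      simp [mem_symmDiff, e1, e2, e3] <;> omega
  simp only [sum_add_distrib] at hs
  rw [← mul_sum, tot, show M.r M.E = 3 by omega] at hs
  omega

end BM

end Pool.Agent.P.MP_3f5ce9_co
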