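import Pool.Agent.P.MP_3f5ce9_co.Leaf

/-!
Binary matroids on finite sets of natural numbers, given by their cycle spaces.
-/

open Finset

namespace Pool.Agent.P.MP_3f5ce9_co

/-- A binary matroid given by its cycle space. -/
structure BM where
  E : Finset ℕ
  cyc : Finset ℕ → Prop
  sub : ∀ C, cyc C → C ⊆ E
  nil : cyc ∅
  sd : ∀ C D, cyc C → cyc D → cyc (symmDiff C D)

/-- the points lying in an odd number of the sets `φ x`, `x ∈ C` -/
def oddSum (φ : ℕ → Finset ℕ) (C : Finset ℕ) : Finset ℕ :=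
  (C.biUnion φ).filter fun y => Odd (C.filter fun x => y ∈ φ x).card

theorem mem_oddSum {φ : ℕ → Finset ℕ} {C : Finset ℕ} {y : ℕ} :
    y ∈ oddSum φ C ↔ Odd (C.filter fun x => y ∈ φ x).card := by
  unfold oddSum
  rw [mem_filter, mem_biUnion]
  refine ⟨fun h => h.2, fun h => ⟨?_, h⟩⟩
  obtain ⟨x, hx⟩ := card_pos.1 h.pos
  exact ⟨x, (mem_filter.1 hx).1, (mem_filter.1 hx).2⟩

theorem card_symmDiff_add (C D : Finset ℕ) :
    (symmDiff C D).card + 2 * (C ∩ D).card = C.card + D.card := by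
  have h1 : symmDiff C D = (C \ D) ∪ (D \ C) := rfl
  have h2 : Disjoint (C \ D) (D \ C) := disjoint_sdiff_sdiff
  have h3 := card_sdiff_add_card_inter C D
  have h4 := card_sdiff_add_card_inter D C
  rw [inter_comm D C] at h4
  rw [h1, card_union_of_disjoint h2]
  omega

theorem odd_card_symmDiff (C D : Finset ℕ) :
    Odd (symmDiff C D).card ↔ ¬ (Odd C.card ↔ Odd D.card) := by
  have := card_symmDiff_add C D
  simp only [Nat.odd_iff]
  omega

theorem filter_symmDiff' (p : ℕ → Prop) [DecidablePred p] (C D : Finset ℕ) :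
    (symmDiff C D).filter p = symmDiff (C.filter p) (D.filter p) := by
  ext x
  simp only [mem_filter, mem_symmDiff]
  tauto

theorem oddSum_symmDiff (φ : ℕ → Finset ℕ) (C D : Finset ℕ) :
    oddSum φ (symmDiff C D) = symmDiff (oddSum φ C) (oddSum φ D) := by
  ext y
  rw [mem_symmDiff, mem_oddSum, mem_oddSum, mem_oddSum, filter_symmDiff', odd_card_symmDiff]
  tauto

theorem oddSum_empty (φ : ℕ → Finset ℕ) : oddSum φ ∅ = ∅ := rfl

theorem symmDiff_sub {C D E : Finset ℕ} (hC : C ⊆ E) (hD : D ⊆ E) : symmDiff C D ⊆ E := by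
  intro x hx
  rcases mem_symmDiff.1 hx with h | h
  · exact hC h.1
  · exact hD h.1

namespace BM

/-- independent sets contain no nonempty cycle -/
def Indep (M : BM) (I : Finset ℕ) : Prop := I ⊆ M.E ∧ ∀ C, M.cyc C → C ⊆ I → C = ∅

open Classical in
/-- the rank function -/
noncomputable def r (M : BM) (X : Finset ℕ) : ℕ := (X.powerset.filter M.Indep).sup card

def IsBase (M : BM) (B : Finset ℕ) : Prop := M.Indep B ∧ B.card = M.r M.E

/-- the connectivity function -/
noncomputable def lam (M : BM) (X : Finset ℕ) : ℕ := M.r X + M.r (M.E \ X) - M.r M.E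

/-- the closure -/
noncomputable def cl (M : BM) (X : Finset ℕ) : Finset ℕ :=
  M.E.filter fun e => M.r (insert e X) = M.r X

/-- restriction -/
def res (M : BM) (X : Finset ℕ) : BM where
  E := M.E ∩ X
  cyc C := M.cyc C ∧ C ⊆ X
  sub C h := subset_inter (M.sub C h.1) h.2
  nil := ⟨M.nil, empty_subset _⟩
  sd C D hC hD := ⟨M.sd C D hC.1 hD.1, symmDiff_sub hC.2 hD.2⟩

/-- deletion -/
def del (M : BM) (D : Finset ℕ) : BM where
  E := M.E \ D
  cyc C := M.cyc C ∧ Disjoint C D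
  sub C h := subset_sdiff.2 ⟨M.sub C h.1, h.2⟩
  nil := ⟨M.nil, disjoint_empty_left _⟩
  sd C C' hC hD := ⟨M.sd C C' hC.1 hD.1, disjoint_left.2 fun x hx => by
    rcases mem_symmDiff.1 hx with h | h
    · exact disjoint_left.1 hC.2 h.1
    · exact disjoint_left.1 hD.2 h.1⟩

/-- contraction -/
def con (M : BM) (Z : Finset ℕ) : BM where
  E := M.E \ Z
  cyc D := ∃ C, M.cyc C ∧ D = C \ Z
  sub D h := by
    obtain ⟨C, h1, rfl⟩ := h
    exact sdiff_subset_sdiff (M.sub C h1) Subset.rfl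
  nil := ⟨∅, M.nil, by simp⟩
  sd D D' h h' := by
    obtain ⟨C, h1, rfl⟩ := h
    obtain ⟨C', h2, rfl⟩ := h'
    refine ⟨_, M.sd C C' h1 h2, ?_⟩
    ext x
    simp only [mem_symmDiff, mem_sdiff]
    tauto

/-- the dual matroid: its cycles are the cocycles -/
def dual (M : BM) : BM where
  E := M.E
  cyc D := D ⊆ M.E ∧ ∀ C, M.cyc C → Even (C ∩ D).card
  sub D h := h.1
  nil := ⟨empty_subset _, fun C _ => by simp⟩
  sd D D' h h' := ⟨symmDiff_sub h.1 h'.1, fun C hC => by
    have h1 := h.2 C hC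
    have h2 := h'.2 C hC
    have h3 : C ∩ symmDiff D D' = symmDiff (C ∩ D) (C ∩ D') := by
      ext x
      simp only [mem_symmDiff, mem_inter]
      tauto
    have h4 := odd_card_symmDiff (C ∩ D) (C ∩ D')
    rw [h3]
    simp only [← Nat.not_odd_iff_even] at *
    tauto⟩

/-- the matroid on `E'` whose element `e` is the vector sum of the elements of `φ e` -/
def lin (M : BM) (φ : ℕ → Finset ℕ) (E' : Finset ℕ) : BM where
  E := E'
  cyc C := C ⊆ E' ∧ M.cyc (oddSum φ C)
  sub C h := h.1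
  nil := ⟨empty_subset _, M.nil⟩
  sd C D hC hD := ⟨symmDiff_sub hC.1 hD.1, by
    rw [oddSum_symmDiff]; exact M.sd _ _ hC.2 hD.2⟩

/-- the matroid on `E'` whose element `e` is a copy of `π e` -/
def pull (M : BM) (π : ℕ → ℕ) (E' : Finset ℕ) : BM := M.lin (fun x => {π x}) E'

/-- the sum of the cycle spaces -/
def sum (M N : BM) : BM where
  E := M.E ∪ N.E
  cyc C := ∃ D D', M.cyc D ∧ N.cyc D' ∧ C = symmDiff D D'
  sub C h := by
    obtain ⟨D, D', h1, h2, rfl⟩ := h
    exact symmDiff_sub ((M.sub D h1).trans subset_union_left)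
      ((N.sub D' h2).trans subset_union_right)
  nil := ⟨∅, ∅, M.nil, N.nil, by simp⟩
  sd C C' h h' := by
    obtain ⟨D, D', h1, h2, rfl⟩ := h
    obtain ⟨F, F', h3, h4, rfl⟩ := h'
    exact ⟨_, _, M.sd D F h1 h3, N.sd D' F' h2 h4, symmDiff_symmDiff_symmDiff_comm D D' F F'⟩

/-- the matroid of the binary vectors `v e`, each given by its support -/
def ofVec (E : Finset ℕ) (v : ℕ → Finset ℕ) : BM where
  E := E
  cyc C := C ⊆ E ∧ oddSum v C = ∅
  sub C h := h.1
  nil := ⟨empty_subset _, rfl⟩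
  sd C D hC hD := ⟨symmDiff_sub hC.1 hD.1, by rw [oddSum_symmDiff, hC.2, hD.2]; simp⟩

/-- the cycle matroid of a graph -/
def gm (G : Gr ℕ ℕ) (Es : Finset ℕ) : BM := ofVec Es fun e => symmDiff {G.s e} {G.t e}

/-- the graft matroid: a further element `g` is the characteristic vector of `T` -/
def graft (G : Gr ℕ ℕ) (Es T : Finset ℕ) (g : ℕ) : BM :=
  ofVec (insert g Es) fun e => if e = g then T else symmDiff {G.s e} {G.t e}

/-- the matroid on `0, …, l.length - 1` of the binary vectors written as numbers below `2 ^ 16` -/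
def ofBits (l : List ℕ) : BM :=
  ofVec (range l.length) fun i => (range 16).filter fun j => (l.getD i 0).testBit j

/-- regular: binary and ternary -/
def Reg (M : BM) : Prop :=
  ∃ v : ℕ → ℕ → ZMod 3, ∀ X ⊆ M.E,
    M.r X = Module.finrank (ZMod 3) (Submodule.span (ZMod 3) (v '' (X : Set ℕ)))

def Graphic (M : BM) : Prop := ∃ G, M = gm G M.E

/-- `M` is the bond matroid of `H` -/
def Cog (M : BM) (H : Gr ℕ ℕ) : Prop := M.dual = gm H M.E

def Cographic (M : BM) : Prop := ∃ H, M.Cog H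

/-- Tutte 3-connectivity -/
def Conn3 (M : BM) : Prop := ∀ X ⊆ M.E, min 2 (min X.card (M.E \ X).card) ≤ M.lam X

/-- vertical 3-connectivity -/
def VC (M : BM) : Prop := ∀ X ⊆ M.E, min 2 (min (M.r X) (M.r (M.E \ X))) ≤ M.lam X

def Loopless (M : BM) : Prop := ∀ e ∈ M.E, M.r {e} = 1

def Simple (M : BM) : Prop := ∀ X ⊆ M.E, X.card ≤ 2 → M.Indep X

/-- `f` embeds `N` into the contraction of `M` by `C` -/
structure MinorAt (M N : BM) (f : ℕ → ℕ) (C : Finset ℕ) : Prop where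
  inj : Set.InjOn f N.E
  sub : C ⊆ M.E
  maps : ∀ e ∈ N.E, f e ∈ M.E ∧ f e ∉ C
  rk : ∀ X ⊆ N.E, N.r X + M.r C = M.r (X.image f ∪ C)

def HasMinor (M N : BM) : Prop := ∃ f C, M.MinorAt N f C

def Iso (M N : BM) : Prop := ∃ f, M.MinorAt N f ∅ ∧ N.E.image f = M.E

end BM

/-- the graph with the listed edges -/
def gl (l : List (ℕ × ℕ)) : Gr ℕ ℕ := ⟨fun e => (l.getD e (0, 0)).1, fun e => (l.getD e (0, 0)).2⟩

/-- the edges of `Es` at `z` -/
def Gr.star (G : Gr ℕ ℕ) (Es : Finset ℕ) (z : ℕ) : Finset ℕ := Es.filter fun e => G.Inc e z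

/-- `Es` is a connected spanning edge set on the nonempty vertex set `X` -/
structure Gr.Norm (G : Gr ℕ ℕ) (X Es : Finset ℕ) : Prop where
  within : G.Within Es X
  ne : X.Nonempty
  conn : ∀ u ∈ X, ∀ w ∈ X, G.Conn Es u w

namespace BM

def K4 : BM := gm (gl [(0, 1), (0, 2), (0, 3), (1, 2), (1, 3), (2, 3)]) (range 6)

/-- vertices `0, 1, 2` against `3, 4, 5`; edge `3 i + j` joins `i` and `3 + j` -/
def K33 : BM :=
  gm (gl [(0, 3), (0, 4), (0, 5), (1, 3), (1, 4), (1, 5), (2, 3), (2, 4), (2, 5)]) (range 9)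

def K5 : BM :=
  gm (gl [(0, 1), (0, 2), (0, 3), (0, 4), (1, 2), (1, 3), (1, 4), (2, 3), (2, 4), (3, 4)]) (range 10)

def F7 : BM := ofBits [1, 2, 3, 4, 5, 6, 7]

/-- the edges of `K5`, all odd -/
def R10 : BM := ofBits [35, 37, 41, 49, 38, 42, 50, 44, 52, 56]

/-- elements `0, …, 5`: the edges of `K_{2,3}`; elements `6, …, 11`: the bond matroid of `K_{3,3}`
minus a triangle -/
def R12 : BM := ofBits [9, 10, 12, 17, 18, 20, 32, 64, 96, 38, 69, 99]

end BM

/-! ### three-sums -/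

/-- the trace of an independent set on the line spanned by a triangle -/
inductive Tp where
  | z : Tp
  | p : Fin 3 → Tp
  | u : Tp
  deriving DecidableEq

instance : Fintype Tp :=
  ⟨{.z, .p 0, .p 1, .p 2, .u}, by
    intro x
    rcases x with _ | i | _
    · simp
    · fin_cases i <;> simp
    · simp⟩

namespace Tp

def dim : Tp → ℕ
  | z => 0
  | p _ => 1
  | u => 2

def compat : Tp → Tp → Bool
  | z, u => true
  | u, z => true
  | p i, p j => i != j
  | _, _ => false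

def co : Tp → Tp
  | z => u
  | p i => p i
  | u => z

/-- which roots are linked by a forest of this type -/
def lnk : Tp → Fin 3 → Fin 3 → Bool
  | z, i, j => i == j
  | p k, i, j => i == j || (i != k && j != k)
  | u, _, _ => true

end Tp

def tset (t : Fin 3 → ℕ) : Finset ℕ := {t 0, t 1, t 2}

namespace BM

structure IsTri (P : BM) (t : Fin 3 → ℕ) : Prop where
  cyc : P.cyc (tset t)
  card : (tset t).card = 3
  rk : P.r (tset t) = 2

/-- `P` is the generalized parallel connection of its restrictions to `L1 ∪ T` and `L2 ∪ T` -/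
structure Tri (P : BM) (t : Fin 3 → ℕ) (L1 L2 : Finset ℕ) : Prop where
  tri : P.IsTri t
  ground : P.E = L1 ∪ L2 ∪ tset t
  d12 : Disjoint L1 L2
  d1 : Disjoint L1 (tset t)
  d2 : Disjoint L2 (tset t)
  rk : P.r (L1 ∪ tset t) + P.r (L2 ∪ tset t) = P.r P.E + 2

/-- both sides span the triangle -/
structure TriS (P : BM) (t : Fin 3 → ℕ) (L1 L2 : Finset ℕ) : Prop extends Tri P t L1 L2 where
  s1 : P.r (L1 ∪ tset t) = P.r L1
  s2 : P.r (L2 ∪ tset t) = P.r L2

/-- `F ⊆ L` is independent, spans `L ∪ T` together with `T`, and has trace `β` on `T` -/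
def HasTy (P : BM) (t : Fin 3 → ℕ) (L F : Finset ℕ) (β : Tp) : Prop :=
  F ⊆ L ∧ P.Indep F ∧ P.r (F ∪ tset t) = P.r (L ∪ tset t) ∧
    P.r (F ∪ tset t) + β.dim = F.card + 2 ∧ ∀ i, β = .p i → P.r (insert (t i) F) = F.card

/-- the dual after a delta-wye exchange on the triangle `t` -/
def dy (N : BM) (t : Fin 3 → ℕ) : BM :=
  N.dual.lin (fun e => if e ∈ tset t then (tset t).erase e else {e}) N.E

end BM

/-- forests of `L` in which every vertex of `X` is joined to a root, with their types -/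
def GTy (G : Gr ℕ ℕ) (X : Finset ℕ) (ρ : Fin 3 → ℕ) (L F : Finset ℕ) (β : Tp) : Prop :=
  F ⊆ L ∧ G.Acyc F ∧ (∀ v ∈ X, ∃ i, G.Conn F v (ρ i)) ∧
    ∀ i j, G.Conn F (ρ i) (ρ j) ↔ β.lnk i j = true

/-- a graph on `X` with edge set `L` and three distinct roots -/
structure Rooted (G : Gr ℕ ℕ) (X : Finset ℕ) (ρ : Fin 3 → ℕ) (L : Finset ℕ) : Prop where
  inj : Function.Injective ρ
  mem : ∀ i, ρ i ∈ X
  within : G.Within L X

/-- the edge `t i` joins the two roots other than `ρ i` -/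
def TriAt (G : Gr ℕ ℕ) (ρ t : Fin 3 → ℕ) : Prop :=
  G.Joins (t 0) (ρ 1) (ρ 2) ∧ G.Joins (t 1) (ρ 0) (ρ 2) ∧ G.Joins (t 2) (ρ 0) (ρ 1)

/-- the typing of the dual side -/
def coTy (L : Finset ℕ) (ty : Finset ℕ → Tp → Prop) (F : Finset ℕ) (β : Tp) : Prop :=
  F ⊆ L ∧ ty (L \ F) β.co

/-- the typing of a parallel copy of the triangle -/
def tyT (t : Fin 3 → ℕ) (F : Finset ℕ) (β : Tp) : Prop :=
  F ⊆ tset t ∧ F.card = β.dim ∧ ∀ i, β = .p i → F = {t i}

/-- the bases of a three-sum in terms of the typings of the two sides -/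
def Glue (L1 : Finset ℕ) (ty1 : Finset ℕ → Tp → Prop) (L2 : Finset ℕ) (ty2 : Finset ℕ → Tp → Prop)
    (B : Finset ℕ) : Prop :=
  B ⊆ L1 ∪ L2 ∧ ∃ α β, ty1 (B ∩ L1) α ∧ ty2 (B ∩ L2) β ∧ α.compat β = true

end Pool.Agent.P.MP_3f5ce9_co
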