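import Pool.Agent.P.MP_3f5ce9_co.W.Defs

/-!
Exchange relations, typed sides, gadgets, ports.
-/

open Finset

namespace Pool.Agent.P.MP_3f5ce9_co

abbrev Fam := Finset ℕ → Prop
abbrev Typing := Finset ℕ → Tp → Prop
abbrev Pr := Finset ℕ × Finset ℕ

/-! ### pairs of bases -/

/-- an ordered partition of `E` into two members of the family -/
structure St2 (𝓑 : Fam) (E : Finset ℕ) (q : Pr) : Prop where
  fst : 𝓑 q.1
  snd : 𝓑 q.2
  disj : Disjoint q.1 q.2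
  cov : q.1 ∪ q.2 = E

/-- the exchange of `e` in the first set with `f` in the second set -/
def xch (q : Pr) (e f : ℕ) : Pr := (insert f (q.1.erase e), insert e (q.2.erase f))

/-- a unique exchange started from the first set that does not move `a` -/
def UX2 (𝓑 : Fam) (a : ℕ) (p q : Pr) : Prop :=
  ∃ e ∈ p.1, ∃ f ∈ p.2, e ≠ a ∧ f ≠ a ∧ q = xch p e f ∧
    ∀ g ∈ p.2, 𝓑 (xch p e g).1 → 𝓑 (xch p e g).2 → g = f

def US (𝓑 : Fam) (E : Finset ℕ) (a : ℕ) (p q : Pr) : Prop :=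
  St2 𝓑 E p ∧ St2 𝓑 E q ∧ (UX2 𝓑 a p q ∨ UX2 𝓑 a p.swap q.swap)

/-- connectivity under unique exchanges that do not move `a` -/
def UE (𝓑 : Fam) (E : Finset ℕ) (a : ℕ) : Prop :=
  ∀ p q, St2 𝓑 E p → St2 𝓑 E q → (a ∈ p.1 ↔ a ∈ q.1) → Relation.EqvGen (US 𝓑 E a) p q

def BM.UEall (M : BM) : Prop := ∀ a, UE M.IsBase M.E a

open Classical in
/-- the number of exchange partners is odd -/
def POdd (𝓑 : Fam) (E : Finset ℕ) : Prop :=
  ∀ p, St2 𝓑 E p → ∀ e ∈ p.1, Odd (p.2.filter fun f => 𝓑 (xch p e f).1 ∧ 𝓑 (xch p e f).2).card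

def BM.NoTight (M : BM) : Prop := ∀ Z ⊆ M.E, Z.Nonempty → Z ≠ M.E → Z.card < 2 * M.r Z

/-- the induction hypothesis of the theorem on pairs -/
def IHA (n : ℕ) : Prop := ∀ M : BM, M.Reg → M.E.card < n → M.UEall

/-! ### typed sides -/

structure MSide (L : Finset ℕ) (ty : Typing) : Prop where
  sub : ∀ F β, ty F β → F ⊆ L
  card : ∀ F β F' β', ty F β → ty F' β' → F.card + β'.dim = F'.card + β.dim
  uniq : ∀ F β β', ty F β → ty F β' → β = β'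
  triv1 : ∀ F β e f β', ty F β → e ∈ F → (∀ γ, ¬ ty (F.erase e) γ) →
    ty (insert f (F.erase e)) β' → β' = β
  triv2 : ∀ F β e f β', ty F β → e ∈ L → e ∉ F → (∀ γ, ¬ ty (insert e F) γ) →
    ty (insert e (F.erase f)) β' → β' = β

/-- two pairs with the same multiset union -/
def Same (A B A' B' : Finset ℕ) : Prop := A ∪ B = A' ∪ B' ∧ A ∩ B = A' ∩ B'

structure BSide (L : Finset ℕ) (ty : Typing) : Prop extends MSide L ty where
  mg : ∀ A B k l, ty A (.p k) → ty B (.p l) → k ≠ l →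
    ∃ A' B', ty A' .u ∧ ty B' .z ∧ Same A B A' B'
  od : ∀ A B, ty A .u → ty B .z →
    ∃ A' B' k l, k ≠ l ∧ ty A' (.p k) ∧ ty B' (.p l) ∧ Same A B A' B'
  ux : ∀ A B A' B' k l, ty A (.p k) → ty B (.p k) → ty A' (.p l) → ty B' (.p l) → k ≠ l →
    Same A B A' B' → ∃ A'' B'', ty A'' .u ∧ ty B'' .z ∧ Same A B A'' B''

/-- a partition of a side into two typed sets -/
structure Cfg (L : Finset ℕ) (ty : Typing) (κ : Pr) (β1 β2 : Tp) : Prop where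
  disj : Disjoint κ.1 κ.2
  cov : κ.1 ∪ κ.2 = L
  fst : ty κ.1 β1
  snd : ty κ.2 β2

/-- `f` can be moved from the second set to the first when the other side has types `α1, α2` -/
def Part (ty : Typing) (κ : Pr) (α1 α2 : Tp) (f : ℕ) : Prop :=
  f ∈ κ.2 ∧ ∃ β1 β2, ty (insert f κ.1) β1 ∧ ty (κ.2.erase f) β2 ∧
    α1.compat β1 = true ∧ α2.compat β2 = true

/-- at most one element can be moved -/
def Low (ty : Typing) (κ : Pr) (α1 α2 : Tp) : Prop :=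
  ∀ f g, Part ty κ α1 α2 f → Part ty κ α1 α2 g → f = g

/-- the side `L` can imitate the gadget `K` -/
structure Imit (L : Finset ℕ) (ty : Typing) (K : Finset ℕ) (tk : Typing) : Prop where
  r1 : ∀ γ β1 β2 α1 α2, Cfg L ty γ β1 β2 → Tp.compat α1 β1 = true → Tp.compat α2 β2 = true →
    ∃ κ δ1 δ2, Cfg K tk κ δ1 δ2 ∧ α1.compat δ1 = true ∧ α2.compat δ2 = true
  r2 : ∀ κ β1 β2 α1 α2 α1' α2', Cfg K tk κ β1 β2 → Tp.compat α1 β1 = true →
    Tp.compat α2 β2 = true → Tp.dim α1' + 1 = α1.dim → Tp.dim α2' = α2.dim + 1 →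
    Low tk κ α1' α2' → ∃ γ, Cfg L ty γ β1 β2 ∧ Low ty γ α1' α2'
  r3 : ∀ κ β1 β2 α1 α2, Cfg K tk κ β1 β2 → Tp.compat α1 β1 = true → Tp.compat α2 β2 = true →
    (∃ γ δ, Cfg L ty γ δ β2 ∧ α1.compat δ = true) ∧ ∃ γ δ, Cfg L ty γ β1 δ ∧ α2.compat δ = true

/-- the four kinds of gadgets -/
inductive Gd where
  | tri : Gd
  | wye : Gd
  | whl : Fin 3 → Gd
  | unit : Gd

def Gd.co : Gd → Gd
  | .tri => .wye
  | .wye => .tri
  | .whl i => .whl i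
  | .unit => .unit

def Gd.size : Gd → ℕ
  | .tri => 3
  | .wye => 3
  | .whl _ => 4
  | .unit => 6

def IsGad (K : Finset ℕ) (tk : Typing) : Gd → Prop
  | .tri => (∀ κ β1 β2, Cfg K tk κ β1 β2 → β1.dim + β2.dim = 3) ∧
      (∀ k, ∃ κ, Cfg K tk κ (.p k) .u) ∧ ∀ κ k, Cfg K tk κ (.p k) .u → ¬ Low tk κ .z (.p k)
  | .wye => (∀ κ β1 β2, Cfg K tk κ β1 β2 → β1.dim + β2.dim = 1) ∧
      (∀ k, ∃ κ, Cfg K tk κ .z (.p k)) ∧ ∀ κ k, Cfg K tk κ .z (.p k) → ¬ Low tk κ (.p k) .u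
  | .whl i => (∀ κ β1 β2, Cfg K tk κ β1 β2 → β1.dim + β2.dim = 2) ∧
      (∃ κ, Cfg K tk κ .z .u) ∧ (∀ l, ∃ κ, Cfg K tk κ (.p i) (.p l)) ∧
      (∀ κ k l, Cfg K tk κ (.p k) (.p l) → k = i ∨ l = i) ∧
      ∀ κ j, j ≠ i → Cfg K tk κ .z .u → ¬ Low tk κ (.p j) (.p j)
  | .unit => (∀ κ β1 β2, Cfg K tk κ β1 β2 → β1.dim + β2.dim = 2) ∧
      (∃ κ, Cfg K tk κ .z .u) ∧ (∀ k l, k ≠ l → ∃ κ, Cfg K tk κ (.p k) (.p l)) ∧
      (∀ κ k, Cfg K tk κ (.p k) (.p k) → ¬ Low tk κ .z .u) ∧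
      ∀ κ j, Cfg K tk κ .z .u → ¬ Low tk κ (.p j) (.p j)

/-- the side `L1` glued to a gadget of the given kind is connected -/
def GadUE (L1 : Finset ℕ) (ty1 : Typing) (a : ℕ) (g : Gd) : Prop :=
  ∃ K tk, Disjoint L1 K ∧ MSide K tk ∧ IsGad K tk g ∧
    UE (Glue L1 ty1 K tk) (L1 ∪ K) a

/-! ### units and ports -/

/-- a bond matroid in which the triangle `t` is the star of a vertex -/
def BM.CoStar (N : BM) (t : Fin 3 → ℕ) : Prop := ∃ H z, N.Cog H ∧ H.star N.E z = tset t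

structure BM.UnitM (U : BM) (t : Fin 3 → ℕ) (Q : Finset ℕ) : Prop where
  ground : U.E = Q ∪ tset t
  disj : Disjoint Q (tset t)
  tri : U.IsTri t
  card : Q.card = 6
  span : U.r Q = U.r U.E
  kind : U.Graphic ∨ U.CoStar t
  gad : IsGad Q (U.HasTy t Q) .unit

structure BM.Ports (N : BM) (I : Finset ℕ) (t : ℕ → Fin 3 → ℕ) : Prop where
  tri : ∀ i ∈ I, N.IsTri (t i)
  disj : ∀ i ∈ I, ∀ j ∈ I, i ≠ j → Disjoint (tset (t i)) (tset (t j))

/-- every port lies inside or outside `A` -/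
def PClosed (I : Finset ℕ) (t : ℕ → Fin 3 → ℕ) (A : Finset ℕ) : Prop :=
  ∀ i ∈ I, tset (t i) ⊆ A ∨ Disjoint (tset (t i)) A

/-- graphic, or cographic with all ports stars -/
def BM.Basic (N : BM) (I : Finset ℕ) (t : ℕ → Fin 3 → ℕ) : Prop :=
  N.Graphic ∨ ∃ H, N.Cog H ∧ ∀ i ∈ I, ∃ z, H.star N.E z = tset (t i)

/-- a parallel extension of `R10` -/
def BM.ParR10 (N : BM) : Prop := ∃ π, N.E.image π = range 10 ∧ N = BM.R10.pull π N.E

/-- `A` is large enough to be replaced -/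
def Big (I : Finset ℕ) (t : ℕ → Fin 3 → ℕ) (A : Finset ℕ) : Prop :=
  5 ≤ A.card ∨ (4 ≤ A.card ∧ ∃ i ∈ I, tset (t i) ⊆ A)

/-- a leaf `A` of the decomposition of `N` that avoids `a`; the new triangle avoids `Z` -/
structure BM.LeafAt (N : BM) (I : Finset ℕ) (t : ℕ → Fin 3 → ℕ) (a : ℕ) (Z : Finset ℕ)
    (P : BM) (s : Fin 3 → ℕ) (A : Finset ℕ) : Prop where
  tri : P.TriS s (N.E \ A) A
  del : P.del (tset s) = N
  fresh : Disjoint (tset s) Z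
  reg : P.Reg
  sub : A ⊆ N.E
  avoid : a ∉ A
  closed : PClosed I t A
  big : Big I t A
  basic : (P.res (A ∪ tset s)).Graphic ∨ ∃ H, (P.res (A ∪ tset s)).Cog H ∧
    (∃ z, H.star (A ∪ tset s) z = tset s) ∧
    ∀ i ∈ I, tset (t i) ⊆ A → ∃ z, H.star (A ∪ tset s) z = tset (t i)

/-- the outcome of the structure theorem -/
def BM.Struct (N : BM) (I : Finset ℕ) (t : ℕ → Fin 3 → ℕ) (a : ℕ) (Z : Finset ℕ) : Prop :=
  N.Basic I t ∨ (I = ∅ ∧ N.ParR10) ∨ ∃ P s A, N.LeafAt I t a Z P s A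

/-- the sum of the cycle spaces of `N` and the `U i` -/
def BM.bsum (N : BM) (I : Finset ℕ) (U : ℕ → BM) : BM where
  E := N.E ∪ I.biUnion fun i => (U i).E
  cyc C := ∃ (D0 : Finset ℕ) (D : ℕ → Finset ℕ), N.cyc D0 ∧ (∀ i ∈ I, (U i).cyc (D i)) ∧
    C = symmDiff D0 (oddSum D I)
  sub C h := by
    obtain ⟨D0, D, h1, h2, rfl⟩ := h
    refine symmDiff_sub ((N.sub D0 h1).trans subset_union_left) fun x hx => ?_
    obtain ⟨i, hi, hx⟩ := mem_biUnion.1 (mem_filter.1 hx).1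
    exact mem_union_right _ (mem_biUnion.2 ⟨i, hi, (U i).sub _ (h2 i hi) hx⟩)
  nil := ⟨∅, fun _ => ∅, N.nil, fun i _ => (U i).nil, by
    ext x
    simp [mem_symmDiff, mem_oddSum]⟩
  sd C C' h h' := by
    obtain ⟨D0, D, h1, h2, rfl⟩ := h
    obtain ⟨F0, F, h3, h4, rfl⟩ := h'
    refine ⟨_, fun i => symmDiff (D i) (F i), N.sd D0 F0 h1 h3,
      fun i hi => (U i).sd _ _ (h2 i hi) (h4 i hi), ?_⟩
    rw [symmDiff_symmDiff_symmDiff_comm]
    congr 1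
    ext y
    have : (I.filter fun x => y ∈ symmDiff (D x) (F x)) =
        symmDiff (I.filter fun x => y ∈ D x) (I.filter fun x => y ∈ F x) := by
      ext x
      simp only [mem_filter, mem_symmDiff]
      tauto
    rw [mem_symmDiff, mem_oddSum, mem_oddSum, mem_oddSum, this, odd_card_symmDiff]
    tauto

/-- all units attached at their ports -/
def BM.att (N : BM) (I : Finset ℕ) (t : ℕ → Fin 3 → ℕ) (U : ℕ → BM) : BM :=
  (N.bsum I U).del (I.biUnion fun i => tset (t i))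

structure BM.Ported (N : BM) (I : Finset ℕ) (t : ℕ → Fin 3 → ℕ) (Q : ℕ → Finset ℕ)
    (U : ℕ → BM) : Prop extends N.Ports I t where
  unit : ∀ i ∈ I, (U i).UnitM (t i) (Q i)
  fresh : ∀ i ∈ I, Disjoint (Q i) N.E
  apart : ∀ i ∈ I, ∀ j ∈ I, i ≠ j → Disjoint (Q i) (Q j)

/-! ### sequences of bases -/

structure MS (𝓑 : Fam) (I : Finset ℕ) (μ : ℕ → ℕ) (P : ℕ → Finset ℕ) : Prop where
  mem : ∀ i ∈ I, 𝓑 (P i)
  wt : ∀ e, (I.filter fun i => e ∈ P i).card = μ e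

/-- two states that differ in at most two positions -/
def RS2 (𝓑 : Fam) (I : Finset ℕ) (μ : ℕ → ℕ) (P Q : ℕ → Finset ℕ) : Prop :=
  MS 𝓑 I μ P ∧ MS 𝓑 I μ Q ∧ ∃ i j, ∀ l ∈ I, l ≠ i → l ≠ j → P l = Q l

/-- two states that agree in some position -/
def Sh (𝓑 : Fam) (I : Finset ℕ) (μ : ℕ → ℕ) (P Q : ℕ → Finset ℕ) : Prop :=
  MS 𝓑 I μ P ∧ MS 𝓑 I μ Q ∧ ∃ l ∈ I, P l = Q l

def TEw (𝓑 : Fam) (I : Finset ℕ) (μ : ℕ → ℕ) : Prop :=
  ∀ P Q, MS 𝓑 I μ P → MS 𝓑 I μ Q → Relation.ReflTransGen (RS2 𝓑 I μ) P Q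

def TE (𝓑 : Fam) : Prop := ∀ I μ, TEw 𝓑 I μ

def SC (𝓑 : Fam) (I : Finset ℕ) (μ : ℕ → ℕ) : Prop :=
  ∀ P Q, MS 𝓑 I μ P → MS 𝓑 I μ Q → Relation.ReflTransGen (Sh 𝓑 I μ) P Q

/-- the induction hypothesis of the theorem on sequences -/
def IHB (n : ℕ) : Prop := ∀ M : BM, M.Reg → M.E.card < n → TE M.IsBase

/-- a sequence of typed sets of a side with its types -/
structure TS (ty : Typing) (I : Finset ℕ) (μ : ℕ → ℕ) (x : ℕ → Finset ℕ) (τ : ℕ → Tp) : Prop where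
  typ : ∀ i ∈ I, ty (x i) (τ i)
  wt : ∀ e, (I.filter fun i => e ∈ x i).card = μ e

/-- the number of positions of type `p k` -/
def cnt (I : Finset ℕ) (τ : ℕ → Tp) (k : Fin 3) : ℕ := (I.filter fun i => τ i = .p k).card

/-- count vectors that have a common neighbour by the partition lemma -/
def Close (A : ℕ) (a b : Fin 3 → ℕ) : Prop :=
  ∑ k, max (a k) (b k) ≤ A + 1 ∨ (∑ k, max (a k) (b k) = A + 2 ∧ ∀ k, 1 ≤ max (a k) (b k))

end Pool.Agent.P.MP_3f5ce9_co
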