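import Pool.Agent.P.MP_3f5ce9_co.W.Defs
import Pool.Agent.P.MP_3f5ce9_co.Root

/-!
Leaf moves with frozen edges on three roots.
-/

open Finset

namespace Pool.Agent.P.MP_3f5ce9_co

namespace Gr

/-- an admissible leaf move at `w`: no frozen edge moves, and at a root the exchange cycle
avoids the frozen edges -/
def ALM (G : Gr ℕ ℕ) (F R : Finset ℕ) (w : ℕ) (p q : Finset ℕ × Finset ℕ) : Prop :=
  ∃ e ∈ p.1, ∃ f ∈ p.2, e ∉ F ∧ f ∉ F ∧ G.Inc e w ∧ G.Inc f w ∧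
    (∀ g ∈ p.1, G.Inc g w → g = e) ∧ q.1 = insert f (p.1.erase e) ∧
    q.2 = insert e (p.2.erase f) ∧ (w ∈ R → G.Conn (p.2 \ F) (G.s e) (G.t e))

def AStep (G : Gr ℕ ℕ) (X Es F R : Finset ℕ) (p q : Finset ℕ × Finset ℕ) : Prop :=
  G.St X Es p ∧ G.St X Es q ∧ ∃ w, G.ALM F R w p q ∨ G.ALM F R w p.swap q.swap

def AReach (G : Gr ℕ ℕ) (X Es F R : Finset ℕ) :
    Finset ℕ × Finset ℕ → Finset ℕ × Finset ℕ → Prop :=
  Relation.ReflTransGen (G.AStep X Es F R)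

/-- every vertex set with at least two points spans at most `2|Y| - 3` edges of `U` -/
def SpA (G : Gr ℕ ℕ) (X U : Finset ℕ) : Prop :=
  ∀ Y ⊆ X, 2 ≤ Y.card → (G.ind U Y).card + 3 ≤ 2 * Y.card

/-- the same for the sets through `b` -/
def SpB (G : Gr ℕ ℕ) (X U : Finset ℕ) (b : ℕ) : Prop :=
  ∀ Y ⊆ X, b ∈ Y → 2 ≤ Y.card → (G.ind U Y).card + 3 ≤ 2 * Y.card

/-- `Y` spans at least `2|Y| - 2` edges of `U` -/
def Tight (G : Gr ℕ ℕ) (U Y : Finset ℕ) : Prop := 2 * Y.card ≤ (G.ind U Y).card + 2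

/-- `Y` spans at least `2|Y| - 3` edges of `U` -/
def Crit (G : Gr ℕ ℕ) (U Y : Finset ℕ) : Prop := 2 * Y.card ≤ (G.ind U Y).card + 3

/-- three roots and two frozen edges: a path `a b c` or two parallel edges `a b` -/
structure HS (G : Gr ℕ ℕ) (X Es : Finset ℕ) (φ ψ a b c : ℕ) : Prop where
  ma : a ∈ X
  mb : b ∈ X
  mc : c ∈ X
  ab : a ≠ b
  ac : a ≠ c
  bc : b ≠ c
  hφ : φ ∈ Es
  hψ : ψ ∈ Es
  ne : φ ≠ ψ
  jφ : G.Joins φ a b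
  jψ : G.Joins ψ b c ∨ G.Joins ψ a b

/-- the frozen path has two colours -/
def NEm (G : Gr ℕ ℕ) (φ ψ b c : ℕ) (p : Finset ℕ × Finset ℕ) : Prop :=
  G.Joins ψ b c ∧ ¬ (φ ∈ p.1 ↔ ψ ∈ p.1)

/-- both critical pairs -/
def BP (G : Gr ℕ ℕ) (X L : Finset ℕ) (a b c : ℕ) : Prop :=
  (∃ P ⊆ X, a ∈ P ∧ c ∈ P ∧ b ∉ P ∧ G.Crit L P) ∧ ∃ P ⊆ X, b ∈ P ∧ c ∈ P ∧ a ∉ P ∧ G.Crit L P

/-- the flip lemma for graphs with at most `n` vertices -/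
def FLn (n : ℕ) : Prop :=
  ∀ (G : Gr ℕ ℕ) (X Es : Finset ℕ) (φ ψ a b c : ℕ) (Φ : Finset ℕ) (p : Finset ℕ × Finset ℕ),
    X.card ≤ n → G.HS X Es φ ψ a b c → G.St X Es p → G.SpA X ((Es \ {φ, ψ}) \ Φ) →
    (∃ Y ⊆ X, 2 ≤ Y.card ∧ G.Tight (Es \ {φ, ψ}) Y) →
    (G.NEm φ ψ b c p → G.SpB X (Es \ {φ, ψ}) b) →
    ∃ q, G.AReach X Es {φ, ψ} {a, b, c} p q ∧ ∃ g ∈ Φ, ¬ (g ∈ p.1 ↔ g ∈ q.1)

/-- the connectivity theorem for graphs with at most `n` vertices -/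
def CONNn (n : ℕ) : Prop :=
  ∀ (G : Gr ℕ ℕ) (X Es : Finset ℕ) (φ ψ a b c : ℕ) (p q : Finset ℕ × Finset ℕ),
    X.card ≤ n → G.HS X Es φ ψ a b c → G.St X Es p → G.St X Es q → G.SpA X (Es \ {φ, ψ}) →
    (φ ∈ p.1 ↔ φ ∈ q.1) → (ψ ∈ p.1 ↔ ψ ∈ q.1) →
    (G.Joins ψ a b → G.BP X (Es \ {φ, ψ}) a b c →
      (G.Conn (p.1 \ {φ, ψ}) c a ↔ G.Conn (q.1 \ {φ, ψ}) c a)) →
    G.AReach X Es {φ, ψ} {a, b, c} p q

/-- a splitting at `v` that keeps the hypotheses of the flip lemma is available at `q` -/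
def AGood (G : Gr ℕ ℕ) (X Es : Finset ℕ) (φ ψ b c : ℕ) (Φ : Finset ℕ) (v : ℕ)
    (q : Finset ℕ × Finset ℕ) : Prop :=
  ∃ x y z a' b' c', G.Node Es v x y z a' b' c' ∧ Ty x y z q ∧ x ∉ Φ ∧ y ∉ Φ ∧ a' ≠ b' ∧ a' ≠ c' ∧
    (G.map (ctr v b')).SpA (X.erase v) ((((Es.erase x).erase y) \ {φ, ψ}) \ Φ) ∧
    (G.NEm φ ψ b c q → (G.map (ctr v b')).SpB (X.erase v) (((Es.erase x).erase y) \ {φ, ψ}) b)

/-- the involution of the parallel case -/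
def iota (φ ψ : ℕ) (p : Finset ℕ × Finset ℕ) : Finset ℕ × Finset ℕ :=
  (p.2.image (Equiv.swap φ ψ), p.1.image (Equiv.swap φ ψ))

/-- at a state of class `x` the vertices `a` and `b` are joined in the colour of `y, z`, so that
the move at the node exchanges `x` and `y` -/
def VTo (G : Gr ℕ ℕ) (x y z a b : ℕ) (p : Finset ℕ × Finset ℕ) : Prop :=
  (x ∈ p.1 ∧ G.Conn ((p.2.erase y).erase z) a b) ∨ (x ∈ p.2 ∧ G.Conn ((p.1.erase y).erase z) a b)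

/-- no critical set through `b` and `c` avoids `v` -/
def GoodC (G : Gr ℕ ℕ) (X L : Finset ℕ) (v b c : ℕ) : Prop :=
  ∀ Z ⊆ X, v ∉ Z → b ∈ Z → c ∈ Z → ¬ G.Crit L Z

/-- critical after adding an edge from `b` to `c` -/
def CritX (G : Gr ℕ ℕ) (L : Finset ℕ) (b c : ℕ) (P : Finset ℕ) : Prop :=
  G.Crit L P ∨ (b ∈ P ∧ c ∈ P ∧ 2 * P.card ≤ (G.ind L P).card + 4)

/-- both critical pairs in the graph split at `v` -/
def BPX (G : Gr ℕ ℕ) (X L : Finset ℕ) (v b' c' a b c : ℕ) : Prop :=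
  (∃ P ⊆ X.erase v, a ∈ P ∧ c ∈ P ∧ b ∉ P ∧ G.CritX L b' c' P) ∧
    ∃ P ⊆ X.erase v, b ∈ P ∧ c ∈ P ∧ a ∉ P ∧ G.CritX L b' c' P

/-- a state of the graph obtained by deleting `v` with its edges and contracting `Z` to `r` -/
def Outer (G : Gr ℕ ℕ) (X Es : Finset ℕ) (v x y z : ℕ) (Z : Finset ℕ) (r : ℕ)
    (σ : Finset ℕ × Finset ℕ) : Prop :=
  (G.map (cw Z r)).St (insert r (X.erase v \ Z)) ((((Es.erase x).erase y).erase z) \ G.ind Es Z) σ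

/-- the two states colour the edges of `F` alike -/
def Agree (F : Finset ℕ) (p q : Finset ℕ × Finset ℕ) : Prop := ∀ g ∈ F, g ∈ p.1 ↔ g ∈ q.1

/-- a state of class `x` whose move at the node leads to class `z` -/
def DL (G : Gr ℕ ℕ) (X Es F : Finset ℕ) (x y z a c : ℕ) (σ : Finset ℕ × Finset ℕ) : Prop :=
  ∃ α, G.St X Es α ∧ x ∈ α.1 ∧ y ∈ α.2 ∧ z ∈ α.2 ∧ G.Conn ((α.2.erase y).erase z) a c ∧
    Agree F α σ

end Gr

end Pool.Agent.P.MP_3f5ce9_co
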