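import Pool.Agent.P.MP_3f5ce9_co.W.GraphA

/-!
Cycle matroids of graphs.
-/

open Finset

namespace Pool.Agent.P.MP_3f5ce9_co

open Classical in
/-- the component of `u` inside `X` -/
noncomputable def Gr.comp (G : Gr ℕ ℕ) (X F : Finset ℕ) (u : ℕ) : Finset ℕ :=
  X.filter fun w => G.Conn F u w

/-- the number of components -/
noncomputable def Gr.ncomp (G : Gr ℕ ℕ) (X F : Finset ℕ) : ℕ := (X.image (G.comp X F)).card

/-- the edges with exactly one end in `W` -/
def Gr.cut (G : Gr ℕ ℕ) (Es W : Finset ℕ) : Finset ℕ :=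
  Es.filter fun e => ¬ (G.s e ∈ W ↔ G.t e ∈ W)

theorem Gr.mem_star {G : Gr ℕ ℕ} {Es : Finset ℕ} {z e : ℕ} :
    e ∈ G.star Es z ↔ e ∈ Es ∧ G.Inc e z := mem_filter

theorem Gr.mem_cut {G : Gr ℕ ℕ} {Es W : Finset ℕ} {e : ℕ} :
    e ∈ G.cut Es W ↔ e ∈ Es ∧ ¬ (G.s e ∈ W ↔ G.t e ∈ W) := mem_filter

theorem Gr.mem_comp {G : Gr ℕ ℕ} {X F : Finset ℕ} {u w : ℕ} :
    w ∈ G.comp X F u ↔ w ∈ X ∧ G.Conn F u w := by
  classical
  exact mem_filter

namespace BM

variable {M N : BM} {G G' : Gr ℕ ℕ} {Es I F X Y Z B C D : Finset ℕ} {e g u w v : ℕ}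

@[simp] theorem gm_E (G : Gr ℕ ℕ) (Es : Finset ℕ) : (gm G Es).E = Es := rfl

theorem cyc_gm : (gm G Es).cyc C ↔ C ⊆ Es ∧
    ∀ v, Even ((C.filter fun e => G.s e = v).card + (C.filter fun e => G.t e = v).card) := by
  refine and_congr_right fun _ => ?_
  rw [eq_empty_iff_forall_notMem]
  refine forall_congr' fun v => ?_
  have h1 : (C.filter fun x => v ∈ symmDiff ({G.s x} : Finset ℕ) {G.t x}) =
      symmDiff (C.filter fun e => G.s e = v) (C.filter fun e => G.t e = v) := by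
    ext x
    simp only [mem_filter, mem_symmDiff, mem_singleton, eq_comm (a := v)]
    tauto
  rw [mem_oddSum, h1, odd_card_symmDiff, Nat.even_add', not_not]

end BM

theorem Gr.comp_eq_iff {G : Gr ℕ ℕ} {X F : Finset ℕ} {u w : ℕ} (hu : u ∈ X) (_hw : w ∈ X) :
    G.comp X F u = G.comp X F w ↔ G.Conn F u w := by
  refine ⟨fun h => ?_, fun h => ?_⟩
  · exact (Gr.mem_comp.1 (h ▸ Gr.mem_comp.2 ⟨hu, Gr.Conn.refl _ _ _⟩)).2.symm
  · ext z
    rw [Gr.mem_comp, Gr.mem_comp]
    exact and_congr_right fun _ => ⟨h.symm.trans, h.trans⟩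

theorem Gr.ncomp_eq {β : Type} [DecidableEq β] {G : Gr ℕ ℕ} {X F : Finset ℕ} {f : ℕ → β}
    (h : ∀ u ∈ X, ∀ w ∈ X, f u = f w ↔ G.Conn F u w) : G.ncomp X F = (X.image f).card :=
  GA.card_image_eq fun u hu w hw => (Gr.comp_eq_iff hu hw).trans (h u hu w hw).symm

theorem Gr.ncomp_insert {G : Gr ℕ ℕ} {X F : Finset ℕ} {e : ℕ} (hs : G.s e ∈ X) (ht : G.t e ∈ X)
    (hn : ¬ G.Conn F (G.s e) (G.t e)) : G.ncomp X (insert e F) + 1 = G.ncomp X F := by
  classical
  set X' := X.filter fun z => ¬ G.Conn F (G.t e) z with hX'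
  have h1 : X.image (G.comp X (insert e F)) = X'.image (G.comp X (insert e F)) := by
    refine Subset.antisymm (image_subset_iff.2 fun z hz => ?_) (image_subset_image (filter_subset _ _))
    by_cases h : G.Conn F (G.t e) z
    · exact mem_image.2 ⟨G.s e, mem_filter.2 ⟨hs, fun h => hn h.symm⟩, (Gr.comp_eq_iff hs hz).2
        ((Gr.Conn.edge (mem_insert_self _ _) (G.joins_st e)).trans (h.mono (subset_insert _ _)))⟩
    · exact mem_image_of_mem _ (mem_filter.2 ⟨hz, h⟩)
  have h2 : X.image (G.comp X F) = insert (G.comp X F (G.t e)) (X'.image (G.comp X F)) := by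
    refine Subset.antisymm (image_subset_iff.2 fun z hz => ?_)
      (insert_subset (mem_image_of_mem _ ht) (image_subset_image (filter_subset _ _)))
    by_cases h : G.Conn F (G.t e) z
    · exact mem_insert.2 (Or.inl ((Gr.comp_eq_iff hz ht).2 h.symm))
    · exact mem_insert_of_mem (mem_image_of_mem _ (mem_filter.2 ⟨hz, h⟩))
  unfold Gr.ncomp
  rw [h1, h2, card_insert_of_notMem, GA.card_image_eq (g := G.comp X F) fun u hu w hw => ?_]
  · rw [mem_filter] at hu hw
    rw [Gr.comp_eq_iff hu.1 hw.1, Gr.comp_eq_iff hu.1 hw.1]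
    exact ⟨fun h => GA.conn_insert h hu.2 hw.2, fun h => h.mono (subset_insert _ _)⟩
  · intro h
    obtain ⟨z, hz, h3⟩ := mem_image.1 h
    rw [mem_filter] at hz
    exact hz.2 ((Gr.comp_eq_iff hz.1 ht).1 h3).symm

namespace BM

variable {M N : BM} {G G' : Gr ℕ ℕ} {Es I F X Y Z B C D : Finset ℕ} {e g u w v : ℕ}

theorem cyc_chi : (gm G Es).cyc C ↔ C ⊆ Es ∧
    ∀ χ : ℕ → ZMod 2, ∑ e ∈ C, (χ (G.s e) + χ (G.t e)) = 0 :=
  and_congr_right fun _ => GA.odd_eq_empty

/-- two connected vertices are the odd vertices of some edge set -/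
theorem exists_join (h : G.Conn F u w) :
    ∃ P ⊆ F, oddSum (fun e => symmDiff {G.s e} {G.t e}) P = symmDiff {u} {w} := by
  exact GA.exists_join h

theorem conn_of_join (h : oddSum (fun e => symmDiff {G.s e} {G.t e}) F = symmDiff {u} {w}) :
    G.Conn F u w := by
  exact GA.conn_of_join h

theorem mem_cl_gm (hF : F ⊆ Es) (he : e ∈ Es) :
    e ∈ (gm G Es).cl F ↔ G.Conn F (G.s e) (G.t e) := by
  rw [mem_cl, r_insert_eq_iff (M := gm G Es) he, and_iff_right (show e ∈ (gm G Es).E from he)]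
  constructor
  · rintro (h | ⟨C, h1, h2, h3⟩)
    · exact Gr.Conn.edge h (G.joins_st e)
    · exact (GA.cyc_conn h1.2 h2).mono (subset_insert_iff.1 h3)
  · intro h
    by_cases heF : e ∈ F
    · exact Or.inl heF
    · obtain ⟨C, h1, h2, h3⟩ := GA.conn_cyc heF h
      exact Or.inr ⟨C, ⟨h3.trans (insert_subset he hF), h1⟩, h2, h3⟩

theorem indep_gm : (gm G Es).Indep I ↔ I ⊆ Es ∧ G.Acyc I := by
  refine and_congr_right fun hI => ⟨fun h e he hc => ?_, fun h C hC hCI => ?_⟩
  · obtain ⟨C, h1, h2, h3⟩ := GA.conn_cyc (notMem_erase e I) hc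
    rw [insert_erase he] at h3
    exact ne_empty_of_mem h2 (h C ⟨h3.trans hI, h1⟩ h3)
  · exact eq_empty_of_forall_notMem fun e he =>
      h e (hCI he) ((GA.cyc_conn hC.2 he).mono (erase_subset_erase e hCI))

theorem r_gm_add (hF : F ⊆ Es) (hX : G.Within F X) : (gm G Es).r F + G.ncomp X F = X.card := by
  induction F using Finset.induction_on with
  | empty =>
    rw [r_empty, zero_add, Gr.ncomp_eq (f := id) fun u _ w _ =>
      ⟨fun h => (show u = w from h) ▸ Gr.Conn.refl _ _ _,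
        fun h => (h.eq_of_isolated (by simp)).symm⟩, image_id]
  | insert e F heF ih =>
    have h1 := ih ((subset_insert _ _).trans hF) (hX.mono (subset_insert _ _))
    have he := hF (mem_insert_self e F)
    have h2 := mem_cl_gm (G := G) ((subset_insert _ _).trans hF) he
    rw [mem_cl, and_iff_right (show e ∈ (gm G Es).E from he)] at h2
    by_cases hc : G.Conn F (G.s e) (G.t e)
    · rw [h2.2 hc, ← h1, Gr.ncomp_eq (F := insert e F) (f := G.comp X F) fun u hu w hw => ?_]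
      · rfl
      rw [Gr.comp_eq_iff hu hw]
      refine ⟨fun h => h.mono (subset_insert _ _), fun h => h.of_spans fun g hg => ?_⟩
      rcases mem_insert.1 hg with rfl | hg
      · exact hc
      · exact Gr.Conn.edge hg (G.joins_st g)
    · have h3 := (gm G Es).r_insert_le e F
      have h4 := (gm G Es).r_le_insert e F
      have h5 := mt h2.1 hc
      have h6 := Gr.ncomp_insert (hX e (mem_insert_self _ _)).1 (hX e (mem_insert_self _ _)).2 hc
      omega

theorem r_gm_lt (hX : G.Within (F ∩ Es) X) (hne : X.Nonempty) : (gm G Es).r F + 1 ≤ X.card := by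
  have h1 := r_gm_add (G := G) (inter_subset_right (s₁ := F) (s₂ := Es)) hX
  have h2 : (gm G Es).r (F ∩ Es) = (gm G Es).r F := (gm G Es).r_inter_E F
  have h3 : 0 < G.ncomp X (F ∩ Es) := card_pos.2 (hne.image _)
  omega

theorem r_gm_conn (hF : F ⊆ Es) (h : G.Norm X F) : (gm G Es).r F + 1 = X.card := by
  have h1 := r_gm_add hF h.within
  rw [Gr.ncomp_eq (f := fun _ => 0) fun u hu w hw => iff_of_true rfl (h.conn u hu w hw),
    image_const h.ne, card_singleton] at h1
  exact h1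

theorem le_r_aux (hF : F ⊆ Es) (hY : Y ⊆ X) (h : ∀ u ∈ X, ∃ w ∈ Y, G.Conn F u w) :
    X.card ≤ (gm G Es).r F + Y.card := by
  have h1 := r_gm_add (X := X ∪ GA.vs G F) hF (GA.within_mono (GA.within_vs G F) subset_union_right)
  have h2 : G.ncomp (X ∪ GA.vs G F) F ≤ (Y ∪ (GA.vs G F \ X)).card := by
    refine (card_le_card (image_subset_iff.2 fun z hz => ?_)).trans
      (card_image_le (f := G.comp (X ∪ GA.vs G F) F))
    by_cases hzX : z ∈ X
    · obtain ⟨w, h3, h4⟩ := h z hzX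
      exact mem_image.2 ⟨w, mem_union_left _ h3,
        (Gr.comp_eq_iff (mem_union_left _ (hY h3)) hz).2 h4.symm⟩
    · exact mem_image_of_mem _ (mem_union_right _
        (mem_sdiff.2 ⟨(mem_union.1 hz).resolve_left hzX, hzX⟩))
  have h3 := card_union_le Y (GA.vs G F \ X)
  have h4 := card_sdiff_add_card (GA.vs G F) X
  rw [union_comm] at h4
  omega

/-- a connected set of edges that touches all of `X` has rank at least `|X| - 1` -/
theorem le_r_gm (hF : F ⊆ Es) (h : ∀ u ∈ X, ∀ w ∈ X, G.Conn F u w) :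
    X.card ≤ (gm G Es).r F + 1 := by
  rcases X.eq_empty_or_nonempty with rfl | ⟨u, hu⟩
  · simp
  · exact le_r_aux hF (singleton_subset_iff.2 hu) fun w hw => ⟨u, mem_singleton_self u, h w hw u hu⟩

/-- every vertex of `X` is joined to a vertex of `Y` -/
theorem le_r_gm' (hF : F ⊆ Es) (hY : Y ⊆ X) (h : ∀ u ∈ X, ∃ w ∈ Y, G.Conn F u w) :
    X.card ≤ (gm G Es).r F + Y.card := by
  exact le_r_aux hF hY h

theorem isBase_gm (h : G.Norm X Es) : (gm G Es).IsBase B ↔ B ⊆ Es ∧ G.Tr X B := by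
  have h1 := r_gm_conn Subset.rfl h
  rw [IsBase, indep_gm, and_assoc, gm_E]
  refine and_congr_right fun hB => ⟨fun h2 => ?_, fun h2 => ⟨h2.acyc, ?_⟩⟩
  · exact h2.1.tr (h.within.mono hB) (by omega) h.ne
  · have := h2.card
    omega

/-- edge sets that share at most one vertex are skew -/
theorem r_gm_union (h1 : G.Within F X) (h2 : G.Within D Y) (h : (X ∩ Y).card ≤ 1) :
    (gm G Es).r (F ∪ D) = (gm G Es).r F + (gm G Es).r D := by
  refine le_antisymm (r_union_le _ _ _) ?_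
  obtain ⟨I, i1, i2, i3⟩ := (gm G Es).exists_basis F
  obtain ⟨J, j1, j2, j3⟩ := (gm G Es).exists_basis D
  have key : ∀ P Q, P ⊆ I → Q ⊆ J → oddSum (GA.gv G) P = oddSum (GA.gv G) Q → P = ∅ ∧ Q = ∅ := by
    intro P Q hP hQ hPQ
    have h3 : oddSum (GA.gv G) P = ∅ := GA.eq_empty_of_even (GA.even_odd G P)
      ((card_le_card (subset_inter (GA.odd_gv_sub (h1.mono (hP.trans i1)))
        (hPQ ▸ GA.odd_gv_sub (h2.mono (hQ.trans j1))))).trans h)
    exact ⟨i2.2 P ⟨hP.trans i2.1, h3⟩ hP, j2.2 Q ⟨hQ.trans j2.1, hPQ ▸ h3⟩ hQ⟩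
  have hd : Disjoint I J := disjoint_iff_inter_eq_empty.2
    (key _ _ inter_subset_left inter_subset_right rfl).1
  rw [← i3, ← j3, ← card_union_of_disjoint hd]
  refine Indep.card_le_r ⟨union_subset i2.1 j2.1, fun C hC hs => ?_⟩ (union_subset_union i1 j1)
  have h4 : C = symmDiff (C ∩ I) (C \ I) := by
    ext x
    simp only [mem_symmDiff, mem_inter, mem_sdiff]
    tauto
  have h5 := hC.2
  rw [h4, oddSum_symmDiff, symmDiff_eq_empty] at h5
  obtain ⟨h6, h7⟩ := key _ _ inter_subset_right (sdiff_le_iff.2 hs) h5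
  rw [h4, h6, h7]
  rfl

theorem gm_congr (h : ∀ e ∈ Es, G'.Joins e (G.s e) (G.t e)) : gm G' Es = gm G Es := by
  refine ofVec_congr fun e he => ?_
  rcases h e he with ⟨h1, h2⟩ | ⟨h1, h2⟩
  · rw [h1, h2]
  · rw [h1, h2, symmDiff_comm]

theorem gm_res (G : Gr ℕ ℕ) (Es X : Finset ℕ) : (gm G Es).res X = gm G (Es ∩ X) := by
  exact ofVec_res _ _ _

theorem gm_del (G : Gr ℕ ℕ) (Es X : Finset ℕ) : (gm G Es).del X = gm G (Es \ X) := by
  rw [del_eq_res, gm_res, gm_E, inter_eq_right.2 sdiff_subset]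

theorem gm_map_inj {φ : ℕ → ℕ} (hX : G.Within Es X) (h : Set.InjOn φ X) :
    gm (G.map φ) Es = gm G Es := by
  refine ext_cyc rfl fun C => ?_
  rw [cyc_chi, cyc_chi]
  refine and_congr_right fun hC => ⟨fun h1 χ => ?_, fun h1 χ => h1 fun z => χ (φ z)⟩
  rw [← h1 fun z => χ (Function.invFunOn φ X z)]
  refine sum_congr rfl fun e he => ?_
  simp only [Gr.map_s, Gr.map_t]
  rw [h.leftInvOn_invFunOn (hX e (hC he)).1, h.leftInvOn_invFunOn (hX e (hC he)).2]

/-- contraction identifies exactly the vertices joined by contracted edges -/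
theorem gm_con {φ : ℕ → ℕ} (hC : C ⊆ Es) (hX : G.Within Es X)
    (h : ∀ u ∈ X, ∀ w ∈ X, φ u = φ w ↔ G.Conn C u w) :
    (gm G Es).con C = gm (G.map φ) (Es \ C) := by
  refine ext_r rfl fun Y hY => ?_
  have hY' : Y ⊆ Es \ C := hY
  have hYE := hY'.trans sdiff_subset
  have h1 := (gm G Es).r_con C Y
  have h2 := r_gm_add (union_subset hYE hC) (hX.mono (union_subset hYE hC))
  have h3 := r_gm_add hC (hX.mono hC)
  have h4 := r_gm_add (G := G.map φ) (X := X.image φ) hY' fun e he =>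
    ⟨mem_image_of_mem _ (hX e (hYE he)).1, mem_image_of_mem _ (hX e (hYE he)).2⟩
  rw [Gr.ncomp_eq h] at h3
  have h5 : G.ncomp X (Y ∪ C) = (G.map φ).ncomp (X.image φ) Y := by
    rw [Gr.ncomp_eq (f := (G.map φ).comp (X.image φ) Y ∘ φ) fun u hu w hw => ?_, ← image_image]
    · rfl
    rw [Function.comp_apply, Function.comp_apply,
      Gr.comp_eq_iff (mem_image_of_mem _ hu) (mem_image_of_mem _ hw)]
    refine ⟨Gr.Conn.unmap (hX.mono hYE) hu hw
      (fun p hp q hq hpq => ((h p hp q hq).1 hpq).mono subset_union_right) subset_union_left,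
      fun hc => (hc.map φ).of_spans fun g hg => ?_⟩
    rcases mem_union.1 hg with hg | hg
    · exact Gr.Conn.edge hg (Gr.joins_st _ g)
    · rw [Gr.map_s, Gr.map_t, (h _ (hX g (hC hg)).1 _ (hX g (hC hg)).2).2
        (Gr.Conn.edge hg (G.joins_st g))]
      exact Gr.Conn.refl _ _ _
  omega

theorem gm_con_single (he : e ∈ Es) (h : G.Joins e u w) :
    (gm G Es).con {e} = gm (G.map (Gr.ctr u w)) (Es.erase e) := by
  rw [← sdiff_singleton_eq_erase]
  refine gm_con (singleton_subset_iff.2 he) (GA.within_vs G Es) fun p _ q _ =>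
    ⟨Gr.ctr_conn (mem_singleton_self e) h, fun hc => ?_⟩
  refine ((hc {z | Gr.ctr u w z = Gr.ctr u w p} fun g hg => ?_).1 rfl).symm
  have h1 : Gr.ctr u w w = Gr.ctr u w u := by simp [Gr.ctr]
  rw [mem_singleton.1 hg]
  rcases h with ⟨h2, h3⟩ | ⟨h2, h3⟩ <;> simp only [h2, h3, Set.mem_ofPred_eq, h1]

theorem gm_pull {π : ℕ → ℕ} (h : ∀ x ∈ X, π x ∈ Es) :
    (gm G Es).pull π X = gm ⟨fun x => G.s (π x), fun x => G.t (π x)⟩ X := by
  rw [pull, gm, ofVec_lin fun x hx => singleton_subset_iff.2 (h x hx)]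
  exact ofVec_congr fun x _ => GA.odd_single _ _

theorem gm_sum (G : Gr ℕ ℕ) (h1 : G.Within F X) (h2 : G.Within D Y)
    (h : ∀ u ∈ X ∩ Y, ∀ w ∈ X ∩ Y, G.Conn (F ∩ D) u w) :
    (gm G F).sum (gm G D) = gm G (F ∪ D) := by
  refine ext_cyc rfl fun C => ⟨?_, fun hC => ?_⟩
  · rintro ⟨P, Q, hP, hQ, rfl⟩
    exact ⟨symmDiff_sub (hP.1.trans subset_union_left) (hQ.1.trans subset_union_right),
      by rw [oddSum_symmDiff, hP.2, hQ.2]; rfl⟩
  have h4 : C = symmDiff (C ∩ F) (C \ F) := by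
    ext x
    simp only [mem_symmDiff, mem_inter, mem_sdiff]
    tauto
  have h5 := hC.2
  rw [h4, oddSum_symmDiff, symmDiff_eq_empty] at h5
  have h6 : C \ F ⊆ D := sdiff_le_iff.2 hC.1
  have h7 : oddSum (GA.gv G) (C ∩ F) ⊆ X ∩ Y :=
    subset_inter (GA.odd_gv_sub (h1.mono inter_subset_right)) (h5 ▸ GA.odd_gv_sub (h2.mono h6))
  obtain ⟨P, p1, p2⟩ := GA.exists_tjoin (GA.even_odd G (C ∩ F))
    fun u hu w hw => h u (h7 hu) w (h7 hw)
  refine ⟨symmDiff (C ∩ F) P, symmDiff (C \ F) P,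
    ⟨symmDiff_sub inter_subset_right (p1.trans inter_subset_left), ?_⟩,
    ⟨symmDiff_sub h6 (p1.trans inter_subset_right), ?_⟩, ?_⟩
  · rw [oddSum_symmDiff, p2, symmDiff_self]; rfl
  · rw [oddSum_symmDiff, p2, h5, symmDiff_self]; rfl
  · rw [symmDiff_symmDiff_symmDiff_comm, symmDiff_self, symmDiff_bot, ← h4]

theorem cocyc_gm : (gm G Es).dual.cyc D ↔ ∃ W, D = G.cut Es W := by
  classical
  have h2 : ∀ a b : ZMod 2, a + b = 1 ↔ ¬ (a = 1 ↔ b = 1) := by decide
  constructor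
  · intro h
    obtain ⟨l, rfl⟩ := (rep_ofVec Es (GA.gv G)).cocyc.1 h
    refine ⟨(GA.vs G Es).filter fun z => l (Pi.single z 1) = 1, filter_congr fun e he => ?_⟩
    have h1 : (fun p : ℕ => if p ∈ GA.gv G e then (1 : ZMod 2) else 0) =
        Pi.single (G.s e) 1 + Pi.single (G.t e) 1 := by
      ext p
      simp only [mem_symmDiff, mem_singleton, Pi.add_apply, Pi.single_apply]
      exact GA.ite_xor _ _
    rw [h1, map_add, h2, mem_filter, mem_filter, and_iff_right (GA.within_vs G Es e he).1,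
      and_iff_right (GA.within_vs G Es e he).2]
  · rintro ⟨W, rfl⟩
    refine ⟨filter_subset _ _, fun C hC => ?_⟩
    have h3 := (cyc_chi.1 hC).2 fun z => if z ∈ W then 1 else 0
    rw [← ZMod.natCast_eq_zero_iff_even, ← h3, ← filter_mem_eq_inter, card_filter, Nat.cast_sum]
    refine sum_congr rfl fun e he => ?_
    simp only [Gr.mem_cut, hC.1 he, true_and]
    by_cases a : G.s e ∈ W <;> by_cases b : G.t e ∈ W <;> simp [a, b, CharTwo.add_self_eq_zero]

theorem cocyc_star (h : ∀ e ∈ Es, G.Inc e v → G.s e ≠ G.t e) :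
    (gm G Es).dual.cyc (G.star Es v) := by
  refine cocyc_gm.2 ⟨{v}, filter_congr fun e he => ?_⟩
  have := h e he
  simp only [mem_singleton, Gr.Inc] at this ⊢
  omega

theorem exists_norm (G : Gr ℕ ℕ) (Es : Finset ℕ) :
    ∃ G' X, G'.Norm X Es ∧ gm G Es = gm G' Es := by
  obtain ⟨ρ, h1, h2⟩ := GA.exists_rep G Es
  have h3 : ∀ u, ρ (ρ u) = ρ u := fun u => (h2 _ _).2 (h1 u).symm
  let φ : ℕ → ℕ := fun u => if ρ u = u then 0 else u + 1
  refine ⟨G.map φ, insert 0 ((GA.vs G Es).image φ), ⟨fun e he =>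
    ⟨mem_insert_of_mem (mem_image_of_mem _ (GA.within_vs G Es e he).1),
      mem_insert_of_mem (mem_image_of_mem _ (GA.within_vs G Es e he).2)⟩, insert_nonempty _ _, ?_⟩, ?_⟩
  · have key : ∀ u ∈ insert 0 ((GA.vs G Es).image φ), (G.map φ).Conn Es u 0 := by
      intro u hu
      rcases mem_insert.1 hu with rfl | hu
      · exact Gr.Conn.refl _ _ _
      · obtain ⟨z, -, rfl⟩ := mem_image.1 hu
        have := (h1 z).map φ
        rwa [show φ (ρ z) = 0 from if_pos (h3 z)] at this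
    exact fun u hu w hw => (key u hu).trans (key w hw).symm
  refine ext_cyc rfl fun C => ?_
  rw [cyc_chi, cyc_chi]
  refine and_congr_right fun hC => ⟨fun h χ => h fun z => χ (φ z), fun h χ => ?_⟩
  rw [← h fun z => if z = 0 then 0 else χ (z - 1) + χ (ρ (z - 1))]
  refine sum_congr rfl fun e he => ?_
  have h4 : ∀ u, (if φ u = 0 then 0 else χ (φ u - 1) + χ (ρ (φ u - 1))) = χ u + χ (ρ u) := by
    intro u
    by_cases hu : ρ u = u <;> simp [φ, hu, CharTwo.add_self_eq_zero]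
  refine Eq.trans ?_ (congrArg₂ (· + ·) (h4 (G.s e)) (h4 (G.t e))).symm
  rw [(h2 _ _).2 (Gr.Conn.edge (hC he) (G.joins_st e))]
  have := CharTwo.add_self_eq_zero (χ (ρ (G.t e)))
  linear_combination -this

theorem Graphic.exists_norm (h : M.Graphic) : ∃ G X, G.Norm X M.E ∧ M = gm G M.E := by
  obtain ⟨G, hG⟩ := h
  obtain ⟨G', X, h1, h2⟩ := BM.exists_norm G M.E
  exact ⟨G', X, h1, hG.trans h2⟩

theorem graphic_gm (G : Gr ℕ ℕ) (Es : Finset ℕ) : (gm G Es).Graphic := ⟨G, rfl⟩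

theorem Graphic.res (h : M.Graphic) (X : Finset ℕ) : (M.res X).Graphic := by
  obtain ⟨G, hG⟩ := h
  rw [hG, gm_res]
  exact graphic_gm _ _

theorem Graphic.del (h : M.Graphic) (X : Finset ℕ) : (M.del X).Graphic := by
  obtain ⟨G, hG⟩ := h
  rw [hG, gm_del]
  exact graphic_gm _ _

theorem Graphic.con (h : M.Graphic) (X : Finset ℕ) : (M.con X).Graphic := by
  obtain ⟨G, hG⟩ := h
  obtain ⟨ρ, -, h2⟩ := GA.exists_rep G (X ∩ M.E)
  have h1 : M.con X = M.con (X ∩ M.E) := by
    rw [← (M.con (X ∩ M.E)).con_of_disjoint (X := X \ M.E)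
      (disjoint_of_subset_left sdiff_subset disjoint_sdiff), con_con, union_comm, sdiff_union_inter]
  rw [h1]
  generalize M.E = E at hG h2
  rw [hG, gm_con inter_subset_right (GA.within_vs G E) fun u _ w _ => h2 u w]
  exact graphic_gm _ _

theorem Graphic.pull {π : ℕ → ℕ} (h : M.Graphic) (hπ : ∀ x ∈ X, π x ∈ M.E) :
    (M.pull π X).Graphic := by
  obtain ⟨G, hG⟩ := h
  rw [hG, gm_pull hπ]
  exact graphic_gm _ _

theorem HasMinor.graphic (h : M.HasMinor N) (hM : M.Graphic) : N.Graphic := by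
  obtain ⟨f, C, h⟩ := h
  rw [h.eq_pull]
  exact (hM.con C).pull fun x hx => mem_sdiff.2 (h.maps x hx)

theorem HasMinor.cographic (h : M.HasMinor N) (hM : M.Cographic) : N.Cographic := by
  exact h.dual.graphic hM

theorem cographic_iff : M.Cographic ↔ M.dual.Graphic := Iff.rfl

theorem graphic_sum_disjoint (hM : M.Graphic) (hN : N.Graphic) (h : Disjoint M.E N.E) :
    (M.sum N).Graphic := by
  obtain ⟨G, hG⟩ := hM
  obtain ⟨H, hH⟩ := hN
  generalize M.E = E at hG h
  generalize N.E = F at hH h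
  let K : Gr ℕ ℕ := ⟨fun e => if e ∈ E then 2 * G.s e else 2 * H.s e + 1,
    fun e => if e ∈ E then 2 * G.t e else 2 * H.t e + 1⟩
  have h1 : gm K E = gm G E := by
    rw [← gm_map_inj (φ := fun z => 2 * z) (GA.within_vs G E) fun a _ b _ hab => by
      simpa using hab]
    exact gm_congr fun e he => Or.inl ⟨if_pos he, if_pos he⟩
  have h2 : gm K F = gm H F := by
    rw [← gm_map_inj (φ := fun z => 2 * z + 1) (GA.within_vs H F) fun a _ b _ hab => by
      simpa using hab]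
    exact gm_congr fun e he =>
      Or.inl ⟨if_neg (disjoint_right.1 h he), if_neg (disjoint_right.1 h he)⟩
  rw [hG, hH, ← h1, ← h2, gm_sum K (X := (GA.vs K E).filter Even) (Y := (GA.vs K F).filter Odd)]
  · exact graphic_gm _ _
  · intro e he
    simp only [mem_filter, GA.within_vs K E e he, true_and]
    simp [K, he]
  · intro e he
    simp only [mem_filter, GA.within_vs K F e he, true_and]
    simp [K, disjoint_right.1 h he]
  · intro u hu
    simp only [mem_inter, mem_filter] at hu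
    exact absurd hu.2.2 (Nat.not_odd_iff_even.2 hu.1.2)

theorem graphic_of_r_le_two (h : M.r M.E ≤ 2) : M.Graphic := by
  obtain ⟨B, hB⟩ := M.exists_base
  obtain ⟨a, b, hab⟩ : ∃ a b, B ⊆ {a, b} := by
    have := hB.2
    rcases (by omega : B.card = 0 ∨ B.card = 1 ∨ B.card = 2) with h1 | h1 | h1
    · exact ⟨0, 0, by simp [card_eq_zero.1 h1]⟩
    · obtain ⟨a, rfl⟩ := card_eq_one.1 h1
      exact ⟨a, a, by simp⟩
    · obtain ⟨a, b, -, rfl⟩ := card_eq_two.1 h1
      exact ⟨a, b, Subset.rfl⟩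
  have h1 : ∀ e ∈ M.E, ∃ P ⊆ B, M.cyc (symmDiff {e} P) := by
    intro e he
    by_cases heB : e ∈ B
    · exact ⟨{e}, singleton_subset_iff.2 heB, by rw [symmDiff_self]; exact M.nil⟩
    · obtain ⟨C, c1, c2, c3⟩ := hB.exists_cyc he heB
      exact ⟨C.erase e, subset_insert_iff.1 c3, by
        rwa [GA.erase_eq_sd c2, symmDiff_symmDiff_cancel_left]⟩
  choose! φ h2 h3 using h1
  have h4 : ∀ C ⊆ M.E, M.cyc (symmDiff C (oddSum φ C)) := by
    intro C
    induction C using Finset.induction_on with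
    | empty => intro _; rw [oddSum_empty, symmDiff_self]; exact M.nil
    | insert e C he ih =>
      intro hC
      rw [GA.odd_insert he, GA.insert_eq_sd he, symmDiff_symmDiff_symmDiff_comm]
      exact M.sd _ _ (h3 e (hC (mem_insert_self _ _))) (ih ((subset_insert _ _).trans hC))
  let K : Gr ℕ ℕ := ⟨fun e => if a ∈ φ e then 1 else 0, fun e => if b ∈ φ e then 2 else 0⟩
  have k1 : ∀ C, 1 ∈ oddSum (GA.gv K) C ↔ a ∈ oddSum φ C := fun C => by
    rw [mem_oddSum, mem_oddSum, filter_congr (q := fun e => a ∈ φ e) fun e _ => ?_]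
    by_cases x : a ∈ φ e <;> by_cases y : b ∈ φ e <;> simp [K, x, y, mem_symmDiff]
  have k2 : ∀ C, 2 ∈ oddSum (GA.gv K) C ↔ b ∈ oddSum φ C := fun C => by
    rw [mem_oddSum, mem_oddSum, filter_congr (q := fun e => b ∈ φ e) fun e _ => ?_]
    by_cases x : a ∈ φ e <;> by_cases y : b ∈ φ e <;> simp [K, x, y, mem_symmDiff]
  refine ⟨K, ext_cyc rfl fun C => ⟨fun hC => ⟨M.sub C hC, ?_⟩, fun hC => ?_⟩⟩
  · have h5 := M.sd _ _ hC (h4 C (M.sub C hC))
    rw [symmDiff_symmDiff_cancel_left] at h5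
    have h6 := hB.1.2 _ h5 (GA.odd_sub fun e he => h2 e (M.sub C hC he))
    have h7 : oddSum (GA.gv K) C ⊆ {0, 1, 2} := GA.odd_gv_sub fun e _ => by
      by_cases x : a ∈ φ e <;> by_cases y : b ∈ φ e <;> simp [K, x, y]
    refine GA.eq_empty_of_even (GA.even_odd K C) (card_le_card (t := {0}) fun z hz => ?_)
    have h8 := h7 hz
    simp only [mem_insert, mem_singleton] at h8 ⊢
    rcases h8 with rfl | rfl | rfl
    · rfl
    · simp [k1, h6] at hz
    · simp [k2, h6] at hz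
  · have h5 : oddSum φ C = ∅ := eq_empty_of_forall_notMem fun z hz => by
      have h6 : oddSum (GA.gv K) C = ∅ := hC.2
      have h7 := hab (GA.odd_sub (fun e he => h2 e (hC.1 he)) hz)
      simp only [mem_insert, mem_singleton] at h7
      rcases h7 with rfl | rfl
      · simp [← k1, h6] at hz
      · simp [← k2, h6] at hz
    have := h4 C hC.1
    rwa [h5, ← bot_eq_empty, symmDiff_bot] at this

/-- a triangle of a cycle matroid is a triangle of the graph -/
theorem IsTri.exists_triAt {t : Fin 3 → ℕ} (h : (gm G Es).IsTri t) :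
    ∃ ρ : Fin 3 → ℕ, Function.Injective ρ ∧ TriAt G ρ t := by
  obtain ⟨n01, n02, n12⟩ : t 0 ≠ t 1 ∧ t 0 ≠ t 2 ∧ t 1 ≠ t 2 := by
    have := h.card
    unfold tset at this
    grind
  have nl : ∀ e ∈ tset t, G.s e ≠ G.t e := by
    intro e he hl
    obtain ⟨I, i1, i2, i3⟩ := (gm G Es).exists_basis (tset t)
    have c1 : (gm G Es).cyc {e} := ⟨singleton_subset_iff.2 (h.cyc.1 he), by
      rw [GA.odd_single, hl, symmDiff_self]; rfl⟩
    have c2 : e ∉ I := fun h1 => singleton_ne_empty e (i2.2 _ c1 (singleton_subset_iff.2 h1))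
    have c3 : ((tset t).erase e).card = 2 := by rw [card_erase_of_mem he, h.card]
    have c4 : I = (tset t).erase e :=
      eq_of_subset_of_card_le (subset_erase.2 ⟨i1, c2⟩) (by rw [c3, i3, h.rk])
    have c5 := i2.2 _ ((gm G Es).sd _ _ c1 h.cyc) (by rw [← GA.erase_eq_sd he, c4])
    rw [← GA.erase_eq_sd he] at c5
    simp [c5] at c3
  have l0 := nl (t 0) (by simp [tset])
  have l1 := nl (t 1) (by simp [tset])
  have l2 := nl (t 2) (by simp [tset])
  have h1 : oddSum (GA.gv G) (tset t) = ∅ := h.cyc.2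
  rw [tset, GA.odd_insert (by simp [n01, n02]), GA.odd_insert (by simp [n12]), GA.odd_single,
    symmDiff_eq_empty] at h1
  have h2 := fun v => Finset.ext_iff.1 h1 v
  obtain ⟨x, y, z, hxy, hxz, hyz, j0, j1, j2⟩ := GA.tri_aux _ _ _ _ _ _ l0 l1 l2 fun v => by
    have := h2 v
    rw [GA.mem_sd l0, mem_symmDiff, GA.mem_sd l1, GA.mem_sd l2] at this
    rw [this]
    tauto
  refine ⟨![x, y, z], fun i j hij => ?_, j0, j1, j2⟩
  fin_cases i <;> fin_cases j <;> first | rfl | simp_all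

theorem isTri_gm {t ρ : Fin 3 → ℕ} (hρ : Function.Injective ρ) (h : TriAt G ρ t)
    (ht : tset t ⊆ Es) : (gm G Es).IsTri t := by
  obtain ⟨j0, j1, j2⟩ := h
  have r01 : ρ 0 ≠ ρ 1 := hρ.ne (by decide)
  have r02 : ρ 0 ≠ ρ 2 := hρ.ne (by decide)
  have r12 : ρ 1 ≠ ρ 2 := hρ.ne (by decide)
  have n01 : t 0 ≠ t 1 := fun e => by rw [e] at j0; unfold Gr.Joins at j0 j1; omega
  have n02 : t 0 ≠ t 2 := fun e => by rw [e] at j0; unfold Gr.Joins at j0 j2; omega
  have n12 : t 1 ≠ t 2 := fun e => by rw [e] at j1; unfold Gr.Joins at j1 j2; omega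
  have c0 := Gr.Conn.edge (F := tset t) (by simp [tset]) j0
  have c1 := Gr.Conn.edge (F := tset t) (by simp [tset]) j1
  have c2 := Gr.Conn.edge (F := tset t) (by simp [tset]) j2
  refine ⟨⟨ht, ?_⟩, by simp [tset, n01, n02, n12], ?_⟩
  · rw [tset, GA.odd_insert (by simp [n01, n02]), GA.odd_insert (by simp [n12]), GA.odd_single,
      symmDiff_eq_empty]
    ext v
    simp only [mem_symmDiff, mem_singleton]
    unfold Gr.Joins at j0 j1 j2
    grind
  · have key : ∀ u ∈ ({ρ 0, ρ 1, ρ 2} : Finset ℕ), G.Conn (tset t) (ρ 0) u := by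
      simp only [mem_insert, mem_singleton, forall_eq_or_imp, forall_eq]
      exact ⟨Gr.Conn.refl _ _ _, c2, c1⟩
    have := r_gm_conn (G := G) (X := {ρ 0, ρ 1, ρ 2}) ht ⟨fun e he => ?_, insert_nonempty _ _,
      fun u hu w hw => (key u hu).symm.trans (key w hw)⟩
    · rw [card_eq_three.2 ⟨_, _, _, r01, r02, r12, rfl⟩] at this
      omega
    · simp only [tset, mem_insert, mem_singleton] at he ⊢
      unfold Gr.Joins at j0 j1 j2
      rcases he with rfl | rfl | rfl <;> grind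

/-! grafts -/

@[simp] theorem graft_E (G : Gr ℕ ℕ) (Es T : Finset ℕ) (g : ℕ) :
    (graft G Es T g).E = insert g Es := rfl

theorem graft_del (G : Gr ℕ ℕ) (T : Finset ℕ) (hg : g ∉ Es) :
    (graft G Es T g).del {g} = gm G Es := by
  have h1 : insert g Es ∩ (insert g Es \ {g}) = Es := by
    rw [inter_eq_right.2 sdiff_subset, sdiff_singleton_eq_erase, erase_insert hg]
  rw [del_eq_res, graft_E, graft, ofVec_res, h1]
  exact ofVec_congr fun e he => if_neg fun h : e = g => hg (h ▸ he)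

/-- a rank preserving extension of a cycle matroid is a graft -/
theorem exists_graft (hg : g ∈ M.E) (h : M.del {g} = gm G (M.E.erase g))
    (hX : G.Within (M.E.erase g) X) (hr : g ∈ M.cl (M.E.erase g)) :
    ∃ T ⊆ X, Even T.card ∧ M = graft G (M.E.erase g) T g := by
  obtain ⟨C, c1, c2, -⟩ := ((r_insert_eq_iff hg).1 (mem_cl.1 hr).2).resolve_left (notMem_erase _ _)
  have c3 : C.erase g ⊆ M.E.erase g := erase_subset_erase g (M.sub C c1)
  refine ⟨oddSum (GA.gv G) (C.erase g), GA.odd_gv_sub (hX.mono c3), GA.even_odd _ _, ?_⟩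
  set N := graft G (M.E.erase g) (oddSum (GA.gv G) (C.erase g)) g with hN
  have h1 : N.del {g} = M.del {g} := by rw [h, hN, graft_del G _ (notMem_erase _ _)]
  have h2 : ∀ D, g ∉ D → (M.cyc D ↔ N.cyc D) := fun D hD => by
    have := congrArg (fun K : BM => K.cyc D) h1
    simp only [del, disjoint_singleton_right, hD, not_false_eq_true, and_true, eq_iff_iff] at this
    exact this.symm
  have h3 : N.cyc C := by
    refine ⟨subset_insert_iff.2 c3, ?_⟩
    rw [← insert_erase c2, GA.odd_insert (notMem_erase _ _), if_pos rfl, erase_insert (notMem_erase _ _),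
      GA.odd_congr (ψ := GA.gv G) fun e he => if_neg (ne_of_mem_erase he), symmDiff_self]
    rfl
  refine ext_cyc (insert_erase hg).symm fun D => ?_
  by_cases hD : g ∈ D
  · have h4 := h2 (symmDiff D C) (by simp [mem_symmDiff, hD, c2])
    refine ⟨fun h5 => ?_, fun h5 => ?_⟩
    · have := N.sd _ _ (h4.1 (M.sd _ _ h5 c1)) h3
      rwa [symmDiff_symmDiff_cancel_right] at this
    · have := M.sd _ _ (h4.2 (N.sd _ _ h5 h3)) c1
      rwa [symmDiff_symmDiff_cancel_right] at this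
  · exact h2 D hD

end BM

end Pool.Agent.P.MP_3f5ce9_co
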