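import Pool.Agent.P.MP_3f5ce9_co.W.DefsAB
import Pool.Agent.P.MP_3f5ce9_co.W.DefsH
import Pool.Agent.P.MP_3f5ce9_co.W.Graph

/-!
Further definitions: cores, leaf bounds, partition kinds, covers.
-/

open Finset

namespace Pool.Agent.P.MP_3f5ce9_co

/-- the weight of a partition of `E` -/
def one (E : Finset ℕ) (e : ℕ) : ℕ := if e ∈ E then 1 else 0

/-- `E'` consists of the elements outside `D` and of sums of two elements of `D` -/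
structure BM.Cover (M : BM) (D E' : Finset ℕ) (φ : ℕ → Finset ℕ) : Prop where
  out : ∀ e ∈ M.E \ D, e ∈ E' ∧ φ e = {e}
  pair : ∀ x ∈ D, ∀ y ∈ D, x ≠ y → ∃ n ∈ E', φ n = {x, y}
  all : ∀ n ∈ E', n ∈ M.E \ D ∨ ∃ x ∈ D, ∃ y ∈ D, x ≠ y ∧ φ n = {x, y}

/-- the fixed side of the induction for sequences -/
structure BM.Core (N : BM) (t : Fin 3 → ℕ) (L1 : Finset ℕ) : Prop where
  tri : N.IsTri t
  ground : N.E = L1 ∪ tset t
  disj : Disjoint L1 (tset t)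
  reg : N.Reg
  lab : TE (Glue L1 (N.HasTy t L1) (tset t) (tyT t))
  colab : TE (Glue L1 (N.HasTy t L1) (tset t) (coTy (tset t) (tyT t)))

/-- connectivity for all rooted graphs with at most `n` vertices glued to the core -/
def BM.GLp (N : BM) (t : Fin 3 → ℕ) (L1 : Finset ℕ) (n : ℕ) : Prop :=
  ∀ G X ρ L, X.card ≤ n → Rooted G X ρ L → TriAt G ρ t → Disjoint L (L1 ∪ tset t) →
    TE (Glue L1 (N.HasTy t L1) L (GTy G X ρ L))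

/-- a state of a glued family given by typed parts on both sides -/
structure GS (ty1 ty2 : Typing) (I : Finset ℕ) (μ1 μ2 : ℕ → ℕ) (x y : ℕ → Finset ℕ)
    (τ σ : ℕ → Tp) : Prop where
  left : TS ty1 I μ1 x τ
  right : TS ty2 I μ2 y σ
  compat : ∀ i ∈ I, (τ i).compat (σ i) = true

/-- count vectors of sequences without the type `u` that lie in the box given by `c` -/
def Box (ty : Typing) (I : Finset ℕ) (μ : ℕ → ℕ) (A : ℕ) (c a : Fin 3 → ℕ) : Prop :=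
  (∃ x τ, TS ty I μ x τ ∧ (∀ i ∈ I, τ i ≠ .u) ∧ cnt I τ = a) ∧ ∑ k, a k = A ∧ ∀ k, a k + c k ≤ A

/-- the kinds of parts in the partition lemma -/
inductive XK where
  | tree : XK
  | lab : Fin 3 → XK
  | ex : Fin 3 → XK
  deriving DecidableEq

/-- a part of the given kind -/
def XK.Has (G : Gr ℕ ℕ) (X : Finset ℕ) (ρ : Fin 3 → ℕ) (L F : Finset ℕ) : XK → Prop
  | .tree => GTy G X ρ L F .u
  | .lab k => ∃ j, j ≠ k ∧ GTy G X ρ L F (.p j)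
  | .ex k => GTy G X ρ L F (.p k) ∧ ∀ e ∈ F, ¬ G.Inc e (ρ k)

/-- the matroid whose independent sets are contained in the parts of the given kind -/
def XK.mat (G : Gr ℕ ℕ) (ρ : Fin 3 → ℕ) (L : Finset ℕ) : XK → BM
  | .tree => BM.gm G L
  | .lab k => BM.gm (G.map (Gr.ctr (ρ (k + 1)) (ρ (k + 2)))) L
  | .ex k => BM.gm G (L \ G.star L (ρ k))

/-- the set `Y` has slack at least `c` -/
def Slack (G : Gr ℕ ℕ) (L : Finset ℕ) (μ : ℕ → ℕ) (m : ℕ) (Y : Finset ℕ) (c : ℕ) : Prop :=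
  ∑ e ∈ G.ind L Y, μ e + c + m ≤ m * Y.card

/-- the hypotheses of the partition lemma -/
structure XHyp (G : Gr ℕ ℕ) (X : Finset ℕ) (ρ : Fin 3 → ℕ) (L I : Finset ℕ) (μ : ℕ → ℕ)
    (κ : ℕ → XK) : Prop where
  once : ∀ i ∈ I, ∀ j ∈ I, ∀ k, κ i = .ex k → κ j = .ex k → i = j
  h0 : ∀ Y ⊆ X, Y.Nonempty → Slack G L μ I.card Y 0
  h1 : ∀ i ∈ I, ∀ k, κ i = .ex k → ∀ Y ⊆ X, ρ k ∈ Y → 2 ≤ Y.card → Slack G L μ I.card Y 1
  h2 : ∀ k, ∀ Y ⊆ X, ρ (k + 1) ∈ Y → ρ (k + 2) ∈ Y → Slack G L μ I.card Y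
    (I.filter fun i => κ i = .lab k ∨ κ i = .ex (k + 1) ∨ κ i = .ex (k + 2)).card
  h3 : ∀ Y ⊆ X, (∀ k, ρ k ∈ Y) → Slack G L μ I.card Y (I.filter fun i => κ i ≠ .tree).card
  h4 : ∀ i ∈ I, ∀ k, κ i = .ex k → ∀ Y ⊆ X, ∀ Z ⊆ X, ρ k ∈ Y → ρ (k + 1) ∈ Y → ρ k ∈ Z →
    ρ (k + 2) ∈ Z → ∑ e ∈ G.ind L Y, μ e + ∑ e ∈ G.ind L Z, μ e +
      (I.filter fun i => κ i ≠ .tree).card + 1 + 2 * I.card ≤ I.card * (Y.card + Z.card)

/-- the bounds on a graphic leaf of a three-connected matroid without tight sets -/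
structure LB (G : Gr ℕ ℕ) (X : Finset ℕ) (ρ : Fin 3 → ℕ) (L : Finset ℕ) (s : ℕ) : Prop where
  rooted : Rooted G X ρ L
  loopless : ∀ e ∈ L, G.s e ≠ G.t e
  lo : 1 ≤ s
  hi : s ≤ 3
  card : L.card + 6 = 2 * X.card + s
  b1 : G.SpA X L
  b2 : ∀ Y ⊆ X, ∀ k, ρ (k + 1) ∈ Y → ρ (k + 2) ∈ Y → (G.ind L Y).card + 5 ≤ 2 * Y.card + s
  b3 : ∀ Y ⊆ X, Y ≠ X → (∀ k, ρ k ∈ Y) → (G.ind L Y).card + 7 ≤ 2 * Y.card + s
  b4 : s = 2 → ∀ i j k, i ≠ j → i ≠ k → j ≠ k → ¬ G.BP X L (ρ i) (ρ j) (ρ k)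

/-- a critical set through the two roots other than `ρ k` -/
def CP (G : Gr ℕ ℕ) (X : Finset ℕ) (ρ : Fin 3 → ℕ) (L : Finset ℕ) (k : Fin 3) : Prop :=
  ∃ P ⊆ X, ρ (k + 1) ∈ P ∧ ρ (k + 2) ∈ P ∧ ρ k ∉ P ∧ G.Crit L P

/-- the root `ρ k` meets no edge of `F` -/
def Iso0 (G : Gr ℕ ℕ) (ρ : Fin 3 → ℕ) (k : Fin 3) (F : Finset ℕ) : Prop := ∀ e ∈ F, ¬ G.Inc e (ρ k)

/-- the union of the ports -/
def pts (I : Finset ℕ) (t : ℕ → Fin 3 → ℕ) : Finset ℕ := I.biUnion fun i => tset (t i)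

/-- states with the same part in `L1` are connected -/
def R3 (𝓑 : Fam) (E L1 : Finset ℕ) (a : ℕ) : Prop :=
  ∀ p q, St2 𝓑 E p → St2 𝓑 E q → p.1 ∩ L1 = q.1 ∩ L1 → Relation.EqvGen (US 𝓑 E a) p q

end Pool.Agent.P.MP_3f5ce9_co
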