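import Pool.Agent.P.MP_3f5ce9_co.W.DefsH

/-!
The setting of the link lemma.
-/

open Finset

namespace Pool.Agent.P.MP_3f5ce9_co

namespace Gr

variable {G : Gr ℕ ℕ} {X Y Z P P' Es F U U' A Φ : Finset ℕ} {p q α β σ σ' τ τ' : Finset ℕ × Finset ℕ}
  {u u' w w' v r a b c a' b' c' e f g x y z φ ψ n : ℕ}

/-- a critical set `Z` through two neighbours of a vertex of degree three -/
structure LK (G : Gr ℕ ℕ) (X Es F : Finset ℕ) (v x y z a' b' c' : ℕ) (Z : Finset ℕ) (r : ℕ) :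
    Prop where
  node : G.Node Es v x y z a' b' c'
  within : G.Within Es X
  loopless : ∀ e ∈ Es, G.s e ≠ G.t e
  sub : Z ⊆ X
  hv : v ∉ Z
  ha : a' ∈ Z
  hb : b' ∉ Z
  hc : c' ∈ Z
  ac : a' ≠ c'
  hr : r ∈ Z
  card : (G.ind Es Z).card + 3 = 2 * Z.card
  sp : G.SpA Z (G.ind Es Z)
  hF : Disjoint F (G.ind Es Z)
  hx : x ∉ F
  hy : y ∉ F
  hz : z ∉ F

/-- the outer part of a state -/
def outr (G : Gr ℕ ℕ) (Es : Finset ℕ) (x y z : ℕ) (Z : Finset ℕ) (p : Finset ℕ × Finset ℕ) :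
    Finset ℕ × Finset ℕ :=
  (p.1 ∩ ((((Es.erase x).erase y).erase z) \ G.ind Es Z),
    p.2 ∩ ((((Es.erase x).erase y).erase z) \ G.ind Es Z))

/-- the obstruction to a direct link -/
structure Viol (G : Gr ℕ ℕ) (X Es F : Finset ℕ) (v x y z b' : ℕ) (Z : Finset ℕ) (r : ℕ)
    (σ : Finset ℕ × Finset ℕ) (A : Finset ℕ) : Prop where
  span1 : ∀ τ, G.Outer X Es v x y z Z r τ → Agree F τ σ → ∀ e ∈ A,
    (G.map (cw Z r)).Conn (τ.1 ∩ A ∪ F ∩ σ.1) (cw Z r (G.s e)) (cw Z r (G.t e))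
  span2 : ∀ τ, G.Outer X Es v x y z Z r τ → Agree F τ σ → ∀ e ∈ A,
    (G.map (cw Z r)).Conn (τ.2 ∩ A ∪ F ∩ σ.2) (cw Z r (G.s e)) (cw Z r (G.t e))
  link : (G.map (cw Z r)).Conn (A ∪ F ∩ σ.2) b' r
  sep : ∀ u ∈ Z, ∀ w ∈ Z, G.Conn (A ∪ F ∩ σ.1) u w → u = w

/-- the conclusion of the flip lemma -/
def Flips (G : Gr ℕ ℕ) (X Es F R Φ : Finset ℕ) (p : Finset ℕ × Finset ℕ) : Prop :=
  ∃ q, G.AReach X Es F R p q ∧ ∃ g ∈ Φ, ¬ (g ∈ p.1 ↔ g ∈ q.1)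

/-- all states of class `x` with the same frozen colours are connected -/
def Whole (G : Gr ℕ ℕ) (X Es F R : Finset ℕ) (x y z : ℕ) : Prop :=
  ∀ p q, G.St X Es p → G.St X Es q → Ty x y z p → Ty x y z q → Agree F p q → G.AReach X Es F R p q

end Gr

end Pool.Agent.P.MP_3f5ce9_co
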