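import Pool.Agent.P.MP_3f5ce9_co.W.RegL

/-!
Totally unimodular matrices define regular binary matroids.
-/

open Finset

namespace Pool.Agent.P.MP_3f5ce9_co

theorem f1_det {K ι : Type} [Field K] [Fintype ι] [DecidableEq ι] {r : ℕ}
    (B : Matrix (Fin r) ι K) :
    LinearIndependent K B.transpose ↔ ∃ f : ι → Fin r, (B.submatrix f id).det ≠ 0 := by
  constructor
  · intro h
    have h1 : B.rank = Fintype.card ι := by
      rw [← Matrix.rank_transpose]
      exact h.rank_matrix
    obtain ⟨b, hb1, hb2, hb3⟩ := exists_linearIndependent K (Set.range B)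
    have hfin : b.Finite := (Set.finite_range B).subset hb1
    have : Fintype b := hfin.fintype
    have h2 : Fintype.card b = Fintype.card ι := by
      rw [← h1, Matrix.rank_eq_finrank_span_row, ← finrank_span_eq_card hb3, Subtype.range_coe, hb2]
      rfl
    obtain ⟨e⟩ : Nonempty (ι ≃ b) := Fintype.card_eq.1 h2.symm
    choose g hg using fun x : b => hb1 x.2
    refine ⟨fun i => g (e i), ?_⟩
    have h3 : LinearIndependent K (B.submatrix (fun i => g (e i)) id).row := by
      have h4 : (B.submatrix (fun i => g (e i)) id).row = ((↑) : b → ι → K) ∘ e := by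
        funext i
        exact hg (e i)
      rw [h4]
      exact hb3.comp e e.injective
    have h5 := Matrix.linearIndependent_rows_iff_isUnit.1 h3
    exact ((Matrix.isUnit_iff_isUnit_det _).1 h5).ne_zero
  · rintro ⟨f, hf⟩
    have h1 := Matrix.linearIndependent_cols_of_det_ne_zero hf
    exact LinearIndependent.of_comp (LinearMap.funLeft K K f) h1

theorem f1_cast {K ι : Type} [Field K] [Fintype ι] [DecidableEq ι] {r : ℕ}
    (B : Matrix (Fin r) ι ℤ) (hB : ∀ f : ι → Fin r, (B.submatrix f id).det ∈ Set.range SignType.cast) :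
    LinearIndependent K (B.map (Int.cast : ℤ → K)).transpose ↔
      ∃ f : ι → Fin r, (B.submatrix f id).det ≠ 0 := by
  rw [f1_det]
  refine exists_congr fun f => ?_
  have h1 : ((B.map (Int.cast : ℤ → K)).submatrix f id).det = ((B.submatrix f id).det : K) := by
    rw [Int.cast_det]
    rfl
  rw [h1]
  obtain ⟨s, hs⟩ := hB f
  rw [← hs]
  rcases s with _ | _ | _ <;> simp

theorem f1_map {n : ℕ} {X : Finset ℕ} (hX : X ⊆ range n) :
    ∃ I : Finset (Fin n), I.map Fin.valEmbedding = X :=
  ⟨X.attachFin fun _ hm => mem_range.1 (hX hm), by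
    ext x
    simp only [mem_map, mem_attachFin, Fin.valEmbedding_apply]
    exact ⟨fun ⟨a, h1, h2⟩ => h2 ▸ h1, fun h => ⟨⟨x, mem_range.1 (hX h)⟩, h, rfl⟩⟩⟩

theorem f1_sub {n : ℕ} (I : Finset (Fin n)) : I.map Fin.valEmbedding ⊆ range n := by
  intro x hx
  obtain ⟨a, -, rfl⟩ := mem_map.1 hx
  exact mem_range.2 a.2

theorem f1_on {K : Type} [Field K] {n r : ℕ} (B : Matrix (Fin r) (Fin n) K) (I : Finset (Fin n)) :
    LinearIndepOn K (fun e : ℕ => if h : e < n then B.transpose ⟨e, h⟩ else 0)
      ((I.map Fin.valEmbedding : Finset ℕ) : Set ℕ) ↔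
      LinearIndependent K (fun i : I => B.transpose (i : Fin n)) := by
  have h1 : ((fun e : ℕ => if h : e < n then B.transpose ⟨e, h⟩ else 0) ∘ Fin.valEmbedding) =
      B.transpose := by
    funext i
    simp
  rw [coe_map]
  constructor
  · intro h
    have h2 := h.comp_of_image Fin.valEmbedding.injective.injOn
    rw [h1] at h2
    exact h2
  · intro h
    refine LinearIndepOn.image_of_comp _ _ ?_
    rw [h1]
    exact h

theorem exists_bm_of_tu {n r : ℕ} (A : Matrix (Fin r) (Fin n) ℝ) (hA : A.IsTotallyUnimodular) :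
    ∃ N : BM, N.Reg ∧ N.E = range n ∧ ∀ I : Finset (Fin n),
      N.Indep (I.map Fin.valEmbedding) ↔
        LinearIndependent ℝ (fun i : I => A.transpose (i : Fin n)) := by
  choose s hs using fun i j => hA.apply i j
  let A0 : Matrix (Fin r) (Fin n) ℤ := fun i j => (s i j : ℤ)
  have hA0 : A0.map (Int.cast : ℤ → ℝ) = A := by
    ext i j
    rw [← hs]
    simp [A0]
  have hT : ∀ (I : Finset (Fin n)) (f : I → Fin r),
      ((A0.submatrix id (fun i : I => (i : Fin n))).submatrix f id).det ∈
        Set.range SignType.cast := by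
    intro I f
    obtain ⟨t, ht⟩ := (Matrix.isTotallyUnimodular_iff_fintype A).1 hA I f (fun i : I => (i : Fin n))
    refine ⟨t, ?_⟩
    apply Int.cast_injective (α := ℝ)
    rw [Int.cast_det, SignType.intCast_cast, ht, ← hA0]
    rfl
  have key : ∀ (K : Type) [Field K] (I : Finset (Fin n)),
      LinearIndependent K (fun i : I => (A0.map (Int.cast : ℤ → K)).transpose (i : Fin n)) ↔
        ∃ f : I → Fin r, ((A0.submatrix id (fun i : I => (i : Fin n))).submatrix f id).det ≠ 0 :=
    fun K _ I => f1_cast (K := K) _ (hT I)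
  obtain ⟨N, hE, hN⟩ := BM.exists_of_vec (range n)
    (fun e : ℕ => if h : e < n then (A0.map (Int.cast : ℤ → ZMod 2)).transpose ⟨e, h⟩ else 0)
  have h2 : ∀ I : Finset (Fin n), N.Indep (I.map Fin.valEmbedding) ↔
      ∃ f : I → Fin r, ((A0.submatrix id (fun i : I => (i : Fin n))).submatrix f id).det ≠ 0 := by
    intro I
    rw [hN.indep_iff, hE, and_iff_right (f1_sub I), f1_on, key]
  have : Fact (Nat.Prime 3) := ⟨Nat.prime_three⟩
  refine ⟨N, BM.Reg.of_indep
    (fun e : ℕ => if h : e < n then (A0.map (Int.cast : ℤ → ZMod 3)).transpose ⟨e, h⟩ else 0)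
    fun X hX => ?_, hE, fun I => ?_⟩
  · obtain ⟨I, rfl⟩ := f1_map (hE ▸ hX)
    rw [h2, f1_on, key]
  · rw [h2, ← hA0, key]

theorem isBase_iff_of_indep {n : ℕ} (M : Matroid (Fin n)) (N : BM) (hE : N.E = range n)
    (h : ∀ I : Finset (Fin n), M.Indep (↑I : Set (Fin n)) ↔ N.Indep (I.map Fin.valEmbedding))
    (B : Finset (Fin n)) : M.IsBase (↑B : Set (Fin n)) ↔ N.IsBase (B.map Fin.valEmbedding) := by
  rw [Matroid.isBase_iff_maximal_indep]
  constructor
  · intro hB
    obtain ⟨B', h1, h2⟩ := ((h B).1 hB.prop).exists_base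
    obtain ⟨J, rfl⟩ := f1_map (hE ▸ h1.subset)
    have h3 : B ⊆ J := map_subset_map.1 h2
    have h4 : J ⊆ B := coe_subset.1 (hB.le_of_ge ((h J).2 h1.1) (coe_subset.2 h3))
    rwa [Subset.antisymm h3 h4]
  · intro hB
    refine ⟨(h B).2 hB.1, fun Y hY hBY => ?_⟩
    lift Y to Finset (Fin n) using Y.toFinite
    have h1 := (h Y).1 hY
    have h2 : (Y.map Fin.valEmbedding).card ≤ (B.map Fin.valEmbedding).card :=
      hB.2 ▸ h1.card_le_r h1.1
    rw [card_map, card_map] at h2
    exact coe_subset.2 (eq_of_subset_of_card_le (coe_subset.1 hBY) h2).ge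

end Pool.Agent.P.MP_3f5ce9_co
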