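import Pool.Agent.P.MP_3f5ce9_co.W.BGen
import Pool.Agent.P.MP_3f5ce9_co.W.RegL
import Pool.Agent.P.MP_3f5ce9_co.Mat

/-!
From pairs and sequences to unique exchanges.
-/

open Finset

namespace Pool.Agent.P.MP_3f5ce9_co

theorem f2_swap {𝓑 : Fam} {E : Finset ℕ} {p : Pr} (h : St2 𝓑 E p) : St2 𝓑 E p.swap :=
  ⟨h.snd, h.fst, h.disj.symm, (union_comm _ _).trans h.cov⟩

theorem f2_ux {M : BM} {a : ℕ} {p q : Pr} (hp : St2 M.IsBase M.E p) (hq : St2 M.IsBase M.E q)
    (h : UX2 M.IsBase a p q) : UX2 M.IsBase a q p := by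
  obtain ⟨A, B⟩ := p
  obtain ⟨e, he, f, hf, ea, fa, rfl, hu⟩ := h
  have hA : M.IsBase A := hp.fst
  have hB : M.IsBase B := hp.snd
  have hd : ∀ x, x ∈ A → x ∉ B := fun x hx => disjoint_left.1 hp.disj hx
  have h1 : M.IsBase (insert f (A.erase e)) := hq.fst
  have h2 : M.IsBase (insert e (B.erase f)) := hq.snd
  simp only at he hf
  have fA : f ∉ A := fun h => hd f h hf
  have ef : e ≠ f := fun h => fA (h ▸ he)
  obtain ⟨C, c1, c2, c3⟩ := hB.exists_cyc (hA.subset he) (hd e he)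
  obtain ⟨D, d1, d2⟩ := hA.exists_cocyc he
  have fC := (hB.exch c1 c2 c3 (hd e he) hf).1 h2
  have fD := (hA.exch_cocyc d1 d2 (hB.subset hf) fA).1 h1
  have d3 := fun x => Finset.ext_iff.1 d2 x
  simp only [mem_inter, mem_singleton] at d3
  refine ⟨f, mem_insert_self _ _, e, mem_insert_self _ _, fa, ea, ?_, fun g hg g1 g2 => ?_⟩
  · simp only [xch]
    rw [erase_insert (fun h => fA (mem_of_mem_erase h)), insert_erase he,
      erase_insert (fun h => hd e he (mem_of_mem_erase h)), insert_erase hf]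
  · by_contra hc
    have g3 : g ∈ B.erase f := (mem_insert.1 hg).resolve_left hc
    have gB := mem_of_mem_erase g3
    have gA : g ∉ A := fun h => hd g h gB
    have gC : g ∈ C := by
      refine (h2.exch c1 fC ?_ (by simp [ef.symm]) hg).1 g2
      rw [insert_comm, insert_erase hf]
      exact c3
    have gD : g ∈ D := by
      refine (h1.exch_cocyc (e := f) d1 ?_ (hB.subset gB) ?_).1 g1
      · ext x
        simp only [mem_inter, mem_insert, mem_erase, mem_singleton]
        exact ⟨fun h => h.2.resolve_right fun h3 => h3.1 ((d3 x).1 ⟨h.1, h3.2⟩),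
          fun h => ⟨h ▸ fD, Or.inl h⟩⟩
      · simp [gA, (mem_erase.1 g3).1]
    exact (mem_erase.1 g3).1 (hu g gB ((hA.exch_cocyc d1 d2 (hB.subset gB) gA).2 gD)
      ((hB.exch c1 c2 c3 (hd e he) gB).2 gC))

theorem US.symm {M : BM} {a : ℕ} {p q : Pr} (h : US M.IsBase M.E a p q) :
    US M.IsBase M.E a q p := by
  obtain ⟨hp, hq, h⟩ := h
  exact ⟨hq, hp, h.imp (f2_ux hp hq) (f2_ux (f2_swap hp) (f2_swap hq))⟩

theorem f2_rt {M : BM} {a : ℕ} {p q : Pr} (h : Relation.EqvGen (US M.IsBase M.E a) p q) :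
    Relation.ReflTransGen (US M.IsBase M.E a) p q := by
  induction h with
  | rel _ _ h => exact Relation.ReflTransGen.single h
  | refl => exact Relation.ReflTransGen.refl
  | symm _ _ h ih =>
    clear h
    induction ih with
    | refl => exact Relation.ReflTransGen.refl
    | tail _ h1 h2 => exact h2.head h1.symm
  | trans _ _ _ _ _ h1 h2 => exact h1.trans h2

theorem f2_step {M : BM} {𝓑 : Fam} {X C : Finset ℕ} (hXC : Disjoint X C)
    (hb : ∀ F, 𝓑 F ↔ F ⊆ X ∧ M.IsBase (F ∪ C)) {a : ℕ} {p q : Pr} (hp : St2 𝓑 X p)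
    (hq : St2 𝓑 X q) (h : UX2 𝓑 a p q) {ι : Type} [DecidableEq ι] {i j : ι} {P : ι → Finset ℕ}
    (hi : P i = p.1 ∪ C) (hj : P j = p.2 ∪ C) :
    UAt M.IsBase i j P (Function.update (Function.update P i (q.1 ∪ C)) j (q.2 ∪ C)) := by
  obtain ⟨e, he, f, hf, -, -, rfl, hu⟩ := h
  have s1 := ((hb _).1 hp.fst).1
  have s2 := ((hb _).1 hp.snd).1
  have hn : ∀ x ∈ X, x ∉ C := fun x hx => disjoint_left.1 hXC hx
  have e1 : ∀ (F : Finset ℕ) (x z : ℕ), x ∈ X →
      insert z ((F ∪ C).erase x) = insert z (F.erase x) ∪ C := fun F x z hx => by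
    rw [erase_union_distrib, erase_eq_of_notMem (hn x hx), insert_union]
  refine ⟨e, f, hi ▸ mem_union_left _ he, hj ▸ mem_union_left _ hf, fun z hz => ?_, ?_⟩
  · rw [hj] at hz
    rcases mem_union.1 hz with hz | hz
    · rw [hi, hj, e1 _ _ _ (s1 he), e1 _ _ _ (s2 hz)]
      refine ⟨fun h => hu z hz ((hb _).2 ⟨?_, h.1⟩) ((hb _).2 ⟨?_, h.2⟩), ?_⟩
      · exact insert_subset (s2 hz) ((erase_subset _ _).trans s1)
      · exact insert_subset (s1 he) ((erase_subset _ _).trans s2)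
      · rintro rfl
        exact ⟨((hb _).1 hq.fst).2, ((hb _).1 hq.snd).2⟩
    · refine iff_of_false (fun h => ?_) fun h => hn f (s2 hf) (h ▸ hz)
      rw [hi] at h
      exact BM.du_small ((hb _).1 hp.fst).2 (mem_union_left _ he) (mem_union_right _ hz)
        (fun h1 => hn e (s1 he) (h1 ▸ hz)) h.1
  · rw [hi, hj, e1 _ _ _ (s1 he), e1 _ _ _ (s2 hf)]
    rfl

theorem f2_pair (hA : ∀ M : BM, M.Reg → M.UEall) {M : BM} (hM : M.Reg) {ι : Type} [DecidableEq ι]
    {i j : ι} (hij : i ≠ j) {P : ι → Finset ℕ} {A B : Finset ℕ} (h1 : M.IsBase (P i))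
    (h2 : M.IsBase (P j)) (h3 : M.IsBase A) (h4 : M.IsBase B) (hs : Same (P i) (P j) A B) :
    Relation.ReflTransGen (UAny M.IsBase) P (Function.update (Function.update P i A) j B) := by
  obtain ⟨C, hC⟩ : ∃ C, C = P i ∩ P j := ⟨_, rfl⟩
  obtain ⟨X, hX⟩ : ∃ X, X = (P i ∪ P j) \ C := ⟨_, rfl⟩
  have hXC : Disjoint X C := hX ▸ sdiff_disjoint
  have c1 : C ⊆ P i := hC ▸ inter_subset_left
  have c2 : M.Indep C := h1.1.subset c1
  have c3 : ∀ F, (M.con C).IsBase F ↔ Disjoint F C ∧ M.IsBase (F ∪ C) := fun F =>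
    BM.isBase_con c2 Subset.rfl c2.r_eq.symm
  have c4 : (M.con C).r X = (M.con C).r (M.con C).E := by
    have := (c3 (P i \ C)).2 ⟨sdiff_disjoint, by rwa [sdiff_union_of_subset c1]⟩
    refine le_antisymm (BM.r_le_rE _ _) (this.r_eq ▸ BM.r_mono _ ?_)
    exact hX ▸ sdiff_subset_sdiff subset_union_left Subset.rfl
  have hb : ∀ F, ((M.con C).res X).IsBase F ↔ F ⊆ X ∧ M.IsBase (F ∪ C) := fun F => by
    rw [BM.isBase_res, c4]
    exact ⟨fun h => ⟨h.2.1, ((c3 F).1 ⟨h.1, h.2.2⟩).2⟩, fun h =>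
      have := (c3 F).2 ⟨hXC.mono_left h.1, h.2⟩
      ⟨this.1, h.1, this.2⟩⟩
  have hE : ((M.con C).res X).E = X := by
    refine inter_eq_right.2 ?_
    rw [hX]
    exact sdiff_subset_sdiff (union_subset h1.subset h2.subset) Subset.rfl
  have st : ∀ F G, M.IsBase F → M.IsBase G → F ∪ G = P i ∪ P j → F ∩ G = C →
      St2 ((M.con C).res X).IsBase X (F \ C, G \ C) ∧ F \ C ∪ C = F ∧ G \ C ∪ C = G := by
    intro F G hF hG e1 e2
    have a1 : F \ C ∪ C = F := sdiff_union_of_subset (e2 ▸ inter_subset_left)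
    have a2 : G \ C ∪ C = G := sdiff_union_of_subset (e2 ▸ inter_subset_right)
    have a3 : F \ C ∪ G \ C = X := by rw [hX, ← e1, union_sdiff_distrib]
    refine ⟨⟨(hb _).2 ⟨a3 ▸ subset_union_left, a1.symm ▸ hF⟩,
      (hb _).2 ⟨a3 ▸ subset_union_right, a2.symm ▸ hG⟩, disjoint_left.2 fun x x1 x2 => ?_, a3⟩,
      a1, a2⟩
    exact (mem_sdiff.1 x1).2 (e2 ▸ mem_inter.2 ⟨(mem_sdiff.1 x1).1, (mem_sdiff.1 x2).1⟩)
  obtain ⟨s1, s2, s3⟩ := st _ _ h1 h2 rfl hC.symm
  obtain ⟨t1, t2, t3⟩ := st _ _ h3 h4 hs.1.symm (hs.2.symm.trans hC.symm)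
  obtain ⟨a, ha⟩ := Infinite.exists_notMem_finset X
  have hr := f2_rt (hA _ ((hM.con C).res X) a _ _ (hE.symm ▸ s1) (hE.symm ▸ t1)
    (iff_of_false (fun h => ha (((hb _).1 s1.fst).1 h)) fun h => ha (((hb _).1 t1.fst).1 h)))
  rw [hE] at hr
  have := rt_lift (p := UAny M.IsBase)
    (fun p : Pr => Function.update (Function.update P i (p.1 ∪ C)) j (p.2 ∪ C)) hr ?_
  · simpa only [s2, s3, t2, t3, Function.update_eq_self] using this
  rintro p q ⟨hp, hq, h | h⟩
  · refine Relation.ReflTransGen.single ⟨i, j, hij, ?_⟩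
    have := f2_step hXC hb hp hq h (i := i) (j := j)
      (P := Function.update (Function.update P i (p.1 ∪ C)) j (p.2 ∪ C)) (by simp [hij]) (by simp)
    rwa [Function.update_comm hij.symm (f := Function.update P i (p.1 ∪ C)), Function.update_idem,
      Function.update_idem] at this
  · refine Relation.ReflTransGen.single ⟨j, i, hij.symm, ?_⟩
    have := f2_step hXC hb (f2_swap hp) (f2_swap hq) h (i := j) (j := i)
      (P := Function.update (Function.update P i (p.1 ∪ C)) j (p.2 ∪ C)) (by simp) (by simp [hij])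
    rwa [Function.update_idem, Function.update_comm hij.symm (f := Function.update P i (p.1 ∪ C)),
      Function.update_idem] at this

theorem final_reach (hA : ∀ M : BM, M.Reg → M.UEall) (hB : ∀ M : BM, M.Reg → TE M.IsBase)
    {M : BM} (hM : M.Reg) {m : ℕ} (hm : 2 ≤ m) (S T : Fin m → Finset ℕ) (hS : ∀ i, M.IsBase (S i))
    (hT : ∀ i, M.IsBase (T i))
    (hc : ∀ e, (univ.filter fun i => e ∈ S i).card = (univ.filter fun i => e ∈ T i).card) :
    Relation.ReflTransGen (UAny M.IsBase) S T := by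
  have ms : ∀ S : Fin m → Finset ℕ, (∀ i, M.IsBase (S i)) → MS M.IsBase (range m)
      (fun e => (univ.filter fun i => e ∈ S i).card)
      fun l => if h : l < m then S ⟨l, h⟩ else ∅ := by
    intro S hS
    refine ⟨fun l hl => by simpa [mem_range.1 hl] using hS _, fun e => ?_⟩
    rw [← card_map Fin.valEmbedding]
    congr 1
    ext l
    simp only [mem_filter, mem_range, mem_map, mem_univ, true_and, Fin.valEmbedding_apply]
    exact ⟨fun ⟨h1, h2⟩ => ⟨⟨l, h1⟩, by simpa [h1] using h2, rfl⟩,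
      fun ⟨a, h1, h2⟩ => h2 ▸ ⟨a.2, by simpa using h1⟩⟩
  have hr := hB M hM _ _ _ _ (ms S hS) (funext hc ▸ ms T hT)
  have := rt_lift (p := UAny M.IsBase) (fun (P : ℕ → Finset ℕ) (i : Fin m) => P i) hr ?_
  · simpa using this
  rintro P Q ⟨hP, hQ, i, j, h⟩
  have hm : ∀ l : Fin m, (l : ℕ) ∈ range m := fun l => mem_range.2 l.2
  by_cases hc : i ∈ range m ∧ j ∈ range m ∧ i ≠ j
  · obtain ⟨hi, hj, hij⟩ := hc
    have hne : (⟨i, mem_range.1 hi⟩ : Fin m) ≠ ⟨j, mem_range.1 hj⟩ := fun e => hij (Fin.mk.inj e)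
    have := f2_pair hA hM (P := fun l : Fin m => P l) hne (hP.mem i hi) (hP.mem j hj)
      (hQ.mem i hi) (hQ.mem j hj) (hP.same hQ hi hj hij h)
    refine (funext fun l => ?_ : _ = fun l : Fin m => Q l) ▸ this
    by_cases a : l = ⟨j, mem_range.1 hj⟩
    · simp [a]
    by_cases b : l = ⟨i, mem_range.1 hi⟩
    · simp [b, hne]
    rw [Function.update_of_ne a, Function.update_of_ne b]
    exact h l (hm l) (fun e => b (Fin.ext e)) fun e => a (Fin.ext e)
  · have e : ∀ l ∈ range m, P l = Q l := by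
      by_cases hi : i ∈ range m
      · exact hP.eq_of_one hQ (i := i) fun l hl h1 => h l hl h1 fun h2 =>
          hc ⟨hi, h2 ▸ hl, fun h3 => h1 (h2.trans h3.symm)⟩
      · exact hP.eq_of_one hQ (i := j) fun l hl h1 => h l hl (fun h2 => hi (h2 ▸ hl)) h1
    rw [show (fun l : Fin m => P l) = fun l : Fin m => Q l from funext fun l => e l (hm l)]

theorem uany_transfer {n m : ℕ} (B : Finset (Fin n) → Prop) (B' : Finset ℕ → Prop)
    (h : ∀ F, B F ↔ B' (F.map Fin.valEmbedding)) (h' : ∀ F, B' F → F ⊆ range n)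
    (S T : Fin m → Finset (Fin n)) (hS : ∀ i, B (S i))
    (hr : Relation.ReflTransGen (UAny B') (fun i => (S i).map Fin.valEmbedding)
      (fun i => (T i).map Fin.valEmbedding)) : Relation.ReflTransGen (UAny B) S T := by
  have key : ∀ Q, Relation.ReflTransGen (UAny B') (fun i => (S i).map Fin.valEmbedding) Q →
      ∃ R : Fin m → Finset (Fin n), (∀ i, B (R i)) ∧ (Q = fun i => (R i).map Fin.valEmbedding) ∧
        Relation.ReflTransGen (UAny B) S R := by
    intro Q hQ
    induction hQ with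
    | refl => exact ⟨S, hS, rfl, Relation.ReflTransGen.refl⟩
    | tail _ hs ih =>
      obtain ⟨R, r1, rfl, r2⟩ := ih
      obtain ⟨i, j, hij, x, y, hx, hy, hu, rfl⟩ := hs
      obtain ⟨x, hx', rfl⟩ := mem_map.1 hx
      obtain ⟨y, hy', rfl⟩ := mem_map.1 hy
      have st : UAny B R (Function.update (Function.update R i (insert y ((R i).erase x))) j
          (insert x ((R j).erase y))) := by
        refine ⟨i, j, hij, x, y, hx', hy', fun z hz => ?_, rfl⟩
        rw [h, h, map_insert, map_insert, map_erase, map_erase,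
          hu _ (mem_map_of_mem _ hz), Fin.valEmbedding.injective.eq_iff]
      refine ⟨_, st.all r1, funext fun l => ?_, r2.tail st⟩
      by_cases a : l = j
      · simp [a, map_erase]
      by_cases b : l = i
      · simp [b, hij, map_erase]
      simp [a, b]
  obtain ⟨R, -, r1, r2⟩ := key _ hr
  rwa [show T = R from funext fun i => map_injective _ (congrFun r1 i)]

end Pool.Agent.P.MP_3f5ce9_co
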