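import Pool.Agent.P.MP_3f5ce9_co.W.Lin

/-!
Boundaries of edge sets.
-/

open Finset

namespace Pool.Agent.P.MP_3f5ce9_co

namespace GA

variable {G : Gr ℕ ℕ} {φ ψ : ℕ → Finset ℕ} {C D F X T : Finset ℕ} {e u w : ℕ}

/-- the ends of an edge as a binary vector -/
abbrev gv (G : Gr ℕ ℕ) : ℕ → Finset ℕ := fun e => symmDiff {G.s e} {G.t e}

/-- the ends of the edges of `F` -/
def vs (G : Gr ℕ ℕ) (F : Finset ℕ) : Finset ℕ := F.image G.s ∪ F.image G.t

theorem within_vs (G : Gr ℕ ℕ) (F : Finset ℕ) : G.Within F (vs G F) := fun _ he =>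
  ⟨mem_union_left _ (mem_image_of_mem _ he), mem_union_right _ (mem_image_of_mem _ he)⟩

theorem within_mono (h : G.Within F X) (hX : X ⊆ T) : G.Within F T :=
  fun e he => ⟨hX (h e he).1, hX (h e he).2⟩

theorem insert_eq_sd (h : e ∉ C) : insert e C = symmDiff {e} C := by
  ext x
  simp only [mem_insert, mem_symmDiff, mem_singleton]
  by_cases hx : x = e <;> simp [hx, h]

theorem erase_eq_sd (h : e ∈ C) : C.erase e = symmDiff {e} C := by
  ext x
  simp only [mem_erase, mem_symmDiff, mem_singleton]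
  by_cases hx : x = e <;> simp [hx, h]

theorem odd_single (φ : ℕ → Finset ℕ) (e : ℕ) : oddSum φ {e} = φ e := by
  ext y
  rw [mem_oddSum, filter_singleton]
  split_ifs with hy <;> simp [hy]

theorem odd_insert (h : e ∉ C) : oddSum φ (insert e C) = symmDiff (φ e) (oddSum φ C) := by
  rw [insert_eq_sd h, oddSum_symmDiff, odd_single]

theorem odd_erase (h : e ∈ C) : oddSum φ (C.erase e) = symmDiff (φ e) (oddSum φ C) := by
  rw [erase_eq_sd h, oddSum_symmDiff, odd_single]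

theorem odd_congr (h : ∀ e ∈ C, φ e = ψ e) : oddSum φ C = oddSum ψ C := by
  ext y
  rw [mem_oddSum, mem_oddSum, filter_congr fun e he => by rw [h e he]]

theorem odd_sub (h : ∀ e ∈ C, φ e ⊆ X) : oddSum φ C ⊆ X :=
  (filter_subset _ _).trans (biUnion_subset.2 h)

theorem odd_gv_sub (h : G.Within C X) : oddSum (gv G) C ⊆ X :=
  odd_sub fun e he => symmDiff_sub (singleton_subset_iff.2 (h e he).1)
    (singleton_subset_iff.2 (h e he).2)

theorem sum_sd (χ : ℕ → ZMod 2) (C D : Finset ℕ) :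
    ∑ v ∈ symmDiff C D, χ v = ∑ v ∈ C, χ v + ∑ v ∈ D, χ v := by
  have h1 : symmDiff C D = (C \ D) ∪ (D \ C) := rfl
  rw [h1, sum_union disjoint_sdiff_sdiff, ← sum_inter_add_sum_sdiff C D,
    ← sum_inter_add_sum_sdiff D C, inter_comm D C]
  have := CharTwo.add_self_eq_zero (∑ v ∈ C ∩ D, χ v)
  linear_combination -this

theorem sum_odd (χ : ℕ → ZMod 2) (G : Gr ℕ ℕ) (C : Finset ℕ) :
    ∑ v ∈ oddSum (gv G) C, χ v = ∑ e ∈ C, (χ (G.s e) + χ (G.t e)) := by
  induction C using Finset.induction_on with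
  | empty => simp [oddSum_empty]
  | insert e C he ih => rw [odd_insert he, sum_sd, ih, sum_insert he, sum_sd]; simp

theorem even_odd (G : Gr ℕ ℕ) (C : Finset ℕ) : Even (oddSum (gv G) C).card := by
  have := sum_odd (fun _ => 1) G C
  simp only [CharTwo.add_self_eq_zero, sum_const_zero, sum_const, nsmul_eq_mul, mul_one] at this
  exact ZMod.natCast_eq_zero_iff_even.1 this

theorem eq_empty_of_even (h : Even T.card) (h1 : T.card ≤ 1) : T = ∅ := by
  rw [← card_eq_zero]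
  obtain ⟨k, hk⟩ := h
  omega

theorem odd_eq_empty : oddSum (gv G) C = ∅ ↔
    ∀ χ : ℕ → ZMod 2, ∑ e ∈ C, (χ (G.s e) + χ (G.t e)) = 0 := by
  refine ⟨fun h χ => by rw [← sum_odd, h, sum_empty], fun h => ?_⟩
  refine eq_empty_of_forall_notMem fun v hv => ?_
  have := (sum_odd (fun z => if z = v then 1 else 0) G C).trans
    (h fun z => if z = v then 1 else 0)
  rw [sum_ite_eq' _ v fun _ => (1 : ZMod 2), if_pos hv] at this
  exact one_ne_zero this

theorem exists_join (h : G.Conn F u w) : ∃ P ⊆ F, oddSum (gv G) P = symmDiff {u} {w} := by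
  refine (h {z | ∃ P ⊆ F, oddSum (gv G) P = symmDiff {u} {z}} fun e he => ?_).1
    ⟨∅, empty_subset _, by simp [oddSum_empty]⟩
  constructor
  · rintro ⟨P, h1, h2⟩
    refine ⟨symmDiff P {e}, symmDiff_sub h1 (singleton_subset_iff.2 he), ?_⟩
    rw [oddSum_symmDiff, h2, odd_single, symmDiff_assoc, symmDiff_symmDiff_cancel_left]
  · rintro ⟨P, h1, h2⟩
    refine ⟨symmDiff P {e}, symmDiff_sub h1 (singleton_subset_iff.2 he), ?_⟩
    rw [oddSum_symmDiff, h2, odd_single, symmDiff_assoc, gv, symmDiff_comm {G.s e},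
      symmDiff_symmDiff_cancel_left]

theorem conn_of_join (h : oddSum (gv G) F = symmDiff {u} {w}) : G.Conn F u w := by
  classical
  intro Y hY
  have := sum_odd (fun z => if z ∈ Y then 1 else 0) G F
  rw [h, sum_sd, sum_singleton, sum_singleton, sum_eq_zero fun e he => by
    simp only [hY e he, CharTwo.add_self_eq_zero]] at this
  by_cases h1 : u ∈ Y <;> by_cases h2 : w ∈ Y <;> simp_all

/-- an even set of vertices inside one component is a boundary -/
theorem exists_tjoin (hT : Even T.card) (h : ∀ u ∈ T, ∀ w ∈ T, G.Conn F u w) :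
    ∃ P ⊆ F, oddSum (gv G) P = T := by
  rcases T.eq_empty_or_nonempty with rfl | ⟨u, hu⟩
  · exact ⟨∅, empty_subset _, rfl⟩
  have key : ∀ S : Finset ℕ, (∀ w ∈ S, G.Conn F u w) →
      ∃ P ⊆ F, symmDiff (oddSum (gv G) P) S ⊆ {u} := by
    intro S
    induction S using Finset.induction_on with
    | empty => exact fun _ => ⟨∅, empty_subset _, by simp [oddSum_empty]⟩
    | insert w S hw ih =>
      intro hS
      obtain ⟨P, h1, h2⟩ := ih fun z hz => hS z (mem_insert_of_mem hz)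
      obtain ⟨Q, h3, h4⟩ := exists_join (hS w (mem_insert_self _ _))
      refine ⟨symmDiff Q P, symmDiff_sub h3 h1, ?_⟩
      rw [oddSum_symmDiff, h4, insert_eq_sd hw, symmDiff_symmDiff_symmDiff_comm,
        symmDiff_symmDiff_cancel_right]
      exact symmDiff_sub Subset.rfl h2
  obtain ⟨P, h1, h2⟩ := key T (h u hu)
  refine ⟨P, h1, symmDiff_eq_empty.1 (eq_empty_of_even ?_ (card_le_card h2))⟩
  have h3 := odd_card_symmDiff (oddSum (gv G) P) T
  have h4 := even_odd G P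
  simp only [← Nat.not_odd_iff_even] at *
  tauto

theorem cyc_conn (h : oddSum (gv G) C = ∅) (he : e ∈ C) : G.Conn (C.erase e) (G.s e) (G.t e) :=
  conn_of_join (by rw [odd_erase he, h]; simp)

theorem conn_cyc (he : e ∉ F) (h : G.Conn F (G.s e) (G.t e)) :
    ∃ C, oddSum (gv G) C = ∅ ∧ e ∈ C ∧ C ⊆ insert e F := by
  obtain ⟨P, h1, h2⟩ := exists_join h
  refine ⟨insert e P, ?_, mem_insert_self _ _, insert_subset_insert e h1⟩
  rw [odd_insert fun h => he (h1 h), h2]
  simp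

theorem card_image_le {β γ : Type} [DecidableEq β] [DecidableEq γ] {f : ℕ → β} {g : ℕ → γ}
    (h : ∀ u ∈ X, ∀ w ∈ X, f u = f w → g u = g w) : (X.image g).card ≤ (X.image f).card := by
  refine (card_le_card ?_).trans (Finset.card_image_le (f := fun b => g (Function.invFunOn f X b)))
  intro c hc
  obtain ⟨u, hu, rfl⟩ := mem_image.1 hc
  have h1 : ∃ a ∈ (X : Set ℕ), f a = f u := ⟨u, hu, rfl⟩
  exact mem_image.2 ⟨f u, mem_image_of_mem _ hu,
    h _ (Function.invFunOn_mem h1) u hu (Function.invFunOn_eq h1)⟩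

theorem card_image_eq {β γ : Type} [DecidableEq β] [DecidableEq γ] {f : ℕ → β} {g : ℕ → γ}
    (h : ∀ u ∈ X, ∀ w ∈ X, f u = f w ↔ g u = g w) : (X.image f).card = (X.image g).card :=
  le_antisymm (card_image_le fun u hu w hw => (h u hu w hw).2)
    (card_image_le fun u hu w hw => (h u hu w hw).1)

/-- a representative of every component -/
theorem exists_rep (G : Gr ℕ ℕ) (F : Finset ℕ) :
    ∃ ρ : ℕ → ℕ, (∀ u, G.Conn F u (ρ u)) ∧ ∀ u w, ρ u = ρ w ↔ G.Conn F u w := by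
  have h1 : ∀ u, G.Conn F u (sInf {w | G.Conn F u w}) := fun u =>
    Nat.sInf_mem (s := {w | G.Conn F u w}) ⟨u, Gr.Conn.refl _ _ _⟩
  refine ⟨fun u => sInf {w | G.Conn F u w}, h1, fun u w => ⟨fun h => ?_, fun h => ?_⟩⟩
  · exact (h1 u).trans (by rw [show sInf {w | G.Conn F u w} = _ from h]; exact (h1 w).symm)
  · exact congrArg sInf (Set.ext fun z => ⟨h.symm.trans, h.trans⟩)

/-- adding an edge whose end `t e` lies outside the components of `u` and `w` -/
theorem conn_insert (h : G.Conn (insert e F) u w) (hu : ¬ G.Conn F (G.t e) u)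
    (hw : ¬ G.Conn F (G.t e) w) : G.Conn F u w := by
  have h1 := Gr.Conn.erase_of_side (Y := {z | G.Conn F (G.t e) z}ᶜ) (G.joins_st e) (fun g hg => by
    have := G.closed_comp F (G.t e) g (mem_of_mem_insert_of_ne (mem_of_mem_erase hg) (ne_of_mem_erase hg))
    simp only [Set.mem_compl_iff, this]) (fun h => h (Gr.Conn.refl _ _ _)) hu hw h
  exact h1.mono (erase_insert_subset e F)

theorem tri_aux (p0 q0 p1 q1 p2 q2 : ℕ) (l0 : p0 ≠ q0) (l1 : p1 ≠ q1) (l2 : p2 ≠ q2)
    (h : ∀ v, (v = p0 ∨ v = q0) ↔ ¬ ((v = p1 ∨ v = q1) ↔ (v = p2 ∨ v = q2))) :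
    ∃ x y z, x ≠ y ∧ x ≠ z ∧ y ≠ z ∧ (p0 = y ∧ q0 = z ∨ p0 = z ∧ q0 = y) ∧
      (p1 = x ∧ q1 = z ∨ p1 = z ∧ q1 = x) ∧ (p2 = x ∧ q2 = y ∨ p2 = y ∧ q2 = x) := by
  have a0 := h p0
  have b0 := h q0
  have a1 := h p1
  have b1 := h q1
  have a2 := h p2
  have b2 := h q2
  clear h
  by_cases e1 : p0 = p1
  · exact ⟨q1, q0, p0, by grind⟩
  by_cases e2 : p0 = q1
  · exact ⟨p1, q0, p0, by grind⟩
  by_cases e3 : q0 = p1
  · exact ⟨q1, p0, q0, by grind⟩
  · exact ⟨p1, p0, q0, by grind⟩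

theorem ite_xor (a b : Prop) [Decidable a] [Decidable b] :
    (if (a ∧ ¬ b) ∨ (b ∧ ¬ a) then (1 : ZMod 2) else 0) = (if a then 1 else 0) + if b then 1 else 0 := by
  by_cases h : a <;> by_cases h' : b <;> simp [h, h', CharTwo.add_self_eq_zero]

theorem mem_sd {v p q : ℕ} (h : p ≠ q) : v ∈ symmDiff ({p} : Finset ℕ) {q} ↔ v = p ∨ v = q := by
  simp only [mem_symmDiff, mem_singleton]
  grind

end GA

end Pool.Agent.P.MP_3f5ce9_co
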