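import Pool.Agent.P.MP_3f5ce9_co.W.HBasic

/-!
Lifting admissible moves through a vertex of degree three.
-/

open Finset

namespace Pool.Agent.P.MP_3f5ce9_co

namespace Gr

variable {G : Gr ℕ ℕ} {X Y Z W Es F R R' S T U U' L Φ : Finset ℕ} {p q α β β' σ : Finset ℕ × Finset ℕ}
  {u w v r a b c a' b' c' e f g x y z φ ψ n : ℕ}

/-- after deleting an edge, the far end is still reached from the start or from an end of the edge -/
theorem hl_three (hj : G.Joins g a b) (h : G.Conn U u w) :
    G.Conn (U.erase g) u w ∨ G.Conn (U.erase g) a w ∨ G.Conn (U.erase g) b w := by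
  by_contra hn
  push Not at hn
  have := h {z | G.Conn (U.erase g) w z} (by
    intro e he
    by_cases heg : e = g
    · subst heg
      have h1 : a ∉ {z | G.Conn (U.erase e) w z} := fun h => hn.2.1 (Conn.symm h)
      have h2 : b ∉ {z | G.Conn (U.erase e) w z} := fun h => hn.2.2 (Conn.symm h)
      rcases hj with ⟨rfl, rfl⟩ | ⟨rfl, rfl⟩ <;> simp only [h1, h2]
    · exact G.closed_comp _ w e (mem_erase.2 ⟨heg, he⟩))
  exact hn.1 (Conn.symm (this.2 (Conn.refl _ _ _)))

/-- in a forest, an edge that is not needed for a connection is not needed in a subforest -/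
theorem hl_erase (hT : G.Acyc T) (hU : U ⊆ T) (hg : g ∈ T) (h : G.Conn U u w)
    (h' : G.Conn (T.erase g) u w) : G.Conn (U.erase g) u w := by
  have h6 : G.Closed (U.erase g) {z | G.Conn (T.erase g) u z} := fun e he =>
    G.closed_comp _ u e (erase_subset_erase _ hU he)
  by_cases h7 : G.Conn (T.erase g) u (G.t g)
  · exact Conn.erase_of_side (G.joins_st g).symm h6
      (fun h8 => hT g hg (Conn.trans (Conn.symm h8) h7)) (Conn.refl _ _ _) h' h
  · exact Conn.erase_of_side (G.joins_st g) h6 h7 (Conn.refl _ _ _) h' h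

theorem Node.aamove (N : G.Node Es v x y z a b c) (hv : v ∉ R) (hxF : x ∉ F) (hyF : y ∉ F)
    (hzF : z ∉ F) (heF : e ∉ F) (hfF : f ∉ F)
    (ha : a ∈ R → G.Conn (T \ F) (G.s e) (G.t e)) (hab : a ≠ b)
    (hac : a ≠ c) (h : G.St X Es (S, T)) (hx : x ∈ S) (hy : y ∈ T) (hz : z ∈ T) (he : e ∈ S)
    (hex : e ≠ x) (hf : f ∈ T) (ie : G.Inc e a) (jf : G.Inc f a)
    (hl : ∀ g ∈ S, G.Inc g a → g = e ∨ g = x)
    (h' : G.St X Es (insert f (S.erase e), insert e (T.erase f)))
    (hc : G.Conn ((T.erase y).erase z) a b) :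
    G.AReach X Es F R (S, T) (insert f (S.erase e), insert e (T.erase f)) := by
  have hxy := N.xy
  have hxz := N.xz
  have hyz := N.yz
  have hav := N.av
  have dx := h.disj x
  have dy := h.disj y
  have dz := h.disj z
  have de := h.disj e
  have df := h.disj f
  simp only at dx dy dz de df
  have hya : ¬ G.Inc y a := by rw [N.jy.inc_iff]; grind
  have hza : ¬ G.Inc z a := by rw [N.jz.inc_iff]; grind
  have hfy : f ≠ y := by rintro rfl; exact hya jf
  have hfz : f ≠ z := by rintro rfl; exact hza jf
  have hvS : ∀ g ∈ S, G.Inc g v → g = x := fun g hg hi => by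
    have := N.all g ((h.cov g).2 (Or.inl hg)) hi
    grind
  have hvT : ∀ g ∈ T, G.Inc g v → g = y ∨ g = z := fun g hg hi => by
    have := N.all g ((h.cov g).2 (Or.inr hg)) hi
    grind
  have hmx := N.jx.mem h.within N.hx
  have hmy := N.jy.mem h.within N.hy
  have hmz := N.jz.mem h.within N.hz
  have s1 := N.avstep0 hv hxF hyF h hx hy hz hc
  refine s1.reach.trans ?_
  obtain ⟨q, hq⟩ := ie.exists_joins
  obtain ⟨p', hp'⟩ := jf.exists_joins
  have hsub : ∀ g, (T \ F).erase g ⊆ T.erase g := fun g => erase_subset_erase _ sdiff_subset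
  have hx' : x ∈ insert f (S.erase e) := by simp only [mem_insert, mem_erase]; grind
  have hy' : y ∈ insert e (T.erase f) := by simp only [mem_insert, mem_erase]; grind
  have hz' : z ∈ insert e (T.erase f) := by simp only [mem_insert, mem_erase]; grind
  by_cases hb' : G.Conn (((insert e (T.erase f)).erase y).erase z) a b
  · have s3 := N.avstep0 hv hxF hyF h' hx' hy' hz' hb'
    refine AReach.trans (AStep.reach ?_) s3.symm.reach
    refine astep_of_st (e := e) (f := f) s1.2.1 s3.2.1 ?_ ?_ heF hfF ie jf (fun g hg hi => ?_)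
      ?_ ?_ fun hR => ?_
    · simp only [mem_insert, mem_erase]; grind
    · simp only [mem_insert, mem_erase]; grind
    · have := hl g
      simp only [mem_insert, mem_erase] at hg
      grind
    · ext g; simp only [mem_insert, mem_erase]; grind
    · ext g; simp only [mem_insert, mem_erase]; grind
    · have hab' : G.Conn (T.erase y) a b := hc.mono (erase_subset _ _)
      have k1 : G.Conn (T.erase y) a q := by
        rcases Conn.erase_or N.jy
          (h.snd.conn v hmy.1 q (hq.mem h.fst.within he).2) with h1 | h1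
        · exfalso
          have h2 : G.Conn ((T.erase y).erase f) v q :=
            Conn.erase_of_side (Y := {u | G.Conn (T.erase y) v u}) hp'.symm
              (fun g hg => G.closed_comp _ v g (mem_of_mem_erase hg))
              (fun h3 => h.snd.acyc.not_conn hy N.jy (Conn.trans h3 hab'))
              (Conn.refl _ _ _) h1 h1
          refine h'.snd.acyc.not_conn hy' N.jy ((h2.mono fun g hg => ?_).trans
            ((Conn.edge ?_ hq.symm).trans (hb'.mono (erase_subset _ _))))
          · simp only [mem_insert, mem_erase] at hg ⊢; grind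
          · simp only [mem_insert, mem_erase]; grind
        · exact hab'.trans h1
      refine hq.conn ((hl_erase h.snd.acyc sdiff_subset hy (hq.conn' (ha hR)) k1).mono
        fun g hg => ?_)
      simp only [mem_insert, mem_erase, mem_sdiff] at hg ⊢; grind
  have hc' : G.Conn (((insert e (T.erase f)).erase y).erase z) a c :=
    (N.side h'.snd (fun g hg => (h'.cov g).2 (Or.inr hg)) (h'.disj x hx') hmx.1 hmx.2
      N.av).resolve_left hb'
  have hpb : G.Conn (((T.erase y).erase z).erase f) p' b := by
    refine (Conn.erase_or hp' hc).resolve_left fun h1 => hb' (h1.mono fun g hg => ?_)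
    simp only [mem_insert, mem_erase] at hg ⊢
    grind
  have hqc : G.Conn (((T.erase y).erase z).erase f) q c := by
    rcases Conn.erase_or hq hc' with h1 | h1
    · exfalso
      refine h.snd.acyc.not_conn hy N.jy ?_
      have h2 : G.Conn (T.erase y) v c := Conn.edge (mem_erase.2 ⟨hyz.symm, hz⟩) N.jz
      refine h2.trans ((h1.symm.mono fun g hg => ?_).trans (hc.mono (erase_subset _ _)))
      simp only [mem_insert, mem_erase] at hg ⊢
      grind
    · refine h1.mono fun g hg => ?_
      simp only [mem_insert, mem_erase] at hg ⊢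
      grind
  have hcb : G.Conn ((S.erase x).erase e) c b := by
    refine Conn.erase_leaf ie (fun g hg hi => ?_) hac.symm hab.symm
      (Conn.erase_leaf N.jx.inc hvS N.cv N.bv (h.fst.conn c hmz.2 b hmy.2))
    have := hl g (mem_of_mem_erase hg) hi
    have := (mem_erase.1 hg).1
    tauto
  have s2 : G.AStep X Es F R (insert y (S.erase x), insert x (T.erase y))
      (insert y (S.erase e), insert e (T.erase y)) := by
    refine astep_mk (e := e) (f := x) s1.2.1 ?_ (mem_insert_self _ _) heF hxF ie N.jx.symm
      (fun g hg hi => ?_) ?_ ?_ ?_ fun hR => ?_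
    · simp only [mem_insert, mem_erase]; grind
    · have := hl g
      simp only [mem_insert, mem_erase] at hg
      grind
    · ext g; simp only [mem_insert, mem_erase]; grind
    · ext g; simp only [mem_insert, mem_erase]; grind
    · refine (Conn.edge (mem_insert_self _ _) hq).trans ((hqc.mono fun g hg => ?_).trans
        (Conn.edge ?_ N.jz.symm))
      · simp only [mem_insert, mem_erase] at hg ⊢; grind
      · simp only [mem_insert, mem_erase]; grind
    · have k1 : G.Conn (T.erase y) v q :=
        (Conn.edge (mem_erase.2 ⟨hyz.symm, hz⟩) N.jz).trans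
          (hqc.symm.mono ((erase_subset _ _).trans (erase_subset _ _)))
      have k2 : G.Conn (T.erase y) a b := hc.mono (erase_subset _ _)
      have k3 := h.snd.acyc.not_conn hy N.jy
      rcases hl_three N.jy (hq.conn' (ha hR)) with h1 | h1 | h1
      · exact (k3 (k1.trans ((h1.symm.mono (hsub y)).trans k2))).elim
      · refine hq.conn ((Conn.edge ?_ N.jx.symm).trans (h1.mono fun g hg => ?_))
        · simp only [mem_insert, mem_erase, mem_sdiff]; grind
        · simp only [mem_insert, mem_erase, mem_sdiff] at hg ⊢; grind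
      · exact (k3 (k1.trans (h1.symm.mono (hsub y)))).elim
  have s3 : G.AStep X Es F R (insert e (T.erase y), insert y (S.erase e))
      (insert e (T.erase z), insert z (S.erase e)) := by
    refine astep_mk (e := z) (f := y) s2.2.1.swap ?_ (mem_insert_self _ _) hzF hyF N.jz.inc N.jy
      (fun g hg hi => ?_) ?_ ?_ ?_ fun h => absurd h hv
    · simp only [mem_insert, mem_erase]; grind
    · have := hvS g
      have := hvT g
      simp only [mem_insert, mem_erase] at hg
      grind
    · ext g; simp only [mem_insert, mem_erase]; grind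
    · ext g; simp only [mem_insert, mem_erase]; grind
    · refine (Conn.edge (mem_insert_self _ _) N.jz).trans (hcb.mono fun g hg => ?_)
      simp only [mem_insert, mem_erase] at hg ⊢; grind
  have s4 : G.AStep X Es F R (insert z (S.erase e), insert e (T.erase z))
      (insert f (insert z ((S.erase e).erase x)), insert x (insert e ((T.erase z).erase f))) := by
    refine astep_mk (e := x) (f := f) s3.2.1.swap ?_ ?_ hxF hfF N.jx.inc' hp'
      (fun g hg hi => ?_) ?_ ?_ ?_ fun hR => ?_
    · simp only [mem_insert, mem_erase]; grind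
    · simp only [mem_insert, mem_erase]; grind
    · have := hl g
      simp only [mem_insert, mem_erase] at hg
      grind
    · ext g; simp only [mem_insert, mem_erase]; grind
    · ext g; simp only [mem_insert, mem_erase]; grind
    · refine (Conn.edge (mem_insert_self _ _) N.jx.symm).trans ((Conn.edge ?_ N.jy).trans
        (hpb.symm.mono fun g hg => ?_))
      · simp only [mem_insert, mem_erase]; grind
      · simp only [mem_insert, mem_erase] at hg ⊢; grind
    · have k0 : (T.erase y).erase z ⊆ T.erase z := erase_subset_erase _ (erase_subset _ _)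
      have k1 : G.Conn (T.erase z) v a :=
        (Conn.edge (mem_erase.2 ⟨hyz, hy⟩) N.jy).trans (hc.symm.mono k0)
      have k2 : G.Conn (T.erase z) q c := hqc.mono ((erase_subset _ _).trans k0)
      have k3 := h.snd.acyc.not_conn hz N.jz
      rcases hl_three N.jz (hq.conn' (ha hR)).symm with h1 | h1 | h1
      · exact (k3 (k1.trans ((h1.symm.mono (hsub z)).trans k2))).elim
      · refine N.jx.conn (h1.mono fun g hg => ?_)
        simp only [mem_insert, mem_erase, mem_sdiff] at hg ⊢; grind
      · exact (k3 (k1.trans (h1.symm.mono (hsub z)))).elim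
  have s5 : G.AStep X Es F R
      (insert f (insert z ((S.erase e).erase x)), insert x (insert e ((T.erase z).erase f)))
      (insert f (S.erase e), insert e (T.erase f)) := by
    refine astep_of_st (e := z) (f := x) s4.2.1 h' ?_ (mem_insert_self _ _) hzF hxF N.jz.inc
      N.jx.inc (fun g hg hi => ?_) ?_ ?_ fun h => absurd h hv
    · simp only [mem_insert, mem_erase]; grind
    · have := hvS g
      have := hvT g
      simp only [mem_insert, mem_erase] at hg
      grind
    · ext g; simp only [mem_insert, mem_erase]; grind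
    · ext g; simp only [mem_insert, mem_erase]; grind
  exact s2.reach.trans (s3.swap.reach.trans (s4.reach.trans s5.reach))

/-- lifting a move of the new edge -/
theorem Node.azmove (N : G.Node Es v x y z a b c) (hv : v ∉ R) (hxF : x ∉ F) (hyF : y ∉ F)
    (hzF : z ∉ F) (hfF : f ∉ F) (hb : b ∈ R → G.Conn (T.erase x \ F) b c) (hab : a ≠ b)
    (h : G.St X Es (S, T)) (hx : x ∈ T) (hy : y ∈ S) (hz : z ∈ S) (hf : f ∈ T) (hfx : f ≠ x)
    (jf : G.Inc f b) (hl : ∀ g ∈ S, G.Inc g b → g = y) {S' T' : Finset ℕ}
    (h' : G.St X Es (S', T')) (h1 : ∀ g, g ∈ S' ↔ g = x ∨ g = f ∨ (g ∈ S ∧ g ≠ y ∧ g ≠ z)) :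
    G.AReach X Es F R (S, T) (S', T') := by
  have hxy := N.xy
  have hxz := N.xz
  have hyz := N.yz
  have dx := h.disj x
  have dy := h.disj y
  have dz := h.disj z
  have df := h.disj f
  simp only at dx dy dz df
  have hmx := N.jx.mem h.within N.hx
  have hmz := N.jz.mem h.within N.hz
  have hbc : c ≠ b := by
    rintro rfl
    exact hyz (hl z hz N.jz.inc').symm
  have hc : G.Conn ((S.erase z).erase y) a c := by
    rcases N.side h.fst (fun g hg => (h.cov g).2 (Or.inl hg)) (fun h2 => dx h2 hx) hmx.1 hmx.2
      N.av with h2 | h2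
    · exfalso
      refine hab (h2.symm.eq_of_isolated fun g hg hi => ?_)
      simp only [mem_erase] at hg
      exact hg.2.1 (hl g hg.2.2 hi)
    · rwa [erase_right_comm]
  have s1 := N.s23.avstep0 hv hxF hzF h.swap hx hz hy hc
  refine s1.swap.reach.trans (AStep.reach ?_)
  have hxb : ¬ G.Inc x b := by
    rw [N.jx.inc_iff]
    have := N.bv
    grind
  refine astep_of_st (e := y) (f := f) s1.2.1.swap h' ?_ ?_ hyF hfF N.jy.inc' jf
    (fun g hg hi => ?_) ?_ ?_ fun hR => ?_
  · simp only [mem_insert, mem_erase]; grind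
  · simp only [mem_insert, mem_erase]; grind
  · have := hl g
    simp only [mem_insert, mem_erase] at hg
    grind
  · ext g; rw [h1]; simp only [mem_insert, mem_erase]; grind
  · ext g
    have := h1 g
    have := h'.cov g
    have := h'.disj g
    have := h.cov g
    have := h.disj g
    simp only [mem_insert, mem_erase] at *
    grind
  · exact N.jy.conn ((Conn.edge (mem_sdiff.2 ⟨mem_insert_self _ _, hzF⟩) N.jz).trans
      ((hb hR).symm.mono (sdiff_subset_sdiff (subset_insert _ _) Subset.rfl)))

theorem Node.alift_z (N : G.Node Es v x y z a b c) (hW : G.Within Es X) (hv : v ∉ R)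
    (hxF : x ∉ F) (hyF : y ∉ F) (hzF : z ∉ F) (hfF : f ∉ F) (hab : a ≠ b) (hac : a ≠ c)
    (h : (G.map (ctr v b)).St (X.erase v) ((Es.erase x).erase y) (S, T))
    (h' : (G.map (ctr v b)).St (X.erase v) ((Es.erase x).erase y)
      (insert f (S.erase z), insert z (T.erase f)))
    (hw : w ∈ R → (G.map (ctr v b)).Conn (T \ F) ((G.map (ctr v b)).s z) ((G.map (ctr v b)).t z))
    (hz : z ∈ S) (hf : f ∈ T)
    (iz : (G.map (ctr v b)).Inc z w) (jf : (G.map (ctr v b)).Inc f w)
    (hl : ∀ g ∈ S, (G.map (ctr v b)).Inc g w → g = z) :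
    G.AReach X Es F R (up x y z (S, T)) (up x y z (insert f (S.erase z), insert z (T.erase f))) := by
  have hzT : z ∉ T := h.disj z hz
  have k := (N.up_st hW h).1
  have k' := (N.up_st hW h').1
  rw [up_of_not hzT] at k ⊢
  rw [up_of_snd (mem_insert_self _ _)] at k' ⊢
  have hE : ∀ g, g ∈ S ∨ g ∈ T → g ∈ Es ∧ g ≠ x ∧ g ≠ y := by
    intro g hg
    have := (h.cov g).2 hg
    simp only [mem_erase] at this
    tauto
  have hfz : f ≠ z := by rintro rfl; exact hzT hf
  have hf' := hE f (Or.inr hf)
  have jf' : G.Inc f w := (N.inc_iff hf'.1 hf'.2.1 hf'.2.2 hfz).1 jf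
  have hbc : b ≠ c := h.fst.acyc.ne hz N.jz'
  have hl' : ∀ g ∈ S, G.Inc g w → g = z := by
    intro g hg hi
    by_contra hgz
    have := hE g (Or.inl hg)
    exact hgz (hl g hg ((N.inc_iff this.1 this.2.1 this.2.2 hgz).2 hi))
  have hxy := N.xy
  have hyz := N.yz
  have hyS : y ∉ S := fun h => (hE y (Or.inl h)).2.2 rfl
  have hp : w ∈ R → G.Conn ((insert x T).erase x \ F) b c := fun hR => by
    refine (conn_congr (fun g hg => ?_) (N.jz'.conn' (hw hR))).mono fun g hg => ?_
    · have h1 := hE g (Or.inr (mem_sdiff.1 hg).1)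
      have h2 := N.ends h1.1 h1.2.1 h1.2.2 (by rintro rfl; exact hzT (mem_sdiff.1 hg).1)
      exact ⟨h2.1.symm, h2.2.symm⟩
    · have h1 := hE g (Or.inr (mem_sdiff.1 hg).1)
      simp only [mem_insert, mem_erase, mem_sdiff] at hg ⊢
      grind
  rcases N.jz'.inc_iff.1 iz with rfl | rfl
  · refine N.azmove hv hxF hyF hzF hfF hp hab k (mem_insert_self _ _) (mem_insert_self _ _)
      (mem_insert_of_mem hz) (mem_insert_of_mem hf) hf'.2.1 jf' (fun g hg hi => ?_) k' fun g => ?_
    · rcases mem_insert.1 hg with rfl | hg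
      · rfl
      · have h1 := hl' g hg hi
        subst h1
        have := N.jz.inc_iff.1 hi
        have := N.bv
        grind
    · simp only [mem_insert, mem_erase]; grind
  · refine N.s23.azmove hv hxF hzF hyF hfF (fun hR => (hp hR).symm) hac k (mem_insert_self _ _) (mem_insert_of_mem hz)
      (mem_insert_self _ _) (mem_insert_of_mem hf) hf'.2.1 jf' (fun g hg hi => ?_) k' fun g => ?_
    · rcases mem_insert.1 hg with rfl | hg
      · have := N.jy.inc_iff.1 hi
        have := N.cv
        grind
      · exact hl' g hg hi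
    · simp only [mem_insert, mem_erase]; grind

theorem Node.alift_lm (N : G.Node Es v x y z a b c) (hW : G.Within Es X) (hv : v ∉ R)
    (hxF : x ∉ F) (hyF : y ∉ F) (hzF : z ∉ F) (hab : a ≠ b) (hac : a ≠ c)
    (h : (G.map (ctr v b)).St (X.erase v) ((Es.erase x).erase y) p)
    (h' : (G.map (ctr v b)).St (X.erase v) ((Es.erase x).erase y) q)
    (hm : (G.map (ctr v b)).ALM F R w p q) : G.AReach X Es F R (up x y z p) (up x y z q) := by
  have hm' := hm.symm h h'
  obtain ⟨S, T⟩ := p
  obtain ⟨S', T'⟩ := q
  obtain ⟨e, he, f, hf, heF, hfF, ie, jf, hl, h1, h2, hw⟩ := hm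
  simp only at he hf hl h1 h2 hw
  by_cases hez : e = z
  · subst hez h1 h2
    exact N.alift_z hW hv hxF hyF hzF hfF hab hac h h' hw he hf ie jf hl
  by_cases hfz : f = z
  · obtain ⟨e', he', f', hf', -, hfF', ie', jf', hl', h3, h4, hw'⟩ := hm'
    simp only at he' hf' hl' h3 h4 hw'
    have h5 : f = e' := hl' f (by simp [h1]) jf
    rw [hfz] at h5
    subst h5 h3 h4
    exact (N.alift_z hW hv hxF hyF hzF hfF' hab hac h' h hw' he' hf' ie' jf' hl').symm
  have hE : ∀ g, g ∈ S ∨ g ∈ T → g ∈ Es ∧ g ≠ x ∧ g ≠ y := by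
    intro g hg
    have := (h.cov g).2 hg
    simp only [mem_erase] at this
    tauto
  have he' := hE e (Or.inl he)
  have hf' := hE f (Or.inr hf)
  have ie' : G.Inc e w := (N.inc_iff he'.1 he'.2.1 he'.2.2 hez).1 ie
  have jf' : G.Inc f w := (N.inc_iff hf'.1 hf'.2.1 hf'.2.2 hfz).1 jf
  have hwv : w ≠ v := (mem_erase.1 (ie.mem h.fst.within he)).1
  have hl' : ∀ g ∈ S, g ≠ z → G.Inc g w → g = e := by
    intro g hg hgz hi
    have := hE g (Or.inl hg)
    exact hl g hg ((N.inc_iff this.1 this.2.1 this.2.2 hgz).2 hi)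
  have k := (N.up_st hW h).1
  have k' := (N.up_st hW h').1
  have hxS : x ∉ S := fun h => (hE x (Or.inl h)).2.1 rfl
  have hyS : y ∉ S := fun h => (hE y (Or.inl h)).2.2 rfl
  have hxT : x ∉ T := fun h => (hE x (Or.inr h)).2.1 rfl
  have hyT : y ∉ T := fun h => (hE y (Or.inr h)).2.2 rfl
  by_cases hz : z ∈ T
  · have hz' : z ∈ T' := by rw [h2]; simp only [mem_insert, mem_erase]; grind
    have hzS : z ∉ S := fun h3 => h.disj z h3 hz
    rw [up_of_snd hz] at k ⊢
    rw [up_of_snd hz'] at k' ⊢
    have e1 : insert x S' = insert f ((insert x S).erase e) := by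
      rw [h1]; ext g; simp only [mem_insert, mem_erase]; grind
    have e2 : insert y T' = insert e ((insert y T).erase f) := by
      rw [h2]; ext g; simp only [mem_insert, mem_erase]; grind
    have hp : w ∈ R → G.Conn (insert y T \ F) (G.s e) (G.t e) := fun hR =>
      Conn.unmap (hW.mono fun g hg => (hE g (Or.inr (mem_sdiff.1 hg).1)).1) (hW e he'.1).1
        (hW e he'.1).2
        (fun _ _ _ _ hpq => ctr_conn (mem_sdiff.2 ⟨mem_insert_self _ _, hyF⟩) N.jy hpq)
        (sdiff_subset_sdiff (subset_insert _ _) Subset.rfl) (hw hR)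
    by_cases hwa : w = a
    · subst hwa
      rw [e1, e2] at k' ⊢
      have hl2 : ∀ g ∈ insert x S, G.Inc g w → g = e ∨ g = x := by
        intro g hg hi
        have := hl' g
        simp only [mem_insert] at hg
        grind
      have hm := N.jx.mem hW N.hx
      rcases N.side k.snd (fun g hg => (k.cov g).2 (Or.inr hg))
        (k.disj x (mem_insert_self _ _)) hm.1 hm.2 N.av with h3 | h3
      · exact N.aamove hv hxF hyF hzF heF hfF hp hab hac k (mem_insert_self _ _)
          (mem_insert_self _ _) (mem_insert_of_mem hz) (mem_insert_of_mem he) he'.2.1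
          (mem_insert_of_mem hf) ie' jf' hl2 k' h3
      · rw [erase_right_comm] at h3
        exact N.s23.aamove hv hxF hzF hyF heF hfF hp hac hab k (mem_insert_self _ _)
          (mem_insert_of_mem hz) (mem_insert_self _ _) (mem_insert_of_mem he) he'.2.1
          (mem_insert_of_mem hf) ie' jf' hl2 k' h3
    · refine (astep_of_st k k' (mem_insert_of_mem he) (mem_insert_of_mem hf) heF hfF ie' jf'
        (fun g hg hi => ?_) e1 e2 hp).reach
      rcases mem_insert.1 hg with rfl | hg
      · have := N.jx.inc_iff.1 hi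
        grind
      · exact hl' g hg (by rintro rfl; exact hzS hg) hi
  · have hz' : z ∉ T' := by rw [h2]; simp only [mem_insert, mem_erase]; grind
    have hzS : z ∈ S := by have := (h.cov z).1 N.z_mem; tauto
    have hzw : ¬ (G.map (ctr v b)).Inc z w := fun hi => hez (hl z hzS hi).symm
    rw [N.jz'.inc_iff] at hzw
    rw [up_of_not hz] at k ⊢
    rw [up_of_not hz'] at k' ⊢
    refine (astep_of_st k k' (mem_insert_of_mem he) (mem_insert_of_mem hf) heF hfF ie' jf'
        (fun g hg hi => ?_) ?_ ?_ fun hR => ?_).reach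
    · rcases mem_insert.1 hg with rfl | hg
      · have := N.jy.inc_iff.1 hi
        grind
      · refine hl' g hg ?_ hi
        rintro rfl
        have := N.jz.inc_iff.1 hi
        grind
    · rw [h1]; ext g; simp only [mem_insert, mem_erase]; grind
    · rw [h2]; ext g; simp only [mem_insert, mem_erase]; grind
    · have h3 := hw hR
      have h4 := N.ends he'.1 he'.2.1 he'.2.2 hez
      rw [h4.1, h4.2] at h3
      refine (conn_congr (fun g hg => ?_) h3).mono
        (sdiff_subset_sdiff (subset_insert _ _) Subset.rfl)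
      have h5 := hE g (Or.inr (mem_sdiff.1 hg).1)
      have h6 := N.ends h5.1 h5.2.1 h5.2.2 (by rintro rfl; exact hz (mem_sdiff.1 hg).1)
      exact ⟨h6.1.symm, h6.2.symm⟩

theorem Node.alift_step (N : G.Node Es v x y z a b c) (hW : G.Within Es X) (hv : v ∉ R)
    (hxF : x ∉ F) (hyF : y ∉ F) (hzF : z ∉ F) (hab : a ≠ b) (hac : a ≠ c)
    (h : (G.map (ctr v b)).AStep (X.erase v) ((Es.erase x).erase y) F R p q) :
    G.AReach X Es F R (up x y z p) (up x y z q) := by
  obtain ⟨h1, h2, w, hm | hm⟩ := h
  · exact N.alift_lm hW hv hxF hyF hzF hab hac h1 h2 hm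
  · have := (N.alift_lm hW hv hxF hyF hzF hab hac h1.swap h2.swap hm).swap
    rwa [N.up_swap h1, N.up_swap h2, Prod.swap_swap, Prod.swap_swap] at this

theorem Node.alift (N : G.Node Es v x y z a' b' c') (hW : G.Within Es X) (hv : v ∉ R)
    (hx : x ∉ F) (hy : y ∉ F) (hz : z ∉ F) (hab : a' ≠ b') (hac : a' ≠ c')
    (h : (G.map (ctr v b')).AReach (X.erase v) ((Es.erase x).erase y) F R p q) :
    G.AReach X Es F R (up x y z p) (up x y z q) := by
  induction h with
  | refl => exact AReach.refl _
  | tail _ h ih => exact ih.trans (N.alift_step hW hv hx hy hz hab hac h)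

end Gr

end Pool.Agent.P.MP_3f5ce9_co
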