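import Pool.Agent.P.MP_3f5ce9_co.W.HEq
import Pool.Agent.P.MP_3f5ce9_co.W.HLift

/-!
Connectivity inside a good class.
-/

open Finset

namespace Pool.Agent.P.MP_3f5ce9_co

namespace Gr

variable {G : Gr ℕ ℕ} {X Y Z P P' Es F U U' A Φ : Finset ℕ} {p q α β σ σ' τ τ' : Finset ℕ × Finset ℕ}
  {u u' w w' v r a b c a' b' c' e f g x y z φ ψ n : ℕ}

theorem Node.class_conn (hC : CONNn n) (hn : X.card ≤ n + 1) (H : G.HS X Es φ ψ a b c)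
    (N : G.Node Es v x y z a' b' c') (hv : v ∉ ({a, b, c} : Finset ℕ))
    (hs : G.SpA X (Es \ {φ, ψ})) (hg : G.GoodC X (Es \ {φ, ψ}) v b' c') (hp : G.St X Es p)
    (hq : G.St X Es q) (tp : Ty x y z p) (tq : Ty x y z q) (hpq : Agree {φ, ψ} p q)
    (hχ : G.Joins ψ a b → G.BPX X (Es \ {φ, ψ}) v b' c' a b c →
      (G.Conn (p.1 \ {φ, ψ}) c a ↔ G.Conn (q.1 \ {φ, ψ}) c a)) :
    G.AReach X Es {φ, ψ} {a, b, c} p q := by
  have hx := H.not_inc hv N.jx.inc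
  have hy := H.not_inc hv N.jy.inc
  have hz := H.not_inc hv N.jz.inc
  have hW := hp.within
  have mx := N.jx.mem hW N.hx
  have xL := mem_sdiff.2 ⟨N.hx, hx⟩
  obtain ⟨p', hp', rfl⟩ := N.down hp tp
  obtain ⟨q', hq', rfl⟩ := N.down hq tq
  obtain ⟨H', -, j⟩ := H.node hv N
  have ag : ∀ g ∈ ({φ, ψ} : Finset ℕ), g ∈ p'.1 ↔ g ∈ q'.1 := fun g hg => by
    have k1 : g ≠ x := by rintro rfl; exact hx hg
    have k2 : g ≠ y := by rintro rfl; exact hy hg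
    have := hpq g hg
    rwa [mem_up k1 k2, mem_up k1 k2] at this
  refine N.alift hW hv hx hy hz
    (hs.ne xL (mem_sdiff.2 ⟨N.hy, hy⟩) N.xy N.jx N.jy mx.1 mx.2 N.av)
    (hs.ne xL (mem_sdiff.2 ⟨N.hz, hz⟩) N.xz N.jx N.jz mx.1 mx.2 N.av)
    (hC _ _ _ φ ψ a b c p' q' (by rw [card_erase_of_mem mx.1]; omega) H' hp' hq'
      ((N.goodC_iff hs hz (N.ty_ne hp tp)).2 hg) (ag φ (by simp)) (ag ψ (by simp)) fun h1 h2 => ?_)
  simp only [mem_insert, mem_singleton, not_or] at hv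
  rw [N.conn_up hW hx hy hz hp' (Ne.symm hv.2.2) (Ne.symm hv.1),
    N.conn_up hW hx hy hz hq' (Ne.symm hv.2.2) (Ne.symm hv.1)]
  exact hχ (j.1 h1) ((N.bpx_iff hz).1 h2)

theorem Node.hcl_all (H : G.HS X Es φ ψ a b c) (h : G.Joins ψ a b)
    (N : G.Node Es v x y z a' b' c') (hv : v ∉ ({a, b, c} : Finset ℕ))
    (hs : G.SpA X (Es \ {φ, ψ})) (hg : G.GoodC X (Es \ {φ, ψ}) v b' c')
    (hb : G.BPX X (Es \ {φ, ψ}) v b' c' a b c) (hp : G.St X Es p) (tp : Ty x y z p) :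
    ¬ (G.Conn (p.1 \ {φ, ψ}) c a ↔ G.Conn (p.2 \ {φ, ψ}) c a) ∧
      (G.Conn (p.1 \ {φ, ψ}) c b ↔ ¬ G.Conn (p.1 \ {φ, ψ}) c a) := by
  have hx := H.not_inc hv N.jx.inc
  have hy := H.not_inc hv N.jy.inc
  have hz := H.not_inc hv N.jz.inc
  have hW := hp.within
  obtain ⟨p', hp', rfl⟩ := N.down hp tp
  obtain ⟨H', -, j⟩ := H.node hv N
  have := H'.he_all (j.2 h) hp' ((N.goodC_iff hs hz (N.ty_ne hp tp)).2 hg) ((N.bpx_iff hz).2 hb)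
  simp only [mem_insert, mem_singleton, not_or] at hv
  have k := N.conn_up hW hx hy hz hp'.swap (Ne.symm hv.2.2) (Ne.symm hv.1)
  rw [N.up_swap hp', Prod.fst_swap, Prod.fst_swap] at k
  rwa [N.conn_up hW hx hy hz hp' (Ne.symm hv.2.2) (Ne.symm hv.1),
    N.conn_up hW hx hy hz hp' (Ne.symm hv.2.2) (Ne.symm hv.2.1), k] at this

theorem Node.class_xor (H : G.HS X Es φ ψ a b c) (h : G.Joins ψ a b)
    (N : G.Node Es v x y z a' b' c') (hv : v ∉ ({a, b, c} : Finset ℕ))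
    (hs : G.SpA X (Es \ {φ, ψ})) (hg : G.GoodC X (Es \ {φ, ψ}) v b' c')
    (hb : G.BPX X (Es \ {φ, ψ}) v b' c' a b c) (hp : G.St X Es p) (tp : Ty x y z p) :
    ¬ (G.Conn (p.1 \ {φ, ψ}) c a ↔ G.Conn (p.2 \ {φ, ψ}) c a) := by
  exact (N.hcl_all H h hv hs hg hb hp tp).1

theorem Node.hcl_crit (N : G.Node Es v x y z a' b' c') (hz : z ∉ F) (hP : P ⊆ X.erase v)
    (h : G.CritX (Es \ F) b' c' P) :
    (G.map (ctr v b')).Crit (((Es.erase x).erase y) \ F) P := by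
  unfold CritX Crit at *
  rw [N.hc_card' hz (subset_erase.1 hP).2]
  split_ifs with k
  · rcases h with h | h <;> omega
  · rcases h with h | h
    · omega
    · exact absurd ⟨h.1, h.2.1⟩ k

/-- the shape of a class with both critical pairs in a graph without them -/
theorem Node.half_shape (H : G.HS X Es φ ψ a b c) (h : G.Joins ψ a b)
    (N : G.Node Es v x y z a' b' c') (hv : v ∉ ({a, b, c} : Finset ℕ))
    (hs : G.SpA X (Es \ {φ, ψ})) (hg : G.GoodC X (Es \ {φ, ψ}) v b' c')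
    (hb : G.BPX X (Es \ {φ, ψ}) v b' c' a b c) (hnb : ¬ G.BP X (Es \ {φ, ψ}) a b c)
    (hp : G.St X Es p) (tp : Ty x y z p) :
    ∃ a1 b1 P P', (a1 = a ∧ b1 = b ∨ a1 = b ∧ b1 = a) ∧ P ⊆ X.erase v ∧ P' ⊆ X.erase v ∧
      a1 ∈ P ∧ c ∈ P ∧ b1 ∉ P ∧ b' ∈ P ∧ c' ∈ P ∧
      2 * P.card ≤ (G.ind (Es \ {φ, ψ}) P).card + 4 ∧ b1 ∈ P' ∧ c ∈ P' ∧ a1 ∉ P' ∧
      G.Crit (Es \ {φ, ψ}) P' := by
  obtain ⟨⟨P, h1, h2, h3, h4, h5⟩, Q, k1, k2, k3, k4, k5⟩ := hb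
  have e1 := h1.trans (erase_subset _ _)
  have e2 := k1.trans (erase_subset _ _)
  rcases h5 with h5 | h5 <;> rcases k5 with k5 | k5
  · exact absurd ⟨⟨P, e1, h2, h3, h4, h5⟩, Q, e2, k2, k3, k4, k5⟩ hnb
  · exact ⟨b, a, Q, P, Or.inr ⟨rfl, rfl⟩, k1, h1, k2, k3, k4, k5.1, k5.2.1, k5.2.2, h2, h3, h4, h5⟩
  · exact ⟨a, b, P, Q, Or.inl ⟨rfl, rfl⟩, h1, k1, h2, h3, h4, h5.1, h5.2.1, h5.2.2, k2, k3, k4, k5⟩
  · exfalso
    have hz := H.not_inc hv N.jz.inc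
    have hbc := N.ty_ne hp tp
    obtain ⟨p', hp', -⟩ := N.down hp tp
    obtain ⟨H', -, j⟩ := H.node hv N
    have i := H'.bp_inter (j.2 h) hp' ((N.goodC_iff hs hz hbc).2 hg) h1 k1 h2 k2 h3 k3
      (N.hcl_crit hz h1 (Or.inr h5)) (N.hcl_crit hz k1 (Or.inr k5))
    exact hbc ((i _ h5.1 k5.1).trans (i _ h5.2.1 k5.2.1).symm)

theorem Node.half_unique (H : G.HS X Es φ ψ a b c) (h : G.Joins ψ a b)
    (N : G.Node Es v x y z a' b' c') (hv : v ∉ ({a, b, c} : Finset ℕ))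
    (hs : G.SpA X (Es \ {φ, ψ})) (hnb : ¬ G.BP X (Es \ {φ, ψ}) a b c)
    (hg : G.GoodC X (Es \ {φ, ψ}) v b' c') (hb : G.BPX X (Es \ {φ, ψ}) v b' c' a b c)
    (hp : G.St X Es p) (tp : Ty x y z p) (hg' : G.GoodC X (Es \ {φ, ψ}) v a' c')
    (hq : G.St X Es q) (tq : Ty y x z q) : ¬ G.BPX X (Es \ {φ, ψ}) v a' c' a b c := by
  intro hb'
  obtain ⟨a1, b1, P, P', e1, s1, s1', aP, cP, bP, b'P, c'P, k1, bP', cP', aP', k1'⟩ :=
    N.half_shape H h hv hs hg hb hnb hp tp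
  obtain ⟨a2, b2, Q, Q', e2, s2, s2', aQ, cQ, bQ, a'Q, c'Q, k2, bQ', cQ', aQ', k2'⟩ :=
    N.s12.half_shape H h hv hs hg' hb' hnb hq tq
  have nb : ¬ G.BP X (Es \ {φ, ψ}) a1 b1 c := fun k => hnb (by
    rcases e1 with ⟨rfl, rfl⟩ | ⟨rfl, rfl⟩
    exacts [k, k.symm])
  have key : ∀ V ⊆ X, a1 ∈ V → c ∈ V → b1 ∉ V → ¬ G.Crit (Es \ {φ, ψ}) V :=
    fun V h1 h2 h3 h4 h5 =>
      nb ⟨⟨V, h1, h2, h3, h4, h5⟩, P', s1'.trans (erase_subset _ _), bP', cP', aP', k1'⟩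
  have hab := H.ab
  by_cases e : a1 = a2
  swap
  · obtain ⟨rfl, rfl⟩ : a1 = b2 ∧ b1 = a2 := by grind
    exact key Q' (s2'.trans (erase_subset _ _)) bQ' cQ' aQ' k2'
  obtain ⟨rfl, rfl⟩ : a1 = a2 ∧ b1 = b2 := by grind
  obtain ⟨sP, vP⟩ := subset_erase.1 s1
  obtain ⟨sQ, vQ⟩ := subset_erase.1 s2
  have h1 := key (P ∩ Q) (inter_subset_left.trans sP) (mem_inter.2 ⟨aP, aQ⟩)
    (mem_inter.2 ⟨cP, cQ⟩) (by simp [bP])
  have h5 : v ∉ P ∪ Q := by simp [vP, vQ]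
  have hbv : b1 ≠ v := (mem_erase.1 (s1' bP')).1
  have h2 := key (insert v (P ∪ Q))
    (insert_subset (N.jx.mem hp.within N.hx).1 (union_subset sP sQ)) (by simp [aP]) (by simp [cP])
    (by simp [bP, bQ, hbv])
  have h3 := G.ind_supermod (Es \ {φ, ψ}) P Q
  have h4 := card_union_add_card_inter P Q
  have h6 := N.card_insert (U := Es \ {φ, ψ}) (mem_sdiff.2 ⟨N.hx, H.not_inc hv N.jx.inc⟩)
    (mem_sdiff.2 ⟨N.hy, H.not_inc hv N.jy.inc⟩) (mem_sdiff.2 ⟨N.hz, H.not_inc hv N.jz.inc⟩) h5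
    (by simp [a'Q]) (by simp [b'P]) (by simp [c'P])
  unfold Crit at h1 h2
  rw [card_insert_of_notMem h5] at h2
  omega

end Gr

end Pool.Agent.P.MP_3f5ce9_co
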