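import Pool.Agent.P.MP_3f5ce9_co.W.DefsH2
import Pool.Agent.P.MP_3f5ce9_co.W.HCount

/-!
Graphs whose inner vertices have degree at least four.
-/

open Finset

namespace Pool.Agent.P.MP_3f5ce9_co

namespace Gr

variable {G : Gr ℕ ℕ} {X Y Z P P' Es F U U' A Φ : Finset ℕ} {p q α β σ σ' τ τ' : Finset ℕ × Finset ℕ}
  {u u' w w' v r a b c a' b' c' e f g x y z φ ψ n : ℕ}

section

variable {S T R R' W : Finset ℕ} {ρ ux uy : ℕ}

theorem hd_par (h : G.Acyc S) (he : e ∈ S) (hg : g ∈ S) (hne : g ≠ e) (j1 : G.Joins e u w)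
    (j2 : G.Joins g u w) : False :=
  h.not_conn he j1 (Conn.edge (mem_erase.2 ⟨hne, hg⟩) j2)

theorem hd_swap (hp : G.St X Es p) (h : G.Flips X Es F R Φ p.swap) : G.Flips X Es F R Φ p := by
  obtain ⟨q, h1, g, h2, h3⟩ := h
  have hq := h1.st hp.swap
  refine ⟨q.swap, h1.swap, g, h2, ?_⟩
  have := hp.disj g
  have := hp.cov g
  have := hq.disj g
  have := hq.cov g
  simp only [Prod.fst_swap, Prod.snd_swap] at *
  tauto

/-- exchanging the two edges at a leaf of the first tree -/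
theorem hd_exch (hp : G.St X Es (S, T)) (hy : y ∈ S) (hx : x ∈ T) (hyF : y ∉ F) (hxF : x ∉ F)
    (jx : G.Joins x ρ ux) (jy : G.Joins y ρ uy) (hl : ∀ g ∈ S, G.Inc g ρ → g = y)
    (hc : G.Conn (T.erase x \ F) ux uy) :
    G.AStep X Es F R (S, T) (insert x (S.erase y), insert y (T.erase x)) :=
  astep_mk hp hy hx hyF hxF jy.inc jx hl rfl rfl
    ((Conn.edge (mem_insert_self _ _) jy).trans
      (hc.symm.mono (sdiff_subset.trans (subset_insert _ _))))
    fun _ => jy.conn ((Conn.edge (mem_sdiff.2 ⟨hx, hxF⟩) jx).trans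
      (hc.mono (sdiff_subset_sdiff (erase_subset _ _) Subset.rfl)))

theorem hd_same (h : ¬ G.Inc g ρ) :
    (G.map (ctr ρ ux)).s g = G.s g ∧ (G.map (ctr ρ ux)).t g = G.t g :=
  ⟨ctr_of_ne fun k => h (Or.inl k), ctr_of_ne fun k => h (Or.inr k)⟩

theorem hd_mv {E0 : Finset ℕ} (h0 : (G.map (ctr ρ ux)).St (X.erase ρ) E0 α)
    (hE : ∀ g ∈ E0, g ∉ F → ¬ G.Inc g ρ) (hR : ∀ w ∈ R, w ≠ ρ → w ∈ R') (hx : x ∉ E0) (hy : y ∉ E0)
    (hα : G.St X Es (insert x α.1, insert y α.2)) (hβ : G.St X Es (insert x β.1, insert y β.2))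
    (hm : (G.map (ctr ρ ux)).ALM F R' w α β) (hw : w ≠ ρ → ¬ G.Inc x w) :
    G.AStep X Es F R (insert x α.1, insert y α.2) (insert x β.1, insert y β.2) := by
  obtain ⟨e, he, f, hf, e1, f1, e2, f2, hl, k1, k2, k3⟩ := hm
  have he0 := (h0.cov e).2 (Or.inl he)
  have hf0 := (h0.cov f).2 (Or.inr hf)
  have se := hd_same (ux := ux) (hE e he0 e1)
  have sf := hd_same (ux := ux) (hE f hf0 f1)
  have hwρ : w ≠ ρ := (mem_erase.1 (e2.mem h0.within he0)).1
  have hxe : x ≠ e := fun k => hx (k ▸ he0)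
  have hyf : y ≠ f := fun k => hy (k ▸ hf0)
  refine astep_of_st (w := w) hα hβ (mem_insert_of_mem he) (mem_insert_of_mem hf) e1 f1 ?_ ?_
    (fun g hg hi => ?_) ?_ ?_ fun k => ?_
  · unfold Inc at e2 ⊢
    rwa [se.1, se.2] at e2
  · unfold Inc at f2 ⊢
    rwa [sf.1, sf.2] at f2
  · rcases mem_insert.1 hg with rfl | hg
    · exact absurd hi (hw hwρ)
    · obtain ⟨u, hu⟩ := hi.exists_joins
      have := (hu.map (ctr ρ ux)).inc
      rw [ctr_of_ne hwρ] at this
      exact hl g hg this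
  · rw [k1, erase_insert_of_ne hxe, insert_comm]
  · rw [k2, erase_insert_of_ne hyf, insert_comm]
  · have := k3 (hR w k hwρ)
    rw [se.1, se.2] at this
    refine (conn_congr (fun g hg => ?_) this).mono
      (sdiff_subset_sdiff (subset_insert _ _) Subset.rfl)
    have := hd_same (ux := ux)
      (hE g ((h0.cov g).2 (Or.inr (mem_sdiff.1 hg).1)) (mem_sdiff.1 hg).2)
    exact ⟨this.1.symm, this.2.symm⟩

theorem hd_span (hp : G.St X Es p) (hW : W.Nonempty) (ht : G.Tight (Es \ F) W)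
    (hF : ∀ g ∈ F, G.s g ∉ W) (hu : u ∈ W) (hw : w ∈ W) (hx : x ∉ G.ind Es W) :
    G.Conn (p.1.erase x \ F) u w := by
  have h1 : 2 * W.card ≤ (G.ind Es W).card + 2 :=
    ht.trans (Nat.add_le_add_right (card_le_card (ind_mono sdiff_subset Subset.rfl)) _)
  refine ((hp.fst.restrict hW (hp.tight hW h1).1.ge).conn u hu w hw).mono fun g hg => ?_
  rw [mem_ind] at hg
  refine mem_sdiff.2 ⟨mem_erase.2 ⟨?_, hg.1⟩, fun k => hF g k hg.2.1⟩
  rintro rfl
  exact hx (mem_ind.2 ⟨(hp.cov _).2 (Or.inl hg.1), hg.2⟩)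

theorem hd_root (H : G.HS X Es φ ψ a b c) (hg : g ∈ ({φ, ψ} : Finset ℕ)) :
    G.s g ∈ ({a, b, c} : Finset ℕ) := by
  have := H.jφ
  have := H.jψ
  simp only [Joins, mem_insert, mem_singleton] at *
  grind

theorem hd_core (hF : FLn n) (hn : X.card ≤ n + 1) (H : G.HS X Es φ ψ a b c)
    (hp : G.St X Es (S, T)) (hs : G.SpA X ((Es \ {φ, ψ}) \ Φ)) (hρ : ρ ∈ ({a, b, c} : Finset ℕ))
    (hB : G.NEm φ ψ b c (S, T) → ρ ≠ b ∧ G.SpB X (Es \ {φ, ψ}) b) (hW : W ⊆ X)
    (hWR : ∀ w ∈ W, w ∉ ({a, b, c} : Finset ℕ)) (ht : G.Tight (Es \ {φ, ψ}) W) (hx : x ∈ S)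
    (hy : y ∈ T) (hxF : x ∉ ({φ, ψ} : Finset ℕ)) (hyF : y ∉ ({φ, ψ} : Finset ℕ))
    (jx : G.Joins x ρ ux) (jy : G.Joins y ρ uy) (mx : ux ∈ W) (my : uy ∈ W)
    (hall : ∀ g ∈ Es, G.Inc g ρ → g = x ∨ g = y ∨ (g ∈ ({φ, ψ} : Finset ℕ) ∧ g ∈ S)) :
    G.Flips X Es {φ, ψ} {a, b, c} Φ (S, T) := by
  set F : Finset ℕ := {φ, ψ} with hF'
  have hρX : ρ ∈ X := by
    have := H.ma
    have := H.mb
    have := H.mc
    simp only [mem_insert, mem_singleton] at hρ
    grind
  have hρW : ρ ∉ W := fun k => hWR ρ k hρ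
  have xρ : ux ≠ ρ := fun k => hρW (k ▸ mx)
  have yρ : uy ≠ ρ := fun k => hρW (k ▸ my)
  have xE : x ∈ Es := (hp.cov x).2 (Or.inl hx)
  have yE : y ∈ Es := (hp.cov y).2 (Or.inr hy)
  have xy : x ≠ y := fun k => hp.disj x hx (k ▸ hy)
  have xW : x ∉ G.ind Es W := fun k => hρW (jx.mem_ind.1 k).2.1
  have yW : y ∉ G.ind Es W := fun k => hρW (jy.mem_ind.1 k).2.1
  have ex : ∀ S T, G.St X Es (S, T) → x ∈ S → y ∈ T → (∀ g ∈ F, G.Inc g ρ → g ∈ S) →
      G.AStep X Es F {a, b, c} (S, T) (insert y (S.erase x), insert x (T.erase y)) := by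
    intro S' T' h k1 k2 k3
    refine (hd_exch h.swap k2 k1 hyF hxF jx jy (fun g hg hi => ?_)
      (hd_span h ⟨_, mx⟩ ht (fun g hg k => hWR _ k (hd_root H hg)) mx my xW)).swap
    rcases hall g ((h.cov g).2 (Or.inr hg)) hi with rfl | k | k
    · exact (h.disj _ k1 hg).elim
    · exact k
    · exact (h.disj _ (k3 g k.1 hi) hg).elim
  have fS : ∀ g ∈ F, G.Inc g ρ → g ∈ S := by
    intro g hg hi
    have : g ∈ Es := by
      rcases mem_insert.1 hg with rfl | hg
      · exact H.hφ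
      · rw [mem_singleton.1 hg]; exact H.hψ
    rcases hall g this hi with rfl | rfl | k
    exacts [absurd hg hxF, absurd hg hyF, k.2]
  by_cases hΦ : x ∈ Φ ∨ y ∈ Φ
  · refine ⟨_, (ex S T hp hx hy fS).reach, ?_⟩
    have := hp.disj y
    rcases hΦ with k | k
    · exact ⟨x, k, by simp [hx, xy]⟩
    · exact ⟨y, k, by simpa using fun k => this k hy⟩
  rw [not_or] at hΦ
  have hne : ux ≠ uy := hs.ne (mem_sdiff.2 ⟨mem_sdiff.2 ⟨xE, hxF⟩, hΦ.1⟩)
    (mem_sdiff.2 ⟨mem_sdiff.2 ⟨yE, hyF⟩, hΦ.2⟩) xy jx jy hρX (hW mx) xρ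
  set E0 := (Es.erase x).erase y with hE0
  have mE : ∀ g, g ∈ E0 ↔ g ≠ y ∧ g ≠ x ∧ g ∈ Es := fun g => by simp [hE0]
  have hE : ∀ g ∈ E0, g ∉ F → ¬ G.Inc g ρ := fun g hg k hi => by
    have := hall g ((mE g).1 hg).2.2 hi
    have := (mE g).1 hg
    tauto
  have x0 : x ∉ E0 := fun k => ((mE x).1 k).2.1 rfl
  have y0 : y ∉ E0 := fun k => ((mE y).1 k).1 rfl
  have hT : ∀ g ∈ T, G.Inc g ρ → g = y := by
    intro g hg hi
    rcases hall g ((hp.cov g).2 (Or.inr hg)) hi with rfl | k | k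
    exacts [(hp.disj _ hx hg).elim, k, (hp.disj _ k.2 hg).elim]
  have p0 : (G.map (ctr ρ ux)).St (X.erase ρ) E0 (S.erase x, T.erase y) := by
    refine ⟨hp.fst.contract hx jx, (hp.snd.leaf_del hy jy.inc hT).congr fun g hg =>
      hd_same fun hi => (mem_erase.1 hg).1 (hT g (mem_erase.1 hg).2 hi), fun g k1 k2 =>
      hp.disj g (mem_of_mem_erase k1) (mem_of_mem_erase k2), fun g => ?_⟩
    have := hp.cov g
    have := hp.disj x
    have := hp.disj y
    simp only [mE, mem_erase] at *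
    grind
  have up : ∀ α, (G.map (ctr ρ ux)).St (X.erase ρ) E0 α → (∀ g ∈ F, G.Inc g ρ → g ∈ α.1) →
      G.St X Es (insert x α.1, insert y α.2) ∧
      G.AStep X Es F {a, b, c} (insert x α.1, insert y α.2) (insert y α.1, insert x α.2) := by
    intro α h k
    have a1 : x ∉ α.1 := fun k => x0 ((h.cov x).2 (Or.inl k))
    have a2 : y ∉ α.2 := fun k => y0 ((h.cov y).2 (Or.inr k))
    have h1 : G.St X Es (insert x α.1, insert y α.2) := by
      refine ⟨h.fst.uncontract (hp.within.mono fun g hg => ((mE g).1 ((h.cov g).2 (Or.inl hg))).2.2)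
        hρX (hW mx) xρ jx a1, Tr.leaf_add (h.snd.congr fun g hg => ?_) hρX jy
        (mem_erase.2 ⟨yρ, hW my⟩), fun g => ?_, fun g => ?_⟩
      · have := hd_same (G := G) (g := g) (ρ := ρ) (ux := ux) fun hi =>
          hE g ((h.cov g).2 (Or.inr hg)) (fun k' => h.disj g (k g k' hi) hg) hi
        exact ⟨this.1.symm, this.2.symm⟩
      · have := h.disj g
        have := h.cov g
        have := h.cov x
        have := h.cov y
        simp only [mem_insert]
        grind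
      · have := h.cov g
        have := mE g
        simp only [mem_insert]
        grind
    have := ex _ _ h1 (mem_insert_self _ _) (mem_insert_self _ _)
      fun g hg hi => mem_insert_of_mem (k g hg hi)
    rw [erase_insert a1, erase_insert a2] at this
    exact ⟨h1, this⟩
  have κ : ∀ r ∈ ({a, b, c} : Finset ℕ), ∀ r' ∈ ({a, b, c} : Finset ℕ), r ≠ r' →
      ctr ρ ux r ≠ ctr ρ ux r' := by
    intro r hr r' hr' k
    have := hWR ux mx
    unfold ctr
    grind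
  have H0 : (G.map (ctr ρ ux)).HS (X.erase ρ) E0 φ ψ (ctr ρ ux a) (ctr ρ ux b) (ctr ρ ux c) :=
    ⟨ctr_mem (hW mx) xρ H.ma, ctr_mem (hW mx) xρ H.mb, ctr_mem (hW mx) xρ H.mc,
      κ a (by simp) b (by simp) H.ab, κ a (by simp) c (by simp) H.ac,
      κ b (by simp) c (by simp) H.bc,
      (mE φ).2 ⟨fun k => hyF (by simp [hF', ← k]), fun k => hxF (by simp [hF', ← k]), H.hφ⟩,
      (mE ψ).2 ⟨fun k => hyF (by simp [hF', ← k]), fun k => hxF (by simp [hF', ← k]), H.hψ⟩,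
      H.ne, H.jφ.map _, H.jψ.imp (fun k => k.map _) fun k => k.map _⟩
  have ind0 : ∀ U ⊆ E0 \ F, ∀ Y, (G.map (ctr ρ ux)).ind U Y = G.ind U Y := by
    intro U hU Y
    ext g
    rw [mem_ind, mem_ind]
    refine and_congr_right fun hg => ?_
    have := hd_same (ux := ux) (hE g (mem_sdiff.1 (hU hg)).1 (mem_sdiff.1 (hU hg)).2)
    rw [this.1, this.2]
  have sub0 : E0 \ F ⊆ Es \ F :=
    sdiff_subset_sdiff ((erase_subset _ _).trans (erase_subset _ _)) Subset.rfl
  obtain ⟨q, q1, g, g1, g2⟩ := hF _ _ _ _ _ _ _ _ Φ _ (by rw [card_erase_of_mem hρX]; omega) H0 p0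
    (fun Y hY k => by
      rw [ind0 _ sdiff_subset]
      exact hs.mono (sdiff_subset_sdiff sub0 Subset.rfl) (erase_subset _ _) Y hY k)
    ⟨W, fun w hw => mem_erase.2 ⟨fun k => hρW (k ▸ hw), hW hw⟩,
      one_lt_card.2 ⟨_, mx, _, my, hne⟩, by
        unfold Tight at ht ⊢
        rw [ind0 _ Subset.rfl]
        refine ht.trans (Nat.add_le_add_right (card_le_card fun g hg => ?_) _)
        have k := ind_mono (sdiff_subset (t := F)) Subset.rfl hg
        rw [mem_ind, mem_sdiff] at hg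
        exact mem_ind.2 ⟨mem_sdiff.2 ⟨(mE g).2 ⟨fun e => yW (e ▸ k), fun e => xW (e ▸ k), hg.1.1⟩,
          hg.1.2⟩, hg.2⟩⟩
    (fun k => by
      obtain ⟨k1, k2⟩ := hB ⟨H.jψ.resolve_right fun k' => H0.not_both k.1 (k'.map _), by
        have := k.2
        have := ((mE φ).1 H0.hφ).2.1
        have := ((mE ψ).1 H0.hψ).2.1
        simp only [mem_erase] at *
        tauto⟩
      intro Y hY k3 k4
      rw [ctr_of_ne k1.symm] at k3
      rw [ind0 _ Subset.rfl]
      exact (Nat.add_le_add_right (card_le_card (ind_mono sub0 Subset.rfl)) _).trans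
        (k2 Y (hY.trans (erase_subset _ _)) k3 k4))
  have hR : ∀ w ∈ ({a, b, c} : Finset ℕ), w ≠ ρ →
      w ∈ ({ctr ρ ux a, ctr ρ ux b, ctr ρ ux c} : Finset ℕ) := by
    intro w hw k
    have := ctr_of_ne (b := ux) k
    simp only [mem_insert, mem_singleton] at *
    grind
  have inv : ∀ α, (G.map (ctr ρ ux)).AReach (X.erase ρ) E0 F
      {ctr ρ ux a, ctr ρ ux b, ctr ρ ux c} (S.erase x, T.erase y) α →
      ∀ g ∈ F, G.Inc g ρ → g ∈ α.1 := fun α h g hg hi =>
    (h.agree g hg).1 (mem_erase.2 ⟨fun k => hxF (k ▸ hg), fS g hg hi⟩)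
  have lift : G.AReach X Es F {a, b, c} (S, T) (insert x q.1, insert y q.2) := by
    clear g2
    induction q1 with
    | refl =>
      rw [insert_erase hx, insert_erase hy]
      exact AReach.refl _
    | @tail α β h1 h2 ih =>
      refine ih.trans ?_
      obtain ⟨a1, a2⟩ := up α h2.1 (inv α h1)
      obtain ⟨b1, b2⟩ := up β h2.2.1 (inv β (h1.tail h2))
      obtain ⟨s1, -, w, hm | hm⟩ := h2
      · by_cases k : w = ux
        · exact a2.reach.trans ((hd_mv s1 hE hR y0 x0 a2.2.1 b2.2.1 hm fun k' hi => by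
            rcases jy.inc_iff.1 hi with e | e
            exacts [k' e, hne (k.symm.trans e)]).reach.trans b2.symm.reach)
        · exact (hd_mv s1 hE hR x0 y0 a1 b1 hm fun k' hi => (jx.inc_iff.1 hi).elim k' k).reach
      · by_cases k : w = uy
        · exact a2.reach.trans ((hd_mv (β := β.swap) s1.swap hE hR x0 y0 a2.2.1.swap b2.2.1.swap hm
            fun k' hi => by
              rcases jx.inc_iff.1 hi with e | e
              exacts [k' e, hne (e.symm.trans k)]).swap.reach.trans b2.symm.reach)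
        · exact (hd_mv (β := β.swap) s1.swap hE hR y0 x0 a1.swap b1.swap hm
            fun k' hi => (jy.inc_iff.1 hi).elim k' k).swap.reach
  refine ⟨_, lift, g, g1, ?_⟩
  have : g ≠ x := fun k => hΦ.1 (k ▸ g1)
  simpa [this] using g2

theorem hd_cross (hS : G.Tr X S) (hu : u ∈ X) (hw : w ∈ X) (hu' : u ∈ A) (hw' : w ∉ A)
    (h : ∀ g ∈ S, g ∈ F → (G.s g ∈ A ↔ G.t g ∈ A)) : ∃ g ∈ S, g ∉ F ∧ ∃ r ∈ A, G.Inc g r := by
  by_contra k
  push Not at k
  refine hw' ((hS.conn u hu w hw (A : Set ℕ) fun g hg => ?_).1 hu')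
  by_cases hg' : g ∈ F
  · exact h g hg hg'
  · exact iff_of_false (fun e => k g hg hg' _ e (Or.inl rfl)) fun e => k g hg hg' _ e (Or.inr rfl)

theorem hd_big (hF : FLn n) (hn : X.card ≤ n + 1) (H : G.HS X Es φ ψ a b c)
    (hp : G.St X Es (S, T)) (hs : G.SpA X ((Es \ {φ, ψ}) \ Φ))
    (hB : G.NEm φ ψ b c (S, T) → G.SpB X (Es \ {φ, ψ}) b)
    (hd : ∀ v ∈ X, v ∉ ({a, b, c} : Finset ℕ) → 4 ≤ G.deg Es v) (hne : (X \ {a, b, c}).Nonempty)
    (hφ : φ ∈ S) : G.Flips X Es {φ, ψ} {a, b, c} Φ (S, T) := by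
  obtain ⟨ht, h0⟩ := H.degen hp hd hne
  set W := X \ {a, b, c} with hW
  have hWR : ∀ w ∈ W, w ∉ ({a, b, c} : Finset ℕ) := fun w hw => (mem_sdiff.1 hw).2
  have oth : ∀ ρ ∈ ({a, b, c} : Finset ℕ), ∀ g ∈ Es, g ∉ ({φ, ψ} : Finset ℕ) → G.Inc g ρ →
      ∃ u ∈ W, G.Joins g ρ u := by
    intro ρ hρ g hg k hi
    obtain ⟨u, hu⟩ := hi.exists_joins
    refine ⟨u, mem_sdiff.2 ⟨(hu.mem hp.within hg).2, fun k' => ?_⟩, hu⟩
    simpa [h0] using hu.mem_ind.2 ⟨mem_sdiff.2 ⟨hg, k⟩, hρ, k'⟩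
  have uniq : ∀ p, G.St X Es p → ∀ ρ ∈ ({a, b, c} : Finset ℕ), ∀ g ∈ p.1, ∀ x ∈ p.1,
      g ∉ ({φ, ψ} : Finset ℕ) → x ∉ ({φ, ψ} : Finset ℕ) → G.Inc g ρ → G.Inc x ρ → g = x := by
    intro p h ρ hρ g hg x hx k1 k2 i1 i2
    obtain ⟨u, hu, ju⟩ := oth ρ hρ g ((h.cov g).2 (Or.inl hg)) k1 i1
    obtain ⟨w, hw, jw⟩ := oth ρ hρ x ((h.cov x).2 (Or.inl hx)) k2 i2
    by_contra k
    exact h.fst.acyc.not_conn hx jw ((Conn.edge (mem_erase.2 ⟨k, hg⟩) ju).trans
      ((hd_span h hne ht (fun g hg k => hWR _ k (hd_root H hg)) hu hw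
        fun k => hWR ρ (jw.mem_ind.1 k).2.1 hρ).mono sdiff_subset))
  have core : ∀ S T, G.St X Es (S, T) → (G.NEm φ ψ b c (S, T) → G.SpB X (Es \ {φ, ψ}) b) →
      ∀ ρ ∈ ({a, b, c} : Finset ℕ), ∀ x ∈ S, ∀ y ∈ T, x ∉ ({φ, ψ} : Finset ℕ) →
      y ∉ ({φ, ψ} : Finset ℕ) → G.Inc x ρ → G.Inc y ρ → (G.Inc φ ρ → φ ∈ S) → (G.Inc ψ ρ → ψ ∈ S) →
      G.Flips X Es {φ, ψ} {a, b, c} Φ (S, T) := by
    intro S T h k ρ hρ x hx y hy k1 k2 i1 i2 f1 f2
    obtain ⟨u, hu, ju⟩ := oth ρ hρ x ((h.cov x).2 (Or.inl hx)) k1 i1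
    obtain ⟨w, hw, jw⟩ := oth ρ hρ y ((h.cov y).2 (Or.inr hy)) k2 i2
    refine hd_core hF hn H h hs hρ (fun e => ⟨?_, k e⟩) sdiff_subset hWR ht hx hy k1 k2 ju jw hu hw
      fun g hg hi => ?_
    · rintro rfl
      exact e.2 (iff_of_true (f1 H.jφ.inc') (f2 e.1.inc))
    · by_cases hg' : g ∈ ({φ, ψ} : Finset ℕ)
      · refine Or.inr (Or.inr ⟨hg', ?_⟩)
        rcases mem_insert.1 hg' with rfl | hg'
        · exact f1 hi
        · rw [mem_singleton.1 hg'] at hi ⊢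
          exact f2 hi
      · rcases (h.cov g).1 hg with e | e
        · exact Or.inl (uniq _ h ρ hρ g e x hx hg' k1 hi i1)
        · exact Or.inr (Or.inl (uniq _ h.swap ρ hρ g e y hy hg' k2 hi i2))
  obtain ⟨w, hw⟩ := hne
  have wX := (mem_sdiff.1 hw).1
  have wR := hWR w hw
  have j1 := H.jφ
  have d1 := hp.disj φ hφ
  have := H.ab
  have := H.ac
  have := H.bc
  simp only [mem_insert, mem_singleton, not_or] at wR
  rcases H.jψ with j2 | j2
  · rcases (hp.cov ψ).1 H.hψ with hψ | hψ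
    · obtain ⟨x, hx, x1, ρ, hρ, x2⟩ := hd_cross (A := {a, b, c}) (F := {φ, ψ}) hp.fst H.ma wX
        (by simp) (hWR w hw) fun g _ hg => by
          simp only [Joins, mem_insert, mem_singleton] at *
          grind
      have ρX : ρ ∈ X := x2.mem hp.fst.within hx
      obtain ⟨y, hy, y1, r, hr, y2⟩ := hd_cross (A := {ρ}) (F := {φ, ψ}) hp.snd ρX wX
        (by simp) (fun e => hWR w hw (mem_singleton.1 e ▸ hρ)) fun g k hg => by
          have := hp.disj ψ hψ
          simp only [mem_insert, mem_singleton] at *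
          grind
      exact core S T hp hB ρ hρ x hx y hy x1 y1 x2 (mem_singleton.1 hr ▸ y2) (fun _ => hφ)
        fun _ => hψ
    · have d2 := fun k => hp.disj ψ k hψ
      obtain ⟨x, hx, x1, r, hr, x2⟩ := hd_cross (A := {c}) (F := {φ, ψ}) hp.fst H.mc wX
        (by simp) (by simp [wR]) fun g k hg => by
          simp only [Joins, mem_insert, mem_singleton] at *
          grind
      rw [mem_singleton.1 hr] at x2
      obtain ⟨y, hy, y1, r, hr, y2⟩ := hd_cross (A := {a}) (F := {φ, ψ}) hp.snd H.ma wX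
        (by simp) (by simp [wR]) fun g k hg => by
          simp only [Joins, mem_insert, mem_singleton] at *
          grind
      rw [mem_singleton.1 hr] at y2
      obtain ⟨x', hx', x1', r, hr, x2'⟩ := hd_cross (A := {a, b}) (F := {φ, ψ}) hp.fst H.ma wX
        (by simp) (by simp [wR]) fun g k hg => by
          simp only [Joins, mem_insert, mem_singleton] at *
          grind
      obtain ⟨y', hy', y1', r', hr', y2'⟩ := hd_cross (A := {b, c}) (F := {φ, ψ}) hp.snd H.mb wX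
        (by simp) (by simp [wR]) fun g k hg => by
          simp only [Joins, mem_insert, mem_singleton] at *
          grind
      simp only [mem_insert, mem_singleton] at hr hr'
      rcases hr with rfl | hr
      · exact core S T hp hB r (by simp) x' hx' y hy x1' y1 x2' y2 (fun _ => hφ) fun k => by
          have := j2.inc_iff.1 k
          grind
      rcases hr' with hr' | rfl
      · exfalso
        rw [hr] at x2'
        rw [hr'] at y2'
        have xE := (hp.cov x').2 (Or.inl hx')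
        have yE := (hp.cov y').2 (Or.inr hy')
        obtain ⟨u1, hu1, ju1⟩ := oth b (by simp) x' xE x1' x2'
        obtain ⟨u2, hu2, ju2⟩ := oth b (by simp) y' yE y1' y2'
        have bW : b ∉ W := fun k => hWR b k (by simp)
        have k1 := hB ⟨j2, fun k => d2 (k.1 hφ)⟩ (insert b W) (insert_subset H.mb sdiff_subset)
          (mem_insert_self _ _) (one_lt_card.2 ⟨b, mem_insert_self _ _, w, mem_insert_of_mem hw,
            fun e => bW (e ▸ hw)⟩)
        have k2 : insert x' (insert y' (G.ind (Es \ {φ, ψ}) W)) ⊆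
            G.ind (Es \ {φ, ψ}) (insert b W) := insert_subset
          (ju1.mem_ind.2 ⟨mem_sdiff.2 ⟨xE, x1'⟩, mem_insert_self _ _, mem_insert_of_mem hu1⟩)
          (insert_subset
            (ju2.mem_ind.2 ⟨mem_sdiff.2 ⟨yE, y1'⟩, mem_insert_self _ _, mem_insert_of_mem hu2⟩)
            (ind_mono Subset.rfl (subset_insert _ _)))
        have k3 := card_le_card k2
        rw [card_insert_of_notMem (fun k => (mem_insert.1 k).elim
          (fun e => hp.disj x' hx' (by rw [e]; exact hy')) fun e => bW (ju1.mem_ind.1 e).2.1),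
          card_insert_of_notMem fun e => bW (ju2.mem_ind.1 e).2.1] at k3
        rw [card_insert_of_notMem bW] at k1
        unfold Tight at ht
        omega
      · refine hd_swap hp (core T S hp.swap (fun _ => hB ⟨j2, fun k => d2 (k.1 hφ)⟩) r' (by simp)
          y' hy' x hx y1' x1 y2' x2 (fun k => ?_) fun _ => hψ)
        have := j1.inc_iff.1 k
        grind
  · obtain ⟨x, hx, x1, r, hr, x2⟩ := hd_cross (A := {c}) (F := {φ, ψ}) hp.fst H.mc wX
      (by simp) (by simp [wR]) fun g k hg => by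
        simp only [Joins, mem_insert, mem_singleton] at *
        grind
    rw [mem_singleton.1 hr] at x2
    obtain ⟨y, hy, y1, r, hr, y2⟩ := hd_cross (A := {c}) (F := {φ, ψ}) hp.snd H.mc wX
      (by simp) (by simp [wR]) fun g k hg => by
        simp only [Joins, mem_insert, mem_singleton] at *
        grind
    rw [mem_singleton.1 hr] at y2
    refine core S T hp hB c (by simp) x hx y hy x1 y1 x2 y2 (fun _ => hφ) fun k => ?_
    have := j2.inc_iff.1 k
    grind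

theorem hd_small (H : G.HS X Es φ ψ a b c) (hp : G.St X Es p) (h : ¬ (X \ {a, b, c}).Nonempty) :
    X = {a, b, c} ∧ X.card = 3 ∧ (Es \ {φ, ψ}).card = 2 := by
  have h1 : X = {a, b, c} := Subset.antisymm (sdiff_eq_empty_iff_subset.1 (not_nonempty_iff_eq_empty.1 h))
    (insert_subset H.ma (insert_subset H.mb (singleton_subset_iff.2 H.mc)))
  have h2 : X.card = 3 := by rw [h1]; exact card_eq_three.2 ⟨a, b, c, H.ab, H.ac, H.bc, rfl⟩
  have h3 := hp.card
  have h4 := card_sdiff_add_card_eq_card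
    (show ({φ, ψ} : Finset ℕ) ⊆ Es from insert_subset H.hφ (singleton_subset_iff.2 H.hψ))
  rw [card_pair H.ne] at h4
  exact ⟨h1, h2, by omega⟩

theorem hd_tiny (H : G.HS X Es φ ψ a b c) (hp : G.St X Es (S, T)) (hL : Es \ {φ, ψ} = {x, y})
    (hx : x ∈ T) (hy : y ∈ S) (jx : G.Joins x c u) (jy : G.Joins y c u) (hΦ : x ∈ Φ ∨ y ∈ Φ)
    (hψ : ψ ∉ S) : G.Flips X Es {φ, ψ} {a, b, c} Φ (S, T) := by
  have xF : x ∈ Es \ {φ, ψ} := by simp [hL]
  have yF : y ∈ Es \ {φ, ψ} := by simp [hL]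
  have d := hp.disj x
  have xy : x ≠ y := fun k => hp.disj y hy (k ▸ hx)
  refine ⟨_, (hd_exch hp hy hx (mem_sdiff.1 yF).2 (mem_sdiff.1 xF).2 jx jy (fun g hg hi => ?_)
    (Conn.refl _ _ _)).reach, ?_⟩
  · have h1 : g ∈ Es \ {φ, ψ} ↔ g ∈ ({x, y} : Finset ℕ) := by rw [hL]
    have := (hp.cov g).2 (Or.inl hg)
    have := H.jφ.inc_iff (z := c)
    have := H.ac
    have := H.bc
    simp only [mem_sdiff, mem_insert, mem_singleton] at *
    grind
  · rcases hΦ with k | k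
    · exact ⟨x, k, by simpa using fun k => d k hx⟩
    · exact ⟨y, k, by simp [hy, xy.symm]⟩

end

theorem HS.fl_deg (hF : FLn n) (hn : X.card ≤ n + 1) (H : G.HS X Es φ ψ a b c) (hp : G.St X Es p)
    (hs : G.SpA X ((Es \ {φ, ψ}) \ Φ)) (ht : ∃ Y ⊆ X, 2 ≤ Y.card ∧ G.Tight (Es \ {φ, ψ}) Y)
    (hB : G.NEm φ ψ b c p → G.SpB X (Es \ {φ, ψ}) b)
    (hd : ∀ v ∈ X, v ∉ ({a, b, c} : Finset ℕ) → 4 ≤ G.deg Es v) :
    G.Flips X Es {φ, ψ} {a, b, c} Φ p := by
  by_cases hne : (X \ {a, b, c}).Nonempty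
  · rcases (hp.cov φ).1 H.hφ with k | k
    · exact hd_big hF hn H hp hs hB hd hne k
    · refine hd_swap hp (hd_big hF hn H hp.swap hs (fun e => hB ⟨e.1, ?_⟩) hd hne k)
      have := e.2
      have := hp.cov ψ
      have := hp.disj ψ
      have := hp.disj φ
      have := H.hψ
      simp only [Prod.fst_swap] at *
      tauto
  obtain ⟨h1, h2, h3⟩ := hd_small H hp hne
  obtain ⟨Y, hY, y1, y2⟩ := ht
  have k1 := card_le_card (G.ind_subset (Es \ {φ, ψ}) Y)
  unfold Tight at y2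
  have k2 : G.ind (Es \ {φ, ψ}) Y = Es \ {φ, ψ} :=
    eq_of_subset_of_card_le (G.ind_subset _ _) (by omega)
  have k3 : ∀ g ∈ ({φ, ψ} : Finset ℕ), g ∉ G.ind Es Y := fun g hg k => by
    have := hp.ind_add_le (F := {g}) (U := Es \ {φ, ψ}) sdiff_subset (singleton_subset_iff.2 k)
      (disjoint_singleton_right.2 fun e => (mem_sdiff.1 e).2 hg) (card_pos.1 (by omega))
    rw [card_singleton] at this
    omega
  obtain ⟨u, hu⟩ : ∃ u, Y = {c, u} := by
    obtain ⟨u, w, huw, e⟩ := card_eq_two.1 (show Y.card = 2 by omega)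
    have a1 := k3 φ (by simp)
    rw [H.jφ.mem_ind] at a1
    have a2 : u ∈ X := hY (by simp [e])
    have a3 : w ∈ X := hY (by simp [e])
    have := H.hφ
    rw [e] at a1 ⊢
    rw [h1] at a2 a3
    by_cases k : u = c
    · exact ⟨w, by rw [k]⟩
    · refine ⟨u, ?_⟩
      rw [pair_comm]
      simp only [mem_insert, mem_singleton] at a1 a2 a3
      grind
  have jn : ∀ g ∈ Es \ {φ, ψ}, G.Joins g c u := by
    intro g hg
    have a1 := hp.ne (mem_sdiff.1 hg).1 (G.joins_st g)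
    rw [← k2, mem_ind, hu] at hg
    simp only [Joins, mem_insert, mem_singleton] at *
    grind
  obtain ⟨x, y, hxy, hL⟩ := card_eq_two.1 h3
  have xL : x ∈ Es \ {φ, ψ} := by simp [hL]
  have yL : y ∈ Es \ {φ, ψ} := by simp [hL]
  have hΦ : x ∈ Φ ∨ y ∈ Φ := by
    by_contra k
    rw [not_or] at k
    exact hs.ne (mem_sdiff.2 ⟨xL, k.1⟩) (mem_sdiff.2 ⟨yL, k.2⟩) hxy (jn x xL) (jn y yL) H.mc
      ((jn x xL).mem hp.within (mem_sdiff.1 xL).1).2
      (hp.ne (mem_sdiff.1 xL).1 (jn x xL)).symm rfl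
  have c1 := fun k k' => hd_par hp.fst.acyc k k' hxy.symm (jn x xL) (jn y yL)
  have c2 := fun k k' => hd_par hp.snd.acyc k k' hxy.symm (jn x xL) (jn y yL)
  have c3 := (hp.cov x).1 (mem_sdiff.1 xL).1
  have c4 := (hp.cov y).1 (mem_sdiff.1 yL).1
  have hL' := hL.trans (pair_comm x y)
  by_cases hψ : ψ ∈ p.1
  · refine hd_swap hp ?_
    by_cases k : x ∈ p.1
    · exact hd_tiny H hp.swap hL k (by tauto) (jn x xL) (jn y yL) hΦ (hp.disj ψ hψ)
    · exact hd_tiny H hp.swap hL' (by tauto) (by tauto) (jn y yL) (jn x xL) hΦ.symm (hp.disj ψ hψ)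
  · by_cases k : x ∈ p.1
    · exact hd_tiny H hp hL' (by tauto) k (jn y yL) (jn x xL) hΦ.symm hψ
    · exact hd_tiny H hp hL (by tauto) (by tauto) (jn x xL) (jn y yL) hΦ hψ

theorem HS.conn_deg (H : G.HS X Es φ ψ a b c) (hp : G.St X Es p) (hq : G.St X Es q)
    (hs : G.SpA X (Es \ {φ, ψ})) (hpq : Agree {φ, ψ} p q)
    (hχ : G.Joins ψ a b → G.BP X (Es \ {φ, ψ}) a b c →
      (G.Conn (p.1 \ {φ, ψ}) c a ↔ G.Conn (q.1 \ {φ, ψ}) c a))
    (hd : ∀ v ∈ X, v ∉ ({a, b, c} : Finset ℕ) → 4 ≤ G.deg Es v) : p = q := by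
  by_cases hne : (X \ {a, b, c}).Nonempty
  · exfalso
    obtain ⟨ht, -⟩ := H.degen hp hd hne
    obtain ⟨v, hv⟩ := hne
    have h1 : (X \ {a, b, c}).card ≤ 1 := by
      by_contra k
      have := hs _ sdiff_subset (show 2 ≤ (X \ {a, b, c}).card by omega)
      unfold Tight at ht
      omega
    obtain ⟨v1, v2⟩ := mem_sdiff.1 hv
    have h2 := hd v v1 v2
    have key : ∀ g, G.Inc g v → G.Joins g v (if G.s g = v then G.t g else G.s g) := by
      intro g hg
      split_ifs with k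
      · exact Or.inl ⟨k, rfl⟩
      · exact Or.inr ⟨rfl, hg.resolve_left k⟩
    have h3 : G.deg Es v ≤ ({a, b, c} : Finset ℕ).card := by
      refine card_le_card_of_injOn (fun g => if G.s g = v then G.t g else G.s g)
        (fun g hg => ?_) fun g hg g' hg' e => ?_
      · obtain ⟨g1, g2⟩ := mem_filter.1 (mem_coe.1 hg)
        by_contra k
        exact hp.ne g1 (key g g2) (card_le_one.1 h1 _ hv _
          (mem_sdiff.2 ⟨((key g g2).mem hp.within g1).2, k⟩))
      · obtain ⟨g1, g2⟩ := mem_filter.1 (mem_coe.1 hg)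
        obtain ⟨g3, g4⟩ := mem_filter.1 (mem_coe.1 hg')
        by_contra k
        exact hs.ne (mem_sdiff.2 ⟨g1, H.not_inc v2 g2⟩) (mem_sdiff.2 ⟨g3, H.not_inc v2 g4⟩) k
          (key g g2) (key g' g4) v1 ((key g g2).mem hp.within g1).2 (hp.ne g1 (key g g2)).symm e
    have := card_le_three (a := a) (b := b) (c := c)
    omega
  obtain ⟨h1, h2, h3⟩ := hd_small H hp hne
  have n1 := hp.fst.card
  have n2 := hp.snd.card
  have n3 := hq.fst.card
  suffices h : p.1 = q.1 by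
    refine Prod.ext h ?_
    ext g
    have := hp.cov g
    have := hp.disj g
    have := hq.cov g
    have := hq.disj g
    rw [h] at *
    tauto
  by_contra hne
  obtain ⟨e, e1, e2⟩ := not_subset.1 fun k => hne (eq_of_subset_of_card_le k (by omega))
  obtain ⟨f, f1, f2⟩ := not_subset.1 fun k => hne (eq_of_subset_of_card_le k (by omega)).symm
  have eE := (hp.cov e).2 (Or.inl e1)
  have fE := (hq.cov f).2 (Or.inl f1)
  have e3 := ((hq.cov e).1 eE).resolve_left e2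
  have f3 := ((hp.cov f).1 fE).resolve_left f2
  have eL : e ∈ Es \ {φ, ψ} := mem_sdiff.2 ⟨eE, fun k => e2 ((hpq e k).1 e1)⟩
  have fL : f ∈ Es \ {φ, ψ} := mem_sdiff.2 ⟨fE, fun k => f2 ((hpq f k).2 f1)⟩
  have ef : e ≠ f := fun k => e2 (k ▸ f1)
  have np : ∀ g ∈ ({φ, ψ} : Finset ℕ), g ∈ Es → ∀ u w, G.Joins g u w →
      ¬ G.Joins e u w ∧ ¬ G.Joins f u w := by
    intro g hg hg' u w j
    have a1 : e ≠ g := fun k => (mem_sdiff.1 eL).2 (k ▸ hg)
    have a2 : f ≠ g := fun k => (mem_sdiff.1 fL).2 (k ▸ hg)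
    by_cases k : g ∈ p.1
    · exact ⟨hd_par hp.fst.acyc k e1 a1 j, hd_par hq.fst.acyc ((hpq g hg).1 k) f1 a2 j⟩
    · exact ⟨hd_par hq.snd.acyc (((hq.cov g).1 hg').resolve_left fun k' => k ((hpq g hg).2 k'))
        e3 a1 j, hd_par hp.snd.acyc (((hp.cov g).1 hg').resolve_left k) f3 a2 j⟩
  have nq : ∀ u w, G.Joins e u w → ¬ G.Joins f u w := fun u w j1 j2 =>
    hs.ne eL fL ef j1 j2 (j1.mem hp.within eE).1 (j1.mem hp.within eE).2 (hp.ne eE j1).symm rfl
  have tri : ∀ g ∈ Es, G.Joins g a b ∨ G.Joins g a c ∨ G.Joins g b c := by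
    intro g hg
    have a1 := hp.ne hg (G.joins_st g)
    have a2 := hp.within g hg
    rw [h1] at a2
    simp only [Joins, mem_insert, mem_singleton] at *
    grind
  have t1 := tri e eE
  have t2 := tri f fE
  have s1 := np φ (by simp) H.hφ a b H.jφ
  have s2 := nq a c
  have s3 := nq b c
  rcases H.jψ with j | j
  · have := np ψ (by simp) H.hψ b c j
    tauto
  have crit : ∀ g ∈ Es \ {φ, ψ}, ∀ u w, G.Joins g u w → G.Crit (Es \ {φ, ψ}) {u, w} := by
    intro g hg u w j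
    have : g ∈ G.ind (Es \ {φ, ψ}) {u, w} := j.mem_ind.2 ⟨hg, by simp, by simp⟩
    have := card_pos.2 ⟨g, this⟩
    have := card_le_two (a := u) (b := w)
    unfold Crit
    omega
  have hL : Es \ {φ, ψ} = {e, f} := (eq_of_subset_of_card_le
    (insert_subset eL (singleton_subset_iff.2 fL)) (by rw [card_pair ef, h3])).symm
  have one : ∀ p : Finset ℕ × Finset ℕ, G.St X Es p → ∀ g g', Es \ {φ, ψ} = {g, g'} → g ∈ p.1 →
      g' ∉ p.1 → G.Joins g a c ∨ G.Joins g b c → (G.Conn (p.1 \ {φ, ψ}) c a ↔ G.Joins g a c) := by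
    intro p hp g g' k k1 k2 k3
    have m : ∀ z, z ∈ Es \ {φ, ψ} ↔ z = g ∨ z = g' := fun z => by simp [k]
    refine ⟨fun hc => k3.resolve_right fun j => ?_, fun j =>
      Conn.edge (mem_sdiff.2 ⟨k1, (mem_sdiff.1 ((m g).2 (Or.inl rfl))).2⟩) j.symm⟩
    refine H.ac (hc.symm.eq_of_isolated fun z hz hi => ?_).symm
    rw [mem_sdiff] at hz
    rcases (m z).1 (mem_sdiff.2 ⟨(hp.cov z).2 (Or.inl hz.1), hz.2⟩) with rfl | rfl
    · exact (j.inc_iff.1 hi).elim H.ab H.ac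
    · exact k2 hz.1
  have sub : ∀ u ∈ X, ({u, c} : Finset ℕ) ⊆ X := fun u hu =>
    insert_subset hu (singleton_subset_iff.2 H.mc)
  have := hχ j ⟨⟨{a, c}, sub a H.ma, by simp, by simp, by simp [H.ab.symm, H.bc], by
      have := crit e eL a c
      have := crit f fL a c
      tauto⟩, {b, c}, sub b H.mb, by simp, by simp, by simp [H.ab, H.ac], by
      have := crit e eL b c
      have := crit f fL b c
      tauto⟩
  rw [one p hp e f hL e1 f2 (by tauto), one q hq f e (hL.trans (pair_comm _ _)) f1 e2 (by tauto)]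
    at this
  tauto

end Gr

end Pool.Agent.P.MP_3f5ce9_co
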