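import Pool.Agent.P.MP_3f5ce9_co.W.HU

/-!
Entries of outer states.
-/

open Finset

namespace Pool.Agent.P.MP_3f5ce9_co

namespace Gr

variable {G : Gr ℕ ℕ} {X Y Z P P' Es F U U' A Φ : Finset ℕ} {p q α β σ σ' τ τ' : Finset ℕ × Finset ℕ}
  {u u' w w' v r a b c a' b' c' e f g x y z φ ψ n : ℕ}

theorem hen_swap {H : Gr ℕ ℕ} (hσ : H.St X Es σ) (hτ : H.St X Es τ) (ha : Agree F τ σ) :
    Agree F τ.swap σ.swap := fun g hg => by
  have := ha g hg
  have := hσ.cov g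
  have := hτ.cov g
  have := hσ.disj g
  have := hτ.disj g
  simp only [Prod.fst_swap]
  tauto

/-- a connection that needs the edge `g` reaches an end of `g` without it -/
theorem hen_end (h : G.Conn (insert g U) u w) (hn : ¬ G.Conn U u w) :
    ∃ p q, G.Joins g p q ∧ G.Conn U u p := by
  by_contra hc
  push Not at hc
  refine hn ((h {t | G.Conn U u t} fun e he => ?_).1 (Conn.refl _ _ _))
  rcases mem_insert.1 he with rfl | he
  · exact iff_of_false (hc _ _ (G.joins_st e)) (hc _ _ (G.joins_st e).symm)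
  · exact G.closed_comp U u e he

theorem hen_use (h : G.Conn (insert g U) u w) (hi : G.Inc g b) :
    G.Conn U u w ∨ G.Conn (insert g U) u b := by
  by_cases hn : G.Conn U u w
  · exact Or.inl hn
  obtain ⟨p, q, hj, hp⟩ := hen_end h hn
  have h1 := hp.mono (subset_insert g U)
  rcases hj.inc_iff.1 hi with rfl | rfl
  · exact Or.inr h1
  · exact Or.inr (h1.trans (Conn.edge (mem_insert_self _ _) hj))

theorem hen_far (h : G.Conn (insert g U) u w) (h' : G.Conn (insert g U) u w')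
    (hn : ¬ G.Conn U u w) (hn' : ¬ G.Conn U u w') : G.Conn U w w' := by
  obtain ⟨p, q, hj, hp⟩ := hen_end h hn
  refine (Conn.erase_of_side (Y := {t | G.Conn U u t}ᶜ) hj.symm (fun e he => ?_) (fun h => h hp)
    hn hn' (h.symm.trans h')).mono (erase_insert_subset g U)
  have := G.closed_comp U u e (erase_insert_subset g U he)
  simp only [Set.mem_compl_iff, this]

theorem LK.hen_root (K : G.LK X Es F v x y z a' b' c' Z r) (hw : w ∈ Z) (h : G.Conn U b' w) :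
    (G.map (cw Z r)).Conn U b' r := by
  have := h.map (cw Z r)
  rwa [cw_of_not K.hb, cw_of_mem hw] at this

theorem LK.hen_fst (K : G.LK X Es F v x y z a' b' c' Z r) (h : G.Viol X Es F v x y z b' Z r σ A)
    (hτ : G.Outer X Es v x y z Z r τ) (ha : Agree F τ σ) (hw : w ∈ Z) (hc : G.Conn A b' w)
    (hu : u ∈ Z) (h1 : G.Conn τ.1 b' u) : u = w := by
  obtain ⟨t, ht, h2⟩ := conn_cw_root K.hb K.hr ((K.hen_root hw hc).of_spans (h.span1 τ hτ ha))
  have h3 : u = t := K.entry_unique hτ hu ht (h1.symm.trans (h2.mono (union_subset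
    inter_subset_left fun g hg => (ha g (mem_inter.1 hg).1).2 (mem_inter.1 hg).2)))
  subst h3
  exact h.sep u hu w hw ((h2.mono (union_subset_union_left inter_subset_right)).symm.trans
    (hc.mono subset_union_left))

theorem LK.hen_snd (K : G.LK X Es F v x y z a' b' c' Z r) (h : G.Viol X Es F v x y z b' Z r σ A)
    (hσ : G.Outer X Es v x y z Z r σ) (hτ : G.Outer X Es v x y z Z r τ) (ha : Agree F τ σ)
    (hw : w ∈ Z) (h1 : G.Conn τ.2 b' w) : G.Conn (τ.2 ∩ A ∪ F ∩ σ.2) b' w := by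
  obtain ⟨t, ht, h2⟩ := conn_cw_root K.hb K.hr (h.link.of_spans (F' := τ.2 ∩ A ∪ F ∩ σ.2)
    fun e he => (mem_union.1 he).elim (h.span2 τ hτ ha e)
      fun he => Conn.edge (mem_union_right _ he) (joins_st _ e))
  have h3 : w = t := K.entry_unique hτ.swap hw ht (h1.symm.trans (h2.mono (union_subset
    inter_subset_left fun g hg => (hen_swap hσ hτ ha g (mem_inter.1 hg).1).2 (mem_inter.1 hg).2)))
  exact h3 ▸ h2

/-- a second entry is the common end of the frozen edges or agrees with all first entries -/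
theorem LK.hen_alt (K : G.LK X Es F v x y z a' b' c' Z r) (h : G.Viol X Es F v x y z b' Z r σ A)
    (hσ : G.Outer X Es v x y z Z r σ) (hτ : G.Outer X Es v x y z Z r τ) (ha : Agree F τ σ)
    (hτ' : G.Outer X Es v x y z Z r τ') (ha' : Agree F τ' σ) (hg : F ∩ σ.2 = {g}) (hb : b ∈ Z)
    (hi : G.Inc g b) (hw : w ∈ Z) (h1 : G.Conn τ.2 b' w) (hu : u ∈ Z) (h2 : G.Conn τ'.1 b' u) :
    w = b ∨ u = w := by
  have h3 := K.hen_snd h hσ hτ ha hw h1
  have h4 : g ∈ F ∩ σ.2 := hg ▸ mem_singleton_self g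
  rw [hg, union_comm, ← insert_eq] at h3
  rcases hen_use h3 hi with h5 | h5
  · exact Or.inr (K.hen_fst h hτ' ha' hw (h5.mono inter_subset_right) hu h2)
  · exact Or.inl (K.entry_unique hτ.swap hw hb (h1.symm.trans (h5.mono (insert_subset
      ((hen_swap hσ hτ ha g (mem_inter.1 h4).1).2 (mem_inter.1 h4).2) inter_subset_left))))

theorem LK.hen_main (K : G.LK X Es F v x y z a' b' c' Z r) (hb : b ∈ Z) (i1 : G.Inc φ b)
    (i2 : G.Inc ψ b) (hσ : G.Outer X Es v x y z Z r σ) (hτ : G.Outer X Es v x y z Z r τ)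
    (ha : Agree F τ σ) (e1 : F ∩ σ.1 = {φ}) (e2 : F ∩ σ.2 = {ψ})
    (h1 : G.Conn σ.1 b' a' ∨ G.Conn σ.2 b' a') (h2 : G.Conn τ.1 b' c' ∨ G.Conn τ.2 b' c') :
    G.DL X Es F x y z a' c' σ ∨ G.DL X Es F x y z a' c' σ.swap := by
  refine (K.ulem hσ).elim Or.inl fun ⟨A, hA⟩ => (K.ulem hσ.swap).elim Or.inr fun ⟨B, hB⟩ => ?_
  have hb' : b' ∈ X.erase v := mem_erase.2 ⟨K.node.bv, (K.node.jy.mem K.within K.node.hy).2⟩
  obtain ⟨s1, m1, c1⟩ := K.exists_entry hσ hb'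
  obtain ⟨s2, m2, c2⟩ := K.exists_entry hσ.swap hb'
  obtain ⟨t1, m3, c3⟩ := K.exists_entry hτ hb'
  obtain ⟨t2, m4, c4⟩ := K.exists_entry hτ.swap hb'
  have a0 : Agree F σ σ := fun _ _ => Iff.rfl
  have a1 : Agree F σ.swap σ.swap := fun _ _ => Iff.rfl
  have a2 := hen_swap hσ hτ ha
  have k1 := K.hen_alt hA hσ hσ a0 hσ a0 e2 hb i2 m2 c2 m1 c1
  have k2 := K.hen_alt hA hσ hσ a0 hτ ha e2 hb i2 m2 c2 m3 c3
  have k3 := K.hen_alt hA hσ hτ ha hσ a0 e2 hb i2 m4 c4 m1 c1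
  have k4 := K.hen_alt hA hσ hτ ha hτ ha e2 hb i2 m4 c4 m3 c3
  have k5 := K.hen_alt hB hσ.swap hσ.swap a1 hσ.swap a1 e1 hb i1 m1 c1 m2 c2
  have k6 := K.hen_alt hB hσ.swap hσ.swap a1 hτ.swap a2 e1 hb i1 m1 c1 m4 c4
  have k7 := K.hen_alt hB hσ.swap hτ.swap a2 hσ.swap a1 e1 hb i1 m3 c3 m2 c2
  have k8 := K.hen_alt hB hσ.swap hτ.swap a2 hτ.swap a2 e1 hb i1 m3 c3 m4 c4
  have k9 : a' = s1 ∨ a' = s2 := h1.imp (fun h => K.entry_unique hσ K.ha m1 (h.symm.trans c1))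
    fun h => K.entry_unique hσ.swap K.ha m2 (h.symm.trans c2)
  have k10 : c' = t1 ∨ c' = t2 := h2.imp (fun h => K.entry_unique hτ K.hc m3 (h.symm.trans c3))
    fun h => K.entry_unique hτ.swap K.hc m4 (h.symm.trans c4)
  have := K.ac
  omega

theorem LK.viol_entry (K : G.LK X Es F v x y z a' b' c' Z r) (h : G.Viol X Es F v x y z b' Z r σ A)
    (hF : (F ∩ σ.2).card ≤ 1) (hσ : G.Outer X Es v x y z Z r σ) (hτ : G.Outer X Es v x y z Z r τ)
    (ha : Agree F τ σ) (hu : u ∈ Z) (hu' : u' ∈ Z) (hw : w ∈ Z) (hw' : w' ∈ Z)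
    (h1 : G.Conn σ.1 b' u) (h2 : G.Conn τ.1 b' u') (h3 : G.Conn σ.2 b' w) (h4 : G.Conn τ.2 b' w') :
    u = u' ∨ w = w' := by
  have a0 : Agree F σ σ := fun _ _ => Iff.rfl
  by_cases c1 : G.Conn A b' w
  · exact Or.inl ((K.hen_fst h hσ a0 hw c1 hu h1).trans (K.hen_fst h hτ ha hw c1 hu' h2).symm)
  by_cases c2 : G.Conn A b' w'
  · exact Or.inl ((K.hen_fst h hσ a0 hw' c2 hu h1).trans (K.hen_fst h hτ ha hw' c2 hu' h2).symm)
  obtain ⟨g, hg⟩ := card_le_one_iff_subset_singleton.1 hF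
  have k : ∀ T : Finset ℕ, T ∩ A ∪ F ∩ σ.2 ⊆ insert g A := fun T => union_subset
    (inter_subset_right.trans (subset_insert _ _))
    (hg.trans (singleton_subset_iff.2 (mem_insert_self _ _)))
  exact Or.inr (h.sep w hw w' hw' ((hen_far ((K.hen_snd h hσ hσ a0 hw h3).mono (k _))
    ((K.hen_snd h hσ hτ ha hw' h4).mono (k _)) c1 c2).mono subset_union_left))

theorem LK.dl_of_both (K : G.LK X Es F v x y z a' b' c' Z r) (hF : F.card ≤ 2)
    (hσ : G.Outer X Es v x y z Z r σ) (hτ : G.Outer X Es v x y z Z r τ) (ha : Agree F τ σ)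
    (h1 : G.Conn σ.1 b' a') (h2 : G.Conn σ.2 b' a') (h3 : G.Conn τ.1 b' c')
    (h4 : G.Conn τ.2 b' c') : G.DL X Es F x y z a' c' σ ∨ G.DL X Es F x y z a' c' σ.swap := by
  by_cases c : (F ∩ σ.2).card ≤ 1
  · refine (K.ulem hσ).elim Or.inl fun ⟨A, hA⟩ => ?_
    exact ((K.viol_entry hA c hσ hτ ha K.ha K.hc K.ha K.hc h1 h3 h2 h4).elim K.ac K.ac).elim
  · have c' : (F ∩ σ.1).card ≤ 1 := by
      have k1 : (F ∩ σ.1 ∪ F ∩ σ.2).card ≤ F.card :=
        card_le_card (union_subset inter_subset_left inter_subset_left)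
      rw [card_union_of_disjoint (disjoint_left.2 fun g g1 g2 =>
        St.disj hσ g (mem_inter.1 g1).2 (mem_inter.1 g2).2)] at k1
      omega
    refine (K.ulem hσ.swap).elim Or.inr fun ⟨A, hA⟩ => ?_
    exact ((K.viol_entry hA c' hσ.swap hτ.swap (hen_swap hσ hτ ha) K.ha K.hc K.ha K.hc h2 h4 h1
      h3).elim K.ac K.ac).elim

theorem LK.dl_of_root (K : G.LK X Es {φ, ψ} v x y z a' b' c' Z r) (hb : b ∈ Z) (i1 : G.Inc φ b)
    (i2 : G.Inc ψ b) (hσ : G.Outer X Es v x y z Z r σ) (hτ : G.Outer X Es v x y z Z r τ)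
    (ha : Agree {φ, ψ} τ σ) (m1 : φ ∈ Es) (m2 : ψ ∈ Es) (hne : ¬ (φ ∈ σ.1 ↔ ψ ∈ σ.1))
    (h1 : G.Conn σ.1 b' a' ∨ G.Conn σ.2 b' a') (h2 : G.Conn τ.1 b' c' ∨ G.Conn τ.2 b' c') :
    G.DL X Es {φ, ψ} x y z a' c' σ ∨ G.DL X Es {φ, ψ} x y z a' c' σ.swap := by
  have k : ∀ g ∈ ({φ, ψ} : Finset ℕ), g ∈ Es → g ∈ σ.1 ∨ g ∈ σ.2 := fun g hg he =>
    (St.cov hσ g).1 (mem_sdiff.2 ⟨mem_erase.2 ⟨fun h => K.hz (h ▸ hg), mem_erase.2
      ⟨fun h => K.hy (h ▸ hg), mem_erase.2 ⟨fun h => K.hx (h ▸ hg), he⟩⟩⟩,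
      disjoint_left.1 K.hF hg⟩)
  have k1 := k φ (by simp) m1
  have k2 := k ψ (by simp) m2
  have k3 := St.disj hσ φ
  have k4 := St.disj hσ ψ
  by_cases c : φ ∈ σ.1
  · refine K.hen_main hb i1 i2 hσ hτ ha ?_ ?_ h1 h2 <;> ext g <;>
      simp only [mem_inter, mem_insert, mem_singleton] <;> grind
  · refine K.hen_main hb i2 i1 hσ hτ ha ?_ ?_ h1 h2 <;> ext g <;>
      simp only [mem_inter, mem_insert, mem_singleton] <;> grind

end Gr

end Pool.Agent.P.MP_3f5ce9_co
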