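import Pool.Agent.P.MP_3f5ce9_co.W.DefsH2
import Pool.Agent.P.MP_3f5ce9_co.W.HCount

/-!
Two parallel frozen edges: the involution and the invariant.
-/

open Finset

namespace Pool.Agent.P.MP_3f5ce9_co

namespace Gr

variable {G : Gr ℕ ℕ} {X Y Z P P' Es F U U' A Φ : Finset ℕ} {p q α β σ σ' τ τ' : Finset ℕ × Finset ℕ}
  {u u' w w' v r a b c a' b' c' e f g x y z φ ψ n : ℕ}

theorem he_mem : g ∈ U.image (Equiv.swap φ ψ) ↔ Equiv.swap φ ψ g ∈ U := by
  rw [mem_image]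
  constructor
  · rintro ⟨k, hk, rfl⟩
    rwa [Equiv.swap_apply_self]
  · exact fun h => ⟨_, h, Equiv.swap_apply_self _ _ _⟩

theorem he_fix (h : g ∉ ({φ, ψ} : Finset ℕ)) : Equiv.swap φ ψ g = g := by
  simp only [mem_insert, mem_singleton, not_or] at h
  exact Equiv.swap_apply_of_ne_of_ne h.1 h.2

theorem he_sd (U : Finset ℕ) : U.image (Equiv.swap φ ψ) \ {φ, ψ} = U \ {φ, ψ} := by
  ext g
  simp only [mem_sdiff, he_mem]
  exact and_congr_left fun h => by rw [he_fix h]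

theorem he_joins (h1 : G.Joins φ a b) (h2 : G.Joins ψ a b) (g : ℕ) :
    G.Joins (Equiv.swap φ ψ g) (G.s g) (G.t g) := by
  by_cases k1 : g = φ
  · rw [k1, Equiv.swap_apply_left]
    unfold Joins at *
    grind
  by_cases k2 : g = ψ
  · rw [k2, Equiv.swap_apply_right]
    unfold Joins at *
    grind
  rw [Equiv.swap_apply_of_ne_of_ne k1 k2]
  exact G.joins_st g

theorem he_tr (h1 : G.Joins φ a b) (h2 : G.Joins ψ a b) (h : G.Tr X U) :
    G.Tr X (U.image (Equiv.swap φ ψ)) := by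
  refine h.of_spans (fun g hg => (he_joins h1 h2 g).mem h.within (he_mem.1 hg))
    (card_image_of_injective _ (Equiv.injective _)) fun g hg => ?_
  exact Conn.edge (mem_image_of_mem _ hg) (he_joins h1 h2 g)

theorem HS.st_iota (H : G.HS X Es φ ψ a b c) (h : G.Joins ψ a b) (hp : G.St X Es p) :
    G.St X Es (iota φ ψ p) ∧ Agree {φ, ψ} (iota φ ψ p) p ∧
      (iota φ ψ p).1 \ {φ, ψ} = p.2 \ {φ, ψ} ∧ (iota φ ψ p).2 \ {φ, ψ} = p.1 \ {φ, ψ} := by
  have hc := H.par_colour h hp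
  have c1 := (hp.cov φ).1 H.hφ
  have c2 := (hp.cov ψ).1 H.hψ
  have d1 := hp.disj φ
  have d2 := hp.disj ψ
  refine ⟨⟨he_tr H.jφ h hp.snd, he_tr H.jφ h hp.fst, fun g h1 h2 => ?_, fun g => ?_⟩,
    fun g hg => ?_, he_sd _, he_sd _⟩
  · exact hp.disj _ (he_mem.1 h2) (he_mem.1 h1)
  · simp only [iota, he_mem]
    rw [or_comm, ← hp.cov]
    by_cases h1 : g = φ
    · simp [h1, H.hφ, H.hψ]
    by_cases h2 : g = ψ
    · simp [h2, H.hφ, H.hψ]
    rw [Equiv.swap_apply_of_ne_of_ne h1 h2]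
  · simp only [iota, he_mem]
    rcases mem_insert.1 hg with rfl | hg
    · rw [Equiv.swap_apply_left]
      tauto
    · rw [mem_singleton.1 hg, Equiv.swap_apply_right]
      tauto

theorem iota_iota (φ ψ : ℕ) (p : Finset ℕ × Finset ℕ) : iota φ ψ (iota φ ψ p) = p := by
  ext g <;> simp only [iota, he_mem, Equiv.swap_apply_self]

theorem Ty.iota (h : Ty x y z p) (hx : x ∉ ({φ, ψ} : Finset ℕ)) (hy : y ∉ ({φ, ψ} : Finset ℕ))
    (hz : z ∉ ({φ, ψ} : Finset ℕ)) : Ty x y z (iota φ ψ p) := by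
  unfold Ty at *
  simp only [Gr.iota, he_mem, he_fix hx, he_fix hy, he_fix hz]
  tauto

theorem he_alm {R : Finset ℕ} (h1 : G.Joins φ a b) (h2 : G.Joins ψ a b)
    (h : G.ALM {φ, ψ} R w p q) :
    G.ALM {φ, ψ} R w (p.1.image (Equiv.swap φ ψ), p.2.image (Equiv.swap φ ψ))
      (q.1.image (Equiv.swap φ ψ), q.2.image (Equiv.swap φ ψ)) := by
  obtain ⟨e, he, f, hf, heF, hfF, ie, jf, hl, k1, k2, hw⟩ := h
  have key : ∀ (U : Finset ℕ) (e f : ℕ), e ∉ ({φ, ψ} : Finset ℕ) → f ∉ ({φ, ψ} : Finset ℕ) →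
      (insert f (U.erase e)).image (Equiv.swap φ ψ) =
        insert f ((U.image (Equiv.swap φ ψ)).erase e) := by
    intro U e f he hf
    rw [image_insert, image_erase (Equiv.injective _), he_fix he, he_fix hf]
  refine ⟨e, he_mem.2 (by rwa [he_fix heF]), f, he_mem.2 (by rwa [he_fix hfF]), heF, hfF, ie, jf,
    fun g hg ig => ?_, ?_, ?_, fun hR => ?_⟩
  · have := hl _ (he_mem.1 hg) ((he_joins h1 h2 g).inc_iff.2 (ig.imp Eq.symm Eq.symm))
    rw [← he_fix heF] at this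
    exact Equiv.injective _ this
  · simp only [k1, key _ _ _ heF hfF]
  · simp only [k2, key _ _ _ hfF heF]
  · simp only [he_sd]
    exact hw hR

theorem HS.areach_iota (H : G.HS X Es φ ψ a b c) (h : G.Joins ψ a b)
    (hr : G.AReach X Es {φ, ψ} {a, b, c} p q) :
    G.AReach X Es {φ, ψ} {a, b, c} (iota φ ψ p) (iota φ ψ q) := by
  induction hr with
  | refl => exact AReach.refl _
  | tail _ hs ih =>
    obtain ⟨h1, h2, w, hm⟩ := hs
    exact ih.trans (AStep.reach ⟨(H.st_iota h h1).1, (H.st_iota h h2).1, w,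
      (hm.imp (he_alm H.jφ h) (he_alm H.jφ h)).symm⟩)

/-- a set through `a` and `b` spans both frozen edges -/
theorem HS.he_both (H : G.HS X Es φ ψ a b c) (h : G.Joins ψ a b) (hp : G.St X Es p) (ha : a ∈ Y)
    (hb : b ∈ Y) : (G.ind (Es \ {φ, ψ}) Y).card + 4 ≤ 2 * Y.card := by
  have := hp.ind_add_le (U := Es \ {φ, ψ}) (F := {φ, ψ}) (Y := Y) sdiff_subset
    (insert_subset (H.jφ.mem_ind.2 ⟨H.hφ, ha, hb⟩)
      (singleton_subset_iff.2 (h.mem_ind.2 ⟨H.hψ, ha, hb⟩))) sdiff_disjoint ⟨a, ha⟩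
  rw [card_pair H.ne] at this
  omega

theorem HS.bp_inter (H : G.HS X Es φ ψ a b c) (h : G.Joins ψ a b) (hp : G.St X Es p)
    (hs : G.SpA X (Es \ {φ, ψ})) (hP : P ⊆ X) (hP' : P' ⊆ X) (aP : a ∈ P) (bP : b ∈ P')
    (cP : c ∈ P) (cP' : c ∈ P') (k : G.Crit (Es \ {φ, ψ}) P) (k' : G.Crit (Es \ {φ, ψ}) P') :
    ∀ w ∈ P, w ∈ P' → w = c := by
  intro w wP wP'
  by_contra hwc
  unfold Crit at k k'
  have h1 := hs (P ∩ P') (inter_subset_left.trans hP)
    (one_lt_card.2 ⟨_, mem_inter.2 ⟨wP, wP'⟩, _, mem_inter.2 ⟨cP, cP'⟩, hwc⟩)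
  have h2 := H.he_both h hp (mem_union_left P' aP) (mem_union_right P bP)
  have h3 := G.ind_supermod (Es \ {φ, ψ}) P P'
  have h4 := card_union_add_card_inter P P'
  omega

theorem HS.he_nc (H : G.HS X Es φ ψ a b c) (h : G.Joins ψ a b) (hp : G.St X Es p)
    (h1 : G.Conn (p.1 \ {φ, ψ}) c a) : ¬ G.Conn (p.1 \ {φ, ψ}) c b := by
  intro h2
  have h3 := h1.symm.trans h2
  have hc := H.par_colour h hp
  by_cases h4 : φ ∈ p.1
  · refine hp.fst.acyc.not_conn h4 H.jφ (h3.mono fun g hg => ?_)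
    simp only [mem_sdiff, mem_erase, mem_insert, mem_singleton] at hg ⊢
    tauto
  · refine hp.fst.acyc.not_conn (by tauto : ψ ∈ p.1) h (h3.mono fun g hg => ?_)
    simp only [mem_sdiff, mem_erase, mem_insert, mem_singleton] at hg ⊢
    tauto

theorem HS.he_ind (H : G.HS X Es φ ψ a b c) (h : G.Joins ψ a b) (hb : b ∉ P) (U : Finset ℕ) :
    G.ind (U \ {φ, ψ}) P = G.ind U P := by
  refine Subset.antisymm (ind_mono sdiff_subset Subset.rfl) fun g hg => ?_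
  refine mem_ind.2 ⟨mem_sdiff.2 ⟨(mem_ind.1 hg).1, fun h1 => hb ?_⟩, (mem_ind.1 hg).2⟩
  rcases mem_insert.1 h1 with rfl | h1
  · exact (H.jφ.mem_ind.1 hg).2.2
  · rw [mem_singleton.1 h1] at hg
    exact (h.mem_ind.1 hg).2.2

theorem HS.he_span (H : G.HS X Es φ ψ a b c) (h : G.Joins ψ a b) (hU : G.Tr X U) (aP : a ∈ P)
    (cP : c ∈ P) (hb : b ∉ P) (k : (G.ind U P).card + 1 = P.card) :
    G.Conn (U \ {φ, ψ}) c a := by
  refine ((hU.restrict ⟨a, aP⟩ k.ge).conn c cP a aP).mono ?_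
  rw [← H.he_ind h hb]
  exact G.ind_subset _ _

theorem HS.he_cnt (H : G.HS X Es φ ψ a b c) (h : G.Joins ψ a b) (hp : G.St X Es p)
    (hs : G.SpA X (Es \ {φ, ψ})) (hP : P ⊆ X) (aP : a ∈ P) (cP : c ∈ P) (hb : b ∉ P)
    (k : G.Crit (Es \ {φ, ψ}) P) : (G.ind p.1 P).card + (G.ind p.2 P).card + 3 = 2 * P.card ∧
      (G.ind p.1 P).card + 1 ≤ P.card ∧ (G.ind p.2 P).card + 1 ≤ P.card := by
  have h1 := hs P hP (one_lt_card.2 ⟨_, aP, _, cP, H.ac⟩)
  unfold Crit at k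
  rw [H.he_ind h hb, hp.card_ind] at h1 k
  exact ⟨by omega, hp.fst.acyc.card_ind ⟨a, aP⟩, hp.snd.acyc.card_ind ⟨a, aP⟩⟩

theorem HS.he_or (H : G.HS X Es φ ψ a b c) (h : G.Joins ψ a b) (hp : G.St X Es p)
    (hs : G.SpA X (Es \ {φ, ψ})) (hP : P ⊆ X) (aP : a ∈ P) (cP : c ∈ P) (hb : b ∉ P)
    (k : G.Crit (Es \ {φ, ψ}) P) :
    G.Conn (p.1 \ {φ, ψ}) c a ∨ G.Conn (p.2 \ {φ, ψ}) c a := by
  have h1 := H.he_cnt h hp hs hP aP cP hb k
  by_cases h5 : (G.ind p.1 P).card + 1 = P.card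
  · exact Or.inl (H.he_span h hp.fst aP cP hb h5)
  · exact Or.inr (H.he_span h hp.snd aP cP hb (by omega))

theorem HS.he_all (H : G.HS X Es φ ψ a b c) (h : G.Joins ψ a b) (hp : G.St X Es p)
    (hs : G.SpA X (Es \ {φ, ψ})) (hb : G.BP X (Es \ {φ, ψ}) a b c) :
    ¬ (G.Conn (p.1 \ {φ, ψ}) c a ↔ G.Conn (p.2 \ {φ, ψ}) c a) ∧
      (G.Conn (p.1 \ {φ, ψ}) c b ↔ ¬ G.Conn (p.1 \ {φ, ψ}) c a) := by
  obtain ⟨⟨P, hP, aP, cP, hb, k⟩, P', hP', bP, cP', ha, k'⟩ := hb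
  have h1 := H.he_or h hp hs hP aP cP hb k
  have h2 := (H.flip h).he_or h.symm hp hs hP' bP cP' ha k'
  have h3 := H.he_nc h hp
  have h4 := H.he_nc h hp.swap
  simp only [Prod.fst_swap] at h4
  grind

theorem HS.chi_xor0 (H : G.HS X Es φ ψ a b c) (h : G.Joins ψ a b) (hp : G.St X Es p)
    (hs : G.SpA X (Es \ {φ, ψ})) (hb : G.BP X (Es \ {φ, ψ}) a b c) :
    ¬ (G.Conn (p.1 \ {φ, ψ}) c a ↔ G.Conn (p.2 \ {φ, ψ}) c a) := (H.he_all h hp hs hb).1

theorem HS.chi_iff (H : G.HS X Es φ ψ a b c) (h : G.Joins ψ a b) (hp : G.St X Es p)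
    (hs : G.SpA X (Es \ {φ, ψ})) (hP : P ⊆ X) (hP' : P' ⊆ X) (aP : a ∈ P) (bP : b ∈ P')
    (cP : c ∈ P) (cP' : c ∈ P') (k : G.Crit (Es \ {φ, ψ}) P) (k' : G.Crit (Es \ {φ, ψ}) P') :
    (G.Conn (p.1 \ {φ, ψ}) c a ↔ (G.ind p.1 P).card + 1 = P.card) ∧
      (¬ G.Conn (p.1 \ {φ, ψ}) c a ↔ (G.ind p.1 P).card + 2 = P.card) := by
  have i := H.bp_inter h hp hs hP hP' aP bP cP cP' k k'
  have hb : b ∉ P := fun hb => H.bc (i b hb bP)
  have ha : a ∉ P' := fun ha => H.ac (i a aP ha)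
  have h1 := H.he_cnt h hp hs hP aP cP hb k
  have h2 := H.chi_xor0 h hp hs ⟨⟨P, hP, aP, cP, hb, k⟩, P', hP', bP, cP', ha, k'⟩
  have h3 := H.he_span h hp.fst aP cP hb
  have h4 := H.he_span h hp.snd aP cP hb
  by_cases h5 : (G.ind p.1 P).card + 1 = P.card
  · exact ⟨iff_of_true (h3 h5) h5, iff_of_false (fun h6 => h6 (h3 h5)) (by omega)⟩
  · have h6 := h4 (by omega)
    exact ⟨iff_of_false (by tauto) h5, iff_of_true (by tauto) (by omega)⟩

theorem HS.chi_xor (H : G.HS X Es φ ψ a b c) (h : G.Joins ψ a b) (hp : G.St X Es p)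
    (hs : G.SpA X (Es \ {φ, ψ})) (hb : G.BP X (Es \ {φ, ψ}) a b c) :
    ¬ (G.Conn (p.1 \ {φ, ψ}) c a ↔ G.Conn (p.2 \ {φ, ψ}) c a) := by
  exact (H.he_all h hp hs hb).1

theorem he_root {R : Finset ℕ} (hw : w ∈ R) (hm : G.ALM F R w p q) (h : G.Conn (q.2 \ F) u u') :
    G.Conn (p.2 \ F) u u' := by
  obtain ⟨e, -, f, -, -, -, -, -, -, -, h2, h3⟩ := hm
  refine h.of_spans fun g hg => ?_
  by_cases hge : g = e
  · rw [hge]
    exact h3 hw
  · refine Conn.edge ?_ (G.joins_st g)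
    simp only [h2, mem_sdiff, mem_insert, mem_erase] at hg ⊢
    tauto

theorem he_leaf {R : Finset ℕ} (hu : u ≠ w) (hu' : u' ≠ w) (hm : G.ALM F R w p q)
    (h : G.Conn (p.1 \ F) u u') : G.Conn (q.1 \ F) u u' := by
  obtain ⟨e, -, f, -, -, -, ie, -, hl, h1, -⟩ := hm
  refine (h.erase_leaf ie (fun g hg => hl g (mem_sdiff.1 hg).1) hu hu').mono fun g hg => ?_
  simp only [h1, mem_sdiff, mem_insert, mem_erase] at hg ⊢
  tauto

theorem HS.chi_reach (H : G.HS X Es φ ψ a b c) (h : G.Joins ψ a b) (hs : G.SpA X (Es \ {φ, ψ}))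
    (hb : G.BP X (Es \ {φ, ψ}) a b c) (hr : G.AReach X Es {φ, ψ} {a, b, c} p q) :
    G.Conn (p.1 \ {φ, ψ}) c a ↔ G.Conn (q.1 \ {φ, ψ}) c a := by
  induction hr with
  | refl => exact Iff.rfl
  | tail _ hm ih =>
    refine ih.trans ?_
    obtain ⟨h1, h2, w, hm⟩ := hm
    have x1 := H.chi_xor h h1 hs hb
    have x2 := H.chi_xor h h2 hs hb
    by_cases hw : w ∈ ({a, b, c} : Finset ℕ)
    · rcases hm with hm | hm
      · have := he_root (u := c) (u' := a) hw hm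
        have := he_root (u := c) (u' := a) hw (hm.symm h1 h2)
        grind
      · exact ⟨he_root hw (hm.symm h1.swap h2.swap), he_root hw hm⟩
    · simp only [mem_insert, mem_singleton, not_or] at hw
      have k1 := Ne.symm hw.2.2
      have k2 := Ne.symm hw.1
      rcases hm with hm | hm
      · exact ⟨he_leaf k1 k2 hm, he_leaf k1 k2 (hm.symm h1 h2)⟩
      · have := he_leaf k1 k2 hm
        have := he_leaf k1 k2 (hm.symm h1.swap h2.swap)
        simp only [Prod.fst_swap] at *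
        grind

/-- exactly one of `a`, `b` can be joined to `c` -/
theorem HS.chi_flip (H : G.HS X Es φ ψ a b c) (h : G.Joins ψ a b) (hp : G.St X Es p)
    (hs : G.SpA X (Es \ {φ, ψ})) (hb : G.BP X (Es \ {φ, ψ}) a b c) :
    G.Conn (p.1 \ {φ, ψ}) c b ↔ ¬ G.Conn (p.1 \ {φ, ψ}) c a := by
  exact (H.he_all h hp hs hb).2

theorem Node.conn_up (N : G.Node Es v x y z a' b' c') (hW : G.Within Es X) (hx : x ∉ F) (hy : y ∉ F)
    (hz : z ∉ F) (hp : (G.map (ctr v b')).St (X.erase v) ((Es.erase x).erase y) p) (hu : u ≠ v)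
    (hw : w ≠ v) : (G.map (ctr v b')).Conn (p.1 \ F) u w ↔ G.Conn ((up x y z p).1 \ F) u w := by
  obtain ⟨S, T⟩ := p
  have hE : ∀ g ∈ S, g ∈ Es ∧ g ≠ x ∧ g ≠ y := by
    intro g hg
    have := (hp.cov g).2 (Or.inl hg)
    simp only [mem_erase] at this
    tauto
  by_cases hT : z ∈ T
  · rw [up_of_snd hT]
    have hzS : ∀ g ∈ S, g ≠ z := fun g hg k => hp.disj z (k ▸ hg) hT
    have he : ∀ g ∈ S \ F, (G.map (ctr v b')).s g = G.s g ∧ (G.map (ctr v b')).t g = G.t g :=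
      fun g hg => by
        have h1 := (mem_sdiff.1 hg).1
        exact N.ends (hE g h1).1 (hE g h1).2.1 (hE g h1).2.2 (hzS g h1)
    refine ⟨fun h => (conn_congr (fun g hg => ⟨(he g hg).1.symm, (he g hg).2.symm⟩) h).mono
      (sdiff_subset_sdiff (subset_insert _ _) Subset.rfl), fun h => conn_congr he ?_⟩
    refine (h.erase_leaf N.jx.inc (fun g hg ig => ?_) hu hw).mono fun g hg => ?_
    · rcases mem_insert.1 (mem_sdiff.1 hg).1 with h1 | h1
      · exact h1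
      · have := N.all g (hE g h1).1 ig
        have := hE g h1
        have := hzS g h1
        tauto
    · simp only [mem_sdiff, mem_insert, mem_erase] at hg ⊢
      tauto
  · rw [up_of_not hT]
    have hy' : y ∈ insert y S \ F := mem_sdiff.2 ⟨mem_insert_self _ _, hy⟩
    constructor
    · intro h
      refine Conn.unmap (F := S \ F) (φ := ctr v b') (X := insert u (insert w X)) (fun g hg => ?_)
        (by simp) (by simp) (fun _ _ _ _ k => ctr_conn hy' N.jy k)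
        (sdiff_subset_sdiff (subset_insert _ _) Subset.rfl) ?_
      · have := hW g (hE g (mem_sdiff.1 hg).1).1
        simp [this]
      · rwa [ctr_of_ne hu, ctr_of_ne hw]
    · intro h
      have h1 := h.map (ctr v b')
      rw [ctr_of_ne hu, ctr_of_ne hw] at h1
      refine h1.of_spans fun g hg => ?_
      by_cases hgy : g = y
      · have := N.jy.map (ctr v b')
        rw [ctr_self, ctr_of_ne N.bv] at this
        rw [hgy]
        exact this.conn (Conn.refl _ _ _)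
      · refine Conn.edge ?_ (joins_st _ g)
        simp only [mem_sdiff, mem_insert] at hg ⊢
        tauto

theorem Node2.conn_up (N : G.Node2 Es v x y a' b') (hU : U ⊆ (Es.erase x).erase y) (hu : u ≠ v)
    (hw : w ≠ v) : G.Conn (insert x U \ F) u w ↔ G.Conn (U \ F) u w := by
  refine ⟨fun h => ?_, fun h => h.mono (sdiff_subset_sdiff (subset_insert _ _) Subset.rfl)⟩
  refine (h.erase_leaf N.jx.inc (fun g hg ig => ?_) hu hw).mono fun g hg => ?_
  · rcases mem_insert.1 (mem_sdiff.1 hg).1 with h1 | h1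
    · exact h1
    · have h2 := hU h1
      simp only [mem_erase] at h2
      have := N.all g h2.2.2 ig
      tauto
  · simp only [mem_sdiff, mem_insert, mem_erase] at hg ⊢
    tauto

theorem BP.mono (h : G.BP Y U a b c) (hY : Y ⊆ X) (hU : U ⊆ U') : G.BP X U' a b c := by
  have key : ∀ P, G.Crit U P → G.Crit U' P := fun P k => by
    have := card_le_card (ind_mono (G := G) hU (Subset.refl P))
    unfold Crit at *
    omega
  obtain ⟨⟨P, h1, h2, h3, h4, h5⟩, Q, k1, k2, k3, k4, k5⟩ := h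
  exact ⟨⟨P, h1.trans hY, h2, h3, h4, key P h5⟩, Q, k1.trans hY, k2, k3, k4, key Q k5⟩

theorem BP.symm (h : G.BP X U a b c) : G.BP X U b a c := by
  exact ⟨h.2, h.1⟩

end Gr

end Pool.Agent.P.MP_3f5ce9_co
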