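import Pool.Agent.P.MP_3f5ce9_co.W.HEntry
import Pool.Agent.P.MP_3f5ce9_co.W.HLift

/-!
Linking two classes through a bad class.
-/

open Finset

namespace Pool.Agent.P.MP_3f5ce9_co

namespace Gr

variable {G : Gr ℕ ℕ} {X Y Z P P' Es F U U' A Φ : Finset ℕ} {p q α β σ σ' τ τ' : Finset ℕ × Finset ℕ}
  {u u' w w' v r a b c a' b' c' e f g x y z φ ψ n : ℕ}

theorem Node.flipY (hF : FLn n) (hn : X.card ≤ n + 1) (H : G.HS X Es φ ψ a b c)
    (N : G.Node Es v x y z a' b' c') (hv : v ∉ ({a, b, c} : Finset ℕ))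
    (hs : G.SpA X (Es \ {φ, ψ})) (hp : G.St X Es p) (ht : Ty y x z p)
    (hy : ¬ G.GoodC X (Es \ {φ, ψ}) v a' c')
    (hb : G.NEm φ ψ b c p → ∀ Y ⊆ X, v ∉ Y → a' ∈ Y → c' ∈ Y → G.Crit (Es \ {φ, ψ}) Y → b ∉ Y) :
    ∃ α β o, G.AReach X Es {φ, ψ} {a, b, c} p α ∧ G.AReach X Es {φ, ψ} {a, b, c} p β ∧
      Ty y x z α ∧ Ty y x z β ∧ z ∈ α.1 ∧ z ∈ β.2 ∧
      (∀ Y ⊆ X, v ∉ Y → a' ∈ Y → c' ∈ Y → G.Crit (Es \ {φ, ψ}) Y → o ∈ G.ind Es Y) ∧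
      ∀ g, g ≠ x → g ≠ y → g ≠ z → g ≠ o → (g ∈ α.1 ↔ g ∈ β.1) := by
  have hW := hp.within
  have mx := N.jx.mem hW N.hx
  have my := N.jy.mem hW N.hy
  have fx := H.not_inc hv N.jx.inc
  have fy := H.not_inc hv N.jy.inc
  have fz := H.not_inc hv N.jz.inc
  have ux := mem_sdiff.2 ⟨N.hx, fx⟩
  have uy := mem_sdiff.2 ⟨N.hy, fy⟩
  have uz := mem_sdiff.2 ⟨N.hz, fz⟩
  have hba := hs.ne uy ux N.xy.symm N.jy N.jx my.1 my.2 N.bv
  have hbc := hs.ne uy uz N.yz N.jy N.jz my.1 my.2 N.bv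
  have hac := N.s12.ty_ne hp ht
  have sub : ((Es.erase y).erase x) \ {φ, ψ} ⊆ Es \ {φ, ψ} :=
    sdiff_subset_sdiff ((erase_subset _ _).trans (erase_subset _ _)) Subset.rfl
  obtain ⟨p', hp', e1⟩ := N.s12.down hp ht
  obtain ⟨H', j1, -⟩ := H.node hv N.s12
  obtain ⟨q', hq', g, hg, hgf⟩ := hF _ _ _ φ ψ a b c {z} p'
    (by rw [card_erase_of_mem mx.1]; omega) H' hp'
    (N.s12.spA_mark hs (sdiff_subset.trans sdiff_subset) (sdiff_subset.trans sub) (by simp))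
    (by
      unfold GoodC at hy
      push Not at hy
      obtain ⟨Z, h1, h2, h3, h4, h5⟩ := hy
      refine ⟨Z, subset_erase.2 ⟨h1, h2⟩, one_lt_card.2 ⟨_, h3, _, h4, hac⟩, ?_⟩
      unfold Tight
      unfold Crit at h5
      rw [N.s12.hc_card' fz h2, if_pos ⟨h3, h4⟩]
      omega)
    fun hN => by
      by_contra hB
      obtain ⟨-, Z, h1, h2, h3, h4, h5, -, h6⟩ := N.s12.badB hs.spB sdiff_subset sub hB
      refine hb ⟨j1.1 hN.1, ?_⟩ Z h1 h2 h4 h5 (h6.trans (Nat.add_le_add_right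
        (card_le_card (ind_mono sub Subset.rfl)) _)) h3
      simp only [mem_insert, mem_singleton, not_or] at fx fy
      rw [← e1, mem_up (Ne.symm fy.1) (Ne.symm fx.1), mem_up (Ne.symm fy.2) (Ne.symm fx.2)]
      exact hN.2
  obtain rfl := mem_singleton.1 hg
  obtain ⟨ρ, τ, h1, h2, h3⟩ := hq'.exists_flip hgf
  obtain ⟨o, -, -, -, o1, -, o2⟩ := h2.exists_other h3
  have l1 := N.s12.alift hW hv fy fx fz hba hbc h1
  have l2 := N.s12.alift hW hv fy fx fz hba hbc (h1.trans h2.reach)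
  rw [e1] at l1 l2
  obtain ⟨u1, t1⟩ := N.s12.up_st hW h2.1
  obtain ⟨u2, t2⟩ := N.s12.up_st hW h2.2.1
  rw [← mem_up (z := g) (p := ρ) N.yz.symm N.xz.symm,
    ← mem_up (z := g) (p := τ) N.yz.symm N.xz.symm] at h3
  have o3 : ∀ k, k ≠ x → k ≠ y → k ≠ g → k ≠ o → (k ∈ (up y x g ρ).1 ↔ k ∈ (up y x g τ).1) :=
    fun k k1 k2 k3 k4 => by rw [mem_up k2 k1, mem_up k2 k1]; exact o2 k k3 k4
  have o4 : ∀ Y ⊆ X, v ∉ Y → a' ∈ Y → c' ∈ Y → G.Crit (Es \ {φ, ψ}) Y → o ∈ G.ind Es Y := by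
    intro Y _ y1 y2 y3 y4
    by_contra ho
    have k : 2 * Y.card ≤ (G.ind Es Y).card + 3 :=
      y4.trans (Nat.add_le_add_right (card_le_card (ind_mono sdiff_subset Subset.rfl)) _)
    have e2 : G.ind (up y x g ρ).1 Y = G.ind (up y x g τ).1 Y := by
      ext k
      simp only [mem_ind] at ho ⊢
      refine and_congr_left fun h4 => o3 k ?_ ?_ ?_ ?_ <;> rintro rfl
      · exact N.jx.inc.elim (fun e => y1 (e ▸ h4.1)) fun e => y1 (e ▸ h4.2)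
      · exact N.jy.inc.elim (fun e => y1 (e ▸ h4.1)) fun e => y1 (e ▸ h4.2)
      · exact N.jz.inc.elim (fun e => y1 (e ▸ h4.1)) fun e => y1 (e ▸ h4.2)
      · exact ho ⟨mem_of_mem_erase (mem_of_mem_erase o1), h4⟩
    exact h3 ((N.s12.chi' u1 t1 y1 y2 y3 k).trans (e2 ▸ (N.s12.chi' u2 t2 y1 y2 y3 k).symm))
  by_cases hz : g ∈ (up y x g ρ).1
  · exact ⟨_, _, o, l1, l2, t1, t2, hz, ((u2.cov g).1 N.hz).resolve_left (by tauto), o4, o3⟩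
  · exact ⟨_, _, o, l2, l1, t2, t1, by tauto, ((u1.cov g).1 N.hz).resolve_left hz, o4,
      fun k k1 k2 k3 k4 => (o3 k k1 k2 k3 k4).symm⟩

theorem Node.exists_lk (H : G.HS X Es φ ψ a b c) (N : G.Node Es v x y z a' b' c')
    (hv : v ∉ ({a, b, c} : Finset ℕ)) (hs : G.SpA X (Es \ {φ, ψ})) (hp : G.St X Es p)
    (ht : Ty y x z p) (hZ : Z ⊆ X) (vZ : v ∉ Z) (aZ : a' ∈ Z) (cZ : c' ∈ Z)
    (k : G.Crit (Es \ {φ, ψ}) Z) : G.LK X Es {φ, ψ} v x y z a' b' c' Z a' := by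
  have hW := hp.within
  have fx := H.not_inc hv N.jx.inc
  have fy := H.not_inc hv N.jy.inc
  have fz := H.not_inc hv N.jz.inc
  have hac := N.s12.ty_ne hp ht
  have sub : G.ind (Es \ {φ, ψ}) Z ⊆ G.ind Es Z := ind_mono sdiff_subset Subset.rfl
  have k0 := card_le_card sub
  unfold Crit at k
  have k1 : (G.ind Es Z).card + 3 = 2 * Z.card := by
    have := hp.card_ind Z
    rcases ht with ⟨-, h2, h3⟩ | ⟨-, h2, h3⟩
    · have := chi (S := p.1) (T := p.2) hp h2 h3 N.xz N.jx N.jz vZ aZ cZ (by omega)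
      omega
    · have := chi (S := p.2) (T := p.1) hp.swap h2 h3 N.xz N.jx N.jz vZ aZ cZ (by omega)
      omega
  have k2 : G.ind Es Z ⊆ Es \ {φ, ψ} :=
    eq_of_subset_of_card_le sub (by omega) ▸ G.ind_subset _ _
  refine ⟨N, hW, fun e he => hp.ne he (G.joins_st e), hZ, vZ, aZ, fun bZ => ?_, cZ, hac, aZ, k1,
    hs.mono k2 hZ, (disjoint_sdiff.mono_right k2 :), fx, fy, fz⟩
  have h1 := N.card_insert (mem_sdiff.2 ⟨N.hx, fx⟩) (mem_sdiff.2 ⟨N.hy, fy⟩)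
    (mem_sdiff.2 ⟨N.hz, fz⟩) vZ aZ bZ cZ
  have h2 := hs (insert v Z) (insert_subset (N.jx.mem hW N.hx).1 hZ)
    (by rw [card_insert_of_notMem vZ]; have := card_pos.2 ⟨_, aZ⟩; omega)
  rw [card_insert_of_notMem vZ] at h2
  omega

theorem hl_agree_symm (h : Agree F p q) : Agree F q p := fun g hg => (h g hg).symm

theorem hl_agree_trans (h : Agree F p q) (h' : Agree F q α) : Agree F p α :=
  fun g hg => (h g hg).trans (h' g hg)

theorem hl_vto (h : G.VTo y z x b' w p) : G.VTo y x z b' w p := by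
  unfold VTo at h ⊢
  rwa [erase_right_comm (s := p.1), erase_right_comm (s := p.2)]

/-- a direct link as a state of class `x` -/
theorem LK.hl_dl (K : G.LK X Es F v x y z a' b' c' Z r) (hF : F ⊆ Es)
    (hσ : G.Outer X Es v x y z Z r σ)
    (h : G.DL X Es F x y z a' c' σ ∨ G.DL X Es F x y z a' c' σ.swap) :
    ∃ α, G.St X Es α ∧ Ty x y z α ∧ G.VTo x z y a' c' α ∧ Agree F α σ := by
  rcases h with ⟨α, h1, h2, h3, h4, h5, h6⟩ | ⟨α, h1, h2, h3, h4, h5, h6⟩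
  · exact ⟨α, h1, Or.inl ⟨h2, h3, h4⟩, hl_vto (Or.inl ⟨h2, h5⟩), h6⟩
  refine ⟨α.swap, h1.swap, Or.inr ⟨h2, h3, h4⟩, hl_vto (Or.inr ⟨h2, h5⟩), fun g hg => ?_⟩
  have a1 := h6 g hg
  have a2 := (h1.cov g).1 (hF hg)
  have a3 := h1.disj g
  have a4 := hσ.disj g
  have a5 := (hσ.cov g).1 (mem_sdiff.2 ⟨mem_erase.2 ⟨fun e => K.hz (e ▸ hg), mem_erase.2
    ⟨fun e => K.hy (e ▸ hg), mem_erase.2 ⟨fun e => K.hx (e ▸ hg), hF hg⟩⟩⟩,
    disjoint_left.1 K.hF hg⟩)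
  simp only [Prod.fst_swap] at a1 ⊢
  tauto

theorem LK.hl_entry (K : G.LK X Es F v x y z a' b' c' Z r) (hp : G.St X Es p) (ht : Ty y x z p)
    (hw : w = a' ∨ w = c') (h : G.VTo y x z b' w p) :
    (G.DL X Es F x y z a' c' (G.outr Es x y z Z p) ∨
      G.DL X Es F x y z a' c' (G.outr Es x y z Z p).swap) ∨
    (y ∈ p.2 ∧ G.Conn (G.outr Es x y z Z p).1 b' w) ∨
      (y ∈ p.1 ∧ G.Conn (G.outr Es x y z Z p).2 b' w) := by
  have := hp.disj y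
  unfold Ty at ht
  rcases h with ⟨h1, h2⟩ | ⟨h1, h2⟩
  · rcases K.entry hp.swap h1 (by tauto) (by tauto) hw h2 with h | h
    · exact Or.inl (Or.inl h)
    · exact Or.inr (Or.inr ⟨h1, h⟩)
  · rcases K.entry hp h1 (by tauto) (by tauto) hw h2 with h | h
    · exact Or.inl (Or.inr h)
    · exact Or.inr (Or.inl ⟨h1, h⟩)

theorem LK.hl_half (K : G.LK X Es F v x y z a' b' c' Z r) (hα : G.St X Es α) (hβ : G.St X Es β)
    (tα : Ty y x z α) (tβ : Ty y x z β) (h1 : y ∉ α.1) (h2 : y ∉ β.2) (hw : w = a' ∨ w = c')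
    (vα : G.VTo y x z b' w α) (vβ : G.VTo y x z b' w β) {o : ℕ} (ho : o ∈ G.ind Es Z)
    (h : ∀ g, g ≠ x → g ≠ y → g ≠ z → g ≠ o → (g ∈ α.1 ↔ g ∈ β.1)) :
    (G.DL X Es F x y z a' c' (G.outr Es x y z Z α) ∨
      G.DL X Es F x y z a' c' (G.outr Es x y z Z α).swap) ∨
    (G.Conn (G.outr Es x y z Z α).1 b' w ∧ G.Conn (G.outr Es x y z Z α).2 b' w) := by
  have e : G.outr Es x y z Z β = G.outr Es x y z Z α := by
    refine Prod.ext (Finset.ext fun g => ?_) (Finset.ext fun g => ?_) <;>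
      simp only [outr, mem_inter, mem_sdiff, mem_erase] <;>
      refine and_congr_left fun ⟨⟨a1, a2, a3, a4⟩, a5⟩ => ?_ <;>
      have := h g a3 a2 a1 fun e => a5 (e ▸ ho)
    · exact this.symm
    · have := hα.cov g
      have := hβ.cov g
      have := hα.disj g
      have := hβ.disj g
      tauto
  have a1 := K.hl_entry hα tα hw vα
  have a2 := K.hl_entry hβ tβ hw vβ
  rw [e] at a2
  tauto

theorem Node.alink (hF : FLn n) (hn : X.card ≤ n + 1) (H : G.HS X Es φ ψ a b c)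
    (N : G.Node Es v x y z a' b' c') (hv : v ∉ ({a, b, c} : Finset ℕ))
    (hs : G.SpA X (Es \ {φ, ψ})) (hp : G.St X Es p) (hq : G.St X Es q) (hpq : Agree {φ, ψ} p q)
    (tp : Ty x y z p) (vp : G.VTo x y z a' b' p) (tq : Ty z y x q) (vq : G.VTo z y x c' b' q)
    (hy : ¬ G.GoodC X (Es \ {φ, ψ}) v a' c') :
    ∃ α β, G.St X Es α ∧ Ty x y z α ∧ Ty z y x β ∧ Agree {φ, ψ} α p ∧
      G.AReach X Es {φ, ψ} {a, b, c} α β := by
  have fx := H.not_inc hv N.jx.inc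
  have fy := H.not_inc hv N.jy.inc
  have fz := H.not_inc hv N.jz.inc
  have N' := N.s23.s12.s23
  obtain ⟨p2, p1, p3, p4, -⟩ := N.avstep hv fx fy hp tp vp
  obtain ⟨q2, q1, q3, q4, -⟩ := N'.avstep hv fz fy hq tq vq
  have ap := hl_agree_symm p1.reach.agree
  have aq := hl_agree_trans (hl_agree_symm q1.reach.agree) (hl_agree_symm hpq)
  have fin : ∀ {Z σ}, G.LK X Es {φ, ψ} v x y z a' b' c' Z a' → G.Outer X Es v x y z Z a' σ →
      Agree {φ, ψ} σ p → G.DL X Es {φ, ψ} x y z a' c' σ ∨ G.DL X Es {φ, ψ} x y z a' c' σ.swap →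
      ∃ α β, G.St X Es α ∧ Ty x y z α ∧ Ty z y x β ∧ Agree {φ, ψ} α p ∧
        G.AReach X Es {φ, ψ} {a, b, c} α β := fun K h1 h2 h3 => by
    obtain ⟨α, a1, a2, a3, a4⟩ := K.hl_dl (insert_subset H.hφ (singleton_subset_iff.2 H.hψ)) h1 h3
    obtain ⟨β, b1, b2, -⟩ := N.s23.avstep hv fx fz a1 a2.s23 a3
    exact ⟨α, β, a1, a2, b2.s23, hl_agree_trans a4 h2, b1.reach⟩
  have ne : ∀ {s}, Agree {φ, ψ} s p → ((φ ∈ s.1 ↔ ψ ∈ s.1) ↔ (φ ∈ p.1 ↔ ψ ∈ p.1)) := fun h => by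
    rw [h φ (by simp), h ψ (by simp)]
  by_cases hb : G.NEm φ ψ b c p →
    ∀ Y ⊆ X, v ∉ Y → a' ∈ Y → c' ∈ Y → G.Crit (Es \ {φ, ψ}) Y → b ∉ Y
  swap
  · push Not at hb
    obtain ⟨hN, Z, z1, z2, z3, z4, z5, z6⟩ := hb
    have K := N.exists_lk H hv hs p1.2.1 p3 z1 z2 z3 z4 z5
    obtain ⟨o1, o2⟩ := K.outer p1.2.1 p3
    obtain ⟨o3, o4⟩ := K.outer q1.2.1 q3.s23
    have o5 := hl_agree_trans o2 ap
    have o6 := hl_agree_trans o4 aq
    rcases K.hl_entry p1.2.1 p3 (Or.inl rfl) p4 with h | h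
    · exact fin K o1 o5 h
    rcases K.hl_entry q1.2.1 q3.s23 (Or.inr rfl) (hl_vto q4) with h' | h'
    · exact fin K o3 o6 h'
    exact fin K o1 o5 (K.dl_of_root z6 H.jφ.inc' hN.1.inc o1 o3
      (hl_agree_trans o6 (hl_agree_symm o5)) H.hφ H.hψ (fun e => hN.2 ((ne o5).1 e))
      (h.imp And.right And.right) (h'.imp And.right And.right))
  obtain ⟨α, β, o, a1, a2, a3, a4, a5, a6, a7, a8⟩ := N.flipY hF hn H hv hs p1.2.1 p3 hy
    fun h => hb ⟨h.1, fun e => h.2 ((ne ap).2 e)⟩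
  obtain ⟨α', β', o', b1, b2, b3, b4, b5, b6, b7, b8⟩ := N'.flipY hF hn H hv hs q1.2.1 q3
    (fun h => hy h.symm) fun h Y y1 y2 y3 y4 => hb ⟨h.1, fun e => h.2 ((ne aq).2 e)⟩ Y y1 y2 y4 y3
  have k1 : ∀ {s}, G.AReach X Es {φ, ψ} {a, b, c} p2 s → Ty y x z s → G.VTo y x z b' a' s ∨
      ∃ α β, G.St X Es α ∧ Ty x y z α ∧ Ty z y x β ∧ Agree {φ, ψ} α p ∧
        G.AReach X Es {φ, ψ} {a, b, c} α β := fun h1 h2 =>
    (N.s12.vto_or (h1.st p1.2.1) h2).imp_right fun h => by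
      obtain ⟨γ, c1, c2, -⟩ := N.s12.s23.avstep hv fy fz (h1.st p1.2.1) h2.s23 h
      exact ⟨p, γ, hp, tp, c2, fun _ _ => Iff.rfl, (p1.reach.trans h1).trans c1.reach⟩
  have k2 : ∀ {s}, G.AReach X Es {φ, ψ} {a, b, c} q2 s → Ty y z x s → G.VTo y x z b' c' s ∨
      ∃ α β, G.St X Es α ∧ Ty x y z α ∧ Ty z y x β ∧ Agree {φ, ψ} α p ∧
        G.AReach X Es {φ, ψ} {a, b, c} α β := fun h1 h2 =>
    (N'.s12.vto_or (h1.st q1.2.1) h2).imp hl_vto fun h => by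
      obtain ⟨γ, c1, c2, -⟩ := N.s12.avstep hv fy fx (h1.st q1.2.1) h2.s23 h
      have c3 := ((q1.reach.trans h1).trans c1.reach).symm
      exact ⟨γ, q, c1.2.1, c2, tq, hl_agree_trans c3.agree (hl_agree_symm hpq), c3⟩
  refine (k1 a1 a3).elim (fun v1 => ?_) id
  refine (k1 a2 a4).elim (fun v2 => ?_) id
  refine (k2 b1 b3).elim (fun v3 => ?_) id
  refine (k2 b2 b4).elim (fun v4 => ?_) id
  unfold GoodC at hy
  push Not at hy
  obtain ⟨Z, z1, z2, z3, z4, z5⟩ := hy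
  have K := N.exists_lk H hv hs p1.2.1 p3 z1 z2 z3 z4 z5
  have s1 := a1.st p1.2.1
  have s2 := a2.st p1.2.1
  have s3 := b1.st q1.2.1
  have s4 := b2.st q1.2.1
  obtain ⟨o1, o2⟩ := K.outer s1 a3
  obtain ⟨o3, o4⟩ := K.outer s3 b3.s23
  have o5 := hl_agree_trans o2 (hl_agree_trans (hl_agree_symm a1.agree) ap)
  have o6 := hl_agree_trans o4 (hl_agree_trans (hl_agree_symm b1.agree) aq)
  have t1 : ∀ {x z s}, G.St X Es s → Ty y x z s → (z ∈ s.1 → y ∉ s.1) ∧ (z ∈ s.2 → y ∉ s.2) :=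
    fun {x z s} h1 h2 => by
      have := h1.disj y
      have := h1.disj z
      unfold Ty at h2
      tauto
  rcases K.hl_half s1 s2 a3 a4 ((t1 s1 a3).1 a5) ((t1 s2 a4).2 a6) (Or.inl rfl) v1 v2
    (a7 Z z1 z2 z3 z4 z5) a8 with h | h
  · exact fin K o1 o5 h
  rcases K.hl_half s3 s4 b3.s23 b4.s23 ((t1 s3 b3).1 b5) ((t1 s4 b4).2 b6) (Or.inr rfl) v3 v4
    (b7 Z z1 z2 z4 z3 z5) (fun g g1 g2 g3 => b8 g g3 g2 g1) with h' | h'
  · exact fin K o3 o6 h'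
  exact fin K o1 o5 (K.dl_of_both card_le_two o1 o3 (hl_agree_trans o6 (hl_agree_symm o5))
    h.1 h.2 h'.1 h'.2)

end Gr

end Pool.Agent.P.MP_3f5ce9_co
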