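import Pool.Agent.P.MP_3f5ce9_co.W.HStepB

/-!
The step lemma.
-/

open Finset

namespace Pool.Agent.P.MP_3f5ce9_co

namespace Gr

variable {G : Gr ℕ ℕ} {X Y Z P P' Es F U U' A Φ : Finset ℕ} {p q α β σ σ' τ τ' : Finset ℕ × Finset ℕ}
  {u u' w w' v r a b c a' b' c' e f g x y z φ ψ n : ℕ}

theorem hst_crit (h : G.Crit U Y) (hU : U ⊆ U') : G.Crit U' Y :=
  le_trans h (Nat.add_le_add_right (card_le_card (ind_mono hU Subset.rfl)) _)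

theorem hst_nem (h : Agree {φ, ψ} p q) (hn : G.NEm φ ψ b c q) : G.NEm φ ψ b c p := by
  refine ⟨hn.1, fun h1 => hn.2 ?_⟩
  rw [← h φ (by simp), ← h ψ (by simp)]
  exact h1

/-- two critical sets determine the colour of the third edge -/
theorem Node.hst_chi (N : G.Node Es v x y z a' b' c') {u1 u2 w1 w2 : Finset ℕ × Finset ℕ}
    (s1 : G.St X Es u1) (s2 : G.St X Es u2) (s3 : G.St X Es w1) (s4 : G.St X Es w2)
    (t1 : Ty x y z u1) (t2 : Ty x y z u2) (t3 : Ty y x z w1) (t4 : Ty y x z w2)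
    (m3 : ∀ g, g ≠ x → g ≠ y → (g ∈ w1.1 ↔ g ∈ u1.1))
    (n3 : ∀ g, g ≠ x → g ≠ y → (g ∈ w2.1 ↔ g ∈ u2.1)) {o : ℕ}
    (ho : ∀ g, g ≠ x → g ≠ y → g ≠ z → g ≠ o → (g ∈ u1.1 ↔ g ∈ u2.1))
    (vY : v ∉ Y) (vZ : v ∉ Z) (bY : b' ∈ Y) (cY : c' ∈ Y) (aZ : a' ∈ Z) (cZ : c' ∈ Z)
    (k1 : G.Crit Es Y) (k2 : G.Crit Es Z) (i1 : ∀ w ∈ Y, w ∈ Z → w = c') :
    z ∈ u1.1 ↔ z ∈ u2.1 := by
  have j1 := N.chi' s1 t1 vY bY cY k1
  have j2 := N.chi' s2 t2 vY bY cY k1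
  have j3 := N.s12.chi' s3 t3 vZ aZ cZ k2
  have j4 := N.s12.chi' s4 t4 vZ aZ cZ k2
  rw [m3 z N.xz.symm N.yz.symm] at j3
  rw [n3 z N.xz.symm N.yz.symm] at j4
  have hloop : ∀ e ∈ Es, G.s e ≠ G.t e := fun e he => s1.ne he (G.joins_st e)
  have hins : ∀ Z : Finset ℕ, v ∉ Z → ∀ k, G.s k ∈ Z → G.t k ∈ Z → k ≠ x ∧ k ≠ y ∧ k ≠ z := by
    intro Z hZ k h4 h5
    have := N.jx.inc
    have := N.jy.inc
    have := N.jz.inc
    unfold Inc at *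
    grind
  by_cases ho1 : G.s o ∈ Y ∧ G.t o ∈ Y
  · have e2 : G.ind w1.1 Z = G.ind w2.1 Z := by
      ext k
      simp only [mem_ind]
      refine and_congr_left fun h4 => ?_
      obtain ⟨h5, h6, h7⟩ := hins Z vZ k h4.1 h4.2
      rw [m3 k h5 h6, n3 k h5 h6]
      by_cases hko : k = o
      · subst hko
        have h8 : G.s k = G.t k := (i1 _ ho1.1 h4.1).trans (i1 _ ho1.2 h4.2).symm
        have h9 : k ∉ Es := fun h => hloop k h h8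
        have h10 := s1.cov k
        have h11 := s2.cov k
        simp only [h9, false_iff, not_or] at h10 h11
        simp [h10.1, h11.1]
      · exact ho k h5 h6 h7 hko
    rw [e2] at j3
    exact j3.trans j4.symm
  · have e2 : G.ind u1.1 Y = G.ind u2.1 Y := by
      ext k
      simp only [mem_ind]
      refine and_congr_left fun h4 => ?_
      obtain ⟨h5, h6, h7⟩ := hins Y vY k h4.1 h4.2
      exact ho k h5 h6 h7 (by rintro rfl; exact ho1 h4)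
    rw [e2] at j1
    exact j1.trans j2.symm

/-- a move into the third class -/
theorem Node.hst_into (N : G.Node Es v x y z a' b' c') {R : Finset ℕ} (hv : v ∉ R) (hx : x ∉ F)
    (hz : z ∉ F) (hq : G.St X Es q) (ht : Ty x y z q) (hto : G.VTo x z y a' c' q) :
    ∃ w, G.AStep X Es F R q w ∧ Ty z x y w ∧ ¬ (z ∈ q.1 ↔ z ∈ w.1) := by
  obtain ⟨w, m1, m2, -, m3⟩ := N.s23.avstep hv hx hz hq ht.s23 hto
  exact ⟨w, m1, m2, (Ty.flip hq m1.2.1 ht.s23 m2 (m3 y N.xy.symm N.yz)).2⟩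

theorem Node.hst_one (hF : FLn n) (hn : X.card ≤ n + 1) (H : G.HS X Es φ ψ a b c)
    (N : G.Node Es v x y z a' b' c') (hv : v ∉ ({a, b, c} : Finset ℕ)) (hp : G.St X Es p)
    (hs : G.SpA X ((Es \ {φ, ψ}) \ Φ)) (ht : Ty x y z p) (hx : x ∉ Φ) (hy : y ∉ Φ)
    (hab : a' ≠ b') (hac : a' ≠ c')
    (hB : G.NEm φ ψ b c p →
      (G.map (ctr v b')).SpB (X.erase v) (((Es.erase x).erase y) \ {φ, ψ}) b)
    (hY : Y ⊆ X) (vY : v ∉ Y) (vZ : v ∉ Z) (bY : b' ∈ Y) (cY : c' ∈ Y) (aZ : a' ∈ Z)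
    (cZ : c' ∈ Z) (c2 : 2 ≤ Y.card) (k1 : G.Crit (Es \ {φ, ψ}) Y) (k2 : G.Crit (Es \ {φ, ψ}) Z)
    (i1 : ∀ w ∈ Y, w ∈ Z → w = c') :
    G.Flips X Es {φ, ψ} {a, b, c} Φ p ∨ ∃ q w, G.AReach X Es {φ, ψ} {a, b, c} p q ∧
      G.AStep X Es {φ, ψ} {a, b, c} q w ∧ Ty z x y w ∧ ¬ (z ∈ q.1 ↔ z ∈ w.1) := by
  have hW := hp.within
  have mx := N.jx.mem hW N.hx
  have xF := H.not_inc hv N.jx.inc
  have yF := H.not_inc hv N.jy.inc
  have zF := H.not_inc hv N.jz.inc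
  obtain ⟨H', jj, -⟩ := H.node hv N
  obtain ⟨p', hp', e1⟩ := N.down hp ht
  have hφ : φ ≠ x ∧ φ ≠ y ∧ ψ ≠ x ∧ ψ ≠ y := by
    simp only [mem_insert, mem_singleton, not_or] at xF yF
    exact ⟨Ne.symm xF.1, Ne.symm yF.1, Ne.symm xF.2, Ne.symm yF.2⟩
  obtain ⟨q', hq', g, hg, hgf⟩ := hF _ _ _ φ ψ a b c (insert z Φ) p'
    (by rw [card_erase_of_mem mx.1]; omega) H' hp'
    (N.spA_mark hs (sdiff_subset.trans sdiff_subset)
      (by intro g; simp only [mem_sdiff, mem_erase, mem_insert]; tauto) (by simp))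
    ⟨Y, fun w hw => mem_erase.2 ⟨fun h => vY (h ▸ hw), hY hw⟩, c2, by
      unfold Tight
      unfold Crit at k1
      rw [N.hc_card' zF vY, if_pos ⟨bY, cY⟩]
      omega⟩
    (fun h => hB ⟨jj.1 h.1, by
      rw [← e1, mem_up hφ.1 hφ.2.1, mem_up hφ.2.2.1 hφ.2.2.2]; exact h.2⟩)
  by_cases hgz : g = z
  swap
  · have hgΦ : g ∈ Φ := (mem_insert.1 hg).resolve_left hgz
    have h1 := N.alift hW hv xF yF zF hab hac hq'
    rw [e1] at h1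
    refine Or.inl ⟨_, h1, g, hgΦ, ?_⟩
    rw [← e1, mem_up (by rintro rfl; exact hx hgΦ) (by rintro rfl; exact hy hgΦ),
      mem_up (by rintro rfl; exact hx hgΦ) (by rintro rfl; exact hy hgΦ)]
    exact hgf
  subst hgz
  obtain ⟨ρ, τ, h1, h2, h3⟩ := hq'.exists_flip hgf
  have l1 := N.alift hW hv xF yF zF hab hac h1
  rw [e1] at l1
  have l2 := l1.trans (N.alift_step hW hv xF yF zF hab hac h2)
  obtain ⟨u1, t1⟩ := N.up_st hW h2.1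
  obtain ⟨u2, t2⟩ := N.up_st hW h2.2.1
  rcases N.vto_or u1 t1 with o1 | o1
  swap
  · obtain ⟨w, m⟩ := N.hst_into hv xF zF u1 t1 o1
    exact Or.inr ⟨_, w, l1, m⟩
  rcases N.vto_or u2 t2 with o2 | o2
  swap
  · obtain ⟨w, m⟩ := N.hst_into hv xF zF u2 t2 o2
    exact Or.inr ⟨_, w, l2, m⟩
  exfalso
  obtain ⟨w1, m1, m2, -, m3⟩ := N.avstep hv xF yF u1 t1 o1
  obtain ⟨w2, n1, n2, -, n3⟩ := N.avstep hv xF yF u2 t2 o2
  obtain ⟨o, -, -, -, -, -, ho⟩ := h2.exists_other h3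
  have := N.hst_chi (o := o) u1 u2 m1.2.1 n1.2.1 t1 t2 m2 n2 m3 n3
    (fun k h5 h6 h7 h8 => by rw [mem_up h5 h6, mem_up h5 h6]; exact ho k h7 h8)
    vY vZ bY cY aZ cZ (hst_crit k1 sdiff_subset) (hst_crit k2 sdiff_subset) i1
  rw [mem_up N.xz.symm N.yz.symm, mem_up N.xz.symm N.yz.symm] at this
  exact h3 this

/-- a bad class has a critical set -/
theorem Node.hst_bad (N : G.Node Es v x y z a' b' c') {NE : Prop} (hs : G.SpA X ((Es \ F) \ Φ))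
    (hB : NE → G.SpB X (Es \ F) b)
    (hb : ¬ ((G.map (ctr v b')).SpA (X.erase v) ((((Es.erase x).erase y) \ F) \ Φ) ∧
      (NE → (G.map (ctr v b')).SpB (X.erase v) (((Es.erase x).erase y) \ F) b))) :
    ∃ Y ⊆ X, v ∉ Y ∧ b' ∈ Y ∧ c' ∈ Y ∧ 2 ≤ Y.card ∧ G.Crit (Es \ F) Y ∧
      ((z ∉ Φ ∧ G.Crit ((Es \ F) \ Φ) Y ∧
        (NE → (G.map (ctr v b')).SpB (X.erase v) (((Es.erase x).erase y) \ F) b)) ∨
        (NE ∧ b ∈ Y)) := by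
  have s1 : ((Es.erase x).erase y) \ F ⊆ Es \ F :=
    sdiff_subset_sdiff ((erase_subset _ _).trans (erase_subset _ _)) Subset.rfl
  have s2 : (((Es.erase x).erase y) \ F) \ Φ ⊆ (Es \ F) \ Φ := sdiff_subset_sdiff s1 Subset.rfl
  by_cases h1 : NE → (G.map (ctr v b')).SpB (X.erase v) (((Es.erase x).erase y) \ F) b
  · obtain ⟨hz, Y, hY, vY, bY, cY, c2, k⟩ :=
      N.badA hs (sdiff_subset.trans sdiff_subset) s2 (fun h => hb ⟨h, h1⟩)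
    exact ⟨Y, hY, vY, bY, cY, c2, hst_crit k (s2.trans sdiff_subset),
      Or.inl ⟨(mem_sdiff.1 hz).2, hst_crit k s2, h1⟩⟩
  · rw [Classical.not_imp] at h1
    obtain ⟨-, Y, hY, vY, rY, bY, cY, c2, k⟩ := N.badB (hB h1.1) sdiff_subset s1 h1.2
    exact ⟨Y, hY, vY, bY, cY, c2, hst_crit k s1, Or.inr ⟨h1.1, rY⟩⟩

/-- the critical sets of two bad classes meet in one point -/
theorem Node.hst_two (N : G.Node Es v x y z a' b' c') {NE A : Prop} {L : Finset ℕ}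
    (hp : G.St X Es p) (hs : G.SpA X U) (hB : NE → G.SpB X L b) (hUL : U ⊆ L) (hL : L ⊆ Es)
    (hx : x ∈ L) (hy : y ∈ L) (hz : z ∈ L) (hA : A → x ∈ U ∧ y ∈ U ∧ z ∈ U)
    (hY : Y ⊆ X) (hZ : Z ⊆ X) (vY : v ∉ Y) (vZ : v ∉ Z) (bY : b' ∈ Y) (cY : c' ∈ Y)
    (aZ : a' ∈ Z) (cZ : c' ∈ Z) (k1 : G.Crit L Y) (k2 : G.Crit L Z)
    (d1 : (A ∧ G.Crit U Y) ∨ (NE ∧ b ∈ Y)) (d2 : (A ∧ G.Crit U Z) ∨ (NE ∧ b ∈ Z)) :
    ∀ w ∈ Y, w ∈ Z → w = c' := by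
  have mx := N.jx.mem hp.within N.hx
  rcases d1 with d1 | d1
  · rcases d2 with d2 | d2
    · obtain ⟨h1, h2, h3⟩ := hA d1.1
      exact N.two_badA hs h1 h2 h3 mx.1 hY hZ vY vZ bY cY aZ cZ d1.2 d2.2
    · exact N.two_badB hp hs (hB d2.1) hUL hL hx hy hz hY hZ vY vZ bY cY aZ cZ k1 k2
        (Or.inr d2.2) (Or.inr (Or.inl d1.2))
  · refine N.two_badB hp hs (hB d1.1) hUL hL hx hy hz hY hZ vY vZ bY cY aZ cZ k1 k2
      (Or.inl d1.2) ?_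
    rcases d2 with d2 | d2
    · exact Or.inr (Or.inr d2.2)
    · exact Or.inl ⟨d1.2, d2.2⟩

/-- three bad classes are impossible -/
theorem Node.hst_three (N : G.Node Es v x y z a' b' c') {NE : Prop} {L W : Finset ℕ}
    (hp : G.St X Es p) (hs : G.SpA X U) (hB : NE → G.SpB X L b) (hUL : U ⊆ L) (hL : L ⊆ Es)
    (hx : x ∈ U) (hy : y ∈ U) (hz : z ∈ U) (hab : a' ≠ b') (hac : a' ≠ c') (hbc : b' ≠ c')
    (hY : Y ⊆ X) (hZ : Z ⊆ X) (hW : W ⊆ X) (vY : v ∉ Y) (vZ : v ∉ Z) (vW : v ∉ W)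
    (bY : b' ∈ Y) (cY : c' ∈ Y) (aZ : a' ∈ Z) (cZ : c' ∈ Z) (aW : a' ∈ W) (bW : b' ∈ W)
    (k1 : G.Crit L Y) (k2 : G.Crit L Z) (k3 : G.Crit L W)
    (d1 : G.Crit U Y ∨ (NE ∧ b ∈ Y)) (d2 : G.Crit U Z ∨ (NE ∧ b ∈ Z))
    (d3 : G.Crit U W ∨ (NE ∧ b ∈ W)) : False := by
  have mx := N.jx.mem hp.within N.hx
  have e1 : (True ∧ G.Crit U Y) ∨ (NE ∧ b ∈ Y) := by simpa using d1
  have e2 : (True ∧ G.Crit U Z) ∨ (NE ∧ b ∈ Z) := by simpa using d2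
  have e3 : (True ∧ G.Crit U W) ∨ (NE ∧ b ∈ W) := by simpa using d3
  have i1 := N.hst_two hp hs hB hUL hL (hUL hx) (hUL hy) (hUL hz) (fun _ => ⟨hx, hy, hz⟩)
    hY hZ vY vZ bY cY aZ cZ k1 k2 e1 e2
  have i2 := N.s23.hst_two hp hs hB hUL hL (hUL hx) (hUL hz) (hUL hy) (fun _ => ⟨hx, hz, hy⟩)
    hY hW vY vW cY bY aW bW k1 k3 e1 e3
  have i3 := N.s12.s23.hst_two hp hs hB hUL hL (hUL hy) (hUL hz) (hUL hx)
    (fun _ => ⟨hy, hz, hx⟩) hZ hW vZ vW cZ aZ bW aW k2 k3 e2 e3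
  have hloop : ∀ e ∈ Es, G.s e ≠ G.t e := fun e he => hp.ne he (G.joins_st e)
  have sub : insert v (Y ∪ Z ∪ W) ⊆ X := insert_subset mx.1 (union_subset (union_subset hY hZ) hW)
  have c2 : 2 ≤ (insert v (Y ∪ Z ∪ W)).card := by
    rw [← card_pair hab]
    refine card_le_card fun g hg => ?_
    simp only [mem_insert, mem_singleton, mem_union] at hg ⊢
    rcases hg with rfl | rfl
    · simp [aW]
    · simp [bW]
  by_cases hb : NE ∧ b ∈ Y ∪ Z ∪ W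
  · have h1 := N.three_crit (hUL hx) (hUL hy) (hUL hz) (fun e he => hloop e (hL he)) vY vZ vW
      bY cY aZ cZ aW bW hab hac hbc i1 i2 i3
    have h2 := hB hb.1 _ sub (mem_insert_of_mem hb.2) c2
    unfold Crit at k1 k2 k3
    omega
  · have h1 := N.three_crit hx hy hz (fun e he => hloop e (hL (hUL he))) vY vZ vW
      bY cY aZ cZ aW bW hab hac hbc i1 i2 i3
    have h2 := hs _ sub c2
    simp only [mem_union, not_and, not_or] at hb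
    have f1 : G.Crit U Y := d1.resolve_right fun h => (hb h.1).1.1 h.2
    have f2 : G.Crit U Z := d2.resolve_right fun h => (hb h.1).1.2 h.2
    have f3 : G.Crit U W := d3.resolve_right fun h => (hb h.1).2 h.2
    unfold Crit at f1 f2 f3
    omega

theorem Node.hst_aux (hF : FLn n) (hC : CONNn n) (hn : X.card ≤ n + 1) (H : G.HS X Es φ ψ a b c)
    (N : G.Node Es v x y z a' b' c') (hv : v ∉ ({a, b, c} : Finset ℕ)) (hp : G.St X Es p)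
    (hs : G.SpA X ((Es \ {φ, ψ}) \ Φ)) (hB : G.NEm φ ψ b c p → G.SpB X (Es \ {φ, ψ}) b)
    (ht : Ty x y z p) (hto : G.VTo x y z a' b' p) :
    G.Flips X Es {φ, ψ} {a, b, c} Φ p ∨ ∃ q, G.AReach X Es {φ, ψ} {a, b, c} p q ∧
      G.AGood X Es φ ψ b c Φ v q := by
  have hW := hp.within
  have mx := N.jx.mem hW N.hx
  have xF := H.not_inc hv N.jx.inc
  have yF := H.not_inc hv N.jy.inc
  have zF := H.not_inc hv N.jz.inc
  obtain ⟨q, hq, ht', -, hpq⟩ := N.avstep hv xF yF hp ht hto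
  have fl := Ty.flip hp hq.2.1 ht ht' (hpq z N.xz.symm N.yz.symm)
  by_cases hx : x ∈ Φ
  · exact Or.inl ⟨q, hq.reach, x, hx, fl.1⟩
  by_cases hy : y ∈ Φ
  · exact Or.inl ⟨q, hq.reach, y, hy, fl.2⟩
  have xL : x ∈ Es \ {φ, ψ} := mem_sdiff.2 ⟨N.hx, xF⟩
  have yL : y ∈ Es \ {φ, ψ} := mem_sdiff.2 ⟨N.hy, yF⟩
  have zL : z ∈ Es \ {φ, ψ} := mem_sdiff.2 ⟨N.hz, zF⟩
  have xU : x ∈ (Es \ {φ, ψ}) \ Φ := mem_sdiff.2 ⟨xL, hx⟩
  have yU : y ∈ (Es \ {φ, ψ}) \ Φ := mem_sdiff.2 ⟨yL, hy⟩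
  have hbc := N.ty_ne hp ht
  have hac := N.s12.ty_ne hq.2.1 ht'
  have hab : a' ≠ b' := hs.ne xU yU N.xy N.jx N.jy mx.1 mx.2 N.av
  have ne1 : ∀ {w}, G.AReach X Es {φ, ψ} {a, b, c} p w → G.NEm φ ψ b c w → G.NEm φ ψ b c p :=
    fun h => hst_nem h.agree
  by_cases g1 : (G.map (ctr v b')).SpA (X.erase v) ((((Es.erase x).erase y) \ {φ, ψ}) \ Φ) ∧
      (G.NEm φ ψ b c p → (G.map (ctr v b')).SpB (X.erase v) (((Es.erase x).erase y) \ {φ, ψ}) b)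
  · exact Or.inr ⟨p, AReach.refl _, x, y, z, a', b', c', N, ht, hx, hy, hab, hac, g1⟩
  by_cases g2 : (G.map (ctr v a')).SpA (X.erase v) ((((Es.erase y).erase x) \ {φ, ψ}) \ Φ) ∧
      (G.NEm φ ψ b c p → (G.map (ctr v a')).SpB (X.erase v) (((Es.erase y).erase x) \ {φ, ψ}) b)
  · exact Or.inr ⟨q, hq.reach, y, x, z, b', a', c', N.s12, ht', hy, hx, hab.symm, hbc, g2.1,
      fun h => g2.2 (ne1 hq.reach h)⟩
  obtain ⟨Y, hY, vY, bY, cY, c1, k1, d1⟩ := N.hst_bad hs hB g1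
  obtain ⟨Z, hZ, vZ, aZ, cZ, c2, k2, d2⟩ := N.s12.hst_bad hs hB g2
  have i1 := N.hst_two (A := z ∉ Φ) hp hs hB sdiff_subset sdiff_subset xL yL zL
    (fun h => ⟨xU, yU, mem_sdiff.2 ⟨zL, h⟩⟩) hY hZ vY vZ bY cY aZ cZ k1 k2
    (d1.imp (fun h => ⟨h.1, h.2.1⟩) id) (d2.imp (fun h => ⟨h.1, h.2.1⟩) id)
  have cl1 : G.Flips X Es {φ, ψ} {a, b, c} Φ p ∨ ∃ q w, G.AReach X Es {φ, ψ} {a, b, c} p q ∧
      G.AStep X Es {φ, ψ} {a, b, c} q w ∧ Ty z x y w ∧ ¬ (z ∈ q.1 ↔ z ∈ w.1) := by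
    rcases d1 with d1 | d1
    · exact N.hst_one hF hn H hv hp hs ht hx hy hab hac d1.2.2 hY vY vZ bY cY aZ cZ c1 k1 k2 i1
    rcases d2 with d2 | d2
    · rcases N.s12.hst_one hF hn H hv hq.2.1 hs ht' hy hx hab.symm hbc
        (fun h => d2.2.2 (ne1 hq.reach h)) hZ vZ vY aZ cZ bY cY c2 k2 k1
        (fun w h1 h2 => i1 w h2 h1) with ⟨w, h1, g, hg, h2⟩ | ⟨u, w, h1, h2, h3, h4⟩
      · refine Or.inl ⟨w, hq.reach.trans h1, g, hg, ?_⟩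
        rw [← hpq g (by rintro rfl; exact hx hg) (by rintro rfl; exact hy hg)]
        exact h2
      · exact Or.inr ⟨u, w, hq.reach.trans h1, h2, h3.s23, h4⟩
    rcases N.stepB hF hC hn H hv hp hs d1.1 (hB d1.1) hx hy hac ht hto hY vY d1.2 bY cY k1 hZ vZ
      d2.2 aZ cZ k2 with h | ⟨u, h1, h2, h3⟩
    · exact Or.inl h
    · obtain ⟨w, m⟩ := N.hst_into hv xF zF (h1.st hp) h2 h3
      exact Or.inr ⟨u, w, h1, m⟩
  rcases cl1 with h | ⟨u, w, h1, h2, h3, h4⟩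
  · exact Or.inl h
  by_cases hz : z ∈ Φ
  · by_cases h5 : z ∈ p.1 ↔ z ∈ u.1
    · exact Or.inl ⟨w, h1.trans h2.reach, z, hz, fun h => h4 (h5.symm.trans h)⟩
    · exact Or.inl ⟨u, h1, z, hz, h5⟩
  by_cases g3 : (G.map (ctr v a')).SpA (X.erase v) ((((Es.erase z).erase x) \ {φ, ψ}) \ Φ) ∧
      (G.NEm φ ψ b c p → (G.map (ctr v a')).SpB (X.erase v) (((Es.erase z).erase x) \ {φ, ψ}) b)
  · exact Or.inr ⟨w, h1.trans h2.reach, z, x, y, c', a', b', N.s23.s12, h3, hz, hx, hac.symm,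
      hbc.symm, g3.1, fun h => g3.2 (ne1 (h1.trans h2.reach) h)⟩
  obtain ⟨W, hW', vW, aW, bW, -, k3, d3⟩ := N.s23.s12.hst_bad hs hB g3
  exact (N.hst_three hp hs hB sdiff_subset sdiff_subset xU yU (mem_sdiff.2 ⟨zL, hz⟩) hab hac hbc
    hY hZ hW' vY vZ vW bY cY aZ cZ aW bW k1 k2 k3 (d1.imp (fun h => h.2.1) id)
    (d2.imp (fun h => h.2.1) id) (d3.imp (fun h => h.2.1) id)).elim

theorem Node.astep (hF : FLn n) (hC : CONNn n) (hn : X.card ≤ n + 1) (H : G.HS X Es φ ψ a b c)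
    (N : G.Node Es v x y z a' b' c') (hv : v ∉ ({a, b, c} : Finset ℕ)) (hp : G.St X Es p)
    (hs : G.SpA X ((Es \ {φ, ψ}) \ Φ)) (hB : G.NEm φ ψ b c p → G.SpB X (Es \ {φ, ψ}) b) :
    G.Flips X Es {φ, ψ} {a, b, c} Φ p ∨ ∃ q, G.AReach X Es {φ, ψ} {a, b, c} p q ∧
      G.AGood X Es φ ψ b c Φ v q := by
  have key : ∀ {x y z a' b' c'}, G.Node Es v x y z a' b' c' → Ty x y z p →
      G.Flips X Es {φ, ψ} {a, b, c} Φ p ∨ ∃ q, G.AReach X Es {φ, ψ} {a, b, c} p q ∧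
        G.AGood X Es φ ψ b c Φ v q := by
    intro x y z a' b' c' N ht
    rcases N.vto_or hp ht with h | h
    · exact N.hst_aux hF hC hn H hv hp hs hB ht h
    · exact N.s23.hst_aux hF hC hn H hv hp hs hB ht.s23 h
  rcases N.cases hp with h | h | h
  · exact key N h
  · exact key N.s12 h
  · exact key N.s23.s12 h

end Gr

end Pool.Agent.P.MP_3f5ce9_co
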