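import Pool.Agent.P.MP_3f5ce9_co.W.HWhole
import Pool.Agent.P.MP_3f5ce9_co.W.HStep
import Pool.Agent.P.MP_3f5ce9_co.W.HDeg

/-!
The flip lemma and the connectivity theorem.
-/

open Finset

namespace Pool.Agent.P.MP_3f5ce9_co

namespace Gr

variable {G : Gr ℕ ℕ} {X Y Z P P' Es F U U' A Φ : Finset ℕ} {p q α β σ σ' τ τ' : Finset ℕ × Finset ℕ}
  {u u' w w' v r a b c a' b' c' e f g x y z φ ψ n : ℕ}

theorem fl_step (hF : FLn n) (hC : CONNn n) : FLn (n + 1) := by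
  intro G X Es φ ψ a b c Φ p hn H hp hs ht hB
  by_cases hd : ∀ v ∈ X, v ∉ ({a, b, c} : Finset ℕ) → 4 ≤ G.deg Es v
  · exact H.fl_deg hF hn hp hs ht hB hd
  push Not at hd
  obtain ⟨v, hvX, hv, hd⟩ := hd
  have hn' : (X.erase v).card ≤ n := by rw [card_erase_of_mem hvX]; omega
  have hav : a ≠ v := by rintro rfl; exact hv (by simp)
  rcases hp.node hvX H.ma hav hd with ⟨x, y, a', b', N, hx, hy⟩ | ⟨x, y, z, a', b', c', N⟩
  · obtain ⟨S, T⟩ := p
    have xF := H.not_inc hv N.jx.inc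
    have yF := H.not_inc hv N.jy.inc
    have h1 := N.down hp hx hy
    have h2 := N.avmove hp.within hv xF yF h1
    rw [insert_erase hx, insert_erase hy] at h2
    have hyS := fun h => hp.disj y h hy
    have hxy := N.xy
    simp only at hx hy hyS
    by_cases hxΦ : x ∈ Φ
    · exact ⟨_, h2.reach, x, hxΦ, by simp [hx, hxy]⟩
    by_cases hyΦ : y ∈ Φ
    · exact ⟨_, h2.reach, y, hyΦ, by simp only [mem_insert]; grind⟩
    have mx := N.jx.mem hp.within N.hx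
    have hab := hs.ne (mem_sdiff.2 ⟨mem_sdiff.2 ⟨N.hx, xF⟩, hxΦ⟩)
      (mem_sdiff.2 ⟨mem_sdiff.2 ⟨N.hy, yF⟩, hyΦ⟩) N.xy N.jx N.jy mx.1 mx.2 N.av
    have hsub : ((Es.erase x).erase y) \ {φ, ψ} ⊆ Es \ {φ, ψ} :=
      sdiff_subset_sdiff ((erase_subset _ _).trans (erase_subset _ _)) Subset.rfl
    obtain ⟨q, hq, g, hg, hf⟩ := hF G _ _ φ ψ a b c Φ _ hn' (H.node2 hv N) h1
      (hs.mono (sdiff_subset_sdiff hsub Subset.rfl) (erase_subset _ _)) (by
        have := N.tight sdiff_subset hp hab ht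
        rwa [erase_sdiff_comm, erase_sdiff_comm]) fun k Y hY k1 k2 => by
        have k3 := hB ⟨k.1, by
          have := k.2
          simp only [mem_erase, mem_insert, mem_singleton] at this xF ⊢
          grind⟩ Y (hY.trans (erase_subset _ _)) k1 k2
        have := card_le_card (ind_mono (G := G) hsub (Subset.refl Y))
        omega
    have h3 := N.alift hp.within hv xF yF hab hq
    simp only [insert_erase hx, insert_erase hy] at h3
    refine ⟨_, h3, g, hg, ?_⟩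
    simp only [mem_insert, mem_erase] at hf ⊢
    grind
  · rcases N.astep hF hC hn H hv hp hs hB with h | ⟨q, hq, h⟩
    · exact h
    obtain ⟨x, y, z, a', b', c', N, tq, hx, hy, hab, hac, hs', hB'⟩ := h
    have xF := H.not_inc hv N.jx.inc
    have yF := H.not_inc hv N.jy.inc
    have zF := H.not_inc hv N.jz.inc
    have hq' := hq.st hp
    obtain ⟨q', h1, rfl⟩ := N.down hq' tq
    obtain ⟨H', j, -⟩ := H.node hv N
    obtain ⟨q'', h3, g, hg, hf⟩ := hF _ _ _ φ ψ a b c Φ _ hn' H' h1 hs'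
      (N.tight hq' tq zF hab hac ht) fun k => hB' ⟨j.1 k.1, by
        simp only [mem_insert, mem_singleton, not_or] at xF yF
        rw [mem_up (Ne.symm xF.1) (Ne.symm yF.1), mem_up (Ne.symm xF.2) (Ne.symm yF.2)]
        exact k.2⟩
    have h4 := N.alift hp.within hv xF yF zF hab hac h3
    by_cases h5 : g ∈ p.1 ↔ g ∈ (up x y z q').1
    · refine ⟨_, hq.trans h4, g, hg, ?_⟩
      have k1 : g ≠ x := by rintro rfl; exact hx hg
      have k2 : g ≠ y := by rintro rfl; exact hy hg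
      rw [h5, mem_up k1 k2, mem_up k1 k2]
      exact hf
    · exact ⟨_, hq, g, hg, h5⟩

/-- the two states have the same invariants -/
def HmSame (G : Gr ℕ ℕ) (X Es : Finset ℕ) (φ ψ a b c : ℕ) (p q : Finset ℕ × Finset ℕ) : Prop :=
  Agree {φ, ψ} p q ∧ (G.Joins ψ a b → G.BP X (Es \ {φ, ψ}) a b c →
    (G.Conn (p.1 \ {φ, ψ}) c a ↔ G.Conn (q.1 \ {φ, ψ}) c a))

theorem HmSame.symm (h : G.HmSame X Es φ ψ a b c p q) : G.HmSame X Es φ ψ a b c q p :=
  ⟨fun g hg => (h.1 g hg).symm, fun h1 h2 => (h.2 h1 h2).symm⟩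

theorem HmSame.trans (h : G.HmSame X Es φ ψ a b c p q) (h' : G.HmSame X Es φ ψ a b c q α) :
    G.HmSame X Es φ ψ a b c p α :=
  ⟨fun g hg => (h.1 g hg).trans (h'.1 g hg), fun h1 h2 => (h.2 h1 h2).trans (h'.2 h1 h2)⟩

theorem HS.hm_same (H : G.HS X Es φ ψ a b c) (hs : G.SpA X (Es \ {φ, ψ}))
    (h : G.AReach X Es {φ, ψ} {a, b, c} p q) : G.HmSame X Es φ ψ a b c p q :=
  ⟨h.agree, fun h1 h2 => H.chi_reach h1 hs h2 h⟩

theorem hm_end (h : G.Joins x v w) (hw : w ≠ v) (h' : G.Joins x v u) : u = w := by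
  unfold Joins at *
  grind

theorem Node.hm_cls (hF : FLn n) (hC : CONNn n) (hn : X.card ≤ n + 1) (H : G.HS X Es φ ψ a b c)
    (N : G.Node Es v x y z a' b' c') (hv : v ∉ ({a, b, c} : Finset ℕ))
    (hs : G.SpA X (Es \ {φ, ψ})) (hg : G.GoodC X (Es \ {φ, ψ}) v b' c') (hp : G.St X Es p)
    (hq : G.St X Es q) (tp : Ty x y z p) (tq : Ty x y z q) (sm : G.HmSame X Es φ ψ a b c p q) :
    G.AReach X Es {φ, ψ} {a, b, c} p q := by
  by_cases h : G.Joins ψ a b ∧ G.BP X (Es \ {φ, ψ}) a b c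
  · exact N.class_conn hC hn H hv hs hg hp hq tp tq sm.1 fun _ _ => sm.2 h.1 h.2
  · exact N.whole hF hC hn H hv hs (fun h1 h2 => h ⟨h1, h2⟩) hg p q hp hq tp tq sm.1

theorem Node.hm_cross (hF : FLn n) (hC : CONNn n) (hn : X.card ≤ n + 1) (H : G.HS X Es φ ψ a b c)
    (N : G.Node Es v x y z a' b' c') (hv : v ∉ ({a, b, c} : Finset ℕ))
    (hs : G.SpA X (Es \ {φ, ψ})) (hg : G.GoodC X (Es \ {φ, ψ}) v b' c')
    (hg' : G.GoodC X (Es \ {φ, ψ}) v b' a') (hp : G.St X Es p)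
    (hq : G.St X Es q) (tp : Ty x y z p) (tq : Ty z y x q) (sm : G.HmSame X Es φ ψ a b c p q) :
    G.AReach X Es {φ, ψ} {a, b, c} p q := by
  have hx := H.not_inc hv N.jx.inc
  have hy := H.not_inc hv N.jy.inc
  have hz := H.not_inc hv N.jz.inc
  have Nz := N.s23.s12.s23
  rcases N.vto_or hp tp with vp | vp
  swap
  · obtain ⟨p2, m, t, -⟩ := N.s23.avstep hv hx hz hp tp.s23 vp
    exact m.reach.trans (Nz.hm_cls hF hC hn H hv hs hg' m.2.1 hq t.s23 tq
      ((H.hm_same hs m.reach).symm.trans sm))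
  rcases Nz.vto_or hq tq with vq | vq
  swap
  · obtain ⟨q2, m, t, -⟩ := Nz.s23.avstep hv hz hx hq tq.s23 vq
    exact (N.hm_cls hF hC hn H hv hs hg hp m.2.1 tp t.s23
      (sm.trans (H.hm_same hs m.reach))).trans m.reach.symm
  by_cases gy : G.GoodC X (Es \ {φ, ψ}) v a' c'
  · obtain ⟨p2, m, t, -⟩ := N.avstep hv hx hy hp tp vp
    obtain ⟨q2, m', t', -⟩ := Nz.avstep hv hz hy hq tq vq
    exact m.reach.trans ((N.s12.hm_cls hF hC hn H hv hs gy m.2.1 m'.2.1 t t'.s23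
      ((H.hm_same hs m.reach).symm.trans (sm.trans (H.hm_same hs m'.reach)))).trans m'.reach.symm)
  have fin : ∀ α β, G.St X Es α → Ty x y z α → Ty z y x β → G.HmSame X Es φ ψ a b c α p →
      G.AReach X Es {φ, ψ} {a, b, c} α β → G.AReach X Es {φ, ψ} {a, b, c} p q :=
    fun α β h1 h2 h3 h4 h5 => (N.hm_cls hF hC hn H hv hs hg hp h1 tp h2 h4.symm).trans
      (h5.trans (Nz.hm_cls hF hC hn H hv hs hg' (h5.st h1) hq h3 tq
        ((H.hm_same hs h5).symm.trans (h4.trans sm))))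
  obtain ⟨α, β, h1, h2, h3, h4, h5⟩ := N.alink hF hn H hv hs hp hq sm.1 tp vp tq vq gy
  by_cases k : G.Joins ψ a b → G.BP X (Es \ {φ, ψ}) a b c →
      (G.Conn (α.1 \ {φ, ψ}) c a ↔ G.Conn (p.1 \ {φ, ψ}) c a)
  · exact fin α β h1 h2 h3 ⟨h4, k⟩ h5
  rw [Classical.not_imp, Classical.not_imp] at k
  obtain ⟨k1, k2, k3⟩ := k
  obtain ⟨i1, i2, i3, -⟩ := H.st_iota k1 h1
  refine fin _ _ i1 (h2.iota hx hy hz) (h3.iota hz hy hx)
    ⟨fun g hg => (i2 g hg).trans (h4 g hg), fun _ _ => ?_⟩ (H.areach_iota k1 h5)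
  have := H.chi_xor k1 h1 hs k2
  rw [i3]
  grind

theorem Node.conn (hF : FLn n) (hC : CONNn n) (hn : X.card ≤ n + 1) (H : G.HS X Es φ ψ a b c)
    (N : G.Node Es v x y z a' b' c') (hv : v ∉ ({a, b, c} : Finset ℕ))
    (hs : G.SpA X (Es \ {φ, ψ})) (hp : G.St X Es p) (hq : G.St X Es q) (hpq : Agree {φ, ψ} p q)
    (hχ : G.Joins ψ a b → G.BP X (Es \ {φ, ψ}) a b c →
      (G.Conn (p.1 \ {φ, ψ}) c a ↔ G.Conn (q.1 \ {φ, ψ}) c a)) :
    G.AReach X Es {φ, ψ} {a, b, c} p q := by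
  have key : ∀ p, G.St X Es p → ∃ p1, G.AReach X Es {φ, ψ} {a, b, c} p p1 ∧ ∃ x y z a' b' c',
      G.Node Es v x y z a' b' c' ∧ Ty x y z p1 ∧ G.GoodC X (Es \ {φ, ψ}) v b' c' := by
    intro p hp
    rcases N.astep (Φ := ∅) hF hC hn H hv hp (by rwa [sdiff_empty]) fun _ => hs.spB with
      ⟨_, -, g, hg, -⟩ | ⟨q, hq, x, y, z, a', b', c', N', tq, -, -, -, -, hs', -⟩
    · exact absurd hg (notMem_empty g)
    · rw [sdiff_empty] at hs'
      exact ⟨q, hq, x, y, z, a', b', c', N', tq,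
        (N'.goodC_iff hs (H.not_inc hv N'.jz.inc) (N'.ty_ne (hq.st hp) tq)).1 hs'⟩
  obtain ⟨p1, r1, x, y, z, a', b', c', N1, t1, g1⟩ := key p hp
  obtain ⟨q1, r2, x2, y2, z2, a2, b2, c2, N2, t2, g2⟩ := key q hq
  have hp1 := r1.st hp
  have hq1 := r2.st hq
  have sm : G.HmSame X Es φ ψ a b c p1 q1 :=
    (H.hm_same hs r1).symm.trans (HmSame.trans ⟨hpq, hχ⟩ (H.hm_same hs r2))
  refine r1.trans (AReach.trans ?_ r2.symm)
  have ex := N1.all x2 N2.hx N2.jx.inc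
  have ey := N1.all y2 N2.hy N2.jy.inc
  have ez := N1.all z2 N2.hz N2.jz.inc
  have xy := N2.xy
  have xz := N2.xz
  have yz := N2.yz
  have e1 := fun u => hm_end (u := u) N1.jx N1.av
  have e2 := fun u => hm_end (u := u) N1.jy N1.bv
  have e3 := fun u => hm_end (u := u) N1.jz N1.cv
  have j2 := N2.jy
  have j3 := N2.jz
  rcases ex with rfl | rfl | rfl <;> rcases ey with rfl | rfl | rfl <;>
    rcases ez with rfl | rfl | rfl <;> try contradiction
  · exact N1.hm_cls hF hC hn H hv hs g1 hp1 hq1 t1 t2 sm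
  · exact N1.hm_cls hF hC hn H hv hs g1 hp1 hq1 t1 t2.s23 sm
  · rw [e1 _ j2, e3 _ j3] at g2
    exact N1.s23.hm_cross hF hC hn H hv hs g1.symm g2.symm hp1 hq1 t1.s23 t2.s23 sm
  · rw [e3 _ j2, e1 _ j3] at g2
    exact N1.s23.hm_cross hF hC hn H hv hs g1.symm g2 hp1 hq1 t1.s23 t2 sm
  · rw [e1 _ j2, e2 _ j3] at g2
    exact N1.hm_cross hF hC hn H hv hs g1 g2.symm hp1 hq1 t1 t2.s23 sm
  · rw [e2 _ j2, e1 _ j3] at g2
    exact N1.hm_cross hF hC hn H hv hs g1 g2 hp1 hq1 t1 t2 sm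

theorem Node2.hm_two (hC : CONNn n) (hn : X.card ≤ n + 1) (H : G.HS X Es φ ψ a b c)
    (N : G.Node2 Es v x y a' b') (hv : v ∉ ({a, b, c} : Finset ℕ))
    (hs : G.SpA X (Es \ {φ, ψ})) (hp : G.St X Es p) (hq : G.St X Es q) (xp : x ∈ p.1) (yp : y ∈ p.2)
    (xq : x ∈ q.1) (yq : y ∈ q.2) (sm : G.HmSame X Es φ ψ a b c p q) :
    G.AReach X Es {φ, ψ} {a, b, c} p q := by
  obtain ⟨S, T⟩ := p
  obtain ⟨S', T'⟩ := q
  have xF := H.not_inc hv N.jx.inc
  have yF := H.not_inc hv N.jy.inc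
  have mx := N.jx.mem hp.within N.hx
  have h1 := N.down hp xp yp
  have h2 := N.down hq xq yq
  have hsub : ((Es.erase x).erase y) \ {φ, ψ} ⊆ Es \ {φ, ψ} :=
    sdiff_subset_sdiff ((erase_subset _ _).trans (erase_subset _ _)) Subset.rfl
  have ag : ∀ g ∈ ({φ, ψ} : Finset ℕ), g ∈ S.erase x ↔ g ∈ S'.erase x := fun g hg => by
    simp only [mem_erase]
    exact and_congr_right fun _ => sm.1 g hg
  have h3 := N.alift hp.within hv xF yF (hs.ne (mem_sdiff.2 ⟨N.hx, xF⟩) (mem_sdiff.2 ⟨N.hy, yF⟩)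
    N.xy N.jx N.jy mx.1 mx.2 N.av) (hC G _ _ φ ψ a b c _ _
      (by rw [card_erase_of_mem mx.1]; omega) (H.node2 hv N) h1 h2 (hs.mono hsub (erase_subset _ _))
      (ag φ (by simp)) (ag ψ (by simp)) fun k1 k2 => by
        simp only [mem_insert, mem_singleton, not_or] at hv
        have k3 := N.conn_up (F := {φ, ψ}) (fun g hg => (h1.cov g).2 (Or.inl hg)) (Ne.symm hv.2.2)
          (Ne.symm hv.1)
        have k4 := N.conn_up (F := {φ, ψ}) (fun g hg => (h2.cov g).2 (Or.inl hg)) (Ne.symm hv.2.2)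
          (Ne.symm hv.1)
        simp only at xp xq
        simp only [insert_erase xp, insert_erase xq] at k3 k4
        rw [← k3, ← k4]
        exact sm.2 k1 (k2.mono (erase_subset _ _) hsub))
  simp only at xp yp xq yq
  simpa only [insert_erase xp, insert_erase yp, insert_erase xq, insert_erase yq] using h3

theorem conn_step (hF : FLn n) (hC : CONNn n) : CONNn (n + 1) := by
  intro G X Es φ ψ a b c p q hn H hp hq hs h1 h2 hχ
  have hpq : Agree {φ, ψ} p q := fun g hg => by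
    rcases mem_insert.1 hg with rfl | hg
    · exact h1
    · rw [mem_singleton.1 hg]
      exact h2
  by_cases hd : ∀ v ∈ X, v ∉ ({a, b, c} : Finset ℕ) → 4 ≤ G.deg Es v
  · rw [H.conn_deg hp hq hs hpq hχ hd]
    exact AReach.refl _
  push Not at hd
  obtain ⟨v, hvX, hv, hd⟩ := hd
  have hav : a ≠ v := by rintro rfl; exact hv (by simp)
  rcases hp.node hvX H.ma hav hd with ⟨x, y, a', b', N, hx, hy⟩ | ⟨x, y, z, a', b', c', N⟩
  swap
  · exact N.conn hF hC hn H hv hs hp hq hpq hχ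
  obtain ⟨S, T⟩ := q
  rcases N.cases hq with k | k
  · exact N.hm_two hC hn H hv hs hp hq hx hy k.1 k.2 ⟨hpq, hχ⟩
  · have k1 := N.symm.down hq k.1 k.2
    have k2 := N.symm.avmove hp.within hv (H.not_inc hv N.jy.inc) (H.not_inc hv N.jx.inc) k1
    rw [insert_erase k.1, insert_erase k.2] at k2
    exact (N.hm_two hC hn H hv hs hp k2.2.1 hx hy (mem_insert_self _ _) (mem_insert_self _ _)
      (HmSame.trans ⟨hpq, hχ⟩ (H.hm_same hs k2.reach))).trans k2.reach.symm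

theorem conn_all (n : ℕ) : CONNn n := by
  have key : FLn n ∧ CONNn n := by
    induction n with
    | zero =>
      refine ⟨fun G X Es φ ψ a b c Φ p hn H => ?_, fun G X Es φ ψ a b c p q hn H => ?_⟩
      all_goals
        have := card_pos.2 ⟨a, H.ma⟩
        omega
    | succ n ih => exact ⟨fl_step ih.1 ih.2, conn_step ih.1 ih.2⟩
  exact key.2

end Gr

end Pool.Agent.P.MP_3f5ce9_co
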