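import Pool.Agent.P.MP_3f5ce9_co.W.HSwap
import Pool.Agent.P.MP_3f5ce9_co.W.HLift

/-!
The step lemma when both classes are bad at the middle root.
-/

open Finset

namespace Pool.Agent.P.MP_3f5ce9_co

namespace Gr

variable {G : Gr ℕ ℕ} {X Y Z P P' Es F U U' A Φ : Finset ℕ} {p q α β σ σ' τ τ' : Finset ℕ × Finset ℕ}
  {u u' w w' v r a b c a' b' c' e f g x y z φ ψ n : ℕ}

theorem sb_core {W : Finset ℕ} (hF : FLn n) (hC : CONNn n) (hn : X.card ≤ n)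
    (H : G.HS X Es φ ψ a b c) (hj : G.Joins ψ b c) (hp : G.St X Es p) (hne : ¬ (φ ∈ p.1 ↔ ψ ∈ p.1))
    (hW : W ⊆ X) (bW : b ∈ W) (tW : G.Tight (Es \ {φ, ψ}) W)
    (hmax : ∀ Y ⊆ X, b ∈ Y → G.Tight (Es \ {φ, ψ}) Y → Y ⊆ W)
    (hs : ∀ Y ⊆ X \ W, 2 ≤ Y.card → (G.ind ((Es \ {φ, ψ}) \ Φ) Y).card + 3 ≤ 2 * Y.card)
    (hZ : Z ⊆ X) (bZ : b ∈ Z) (iZ : ∀ w ∈ Z, w ∈ W → w = b) (aZ : a' ∈ Z)
    (cZ : (G.ind Es Z).card + 3 = 2 * Z.card) (c1 : (G.ind p.1 Z).card + 1 = Z.card)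
    (dZ : Disjoint {φ, ψ} (G.ind Es Z)) (hn2 : ¬ G.Conn (G.ind p.2 Z) a' b) (hb' : b' ∈ W)
    (hc : G.Conn (p.2 \ {φ, ψ}) a' b') :
    G.Flips X Es {φ, ψ} {a, b, c} Φ p ∨ ∃ q, G.AReach X Es {φ, ψ} {a, b, c} p q ∧
      (∀ g ∈ G.ind Es W, g ∈ q.1 ↔ g ∈ p.1) ∧ G.Conn (G.ind q.2 Z) a' b := by
  have hE := hp.within
  have hLE : Es \ {φ, ψ} ⊆ Es := sdiff_subset
  have fro : ∀ g ∈ ({φ, ψ} : Finset ℕ), g ∉ G.ind Es W := by
    intro g hg hi
    have := hp.ind_add_le (F := {g}) hLE (singleton_subset_iff.2 hi)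
      (disjoint_singleton_right.2 fun h => (mem_sdiff.1 h).2 hg) ⟨b, bW⟩
    unfold Tight at tW
    rw [card_singleton] at this
    omega
  have aW : a ∉ W := fun h => fro φ (by simp) (H.jφ.mem_ind.2 ⟨H.hφ, h, bW⟩)
  have cW : c ∉ W := fun h => fro ψ (by simp) (hj.mem_ind.2 ⟨H.hψ, bW, h⟩)
  have hFW : Disjoint {φ, ψ} (G.ind Es W) := disjoint_left.2 fro
  have ht : 2 * W.card ≤ (G.ind Es W).card + 2 :=
    le_trans tW (Nat.add_le_add_right (card_le_card (ind_mono hLE Subset.rfl)) _)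
  have hα := hp.inner ⟨b, bW⟩ ht
  have hβ := hp.outer hW bW ht
  set G0 := G.map (cw W b) with hG0
  set X0 := insert b (X \ W) with hX0
  set E0 := Es \ G.ind Es W with hE0
  set α : Finset ℕ × Finset ℕ := (G.ind p.1 W, G.ind p.2 W) with hαd
  set β : Finset ℕ × Finset ℕ := (p.1 \ G.ind p.1 W, p.2 \ G.ind p.2 W) with hβd
  have hpe : p = (α.1 ∪ β.1, α.2 ∪ β.2) :=
    Prod.ext (union_sdiff_of_subset (G.ind_subset _ _)).symm
      (union_sdiff_of_subset (G.ind_subset _ _)).symm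
  have hX0X : X0 ⊆ X := insert_subset (hW bW) sdiff_subset
  have j1 : G0.Joins φ a b := by
    have := H.jφ.map (cw W b)
    rwa [cw_of_not aW, cw_of_mem bW] at this
  have j2 : G0.Joins ψ b c := by
    have := hj.map (cw W b)
    rwa [cw_of_not cW, cw_of_mem bW] at this
  have H0 : G0.HS X0 E0 φ ψ a b c :=
    ⟨mem_insert_of_mem (mem_sdiff.2 ⟨H.ma, aW⟩), mem_insert_self _ _,
      mem_insert_of_mem (mem_sdiff.2 ⟨H.mc, cW⟩), H.ab, H.ac, H.bc,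
      mem_sdiff.2 ⟨H.hφ, fro φ (by simp)⟩, mem_sdiff.2 ⟨H.hψ, fro ψ (by simp)⟩, H.ne, j1, Or.inl j2⟩
  have hn0 : X0.card ≤ n := (card_le_card hX0X).trans hn
  have hβF : ∀ g ∈ ({φ, ψ} : Finset ℕ), g ∈ β.1 ↔ g ∈ p.1 := by
    intro g hg
    have h1 := fro g hg
    have h2 := hp.cov g
    simp only [hβd, mem_sdiff, mem_ind] at h1 h2 ⊢
    tauto
  have hne0 : ¬ (φ ∈ β.1 ↔ ψ ∈ β.1) := by rwa [hβF φ (by simp), hβF ψ (by simp)]
  have lift : ∀ q0, G0.AReach X0 E0 {φ, ψ} {a, b, c} β q0 →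
      G.AReach X Es {φ, ψ} {a, b, c} p (α.1 ∪ q0.1, α.2 ∪ q0.2) := by
    intro q0 h
    have := alift_cw hE hW bW hα hFW (φ := φ) (ψ := ψ) (by simp) (by simp) H.jφ.inc' hj.inc hne0
      H.hφ H.hψ h
    rwa [← hpe] at this
  have sB : G0.SpB X0 (E0 \ {φ, ψ}) b := by
    intro Y hY bY h2
    by_contra hlt
    have h1 : (Y ∪ W).card + 1 = Y.card + W.card := by
      rw [← card_union_add_card_inter]
      congr 1
      symm
      rw [card_eq_one]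
      refine ⟨b, ?_⟩
      ext g
      have h0 := @hY g
      simp only [hX0, mem_inter, mem_singleton, mem_insert, mem_sdiff] at h0 ⊢
      grind
    have h4 : G0.ind (E0 \ {φ, ψ}) Y ∪ G.ind (Es \ {φ, ψ}) W ⊆ G.ind (Es \ {φ, ψ}) (Y ∪ W) := by
      intro g hg
      simp only [hG0, hE0, mem_union, mem_ind, mem_sdiff, map_s, map_t, cw] at hg ⊢
      grind
    have h5 := card_le_card h4
    have hd : Disjoint (G0.ind (E0 \ {φ, ψ}) Y) (G.ind (Es \ {φ, ψ}) W) :=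
      disjoint_left.2 fun g h1 h2 =>
        (mem_sdiff.1 (mem_sdiff.1 (mem_ind.1 h1).1).1).2 (ind_mono hLE Subset.rfl h2)
    rw [card_union_of_disjoint hd] at h5
    have h6 := hmax (Y ∪ W) (union_subset (hY.trans hX0X) hW) (mem_union_left _ bY) (by
      unfold Tight at *; omega)
    have := card_le_card h6
    omega
  have sA : G0.SpA X0 ((E0 \ {φ, ψ}) \ Φ) := by
    intro Y hY h2
    by_cases bY : b ∈ Y
    · exact le_trans (Nat.add_le_add_right (card_le_card (ind_mono sdiff_subset Subset.rfl)) _)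
        (sB Y hY bY h2)
    · refine le_trans (Nat.add_le_add_right (card_le_card fun g hg => ?_) _)
        (hs Y (fun w hw => (mem_insert.1 (hY hw)).resolve_left (by rintro rfl; exact bY hw)) h2)
      simp only [hG0, hE0, mem_ind, mem_sdiff, map_s, map_t, cw] at hg ⊢
      grind
  by_cases htt : ∃ Y ⊆ X0, 2 ≤ Y.card ∧ G0.Tight (E0 \ {φ, ψ}) Y
  · obtain ⟨q0, h1, g, hg, h2⟩ := hF G0 X0 E0 φ ψ a b c Φ β hn0 H0 hβ sA htt fun _ => sB
    refine Or.inl ⟨_, lift q0 h1, g, hg, ?_⟩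
    have h3 := (h1.st hβ).cov g
    have h4 := hβ.cov g
    have h5 := hp.cov g
    simp only [hαd, hβd, hE0, mem_union, mem_sdiff, mem_ind] at h2 h3 h4 h5 ⊢
    clear * - h2 h3 h4 h5
    tauto
  right
  have sA' : G0.SpA X0 (E0 \ {φ, ψ}) := by
    intro Y hY h2
    by_contra hlt
    exact htt ⟨Y, hY, h2, by unfold Tight; omega⟩
  have hab : a' ≠ b := by rintro rfl; exact hn2 (Conn.refl _ _ _)
  have a'W : a' ∉ W := fun h => hab (iZ _ aZ h)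
  have hZ0 : Z ⊆ X0 := fun w hw => by
    by_cases h : w ∈ W
    · rw [iZ w hw h]; exact mem_insert_self _ _
    · exact mem_insert_of_mem (mem_sdiff.2 ⟨hZ hw, h⟩)
  have fixZ : ∀ w ∈ Z, cw W b w = w := fun w hw => cw_fix bW (hZ0 hw)
  have sub1 : G.ind Es Z ⊆ G0.ind (E0 \ {φ, ψ}) Z := by
    intro g hg
    have h1 := mem_ind.1 hg
    refine mem_ind.2 ⟨mem_sdiff.2 ⟨mem_sdiff.2 ⟨h1.1, fun h => ?_⟩, disjoint_right.1 dZ hg⟩, ?_, ?_⟩
    · have h2 := mem_ind.1 h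
      exact hp.ne h1.1 (G.joins_st g) ((iZ _ h1.2.1 h2.2.1).trans (iZ _ h1.2.2 h2.2.2).symm)
    · simp only [hG0, map_s, fixZ _ h1.2.1, h1.2.1]
    · simp only [hG0, map_t, fixZ _ h1.2.2, h1.2.2]
  have h2Z : 2 ≤ Z.card := one_lt_card.2 ⟨a', aZ, b, bZ, hab⟩
  have eq1 : G0.ind (E0 \ {φ, ψ}) Z = G.ind Es Z :=
    (eq_of_subset_of_card_le sub1 (by have := sA' Z hZ0 h2Z; omega)).symm
  have eq2 : G0.ind E0 Z = G.ind Es Z := by
    rw [← eq1]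
    refine Subset.antisymm (fun g hg => ?_) (ind_mono sdiff_subset Subset.rfl)
    have h1 := mem_ind.1 hg
    refine mem_ind.2 ⟨mem_sdiff.2 ⟨h1.1, fun h => ?_⟩, h1.2⟩
    rcases mem_insert.1 h with rfl | h
    · exact disjoint_left.1 dZ h (H.jφ.mem_ind.2 ⟨H.hφ, (j1.mem_ind.1 hg).2⟩)
    · obtain rfl := mem_singleton.1 h
      exact disjoint_left.1 dZ (by simp) (hj.mem_ind.2 ⟨H.hψ, (j2.mem_ind.1 hg).2⟩)
  have eq3 : ∀ T, T ⊆ E0 → G0.ind T Z = G.ind T Z := by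
    intro T hT
    ext g
    have h1 : g ∈ G0.ind E0 Z ↔ g ∈ G.ind Es Z := by rw [eq2]
    have := @hT g
    have h2 : g ∈ E0 → g ∈ Es := fun h => (mem_sdiff.1 h).1
    simp only [mem_ind] at h1 ⊢
    tauto
  have congrZ : ∀ T, ∀ g ∈ G.ind T Z, G0.s g = G.s g ∧ G0.t g = G.t g := fun T g hg =>
    ⟨fixZ _ (mem_ind.1 hg).2.1, fixZ _ (mem_ind.1 hg).2.2⟩
  have inZ : ∀ T, T ⊆ Es → G.ind (T \ G.ind T W) Z = G.ind T Z := by
    intro T hT
    ext g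
    have h1 := @sub1 g
    have := @hT g
    simp only [hE0, mem_ind, mem_sdiff] at h1 ⊢
    tauto
  have p1E : p.1 ⊆ Es := fun g hg => (hp.cov g).2 (Or.inl hg)
  have p2E : p.2 ⊆ Es := fun g hg => (hp.cov g).2 (Or.inr hg)
  have b1E : β.1 ⊆ E0 := fun g hg => (hβ.cov g).2 (Or.inl hg)
  have b2E : β.2 ⊆ E0 := fun g hg => (hβ.cov g).2 (Or.inr hg)
  have k1 : G0.Conn (G0.ind β.2 Z ∪ (β.2 \ G0.ind E0 Z) \ {φ, ψ}) a' b := by
    have h1 := hc.map (cw W b)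
    rw [cw_of_not a'W, cw_of_mem hb'] at h1
    refine h1.of_spans fun g hg => ?_
    by_cases hi : g ∈ G.ind p.2 W
    · rw [mem_ind] at hi
      simp only [map_s, map_t, cw_of_mem hi.2.1, cw_of_mem hi.2.2]
      exact Conn.refl _ _ _
    · refine Conn.edge ?_ (joins_st _ g)
      have h2 : g ∈ β.2 := mem_sdiff.2 ⟨(mem_sdiff.1 hg).1, hi⟩
      have h3 := b2E h2
      have h4 := (mem_sdiff.1 hg).2
      simp only [mem_union, mem_sdiff, mem_ind] at ⊢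
      clear * - h2 h3 h4
      tauto
  have k2 : ¬ G0.Conn (G0.ind β.2 Z) a' b := by
    rw [eq3 _ b2E, hβd, inZ _ p2E]
    exact fun h => hn2 (conn_congr (fun g hg => ⟨(congrZ _ g hg).1.symm, (congrZ _ g hg).2.symm⟩) h)
  obtain ⟨u1, m1, u2, m2, m3, m4⟩ := exists_seg (G0.within_ind _ _) aZ bZ k1 k2
  obtain ⟨q0, s1, s2, s3⟩ := hβ.swap_in (F := {φ, ψ}) hZ0 (by rw [eq2]; exact cZ)
    (by rw [eq2, ← eq1]; exact sA'.mono (G0.ind_subset _ _) hZ0)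
    (by rw [eq3 _ b1E, hβd, inZ _ p1E]; exact c1) m1 m2 m3 m4 (by rw [eq2]; exact dZ)
  have r1 := hC G0 X0 E0 φ ψ a b c β q0 hn0 H0 hβ s1 sA' (s2 φ (by simp)) (s2 ψ (by simp))
    fun h => absurd h (H0.not_both j2)
  refine ⟨_, lift q0 r1, fun g hg => ?_, ?_⟩
  · have h3 := s1.cov g
    simp only [hαd, hE0, mem_union, mem_sdiff, mem_ind] at h3 hg ⊢
    clear * - h3 hg
    tauto
  · have h1 := s3.conn a' aZ b bZ
    rw [eq3 _ fun g hg => (s1.cov g).2 (Or.inr hg)] at h1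
    exact (conn_congr (fun g hg => ⟨(congrZ _ g hg).1.symm, (congrZ _ g hg).2.symm⟩) h1).mono
      (ind_mono subset_union_right Subset.rfl)

theorem sb_max {L : Finset ℕ} (hp : G.St X Es p) (hL : L ⊆ Es) (hY : Y ⊆ X) (bY : b ∈ Y)
    (tY : G.Tight L Y) : ∃ W ⊆ X, b ∈ W ∧ G.Tight L W ∧
      ∀ Y ⊆ X, b ∈ Y → G.Tight L Y → Y ⊆ W := by
  classical
  obtain ⟨W, hW, hmax⟩ := exists_max_image (X.powerset.filter fun Y => b ∈ Y ∧ G.Tight L Y) card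
    ⟨Y, mem_filter.2 ⟨mem_powerset.2 hY, bY, tY⟩⟩
  simp only [mem_filter, mem_powerset] at hW hmax
  refine ⟨W, hW.1, hW.2.1, hW.2.2, fun Y' h1 h2 h3 => ?_⟩
  have h4 := G.ind_supermod L Y' W
  have h5 := hp.ind_le hL (Y := Y' ∩ W) ⟨b, mem_inter.2 ⟨h2, hW.2.1⟩⟩
  have h6 := card_union_add_card_inter Y' W
  have h7 := hW.2.2
  have h8 := hmax (Y' ∪ W) ⟨union_subset h1 hW.1, mem_union_left _ h2, by unfold Tight at *; omega⟩
  rw [eq_of_subset_of_card_le subset_union_right h8]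
  exact subset_union_left

theorem Node.sb_aux (hF : FLn n) (hC : CONNn n) (hn : X.card ≤ n + 1) (H : G.HS X Es φ ψ a b c)
    (N : G.Node Es v x y z a' b' c') (hv : v ∉ ({a, b, c} : Finset ℕ)) (hp : G.St X Es p)
    (hs : G.SpA X ((Es \ {φ, ψ}) \ Φ)) (hne : G.NEm φ ψ b c p) (hB : G.SpB X (Es \ {φ, ψ}) b)
    (hx : x ∉ Φ) (hy : y ∉ Φ) (hac : a' ≠ c') (x1 : x ∈ p.1) (y2 : y ∈ p.2) (z2 : z ∈ p.2)
    (hto : G.Conn ((p.2.erase y).erase z) a' b')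
    (hY : Y ⊆ X) (vY : v ∉ Y) (rY : b ∈ Y) (bY : b' ∈ Y) (cY : c' ∈ Y)
    (kY : G.Crit (Es \ {φ, ψ}) Y) (hZ : Z ⊆ X) (vZ : v ∉ Z) (rZ : b ∈ Z) (aZ : a' ∈ Z)
    (cZ : c' ∈ Z) (kZ : G.Crit (Es \ {φ, ψ}) Z) :
    G.Flips X Es {φ, ψ} {a, b, c} Φ p ∨ ∃ q, G.AReach X Es {φ, ψ} {a, b, c} p q ∧ Ty x y z q ∧
      G.VTo x z y a' c' q := by
  obtain ⟨S, T⟩ := p
  simp only at x1 y2 z2 hto
  have hE := hp.within
  have ht : Ty x y z (S, T) := Or.inl ⟨x1, y2, z2⟩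
  have xF := H.not_inc hv N.jx.inc
  have yF := H.not_inc hv N.jy.inc
  have zF := H.not_inc hv N.jz.inc
  have xL : x ∈ Es \ {φ, ψ} := mem_sdiff.2 ⟨N.hx, xF⟩
  have yL : y ∈ Es \ {φ, ψ} := mem_sdiff.2 ⟨N.hy, yF⟩
  have zL : z ∈ Es \ {φ, ψ} := mem_sdiff.2 ⟨N.hz, zF⟩
  have mx := N.jx.mem hE N.hx
  have two : ∀ W ⊆ X, v ∉ W → b ∈ W → b' ∈ W → c' ∈ W → G.Crit (Es \ {φ, ψ}) W →
      ∀ w ∈ W, w ∈ Z → w = c' := fun W h1 h2 h3 h4 h5 h6 =>
    N.two_badB hp hs hB sdiff_subset sdiff_subset xL yL zL h1 hZ h2 vZ h4 h5 aZ cZ h6 kZ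
      (Or.inl h3) (Or.inl ⟨h3, rZ⟩)
  obtain rfl : b = c' := two Y hY vY rY bY cY kY b rY rZ
  have hbc := N.ty_ne hp ht
  have hab : a' ≠ b' := hs.ne (mem_sdiff.2 ⟨xL, hx⟩) (mem_sdiff.2 ⟨yL, hy⟩) N.xy N.jx N.jy mx.1 mx.2
    N.av
  have nv : ∀ (T' : Finset ℕ) (g : ℕ), g ∈ G.ind T' Z → g ≠ x ∧ g ≠ y ∧ g ≠ z := by
    intro T' g hg
    refine ⟨?_, ?_, ?_⟩ <;> rintro rfl
    · exact vZ (N.jx.mem_ind.1 hg).2.1
    · exact vZ (N.jy.mem_ind.1 hg).2.1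
    · exact vZ (N.jz.mem_ind.1 hg).2.1
  by_cases h0 : G.Conn (G.ind T Z) a' b
  · refine Or.inr ⟨_, AReach.refl _, ht, Or.inl ⟨x1, h0.mono fun g hg => ?_⟩⟩
    have := nv _ g hg
    exact mem_erase.2 ⟨this.2.1, mem_erase.2 ⟨this.2.2, G.ind_subset _ _ hg⟩⟩
  have n1 : (G.ind T Z).card + 2 ≤ Z.card := by
    by_contra h
    exact h0 ((hp.snd.restrict ⟨b, rZ⟩ (by simp only; omega)).conn a' aZ b rZ)
  have n2 := hp.fst.acyc.card_ind ⟨b, rZ⟩
  have n3 := hp.card_ind Z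
  have n4 := card_le_card (ind_mono (G := G) (sdiff_subset : Es \ {φ, ψ} ⊆ Es) (Subset.refl Z))
  simp only at n2 n3
  unfold Crit at kZ
  have n5 : G.ind (Es \ {φ, ψ}) Z = G.ind Es Z :=
    eq_of_subset_of_card_le (ind_mono sdiff_subset Subset.rfl) (by omega)
  have dZ : Disjoint {φ, ψ} (G.ind Es Z) := by
    rw [← n5]
    exact disjoint_left.2 fun g h1 h2 => (mem_sdiff.1 (G.ind_subset _ _ h2)).2 h1
  have hp1 := N.down1 hp x1 y2 z2
  have hup : up x y z (S.erase x, T.erase y) = (S, T) := by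
    rw [up_of_snd (mem_erase.2 ⟨N.yz.symm, z2⟩), insert_erase x1, insert_erase y2]
  obtain ⟨H1, j1, -⟩ := H.node hv N
  set G1 := G.map (ctr v b') with hG1
  set E1 := (Es.erase x).erase y with hE1
  have tY : G1.Tight (E1 \ {φ, ψ}) Y := by
    have := N.hc_card' zF vY
    rw [if_pos ⟨bY, cY⟩, ← hG1, ← hE1] at this
    unfold Tight
    unfold Crit at kY
    omega
  obtain ⟨W, hW, bW, tW, hmax⟩ := sb_max hp1 sdiff_subset
    (subset_erase.2 ⟨hY, vY⟩) rY tY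
  have YW := hmax Y (subset_erase.2 ⟨hY, vY⟩) rY tY
  have vW := (subset_erase.1 hW).2
  have kW : G.Crit (Es \ {φ, ψ}) W := by
    have := N.hc_card' zF vW
    rw [if_pos ⟨YW bY, bW⟩, ← hG1, ← hE1] at this
    unfold Tight at tW
    unfold Crit
    omega
  have iZ := two W (subset_erase.1 hW).1 vW bW (YW bY) bW kW
  have b'Z : b' ∉ Z := fun h => hbc (iZ _ (YW bY) h)
  have e1 : ∀ T', T' ⊆ E1 → G1.ind T' Z = G.ind T' Z := fun T' h => by
    rw [N.ind_map h vZ, if_neg fun h => b'Z h.2.1]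
  have e2 : ∀ (T' : Finset ℕ) (g : ℕ), g = x ∨ g = y → G.ind (T'.erase g) Z = G.ind T' Z := by
    intro T' g hg
    ext k
    have := nv T' k
    simp only [mem_ind, mem_erase] at *
    grind
  have cZ1 : ∀ T', ∀ g ∈ G.ind T' Z, G.s g = G1.s g ∧ G.t g = G1.t g := fun T' g hg =>
    ⟨(ctr_of_ne (by rintro h; exact vZ (h ▸ (mem_ind.1 hg).2.1))).symm,
      (ctr_of_ne (by rintro h; exact vZ (h ▸ (mem_ind.1 hg).2.2))).symm⟩
  have s1E : S.erase x ⊆ E1 := fun g hg => (hp1.cov g).2 (Or.inl hg)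
  have t1E : T.erase y ⊆ E1 := fun g hg => (hp1.cov g).2 (Or.inr hg)
  have nb : ¬ G.Conn ((T.erase y).erase z) b' b := fun h =>
    hp.snd.acyc.not_conn y2 N.jy ((Conn.edge (mem_erase.2 ⟨N.yz.symm, z2⟩) N.jz).trans
      (h.symm.mono (erase_subset _ _)))
  have hc : G.Conn ((T.erase y).erase z \ {φ, ψ}) a' b' := by
    refine (hto {t | G.Conn ((T.erase y).erase z \ {φ, ψ}) a' t} fun g hg => ?_).1 (Conn.refl _ _ _)
    by_cases hgF : g ∈ ({φ, ψ} : Finset ℕ)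
    · have ib : G.Inc g b := by
        rcases mem_insert.1 hgF with rfl | h
        · exact H.jφ.inc'
        · obtain rfl := mem_singleton.1 h
          exact hne.1.inc
      have k : ∀ t, G.Inc g t → ¬ G.Conn ((T.erase y).erase z \ {φ, ψ}) a' t := by
        intro t hi h
        refine nb (hto.symm.trans ((h.mono sdiff_subset).trans ?_))
        have h1 := Conn.edge hg (G.joins_st g)
        rcases hi with rfl | rfl <;> rcases ib with h2 | h2 <;> rw [← h2]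
        exacts [Conn.refl _ _ _, h1, h1.symm, Conn.refl _ _ _]
      exact iff_of_false (k _ (Or.inl rfl)) (k _ (Or.inr rfl))
    · exact G.closed_comp _ a' g (mem_sdiff.2 ⟨hg, hgF⟩)
  have core := sb_core (Φ := Φ) (Z := Z) (a' := a') (b' := b') hF hC
    (by rw [card_erase_of_mem mx.1]; omega) H1 (j1.2 hne.1) hp1 (by
      have := hne.2
      have h1 : φ ≠ x := by rintro rfl; exact xF (by simp)
      have h2 : ψ ≠ x := by rintro rfl; exact xF (by simp)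
      simpa only [mem_erase, ne_eq, h1, h2, not_false_eq_true, true_and] using this)
    hW bW tW hmax (fun Y' h1 h2 => by
      have h3 : Y' ⊆ X.erase v := h1.trans sdiff_subset
      rw [N.hc_card (sdiff_subset.trans sdiff_subset) (subset_erase.1 h3).2,
        if_neg fun h => (mem_sdiff.1 (h1 h.2.1)).2 (YW bY)]
      refine le_trans (Nat.add_le_add_right (card_le_card (ind_mono ?_ Subset.rfl)) _)
        (hs Y' (subset_erase.1 h3).1 h2)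
      exact sdiff_subset_sdiff (sdiff_subset_sdiff
        ((erase_subset _ _).trans (erase_subset _ _)) Subset.rfl) Subset.rfl)
    (subset_erase.2 ⟨hZ, vZ⟩) rZ (fun w h1 h2 => iZ w h2 h1) aZ
    (by rw [e1 _ Subset.rfl, hE1, e2 _ _ (Or.inr rfl), e2 _ _ (Or.inl rfl)]; omega)
    (by rw [e1 _ s1E, e2 _ _ (Or.inl rfl)]; omega)
    (by rw [e1 _ Subset.rfl, hE1, e2 _ _ (Or.inr rfl), e2 _ _ (Or.inl rfl)]; exact dZ)
    (by
      rw [e1 _ t1E, e2 _ _ (Or.inr rfl)]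
      exact fun h => h0 (conn_congr (cZ1 _) h))
    (YW bY) (by
      have := hc.map (ctr v b')
      rw [ctr_of_ne N.av, ctr_of_ne N.bv] at this
      exact this.mono (sdiff_subset_sdiff (erase_subset _ _) Subset.rfl))
  rcases core with ⟨q1, r1, g, hg, r2⟩ | ⟨q1, r1, r2, r3⟩
  · have l1 := N.alift hE hv xF yF zF hab hac r1
    rw [hup] at l1
    refine Or.inl ⟨_, l1, g, hg, ?_⟩
    have k1 : g ≠ x := by rintro rfl; exact hx hg
    have k2 : g ≠ y := by rintro rfl; exact hy hg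
    rw [← hup, mem_up k1 k2, mem_up k1 k2]
    exact r2
  · have l1 := N.alift hE hv xF yF zF hab hac r1
    rw [hup] at l1
    have hq1 := r1.st hp1
    have zq : z ∈ q1.2 := by
      have h1 := r2 z (N.jz'.mem_ind.2 ⟨N.z_mem, YW bY, bW⟩)
      have h2 := (hq1.cov z).1 N.z_mem
      have h3 := hp.disj z
      simp only [mem_erase] at *
      tauto
    refine Or.inr ⟨_, l1, (N.up_st hE hq1).2, Or.inl ?_⟩
    obtain ⟨S', T'⟩ := q1
    rw [up_of_snd zq]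
    refine ⟨mem_insert_self _ _, ?_⟩
    rw [e1 _ fun g hg => (hq1.cov g).2 (Or.inr hg)] at r3
    refine (conn_congr (cZ1 _) r3).mono fun g hg => ?_
    have := nv _ g hg
    exact mem_erase.2 ⟨this.2.1, mem_erase.2 ⟨this.2.2, mem_insert_of_mem (G.ind_subset _ _ hg)⟩⟩

theorem Node.stepB (hF : FLn n) (hC : CONNn n) (hn : X.card ≤ n + 1) (H : G.HS X Es φ ψ a b c)
    (N : G.Node Es v x y z a' b' c') (hv : v ∉ ({a, b, c} : Finset ℕ)) (hp : G.St X Es p)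
    (hs : G.SpA X ((Es \ {φ, ψ}) \ Φ)) (hne : G.NEm φ ψ b c p) (hB : G.SpB X (Es \ {φ, ψ}) b)
    (hx : x ∉ Φ) (hy : y ∉ Φ) (hac : a' ≠ c') (ht : Ty x y z p) (hto : G.VTo x y z a' b' p)
    (hY : Y ⊆ X) (vY : v ∉ Y) (rY : b ∈ Y) (bY : b' ∈ Y) (cY : c' ∈ Y)
    (kY : G.Crit (Es \ {φ, ψ}) Y) (hZ : Z ⊆ X) (vZ : v ∉ Z) (rZ : b ∈ Z) (aZ : a' ∈ Z)
    (cZ : c' ∈ Z) (kZ : G.Crit (Es \ {φ, ψ}) Z) :
    G.Flips X Es {φ, ψ} {a, b, c} Φ p ∨ ∃ q, G.AReach X Es {φ, ψ} {a, b, c} p q ∧ Ty x y z q ∧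
      G.VTo x z y a' c' q := by
  have dx := hp.disj x
  rcases ht with ⟨x1, y2, z2⟩ | ⟨x1, y2, z2⟩
  · exact N.sb_aux hF hC hn H hv hp hs hne hB hx hy hac x1 y2 z2
      (hto.elim (fun h => h.2) fun h => (dx x1 h.1).elim) hY vY rY bY cY kY hZ vZ rZ aZ cZ kZ
  · have hne' : G.NEm φ ψ b c p.swap := ⟨hne.1, by
      have := hne.2
      have := (hp.cov φ).1 H.hφ
      have := (hp.cov ψ).1 H.hψ
      have := hp.disj φ
      have := hp.disj ψ
      simp only [Prod.fst_swap]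
      tauto⟩
    rcases N.sb_aux hF hC hn H hv hp.swap hs hne' hB hx hy hac x1 y2 z2
      (hto.elim (fun h => (dx h.1 x1).elim) fun h => h.2) hY vY rY bY cY kY hZ vZ rZ aZ cZ kZ with
      ⟨q, r1, g, hg, r2⟩ | ⟨q, r1, r2, r3⟩
    · refine Or.inl ⟨q.swap, r1.swap, g, hg, ?_⟩
      have hq := r1.st hp.swap
      have := hp.cov g
      have := hq.cov g
      have := hp.disj g
      have := hq.disj g
      simp only [Prod.fst_swap] at *
      tauto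
    · exact Or.inr ⟨q.swap, r1.swap, r2.swap, r3.symm⟩

end Gr

end Pool.Agent.P.MP_3f5ce9_co
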