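import Pool.Agent.P.MP_3f5ce9_co.W.DefsC
import Pool.Agent.P.MP_3f5ce9_co.W.TriC

/-!
The rank inequality of the partition lemma.
-/

open Finset

namespace Pool.Agent.P.MP_3f5ce9_co

section

variable {G : Gr ℕ ℕ} {X L I S F Y Z W R : Finset ℕ} {ρ : Fin 3 → ℕ} {μ : ℕ → ℕ} {κ : ℕ → XK}
  {u w : ℕ} {k : Fin 3}

theorem xa_f1 : ∀ j l : Fin 3, j ≠ l → j = l + 1 ∨ j = l + 2 := by decide

theorem xa_f2 : ∀ l k : Fin 3, l ≠ k → ∃ n, ∀ j, j ≠ k → j ≠ l → j = n := by decide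

theorem xa_f3 : ∀ k : Fin 3, k + 1 + 1 = k + 2 ∧ k + 1 + 2 = k ∧ k + 2 + 1 = k ∧
    k + 2 + 2 = k + 1 := by decide

theorem xa_f4 : ∀ a b c d : Fin 3, a ≠ b → c ≠ d → a = c ∨ a = d ∨ b = c ∨ b = d := by decide

theorem xa_f5 : ∀ a b k : Fin 3, a ≠ b → a ≠ k → b ≠ k →
    (a = k + 1 ∧ b = k + 2) ∨ (a = k + 2 ∧ b = k + 1) := by decide

theorem xa_comp {F' : Finset ℕ} (h : G.Conn F u w) (hF : ∀ e ∈ F, G.Conn F u (G.s e) → e ∈ F') :
    G.Conn F' u w := by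
  refine ((h {z | G.Conn F' u z ∧ G.Conn F u z} fun e he => ⟨fun k => ?_, fun k => ?_⟩).1
    ⟨Gr.Conn.refl _ _ _, Gr.Conn.refl _ _ _⟩).1
  · exact ⟨k.1.trans (Gr.Conn.edge (hF e he k.2) (G.joins_st e)),
      k.2.trans (Gr.Conn.edge he (G.joins_st e))⟩
  · have := k.2.trans (Gr.Conn.edge he (G.joins_st e).symm)
    exact ⟨k.1.trans (Gr.Conn.edge (hF e he this) (G.joins_st e).symm), this⟩

theorem xa_mem (hX : G.Within F X) {e : ℕ} (he : e ∈ F) (h : G.Conn F u (G.s e)) :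
    G.s e ∈ G.comp X F u ∧ G.t e ∈ G.comp X F u :=
  ⟨Gr.mem_comp.2 ⟨(hX e he).1, h⟩,
    Gr.mem_comp.2 ⟨(hX e he).2, h.trans (Gr.Conn.edge he (G.joins_st e))⟩⟩

theorem xa_inc (hX : G.Within F X) {e z : ℕ} (he : e ∈ F) (hz : z ∈ G.comp X F u)
    (hi : G.Inc e z) : G.s e ∈ G.comp X F u ∧ G.t e ∈ G.comp X F u := by
  have := (Gr.mem_comp.1 hz).2
  rcases hi with rfl | rfl
  · exact xa_mem hX he this
  · exact xa_mem hX he (this.trans (Gr.Conn.edge he (G.joins_st e).symm))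

theorem xa_split0 (φ : ℕ → ℕ) (Es : Finset ℕ) (hX : G.Within S X)
    (h1 : ∀ u ∈ X \ Z, φ u ∈ X \ Z) (h2 : ∀ z ∈ Z, φ z = z)
    (h : ∀ e ∈ S, ∀ z ∈ Z, G.Inc e z → e ∈ G.ind S (insert w Z)) :
    (BM.gm (G.map φ) Es).r S = (BM.gm (G.map φ) Es).r (S \ G.ind S (insert w Z)) +
      (BM.gm (G.map φ) Es).r (G.ind S (insert w Z)) := by
  rw [← BM.r_gm_union (X := X \ Z) (Y := insert (φ w) Z), sdiff_union_of_subset (G.ind_subset _ _)]
  · intro e he
    obtain ⟨k1, k2⟩ := mem_sdiff.1 he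
    exact ⟨h1 _ (mem_sdiff.2 ⟨(hX e k1).1, fun k => k2 (h e k1 _ k (Or.inl rfl))⟩),
      h1 _ (mem_sdiff.2 ⟨(hX e k1).2, fun k => k2 (h e k1 _ k (Or.inr rfl))⟩)⟩
  · have key : ∀ u ∈ insert w Z, φ u ∈ insert (φ w) Z := by
      intro u hu
      rcases mem_insert.1 hu with rfl | hu
      · exact mem_insert_self _ _
      · rw [h2 u hu]; exact mem_insert_of_mem hu
    exact fun e he => ⟨key _ (Gr.mem_ind.1 he).2.1, key _ (Gr.mem_ind.1 he).2.2⟩
  · refine card_le_one.2 fun a ha b hb => ?_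
    simp only [mem_inter, mem_sdiff, mem_insert] at ha hb
    grind

theorem xa_split (hR : Rooted G X ρ L) (hS : S ⊆ L) (hZ : ∀ k, ρ k ∉ Z)
    (h : ∀ e ∈ S, ∀ z ∈ Z, G.Inc e z → e ∈ G.ind S (insert w Z)) (τ : XK) :
    (τ.mat G ρ L).r S = (τ.mat G ρ L).r (S \ G.ind S (insert w Z)) +
      (τ.mat G ρ L).r (G.ind S (insert w Z)) := by
  have hX := hR.within.mono hS
  rcases τ with _ | k | k
  · exact xa_split0 id L hX (fun _ k => k) (fun _ _ => rfl) h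
  · refine xa_split0 _ L hX (fun u hu => ?_) (fun z hz => Gr.ctr_of_ne ?_) h
    · unfold Gr.ctr
      split_ifs
      · exact mem_sdiff.2 ⟨hR.mem _, hZ _⟩
      · exact hu
    · rintro rfl
      exact hZ _ hz
  · exact xa_split0 id _ hX (fun _ k => k) (fun _ _ => rfl) h

theorem xa_sum {c : ℕ} (loss : ℕ → ℕ) (hS : S ⊆ L) (hY : G.Within S Y)
    (h1 : ∀ i ∈ I, Y.card ≤ ((κ i).mat G ρ L).r S + 1 + loss i) (h2 : ∑ i ∈ I, loss i ≤ c)
    (h3 : ∑ e ∈ S, μ e + c + I.card ≤ I.card * Y.card) :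
    ∑ e ∈ S, μ e ≤ ∑ i ∈ I, ((κ i).mat G ρ L).r S := by
  have := sum_le_sum h1
  rw [sum_add_distrib, sum_add_distrib, sum_const, smul_eq_mul, ← card_eq_sum_ones] at this
  omega

theorem xa_slack {c m : ℕ} (hS : S ⊆ L) (hY : G.Within S Y) (h : Slack G L μ m Y c) :
    ∑ e ∈ S, μ e + c + m ≤ m * Y.card := by
  have : ∑ e ∈ S, μ e ≤ ∑ e ∈ G.ind L Y, μ e :=
    sum_le_sum_of_subset fun e he => Gr.mem_ind.2 ⟨hS he, hY e he⟩
  unfold Slack at h
  omega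

theorem xa_lab (hS : S ⊆ L) (hc : ∀ u ∈ Y, ∀ w ∈ Y, G.Conn S u w) :
    Y.card ≤ ((XK.lab k).mat G ρ L).r S + 2 ∧
      (¬ (ρ (k + 1) ∈ Y ∧ ρ (k + 2) ∈ Y) → Y.card ≤ ((XK.lab k).mat G ρ L).r S + 1) := by
  have h1 : (Y.image (Gr.ctr (ρ (k + 1)) (ρ (k + 2)))).card ≤ ((XK.lab k).mat G ρ L).r S + 1 := by
    refine BM.le_r_gm hS fun a ha b hb => ?_
    obtain ⟨u, hu, rfl⟩ := mem_image.1 ha
    obtain ⟨w, hw, rfl⟩ := mem_image.1 hb
    exact (hc u hu w hw).map _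
  refine ⟨?_, fun hn => ?_⟩
  · have h2 : Y.erase (ρ (k + 1)) ⊆ Y.image (Gr.ctr (ρ (k + 1)) (ρ (k + 2))) := fun u hu =>
      mem_image.2 ⟨u, mem_of_mem_erase hu, Gr.ctr_of_ne (ne_of_mem_erase hu)⟩
    have := card_le_card h2
    have := pred_card_le_card_erase (s := Y) (a := ρ (k + 1))
    omega
  · rwa [card_image_of_injOn] at h1
    intro a ha b hb hab
    simp only [Gr.ctr, mem_coe] at *
    grind

theorem xa_ex (hS : S ⊆ L)
    (h : ∀ u ∈ W, ∃ w ∈ R, G.Conn (S.filter fun g => ¬ G.Inc g (ρ k)) u w) :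
    W.card ≤ ((XK.ex k).mat G ρ L).r S + R.card := by
  have h1 : (W ∪ R).card ≤ ((XK.ex k).mat G ρ L).r (S.filter fun g => ¬ G.Inc g (ρ k)) + R.card := by
    refine BM.le_r_gm' (fun e he => ?_) subset_union_right fun u hu => ?_
    · rw [mem_filter] at he
      exact mem_sdiff.2 ⟨hS he.1, fun k => he.2 (Gr.mem_star.1 k).2⟩
    · rcases mem_union.1 hu with hu | hu
      · exact h u hu
      · exact ⟨u, hu, Gr.Conn.refl _ _ _⟩
  have := card_le_card (subset_union_left (s₁ := W) (s₂ := R))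
  have := ((XK.ex k).mat G ρ L).r_mono (filter_subset (fun g => ¬ G.Inc g (ρ k)) S)
  omega

theorem xa_ex0 (hS : S ⊆ L) (hY : G.Within S Y) (hc : ∀ u ∈ Y, ∀ w ∈ Y, G.Conn S u w)
    (hk : ρ k ∉ Y) : Y.card ≤ ((XK.ex k).mat G ρ L).r S + 1 := by
  rcases Y.eq_empty_or_nonempty with rfl | ⟨w, hw⟩
  · simp
  refine xa_ex (R := {w}) hS fun u hu => ⟨w, mem_singleton_self _, (hc u hu w hw).mono ?_⟩
  exact fun e he => mem_filter.2 ⟨he, fun hi => hk (hi.mem hY he)⟩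

theorem xa_ex1 (hS : S ⊆ L)
    (h : ∀ u ∈ Y, u ≠ ρ k → ∃ w ∈ R, G.Conn (S.filter fun g => ¬ G.Inc g (ρ k)) u w) :
    Y.card ≤ ((XK.ex k).mat G ρ L).r S + 1 + R.card := by
  have := xa_ex (W := Y.erase (ρ k)) hS fun u hu => h u (mem_of_mem_erase hu) (ne_of_mem_erase hu)
  have := pred_card_le_card_erase (s := Y) (a := ρ k)
  omega

/-- a piece without a root at an exact root -/
theorem xa_piece (h : XHyp G X ρ L I μ κ) (hS : S ⊆ L) (hY : G.Within S Y) (hYX : Y ⊆ X)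
    {i : ℕ} (hi : i ∈ I) (hk : κ i = .ex k) (h1 : ρ k ∈ Y) (h2 : ∀ j, ρ j ∈ Y → j = k)
    (hu : u ∈ Y) (huk : u ≠ ρ k) (hc : ∀ u ∈ Y, ∀ w ∈ Y, G.Conn S u w)
    (hc' : ∀ w ∈ Y, w ≠ ρ k → G.Conn (S.filter fun g => ¬ G.Inc g (ρ k)) w u) :
    ∑ e ∈ S, μ e ≤ ∑ i ∈ I, ((κ i).mat G ρ L).r S := by
  refine xa_sum (c := 1) (fun j => if j = i then 1 else 0) hS hY (fun j hj => ?_) (by simp [hi])
    (xa_slack hS hY (h.h1 i hi k hk Y hYX h1 (one_lt_card.2 ⟨u, hu, _, h1, huk⟩)))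
  rcases hj' : κ j with _ | l | l
  · exact (BM.le_r_gm hS hc).trans le_self_add
  · refine ((xa_lab hS hc).2 fun hl => ?_).trans le_self_add
    have := (h2 _ hl.1).trans (h2 _ hl.2).symm
    simp at this
  · by_cases hl : l = k
    · subst hl
      rw [if_pos (h.once j hj i hi l hj' hk)]
      exact xa_ex1 (R := {u}) hS fun w hw k => ⟨u, mem_singleton_self _, hc' w hw k⟩
    · exact (xa_ex0 hS hY hc fun k => hl (h2 l k)).trans le_self_add

/-- every vertex joined to an exact root is joined to another root avoiding it -/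
def XaGood (G : Gr ℕ ℕ) (X : Finset ℕ) (ρ : Fin 3 → ℕ) (I : Finset ℕ) (κ : ℕ → XK)
    (S : Finset ℕ) : Prop := ∀ i ∈ I, ∀ k, κ i = .ex k → ∀ u ∈ X, u ≠ ρ k → G.Conn S (ρ k) u →
  ∃ j, j ≠ k ∧ G.Conn (S.filter fun g => ¬ G.Inc g (ρ k)) u (ρ j)

theorem xa_one (h : XHyp G X ρ L I μ κ) (hS : S ⊆ L) (hY : G.Within S Y) (hYX : Y ⊆ X)
    (hne : Y.Nonempty) (h2 : ∀ j l, ρ j ∈ Y → ρ l ∈ Y → j = l)
    (hc : ∀ u ∈ Y, ∀ w ∈ Y, G.Conn S u w)
    (hg : ∀ i ∈ I, ∀ k, κ i = .ex k → ρ k ∈ Y → ∀ u ∈ Y, u = ρ k) :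
    ∑ e ∈ S, μ e ≤ ∑ i ∈ I, ((κ i).mat G ρ L).r S := by
  refine xa_sum (c := 0) (fun _ => 0) hS hY (fun j hj => ?_) (by simp)
    (xa_slack hS hY (h.h0 Y hYX hne))
  rcases hj' : κ j with _ | l | l
  · exact BM.le_r_gm hS hc
  · refine (xa_lab hS hc).2 fun hl => ?_
    have := h2 _ _ hl.1 hl.2
    simp at this
  · by_cases hl : ρ l ∈ Y
    · have := card_le_one.2 fun a ha b hb => (hg j hj l hj' hl a ha).trans (hg j hj l hj' hl b hb).symm
      omega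
    · exact xa_ex0 hS hY hc hl

theorem xa_two (h : XHyp G X ρ L I μ κ) (hS : S ⊆ L) (hY : G.Within S Y) (hYX : Y ⊆ X)
    (h0 : ρ k ∉ Y) (h1 : ρ (k + 1) ∈ Y) (h2 : ρ (k + 2) ∈ Y)
    (hc : ∀ u ∈ Y, ∀ w ∈ Y, G.Conn S u w) (hcl : ∀ u ∈ Y, ∀ j, G.Conn S u (ρ j) → ρ j ∈ Y)
    (hg : XaGood G X ρ I κ S) :
    ∑ e ∈ S, μ e ≤ ∑ i ∈ I, ((κ i).mat G ρ L).r S := by
  refine xa_sum (fun i => if κ i = .lab k ∨ κ i = .ex (k + 1) ∨ κ i = .ex (k + 2) then 1 else 0)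
    hS hY (fun j hj => ?_) (card_filter _ _).ge (xa_slack hS hY (h.h2 k Y hYX h1 h2))
  rcases hj' : κ j with _ | l | l
  · exact (BM.le_r_gm hS hc).trans le_self_add
  · by_cases hl : l = k
    · subst hl
      rw [if_pos (Or.inl rfl)]
      exact (xa_lab hS hc).1
    · refine ((xa_lab hS hc).2 fun hl' => ?_).trans le_self_add
      have := xa_f1 k l (Ne.symm hl)
      rcases this with rfl | rfl
      · exact h0 hl'.1
      · exact h0 hl'.2
  · by_cases hl : l = k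
    · subst hl
      exact (xa_ex0 hS hY hc h0).trans le_self_add
    · have h3 := xa_f1 l k hl
      have h4 : ρ l ∈ Y := by rcases h3 with rfl | rfl <;> assumption
      rw [if_pos (by rcases h3 with rfl | rfl <;> simp)]
      obtain ⟨n, hn⟩ := xa_f2 l k hl
      refine xa_ex1 (R := {ρ n}) hS fun u hu hul => ⟨_, mem_singleton_self _, ?_⟩
      obtain ⟨j', j1, j2⟩ := hg j hj l hj' u (hYX hu) hul (hc _ h4 u hu)
      have := hcl u hu j' (j2.mono (filter_subset _ _))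
      rwa [← hn j' (by rintro rfl; exact h0 this) j1]

/-- the path from a root to the part of another root avoids the third root -/
theorem xa_avoid (hR : Rooted G X ρ L) {a b c : Fin 3} (hab : a ≠ b) (hac : a ≠ c)
    (h1 : G.Conn S (ρ a) (ρ c))
    (h2 : ¬ G.Conn (S.filter fun g => ¬ G.Inc g (ρ a)) (ρ c) (ρ b)) :
    G.Conn (S.filter fun g => ¬ G.Inc g (ρ b)) (ρ a) (ρ c) := by
  obtain ⟨f, hf, p, hp, hc⟩ := Gr.exists_first h1 fun k => hac (hR.inj k).symm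
  refine (Gr.Conn.edge (mem_filter.2 ⟨hf, ?_⟩) hp).trans
    (xa_comp hc.symm fun e he k => mem_filter.2 ⟨(mem_filter.1 he).1, ?_⟩).symm
  · intro k
    rcases hp.inc_iff.1 k with k | k
    · exact hab (hR.inj k).symm
    · exact h2 (k ▸ hc.symm)
  · intro k'
    apply h2
    rcases k' with k' | k'
    · exact k' ▸ k
    · exact k' ▸ k.trans (Gr.Conn.edge he (G.joins_st e))

theorem xa_three (hR : Rooted G X ρ L) (h : XHyp G X ρ L I μ κ) (hS : S ⊆ L) (hY : G.Within S Y)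
    (hYX : Y ⊆ X) (h0 : ∀ k, ρ k ∈ Y) (hc : ∀ u ∈ Y, ∀ w ∈ Y, G.Conn S u w)
    (hg : XaGood G X ρ I κ S) : ∑ e ∈ S, μ e ≤ ∑ i ∈ I, ((κ i).mat G ρ L).r S := by
  have f3 := xa_f1
  have e2 : ∀ j ∈ I, ∀ l, κ j = .ex l → ∀ u ∈ Y, u ≠ ρ l →
      G.Conn (S.filter fun g => ¬ G.Inc g (ρ l)) u (ρ (l + 1)) ∨
      G.Conn (S.filter fun g => ¬ G.Inc g (ρ l)) u (ρ (l + 2)) := by
    intro j hj l hl u hu hul
    obtain ⟨j', j1, j2⟩ := hg j hj l hl u (hYX hu) hul (hc _ (h0 l) u hu)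
    rcases f3 j' l j1 with rfl | rfl
    · exact Or.inl j2
    · exact Or.inr j2
  have e1 : ∀ j ∈ I, (∀ l, κ j = .ex l →
      G.Conn (S.filter fun g => ¬ G.Inc g (ρ l)) (ρ (l + 1)) (ρ (l + 2))) →
      Y.card ≤ ((κ j).mat G ρ L).r S + 1 + if κ j ≠ .tree then 1 else 0 := by
    intro j hj hj2
    rcases hj' : κ j with _ | l | l
    · exact (BM.le_r_gm hS hc).trans le_self_add
    · rw [if_pos (by simp)]
      exact (xa_lab hS hc).1
    · rw [if_pos (by simp)]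
      refine xa_ex1 (R := {ρ (l + 2)}) hS fun u hu hul => ⟨_, mem_singleton_self _, ?_⟩
      rcases e2 j hj l hj' u hu hul with k | k
      · exact k.trans (hj2 l hj')
      · exact k
  by_cases hq : ∀ j ∈ I, ∀ l, κ j = .ex l →
      G.Conn (S.filter fun g => ¬ G.Inc g (ρ l)) (ρ (l + 1)) (ρ (l + 2))
  · exact xa_sum _ hS hY (fun j hj => e1 j hj (hq j hj)) (card_filter _ _).ge
      (xa_slack hS hY (h.h3 Y hYX h0))
  push Not at hq
  obtain ⟨i, hi, k, hk, hn⟩ := hq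
  refine xa_sum (c := (I.filter fun i => κ i ≠ .tree).card + 1)
    (fun j => (if κ j ≠ .tree then 1 else 0) + if j = i then 1 else 0) hS hY (fun j hj => ?_) ?_ ?_
  · by_cases hji : j = i
    · subst hji
      rw [hk, if_pos (by simp), if_pos rfl]
      refine (xa_ex1 (R := {ρ (k + 1), ρ (k + 2)}) hS fun u hu hul => ?_).trans
        (Nat.add_le_add_left card_le_two _)
      rcases e2 j hj k hk u hu hul with k | k
      · exact ⟨_, by simp, k⟩
      · exact ⟨_, by simp, k⟩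
    · rw [if_neg hji, add_zero]
      refine e1 j hj fun l hl => ?_
      rcases f3 l k (by rintro rfl; exact hji (h.once j hj i hi l hl hk)) with rfl | rfl
      · have := xa_avoid hR (a := k) (b := k + 1) (c := k + 2) (by simp) (by simp)
          (hc _ (h0 _) _ (h0 _)) fun k => hn k.symm
        rw [(xa_f3 k).1, (xa_f3 k).2.1]
        exact this.symm
      · have := xa_avoid hR (a := k) (b := k + 2) (c := k + 1) (by simp) (by simp)
          (hc _ (h0 _) _ (h0 _)) hn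
        rw [(xa_f3 k).2.2.1, (xa_f3 k).2.2.2]
        exact this
  · rw [sum_add_distrib, card_filter]
    simp [hi]
  · set S' := S.filter fun g => ¬ G.Inc g (ρ k) with hS'
    have hY' : G.Within S' Y := hY.mono (filter_subset _ _)
    have sub : ∀ v, insert (ρ k) (G.comp Y S' v) ⊆ X := fun v =>
      insert_subset (hR.mem k) fun z hz => hYX (Gr.mem_comp.1 hz).1
    have self : ∀ j, ρ j ∈ insert (ρ k) (G.comp Y S' (ρ j)) := fun j =>
      mem_insert_of_mem (Gr.mem_comp.2 ⟨h0 j, Gr.Conn.refl _ _ _⟩)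
    have h4 := h.h4 i hi k hk _ (sub _) _ (sub _) (mem_insert_self _ _) (self _)
      (mem_insert_self _ _) (self _)
    have cov : ∀ u ∈ Y, u ≠ ρ k → u ∈ G.comp Y S' (ρ (k + 1)) ∨ u ∈ G.comp Y S' (ρ (k + 2)) :=
      fun u hu hul => (e2 i hi k hk u hu hul).imp (fun k => Gr.mem_comp.2 ⟨hu, k.symm⟩)
        fun k => Gr.mem_comp.2 ⟨hu, k.symm⟩
    have h5 : S ⊆ G.ind L (insert (ρ k) (G.comp Y S' (ρ (k + 1)))) ∪
        G.ind L (insert (ρ k) (G.comp Y S' (ρ (k + 2)))) := by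
      intro e he
      have a1 := cov _ (hY e he).1
      have a2 := cov _ (hY e he).2
      have a3 := hS he
      have a4 := fun v k => xa_inc (u := v) (z := G.s e) hY' (mem_filter.2 ⟨he, k⟩)
      simp only [mem_union, Gr.mem_ind, mem_insert, Gr.Inc] at *
      grind
    have h6 := sum_le_sum_of_subset (f := μ) h5
    have h7 := sum_union_inter (s₁ := G.ind L (insert (ρ k) (G.comp Y S' (ρ (k + 1)))))
      (s₂ := G.ind L (insert (ρ k) (G.comp Y S' (ρ (k + 2))))) (f := μ)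
    have h8 : (G.comp Y S' (ρ (k + 1))).card + (G.comp Y S' (ρ (k + 2))).card + 1 ≤ Y.card := by
      rw [← card_union_of_disjoint (disjoint_left.2 fun z k1 k2 =>
        hn ((Gr.mem_comp.1 k1).2.trans (Gr.mem_comp.1 k2).2.symm)), Nat.succ_le_iff]
      refine card_lt_card ⟨union_subset (fun z hz => (Gr.mem_comp.1 hz).1)
        fun z hz => (Gr.mem_comp.1 hz).1, fun k' => ?_⟩
      have iso : ∀ v, G.Conn S' v (ρ k) → v = ρ k := fun v hv =>
        hv.symm.eq_of_isolated fun e he => (mem_filter.1 he).2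
      rcases mem_union.1 (k' (h0 k)) with k' | k'
      · simpa using hR.inj (iso _ (Gr.mem_comp.1 k').2)
      · simpa using hR.inj (iso _ (Gr.mem_comp.1 k').2)
    have h9 := card_insert_le (ρ k) (G.comp Y S' (ρ (k + 1)))
    have h10 := card_insert_le (ρ k) (G.comp Y S' (ρ (k + 2)))
    have h11 := Nat.mul_le_mul_left I.card (show (insert (ρ k) (G.comp Y S' (ρ (k + 1)))).card +
      (insert (ρ k) (G.comp Y S' (ρ (k + 2)))).card ≤ Y.card + 1 by omega)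
    rw [mul_add I.card Y.card, mul_one] at h11
    omega

end

theorem x_rank {G : Gr ℕ ℕ} {X L I S : Finset ℕ} {ρ : Fin 3 → ℕ} {μ : ℕ → ℕ} {κ : ℕ → XK}
    (hR : Rooted G X ρ L) (h : XHyp G X ρ L I μ κ) (hS : S ⊆ L) :
    ∑ e ∈ S, μ e ≤ ∑ i ∈ I, ((κ i).mat G ρ L).r S := by
  induction S using Finset.strongInduction with
  | H S ih =>
  have hX := hR.within.mono hS
  have step : ∀ Z w, (∀ k, ρ k ∉ Z) →
      (∀ e ∈ S, ∀ z ∈ Z, G.Inc e z → e ∈ G.ind S (insert w Z)) →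
      (G.ind S (insert w Z)).Nonempty → ∑ e ∈ G.ind S (insert w Z), μ e ≤
        ∑ i ∈ I, ((κ i).mat G ρ L).r (G.ind S (insert w Z)) →
      ∑ e ∈ S, μ e ≤ ∑ i ∈ I, ((κ i).mat G ρ L).r S := by
    intro Z w h1 h2 h3 h4
    have h5 := ih _ (sdiff_ssubset (G.ind_subset _ _) h3) (sdiff_subset.trans hS)
    rw [sum_congr rfl fun i _ => xa_split hR hS h1 h2 (κ i), sum_add_distrib,
      ← sum_sdiff (G.ind_subset S (insert w Z))]
    omega
  by_cases hg : XaGood G X ρ I κ S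
  swap
  · unfold XaGood at hg
    push Not at hg
    obtain ⟨i, hi, k, hk, u, hu, huk, hc, hn⟩ := hg
    set S' := S.filter fun g => ¬ G.Inc g (ρ k) with hS'
    have hX' : G.Within S' X := hX.mono (filter_subset _ _)
    have h1 : ∀ j, ρ j ∉ G.comp X S' u := fun j hj => by
      by_cases hjk : j = k
      · subst hjk
        exact huk ((Gr.mem_comp.1 hj).2.symm.eq_of_isolated fun e he => (mem_filter.1 he).2)
      · exact hn j hjk (Gr.mem_comp.1 hj).2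
    obtain ⟨f, hf, p, hp, hpu⟩ := Gr.exists_first hc huk
    have hp' : p ∈ G.comp X S' u := Gr.mem_comp.2 ⟨(hp.mem hX hf).2, hpu.symm⟩
    have hf' : f ∈ G.ind S (insert (ρ k) (G.comp X S' u)) :=
      hp.mem_ind.2 ⟨hf, mem_insert_self _ _, mem_insert_of_mem hp'⟩
    have c1 : ∀ w ∈ G.comp X S' u, G.Conn ((G.ind S (insert (ρ k) (G.comp X S' u))).filter
        fun g => ¬ G.Inc g (ρ k)) w u := fun w hw =>
      (xa_comp (Gr.mem_comp.1 hw).2 fun e he k => mem_filter.2 ⟨Gr.mem_ind.2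
        ⟨(mem_filter.1 he).1, mem_insert_of_mem (xa_mem hX' he k).1,
          mem_insert_of_mem (xa_mem hX' he k).2⟩, (mem_filter.1 he).2⟩).symm
    have c2 : ∀ w ∈ insert (ρ k) (G.comp X S' u),
        G.Conn (G.ind S (insert (ρ k) (G.comp X S' u))) w u := by
      intro w hw
      rcases mem_insert.1 hw with rfl | hw
      · exact (Gr.Conn.edge hf' hp).trans ((c1 p hp').mono (filter_subset _ _))
      · exact (c1 w hw).mono (filter_subset _ _)
    refine step _ (ρ k) h1 (fun e he z hz hi => ?_) ⟨f, hf'⟩ (xa_piece h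
      ((G.ind_subset _ _).trans hS) (G.within_ind _ _)
      (insert_subset (hR.mem k) fun z hz => (Gr.mem_comp.1 hz).1) hi hk (mem_insert_self _ _)
      (fun j hj => hR.inj ((mem_insert.1 hj).resolve_right (h1 j)))
      (mem_insert_of_mem (Gr.mem_comp.2 ⟨hu, Gr.Conn.refl _ _ _⟩)) huk
      (fun a ha b hb => (c2 a ha).trans (c2 b hb).symm)
      fun w hw k => c1 w ((mem_insert.1 hw).resolve_left k))
    have a1 := fun k => xa_inc hX' (mem_filter.2 ⟨he, k⟩) hz hi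
    have a2 := h1 k
    simp only [Gr.mem_ind, mem_insert, Gr.Inc] at *
    grind
  have con : ∀ v, ∀ a ∈ G.comp X S v, ∀ b ∈ G.comp X S v, G.Conn S a b := fun v a ha b hb =>
    (Gr.mem_comp.1 ha).2.symm.trans (Gr.mem_comp.1 hb).2
  by_cases hA : ∃ e ∈ S, ∀ a b, G.Conn S (G.s e) (ρ a) → G.Conn S (G.s e) (ρ b) → a = b
  · obtain ⟨e, he, hA⟩ := hA
    have hs := xa_mem hX he (Gr.Conn.refl _ _ _)
    obtain ⟨w, hw, hw'⟩ : ∃ w ∈ G.comp X S (G.s e), ∀ k, ρ k ∈ G.comp X S (G.s e) → ρ k = w := by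
      by_cases k : ∃ a, ρ a ∈ G.comp X S (G.s e)
      · obtain ⟨a, ha⟩ := k
        exact ⟨_, ha, fun b hb => by rw [hA b a (Gr.mem_comp.1 hb).2 (Gr.mem_comp.1 ha).2]⟩
      · exact ⟨_, hs.1, fun b hb => absurd ⟨b, hb⟩ k⟩
    have c1 : ∀ a ∈ G.comp X S (G.s e), G.Conn (G.ind S (G.comp X S (G.s e))) (G.s e) a :=
      fun a ha => xa_comp (Gr.mem_comp.1 ha).2 fun g hg k => Gr.mem_ind.2 ⟨hg, xa_mem hX hg k⟩
    refine step ((G.comp X S (G.s e)).erase w) w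
      (fun k hk => ne_of_mem_erase hk (hw' k (mem_of_mem_erase hk))) ?_ ?_ ?_
    all_goals rw [insert_erase hw]
    · exact fun g hg z hz hi => Gr.mem_ind.2 ⟨hg, xa_inc hX hg (mem_of_mem_erase hz) hi⟩
    · exact ⟨e, Gr.mem_ind.2 ⟨he, hs⟩⟩
    · refine xa_one h ((G.ind_subset _ _).trans hS) (G.within_ind _ _)
        (fun z hz => (Gr.mem_comp.1 hz).1) ⟨_, hw⟩
        (fun a b ha hb => hA a b (Gr.mem_comp.1 ha).2 (Gr.mem_comp.1 hb).2)
        (fun a ha b hb => (c1 a ha).symm.trans (c1 b hb)) fun i hi k hk k1 u hu => ?_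
      by_contra huk
      obtain ⟨j, j1, j2⟩ := hg i hi k hk u (Gr.mem_comp.1 hu).1 huk (con _ _ k1 _ hu)
      exact j1 (hA j k ((Gr.mem_comp.1 hu).2.trans (j2.mono (filter_subset _ _)))
        (Gr.mem_comp.1 k1).2)
  push Not at hA
  rcases S.eq_empty_or_nonempty with rfl | ⟨e, he⟩
  · simp
  obtain ⟨a, b, ha, hb, hab⟩ := hA e he
  have hY : G.Within S (G.comp X S (G.s e)) := by
    intro g hg
    obtain ⟨c, d, hc, hd, hcd⟩ := hA g hg
    refine xa_mem hX hg ?_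
    have := xa_f4 a b c d hab hcd
    rcases this with rfl | rfl | rfl | rfl
    exacts [ha.trans hc.symm, ha.trans hd.symm, hb.trans hc.symm, hb.trans hd.symm]
  have hYX : G.comp X S (G.s e) ⊆ X := fun z hz => (Gr.mem_comp.1 hz).1
  by_cases h0 : ∀ k, ρ k ∈ G.comp X S (G.s e)
  · exact xa_three hR h hS hY hYX h0 (con _) hg
  push Not at h0
  obtain ⟨k, hk⟩ := h0
  have ha' := Gr.mem_comp.2 ⟨hR.mem a, ha⟩
  have hb' := Gr.mem_comp.2 ⟨hR.mem b, hb⟩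
  have hak : a ≠ k := by rintro rfl; exact hk ha'
  have hbk : b ≠ k := by rintro rfl; exact hk hb'
  have := xa_f5 a b k hab hak hbk
  have hcl : ∀ u ∈ G.comp X S (G.s e), ∀ j, G.Conn S u (ρ j) → ρ j ∈ G.comp X S (G.s e) :=
    fun u hu j k => Gr.mem_comp.2 ⟨hR.mem j, (Gr.mem_comp.1 hu).2.trans k⟩
  rcases this with ⟨rfl, rfl⟩ | ⟨rfl, rfl⟩
  · exact xa_two h hS hY hYX hk ha' hb' (con _) hcl hg
  · exact xa_two h hS hY hYX hk hb' ha' (con _) hcl hg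

end Pool.Agent.P.MP_3f5ce9_co
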