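import Pool.Agent.P.MP_3f5ce9_co.W.DefsC
import Pool.Agent.P.MP_3f5ce9_co.W.Union
import Pool.Agent.P.MP_3f5ce9_co.W.XA

/-!
Two trees in a critical set.
-/

open Finset

namespace Pool.Agent.P.MP_3f5ce9_co

namespace Gr

variable {G : Gr ℕ ℕ} {X Y Z U S Es : Finset ℕ} {u b : ℕ}

/-- splitting an edge set along the components that remain after deleting `b` -/
theorem hx_split (hW : G.Within U X) (hl : ∀ e ∈ U, G.s e ≠ G.t e) (b : ℕ) (f : Finset ℕ → ℕ)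
    (hadd : ∀ Y S1 S2, b ∉ Y → S1 ⊆ U → S2 ⊆ U → G.Within S1 (insert b Y) →
      G.Within S2 (X \ Y) → f S1 + f S2 ≤ f (S1 ∪ S2))
    (hone : ∀ Y ⊆ X, b ∉ Y → Y.Nonempty → ∀ S ⊆ U, S.Nonempty → G.Within S (insert b Y) →
      (∀ u ∈ Y, ∀ w ∈ Y, G.Conn (S \ G.star U b) u w) → S.card ≤ f S) :
    ∀ S ⊆ U, S.card ≤ f S := by
  intro S
  induction S using Finset.strongInduction with
  | H S ih =>
  intro hS
  rcases S.eq_empty_or_nonempty with rfl | ⟨e, he⟩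
  · exact Nat.zero_le _
  obtain ⟨u, hu, hub⟩ : ∃ u, G.Inc e u ∧ u ≠ b := by
    by_cases c : G.s e = b
    · exact ⟨G.t e, Or.inr rfl, fun c' => hl e (hS he) (c.trans c'.symm)⟩
    · exact ⟨G.s e, Or.inl rfl, c⟩
  have hF : G.Within (S \ G.star U b) (X.erase b) := fun g hg => by
    obtain ⟨g1, g2⟩ := mem_sdiff.1 hg
    have g3 : ¬ G.Inc g b := fun c => g2 (mem_star.2 ⟨hS g1, c⟩)
    exact ⟨mem_erase.2 ⟨fun c => g3 (Or.inl c), (hW g (hS g1)).1⟩,
      mem_erase.2 ⟨fun c => g3 (Or.inr c), (hW g (hS g1)).2⟩⟩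
  obtain ⟨Y, hY⟩ : ∃ Y, Y = G.comp (X.erase b) (S \ G.star U b) u := ⟨_, rfl⟩
  have huY : u ∈ Y := hY ▸ mem_comp.2 ⟨mem_erase.2 ⟨hub, hu.mem hW (hS he)⟩, Conn.refl _ _ _⟩
  have hYX : Y ⊆ X.erase b := fun z hz => (mem_comp.1 (hY ▸ hz)).1
  have hbY : b ∉ Y := fun c => notMem_erase b X (hYX c)
  have key : ∀ g ∈ S, ∀ z ∈ Y, G.Inc g z → g ∈ G.ind S (insert b Y) := by
    intro g hg z hz hi
    by_cases c : G.Inc g b
    · have hzb : z ≠ b := fun c' => hbY (c' ▸ hz)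
      refine mem_ind.2 ⟨hg, ?_⟩
      rcases hi with rfl | rfl <;> rcases c with c | c
      · exact (hzb c).elim
      · exact ⟨mem_insert_of_mem hz, c ▸ mem_insert_self _ _⟩
      · exact ⟨c ▸ mem_insert_self _ _, mem_insert_of_mem hz⟩
      · exact (hzb c).elim
    · have := xa_inc hF (mem_sdiff.2 ⟨hg, fun c' => c (mem_star.1 c').2⟩) (hY ▸ hz) hi
      rw [← hY] at this
      exact mem_ind.2 ⟨hg, mem_insert_of_mem this.1, mem_insert_of_mem this.2⟩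
  have h1 := G.ind_subset S (insert b Y)
  have he1 := key e he u huY hu
  have a1 := hone Y (hYX.trans (erase_subset _ _)) hbY ⟨u, huY⟩ _ (h1.trans hS) ⟨e, he1⟩
    (G.within_ind _ _) (by
      have : ∀ w ∈ Y, G.Conn (G.ind S (insert b Y) \ G.star U b) u w := fun w hw =>
        xa_comp (mem_comp.1 (hY ▸ hw)).2 fun g hg hc => mem_sdiff.2 ⟨key g (mem_sdiff.1 hg).1 _
          (hY ▸ mem_comp.2 ⟨(hF g hg).1, hc⟩) (Or.inl rfl), (mem_sdiff.1 hg).2⟩
      exact fun v hv w hw => (this v hv).symm.trans (this w hw))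
  have a2 := ih (S \ G.ind S (insert b Y)) (sdiff_ssubset h1 ⟨e, he1⟩) (sdiff_subset.trans hS)
  have a3 := hadd Y _ (S \ G.ind S (insert b Y)) hbY (h1.trans hS) (sdiff_subset.trans hS)
    (G.within_ind _ _) fun g hg => by
      obtain ⟨g1, g2⟩ := mem_sdiff.1 hg
      exact ⟨mem_sdiff.2 ⟨(hW g (hS g1)).1, fun c => g2 (key g g1 _ c (Or.inl rfl))⟩,
        mem_sdiff.2 ⟨(hW g (hS g1)).2, fun c => g2 (key g g1 _ c (Or.inr rfl))⟩⟩
  have a4 := card_sdiff_add_card_eq_card h1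
  rw [union_sdiff_of_subset h1] at a3
  omega

theorem hx_one (b : ℕ) (X Y : Finset ℕ) : (insert b Y ∩ (X \ Y)).card ≤ 1 := by
  refine (card_le_card fun z hz => ?_).trans (card_singleton b).le
  simp only [mem_inter, mem_insert, mem_sdiff, mem_singleton] at hz ⊢
  tauto

theorem SpA.hx_le (h : G.SpA X U) (hl : ∀ e ∈ U, G.s e ≠ G.t e) (hS : S ⊆ U) (hne : S.Nonempty)
    (hY : Y ⊆ X) (hW : G.Within S Y) : S.card + 3 ≤ 2 * Y.card := by
  obtain ⟨e, he⟩ := hne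
  have a1 := h Y hY (one_lt_card.2 ⟨_, (hW e he).1, _, (hW e he).2, hl e (hS he)⟩)
  have a2 : S.card ≤ (G.ind U Y).card := card_le_card fun g hg => mem_ind.2 ⟨hS hg, hW g hg⟩
  omega

/-- either no edge meets `b` or the edge set is connected on `insert b Y` -/
theorem hx_cases (hl : ∀ e ∈ U, G.s e ≠ G.t e) (hS : S ⊆ U)
    (hW : G.Within S (insert b Y)) (hc : ∀ u ∈ Y, ∀ w ∈ Y, G.Conn (S \ G.star U b) u w) :
    G.Within S Y ∨ ((∃ e ∈ S, G.Inc e b) ∧ ∀ u ∈ insert b Y, G.Conn S u b) := by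
  by_cases c : ∃ e ∈ S, G.Inc e b
  · refine Or.inr ⟨c, fun u hu => ?_⟩
    obtain ⟨e, he, hi⟩ := c
    obtain ⟨w, hw⟩ := hi.exists_joins
    have h1 : w ≠ b := by
      rintro rfl
      rcases hw with ⟨a1, a2⟩ | ⟨a1, a2⟩ <;> exact hl e (hS he) (a1.trans a2.symm)
    have h2 : w ∈ Y := (mem_insert.1 (hw.mem hW he).2).resolve_left h1
    rcases mem_insert.1 hu with rfl | hu
    · exact Conn.refl _ _ _
    · exact ((hc u hu w h2).mono sdiff_subset).trans (Conn.edge he hw.symm)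
  · refine Or.inl fun e he => ⟨(mem_insert.1 (hW e he).1).resolve_left fun c' => c ⟨e, he, ?_⟩,
      (mem_insert.1 (hW e he).2).resolve_left fun c' => c ⟨e, he, ?_⟩⟩
    · exact Or.inl c'
    · exact Or.inr c'

theorem hx_star (hS : S ⊆ U) (hc : ∀ u ∈ Y, ∀ w ∈ Y, G.Conn (S \ G.star U b) u w) :
    Y.card ≤ (BM.gm G (U \ G.star U b)).r S + 1 :=
  (BM.le_r_gm (sdiff_subset_sdiff hS Subset.rfl) hc).trans
    (Nat.add_le_add_right (BM.r_mono _ sdiff_subset) 1)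

/-- sparse edge sets are smaller than twice their rank -/
theorem SpA.card_lt (h : G.SpA X U) (hW : G.Within U X) (hl : ∀ e ∈ U, G.s e ≠ G.t e) (hU : U ⊆ Es)
    (hS : S ⊆ U) (hne : S.Nonempty) : S.card + 1 ≤ 2 * (BM.gm G Es).r S := by
  obtain ⟨b, hb⟩ := Infinite.exists_notMem_finset X
  have := hx_split hW hl b (fun S => 2 * (BM.gm G Es).r S - 1) (fun Y S1 S2 _ _ _ h1 h2 => by
    have := BM.r_gm_union (Es := Es) h1 h2 (hx_one b X Y)
    omega) (fun Y hY _ _ S hS hne h1 hc => by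
    rcases hx_cases hl hS h1 hc with c | ⟨⟨e, he, c⟩, -⟩
    · have a1 := h.hx_le hl hS hne hY c
      have a2 := BM.le_r_gm (hS.trans hU) fun u hu w hw => (hc u hu w hw).mono sdiff_subset
      omega
    · exact (hb (c.mem hW (hS he))).elim) S hS
  have := hne.card_pos
  omega

theorem x1 (hW : G.Within U Z) (hl : ∀ e ∈ U, G.s e ≠ G.t e) (h : G.SpA Z U)
    (hc : U.card + 3 = 2 * Z.card) (hu : u ∈ Z) :
    ∃ A B, Disjoint A B ∧ A ∪ B = U ∧ G.Tr Z A ∧ G.Tr (Z.erase u) B := by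
  obtain ⟨A, B, h1, h2, h3, h4⟩ := BM.union_two (BM.gm G U) (BM.gm G (U \ G.star U u)) U
    (hx_split hW hl u (fun S => (BM.gm G U).r S + (BM.gm G (U \ G.star U u)).r S)
      (fun Y S1 S2 _ _ _ h1 h2 => by
        have a1 := BM.r_gm_union (Es := U) h1 h2 (hx_one u Z Y)
        have a2 := BM.r_gm_union (Es := U \ G.star U u) h1 h2 (hx_one u Z Y)
        omega) fun Y hY hb _ S hS hne h1 hc => by
      have a0 := hx_star hS hc
      rcases hx_cases hl hS h1 hc with c | ⟨-, c⟩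
      · have a1 := h.hx_le hl hS hne hY c
        have a2 := BM.le_r_gm hS fun u hu w hw => (hc u hu w hw).mono sdiff_subset
        omega
      · have a1 := h.hx_le hl hS hne (insert_subset hu hY) h1
        have a2 := BM.le_r_gm hS fun v hv w hw => (c v hv).trans (c w hw).symm
        rw [card_insert_of_notMem hb] at a1 a2
        omega)
  obtain ⟨a1, a2⟩ := BM.indep_gm.1 h1
  obtain ⟨b1, b2⟩ := BM.indep_gm.1 h2
  have b3 : G.Within B (Z.erase u) := fun g hg => by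
    obtain ⟨g1, g2⟩ := mem_sdiff.1 (b1 hg)
    have g3 : ¬ G.Inc g u := fun c => g2 (mem_star.2 ⟨g1, c⟩)
    exact ⟨mem_erase.2 ⟨fun c => g3 (Or.inl c), (hW g g1).1⟩,
      mem_erase.2 ⟨fun c => g3 (Or.inr c), (hW g g1).2⟩⟩
  have c1 := card_erase_add_one hu
  have c2 : (Z.erase u).Nonempty := card_pos.1 (by omega)
  have c3 := card_le_of_acyc _ G A Z rfl (hW.mono a1) ⟨u, hu⟩ a2
  have c4 := card_le_of_acyc _ G B _ rfl b3 c2 b2
  have c5 := card_union_of_disjoint h3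
  rw [h4] at c5
  exact ⟨A, B, h3, h4, a2.tr (hW.mono a1) (by omega) ⟨u, hu⟩, b2.tr b3 (by omega) c2⟩

end Gr

end Pool.Agent.P.MP_3f5ce9_co
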