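import Pool.Agent.P.MP_3f5ce9_co.W.DefsH2
import Pool.Agent.P.MP_3f5ce9_co.W.HCount
import Pool.Agent.P.MP_3f5ce9_co.W.HX1

/-!
Rearranging the two trees inside a critical set.
-/

open Finset

namespace Pool.Agent.P.MP_3f5ce9_co

namespace Gr

variable {G : Gr ℕ ℕ} {X Y Z P P' Es F U U' A Φ : Finset ℕ} {p q α β σ σ' τ τ' : Finset ℕ × Finset ℕ}
  {u u' w w' v r a b c a' b' c' e f g x y z φ ψ n : ℕ}

theorem exists_seg (hA : G.Within U Z) (hu : u ∈ Z) (hw : w ∈ Z) (h : G.Conn (U ∪ U') u w)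
    (hn : ¬ G.Conn U u w) : ∃ u1 ∈ Z, ∃ u2 ∈ Z, u1 ≠ u2 ∧ G.Conn U' u1 u2 := by
  by_contra hc
  push Not at hc
  have hc' : ∀ u1 ∈ Z, ∀ u2 ∈ Z, G.Conn U' u1 u2 → u1 = u2 := fun u1 h1 u2 h2 h3 =>
    by_contra fun h4 => hc u1 h1 u2 h2 h4 h3
  have key : ∀ e ∈ U, ∀ s t, G.Joins e s t → (∃ u0 ∈ Z, G.Conn U u u0 ∧ G.Conn U' u0 s) →
      ∃ u0 ∈ Z, G.Conn U u u0 ∧ G.Conn U' u0 t := by
    rintro e he s t hj ⟨u0, h0, h1, h2⟩
    have hm := hj.mem hA he
    obtain rfl := hc' u0 h0 s hm.1 h2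
    exact ⟨t, hm.2, h1.trans (Conn.edge he hj), Conn.refl _ _ _⟩
  have key' : ∀ e ∈ U', ∀ s t, G.Joins e s t → (∃ u0 ∈ Z, G.Conn U u u0 ∧ G.Conn U' u0 s) →
      ∃ u0 ∈ Z, G.Conn U u u0 ∧ G.Conn U' u0 t := by
    rintro e he s t hj ⟨u0, h0, h1, h2⟩
    exact ⟨u0, h0, h1, h2.trans (Conn.edge he hj)⟩
  obtain ⟨u0, h0, h1, h2⟩ := (h {t | ∃ u0 ∈ Z, G.Conn U u u0 ∧ G.Conn U' u0 t} (by
    intro e he
    rcases mem_union.1 he with he | he
    · exact ⟨key e he _ _ (G.joins_st e), key e he _ _ (G.joins_st e).symm⟩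
    · exact ⟨key' e he _ _ (G.joins_st e), key' e he _ _ (G.joins_st e).symm⟩)).1
    ⟨u, hu, Conn.refl _ _ _, Conn.refl _ _ _⟩
  obtain rfl := hc' u0 h0 w hw h2
  exact hn h1

theorem hsw_root (hr : r ∈ Z) (h : (G.map (cw Z r)).Conn U w r) :
    ∃ u ∈ Z, G.Conn U w u := by
  by_contra hn
  push Not at hn
  have key : ∀ t, G.Conn U w (cw Z r t) ↔ G.Conn U w t := fun t => by
    by_cases ht : t ∈ Z
    · rw [cw_of_mem ht]
      exact iff_of_false (hn r hr) (hn t ht)
    · rw [cw_of_not ht]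
  refine hn r hr ((h {t | G.Conn U w t} fun e he => ?_).1 (Conn.refl _ _ _))
  simp only [map_s, map_t, Set.mem_ofPred_eq, key]
  exact G.closed_comp U w e he

theorem hsw_entry (h : (G.map (cw Z r)).Tr (insert r (X \ Z)) U) (hr : r ∈ Z) (hw : w ∈ X) :
    ∃ u ∈ Z, G.Conn U w u := by
  by_cases h1 : w ∈ Z
  · exact ⟨w, h1, Conn.refl _ _ _⟩
  · exact hsw_root hr (h.conn w (mem_insert_of_mem (mem_sdiff.2 ⟨hw, h1⟩)) r
      (mem_insert_self _ _))

theorem hsw_unique (h : (G.map (cw Z r)).Acyc U) (hu : u ∈ Z) (hw : w ∈ Z) (hc : G.Conn U u w) :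
    u = w := by
  by_contra hn
  obtain ⟨f, hf, t, hj, h1⟩ := exists_first hc (Ne.symm hn)
  refine h.not_conn hf (hj.map (cw Z r)) ?_
  have h2 := (h1.map (cw Z r)).symm
  rw [show cw Z r w = cw Z r u by rw [cw_of_mem hw, cw_of_mem hu]] at h2
  refine h2.mono fun g hg => mem_erase.2 ⟨?_, (mem_filter.1 hg).1⟩
  rintro rfl
  exact (mem_filter.1 hg).2 hj.inc

theorem hsw_erase (hT : G.Acyc A) (hU : U ⊆ A) (hg : g ∈ A) (h : G.Conn U u w)
    (h' : G.Conn (A.erase g) u w) : G.Conn (U.erase g) u w := by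
  have h6 : G.Closed (U.erase g) {z | G.Conn (A.erase g) u z} := fun e he =>
    G.closed_comp _ u e (erase_subset_erase _ hU he)
  by_cases h7 : G.Conn (A.erase g) u (G.t g)
  · exact Conn.erase_of_side (G.joins_st g).symm h6
      (fun h8 => hT g hg (Conn.trans (Conn.symm h8) h7)) (Conn.refl _ _ _) h' h
  · exact Conn.erase_of_side (G.joins_st g) h6 h7 (Conn.refl _ _ _) h' h

/-- an edge of the path from `u` to `w` leaves any set containing `u` but not `w` -/
theorem hsw_sep (hT : G.Acyc A) (W : Set ℕ) (hu : u ∈ W) (hw : w ∉ W) (n : ℕ) :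
    ∀ U : Finset ℕ, U.card = n → U ⊆ A → G.Conn U u w →
      ∃ g ∈ U, ¬ (G.s g ∈ W ↔ G.t g ∈ W) ∧ ¬ G.Conn (A.erase g) u w := by
  induction n using Nat.strong_induction_on with
  | _ n ih =>
  intro U hn hU h
  obtain ⟨g, hg, h1⟩ : ∃ g ∈ U, ¬ (G.s g ∈ W ↔ G.t g ∈ W) := by
    by_contra h1
    exact hw ((h W fun g hg => by_contra fun h2 => h1 ⟨g, hg, h2⟩).1 hu)
  by_cases h2 : G.Conn (A.erase g) u w
  · have := card_erase_add_one hg
    obtain ⟨g', h3, h4⟩ := ih _ (by omega) (U.erase g) rfl ((erase_subset _ _).trans hU)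
      (hsw_erase hT hU (hU hg) h h2)
    exact ⟨g', mem_of_mem_erase h3, h4⟩
  · exact ⟨g, hg, h1, h2⟩

theorem hsw_tr (hW : G.Within U X) (h : ∀ t ∈ X, G.Conn U t r) (hc : U.card + 1 = X.card) :
    G.Tr X U :=
  ⟨hW, fun s hs t ht => (h s hs).trans (h t ht).symm, hc⟩

theorem St.swap_in (hp : G.St X Es p) (hZ : Z ⊆ X) (hc : (G.ind Es Z).card + 3 = 2 * Z.card)
    (hs : G.SpA Z (G.ind Es Z)) (h1 : (G.ind p.1 Z).card + 1 = Z.card) (hu : u ∈ Z) (hw : w ∈ Z)
    (huw : u ≠ w) (h : G.Conn ((p.2 \ G.ind Es Z) \ F) u w) (hF : Disjoint F (G.ind Es Z)) :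
    ∃ q, G.St X Es q ∧ Agree F p q ∧ G.Tr Z (G.ind q.2 Z) := by
  obtain ⟨S, T⟩ := p
  simp only at h1 h
  have hST := hp.card_ind Z
  set U := G.ind Es Z with hU
  have cS : ∀ g, g ∈ S \ G.ind S Z ↔ g ∈ S ∧ g ∉ U := fun g => by
    have := hp.cov g
    simp only [hU, mem_sdiff, mem_ind] at *
    tauto
  have cT : ∀ g, g ∈ T \ G.ind T Z ↔ g ∈ T ∧ g ∉ U := fun g => by
    have := hp.cov g
    simp only [hU, mem_sdiff, mem_ind] at *
    tauto
  have k1 := card_sdiff_add_card_eq_card (G.ind_subset S Z)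
  have k2 := card_sdiff_add_card_eq_card (G.ind_subset T Z)
  have hS := hp.fst.cw_down hZ hu h1
  simp only at hS hST
  set S' := S \ G.ind S Z with hS'
  set T' := T \ G.ind T Z with hT'
  have ent : ∀ t ∈ X, ∃ u0 ∈ Z, G.Conn S' t u0 := fun t ht => hsw_entry hS hu ht
  obtain ⟨g, hg, hY, hsep⟩ := hsw_sep hp.snd.acyc {t | G.Conn S' u t} (Conn.refl _ _ _)
    (fun h2 => huw (hsw_unique hS.acyc hu hw h2)) _ _ rfl
    (sdiff_subset.trans sdiff_subset) h
  simp only [mem_sdiff] at hg
  have gX := hp.snd.within g hg.1.1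
  obtain ⟨u1, m1, e1⟩ := ent _ gX.1
  obtain ⟨u2, m2, e2⟩ := ent _ gX.2
  have hne : u2 ≠ u1 := by
    rintro rfl
    exact hY ⟨fun h2 => Conn.trans h2 (e1.trans e2.symm), fun h2 => Conn.trans h2 (e2.trans e1.symm)⟩
  obtain ⟨A, B, hd, hAB, tA, tB⟩ := x1 (G.within_ind Es Z)
    (fun e he => hp.ne (G.ind_subset _ _ he) (G.joins_st e)) hs hc m1
  have cU : ∀ e, e ∈ U ↔ e ∈ A ∨ e ∈ B := fun e => by rw [hU, ← hAB, mem_union]
  have dAB : ∀ e, e ∈ A → e ∉ B := fun e he => disjoint_left.1 hd he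
  have UE : ∀ e, e ∈ U → e ∈ Es := fun e he => G.ind_subset _ _ he
  have gS : g ∉ S := fun h2 => hp.disj g h2 hg.1.1
  have gT : g ∈ T' := (cT g).2 hg.1
  have k3 := hp.fst.card
  have k4 := hp.snd.card
  have k5 := tA.card
  have k6 := tB.card
  have k7 := card_erase_add_one m1
  have k8 := card_erase_add_one gT
  simp only at k3 k4
  refine ⟨(insert g (B ∪ S'), A ∪ T'.erase g), ⟨hsw_tr (r := u2) ?_ (fun t ht => ?_) ?_,
    hsw_tr (r := u) ?_ (fun t ht => ?_) ?_, fun e => ?_, fun e => ?_⟩, fun e he => ?_, ?_⟩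
  · refine hp.within.mono fun e he => ?_
    have := cS e
    have := cU e
    have := UE e
    have := hp.cov e
    have := hp.cov g
    simp only [mem_insert, mem_union] at *
    grind
  · obtain ⟨u0, m0, e0⟩ := ent t ht
    have s1 : S' ⊆ insert g (B ∪ S') := subset_union_right.trans (subset_insert _ _)
    refine (e0.mono s1).trans ?_
    by_cases h2 : u0 = u1
    · rw [h2]
      exact (e1.symm.mono s1).trans
        ((Conn.edge (mem_insert_self _ _) (G.joins_st g)).trans (e2.mono s1))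
    · exact (tB.conn u0 (mem_erase.2 ⟨h2, m0⟩) u2 (mem_erase.2 ⟨hne, m2⟩)).mono
        (subset_union_left.trans (subset_insert _ _))
  · show (insert g (B ∪ S')).card + 1 = X.card
    rw [card_insert_of_notMem, card_union_of_disjoint]
    · omega
    · exact disjoint_left.2 fun e h2 h3 => ((cS e).1 h3).2 ((cU e).2 (Or.inr h2))
    · have := cS g
      have := cU g
      simp only [mem_union]
      tauto
  · refine hp.within.mono fun e he => ?_
    have := cT e
    have := cU e
    have := UE e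
    have := hp.cov e
    simp only [mem_erase, mem_union] at *
    grind
  · have sp : ∀ e ∈ T.erase g, G.Conn (A ∪ T'.erase g) (G.s e) (G.t e) := fun e he => by
      by_cases h2 : e ∈ U
      · have := (mem_ind.1 h2).2
        exact (tA.conn _ this.1 _ this.2).mono subset_union_left
      · exact Conn.edge (mem_union_right _ (mem_erase.2 ⟨(mem_erase.1 he).1,
          (cT e).2 ⟨(mem_erase.1 he).2, h2⟩⟩)) (G.joins_st e)
    have side := fun t ht => Conn.erase_or (G.joins_st g) (hp.snd.conn _ gX.1 t ht)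
    have uw : G.Conn (A ∪ T'.erase g) w u := (tA.conn w hw u hu).mono subset_union_left
    have : G.Conn (T.erase g) t u ∨ G.Conn (T.erase g) t w := by
      rcases side t ht with a | a <;> rcases side u (hZ hu) with b | b <;>
        rcases side w (hZ hw) with c | c
      all_goals first
        | exact Or.inl (a.symm.trans b)
        | exact Or.inr (a.symm.trans c)
        | exact absurd (b.symm.trans c) hsep
    rcases this with h2 | h2
    · exact h2.of_spans sp
    · exact (h2.of_spans sp).trans uw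
  · show (A ∪ T'.erase g).card + 1 = X.card
    rw [card_union_of_disjoint]
    · omega
    · exact disjoint_left.2 fun e h2 h3 =>
        ((cT e).1 (mem_of_mem_erase h3)).2 ((cU e).2 (Or.inl h2))
  · have := cS e
    have := cT e
    have := cU e
    have := cU g
    have := dAB e
    have := hp.disj e
    simp only [mem_insert, mem_erase, mem_union] at *
    grind
  · have := cS e
    have := cT e
    have := cU e
    have := UE e
    have := hp.cov e
    have := hp.cov g
    simp only [mem_insert, mem_erase, mem_union] at *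
    grind
  · have := cS e
    have := cU e
    have := disjoint_left.1 hF he
    simp only [mem_insert, mem_union] at *
    grind
  · have : G.ind (A ∪ T'.erase g) Z = A := by
      ext e
      have := cT e
      have := tA.within e
      have := hp.cov e
      simp only [hU, mem_ind, mem_erase, mem_union] at *
      grind
    exact this.symm ▸ tA

theorem Outer.swap (h : G.Outer X Es v x y z Z r σ) : G.Outer X Es v x y z Z r σ.swap := by
  exact St.swap h

theorem LK.exists_entry (K : G.LK X Es F v x y z a' b' c' Z r) (h : G.Outer X Es v x y z Z r σ)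
    (hw : w ∈ X.erase v) : ∃ u ∈ Z, G.Conn σ.1 w u := by
  exact hsw_entry (St.fst h) K.hr hw

theorem LK.entry_unique (K : G.LK X Es F v x y z a' b' c' Z r) (h : G.Outer X Es v x y z Z r σ)
    (hu : u ∈ Z) (hw : w ∈ Z) (hc : G.Conn σ.1 u w) : u = w := by
  have _ := K.hr
  exact hsw_unique (St.fst h).acyc hu hw hc

/-- a connection to the contracted vertex comes from a connection to a vertex of `Z` -/
theorem conn_cw_root (hw : w ∉ Z) (hr : r ∈ Z) (h : (G.map (cw Z r)).Conn U w r) :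
    ∃ u ∈ Z, G.Conn U w u := by
  have _ := hw
  exact hsw_root hr h

theorem LK.dl_of_entry (K : G.LK X Es F v x y z a' b' c' Z r) (h : G.Outer X Es v x y z Z r σ)
    (hu : u ∈ Z) (ha : u ≠ a') (hc : u ≠ c') (hb : G.Conn σ.2 b' u) :
    G.DL X Es F x y z a' c' σ := by
  have N := K.node
  obtain ⟨A, B, hd, hAB, tA, tB⟩ := x1 (G.within_ind Es Z)
    (fun e he => K.loopless e (G.ind_subset _ _ he)) K.sp K.card hu
  have cU : ∀ e, e ∈ G.ind Es Z ↔ e ∈ A ∨ e ∈ B := fun e => by rw [← hAB, mem_union]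
  have dAB : ∀ e, e ∈ A → e ∉ B := fun e he => disjoint_left.1 hd he
  have UE : ∀ e, e ∈ G.ind Es Z → e ∈ Es := fun e he => G.ind_subset _ _ he
  have hv := K.hv
  have xU : x ∉ G.ind Es Z := by rw [N.jx.mem_ind]; tauto
  have yU : y ∉ G.ind Es Z := by rw [N.jy.mem_ind]; tauto
  have zU : z ∉ G.ind Es Z := by rw [N.jz.mem_ind]; tauto
  have cσ : ∀ e, (e ≠ z ∧ e ≠ y ∧ e ≠ x ∧ e ∈ Es) ∧ e ∉ G.ind Es Z ↔ e ∈ σ.1 ∨ e ∈ σ.2 := fun e => by
    simpa only [mem_sdiff, mem_erase] using St.cov h e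
  have hW : G.Within σ.1 (X.erase v) := fun e he => by
    have h1 := ((cσ e).2 (Or.inl he)).1
    have h2 := K.within e h1.2.2.2
    have h3 := N.all e h1.2.2.2
    unfold Inc at h3
    simp only [mem_erase]
    tauto
  have hZ : Z ⊆ X.erase v := subset_erase.2 ⟨K.sub, hv⟩
  have mx := N.jx.mem K.within N.hx
  have xy := N.xy
  have xz := N.xz
  have yz := N.yz
  have sB : B ⊆ insert y (insert z (B ∪ σ.2)) :=
    subset_union_left.trans ((subset_insert _ _).trans (subset_insert _ _))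
  have sσ : σ.2 ⊆ insert y (insert z (B ∪ σ.2)) :=
    subset_union_right.trans ((subset_insert _ _).trans (subset_insert _ _))
  have cB := fun t h1 h2 => tB.conn t (mem_erase.2 ⟨h1, h2⟩) c' (mem_erase.2 ⟨hc.symm, K.hc⟩)
  refine ⟨(insert x (A ∪ σ.1), insert y (insert z (B ∪ σ.2))),
    ⟨(tA.cw_up (St.fst h) hW hZ K.hr).leaf_add mx.1 N.jx (hZ K.ha),
      hsw_tr (r := c') ?_ (fun t ht => ?_) ?_, fun e => ?_, fun e => ?_⟩, mem_insert_self _ _,
    mem_insert_self _ _, mem_insert_of_mem (mem_insert_self _ _),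
    (cB a' ha.symm K.ha).mono fun e he => ?_, fun e he => ?_⟩
  · refine K.within.mono fun e he => ?_
    have := cU e
    have := UE e
    have := cσ e
    have := N.hy
    have := N.hz
    simp only [mem_insert, mem_union] at *
    grind
  · have vc : G.Conn (insert y (insert z (B ∪ σ.2))) v c' :=
      Conn.edge (mem_insert_of_mem (mem_insert_self _ _)) N.jz
    by_cases h1 : t = v
    · rw [h1]; exact vc
    obtain ⟨u0, m0, e0⟩ := hsw_entry (St.snd h) K.hr (mem_erase.2 ⟨h1, ht⟩)
    refine (e0.mono sσ).trans ?_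
    by_cases h2 : u0 = u
    · rw [h2]
      exact (hb.symm.mono sσ).trans ((Conn.edge (mem_insert_self _ _) N.jy.symm).trans vc)
    · exact (cB u0 h2 m0).mono sB
  · show (insert y (insert z (B ∪ σ.2))).card + 1 = X.card
    have k1 := (St.snd h).card
    have k2 := card_cw hZ K.hr
    have k3 := tB.card
    have k4 := card_erase_add_one hu
    have k5 := card_erase_add_one mx.1
    have := cU y
    have := cU z
    have := cσ y
    have := cσ z
    rw [card_insert_of_notMem, card_insert_of_notMem, card_union_of_disjoint]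
    · omega
    · exact disjoint_left.2 fun e h2 h3 => ((cσ e).2 (Or.inr h3)).2 ((cU e).2 (Or.inr h2))
    · simp only [mem_union]; grind
    · simp only [mem_insert, mem_union]; grind
  · have := cU e
    have := cσ e
    have := dAB e
    have := St.disj h e
    simp only [mem_insert, mem_union] at *
    grind
  · have := cU e
    have := cσ e
    have := UE e
    have := N.hx
    have := N.hy
    have := N.hz
    simp only [mem_insert, mem_union] at *
    grind
  · have := cU e
    simp only [mem_insert, mem_union, mem_erase] at *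
    grind
  · have := cU e
    have := disjoint_left.1 K.hF he
    have := K.hx
    simp only [mem_insert, mem_union] at *
    grind

theorem LK.hsw_outer (K : G.LK X Es F v x y z a' b' c' Z r) (hp : G.St X Es p) (hy : y ∈ p.1)
    (hx : x ∈ p.2) (hz : z ∈ p.2) : G.Outer X Es v x y z Z r (G.outr Es x y z Z p) := by
  obtain ⟨S, T⟩ := p
  have N := K.node
  have hv := K.hv
  obtain ⟨c1, c2⟩ := chi hp hx hz N.xz N.jx N.jz hv K.ha K.hc K.card.ge
  have dx := hp.disj x
  have dy := hp.disj y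
  have dz := hp.disj z
  simp only at hx hy hz dx dy dz
  have t1 := hp.fst.leaf_del hy N.jy.inc fun g hg hi => by
    have := N.all g ((hp.cov g).2 (Or.inl hg)) hi
    grind
  have e1 : G.ind (S.erase y) Z = G.ind S Z := by
    ext g
    have : y ∉ G.ind S Z := by rw [N.jy.mem_ind]; tauto
    simp only [mem_ind, mem_erase] at *
    grind
  have t2 := t1.cw_down (subset_erase.2 ⟨K.sub, hv⟩) K.hr (by rw [e1]; exact c1)
  have e2 : G.ind T (insert v Z) = insert x (insert z (G.ind T Z)) := by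
    ext g
    have h1 : x ∈ G.ind T (insert v Z) := by rw [N.jx.mem_ind]; simp [hx, K.ha]
    have h2 : z ∈ G.ind T (insert v Z) := by rw [N.jz.mem_ind]; simp [hz, K.hc]
    have h3 := N.all g
    have h4 := hp.cov g
    unfold Inc at h3
    simp only [mem_ind, mem_insert] at *
    grind
  have h6 : x ∉ G.ind T Z := by rw [N.jx.mem_ind]; tauto
  have h7 : z ∉ G.ind T Z := by rw [N.jz.mem_ind]; tauto
  have xz := N.xz
  have t3 := hp.snd.cw_down (W := insert v Z) (insert_subset (N.jx.mem K.within N.hx).1 K.sub)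
    (mem_insert_of_mem K.hr) (by
      show (G.ind T (insert v Z)).card + 1 = _
      rw [e2, card_insert_of_notMem (by simp only [mem_insert]; tauto), card_insert_of_notMem h7,
        card_insert_of_notMem hv]
      omega)
  have e3 : X \ insert v Z = X.erase v \ Z := by
    ext g
    simp only [mem_sdiff, mem_insert, mem_erase]
    tauto
  simp only at t2 t3
  rw [e1] at t2
  rw [e2, e3] at t3
  refine ⟨?_, ?_, fun e h1 h2 => hp.disj e (mem_inter.1 h1).1 (mem_inter.1 h2).1, fun e => ?_⟩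
  · have : (G.outr Es x y z Z (S, T)).1 = S.erase y \ G.ind S Z := by
      ext g
      have := hp.cov g
      simp only [outr, mem_ind, mem_inter, mem_sdiff, mem_erase] at *
      grind
    exact this ▸ t2
  · have : (G.outr Es x y z Z (S, T)).2 = T \ insert x (insert z (G.ind T Z)) := by
      ext g
      have := hp.cov g
      simp only [outr, mem_ind, mem_inter, mem_sdiff, mem_erase, mem_insert] at *
      grind
    refine this ▸ t3.congr fun g hg => ?_
    have h3 := N.all g
    have h4 := hp.cov g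
    unfold Inc at h3
    simp only [map_s, map_t, cw, mem_insert, mem_sdiff] at *
    grind
  · have := hp.cov e
    simp only [outr, mem_inter, mem_sdiff, mem_erase] at *
    tauto

theorem LK.outer (K : G.LK X Es F v x y z a' b' c' Z r) (hp : G.St X Es p) (ht : Ty y x z p) :
    G.Outer X Es v x y z Z r (G.outr Es x y z Z p) ∧ Agree F (G.outr Es x y z Z p) p := by
  refine ⟨?_, fun g hg => ?_⟩
  · rcases ht with ⟨h1, h2, h3⟩ | ⟨h1, h2, h3⟩
    · exact K.hsw_outer hp h1 h2 h3
    · exact (K.hsw_outer hp.swap h1 h2 h3).swap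
  · have := hp.cov g
    have := disjoint_left.1 K.hF hg
    have := K.hx
    have := K.hy
    have := K.hz
    simp only [outr, mem_inter, mem_sdiff, mem_erase]
    grind

theorem LK.entry (K : G.LK X Es F v x y z a' b' c' Z r) (hp : G.St X Es p) (hy : y ∈ p.2)
    (hx : x ∈ p.1) (hz : z ∈ p.1) (hw : w = a' ∨ w = c')
    (h : G.Conn ((p.1.erase x).erase z) b' w) :
    G.DL X Es F x y z a' c' (G.outr Es x y z Z p).swap ∨ G.Conn (G.outr Es x y z Z p).1 b' w := by
  have N := K.node
  have ho := (K.outer hp (Or.inr ⟨hy, hx, hz⟩)).1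
  obtain ⟨u, hu, h1⟩ := K.exists_entry ho (mem_erase.2 ⟨N.bv, (N.jy.mem K.within N.hy).2⟩)
  by_cases h2 : u ≠ a' ∧ u ≠ c'
  · exact Or.inl (K.dl_of_entry ho.swap hu h2.1 h2.2 h1)
  by_cases h3 : u = w
  · exact Or.inr (h3 ▸ h1)
  exfalso
  have h4 : G.Conn ((p.1.erase x).erase z) u w := Conn.trans (h1.symm.mono fun g hg => by
    simp only [outr, mem_inter, mem_sdiff, mem_erase] at hg ⊢
    tauto) h
  have h5 : G.Conn ((p.1.erase x).erase z) c' a' := by
    rcases hw with rfl | rfl
    · have : u = c' := by tauto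
      exact this ▸ h4
    · have : u = a' := by tauto
      exact this ▸ h4.symm
  exact hp.fst.acyc.not_conn hx N.jx ((Conn.edge (mem_erase.2 ⟨N.xz.symm, hz⟩) N.jz).trans
    (h5.mono (erase_subset _ _)))

end Gr

end Pool.Agent.P.MP_3f5ce9_co
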