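import Pool.Agent.P.MP_3f5ce9_co.W.HSwap

/-!
The union lemma for direct links.
-/

open Finset

namespace Pool.Agent.P.MP_3f5ce9_co

namespace Gr

variable {G : Gr ℕ ℕ} {X Y Z P P' Es F U U' A Φ : Finset ℕ} {p q α β σ σ' τ τ' : Finset ℕ × Finset ℕ}
  {u u' w w' v r a b c a' b' c' e f g x y z φ ψ n : ℕ}

theorem hu_add {H : Gr ℕ ℕ} {E B : Finset ℕ} {ρ : ℕ → ℕ} (hB : B ⊆ E)
    (hl : ∀ e ∈ B, ρ (H.s e) = ρ (H.t e)) (T : Finset ℕ) (hT : T ⊆ E) (ha : (H.map ρ).Acyc T) :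
    (BM.gm H E).r B + T.card ≤ (BM.gm H E).r (B ∪ T) := by
  induction T using Finset.induction_on with
  | empty => simp
  | insert e T he ih =>
    have hTE : T ⊆ E := (subset_insert _ _).trans hT
    have heE : e ∈ E := hT (mem_insert_self _ _)
    have h1 := ih hTE (ha.mono (subset_insert _ _))
    have h2 : e ∉ (BM.gm H E).cl (B ∪ T) := by
      rw [BM.mem_cl_gm (union_subset hB hTE) heE]
      intro hc
      refine ha e (mem_insert_self _ _) ?_
      rw [erase_insert he]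
      refine (hc.map ρ).of_spans fun g hg => ?_
      rcases mem_union.1 hg with hg | hg
      · rw [map_s, map_t, hl g hg]; exact Conn.refl _ _ _
      · exact Conn.edge hg (joins_st _ _)
    have h3 := (BM.gm H E).r_le_insert e (B ∪ T)
    have h4 : (BM.gm H E).r (insert e (B ∪ T)) ≠ (BM.gm H E).r (B ∪ T) :=
      fun h => h2 (BM.mem_cl.2 ⟨heE, h⟩)
    rw [union_insert, card_insert_of_notMem he]
    omega

theorem hu_eq {H : Gr ℕ ℕ} {T : Finset ℕ} {ρ : ℕ → ℕ} (ha : (H.map ρ).Acyc T) (h : ρ u = ρ w)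
    (hc : H.Conn T u w) : u = w := by
  by_contra hne
  obtain ⟨f, hf, p, hj, hp⟩ := exists_first hc (Ne.symm hne)
  refine ha.not_conn hf (hj.map ρ) ?_
  rw [h]
  refine ((hp.map ρ).mono fun g hg => ?_).symm
  obtain ⟨h1, h2⟩ := mem_filter.1 hg
  exact mem_erase.2 ⟨fun h3 => h2 (h3 ▸ hj.inc), h1⟩

theorem hu_conn_ctr {H : Gr ℕ ℕ} {T : Finset ℕ}
    (h : (H.map (ctr b r)).Conn T (ctr b r u) (ctr b r w)) :
    H.Conn T u w ∨ (H.Conn T u b ∧ H.Conn T r w) ∨ (H.Conn T u r ∧ H.Conn T b w) := by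
  have key : ∀ p, ctr b r p ∈ {p | H.Conn T u p ∨ (H.Conn T u b ∧ H.Conn T r p) ∨
      (H.Conn T u r ∧ H.Conn T b p)} ↔ p ∈ {p | H.Conn T u p ∨ (H.Conn T u b ∧ H.Conn T r p) ∨
      (H.Conn T u r ∧ H.Conn T b p)} := by
    intro p
    by_cases hp : p = b
    · subst hp
      have h1 := Conn.refl H T p
      have h2 := Conn.refl H T r
      simp only [ctr_self, Set.mem_ofPred_eq]
      tauto
    · rw [ctr_of_ne hp]
  have := h _ (fun e he => by
    rw [map_s, map_t, key, key]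
    have h1 := H.closed_comp T u e he
    have h2 := H.closed_comp T r e he
    have h3 := H.closed_comp T b e he
    simp only [Set.mem_ofPred_eq] at h1 h2 h3 ⊢
    rw [h1, h2, h3])
  rw [key, key] at this
  exact this.1 (Or.inl (Conn.refl _ _ _))

theorem hu_ctr {H : Gr ℕ ℕ} {T : Finset ℕ} (ha : H.Acyc T) (hn : ¬ H.Conn T b r) :
    (H.map (ctr b r)).Acyc T := by
  intro e he hc
  have h0 := Conn.edge he (H.joins_st e)
  have hm : ∀ {p q}, H.Conn (T.erase e) p q → H.Conn T p q := fun h => h.mono (erase_subset _ _)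
  rcases hu_conn_ctr hc with h | ⟨h1, h2⟩ | ⟨h1, h2⟩
  · exact ha e he h
  · exact hn (((hm h1).symm.trans h0).trans (hm h2).symm)
  · exact hn (((hm h2).trans h0.symm).trans (hm h1))

theorem hu_drop {H : Gr ℕ ℕ} {T : Finset ℕ} (ha : H.Acyc T) (hne : b ≠ r) :
    ∃ T' ⊆ T, T.card ≤ T'.card + 1 ∧ ¬ H.Conn T' b r := by
  by_cases hc : H.Conn T b r
  · obtain ⟨f, hf, p, hj, hp⟩ := exists_first hc hne.symm
    refine ⟨T.erase f, erase_subset _ _, (card_erase_add_one hf).ge, fun h => ?_⟩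
    refine ha.not_conn hf hj (h.trans (hp.mono fun g hg => ?_).symm)
    obtain ⟨h1, h2⟩ := mem_filter.1 hg
    exact mem_erase.2 ⟨fun h3 => h2 (h3 ▸ hj.inc), h1⟩
  · exact ⟨T, Subset.rfl, Nat.le_succ _, hc⟩

theorem hu_span {H : Gr ℕ ℕ} {E D T : Finset ℕ} (hT : T ⊆ D) (hD : D ⊆ E) (ha : H.Acyc T)
    (h : (BM.gm H E).r D ≤ T.card) (he : e ∈ D) : H.Conn T (H.s e) (H.t e) := by
  have h1 : (BM.gm H E).Indep T := BM.indep_gm.2 ⟨hT.trans hD, ha⟩
  rw [← BM.mem_cl_gm (hT.trans hD) (hD he)]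
  refine BM.subset_cl_of_r (M := BM.gm H E) hD ?_ he
  rw [union_eq_right.2 hT, h1.r_eq]
  exact le_antisymm h (h1.card_le_r hT)

theorem hu_congr {H H' : Gr ℕ ℕ} {T : Finset ℕ} (ha : H.Acyc T)
    (h : ∀ e ∈ T, H'.s e = H.s e ∧ H'.t e = H.t e) : H'.Acyc T := by
  intro e he hc
  rw [(h e he).1, (h e he).2] at hc
  exact ha e he (conn_congr (fun g hg => ⟨(h g (mem_of_mem_erase hg)).1.symm,
    (h g (mem_of_mem_erase hg)).2.symm⟩) hc)

theorem hu_unmap {H : Gr ℕ ℕ} {T : Finset ℕ} {ρ : ℕ → ℕ} (ha : (H.map ρ).Acyc T) : H.Acyc T :=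
  fun e he hc => ha e he (hc.map ρ)

/-- the edges of `U` stay, the other edges are those of the graph with `Z` and `b` contracted -/
def huG (G : Gr ℕ ℕ) (U Z : Finset ℕ) (r b : ℕ) : Gr ℕ ℕ :=
  ⟨fun e => if e ∈ U then G.s e else ctr b r (cw Z r (G.s e)),
    fun e => if e ∈ U then G.t e else ctr b r (cw Z r (G.t e))⟩

theorem huG_mem (h : e ∈ U) : (G.huG U Z r b).s e = G.s e ∧ (G.huG U Z r b).t e = G.t e := by
  simp [huG, h]

theorem huG_not (h : e ∉ U) : (G.huG U Z r b).s e = ctr b r (cw Z r (G.s e)) ∧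
    (G.huG U Z r b).t e = ctr b r (cw Z r (G.t e)) := by
  simp [huG, h]

theorem huG_inner {T : Finset ℕ} (hU : G.Within U Z) (hu : u ∈ Z) (hw : w ∈ Z)
    (h : (G.huG U Z r b).Conn T u w) : G.Conn T u w := by
  have h1 := h.map fun p => if p ∈ Z then p else r
  simp only [hu, hw, if_true] at h1
  have k : ∀ p, (if ctr b r (cw Z r p) ∈ Z then ctr b r (cw Z r p) else r) = r := by
    intro p
    unfold ctr cw
    split_ifs <;> simp_all
  have h2 : ((G.huG U Z r b).map fun p => if p ∈ Z then p else r).Conn (T ∩ U) u w := by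
    refine h1.of_spans fun g hg => ?_
    by_cases hgU : g ∈ U
    · exact Conn.edge (mem_inter.2 ⟨hg, hgU⟩) (joins_st _ _)
    · rw [map_s, map_t, (huG_not hgU).1, (huG_not hgU).2, k, k]
      exact Conn.refl _ _ _
  refine (conn_congr (fun g hg => ?_) h2).mono inter_subset_left
  have hgU := (mem_inter.1 hg).2
  rw [map_s, map_t, (huG_mem hgU).1, (huG_mem hgU).2, if_pos (hU g hgU).1, if_pos (hU g hgU).2]
  exact ⟨rfl, rfl⟩

theorem huG_outer {T : Finset ℕ} (hZ : ∀ u ∈ Z, G.Conn T u r)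
    (h : (G.huG U Z r b).Conn T u r) : G.Conn T u r ∨ G.Conn T u b := by
  have key : ∀ p, ctr b r (cw Z r p) ∈ {p | G.Conn T r p ∨ G.Conn T b p} ↔
      p ∈ {p | G.Conn T r p ∨ G.Conn T b p} := by
    intro p
    have h1 := Conn.refl G T r
    have h2 := Conn.refl G T b
    have h3 := fun hp => (hZ p hp).symm
    unfold ctr cw
    simp only [Set.mem_ofPred_eq]
    split_ifs <;> simp_all
  have := h {p | G.Conn T r p ∨ G.Conn T b p} (fun e he => by
    have h1 := G.closed_comp T r e he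
    have h2 := G.closed_comp T b e he
    by_cases heU : e ∈ U
    · rw [(huG_mem heU).1, (huG_mem heU).2]
      simp only [Set.mem_ofPred_eq] at h1 h2 ⊢
      rw [h1, h2]
    · rw [(huG_not heU).1, (huG_not heU).2, key, key]
      simp only [Set.mem_ofPred_eq] at h1 h2 ⊢
      rw [h1, h2])
  rcases this.2 (Or.inl (Conn.refl _ _ _)) with h | h
  · exact Or.inl h.symm
  · exact Or.inr h.symm

theorem huG_acyc {T : Finset ℕ} (hr : r ∈ Z) (hT : ∀ e ∈ T, e ∉ U)
    (ha : (G.map (cw Z r)).Acyc T) (hn : ¬ (G.map (cw Z r)).Conn T b r) :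
    ((G.huG U Z r b).map (cw Z r)).Acyc T := by
  have k : ∀ p, cw Z r (ctr b r (cw Z r p)) = ctr b r (cw Z r p) := by
    intro p
    unfold ctr cw
    split_ifs <;> simp_all
  refine hu_congr (hu_ctr ha hn) fun e he => ?_
  simp only [map_s, map_t, (huG_not (hT e he)).1, (huG_not (hT e he)).2, k, and_self]

theorem LK.hu_within (K : G.LK X Es F v x y z a' b' c' Z r) :
    G.Within (G.ind Es Z ∪ ((((Es.erase x).erase y).erase z) \ G.ind Es Z)) (X.erase v) := by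
  intro e he
  have h1 := K.node.all e
  have h2 := K.within e
  have h3 := K.hv
  have h4 := @K.sub
  unfold Inc at h1
  simp only [mem_union, mem_sdiff, mem_erase, mem_ind] at he ⊢
  grind

theorem LK.hu_dl (K : G.LK X Es F v x y z a' b' c' Z r) (h : G.Outer X Es v x y z Z r σ)
    {A1 A2 : Finset ℕ} (h1 : (G.huG (G.ind Es Z) Z r b').Acyc (A1 ∪ F ∩ σ.2))
    (h2 : G.Acyc (A2 ∪ F ∩ σ.1)) (hd : Disjoint A1 A2)
    (hu : A1 ∪ A2 = G.ind Es Z ∪ (((((Es.erase x).erase y).erase z) \ G.ind Es Z) \ F)) :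
    G.DL X Es F x y z a' c' σ := by
  have N := K.node
  have hvX : v ∈ X := (N.jx.mem K.within N.hx).1
  have haX : a' ∈ X.erase v := mem_erase.2 ⟨N.av, K.sub K.ha⟩
  have hbX : b' ∈ X.erase v := mem_erase.2 ⟨N.bv, (N.jy.mem K.within N.hy).2⟩
  have hZX : Z ⊆ X.erase v := fun p hp => mem_erase.2 ⟨fun h => K.hv (h ▸ hp), K.sub hp⟩
  have hZb : Z ⊆ (X.erase v).erase b' := fun p hp => mem_erase.2 ⟨fun h => K.hb (h ▸ hp), hZX hp⟩
  have hcov := h.cov
  have hdj := h.disj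
  have hF := fun g => @disjoint_left.1 K.hF g
  have hd' := fun g => @disjoint_left.1 hd g
  have hu' : ∀ g, g ∈ A1 ∨ g ∈ A2 ↔
      g ∈ G.ind Es Z ∨ (g ∈ (((Es.erase x).erase y).erase z) \ G.ind Es Z ∧ g ∉ F) := by
    intro g
    rw [← mem_union, hu, mem_union, mem_sdiff]
  have hU : ∀ g ∈ G.ind Es Z, g ∈ Es ∧ g ≠ x ∧ g ≠ y ∧ g ≠ z := by
    intro g hg
    have k := fun (i : G.Inc g v) => K.hv (i.mem (G.within_ind Es Z) hg)
    refine ⟨G.ind_subset _ _ hg, ?_, ?_, ?_⟩ <;> rintro rfl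
    exacts [k N.jx.inc, k N.jy.inc, k N.jz.inc]
  have hO : ∀ g, g ∈ (((Es.erase x).erase y).erase z) \ G.ind Es Z ↔
      (g ≠ z ∧ g ≠ y ∧ g ≠ x ∧ g ∈ Es) ∧ g ∉ G.ind Es Z := by
    intro g
    simp only [mem_sdiff, mem_erase]
  have hW := K.hu_within
  have c1 := h.card
  have c2 := card_cw hZX K.hr
  have c3 := K.card
  generalize (((Es.erase x).erase y).erase z) \ G.ind Es Z = Eo at *
  have hUZ := G.within_ind Es Z
  generalize G.ind Es Z = U at *
  have s1 : A1 ∪ F ∩ σ.2 ⊆ U ∪ Eo := by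
    intro g hg
    simp only [mem_union, mem_inter] at hg ⊢
    grind
  have s2 : A2 ∪ F ∩ σ.1 ⊆ U ∪ Eo := by
    intro g hg
    simp only [mem_union, mem_inter] at hg ⊢
    grind
  have w1 : (G.huG U Z r b').Within (A1 ∪ F ∩ σ.2) ((X.erase v).erase b') := by
    intro g hg
    by_cases hgU : g ∈ U
    · rw [(huG_mem hgU).1, (huG_mem hgU).2]
      exact ⟨hZb (hUZ g hgU).1, hZb (hUZ g hgU).2⟩
    · have k : ∀ p ∈ X.erase v, ctr b' r (cw Z r p) ∈ (X.erase v).erase b' := by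
        intro p hp
        refine ctr_mem (hZX K.hr) (fun e => K.hb (e ▸ K.hr)) ?_
        unfold cw
        split_ifs
        exacts [hZX K.hr, hp]
      rw [(huG_not hgU).1, (huG_not hgU).2]
      exact ⟨k _ (hW g (s1 hg)).1, k _ (hW g (s1 hg)).2⟩
  have c4 := card_le_of_acyc _ _ _ _ rfl w1 ⟨r, hZb K.hr⟩ h1
  have c5 := card_le_of_acyc _ _ _ _ rfl (hW.mono s2) ⟨a', haX⟩ h2
  have c6 := card_erase_add_one hbX
  have c7 : (U ∪ Eo).card = U.card + Eo.card :=
    card_union_of_disjoint (disjoint_left.2 fun g k1 k2 => ((hO g).1 k2).2 k1)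
  have c8 : (U ∪ Eo).card ≤ (A1 ∪ F ∩ σ.2).card + (A2 ∪ F ∩ σ.1).card := by
    refine le_trans (card_le_card fun g hg => ?_) (card_union_le _ _)
    simp only [mem_union, mem_inter] at hg ⊢
    grind
  have t1 := h1.tr w1 (by omega) ⟨r, hZb K.hr⟩
  have t2 := h2.tr (hW.mono s2) (by omega) ⟨a', haX⟩
  have n1 : ∀ g ∈ A1 ∪ F ∩ σ.2, g ∈ Es ∧ g ≠ x ∧ g ≠ y ∧ g ≠ z := by
    intro g hg
    have := mem_union.1 (s1 hg)
    grind
  have k1 : ∀ p ∈ Z, ∀ q ∈ Z, G.Conn (A1 ∪ F ∩ σ.2) p q := fun p hp q hq =>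
    huG_inner hUZ hp hq (t1.conn p (hZb hp) q (hZb hq))
  have k2 : ∀ p ∈ X, G.Conn (insert y (insert z (A1 ∪ F ∩ σ.2))) p v := by
    intro p hp
    have m : A1 ∪ F ∩ σ.2 ⊆ insert y (insert z (A1 ∪ F ∩ σ.2)) :=
      (subset_insert _ _).trans (subset_insert _ _)
    have ky : G.Conn (insert y (insert z (A1 ∪ F ∩ σ.2))) b' v :=
      Conn.edge (mem_insert_self _ _) N.jy.symm
    have kz : G.Conn (insert y (insert z (A1 ∪ F ∩ σ.2))) c' v :=
      Conn.edge (mem_insert_of_mem (mem_insert_self _ _)) N.jz.symm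
    by_cases hpv : p = v
    · rw [hpv]; exact Conn.refl _ _ _
    by_cases hpb : p = b'
    · rw [hpb]; exact ky
    rcases huG_outer (fun q hq => k1 q hq r K.hr) (t1.conn p
      (mem_erase.2 ⟨hpb, mem_erase.2 ⟨hpv, hp⟩⟩) r (hZb K.hr)) with k | k
    · exact ((k.trans (k1 r K.hr c' K.hc)).mono m).trans kz
    · exact (k.mono m).trans ky
  have hz1 : z ∉ A1 ∪ F ∩ σ.2 := fun k => (n1 z k).2.2.2 rfl
  have hy1 : y ∉ insert z (A1 ∪ F ∩ σ.2) := fun k =>
    (mem_insert.1 k).elim N.yz fun k => (n1 y k).2.2.1 rfl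
  have t3 : G.Tr X (insert y (insert z (A1 ∪ F ∩ σ.2))) := by
    refine ⟨K.within.mono fun g hg => ?_, fun p hp q hq => (k2 p hp).trans (k2 q hq).symm, ?_⟩
    · rcases mem_insert.1 hg with rfl | hg
      · exact N.hy
      rcases mem_insert.1 hg with rfl | hg
      · exact N.hz
      exact (n1 g hg).1
    · have := card_erase_add_one hvX
      rw [card_insert_of_notMem hy1, card_insert_of_notMem hz1]
      omega
  have hx := K.hx
  have hy := K.hy
  have hz := K.hz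
  have mx := N.hx
  have my := N.hy
  have mz := N.hz
  have xy := N.xy
  have xz := N.xz
  refine ⟨(insert x (A2 ∪ F ∩ σ.1), insert y (insert z (A1 ∪ F ∩ σ.2))),
    ⟨t2.leaf_add hvX N.jx haX, t3, fun g => ?_, fun g => ?_⟩, mem_insert_self _ _,
    mem_insert_self _ _, mem_insert_of_mem (mem_insert_self _ _), ?_, fun g hg => ?_⟩
  · simp only [mem_insert, mem_union, mem_inter]
    grind
  · simp only [mem_insert, mem_union, mem_inter]
    grind
  · dsimp only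
    rw [erase_insert hy1, erase_insert hz1]
    exact k1 a' K.ha c' K.hc
  · simp only [mem_insert, mem_union, mem_inter]
    grind

theorem LK.ulem (K : G.LK X Es F v x y z a' b' c' Z r) (h : G.Outer X Es v x y z Z r σ) :
    G.DL X Es F x y z a' c' σ ∨ ∃ A, G.Viol X Es F v x y z b' Z r σ A := by
  have a1 : (G.map (cw Z r)).Acyc (F ∩ σ.1) := h.fst.acyc.mono inter_subset_right
  have a2 : (G.map (cw Z r)).Acyc (F ∩ σ.2) := h.snd.acyc.mono inter_subset_right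
  have hcw : ∀ u ∈ Z, ∀ w ∈ Z, cw Z r u = cw Z r w := fun u hu w hw => by
    rw [cw_of_mem hu, cw_of_mem hw]
  by_cases hl : (G.map (cw Z r)).Conn (F ∩ σ.2) b' r
  · refine Or.inr ⟨∅, fun _ _ _ e he => absurd he (notMem_empty e),
      fun _ _ _ e he => absurd he (notMem_empty e), by rwa [empty_union], fun u hu w hw hc => ?_⟩
    rw [empty_union] at hc
    exact hu_eq a1 (hcw u hu w hw) hc
  have hdl := fun A1 A2 => K.hu_dl h (A1 := A1) (A2 := A2)
  have hsp := fun E B (k : G.ind Es Z ⊆ E) => SpA.card_lt (Es := E) (S := B) K.sp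
    (G.within_ind Es Z) (fun e he => K.loopless e (G.ind_subset _ _ he)) k
  have hO : ∀ g ∈ (((Es.erase x).erase y).erase z) \ G.ind Es Z, g ∉ G.ind Es Z :=
    fun g hg => (mem_sdiff.1 hg).2
  have hτ : ∀ τ, G.Outer X Es v x y z Z r τ → (G.map (cw Z r)).St (insert r (X.erase v \ Z))
    ((((Es.erase x).erase y).erase z) \ G.ind Es Z) τ := fun _ k => k
  have hσ := hτ σ h
  have hUZ := G.within_ind Es Z
  generalize (((Es.erase x).erase y).erase z) \ G.ind Es Z = Eo at *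
  generalize G.ind Es Z = U at *
  have s1 : F ∩ σ.1 ⊆ Eo := fun g hg => (hσ.cov g).2 (Or.inl (mem_inter.1 hg).2)
  have s2 : F ∩ σ.2 ⊆ Eo := fun g hg => (hσ.cov g).2 (Or.inr (mem_inter.1 hg).2)
  have i1 : (BM.gm G (U ∪ Eo)).Indep (F ∩ σ.1) :=
    BM.indep_gm.2 ⟨s1.trans subset_union_right, hu_unmap a1⟩
  have i2 : (BM.gm (G.huG U Z r b') (U ∪ Eo)).Indep (F ∩ σ.2) :=
    BM.indep_gm.2 ⟨s2.trans subset_union_right,
      hu_unmap (huG_acyc K.hr (fun e he => hO e (s2 he)) a2 hl)⟩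
  by_cases hrk : ∀ S ⊆ U ∪ (Eo \ F), S.card ≤
      ((BM.gm (G.huG U Z r b') (U ∪ Eo)).con (F ∩ σ.2)).r S +
        ((BM.gm G (U ∪ Eo)).con (F ∩ σ.1)).r S
  · obtain ⟨A1, A2, j1, j2, hd, hu⟩ := BM.union_two _ _ _ hrk
    exact Or.inl (hdl A1 A2 (BM.indep_gm.1 (BM.un_glue i2 Subset.rfl j1)).2
      (BM.indep_gm.1 (BM.un_glue i1 Subset.rfl j2)).2 hd hu)
  right
  simp only [not_forall, not_le] at hrk
  obtain ⟨S, hS, hlt⟩ := hrk
  have e1 := (BM.gm G (U ∪ Eo)).r_con (F ∩ σ.1) S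
  have e2 := (BM.gm (G.huG U Z r b') (U ∪ Eo)).r_con (F ∩ σ.2) S
  rw [i1.r_eq] at e1
  rw [i2.r_eq] at e2
  have hA : ∀ g ∈ S \ U, g ∈ Eo ∧ g ∉ F := by
    intro g hg
    have := hS (mem_sdiff.1 hg).1
    simp only [mem_union, mem_sdiff] at hg this
    tauto
  have hc := card_sdiff_add_card_inter S U
  have hAS : S \ U ⊆ S := sdiff_subset
  have hBS : S ∩ U ⊆ S := inter_subset_left
  have hBU : S ∩ U ⊆ U := inter_subset_right
  have hSAB : S ⊆ S \ U ∪ S ∩ U := by rw [sdiff_union_inter]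
  generalize S \ U = A at *
  generalize S ∩ U = B at *
  have d1 : A ∪ F ∩ σ.1 ⊆ Eo := union_subset (fun g hg => (hA g hg).1) s1
  have d2 : A ∪ F ∩ σ.2 ⊆ Eo := union_subset (fun g hg => (hA g hg).1) s2
  obtain ⟨T1, u1, b1, c1⟩ := (BM.gm (G.map (cw Z r)) Eo).exists_basis (A ∪ F ∩ σ.1)
  obtain ⟨T2, u2, b2, c2⟩ := (BM.gm (G.map (cw Z r)) Eo).exists_basis (A ∪ F ∩ σ.2)
  replace b1 := (BM.indep_gm.1 b1).2
  replace b2 := (BM.indep_gm.1 b2).2
  have hBE : B ⊆ U ∪ Eo := hBU.trans subset_union_left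
  have f1 : (BM.gm G (U ∪ Eo)).r B + T1.card ≤ (BM.gm G (U ∪ Eo)).r (S ∪ F ∩ σ.1) :=
    (hu_add hBE (fun e he => hcw _ (hUZ e (hBU he)).1 _ (hUZ e (hBU he)).2) T1
      ((u1.trans d1).trans subset_union_right) b1).trans (BM.r_mono _ (union_subset
        (hBS.trans subset_union_left) (u1.trans (union_subset_union hAS Subset.rfl))))
  have f0 : (BM.gm G (U ∪ Eo)).r B ≤ (BM.gm (G.huG U Z r b') (U ∪ Eo)).r B := by
    obtain ⟨I, k1, k2, k3⟩ := (BM.gm G (U ∪ Eo)).exists_basis B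
    rw [← k3]
    exact (BM.indep_gm.2 ⟨k1.trans hBE, hu_congr (BM.indep_gm.1 k2).2
      fun e he => huG_mem (hBU (k1 he))⟩).card_le_r k1
  have f2 : ∀ T ⊆ T2, ¬ (G.map (cw Z r)).Conn T b' r → (BM.gm G (U ∪ Eo)).r B + T.card ≤
      (BM.gm (G.huG U Z r b') (U ∪ Eo)).r (S ∪ F ∩ σ.2) := by
    intro T hT hn
    refine (Nat.add_le_add_right f0 _).trans ((hu_add (ρ := cw Z r) hBE (fun e he => ?_) T
      (((hT.trans u2).trans d2).trans subset_union_right)
      (huG_acyc K.hr (fun e he => hO e (d2 (u2 (hT he)))) (b2.mono hT) hn)).trans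
        (BM.r_mono _ (union_subset (hBS.trans subset_union_left)
          ((hT.trans u2).trans (union_subset_union hAS Subset.rfl)))))
    rw [(huG_mem (hBU he)).1, (huG_mem (hBU he)).2]
    exact hcw _ (hUZ e (hBU he)).1 _ (hUZ e (hBU he)).2
  have g0 : ∀ τ, G.Outer X Es v x y z Z r τ → Agree F τ σ →
      (G.map (cw Z r)).Acyc (τ.1 ∩ A ∪ F ∩ σ.1) ∧ (G.map (cw Z r)).Acyc (τ.2 ∩ A ∪ F ∩ σ.2) ∧
      A.card + (F ∩ σ.1).card + (F ∩ σ.2).card ≤
        (τ.1 ∩ A ∪ F ∩ σ.1).card + (τ.2 ∩ A ∪ F ∩ σ.2).card := by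
    intro τ k ha
    replace k := hτ τ k
    have k1 := k.cov
    have k2 := hσ.cov
    have k3 := hσ.disj
    unfold Agree at ha
    refine ⟨k.fst.acyc.mono fun g hg => ?_, k.snd.acyc.mono fun g hg => ?_, ?_⟩
    · simp only [mem_union, mem_inter] at hg
      grind
    · simp only [mem_union, mem_inter] at hg
      grind
    · have j : ∀ P Q : Finset ℕ, (P ∩ A ∪ F ∩ Q).card = (P ∩ A).card + (F ∩ Q).card :=
        fun P Q => card_union_of_disjoint (disjoint_left.2 fun g p1 p2 =>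
          (hA g (mem_inter.1 p1).2).2 (mem_inter.1 p2).1)
      have j2 : A.card ≤ (τ.1 ∩ A).card + (τ.2 ∩ A).card := by
        refine le_trans (card_le_card fun g hg => ?_) (card_union_le _ _)
        simp only [mem_union, mem_inter]
        grind
      rw [j, j]
      omega
  have g1 : ∀ P : Finset ℕ, ∀ Q ⊆ Eo, (G.map (cw Z r)).Acyc (P ∩ A ∪ Q) →
      (P ∩ A ∪ Q).card ≤ (BM.gm (G.map (cw Z r)) Eo).r (A ∪ Q) := fun P Q hQ k =>
    (BM.indep_gm.2 ⟨union_subset (fun g hg => (hA g (mem_inter.1 hg).2).1) hQ, k⟩).card_le_r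
      (union_subset_union inter_subset_right Subset.rfl)
  obtain ⟨T, hT, c3, hn⟩ := hu_drop b2 (b := b') (r := r) (fun e => K.hb (e ▸ K.hr))
  have f3 := f2 T hT hn
  obtain ⟨p1, p2, p3⟩ := g0 σ h fun _ _ => Iff.rfl
  have p4 := g1 _ _ s1 p1
  have p5 := g1 _ _ s2 p2
  have hB : B = ∅ := by
    by_contra hB
    have := hsp (U ∪ Eo) B subset_union_left hBU (nonempty_iff_ne_empty.2 hB)
    omega
  subst hB
  rw [card_empty] at hc
  rw [union_empty] at hSAB
  obtain rfl : S = A := Subset.antisymm hSAB hAS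
  refine ⟨S, fun τ k ha e he => ?_, fun τ k ha e he => ?_, ?_, fun u hu w hw hc => ?_⟩
  · obtain ⟨q1, q2, q3⟩ := g0 τ k ha
    have q4 := g1 _ _ s2 q2
    exact hu_span (union_subset_union inter_subset_right Subset.rfl) d1 q1 (by omega)
      (mem_union_left _ he)
  · obtain ⟨q1, q2, q3⟩ := g0 τ k ha
    have q4 := g1 _ _ s1 q1
    exact hu_span (union_subset_union inter_subset_right Subset.rfl) d2 q2 (by omega)
      (mem_union_left _ he)
  · by_contra hn
    have := f2 T2 Subset.rfl fun k => hn (k.mono u2)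
    omega
  · refine hu_eq b1 (hcw u hu w hw) (hc.of_spans fun e he => ?_)
    exact hu_span u1 (d1.trans subset_union_right) (hu_unmap b1) (E := U ∪ Eo) (by omega) he

end Gr

end Pool.Agent.P.MP_3f5ce9_co
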