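import Pool.Agent.P.MP_3f5ce9_co.W.HClass
import Pool.Agent.P.MP_3f5ce9_co.W.HLink

/-!
Every good class is connected when the graph lacks a critical pair.
-/

open Finset

namespace Pool.Agent.P.MP_3f5ce9_co

namespace Gr

variable {G : Gr ℕ ℕ} {X Y Z P P' Es F U U' A Φ : Finset ℕ} {p q α β σ σ' τ τ' : Finset ℕ × Finset ℕ}
  {u u' w w' v r a b c a' b' c' e f g x y z φ ψ n : ℕ}

/-- a state that reaches a good class without both critical pairs reaches its mirror image -/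
theorem Node.hw_iota (hC : CONNn n) (hn : X.card ≤ n + 1) (H : G.HS X Es φ ψ a b c)
    (h : G.Joins ψ a b) (N : G.Node Es v x y z a' b' c') (hv : v ∉ ({a, b, c} : Finset ℕ))
    (hs : G.SpA X (Es \ {φ, ψ})) (hg : G.GoodC X (Es \ {φ, ψ}) v b' c')
    (hb : ¬ G.BPX X (Es \ {φ, ψ}) v b' c' a b c) (hp : G.St X Es p)
    (hr : G.AReach X Es {φ, ψ} {a, b, c} p q) (tq : Ty x y z q) :
    G.AReach X Es {φ, ψ} {a, b, c} p (iota φ ψ p) := by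
  have hq := hr.st hp
  obtain ⟨h1, h2, -⟩ := H.st_iota h hq
  exact hr.trans ((N.class_conn hC hn H hv hs hg h1 hq (tq.iota (H.not_inc hv N.jx.inc)
    (H.not_inc hv N.jy.inc) (H.not_inc hv N.jz.inc)) tq h2 fun _ k => absurd k hb).symm.trans
    (H.areach_iota h hr).symm)

theorem HS.hw_nocrit (H : G.HS X Es φ ψ a b c) (h : G.Joins ψ a b) (hp : G.St X Es p)
    (hnb : ¬ G.BP X (Es \ {φ, ψ}) a b c) (hP' : P' ⊆ X) (bP : b ∈ P') (cP : c ∈ P') (aP : a ∉ P')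
    (k : G.Crit (Es \ {φ, ψ}) P') (hY : Y ⊆ X) (aY : a ∈ Y) (cY : c ∈ Y) :
    ¬ G.Crit (Es \ {φ, ψ}) Y := by
  intro kY
  by_cases hb : b ∈ Y
  · have := H.he_both h hp aY hb
    unfold Crit at kY
    omega
  · exact hnb ⟨⟨Y, hY, aY, cY, hb, kY⟩, P', hP', bP, cP, aP, k⟩

theorem Node.hw_meet (N : G.Node Es v x y z a' b' c') (hs : G.SpA X U) (hx : x ∈ U) (hy : y ∈ U)
    (hz : z ∈ U) (hvX : v ∈ X) (hP : P ⊆ X) (vP : v ∉ P) (bP : b' ∈ P) (cP : c' ∈ P)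
    (k : 2 * P.card ≤ (G.ind U P).card + 4) (hn : ∀ V ⊆ X, P ⊆ V → ¬ G.Crit U V) (hZ : Z ⊆ X)
    (vZ : v ∉ Z) (aZ : a' ∈ Z) (cZ : c' ∈ Z) (kZ : G.Crit U Z) : ∀ w ∈ P, w ∈ Z → w = c' := by
  intro w wP wZ
  by_contra hwc
  have h1 := hs (P ∩ Z) (inter_subset_left.trans hP)
    (one_lt_card.2 ⟨_, mem_inter.2 ⟨wP, wZ⟩, _, mem_inter.2 ⟨cP, cZ⟩, hwc⟩)
  have h3 := G.ind_supermod U P Z
  have h4 := card_union_add_card_inter P Z
  have h5 : v ∉ P ∪ Z := by simp [vP, vZ]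
  have h6 := N.card_insert hx hy hz h5 (by simp [aZ]) (by simp [bP]) (by simp [cP])
  have h7 := hn (insert v (P ∪ Z)) (insert_subset hvX (union_subset hP hZ))
    (subset_union_left.trans (subset_insert _ _))
  unfold Crit at h7 kZ
  rw [card_insert_of_notMem h5] at h7
  omega

/-- two states of class `x` that differ inside `P` only in the colour of `z` -/
theorem Node.hw_diff (H : G.HS X Es φ ψ a b c) (h : G.Joins ψ a b)
    (N : G.Node Es v x y z a' b' c') (hv : v ∉ ({a, b, c} : Finset ℕ))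
    (hs : G.SpA X (Es \ {φ, ψ})) (hg : G.GoodC X (Es \ {φ, ψ}) v b' c') (hP : P ⊆ X.erase v)
    (hP' : P' ⊆ X.erase v) (aP : a ∈ P) (cP : c ∈ P) (b'P : b' ∈ P) (c'P : c' ∈ P)
    (k : 2 * P.card ≤ (G.ind (Es \ {φ, ψ}) P).card + 4) (bP' : b ∈ P') (cP' : c ∈ P')
    (k' : G.Crit (Es \ {φ, ψ}) P') (hα : G.St X Es α) (hβ : G.St X Es β) (tα : Ty x y z α)
    (tβ : Ty x y z β) (z1 : z ∈ α.1) (z2 : z ∉ β.1)
    (he : ∀ g ∈ G.ind Es P, g ∈ α.1 ↔ g ∈ β.1) :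
    ¬ (G.Conn (α.1 \ {φ, ψ}) c a ↔ G.Conn (β.1 \ {φ, ψ}) c a) := by
  have hx := H.not_inc hv N.jx.inc
  have hy := H.not_inc hv N.jy.inc
  have hz := H.not_inc hv N.jz.inc
  have hW := hα.within
  have hs' := (N.goodC_iff hs hz (N.ty_ne hα tα)).2 hg
  obtain ⟨α', hα', rfl⟩ := N.down hα tα
  obtain ⟨β', hβ', rfl⟩ := N.down hβ tβ
  obtain ⟨H', -, j⟩ := H.node hv N
  have c1 := N.hcl_crit hz hP (Or.inr ⟨b'P, c'P, k⟩)
  have c2 := N.hcl_crit hz hP' (Or.inl k')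
  have i1 := H'.chi_iff (j.2 h) hα' hs' hP hP' aP bP' cP cP' c1 c2
  have i2 := H'.chi_iff (j.2 h) hβ' hs' hP hP' aP bP' cP cP' c1 c2
  rw [mem_up N.xz.symm N.yz.symm] at z1 z2
  have vP := (subset_erase.1 hP).2
  have s1 : α'.1 ⊆ (Es.erase x).erase y := fun g hg => (hα'.cov g).2 (Or.inl hg)
  have s2 : β'.1 ⊆ (Es.erase x).erase y := fun g hg => (hβ'.cov g).2 (Or.inl hg)
  have e : G.ind α'.1 P = G.ind β'.1 P := by
    ext g
    simp only [mem_ind]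
    refine and_congr_left fun h4 => ?_
    by_cases h5 : g ∈ (Es.erase x).erase y
    · simp only [mem_erase] at h5
      have := he g (mem_ind.2 ⟨h5.2.2, h4⟩)
      rwa [mem_up h5.2.1 h5.1, mem_up h5.2.1 h5.1] at this
    · exact iff_of_false (fun h6 => h5 (s1 h6)) fun h6 => h5 (s2 h6)
  rw [N.hc_card s1 vP, if_pos ⟨z1, b'P, c'P⟩, e] at i1
  rw [N.hc_card s2 vP, if_neg fun h6 => z2 h6.1] at i2
  simp only [mem_insert, mem_singleton, not_or] at hv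
  rw [← N.conn_up hW hx hy hz hα' (Ne.symm hv.2.2) (Ne.symm hv.1),
    ← N.conn_up hW hx hy hz hβ' (Ne.symm hv.2.2) (Ne.symm hv.1)]
  grind

theorem Node.hw_key (hF : FLn n) (hC : CONNn n) (hn : X.card ≤ n + 1) (H : G.HS X Es φ ψ a b c)
    (h : G.Joins ψ a b) (N : G.Node Es v x y z a' b' c') (hv : v ∉ ({a, b, c} : Finset ℕ))
    (hs : G.SpA X (Es \ {φ, ψ})) (hnb : ¬ G.BP X (Es \ {φ, ψ}) a b c)
    (hg : G.GoodC X (Es \ {φ, ψ}) v b' c') (hb : G.BPX X (Es \ {φ, ψ}) v b' c' a b c)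
    (hp : G.St X Es p) (tp : Ty x y z p) (vp : G.VTo x y z a' b' p) :
    ∃ p', G.AReach X Es {φ, ψ} {a, b, c} p p' ∧ Ty x y z p' ∧
      ¬ (G.Conn (p.1 \ {φ, ψ}) c a ↔ G.Conn (p'.1 \ {φ, ψ}) c a) := by
  have hx := H.not_inc hv N.jx.inc
  have hy := H.not_inc hv N.jy.inc
  have hz := H.not_inc hv N.jz.inc
  have xL := mem_sdiff.2 ⟨N.hx, hx⟩
  have yL := mem_sdiff.2 ⟨N.hy, hy⟩
  have zL := mem_sdiff.2 ⟨N.hz, hz⟩
  have mx := N.jx.mem hp.within N.hx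
  have fin : G.AReach X Es {φ, ψ} {a, b, c} p (iota φ ψ p) →
      ∃ p', G.AReach X Es {φ, ψ} {a, b, c} p p' ∧ Ty x y z p' ∧
        ¬ (G.Conn (p.1 \ {φ, ψ}) c a ↔ G.Conn (p'.1 \ {φ, ψ}) c a) := fun hr =>
    ⟨_, hr, tp.iota hx hy hz, by
      rw [(H.st_iota h hp).2.2.1]
      exact N.class_xor H h hv hs hg hb hp tp⟩
  obtain ⟨p2, m2, t2, -⟩ := N.avstep hv hx hy hp tp vp
  by_cases gy : G.GoodC X (Es \ {φ, ψ}) v a' c'
  · exact fin (N.s12.hw_iota hC hn H h hv hs gy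
      (N.half_unique H h hv hs hnb hg hb hp tp gy m2.2.1 t2) hp m2.reach t2)
  obtain ⟨a1, b1, P, P', e1, s1, s1', aP, cP, bP, b'P, c'P, k1, bP', cP', aP', k1'⟩ :=
    N.half_shape H h hv hs hg hb hnb hp tp
  obtain ⟨H1, h1, nb1, hv1⟩ : G.HS X Es φ ψ a1 b1 c ∧ G.Joins ψ a1 b1 ∧
      ¬ G.BP X (Es \ {φ, ψ}) a1 b1 c ∧ v ∉ ({a1, b1, c} : Finset ℕ) := by
    rcases e1 with ⟨rfl, rfl⟩ | ⟨rfl, rfl⟩
    · exact ⟨H, h, hnb, hv⟩
    · exact ⟨H.flip h, h.symm, fun k => hnb k.symm, by rwa [insert_comm]⟩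
  obtain ⟨sP, vP⟩ := subset_erase.1 s1
  have nc : ∀ V ⊆ X, P ⊆ V → ¬ G.Crit (Es \ {φ, ψ}) V := fun V k2 k3 =>
    H1.hw_nocrit h1 hp nb1 (s1'.trans (erase_subset _ _)) bP' cP' aP' k1' k2 (k3 aP) (k3 cP)
  obtain ⟨Z, sZ, vZ, aZ, cZ, kZ⟩ : ∃ Z ⊆ X, v ∉ Z ∧ a' ∈ Z ∧ c' ∈ Z ∧ G.Crit (Es \ {φ, ψ}) Z := by
    by_contra k
    exact gy fun Z k1 k2 k3 k4 k5 => k ⟨Z, k1, k2, k3, k4, k5⟩
  have iZ := N.hw_meet hs xL yL zL mx.1 sP vP b'P c'P k1 nc sZ vZ aZ cZ kZ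
  have gz : G.GoodC X (Es \ {φ, ψ}) v a' b' := by
    intro W sW vW aW bW kW
    have iW := N.s23.hw_meet hs xL zL yL mx.1 sP vP c'P b'P k1 nc sW vW aW bW kW
    have iZW := N.s12.s23.two_badA hs yL zL xL mx.1 sZ sW vZ vW cZ aZ bW aW kZ kW
    have := N.three_crit xL yL zL (fun e he => hp.ne (mem_sdiff.1 he).1 (G.joins_st e)) vP vZ vW
      b'P c'P aZ cZ aW bW (hs.ne xL yL N.xy N.jx N.jy mx.1 mx.2 N.av)
      (hs.ne xL zL N.xz N.jx N.jz mx.1 mx.2 N.av) (N.ty_ne hp tp) iZ iW iZW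
    refine nc (insert v (P ∪ Z ∪ W)) (insert_subset mx.1 (union_subset (union_subset sP sZ) sW))
      ((subset_union_left.trans subset_union_left).trans (subset_insert _ _)) ?_
    unfold Crit at *
    omega
  obtain ⟨α, β, o, rα, rβ, tα, tβ, z1, z2, ho, hd⟩ := N.flipY hF hn H hv hs m2.2.1 t2 gy
    fun k => absurd h (H.not_both k.1)
  have mv : ∀ γ, G.AReach X Es {φ, ψ} {a, b, c} p2 γ → Ty y x z γ →
      G.AReach X Es {φ, ψ} {a, b, c} p (iota φ ψ p) ∨ ∃ γ', G.AReach X Es {φ, ψ} {a, b, c} p γ' ∧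
        Ty x y z γ' ∧ ∀ g, g ≠ y → g ≠ x → (g ∈ γ'.1 ↔ g ∈ γ.1) := by
    intro γ r t
    have hγ := r.st m2.2.1
    rcases N.s12.vto_or hγ t with k | k
    · obtain ⟨γ', k2, k3, -, k4⟩ := N.s12.avstep hv hy hx hγ t k
      exact Or.inr ⟨γ', m2.reach.trans (r.trans k2.reach), k3, k4⟩
    · obtain ⟨γ', k2, k3, -⟩ := N.s12.s23.avstep hv hy hz hγ t.s23 k
      exact Or.inl (N.s23.s12.hw_iota hC hn H h hv hs gz
        (N.s23.half_unique H h hv hs hnb hg.symm hb.symm hp tp.s23 gz k2.2.1 k3.s23) hp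
        (m2.reach.trans (r.trans k2.reach)) k3.s23)
  rcases mv α rα tα with k | ⟨α', r1, t1, d1⟩
  · exact fin k
  rcases mv β rβ tβ with k | ⟨β', r2, t2', d2⟩
  · exact fin k
  have df := N.hw_diff H1 h1 hv1 hs hg s1 s1' aP cP b'P c'P k1 bP' cP' k1' (r1.st hp) (r2.st hp)
    t1 t2' ((d1 z N.yz.symm N.xz.symm).2 z1)
    (fun k => (rβ.st m2.2.1).disj z ((d2 z N.yz.symm N.xz.symm).1 k) z2) fun g hg => by
      have g1 : g ≠ x := by rintro rfl; exact vP (N.jx.mem_ind.1 hg).2.1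
      have g2 : g ≠ y := by rintro rfl; exact vP (N.jy.mem_ind.1 hg).2.1
      have g3 : g ≠ z := by rintro rfl; exact vP (N.jz.mem_ind.1 hg).2.1
      rw [d1 g g2 g1, d2 g g2 g1]
      refine hd g g1 g2 g3 ?_
      rintro rfl
      have g4 := mem_ind.1 (ho Z sZ vZ aZ cZ kZ)
      have g5 := mem_ind.1 hg
      exact hp.ne g4.1 (G.joins_st g) ((iZ _ g5.2.1 g4.2.1).trans (iZ _ g5.2.2 g4.2.2).symm)
  have df' : ¬ (G.Conn (α'.1 \ {φ, ψ}) c a ↔ G.Conn (β'.1 \ {φ, ψ}) c a) := by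
    rcases e1 with ⟨rfl, rfl⟩ | ⟨rfl, rfl⟩
    · exact df
    · rw [(N.hcl_all H h hv hs hg hb (r1.st hp) t1).2,
        (N.hcl_all H h hv hs hg hb (r2.st hp) t2').2] at df
      grind
  by_cases k : G.Conn (p.1 \ {φ, ψ}) c a ↔ G.Conn (α'.1 \ {φ, ψ}) c a
  · exact ⟨β', r2, t2', by grind⟩
  · exact ⟨α', r1, t1, k⟩

theorem Node.whole (hF : FLn n) (hC : CONNn n) (hn : X.card ≤ n + 1) (H : G.HS X Es φ ψ a b c)
    (N : G.Node Es v x y z a' b' c') (hv : v ∉ ({a, b, c} : Finset ℕ))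
    (hs : G.SpA X (Es \ {φ, ψ})) (hnb : G.Joins ψ a b → ¬ G.BP X (Es \ {φ, ψ}) a b c)
    (hg : G.GoodC X (Es \ {φ, ψ}) v b' c') : G.Whole X Es {φ, ψ} {a, b, c} x y z := by
  intro p q hp hq tp tq hpq
  by_cases hm : G.Joins ψ a b ∧ G.BPX X (Es \ {φ, ψ}) v b' c' a b c
  swap
  · exact N.class_conn hC hn H hv hs hg hp hq tp tq hpq fun h1 h2 => absurd ⟨h1, h2⟩ hm
  by_cases hχ : G.Conn (p.1 \ {φ, ψ}) c a ↔ G.Conn (q.1 \ {φ, ψ}) c a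
  · exact N.class_conn hC hn H hv hs hg hp hq tp tq hpq fun _ _ => hχ
  obtain ⟨p', h1, h2, h3⟩ : ∃ p', G.AReach X Es {φ, ψ} {a, b, c} p p' ∧ Ty x y z p' ∧
      ¬ (G.Conn (p.1 \ {φ, ψ}) c a ↔ G.Conn (p'.1 \ {φ, ψ}) c a) := by
    rcases N.vto_or hp tp with h | h
    · exact N.hw_key hF hC hn H hm.1 hv hs (hnb hm.1) hg hm.2 hp tp h
    · obtain ⟨p', h1, h2, h3⟩ :=
        N.s23.hw_key hF hC hn H hm.1 hv hs (hnb hm.1) hg.symm hm.2.symm hp tp.s23 h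
      exact ⟨p', h1, h2.s23, h3⟩
  refine h1.trans (N.class_conn hC hn H hv hs hg (h1.st hp) hq h2 tq
    (fun g hg => (h1.agree g hg).symm.trans (hpq g hg)) fun _ _ => ?_)
  grind

end Gr

end Pool.Agent.P.MP_3f5ce9_co
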