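import Pool.Agent.P.MP_3f5ce9_co.W.Dual

/-!
Restriction, deletion, contraction, copies, minors and isomorphisms.
-/

open Finset

namespace Pool.Agent.P.MP_3f5ce9_co

namespace BM

variable {M N K : BM} {I J X Y Z A B C D : Finset ℕ} {e : ℕ} {f g π : ℕ → ℕ}

@[simp] theorem res_E (M : BM) (X : Finset ℕ) : (M.res X).E = M.E ∩ X := rfl
@[simp] theorem del_E (M : BM) (X : Finset ℕ) : (M.del X).E = M.E \ X := rfl
@[simp] theorem con_E (M : BM) (X : Finset ℕ) : (M.con X).E = M.E \ X := rfl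
@[simp] theorem lin_E (M : BM) (φ : ℕ → Finset ℕ) (X : Finset ℕ) : (M.lin φ X).E = X := rfl
@[simp] theorem pull_E (M : BM) (π : ℕ → ℕ) (X : Finset ℕ) : (M.pull π X).E = X := rfl

theorem del_eq_res (M : BM) (D : Finset ℕ) : M.del D = M.res (M.E \ D) := by
  exact ext_cyc (inter_eq_right.2 sdiff_subset).symm fun C => and_congr_right fun h =>
    ⟨fun h1 => subset_sdiff.2 ⟨M.sub C h, h1⟩, fun h1 => (subset_sdiff.1 h1).2⟩

theorem res_eq_del (M : BM) (X : Finset ℕ) : M.res X = M.del (M.E \ X) := by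
  exact ext_cyc (sdiff_sdiff_self_left _ _).symm fun C => and_congr_right fun h =>
    ⟨fun h1 => disjoint_left.2 fun x hx h2 => (mem_sdiff.1 h2).2 (h1 hx), fun h1 x hx =>
      by_contra fun h2 => disjoint_left.1 h1 hx (mem_sdiff.2 ⟨M.sub C h hx, h2⟩)⟩

theorem res_self (M : BM) (h : M.E ⊆ X) : M.res X = M := by
  exact ext_cyc (inter_eq_left.2 h) fun C => and_iff_left_of_imp fun h1 => (M.sub C h1).trans h

theorem res_res (M : BM) (X Y : Finset ℕ) : (M.res X).res Y = M.res (X ∩ Y) := by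
  exact ext_cyc (inter_assoc _ _ _) fun C => and_assoc.trans
    (and_congr_right fun _ => subset_inter_iff.symm)

theorem del_del (M : BM) (X Y : Finset ℕ) : (M.del X).del Y = M.del (X ∪ Y) := by
  exact ext_cyc (sdiff_sdiff _ _ _) fun C => and_assoc.trans
    (and_congr_right fun _ => disjoint_union_right.symm)

theorem con_con (M : BM) (X Y : Finset ℕ) : (M.con X).con Y = M.con (X ∪ Y) := by
  refine ext_cyc (sdiff_sdiff _ _ _) fun D => ⟨?_, ?_⟩
  · rintro ⟨_, ⟨C, h, rfl⟩, rfl⟩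
    exact ⟨C, h, sdiff_sdiff _ _ _⟩
  · rintro ⟨C, h, rfl⟩
    exact ⟨_, ⟨C, h, rfl⟩, (sdiff_sdiff _ _ _).symm⟩

theorem del_con (M : BM) (h : Disjoint X Y) : (M.del X).con Y = (M.con Y).del X := by
  refine ext_cyc (sdiff_right_comm _ _ _) fun D => ⟨?_, ?_⟩
  · rintro ⟨C, ⟨h1, h2⟩, rfl⟩
    exact ⟨⟨C, h1, rfl⟩, h2.mono_left sdiff_subset⟩
  · rintro ⟨⟨C, h1, rfl⟩, h2⟩
    exact ⟨C, ⟨h1, disjoint_left.2 fun x hx h3 => disjoint_left.1 h2
      (mem_sdiff.2 ⟨hx, disjoint_left.1 h h3⟩) h3⟩, rfl⟩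

theorem del_of_disjoint (M : BM) (h : Disjoint M.E X) : M.del X = M := by
  exact ext_cyc (sdiff_eq_self_of_disjoint h) fun C =>
    and_iff_left_of_imp fun h1 => h.mono_left (M.sub C h1)

theorem con_of_disjoint (M : BM) (h : Disjoint M.E X) : M.con X = M := by
  refine ext_cyc (sdiff_eq_self_of_disjoint h) fun D => ⟨?_, fun h1 =>
    ⟨D, h1, (sdiff_eq_self_of_disjoint (h.mono_left (M.sub D h1))).symm⟩⟩
  rintro ⟨C, h1, rfl⟩
  rwa [sdiff_eq_self_of_disjoint (h.mono_left (M.sub C h1))]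

theorem indep_res : (M.res X).Indep I ↔ M.Indep I ∧ I ⊆ X := by
  refine ⟨fun h => ?_, fun h => ⟨subset_inter h.1.1 h.2, fun C c1 c2 => h.1.2 C c1.1 c2⟩⟩
  obtain ⟨h1, h2⟩ := subset_inter_iff.1 h.1
  exact ⟨⟨h1, fun C c1 c2 => h.2 C ⟨c1, c2.trans h2⟩ c2⟩, h2⟩

theorem indep_del : (M.del D).Indep I ↔ M.Indep I ∧ Disjoint I D := by
  rw [del_eq_res, indep_res, subset_sdiff]
  exact and_congr_right fun h => and_iff_right h.1

theorem r_res (M : BM) (X Y : Finset ℕ) : (M.res X).r Y = M.r (Y ∩ X) := by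
  apply le_antisymm
  · obtain ⟨I, h1, h2, h3⟩ := (M.res X).exists_basis Y
    exact h3 ▸ (indep_res.1 h2).1.card_le_r (subset_inter h1 (indep_res.1 h2).2)
  · obtain ⟨I, h1, h2, h3⟩ := M.exists_basis (Y ∩ X)
    exact h3 ▸ (indep_res.2 ⟨h2, h1.trans inter_subset_right⟩).card_le_r
      (h1.trans inter_subset_left)

theorem r_res_of_subset (M : BM) (h : Y ⊆ X) : (M.res X).r Y = M.r Y := by
  rw [r_res, inter_eq_left.2 h]

theorem r_del (M : BM) (D Y : Finset ℕ) : (M.del D).r Y = M.r (Y \ D) := by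
  rw [del_eq_res, r_res, ← M.r_inter_E (Y \ D)]
  congr 1
  ext x
  simp only [mem_inter, mem_sdiff]
  tauto

theorem r_del_of_disjoint (M : BM) (h : Disjoint Y D) : (M.del D).r Y = M.r Y := by
  rw [r_del, sdiff_eq_self_of_disjoint h]

theorem mn_indep_con (hI : M.Indep I) (hIC : I ⊆ C) (h : I.card = M.r C) :
    (M.con C).Indep J ↔ Disjoint J C ∧ M.Indep (J ∪ I) := by
  refine ⟨fun h1 => ?_, fun ⟨h1, h2⟩ => ⟨subset_sdiff.2 ⟨subset_union_left.trans h2.1, h1⟩, ?_⟩⟩
  · obtain ⟨h2, h3⟩ := subset_sdiff.1 h1.1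
    refine ⟨h3, union_subset h2 hI.1, fun F f1 f2 => hI.2 F f1 fun x hx => ?_⟩
    have h4 := h1.2 _ ⟨F, f1, rfl⟩ fun y hy => (mem_union.1 (f2 (mem_sdiff.1 hy).1)).resolve_right
      fun h5 => (mem_sdiff.1 hy).2 (hIC h5)
    exact (mem_union.1 (f2 hx)).resolve_left fun h5 =>
      disjoint_left.1 h3 h5 (sdiff_eq_empty_iff_subset.1 h4 hx)
  · rintro _ ⟨F, f1, rfl⟩ f2
    refine eq_empty_of_forall_notMem fun x hx => ?_
    have a0 := f2 hx
    have a1 := (r_insert_eq_iff (X := C ∪ J.erase x) (M.sub F f1 (mem_sdiff.1 hx).1)).2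
      (Or.inr ⟨F, f1, (mem_sdiff.1 hx).1, by
        rw [← union_insert, insert_erase a0]
        exact sdiff_le_iff.1 f2⟩)
    rw [← union_insert, insert_erase a0, ← r_union_congr hIC (hI.r_eq.trans h),
      ← r_union_congr hIC (hI.r_eq.trans h), union_comm, h2.r_eq,
      card_union_of_disjoint (h1.mono_right hIC)] at a1
    have a2 := M.r_union_le_card I (J.erase x)
    have a3 := card_erase_add_one a0
    have a4 := hI.r_eq
    omega

theorem r_con (M : BM) (C Y : Finset ℕ) : (M.con C).r Y + M.r C = M.r (Y ∪ C) := by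
  obtain ⟨I, h1, h2, h3⟩ := M.exists_basis C
  apply le_antisymm
  · obtain ⟨J, j1, j2, j3⟩ := (M.con C).exists_basis Y
    obtain ⟨j4, j5⟩ := (mn_indep_con h2 h1 h3).1 j2
    have := j5.card_le_r (union_subset_union j1 h1)
    rw [card_union_of_disjoint (j4.mono_right h1)] at this
    omega
  · obtain ⟨K, k1, k2, k3, k4⟩ := h2.exists_basis_superset (h1.trans (subset_union_right (s₁ := Y)))
    have a1 := ((mn_indep_con (J := K \ C) h2 h1 h3).2 ⟨sdiff_disjoint,
      k3.subset (union_subset sdiff_subset k1)⟩).card_le_r (X := Y)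
        (sdiff_le_iff.2 (k2.trans (union_comm Y C).subset))
    have a2 := (k3.subset (inter_subset_left (s₂ := C))).card_le_r inter_subset_right
    have a3 := card_sdiff_add_card_inter K C
    omega

theorem mn_dual_con (M : BM) (C : Finset ℕ) : (M.con C).dual = M.dual.del C := by
  have key : ∀ F D : Finset ℕ, Disjoint D C → F \ C ∩ D = F ∩ D := fun F D h => by
    rw [inter_comm, ← inter_sdiff_assoc, inter_comm D,
      sdiff_eq_self_of_disjoint (h.mono_left inter_subset_right)]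
  refine ext_cyc rfl fun D => ⟨fun ⟨h1, h2⟩ => ?_, fun ⟨⟨h1, h2⟩, h3⟩ =>
    ⟨subset_sdiff.2 ⟨h1, h3⟩, ?_⟩⟩
  · obtain ⟨h3, h4⟩ := subset_sdiff.1 h1
    exact ⟨⟨h3, fun F hF => key F D h4 ▸ h2 _ ⟨F, hF, rfl⟩⟩, h4⟩
  · rintro _ ⟨F, hF, rfl⟩
    rw [key F D h3]
    exact h2 F hF

theorem dual_del (M : BM) (D : Finset ℕ) : (M.del D).dual = M.dual.con D := by
  rw [← (M.dual.con D).dual_dual, mn_dual_con, dual_dual]

theorem dual_con (M : BM) (C : Finset ℕ) : (M.con C).dual = M.dual.del C := by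
  exact mn_dual_con M C

theorem isBase_res : (M.res X).IsBase B ↔ M.Indep B ∧ B ⊆ X ∧ B.card = M.r X := by
  rw [IsBase, indep_res, r_res, res_E, inter_assoc, inter_self, inter_comm, r_inter_E, and_assoc]

theorem isBase_del (h : M.r (M.E \ D) = M.r M.E) :
    (M.del D).IsBase B ↔ M.IsBase B ∧ Disjoint B D := by
  rw [IsBase, IsBase, indep_del, r_del, del_E, Finset.sdiff_idem, h, and_right_comm]

theorem indep_con (hI : M.Indep I) (hIC : I ⊆ C) (h : I.card = M.r C) :
    (M.con C).Indep J ↔ Disjoint J C ∧ M.Indep (J ∪ I) := by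
  exact mn_indep_con hI hIC h

theorem isBase_con (hI : M.Indep I) (hIC : I ⊆ C) (h : I.card = M.r C) :
    (M.con C).IsBase B ↔ Disjoint B C ∧ M.IsBase (B ∪ I) := by
  rw [IsBase, IsBase, indep_con hI hIC h, and_assoc]
  refine and_congr_right fun h1 => and_congr_right fun _ => ?_
  have a1 := M.r_con C (M.E \ C)
  rw [sdiff_union_self_eq_union, ← M.r_inter_E (M.E ∪ C), union_inter_cancel_left] at a1
  rw [card_union_of_disjoint (h1.mono_right hIC), con_E]
  omega

theorem mn_mono (M : BM) (h : X ⊆ Y) (h' : A ⊆ B) :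
    M.r X + M.r A + M.r (Y ∪ B) ≤ M.r (X ∪ A) + M.r Y + M.r B := by
  have a1 := M.r_dimin h A
  have a2 := M.r_dimin h' Y
  rw [union_comm B, union_comm A] at a2
  omega

theorem lam_del_le (M : BM) (hX : X ⊆ M.E) (D : Finset ℕ) : (M.del D).lam (X \ D) ≤ M.lam X := by
  have a1 := (M.del D).lam_add (X \ D)
  have a2 := M.lam_add X
  have a3 := mn_mono M (sdiff_subset (s := X) (t := D)) (sdiff_subset (s := M.E \ X) (t := D))
  have e1 : (M.E \ D) \ (X \ D) = (M.E \ X) \ D := by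
    ext x; simp only [mem_sdiff]; tauto
  rw [del_E, e1, r_del, r_del, r_del, Finset.sdiff_idem, Finset.sdiff_idem,
    Finset.sdiff_idem] at a1
  rw [← union_sdiff_distrib, union_sdiff_of_subset hX] at a3
  omega

theorem lam_con_le (M : BM) (hX : X ⊆ M.E) (C : Finset ℕ) : (M.con C).lam (X \ C) ≤ M.lam X := by
  rw [← lam_dual (sdiff_subset_sdiff hX Subset.rfl), dual_con, ← lam_dual hX]
  exact M.dual.lam_del_le hX C

/-! copies -/

theorem mn_ins (h : e ∉ I) : insert e I = symmDiff {e} I := by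
  ext x
  simp only [mem_insert, mem_symmDiff, mem_singleton]
  by_cases hx : x = e <;> simp [hx, h]

theorem mn_single (φ : ℕ → Finset ℕ) (e : ℕ) : oddSum φ {e} = φ e := by
  ext y
  rw [mem_oddSum, filter_singleton]
  split_ifs with hy <;> simp [hy]

theorem mn_sub (π : ℕ → ℕ) (C : Finset ℕ) : oddSum (fun x => {π x}) C ⊆ C.image π := by
  intro y hy
  obtain ⟨x, h1, h2⟩ := mem_biUnion.1 (mem_filter.1 hy).1
  exact mem_image.2 ⟨x, h1, (mem_singleton.1 h2).symm⟩

theorem mn_inj (h : Set.InjOn π C) : oddSum (fun x => {π x}) C = C.image π := by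
  refine Subset.antisymm (mn_sub π C) (image_subset_iff.2 fun x hx => ?_)
  have : (C.filter fun y => π x ∈ ({π y} : Finset ℕ)) = {x} :=
    eq_singleton_iff_unique_mem.2 ⟨mem_filter.2 ⟨hx, mem_singleton_self _⟩, fun y hy =>
      h (mem_filter.1 hy).1 hx (mem_singleton.1 (mem_filter.1 hy).2).symm⟩
  rw [mem_oddSum, this]
  exact odd_one

theorem mn_pair {x y : ℕ} (hx : x ∈ X) (hy : y ∈ X) (hne : x ≠ y) (h : π x = π y) :
    (M.pull π X).cyc {x, y} := by
  refine ⟨insert_subset hx (singleton_subset_iff.2 hy), ?_⟩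
  rw [mn_ins (notMem_singleton.2 hne), oddSum_symmDiff, mn_single, mn_single, h, symmDiff_self]
  exact M.nil

theorem mn_comp (π g : ℕ → ℕ) (C : Finset ℕ) : oddSum (fun x => {π x})
    (oddSum (fun x => {g x}) C) = oddSum (fun x => {(π ∘ g) x}) C := by
  induction C using Finset.induction_on with
  | empty => rfl
  | insert i I hi ih =>
    rw [mn_ins hi, oddSum_symmDiff, oddSum_symmDiff, oddSum_symmDiff, ih, mn_single, mn_single,
      mn_single]
    rfl

theorem mn_par (π : ℕ → ℕ) (C D : Finset ℕ) : Odd (oddSum (fun x => {π x}) C ∩ D).card ↔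
    Odd (C.filter fun x => π x ∈ D).card := by
  induction C using Finset.induction_on with
  | empty => rfl
  | insert i I hi ih =>
    rw [mn_ins hi, oddSum_symmDiff, filter_symmDiff', ← filter_mem_eq_inter, filter_symmDiff',
      odd_card_symmDiff, odd_card_symmDiff, filter_mem_eq_inter (s := oddSum _ I), ih, mn_single,
      filter_singleton, filter_singleton]
    split_ifs <;> simp

theorem indep_pull (hπ : ∀ x ∈ X, π x ∈ M.E) :
    (M.pull π X).Indep I ↔ I ⊆ X ∧ Set.InjOn π I ∧ M.Indep (I.image π) := by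
  refine ⟨fun h => ?_, fun ⟨h1, h2, h3⟩ => ⟨h1, fun C c1 c2 => ?_⟩⟩
  · have h1 : Set.InjOn π I := fun x hx y hy hxy => by_contra fun hne =>
      insert_ne_empty _ _ (h.2 _ (mn_pair (h.1 hx) (h.1 hy) hne hxy)
        (insert_subset hx (singleton_subset_iff.2 hy)))
    refine ⟨h.1, h1, image_subset_iff.2 fun x hx => hπ x (h.1 hx), fun F f1 f2 => ?_⟩
    obtain ⟨C, c1, rfl⟩ := subset_image_iff.1 f2
    rw [h.2 C ⟨c1.trans h.1, (mn_inj (h1.mono c1)).symm ▸ f1⟩ c1, image_empty]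
  · exact image_eq_empty.1 (h3.2 _ (mn_inj (h2.mono c2) ▸ c1.2) (image_subset_image c2))

theorem r_pull (hπ : ∀ x ∈ X, π x ∈ M.E) (hY : Y ⊆ X) :
    (M.pull π X).r Y = M.r (Y.image π) := by
  apply le_antisymm
  · obtain ⟨I, h1, h2, h3⟩ := (M.pull π X).exists_basis Y
    obtain ⟨-, h4, h5⟩ := (indep_pull hπ).1 h2
    rw [← h3, ← card_image_of_injOn h4]
    exact h5.card_le_r (image_subset_image h1)
  · obtain ⟨J, h1, h2, h3⟩ := M.exists_basis (Y.image π)
    obtain ⟨I, i1, i2, rfl⟩ := exists_subset_injOn_image_eq_of_surjOn (f := π) (Y : Set ℕ) J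
      fun y hy => by simpa using h1 hy
    rw [← h3, card_image_of_injOn i2]
    exact ((indep_pull hπ).2 ⟨(coe_subset.1 i1).trans hY, i2, h2⟩).card_le_r (coe_subset.1 i1)

theorem isBase_pull (hπ : ∀ x ∈ X, π x ∈ M.E) (h : M.r (X.image π) = M.r M.E) :
    (M.pull π X).IsBase B ↔ B ⊆ X ∧ Set.InjOn π B ∧ M.IsBase (B.image π) := by
  rw [IsBase, IsBase, indep_pull hπ, pull_E, r_pull hπ Subset.rfl, h, and_assoc, and_assoc]
  refine and_congr_right fun _ => and_congr_right fun h1 => ?_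
  rw [card_image_of_injOn h1]

theorem cyc_pull_inj (hπ : Set.InjOn π X) :
    (M.pull π X).cyc C ↔ C ⊆ X ∧ M.cyc (C.image π) := by
  exact and_congr_right fun h => by rw [mn_inj (hπ.mono h)]

theorem pull_id (M : BM) (h : ∀ x ∈ X, π x = x) (hX : X ⊆ M.E) : M.pull π X = M.res X := by
  refine ext_cyc (inter_eq_right.2 hX).symm fun C => ?_
  rw [cyc_pull_inj fun x hx y hy hxy => by rwa [h x hx, h y hy] at hxy, and_comm]
  refine and_congr_left fun h1 => ?_
  rw [image_congr (g := id) fun x hx => h x (h1 hx), image_id]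

theorem pull_res (M : BM) (π : ℕ → ℕ) (X Y : Finset ℕ) :
    (M.pull π X).res Y = M.pull π (X ∩ Y) := by
  exact ext_cyc rfl fun C => and_right_comm.trans (and_congr_left' subset_inter_iff.symm)

theorem pull_pull (M : BM) (h : ∀ y ∈ Y, g y ∈ X) :
    (M.pull π X).pull g Y = M.pull (π ∘ g) Y := by
  refine ext_cyc rfl fun C => and_congr_right fun h1 => ?_
  rw [← mn_comp]
  exact and_iff_right ((mn_sub g C).trans (image_subset_iff.2 fun x hx => h x (h1 hx)))

theorem pull_congr (M : BM) (h : ∀ x ∈ X, f x = g x) : M.pull f X = M.pull g X := by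
  refine ext_cyc rfl fun C => and_congr_right fun h1 => ?_
  have : oddSum (fun x => {f x}) C = oddSum (fun x => {g x}) C := by
    ext y
    rw [mem_oddSum, mem_oddSum, filter_congr fun x hx => by rw [h x (h1 hx)]]
  rw [this]

theorem res_pull (M : BM) (h : ∀ x ∈ X, π x ∈ Y) : (M.res Y).pull π X = M.pull π X := by
  exact ext_cyc rfl fun C => and_congr_right fun h1 => and_iff_left
    ((mn_sub π C).trans (image_subset_iff.2 fun x hx => h x (h1 hx)))

/-- the cocycles of a copy are the preimages of cocycles -/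
theorem cocyc_pull (hπ : ∀ x ∈ X, π x ∈ M.E) :
    (M.pull π X).dual.cyc D ↔ ∃ D0, M.dual.cyc D0 ∧ D = X.filter fun x => π x ∈ D0 := by
  constructor
  · rintro ⟨h1, h2⟩
    have h3 : ∀ y ∈ X, π y ∈ D.image π → y ∈ D := fun y hy h4 => by
      obtain ⟨x, hx, hxy⟩ := mem_image.1 h4
      by_contra h5
      have := h2 _ (mn_pair (h1 hx) hy (fun h6 => h5 (h6 ▸ hx)) hxy)
      rw [insert_inter_of_mem hx, singleton_inter_of_notMem h5] at this
      simp at this
    have h4 : (M.res (X.image π)).dual.cyc (D.image π) := by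
      refine ⟨subset_inter (image_subset_iff.2 fun x hx => hπ x (h1 hx)) (image_subset_image h1),
        fun F hF => ?_⟩
      obtain ⟨C, c1, c2, rfl⟩ := exists_subset_injOn_image_eq_of_surjOn (f := π) (X : Set ℕ) F
        fun y hy => by simpa using hF.2 hy
      have := h2 C ⟨coe_subset.1 c1, (mn_inj c2).symm ▸ hF.1⟩
      rw [← Nat.not_odd_iff_even, ← mn_inj c2, mn_par, filter_congr (q := fun x => x ∈ D)
        fun x hx => ⟨h3 x (c1 hx), mem_image_of_mem π⟩, filter_mem_eq_inter]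
      exact Nat.not_odd_iff_even.2 this
    rw [res_eq_del, dual_del] at h4
    obtain ⟨D0, d1, d2⟩ := h4
    refine ⟨D0, d1, Subset.antisymm (fun x hx => mem_filter.2 ⟨h1 hx, ?_⟩) fun x hx => ?_⟩
    · exact (mem_sdiff.1 (d2 ▸ mem_image_of_mem π hx)).1
    · obtain ⟨a1, a2⟩ := mem_filter.1 hx
      exact h3 x a1 (d2 ▸ mem_sdiff.2 ⟨a2, fun h => (mem_sdiff.1 h).2 (mem_image_of_mem π a1)⟩)
  · rintro ⟨D0, h1, rfl⟩
    refine ⟨filter_subset _ _, fun C hC => ?_⟩
    have := h1.2 _ hC.2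
    rw [← Nat.not_odd_iff_even, mn_par] at this
    rw [← Nat.not_odd_iff_even, inter_filter, inter_eq_left.2 hC.1]
    exact this

theorem dual_pull_bij (hπ : Set.InjOn π X) (h : X.image π = M.E) :
    (M.pull π X).dual = M.dual.pull π X := by
  refine ext_cyc rfl fun D => ?_
  rw [cocyc_pull fun x hx => h ▸ mem_image_of_mem π hx, cyc_pull_inj hπ]
  constructor
  · rintro ⟨D0, h1, rfl⟩
    refine ⟨filter_subset _ _, ?_⟩
    rwa [← filter_image (p := fun y => y ∈ D0), filter_mem_eq_inter, h, inter_eq_right.2 h1.1]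
  · rintro ⟨h1, h2⟩
    refine ⟨_, h2, Subset.antisymm (fun x hx => mem_filter.2 ⟨h1 hx, mem_image_of_mem π hx⟩)
      fun x hx => ?_⟩
    obtain ⟨y, hy, hxy⟩ := mem_image.1 (mem_filter.1 hx).2
    exact hπ (h1 hy) (mem_filter.1 hx).1 hxy ▸ hy

/-- simplification of a loopless matroid -/
theorem Loopless.exists_si (h : M.Loopless) : ∃ X0 π, X0 ⊆ M.E ∧ (∀ x ∈ M.E, π x ∈ X0) ∧
    (∀ x ∈ X0, π x = x) ∧ (M.res X0).Simple ∧ M = (M.res X0).pull π M.E := by
  have tr : ∀ x ∈ M.E, ∀ y ∈ M.E, ∀ z, M.r {x, y} = 1 → M.r {y, z} = 1 → M.r {x, z} = 1 := by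
    intro x hx y hy z h1 h2
    have a1 := M.r_submod {x, y} {y, z}
    have a2 := M.r_mono (X := {y}) (Y := {x, y} ∩ {y, z}) (by simp)
    have a3 := M.r_mono (X := {x, z}) (Y := {x, y} ∪ {y, z}) (insert_subset (by simp) (by simp))
    have a4 := M.r_mono (X := {x}) (Y := {x, z}) (by simp)
    have a5 := h x hx
    have a6 := h y hy
    omega
  let π : ℕ → ℕ := fun x => sInf {y | y ∈ M.E ∧ M.r {x, y} = 1}
  have p1 : ∀ x ∈ M.E, π x ∈ M.E ∧ M.r {x, π x} = 1 := fun x hx =>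
    Nat.sInf_mem (s := {y | y ∈ M.E ∧ M.r {x, y} = 1}) ⟨x, hx, by simpa using h x hx⟩
  have p2 : ∀ x ∈ M.E, ∀ y ∈ M.E, M.r {x, y} = 1 → π x = π y := fun x hx y hy h1 =>
    congrArg sInf (Set.ext fun z => and_congr_right fun _ =>
      ⟨tr y hy x hx z (pair_comm x y ▸ h1), tr x hx y hy z h1⟩)
  have p3 : M.E.image π ⊆ M.E := image_subset_iff.2 fun x hx => (p1 x hx).1
  have p4 : ∀ x ∈ M.E.image π, π x = x := fun x hx => by
    obtain ⟨y, hy, rfl⟩ := mem_image.1 hx
    exact (p2 y hy _ (p1 y hy).1 (p1 y hy).2).symm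
  refine ⟨M.E.image π, π, p3, fun x hx => mem_image_of_mem π hx, p4, fun X hX hc => ?_,
    ext_r rfl fun X hX => ?_⟩
  · obtain ⟨h1, h2⟩ := subset_inter_iff.1 hX
    refine indep_res.2 ⟨indep_iff.2 ⟨h1, ?_⟩, h2⟩
    obtain h0 | h0 | h0 : X.card = 0 ∨ X.card = 1 ∨ X.card = 2 := by omega
    · rw [card_eq_zero.1 h0]; simp
    · obtain ⟨a, rfl⟩ := card_eq_one.1 h0
      exact h a (h1 (mem_singleton_self a))
    · obtain ⟨a, b, hab, rfl⟩ := card_eq_two.1 h0
      have a1 := M.r_le_card {a, b}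
      have a2 := M.r_mono (X := {a}) (Y := {a, b}) (by simp)
      have a3 := h a (h1 (by simp))
      have a4 : M.r {a, b} ≠ 1 := fun a4 => hab (by
        rw [← p4 a (h2 (by simp)), ← p4 b (h2 (by simp))]
        exact p2 a (h1 (by simp)) b (h1 (by simp)) a4)
      omega
  · rw [r_pull (fun x hx => mem_inter.2 ⟨(p1 x hx).1, mem_image_of_mem π hx⟩) hX,
      r_res_of_subset _ (image_subset_image hX), ← r_union_of_subset_cl (X := X) (Y := X.image π),
      union_comm, r_union_of_subset_cl]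
    · exact fun x hx => M.cl_mono (singleton_subset_iff.2 (mem_image_of_mem π hx))
        (mem_cl.2 ⟨hX hx, (p1 x (hX hx)).2.trans (h _ (p1 x (hX hx)).1).symm⟩)
    · exact image_subset_iff.2 fun x hx => M.cl_mono (singleton_subset_iff.2 hx)
        (mem_cl.2 ⟨(p1 x (hX hx)).1, by rw [pair_comm, (p1 x (hX hx)).2, h x (hX hx)]⟩)

/-! minors -/

theorem MinorAt.refl (M : BM) : M.MinorAt M id ∅ := by
  exact ⟨Set.injOn_id _, empty_subset _, fun e he => ⟨he, notMem_empty _⟩, fun X _ => by simp⟩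

theorem MinorAt.trans (h : M.MinorAt N f C) (h' : N.MinorAt K g D) :
    M.MinorAt K (f ∘ g) (D.image f ∪ C) := by
  refine ⟨h.inj.comp h'.inj fun e he => (h'.maps e he).1, union_subset
    (image_subset_iff.2 fun x hx => (h.maps x (h'.sub hx)).1) h.sub, fun e he => ?_,
    fun X hX => ?_⟩
  · obtain ⟨a1, a2⟩ := h'.maps e he
    refine ⟨(h.maps _ a1).1, fun h1 => (mem_union.1 h1).elim (fun h2 => ?_) (h.maps _ a1).2⟩
    obtain ⟨x, hx, h3⟩ := mem_image.1 h2
    exact a2 (h.inj (h'.sub hx) a1 h3 ▸ hx)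
  · have a1 := h'.rk X hX
    have a2 := h.rk D h'.sub
    have a3 := h.rk (X.image g ∪ D) (union_subset
      (image_subset_iff.2 fun x hx => (h'.maps x (hX hx)).1) h'.sub)
    rw [image_union, image_image, union_assoc] at a3
    omega

theorem MinorAt.mn_img (h : M.MinorAt N f C) : N.E.image f ⊆ M.E \ C :=
  image_subset_iff.2 fun x hx => mem_sdiff.2 (h.maps x hx)

theorem MinorAt.mn_r (h : M.MinorAt N f C) (hX : X ⊆ N.E) : N.r X = (M.con C).r (X.image f) := by
  have a1 := h.rk X hX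
  have a2 := M.r_con C (X.image f)
  omega

theorem MinorAt.dual (h : M.MinorAt N f C) :
    M.dual.MinorAt N.dual f (M.E \ (N.E.image f ∪ C)) := by
  refine ⟨h.inj, sdiff_subset, fun e he => ⟨(h.maps e he).1, fun h1 =>
    (mem_sdiff.1 h1).2 (mem_union_left _ (mem_image_of_mem f he))⟩, fun X hX => ?_⟩
  have hX' : X ⊆ N.E := hX
  have s1 : X.image f ⊆ N.E.image f := image_subset_image hX'
  have s2 := subset_sdiff.1 h.mn_img
  have s3 : N.E.image f ∪ C ⊆ M.E := union_subset s2.1 h.sub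
  have a1 := r_dual hX'
  have a2 := h.rk N.E Subset.rfl
  have a3 := h.rk (N.E \ X) sdiff_subset
  have a4 := r_dual (M := M) (X := M.E \ (N.E.image f ∪ C)) sdiff_subset
  have a5 := r_dual (M := M) (X := X.image f ∪ M.E \ (N.E.image f ∪ C))
    (union_subset (s1.trans s2.1) sdiff_subset)
  have e1 : M.E \ (X.image f ∪ M.E \ (N.E.image f ∪ C)) = N.E.image f \ X.image f ∪ C := by
    ext y
    have b1 := @s1 y
    have b2 := @s3 y
    have b3 := @disjoint_left.1 s2.2 y
    simp only [mem_sdiff, mem_union] at b2 ⊢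
    tauto
  rw [image_sdiff_of_injOn h.inj hX'] at a3
  rw [Finset.sdiff_sdiff_eq_self s3] at a4
  rw [e1, card_union_of_disjoint (disjoint_sdiff.mono_left (s1.trans subset_union_left)),
    card_image_of_injOn (h.inj.mono hX')] at a5
  omega

theorem MinorAt.eq_pull (h : M.MinorAt N f C) : N = (M.con C).pull f N.E := by
  refine ext_r rfl fun X hX => ?_
  rw [r_pull (fun x hx => mem_sdiff.2 (h.maps x hx)) hX, h.mn_r hX]

theorem minorAt_pull (hC : C ⊆ M.E) (hf : Set.InjOn f X) (h : ∀ x ∈ X, f x ∈ M.E \ C) :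
    M.MinorAt ((M.con C).pull f X) f C := by
  refine ⟨hf, hC, fun e he => mem_sdiff.1 (h e he), fun Y hY => ?_⟩
  rw [r_pull (M := M.con C) h hY, r_con]

/-- the contracted set may be taken independent and the deleted set coindependent -/
theorem MinorAt.exists_indep (h : M.MinorAt N f C) :
    ∃ C', M.MinorAt N f C' ∧ M.Indep C' ∧ M.r (N.E.image f ∪ C') = M.r M.E := by
  obtain ⟨I, i1, i2, i3⟩ := M.exists_basis C
  obtain ⟨K, k1, k2, k3, k4⟩ := i2.exists_basis_superset
    (i1.trans (subset_union_right (s₁ := N.E.image f)))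
  obtain ⟨B, b1, b2⟩ := k3.exists_base
  have c1 : M.Indep (I ∪ B \ K) := b1.1.subset (union_subset (k1.trans b2) sdiff_subset)
  have c2 := card_sdiff_add_card_eq_card b2
  have c3 := b1.1.card_le_r (X := N.E.image f ∪ C ∪ B \ K)
    ((union_sdiff_of_subset b2).ge.trans (union_subset_union_left k2))
  have key : ∀ X ⊆ N.E, M.r (X.image f ∪ (I ∪ B \ K)) = M.r (X.image f ∪ C) + (B \ K).card := by
    intro X hX
    have a1 := M.r_union_le_card (X.image f ∪ I) (B \ K)
    have a2 := M.r_dimin (union_subset_union (image_subset_image (f := f) hX) i1) (B \ K)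
    have a3 := r_union_congr i1 (i2.r_eq.trans i3) (X.image f)
    rw [union_comm I, union_comm C] at a3
    rw [← union_assoc]
    omega
  refine ⟨I ∪ B \ K, ⟨h.inj, c1.1, fun e he => ⟨(h.maps e he).1, fun h1 => ?_⟩, fun X hX => ?_⟩,
    c1, ?_⟩
  · rcases mem_union.1 h1 with h2 | h2
    · exact (h.maps e he).2 (i1 h2)
    · have := (b1.1.subset (insert_subset (mem_sdiff.1 h2).1 b2)).card_le_r
        (insert_subset (mem_union_left _ (mem_image_of_mem f he)) k2)
      rw [card_insert_of_notMem (mem_sdiff.1 h2).2] at this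
      omega
  · have a1 := key ∅ (empty_subset _)
    have a2 := h.rk X hX
    rw [image_empty, empty_union, empty_union] at a1
    rw [key X hX]
    omega
  · have := b1.2
    rw [key _ Subset.rfl]
    omega

theorem MinorAt.cyc (h : M.MinorAt N f C) (hD : D ⊆ N.E) :
    N.cyc D ↔ (M.con C).cyc (D.image f) := by
  have := cyc_pull_inj (M := M.con C) (C := D) h.inj
  rw [← h.eq_pull] at this
  exact this.trans (and_iff_right hD)

theorem MinorAt.lam_le (h : M.MinorAt N f C) (hA : A ⊆ M.E) :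
    N.lam (N.E.filter fun x => f x ∈ A) ≤ M.lam A := by
  refine le_trans ?_ (M.lam_con_le hA C)
  have a1 := N.lam_add (N.E.filter fun x => f x ∈ A)
  have a2 := (M.con C).lam_add (A \ C)
  have a3 := mn_mono (M.con C) (X := (N.E.filter fun x => f x ∈ A).image f) (Y := A \ C)
    (A := (N.E \ N.E.filter fun x => f x ∈ A).image f) (B := (M.con C).E \ (A \ C))
    (image_subset_iff.2 fun x hx =>
      mem_sdiff.2 ⟨(mem_filter.1 hx).2, (h.maps x (mem_filter.1 hx).1).2⟩)
    (image_subset_iff.2 fun x hx => mem_sdiff.2 ⟨mem_sdiff.2 (h.maps x (mem_sdiff.1 hx).1),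
      fun h1 => (mem_sdiff.1 hx).2 (mem_filter.2 ⟨(mem_sdiff.1 hx).1, (mem_sdiff.1 h1).1⟩)⟩)
  rw [con_E] at a2 a3
  rw [← image_union, union_sdiff_of_subset (filter_subset _ _),
    union_sdiff_of_subset (sdiff_subset_sdiff hA Subset.rfl), ← h.mn_r (filter_subset _ _),
    ← h.mn_r sdiff_subset, ← h.mn_r Subset.rfl] at a3
  omega

theorem MinorAt.of_del (h : (M.del D).MinorAt N f C) : M.MinorAt N f C := by
  have s1 := subset_sdiff.1 h.sub
  refine ⟨h.inj, s1.1, fun e he => ⟨(mem_sdiff.1 (h.maps e he).1).1, (h.maps e he).2⟩,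
    fun X hX => ?_⟩
  have := h.rk X hX
  rwa [r_del_of_disjoint _ s1.2, r_del_of_disjoint _ (disjoint_union_left.2 ⟨(subset_sdiff.1
    (image_subset_iff.2 fun x hx => (h.maps x (hX hx)).1)).2, s1.2⟩)] at this

theorem MinorAt.of_res (h : (M.res D).MinorAt N f C) : M.MinorAt N f C := by
  rw [res_eq_del] at h
  exact h.of_del

theorem MinorAt.of_con (h : (M.con D).MinorAt N f C) (hD : D ⊆ M.E) :
    M.MinorAt N f (C ∪ D) := by
  refine ⟨h.inj, union_subset (h.sub.trans sdiff_subset) hD, fun e he =>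
    ⟨(mem_sdiff.1 (h.maps e he).1).1, notMem_union.2
      ⟨(h.maps e he).2, (mem_sdiff.1 (h.maps e he).1).2⟩⟩, fun X hX => ?_⟩
  have a1 := h.rk X hX
  have a2 := M.r_con D C
  have a3 := M.r_con D (X.image f ∪ C)
  rw [← union_assoc]
  omega

theorem MinorAt.del (h : M.MinorAt N f C) (hD : Disjoint (N.E.image f ∪ C) D) :
    (M.del D).MinorAt N f C := by
  obtain ⟨h1, h2⟩ := disjoint_union_left.1 hD
  refine ⟨h.inj, subset_sdiff.2 ⟨h.sub, h2⟩, fun e he => ⟨mem_sdiff.2 ⟨(h.maps e he).1,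
    disjoint_left.1 h1 (mem_image_of_mem f he)⟩, (h.maps e he).2⟩, fun X hX => ?_⟩
  rw [r_del_of_disjoint _ h2, r_del_of_disjoint _
    (hD.mono_left (union_subset_union_left (image_subset_image hX))), h.rk X hX]

theorem MinorAt.con (h : M.MinorAt N f C) (hD : D ⊆ C) : (M.con D).MinorAt N f (C \ D) := by
  refine ⟨h.inj, sdiff_subset_sdiff h.sub Subset.rfl, fun e he => ⟨mem_sdiff.2 ⟨(h.maps e he).1,
    fun h1 => (h.maps e he).2 (hD h1)⟩, fun h1 => (h.maps e he).2 (mem_sdiff.1 h1).1⟩,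
    fun X hX => ?_⟩
  have a1 := h.rk X hX
  have a2 := M.r_con D (C \ D)
  have a3 := M.r_con D (X.image f ∪ C \ D)
  rw [union_assoc, sdiff_union_of_subset hD] at a3
  rw [sdiff_union_of_subset hD] at a2
  omega

theorem HasMinor.refl (M : BM) : M.HasMinor M := by
  exact ⟨_, _, MinorAt.refl M⟩

theorem HasMinor.trans (h : M.HasMinor N) (h' : N.HasMinor K) : M.HasMinor K := by
  obtain ⟨f, C, h⟩ := h
  obtain ⟨g, D, h'⟩ := h'
  exact ⟨_, _, h.trans h'⟩

theorem HasMinor.dual (h : M.HasMinor N) : M.dual.HasMinor N.dual := by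
  obtain ⟨f, C, h⟩ := h
  exact ⟨_, _, h.dual⟩

theorem HasMinor.card_le (h : M.HasMinor N) : N.E.card ≤ M.E.card := by
  obtain ⟨f, C, h⟩ := h
  exact card_le_card_of_injOn f (fun x hx => (h.maps x hx).1) h.inj

theorem HasMinor.r_le (h : M.HasMinor N) : N.r N.E ≤ M.r M.E := by
  obtain ⟨f, C, h⟩ := h
  exact le_self_add.trans ((h.rk _ Subset.rfl).le.trans (M.r_le_rE _))

theorem HasMinor.iso (h : M.HasMinor N) (hc : M.E.card ≤ N.E.card) : M.Iso N := by
  obtain ⟨f, C, h⟩ := h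
  have a1 : N.E.image f = M.E := eq_of_subset_of_card_le (h.mn_img.trans sdiff_subset)
    (by rwa [card_image_of_injOn h.inj])
  have a2 : C = ∅ := eq_empty_of_forall_notMem fun x hx =>
    (mem_sdiff.1 (h.mn_img (a1 ▸ h.sub hx))).2 hx
  exact ⟨f, a2 ▸ h, a1⟩

theorem hasMinor_res (M : BM) (X : Finset ℕ) : M.HasMinor (M.res X) := by
  exact ⟨_, _, (MinorAt.refl _).of_res⟩

theorem hasMinor_del (M : BM) (X : Finset ℕ) : M.HasMinor (M.del X) := by
  exact ⟨_, _, (MinorAt.refl _).of_del⟩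

theorem hasMinor_con (M : BM) (X : Finset ℕ) : M.HasMinor (M.con X) := by
  refine ⟨id, X ∩ M.E, Set.injOn_id _, inter_subset_right, fun e he => ⟨(mem_sdiff.1 he).1,
    fun h => (mem_sdiff.1 he).2 (mem_inter.1 h).1⟩, fun Y hY => ?_⟩
  rw [r_inter_E, r_con, image_id, ← M.r_inter_E (Y ∪ X), union_inter_distrib_right,
    inter_eq_left.2 (hY.trans sdiff_subset)]

theorem Iso.hasMinor (h : M.Iso N) : M.HasMinor N := by
  obtain ⟨f, h, -⟩ := h
  exact ⟨f, _, h⟩

theorem Iso.refl (M : BM) : M.Iso M := by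
  exact ⟨id, MinorAt.refl M, image_id⟩

theorem Iso.symm (h : M.Iso N) : N.Iso M := by
  refine HasMinor.iso ?_ h.hasMinor.card_le
  obtain ⟨f, h, h'⟩ := h
  have h1 : ∀ y ∈ M.E, ∃ x ∈ N.E, f x = y := fun y hy => mem_image.1 (h' ▸ hy)
  choose! g g1 g2 using h1
  refine ⟨g, ∅, fun x hx y hy hxy => by rw [← g2 x hx, hxy, g2 y hy], empty_subset _,
    fun e he => ⟨g1 e he, notMem_empty _⟩, fun Y hY => ?_⟩
  have := h.rk (Y.image g) (image_subset_iff.2 fun y hy => g1 y (hY hy))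
  rw [image_image, image_congr (f := f ∘ g) (g := id) fun y hy => g2 y (hY hy),
    image_id] at this
  simpa using this.symm

theorem Iso.trans (h : M.Iso N) (h' : N.Iso K) : M.Iso K := by
  exact (h.hasMinor.trans h'.hasMinor).iso (h'.symm.hasMinor.trans h.symm.hasMinor).card_le

theorem Iso.dual (h : M.Iso N) : M.dual.Iso N.dual := by
  exact h.hasMinor.dual.iso h.symm.hasMinor.card_le

theorem Iso.card_eq (h : M.Iso N) : M.E.card = N.E.card := by
  exact le_antisymm h.symm.hasMinor.card_le h.hasMinor.card_le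

theorem iso_iff_pull : M.Iso N ↔ ∃ f, Set.InjOn f N.E ∧ N.E.image f = M.E ∧ N = M.pull f N.E := by
  have e1 := M.con_of_disjoint (disjoint_empty_right _)
  refine ⟨fun ⟨f, h, h'⟩ => ⟨f, h.inj, h', ?_⟩, fun ⟨f, h1, h2, h3⟩ => ⟨f, ?_, h2⟩⟩
  · have := h.eq_pull
    rwa [e1] at this
  · have := minorAt_pull (M := M) (empty_subset _) h1 fun x hx =>
      mem_sdiff.2 ⟨h2 ▸ mem_image_of_mem f hx, notMem_empty _⟩
    rwa [e1, ← h3] at this

theorem Iso.conn3 (h : M.Iso N) (h' : M.Conn3) : N.Conn3 := by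
  obtain ⟨g, h1, h2⟩ := h.symm
  intro X hX
  refine le_trans ?_ ((h' _ (filter_subset _ _)).trans (h1.lam_le hX))
  have e1 : (M.E.filter fun x => g x ∈ X).image g = X := by
    rw [← filter_image (p := fun y => y ∈ X), filter_mem_eq_inter, h2, inter_eq_right.2 hX]
  rw [← card_image_of_injOn (h1.inj.mono (coe_subset.2 (filter_subset _ _))),
    ← card_image_of_injOn (h1.inj.mono (coe_subset.2 sdiff_subset)),
    image_sdiff_of_injOn h1.inj (filter_subset _ _), e1, h2]

end BM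

end Pool.Agent.P.MP_3f5ce9_co
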