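import Pool.Agent.P.MP_3f5ce9_co.W.Defs

/-!
Rank, closure, bases and fundamental cycles of a binary matroid.
-/

open Finset

namespace Pool.Agent.P.MP_3f5ce9_co

namespace BM

variable {M N : BM} {I J X Y Z B C D : Finset ℕ} {e f : ℕ}

theorem ext_cyc (hE : M.E = N.E) (h : ∀ C, M.cyc C ↔ N.cyc C) : M = N := by
  cases M
  cases N
  simp only [BM.mk.injEq]
  exact ⟨hE, funext fun C => propext (h C)⟩

theorem indep_empty (M : BM) : M.Indep ∅ := by
  exact ⟨empty_subset _, fun C _ h => subset_empty.1 h⟩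

theorem Indep.subset (h : M.Indep J) (hIJ : I ⊆ J) : M.Indep I := by
  exact ⟨hIJ.trans h.1, fun C hC h1 => h.2 C hC (h1.trans hIJ)⟩

theorem Indep.card_le_r (h : M.Indep I) (hX : I ⊆ X) : I.card ≤ M.r X := by
  classical
  exact le_sup (f := card) (mem_filter.2 ⟨mem_powerset.2 hX, h⟩)

theorem exists_basis (M : BM) (X : Finset ℕ) : ∃ I ⊆ X, M.Indep I ∧ I.card = M.r X := by
  classical
  obtain ⟨I, h1, h2⟩ := exists_mem_eq_sup (X.powerset.filter M.Indep)
    ⟨∅, mem_filter.2 ⟨empty_mem_powerset X, M.indep_empty⟩⟩ card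
  exact ⟨I, mem_powerset.1 (mem_filter.1 h1).1, (mem_filter.1 h1).2, h2.symm⟩

theorem r_le_card (M : BM) (X : Finset ℕ) : M.r X ≤ X.card := by
  obtain ⟨I, h1, -, h2⟩ := M.exists_basis X
  exact h2 ▸ card_le_card h1

theorem r_mono (M : BM) (h : X ⊆ Y) : M.r X ≤ M.r Y := by
  obtain ⟨I, h1, h2, h3⟩ := M.exists_basis X
  exact h3 ▸ h2.card_le_r (h1.trans h)

@[simp] theorem r_empty (M : BM) : M.r ∅ = 0 := by
  exact Nat.le_zero.1 (M.r_le_card ∅)

theorem r_inter_E (M : BM) (X : Finset ℕ) : M.r (X ∩ M.E) = M.r X := by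
  obtain ⟨I, h1, h2, h3⟩ := M.exists_basis X
  exact le_antisymm (M.r_mono inter_subset_left) (h3 ▸ h2.card_le_r (subset_inter h1 h2.1))

theorem r_le_rE (M : BM) (X : Finset ℕ) : M.r X ≤ M.r M.E := by
  exact M.r_inter_E X ▸ M.r_mono inter_subset_right

theorem Indep.r_eq (h : M.Indep I) : M.r I = I.card := by
  exact le_antisymm (M.r_le_card I) (h.card_le_r Subset.rfl)

theorem indep_iff : M.Indep I ↔ I ⊆ M.E ∧ M.r I = I.card := by
  refine ⟨fun h => ⟨h.1, h.r_eq⟩, fun h => ?_⟩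
  obtain ⟨J, h1, h2, h3⟩ := M.exists_basis I
  exact eq_of_subset_of_card_le h1 (h3.trans h.2).ge ▸ h2

theorem rk_dep (hI : M.Indep I) (he : e ∈ M.E) (h : ¬ M.Indep (insert e I)) :
    ∃ C, M.cyc C ∧ e ∈ C ∧ C ⊆ insert e I := by
  by_contra hc
  exact h ⟨insert_subset he hI.1, fun C c1 c2 => hI.2 C c1
    ((subset_insert_iff_of_notMem fun c3 => hc ⟨C, c1, c3, c2⟩).1 c2)⟩

theorem rk_odd (φ : ℕ → Finset ℕ) (I : Finset ℕ) (h : ∀ i ∈ I, M.cyc (φ i)) :
    M.cyc (oddSum φ I) := by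
  induction I using Finset.induction_on with
  | empty => exact M.nil
  | insert i I hi ih =>
    have h1 : insert i I = symmDiff {i} I := by
      ext x
      simp only [mem_insert, mem_symmDiff, mem_singleton]
      by_cases hx : x = i <;> simp [hx, hi]
    have h2 : oddSum φ {i} = φ i := by
      ext y
      rw [mem_oddSum, filter_singleton]
      split_ifs with hy <;> simp [hy]
    rw [h1, oddSum_symmDiff, h2]
    exact M.sd _ _ (h i (mem_insert_self _ _)) (ih fun j hj => h j (mem_insert_of_mem hj))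

theorem rk_trace {φ : ℕ → Finset ℕ} {S : Finset ℕ} {y : ℕ}
    (h : ∀ e ∈ S, e ∈ φ e ∧ φ e ⊆ insert e I) (hy : y ∉ I) : y ∈ oddSum φ S ↔ y ∈ S := by
  rw [mem_oddSum, filter_congr (q := fun x => x = y) fun x hx => ⟨fun h1 =>
    ((mem_insert.1 ((h x hx).2 h1)).resolve_right hy).symm, fun h1 => h1 ▸ (h x hx).1⟩, filter_eq']
  split_ifs with h1 <;> simp [h1]

theorem rk_ss (h : D ⊆ C) (he : e ∈ D) : symmDiff C D ⊂ C :=
  (ssubset_iff_of_subset (symmDiff_sub Subset.rfl h)).2 ⟨e, h he, by simp [mem_symmDiff, he, h he]⟩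

theorem rk_circ (hC : M.cyc C) (he : e ∈ C) :
    ∃ D, M.cyc D ∧ e ∈ D ∧ D ⊆ C ∧ ∀ f ∈ D, M.Indep (D.erase f) := by
  classical
  obtain ⟨D, h1, h2⟩ := exists_min_image (C.powerset.filter fun D => M.cyc D ∧ e ∈ D) card
    ⟨C, mem_filter.2 ⟨mem_powerset_self C, hC, he⟩⟩
  obtain ⟨h3, h4, h5⟩ := mem_filter.1 h1
  rw [mem_powerset] at h3
  refine ⟨D, h4, h5, h3, fun f hf => ⟨(erase_subset f D).trans (M.sub D h4), fun F f1 f2 => ?_⟩⟩
  have f3 := f2.trans (erase_subset f D)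
  by_cases hF : e ∈ F
  · exact absurd (h2 F (mem_filter.2 ⟨mem_powerset.2 (f3.trans h3), f1, hF⟩))
      (not_le.2 ((card_le_card f2).trans_lt (card_erase_lt_of_mem hf)))
  · by_contra hne
    obtain ⟨g, hg⟩ := nonempty_iff_ne_empty.2 hne
    exact absurd (h2 _ (mem_filter.2 ⟨mem_powerset.2 ((rk_ss f3 hg).subset.trans h3),
      M.sd _ _ h4 f1, mem_symmDiff.2 (Or.inl ⟨h5, hF⟩)⟩)) (not_le.2 (card_lt_card (rk_ss f3 hg)))

theorem Indep.augment (hI : M.Indep I) (hJ : M.Indep J) (h : I.card < J.card) :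
    ∃ e ∈ J, e ∉ I ∧ M.Indep (insert e I) := by
  by_contra hc
  have h1 : ∀ e ∈ J \ I, ∃ C, M.cyc C ∧ e ∈ C ∧ C ⊆ insert e I := fun e he =>
    rk_dep hI (hJ.1 (mem_sdiff.1 he).1) fun h => hc ⟨e, (mem_sdiff.1 he).1, (mem_sdiff.1 he).2, h⟩
  choose! φ h2 h3 h4 using h1
  have h5 := card_sdiff_add_card_inter I J
  have h6 := card_sdiff_add_card_inter J I
  rw [inter_comm] at h6
  obtain ⟨S, hS, T, hT, hne, heq⟩ := exists_ne_map_eq_of_card_lt_of_maps_to
    (s := (J \ I).powerset) (t := (I \ J).powerset) (f := fun S => oddSum φ S ∩ (I \ J))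
    (by rw [card_powerset, card_powerset]; exact Nat.pow_lt_pow_right one_lt_two (by omega))
    fun S _ => mem_coe.2 (mem_powerset.2 inter_subset_right)
  rw [mem_powerset] at hS hT
  have tS := fun y => rk_trace (y := y) fun e he => ⟨h3 e (hS he), h4 e (hS he)⟩
  have tT := fun y => rk_trace (y := y) fun e he => ⟨h3 e (hT he), h4 e (hT he)⟩
  have h7 := hJ.2 _ (M.sd _ _ (rk_odd φ S fun e he => h2 e (hS he))
    (rk_odd φ T fun e he => h2 e (hT he))) fun y hy => by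
      by_contra hyJ
      have h8 := Finset.ext_iff.1 heq y
      simp only [mem_inter, mem_sdiff] at h8
      rw [mem_symmDiff] at hy
      by_cases hyI : y ∈ I
      · tauto
      · rw [tS y hyI, tT y hyI] at hy
        exact hyJ (hy.elim (fun h => (mem_sdiff.1 (hS h.1)).1) fun h => (mem_sdiff.1 (hT h.1)).1)
  rw [symmDiff_eq_empty] at h7
  refine hne (Subset.antisymm (fun y hy => ?_) fun y hy => ?_)
  · have := (mem_sdiff.1 (hS hy)).2
    rwa [← tT y this, ← h7, tS y this]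
  · have := (mem_sdiff.1 (hT hy)).2
    rwa [← tS y this, h7, tT y this]

theorem Indep.exists_basis_superset (hI : M.Indep I) (hX : I ⊆ X) :
    ∃ J, I ⊆ J ∧ J ⊆ X ∧ M.Indep J ∧ J.card = M.r X := by
  classical
  obtain ⟨J, h1, h2⟩ := exists_max_image (X.powerset.filter fun J => I ⊆ J ∧ M.Indep J) card
    ⟨I, mem_filter.2 ⟨mem_powerset.2 hX, Subset.rfl, hI⟩⟩
  obtain ⟨h3, h4, h5⟩ := mem_filter.1 h1
  rw [mem_powerset] at h3
  refine ⟨J, h4, h3, h5, le_antisymm (h5.card_le_r h3) (not_lt.1 fun h => ?_)⟩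
  obtain ⟨K, k1, k2, k3⟩ := M.exists_basis X
  obtain ⟨e, e1, e2, e3⟩ := h5.augment k2 (k3 ▸ h)
  have := h2 _ (mem_filter.2 ⟨mem_powerset.2 (insert_subset (k1 e1) h3),
    h4.trans (subset_insert _ _), e3⟩)
  rw [card_insert_of_notMem e2] at this
  omega

theorem r_submod (M : BM) (X Y : Finset ℕ) :
    M.r (X ∪ Y) + M.r (X ∩ Y) ≤ M.r X + M.r Y := by
  obtain ⟨I, h1, h2, h3⟩ := M.exists_basis (X ∩ Y)
  obtain ⟨J, j1, j2, j3, j4⟩ := h2.exists_basis_superset (h1.trans inter_subset_union)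
  have a1 := (j3.subset (inter_subset_left (s₂ := X))).card_le_r inter_subset_right
  have a2 := (j3.subset (inter_subset_left (s₂ := Y))).card_le_r inter_subset_right
  have a3 := card_union_add_card_inter (J ∩ X) (J ∩ Y)
  rw [← inter_union_distrib_left, inter_eq_left.2 j2, ← inter_inter_distrib_left] at a3
  have a4 := card_le_card (subset_inter j1 h1)
  omega

theorem r_union_le (M : BM) (X Y : Finset ℕ) : M.r (X ∪ Y) ≤ M.r X + M.r Y := by
  exact le_self_add.trans (M.r_submod X Y)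

theorem r_union_le_card (M : BM) (X Y : Finset ℕ) : M.r (X ∪ Y) ≤ M.r X + Y.card := by
  exact (M.r_union_le X Y).trans (Nat.add_le_add_left (M.r_le_card Y) _)

theorem r_insert_le (M : BM) (e : ℕ) (X : Finset ℕ) : M.r (insert e X) ≤ M.r X + 1 := by
  rw [insert_eq, union_comm]
  exact M.r_union_le_card X {e}

theorem r_le_insert (M : BM) (e : ℕ) (X : Finset ℕ) : M.r X ≤ M.r (insert e X) := by
  exact M.r_mono (subset_insert _ _)

theorem r_le_erase (M : BM) (e : ℕ) (X : Finset ℕ) : M.r X ≤ M.r (X.erase e) + 1 := by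
  exact (M.r_mono (subset_insert_iff.2 Subset.rfl)).trans (M.r_insert_le e _)

/-- diminishing returns -/
theorem r_dimin (M : BM) (h : X ⊆ Y) (Z : Finset ℕ) :
    M.r (Y ∪ Z) + M.r X ≤ M.r (X ∪ Z) + M.r Y := by
  have h1 := M.r_submod Y (X ∪ Z)
  have h2 := M.r_mono (subset_inter h (subset_union_left (s₂ := Z)))
  rw [← union_assoc, union_eq_left.2 h] at h1
  omega

theorem r_insert_eq_iff (he : e ∈ M.E) :
    M.r (insert e X) = M.r X ↔ e ∈ X ∨ ∃ C, M.cyc C ∧ e ∈ C ∧ C ⊆ insert e X := by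
  by_cases hX : e ∈ X
  · simp [hX]
  refine ⟨fun h => Or.inr ?_, fun h => le_antisymm (not_lt.1 fun hlt => ?_) (M.r_le_insert e X)⟩
  · obtain ⟨I, h1, h2, h3⟩ := M.exists_basis X
    obtain ⟨C, c1, c2, c3⟩ := rk_dep h2 he fun h4 => by
      have := h4.card_le_r (insert_subset_insert e h1)
      rw [card_insert_of_notMem fun h => hX (h1 h)] at this
      omega
    exact ⟨C, c1, c2, c3.trans (insert_subset_insert e h1)⟩
  · obtain ⟨C, c1, c2, c3⟩ := h.resolve_left hX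
    obtain ⟨D, d1, d2, d3, d4⟩ := rk_circ c1 c2
    obtain ⟨I, i1, i2, i3, i4⟩ := (d4 e d2).exists_basis_superset (subset_insert_iff.1 (d3.trans c3))
    obtain ⟨J, j1, j2, j3⟩ := M.exists_basis (insert e X)
    obtain ⟨f, f1, f2, f3⟩ := i3.augment j2 (by omega)
    rcases mem_insert.1 (j1 f1) with rfl | h5
    · exact ne_empty_of_mem d2 (f3.2 D d1 (subset_insert_iff.2 i1))
    · have := f3.card_le_r (insert_subset h5 i2)
      rw [card_insert_of_notMem f2] at this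
      omega

theorem mem_cl : e ∈ M.cl X ↔ e ∈ M.E ∧ M.r (insert e X) = M.r X := by
  exact mem_filter

theorem cl_subset (M : BM) (X : Finset ℕ) : M.cl X ⊆ M.E := by
  exact filter_subset _ _

theorem subset_cl (h : X ⊆ M.E) : X ⊆ M.cl X := by
  exact fun e he => mem_cl.2 ⟨h he, by rw [insert_eq_of_mem he]⟩

theorem cl_mono (M : BM) (h : X ⊆ Y) : M.cl X ⊆ M.cl Y := by
  intro e he
  rw [mem_cl, insert_eq, union_comm] at he ⊢
  have h1 := M.r_dimin h {e}
  have h2 := M.r_mono (subset_union_left (s₁ := Y) (s₂ := {e}))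
  exact ⟨he.1, by omega⟩

theorem rk_un (h : Y ⊆ M.cl X) : M.r (X ∪ Y) = M.r X := by
  induction Y using Finset.induction_on with
  | empty => rw [union_empty]
  | insert y Y _ ih =>
    rw [union_insert, (mem_cl.1 (M.cl_mono subset_union_left (h (mem_insert_self _ _)))).2,
      ih ((subset_insert _ _).trans h)]

theorem rk_clu (M : BM) (X Y : Finset ℕ) : M.r (M.cl X ∪ Y) = M.r (X ∪ Y) := by
  refine le_antisymm ((M.r_mono ?_).trans (rk_un (M.cl_mono subset_union_left)).le) ?_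
  · exact union_subset subset_union_right (subset_union_right.trans subset_union_left)
  · rw [← M.r_inter_E (X ∪ Y), union_inter_distrib_right]
    exact M.r_mono (union_subset_union
      ((subset_cl inter_subset_right).trans (M.cl_mono inter_subset_left)) inter_subset_left)

theorem r_cl (M : BM) (X : Finset ℕ) : M.r (M.cl X) = M.r X := by
  refine le_antisymm ((M.r_mono subset_union_right).trans (rk_un Subset.rfl).le) ?_
  rw [← M.r_inter_E X]
  exact M.r_mono ((subset_cl inter_subset_right).trans (M.cl_mono inter_subset_left))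

theorem cl_cl (M : BM) (X : Finset ℕ) : M.cl (M.cl X) = M.cl X := by
  ext e
  rw [mem_cl, mem_cl, insert_eq, union_comm, rk_clu, r_cl, insert_eq, union_comm]

theorem r_cl_union (M : BM) (X Y : Finset ℕ) : M.r (M.cl X ∪ Y) = M.r (X ∪ Y) := by
  exact rk_clu M X Y

theorem r_union_of_subset_cl (h : Y ⊆ M.cl X) : M.r (X ∪ Y) = M.r X := by
  exact rk_un h

theorem subset_cl_of_r (hY : Y ⊆ M.E) (h : M.r (X ∪ Y) = M.r X) : Y ⊆ M.cl X := by
  exact fun e he => mem_cl.2 ⟨hY he, le_antisymm (h ▸ M.r_mono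
    (insert_subset (mem_union_right _ he) subset_union_left)) (M.r_le_insert e X)⟩

/-- a set may be replaced by a subset of the same rank inside any union -/
theorem r_union_congr (hXY : X ⊆ Y) (h : M.r X = M.r Y) (Z : Finset ℕ) :
    M.r (X ∪ Z) = M.r (Y ∪ Z) := by
  have h1 := M.r_dimin hXY Z
  have h2 := M.r_mono (union_subset_union_left (t := Z) hXY)
  omega

theorem mem_cl_of_cyc (hC : M.cyc C) (he : e ∈ C) (h : C ⊆ insert e X) : e ∈ M.cl X := by
  exact mem_cl.2 ⟨M.sub C hC he, (r_insert_eq_iff (M.sub C hC he)).2 (Or.inr ⟨C, hC, he, h⟩)⟩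

/-- the exchange property of the closure -/
theorem cl_exch (h : e ∈ M.cl (insert f X)) (hn : e ∉ M.cl X) (hf : f ∈ M.E) :
    f ∈ M.cl (insert e X) := by
  rw [mem_cl] at h hn ⊢
  have h1 := M.r_insert_le f X
  have h2 := M.r_le_insert e X
  have h3 := M.r_le_insert f (insert e X)
  have h4 : M.r (insert e X) ≠ M.r X := fun h5 => hn ⟨h.1, h5⟩
  rw [insert_comm] at h3 ⊢
  exact ⟨hf, by omega⟩

theorem Indep.cyc_unique (hI : M.Indep I) (hC : M.cyc C) (hD : M.cyc D) (heC : e ∈ C)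
    (heD : e ∈ D) (h1 : C ⊆ insert e I) (h2 : D ⊆ insert e I) : C = D := by
  refine symmDiff_eq_empty.1 (hI.2 _ (M.sd _ _ hC hD) fun y hy => ?_)
  rcases mem_symmDiff.1 hy with h | h
  · exact (mem_insert.1 (h1 h.1)).resolve_left fun h3 => h.2 (h3 ▸ heD)
  · exact (mem_insert.1 (h2 h.1)).resolve_left fun h3 => h.2 (h3 ▸ heC)

theorem Indep.insert_iff (hI : M.Indep I) (he : e ∈ M.E) (heI : e ∉ I) :
    M.Indep (insert e I) ↔ ¬ ∃ C, M.cyc C ∧ e ∈ C ∧ C ⊆ insert e I := by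
  exact ⟨fun h ⟨C, c1, c2, c3⟩ => ne_empty_of_mem c2 (h.2 C c1 c3),
    fun h => by_contra fun h1 => h (rk_dep hI he h1)⟩

theorem Indep.insert_iff_cl (hI : M.Indep I) (he : e ∈ M.E) (heI : e ∉ I) :
    M.Indep (insert e I) ↔ e ∉ M.cl I := by
  rw [hI.insert_iff he heI, mem_cl, r_insert_eq_iff he, and_iff_right he, or_iff_right heI]

theorem Indep.exch (hI : M.Indep I) (hC : M.cyc C) (heC : e ∈ C) (h : C ⊆ insert e I)
    (heI : e ∉ I) (hf : f ∈ I) : M.Indep (insert e (I.erase f)) ↔ f ∈ C := by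
  rw [(hI.subset (erase_subset f I)).insert_iff (M.sub C hC heC) fun h => heI (mem_of_mem_erase h)]
  refine ⟨fun h1 => by_contra fun h2 => h1 ⟨C, hC, heC, fun y hy => ?_⟩, fun h1 ⟨D, d1, d2, d3⟩ => ?_⟩
  · exact mem_insert.2 ((mem_insert.1 (h hy)).imp_right fun h3 =>
      mem_erase.2 ⟨fun h4 => h2 (h4 ▸ hy), h3⟩)
  · rw [hI.cyc_unique hC d1 heC d2 h (d3.trans (insert_subset_insert e (erase_subset f I)))] at h1
    rcases mem_insert.1 (d3 h1) with rfl | h2
    · exact heI hf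
    · exact notMem_erase f I h2

/-- a circuit is a cycle -/
theorem cyc_of_circuit (hC : C ⊆ M.E) (h : ¬ M.Indep C) (h' : ∀ e ∈ C, M.Indep (C.erase e)) :
    M.cyc C := by
  by_contra hc
  refine h ⟨hC, fun D d1 d2 => ?_⟩
  obtain ⟨e, e1, e2⟩ := exists_of_ssubset (ssubset_of_subset_of_ne d2 fun h1 => hc (h1 ▸ d1))
  exact (h' e e1).2 D d1 (subset_erase.2 ⟨d2, e2⟩)

/-- every element of a cycle lies on a circuit inside it -/
theorem exists_circuit (hC : M.cyc C) (he : e ∈ C) :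
    ∃ D, M.cyc D ∧ e ∈ D ∧ D ⊆ C ∧ ∀ f ∈ D, M.Indep (D.erase f) := by
  exact rk_circ hC he

/-- the circuits span the cycle space -/
theorem cyc_induction {p : Finset ℕ → Prop} (h0 : p ∅)
    (h1 : ∀ D, M.cyc D → D.Nonempty → (∀ f ∈ D, M.Indep (D.erase f)) → p D)
    (h2 : ∀ C D, p C → p D → p (symmDiff C D)) (hC : M.cyc C) : p C := by
  induction C using Finset.strongInduction with
  | H C ih =>
    rcases C.eq_empty_or_nonempty with rfl | ⟨e, he⟩
    · exact h0
    obtain ⟨D, d1, d2, d3, d4⟩ := rk_circ hC he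
    have := h2 _ _ (ih _ (rk_ss d3 d2) (M.sd _ _ hC d1)) (h1 D d1 ⟨e, d2⟩ d4)
    rwa [symmDiff_symmDiff_cancel_right] at this

theorem ext_indep (hE : M.E = N.E) (h : ∀ I, M.Indep I ↔ N.Indep I) : M = N := by
  have key : ∀ {M N : BM}, M.E = N.E → (∀ I, M.Indep I ↔ N.Indep I) → ∀ C, M.cyc C → N.cyc C :=
    fun {M N} hE h C hC => cyc_induction N.nil (fun D d1 d2 d3 => cyc_of_circuit (hE ▸ M.sub D d1)
      (fun h1 => d2.ne_empty (((h D).2 h1).2 D d1 Subset.rfl)) fun e he => (h _).1 (d3 e he))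
      N.sd hC
  exact ext_cyc hE fun C => ⟨key hE h C, key hE.symm (fun I => (h I).symm) C⟩

theorem ext_r (hE : M.E = N.E) (h : ∀ X ⊆ M.E, M.r X = N.r X) : M = N := by
  refine ext_indep hE fun I => ?_
  rw [indep_iff, indep_iff, ← hE]
  exact and_congr_right fun h1 => by rw [h I h1]

theorem ext_base (hE : M.E = N.E) (h : ∀ B, M.IsBase B ↔ N.IsBase B) : M = N := by
  have key : ∀ {M N : BM}, (∀ B, M.IsBase B ↔ N.IsBase B) → ∀ I, M.Indep I → N.Indep I :=
    fun h I hI => let ⟨J, j1, _, j3, j4⟩ := hI.exists_basis_superset hI.1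
      ((h J).1 ⟨j3, j4⟩).1.subset j1
  exact ext_indep hE fun I => ⟨key h I, key (fun B => (h B).symm) I⟩

theorem exists_base (M : BM) : ∃ B, M.IsBase B := by
  obtain ⟨I, -, h⟩ := M.exists_basis M.E
  exact ⟨I, h⟩

theorem Indep.exists_base (hI : M.Indep I) : ∃ B, M.IsBase B ∧ I ⊆ B := by
  obtain ⟨J, j1, -, h⟩ := hI.exists_basis_superset hI.1
  exact ⟨J, h, j1⟩

theorem IsBase.subset (h : M.IsBase B) : B ⊆ M.E := by
  exact h.1.1

theorem IsBase.r_eq (h : M.IsBase B) : M.r B = M.r M.E := by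
  exact h.1.r_eq.trans h.2

theorem isBase_iff : M.IsBase B ↔ B ⊆ M.E ∧ M.r B = B.card ∧ B.card = M.r M.E := by
  rw [IsBase, indep_iff, and_assoc]

theorem isBase_of_span (hB : B ⊆ M.E) (h : M.r B = M.r M.E) (hc : B.card ≤ M.r M.E) :
    M.IsBase B := by
  have := M.r_le_card B
  exact isBase_iff.2 ⟨hB, by omega, by omega⟩

theorem exists_base_between (hI : M.Indep I) (hIX : I ⊆ X) (h : M.r X = M.r M.E) :
    ∃ B, M.IsBase B ∧ I ⊆ B ∧ B ⊆ X := by
  obtain ⟨J, j1, j2, j3, j4⟩ := hI.exists_basis_superset hIX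
  exact ⟨J, ⟨j3, j4.trans h⟩, j1, j2⟩

theorem IsBase.exists_cyc (hB : M.IsBase B) (he : e ∈ M.E) (heB : e ∉ B) :
    ∃ C, M.cyc C ∧ e ∈ C ∧ C ⊆ insert e B := by
  refine rk_dep hB.1 he fun h => ?_
  have := h.card_le_r h.1
  rw [card_insert_of_notMem heB, hB.2] at this
  omega

theorem IsBase.exch (hB : M.IsBase B) (hC : M.cyc C) (heC : e ∈ C) (h : C ⊆ insert e B)
    (heB : e ∉ B) (hf : f ∈ B) : M.IsBase (insert e (B.erase f)) ↔ f ∈ C := by
  rw [← hB.1.exch hC heC h heB hf]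
  refine and_iff_left ?_
  rw [card_insert_of_notMem fun h => heB (mem_of_mem_erase h), card_erase_add_one hf, hB.2]

theorem IsBase.card_inter_le (hB : M.IsBase B) (X : Finset ℕ) : (B ∩ X).card ≤ M.r X := by
  exact (hB.1.subset inter_subset_left).card_le_r inter_subset_right

theorem exists_base_inter (M : BM) (X : Finset ℕ) : ∃ B, M.IsBase B ∧ (B ∩ X).card = M.r X := by
  obtain ⟨I, h1, h2, h3⟩ := M.exists_basis X
  obtain ⟨B, b1, b2⟩ := h2.exists_base
  exact ⟨B, b1, le_antisymm (b1.card_inter_le X) (h3 ▸ card_le_card (subset_inter b2 h1))⟩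

/-- a cycle is the sum of the fundamental cycles of its elements outside a base -/
theorem IsBase.cyc_eq (hB : M.IsBase B) (hC : M.cyc C) (φ : ℕ → Finset ℕ)
    (hφ : ∀ e ∈ C \ B, M.cyc (φ e) ∧ e ∈ φ e ∧ φ e ⊆ insert e B) : C = oddSum φ (C \ B) := by
  refine symmDiff_eq_empty.1 (hB.1.2 _ (M.sd _ _ hC (rk_odd φ _ fun e he => (hφ e he).1))
    fun y hy => by_contra fun h => ?_)
  rw [mem_symmDiff, rk_trace (fun e he => (hφ e he).2) h, mem_sdiff] at hy
  tauto

theorem cyc_oddSum (φ : ℕ → Finset ℕ) (I : Finset ℕ) (h : ∀ i ∈ I, M.cyc (φ i)) :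
    M.cyc (oddSum φ I) := by
  exact rk_odd φ I h

theorem cyc_singleton_iff (he : e ∈ M.E) : M.cyc {e} ↔ M.r {e} = 0 := by
  have h := r_insert_eq_iff (X := ∅) he
  rw [insert_empty_eq, r_empty] at h
  rw [h]
  refine ⟨fun h1 => Or.inr ⟨_, h1, mem_singleton_self e, Subset.rfl⟩, fun h1 => ?_⟩
  obtain ⟨C, c1, c2, c3⟩ := h1.resolve_left (notMem_empty e)
  exact Subset.antisymm c3 (singleton_subset_iff.2 c2) ▸ c1

theorem cyc_pair_iff (he : e ∈ M.E) (hf : f ∈ M.E) (hef : e ≠ f) (h1 : M.r {e} = 1) :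
    M.cyc {e, f} ↔ M.r {e, f} = 1 ∧ M.r {f} = 1 := by
  refine ⟨fun h => ?_, fun h => ?_⟩
  · have h2 := (r_insert_eq_iff (X := {f}) he).2 (Or.inr ⟨_, h, by simp, Subset.rfl⟩)
    have h3 := (r_insert_eq_iff (X := {e}) hf).2 (Or.inr ⟨_, h, by simp, (pair_comm e f).subset⟩)
    rw [pair_comm] at h3
    omega
  · obtain ⟨C, c1, c2, c3⟩ := ((r_insert_eq_iff (X := {f}) he).1 (h.1.trans h.2.symm)).resolve_left
      (notMem_singleton.2 hef)
    by_cases h2 : f ∈ C
    · exact Subset.antisymm c3 (insert_subset c2 (singleton_subset_iff.2 h2)) ▸ c1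
    · have h3 : C = {e} := eq_singleton_iff_unique_mem.2 ⟨c2, fun y hy =>
        (mem_insert.1 (c3 hy)).resolve_right fun h4 => h2 (mem_singleton.1 h4 ▸ hy)⟩
      have := (cyc_singleton_iff he).1 (h3 ▸ c1)
      omega

/-- the elements of a triangle are no loops and pairwise not parallel -/
theorem IsTri.indep {t : Fin 3 → ℕ} (h : M.IsTri t) (hX : X ⊆ tset t) (hc : X.card ≤ 2) :
    M.Indep X := by
  refine ⟨hX.trans (M.sub _ h.cyc), fun C c1 c2 => ?_⟩
  obtain ⟨I, h1, h2, h3⟩ := M.exists_basis (tset t)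
  have h4 := h.card
  have h5 := h.rk
  obtain ⟨g, g1, g2⟩ := exists_mem_notMem_of_card_lt_card (s := I) (t := tset t) (by omega)
  have h6 : insert g I = tset t := eq_of_subset_of_card_le (insert_subset g1 h1)
    (by rw [card_insert_of_notMem g2]; omega)
  by_cases hg : g ∈ C
  · have h7 := h2.cyc_unique c1 h.cyc hg g1 (h6 ▸ c2.trans hX) h6.ge
    have := card_le_card c2
    rw [h7] at this
    omega
  · exact h2.2 C c1 ((subset_insert_iff_of_notMem hg).1 (h6 ▸ c2.trans hX))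

theorem IsTri.inj {t : Fin 3 → ℕ} (h : M.IsTri t) : Function.Injective t := by
  obtain ⟨h1, h2, h3⟩ := card_triple_eq_three_iff.1 h.card
  intro i j hij
  fin_cases i <;> fin_cases j <;> first | rfl | exact absurd hij (by tauto)

theorem IsTri.subset {t : Fin 3 → ℕ} (h : M.IsTri t) : tset t ⊆ M.E := by
  exact M.sub _ h.cyc

/-- in a binary matroid a set meeting the line of a triangle spans one of its three points -/
theorem IsTri.exists_mem_cl {t : Fin 3 → ℕ} (h : M.IsTri t)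
    (hX : M.r (X ∪ tset t) ≤ M.r X + 1) : ∃ i, t i ∈ M.cl X := by
  by_contra hc
  rw [not_exists] at hc
  obtain ⟨h1, h2, h3⟩ := card_triple_eq_three_iff.1 h.card
  have hE : ∀ i, t i ∈ M.E := fun i => h.subset (by fin_cases i <;> simp [tset])
  have hn : ∀ i, t i ∉ X := fun i hi => hc i (mem_cl.2 ⟨hE i, by rw [insert_eq_of_mem hi]⟩)
  have a1 : M.r (insert (t 0) X) ≠ M.r X := fun a => hc 0 (mem_cl.2 ⟨hE 0, a⟩)
  have a2 := M.r_le_insert (t 0) X
  have a3 := M.r_le_insert (t 1) (insert (t 0) X)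
  have a4 : M.r (insert (t 1) (insert (t 0) X)) ≤ M.r (X ∪ tset t) := M.r_mono
    (insert_subset (by simp [tset]) (insert_subset (by simp [tset]) subset_union_left))
  obtain ⟨C, c1, c2, c3⟩ := ((r_insert_eq_iff (X := insert (t 0) X) (hE 1)).1
    (by omega)).resolve_left (by simp [hn 1, h1.symm])
  have c4 : t 0 ∈ C := by_contra fun c4 => hc 1 (mem_cl_of_cyc c1 c2
    ((subset_insert_iff_of_notMem c4).1 (insert_comm _ _ X ▸ c3)))
  have c5 : t 2 ∉ C := fun c5 => by simpa [hn 2, h2.symm, h3.symm] using c3 c5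
  refine hc 2 (mem_cl_of_cyc (M.sd _ _ c1 h.cyc) (mem_symmDiff.2 (Or.inr ⟨by simp [tset], c5⟩))
    fun y hy => ?_)
  have c6 := @c3 y
  simp only [mem_symmDiff, tset, mem_insert, mem_singleton] at hy c6 ⊢
  rcases hy with hy | ⟨rfl | rfl | rfl, hy⟩ <;> tauto

end BM

end Pool.Agent.P.MP_3f5ce9_co
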