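import Pool.Agent.P.MP_3f5ce9_co.W.SSide

/-!
The recursion of the structure theorem.
-/

open Finset

namespace Pool.Agent.P.MP_3f5ce9_co

namespace BM

variable {N P : BM} {I A B1 B2 Z : Finset ℕ} {t : ℕ → Fin 3 → ℕ} {s : Fin 3 → ℕ} {i a : ℕ}

theorem sr_glue {P2 : BM} {s2 : Fin 3 → ℕ} {A2 : Finset ℕ} (h : P.TriS s (N.E \ A) A)
    (hd : P.del (tset s) = N) (hr : P.Reg) (hA : A ⊆ N.E)
    (h2 : P2.TriS s2 ((A ∪ tset s) \ A2) A2) (hd2 : P2.del (tset s2) = P.res (A ∪ tset s))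
    (hf : Disjoint (tset s2) P.E) (hr2 : P2.Reg) (hA2 : A2 ⊆ A) :
    ∃ P' : BM, P'.TriS s2 (N.E \ A2) A2 ∧ P'.del (tset s2) = N ∧ P'.Reg ∧
      P'.res (A2 ∪ tset s2) = P2.res (A2 ∪ tset s2) := by
  have hPE : P.E = N.E ∪ tset s := by rw [h.ground, sdiff_union_of_subset hA]
  have hE2 : P2.E = A ∪ tset s2 ∪ tset s := by
    rw [h2.ground, sdiff_union_of_subset (hA2.trans subset_union_left), union_right_comm]
  have dN : Disjoint (tset s2) N.E := hf.mono_right (hPE ▸ subset_union_left)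
  have dT : Disjoint (tset s2) (tset s) := hf.mono_right (hPE ▸ subset_union_right)
  have hE1 := h.toTri.res_E
  have t1 : (P.res (N.E \ A ∪ tset s)).IsTri s := h.tri.res subset_union_right
  have t2 : P2.IsTri s := IsTri.of_del (hd2 ▸ h.tri.res subset_union_right)
  have dL : Disjoint (N.E \ A) (A ∪ tset s2) :=
    disjoint_union_right.2 ⟨sdiff_disjoint, (dN.mono_right sdiff_subset).symm⟩
  have dA : Disjoint (A ∪ tset s2) (tset s) := disjoint_union_left.2 ⟨h.d2, dT⟩
  obtain ⟨g, r1, r2⟩ := tri_sum t1 t2 (by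
    rw [hE1, hE2, ← inter_union_distrib_right, disjoint_iff_inter_eq_empty.1 dL, empty_union])
  rw [hE1, hE2, union_sdiff_cancel_right h.d1, union_sdiff_cancel_right dA] at g
  rw [hE1] at r1
  rw [hE2] at r2
  set P3 := (P.res (N.E \ A ∪ tset s)).sum P2 with hP3
  have k1 : ∀ Y ⊆ N.E \ A ∪ tset s, P3.r Y = P.r Y := fun Y hY => by
    rw [← P3.r_res_of_subset hY, r1, P.r_res_of_subset hY]
  have k2 : ∀ Y ⊆ A ∪ tset s2 ∪ tset s, P3.r Y = P2.r Y := fun Y hY => by
    rw [← P3.r_res_of_subset hY, r2]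
  have k3 : P3.r (N.E \ A) = P3.r (N.E \ A ∪ tset s) := by
    rw [k1 _ subset_union_left, k1 _ Subset.rfl, h.s1]
  have key : ∀ Y ⊆ A ∪ tset s2, (P3.del (tset s)).r (N.E \ A ∪ Y) + 2 =
      P3.r (N.E \ A ∪ tset s) + P2.r (Y ∪ tset s) := fun Y hY => by
    rw [P3.r_del_of_disjoint (disjoint_union_left.2 ⟨h.d1, dA.mono_left hY⟩),
      r_union_congr subset_union_left k3, union_right_comm,
      g.r_union subset_union_left (hY.trans subset_union_left),
      k2 _ (union_subset_union_left hY)]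
  have hs : A2 ∪ tset s2 ⊆ A ∪ tset s2 := union_subset_union_left hA2
  have hres : (P3.del (tset s)).res (A2 ∪ tset s2) = P2.res (A2 ∪ tset s2) := by
    rw [← r2, res_res, del_eq_res, res_res, inter_eq_right.2 (hs.trans subset_union_left),
      inter_eq_right.2]
    rw [g.ground, union_sdiff_cancel_right (disjoint_union_left.2 ⟨g.d1, g.d2⟩)]
    exact hs.trans subset_union_right
  have k4 : ∀ Y ⊆ A2 ∪ tset s2, (P3.del (tset s)).r Y = P2.r Y := fun Y hY => by
    rw [← r_res_of_subset _ hY, hres, r_res_of_subset _ hY]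
  have e1 : N.E \ A2 = N.E \ A ∪ A \ A2 := (sdiff_union_sdiff_cancel hA hA2).symm
  have e2 : (A ∪ tset s) \ A2 = A \ A2 ∪ tset s := by
    rw [union_sdiff_distrib, sdiff_eq_self_of_disjoint (h.d2.mono_left hA2).symm]
  have a1 := key (A \ A2 ∪ tset s2) (union_subset_union_left sdiff_subset)
  have a2 := key (A \ A2) (sdiff_subset.trans subset_union_left)
  have a3 := key (A ∪ tset s2) Subset.rfl
  have a4 := h2.rk
  have a5 := h2.s1
  rw [e2, union_right_comm] at a4 a5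
  rw [hE2] at a4
  rw [← union_assoc, ← e1] at a1
  rw [← e1] at a2
  refine ⟨P3.del (tset s), ⟨⟨IsTri.of_res (hres ▸ h2.tri.res subset_union_right), ?_,
    sdiff_disjoint, (dN.mono_right sdiff_subset).symm, h2.d2, ?_⟩, by omega, ?_⟩, ?_,
    (g.reg (r1.symm ▸ hr.res _) (r2.symm ▸ hr2)).del _, hres⟩
  · rw [g.del_E, ← union_assoc, sdiff_union_of_subset hA, sdiff_union_of_subset (hA2.trans hA)]
  · rw [g.del_E, k4 _ Subset.rfl]
    omega
  · rw [k4 _ Subset.rfl, k4 _ subset_union_left, h2.s2]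
  · rw [del_del, union_comm, ← del_del, hP3, sum_comm, sum_del_left (by
      rw [hE1]
      exact disjoint_union_right.2 ⟨dN.mono_right sdiff_subset, dT⟩), hd2, sum_comm,
      ← h.toTri.eq_sum, hd]

theorem struct_rec (ih : IHS N.E.card) (hv : N.VC) (hl : N.Loopless) (hp : N.Ports I t)
    (h : P.TriS s (N.E \ A) A) (hd : P.del (tset s) = N) (hf : Disjoint (tset s) Z) (hr : P.Reg)
    (hA : A ⊆ N.E) (ha : a ∉ A) (hc : PClosed I t A) (hb : Big I t A) (h4 : 4 ≤ (N.E \ A).card) :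
    N.Struct I t a Z := by
  obtain ⟨i0, hi0⟩ := Infinite.exists_notMem_finset I
  have hE := h.toTri.symm.res_E
  have u0 : Function.update t i0 s i0 = s := Function.update_self ..
  have u1 : ∀ i ∈ I, Function.update t i0 s i = t i := fun i hi =>
    Function.update_of_ne (fun hh : i = i0 => hi0 (hh ▸ hi)) ..
  have m : ∀ i ∈ insert i0 (I.filter fun i => tset (t i) ⊆ A),
      Function.update t i0 s i = s ∧ i = i0 ∨
        Function.update t i0 s i = t i ∧ i ∈ I ∧ tset (t i) ⊆ A := fun i hi => by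
    rcases mem_insert.1 hi with rfl | hi
    · exact Or.inl ⟨u0, rfl⟩
    · exact Or.inr ⟨u1 i (mem_filter.1 hi).1, mem_filter.1 hi⟩
  have m1 : ∀ i ∈ I, tset (t i) ⊆ A → i ∈ insert i0 (I.filter fun i => tset (t i) ⊆ A) :=
    fun i hi h1 => mem_insert_of_mem (mem_filter.2 ⟨hi, h1⟩)
  have hp2 : (P.res (A ∪ tset s)).Ports (insert i0 (I.filter fun i => tset (t i) ⊆ A))
      (Function.update t i0 s) := by
    refine ⟨fun i hi => ?_, fun i hi j hj hij => ?_⟩
    · rcases m i hi with ⟨e, _⟩ | ⟨e, h1, h2⟩ <;> rw [e]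
      · exact h.tri.res subset_union_right
      · exact (IsTri.of_del (hd ▸ hp.tri i h1)).res (h2.trans subset_union_left)
    · rcases m i hi with ⟨e, h1⟩ | ⟨e, h1, h2⟩ <;> rcases m j hj with ⟨e', h3⟩ | ⟨e', h3, h4⟩ <;>
        rw [e, e']
      · exact absurd (h1.trans h3.symm) hij
      · exact (h.d2.mono_left h4).symm
      · exact h.d2.mono_left h2
      · exact hp.disj i h1 j h3 hij
  have hcard : (P.res (A ∪ tset s)).E.card < N.E.card := by
    have := card_sdiff_add_card_eq_card hA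
    rw [hE, card_union_of_disjoint h.d2, h.tri.card]
    omega
  rcases ih _ _ _ (s 0) (Z ∪ P.E) hcard (hr.res _) (h.vc_side (hd ▸ hv))
    (h.loopless_side (hd ▸ hl)) hp2 (hE.symm ▸ mem_union_right _ (td_mem s 0)) with
    h1 | h1 | ⟨P2, s2, A2, h2⟩
  · refine Or.inr (Or.inr ⟨P, s, A, h, hd, hf, hr, hA, ha, hc, hb, h1.imp id ?_⟩)
    rintro ⟨H, h1, h2⟩
    rw [hE] at h2
    have h4 := h2 i0 (mem_insert_self _ _)
    rw [u0] at h4
    exact ⟨H, h1, h4, fun i hi h3 => u1 i hi ▸ h2 i (m1 i hi h3)⟩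
  · exact absurd h1.1 (insert_ne_empty _ _)
  have nT : ¬ tset s ⊆ A2 := fun hh => h2.avoid (hh (td_mem s 0))
  have dT : Disjoint (tset s) A2 := (u0 ▸ h2.closed i0 (mem_insert_self _ _)).resolve_left nT
  have hA2 : A2 ⊆ A := fun x hx =>
    (mem_union.1 (hE ▸ h2.sub hx)).resolve_right (disjoint_right.1 dT hx)
  obtain ⟨P', g1, g2, g3, g4⟩ := sr_glue h hd hr hA (hE ▸ h2.tri) h2.del
    (disjoint_union_right.1 h2.fresh).2 h2.reg hA2
  refine Or.inr (Or.inr ⟨P', s2, A2, g1, g2, (disjoint_union_right.1 h2.fresh).1, g3,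
    hA2.trans hA, fun hh => ha (hA2 hh), fun i hi => ?_, h2.big.imp id ?_, ?_⟩)
  · rcases hc i hi with h1 | h1
    · exact u1 i hi ▸ h2.closed i (m1 i hi h1)
    · exact Or.inr (h1.mono_right hA2)
  · rintro ⟨h1, i, hi, h3⟩
    rcases m i hi with ⟨e, _⟩ | ⟨e, h4, _⟩ <;> rw [e] at h3
    · exact absurd h3 nT
    · exact ⟨h1, i, h4, h3⟩
  · rw [g4]
    refine h2.basic.imp id ?_
    rintro ⟨H, h1, h3, h4⟩
    refine ⟨H, h1, h3, fun i hi h5 => ?_⟩
    have := h4 i (m1 i hi (h5.trans hA2))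
    rw [u1 i hi] at this
    exact this h5

theorem sr_split (ih : IHS N.E.card) (hr : N.Reg) (hv : N.VC) (hl : N.Loopless)
    (hp : N.Ports I t) (ha : a ∉ B1) (hi : i ∈ I) (h : N.Tri (t i) B1 B2) (c1 : PClosed I t B1)
    (c2 : PClosed I t B2) (r1 : 2 ≤ N.r B1) (r2 : 2 ≤ N.r B2) (Z : Finset ℕ) (hE : a ∈ N.E) :
    N.Struct I t a Z := by
  obtain ⟨s, π, hd, _, p1, p2, p3, p4⟩ := exists_par_tri h.tri Z
  have hS : (tset s).image π = tset (t i) := by
    simp only [tset, image_insert, image_singleton, p1]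
  have hπ : ∀ x ∈ N.E ∪ tset s, π x ∈ N.E := fun x hx => by
    rcases mem_union.1 hx with hx | hx
    · rwa [p2 x hx]
    · exact h.tri.subset (hS ▸ mem_image_of_mem π hx)
  have im : ∀ Y ⊆ N.E, Y.image π = Y := fun Y hY =>
    (image_congr fun x hx => p2 x (hY hx)).trans image_id
  have k1 : ∀ Y ⊆ N.E, (N.pull π (N.E ∪ tset s)).r Y = N.r Y := fun Y hY => by
    rw [r_pull hπ (hY.trans subset_union_left), im Y hY]
  have k2 : ∀ Y ⊆ N.E, (N.pull π (N.E ∪ tset s)).r (Y ∪ tset s) = N.r (Y ∪ tset (t i)) :=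
    fun Y hY => by rw [r_pull hπ (union_subset_union_left hY), image_union, im Y hY, hS]
  have dE := (disjoint_union_right.1 hd).2
  have go : ∀ A ⊆ N.E, N.r (A ∪ tset (t i)) = N.r A →
      N.r (N.E \ A ∪ tset (t i)) = N.r (N.E \ A) → N.r A + N.r (N.E \ A) = N.r N.E + 2 →
      a ∉ A → PClosed I t A → Big I t A → 4 ≤ (N.E \ A).card → N.Struct I t a Z := by
    intro A hA e1 e2 e3 h1 h2 h3 h4
    refine struct_rec ih hv hl hp (P := N.pull π (N.E ∪ tset s)) ⟨⟨p3, ?_, sdiff_disjoint,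
      (dE.mono_right sdiff_subset).symm, (dE.mono_right hA).symm, ?_⟩, ?_, ?_⟩ p4
      (disjoint_union_right.1 hd).1 (hr.pull hπ) hA h1 h2 h3 h4
    · rw [sdiff_union_of_subset hA]
      rfl
    · rw [pull_E, k2 _ hA, k2 _ sdiff_subset, k2 _ Subset.rfl, union_eq_left.2 h.tri.subset]
      omega
    · rw [k2 _ sdiff_subset, k1 _ sdiff_subset, e2]
    · rw [k2 _ hA, k1 _ hA, e1]
  have s1 := h.span_of_vc hv r1
  have s2 := h.symm.span_of_vc hv r2
  have rk := h.rk
  have n1 := N.r_le_card B1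
  have n2 := N.r_le_card B2
  have q1 : (B1 ∪ tset (t i)).card = B1.card + 3 := by rw [card_union_of_disjoint h.d1, h.tri.card]
  have q2 : (B2 ∪ tset (t i)).card = B2.card + 3 := by rw [card_union_of_disjoint h.d2, h.tri.card]
  by_cases b1 : 5 ≤ B1.card
  · refine go B1 (subset_union_left.trans h.ss_left) s1 ?_ ?_ ha c1 (Or.inl b1) ?_ <;>
      rw [h.ss_compl]
    · rw [union_assoc, union_self]
    all_goals omega
  by_cases b2 : 5 ≤ B2.card
  · by_cases a2 : a ∈ B2
    · have e : N.E \ (B1 ∪ tset (t i)) = B2 := by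
        rw [h.ground, union_right_comm,
          union_sdiff_cancel_left (disjoint_union_left.2 ⟨h.d12, h.d2.symm⟩)]
      refine go (B1 ∪ tset (t i)) h.ss_left (by rw [union_assoc, union_self]) (by rw [e, s2])
        (by rw [e]; omega) (fun hh => ?_) (fun j hj => ?_) (Or.inl (by omega)) (by rw [e]; omega)
      · exact (mem_union.1 hh).elim ha (disjoint_left.1 h.d2 a2)
      · by_cases hij : j = i
        · exact Or.inl (hij ▸ subset_union_right)
        · exact (c1 j hj).imp (fun h1 => h1.trans subset_union_left)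
            fun h1 => disjoint_union_right.2 ⟨h1, hp.disj j hj i hi hij⟩
    · refine go B2 (subset_union_left.trans h.symm.ss_left) s2 ?_ ?_ a2 c2 (Or.inl b2) ?_ <;>
        rw [h.symm.ss_compl]
      · rw [union_assoc, union_self]
      all_goals omega
  have ll : ∀ X, (N.res X).Loopless := fun X e he => by
    rw [N.r_res_of_subset (singleton_subset_iff.2 (mem_inter.1 he).2)]
    exact hl e (mem_inter.1 he).1
  have _ := hE
  exact Or.inl (Or.inl (h.graphic
    (small_graphic (hr.res _) (h.vc_side hv) (ll _) (by rw [h.res_E]; omega))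
    (small_graphic (hr.res _) (h.symm.vc_side hv) (ll _) (by rw [h.symm.res_E]; omega))))

theorem struct_split (ih : IHS N.E.card) (hr : N.Reg) (hv : N.VC) (hl : N.Loopless)
    (hp : N.Ports I t) (ha : a ∈ N.E) (hi : i ∈ I) (h : N.Tri (t i) B1 B2) (c1 : PClosed I t B1)
    (c2 : PClosed I t B2) (r1 : 2 ≤ N.r B1) (r2 : 2 ≤ N.r B2) (Z : Finset ℕ) :
    N.Struct I t a Z := by
  by_cases h1 : a ∈ B1
  · exact sr_split ih hr hv hl hp (disjoint_left.1 h.d12 h1) hi h.symm c2 c1 r2 r1 Z ha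
  · exact sr_split ih hr hv hl hp h1 hi h c1 c2 r1 r2 Z ha

end BM

end Pool.Agent.P.MP_3f5ce9_co
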