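import Pool.Agent.P.MP_3f5ce9_co.W.SaS

/-!
Single element extensions of the small matroids.
-/

open Finset

namespace Pool.Agent.P.MP_3f5ce9_co

/-- looks up a certificate for a minor of the extension by `t` -/
def stHas (l l' cs : List ℕ) (T : List (List ℕ × List ℕ × ℕ)) (t : ℕ) : Bool :=
  T.any fun e => e.1.contains t && sbMin (l ++ [t]) l' cs e.2.1 e.2.2

/-- the extension is not simple, has a larger rank or has a Fano minor -/
def stBad (l : List ℕ) (T : List (List ℕ × List ℕ × ℕ)) (t : ℕ) : Bool :=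
  t == 0 || l.contains t || (elim (l ++ [t])).length != (elim l).length ||
    stHas l [1, 2, 3, 4, 5, 6, 7] [7, 25, 42, 75] T t

def stK33d : List (List ℕ × List ℕ × ℕ) :=
  [([6, 7], [1, 3, 9, 4, 7, 5, 8], 1),
    ([9, 11], [0, 3, 6, 4, 9, 5, 8], 2),
    ([13, 14], [0, 3, 6, 4, 7, 5, 9], 4)]

def stK5 : List (List ℕ × List ℕ × ℕ) :=
  [([15], [0, 1, 4, 2, 5, 7, 10], 8),
    ([23], [0, 1, 4, 3, 6, 8, 10], 4),
    ([27], [0, 2, 5, 3, 6, 9, 10], 2),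
    ([29, 30], [1, 2, 7, 3, 8, 9, 10], 1)]

def stR10 : List (List ℕ × List ℕ × ℕ) :=
  [([3, 32], [1, 2, 10, 3, 9, 8, 6], 129),
    ([5], [0, 2, 10, 3, 9, 6, 8], 34),
    ([6], [0, 1, 10, 4, 7, 5, 9], 12),
    ([9], [0, 1, 10, 3, 8, 6, 9], 20),
    ([10], [0, 2, 10, 4, 8, 5, 7], 10),
    ([12, 47], [1, 2, 10, 4, 6, 7, 5], 9),
    ([15], [0, 1, 8, 2, 9, 10, 7], 72),
    ([17], [0, 1, 10, 2, 7, 5, 9], 24),
    ([18], [0, 3, 10, 4, 7, 6, 8], 6),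
    ([20, 55], [1, 3, 10, 4, 5, 8, 6], 5),
    ([23], [0, 1, 7, 3, 9, 10, 8], 36),
    ([24, 30, 59, 61], [2, 3, 10, 4, 5, 6, 9], 3),
    ([27], [0, 2, 7, 3, 8, 10, 9], 18),
    ([29, 62], [1, 2, 5, 3, 6, 10, 9], 17)]

def stK33 : List (List ℕ × List ℕ × ℕ) :=
  [([15], [0, 2, 3, 6, 7, 9, 8], 34),
    ([23, 30], [1, 2, 4, 6, 7, 8, 9], 33),
    ([27], [0, 1, 7, 3, 5, 9, 4], 68),
    ([29], [0, 1, 4, 6, 8, 9, 7], 12),
    ([39, 46, 53, 60], [1, 2, 5, 6, 7, 8, 9], 17),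
    ([43], [0, 2, 8, 3, 4, 9, 5], 66),
    ([45, 54], [0, 2, 5, 6, 7, 9, 8], 10),
    ([51, 58], [1, 2, 8, 3, 4, 5, 9], 129),
    ([57], [0, 1, 4, 2, 5, 8, 9], 136)]

def stK5d : List (List ℕ × List ℕ × ℕ) :=
  [([11], [0, 1, 3, 4, 6, 8, 10], 164),
    ([12, 13, 14, 15], [2, 4, 10, 5, 7, 6, 8], 515),
    ([18, 19, 22, 23], [1, 4, 7, 5, 10, 6, 9], 261),
    ([21, 31, 53], [0, 2, 3, 5, 6, 9, 10], 146),
    ([26, 27, 28, 29], [1, 4, 8, 5, 9, 6, 10], 137),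
    ([33, 35, 37], [0, 4, 5, 7, 10, 8, 9], 70),
    ([38, 39, 46, 47, 54, 55], [1, 2, 3, 7, 8, 9, 10], 49),
    ([41, 43, 44], [0, 4, 6, 7, 9, 8, 10], 42),
    ([49, 50], [0, 5, 6, 7, 8, 9, 10], 28),
    ([56, 57, 58, 59, 60, 61, 62, 63], [4, 5, 6, 7, 8, 9, 10], 7)]

def stK5e : List (List ℕ × List ℕ × ℕ) :=
  [([3], [0, 1, 10, 5, 7, 2, 6, 8, 3], 528),
    ([5], [0, 2, 10, 4, 7, 1, 6, 9, 3], 288),
    ([6], [0, 3, 10, 4, 8, 1, 5, 9, 2], 192),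
    ([9], [0, 2, 3, 4, 7, 8, 10, 5, 6], 514),
    ([10], [1, 2, 3, 4, 5, 6, 10, 7, 8], 513),
    ([17], [0, 1, 3, 5, 7, 9, 10, 4, 6], 260),
    ([20], [1, 2, 3, 4, 5, 6, 7, 10, 9], 257),
    ([24], [0, 1, 2, 6, 8, 9, 10, 4, 5], 136),
    ([30], [1, 2, 3, 4, 5, 6, 8, 9, 10], 129),
    ([34], [0, 1, 3, 4, 10, 8, 5, 7, 9], 68),
    ([36], [0, 2, 3, 4, 7, 8, 5, 10, 9], 66),
    ([40], [0, 1, 2, 4, 10, 7, 6, 8, 9], 40),
    ([45], [0, 2, 3, 4, 7, 8, 6, 9, 10], 34),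
    ([48], [0, 1, 2, 5, 7, 10, 6, 8, 9], 24),
    ([51], [0, 1, 3, 5, 7, 9, 6, 8, 10], 20)]

namespace BM

variable {Q : BM}

theorem st_has {l l' cs : List ℕ} {T : List (List ℕ × List ℕ × ℕ)} {t : ℕ}
    (hl : ∀ x ∈ l ++ [t], x < 2 ^ 16) (h : stHas l l' cs T t = true)
    (h' : (∀ x ∈ l', x < 2 ^ 16) ∧ (∀ m ∈ cs, m < 2 ^ l'.length ∧ xorAll (msel l' m) = 0) ∧
      (elim cs).length + (elim l').length = l'.length) :
    (ofBits (l ++ [t])).HasMinor (ofBits l') := by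
  simp only [stHas, List.any_eq_true, Bool.and_eq_true] at h
  obtain ⟨e, -, -, h⟩ := h
  exact ⟨_, _, (sb_min hl h h').1⟩

theorem st_ext {l : List ℕ} (T : List (List ℕ × List ℕ × ℕ)) (hl : ∀ x ∈ l, x < 2 ^ 6)
    (hr : Q.Reg) (hs : Q.Simple) (hm : Q.HasMinor (ofBits l))
    (h : Q.r Q.E ≤ (ofBits l).r (ofBits l).E) (hc : l.length < Q.E.card) :
    ∃ t < 64, stBad l T t = false ∧ (∀ x ∈ l ++ [t], x < 2 ^ 16) ∧
      Q.HasMinor (ofBits (l ++ [t])) := by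
  have hl' : ∀ x ∈ l, x < 2 ^ 16 := fun x hx => (hl x hx).trans (by norm_num)
  have e1 : (ofBits l).r (ofBits l).E = (elim l).length := bt_rE hl'
  obtain ⟨t, t1, t2, t3, t4, t5⟩ := ext_bits (k := 6) (by norm_num) hl hs hm (e1 ▸ h) hc
  have b : ∀ x ∈ l ++ [t], x < 2 ^ 16 := fun x hx => by
    rcases List.mem_append.1 hx with h1 | h1
    · exact hl' x h1
    · rw [List.mem_singleton.1 h1]; exact t1.trans (by norm_num)
  refine ⟨t, t1, ?_, b, t5⟩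
  by_contra hb
  simp only [stBad, Bool.not_eq_false, Bool.or_eq_true, beq_iff_eq, List.contains_iff_mem,
    bne_iff_ne] at hb
  rcases hb with ((hb | hb) | hb) | hb
  · exact t2 hb
  · exact t3 hb
  · exact hb t4
  · exact not_reg_F7 ((t5.trans (st_has b hb (by decide))).reg hr)

theorem st_max {l : List ℕ} (T : List (List ℕ × List ℕ × ℕ)) (hl : ∀ x ∈ l, x < 2 ^ 6)
    (h : ∀ t < 64, stBad l T t = true) : (ofBits l).MaxS := fun Q q1 q2 q3 q4 => by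
  by_contra hc
  obtain ⟨t, t1, t2, -⟩ := st_ext T hl q1 q2 q3 q4 (by simpa using hc)
  rw [h t t1] at t2
  exact absurd t2 (by decide)

theorem maxS_K4 : K4.MaxS := by
  rw [K4_eq]
  exact st_max [([15], [0, 1, 3, 2, 4, 5, 6], 0)] (by decide) (by decide +kernel)

theorem maxS_K4d : K4.dual.MaxS := by
  exact K4_iso.maxS maxS_K4

theorem maxS_K33d : K33.dual.MaxS := by
  rw [K33_dual]
  exact st_max stK33d (by decide) (by decide +kernel)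

theorem maxS_K5 : K5.MaxS := by
  rw [K5_eq]
  exact st_max stK5 (by decide) (by decide +kernel)

theorem maxS_R10 : R10.MaxS := by
  exact st_max stR10 (by decide) (by decide +kernel)

theorem maxS_R10d : R10.dual.MaxS := by
  exact R10_iso.maxS maxS_R10

theorem st_gr (i j : ℕ) (h : i < 16 ∧ j < 16) :
    (ofBits ([9, 17, 33, 10, 18, 34, 12, 20, 36] ++ [2 ^ i ^^^ 2 ^ j])).Graphic := by
  have := gm_gl (l := [(0, 3), (0, 4), (0, 5), (1, 3), (1, 4), (1, 5), (2, 3), (2, 4), (2, 5), (i, j)])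
    (by simpa using h)
  exact (show ofBits _ = _ from this.symm) ▸ graphic_gm _ _

theorem ext_K33 (hr : Q.Reg) (hs : Q.Simple) (hm : Q.HasMinor K33) (h : Q.r Q.E ≤ K33.r K33.E)
    (hc : Q.E.card = 10) : Q.Graphic ∨ Q.HasMinor R10 := by
  rw [K33_eq] at hm h
  obtain ⟨t, t1, t2, t3, t4⟩ := st_ext stK33 (by decide) hr hs hm h (by simp [hc])
  have key : ∀ t < 64, stBad [9, 17, 33, 10, 18, 34, 12, 20, 36] stK33 t = false →
      t = 63 ∨ ∃ i < 6, ∃ j < 6, t = 2 ^ i ^^^ 2 ^ j := by decide +kernel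
  rcases key t t1 t2 with rfl | ⟨i, hi, j, hj, rfl⟩
  · exact Or.inr (t4.trans (st_has (T := [([63], [0, 1, 2, 9, 5, 4, 6, 3, 7, 8], 0)])
      (cs := [54, 90, 149, 281, 543]) t3 (by decide +kernel) (by decide +kernel)))
  · exact Or.inl ((t4.iso (by simp [hc])).symm.hasMinor.graphic (st_gr i j (by omega)))

theorem ext_K5d (hr : Q.Reg) (hs : Q.Simple) (hm : Q.HasMinor K5.dual)
    (h : Q.r Q.E ≤ K5.dual.r K5.E) (hc : 10 < Q.E.card) : Q.HasMinor K33.dual := by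
  rw [← dual_E K5, K5_dual] at h
  rw [K5_dual] at hm
  obtain ⟨t, t1, t2, t3, t4⟩ := st_ext stK5d (by decide) hr hs hm h hc
  have key : ∀ t < 64, stBad [1, 2, 4, 7, 8, 16, 25, 32, 42, 52] stK5d t = false →
      stHas [1, 2, 4, 7, 8, 16, 25, 32, 42, 52] [1, 2, 3, 4, 8, 12, 5, 10, 15]
        [7, 56, 73, 146, 292] stK5e t = true := by decide +kernel
  rw [K33_dual]
  exact t4.trans (st_has t3 (key t t1 t2) (by decide +kernel))

end BM

end Pool.Agent.P.MP_3f5ce9_co
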