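import Pool.Agent.P.MP_3f5ce9_co.W.SbB
import Pool.Agent.P.MP_3f5ce9_co.W.RegL

/-!
Certificates for the finite part of the blocking sequence argument.
-/

open Finset

namespace Pool.Agent.P.MP_3f5ce9_co

/-- the number of selected positions -/
def sbPop (l : List ℕ) (m : ℕ) : ℕ := (msel l m).length

/-- the function `sbG` on masks -/
def sbGB (l : List ℕ) (c P Q : ℕ) : ℕ := rkm l (P ||| (c ^^^ (c &&& Q))) + sbPop l (c &&& Q)

/-- the predicate `SbLow` on masks -/
def sbLowB (l : List ℕ) (c P Q : ℕ) : Bool := sbGB l c P Q + sbGB l c Q P ≤ 2 * sbPop l c + 8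

/-- the image of a mask, together with a further mask -/
def sbImg (f : List ℕ) (m z : ℕ) : ℕ := ((msel f m).map (2 ^ ·)).foldr Nat.lor z

/-- checks a minor -/
def sbMin (l l' cs f : List ℕ) (c : ℕ) : Bool :=
  f.length == l'.length && decide f.Nodup && f.all (fun x => x < l.length && !c.testBit x) &&
    cs.all (fun m => (sbOpt l.length c false).any fun z =>
      z ||| c == c && xorAll (msel l (sbImg f m z)) == 0) &&
    (elim l').length + rkm l c ≤ rkm l (sbImg f (2 ^ l'.length - 1) c)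

/-- a key for looking up certificates -/
def sbKey (l : List ℕ) : ℕ := l.foldr (fun x y => x + 3 * y) 0

/-- checks a Fano minor or a dual Fano minor -/
def sbNR (T : List (List ℕ × Bool × List ℕ × ℕ)) (l : List ℕ) : Bool :=
  T.any fun e => e.1.contains (sbKey l) &&
    if e.2.1 then sbMin l [1, 2, 3, 4, 5, 6, 7] [7, 25, 42, 75] e.2.2.1 e.2.2.2
    else sbMin l [11, 13, 1, 14, 2, 4, 8] [85, 102, 120] e.2.2.1 e.2.2.2

/-- checks a new minor `R12` -/
def sbSh (T : List (List ℕ × List ℕ × ℕ)) (l : List ℕ) (c a p : ℕ) : Bool :=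
  T.any fun e => e.1.contains (sbKey l) &&
    sbMin l [9, 10, 12, 17, 18, 20, 32, 64, 96, 38, 69, 99] [27, 45, 448, 582, 1157, 2243]
      e.2.1 e.2.2 && sbImg e.2.1 4032 0 == 4032 && sbImg e.2.1 63 0 ||| a == a &&
    e.2.2 ||| a == c ||| a && sbPop l e.2.2 == sbPop l c && rkm l e.2.2 == sbPop l e.2.2 &&
    !sbLowB l e.2.2 (sbImg e.2.1 63 0) (4032 ||| 2 ^ p)

/-- runs a check over all extensions and coextensions -/
def sbAll (l : List ℕ) (c : ℕ) (b : Bool) (T : List ℕ → ℕ → Bool) : Bool :=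
  (sbOpt l.length (207 ||| c) b).all fun t => T (sbExt l b t) (sbC c l.length b)

theorem sb_img {f : List ℕ} {n : ℕ} (h : ∀ x ∈ f, x < n) (m z : ℕ) :
    mset n (sbImg f m z) = (mset f.length m).image (fun i => f.getD i 0) ∪ mset n z := by
  ext i
  rw [mem_mset, sbImg, bt_lor, mem_union, mem_image, ← bt_mem, mem_mset, and_or_left]
  refine or_congr_left (and_iff_right_of_imp fun h1 => ?_)
  obtain ⟨e, he, rfl⟩ := bt_mem.1 h1
  rw [List.getD_eq_getElem _ _ (mem_mset.1 he).1]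
  exact h _ (List.getElem_mem _)

theorem sb_zero (n : ℕ) : mset n 0 = ∅ := by
  simp [mset]

theorem sb_le {n m m' : ℕ} (h : m ||| m' = m') : mset n m ⊆ mset n m' :=
  union_eq_right.1 (by rw [← mset_union, h])

namespace BM

variable {M : BM} {g f : ℕ → ℕ} {C C₀ A B : Finset ℕ} {c v : ℕ} {l : List ℕ}

theorem sb_min {l' cs fl : List ℕ} (hl : ∀ x ∈ l, x < 2 ^ 16) (h : sbMin l l' cs fl c = true)
    (h' : (∀ x ∈ l', x < 2 ^ 16) ∧ (∀ m ∈ cs, m < 2 ^ l'.length ∧ xorAll (msel l' m) = 0) ∧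
      (elim cs).length + (elim l').length = l'.length) :
    (ofBits l).MinorAt (ofBits l') (fun i => fl.getD i 0) (mset l.length c) ∧
      fl.length = l'.length ∧ ∀ x ∈ fl, x < l.length := by
  simp only [sbMin, Bool.and_eq_true, beq_iff_eq, decide_eq_true_eq, List.all_eq_true,
    List.any_eq_true, Bool.not_eq_eq_eq_not, Bool.not_true] at h
  obtain ⟨⟨⟨⟨hf, hnd⟩, hm⟩, h1⟩, h2⟩ := h
  have h3 : ∀ e < l'.length, fl.getD e 0 ∈ fl := fun e he => by
    rw [List.getD_eq_getElem _ _ (hf ▸ he)]; exact List.getElem_mem _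
  have h4 : ∀ e < l'.length, fl.getD e 0 ∈ (ofBits l).E ∧ fl.getD e 0 ∉ mset l.length c :=
    fun e he => ⟨mem_range.2 (hm _ (h3 e he)).1, fun h4 =>
      Bool.false_ne_true ((hm _ (h3 e he)).2.symm.trans (mem_mset.1 h4).2)⟩
  refine ⟨minorAt_ofBits h'.1 (fun a ha b hb hab => ?_) (mset_subset _ _) h4 cs
    (fun m a => ⟨(h'.2.1 m a).1, ?_⟩) (fun m a => (h'.2.1 m a).2) h'.2.2 ?_, hf,
    fun x hx => (hm x hx).1⟩
  · rw [coe_range, Set.mem_Iio, ← hf] at ha hb
    simp only [List.getD_eq_getElem _ _ ha, List.getD_eq_getElem _ _ hb] at hab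
    exact hnd.getElem_inj_iff.1 hab
  · obtain ⟨z, -, z1, z2⟩ := h1 m a
    refine ⟨_, (cyc_ofBits hl _).2 z2, ?_⟩
    rw [sb_img fun x hx => (hm x hx).1, hf, union_sdiff_distrib, sdiff_eq_empty_iff_subset.2
      (sb_le z1), union_empty, eq_comm, Finset.sdiff_eq_self_iff_disjoint, disjoint_right]
    intro x hx hx'
    obtain ⟨y, hy, rfl⟩ := mem_image.1 hx'
    exact (h4 y (mem_mset.1 hy).1).2 hx
  · rw [← r_ofBits hl, ← r_ofBits hl, sb_img fun x hx => (hm x hx).1, hf] at h2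
    rwa [show range l'.length = mset l'.length (2 ^ l'.length - 1) by ext; simp [mem_mset]]

theorem sb_nr {T : List (List ℕ × Bool × List ℕ × ℕ)} (hl : ∀ x ∈ l, x < 2 ^ 16)
    (h : sbNR T l = true) : ¬ (ofBits l).Reg := fun hr => by
  simp only [sbNR, List.any_eq_true, Bool.and_eq_true] at h
  obtain ⟨e, -, -, h⟩ := h
  split_ifs at h
  · exact not_reg_F7 (HasMinor.reg ⟨_, _, (sb_min hl h (by decide)).1⟩ hr)
  · have h1 := (HasMinor.reg ⟨_, _, (sb_min hl h (by decide)).1⟩ hr).dual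
    rw [dual_ofBits (l := [11, 13, 1, 14, 2, 4, 8]) (l' := [1, 2, 3, 4, 5, 6, 7]) (by decide)
      (by decide) rfl (by decide +kernel) (by decide)] at h1
    exact not_reg_F7 h1

/-- a minor `R12` with an independent set of contracted elements, of the right rank -/
structure SbSt (M : BM) (f : ℕ → ℕ) (C : Finset ℕ) : Prop where
  mn : M.MinorAt R12 f C
  ind : M.r C = C.card
  rk : M.r M.E = C.card + 6

/-- the minor on the elements of `R12` and some further elements -/
structure SbLv (M : BM) (C A B : Finset ℕ) (g : ℕ → ℕ) (C₀ : Finset ℕ) (c : ℕ) (l : List ℕ) :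
    Prop where
  std : M.SbStd g C₀ (207 ||| c) l
  len : 12 ≤ l.length
  hC : C = (mset l.length c).image g ∪ C₀
  hA : A = (mset l.length 63).image g
  hB : B = (mset l.length 4032).image g

theorem sb_gb (hl : ∀ x ∈ l, x < 2 ^ 16) (c P Q : ℕ) :
    sbG (ofBits l) (mset l.length c) (mset l.length P) (mset l.length Q) = sbGB l c P Q := by
  rw [sbG, sbGB, sbPop, ← r_ofBits hl, ← card_mset, mset_union, mset_symmDiff, mset_inter,
    symmDiff_of_ge inter_subset_left, sdiff_inter_self_left]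

theorem sb_lowb (hl : ∀ x ∈ l, x < 2 ^ 16) (c P Q : ℕ) :
    (ofBits l).SbLow (mset l.length c) (mset l.length P) (mset l.length Q) ↔
      sbLowB l c P Q = true := by
  rw [SbLow, sb_gb hl, sb_gb hl, sbLowB, card_mset, decide_eq_true_eq, sbPop]

theorem SbLv.low (h : M.SbLv C A B g C₀ c l) (P Q : ℕ) :
    M.SbLow C ((mset l.length P).image g) ((mset l.length Q).image g) ↔
      sbLowB l c P Q = true := by
  rw [h.hC, h.std.minor.sb_low h.std.ind.r_eq (mset_subset _ _) (mset_subset _ _)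
    (mset_subset _ _), sb_lowb h.std.bits]

theorem SbLv.lowA (h : M.SbLv C A B g C₀ c l) {i : ℕ} (hi : i < l.length) :
    M.SbLow C (insert (g i) A) B ↔ sbLowB l c (63 ||| 2 ^ i) 4032 = true := by
  rw [← h.low, sb_ins _ hi, image_insert, ← h.hA, ← h.hB]

theorem SbLv.lowB (h : M.SbLv C A B g C₀ c l) {j : ℕ} (hj : j < l.length) :
    M.SbLow C A (insert (g j) B) ↔ sbLowB l c 63 (4032 ||| 2 ^ j) = true := by
  rw [← h.low, sb_ins _ hj, image_insert, ← h.hA, ← h.hB]

theorem SbLv.lowAB (h : M.SbLv C A B g C₀ c l) {i j : ℕ} (hi : i < l.length) (hj : j < l.length) :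
    M.SbLow C (insert (g i) A) (insert (g j) B) ↔
      sbLowB l c (63 ||| 2 ^ i) (4032 ||| 2 ^ j) = true := by
  rw [← h.low, sb_ins _ hi, sb_ins _ hj, image_insert, image_insert, ← h.hA, ← h.hB]

theorem SbLv.nr {T : List (List ℕ × Bool × List ℕ × ℕ)} (h : M.SbLv C A B g C₀ c l) (hr : M.Reg) :
    ¬ sbNR T l = true := fun h1 => sb_nr h.std.bits h1 (HasMinor.reg ⟨_, _, h.std.minor⟩ hr)

theorem SbLv.ext (h : M.SbLv C A B g C₀ c l) (hn : l.length < 16) (hv : v ∈ M.E ∧ v ∉ A ∧ v ∉ B)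
    (hg : ∀ i < l.length, 12 ≤ i → g i ≠ v) {T : List ℕ → ℕ → Bool}
    (hT : ∀ b, sbAll l c b T = true) :
    ∃ g' C₀' c' l', M.SbLv C A B g' C₀' c' l' ∧ T l' c' = true ∧ l'.length = l.length + 1 ∧
      (∀ i < l.length, g' i = g i) ∧ g' l.length = v := by
  have h1 : ∀ i < l.length, g i ≠ v := fun i hi e => by
    by_cases h12 : 12 ≤ i
    · exact hg i hi h12 e
    rcases (by decide : ∀ i < 12, Nat.testBit 63 i = true ∨ Nat.testBit 4032 i = true) i
      (not_le.1 h12) with a | a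
    · exact hv.2.1 (h.hA ▸ mem_image.2 ⟨i, mem_mset.2 ⟨hi, a⟩, e⟩)
    · exact hv.2.2 (h.hB ▸ mem_image.2 ⟨i, mem_mset.2 ⟨hi, a⟩, e⟩)
  have h2 : 2 ^ 12 ≤ 2 ^ l.length := Nat.pow_le_pow_right two_pos h.len
  have h3 : c < 2 ^ l.length := Nat.right_le_or.trans_lt h.std.lt
  have h4 : ∀ b t, ∀ m < 2 ^ l.length, (mset (sbExt l b t).length m).image
      (Function.update g l.length v) = (mset l.length m).image g := fun b t m hm => by
    rw [sbExt_len, sb_succ hm, sb_upd _ _ (mset_subset _ _)]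
  have h5 : ∀ b t, 12 ≤ (sbExt l b t).length := fun b t => by
    rw [sbExt_len]
    exact h.len.trans (Nat.le_succ _)
  by_cases hC : v ∈ C₀
  · obtain ⟨t, t1, t2⟩ := h.std.extC hn hC
    refine ⟨_, _, c ||| 2 ^ l.length, _, ⟨Nat.or_assoc _ _ _ ▸ t2, h5 _ _, ?_,
      h.hA.trans (h4 _ _ 63 (by omega)).symm, h.hB.trans (h4 _ _ 4032 (by omega)).symm⟩,
      List.all_eq_true.1 (hT true) t t1, sbExt_len _ _ _,
      fun i hi => Function.update_of_ne hi.ne _ _, Function.update_self _ _ _⟩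
    rw [sb_ins _ (by rw [sbExt_len]; exact Nat.lt_succ_self _), image_insert, h4 _ _ _ h3,
      Function.update_self, insert_union, ← union_insert, insert_erase hC]
    exact h.hC
  · obtain ⟨t, t1, t2⟩ := h.std.extD hn hv.1 hC h1
    exact ⟨_, _, c, _, ⟨t2, h5 _ _, (h4 _ _ _ h3).symm ▸ h.hC,
      h.hA.trans (h4 _ _ 63 (by omega)).symm, h.hB.trans (h4 _ _ 4032 (by omega)).symm⟩,
      List.all_eq_true.1 (hT false) t t1, sbExt_len _ _ _,
      fun i hi => Function.update_of_ne hi.ne _ _, Function.update_self _ _ _⟩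

theorem SbLv.sh {T : List (List ℕ × List ℕ × ℕ)} {a p : ℕ} (h : M.SbLv C A B g C₀ c l)
    (hr : M.r M.E = C.card + 6) (hp : p < l.length) (hs : sbSh T l c a p = true) :
    ∃ f' C', M.SbSt f' C' ∧ (mset 12 4032).image f' = B ∧
      (mset 12 63).image f' ⊆ (mset l.length a).image g ∧
      C \ (mset l.length a).image g = C' \ (mset l.length a).image g ∧ C.card = C'.card ∧
      ¬ M.SbLow C' ((mset 12 63).image f') (insert (g p) B) := by
  simp only [sbSh, List.any_eq_true, Bool.and_eq_true, beq_iff_eq, Bool.not_eq_eq_eq_not,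
    Bool.not_true] at hs
  obtain ⟨⟨k, fl, c'⟩, -, ⟨⟨⟨⟨⟨⟨-, h1⟩, h2⟩, h3⟩, h4⟩, h5⟩, h6⟩, h7⟩ := hs
  dsimp only at h1 h2 h3 h4 h5 h6 h7
  obtain ⟨m1, m2, m3⟩ := sb_min h.std.bits h1 (by decide)
  have m4 : ∀ m, (mset 12 m).image (g ∘ fun i => fl.getD i 0) =
      (mset l.length (sbImg fl m 0)).image g := fun m => by
    rw [sb_img m3, sb_zero, union_empty, image_image, m2]
    rfl
  have m := h.std.minor
  have a1 := m.sb_card (mset_subset l.length c)
  have a2 := m.sb_card (mset_subset l.length c')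
  have a3 := m.rk _ (mset_subset l.length c')
  rw [← h.hC] at a1
  rw [r_ofBits h.std.bits, h.std.ind.r_eq] at a3
  rw [card_mset] at a1 a2
  unfold sbPop at h5 h6
  refine ⟨_, _, ⟨m.trans m1, by omega, by omega⟩, by rw [m4, h2, h.hB], ?_, ?_, by omega, ?_⟩
  · rw [m4]
    exact image_subset_image (sb_le h3)
  · have := congrArg (fun x => (mset l.length x).image g) h4
    simp only [mset_union, image_union] at this
    rw [h.hC, union_sdiff_distrib, union_sdiff_distrib, ← union_sdiff_right, ← this,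
      union_sdiff_right]
  · rw [m4, h.hB, ← image_insert, ← sb_ins _ hp, m.sb_low h.std.ind.r_eq (mset_subset _ _)
      (mset_subset _ _) (mset_subset _ _), sb_lowb h.std.bits, h7]
    exact Bool.false_ne_true

theorem SbSt.lv (h : M.SbSt f C) : M.SbLv C ((mset 12 63).image f) ((mset 12 4032).image f) f C 0
    [1, 2, 4, 8, 11, 13, 64, 128, 192, 70, 133, 195] := by
  have hl : ∀ x ∈ [9, 10, 12, 17, 18, 20, 32, 64, 96, 38, 69, 99], x < 2 ^ 16 := by decide
  refine ⟨⟨by decide, by decide, h.mn.inj, fun i hi => h.mn.maps i (mem_range.2 hi), ?_,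
    by decide, fun i hi hb => ?_⟩, le_rfl, by rw [sb_zero, image_empty, empty_union], rfl, rfl⟩
  · have a1 := h.mn.rk _ (mset_subset 12 207)
    have a2 := h.mn.sb_card (mset_subset 12 207)
    have a3 : R12.r (mset 12 207) = 6 := (r_ofBits hl 207).trans (by decide)
    have a4 : (mset 12 207).card = 6 := by decide
    have a5 := h.ind
    have a6 := h.rk
    change M.IsBase ((mset 12 207).image f ∪ C)
    exact isBase_iff.2 ⟨union_subset (image_subset_iff.2 fun x hx =>
      (h.mn.maps x (mset_subset _ _ hx)).1) h.mn.sub, by omega, by omega⟩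
  · obtain ⟨a1, a2⟩ := (by decide : ∀ i < 12, Nat.testBit (207 ||| 0) i = false →
      [1, 2, 4, 8, 11, 13, 64, 128, 192, 70, 133, 195].getD i 0 ||| 207 = 207 ||| 0 ∧
      xorAll (msel [9, 10, 12, 17, 18, 20, 32, 64, 96, 38, 69, 99]
        ([1, 2, 4, 8, 11, 13, 64, 128, 192, 70, 133, 195].getD i 0 ||| 2 ^ i)) = 0) i hi hb
    refine ⟨fun j hj => by rw [← a1, Nat.testBit_or, hj, Bool.true_or], ?_⟩
    obtain ⟨Z, z1, z2⟩ := (h.mn.cyc (mset_subset 12 _)).1 ((cyc_ofBits hl _).2 a2)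
    exact ⟨Z, z1, by rw [← z2, ← sb_ins _ hi]; rfl⟩

theorem SbSt.base (h : M.SbSt f C) :
    M.SbBase C ((mset 12 63).image f) ((mset 12 4032).image f) ∧
      M.SbLow C ((mset 12 63).image f) ((mset 12 4032).image f) := by
  refine ⟨?_, (h.lv.low 63 4032).2 (by decide)⟩
  have hl : ∀ x ∈ [9, 10, 12, 17, 18, 20, 32, 64, 96, 38, 69, 99], x < 2 ^ 16 := by decide
  have a1 := h.mn.rk _ (mset_subset 12 63)
  have a2 := h.mn.rk _ (mset_subset 12 4032)
  have a3 : R12.r (mset 12 63) = 4 := (r_ofBits hl 63).trans (by decide)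
  have a4 : R12.r (mset 12 4032) = 4 := (r_ofBits hl 4032).trans (by decide)
  have a5 := h.ind
  have a6 : sbG M C ((mset 12 63).image f) ∅ ≤ _ :=
    sbG_mono Subset.rfl (empty_subset ((mset 12 4032).image f))
  have a7 : sbG M C ((mset 12 4032).image f) ∅ ≤ _ :=
    sbG_mono Subset.rfl (empty_subset ((mset 12 63).image f))
  rw [sbG, sdiff_empty] at a6 a7
  unfold SbBase
  omega

end BM

end Pool.Agent.P.MP_3f5ce9_co
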