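import Pool.Agent.P.MP_3f5ce9_co.W.SaI
import Pool.Agent.P.MP_3f5ce9_co.W.SbC

/-!
Finite facts on the small matroids.
-/

open Finset

namespace Pool.Agent.P.MP_3f5ce9_co

namespace BM

variable {P Q : BM} {l xs cs : List ℕ} {k : ℕ}

theorem sas_img (xs : List ℕ) (m : ℕ) :
    (mset xs.length m).image (fun i => xs.getD i 0) = (msel xs m).toFinset := by
  ext x
  rw [mem_image, List.mem_toFinset, bt_mem]

theorem sas_get {i : ℕ} (h : i < xs.length) : xs.getD i 0 ∈ xs := by
  rw [List.getD_eq_getElem _ _ h]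
  exact List.getElem_mem _

theorem sas_xor (hl : ∀ x ∈ l, x < 2 ^ k) : xorAll l < 2 ^ k := by
  induction l with
  | nil => exact Nat.two_pow_pos k
  | cons a l ih =>
    exact Nat.xor_lt_two_pow (hl a List.mem_cons_self)
      (ih fun x hx => hl x (List.mem_cons_of_mem _ hx))

theorem sas_ext {M N : BM} {n : ℕ} {D : Finset ℕ} (hE : M.E = N.E) (hM : M.cyc D) (hN : N.cyc D)
    (hn : n ∈ D) (h : ∀ C, n ∉ C → (M.cyc C ↔ N.cyc C)) : M = N := by
  refine ext_cyc hE fun C => ?_
  by_cases hC : n ∈ C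
  · have h1 := h (symmDiff C D) (by simp [mem_symmDiff, hC, hn])
    refine ⟨fun h2 => ?_, fun h2 => ?_⟩
    · simpa using N.sd _ _ (h1.1 (M.sd _ _ h2 hM)) hN
    · simpa using M.sd _ _ (h1.2 (N.sd _ _ h2 hN)) hM
  · exact h C hC

theorem sas_two (x : ℕ) : bv x + bv x = 0 := by
  rw [← bv_xor, Nat.xor_self, bv_zero]

/-- checks three-connectivity at one mask -/
def sasC (l : List ℕ) (m : ℕ) : Bool :=
  min 2 (min (msel l m).length (msel l (2 ^ l.length - 1 - m)).length) + (elim l).length ≤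
    rkm l m + rkm l (2 ^ l.length - 1 - m)

theorem sas_nok (hl : ∀ x ∈ l, x < 2 ^ 16) (h : ∀ m < 2 ^ l.length, sasC l m = true)
    (h1 : 3 ≤ (elim l).length ∧ (elim l).length + 3 ≤ l.length) : (ofBits l).NOK := by
  refine ⟨fun X hX => ?_, ?_, ?_⟩
  · obtain ⟨m, hm, rfl⟩ := exists_mset hX
    have h2 := h m hm
    rw [sasC, decide_eq_true_eq] at h2
    rw [lam, ofBits_E, ← mset_compl hm, card_mset, card_mset, r_ofBits hl, r_ofBits hl, bt_rE hl]
    omega
  · rw [ofBits_E, bt_rE hl]
    exact h1.1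
  · have h2 := (ofBits l).r_dual_E
    rw [ofBits_E, bt_rE hl, card_range] at h2
    rw [ofBits_E]
    omega

theorem sas_girth (hl : ∀ x ∈ l, x < 2 ^ 16)
    (h : ∀ m < 2 ^ l.length, xorAll (msel l m) = 0 → m = 0 ∨ k ≤ (msel l m).length) :
    (ofBits l).Girth k := by
  intro C hC hne
  obtain ⟨m, hm, rfl⟩ := exists_mset ((ofBits l).sub C hC)
  rcases h m hm ((cyc_ofBits hl m).1 hC) with rfl | h1
  · rw [sb_zero] at hne
    exact absurd hne not_nonempty_empty
  · rwa [card_mset]

theorem sas_dom {l' : List ℕ} (hl : ∀ x ∈ l, x < 2 ^ 16) (hl' : ∀ x ∈ l', x < 2 ^ 16)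
    (hd : (ofBits l).dual = ofBits l') (hn : l'.length = l.length) (T : List ℕ)
    (h1 : ∀ m < 2 ^ l'.length, xorAll (msel l' m) = 0 ∧ (msel l' m).length = 3 → m ∈ T)
    (h2 : ∀ m ∈ T, ∀ m' ∈ T, (msel l' (m &&& m')).length = 1 →
      (elim l).length ≤ rkm l (m ||| m')) : (ofBits l).Dom := by
  intro D D' hD hD' c1 c2 c3
  rw [hd] at hD hD'
  obtain ⟨m, hm, rfl⟩ := exists_mset ((ofBits l').sub D hD)
  obtain ⟨m', hm', rfl⟩ := exists_mset ((ofBits l').sub D' hD')
  rw [← mset_inter, card_mset] at c3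
  rw [card_mset] at c1 c2
  rw [← mset_union, hn, r_ofBits hl, ofBits_E, bt_rE hl]
  exact h2 m (h1 m hm ⟨(cyc_ofBits hl' m).1 hD, c1⟩) m'
    (h1 m' hm' ⟨(cyc_ofBits hl' m').1 hD', c2⟩) c3

theorem sas_iso {l' fl : List ℕ} (hl : ∀ x ∈ l, x < 2 ^ 16) (h : sbMin l l' cs fl 0 = true)
    (h' : (∀ x ∈ l', x < 2 ^ 16) ∧ (∀ m ∈ cs, m < 2 ^ l'.length ∧ xorAll (msel l' m) = 0) ∧
      (elim cs).length + (elim l').length = l'.length) (hn : l.length = l'.length) :
    (ofBits l).Iso (ofBits l') :=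
  HasMinor.iso ⟨_, _, (sb_min hl h h').1⟩ (by rw [ofBits_E, ofBits_E, hn])

theorem sas_R10 : R10.dual = ofBits [28, 19, 21, 26, 31, 1, 2, 4, 8, 16] :=
  dual_ofBits (by decide) (by decide) rfl (by decide +kernel) (by decide)

theorem sas_R12 : R12.dual = ofBits [51, 41, 26, 3, 1, 2, 44, 52, 4, 8, 16, 32] :=
  dual_ofBits (by decide) (by decide) rfl (by decide +kernel) (by decide)

/-- a restriction given by a list of elements -/
theorem hasMinor_of_list (hl : ∀ x ∈ l, x < 2 ^ 16) (hn : xs.Nodup) (hlen : xs.length = l.length)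
    (hE : ∀ x ∈ xs, x ∈ P.E) (h1 : ∀ m ∈ cs, m < 2 ^ l.length ∧ xorAll (msel l m) = 0)
    (h2 : (elim cs).length + (elim l).length = l.length)
    (hc : ∀ m ∈ cs, P.cyc (msel xs m).toFinset) (hr : (elim l).length ≤ P.r xs.toFinset) :
    P.HasMinor (ofBits l) := by
  refine ⟨fun i => xs.getD i 0, ∅, minorAt_ofBits hl (fun a ha b hb hab => ?_) (empty_subset _)
    (fun e he => ⟨hE _ (sas_get (hlen ▸ he)), notMem_empty _⟩) cs
    (fun m hm => ⟨(h1 m hm).1, ?_⟩) (fun m hm => (h1 m hm).2) h2 ?_⟩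
  · rw [coe_range, Set.mem_Iio, ← hlen] at ha hb
    simp only [List.getD_eq_getElem _ _ ha, List.getD_eq_getElem _ _ hb] at hab
    exact hn.getElem_inj_iff.1 hab
  · rw [con_of_disjoint _ (disjoint_empty_right _), ← hlen, sas_img]
    exact hc m hm
  · have h3 : P.r ∅ = 0 := Nat.le_zero.1 (P.r_le_card ∅)
    rw [h3, union_empty]
    refine hr.trans (P.r_mono fun x hx => ?_)
    obtain ⟨i, hi, rfl⟩ := List.getElem_of_mem (List.mem_toFinset.1 hx)
    exact mem_image.2 ⟨i, mem_range.2 (hlen ▸ hi), List.getD_eq_getElem _ _ hi⟩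

/-- a simple extension of the same rank -/
theorem ext_bits (hk : k ≤ 16) (hl : ∀ x ∈ l, x < 2 ^ k) (hs : Q.Simple)
    (hm : Q.HasMinor (ofBits l)) (hr : Q.r Q.E ≤ (elim l).length) (hc : l.length < Q.E.card) :
    ∃ t < 2 ^ k, t ≠ 0 ∧ t ∉ l ∧ (elim (l ++ [t])).length = (elim l).length ∧
      Q.HasMinor (ofBits (l ++ [t])) := by
  have hp : 2 ^ k ≤ 2 ^ 16 := Nat.pow_le_pow_right two_pos hk
  have hl' : ∀ x ∈ l, x < 2 ^ 16 := fun x hx => (hl x hx).trans_le hp
  obtain ⟨f, C, h⟩ := hm
  have a1 := h.rk _ Subset.rfl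
  rw [ofBits_E, bt_rE hl'] at a1
  have a2 := Q.r_le_rE ((range l.length).image f ∪ C)
  obtain rfl : C = ∅ := eq_empty_of_forall_notMem fun x hx => by
    have b1 := hs.loopless x (h.sub hx)
    have b2 := Q.r_mono (singleton_subset_iff.2 hx)
    omega
  rw [union_empty] at a1 a2
  have hf : Set.InjOn f (range l.length) := h.inj
  have hfE : ∀ i < l.length, f i ∈ Q.E := fun i hi => (h.maps i (mem_range.2 hi)).1
  obtain ⟨v, hv, hv'⟩ := exists_mem_notMem_of_card_lt_card
    (s := (range l.length).image f) (t := Q.E) (card_image_le.trans_lt (by rwa [card_range]))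
  have a3 : v ∈ Q.cl ((range l.length).image f) := mem_cl.2 ⟨hv, by
    have b1 := Q.r_le_rE (insert v ((range l.length).image f))
    have b2 := Q.r_le_insert v ((range l.length).image f)
    omega⟩
  obtain ⟨D, hD, hvD, hD'⟩ := exists_cyc_of_cl a3 hv'
  obtain ⟨m, -, hm⟩ := exists_mset (filter_subset (fun i => f i ∈ D) (range l.length))
  have ht : xorAll (msel l m) < 2 ^ k := sas_xor fun x hx => by
    obtain ⟨i, hi, rfl⟩ := bt_mem.1 hx
    exact hl _ (sas_get (mem_mset.1 hi).1)
  generalize hte : xorAll (msel l m) = t at ht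
  have hl2 : ∀ x ∈ l ++ [t], x < 2 ^ 16 := fun x hx => by
    rcases List.mem_append.1 hx with h1 | h1
    · exact hl' x h1
    · rw [List.mem_singleton.1 h1]
      exact ht.trans_le hp
  have g1 : ∀ i < l.length, (l ++ [t]).getD i 0 = l.getD i 0 := fun i hi =>
    List.getD_append _ _ _ _ hi
  have g2 : (l ++ [t]).getD l.length 0 = t := by simp
  have hlen : (l ++ [t]).length = l.length + 1 := by simp
  obtain ⟨g, g3, g4⟩ : ∃ g : ℕ → ℕ, g l.length = v ∧ ∀ i < l.length, g i = f i :=
    ⟨Function.update f l.length v, Function.update_self _ _ _,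
      fun i hi => Function.update_of_ne hi.ne _ _⟩
  have g5 : ∀ X ⊆ range l.length, X.image g = X.image f := fun X hX =>
    image_congr fun i hi => g4 i (mem_range.1 (hX hi))
  have hg : Set.InjOn g (range (l.length + 1)) := by
    rw [range_add_one, coe_insert, Set.injOn_insert (by simp)]
    refine ⟨hf.congr fun i hi => (g4 i (mem_range.1 hi)).symm, ?_⟩
    rw [g3, ← coe_image, g5 _ Subset.rfl]
    exact hv'
  have hgE : ∀ i ∈ range (l.length + 1), g i ∈ Q.E := fun i hi => by
    rcases Nat.lt_succ_iff_lt_or_eq.1 (mem_range.1 hi) with h1 | rfl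
    · exact g4 i h1 ▸ hfE i h1
    · exact g3 ▸ hv
  have hn : l.length ∉ mset l.length m := fun h1 => lt_irrefl _ (mem_mset.1 h1).1
  have hsub : insert l.length (mset l.length m) ⊆ range (l.length + 1) := by
    rw [range_add_one]
    exact insert_subset_insert _ (mset_subset _ _)
  have key : ofBits (l ++ [t]) = Q.pull g (range (l.length + 1)) := by
    refine sas_ext (D := insert l.length (mset l.length m)) (by rw [ofBits_E, hlen, pull_E]) ?_ ?_
      (mem_insert_self _ _) fun X hX => ?_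
    · rw [bt_rep hl2, ofBits_E, hlen, sum_insert hn, g2,
        sum_congr rfl fun i hi => congrArg bv (g1 i (mem_mset.1 hi).1), bt_sum bv, bt_xorAll, hte]
      exact ⟨hsub, sas_two t⟩
    · refine (cyc_pull_inj hg).2 ⟨hsub, ?_⟩
      rw [image_insert, g3, g5 _ (mset_subset _ _), ← hm]
      refine (congrArg Q.cyc ?_).mp hD
      ext x
      rw [mem_insert, mem_image]
      refine ⟨fun hx => (mem_insert.1 (hD' hx)).imp_right fun h1 => ?_, ?_⟩
      · obtain ⟨i, hi, rfl⟩ := mem_image.1 h1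
        exact ⟨i, mem_filter.2 ⟨hi, hx⟩, rfl⟩
      · rintro (rfl | ⟨i, hi, rfl⟩)
        · exact hvD
        · exact (mem_filter.1 hi).2
    · rw [bt_rep hl2, ofBits_E, hlen, cyc_pull_inj hg]
      refine and_congr_right fun h1 => ?_
      have h2 : X ⊆ range l.length := fun i hi => mem_range.2
        (lt_of_le_of_ne (Nat.lt_succ_iff.1 (mem_range.1 (h1 hi))) fun h3 => hX (h3 ▸ hi))
      have h3 := h.cyc (D := X) h2
      rw [con_of_disjoint _ (disjoint_empty_right _), bt_rep hl', ofBits_E, and_iff_right h2] at h3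
      rw [g5 X h2, ← h3, sum_congr rfl fun i hi => congrArg bv (g1 i (mem_range.1 (h2 hi)))]
  refine ⟨t, ht, fun h0 => hs.not_single v ?_, fun h0 => ?_, ?_, g, ∅, ?_⟩
  · have b1 : (ofBits (l ++ [t])).cyc {l.length} := by
      rw [bt_rep hl2, ofBits_E, hlen, sum_singleton, g2, h0]
      exact ⟨by simp, bv_zero⟩
    rw [key, cyc_pull_inj hg, image_singleton, g3] at b1
    exact b1.2
  · obtain ⟨i, hi, hi'⟩ := List.getElem_of_mem h0
    have b1 : (ofBits (l ++ [t])).cyc {i, l.length} := by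
      rw [bt_rep hl2, ofBits_E, hlen, sum_pair hi.ne, g2, g1 i hi, List.getD_eq_getElem _ _ hi, hi']
      exact ⟨by simp [insert_subset_iff, hi.le], sas_two t⟩
    rw [key, cyc_pull_inj hg, image_insert, image_singleton] at b1
    exact hs.not_pair _ _ b1.2
  · have b1 := Q.r_le_rE ((range (l.length + 1)).image g)
    have b2 : Q.r ((range l.length).image g) ≤ Q.r ((range (l.length + 1)).image g) :=
      Q.r_mono (image_subset_image (range_subset_range.2 (Nat.le_succ _)))
    rw [g5 _ Subset.rfl] at b2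
    rw [← bt_rE hl2, key, hlen, r_pull hgE Subset.rfl]
    omega
  · have b1 := minorAt_pull (M := Q) (empty_subset _) hg fun i hi => by
      rw [sdiff_empty]
      exact hgE i hi
    rwa [con_of_disjoint _ (disjoint_empty_right _), ← key] at b1

theorem K4_dual : K4.dual = ofBits [3, 5, 6, 1, 2, 4] := by
  rw [K4_eq]
  exact dual_ofBits (by decide) (by decide) rfl (by decide +kernel) (by decide)

theorem K33_dual : K33.dual = ofBits [1, 2, 3, 4, 8, 12, 5, 10, 15] := by
  rw [K33_eq]
  exact dual_ofBits (by decide) (by decide) rfl (by decide +kernel) (by decide)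

theorem K5_dual : K5.dual = ofBits [1, 2, 4, 7, 8, 16, 25, 32, 42, 52] := by
  rw [K5_eq]
  exact dual_ofBits (by decide) (by decide) rfl (by decide +kernel) (by decide)

theorem K4_iso : K4.dual.Iso K4 := by
  rw [K4_dual, K4_eq]
  exact sas_iso (cs := [11, 21, 38]) (fl := [0, 1, 3, 2, 4, 5]) (by decide) (by decide +kernel)
    (by decide) rfl

theorem R10_iso : R10.dual.Iso R10 := by
  rw [sas_R10]
  exact sas_iso (cs := [54, 90, 149, 281, 543]) (fl := [0, 1, 5, 7, 6, 9, 2, 4, 3, 8]) (by decide)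
    (by decide +kernel) (by decide) rfl

theorem R12_iso : R12.dual.Iso R12 := by
  rw [sas_R12]
  exact sas_iso (cs := [27, 45, 448, 582, 1157, 2243])
    (fl := [6, 7, 8, 9, 10, 11, 0, 1, 2, 3, 4, 5]) (by decide) (by decide +kernel) (by decide) rfl

theorem nok_K4 : K4.NOK := by
  rw [K4_eq]
  exact sas_nok (by decide) (forall_lt_split 8 8 (by decide +kernel)) (by decide)

theorem nok_K33 : K33.NOK := by
  rw [K33_eq]
  exact sas_nok (by decide) (forall_lt_split 16 32 (by decide +kernel)) (by decide)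

theorem nok_K5 : K5.NOK := by
  rw [K5_eq]
  exact sas_nok (by decide) (forall_lt_split 32 32 (by decide +kernel)) (by decide)

theorem nok_R10 : R10.NOK := by
  exact sas_nok (by decide) (forall_lt_split 32 32 (by decide +kernel)) (by decide)

theorem girth_K33 : K33.Girth 4 := by
  rw [K33_eq]
  exact sas_girth (by decide) (forall_lt_split 16 32 (by decide +kernel))

theorem cogirth_K5 : K5.dual.Girth 4 := by
  rw [K5_dual]
  exact sas_girth (by decide) (forall_lt_split 32 32 (by decide +kernel))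

theorem cogirth_R10 : R10.dual.Girth 4 := by
  rw [sas_R10]
  exact sas_girth (by decide) (forall_lt_split 32 32 (by decide +kernel))

theorem dom_K4 : K4.Dom := by
  have h := K4_dual
  rw [K4_eq] at h ⊢
  exact sas_dom (by decide) (by decide) h rfl [7, 25, 42, 52]
    (forall_lt_split 8 8 (by decide +kernel)) (by decide +kernel)

theorem dom_K33 : K33.Dom := by
  have h := K33_dual
  rw [K33_eq] at h ⊢
  exact sas_dom (by decide) (by decide) h rfl [7, 56, 448, 73, 146, 292]
    (forall_lt_split 16 32 (by decide +kernel)) (by decide +kernel)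

theorem cubic_K4 : 2 * K4.E.card = 3 * (K4.r K4.E + 1) := by
  rw [K4_eq, ofBits_E, bt_rE (by decide), card_range]
  decide

theorem cubic_K33 : 2 * K33.E.card = 3 * (K33.r K33.E + 1) := by
  rw [K33_eq, ofBits_E, bt_rE (by decide), card_range]
  decide

theorem not_graphic_K33d : ¬ K33.dual.Graphic := by
  intro h
  obtain ⟨G, X, hn, he⟩ := h.exists_norm
  have hN := nok_K33.dual
  have hc : K33.dual.E.card = 9 := card_range 9
  have hr : K33.dual.r K33.dual.E = 4 := by
    have h1 := K33.r_dual_E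
    have h2 := cubic_K33
    rw [dual_E] at hc ⊢
    omega
  have hk := hN.conn.cok hN (HasMinor.refl _)
  have hg : K33.dual.dual.Girth 4 := by
    rw [dual_dual]
    exact girth_K33
  generalize K33.dual = M at *
  have hX : X.card = 5 := by
    have h1 := r_gm_conn Subset.rfl hn
    rw [← he] at h1
    omega
  have h3 := g3_of_cok hn (he ▸ hk) hN
  have h4 := handshake hn.within h3.ll
  have h5 : X.card • 4 ≤ ∑ v ∈ X, (G.star M.E v).card := card_nsmul_le_sum _ _ _ fun v hv =>
    hg _ (he ▸ cocyc_star' h3.ll v) (card_pos.1 (by have := h3.star_card hv; omega))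
  rw [h4, hX, hc] at h5
  exact absurd h5 (by decide)

end BM

end Pool.Agent.P.MP_3f5ce9_co
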