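import Pool.Agent.P.MP_3f5ce9_co.W.SaD
import Pool.Agent.P.MP_3f5ce9_co.W.SaS

/-!
Minors from one gadget.
-/

open Finset

namespace Pool.Agent.P.MP_3f5ce9_co

namespace BM

variable {M : BM}

theorem sau_eq {C D : Finset ℕ} (h : M.cyc C) (e : ∀ x, x ∈ D ↔ x ∈ C) : M.cyc D :=
  (Finset.ext e : D = C) ▸ h

theorem sau_one {X S Z : Finset ℕ} (hS : S ⊆ X) (hZ : Disjoint Z X)
    (ht : ∀ y ∈ Z, M.cyc {y} ∨ M.cyc (insert y S)) : M.r Z ≤ 1 := by
  by_cases h : ∃ z ∈ Z, M.cyc (insert z S)
  · obtain ⟨z, hz, hc⟩ := h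
    refine (M.r_mono (Y := M.cl {z}) fun y hy => ?_).trans ((M.r_cl _).trans_le (M.r_le_card {z}))
    rcases ht y hy with h1 | h1
    · exact mem_cl_of_cyc h1 (mem_singleton_self y) (by simp)
    by_cases e : y = z
    · exact mem_cl.2 ⟨M.sub _ h1 (mem_insert_self _ _), by simp [e]⟩
    have k1 : y ∉ S := fun m => disjoint_left.1 hZ hy (hS m)
    refine mem_cl_of_cyc (M.sd _ _ h1 hc) (by simp [mem_symmDiff, e, k1]) fun x => ?_
    simp only [mem_symmDiff, mem_insert, mem_singleton]
    grind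
  · refine (M.r_mono (Y := M.cl ∅) fun y hy => ?_).trans (by rw [r_cl, r_empty]; omega)
    exact mem_cl_of_cyc ((ht y hy).resolve_right fun m => h ⟨y, hy, m⟩) (mem_singleton_self y)
      (by simp)

theorem sau_two {X S T : Finset ℕ} (hX : X ⊆ M.E) (hc : (M.del X).Conn2) (h : 2 ≤ M.lam X)
    (hS : S ⊆ X) (hT : T ⊆ X)
    (ht : ∀ y ∈ M.E, y ∉ X → M.cyc {y} ∨ M.cyc (insert y S) ∨ M.cyc (insert y T)) : False := by
  classical
  have a1 := M.lam_le_r (M.E \ X)
  rw [lam_compl hX] at a1
  obtain ⟨Y, hY⟩ : ∃ Y, Y = (M.E \ X).filter fun y => M.cyc (insert y S) := ⟨_, rfl⟩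
  have s : Y ⊆ M.E \ X := hY ▸ filter_subset _ _
  have a2 : M.r Y ≤ 1 := sau_one hS (sdiff_disjoint.mono_left s) fun y hy => by
    rw [hY, mem_filter] at hy
    exact Or.inr hy.2
  have a3 : M.r ((M.E \ X) \ Y) ≤ 1 :=
    sau_one hT (sdiff_disjoint.mono_left sdiff_subset) fun y hy => by
      simp only [hY, mem_sdiff, mem_filter] at hy
      have := ht y hy.1.1 hy.1.2
      tauto
  have a4 := (M.del X).lam_add Y
  rw [del_E, r_del_of_disjoint _ sdiff_disjoint, r_del_of_disjoint _ (sdiff_disjoint.mono_left s),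
    r_del_of_disjoint _ (sdiff_disjoint.mono_left sdiff_subset)] at a4
  have a5 := hc Y s (nonempty_iff_ne_empty.2 fun e => by rw [e, sdiff_empty] at a3; omega)
    (nonempty_iff_ne_empty.2 fun e => by
      have := M.r_mono (sdiff_eq_empty_iff_subset.1 e)
      rw [del_E] at this
      omega)
  omega

theorem sau_three {X S T U : Finset ℕ} (hX : X ⊆ M.E) (hc : (M.del X).Conn2) (h : 2 ≤ M.lam X)
    (hS : S ⊆ X) (hT : T ⊆ X) (hU : U ⊆ X) (ht : ∀ y ∈ M.E, y ∉ X →
      M.cyc {y} ∨ M.cyc (insert y S) ∨ M.cyc (insert y T) ∨ M.cyc (insert y U)) :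
    ∃ s t u, s ∉ X ∧ t ∉ X ∧ u ∉ X ∧ M.cyc (insert s S) ∧ M.cyc (insert t T) ∧
      M.cyc (insert u U) := by
  have k1 : ∃ s, s ∉ X ∧ M.cyc (insert s S) := by
    by_contra hn
    exact sau_two hX hc h hT hU fun y hy hy' => by
      have := ht y hy hy'
      have : ¬ M.cyc (insert y S) := fun m => hn ⟨y, hy', m⟩
      tauto
  have k2 : ∃ s, s ∉ X ∧ M.cyc (insert s T) := by
    by_contra hn
    exact sau_two hX hc h hS hU fun y hy hy' => by
      have := ht y hy hy'
      have : ¬ M.cyc (insert y T) := fun m => hn ⟨y, hy', m⟩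
      tauto
  have k3 : ∃ s, s ∉ X ∧ M.cyc (insert s U) := by
    by_contra hn
    exact sau_two hX hc h hS hT fun y hy hy' => by
      have := ht y hy hy'
      have : ¬ M.cyc (insert y U) := fun m => hn ⟨y, hy', m⟩
      tauto
  obtain ⟨s, s1, s2⟩ := k1
  obtain ⟨t, t1, t2⟩ := k2
  obtain ⟨u, u1, u2⟩ := k3
  exact ⟨s, t, u, s1, t1, u1, s2, t2, u2⟩

theorem sau_par {C : Finset ℕ} {a b c d : ℕ} (hC : M.cyc C) (hD : M.dual.cyc {a, b, c, d})
    (hn : [a, b, c, d].Nodup) : (a ∈ C ↔ b ∈ C) ↔ (c ∈ C ↔ d ∈ C) := by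
  have h := even_inter hC hD
  simp only [List.nodup_cons, List.mem_cons, List.not_mem_nil] at hn
  rw [inter_comm, ← filter_mem_eq_inter, card_filter, sum_insert (by simp; grind),
    sum_insert (by simp; grind), sum_insert (by simp; grind), sum_singleton] at h
  by_cases ha : a ∈ C <;> by_cases hb : b ∈ C <;> by_cases hc : c ∈ C <;> by_cases hd : d ∈ C <;>
    simp only [ha, hb, hc, hd, if_true, if_false] at h ⊢ <;> first | decide | exact absurd h (by decide)

theorem sau_step {C Y Z : Finset ℕ} {e : ℕ} (hC : M.cyc C) (he : e ∈ C) (h : C ⊆ insert e Y)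
    (hZ : Z ⊆ insert e Y) : M.r Z ≤ M.r Y :=
  (M.r_mono hZ).trans (r_insert_of_cyc hC he h).le

theorem sau_pair {X : Finset ℕ} {p q r s : ℕ} (hX : M.cyc X) (hs : s ∈ X)
    (h : X ⊆ insert s (insert p {q, r})) (hc : M.cyc {q, r}) : M.r X ≤ 2 := by
  have a1 := sau_step hX hs h h
  have a2 := M.r_insert_le p {q, r}
  have a3 := r_pair_le hc
  omega

theorem sau_quad {A B Q Z : Finset ℕ} {p q : ℕ} (hA : M.cyc A) (hB : M.cyc B) (hQ : M.cyc Q)
    (hn : Q.Nonempty) (h4 : Q.card ≤ 4) (hp : p ∈ A) (hq : q ∈ B) (h1 : A ⊆ insert p Q)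
    (h2 : B ⊆ insert q Q) (hZ : Z ⊆ insert q (insert p Q)) : M.r Z ≤ 3 := by
  have a1 := sau_step hB hq (h2.trans (insert_subset_insert _ (subset_insert p Q))) hZ
  have a2 := sau_step hA hp h1 Subset.rfl
  have a3 := r_lt_of_cyc hQ hn
  omega

theorem Gad4.minor (h : M.Gad4) (hc : M.Conn3) (h6 : 6 ≤ M.E.card) : M.HasMinor F7 := by
  obtain ⟨a, b, c, d, hn, h1, h2, h3⟩ := h
  have hn' := hn
  simp only [List.nodup_cons, List.mem_cons, List.not_mem_nil] at hn'
  have c4 : ({a, b, c, d} : Finset ℕ).card = 4 := by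
    rw [card_insert_of_notMem (by simp; grind), card_insert_of_notMem (by simp; grind),
      card_pair (by grind)]
  obtain ⟨P, k, p1, p2, p3⟩ := rooted (M.sub _ h1) h3 (hc.two_le (M.sub _ h1) (by omega) (by omega))
  have q1 := k.cyc _ Subset.rfl h1
  have q2 := k.coc _ Subset.rfl h2
  have r1 := lam_eq k.sub
  have r2 := r_lt_of_cyc q2 (insert_nonempty _ _)
  obtain ⟨s, t, u, s1, t1, u1, s2, t2, u2⟩ := sau_three (S := {a, b}) (T := {a, c}) (U := {a, d})
    k.sub p1 p2 (by intro x; simp; grind) (by intro x; simp; grind) (by intro x; simp; grind)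
    fun y hy hy' => by
      have key : ∀ C, P.cyc C → y ∈ C → C ⊆ insert y {a, b, c, d} → a ∈ C → P.cyc {y} ∨
          P.cyc (insert y {a, b}) ∨ P.cyc (insert y {a, c}) ∨ P.cyc (insert y {a, d}) := by
        intro C c1 c2 c3 c4
        have c5 := sau_par c1 q2 hn
        have c6 := P.sd _ _ c1 q1
        simp only [subset_iff, mem_insert, mem_singleton] at c3 hy'
        by_cases hb : b ∈ C <;> by_cases hc : c ∈ C
        · exact Or.inl (sau_eq c6 fun x => by simp [mem_symmDiff]; grind)
        · exact Or.inr (Or.inl (sau_eq c1 fun x => by simp; grind))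
        · exact Or.inr (Or.inr (Or.inl (sau_eq c1 fun x => by simp; grind)))
        · exact Or.inr (Or.inr (Or.inr (sau_eq c1 fun x => by simp; grind)))
      obtain ⟨C, c1, c2, c3⟩ := exists_cyc_of_cl (p3 y hy) hy'
      by_cases ha : a ∈ C
      · exact key C c1 c2 c3 ha
      · exact key _ (P.sd _ _ c1 q1) (mem_symmDiff.2 (Or.inl ⟨c2, hy'⟩))
          (symmDiff_sub c3 (subset_insert _ _)) (by simp [mem_symmDiff, ha])
  simp only [mem_insert, mem_singleton] at s1 t1 u1
  have st : s ≠ t := fun e => by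
    have := sau_pair (p := a) (q := b) (r := c) (s := d) q1 (by simp) (by intro x; simp; grind)
      (sau_eq (P.sd _ _ s2 t2) fun x => by simp [mem_symmDiff]; grind)
    omega
  have su : s ≠ u := fun e => by
    have := sau_pair (p := a) (q := b) (r := d) (s := c) q1 (by simp) (by intro x; simp; grind)
      (sau_eq (P.sd _ _ s2 u2) fun x => by simp [mem_symmDiff]; grind)
    omega
  have tu : t ≠ u := fun e => by
    have := sau_pair (p := a) (q := c) (r := d) (s := b) q1 (by simp) (by intro x; simp; grind)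
      (sau_eq (P.sd _ _ t2 u2) fun x => by simp [mem_symmDiff]; grind)
    omega
  refine k.mn.trans (hasMinor_of_list (xs := [s, t, u, a, b, c, d]) (cs := [120, 25, 42, 76])
    (by decide) (by simp; grind) rfl (fun x hx => ?_) (by decide) (by decide) (fun m hm => ?_) ?_)
  · have e1 := P.sub _ s2 (mem_insert_self _ _)
    have e2 := P.sub _ t2 (mem_insert_self _ _)
    have e3 := P.sub _ u2 (mem_insert_self _ _)
    have e4 := k.sub
    simp only [subset_iff, mem_insert, mem_singleton] at e4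
    simp only [List.mem_cons, List.not_mem_nil] at hx
    grind
  · simp only [List.mem_cons, List.not_mem_nil, or_false] at hm
    rcases hm with rfl | rfl | rfl | rfl
    · simpa [msel] using q1
    · simpa [msel] using s2
    · simpa [msel] using t2
    · simpa [msel] using u2
  · refine le_trans (b := P.r {a, b, c, d}) ?_ (P.r_mono (by intro x; simp; grind))
    rw [show (elim [1, 2, 3, 4, 5, 6, 7]).length = 3 by decide]
    omega

theorem Gad6.minor (h : M.Gad6) (hc : M.Conn3) (h8 : 8 ≤ M.E.card) : M.HasMinor K33.dual := by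
  obtain ⟨a1, a2, a3, b1, b2, b3, ⟨hn, h1, h2, h3, h4⟩, h5⟩ := h
  simp only [List.nodup_cons, List.mem_cons, List.not_mem_nil] at hn
  have c6 : ({a1, a2, a3, b1, b2, b3} : Finset ℕ).card = 6 := by
    rw [card_insert_of_notMem (by simp; grind), card_insert_of_notMem (by simp; grind),
      card_insert_of_notMem (by simp; grind), card_insert_of_notMem (by simp; grind),
      card_pair (by grind)]
  have hX : {a1, a2, a3, b1, b2, b3} ⊆ M.E := by
    have e1 := M.sub _ h1
    have e2 := M.sub _ h2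
    simp only [subset_iff, mem_insert, mem_singleton] at e1 e2 ⊢
    grind
  obtain ⟨P, k, p1, p2, p3⟩ := rooted hX h5 (hc.two_le hX (by omega) (by omega))
  have q1 := k.cyc _ (by intro x; simp; grind) h1
  have q2 := k.cyc _ (by intro x; simp; grind) h2
  have q3 := k.coc _ (by intro x; simp; grind) h3
  have q4 := k.coc _ (by intro x; simp; grind) h4
  have r1 := lam_eq k.sub
  have r2 := r_lt_of_cyc q3 (insert_nonempty _ _)
  have r3 := P.dual.r_insert_le a3 {a1, b1, a2, b2}
  have r4 := sau_step (e := b3) (Y := insert a3 {a1, b1, a2, b2}) (Z := {a1, a2, a3, b1, b2, b3})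
    q4 (by simp) (by intro x; simp; grind) (by intro x; simp; grind)
  have r5 : ({a1, b1, a2, b2} : Finset ℕ).card ≤ 4 := card_le_four
  obtain ⟨s, t, u, s1, t1, u1, s2, t2, u2⟩ := sau_three (S := {a1, b1}) (T := {a2, b2})
    (U := {a3, b3}) k.sub p1 p2 (by intro x; simp; grind) (by intro x; simp; grind)
    (by intro x; simp; grind) fun y hy hy' => by
      have key : ∀ C, P.cyc C → y ∈ C → C ⊆ insert y {a1, a2, a3, b1, b2, b3} →
          (a1 ∈ C ↔ b1 ∈ C) → P.cyc {y} ∨ P.cyc (insert y {a1, b1}) ∨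
          P.cyc (insert y {a2, b2}) ∨ P.cyc (insert y {a3, b3}) := by
        intro C c1 c2 c3 c4
        have c5 := (sau_par c1 q3 (by simp; grind)).1 c4
        have c6 := (sau_par c1 q4 (by simp; grind)).1 c4
        have c7 := P.sd _ _ c1 (P.sd _ _ q1 q2)
        simp only [subset_iff, mem_insert, mem_singleton] at c3 hy'
        by_cases e1 : a1 ∈ C <;> by_cases e2 : a2 ∈ C <;> by_cases e3 : a3 ∈ C
        · exact Or.inl (sau_eq c7 fun x => by simp [mem_symmDiff]; grind)
        · exact Or.inr (Or.inr (Or.inr (sau_eq c7 fun x => by simp [mem_symmDiff]; grind)))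
        · exact Or.inr (Or.inr (Or.inl (sau_eq c7 fun x => by simp [mem_symmDiff]; grind)))
        · exact Or.inr (Or.inl (sau_eq c1 fun x => by simp; grind))
        · exact Or.inr (Or.inl (sau_eq c7 fun x => by simp [mem_symmDiff]; grind))
        · exact Or.inr (Or.inr (Or.inl (sau_eq c1 fun x => by simp; grind)))
        · exact Or.inr (Or.inr (Or.inr (sau_eq c1 fun x => by simp; grind)))
        · exact Or.inl (sau_eq c1 fun x => by simp; grind)
      obtain ⟨C, c1, c2, c3⟩ := exists_cyc_of_cl (p3 y hy) hy'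
      by_cases ha : a1 ∈ C ↔ b1 ∈ C
      · exact key C c1 c2 c3 ha
      · refine key _ (P.sd _ _ c1 q1) (mem_symmDiff.2 (Or.inl ⟨c2, ?_⟩))
          (symmDiff_sub c3 (by intro x; simp; grind)) (by simp [mem_symmDiff]; grind)
        simp only [mem_insert, mem_singleton] at hy' ⊢
        grind
  simp only [mem_insert, mem_singleton] at s1 t1 u1
  have st : s ≠ t := fun e => by
    have := sau_quad (Q := {a1, b1, a2, b2}) (Z := {a1, a2, a3, b1, b2, b3}) (p := a3) (q := b3)
      q1 q2 (sau_eq (P.sd _ _ s2 t2) fun x => by simp [mem_symmDiff]; grind) (insert_nonempty _ _)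
      card_le_four (by simp) (by simp) (by intro x; simp; grind) (by intro x; simp; grind)
      (by intro x; simp; grind)
    omega
  have su : s ≠ u := fun e => by
    have := sau_quad (Q := {a1, b1, a3, b3}) (Z := {a1, a2, a3, b1, b2, b3}) (p := a2) (q := b2)
      q1 q2 (sau_eq (P.sd _ _ s2 u2) fun x => by simp [mem_symmDiff]; grind) (insert_nonempty _ _)
      card_le_four (by simp) (by simp) (by intro x; simp; grind) (by intro x; simp; grind)
      (by intro x; simp; grind)
    omega
  have tu : t ≠ u := fun e => by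
    have := sau_quad (Q := {a2, b2, a3, b3}) (Z := {a1, a2, a3, b1, b2, b3}) (p := a1) (q := b1)
      q1 q2 (sau_eq (P.sd _ _ t2 u2) fun x => by simp [mem_symmDiff]; grind) (insert_nonempty _ _)
      card_le_four (by simp) (by simp) (by intro x; simp; grind) (by intro x; simp; grind)
      (by intro x; simp; grind)
    omega
  rw [K33_dual]
  refine k.mn.trans (hasMinor_of_list (xs := [a1, a2, a3, b1, b2, b3, s, t, u])
    (cs := [7, 56, 73, 146, 292]) (by decide) (by simp; grind) rfl (fun x hx => ?_) (by decide)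
    (by decide) (fun m hm => ?_) ?_)
  · have e1 := P.sub _ s2 (mem_insert_self _ _)
    have e2 := P.sub _ t2 (mem_insert_self _ _)
    have e3 := P.sub _ u2 (mem_insert_self _ _)
    have e4 := k.sub
    simp only [subset_iff, mem_insert, mem_singleton] at e4
    simp only [List.mem_cons, List.not_mem_nil] at hx
    grind
  · simp only [List.mem_cons, List.not_mem_nil, or_false] at hm
    rcases hm with rfl | rfl | rfl | rfl | rfl
    · simpa [msel] using q1
    · simpa [msel] using q2
    · exact sau_eq s2 fun x => by simp [msel]; grind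
    · exact sau_eq t2 fun x => by simp [msel]; grind
    · exact sau_eq u2 fun x => by simp [msel]; grind
  · refine le_trans (b := P.r {a1, a2, a3, b1, b2, b3}) ?_ (P.r_mono (by intro x; simp; grind))
    rw [show (elim [1, 2, 3, 4, 8, 12, 5, 10, 15]).length = 4 by decide]
    omega

end BM

end Pool.Agent.P.MP_3f5ce9_co
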