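import Pool.Agent.P.MP_3f5ce9_co.W.ScB

/-!
The chain theorem for three-connected binary matroids.
-/

open Finset

namespace Pool.Agent.P.MP_3f5ce9_co

namespace BM

variable {M N : BM} {C C' P Q X Y Z : Finset ℕ} {t i v w x y : ℕ} {f : ℕ → ℕ}

/-- a two element extension in which `d` is parallel to `a` and `c` is in series with `b` -/
structure ScFan (M N : BM) (f : ℕ → ℕ) (C : Finset ℕ) (a b c d : ℕ) : Prop where
  ha : a ∈ N.E.image f
  hb : b ∈ N.E.image f
  hc : c ∈ C
  hd : d ∈ M.E ∧ d ∉ N.E.image f ∧ d ∉ C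
  ne : a ≠ b
  la : scMu M C {d, a} ((N.E.image f).erase a) ≤ C.card + M.r M.E + 1
  lb : scMu M C {c, b} ((N.E.image f).erase b) ≤ C.card + M.r M.E + 1
  nc : C.card + M.r M.E + 1 ≤ scMu M C {c} (N.E.image f)
  nd : C.card + M.r M.E + 1 ≤ scMu M C {d} (N.E.image f)
  c3 : (M.scK C (insert c (insert d (N.E.image f)))).Conn3

theorem ScSt.fan (h : M.ScSt N f C) (h3 : N.Conn3) (h4 : 4 ≤ N.E.card) (hx : x ∈ N.E.image f)
    (hy : y ∈ N.E.image f) (hv : v ∈ M.E) (hvY : v ∉ N.E.image f) (hw : w ∈ M.E)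
    (hwY : w ∉ N.E.image f) (hwv : w ≠ v)
    (l0 : scMu M C ((N.E.image f).erase x) {v, x} ≤ C.card + M.r M.E + 1)
    (n0 : C.card + M.r M.E + 1 ≤ scMu M C {v} (N.E.image f))
    (b1 : ¬ scMu M C ((N.E.image f).erase x) {w, v, x} ≤ C.card + M.r M.E + 1)
    (b2 : ¬ scMu M C (insert w ((N.E.image f).erase x)) {v, x} ≤ C.card + M.r M.E + 1)
    (l2 : scMu M C {w, y} ((N.E.image f).erase y) ≤ C.card + M.r M.E + 1) :
    ∃ a b c d, M.ScFan N f C a b c d := by
  have n1 := h.nl l0 b1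
  rw [scMu_comm] at l0 b1 b2
  have hxy : x ≠ y := fun e => b1 (by
    subst e
    refine (scMu_mono (fun z hz => ?_) Subset.rfl).trans (sc_union (A := {x})
      (scMu_comm M C _ _ ▸ h.base h3 h4 hx (mem_singleton_self x)) l2 l0 (subset_insert _ _)
      (subset_insert _ _) Subset.rfl)
    simp only [mem_union, mem_insert, mem_singleton] at hz ⊢
    omega)
  have g1 : C.card + M.r M.E + 2 ≤ scMu M C {w, v} (N.E.image f) := by
    have : scMu M C {w, v, x} ((N.E.image f).erase x) + scMu M C {v} (N.E.image f) ≤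
        scMu M C {w, v} (N.E.image f) + scMu M C {v, x} ((N.E.image f).erase x) :=
      scMu_sub (fun z hz => by simp only [mem_union, mem_insert, mem_singleton] at hz ⊢; omega)
        (subset_inter (erase_subset _ _) Subset.rfl) (subset_inter (by simp) (by simp))
        subset_union_left
    omega
  have g2 : C.card + M.r M.E + 2 ≤ scMu M C {w, y} (insert v ((N.E.image f).erase y)) := by
    have : scMu M C ((N.E.image f).erase y) {y} +
        scMu M C {v, x} (insert w ((N.E.image f).erase x)) ≤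
        scMu M C {v, x} ((N.E.image f).erase x) +
          scMu M C (insert v ((N.E.image f).erase y)) {w, y} :=
      scMu_sub ((subset_insert _ _).trans subset_union_right)
        (singleton_subset_iff.2 (mem_inter.2 ⟨mem_erase.2 ⟨hxy.symm, hy⟩, by simp⟩))
        (subset_inter Subset.rfl (insert_subset_insert _ (singleton_subset_iff.2
          (mem_erase.2 ⟨hxy, hx⟩))))
        (insert_subset (mem_union_right _ (mem_insert_self _ _)) subset_union_left)
    have := h.base h3 h4 hy (mem_singleton_self y)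
    rw [scMu_comm]
    omega
  have c3 : (M.scK C (insert w (insert v (N.E.image f)))).Conn3 := by
    refine h.conn3 h3 h4 ((subset_insert _ _).trans (subset_insert _ _))
      (insert_subset hw (insert_subset hv h.sub)) (fun u h1 h2 => ?_) fun P h1 h2 h5 => ?_
    · rcases mem_insert.1 h1 with rfl | h1
      · exact n1
      · exact (mem_insert.1 h1).resolve_right h2 ▸ n0
    have a1 : ∀ u ∈ P, u = w ∨ u = v ∨ u ∈ P ∩ N.E.image f := fun u hu => by
      simpa [hu] using h1 hu
    rcases (P ∩ N.E.image f).eq_empty_or_nonempty with e | ⟨z, hz⟩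
    · refine g1.trans (scMu_mono (eq_of_subset_of_card_le (fun u hu => by simpa [e] using a1 u hu)
        (card_le_two.trans h5)).ge fun u hu => mem_sdiff.2
          ⟨mem_insert_of_mem (mem_insert_of_mem hu), fun a => ?_⟩)
      exact notMem_empty u (e ▸ mem_inter.2 ⟨a, hu⟩)
    have a2 : (N.E.image f).erase z ⊆ insert w (insert v (N.E.image f)) \ P := fun u hu =>
      mem_sdiff.2 ⟨mem_insert_of_mem (mem_insert_of_mem (mem_of_mem_erase hu)), fun a =>
        (mem_erase.1 hu).1 (card_le_one.1 h2 u (mem_inter.2 ⟨a, mem_of_mem_erase hu⟩) z hz)⟩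
    obtain ⟨z1, z2⟩ := mem_inter.1 hz
    have a3 : ∀ u ∈ P, ({u, z} : Finset ℕ) ⊆ P := fun u hu =>
      insert_subset hu (singleton_subset_iff.2 z1)
    by_cases hvP : v ∈ P
    · by_cases e : x = z
      · subst e
        by_cases hwP : w ∈ P
        · exact (not_le.1 b1).trans_le (scMu_mono (insert_subset hwP (a3 v hvP)) a2)
        · exact (not_le.1 b2).trans_le (scMu_mono (a3 v hvP)
            (insert_subset (mem_sdiff.2 ⟨mem_insert_self _ _, hwP⟩) a2))
      · exact (h.uniq h3 h4 hx z2 e l0 n0).trans (scMu_mono (a3 v hvP) a2)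
    have hwP : w ∈ P := by_contra fun hwP => by
      have : P ⊆ P ∩ N.E.image f := fun u hu =>
        ((a1 u hu).resolve_left fun e => hwP (e ▸ hu)).resolve_left fun e => hvP (e ▸ hu)
      have := card_le_card this
      omega
    by_cases e : y = z
    · subst e
      exact g2.trans (scMu_mono (a3 w hwP) (insert_subset
        (mem_sdiff.2 ⟨mem_insert_of_mem (mem_insert_self _ _), hvP⟩) a2))
    · exact (h.uniq h3 h4 hy z2 e l2 n1).trans (scMu_mono (a3 w hwP) a2)
  have x1 := h.one h3 h4 hx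
  have xC : x ∉ C := disjoint_right.1 (h.dis Subset.rfl) hx
  have dA : Disjoint C ((N.E.image f).erase x) := h.dis (erase_subset _ _)
  by_cases hvC : v ∈ C <;> by_cases hwC : w ∈ C
  · refine absurd ?_ b2
    have a1 : Disjoint ((C.erase w).erase v) {v, x} := disjoint_insert_right.2 ⟨notMem_erase _ _,
      disjoint_singleton_right.2 fun a => xC (mem_of_mem_erase (mem_of_mem_erase a))⟩
    have a2 := h.lowC h3 h4 hx hvC l0
    have a3 : v ∈ C.erase w := mem_erase.2 ⟨hwv.symm, hvC⟩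
    have a4 := M.r_le_card ({v, x} ∪ (C.erase w).erase v)
    have a5 := card_union_le ({v, x} : Finset ℕ) ((C.erase w).erase v)
    have a6 := card_erase_add_one a3
    have a7 := card_erase_add_one hwC
    have a8 : ({v, x} : Finset ℕ).card ≤ 2 := card_le_two
    conv_lhs => rw [← insert_erase hwC, ← insert_erase a3]
    rw [scMu_comm, scMu_ins (by rw [insert_erase a3]; exact notMem_erase _ _) (mem_insert_self _ _)
      (by simpa using ⟨hwv, fun e => hwY (e ▸ hx)⟩), scMu_comm, scMu_ins (notMem_erase _ _)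
      (mem_insert_self _ _) (fun a => (mem_insert.1 a).elim hwv.symm
        fun b => hvY (mem_of_mem_erase b)), scMu_dis a1 (disjoint_insert_right.2
          ⟨fun a => notMem_erase _ _ (mem_of_mem_erase a),
            dA.mono_left ((erase_subset _ _).trans (erase_subset _ _))⟩),
      insert_union w, ← union_insert w, erase_right_comm (a := w),
      insert_erase (mem_erase.2 ⟨hwv, hwC⟩)]
    rw [erase_right_comm] at a4 a5 a6
    omega
  · exact ⟨y, x, v, w, hy, hx, hvC, ⟨hw, hwY, hwC⟩, hxy.symm, l2, l0, n0, n1,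
      insert_comm w v _ ▸ c3⟩
  · exact ⟨x, y, w, v, hx, hy, hwC, ⟨hv, hvY, hvC⟩, hxy, l0, l2, n1, n0, c3⟩
  · refine absurd ?_ b2
    have a1 := h.lowD h3 h4 hx hvC l0
    have a2 := M.r_le_rE (insert w ((N.E.image f).erase x) ∪ C)
    rw [scMu_dis (disjoint_insert_right.2 ⟨hvC, disjoint_singleton_right.2 xC⟩)
      (disjoint_insert_right.2 ⟨hwC, dA⟩), insert_union, ← insert_eq]
    omega

theorem sc_step (hM : M.Conn3) (h3 : N.Conn3) (h4 : 4 ≤ N.E.card) (h : M.HasMinor N)
    (hlt : N.E.card < M.E.card) (ha : M.ScBad N) :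
    ∃ f C a b c d, M.ScSt N f C ∧ M.ScFan N f C a b c d := by
  by_contra hn
  obtain ⟨f, C, h⟩ := h.sc_st
  have hc := h.card
  have c1 := card_sdiff_of_subset h.sub
  obtain ⟨v, hv, n0⟩ : ∃ v ∈ M.E \ N.E.image f,
      C.card + M.r M.E + 1 ≤ scMu M C {v} (N.E.image f) := by
    by_contra hc
    have a1 := (sc_part h.mn.sub h.sub).trans ((union_empty (M.E \ N.E.image f)) ▸
      sc_big h.base0.le Subset.rfl h.base0.ge (M.E \ N.E.image f) fun v hv =>
        Nat.le_of_lt_succ (not_le.1 fun a => hc ⟨v, hv, a⟩))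
    have a2 := hM _ (sdiff_subset (t := N.E.image f))
    rw [Finset.sdiff_sdiff_eq_self h.sub] at a2
    omega
  obtain ⟨v1, v2⟩ := mem_sdiff.1 hv
  obtain ⟨x, hx, l0⟩ := ha f C h v v1 v2
  rw [scMu_comm] at l0
  obtain ⟨Z, z1, z2, z3, z4⟩ := sc_induced (h.base h3 h4 hx (by simp)) l0
    ((erase_subset _ _).trans h.sub) (insert_subset v1 (singleton_subset_iff.2 (h.sub hx)))
    h.mn.sub (disjoint_insert_right.2 ⟨fun a => v2 (mem_of_mem_erase a),
      disjoint_singleton_right.2 (notMem_erase _ _)⟩)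
    fun k => sc_main h3 h4 ha (fun f C h x hx v hv hvY w hw hwY hwv l0 n0 b1 => by_contra fun b2 =>
      let ⟨y, hy, l2⟩ := ha f C h w hw hwY
      let ⟨a, b, c, d, k⟩ := h.fan h3 h4 hx hy hv hvY hw hwY hwv l0 n0 b1 b2 l2
      hn ⟨f, C, a, b, c, d, h, k⟩) k f C h x hx v v1 v2 l0 n0
  have a1 := hM _ (sdiff_subset (t := Z))
  have a2 := card_le_card z2
  have a3 := card_le_card z3
  rw [Finset.sdiff_sdiff_eq_self z1] at a1
  rw [card_erase_of_mem hx] at a2
  rw [card_pair fun e : v = x => v2 (e ▸ hx)] at a3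
  omega

theorem sc_tri (hs : M.Simple) (hX : X ⊆ M.E) (hc : X.card = 3) (hr : M.r X ≤ 2) : M.cyc X :=
  cyc_of_circuit hX (fun h => by have := h.r_eq; omega) fun e he =>
    hs _ ((erase_subset _ _).trans hX) (by rw [card_erase_of_mem he, hc])

theorem sc_triad (hs : M.dual.Simple) (hX : X ⊆ M.E) (hc : X.card = 3)
    (hr : M.r (M.E \ X) < M.r M.E) : M.dual.cyc X :=
  sc_tri hs hX hc (by have := r_dual hX; omega)

theorem sc_iso {K : BM} (h : K.MinorAt N f C) (h3 : N.Conn3) (hc : K.E.card ≤ N.E.card) :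
    K.Conn3 ∧ K.HasMinor N :=
  ⟨(HasMinor.iso ⟨f, C, h⟩ hc).symm.conn3 h3, f, C, h⟩

theorem sc_pair (hs : M.Simple) {a b c d : ℕ} (h1 : M.cyc {a, c, d}) (h2 : M.cyc {b, c, d})
    (hc : a ≠ c) (hd : a ≠ d) : a = b := by_contra fun hn => by
  have a1 := M.sd _ _ h1 h2
  have a2 : symmDiff ({a, c, d} : Finset ℕ) {b, c, d} ⊆ {a, b} := fun x hx => by
    simp only [mem_symmDiff, mem_insert, mem_singleton] at hx ⊢
    tauto
  have a3 := (hs {a, b} (insert_subset (M.sub _ h1 (by simp))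
    (singleton_subset_iff.2 (M.sub _ h2 (by simp)))) card_le_two).2 _ a1 a2
  exact notMem_empty a (a3 ▸ mem_symmDiff.2 (Or.inl ⟨by simp, by simp [hn, hc, hd]⟩))

theorem sc_rot (a b c : ℕ) : ({a, b, c} : Finset ℕ) = {b, c, a} := by
  rw [insert_comm, pair_comm]

theorem chain (h3 : M.Conn3) (hN : N.Conn3) (h4 : 4 ≤ N.E.card) (h : M.HasMinor N)
    (hlt : N.E.card < M.E.card) :
    (∃ e ∈ M.E, (M.del {e}).Conn3 ∧ (M.del {e}).HasMinor N) ∨
    (∃ e ∈ M.E, (M.con {e}).Conn3 ∧ (M.con {e}).HasMinor N) ∨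
    ∃ a b c d z z', [a, b, c, d, z].Nodup ∧ [a, b, c, d, z'].Nodup ∧ M.cyc {a, c, d} ∧
      M.cyc {b, d, z} ∧ M.dual.cyc {b, c, d} ∧ M.dual.cyc {a, c, z'} ∧
      ((M.del {d}).con {c}).Conn3 ∧ ((M.del {d}).con {c}).HasMinor N := by
  obtain ⟨n, hn⟩ : ∃ n, M.E.card - N.E.card = n := ⟨_, rfl⟩
  induction n using Nat.strong_induction_on generalizing N with
  | _ n ih =>
  have key : ∀ f C X, M.ScSt N f C → N.E.image f ⊂ X → X ⊆ M.E → (M.scK C X).Conn3 →
      X = M.E ∨ _ := fun f C X h h1 h2 h5 => (eq_or_ssubset_of_subset h2).imp_right fun h6 => by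
    have a1 := card_lt_card h1
    have a2 := card_lt_card h6
    have a3 := h.minor h1.subset
    rw [h.card, ← scK_E (C := C) h2] at a1
    rw [← scK_E (C := C) h2] at a2
    exact (ih _ (by omega) h5 (by omega) (M.scK_minor C X) a2 rfl).imp
      (fun ⟨e, e1, e2, e3⟩ => Exists.intro e (And.intro e1 (And.intro e2 (e3.trans a3))))
      (Or.imp (fun ⟨e, e1, e2, e3⟩ => Exists.intro e (And.intro e1 (And.intro e2 (e3.trans a3))))
        fun ⟨a, b, c, d, z, z', p1, p2, p3, p4, p5, p6, p7, p8⟩ =>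
          (⟨a, b, c, d, z, z', p1, p2, p3, p4, p5, p6, p7, p8.trans a3⟩ :
            ∃ a b c d z z', [a, b, c, d, z].Nodup ∧ [a, b, c, d, z'].Nodup ∧ M.cyc {a, c, d} ∧
              M.cyc {b, d, z} ∧ M.dual.cyc {b, c, d} ∧ M.dual.cyc {a, c, z'} ∧
              ((M.del {d}).con {c}).Conn3 ∧ ((M.del {d}).con {c}).HasMinor N))
  by_cases ha : M.ScBad N
  · obtain ⟨f, C, a, b, c, d, h, k⟩ := sc_step h3 hN h4 h hlt ha
    have cY : c ∉ N.E.image f := disjoint_left.1 (h.dis Subset.rfl) k.hc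
    have cE := h.mn.sub k.hc
    have cd : c ≠ d := fun e => k.hd.2.2 (e ▸ k.hc)
    refine (key f C _ h ((ssubset_insert k.hd.2.1).trans_subset (subset_insert _ _))
      (insert_subset cE (insert_subset k.hd.1 h.sub)) k.c3).elim (fun hE => ?_) id
    have hC : C = {c} := eq_singleton_iff_unique_mem.2 ⟨k.hc, fun u hu =>
      (mem_insert.1 (hE ▸ h.mn.sub hu)).resolve_right fun a => (mem_insert.1 a).elim
        (fun e : u = d => k.hd.2.2 (e ▸ hu)) (disjoint_left.1 (h.dis Subset.rfl) hu)⟩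
    subst hC
    have hs := h3.simple (by omega)
    have hs' := h3.dual.simple (show 4 ≤ M.E.card by omega)
    have ac : a ≠ c := fun e => cY (e ▸ k.ha)
    have ad : a ≠ d := fun e => k.hd.2.1 (e ▸ k.ha)
    have bc : b ≠ c := fun e => cY (e ▸ k.hb)
    have bd : b ≠ d := fun e => k.hd.2.1 (e ▸ k.hb)
    have tri : ∀ {f u v w}, M.ScSt N f {w} → u ∈ N.E.image f → v ∈ M.E → v ∉ N.E.image f → v ≠ w →
        scMu M {w} {v, u} ((N.E.image f).erase u) ≤ ({w} : Finset ℕ).card + M.r M.E + 1 →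
        M.cyc {v, u, w} := fun {f u v w} h h1 h2 h5 h6 h7 =>
      sc_tri hs (insert_subset h2 (insert_subset (h.sub h1) h.mn.sub))
        (card_eq_three.2 ⟨v, u, w, fun e => h5 (e ▸ h1), h6, fun e =>
          disjoint_left.1 (h.dis Subset.rfl) (mem_singleton_self w) (e ▸ h1), rfl⟩)
        (h.lowD hN h4 h1 (notMem_singleton.2 h6) h7)
    have trd : ∀ {f u v}, M.ScSt N f {c} → u ∈ N.E.image f → v ∉ N.E.image f → v ≠ c →
        insert c (insert v (N.E.image f)) = M.E →
        scMu M {c} {c, u} ((N.E.image f).erase u) ≤ ({c} : Finset ℕ).card + M.r M.E + 1 →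
        M.dual.cyc {v, c, u} := fun {f u v} h h1 h5 h6 h8 h7 =>
      sc_triad hs' (insert_subset (h8 ▸ mem_insert_of_mem (mem_insert_self _ _))
        (insert_subset cE (singleton_subset_iff.2 (h.sub h1))))
        (card_eq_three.2 ⟨v, c, u, h6, fun e => h5 (e ▸ h1), fun e =>
          disjoint_left.1 (h.dis Subset.rfl) (mem_singleton_self c) (e ▸ h1), rfl⟩)
        ((M.r_mono fun x hx => by
          rw [← h8] at hx
          simp only [mem_sdiff, mem_insert, mem_singleton, mem_union, mem_erase] at hx ⊢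
          clear * - hx
          tauto).trans_lt (h.lowC hN h4 h1 (mem_singleton_self c) h7))
    have t1 := tri h k.ha k.hd.1 k.hd.2.1 cd.symm k.la
    have t2 := trd h k.hb k.hd.2.1 cd.symm hE k.lb
    obtain ⟨f1, C1, h1, e1, e2, e3, -⟩ := h.swap hN h4 k.hb cE cY k.lb k.nc
    obtain ⟨u, rfl⟩ := card_eq_one.1 e3.symm
    have ub : u = b := by
      have a1 : u ∉ ({c} : Finset ℕ) \ {c, b} := fun p =>
        (mem_sdiff.1 p).2 (mem_insert.2 (Or.inl (mem_singleton.1 (mem_sdiff.1 p).1)))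
      rw [e2, mem_sdiff, mem_insert, mem_singleton, mem_singleton, eq_self, true_and, not_not] at a1
      exact a1.resolve_left fun e => disjoint_left.1 (h1.dis Subset.rfl) (mem_singleton_self u)
        (e1 ▸ e ▸ mem_insert_self _ _)
    subst ub
    have d1 : d ∉ N.E.image f1 := e1 ▸ fun a =>
      (mem_insert.1 a).elim cd.symm fun b => k.hd.2.1 (mem_of_mem_erase b)
    obtain ⟨z, hz, l1⟩ := ha f1 _ h1 d k.hd.1 d1
    have t3 := tri h1 hz k.hd.1 d1 bd.symm l1
    obtain ⟨f2, C2, h2, e4, e5, e6, -⟩ := h.swap hN h4 k.ha k.hd.1 k.hd.2.1 k.la k.nd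
    obtain ⟨u', rfl⟩ := card_eq_one.1 e6.symm
    have uc : c = u' := by
      have a1 : c ∈ ({c} : Finset ℕ) \ {d, a} := by simp [cd, ac.symm]
      exact mem_singleton.1 (mem_sdiff.1 (e5 ▸ a1)).1
    subst uc
    have c2 : c ∉ N.E.image f2 := disjoint_left.1 (h2.dis Subset.rfl) (mem_singleton_self c)
    have a2 : a ∉ N.E.image f2 := e4 ▸ fun p => (mem_insert.1 p).elim ad (notMem_erase _ _)
    obtain ⟨z', hz', l2⟩ := ha f2 _ h2 c cE c2
    have t4 := trd h2 hz' a2 ac (by rw [e4, insert_comm a, insert_erase k.ha, hE]) l2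
    have zu : z ≠ u := fun e =>
      disjoint_left.1 (h1.dis Subset.rfl) (mem_singleton_self u) (e ▸ hz)
    have zd : z ≠ d := fun e => d1 (e ▸ hz)
    have s2 : ({d, c, u} : Finset ℕ) = {u, c, d} := by rw [sc_rot, pair_comm, sc_rot, sc_rot]
    rw [sc_rot] at t1
    rw [s2] at t2
    rw [sc_rot, sc_rot] at t3
    have zc : z ≠ c := fun e => by
      have := even_inter t3 t2
      rw [e, pair_comm d c, inter_self, card_eq_three.2 ⟨u, c, d, bc, bd, cd, rfl⟩] at this
      exact absurd this (by decide)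
    have za : z ≠ a := fun e => bc (sc_pair hs (e ▸ t3 : M.cyc {u, d, a})
      (sc_rot a c d ▸ t1) bd k.ne.symm)
    have za' : z' ≠ a := fun e => a2 (e ▸ hz')
    have zc' : z' ≠ c := fun e => c2 (e ▸ hz')
    have zd' : z' ≠ d := fun e => by
      have := even_inter t1 t4
      rw [e, inter_self, card_eq_three.2 ⟨a, c, d, ac, ad, cd, rfl⟩] at this
      exact absurd this (by decide)
    have zu' : z' ≠ u := fun e => ad (sc_pair hs' (e ▸ t4 : M.dual.cyc {a, c, u})
      (s2 ▸ t2) ac k.ne)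
    refine Or.inr (Or.inr ⟨a, u, c, d, z, z', ?_, ?_, t1, t3, t2, t4, ?_⟩)
    · simp [k.ne, ac, ad, bc, bd, cd, za.symm, zu.symm, zc.symm, zd.symm]
    · simp [k.ne, ac, ad, bc, bd, cd, za'.symm, zu'.symm, zc'.symm, zd'.symm]
    · refine sc_iso ((h.mn.del (disjoint_singleton_right.2 fun p => (mem_union.1 p).elim
        k.hd.2.1 k.hd.2.2)).con Subset.rfl) hN ?_
      rw [← h.card]
      refine card_le_card fun x hx => ?_
      rw [con_E, del_E, ← hE] at hx
      simp only [mem_sdiff, mem_insert, mem_singleton] at hx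
      clear * - hx
      tauto
  · simp only [ScBad, not_forall, not_exists, not_and] at ha
    obtain ⟨f, C, h, v, v1, v2, hg⟩ := ha
    refine (key f C _ h (ssubset_insert v2) (insert_subset v1 h.sub)
      (h.good hN h4 v1 hg)).elim (fun hE => ?_) id
    have a1 : (M.E \ {v}).card ≤ N.E.card := by
      rw [← h.card, ← hE]
      exact card_le_card fun x hx => by
        simp only [mem_sdiff, mem_insert, mem_singleton] at hx
        clear * - hx
        tauto
    by_cases hC : v ∈ C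
    · exact Or.inr (Or.inl ⟨v, v1, sc_iso (h.mn.con (singleton_subset_iff.2 hC)) hN a1⟩)
    · exact Or.inl ⟨v, v1, sc_iso (h.mn.del (disjoint_singleton_right.2 fun p =>
        (mem_union.1 p).elim v2 hC)) hN a1⟩

end BM

end Pool.Agent.P.MP_3f5ce9_co
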