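import Pool.Agent.P.MP_3f5ce9_co.W.SaD
import Pool.Agent.P.MP_3f5ce9_co.W.ScC

/-!
Removable elements.
-/

open Finset

namespace Pool.Agent.P.MP_3f5ce9_co

namespace BM

variable {N R : BM} {e x : ℕ}

theorem sf_ext (h : R.Conn3) (hN : N.NOK) (hm : R.HasMinor N) (he : e ∈ R.E) (hne : e ≠ x)
    (hk : ((R.del {e}).con {x}).COK N) : (R.con {x}).COK N := by
  have c1 := hm.card_le
  have c2 := hN.card
  rw [del_con _ (by simpa using hne)] at hk
  refine hk.ext (by simp [he, hne]) (fun a => ?_) fun a => ?_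
  · rcases (cyc_con_single.1 a).2 with a | a
    · exact (h.simple (by omega)).not_single _ a
    · exact (h.simple (by omega)).not_pair _ _ a
  · exact (h.cosimple (by omega)).not_single _ (cocyc_con_iff.1 a).1

theorem sf_step (h : R.Conn3) (hN : N.NOK) (hm : R.HasMinor N) (hc : N.E.card < R.E.card) :
    (∃ x ∈ R.E, (R.con {x}).COK N) ∨ ∃ x ∈ R.E, (R.del {x}).Conn3 ∧ (R.del {x}).HasMinor N := by
  have c2 := hN.card
  rcases chain h hN.conn (by omega) hm hc with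
    h1 | ⟨x, hx, h1, h2⟩ | ⟨a, b, c, d, z, z', n1, -, t1, -, -, -, h1, h2⟩
  · exact Or.inr h1
  · exact Or.inl ⟨x, hx, h1.cok hN h2⟩
  · refine Or.inl ⟨c, R.sub _ t1 (by simp), sf_ext h hN hm (R.sub _ t1 (by simp)) ?_ (h1.cok hN h2)⟩
    rintro rfl
    simp at n1

theorem m5 (h : R.Conn3) (hN : N.NOK) (hm : R.HasMinor N) (hc : N.E.card < R.E.card) :
    ∃ x ∈ R.E, (R.con {x}).COK N ∨ (R.del {x}).DOK N := by
  rcases sf_step h hN hm hc with ⟨x, hx, h1⟩ | ⟨x, hx, h1, h2⟩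
  · exact ⟨x, hx, Or.inl h1⟩
  · exact ⟨x, hx, Or.inr (h1.dok hN h2)⟩

theorem m5_con (h : R.Conn3) (hN : N.NOK) (he : e ∈ R.E) (hm : (R.con {e}).HasMinor N) :
    ∃ x ∈ R.E, (R.con {x}).COK N ∨ (R.del {x}).DOK N := by
  have c1 := hm.card_le
  have c2 := card_con_single he
  exact m5 h hN hm.of_con (by omega)

theorem sf_aux (hN : N.NOK) (n : ℕ) : ∀ R : BM, R.E.card ≤ n → R.Conn3 → R.HasMinor N →
    N.r N.E < R.r R.E → ∃ x ∈ R.E, (R.con {x}).COK N := by
  induction n with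
  | zero =>
    intro R hn _ hm hr
    have := hm.card_lt' hr
    omega
  | succ n ih =>
    intro R hn h hm hr
    have c1 := hm.card_lt' hr
    have c2 := hN.card
    rcases sf_step h hN hm c1 with h1 | ⟨e, he, h1, h2⟩
    · exact h1
    have c3 := card_del_single he
    have c4 := r_del_single ((h.cosimple (by omega)).not_single e)
    obtain ⟨x, hx, h3⟩ := ih _ (by omega) h1 h2 (by omega)
    rw [del_E, mem_sdiff, mem_singleton] at hx
    exact ⟨x, hx.1, sf_ext h hN hm he (Ne.symm hx.2) h3⟩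

theorem wcon (h : R.Conn3) (hN : N.NOK) (hm : R.HasMinor N) (hr : N.r N.E < R.r R.E) :
    ∃ x ∈ R.E, (R.con {x}).COK N := by
  exact sf_aux hN _ R le_rfl h hm hr

theorem wdel (h : R.Conn3) (hN : N.NOK) (hm : R.HasMinor N)
    (hr : N.dual.r N.E < R.dual.r R.E) : ∃ x ∈ R.E, (R.del {x}).DOK N := by
  obtain ⟨x, hx, h1⟩ := wcon h.dual hN.dual hm.dual hr
  exact ⟨x, hx, dok_iff.2 (by rwa [dual_del])⟩

end BM

end Pool.Agent.P.MP_3f5ce9_co
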