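import Pool.Agent.P.MP_3f5ce9_co.W.SaM
import Pool.Agent.P.MP_3f5ce9_co.W.SaF

/-!
Three triads through one element.
-/

open Finset

namespace Pool.Agent.P.MP_3f5ce9_co

namespace BM

variable {M N : BM} {e x1 x2 x3 y1 y2 y3 : ℕ}

theorem n7_cyc {C D : Finset ℕ} (h : M.cyc C) (e : C = D) : M.cyc D := e ▸ h

theorem X7.rot (h : M.X7 e x1 x2 x3 y1 y2 y3) : M.X7 e x2 x3 x1 y2 y3 y1 := by
  refine ⟨?_, h.t2, h.t3, h.t1, n7_cyc h.cx (by ext; simp; tauto), n7_cyc h.cy (by ext; simp; tauto),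
    fun p q h1 h2 => ?_⟩
  · have := h.nd
    simp only [List.nodup_cons, List.mem_cons, List.not_mem_nil, List.nodup_nil] at this ⊢
    grind
  · have := h.all p q h1 h2
    tauto

theorem X7.swap (h : M.X7 e x1 x2 x3 y1 y2 y3) : M.X7 e y1 y2 y3 x1 x2 x3 := by
  refine ⟨?_, n7_cyc h.t1 (by ext; simp; tauto), n7_cyc h.t2 (by ext; simp; tauto),
    n7_cyc h.t3 (by ext; simp; tauto), h.cy, h.cx, fun p q h1 h2 => ?_⟩
  · have := h.nd
    simp only [List.nodup_cons, List.mem_cons, List.not_mem_nil, List.nodup_nil] at this ⊢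
    grind
  · rw [pair_comm y1, pair_comm y2, pair_comm y3]
    exact h.all p q h1 h2

theorem X7.hex (h : M.X7 e x1 x2 x3 y1 y2 y3) : M.cyc {x1, x2, x3, y1, y2, y3} := by
  have := h.nd
  simp only [List.nodup_cons, List.mem_cons, List.not_mem_nil, List.nodup_nil] at this
  refine n7_cyc (M.sd _ _ h.cx h.cy) ?_
  ext
  simp only [mem_symmDiff, mem_insert, mem_singleton]
  grind

theorem X7.tri (h : M.X7 e x1 x2 x3 y1 y2 y3) :
    ((M.del {e}).con {x1, x2, x3}).cyc {y1, y2, y3} := by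
  have := h.nd
  simp only [List.nodup_cons, List.mem_cons, List.not_mem_nil, List.nodup_nil] at this
  refine n7_cyc (cyc_con_of (M := M.del {e}) ⟨h.hex, by simp; grind⟩ _) ?_
  ext
  simp only [mem_sdiff, mem_insert, mem_singleton]
  grind

theorem n7_con2 (Q : BM) (a b : ℕ) : Q.con {a, b} = (Q.con {a}).con {b} := by
  rw [con_con]; rfl

theorem n7_con3 (Q : BM) (a b c : ℕ) : Q.con {a, b, c} = (Q.con {a}).con {b, c} := by
  rw [con_con]; rfl

theorem n7_pair {Q : BM} {D : Finset ℕ} {a b : ℕ} (h : Q.dual.cyc {a, b}) (ha : a ∉ D) (hb : b ∉ D) :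
    (Q.con D).dual.cyc {a, b} := cocyc_con_iff.2 ⟨h, by simp [ha, hb]⟩

theorem n7_ext2 {Q : BM} (h : (Q.con {x2, x3}).DOK N) (s2 : Q.dual.cyc {x2, y2})
    (s3 : Q.dual.cyc {x3, y3}) (n : x2 ≠ y2 ∧ x3 ≠ y3 ∧ x3 ≠ x2 ∧ y3 ≠ x2) : Q.DOK N := by
  rw [n7_con2] at h
  exact (h.ser_ext n.2.1 (n7_pair s3 (by simp [n]) (by simp [n]))).ser_ext n.1 s2

theorem n7_del {D C C' : Finset ℕ} (h : M.dual.cyc C) (e : C \ D = C') : (M.del D).dual.cyc C' :=
  e ▸ cocyc_del_of h D

theorem n7_ns {Q : BM} {S : Finset ℕ} {x y x' y' c : ℕ} (hN : N.NOK) (h : (Q.con S).DOK N)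
    (s : Q.dual.cyc {x, y}) (s' : Q.dual.cyc {x', y'}) (hC : (Q.con S).cyc {y, y', c})
    (n : [x, x', y, y'].Nodup) (hy : y ∉ S) (hy' : y' ∉ S) : ¬ Q.dual.cyc {x, x'} := fun h1 => by
  simp only [List.nodup_cons, List.mem_cons, List.not_mem_nil, List.nodup_nil] at n
  have : Q.dual.cyc {y, y'} := n7_cyc (Q.dual.sd _ _ (Q.dual.sd _ _ s s') h1) (by
    ext
    simp only [mem_symmDiff, mem_insert, mem_singleton]
    grind)
  exact h.not_cyc1 hN (n7_pair this hy hy') hC (insert_nonempty _ _) Subset.rfl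

theorem n7_other {g : ℕ} (h : M.MinC N) (hx : M.X7 e x1 x2 x3 y1 y2 y3) (hg : g ∈ M.E)
    (n : g ≠ e ∧ g ≠ x1 ∧ g ≠ x2 ∧ g ≠ x3 ∧ g ≠ y1 ∧ g ≠ y2 ∧ g ≠ y3)
    (hk : (((M.del {e}).con {x1, x2, x3}).del {g}).DOK N) : False := by
  have nd := hx.nd
  have ht := hx.tri
  simp only [List.nodup_cons, List.mem_cons, List.not_mem_nil, List.nodup_nil] at nd
  have ht' : (((M.del {e}).con {x1, x2, x3}).del {g}).cyc {y1, y2, y3} := ⟨ht, by simp; grind⟩
  have e1 : ((M.del {e}).con {x1, x2, x3}).del {g} = ((M.del {g}).del {e}).con {x1, x2, x3} := by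
    rw [← del_con _ (by simp; grind), del_del, del_del, union_comm]
  rw [e1] at hk ht'
  have t1 : (M.del {g}).dual.cyc {e, x1, y1} := n7_del hx.t1 (by ext; simp; grind)
  have t2 : (M.del {g}).dual.cyc {e, x2, y2} := n7_del hx.t2 (by ext; simp; grind)
  have t3 : (M.del {g}).dual.cyc {e, x3, y3} := n7_del hx.t3 (by ext; simp; grind)
  have s1 : ((M.del {g}).del {e}).dual.cyc {x1, y1} := n7_del t1 (by ext; simp; grind)
  have s2 : ((M.del {g}).del {e}).dual.cyc {x2, y2} := n7_del t2 (by ext; simp; grind)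
  have s3 : ((M.del {g}).del {e}).dual.cyc {x3, y3} := n7_del t3 (by ext; simp; grind)
  have hQ : ((M.del {g}).del {e}).DOK N := by
    have := hk
    rw [n7_con3] at this
    exact (n7_ext2 this (n7_pair s2 (by simp; grind) (by simp; grind))
      (n7_pair s3 (by simp; grind) (by simp; grind)) (by grind)).ser_ext (by grind) s1
  have he : e ∈ (M.del {g}).E := (M.del {g}).dual.sub _ t1 (mem_insert_self _ _)
  have c := card_del_single hg
  refine not_graphic_three hQ.vc hQ.ll ((h.cosimple.del_coloopless g).not_cyc e) hx.nd t1 t2 t3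
    (n7_ns h.nok hk s1 s2 ht' (by simp; grind) (by simp; grind) (by simp; grind))
    (n7_ns (c := y2) h.nok hk s1 s3 (n7_cyc ht' (by ext; simp; tauto)) (by simp; grind)
      (by simp; grind) (by simp; grind))
    (n7_ns (c := y1) h.nok hk s2 s3 (n7_cyc ht' (by ext; simp; tauto)) (by simp; grind)
      (by simp; grind) (by simp; grind))
    (h.ihP (M.hasMinor_del _) (by omega) he hQ)

theorem n7_fin {a2 a3 b2 b3 : ℕ} (h : M.MinC N) (hx : M.X7 e x1 x2 x3 y1 y2 y3)
    (hy : M.X7 y1 e a2 a3 x1 b2 b3) : M.E.card ≤ 10 := by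
  have nd := hx.nd
  have nd' := hy.nd
  simp only [List.nodup_cons, List.mem_cons, List.not_mem_nil, List.nodup_nil] at nd nd'
  obtain ⟨p, p1, p2, p3⟩ := cyc_other (e := e) hy.cx hx.t2 (by simp) (by simp)
  obtain ⟨q, q1, q2, q3⟩ := cyc_other (e := e) hy.cx hx.t3 (by simp) (by simp)
  simp only [mem_insert, mem_singleton] at p1 p2 q1 q2
  have k1 := M.sd _ _ hy.cx hx.cy
  have k2 := M.sd _ _ k1 hx.hex
  have ha : (a2 = y2 ∧ a3 = y3) ∨ (a2 = y3 ∧ a3 = y2) := by
    by_contra hc
    by_cases c1 : p = x2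
    · by_cases c2 : q = x3
      · refine h.simple.not_pair x1 y1 (n7_cyc k2 ?_)
        ext
        simp only [mem_symmDiff, mem_insert, mem_singleton]
        grind
      · refine h.simple.not_pair x2 y2 (n7_cyc k1 ?_)
        ext
        simp only [mem_symmDiff, mem_insert, mem_singleton]
        grind
    · refine h.simple.not_pair x3 y3 (n7_cyc k1 ?_)
      ext
      simp only [mem_symmDiff, mem_insert, mem_singleton]
      grind
  have key : ∀ a b, M.dual.cyc {y1, a, b} → (a = y2 ∨ a = y3) → b ≠ e → b ≠ x1 → b ≠ y2 → b ≠ y3 →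
      b ≠ x2 ∧ b ≠ x3 := fun a b t h1 h2 h3 h4 h5 => by
    constructor <;> rintro rfl
    · obtain ⟨u, u1, u2, u3⟩ := cyc_other (e := b) hx.cx t (by simp) (by simp)
      simp only [mem_insert, mem_singleton] at u1 u2
      grind
    · obtain ⟨u, u1, u2, u3⟩ := cyc_other (e := b) hx.cx t (by simp) (by simp)
      simp only [mem_insert, mem_singleton] at u1 u2
      grind
  have f2 := key a2 b2 hy.t2 (by grind) (by grind) (by grind) (by grind) (by grind)
  have f3 := key a3 b3 hy.t3 (by grind) (by grind) (by grind) (by grind) (by grind)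
  have r0 := (M.r_le_card {e, x1, x2, y1, y2, b2}).trans card_le_six
  have r1 := r_insert_of_cyc (e := x3) (X := {e, x1, x2, y1, y2, b2}) hx.cx (by simp)
    (by simp [insert_subset_iff])
  have r2 := r_insert_of_cyc (e := y3) (X := {x3, e, x1, x2, y1, y2, b2}) hx.cy (by simp)
    (by simp [insert_subset_iff])
  have r3 := r_insert_of_cyc (e := b3) (X := {y3, x3, e, x1, x2, y1, y2, b2}) hy.cy (by simp)
    (by simp [insert_subset_iff])
  have s0 := (M.dual.r_le_card {e, x1, x2, x3}).trans card_le_four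
  have s1 := r_insert_of_cyc (e := y1) (X := {e, x1, x2, x3}) hx.t1 (by simp)
    (by simp [insert_subset_iff])
  have s2 := r_insert_of_cyc (e := y2) (X := {y1, e, x1, x2, x3}) hx.t2 (by simp)
    (by simp [insert_subset_iff])
  have s3 := r_insert_of_cyc (e := y3) (X := {y2, y1, e, x1, x2, x3}) hx.t3 (by simp)
    (by simp [insert_subset_iff])
  have s4 := r_insert_of_cyc (e := b2) (X := {y3, y2, y1, e, x1, x2, x3}) hy.t2 (by simp)
    (by simp [insert_subset_iff]; grind)
  have s5 := r_insert_of_cyc (e := b3) (X := {b2, y3, y2, y1, e, x1, x2, x3}) hy.t3 (by simp)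
    (by simp [insert_subset_iff]; grind)
  have eq : ({b3, b2, y3, y2, y1, e, x1, x2, x3} : Finset ℕ) = {b3, y3, x3, e, x1, x2, y1, y2, b2} := by
    ext
    simp only [mem_insert, mem_singleton]
    omega
  have cd : ({b3, b2, y3, y2, y1, e, x1, x2, x3} : Finset ℕ).card = 9 := by
    have : [b3, b2, y3, y2, y1, e, x1, x2, x3].Nodup := by
      simp only [List.nodup_cons, List.mem_cons, List.not_mem_nil, List.nodup_nil]
      grind
    simpa using List.toFinset_card_of_nodup this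
  have m1 := M.sub _ hx.cx
  have m2 := M.sub _ hx.cy
  have m3 := M.sub _ hy.cy
  simp only [insert_subset_iff, singleton_subset_iff] at m1 m2 m3
  have := h.conn.card_le (X := {b3, b2, y3, y2, y1, e, x1, x2, x3})
    (by simp [insert_subset_iff, m1, m2, m3]) (by omega) (by rw [cd, s5, s4, s3, s2, s1, eq]; omega)
  omega

theorem n7_y1 (h : M.MinC N) (hx : M.X7 e x1 x2 x3 y1 y2 y3)
    (hk : (((M.del {e}).con {x1, x2, x3}).del {y1}).DOK N) : M.E.card ≤ 10 := by
  have nd := hx.nd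
  simp only [List.nodup_cons, List.mem_cons, List.not_mem_nil, List.nodup_nil] at nd
  have c := h.card
  have u1 : ((M.del {e}).del {y1}).dual.cyc {x1} := by
    rw [del_del]
    exact n7_del hx.t1 (by ext; simp; grind)
  have e1 : ((M.del {e}).con {x1, x2, x3}).del {y1} = (M.del {y1, x1, e}).con {x2, x3} := by
    rw [← del_con _ (by simp; grind), n7_con3, con_eq_del_of_coloop u1, del_del, del_del]
    congr 2
    ext; simp; tauto
  rw [e1] at hk
  have hQ := n7_ext2 (y2 := y2) (y3 := y3) hk (n7_del hx.t2 (by ext; simp; grind))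
    (n7_del hx.t3 (by ext; simp; grind)) (by grind)
  have t1 : M.dual.cyc {y1, x1, e} := n7_cyc hx.t1 (by ext; simp; tauto)
  have hy : y1 ∈ M.E := M.dual.sub _ t1 (mem_insert_self _ _)
  rcases h.conn.ext4 (by omega) (by simp; grind) t1 hQ with h1 | ⟨x, n, h1⟩ | ⟨x, x', n, h1, h2⟩
  · have sp : (M.del {y1}).dual.cyc {e, x1} := n7_del hx.t1 (by ext; simp; grind)
    rcases h.klem hy h1 with h2 | ⟨a1, a2, a3, b1, b2, b3, h2⟩
    · have := card_del_single hy
      exact absurd sp ((h2.cosimple (by omega)).not_pair _ _)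
    · have key : ∀ {a1 a2 a3 b1 b2 b3 : ℕ}, M.X7 y1 a1 a2 a3 b1 b2 b3 →
          ({e, x1} : Finset ℕ) = {a1, b1} → M.E.card ≤ 10 := fun {a1 a2 a3 b1 b2 b3} h3 h4 => by
        have h5 : (e = a1 ∧ x1 = b1) ∨ (e = b1 ∧ x1 = a1) := by
          have k1 : e ∈ ({a1, b1} : Finset ℕ) := h4 ▸ by simp
          have k2 : x1 ∈ ({a1, b1} : Finset ℕ) := h4 ▸ by simp
          simp only [mem_insert, mem_singleton] at k1 k2
          grind
        rcases h5 with ⟨rfl, rfl⟩ | ⟨rfl, rfl⟩
        · exact n7_fin h hx h3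
        · exact n7_fin h hx h3.swap
      rcases h2.all e x1 (by grind) sp with h3 | h3 | h3
      · exact key h2 h3
      · exact key h2.rot h3
      · exact key h2.rot.rot h3
  · obtain ⟨p, p1, p2, p3⟩ := cyc_other (e := e) h1 hx.t2 (by simp) (by simp)
    obtain ⟨q, q1, q2, q3⟩ := cyc_other (e := e) h1 hx.t3 (by simp) (by simp)
    simp only [mem_insert, mem_singleton] at p1 p2 q1 q2
    grind
  · obtain ⟨p, p1, p2, p3⟩ := cyc_other (e := e) h1 hx.t2 (by simp) (by simp)
    obtain ⟨q, q1, q2, q3⟩ := cyc_other (e := e) h1 hx.t3 (by simp) (by simp)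
    simp only [mem_insert, mem_singleton] at p1 p2 q1 q2
    simp only [List.nodup_cons, List.mem_cons, List.not_mem_nil, List.nodup_nil] at n
    have a1 := even_inter hx.cx h2
    have a2 := even_inter hx.cy h2
    exfalso
    by_cases c1 : p = x2
    · by_cases c2 : q = x3
      · obtain ⟨u, u1, u2, u3⟩ := cyc_other (e := y1) hx.cy h2 (by simp) (by simp)
        simp only [mem_insert, mem_singleton] at u1 u2
        grind
      · obtain ⟨u, u1, u2, u3⟩ := cyc_other (e := x2) hx.cx h2 (by simp) (by simp; grind)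
        simp only [mem_insert, mem_singleton] at u1 u2
        grind
    · by_cases c2 : q = x3
      · obtain ⟨u, u1, u2, u3⟩ := cyc_other (e := x3) hx.cx h2 (by simp) (by simp; grind)
        simp only [mem_insert, mem_singleton] at u1 u2
        grind
      · obtain ⟨u, u1, u2, u3⟩ := cyc_fourth (x := y1) (y := y2) (z := y3) hx.cy h2 (by simp; grind)
          (by simp) (by simp; grind)
        simp only [mem_insert, mem_singleton] at u1 u2
        grind

theorem MinC.x7 (h : M.MinC N) (hr : M.Reg) (hm : N.dual.MaxS) (hk : (M.del {e}).DOK N)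
    (hx : M.X7 e x1 x2 x3 y1 y2 y3) : M.Base7 N := by
  have nd := hx.nd
  simp only [List.nodup_cons, List.mem_cons, List.not_mem_nil, List.nodup_nil] at nd
  have s1 : (M.del {e}).dual.cyc {x1, y1} := n7_del hx.t1 (by ext; simp; grind)
  have s2 : (M.del {e}).dual.cyc {x2, y2} := n7_del hx.t2 (by ext; simp; grind)
  have s3 : (M.del {e}).dual.cyc {x3, y3} := n7_del hx.t3 (by ext; simp; grind)
  have hH : ((M.del {e}).con {x1, x2, x3}).DOK N := by
    rw [n7_con3, n7_con2]
    exact ((hk.con_ser h.nok s1).con_ser h.nok (n7_pair s2 (by simp; grind) (by simp; grind))).con_ser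
      h.nok (n7_pair (n7_pair s3 (by simp; grind) (by simp; grind)) (by simp; grind) (by simp; grind))
  have h3 : ((M.del {e}).con {x1, x2, x3}).Conn3 := hH.conn3 fun p q hne hc => by
    obtain ⟨h1, h2⟩ := cocyc_con_iff.1 hc
    rcases hx.all p q hne h1 with h4 | h4 | h4 <;> rw [h4] at h2 <;> simp at h2
  have c1 := hH.mn.card_le
  have c2 := h.nok.card
  by_cases h0 : ((M.del {e}).con {x1, x2, x3}).dual.r ((M.del {e}).con {x1, x2, x3}).E ≤
      N.dual.r N.E
  · exact ⟨e, x1, x2, x3, y1, y2, y3, hx,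
      hm.iso ((hr.del _).con _) (h3.cosimple (by omega)) hH.mn h0⟩
  exfalso
  have c3 := hH.mn.card_lt (not_le.1 h0)
  have m1 := M.sub _ hx.cx
  have c4 : ((M.del {e}).con {x1, x2, x3}).E.card + 4 = M.E.card := by
    rw [con_E, del_E, sdiff_sdiff_left, sup_eq_union,
      show ({e} ∪ {x1, x2, x3} : Finset ℕ) = {e, x1, x2, x3} from rfl,
      ← card_sdiff_add_card_eq_card m1]
    congr 1
    have : [e, x1, x2, x3].Nodup := by simp; grind
    simpa using (List.toFinset_card_of_nodup this).symm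
  obtain ⟨g, hg, hd⟩ := wdel h3 h.nok hH.mn (not_le.1 h0)
  simp only [con_E, del_E, mem_sdiff, mem_insert, mem_singleton, not_or] at hg
  by_cases g1 : g = y1
  · subst g1
    have := n7_y1 h hx hd
    omega
  by_cases g2 : g = y2
  · subst g2
    have := n7_y1 h hx.rot (by rwa [show ({x2, x3, x1} : Finset ℕ) = {x1, x2, x3} by ext; simp; tauto])
    omega
  by_cases g3 : g = y3
  · subst g3
    have := n7_y1 h hx.rot.rot
      (by rwa [show ({x3, x1, x2} : Finset ℕ) = {x1, x2, x3} by ext; simp; tauto])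
    omega
  exact n7_other h hx hg.1.1 ⟨hg.1.2, hg.2.1, hg.2.2.1, hg.2.2.2, g1, g2, g3⟩ hd

theorem MinC.ctx (h : M.MinC N) (hr : M.Reg) (hm : N.dual.MaxS) (hb : ¬ M.Base7 N) : M.Ctx N := by
  refine ⟨h, fun x hx hk => (h.klem hx hk).resolve_right ?_⟩
  rintro ⟨x1, x2, x3, y1, y2, y3, h7⟩
  exact hb (h.x7 hr hm hk h7)

end BM

end Pool.Agent.P.MP_3f5ce9_co
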