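import Pool.Agent.P.MP_3f5ce9_co.W.SaD
import Pool.Agent.P.MP_3f5ce9_co.W.SaS
import Pool.Agent.P.MP_3f5ce9_co.W.SaN

/-!
Minors from two gadgets and from three triads.
-/

open Finset

namespace Pool.Agent.P.MP_3f5ce9_co

namespace BM

variable {M : BM} {X X' Z : Finset ℕ} {a1 a2 a3 b1 b2 b3 c1 c2 c3 d1 d2 d3 : ℕ}

/-- a gadget together with its ground set -/
structure SvX (M : BM) (X : Finset ℕ) (a1 a2 a3 b1 b2 b3 : ℕ) : Prop where
  s : M.S6 a1 a2 a3 b1 b2 b3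
  e : ∀ x, x ∈ X ↔ x = a1 ∨ x = a2 ∨ x = a3 ∨ x = b1 ∨ x = b2 ∨ x = b3

theorem SvX.nd (h : M.SvX X a1 a2 a3 b1 b2 b3) : (a1 ≠ a2 ∧ a1 ≠ a3 ∧ a1 ≠ b1 ∧ a1 ≠ b2 ∧ a1 ≠ b3) ∧
    (a2 ≠ a3 ∧ a2 ≠ b1 ∧ a2 ≠ b2 ∧ a2 ≠ b3) ∧ (a3 ≠ b1 ∧ a3 ≠ b2 ∧ a3 ≠ b3) ∧
    (b1 ≠ b2 ∧ b1 ≠ b3) ∧ b2 ≠ b3 := by
  simpa using h.s.nd

theorem SvX.eq (h : M.SvX X a1 a2 a3 b1 b2 b3) : X = {a1, a2, a3, b1, b2, b3} := by
  ext x
  simp [h.e]

theorem SvX.card (h : M.SvX X a1 a2 a3 b1 b2 b3) : X.card = 6 := by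
  rw [h.eq]
  simpa using List.toFinset_card_of_nodup h.s.nd

theorem SvX.coc (h : M.SvX X a1 a2 a3 b1 b2 b3) : M.dual.cyc {a2, b2, a3, b3} := by
  have := h.nd
  refine n7_cyc (M.dual.sd _ _ h.s.d2 h.s.d3) ?_
  ext
  simp only [mem_symmDiff, mem_insert, mem_singleton]
  grind

theorem SvX.hex (h : M.SvX X a1 a2 a3 b1 b2 b3) : M.cyc X := by
  have := h.nd
  refine n7_cyc (M.sd _ _ h.s.ca h.s.cb) ?_
  ext
  simp only [mem_symmDiff, mem_insert, mem_singleton, h.e]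
  grind

theorem SvX.s12 (h : M.SvX X a1 a2 a3 b1 b2 b3) : M.SvX X a2 a1 a3 b2 b1 b3 := by
  have := h.nd
  refine ⟨⟨by simp; grind, n7_cyc h.s.ca (insert_comm _ _ _), n7_cyc h.s.cb (insert_comm _ _ _),
    n7_cyc h.s.d2 (by ext; simp; grind), h.coc⟩, fun x => ?_⟩
  rw [h.e]
  grind

theorem SvX.s23 (h : M.SvX X a1 a2 a3 b1 b2 b3) : M.SvX X a1 a3 a2 b1 b3 b2 := by
  have := h.nd
  refine ⟨⟨by simp; grind, n7_cyc h.s.ca (by rw [pair_comm]), n7_cyc h.s.cb (by rw [pair_comm]),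
    h.s.d3, h.s.d2⟩, fun x => ?_⟩
  rw [h.e]
  grind

theorem SvX.r4 (h : M.SvX X a1 a2 a3 b1 b2 b3) : M.r X ≤ 4 ∧ M.dual.r X ≤ 4 := by
  constructor
  · have h1 := r_lt_of_cyc h.s.ca (insert_nonempty _ _)
    have h2 := r_lt_of_cyc h.s.cb (insert_nonempty _ _)
    have h3 := M.r_union_le {a1, a2, a3} {b1, b2, b3}
    have h4 := card_le_three (a := a1) (b := a2) (c := a3)
    have h5 := card_le_three (a := b1) (b := b2) (c := b3)
    rw [show X = {a1, a2, a3} ∪ {b1, b2, b3} by ext; simp [h.e]; grind]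
    omega
  · have h1 := r_lt_of_cyc h.s.d2 (insert_nonempty _ _)
    have h2 := M.dual.r_insert_le a3 {a1, b1, a2, b2}
    have h3 := card_le_four (a := a1) (b := b1) (c := a2) (d := b2)
    rw [show X = insert b3 (insert a3 {a1, b1, a2, b2}) by ext; simp [h.e]; grind,
      r_insert_of_cyc h.s.d3 (by simp) (by simp [insert_subset_iff])]
    omega

theorem SvX.low (h : M.SvX X a1 a2 a3 b1 b2 b3) (hZ : M.cyc Z) (h1 : b1 ∈ Z)
    (h2 : Z ⊆ {b1, a1, a2, b2}) : M.r X ≤ 3 := by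
  rw [show X = insert b3 (insert a3 (insert b1 {a1, a2, b2})) by ext; simp [h.e]; grind,
    r_insert_of_cyc h.s.cb (by simp) (by simp [insert_subset_iff]),
    r_insert_of_cyc h.s.ca (by simp) (by simp [insert_subset_iff]), r_insert_of_cyc hZ h1 h2]
  exact (M.r_le_card _).trans card_le_three

theorem sv_disj (hX : M.cyc X) (hc : (M.del X).Conn2) (h2 : X.card + 2 ≤ M.E.card)
    (hZ : M.dual.cyc Z) (h3 : Z.card = 3) : Disjoint X Z := by
  by_contra hn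
  have e1 := card_pos.2 (not_disjoint_iff_nonempty_inter.1 hn)
  have e2 := Nat.even_iff.1 (even_inter hX hZ)
  have e3 := card_sdiff_add_card_inter Z X
  rw [inter_comm] at e3
  have e4 : (Z \ X).card = 1 := by omega
  have h4 := cocyc_del_of hZ X
  have s : Z \ X ⊆ (M.del X).E := (M.del X).dual.sub _ h4
  have ne : (Z \ X).Nonempty := card_pos.1 (by omega)
  have h5 := hc _ s ne (card_pos.1 (by
    rw [card_sdiff_of_subset s, del_E, card_sdiff_of_subset (M.sub _ hX)]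
    omega))
  have h6 := lam_eq s
  have h7 := r_lt_of_cyc h4 ne
  have h8 := (M.del X).r_le_card (Z \ X)
  omega

theorem sv_fin (h : M.SvX X a1 a2 a3 b1 b2 b3) (h' : M.dual.SvX X' c1 c2 c3 d1 d2 d3)
    (hd : Disjoint X X') (hE : M.E = X ∪ X') (hr : M.r M.E = 6) (h1 : M.cyc {a1, b1, c2, c3})
    (h2 : M.cyc {a2, b2, c1, c3}) : M.HasMinor R12 := by
  refine hasMinor_of_list (xs := [c1, c2, c3, d1, d2, d3] ++ [a1, a2, a3, b1, b2, b3])
    (cs := [27, 45, 448, 3584, 582, 1157]) (by decide)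
    (List.Nodup.append h'.s.nd h.s.nd fun x k k' => disjoint_left.1 hd
      ((h.e x).2 (by simpa using k')) ((h'.e x).2 (by simpa using k))) rfl
    (fun x hx => by rw [hE, mem_union, h.e, h'.e]; simpa [or_comm, or_left_comm] using hx)
    (by decide) (by decide) (fun m hm => ?_) ?_
  · have q2 := h'.s.d2
    have q3 := h'.s.d3
    rw [dual_dual] at q2 q3
    simp only [List.mem_cons, List.not_mem_nil, or_false] at hm
    rcases hm with rfl | rfl | rfl | rfl | rfl | rfl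
    · exact n7_cyc q2 (by ext; simp [msel]; grind)
    · exact n7_cyc q3 (by ext; simp [msel]; grind)
    · exact n7_cyc h.s.ca (by ext; simp [msel])
    · exact n7_cyc h.s.cb (by ext; simp [msel])
    · exact n7_cyc h1 (by ext; simp [msel]; grind)
    · exact n7_cyc h2 (by ext; simp [msel]; grind)
  · rw [List.toFinset_append, union_comm, show List.toFinset _ = X by ext; simp [h.e],
      show List.toFinset _ = X' by ext; simp [h'.e], ← hE, hr]
    decide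

theorem sv_clr (h' : M.dual.SvX X' c1 c2 c3 d1 d2 d3) (hZ : M.cyc Z) :
    ∃ Z', M.cyc Z' ∧ d2 ∉ Z' ∧ (∀ x, x ∉ X' → (x ∈ Z' ↔ x ∈ Z)) ∧ (d3 ∈ Z' ↔ d3 ∈ Z) := by
  by_cases k : d2 ∈ Z
  · have := h'.nd
    refine ⟨_, M.sd _ _ hZ (dual_dual M ▸ h'.s.d2), by simp [mem_symmDiff, k], fun x hx => ?_, ?_⟩
    · rw [h'.e] at hx
      simp only [mem_symmDiff, mem_insert, mem_singleton]
      grind
    · simp only [mem_symmDiff, mem_insert, mem_singleton]
      grind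
  · exact ⟨Z, hZ, k, fun _ _ => Iff.rfl, Iff.rfl⟩

theorem sv_key (h : M.SvX X a1 a2 a3 b1 b2 b3) (h' : M.dual.SvX X' c1 c2 c3 d1 d2 d3)
    (hd : Disjoint X X') (hE : M.E = X ∪ X') (hr : M.r M.E = 6) (r1 : M.r X = 4)
    (r2 : M.r X' = 4) :
    M.cyc {a1, b1, c2, c3} ∨ M.cyc {a1, b1, c1, c3} ∨ M.cyc {a1, b1, c1, c2} := by
  have nd := h.nd
  have nd' := h'.nd
  have dj : ∀ x, x ∈ X' → ¬ (x = a1 ∨ x = a2 ∨ x = a3 ∨ x = b1 ∨ x = b2 ∨ x = b3) :=
    fun x k k' => disjoint_left.1 hd ((h.e x).2 k') k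
  have e1 := r_insert_of_cocyc (X := X') h.s.d2 (e := b1) (by simp)
    (disjoint_left.2 fun x k k' => dj x k (by simp at k'; grind))
  have e2 := r_dual (M := M) (M.dual.sub _ h.coc)
  have e3 := r_lt_of_cyc h.coc (insert_nonempty _ _)
  have e4 := M.r_mono (show insert a1 (insert b1 X') ⊆ M.E \ {a2, b2, a3, b3} from fun x hx => by
    have := dj x
    simp only [hE, mem_sdiff, mem_union, mem_insert, mem_singleton, h.e] at hx ⊢
    grind)
  have e5 := M.r_le_insert a1 (insert b1 X')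
  obtain ⟨Z, z1, z2, z3⟩ := ((r_insert_eq_iff (M := M) (e := a1) (X := insert b1 X')
    (M.sub _ h.s.ca (by simp))).1 (by omega)).resolve_left (by have := dj a1; simp; grind)
  obtain ⟨Z₁, y1, y2, y3, -⟩ := sv_clr h'.s23 z1
  obtain ⟨Z₂, w1, w2, w3, w4⟩ := sv_clr h' y1
  have w5 : ∀ x, x ∉ X' → (x ∈ Z₂ ↔ x ∈ Z) := fun x hx => (w3 x hx).trans (y3 x hx)
  have w6 : ∀ x ∈ Z₂, x = a1 ∨ x = b1 ∨ x ∈ X' := fun x hx => by
    by_cases k : x ∈ X'
    · exact Or.inr (Or.inr k)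
    · simpa using z3 ((w5 x k).1 hx)
  have m1 : a1 ∈ Z₂ := (w5 _ fun k => dj _ k (by simp)).2 z2
  have m2 : b1 ∈ Z₂ := by
    obtain ⟨x, k1, k2, k3⟩ := cyc_other w1 h.s.d2 m1 (by simp)
    have := w6 x k1
    have := dj x
    simp only [mem_insert, mem_singleton] at k2
    grind
  have m3 : d1 ∉ Z₂ := fun k => by
    obtain ⟨x, k1, k2, k3⟩ := cyc_other w1 h'.s.cb k (by simp)
    simp only [mem_insert, mem_singleton] at k2
    grind
  have w7 : ∀ x, x ∈ Z₂ ↔ x = a1 ∨ x = b1 ∨ (x = c1 ∧ c1 ∈ Z₂) ∨ (x = c2 ∧ c2 ∈ Z₂) ∨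
      (x = c3 ∧ c3 ∈ Z₂) := fun x => by
    have := w6 x
    rw [h'.e] at this
    grind
  have o : ∀ c ∈ Z₂, c ∈ ({c1, c2, c3} : Finset ℕ) → ∃ x ∈ Z₂, (x = c1 ∨ x = c2 ∨ x = c3) ∧ x ≠ c :=
    fun c k k' => by simpa using cyc_other w1 h'.s.ca k k'
  have o1 := fun k => o c1 k (by simp)
  have o2 := fun k => o c2 k (by simp)
  have o3 := fun k => o c3 k (by simp)
  by_cases k1 : c1 ∈ Z₂ <;> by_cases k2 : c2 ∈ Z₂ <;> by_cases k3 : c3 ∈ Z₂
  · obtain ⟨x, -, t⟩ := cyc_fourth w1 h'.s.ca (x := c1) (y := c2) (z := c3) (by simp; grind)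
      ⟨k1, k2, k3⟩ (by simp)
    simp only [mem_insert, mem_singleton] at t
    omega
  · exact Or.inr (Or.inr (n7_cyc w1 (by ext x; rw [w7]; simp [k1, k2, k3])))
  · exact Or.inr (Or.inl (n7_cyc w1 (by ext x; rw [w7]; simp [k1, k2, k3])))
  · grind
  · exact Or.inl (n7_cyc w1 (by ext x; rw [w7]; simp [k1, k2, k3]))
  · grind
  · grind
  · have := h.low w1 m2 fun x hx => by rw [w7] at hx; simp; grind
    omega

theorem Gad6.link (h : M.Gad6) (h' : M.dual.Gad6) (hc : M.Conn3) (h8 : 8 ≤ M.E.card) :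
    M.HasMinor R12 := by
  obtain ⟨a1, a2, a3, b1, b2, b3, s, k⟩ := h
  obtain ⟨c1, c2, c3, d1, d2, d3, s', -⟩ := h'
  obtain ⟨X, h, k⟩ : ∃ X, M.SvX X a1 a2 a3 b1 b2 b3 ∧ (M.del X).Conn2 :=
    ⟨_, ⟨s, by simp⟩, k⟩
  obtain ⟨X', h'⟩ : ∃ X', M.dual.SvX X' c1 c2 c3 d1 d2 d3 :=
    ⟨{c1, c2, c3, d1, d2, d3}, s', by simp⟩
  have nd' := h'.nd
  have k1 := h.card
  have k2 := h'.card
  have hd : Disjoint X X' := by
    rw [show X' = {c1, c2, c3} ∪ {d1, d2, d3} by ext; simp [h'.e]; grind, disjoint_union_right]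
    exact ⟨sv_disj h.hex k (by omega) s'.ca
        (card_eq_three.2 ⟨_, _, _, nd'.1.1, nd'.1.2.1, nd'.2.1.1, rfl⟩),
      sv_disj h.hex k (by omega) s'.cb
        (card_eq_three.2 ⟨_, _, _, nd'.2.2.2.1.1, nd'.2.2.2.1.2, nd'.2.2.2.2, rfl⟩)⟩
  have sX' : X' ⊆ M.E := M.dual.sub _ h'.hex
  obtain ⟨P, p1, hE, p3⟩ := BM.link (M.sub _ h.hex) sX' hd fun Z z1 z2 => by
    have := card_le_card z1
    have := card_le_card z2
    have := card_le_card sX'
    rw [card_sdiff_of_subset sX'] at *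
    exact hc.two_le (z2.trans sdiff_subset) (by omega) (by omega)
  refine p1.mn.trans ?_
  have g : P.SvX X a1 a2 a3 b1 b2 b3 := ⟨⟨s.nd, p1.cyc _ (by simp [insert_subset_iff, h.e]) s.ca,
    p1.cyc _ (by simp [insert_subset_iff, h.e]) s.cb,
    p1.coc _ (by simp [insert_subset_iff, h.e]) s.d2,
    p1.coc _ (by simp [insert_subset_iff, h.e]) s.d3⟩, h.e⟩
  have g' : P.dual.SvX X' c1 c2 c3 d1 d2 d3 := ⟨⟨s'.nd,
    p1.coc _ (by simp [insert_subset_iff, h'.e]) s'.ca,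
    p1.coc _ (by simp [insert_subset_iff, h'.e]) s'.cb,
    (dual_dual P).symm ▸ p1.cyc _ (by simp [insert_subset_iff, h'.e]) (dual_dual M ▸ s'.d2),
    (dual_dual P).symm ▸ p1.cyc _ (by simp [insert_subset_iff, h'.e]) (dual_dual M ▸ s'.d3)⟩, h'.e⟩
  have u1 : X ⊆ P.E := hE ▸ subset_union_left
  have u2 : P.E \ X = X' := by rw [hE, union_sdiff_cancel_left hd]
  have l1 := lam_eq u1
  have l2 := lam_eq (M := P) (X := X') (u2 ▸ sdiff_subset)
  have l3 := lam_compl u1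
  have l4 := P.lam_add X
  have l5 := g.r4
  have l6 := g'.r4
  rw [dual_dual] at l6
  rw [u2] at l3 l4
  have hr : P.r P.E = 6 := by omega
  have nd := g.nd
  have dj : ∀ x, x ∈ X' → ¬ (x = a1 ∨ x = a2 ∨ x = a3 ∨ x = b1 ∨ x = b2 ∨ x = b3) :=
    fun x k k' => disjoint_left.1 hd ((h.e x).2 k') k
  have no : ∀ x ∈ X', ∀ y ∈ X', P.cyc {a1, b1, x, y} → P.cyc {a2, b2, x, y} → P.HasMinor R12 :=
    fun x hx y hy t1 t2 => by
      have := dj x hx
      have := dj y hy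
      have := g.low (P.sd _ _ t1 t2) (by simp [mem_symmDiff]; grind) fun z hz => by
        simp only [mem_symmDiff, mem_insert, mem_singleton] at hz ⊢
        grind
      omega
  have m1 := (g'.e c1).2 (by simp)
  have m2 := (g'.e c2).2 (by simp)
  have m3 := (g'.e c3).2 (by simp)
  have pc : ∀ {p q x y}, P.cyc {p, q, x, y} → P.cyc {p, q, y, x} :=
    fun t => n7_cyc t (by rw [pair_comm])
  rcases sv_key g g' hd hE hr (by omega) (by omega) with t | t | t <;>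
    rcases sv_key g.s12 g' hd hE hr (by omega) (by omega) with t' | t' | t'
  · exact no _ m2 _ m3 t t'
  · exact sv_fin g g' hd hE hr t t'
  · exact sv_fin g g'.s23 hd hE hr (pc t) t'
  · exact sv_fin g g'.s12 hd hE hr t t'
  · exact no _ m1 _ m3 t t'
  · exact sv_fin g g'.s12.s23 hd hE hr (pc t) (pc t')
  · exact sv_fin g g'.s23.s12 hd hE hr t (pc t')
  · exact sv_fin g g'.s12.s23.s12 hd hE hr (pc t) (pc t')
  · exact no _ m1 _ m2 t t'

theorem sv_lift {e x1 x2 x3 y1 y2 y3 p q : ℕ} (h : M.X7 e x1 x2 x3 y1 y2 y3)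
    (hc : ((M.del {e}).con {x1, x2, x3}).cyc {y1, p, q})
    (n : y2 ≠ p ∧ y2 ≠ q ∧ y3 ≠ p ∧ y3 ≠ q) : M.cyc {x1, y1, p, q} := by
  obtain ⟨C, ⟨c1, c2⟩, c3⟩ := hc
  have nd := h.nd
  simp only [List.nodup_cons, List.mem_cons, List.not_mem_nil, List.nodup_nil] at nd
  rw [disjoint_singleton_right] at c2
  have c4 : ∀ x, (x = y1 ∨ x = p ∨ x = q) ↔ x ∈ C ∧ ¬ (x = x1 ∨ x = x2 ∨ x = x3) := fun x => by
    simpa using Finset.ext_iff.1 c3 x
  have o1 := cyc_other c1 h.t1 ((c4 y1).1 (by simp)).1 (by simp)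
  have o2 := fun k => cyc_other c1 h.t2 (e := x2) k (by simp)
  have o3 := fun k => cyc_other c1 h.t3 (e := x3) k (by simp)
  have := c4 y2
  have := c4 y3
  simp only [mem_insert, mem_singleton] at o1 o2 o3
  refine n7_cyc c1 (Finset.ext fun x => ?_)
  have := c4 x
  simp only [mem_insert, mem_singleton]
  grind

instance svDec : DecidablePred K4.cyc := fun _ => inferInstanceAs (Decidable (_ ∧ _))

instance svDec' (i1 i2 i3 : ℕ) : Decidable (∃ j1 < 6, ∃ j2 < 6, ∃ j3 < 6,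
    range 6 = {i1, i2, i3, j1, j2, j3} ∧ [i1, i2, i3, j1, j2, j3].Nodup ∧
      K4.cyc {i1, j2, j3} ∧ K4.cyc {i2, j1, j3}) := inferInstance

theorem sv_K4 : ∀ i1 < 6, ∀ i2 < 6, ∀ i3 < 6, [i1, i2, i3].Nodup → K4.cyc {i1, i2, i3} →
    ∃ j1 < 6, ∃ j2 < 6, ∃ j3 < 6, range 6 = {i1, i2, i3, j1, j2, j3} ∧
      [i1, i2, i3, j1, j2, j3].Nodup ∧ K4.cyc {i1, j2, j3} ∧ K4.cyc {i2, j1, j3} := by
  decide +kernel

theorem Base7.K4 (h : M.Base7 K4) : M.HasMinor K5.dual := by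
  obtain ⟨e, x1, x2, x3, y1, y2, y3, h, hi⟩ := h
  have r3 := hi.r_eq
  have := cubic_K4
  obtain ⟨f, f1, f2⟩ := hi
  have kE : BM.K4.E = range 6 := rfl
  have cy : ∀ D ⊆ range 6, BM.K4.cyc D ↔ ((M.del {e}).con {x1, x2, x3}).cyc (D.image f) :=
    fun D hD => by rw [f1.cyc hD, con_of_disjoint _ (disjoint_empty_right _)]
  have t := h.tri
  have ex : ∀ y ∈ ({y1, y2, y3} : Finset ℕ), ∃ i < 6, f i = y := fun y hy => by
    simpa [kE] using f2.ge (BM.sub _ _ t hy)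
  obtain ⟨i1, l1, rfl⟩ := ex y1 (by simp)
  obtain ⟨i2, l2, rfl⟩ := ex y2 (by simp)
  obtain ⟨i3, l3, rfl⟩ := ex y3 (by simp)
  have nd := h.nd
  simp only [List.nodup_cons, List.mem_cons, List.not_mem_nil, List.nodup_nil] at nd
  obtain ⟨j1, m1, j2, m2, j3, m3, e6, n6, t1, t2⟩ := sv_K4 i1 l1 i2 l2 i3 l3 (by simp; grind)
    ((cy _ (by simp [insert_subset_iff, *])).2 (by simpa using t))
  have n7 : [f i1, f i2, f i3, f j1, f j2, f j3].Nodup := n6.map_on fun a ha b hb =>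
    f1.inj (by rw [kE, e6]; simpa using ha) (by rw [kE, e6]; simpa using hb)
  simp only [List.nodup_cons, List.mem_cons, List.not_mem_nil, List.nodup_nil] at n7
  have q1 := sv_lift h (by simpa using (cy _ (BM.sub _ _ t1)).1 t1) (by grind)
  have q2 := sv_lift h.rot (p := f j1) (q := f j3) (by
    rw [show ({x2, x3, x1} : Finset ℕ) = {x1, x2, x3} by ext; simp; grind]
    simpa using (cy _ (BM.sub _ _ t2)).1 t2) (by grind)
  have mp : ∀ j < 6, f j ∈ M.E ∧ f j ≠ e ∧ f j ≠ x1 ∧ f j ≠ x2 ∧ f j ≠ x3 := fun j hj => by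
    simpa [and_assoc] using (f1.maps j (mem_range.2 hj)).1
  have p1 := mp j1 m1
  have p2 := mp j2 m2
  have p3 := mp j3 m3
  rw [K5_dual]
  refine hasMinor_of_list (xs := [e, x1, x2, x3, f i1, f i2, f i3, f j3, f j2, f j1])
    (cs := [15, 113, 402, 676]) (by decide) (by simp; grind) rfl (fun x hx => ?_) (by decide)
    (by decide) (fun m hm => ?_) ?_
  · have a := M.sub _ h.cx
    have b := M.sub _ h.cy
    simp only [insert_subset_iff, singleton_subset_iff] at a b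
    simp only [List.mem_cons, List.not_mem_nil] at hx
    grind
  · simp only [List.mem_cons, List.not_mem_nil, or_false] at hm
    rcases hm with rfl | rfl | rfl | rfl
    · exact n7_cyc h.cx (by ext; simp [msel])
    · exact n7_cyc h.cy (by ext; simp [msel])
    · exact n7_cyc q1 (by rw [pair_comm]; ext; simp [msel])
    · exact n7_cyc q2 (by rw [pair_comm]; ext; simp [msel])
  · have a1 := r_insert_of_cocyc (X := {x2, x3}) h.t1 (e := x1) (by simp) (by simp; grind)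
    have a2 := r_insert_of_cocyc (X := {x3}) h.t2 (e := x2) (by simp) (by simp; grind)
    have a3 := r_insert_of_cocyc (X := ∅) h.t3 (e := x3) (by simp) (by simp)
    have a4 := (M.del {e}).r_con {x1, x2, x3} ((M.del {e}).con {x1, x2, x3}).E
    rw [r3, r_del_of_disjoint _ (by simp; grind), r_del, ← f2, kE, e6] at a4
    rw [kE, card_range] at this
    rw [insert_empty] at a3
    refine le_trans ?_ (a4.trans_le (M.r_mono fun x hx => ?_))
    · rw [← e6, show (elim [1, 2, 4, 7, 8, 16, 25, 32, 42, 52]).length = 6 by decide]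
      omega
    · simp only [image_insert, image_singleton, mem_sdiff, mem_union, mem_insert,
        mem_singleton] at hx
      rcases hx.1 with (k | k | k | k | k | k) | k | k | k <;> simp [k]

theorem Base7.K33 (h : M.Base7 K33) : False := by
  obtain ⟨e, x1, x2, x3, y1, y2, y3, h, hi⟩ := h
  have := hi.girth girth_K33 _ h.tri (insert_nonempty _ _)
  have := card_le_three (a := y1) (b := y2) (c := y3)
  omega

end BM

end Pool.Agent.P.MP_3f5ce9_co
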