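import Pool.Agent.P.MP_3f5ce9_co.W.SaF
import Pool.Agent.P.MP_3f5ce9_co.W.SaS

/-!
The minor K4.
-/

open Finset

namespace Pool.Agent.P.MP_3f5ce9_co

namespace BM

variable {M : BM}

theorem saw_six {p1 p2 p3 q1 q2 q3 : ℕ} (hn : [p1, p2, p3, q3, q2, q1].Nodup)
    (h3 : M.cyc {p1, p2, q3}) (h2 : M.cyc {p1, p3, q2}) (h1 : M.cyc {p2, p3, q1})
    (hr : 3 ≤ M.r {p1, p2, p3, q3, q2, q1}) : M.HasMinor K4 := by
  rw [K4_eq]
  have a3 := M.sub _ h3
  have a2 := M.sub _ h2
  have a1 := M.sub _ h1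
  refine hasMinor_of_list (xs := [p1, p2, p3, q3, q2, q1]) (cs := [11, 21, 38]) (by decide) hn rfl
    ?_ (by decide) (by decide) ?_ ?_
  · simp only [insert_subset_iff, singleton_subset_iff] at a1 a2 a3
    simp [a1, a2, a3]
  · simpa [msel] using ⟨h3, h2, h1⟩
  · simpa using (show elim [3, 5, 9, 6, 10, 12] = _ from rfl) ▸ hr

/-- an element outside the base with a given fundamental cycle -/
def SawT (M : BM) (B S : Finset ℕ) : Prop := ∃ x, x ∉ B ∧ M.cyc (insert x S)

theorem saw_two {B : Finset ℕ} {a b c : ℕ} (h : M.Simple) (h' : M.dual.Simple) (hB : M.IsBase B)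
    (e : B = {a, b, c}) : (M.SawT B {a, b} ∧ M.SawT B {a, c}) ∨ (M.SawT B {a, b} ∧ M.SawT B B) ∨
      (M.SawT B {a, c} ∧ M.SawT B B) := by
  have ha : a ∈ B := by simp [e]
  obtain ⟨D, hD, eD⟩ := hB.exists_cocyc ha
  have haD : a ∈ D := (mem_inter.1 (eD ▸ mem_singleton_self a)).1
  have key : ∀ x ∈ D.erase a, x ∉ B ∧
      (M.cyc (insert x {a, b}) ∨ M.cyc (insert x {a, c}) ∨ M.cyc (insert x B)) := by
    intro x hx
    obtain ⟨xa, xD⟩ := mem_erase.1 hx
    have xB : x ∉ B := fun hb => xa (mem_singleton.1 (eD ▸ mem_inter.2 ⟨xD, hb⟩))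
    obtain ⟨C, hC, xC, hs⟩ := hB.exists_cyc (hD.1 xD) xB
    obtain ⟨z, zC, zD, zx⟩ := cyc_other hC hD xC xD
    have za : z = a := mem_singleton.1
      (eD ▸ mem_inter.2 ⟨zD, (mem_insert.1 (hs zC)).resolve_left zx⟩)
    subst za
    have hs' : ∀ t ∈ C, t = x ∨ t = z ∨ t = b ∨ t = c := fun t ht => by simpa [e] using hs ht
    refine ⟨xB, ?_⟩
    by_cases hb : b ∈ C <;> by_cases hc : c ∈ C
    · have : C = insert x B := by ext t; simp [e]; grind
      exact Or.inr (Or.inr (this ▸ hC))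
    · have : C = {x, z, b} := by ext t; simp; grind
      exact Or.inl (this ▸ hC)
    · have : C = {x, z, c} := by ext t; simp; grind
      exact Or.inr (Or.inl (this ▸ hC))
    · have : C = {x, z} := by ext t; simp; grind
      exact absurd (this ▸ hC) (h.not_pair _ _)
  have h3 := h'.girth D hD ⟨a, haD⟩
  obtain ⟨x, hx, y, hy, xy⟩ := one_lt_card.1
    (show 1 < (D.erase a).card by rw [card_erase_of_mem haD]; omega)
  obtain ⟨xB, kx⟩ := key x hx
  obtain ⟨yB, ky⟩ := key y hy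
  have ne : ∀ S ⊆ B, M.cyc (insert x S) → ¬ M.cyc (insert y S) := fun S hS h1 h2 => by
    have : symmDiff (insert x S) (insert y S) = {x, y} := by
      have := mt (@hS x) xB
      have := mt (@hS y) yB
      ext t; simp [mem_symmDiff]; grind
    exact h.not_pair x y (this ▸ M.sd _ _ h1 h2)
  have n1 := ne {a, b} (by simp [e, insert_subset_iff])
  have n2 := ne {a, c} (by simp [e, insert_subset_iff])
  have n3 := ne B Subset.rfl
  have f : ∀ S, M.cyc (insert x S) → M.SawT B S := fun S h => ⟨x, xB, h⟩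
  have g : ∀ S, M.cyc (insert y S) → M.SawT B S := fun S h => ⟨y, yB, h⟩
  rcases kx with kx | kx | kx <;> rcases ky with ky | ky | ky
  exacts [absurd ky (n1 kx), .inl ⟨f _ kx, g _ ky⟩, .inr (.inl ⟨f _ kx, g _ ky⟩),
    .inl ⟨g _ ky, f _ kx⟩, absurd ky (n2 kx), .inr (.inr ⟨f _ kx, g _ ky⟩),
    .inr (.inl ⟨g _ ky, f _ kx⟩), .inr (.inr ⟨g _ ky, f _ kx⟩), absurd ky (n3 kx)]

theorem saw_ne {S S' : Finset ℕ} {x y : ℕ} (h : M.Simple) (h1 : M.cyc (insert x S))
    (h2 : M.cyc (insert y S')) (u v : ℕ) (e : symmDiff (insert x S) (insert x S') = {u, v}) :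
    x ≠ y := by
  rintro rfl
  exact h.not_pair u v (e ▸ M.sd _ _ h1 h2)

theorem saw_caseB {B : Finset ℕ} {a b c : ℕ} (h : M.Simple) (hB : 3 ≤ M.r B) (e : B = {a, b, c})
    (hn : [a, b, c].Nodup) (h1 : M.SawT B {a, b}) (h2 : M.SawT B {a, c}) (h3 : M.SawT B B) :
    M.HasMinor K4 := by
  subst e
  obtain ⟨x, xB, hx⟩ := h1
  obtain ⟨y, yB, hy⟩ := h2
  obtain ⟨t, tB, ht⟩ := h3
  simp at hn xB yB tB
  have xy := saw_ne h hx hy b c (by ext; simp [mem_symmDiff]; grind)
  have xt := saw_ne h hx ht c c (by ext; simp [mem_symmDiff]; grind)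
  have yt := saw_ne h hy ht b b (by ext; simp [mem_symmDiff]; grind)
  have e1 : ({y, a, c} : Finset ℕ) = {c, y, a} := by ext; simp; grind
  have e2 : symmDiff ({t, a, b, c} : Finset ℕ) {x, a, b} = {c, t, x} := by
    ext; simp [mem_symmDiff]; grind
  have e3 : symmDiff ({t, a, b, c} : Finset ℕ) {y, a, c} = {y, t, b} := by
    ext; simp [mem_symmDiff]; grind
  exact saw_six (p1 := c) (p2 := y) (p3 := t) (q1 := b) (q2 := x) (q3 := a) (by simp; grind)
    (e1 ▸ hy) (e2 ▸ M.sd _ _ ht hx) (e3 ▸ M.sd _ _ ht hy)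
    (hB.trans (M.r_mono (by simp [insert_subset_iff])))

theorem K4_of_r3 (h : M.Simple) (h' : M.dual.Simple) (hr : M.r M.E = 3) : M.HasMinor K4 := by
  obtain ⟨B, hB⟩ := M.exists_base
  obtain ⟨a, b, c, hab, hac, hbc, e⟩ := card_eq_three.1 (hB.2.trans hr)
  have h3 : 3 ≤ M.r B := by rw [hB.r_eq, hr]
  have eb : B = {b, a, c} := by rw [e, insert_comm]
  have ec : B = {c, a, b} := by rw [e]; ext; simp; grind
  have fa := saw_two h h' hB e
  have fb := saw_two h h' hB eb
  have fc := saw_two h h' hB ec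
  have ca := saw_caseB h h3 e (by simp; grind)
  have cb := saw_caseB h h3 eb (by simp; grind)
  have cc := saw_caseB h h3 ec (by simp; grind)
  rw [pair_comm b a] at fb cb
  rw [pair_comm c a, pair_comm c b] at fc cc
  have prop : ∀ p q r t k : Prop, (p ∧ q) ∨ (p ∧ t) ∨ (q ∧ t) → (p ∧ r) ∨ (p ∧ t) ∨ (r ∧ t) →
      (q ∧ r) ∨ (q ∧ t) ∨ (r ∧ t) → (p → q → t → k) → (p → r → t → k) → (q → r → t → k) →
      k ∨ (p ∧ q ∧ r) := by
    intro p q r t k
    grind
  rcases prop _ _ _ _ _ fa fb fc ca cb cc with hk | ⟨⟨x, xB, hx⟩, ⟨y, yB, hy⟩, ⟨z, zB, hz⟩⟩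
  · exact hk
  subst e
  simp at xB yB zB
  have xy := saw_ne h hx hy b c (by ext; simp [mem_symmDiff]; grind)
  have xz := saw_ne h hx hz a c (by ext; simp [mem_symmDiff]; grind)
  have yz := saw_ne h hy hz a b (by ext; simp [mem_symmDiff]; grind)
  have e1 : ∀ u v w : ℕ, ({u, v, w} : Finset ℕ) = {v, w, u} := fun u v w => by ext; simp; grind
  exact saw_six (p1 := a) (p2 := b) (p3 := c) (q1 := z) (q2 := y) (q3 := x) (by simp; grind)
    (e1 x a b ▸ hx) (e1 y a c ▸ hy) (e1 z b c ▸ hz)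
    (h3.trans (M.r_mono (by simp [insert_subset_iff])))

theorem saw_dual (h : M.dual.HasMinor K4) : M.HasMinor K4 := by
  have := h.dual
  rw [dual_dual] at this
  exact this.trans K4_iso.hasMinor

theorem saw_vc (n : ℕ) : ∀ P : BM, P.E.card < n → P.VC → 3 ≤ P.r P.E → P.HasMinor K4 := by
  induction n with
  | zero => exact fun _ h => absurd h (Nat.not_lt_zero _)
  | succ n ih =>
    intro P hn hv h3
    by_cases hp : ∃ x y, P.cyc {x, y}
    · obtain ⟨x, y, hc⟩ := hp
      have h1 := card_del_single (P.sub _ hc (mem_insert_self x _))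
      have h2 : ¬ P.dual.cyc {x} := fun hd => by
        obtain ⟨z, -, z1, z2⟩ := cyc_other hc hd (mem_insert_self x _) (mem_singleton_self x)
        exact z2 (mem_singleton.1 z1)
      exact (ih _ (by omega) (hv.del_par hc) (by rwa [r_del_single h2])).of_del
    have hs : P.Simple := simple_of_pair fun x y hc => hp ⟨x, y, hc⟩
    have hc := hv.conn3 hs
    have h4 := P.r_dual_E
    obtain ⟨e, he⟩ := card_pos.1 (show 0 < P.E.card by omega)
    have he' := singleton_subset_iff.2 he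
    have h5 : 4 ≤ P.E.card := by
      have a1 := hc {e} he'
      have a2 := lam_eq he'
      have a3 := P.r_le_card {e}
      have a4 := P.dual.r_le_rE {e}
      rw [card_sdiff_of_subset he'] at a1
      rw [card_singleton] at a1 a2 a3
      rw [dual_E] at a4
      omega
    have hs' := hc.cosimple h5
    have h6 : 3 ≤ P.dual.r P.E := by
      by_contra h6
      have := hs'.card_le_three (show P.dual.r P.E ≤ 2 by omega)
      rw [dual_E] at this
      omega
    rcases h3.eq_or_lt with h7 | h7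
    · exact K4_of_r3 hs hs' h7.symm
    rcases h6.eq_or_lt with h8 | h8
    · exact saw_dual (K4_of_r3 hs' (by rwa [dual_dual]) h8.symm)
    rcases hc.bixby h5 he with hv' | hv'
    · have a1 := card_con_single he
      have a2 := r_con_single he (hs.not_single e)
      exact (ih _ (by omega) hv' (by omega)).of_con
    · rw [dual_del] at hv'
      have a1 := card_con_single (M := P.dual) he
      have a2 := r_con_single (M := P.dual) he (hs'.not_single e)
      rw [dual_E] at a1 a2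
      exact saw_dual (ih _ (by omega) hv' (by omega)).of_con

theorem Conn3.k4 (h : M.Conn3) : M.Graphic ∨ M.HasMinor K4 := by
  by_cases h2 : M.r M.E ≤ 2
  · exact Or.inl (graphic_of_r_le_two h2)
  · exact Or.inr (saw_vc _ M (Nat.lt_succ_self _) h.vc (by omega))

end BM

end Pool.Agent.P.MP_3f5ce9_co
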