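import Pool.Agent.P.MP_3f5ce9_co.W.ScD

/-!
The matroids `K5` and `R10` as splitters.
-/

namespace Pool.Agent.P.MP_3f5ce9_co

/-- Fano minors over `K5` -/
def scTN5 : List (List ℕ × Bool × List ℕ × ℕ) :=
  [([736549], true, [0, 1, 4, 2, 5, 7, 10], 8), ([972745], true, [0, 1, 4, 3, 6, 8, 10], 4),
   ([1090843], true, [0, 2, 5, 3, 6, 9, 10], 2), ([1149892, 1208941], true, [1, 2, 7, 3, 8, 9,
   10], 1), ([63775366, 63858310], true, [0, 2, 5, 3, 10, 9, 7], 66), ([64024198], true, [0, 1,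
   4, 3, 10, 8, 7], 68), ([64107142], true, [1, 2, 10, 3, 8, 9, 6], 129), ([67756678, 67839622,
   69996166, 70079110], true, [0, 2, 10, 3, 6, 9, 8], 34), ([68503174], true, [0, 1, 4, 2, 10,
   7, 8], 40), ([68586118], true, [1, 3, 9, 10, 4, 6, 8], 129), ([70493830], true, [0, 3, 9, 10,
   7, 8, 6], 34), ([70576774], true, [0, 3, 9, 10, 4, 8, 6], 34), ([81027718, 81276550,
   83267206, 83516038], true, [0, 1, 10, 3, 6, 8, 9], 20), ([81774214, 87746182], true, [0, 1,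
   10, 2, 5, 7, 9], 24), ([82023046], true, [1, 3, 8, 10, 4, 6, 9], 129), ([83930758], true, [0,
   3, 8, 10, 7, 9, 6], 20), ([84179590], true, [0, 3, 8, 10, 5, 9, 6], 20), ([87912070,
   90151558], true, [0, 3, 6, 10, 5, 9, 8], 20), ([88492678], true, [0, 1, 10, 3, 8, 6, 9], 20),
   ([88658566], true, [0, 2, 7, 10, 6, 9, 5], 24), ([89985670], true, [0, 3, 6, 10, 4, 8, 9],
   34), ([90649222], true, [0, 2, 5, 10, 6, 9, 7], 24), ([242979442], true, [0, 1, 10, 2, 5, 7,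
   11], 24), ([243688030], true, [0, 1, 10, 3, 6, 8, 11], 20), ([244396618], true, [1, 2, 7, 3,
   8, 9, 11], 17), ([242791036], true, [0, 1, 4, 2, 10, 7, 11], 40), ([243853918], true, [0, 2,
   10, 3, 6, 9, 11], 34), ([244208212], true, [1, 2, 7, 3, 8, 9, 11], 33), ([243288700], true,
   [0, 1, 4, 3, 10, 8, 11], 68), ([243642994], true, [0, 2, 5, 3, 10, 9, 11], 66), ([243997288],
   true, [1, 2, 7, 3, 8, 9, 11], 65), ([244329064], true, [1, 2, 7, 6, 4, 5, 11], 9),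
   ([245037652], true, [1, 3, 8, 5, 4, 6, 11], 5), ([245391946], true, [2, 3, 9, 4, 5, 6, 11],
   3), ([244604545], true, [0, 1, 4, 2, 5, 10, 11], 136), ([245844574, 246021721], true, [1, 2,
   10, 3, 8, 9, 11], 129), ([249083521], true, [0, 1, 4, 3, 6, 10, 11], 260), ([249614962,
   249792109], true, [1, 2, 7, 3, 10, 9, 11], 257), ([252114541], true, [0, 2, 5, 8, 4, 7, 11],
   10), ([252823129], true, [0, 3, 6, 7, 4, 8, 11], 6), ([253354570], true, [2, 3, 9, 4, 7, 8,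
   11], 3), ([262520449], true, [0, 2, 5, 3, 6, 10, 11], 514), ([262697596, 262874743], true,
   [1, 2, 7, 3, 8, 10, 11], 513), ([265363063], true, [0, 1, 4, 9, 5, 7, 11], 12), ([266425945],
   true, [0, 3, 6, 7, 5, 9, 11], 6), ([266603092], true, [1, 3, 8, 5, 7, 9, 11], 5),
   ([270339703], true, [0, 1, 4, 9, 6, 8, 11], 12), ([270693997], true, [0, 2, 5, 8, 6, 9, 11],
   10), ([270871144], true, [1, 2, 7, 6, 8, 9, 11], 9)]

/-- minors `K33` over `K5` -/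
def scTK5 : List (List ℕ × List ℕ × ℕ) :=
  [([61121158, 88741510], [0, 1, 2, 6, 8, 9, 10, 4, 5], 0), ([61618822, 84262534], [0, 1, 3, 5,
   7, 9, 10, 4, 6], 0), ([61784710], [0, 2, 3, 4, 7, 8, 10, 5, 6], 0), ([63111814, 63360646,
   90732166, 90980998], [0, 1, 2, 4, 10, 7, 6, 8, 9], 0), ([63277702, 90898054], [0, 1, 2, 5, 7,
   10, 6, 8, 9], 0), ([67590790, 68337286, 90234502], [0, 1, 3, 4, 10, 8, 5, 7, 9], 0),
   ([68254342], [0, 1, 3, 5, 7, 9, 6, 8, 10], 0), ([69747334], [1, 2, 3, 4, 5, 6, 10, 7, 8], 0),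
   ([70742662, 70825606], [0, 1, 10, 5, 7, 2, 6, 8, 3], 0), ([81193606, 81940102], [0, 2, 3, 4,
   7, 8, 5, 10, 9], 0), ([81691270], [0, 2, 3, 4, 7, 8, 6, 9, 10], 0), ([83184262, 89902726],
   [1, 2, 3, 4, 5, 6, 7, 10, 9], 0), ([84013702], [0, 2, 10, 4, 7, 1, 6, 9, 3], 0), ([87663238],
   [1, 2, 3, 4, 5, 6, 8, 9, 10], 0), ([87995014], [0, 3, 10, 4, 8, 1, 5, 9, 2], 0),
   ([242448001], [2, 3, 11, 5, 6, 10, 7, 8, 4], 0), ([242625148], [2, 3, 11, 5, 6, 4, 7, 8, 10],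
   0), ([243156589], [0, 1, 2, 6, 8, 9, 10, 4, 11], 0), ([243333736], [0, 1, 2, 4, 10, 11, 6, 8,
   9], 0), ([243865177], [0, 1, 3, 5, 7, 9, 10, 4, 11], 0), ([244042324], [0, 1, 3, 4, 10, 11,
   5, 7, 9], 0), ([242613889], [1, 3, 11, 4, 6, 10, 7, 9, 5], 0), ([242968183], [0, 1, 2, 6, 8,
   9, 10, 11, 5], 0), ([243145330], [1, 3, 11, 4, 6, 5, 7, 9, 10], 0), ([243499624], [0, 1, 2,
   5, 11, 10, 6, 8, 9], 0), ([244031065], [0, 2, 3, 4, 7, 8, 10, 5, 11], 0), ([244562506], [0,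
   2, 3, 4, 7, 8, 5, 10, 11], 0), ([243111553], [1, 2, 11, 4, 5, 10, 8, 9, 6], 0), ([243465847],
   [0, 1, 3, 5, 7, 9, 10, 11, 6], 0), ([243820141], [0, 2, 3, 4, 7, 8, 10, 11, 6], 0),
   ([244351582], [1, 2, 11, 4, 5, 6, 8, 9, 10], 0), ([244705876], [0, 1, 3, 5, 7, 9, 6, 11, 10],
   0), ([245060170], [0, 2, 3, 4, 7, 8, 6, 11, 10], 0), ([62399095], [0, 2, 3, 10, 5, 6, 11, 7,
   8], 0), ([62753389], [0, 1, 3, 10, 4, 6, 11, 7, 9], 0), ([63461977], [0, 1, 2, 10, 4, 5, 11,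
   8, 9], 0), ([243620476], [0, 5, 6, 10, 2, 3, 11, 7, 8], 0), ([243974770], [0, 4, 6, 10, 1, 3,
   11, 7, 9], 0), ([244683358], [0, 4, 5, 10, 1, 2, 11, 8, 9], 0), ([244781692], [0, 3, 11, 4,
   8, 10, 5, 9, 7], 0), ([244958839], [0, 1, 2, 6, 8, 9, 11, 10, 7], 0), ([245135986], [0, 3,
   11, 4, 8, 7, 5, 9, 10], 0), ([245313133], [0, 1, 2, 6, 8, 9, 11, 7, 10], 0), ([246198868],
   [1, 2, 3, 4, 5, 6, 10, 7, 11], 0), ([246553162], [1, 2, 3, 4, 5, 6, 7, 10, 11], 0),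
   ([249260668], [0, 2, 11, 4, 7, 10, 6, 9, 8], 0), ([249437815], [0, 1, 3, 5, 7, 9, 11, 10, 8],
   0), ([249969256], [1, 2, 3, 4, 5, 6, 10, 11, 8], 0), ([250323550], [0, 2, 11, 4, 7, 8, 6, 9,
   10], 0), ([250500697], [0, 1, 3, 5, 7, 9, 11, 8, 10], 0), ([251032138], [1, 2, 3, 4, 5, 6, 8,
   11, 10], 0), ([70361719], [1, 2, 3, 10, 7, 8, 11, 5, 6], 0), ([70893160], [0, 1, 3, 4, 10, 8,
   5, 11, 9], 0), ([71601748], [0, 1, 2, 4, 10, 7, 6, 11, 9], 0), ([251405953], [1, 7, 8, 10, 2,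
   3, 11, 5, 6], 0), ([251937394], [0, 3, 10, 4, 8, 1, 5, 9, 11], 0), ([252645982], [0, 2, 10,
   4, 7, 1, 6, 9, 11], 0), ([263051890], [0, 1, 11, 5, 7, 10, 6, 8, 9], 0), ([263229037], [0, 2,
   3, 4, 7, 8, 11, 10, 9], 0), ([263406184], [1, 2, 3, 4, 5, 6, 11, 10, 9], 0), ([263760478],
   [0, 1, 11, 5, 7, 9, 6, 8, 10], 0), ([263937625], [0, 2, 3, 4, 7, 8, 11, 9, 10], 0),
   ([264114772], [1, 2, 3, 4, 5, 6, 11, 9, 10], 0), ([84318829], [1, 2, 3, 4, 11, 6, 7, 10, 9],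
   0), ([84495976], [0, 2, 3, 4, 11, 8, 5, 10, 9], 0), ([85558858], [0, 1, 2, 5, 7, 10, 6, 8,
   11], 0), ([265008769], [1, 3, 10, 4, 6, 11, 7, 9, 2], 0), ([265185916], [0, 3, 10, 4, 8, 11,
   5, 9, 2], 0), ([266248798], [0, 1, 10, 5, 7, 2, 6, 8, 11], 0), ([90004057], [1, 2, 3, 4, 5,
   11, 8, 9, 10], 0), ([90181204], [0, 2, 3, 4, 7, 11, 6, 9, 10], 0), ([90535498], [0, 1, 3, 5,
   7, 11, 6, 8, 10], 0), ([269985409], [1, 2, 10, 4, 5, 11, 8, 9, 3], 0), ([270162556], [0, 2,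
   10, 4, 7, 11, 6, 9, 3], 0), ([270516850], [0, 1, 10, 5, 7, 11, 6, 8, 3], 0)]

/-- Fano minors over `R10` -/
def scTN10 : List (List ℕ × Bool × List ℕ × ℕ) :=
  [([1023127], true, [0, 1, 10, 4, 7, 5, 9], 12), ([1141225], true, [0, 2, 10, 4, 8, 5, 7], 10),
   ([1200274, 1259323], true, [1, 2, 10, 4, 6, 7, 5], 9), ([1377421], true, [0, 3, 10, 4, 7, 6,
   8], 6), ([1436470, 1495519], true, [1, 3, 10, 4, 5, 8, 6], 5), ([1554568, 1613617, 1672666,
   1731715], true, [2, 3, 10, 4, 5, 6, 9], 3), ([1849813], true, [0, 2, 10, 3, 9, 6, 8], 34),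
   ([1908862], true, [1, 2, 10, 3, 9, 8, 6], 129), ([1967911, 2204107], true, [0, 1, 10, 3, 8,
   6, 9], 20), ([2026960], true, [0, 1, 8, 2, 9, 10, 7], 72), ([2263156], true, [0, 1, 7, 3, 9,
   10, 8], 36), ([2440303], true, [0, 1, 10, 2, 7, 5, 9], 24), ([2499352, 2558401], true, [1, 2,
   5, 3, 6, 10, 9], 17), ([2617450], true, [0, 2, 7, 3, 8, 10, 9], 18), ([62307484], true, [2,
   3, 6, 4, 7, 8, 9], 35), ([63800476], true, [0, 1, 7, 4, 8, 6, 9], 44), ([64298140], true, [2,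
   3, 7, 4, 5, 8, 9], 67), ([64546972], true, [1, 2, 9, 10, 6, 7, 5], 25), ([68279452], true,
   [2, 3, 8, 4, 7, 6, 9], 35), ([68777116], true, [0, 1, 8, 4, 7, 5, 9], 76), ([69025948], true,
   [1, 3, 9, 10, 5, 8, 6], 21), ([70270108], true, [2, 3, 8, 4, 5, 6, 9], 131), ([70518940],
   true, [0, 2, 9, 10, 8, 5, 7], 26), ([71016604], true, [0, 3, 9, 10, 7, 6, 8], 22),
   ([71265436], true, [1, 3, 9, 7, 5, 8, 6], 21), ([81716380], true, [0, 3, 9, 4, 7, 6, 8], 38),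
   ([82214044], true, [0, 2, 9, 4, 8, 5, 7], 74), ([83707036], true, [1, 3, 9, 4, 5, 8, 6],
   133), ([84453532], true, [0, 3, 8, 10, 7, 6, 9], 22), ([84702364], true, [0, 3, 8, 5, 7, 6,
   9], 22), ([88186012], true, [1, 2, 9, 4, 6, 7, 5], 265), ([88434844], true, [1, 3, 6, 10, 5,
   8, 9], 21), ([89181340], true, [0, 2, 7, 6, 8, 5, 9], 26), ([90674332], true, [1, 3, 6, 7, 5,
   8, 9], 21), ([91171996], true, [1, 2, 5, 8, 6, 7, 9], 25), ([243136663], true, [0, 1, 11, 3,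
   8, 6, 9], 52), ([243313810], true, [0, 1, 8, 2, 9, 11, 7], 104), ([243668104], true, [1, 2,
   11, 3, 9, 8, 6], 161), ([244376692], true, [0, 2, 7, 3, 8, 11, 9], 50), ([245793868], true,
   [1, 2, 11, 4, 6, 7, 9], 41), ([246679603], true, [0, 1, 11, 4, 7, 6, 9], 44), ([247388191,
   247565338], true, [2, 3, 11, 4, 7, 6, 9], 35), ([248451073], true, [0, 3, 11, 4, 7, 6, 8],
   38), ([243634327], true, [0, 1, 11, 2, 7, 5, 9], 88), ([243811474], true, [0, 1, 7, 3, 9, 11,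
   8], 100), ([244165768], true, [0, 2, 7, 3, 8, 11, 9], 82), ([244874356], true, [1, 2, 11, 3,
   9, 8, 10], 193), ([246291532], true, [1, 3, 11, 4, 5, 8, 9], 69), ([247177267, 247354414],
   true, [2, 3, 11, 4, 5, 8, 9], 67), ([247885855], true, [0, 1, 11, 4, 7, 5, 9], 76),
   ([248948737], true, [0, 2, 11, 4, 8, 5, 7], 74), ([245127319], true, [0, 1, 8, 2, 9, 11, 10],
   200), ([245304466], true, [0, 1, 11, 3, 8, 6, 9], 148), ([245658760], true, [0, 2, 11, 3, 9,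
   6, 8], 162), ([246367348], true, [1, 2, 5, 3, 6, 11, 9], 145), ([247784524], true, [0, 2, 11,
   4, 8, 5, 9], 138), ([248847406], true, [0, 1, 11, 4, 8, 5, 9], 140), ([249378847, 249555994],
   true, [2, 3, 11, 4, 5, 6, 9], 131), ([250441729], true, [1, 3, 11, 4, 5, 8, 6], 133),
   ([249606295], true, [0, 1, 7, 3, 9, 11, 10], 292), ([249783442], true, [0, 1, 11, 2, 7, 5,
   9], 280), ([250137736], true, [1, 2, 5, 3, 6, 11, 9], 273), ([250846324], true, [0, 2, 11, 3,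
   9, 6, 10], 290), ([252263500], true, [0, 3, 11, 4, 7, 6, 9], 262), ([253149235, 253326382],
   true, [2, 3, 11, 4, 5, 6, 9], 259), ([254034970], true, [0, 1, 11, 4, 7, 5, 9], 268),
   ([254920705], true, [1, 2, 11, 4, 6, 7, 5], 265), ([263043223], true, [0, 2, 7, 3, 8, 11,
   10], 530), ([263220370], true, [1, 2, 5, 3, 6, 11, 10], 529), ([263574664], true, [0, 1, 11,
   2, 7, 5, 10], 536), ([264283252], true, [0, 1, 11, 3, 8, 6, 10], 532), ([265700428], true,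
   [2, 3, 11, 4, 5, 6, 10], 515), ([266586163], true, [1, 3, 11, 4, 5, 8, 6], 517),
   ([266763310], true, [0, 3, 11, 4, 7, 6, 8], 518), ([267294751], true, [1, 2, 11, 4, 6, 7, 5],
   521), ([267471898], true, [0, 2, 11, 4, 8, 5, 7], 522), ([86360110], true, [0, 2, 9, 4, 8,
   11, 7], 74), ([87068698], true, [0, 3, 9, 4, 7, 11, 8], 38), ([87954433, 96912385], true, [2,
   3, 11, 10, 5, 6, 9], 19), ([264038551], true, [0, 4, 7, 10, 11, 5, 9], 14), ([264569992],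
   true, [2, 4, 7, 10, 11, 6, 5], 11), ([265278580], true, [3, 4, 8, 10, 11, 5, 6], 7),
   ([266695756], true, [2, 3, 8, 5, 11, 9, 6], 131), ([267581491], true, [0, 3, 8, 5, 11, 6, 9],
   22), ([268290079], true, [0, 2, 7, 6, 11, 5, 9], 26), ([87675955], true, [0, 3, 9, 4, 11, 6,
   8], 38), ([87853102], true, [1, 3, 9, 4, 11, 8, 6], 133), ([89447425], true, [0, 1, 11, 10,
   7, 5, 9], 28), ([265531543], true, [0, 4, 8, 10, 11, 5, 7], 14), ([265708690], true, [1, 4,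
   6, 10, 11, 7, 5], 13), ([266771572], true, [3, 4, 6, 10, 11, 5, 9], 7), ([268188748], true,
   [0, 1, 8, 5, 9, 11, 7], 76), ([269783071], true, [1, 3, 6, 7, 5, 11, 9], 21), ([269960218],
   true, [0, 3, 8, 5, 7, 11, 9], 22), ([93361183], true, [0, 2, 11, 10, 9, 6, 8], 42),
   ([93538330], true, [1, 2, 11, 10, 9, 8, 6], 137), ([94424065], true, [0, 1, 11, 10, 8, 6, 9],
   28), ([270508183], true, [0, 4, 7, 10, 11, 6, 8], 14), ([270685330], true, [1, 4, 5, 10, 11,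
   8, 6], 13), ([271039624], true, [2, 4, 5, 10, 11, 6, 9], 11), ([273165388], true, [0, 1, 7,
   6, 9, 11, 8], 44), ([274051123], true, [1, 2, 5, 8, 6, 11, 9], 25), ([274228270], true, [0,
   2, 7, 6, 8, 11, 9], 26), ([94145587], true, [1, 2, 11, 10, 8, 9, 7], 73), ([94854175], true,
   [1, 3, 11, 10, 7, 9, 8], 37), ([95917057], true, [2, 3, 11, 10, 7, 8, 9], 19), ([272178322],
   true, [1, 4, 5, 10, 11, 7, 9], 13), ([272532616], true, [2, 4, 5, 10, 11, 8, 7], 11),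
   ([273241204], true, [3, 4, 6, 10, 11, 7, 8], 7), ([274658380], true, [2, 3, 6, 7, 11, 9, 8],
   35), ([275721262], true, [1, 3, 6, 7, 11, 8, 9], 21), ([276429850], true, [1, 2, 5, 8, 11, 7,
   9], 25), ([95140915], true, [0, 2, 11, 6, 8, 5, 7], 26), ([95318062], true, [1, 2, 11, 8, 6,
   7, 5], 25), ([95849503], true, [0, 3, 11, 5, 7, 6, 8], 22), ([96026650], true, [1, 3, 11, 7,
   5, 8, 6], 21), ([272996503], true, [0, 2, 11, 3, 9, 6, 8], 50), ([273173650], true, [1, 2,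
   11, 3, 9, 8, 6], 145), ([273527944], true, [0, 1, 8, 2, 9, 11, 7], 88), ([274236532], true,
   [0, 1, 7, 3, 9, 11, 8], 52)]

namespace BM

variable {M : BM}

theorem sc_conn3_K5 : K5.Conn3 := by
  rw [K5_eq]
  exact sc_conn3 (by decide) (forall_lt_split 32 32 (by decide +kernel))

theorem sc_conn3_R10 : R10.Conn3 :=
  sc_conn3 (by decide) (forall_lt_split 32 32 (by decide +kernel))

theorem sc_chk5a : ∀ b, scAll [1, 2, 4, 8, 3, 5, 9, 6, 10, 12] 15 0 b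
    (scT1 fun l => sbNR scTN5 l || scK33 scTK5 l) = true := by
  decide +kernel

theorem sc_chk5b : scAll [1, 2, 4, 8, 3, 5, 9, 6, 10, 12] 15 0 true
    (scF1 fun l => sbNR scTN5 l || scK33 scTK5 l) = true := by
  decide +kernel

theorem sc_chk10a : ∀ b, scAll [1, 2, 4, 8, 16, 22, 26, 21, 25, 31] 31 0 b
    (scT1 (sbNR scTN10)) = true := by
  decide +kernel

theorem sc_chk10b : scAll [1, 2, 4, 8, 16, 22, 26, 21, 25, 31] 31 0 true
    (scF1 (sbNR scTN10)) = true := by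
  decide +kernel

theorem sc_spl5 (hr : M.Reg) (h3 : M.Conn3) (h : M.HasMinor K5) : M.Iso K5 ∨ M.HasMinor K33 := by
  have h5 := sc_conn3_K5
  rw [K5_eq] at h h5 ⊢
  exact sc_spl h3 h5 h rfl rfl (by decide) sc_chk5a sc_chk5b fun k hk h1 h2 =>
    h1.trans (sc_k33 hk ((Bool.or_eq_true _ _ ▸ h2).resolve_left fun a => sb_nr hk a (h1.reg hr)))

theorem sc_spl10 (hr : M.Reg) (h3 : M.Conn3) (h : M.HasMinor R10) : M.Iso R10 :=
  (sc_spl (p := False) h3 sc_conn3_R10 h rfl rfl (by decide) sc_chk10a sc_chk10b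
    fun _ hk h1 h2 => sb_nr hk h2 (h1.reg hr)).resolve_right id

end BM

end Pool.Agent.P.MP_3f5ce9_co
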