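import Pool.Agent.P.MP_3f5ce9_co.W.SaR
import Pool.Agent.P.MP_3f5ce9_co.W.SaT
import Pool.Agent.P.MP_3f5ce9_co.W.SaU
import Pool.Agent.P.MP_3f5ce9_co.W.SaV
import Pool.Agent.P.MP_3f5ce9_co.W.SaW
import Pool.Agent.P.MP_3f5ce9_co.W.ScE

/-!
Excluded minors and splitters for three-connected regular matroids.
-/

open Finset

namespace Pool.Agent.P.MP_3f5ce9_co

namespace BM

variable {M N : BM}

/-- the structure of a minimal counterexample -/
theorem MinC.struct (h : M.MinC N) (hr : M.Reg) (hg : N.Graphic) (hm : N.dual.MaxS)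
    (hc : 2 * N.E.card = 3 * (N.r N.E + 1)) (hd : N.Dom) :
    M.Gad6 ∨ M.Base7 N ∨ (M.r M.E ≤ N.r N.E ∧ M.E.card = N.E.card + 1) := by
  by_cases hb : M.Base7 N
  · exact Or.inr (Or.inl hb)
  have hM := h.ctx hr hm hb
  by_cases h0 : M.dual.r M.E ≤ N.dual.r N.E
  · exact absurd ((hm.iso hr h.cosimple h.mn h0).symm.hasMinor.graphic hg) h.ng
  obtain ⟨e, he, hk⟩ := wdel h.conn h.nok h.mn (not_le.1 h0)
  have c1 := card_del_single he
  have h3 := hM.k0 e he hk
  have hG := h.ihD (M.hasMinor_del _) (by omega) hk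
  obtain ⟨G, X, T, hT⟩ := exists_gft he (h.cosimple.not_single e) hG
  have c2 := hk.mn.card_le
  have c3 := h.nok.card
  by_cases h1 : (M.del {e}).dual.r (M.del {e}).E ≤ N.dual.r N.E
  · have hi := hm.iso (hr.del _) (h3.cosimple (by omega)) hk.mn h1
    have a1 := hi.r_eq
    have a2 := hi.card_eq
    have a3 := r_del_single (h.cosimple.not_single e)
    exact Or.inr (Or.inr ⟨by omega, by omega⟩)
  obtain ⟨f, hf, hk'⟩ := wdel h3 h.nok hk.mn (not_le.1 h1)
  rw [hT.del_e] at hf hk' h3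
  obtain ⟨f, s, s', z, u, w, y, y', hC⟩ := h.exists_cfg hT h3 hf hk'
  by_cases hy : y = y'
  · subst hy
    exact absurd (((hC.gad4 h.nok).minor h.conn h.card).reg hr) not_reg_F7
  · exact Or.inl (hC.gad6 hM hy hr hm hc hd)

theorem tutte3_aux (n : ℕ) : ∀ M : BM, M.E.card ≤ n → M.Reg → M.Conn3 →
    M.Graphic ∨ M.HasMinor K33.dual ∨ M.HasMinor K5.dual := by
  induction n using Nat.strong_induction_on with
  | _ n ih =>
  intro M hn hr h3
  by_contra hcon
  simp only [not_or] at hcon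
  obtain ⟨g1, g2, g3⟩ := hcon
  have hk := h3.k4.resolve_left g1
  have h : M.MinC K4 := ⟨nok_K4, h3, hk, g1, fun P hP hc p3 _ => by
    rcases ih P.E.card (by omega) P le_rfl (hP.reg hr) p3 with h | h | h
    · exact h
    · exact absurd (hP.trans h) g2
    · exact absurd (hP.trans h) g3⟩
  rcases h.struct hr (graphic_gm _ _) maxS_K4d cubic_K4 dom_K4 with h1 | h1 | h1
  · by_cases h8 : 8 ≤ M.E.card
    · exact g2 (h1.minor h3 h8)
    · have r1 := maxS_K4 M hr h.simple hk
      have r2 := maxS_K4d M.dual hr.dual h.cosimple hk.dual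
      have r3 := M.r_dual_E
      have r4 := K4.r_dual_E
      have r5 := cubic_K4
      have r6 : K4.E.card = 6 := rfl
      have r7 := hk.card_le
      have r8 : M.E.card ≠ 6 := fun e => g1 ((hk.iso (by omega)).symm.hasMinor.graphic
        (graphic_gm _ _))
      simp only [dual_E] at r2
      omega
  · exact g3 h1.K4
  · have := maxS_K4 M hr h.simple hk h1.1
    omega

/-- Tutte: a three-connected regular matroid is graphic or has a bond matroid of a Kuratowski
graph as a minor -/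
theorem tutte3 (hr : M.Reg) (h3 : M.Conn3) :
    M.Graphic ∨ M.HasMinor K33.dual ∨ M.HasMinor K5.dual := by
  exact tutte3_aux _ M le_rfl hr h3

theorem spl5 (hr : M.Reg) (h3 : M.Conn3) (h : M.HasMinor K5) : M.Iso K5 ∨ M.HasMinor K33 := by
  exact sc_spl5 hr h3 h

theorem spl10 (hr : M.Reg) (h3 : M.Conn3) (h : M.HasMinor R10) : M.Iso R10 := by
  exact sc_spl10 hr h3 h

theorem key33_gad (hr : M.Reg) (h3 : M.Conn3) (h : M.HasMinor K33) (g1 : ¬ M.Graphic)
    (g2 : ¬ M.HasMinor R10) (g3 : ¬ M.HasMinor R12)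
    (ih : ∀ P : BM, P.E.card < M.E.card → P.Reg → P.Conn3 → P.HasMinor K33 →
      P.Graphic ∨ P.HasMinor R10 ∨ P.HasMinor R12) : M.Gad6 := by
  have hM : M.MinC K33 := ⟨nok_K33, h3, h, g1, fun P hP hc p3 pm => by
    rcases ih P hc (hP.reg hr) p3 pm with h | h | h
    · exact h
    · exact absurd (hP.trans h) g2
    · exact absurd (hP.trans h) g3⟩
  rcases hM.struct hr (graphic_gm _ _) maxS_K33d cubic_K33 dom_K33 with h1 | h1 | h1
  · exact h1
  · exact h1.K33.elim
  · exact ((ext_K33 hr hM.simple h h1.1 h1.2).elim g1 g2).elim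

theorem key33_aux (n : ℕ) : ∀ M : BM, M.E.card ≤ n → M.Reg → M.Conn3 → M.HasMinor K33 →
    M.Graphic ∨ M.HasMinor R10 ∨ M.HasMinor R12 := by
  induction n using Nat.strong_induction_on with
  | _ n ih =>
  intro M hn hr h3 h
  by_contra hcon
  simp only [not_or] at hcon
  obtain ⟨g1, g2, g3⟩ := hcon
  have ih' : ∀ P : BM, P.E.card < M.E.card → P.Reg → P.Conn3 → P.HasMinor K33 →
      P.Graphic ∨ P.HasMinor R10 ∨ P.HasMinor R12 := fun P hc =>
    ih P.E.card (by omega) P le_rfl
  have d1 : ¬ M.dual.Graphic := fun hg => not_graphic_K33d (h.dual.graphic hg)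
  have d0 : M.dual.HasMinor K33 := by
    rcases tutte3 hr h3 with h1 | h1 | h1
    · exact absurd h1 g1
    · simpa using h1.dual
    · rcases spl5 hr.dual h3.dual (by simpa using h1.dual) with h2 | h2
      · exact absurd (h2.symm.hasMinor.graphic (graphic_gm _ _)) d1
      · exact h2
  have d2 : ¬ M.dual.HasMinor R10 := fun h1 =>
    g2 (HasMinor.trans (by simpa using h1.dual) R10_iso.hasMinor)
  have d3 : ¬ M.dual.HasMinor R12 := fun h1 =>
    g3 (HasMinor.trans (by simpa using h1.dual) R12_iso.hasMinor)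
  have c := h.card_le
  have c' : K33.E.card = 9 := rfl
  exact g3 ((key33_gad hr h3 h g1 g2 g3 ih').link
    (key33_gad hr.dual h3.dual d0 d1 d2 d3 ih') h3 (by omega))

/-- Seymour: not graphic and a `K33` minor force an `R10` or `R12` minor -/
theorem key33 (hr : M.Reg) (h3 : M.Conn3) (h : M.HasMinor K33) :
    M.Graphic ∨ M.HasMinor R10 ∨ M.HasMinor R12 := by
  exact key33_aux _ M le_rfl hr h3 h

end BM

end Pool.Agent.P.MP_3f5ce9_co
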