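import Pool.Agent.P.MP_3f5ce9_co.W.APort
import Pool.Agent.P.MP_3f5ce9_co.W.SeyA

/-!
Sides of three-sums, closed separations, small matroids.
-/

open Finset

namespace Pool.Agent.P.MP_3f5ce9_co

/-- the induction hypothesis of the structure theorem -/
def IHS (n : ℕ) : Prop :=
  ∀ (N : BM) (I : Finset ℕ) (t : ℕ → Fin 3 → ℕ) (a : ℕ) (Z : Finset ℕ), N.E.card < n → N.Reg →
    N.VC → N.Loopless → N.Ports I t → a ∈ N.E → N.Struct I t a Z

namespace BM

variable {N P : BM} {I A B1 B2 L1 X0 : Finset ℕ} {t : ℕ → Fin 3 → ℕ} {s : Fin 3 → ℕ} {i e : ℕ}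
  {π : ℕ → ℕ}

theorem ss_tri_cl {X : Finset ℕ} {j k : Fin 3} (h : N.IsTri s) (hj : s j ∈ X) (hk : s k ∈ X)
    (hjk : j ≠ k) : tset s ⊆ N.cl X := by
  refine subset_cl_of_r h.subset ?_
  rw [← tb_pair h hjk, insert_eq_of_mem hk, insert_eq_of_mem hj]

theorem ss_vc (h : N.IsTri s) (H : ∀ Y ⊆ N.E, Disjoint Y (tset s) →
    min 2 (min (N.r Y) (N.r (N.E \ Y))) ≤ N.lam Y) : N.VC := by
  intro X hX
  by_contra hc
  have hp : N.Ports {0} fun _ => s := ⟨fun _ _ => h, fun i hi j hj hij =>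
    absurd ((mem_singleton.1 hi).trans (mem_singleton.1 hj).symm) hij⟩
  obtain ⟨Y, hY, h1, h2⟩ := hp.exists_closed hX (not_le.1 hc)
  rcases h1 0 (mem_singleton_self 0) with h1 | h1
  · have h3 := H (N.E \ Y) sdiff_subset (sdiff_disjoint.mono_right h1)
    rw [lam_compl hY, Finset.sdiff_sdiff_eq_self hY] at h3
    omega
  · have h3 := H Y hY h1.symm
    omega

theorem Tri.ss_left (h : N.Tri s B1 B2) : B1 ∪ tset s ⊆ N.E :=
  h.ground ▸ union_subset_union_left subset_union_left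

theorem Tri.ss_compl (h : N.Tri s B1 B2) : N.E \ B1 = B2 ∪ tset s := by
  rw [h.ground, union_assoc, union_sdiff_cancel_left (disjoint_union_right.2 ⟨h.d12, h.d1⟩)]

theorem Tri.mem_cl (h : N.Tri s B1 B2) (h1 : e ∈ N.cl (B1 ∪ tset s)) (h2 : e ∈ N.cl (B2 ∪ tset s)) :
    e ∈ N.cl (tset s) := by
  have a1 := (BM.mem_cl.1 h1).2
  have a2 := (BM.mem_cl.1 h2).2
  have a3 := N.r_submod (insert e (B1 ∪ tset s)) (insert e (B2 ∪ tset s))
  have a4 := N.r_mono (X := N.E) (Y := insert e (B1 ∪ tset s) ∪ insert e (B2 ∪ tset s)) (by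
    rw [h.ground, union_union_distrib_right]
    exact union_subset_union (subset_insert _ _) (subset_insert _ _))
  have a5 := N.r_mono (X := insert e (tset s))
    (Y := insert e (B1 ∪ tset s) ∩ insert e (B2 ∪ tset s))
    (subset_inter (insert_subset_insert _ subset_union_right)
      (insert_subset_insert _ subset_union_right))
  have a6 := h.rk
  have a7 := h.tri.rk
  have a8 := N.r_le_insert e (tset s)
  exact BM.mem_cl.2 ⟨(BM.mem_cl.1 h1).1, by omega⟩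

theorem Tri.vc_side (h : N.Tri s B1 B2) (hv : N.VC) : (N.res (B1 ∪ tset s)).VC := by
  refine ss_vc (h.tri.res subset_union_right) fun Y hY hd => ?_
  rw [h.res_E] at hY
  have hB : Y ⊆ B1 := fun x hx => (mem_union.1 (hY hx)).resolve_right (disjoint_left.1 hd hx)
  have a1 := (N.res (B1 ∪ tset s)).lam_add Y
  have a2 := N.lam_add Y
  have a3 := hv Y (hY.trans h.ss_left)
  have a4 := h.r_union (X1 := B1 \ Y) (X2 := B2) (sdiff_subset.trans subset_union_left)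
    subset_union_left
  have a5 := h.rk
  have e1 : N.E \ Y = B1 \ Y ∪ B2 ∪ tset s := by
    rw [h.ground, union_sdiff_distrib, union_sdiff_distrib, sdiff_eq_self_of_disjoint hd.symm,
      sdiff_eq_self_of_disjoint (h.d12.mono_left hB).symm]
  have e2 : (B1 ∪ tset s) \ Y = B1 \ Y ∪ tset s := by
    rw [union_sdiff_distrib, sdiff_eq_self_of_disjoint hd.symm]
  have a6 := N.r_mono (X := B1 \ Y ∪ tset s) (Y := B1 \ Y ∪ B2 ∪ tset s)
    (union_subset_union_left subset_union_left)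
  rw [h.res_E, N.r_res_of_subset hY, N.r_res_of_subset sdiff_subset, e2] at a1 ⊢
  rw [N.r_res_of_subset Subset.rfl] at a1
  rw [e1] at a2 a3
  omega

theorem TriS.vc_side (h : P.TriS s L1 A) (hv : (P.del (tset s)).VC) :
    (P.res (A ∪ tset s)).VC := by
  refine ss_vc (h.tri.res subset_union_right) fun Y hY hd => ?_
  rw [h.toTri.symm.res_E] at hY
  have hB : Y ⊆ A := fun x hx => (mem_union.1 (hY hx)).resolve_right (disjoint_left.1 hd hx)
  have a1 := h.toTri.lam_le h.r_eq hB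
  have a2 := hv Y (by rw [h.toTri.del_E]; exact hB.trans subset_union_right)
  have a3 := P.r_mono (X := L1) (Y := (L1 ∪ A) \ Y)
    (subset_sdiff.2 ⟨subset_union_left, h.d12.mono_right hB⟩)
  have a4 := P.r_mono (X := tset s) (Y := L1 ∪ tset s) subset_union_right
  have a5 := h.s1
  have a6 := h.tri.rk
  rw [h.toTri.del_E, P.r_del_of_disjoint hd, P.r_del_of_disjoint
    ((disjoint_union_left.2 ⟨h.d1, h.d2⟩).mono_left sdiff_subset)] at a2
  rw [P.r_res_of_subset hY]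
  omega

theorem TriS.loopless_side (h : P.TriS s L1 A) (hv : (P.del (tset s)).Loopless) :
    (P.res (A ∪ tset s)).Loopless := by
  intro e he
  rw [h.toTri.symm.res_E] at he
  rw [P.r_res_of_subset (singleton_subset_iff.2 he)]
  rcases mem_union.1 he with he | he
  · rw [← P.r_del_of_disjoint (disjoint_singleton_left.2 (disjoint_left.1 h.d2 he))]
    exact hv e (by rw [h.toTri.del_E]; exact mem_union_right _ he)
  · exact (h.tri.indep (singleton_subset_iff.2 he) (by simp)).r_eq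

theorem Tri.span_of_vc (h : N.Tri s B1 B2) (hv : N.VC) (h2 : 2 ≤ N.r B1) :
    N.r (B1 ∪ tset s) = N.r B1 := by
  have a1 := hv B1 (subset_union_left.trans h.ss_left)
  have a2 := N.lam_add B1
  have a3 := h.rk
  have a4 := N.r_mono (X := tset s) (Y := B2 ∪ tset s) subset_union_right
  have a5 := h.tri.rk
  have a6 := N.r_mono (X := B1) (Y := B1 ∪ tset s) subset_union_left
  rw [h.ss_compl] at a1 a2
  omega

theorem Tri.two_le_r (h : N.Tri s B1 B2) (hv : N.VC) (hl : N.Loopless) {D : Finset ℕ} (hD : D ⊆ B1)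
    (hD' : B1 \ N.cl (tset s) ⊆ D) (hne : (B1 \ N.cl (tset s)).Nonempty) : 2 ≤ N.r D := by
  obtain ⟨e, he⟩ := hne
  have hE : B1 \ N.cl (tset s) ⊆ N.E := sdiff_subset.trans (subset_union_left.trans h.ss_left)
  have a0 := N.r_mono hD'
  have a1 := hv _ hE
  have a2 := N.lam_add (B1 \ N.cl (tset s))
  have a3 := h.rk
  have a4 := h.tri.rk
  have a5 := N.r_mono (singleton_subset_iff.2 he)
  have a6 := hl e (hE he)
  have a7 := N.r_mono (X := N.E \ (B1 \ N.cl (tset s))) (Y := N.cl (B2 ∪ tset s)) fun x hx => by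
    obtain ⟨x1, x2⟩ := mem_sdiff.1 hx
    by_cases x3 : x ∈ B1
    · by_contra x4
      exact x2 (mem_sdiff.2 ⟨x3, fun x5 => x4 (N.cl_mono subset_union_right x5)⟩)
    · exact subset_cl h.symm.ss_left (h.ss_compl ▸ mem_sdiff.2 ⟨x1, x3⟩)
  have a8 := N.r_mono (X := tset s) (Y := N.E \ (B1 \ N.cl (tset s)))
    (subset_sdiff.2 ⟨h.tri.subset, (h.d1.mono_left sdiff_subset).symm⟩)
  have a9 : N.r (insert e (tset s)) ≠ N.r (tset s) := fun hh =>
    (mem_sdiff.1 he).2 (BM.mem_cl.2 ⟨hE he, hh⟩)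
  have b1 := N.r_le_insert e (tset s)
  have b2 := N.r_mono (X := insert e (tset s)) (Y := B1 ∪ tset s)
    (insert_subset (mem_union_left _ (mem_sdiff.1 he).1) subset_union_right)
  have _ := hD
  rw [r_cl] at a7
  omega

theorem Ports.exists_pclosed (h : N.Ports I t) (hA : A ⊆ N.E) :
    ∃ A' ⊆ N.E, PClosed I t A' ∧ A' ⊆ N.cl A ∧ N.E \ A' ⊆ N.cl (N.E \ A) ∧
      ∀ i ∈ I, tset (t i) ⊆ A → tset (t i) ⊆ A' := by
  have m : ∀ x, x ∈ (A \ pts I t) ∪ pts (I.filter fun i => tset (t i) ⊆ N.cl A) t ↔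
      (x ∈ A ∧ ∀ i ∈ I, x ∉ tset (t i)) ∨ ∃ i ∈ I, tset (t i) ⊆ N.cl A ∧ x ∈ tset (t i) := by
    intro x
    simp [pts, and_assoc]
  have c : (A \ pts I t) ∪ pts (I.filter fun i => tset (t i) ⊆ N.cl A) t ⊆ N.cl A := fun x hx => by
    rcases (m x).1 hx with h1 | ⟨i, _, h1, h2⟩
    · exact subset_cl hA h1.1
    · exact h1 h2
  refine ⟨_, c.trans (N.cl_subset A), fun i hi => ?_, c, fun x hx => ?_, fun i hi h1 x hx =>
    (m x).2 (Or.inr ⟨i, hi, h1.trans (subset_cl hA), hx⟩)⟩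
  · by_cases h1 : tset (t i) ⊆ N.cl A
    · exact Or.inl fun x hx => (m x).2 (Or.inr ⟨i, hi, h1, hx⟩)
    · refine Or.inr (disjoint_left.2 fun x hx h2 => ?_)
      rcases (m x).1 h2 with h3 | ⟨j, hj, h3, h4⟩
      · exact h3.2 i hi hx
      · exact disjoint_left.1 (h.disj i hi j hj fun hh => h1 (hh ▸ h3)) hx h4
  · obtain ⟨x1, x2⟩ := mem_sdiff.1 hx
    by_cases x3 : x ∈ A
    swap
    · exact subset_cl sdiff_subset (mem_sdiff.2 ⟨x1, x3⟩)
    rw [m] at x2
    push Not at x2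
    obtain ⟨i, hi, x4⟩ := x2.1 x3
    obtain ⟨k, rfl⟩ := mem_tset.1 x4
    obtain ⟨j, l, h1, h2, h3⟩ := tc_other k
    have n : ∀ j, k ≠ j → t i j ∈ N.E \ A := fun j hj => mem_sdiff.2
      ⟨(h.tri i hi).subset (td_mem _ j), fun hh => x2.2 i hi (ss_tri_cl (h.tri i hi) x3 hh hj) x4⟩
    exact ss_tri_cl (h.tri i hi) (n j h1) (n l h2) h3 x4

theorem Tri.pclose (h : N.Tri (t i) B1 B2) (hp : N.Ports I t) (hi : i ∈ I) :
    ∃ B1' B2', N.Tri (t i) B1' B2' ∧ PClosed I t B1' ∧ PClosed I t B2' ∧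
      B1 \ N.cl (tset (t i)) ⊆ B1' ∧ B2 \ N.cl (tset (t i)) ⊆ B2' ∧
      B1' ⊆ N.cl (B1 ∪ tset (t i)) ∧ B2' ⊆ N.cl (B2 ∪ tset (t i)) ∧
      ∀ j ∈ I, tset (t j) ⊆ B1 → tset (t j) ⊆ B1' := by
  obtain ⟨A', hA, c1, c2, c3, c4⟩ := hp.exists_pclosed h.ss_left
  have hT : tset (t i) ⊆ A' := c4 i hi subset_union_right
  have c5 : N.E \ A' ⊆ N.cl (B2 ∪ tset (t i)) := c3.trans (N.cl_mono fun x hx => by
    rw [← h.ss_compl]
    exact mem_sdiff.2 ⟨(mem_sdiff.1 hx).1, fun hh => (mem_sdiff.1 hx).2 (mem_union_left _ hh)⟩)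
  have u1 : B1 ⊆ N.cl (B1 ∪ tset (t i)) := subset_union_left.trans (subset_cl h.ss_left)
  have u2 : B2 ⊆ N.cl (B2 ∪ tset (t i)) := subset_union_left.trans (subset_cl h.symm.ss_left)
  refine ⟨A' \ tset (t i), N.E \ A', ⟨h.tri, ?_, disjoint_sdiff.mono_left sdiff_subset,
    sdiff_disjoint, sdiff_disjoint.mono_right hT, ?_⟩, fun j hj => ?_, fun j hj => ?_,
    fun x hx => ?_, fun x hx => ?_, sdiff_subset.trans c2, c5, fun j hj h1 =>
    subset_sdiff.2 ⟨c4 j hj (h1.trans subset_union_left), h.d1.mono_left h1⟩⟩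
  · rw [union_right_comm, sdiff_union_of_subset hT, union_sdiff_of_subset hA]
  · have a1 := N.r_mono c2
    have a2 := N.r_mono (union_subset c5 (subset_union_right.trans (subset_cl h.symm.ss_left)))
    have a3 := N.r_submod A' (N.E \ A' ∪ tset (t i))
    have a4 := N.r_mono (X := N.E) (Y := A' ∪ (N.E \ A' ∪ tset (t i))) (by
      rw [← union_assoc, union_sdiff_of_subset hA]
      exact subset_union_left)
    have a5 := N.r_mono (X := tset (t i)) (Y := A' ∩ (N.E \ A' ∪ tset (t i)))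
      (subset_inter hT subset_union_right)
    have a6 := h.rk
    have a7 := h.tri.rk
    rw [r_cl] at a1 a2
    rw [sdiff_union_of_subset hT]
    omega
  · by_cases hij : j = i
    · exact Or.inr (hij ▸ disjoint_sdiff)
    · exact (c1 j hj).imp (fun h1 => subset_sdiff.2 ⟨h1, hp.disj j hj i hi hij⟩)
        fun h1 => h1.mono_right sdiff_subset
  · rcases c1 j hj with h1 | h1
    · exact Or.inr (disjoint_sdiff.mono_left h1)
    · exact Or.inl (subset_sdiff.2 ⟨(hp.tri j hj).subset, h1⟩)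
  · obtain ⟨x1, x2⟩ := mem_sdiff.1 hx
    refine mem_sdiff.2 ⟨?_, disjoint_left.1 h.d1 x1⟩
    by_contra x3
    exact x2 (h.mem_cl (u1 x1) (c5 (mem_sdiff.2 ⟨N.cl_subset _ (u1 x1), x3⟩)))
  · obtain ⟨x1, x2⟩ := mem_sdiff.1 hx
    exact mem_sdiff.2 ⟨N.cl_subset _ (u2 x1), fun x3 => x2 (h.mem_cl (c2 x3) (u2 x1))⟩

theorem VC.conn3_si (hv : N.VC) (h0 : X0 ⊆ N.E) (h1 : ∀ x ∈ N.E, π x ∈ X0) (h2 : ∀ x ∈ X0, π x = x)
    (hs : (N.res X0).Simple) (h : N = (N.res X0).pull π N.E) : (N.res X0).Conn3 := by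
  have hE : (N.res X0).E = X0 := inter_eq_right.2 h0
  have key : ∀ Y ⊆ N.E, N.r Y = (N.res X0).r (Y.image π) := fun Y hY =>
    (congrArg (fun K : BM => K.r Y) h).trans (r_pull (fun x hx => hE.symm ▸ h1 x hx) hY)
  refine VC.conn3 (fun X hX => ?_) hs
  rw [hE] at hX
  have e1 : (N.E.filter fun x => π x ∈ X).image π = X := by
    ext y
    simp only [mem_image, mem_filter]
    exact ⟨fun ⟨x, hx, e⟩ => e ▸ hx.2, fun hy => ⟨y, ⟨h0 (hX hy), (h2 y (hX hy)).symm ▸ hy⟩,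
      h2 y (hX hy)⟩⟩
  have e2 : (N.E \ N.E.filter fun x => π x ∈ X).image π = X0 \ X := by
    ext y
    simp only [mem_image, mem_filter, mem_sdiff]
    exact ⟨fun ⟨x, hx, e⟩ => e ▸ ⟨h1 x hx.1, fun hh => hx.2 ⟨hx.1, hh⟩⟩,
      fun hy => ⟨y, ⟨h0 hy.1, fun hh => hy.2 (h2 y hy.1 ▸ hh.2)⟩, h2 y hy.1⟩⟩
  have e3 : N.E.image π = X0 := by
    ext y
    simp only [mem_image]
    exact ⟨fun ⟨x, hx, e⟩ => e ▸ h1 x hx, fun hy => ⟨y, h0 hy, h2 y hy⟩⟩
  have a1 := hv _ (filter_subset (fun x => π x ∈ X) N.E)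
  unfold lam at a1 ⊢
  rw [key _ (filter_subset _ _), key _ sdiff_subset, key _ Subset.rfl, e1, e2, e3] at a1
  rw [hE]
  exact a1

theorem small_graphic (hr : N.Reg) (hv : N.VC) (hl : N.Loopless) (h : N.E.card ≤ 8) :
    N.Graphic := by
  obtain ⟨X0, π, h0, h1, h2, hs, he⟩ := hl.exists_si
  have hc : (N.res X0).E.card ≤ 8 := (card_le_card inter_subset_left).trans h
  rcases tutte3 (hr.res X0) (hv.conn3_si h0 h1 h2 hs he) with h3 | h3 | h3
  · rw [he]
    exact h3.pull fun x hx => mem_inter.2 ⟨h0 (h1 x hx), h1 x hx⟩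
  · have := h3.card_le
    rw [show K33.dual.E.card = 9 from card_range 9] at this
    omega
  · have := h3.card_le
    rw [show K5.dual.E.card = 10 from card_range 10] at this
    omega

end BM

end Pool.Agent.P.MP_3f5ce9_co
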