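import Pool.Agent.P.MP_3f5ce9_co.W.SaDefs

/-!
Small cycles, orthogonality, single element minors.
-/

open Finset

namespace Pool.Agent.P.MP_3f5ce9_co

namespace BM

variable {M N P : BM} {A C D X : Finset ℕ} {e x y z k : ℕ}

theorem Simple.girth (h : M.Simple) : M.Girth 3 := by
  intro C hC hne
  by_contra hlt
  have h1 := (h C (M.sub C hC) (by omega)).2 C hC Subset.rfl
  exact hne.ne_empty h1

theorem simple_of_girth (h : M.Girth 3) : M.Simple := by
  intro X hX hc
  refine ⟨hX, fun C hC hCX => ?_⟩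
  by_contra hne
  have h1 := h C hC (nonempty_iff_ne_empty.2 hne)
  have h2 := card_le_card hCX
  omega

theorem Simple.cyc_eq (h : M.Simple) (hC : M.cyc C) (hc : C.card ≤ 2) : C = ∅ := by
  exact (h C (M.sub C hC) hc).2 C hC Subset.rfl

theorem Simple.not_pair (h : M.Simple) (x y : ℕ) : ¬ M.cyc {x, y} := by
  intro hC
  have h1 := h.cyc_eq hC card_le_two
  exact (insert_nonempty x {y}).ne_empty h1

theorem Simple.not_single (h : M.Simple) (x : ℕ) : ¬ M.cyc {x} := by
  intro hC
  have h1 := h.cyc_eq hC (by simp)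
  exact (singleton_nonempty x).ne_empty h1

theorem simple_of_pair (h : ∀ x y, ¬ M.cyc {x, y}) : M.Simple := by
  refine simple_of_girth fun C hC hne => ?_
  by_contra hlt
  have h1 := hne.card_pos
  rcases (by omega : C.card = 1 ∨ C.card = 2) with h2 | h2
  · obtain ⟨a, rfl⟩ := card_eq_one.1 h2
    exact h a a (by simpa using hC)
  · obtain ⟨a, b, -, rfl⟩ := card_eq_two.1 h2
    exact h a b hC

theorem Simple.loopless (h : M.Simple) : M.Loopless := by
  intro e he
  have h1 := (h {e} (singleton_subset_iff.2 he) (by simp)).r_eq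
  simpa using h1

theorem Loopless.not_cyc (h : M.Loopless) (e : ℕ) : ¬ M.cyc {e} := by
  intro hC
  have he : e ∈ M.E := M.sub _ hC (mem_singleton_self e)
  have h1 := (cyc_singleton_iff he).1 hC
  have h2 := h e he
  omega

theorem loopless_of_cyc (h : ∀ e, ¬ M.cyc {e}) : M.Loopless := by
  intro e he
  have h1 := mt (cyc_singleton_iff he).2 (h e)
  have h2 := M.r_le_card {e}
  rw [card_singleton] at h2
  omega

theorem Simple.con_loopless (h : M.Simple) (e : ℕ) : (M.con {e}).Loopless := by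
  refine loopless_of_cyc fun x hx => ?_
  obtain ⟨C, hC, h1⟩ := hx
  have h2 : C ⊆ {x, e} := by
    intro t ht
    by_cases hte : t = e
    · simp [hte]
    · have h3 : t ∈ C \ {e} := by simp [ht, hte]
      rw [← h1] at h3
      simp [mem_singleton.1 h3]
  have h3 := h.cyc_eq hC ((card_le_card h2).trans card_le_two)
  rw [h3] at h1
  simp at h1

/-- deleting one element of a cosimple matroid creates no coloop -/
theorem Simple.del_coloopless (h : M.dual.Simple) (e : ℕ) : (M.del {e}).dual.Loopless := by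
  rw [dual_del]
  exact h.con_loopless e

theorem cyc_other (hC : M.cyc C) (hD : M.dual.cyc D) (h1 : e ∈ C) (h2 : e ∈ D) :
    ∃ x ∈ C, x ∈ D ∧ x ≠ e := by
  exact du_two hC hD h1 h2

theorem cyc_fourth (hC : M.cyc C) (hD : M.dual.cyc D) (hn : [x, y, z].Nodup)
    (h1 : x ∈ C ∧ y ∈ C ∧ z ∈ C) (h2 : x ∈ D ∧ y ∈ D ∧ z ∈ D) :
    ∃ t ∈ C, t ∈ D ∧ t ≠ x ∧ t ≠ y ∧ t ≠ z := by
  by_contra hno
  push Not at hno
  have h3 : C ∩ D = {x, y, z} := by
    ext t
    simp only [mem_inter, mem_insert, mem_singleton]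
    constructor
    · rintro ⟨a, b⟩
      by_contra hne
      push Not at hne
      exact hne.2.2 (hno t a b hne.1 hne.2.1)
    · rintro (rfl | rfl | rfl) <;> tauto
  have h4 := even_inter hC hD
  simp at hn
  rw [h3, card_eq_three.2 ⟨x, y, z, hn.1.1, hn.1.2, hn.2, rfl⟩] at h4
  exact absurd h4 (by decide)

theorem cyc_del_iff : (M.del D).cyc C ↔ M.cyc C ∧ Disjoint C D := Iff.rfl

theorem cocyc_con_iff : (M.con D).dual.cyc C ↔ M.dual.cyc C ∧ Disjoint C D := by
  rw [dual_con]
  rfl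

theorem cyc_con_of (hC : M.cyc C) (D : Finset ℕ) : (M.con D).cyc (C \ D) := ⟨C, hC, rfl⟩

theorem cocyc_del_iff : (M.del D).dual.cyc C ↔ ∃ C', M.dual.cyc C' ∧ C = C' \ D := by
  rw [dual_del]
  rfl

theorem cocyc_del_of (hC : M.dual.cyc C) (D : Finset ℕ) : (M.del D).dual.cyc (C \ D) := by
  exact cocyc_del_iff.2 ⟨C, hC, rfl⟩

theorem cyc_con_single : (M.con {e}).cyc C ↔ e ∉ C ∧ (M.cyc C ∨ M.cyc (insert e C)) := by
  constructor
  · rintro ⟨C', hC, rfl⟩
    refine ⟨by simp, ?_⟩
    by_cases he : e ∈ C'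
    · right
      rw [sdiff_singleton_eq_erase, insert_erase he]
      exact hC
    · left
      rw [sdiff_singleton_eq_erase, erase_eq_of_notMem he]
      exact hC
  · rintro ⟨he, hC | hC⟩
    · exact ⟨C, hC, by rw [sdiff_singleton_eq_erase, erase_eq_of_notMem he]⟩
    · exact ⟨_, hC, by rw [sdiff_singleton_eq_erase, erase_insert he]⟩

theorem cocyc_del_single :
    (M.del {e}).dual.cyc C ↔ e ∉ C ∧ (M.dual.cyc C ∨ M.dual.cyc (insert e C)) := by
  rw [dual_del]
  exact cyc_con_single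

theorem r_lt_of_cyc (hC : M.cyc C) (hne : C.Nonempty) : M.r C + 1 ≤ C.card := by
  by_contra hlt
  have h1 := M.r_le_card C
  have h2 : M.Indep C := indep_iff.2 ⟨M.sub C hC, by omega⟩
  exact hne.ne_empty (h2.2 C hC Subset.rfl)

theorem r_pair_le (h : M.cyc {x, y}) : M.r {x, y} ≤ 1 := by
  have h1 := r_lt_of_cyc h (insert_nonempty x {y})
  have h2 : ({x, y} : Finset ℕ).card ≤ 2 := card_le_two
  omega

theorem Loopless.cyc_pair (hl : M.Loopless) (hX : X ⊆ M.E) (h : M.r X ≤ 1) (hx : x ∈ X)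
    (hy : y ∈ X) (hne : x ≠ y) : M.cyc {x, y} := by
  have h1 := hl x (hX hx)
  have h2 := hl y (hX hy)
  refine (cyc_pair_iff (hX hx) (hX hy) hne h1).2 ⟨?_, h2⟩
  have h3 : M.r {x, y} ≤ M.r X := M.r_mono (by
    intro t ht
    rcases mem_insert.1 ht with rfl | ht
    · exact hx
    · rw [mem_singleton.1 ht]
      exact hy)
  have h4 : M.r {y} ≤ M.r {x, y} := M.r_le_insert x {y}
  omega

theorem r_insert_of_cyc (hC : M.cyc C) (he : e ∈ C) (h : C ⊆ insert e X) :
    M.r (insert e X) = M.r X := by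
  exact (r_insert_eq_iff (M.sub C hC he)).2 (Or.inr ⟨C, hC, he, h⟩)

theorem exists_cyc_of_cl (he : e ∈ M.cl X) (heX : e ∉ X) :
    ∃ C, M.cyc C ∧ e ∈ C ∧ C ⊆ insert e X := by
  obtain ⟨h1, h2⟩ := mem_cl.1 he
  exact ((r_insert_eq_iff h1).1 h2).resolve_left heX

theorem r_insert_of_cocyc (hD : M.dual.cyc D) (he : e ∈ D) (hX : Disjoint X D) :
    M.r (insert e X) = M.r X + 1 := by
  have h1 := not_mem_cl_of_cocyc hD he hX
  have h2 : e ∈ M.E := hD.1 he
  have h3 := M.r_insert_le e X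
  have h4 := M.r_le_insert e X
  have h5 : M.r (insert e X) ≠ M.r X := fun h => h1 (mem_cl.2 ⟨h2, h⟩)
  omega

theorem mem_cl_of_not_coloop (he : e ∈ M.E) (h : ¬ M.dual.cyc {e}) : e ∈ M.cl (M.E.erase e) := by
  by_contra hn
  have h1 : M.r (insert e (M.E.erase e)) ≠ M.r (M.E.erase e) := fun h => hn (mem_cl.2 ⟨he, h⟩)
  rw [insert_erase he] at h1
  have h2 := M.r_le_erase e M.E
  have h3 := M.r_le_rE (M.E.erase e)
  have h4 := cocyc_of_hyperplane (M := M) (X := M.E.erase e) (by omega)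
  have h5 : M.E \ M.cl (M.E.erase e) = {e} := by
    ext t
    rw [mem_sdiff, mem_singleton]
    constructor
    · rintro ⟨a, b⟩
      by_contra hne
      exact b (subset_cl (erase_subset e M.E) (mem_erase.2 ⟨hne, a⟩))
    · rintro rfl
      exact ⟨he, hn⟩
  rw [h5] at h4
  exact h h4

theorem r_erase_of_not_coloop (h : ¬ M.dual.cyc {e}) : M.r (M.E.erase e) = M.r M.E := by
  by_cases he : e ∈ M.E
  · have h1 := (mem_cl.1 (mem_cl_of_not_coloop he h)).2
    rw [insert_erase he] at h1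
    exact h1.symm
  · rw [erase_eq_of_notMem he]

theorem r_del_single (h : ¬ M.dual.cyc {e}) : (M.del {e}).r (M.del {e}).E = M.r M.E := by
  rw [r_del, del_E, Finset.sdiff_idem, sdiff_singleton_eq_erase]
  exact r_erase_of_not_coloop h

theorem r_con_single (he : e ∈ M.E) (h : ¬ M.cyc {e}) :
    (M.con {e}).r (M.con {e}).E + 1 = M.r M.E := by
  have h1 := M.r_con {e} (M.con {e}).E
  have h2 := mt (cyc_singleton_iff he).2 h
  have h3 := M.r_le_card {e}
  rw [card_singleton] at h3
  rw [con_E, sdiff_union_of_subset (singleton_subset_iff.2 he)] at h1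
  rw [con_E]
  omega

theorem con_eq_del_of_coloop (h : M.dual.cyc {e}) : M.con {e} = M.del {e} := by
  have h0 : ∀ C, M.cyc C → e ∉ C := fun C hC he => by
    obtain ⟨x, -, h1, h2⟩ := cyc_other hC h he (mem_singleton_self e)
    exact h2 (mem_singleton.1 h1)
  refine ext_cyc rfl fun C => ?_
  rw [cyc_con_single, cyc_del_iff, disjoint_singleton_right]
  constructor
  · rintro ⟨h1, h2 | h2⟩
    · exact ⟨h2, h1⟩
    · exact absurd (mem_insert_self e C) (h0 _ h2)
  · rintro ⟨h1, h2⟩
    exact ⟨h2, Or.inl h1⟩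

theorem card_del_single (he : e ∈ M.E) : (M.del {e}).E.card + 1 = M.E.card := by
  rw [del_E, sdiff_singleton_eq_erase]
  exact card_erase_add_one he

theorem card_con_single (he : e ∈ M.E) : (M.con {e}).E.card + 1 = M.E.card := by
  rw [con_E, sdiff_singleton_eq_erase]
  exact card_erase_add_one he

theorem Conn3.cosimple (h : M.Conn3) (h4 : 4 ≤ M.E.card) : M.dual.Simple := by
  exact h.dual.simple h4

theorem Conn3.two_le (h : M.Conn3) (hX : X ⊆ M.E) (h1 : 2 ≤ X.card) (h2 : X.card + 2 ≤ M.E.card) :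
    2 ≤ M.lam X := by
  have h3 := h X hX
  rw [card_sdiff_of_subset hX] at h3
  omega

/-- a set of small rank and corank is almost everything -/
theorem Conn3.card_le (h : M.Conn3) (hX : X ⊆ M.E) (h2 : 2 ≤ X.card)
    (hl : M.r X + M.dual.r X ≤ X.card + 1) : M.E.card ≤ X.card + 1 := by
  by_contra hlt
  have h3 := h.two_le hX h2 (by omega)
  have h4 := lam_eq hX
  omega

theorem cyc_inter_of_lam (hA : A ⊆ M.E) (h : M.lam A = 0) (hC : M.cyc C) : M.cyc (C ∩ A) := by
  have h1 := eq_sum_of_lam hA h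
  rw [h1] at hC
  obtain ⟨D, D', h2, h3, rfl⟩ := hC
  have h4 : symmDiff D D' ∩ A = D := by
    ext t
    have h5 := @h2.2 t
    have h6 := fun a : t ∈ D' => disjoint_left.1 h3.2 a
    simp only [mem_inter, mem_symmDiff]
    tauto
  rw [h4]
  exact h2.1

theorem Simple.card_le_three (h : M.Simple) (hr : M.r M.E ≤ 2) : M.E.card ≤ 3 := by
  obtain ⟨B, hB⟩ := M.exists_base
  have hc : B.card ≤ 2 := hB.2.trans_le hr
  have h1 : ∀ e ∈ M.E \ B, M.cyc (insert e B) := by
    intro e he
    obtain ⟨he1, he2⟩ := mem_sdiff.1 he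
    obtain ⟨C, hC, h2, h3⟩ := hB.exists_cyc he1 he2
    have h4 := h.girth C hC ⟨e, h2⟩
    have h5 : (insert e B).card ≤ C.card := by
      rw [card_insert_of_notMem he2]
      omega
    rw [← eq_of_subset_of_card_le h3 h5]
    exact hC
  have h2 : (M.E \ B).card ≤ 1 := by
    refine card_le_one.2 fun a ha b hb => ?_
    by_contra hne
    have h3 := M.sd _ _ (h1 a ha) (h1 b hb)
    have h4 : symmDiff (insert a B) (insert b B) = {a, b} := by
      have h5 := (mem_sdiff.1 ha).2
      have h6 := (mem_sdiff.1 hb).2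
      ext t
      simp only [mem_symmDiff, mem_insert, mem_singleton]
      grind
    rw [h4] at h3
    exact h.not_pair a b h3
  rw [card_sdiff_of_subset hB.subset] at h2
  omega

theorem NOK.dual (h : N.NOK) : N.dual.NOK := by
  exact ⟨h.conn.dual, h.c3, by rw [dual_dual]; exact h.r3⟩

theorem NOK.card (h : N.NOK) : 6 ≤ N.E.card := by
  have h1 := N.r_dual_E
  have h2 := h.r3
  have h3 := h.c3
  omega

theorem NOK.simple (h : N.NOK) : N.Simple := by
  exact h.conn.simple (by have := h.card; omega)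

theorem NOK.cosimple (h : N.NOK) : N.dual.Simple := by
  exact h.conn.cosimple (by have := h.card; omega)

theorem HasMinor.of_del (h : (M.del D).HasMinor N) : M.HasMinor N := by
  exact (M.hasMinor_del D).trans h

theorem HasMinor.of_con (h : (M.con D).HasMinor N) : M.HasMinor N := by
  exact (M.hasMinor_con D).trans h

theorem HasMinor.of_dual (h : M.dual.HasMinor N.dual) : M.HasMinor N := by
  have h1 := h.dual
  rwa [dual_dual, dual_dual] at h1

theorem HasMinor.rd_le (h : M.HasMinor N) : N.dual.r N.E ≤ M.dual.r M.E := by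
  exact h.dual.r_le

theorem HasMinor.card_lt (h : M.HasMinor N) (hr : N.dual.r N.E < M.dual.r M.E) :
    N.E.card < M.E.card := by
  by_contra hlt
  have h1 := (h.iso (by omega)).dual.symm.hasMinor.r_le
  rw [dual_E, dual_E] at h1
  omega

theorem HasMinor.card_lt' (h : M.HasMinor N) (hr : N.r N.E < M.r M.E) : N.E.card < M.E.card := by
  by_contra hlt
  have h1 := (h.iso (by omega)).symm.hasMinor.r_le
  omega

theorem Iso.r_eq (h : M.Iso N) : M.r M.E = N.r N.E := by
  exact le_antisymm h.symm.hasMinor.r_le h.hasMinor.r_le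

theorem Iso.girth (h : M.Iso N) (hg : N.Girth k) : M.Girth k := by
  obtain ⟨f, h1, h2, h3⟩ := iso_iff_pull.1 h.symm
  intro C hC hne
  have h4 := M.sub C hC
  rw [h3, cyc_pull_inj h1] at hC
  have h5 := hg _ hC.2 (hne.image f)
  exact h5.trans card_image_le

theorem Iso.dom (h : M.Iso N) (hg : N.Dom) : M.Dom := by
  obtain ⟨f, h1, h2, h3⟩ := iso_iff_pull.1 h.symm
  have h4 : M.dual = N.dual.pull f M.E := by
    rw [← dual_pull_bij h1 h2, ← h3]
  have h0 : ∀ x ∈ M.E, f x ∈ N.E := fun x hx => h2 ▸ mem_image_of_mem f hx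
  have h5 : ∀ X ⊆ M.E, M.r X = N.r (X.image f) := fun X hX => by
    rw [← r_pull h0 hX, ← h3]
  intro D D' hD hD' c1 c2 c3
  have s1 : D ⊆ M.E := hD.1
  have s2 : D' ⊆ M.E := hD'.1
  rw [h4, cyc_pull_inj h1] at hD hD'
  have i1 : ∀ X ⊆ M.E, (X.image f).card = X.card := fun X hX =>
    card_image_of_injOn (h1.mono (coe_subset.2 hX))
  have h6 := hg _ _ hD.2 hD'.2 (by rw [i1 D s1, c1]) (by rw [i1 D' s2, c2]) (by
    rw [← image_inter_of_injOn D D' (h1.mono (by
      rw [← coe_union]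
      exact coe_subset.2 (union_subset s1 s2))), i1 _ (inter_subset_left.trans s1), c3])
  rw [h.r_eq, h5 _ (union_subset s1 s2), image_union]
  exact h6

theorem Iso.maxS (h : M.Iso N) (hg : N.MaxS) : M.MaxS := by
  intro Q h1 h2 h3 h4
  rw [h.card_eq]
  exact hg Q h1 h2 (h3.trans h.hasMinor) (h.r_eq ▸ h4)

/-- a regular cosimple matroid with an `N` minor and the corank of `N` -/
theorem MaxS.iso (h : N.dual.MaxS) (hr : P.Reg) (hs : P.dual.Simple) (hm : P.HasMinor N)
    (hc : P.dual.r P.E ≤ N.dual.r N.E) : P.Iso N := by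
  exact hm.iso (h P.dual hr.dual hs hm.dual hc)

end BM

end Pool.Agent.P.MP_3f5ce9_co
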