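import Pool.Agent.P.MP_3f5ce9_co.W.SaA

/-!
Parallel and series extensions.
-/

open Finset

namespace Pool.Agent.P.MP_3f5ce9_co

namespace BM

variable {Q N P : BM} {C D X : Finset ℕ} {e x y a b c d : ℕ}

theorem sab_rk (hc : Q.cyc {x, y}) (Z : Finset ℕ) : Q.r (insert x Z) = Q.r (insert y Z) := by
  have a := r_insert_of_cyc (e := x) (X := insert y Z) hc (by simp) (by simp [insert_subset_iff])
  have b := r_insert_of_cyc (e := y) (X := insert x Z) hc (by simp) (by simp [insert_subset_iff])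
  rw [insert_comm] at a
  omega

theorem sab_img (hc : Q.cyc {x, y}) (Z : Finset ℕ) :
    Q.r (Z.image fun z => if z = x then y else z) = Q.r Z := by
  have e1 : ∀ Z : Finset ℕ, x ∉ Z → (Z.image fun z => if z = x then y else z) = Z := fun Z h =>
    (image_congr (g := id) fun z hz => if_neg (ne_of_mem_of_not_mem hz h)).trans image_id
  by_cases h : x ∈ Z
  · rw [← insert_erase h, image_insert, e1 _ (notMem_erase _ _), if_pos rfl, sab_rk hc]
  · rw [e1 Z h]

theorem HasMinor.del_par (h : Q.HasMinor N) (hN : N.Simple) (hc : Q.cyc {x, y}) :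
    (Q.del {x}).HasMinor N := by
  obtain ⟨f, C, h⟩ := h
  obtain ⟨C, h, hI, -⟩ := h.exists_indep
  have one : ∀ i ∈ N.E, Q.r (insert (f i) C) = Q.r C + 1 := fun i hi => by
    have a1 := h.rk {i} (singleton_subset_iff.2 hi)
    have a2 := hN.loopless i hi
    rw [image_singleton, ← insert_eq] at a1
    omega
  have h1 : ∀ i ∈ N.E, ∀ c ∈ C, ¬ Q.cyc {f i, c} := fun i hi c hc' a => by
    have a1 := one i hi
    rw [sab_rk a, insert_eq_of_mem hc'] at a1
    omega
  have h2 : ∀ i ∈ N.E, ∀ j ∈ N.E, Q.cyc {f i, f j} → i = j := fun i hi j hj a => by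
    by_contra hne
    have s : ({i, j} : Finset ℕ) ⊆ N.E := insert_subset hi (singleton_subset_iff.2 hj)
    have a1 := h.rk _ s
    have a2 := (hN _ s card_le_two).r_eq
    have a3 := one j hj
    rw [image_insert, image_singleton, insert_union, ← insert_eq, sab_rk a, insert_idem] at a1
    rw [card_pair hne] at a2
    omega
  by_cases hxy : x = y
  · subst hxy
    rw [pair_eq_singleton] at hc
    refine ⟨f, C, h.del (disjoint_singleton_right.2 fun a => ?_)⟩
    rcases mem_union.1 a with a | a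
    · obtain ⟨i, hi, rfl⟩ := mem_image.1 a
      have a1 := one i hi
      rw [r_insert_of_cyc hc (mem_singleton_self _) (by simp)] at a1
      omega
    · exact singleton_ne_empty _ (hI.2 _ hc (singleton_subset_iff.2 a))
  have hy : y ∈ Q.E := Q.sub _ hc (by simp)
  have hc' : Q.cyc {y, x} := by rwa [pair_comm]
  have mp : ∀ z ∈ Q.E, (if z = x then y else z) ∈ (Q.del {x}).E := fun z hz => by
    rw [del_E, mem_sdiff, mem_singleton]
    split_ifs with a
    · exact ⟨hy, Ne.symm hxy⟩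
    · exact ⟨hz, a⟩
  have ds : ∀ Z ⊆ Q.E, (Q.del {x}).r (Z.image fun z => if z = x then y else z) = Q.r Z :=
    fun Z hZ => by
      rw [r_del_of_disjoint _ (subset_sdiff.1 (image_subset_iff.2 fun z hz => mp z (hZ hz))).2,
        sab_img hc]
  refine ⟨fun i => if f i = x then y else f i, C.image fun z => if z = x then y else z,
    fun i hi j hj a => ?_, image_subset_iff.2 fun z hz => mp z (h.sub hz),
    fun i hi => ⟨mp _ (h.maps i hi).1, fun a => ?_⟩, fun S hS => ?_⟩
  · beta_reduce at a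
    split_ifs at a with a1 a2 a2
    · exact h.inj hi hj (a1.trans a2.symm)
    · exact h2 i hi j hj (by rwa [a1, ← a])
    · exact h2 i hi j hj (by rwa [a2, a])
    · exact h.inj hi hj a
  · obtain ⟨c, c1, c2⟩ := mem_image.1 a
    split_ifs at c2 with a1 a2 a2
    · exact (h.maps i hi).2 (by rwa [a2, ← a1])
    · exact h1 i hi c c1 (by rwa [a1, ← c2])
    · exact h1 i hi c c1 (by rwa [a2, c2])
    · exact (h.maps i hi).2 (c2 ▸ c1)
  · have e1 : (S.image fun i => if f i = x then y else f i) =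
        (S.image f).image fun z => if z = x then y else z := by rw [image_image]; rfl
    rw [e1, ← image_union, ds _ h.sub, ds _ (union_subset
      (image_subset_iff.2 fun i hi => (h.maps i (hS hi)).1) h.sub), h.rk S hS]

theorem HasMinor.con_ser (h : Q.HasMinor N) (hN : N.dual.Simple) (hc : Q.dual.cyc {x, y}) :
    (Q.con {x}).HasMinor N := by
  have := h.dual.del_par hN hc
  rw [← dual_con] at this
  exact this.of_dual

theorem VC.del_par (h : Q.VC) (hc : Q.cyc {x, y}) : (Q.del {x}).VC := by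
  intro X hX
  obtain ⟨s1, s2⟩ := subset_sdiff.1 hX
  have hx : x ∈ Q.E := Q.sub _ hc (by simp)
  have hy : y ∈ Q.E := Q.sub _ hc (by simp)
  have xX : x ∉ X := disjoint_singleton_right.1 s2
  have a1 := (Q.del {x}).lam_add X
  have a2 := r_insert_of_cyc (e := x) (X := Q.E \ {x}) hc (by simp)
    (by rw [sdiff_singleton_eq_erase, insert_erase hx]; exact Q.sub _ hc)
  rw [sdiff_singleton_eq_erase, insert_erase hx, ← sdiff_singleton_eq_erase] at a2
  rw [del_E, r_del_of_disjoint _ s2, r_del_of_disjoint _ sdiff_disjoint,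
    r_del_of_disjoint _ (sdiff_disjoint.mono_left sdiff_subset)] at a1
  rw [del_E, r_del_of_disjoint _ s2, r_del_of_disjoint _ (sdiff_disjoint.mono_left sdiff_subset)]
  by_cases hyX : y ∈ X
  · have b1 := h _ (insert_subset hx s1)
    have b2 := Q.lam_add (insert x X)
    have e1 : Q.E \ insert x X = (Q.E \ {x}) \ X := by ext; simp; tauto
    rw [e1, r_insert_of_cyc hc (by simp) (by simp [insert_subset_iff, hyX])] at b1 b2
    omega
  · have b1 := h _ s1
    have b2 := Q.lam_add X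
    have e1 : Q.E \ X = insert x ((Q.E \ {x}) \ X) := by ext; simp; grind
    have e2 : ({x, y} : Finset ℕ) ⊆ Q.E \ X := by simp [insert_subset_iff, hx, hy, xX, hyX]
    rw [e1, r_insert_of_cyc hc (by simp) (e1 ▸ e2)] at b1 b2
    omega

theorem VC.ext (he : e ∈ Q.cl (Q.E.erase e)) (h : (Q.del {e}).VC) : Q.VC := by
  obtain ⟨hE, hr⟩ := mem_cl.1 he
  rw [insert_erase hE] at hr
  have key : ∀ X ⊆ Q.E, e ∈ X → min 2 (min (Q.r X) (Q.r (Q.E \ X))) ≤ Q.lam X := fun X hX h1 => by
    have e1 : (Q.E \ {e}) \ X.erase e = Q.E \ X := by ext; simp; grind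
    have d1 : Disjoint (X.erase e) {e} := by simp
    have d2 : Disjoint (Q.E \ X) {e} := by simp [h1]
    have a1 := h (X.erase e) (subset_sdiff.2 ⟨(erase_subset _ _).trans hX, d1⟩)
    have a2 := (Q.del {e}).lam_add (X.erase e)
    have a3 := Q.lam_add X
    have a4 := Q.r_le_erase e X
    have a5 := Q.r_mono (erase_subset e X)
    rw [del_E, e1, r_del_of_disjoint _ d1, r_del_of_disjoint _ d2] at a1 a2
    rw [r_del_of_disjoint _ sdiff_disjoint, sdiff_singleton_eq_erase] at a2
    omega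
  intro X hX
  by_cases h1 : e ∈ X
  · exact key X hX h1
  · have := key _ sdiff_subset (mem_sdiff.2 ⟨hE, h1⟩)
    rw [lam_compl hX, du_ss hX] at this
    omega

theorem VC.coc3 (h : Q.VC) (h3 : 3 ≤ Q.r Q.E) (hD : Q.dual.cyc D) (hne : D.Nonempty) :
    3 ≤ Q.r D := by
  obtain ⟨d, hd⟩ := hne
  have a1 := r_insert_of_cocyc (X := Q.E \ D) hD hd sdiff_disjoint
  have a2 := Q.r_le_rE (insert d (Q.E \ D))
  have a3 := Q.lam_add D
  have a4 := h D hD.1
  omega

theorem dok_iff : P.DOK N ↔ P.dual.COK N.dual := by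
  exact ⟨fun h => ⟨h.vc, h.ll, h.mn.dual⟩, fun h => ⟨h.vc, h.ll, h.mn.of_dual⟩⟩

theorem cok_iff : P.COK N ↔ P.dual.DOK N.dual := by
  rw [dok_iff, dual_dual, dual_dual]

theorem COK.del_par (h : P.COK N) (hN : N.NOK) (hc : P.cyc {x, y}) : (P.del {x}).COK N := by
  exact ⟨h.vc.del_par hc, loopless_of_cyc fun z hz => h.ll.not_cyc z hz.1,
    h.mn.del_par hN.simple hc⟩

theorem DOK.con_ser (h : P.DOK N) (hN : N.NOK) (hc : P.dual.cyc {x, y}) : (P.con {x}).DOK N := by
  rw [dok_iff, dual_con]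
  exact (dok_iff.1 h).del_par hN.dual hc

theorem COK.ext (h : (P.del {e}).COK N) (he : e ∈ P.E) (h1 : ¬ P.cyc {e})
    (h2 : ¬ P.dual.cyc {e}) : P.COK N := by
  refine ⟨VC.ext (mem_cl_of_not_coloop he h2) h.vc, loopless_of_cyc fun z hz => ?_, h.mn.of_del⟩
  by_cases a : z = e
  · exact h1 (a ▸ hz)
  · exact h.ll.not_cyc z ⟨hz, by simpa using a⟩

theorem DOK.coext (h : (P.con {e}).DOK N) (he : e ∈ P.E) (h1 : ¬ P.cyc {e})
    (h2 : ¬ P.dual.cyc {e}) : P.DOK N := by
  rw [dok_iff, dual_con] at h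
  exact dok_iff.2 (h.ext he h2 (by rwa [dual_dual]))

theorem DOK.ser_ext (h : (P.con {x}).DOK N) (hne : x ≠ y) (hc : P.dual.cyc {x, y}) : P.DOK N := by
  refine h.coext (hc.1 (by simp)) (fun a => ?_) fun a => ?_
  · obtain ⟨t, t1, -, t2⟩ := cyc_other a hc (mem_singleton_self _) (by simp)
    exact t2 (mem_singleton.1 t1)
  · have := P.dual.sd _ _ hc a
    rw [show symmDiff {x, y} {x} = ({y} : Finset ℕ) by ext; simp [mem_symmDiff]; grind] at this
    exact h.ll.not_cyc y (cocyc_con_iff.2 ⟨this, by simpa using hne.symm⟩)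

theorem COK.conn3 (h : P.COK N) (hs : ∀ x y, x ≠ y → ¬ P.cyc {x, y}) : P.Conn3 := by
  refine h.vc.conn3 (simple_of_pair fun x y a => ?_)
  by_cases e : x = y
  · exact h.ll.not_cyc y (by simpa [e] using a)
  · exact hs x y e a

theorem DOK.conn3 (h : P.DOK N) (hs : ∀ x y, x ≠ y → ¬ P.dual.cyc {x, y}) : P.Conn3 := by
  simpa using ((dok_iff.1 h).conn3 hs).dual

theorem Conn3.cok (h : P.Conn3) (hN : N.NOK) (hm : P.HasMinor N) : P.COK N := by
  have := hm.card_le
  have := hN.card
  exact ⟨h.vc, h.loopless (by omega), hm⟩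

theorem Conn3.dok (h : P.Conn3) (hN : N.NOK) (hm : P.HasMinor N) : P.DOK N := by
  exact dok_iff.2 (h.dual.cok hN.dual hm.dual)

theorem COK.coc3 (h : P.COK N) (hN : N.NOK) (hD : P.dual.cyc D) (hne : D.Nonempty) :
    3 ≤ P.r D := by
  exact h.vc.coc3 (hN.r3.trans h.mn.r_le) hD hne

theorem DOK.cyc3 (h : P.DOK N) (hN : N.NOK) (hC : P.cyc C) (hne : C.Nonempty) :
    3 ≤ P.dual.r C := by
  exact (dok_iff.1 h).coc3 hN.dual (by rwa [dual_dual]) hne

theorem COK.cosimple (h : P.COK N) (hN : N.NOK) : P.dual.Simple := by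
  exact simple_of_girth fun C hC hne => (h.coc3 hN hC hne).trans (P.r_le_card C)

theorem DOK.simple (h : P.DOK N) (hN : N.NOK) : P.Simple := by
  simpa using (dok_iff.1 h).cosimple hN.dual

/-- no cycle inside a series pair and one more element -/
theorem DOK.not_cyc1 (h : P.DOK N) (hN : N.NOK) (h1 : P.dual.cyc {a, b}) (hC : P.cyc C)
    (hne : C.Nonempty) (hs : C ⊆ {a, b, c}) : False := by
  have a1 := h.cyc3 hN hC hne
  have a2 := P.dual.r_mono (hs.trans
    (show ({a, b, c} : Finset ℕ) ⊆ insert c {a, b} by simp [insert_subset_iff]))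
  have a3 := P.dual.r_insert_le c {a, b}
  have a4 := r_pair_le h1
  omega

/-- no cycle inside two series pairs -/
theorem DOK.not_cyc2 (h : P.DOK N) (hN : N.NOK) (h1 : P.dual.cyc {a, b}) (h2 : P.dual.cyc {c, d})
    (hC : P.cyc C) (hne : C.Nonempty) (hs : C ⊆ {a, b, c, d}) : False := by
  have a1 := h.cyc3 hN hC hne
  have a2 := P.dual.r_mono (hs.trans
    (show ({a, b, c, d} : Finset ℕ) ⊆ {a, b} ∪ {c, d} by simp [insert_subset_iff]))
  have a3 := P.dual.r_union_le {a, b} {c, d}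
  have a4 := r_pair_le h1
  have a5 := r_pair_le h2
  omega

theorem COK.res_trans (h : P.COK N) (hN : N.NOK) (hX : X ⊆ P.E)
    (ht : ∀ y ∈ P.E, y ∉ X → ∃ x ∈ X, P.cyc {y, x}) : (P.res X).COK N := by
  induction hn : (P.E \ X).card generalizing P with
  | zero => rwa [P.res_self (sdiff_eq_empty_iff_subset.1 (card_eq_zero.1 hn))]
  | succ n ih =>
    obtain ⟨y, hy⟩ := card_pos.1 (show 0 < (P.E \ X).card by omega)
    obtain ⟨y1, y2⟩ := mem_sdiff.1 hy
    obtain ⟨x, -, hc⟩ := ht y y1 y2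
    have := ih (h.del_par hN hc) (subset_sdiff.2 ⟨hX, by simpa using y2⟩) (fun z z1 z2 => by
      obtain ⟨z3, z4⟩ := mem_sdiff.1 z1
      obtain ⟨w, w1, w2⟩ := ht z z3 z2
      refine ⟨w, w1, w2, ?_⟩
      have := ne_of_mem_of_not_mem w1 y2
      simp only [mem_singleton] at z4
      simp [Ne.symm this, Ne.symm z4]) (by
      rw [del_E, sdiff_right_comm, sdiff_singleton_eq_erase, card_erase_of_mem hy]
      omega)
    rwa [del_eq_res, res_res, inter_eq_right.2 (subset_sdiff.2 ⟨hX, by simpa using y2⟩)] at this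

theorem ser_triad (h : P.dual.Simple) (h1 : (P.del {e}).dual.cyc {a, b}) :
    [e, a, b].Nodup ∧ P.dual.cyc {e, a, b} := by
  obtain ⟨h2, h3⟩ := cocyc_del_single.1 h1
  have h4 := h3.resolve_left (h.not_pair _ _)
  have h5 : a ≠ b := fun e1 => h.not_pair e b (by simpa [e1] using h4)
  simp only [mem_insert, mem_singleton, not_or] at h2
  exact ⟨by simp [h2, h5], h4⟩

/-- different series pairs of a deletion are disjoint -/
theorem ser_disj (h : P.dual.Simple) (h1 : (P.del {e}).dual.cyc {a, b})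
    (h2 : (P.del {e}).dual.cyc {c, d}) (hne : ({a, b} : Finset ℕ) ≠ {c, d}) :
    a ≠ c ∧ a ≠ d ∧ b ≠ c ∧ b ≠ d := by
  have key : ∀ {a b d : ℕ}, (P.del {e}).dual.cyc {a, b} → (P.del {e}).dual.cyc {a, d} → b = d :=
    fun {a b d} k1 k2 => by
      by_contra hne
      obtain ⟨n1, -⟩ := ser_triad h k1
      obtain ⟨n2, -⟩ := ser_triad h k2
      have := (P.del {e}).dual.sd _ _ k1 k2
      simp at n1 n2
      rw [show symmDiff {a, b} {a, d} = ({b, d} : Finset ℕ) by
        ext; simp [mem_symmDiff]; grind] at this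
      have t := P.dual.sd _ _ (P.dual.sd _ _ (ser_triad h k1).2 (ser_triad h k2).2)
        (ser_triad h this).2
      rw [show symmDiff (symmDiff {e, a, b} {e, a, d}) {e, b, d} = ({e} : Finset ℕ) by
        ext; simp [mem_symmDiff]; grind] at t
      exact h.not_single _ t
  have h1' := h1
  have h2' := h2
  rw [pair_comm] at h1' h2'
  refine ⟨?_, ?_, ?_, ?_⟩ <;> rintro rfl
  · exact hne (by rw [key h1 h2])
  · exact hne (by rw [key h1 h2', pair_comm])
  · exact hne (by rw [key h1' h2, pair_comm])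
  · exact hne (by rw [key h1' h2'])

end BM

end Pool.Agent.P.MP_3f5ce9_co
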