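import Pool.Agent.P.MP_3f5ce9_co.W.SaB

/-!
Vertical separations, coextensions, fans and triads.
-/

open Finset

namespace Pool.Agent.P.MP_3f5ce9_co

namespace BM

variable {Q N R : BM} {e g a b x y z x1 x2 x3 x4 : ℕ}

theorem Conn3.vsep (h : R.Conn3) (h4 : 4 ≤ R.E.card) (he : e ∈ R.E) (hn : ¬ (R.con {e}).VC) :
    ∃ X Y, X ∪ Y = R.E.erase e ∧ Disjoint X Y ∧ e ∈ R.cl X ∧ e ∈ R.cl Y ∧ 3 ≤ R.r X ∧
      3 ≤ R.r Y ∧ R.r X + R.r Y = R.r R.E + 2 := by
  simp only [VC, not_forall, not_le] at hn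
  obtain ⟨X, hX, hl⟩ := hn
  have hX' := subset_sdiff.1 hX
  have a1 := (R.con {e}).lam_add X
  have a2 := (R.con {e}).r_le_card X
  have a3 := (R.con {e}).r_le_card ((R.con {e}).E \ X)
  have a4 := R.r_con {e} X
  have a5 := R.r_con {e} ((R.con {e}).E \ X)
  have a6 := r_con_single he ((h.simple h4).not_single e)
  have a7 := h.loopless (by omega) e he
  have a8 := card_sdiff_add_card_eq_card hX
  have a9 := card_con_single he
  generalize hY : (R.con {e}).E \ X = Y at *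
  have hm : ∀ t, t ∈ Y ↔ t ∈ R.E ∧ t ≠ e ∧ t ∉ X := fun t => by simp [← hY, and_assoc]
  have hx : ∀ t ∈ X, t ∈ R.E ∧ t ≠ e := fun t ht => by simpa using hX ht
  have hYE : Y ⊆ R.E := fun t ht => ((hm t).1 ht).1
  have e1 : R.E \ X = Y ∪ {e} := by ext; simp only [mem_sdiff, mem_union, mem_singleton]; grind
  have e2 : R.E \ Y = X ∪ {e} := by ext; simp only [mem_sdiff, mem_union, mem_singleton]; grind
  have b1 := h X hX'.1
  have b2 := h Y hYE
  have b3 := R.lam_add X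
  have b4 := R.lam_add Y
  have b5 := card_sdiff_add_card_eq_card hX'.1
  have b6 := card_sdiff_add_card_eq_card hYE
  have b7 := R.r_mono (subset_union_left (s₁ := X) (s₂ := {e}))
  have b8 := R.r_mono (subset_union_left (s₁ := Y) (s₂ := {e}))
  rw [e1] at b1 b3 b5
  rw [e2] at b2 b4 b6
  refine ⟨X, Y, ?_, disjoint_left.2 fun t h1 h2 => ((hm t).1 h2).2.2 h1, mem_cl.2 ⟨he, ?_⟩,
    mem_cl.2 ⟨he, ?_⟩, by omega, by omega, by omega⟩
  · ext; simp only [mem_union, mem_erase]; grind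
  all_goals rw [insert_eq, union_comm]; omega

theorem coext (he : e ∈ Q.E) (h1 : ¬ Q.cyc {e}) (hv : (Q.con {e}).VC)
    (hl : (Q.con {e}).Loopless) :
    Q.VC ∨ ∃ D, Q.dual.cyc D ∧ e ∈ D ∧ Q.r (D.erase e) ≤ 1 := by
  by_contra! hc
  obtain ⟨hn, hD⟩ := hc
  simp only [VC, not_forall, not_le] at hn
  obtain ⟨X, hX, hlt, heX⟩ : ∃ X ⊆ Q.E, Q.lam X < min 2 (min (Q.r X) (Q.r (Q.E \ X))) ∧ e ∈ X := by
    obtain ⟨X, hX, h⟩ := hn
    by_cases heX : e ∈ X
    · exact ⟨X, hX, h, heX⟩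
    · exact ⟨Q.E \ X, sdiff_subset, by rwa [lam_compl hX, du_ss hX, min_comm (Q.r _)],
        mem_sdiff.2 ⟨he, heX⟩⟩
  have e1 : (Q.con {e}).E \ (X \ {e}) = Q.E \ X := by ext; simp; grind
  have a1 := hv (X \ {e}) (sdiff_subset_sdiff hX Subset.rfl)
  have a2 := (Q.con {e}).lam_add (X \ {e})
  have a3 := Q.r_con {e} (X \ {e})
  have a4 := Q.r_con {e} (Q.E \ X)
  have a5 := r_con_single he h1
  have a6 := Q.r_con {e} (Q.con {e}).E
  have a7 := Q.lam_add X
  have a8 := Q.r_insert_le e (Q.E \ X)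
  have a9 := Q.r_le_insert e (Q.E \ X)
  rw [e1] at a1 a2
  rw [sdiff_union_of_subset (singleton_subset_iff.2 heX)] at a3
  rw [con_E, sdiff_union_of_subset (singleton_subset_iff.2 he), ← con_E] at a6
  rw [union_comm, ← insert_eq] at a4
  have b1 := cocyc_of_hyperplane (M := Q) (X := Q.E \ X) (by omega)
  have b2 : e ∈ Q.E \ Q.cl (Q.E \ X) := mem_sdiff.2 ⟨he, fun h => by have := (mem_cl.1 h).2; omega⟩
  have b3 : Q.E \ Q.cl (Q.E \ X) ⊆ X := fun t ht => by_contra fun h =>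
    (mem_sdiff.1 ht).2 (subset_cl sdiff_subset (mem_sdiff.2 ⟨(mem_sdiff.1 ht).1, h⟩))
  have b4 := hD _ b1 b2
  generalize Q.E \ Q.cl (Q.E \ X) = D at *
  obtain ⟨I, i1, i2, i3⟩ := Q.exists_basis (D.erase e)
  have i4 : insert e I ⊆ D := insert_subset b2 (i1.trans (erase_subset _ _))
  have i5 := Q.r_mono (i4.trans b3)
  have i6 := Q.r_le_insert e I
  have i7 := i2.r_eq
  obtain ⟨C, c1, c2, c3⟩ := exists_cyc_of_cl (mem_cl.2 ⟨he, by omega⟩ : e ∈ Q.cl I)
    fun h => notMem_erase e D (i1 h)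
  have c4 := even_inter c1 b1
  rw [inter_eq_left.2 (c3.trans i4), Nat.even_iff] at c4
  have c5 := (card_le_card c3).trans (card_insert_le _ _)
  have c6 := card_sdiff_add_card_eq_card (singleton_subset_iff.2 c2)
  rw [card_singleton] at c6
  obtain ⟨t, ht⟩ := card_eq_one.1 (show (C \ {e}).card = 1 by omega)
  exact hl.not_cyc t (ht ▸ cyc_con_of c1 {e})

theorem coext' (he : e ∈ Q.E) (h1 : ¬ Q.dual.cyc {e}) (hv : (Q.del {e}).dual.VC)
    (hl : (Q.del {e}).dual.Loopless) :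
    Q.dual.VC ∨ ∃ D, Q.cyc D ∧ e ∈ D ∧ Q.dual.r (D.erase e) ≤ 1 := by
  rw [dual_del] at hv hl
  simpa only [dual_dual] using coext (Q := Q.dual) he h1 hv hl

theorem sac_card {S : Finset ℕ} (hs : R.dual.Simple) (hS : S ⊆ (R.del {g}).E)
    (hr : (R.del {g}).dual.r S ≤ 1) : S.card ≤ 2 := by
  by_contra! h
  obtain ⟨a, ha, b, hb, c, hc, h1, h2, h3⟩ := two_lt_card.1 h
  have hl := hs.del_coloopless g
  exact (ser_disj hs (hl.cyc_pair hS hr ha hb h1) (hl.cyc_pair hS hr ha hc h2) fun h => by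
    have : b ∈ ({a, c} : Finset ℕ) := by simp [← h]
    simp [h1.symm, h3] at this).1 rfl

theorem Conn3.ext3 (h : R.Conn3) (h4 : 4 ≤ R.E.card) (he : e ∈ R.E) (hne : e ≠ g)
    (hd : ((R.del {g}).del {e}).DOK N) :
    (R.del {g}).DOK N ∨
      ∃ x x', [e, g, x, x'].Nodup ∧ R.cyc {e, x, x'} ∧ R.dual.cyc {x, x', g} := by
  have hs := h.cosimple h4
  have hl := hs.del_coloopless g
  rcases coext' (Q := R.del {g}) (by simp [he, hne]) (hl.not_cyc e) hd.vc hd.ll with
    hv | ⟨D, h1, h2, h3⟩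
  · exact Or.inl ⟨hv, hl, hd.mn.of_del⟩
  have hS := (erase_subset e D).trans (BM.sub _ _ h1)
  have a1 := sac_card hs hS h3
  have a2 := (h.simple h4).girth D h1.1 ⟨e, h2⟩
  obtain ⟨x, x', hx, hD⟩ := card_eq_two.1 (show (D.erase e).card = 2 by
    rw [card_erase_of_mem h2] at a1 ⊢; omega)
  obtain ⟨b1, b2⟩ := ser_triad hs (hl.cyc_pair hS h3 (x := x) (y := x') (by simp [hD])
    (by simp [hD]) hx)
  have b3 := notMem_erase e D
  rw [hD] at b3
  refine Or.inr ⟨x, x', by simp at b1 b3 ⊢; grind, ?_, ?_⟩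
  · rw [← hD, insert_erase h2]; exact h1.1
  · rwa [show ({x, x', g} : Finset ℕ) = {g, x, x'} by ext; simp; grind only]

theorem Conn3.ext4 (h : R.Conn3) (h4 : 4 ≤ R.E.card) (hn : [a, b, e].Nodup)
    (ht : R.dual.cyc {a, b, e}) (hd : (R.del {a, b, e}).DOK N) :
    (R.del {a}).DOK N ∨ (∃ x, [a, b, e, x].Nodup ∧ R.cyc {e, b, x}) ∨
      ∃ x x', [a, b, e, x, x'].Nodup ∧ R.cyc {e, b, x, x'} ∧ R.dual.cyc {x, x', a} := by
  have hs := h.cosimple h4
  have hl := hs.del_coloopless a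
  simp only [List.nodup_cons, List.mem_cons, List.not_mem_nil] at hn
  have t1 : (R.del {a}).dual.cyc {b, e} := by
    have := cocyc_del_of ht {a}
    rwa [show ({a, b, e} \ {a} : Finset ℕ) = {b, e} by ext; simp; grind] at this
  have t2 : ((R.del {a}).del {e}).dual.cyc {b} := by
    have := cocyc_del_of t1 {e}
    rwa [show ({b, e} \ {e} : Finset ℕ) = {b} by ext; simp; grind] at this
  have e1 : ((R.del {a}).con {b}).del {e} = R.del {a, b, e} := by
    rw [← del_con _ (by simp; grind), con_eq_del_of_coloop t2, del_del, del_del]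
    congr 1
    ext; simp; grind
  have hl' : ((R.del {a}).con {b}).dual.Loopless :=
    loopless_of_cyc fun t h => hl.not_cyc t (cocyc_con_iff.1 h).1
  have he := ht.1 (show e ∈ {a, b, e} by simp)
  rw [← e1] at hd
  rcases coext' (Q := (R.del {a}).con {b}) (by simp [he]; grind) (hl'.not_cyc e) hd.vc hd.ll with
    hv | ⟨D, h1, h2, h3⟩
  · exact Or.inl (DOK.ser_ext ⟨hv, hl', hd.mn.of_del⟩ (by grind) t1)
  obtain ⟨hb, h5 | h5⟩ := cyc_con_single.1 h1
  · obtain ⟨t, h6, h7, h8⟩ := cyc_other h5 t1 h2 (by simp)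
    simp at h7
    grind
  rw [dual_con, r_del_of_disjoint _ (by simp [hb])] at h3
  have hS := (erase_subset e D).trans ((subset_insert b D).trans (BM.sub _ _ h5))
  have a1 := sac_card hs hS h3
  have a2 := (h.simple h4).girth _ h5.1 (insert_nonempty _ _)
  have a3 := card_erase_add_one h2
  have a4 : ∀ t ∈ D.erase e, t ≠ a ∧ t ≠ b ∧ t ≠ e := fun t ht =>
    ⟨by simpa using (mem_sdiff.1 (hS ht)).2, fun h => hb (h ▸ mem_of_mem_erase ht),
      ne_of_mem_erase ht⟩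
  have a5 : R.cyc (insert e (insert b (D.erase e))) := by
    rw [insert_comm, insert_erase h2]; exact h5.1
  rw [card_insert_of_notMem hb] at a2
  rcases (show (D.erase e).card = 1 ∨ (D.erase e).card = 2 by omega) with h6 | h6
  · obtain ⟨x, hx⟩ := card_eq_one.1 h6
    rw [hx] at a4 a5
    exact Or.inr (Or.inl ⟨x, by simp at a4 ⊢; grind, a5⟩)
  · obtain ⟨x, x', hx, hD⟩ := card_eq_two.1 h6
    have b2 := (ser_triad hs (hl.cyc_pair hS h3 (x := x) (y := x') (by simp [hD])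
      (by simp [hD]) hx)).2
    rw [hD] at a4 a5
    refine Or.inr (Or.inr ⟨x, x', by simp at a4 ⊢; grind, a5, ?_⟩)
    rwa [show ({x, x', a} : Finset ℕ) = {a, x, x'} by ext; simp; grind only]

theorem sac_sep (h : R.Conn3) (h4 : 4 ≤ R.E.card) (ht : R.dual.cyc {e, a, b})
    (hn : ¬ (R.con {e}).VC) : ∃ X Y, a ∈ X ∧ b ∈ Y ∧ X ∪ Y = R.E.erase e ∧ Disjoint X Y ∧
      e ∈ R.cl X ∧ e ∈ R.cl Y ∧ 3 ≤ R.r X ∧ 3 ≤ R.r Y ∧ R.r X + R.r Y = R.r R.E + 2 := by
  obtain ⟨X, Y, hU, hd, c1, c2, r1, r2, r3⟩ := h.vsep h4 (ht.1 (by simp)) hn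
  have hm := Finset.ext_iff.1 hU e
  have hd' := disjoint_left.1 hd
  have a1 := mt (not_mem_cl_of_cocyc ht (by simp)) (not_not.2 c1)
  have a2 := mt (not_mem_cl_of_cocyc ht (by simp)) (not_not.2 c2)
  simp at hm a1 a2
  by_cases ha : a ∈ X
  · exact ⟨X, Y, ha, by grind, hU, hd, c1, c2, r1, r2, r3⟩
  · exact ⟨Y, X, by grind, by grind, union_comm X Y ▸ hU, hd.symm, c2, c1, r2, r1, by omega⟩

theorem Conn3.fan (h : R.Conn3) (hn : [x1, x2, x3, x4].Nodup) (h1 : R.cyc {x1, x2, x3})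
    (h2 : R.dual.cyc {x2, x3, x4}) : (R.con {x4}).VC := by
  have hE : ({x1, x2, x3, x4} : Finset ℕ) ⊆ R.E := fun t ht => by
    have := @R.sub _ h1 t
    have := @h2.1 t
    simp at *
    grind
  have h4 := card_le_card hE
  rw [show ({x1, x2, x3, x4} : Finset ℕ).card = 4 by simpa using List.toFinset_card_of_nodup hn]
    at h4
  have key : ∀ {x2 x3 X Y}, [x1, x2, x3, x4].Nodup → R.cyc {x1, x2, x3} →
      R.dual.cyc {x4, x2, x3} → X ∪ Y = R.E.erase x4 → Disjoint X Y → x4 ∈ R.cl X → 3 ≤ R.r X →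
      3 ≤ R.r Y → R.r X + R.r Y = R.r R.E + 2 → x2 ∈ X → x3 ∈ Y → x1 ∉ X := by
    intro x2 x3 X Y hn h1 h2 hU hd c1 r1 r2 r3 m2 m3 m1
    have hm := Finset.ext_iff.1 hU
    have hd' := disjoint_left.1 hd
    simp only [mem_union, mem_erase] at hm
    have h4 := R.cl_subset X c1
    have a1 := h (Y.erase x3) fun t ht => ((hm t).1 (Or.inr (mem_of_mem_erase ht))).2
    have a2 := R.lam_add (Y.erase x3)
    have a3 := r_insert_of_cocyc (X := Y.erase x3) (e := x3) h2 (by simp) (by simp; grind)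
    have a4 := r_union_of_subset_cl (M := R) (X := X) (Y := {x3, x4}) (insert_subset
      (mem_cl_of_cyc h1 (by simp) (by intro t; simp; grind)) (singleton_subset_iff.2 c1))
    have a5 := R.r_le_card (Y.erase x3)
    have a6 := R.r_le_card (X ∪ {x3, x4})
    rw [insert_erase m3] at a3
    rw [show R.E \ Y.erase x3 = X ∪ {x3, x4} by ext; simp; grind] at a1 a2
    omega
  by_contra hc
  replace h2 : R.dual.cyc {x4, x2, x3} := by
    rwa [show ({x4, x2, x3} : Finset ℕ) = {x2, x3, x4} by ext; simp; grind only]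
  obtain ⟨X, Y, u2, u3, hU, hd, c1, c2, r1, r2, r3⟩ := sac_sep h h4 h2 hc
  have h5 := (Finset.ext_iff.1 hU x1).2 (mem_erase.2 ⟨by simp at hn; grind only, hE (by simp)⟩)
  rcases mem_union.1 h5 with h5 | h5
  · exact key hn h1 h2 hU hd c1 r1 r2 r3 u2 u3 h5
  · exact key (by simp at hn ⊢; grind) (by rwa [pair_comm x3]) (by rwa [pair_comm x3])
      (union_comm X Y ▸ hU) hd.symm c2 r2 r1 (by omega) u3 u2 h5

theorem Conn3.fan' (h : R.Conn3) (hn : [x1, x2, x3, x4].Nodup) (h1 : R.cyc {x1, x2, x3})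
    (h2 : R.dual.cyc {x2, x3, x4}) : (R.del {x1}).dual.VC := by
  rw [dual_del]
  refine h.dual.fan (x1 := x4) (x2 := x2) (x3 := x3) (by simp at hn ⊢; grind) ?_ ?_
  · rwa [show ({x4, x2, x3} : Finset ℕ) = {x2, x3, x4} by ext; simp; grind only]
  · rwa [dual_dual, show ({x2, x3, x1} : Finset ℕ) = {x1, x2, x3} by ext; simp; grind only]

theorem sac_tl (h : R.Conn3) (h4 : 4 ≤ R.E.card) (hn : [z, x, y].Nodup)
    (ht : R.dual.cyc {z, x, y}) (hd : (R.del {z}).dual.VC) (hc : ¬ (R.con {x}).VC) :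
    ∃ p q, [x, y, z, p, q].Nodup ∧ R.dual.cyc {z, p, q} ∧ R.cyc {x, z, p} := by
  have hs := h.cosimple h4
  obtain ⟨X, Y, mz, my, hU, hd', c1, c2, r1, r2, r3⟩ :=
    sac_sep (e := x) (a := z) (b := y) h h4 (by rwa [insert_comm]) hc
  have hm := Finset.ext_iff.1 hU
  have hd'' := disjoint_left.1 hd'
  simp only [mem_union, mem_erase] at hm
  have hx := R.cl_subset X c1
  have hxX : x ∉ X := fun h => ((hm x).1 (Or.inl h)).1 rfl
  have hS : X.erase z ⊆ (R.del {z}).E := by intro; simp; grind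
  have e1 : (R.del {z}).E \ X.erase z = insert x Y := by ext; simp at hn ⊢; grind
  have a1 := hd _ hS
  have a2 := (R.del {z}).lam_add (X.erase z)
  have a3 := r_insert_of_cocyc (X := X.erase z) (e := z) ht (by simp) (by simp; grind)
  have a4 := (mem_cl.1 c2).2
  have a5 := R.r_le_card X
  have a6 := R.r_le_card (insert x Y)
  have a7 := sac_card hs hS
  have a8 := sac_card hs (e1 ▸ sdiff_subset : insert x Y ⊆ _)
  have a9 := card_erase_add_one mz
  rw [insert_erase mz] at a3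
  rw [lam_dual hS, dual_E, e1] at a1
  rw [r_del_single (hs.not_single z), e1, r_del_of_disjoint _ (by simp),
    r_del_of_disjoint _ (by simp at hn ⊢; grind)] at a2
  have b1 : (R.del {z}).dual.r (X.erase z) ≤ 1 := by omega
  obtain ⟨p, q, hpq, hX⟩ := card_eq_two.1 (show (X.erase z).card = 2 by omega)
  obtain ⟨b2, b3⟩ := ser_triad hs ((hs.del_coloopless z).cyc_pair hS b1 (x := p) (y := q)
    (by simp [hX]) (by simp [hX]) hpq)
  obtain rfl : X = {z, p, q} := by rw [← hX, insert_erase mz]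
  obtain ⟨C, k1, k2, k3⟩ := exists_cyc_of_cl c1 hxX
  have hy : y ∉ ({z, p, q} : Finset ℕ) := fun h => hd'' h my
  obtain ⟨t, k4, k5, k6⟩ := cyc_other k1 ht k2 (by simp)
  have k7 : z ∈ C := by
    have := k3 k4
    simp at this k5 hy hn
    rwa [show z = t by grind only]
  obtain ⟨u, k8, k9, k10⟩ := cyc_other k1 b3 k7 (by simp)
  have k11 : ¬ (p ∈ C ∧ q ∈ C) := fun h => by
    obtain ⟨v, -, h1, h2⟩ := cyc_fourth k1 b3 b2 ⟨k7, h⟩ (by simp)
    simp at h1
    grind only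
  have k12 : ∀ v ∈ C, v = x ∨ v = z ∨ v = p ∨ v = q := fun v hv => by simpa using k3 hv
  by_cases hp : p ∈ C
  · exact ⟨p, q, by simp at hn hy hxX b2 ⊢; grind only, b3, by
      rwa [show {x, z, p} = C by ext; simp; grind only]⟩
  · exact ⟨q, p, by simp at hn hy hxX b2 ⊢; grind only, by rwa [pair_comm q], by
      rwa [show {x, z, q} = C by ext; simp at k9 ⊢; grind only]⟩

theorem Conn3.tl (h : R.Conn3) (h7 : 7 ≤ R.E.card) (hn : [z, x, y].Nodup)
    (ht : R.dual.cyc {z, x, y}) (hd : (R.del {z}).dual.VC) :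
    (R.con {x}).VC ∨ (R.con {y}).VC := by
  by_contra! hc
  obtain ⟨p, q, n1, t1, c1⟩ := sac_tl h (by omega) hn ht hd hc.1
  obtain ⟨p', q', n2, t2, c2⟩ := sac_tl (x := y) (y := x) h (by omega) (by simp at hn ⊢; grind only)
    (by rwa [pair_comm y]) hd hc.2
  have hp : p ≠ p' := by
    rintro rfl
    have := R.sd _ _ c1 c2
    rw [show symmDiff {x, z, p} {y, z, p} = ({x, y} : Finset ℕ) by
      ext; simp [mem_symmDiff] at n1 ⊢; grind only] at this
    exact (h.simple (by omega)).not_pair _ _ this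
  obtain ⟨t, b1, b2, b3⟩ := cyc_other (e := z) c2 t1 (by simp) (by simp)
  obtain rfl : p' = q := by simp at b1 b2 n1 n2; grind only
  have a1 := r_insert_of_cyc (e := x) (X := {y, z, p, p'}) c1 (by simp) (by intro; simp; grind only)
  have a2 := r_insert_of_cyc (e := y) (X := {z, p, p'}) c2 (by simp) (by intro; simp; grind only)
  have a3 := r_insert_of_cyc (e := y) (X := {p', x, z, p}) ht (by simp) (by intro; simp; grind only)
  have a4 := r_insert_of_cyc (e := p') (X := {x, z, p}) t1 (by simp) (by intro; simp; grind only)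
  have a5 := (R.r_le_card {z, p, p'}).trans card_le_three
  have a6 := (R.dual.r_le_card {x, z, p}).trans card_le_three
  have a7 : ({x, y, z, p, p'} : Finset ℕ).card = 5 := by
    simpa using List.toFinset_card_of_nodup n1
  rw [show ({y, p', x, z, p} : Finset ℕ) = {x, y, z, p, p'} by ext; simp; grind only] at a3
  have := h.card_le (X := {x, y, z, p, p'}) (fun t ht' => by
    have h1 := @R.sub _ c1 t
    have h2 := @R.sub _ c2 t
    simp at h1 h2 ht'
    grind only) (by omega) (by omega)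
  omega

end BM

end Pool.Agent.P.MP_3f5ce9_co
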