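import Pool.Agent.P.MP_3f5ce9_co.W.SaC

/-!
The inequality of Bixby and Coullard and its consequences.
-/

open Finset

namespace Pool.Agent.P.MP_3f5ce9_co

namespace BM

variable {M P P' P'' R J : BM} {A C X X' : Finset ℕ} {e y : ℕ}

theorem lam_bc (hy : y ∈ M.E) (hA : A ⊆ M.E.erase y) (hC : C ⊆ M.E.erase y) :
    M.lam (A ∩ C) + M.lam (insert y (A ∪ C)) ≤
      (M.del {y}).lam A + (M.con {y}).lam C + 1 := by
  have yA : y ∉ A := fun h => by simpa using hA h
  have yC : y ∉ C := fun h => by simpa using hC h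
  have a1 := M.lam_add (A ∩ C)
  have a2 := M.lam_add (insert y (A ∪ C))
  have a3 := (M.del {y}).lam_add A
  have a4 := (M.con {y}).lam_add C
  have b1 := M.r_submod A (C ∪ {y})
  have b2 := M.r_submod ((M.E \ {y}) \ A) ((M.E \ {y}) \ C ∪ {y})
  have c1 := M.r_con {y} C
  have c2 := M.r_con {y} ((M.E \ {y}) \ C)
  have c3 := M.r_con {y} (M.E \ {y})
  have c4 := M.r_le_card {y}
  have c5 := M.r_le_rE (M.E \ {y})
  rw [del_E, r_del_of_disjoint _ (disjoint_singleton_right.2 yA), r_del_of_disjoint _ sdiff_disjoint,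
    r_del_of_disjoint _ (sdiff_disjoint.mono_left sdiff_subset)] at a3
  rw [con_E] at a4
  rw [show A ∪ (C ∪ {y}) = insert y (A ∪ C) by ext; simp,
    show A ∩ (C ∪ {y}) = A ∩ C by ext; simp; grind] at b1
  rw [show (M.E \ {y}) \ A ∪ ((M.E \ {y}) \ C ∪ {y}) = M.E \ (A ∩ C) by ext; simp; grind,
    show ((M.E \ {y}) \ A) ∩ ((M.E \ {y}) \ C ∪ {y}) = M.E \ insert y (A ∪ C) by
      ext; simp; grind] at b2
  rw [show M.E \ {y} ∪ {y} = M.E by ext; simp; grind] at c3
  rw [card_singleton] at c4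
  omega

theorem sad_bc {B D : Finset ℕ} (hy : y ∈ M.E) (h1 : A ∪ B = M.E.erase y) (h2 : Disjoint A B)
    (h3 : C ∪ D = M.E.erase y) (h4 : Disjoint C D) :
    M.lam (A ∩ C) + M.lam (B ∩ D) ≤ (M.del {y}).lam A + (M.con {y}).lam C + 1 := by
  have h := lam_bc hy (h1 ▸ subset_union_left) (h3 ▸ subset_union_left)
  have e1 := fun x => Finset.ext_iff.1 h1 x
  have e3 := fun x => Finset.ext_iff.1 h3 x
  have e2 := disjoint_left.1 h2
  have e4 := disjoint_left.1 h4
  simp only [mem_union, mem_erase] at e1 e3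
  rwa [show insert y (A ∪ C) = M.E \ (B ∩ D) by ext; simp; grind,
    lam_compl fun x hx => ((e1 x).1 (Or.inr (mem_inter.1 hx).1)).2] at h

theorem sad_sep (h : R.Conn3) (h4 : 4 ≤ R.E.card) (he : e ∈ R.E) (hn : ¬ (R.con {e}).VC) :
    ∃ X Y, X ∪ Y = R.E.erase e ∧ Disjoint X Y ∧ 3 ≤ X.card ∧ 3 ≤ Y.card ∧
      (R.con {e}).lam X ≤ 1 ∧ (R.con {e}).lam Y ≤ 1 := by
  obtain ⟨X, Y, h1, h2, h3, h3', h5, h6, h7⟩ := h.vsep h4 he hn
  have e1 := fun x => Finset.ext_iff.1 h1 x
  have e2 := disjoint_left.1 h2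
  simp only [mem_union, mem_erase] at e1
  have a1 := (R.con {e}).lam_add X
  have a2 := (R.con {e}).lam_add Y
  have c1 := R.r_con {e} X
  have c2 := R.r_con {e} Y
  have c3 := R.r_con {e} (R.E \ {e})
  have c4 := h.loopless (by omega) e he
  rw [con_E, show (R.E \ {e}) \ X = Y by ext; simp; grind] at a1
  rw [con_E, show (R.E \ {e}) \ Y = X by ext; simp; grind] at a2
  rw [union_comm, ← insert_eq, (mem_cl.1 h3).2] at c1
  rw [union_comm, ← insert_eq, (mem_cl.1 h3').2] at c2
  rw [show R.E \ {e} ∪ {e} = R.E by ext; simp; grind] at c3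
  exact ⟨X, Y, h1, h2, h5.trans (R.r_le_card X), h6.trans (R.r_le_card Y), by omega, by omega⟩

theorem sad_card {B D : Finset ℕ} (h : A ⊆ B ∪ D) : A.card ≤ (A ∩ B).card + (A ∩ D).card := by
  refine le_trans (card_le_card ?_) (card_union_le _ _)
  rw [← inter_union_distrib_left]
  exact subset_inter Subset.rfl h

theorem Conn3.bixby (h : R.Conn3) (h4 : 4 ≤ R.E.card) (he : e ∈ R.E) :
    (R.con {e}).VC ∨ (R.del {e}).dual.VC := by
  by_contra hc
  rw [not_or, dual_del] at hc
  obtain ⟨X1, Y1, a1, a2, a3, a4, a5, -⟩ := sad_sep h h4 he hc.1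
  obtain ⟨X2, Y2, b1, b2, b3, b4, b5, b6⟩ := sad_sep h.dual h4 he hc.2
  rw [dual_E] at b1
  have key : ∀ A B : Finset ℕ, A ∪ B = R.E.erase e → Disjoint A B →
      (R.dual.con {e}).lam A ≤ 1 → (A ∩ X1).card ≤ 1 ∨ (B ∩ Y1).card ≤ 1 := by
    intro A B h1 h2 h3
    rw [← dual_del, lam_dual (by rw [del_E, sdiff_singleton_eq_erase, ← h1]; exact subset_union_left)]
      at h3
    have k := sad_bc he h1 h2 a1 a2
    have s : (X1 ∪ Y1).card ≤ R.E.card := card_le_card (a1 ▸ erase_subset _ _)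
    rw [card_union_of_disjoint a2] at s
    have s1 : (A ∩ X1).card ≤ X1.card := card_le_card inter_subset_right
    have s2 : (B ∩ Y1).card ≤ Y1.card := card_le_card inter_subset_right
    by_contra hn
    have t1 := h.two_le (X := A ∩ X1) (inter_subset_left.trans
      ((h1 ▸ subset_union_left).trans (erase_subset e _))) (by omega) (by omega)
    have t2 := h.two_le (X := B ∩ Y1) (inter_subset_left.trans
      ((h1 ▸ subset_union_right).trans (erase_subset e _))) (by omega) (by omega)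
    omega
  have k1 := key X2 Y2 b1 b2 b5
  have k2 := key Y2 X2 (by rw [union_comm, b1]) b2.symm b6
  have c1 := sad_card (A := X1) (B := X2) (D := Y2) (by rw [b1, ← a1]; exact subset_union_left)
  have c2 := sad_card (A := Y1) (B := X2) (D := Y2) (by rw [b1, ← a1]; exact subset_union_right)
  have c3 := sad_card (A := X2) (B := X1) (D := Y1) (by rw [a1, ← b1]; exact subset_union_left)
  have c4 := sad_card (A := Y2) (B := X1) (D := Y1) (by rw [a1, ← b1]; exact subset_union_right)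
  rw [inter_comm X1, inter_comm X1] at c1
  rw [inter_comm Y1, inter_comm Y1] at c2
  omega

theorem Conn2.del_or_con (h : J.Conn2) (hy : y ∈ J.E) :
    (J.del {y}).Conn2 ∨ (J.con {y}).Conn2 := by
  by_contra hc
  simp only [Conn2, not_or, not_forall, del_E, con_E, sdiff_singleton_eq_erase] at hc
  obtain ⟨⟨A, a1, a2, a3, a4⟩, C, c1, c2, c3, c4⟩ := hc
  have key : ∀ C D : Finset ℕ, C ∪ D = J.E.erase y → Disjoint C D → (J.con {y}).lam C = 0 →
      A ∩ C = ∅ ∨ (J.E.erase y \ A) ∩ D = ∅ := by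
    intro C D h1 h2 h3
    have k := sad_bc hy (union_sdiff_of_subset a1) disjoint_sdiff h1 h2
    by_contra hn
    rw [not_or] at hn
    have t1 := h (A ∩ C) (inter_subset_left.trans (a1.trans (erase_subset _ _)))
      (nonempty_iff_ne_empty.2 hn.1) ⟨y, mem_sdiff.2 ⟨hy, fun m => by
        simpa using a1 (mem_inter.1 m).1⟩⟩
    have t2 := h ((J.E.erase y \ A) ∩ D) (inter_subset_left.trans
      (sdiff_subset.trans (erase_subset _ _))) (nonempty_iff_ne_empty.2 hn.2)
      ⟨y, mem_sdiff.2 ⟨hy, by simp⟩⟩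
    omega
  have l := lam_compl (M := J.con {y}) (X := C) (by rwa [con_E, sdiff_singleton_eq_erase])
  rw [con_E, sdiff_singleton_eq_erase] at l
  have k1 := key C _ (union_sdiff_of_subset c1) disjoint_sdiff (by omega)
  have k2 := key _ C (sdiff_union_of_subset c1) sdiff_disjoint (by omega)
  obtain ⟨a, a2⟩ := a2
  obtain ⟨b, a3⟩ := a3
  obtain ⟨c, c2⟩ := c2
  obtain ⟨d, c3⟩ := c3
  have := a1 a2
  have := c1 c2
  simp only [eq_empty_iff_forall_notMem, mem_inter, mem_sdiff] at k1 k2 a3 c3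
  grind

theorem Keep.refl (hX : X ⊆ P.E) : P.Keep P X :=
  ⟨HasMinor.refl P, hX, fun _ _ h => h, fun _ _ h => h⟩

theorem Keep.trans (h : P.Keep P' X) (h' : P'.Keep P'' X) : P.Keep P'' X :=
  ⟨h.mn.trans h'.mn, h'.sub, fun C hC k => h'.cyc C hC (h.cyc C hC k),
    fun C hC k => h'.coc C hC (h.coc C hC k)⟩

theorem keep_del (hX : X ⊆ P.E) (hy : y ∉ X) : P.Keep (P.del {y}) X := by
  have d := disjoint_singleton_right.2 hy
  refine ⟨P.hasMinor_del _, subset_sdiff.2 ⟨hX, d⟩, fun C hC k => ⟨k, d.mono_left hC⟩,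
    fun C hC k => ?_⟩
  have := cocyc_del_of k {y}
  rwa [sdiff_eq_self_of_disjoint (d.mono_left hC)] at this

theorem keep_con (hX : X ⊆ P.E) (hy : y ∉ X) : P.Keep (P.con {y}) X := by
  have d := disjoint_singleton_right.2 hy
  refine ⟨P.hasMinor_con _, subset_sdiff.2 ⟨hX, d⟩, fun C hC k => ?_,
    fun C hC k => cocyc_con_iff.2 ⟨k, d.mono_left hC⟩⟩
  have := cyc_con_of k {y}
  rwa [sdiff_eq_self_of_disjoint (d.mono_left hC)] at this

/-- Tutte's linking theorem -/
theorem link (hX : X ⊆ P.E) (hX' : X' ⊆ P.E) (hd : Disjoint X X')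
    (h : ∀ Z, X ⊆ Z → Z ⊆ P.E \ X' → 2 ≤ P.lam Z) :
    ∃ P' : BM, P.Keep P' (X ∪ X') ∧ P'.E = X ∪ X' ∧ 2 ≤ P'.lam X := by
  induction hn : P.E.card using Nat.strong_induction_on generalizing P with
  | _ n ih =>
    have hU := union_subset hX hX'
    by_cases hE : P.E ⊆ X ∪ X'
    · exact ⟨P, Keep.refl hU, Subset.antisymm hE hU, h X Subset.rfl (subset_sdiff.2 ⟨hX, hd⟩)⟩
    obtain ⟨y, hy, yn⟩ := not_subset.1 hE
    have lt : (P.E \ {y}).card < n := hn ▸ card_lt_card (sdiff_ssubset (singleton_subset_iff.2 hy)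
      (singleton_nonempty y))
    have k1 := keep_del hU yn
    have k2 := keep_con hU yn
    by_cases h1 : ∀ Z, X ⊆ Z → Z ⊆ (P.del {y}).E \ X' → 2 ≤ (P.del {y}).lam Z
    · obtain ⟨Q, q1, q2⟩ := ih _ lt (subset_union_left.trans k1.sub)
        (subset_union_right.trans k1.sub) h1 rfl
      exact ⟨Q, k1.trans q1, q2⟩
    by_cases h2 : ∀ Z, X ⊆ Z → Z ⊆ (P.con {y}).E \ X' → 2 ≤ (P.con {y}).lam Z
    · obtain ⟨Q, q1, q2⟩ := ih _ lt (subset_union_left.trans k2.sub)
        (subset_union_right.trans k2.sub) h2 rfl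
      exact ⟨Q, k2.trans q1, q2⟩
    simp only [not_forall, del_E, con_E, sdiff_singleton_eq_erase] at h1 h2
    obtain ⟨Z1, a1, a2, a3⟩ := h1
    obtain ⟨Z2, b1, b2, b3⟩ := h2
    have s : P.E.erase y \ X' ⊆ P.E \ X' := sdiff_subset_sdiff (erase_subset _ _) Subset.rfl
    have k := lam_bc hy (a2.trans sdiff_subset) (b2.trans sdiff_subset)
    have t1 := h _ (subset_inter a1 b1) (inter_subset_left.trans (a2.trans s))
    have t2 := h (insert y (Z1 ∪ Z2)) ((a1.trans subset_union_left).trans (subset_insert _ _))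
      (insert_subset (mem_sdiff.2 ⟨hy, fun m => yn (mem_union_right _ m)⟩)
        ((union_subset a2 b2).trans s))
    omega

/-- shrinking a connected complement into the span of `X` -/
theorem rooted (hX : X ⊆ P.E) (hc : (P.del X).Conn2) (h : 2 ≤ P.lam X) :
    ∃ P' : BM, P.Keep P' X ∧ (P'.del X).Conn2 ∧ 2 ≤ P'.lam X ∧ ∀ y ∈ P'.E, y ∈ P'.cl X := by
  induction hn : P.E.card using Nat.strong_induction_on generalizing P with
  | _ n ih =>
    by_cases hE : ∀ y ∈ P.E, y ∈ P.cl X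
    · exact ⟨P, Keep.refl hX, hc, h, hE⟩
    simp only [not_forall] at hE
    obtain ⟨y, hy, yc⟩ := hE
    have yn : y ∉ X := fun m => yc (subset_cl hX m)
    have d := disjoint_singleton_right.2 yn
    have lt : (P.E \ {y}).card < n := hn ▸ card_lt_card (sdiff_ssubset (singleton_subset_iff.2 hy)
      (singleton_nonempty y))
    have yJ : y ∈ (P.del X).E := mem_sdiff.2 ⟨hy, yn⟩
    have a1 := P.lam_add X
    have a2 := P.r_le_card {y}
    rw [card_singleton] at a2
    rcases hc.del_or_con yJ with h1 | h1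
    · have k := keep_del hX yn
      rw [del_del, union_comm, ← del_del] at h1
      refine (ih _ lt k.sub h1 ?_ rfl).imp fun Q q => ⟨k.trans q.1, q.2⟩
      have b1 := (P.del {y}).lam_add X
      have b2 := (P.del X).lam_add {y}
      have b3 := P.r_le_rE (P.E \ {y})
      have b4 := P.r_le_rE X
      have b5 := P.r_le_card (P.E \ X)
      have b6 := hc {y} (singleton_subset_iff.2 yJ) (singleton_nonempty y) (card_pos.1 (by
        rw [card_sdiff_of_subset (singleton_subset_iff.2 yJ), card_singleton, del_E]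
        omega))
      rw [del_E, r_del_of_disjoint _ d, r_del_of_disjoint _ sdiff_disjoint,
        r_del_of_disjoint _ (sdiff_disjoint.mono_left sdiff_subset), sdiff_right_comm] at b1
      rw [del_E, r_del_of_disjoint _ d.symm, r_del_of_disjoint _ sdiff_disjoint,
        r_del_of_disjoint _ (sdiff_disjoint.mono_left sdiff_subset)] at b2
      omega
    · have k := keep_con hX yn
      rw [del_con _ d] at h1
      refine (ih _ lt k.sub h1 ?_ rfl).imp fun Q q => ⟨k.trans q.1, q.2⟩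
      have b1 := (P.con {y}).lam_add X
      have c1 := P.r_con {y} X
      have c2 := P.r_con {y} ((P.E \ {y}) \ X)
      have c3 := P.r_con {y} (P.E \ {y})
      have c4 := P.r_le_insert y X
      have c5 : P.r (insert y X) ≠ P.r X := fun m => yc (mem_cl.2 ⟨hy, m⟩)
      rw [con_E] at b1
      rw [union_comm, ← insert_eq] at c1
      rw [show (P.E \ {y}) \ X ∪ {y} = P.E \ X by ext; simp; grind] at c2
      rw [show P.E \ {y} ∪ {y} = P.E by ext; simp; grind] at c3
      omega

end BM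

end Pool.Agent.P.MP_3f5ce9_co
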