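import Pool.Agent.P.MP_3f5ce9_co.W.RegL
import Pool.Agent.P.MP_3f5ce9_co.W.Bits

/-!
Definitions for the excluded minor and splitter theorems.
-/

open Finset

namespace Pool.Agent.P.MP_3f5ce9_co

/-- the odd vertices after contracting an edge from `a` to `b` -/
def ctrT (a b : ℕ) (T : Finset ℕ) : Finset ℕ := if a ∈ T then symmDiff (T.erase a) {b} else T

/-- the labels of two edges exchanged -/
def Gr.swp (G : Gr ℕ ℕ) (x y : ℕ) : Gr ℕ ℕ :=
  ⟨fun e => G.s (Equiv.swap x y e), fun e => G.t (Equiv.swap x y e)⟩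

/-- `z` is a vertex of degree two with edges `x` to `a` and `y` to `b` -/
structure Gr.D2 (G : Gr ℕ ℕ) (Es : Finset ℕ) (z x y a b : ℕ) : Prop where
  star : G.star Es z = {x, y}
  ne : x ≠ y
  jx : G.Joins x z a
  jy : G.Joins y z b
  az : a ≠ z
  bz : b ≠ z

namespace BM

/-- connected -/
def Conn2 (P : BM) : Prop := ∀ X ⊆ P.E, X.Nonempty → (P.E \ X).Nonempty → 1 ≤ P.lam X

/-- all nonempty cycles have at least `k` elements -/
def Girth (P : BM) (k : ℕ) : Prop := ∀ C, P.cyc C → C.Nonempty → k ≤ C.card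

/-- two triads that share one element span -/
def Dom (P : BM) : Prop := ∀ D D', P.dual.cyc D → P.dual.cyc D' → D.card = 3 → D'.card = 3 →
  (D ∩ D').card = 1 → P.r P.E ≤ P.r (D ∪ D')

/-- no simple regular extension of the same rank -/
def MaxS (N : BM) : Prop :=
  ∀ Q : BM, Q.Reg → Q.Simple → Q.HasMinor N → Q.r Q.E ≤ N.r N.E → Q.E.card ≤ N.E.card

/-- three-connected of rank and corank at least three -/
structure NOK (N : BM) : Prop where
  conn : N.Conn3
  r3 : 3 ≤ N.r N.E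
  c3 : 3 ≤ N.dual.r N.E

/-- three-connected up to parallel classes, with an `N` minor -/
structure COK (P N : BM) : Prop where
  vc : P.VC
  ll : P.Loopless
  mn : P.HasMinor N

/-- three-connected up to series classes, with an `N` minor -/
structure DOK (P N : BM) : Prop where
  vc : P.dual.VC
  ll : P.dual.Loopless
  mn : P.HasMinor N

/-- a minimal three-connected non-graphic matroid with an `N` minor -/
structure MinC (M N : BM) : Prop where
  nok : N.NOK
  conn : M.Conn3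
  mn : M.HasMinor N
  ng : ¬ M.Graphic
  ih : ∀ P : BM, M.HasMinor P → P.E.card < M.E.card → P.Conn3 → P.HasMinor N → P.Graphic

/-- a minimal counterexample in which deletions have no series pairs -/
structure Ctx (M N : BM) : Prop extends MinC M N where
  k0 : ∀ x ∈ M.E, (M.del {x}).DOK N → (M.del {x}).Conn3

/-- three triads through `e` that come from a triangle -/
structure X7 (M : BM) (e x1 x2 x3 y1 y2 y3 : ℕ) : Prop where
  nd : [e, x1, x2, x3, y1, y2, y3].Nodup
  t1 : M.dual.cyc {e, x1, y1}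
  t2 : M.dual.cyc {e, x2, y2}
  t3 : M.dual.cyc {e, x3, y3}
  cx : M.cyc {e, x1, x2, x3}
  cy : M.cyc {e, y1, y2, y3}
  all : ∀ p q, p ≠ q → (M.del {e}).dual.cyc {p, q} →
    ({p, q} : Finset ℕ) = {x1, y1} ∨ ({p, q} : Finset ℕ) = {x2, y2} ∨ ({p, q} : Finset ℕ) = {x3, y3}

/-- the base case of the three triads -/
def Base7 (M N : BM) : Prop := ∃ e x1 x2 x3 y1 y2 y3, M.X7 e x1 x2 x3 y1 y2 y3 ∧
  ((M.del {e}).con {x1, x2, x3}).Iso N

/-- the cycles and cocycles of the bond matroid of `K33` minus a triangle -/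
structure S6 (M : BM) (a1 a2 a3 b1 b2 b3 : ℕ) : Prop where
  nd : [a1, a2, a3, b1, b2, b3].Nodup
  ca : M.cyc {a1, a2, a3}
  cb : M.cyc {b1, b2, b3}
  d2 : M.dual.cyc {a1, b1, a2, b2}
  d3 : M.dual.cyc {a1, b1, a3, b3}

def Gad6 (M : BM) : Prop := ∃ a1 a2 a3 b1 b2 b3, M.S6 a1 a2 a3 b1 b2 b3 ∧
  (M.del {a1, a2, a3, b1, b2, b3}).Conn2

/-- a quad with a connected complement -/
def Gad4 (M : BM) : Prop := ∃ a b c d, [a, b, c, d].Nodup ∧ M.cyc {a, b, c, d} ∧
  M.dual.cyc {a, b, c, d} ∧ (M.del {a, b, c, d}).Conn2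

/-- a minor that keeps the cycles and cocycles inside `X` -/
structure Keep (P P' : BM) (X : Finset ℕ) : Prop where
  mn : P.HasMinor P'
  sub : X ⊆ P'.E
  cyc : ∀ C ⊆ X, P.cyc C → P'.cyc C
  coc : ∀ C ⊆ X, P.dual.cyc C → P'.dual.cyc C

/-- a graph that is three-connected up to parallel edges -/
structure G3 (G : Gr ℕ ℕ) (X Es : Finset ℕ) : Prop where
  norm : G.Norm X Es
  vc : (gm G Es).VC
  ll : (gm G Es).Loopless
  r3 : 3 ≤ (gm G Es).r Es

/-- `M` is the graft of `G` and `T` -/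
structure Gft (M : BM) (G : Gr ℕ ℕ) (X Es T : Finset ℕ) (e : ℕ) : Prop where
  norm : G.Norm X Es
  ne : e ∉ Es
  sub : T ⊆ X
  even : Even T.card
  eq : M = graft G Es T e

/-- the configuration at a cubic vertex `z` -/
structure SCfg (M N : BM) (G : Gr ℕ ℕ) (X Es : Finset ℕ) (e f s s' z u w y y' : ℕ) : Prop where
  gft : M.Gft G X Es {z, u, w, y'} e
  nd : [z, u, w, y'].Nodup
  conn : (gm G Es).Conn3
  star : G.star Es z = {s, s', f}
  ne : [s, s', f].Nodup
  js : G.Joins s z u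
  js' : G.Joins s' z w
  jf : G.Joins f z y
  dok : ((gm G Es).del {f}).DOK N

/-- the outcome for a deletable edge `f` from `c` to `d` -/
structure F2 (G : Gr ℕ ℕ) (Es T : Finset ℕ) (f c d x y a b : ℕ) : Prop where
  jf : G.Joins f c d
  star : G.star Es c = {f, x, y}
  ne : [f, x, y].Nodup
  jx : G.Joins x c a
  jy : G.Joins y c b
  cT : c ∈ T
  aT : a ∈ T
  card : T.card = 4
  alt : b ∈ T ∨ ∃ x' y' a', G.star Es d = {f, x', y'} ∧ [f, x', y'].Nodup ∧ G.Joins x' d b ∧
    G.Joins y' d a' ∧ b ∉ T ∧ T = {c, d, a, a'}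

end BM

end Pool.Agent.P.MP_3f5ce9_co
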