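import Pool.Agent.P.MP_3f5ce9_co.W.SaB
import Pool.Agent.P.MP_3f5ce9_co.W.TriA2

/-!
Minors across a two-separation.
-/

open Finset

namespace Pool.Agent.P.MP_3f5ce9_co

namespace BM

variable {Q N P : BM} {C X Y A B : Finset ℕ} {f : ℕ → ℕ} {x p : ℕ}

theorem se_skew (h : P.Bp p Y X) (hA : A ⊆ Y) (hB : B ⊆ X) (hp : p ∉ P.cl B) :
    P.r (A ∪ B) = P.r A + P.r B := by
  refine h.skew (hA.trans (subset_insert _ _)) (hB.trans (subset_insert _ _)) ?_
  have a1 := P.r_insert_le p B
  have a2 := P.r_le_insert p B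
  have a3 : P.r (insert p B) ≠ P.r B := fun e => hp (mem_cl.2 ⟨(mem_cl.1 h.c1).1, e⟩)
  omega

theorem se_link (h : P.Bp p Y X) (hA : A ⊆ Y) (hB : B ⊆ X) (hp : p ∈ P.cl B) :
    P.r (A ∪ B) + 1 = P.r (insert p A) + P.r B := by
  have a1 := ta_union (P := P) (T := {p}) (Y1 := insert p Y) (Y2 := insert p X) (X1 := A) (X2 := B)
    (by rw [← insert_union_distrib, (mem_cl.1 h.c1).2, (mem_cl.1 h.c2).2,
      (mem_cl.1 (P.cl_mono subset_union_left h.c1)).2, h.one, h.rk]) (by simp) (by simp)
    (hA.trans (subset_insert _ _)) (hB.trans (subset_insert _ _))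
  rw [union_comm _ {p}, union_comm A {p}, union_comm B {p}, ← insert_eq, ← insert_eq, ← insert_eq,
    (mem_cl.1 hp).2, (mem_cl.1 (P.cl_mono subset_union_right hp)).2, h.one] at a1
  exact a1

theorem se_bp (hX : X ⊆ Q.E) (hl : Q.lam X = 1) :
    ∃ (P : BM) (p : ℕ), P.del {p} = Q ∧ P.Bp p (Q.E \ X) X := by
  obtain ⟨v, hv⟩ := Q.exists_rep
  obtain ⟨W, w1, w2, w3⟩ := ta_fin hX hv
  obtain ⟨a, rfl⟩ := card_eq_one.1 (w1.trans hl)
  obtain ⟨p, hp⟩ := Infinite.exists_notMem_finset Q.E
  have e : (fun _ => a) '' (({p} : Finset ℕ) : Set ℕ) = (({a} : Finset _) : Set (ℕ → ZMod 2)) := by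
    simp
  obtain ⟨P, p1, p2, p3, p4, p5, -⟩ := ta_add hX hv (disjoint_singleton_left.2 hp) _ (e ▸ w3)
  have hr : ∀ X ⊆ Q.E, P.r X = Q.r X := fun X hX => by
    rw [← p2, P.r_del_of_disjoint (disjoint_singleton_right.2 fun h => hp (hX h))]
  have hk := Q.lam_add X
  have eE : P.E = insert p Q.E := by rw [p1, union_comm, insert_eq]
  exact ⟨P, p, p2, Bp.symm ⟨by rw [eE, union_sdiff_of_subset hX], disjoint_sdiff,
    fun h => hp (hX h), fun h => hp (mem_sdiff.1 h).1, p3 (mem_singleton_self p),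
    p4 (mem_singleton_self p), by rw [p5, e, w2, hl],
    by rw [union_sdiff_of_subset hX, hr _ hX, hr _ sdiff_subset, hr _ Subset.rfl]; omega⟩⟩

theorem se_side (h : P.Bp p Y X) (hm : (P.del {p}).MinorAt N f C)
    (h1 : (N.E.filter fun i => f i ∈ X).card ≤ 1) (hN : N.Loopless) (hN' : N.dual.Loopless) :
    (P.res (insert p Y)).HasMinor N := by
  have hE : ∀ z ∈ (P.del {p}).E, z ≠ p ∧ (z ∈ X ∨ z ∈ Y) := fun z hz => by
    rw [del_E, h.E] at hz
    simp only [mem_sdiff, mem_insert, mem_union, mem_singleton] at hz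
    tauto
  have eE : (P.res (insert p Y)).E = insert p Y :=
    inter_eq_right.2 (h.E ▸ insert_subset_insert p subset_union_left)
  have cY : C \ X ⊆ Y := fun z hz =>
    (hE z (hm.sub (mem_sdiff.1 hz).1)).2.resolve_left (mem_sdiff.1 hz).2
  have cX : C ∩ X ⊆ X := inter_subset_right
  have rk : ∀ S ⊆ N.E, N.r S + P.r (C \ X ∪ C ∩ X) = P.r (S.image f ∪ (C \ X ∪ C ∩ X)) := by
    intro S hS
    have := hm.rk S hS
    rw [r_del_of_disjoint _ (disjoint_singleton_right.2 fun a => (hE p (hm.sub a)).1 rfl),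
      r_del_of_disjoint _ (disjoint_singleton_right.2 fun a => by
        rcases mem_union.1 a with a | a
        · obtain ⟨i, hi, e⟩ := mem_image.1 a
          exact (hE _ (hm.maps i (hS hi)).1).1 e
        · exact (hE p (hm.sub a)).1 rfl)] at this
    rwa [sdiff_union_inter]
  have iY : ∀ S ⊆ N.E, (∀ i ∈ S, f i ∉ X) → S.image f ∪ C \ X ⊆ Y := fun S hS hn =>
    union_subset (image_subset_iff.2 fun i hi =>
      (hE _ (hm.maps i (hS hi)).1).2.resolve_left (hn i hi)) cY
  by_cases h0 : ∀ i ∈ N.E, f i ∉ X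
  · have fY : ∀ i ∈ N.E, f i ∈ Y := fun i hi =>
      (hE _ (hm.maps i hi).1).2.resolve_left (h0 i hi)
    by_cases hp : p ∈ P.cl (C ∩ X)
    · refine ⟨f, insert p (C \ X), hm.inj, (insert_subset_insert p cY).trans eE.ge, fun i hi =>
        ⟨eE.ge (mem_insert_of_mem (fY i hi)), fun a => ?_⟩, fun S hS => ?_⟩
      · rcases mem_insert.1 a with a | a
        · exact (hE _ (hm.maps i hi).1).1 a
        · exact (hm.maps i hi).2 (mem_sdiff.1 a).1
      · have s := iY S hS fun i hi => h0 i (hS hi)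
        have a1 := rk S hS
        have a2 := se_link h s cX hp
        have a3 := se_link h cY cX hp
        rw [← union_assoc] at a1
        rw [union_insert, r_res_of_subset _ (insert_subset_insert p cY),
          r_res_of_subset _ (insert_subset_insert p s)]
        omega
    · refine ⟨f, C \ X, hm.inj, (cY.trans (subset_insert _ _)).trans eE.ge, fun i hi =>
        ⟨eE.ge (mem_insert_of_mem (fY i hi)), fun a => (hm.maps i hi).2 (mem_sdiff.1 a).1⟩,
        fun S hS => ?_⟩
      have s := iY S hS fun i hi => h0 i (hS hi)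
      have a1 := rk S hS
      have a2 := se_skew h s cX hp
      have a3 := se_skew h cY cX hp
      rw [← union_assoc] at a1
      rw [r_res_of_subset _ (cY.trans (subset_insert _ _)),
        r_res_of_subset _ (s.trans (subset_insert _ _))]
      omega
  push Not at h0
  obtain ⟨j, hj, hjX⟩ := h0
  have uq : ∀ i ∈ N.E, i ≠ j → f i ∉ X := fun i hi hne a =>
    hne (card_le_one.1 h1 i (mem_filter.2 ⟨hi, a⟩) j (mem_filter.2 ⟨hj, hjX⟩))
  have cX' : insert (f j) (C ∩ X) ⊆ X := insert_subset hjX cX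
  have rk0 : ∀ S ⊆ N.E, j ∉ S →
      N.r S + P.r (C \ X ∪ C ∩ X) = P.r (S.image f ∪ C \ X ∪ C ∩ X) := fun S hS _ => by
    rw [rk S hS, union_assoc]
  have rk1 : ∀ S ⊆ N.E, j ∉ S → N.r (insert j S) + P.r (C \ X ∪ C ∩ X) =
      P.r (S.image f ∪ C \ X ∪ insert (f j) (C ∩ X)) := fun S hS _ => by
    rw [rk _ (insert_subset hj hS), image_insert, union_insert, insert_union, union_assoc]
  have sE := iY (N.E.erase j) (erase_subset _ _) fun i hi => uq i (mem_erase.1 hi).2 (mem_erase.1 hi).1
  have b0 := rk0 _ (erase_subset j _) (notMem_erase _ _)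
  have b1 := rk1 _ (erase_subset j _) (notMem_erase _ _)
  have b2 := rk1 ∅ (empty_subset _) (notMem_empty _)
  have b3 := hN j hj
  have b4 := r_erase_of_not_coloop (hN'.not_cyc j)
  rw [insert_erase hj] at b1
  rw [image_empty, empty_union, insert_empty_eq] at b2
  have hp : p ∉ P.cl (C ∩ X) := fun hp => by
    have hp' := P.cl_mono (subset_insert (f j) _) hp
    have a1 := se_link h cY cX hp
    have a2 := se_link h cY cX' hp'
    have a3 := se_link h sE cX hp
    have a4 := se_link h sE cX' hp'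
    omega
  have hp' : p ∈ P.cl (insert (f j) (C ∩ X)) := by
    by_contra hp'
    have a1 := se_skew h cY cX hp
    have a2 := se_skew h cY cX' hp'
    have a3 := se_skew h sE cX hp
    have a4 := se_skew h sE cX' hp'
    omega
  have b5 : P.r (insert (f j) (C ∩ X)) = P.r (C ∩ X) + 1 := by
    have a1 := P.r_insert_le (f j) (C ∩ X)
    have a2 := (mem_cl.1 hp').2
    have a3 := P.r_mono (insert_subset_insert p (subset_insert (f j) (C ∩ X)))
    have a4 := P.r_le_insert p (C ∩ X)
    have a5 : P.r (insert p (C ∩ X)) ≠ P.r (C ∩ X) := fun e =>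
      hp (mem_cl.2 ⟨(mem_cl.1 h.c1).1, e⟩)
    omega
  have im : ∀ S : Finset ℕ, j ∉ S → S.image (Function.update f j p) = S.image f := fun S hS =>
    image_congr fun i hi => Function.update_of_ne (ne_of_mem_of_not_mem hi hS) _ _
  refine ⟨Function.update f j p, C \ X, fun a ha b hb hab => ?_,
    (cY.trans (subset_insert _ _)).trans eE.ge, fun i hi => ?_, fun S hS => ?_⟩
  · by_cases e1 : a = j <;> by_cases e2 : b = j
    · rw [e1, e2]
    · rw [e1, Function.update_self, Function.update_of_ne e2] at hab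
      exact absurd hab.symm (hE _ (hm.maps b hb).1).1
    · rw [e2, Function.update_self, Function.update_of_ne e1] at hab
      exact absurd hab (hE _ (hm.maps a ha).1).1
    · rw [Function.update_of_ne e1, Function.update_of_ne e2] at hab
      exact hm.inj ha hb hab
  · rw [eE]
    by_cases e1 : i = j
    · rw [e1, Function.update_self]
      exact ⟨mem_insert_self _ _, fun a => h.n1 (cY a)⟩
    · rw [Function.update_of_ne e1]
      exact ⟨mem_insert_of_mem ((hE _ (hm.maps i hi).1).2.resolve_left (uq i hi e1)),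
        fun a => (hm.maps i hi).2 (mem_sdiff.1 a).1⟩
  · have a3 := se_skew h cY cX hp
    rw [r_res_of_subset _ (cY.trans (subset_insert _ _))]
    by_cases hjS : j ∈ S
    · have t := (erase_subset j S).trans hS
      have s := iY _ t fun i hi => uq i (t hi) (mem_erase.1 hi).1
      have a1 := rk1 _ t (notMem_erase _ _)
      have a2 := se_link h s cX' hp'
      rw [← insert_erase hjS, image_insert, Function.update_self, im _ (notMem_erase _ _),
        insert_union, r_res_of_subset _ (insert_subset_insert p s)]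
      omega
    · have s := iY _ hS fun i hi => uq i (hS hi) (ne_of_mem_of_not_mem hi hjS)
      have a1 := rk0 _ hS hjS
      have a2 := se_skew h s cX hp
      rw [im _ hjS, r_res_of_subset _ (s.trans (subset_insert _ _))]
      omega

theorem two_del (hX : X ⊆ Q.E) (hl : Q.lam X ≤ 1) (hm : Q.MinorAt N f C)
    (h1 : (N.E.filter fun i => f i ∈ X).card ≤ 1) (hN : N.Loopless) (hN' : N.dual.Loopless)
    (hx : x ∈ X) (h2 : 1 ≤ (Q.del {x}).lam (X.erase x)) : (Q.del {x}).HasMinor N := by
  have l1 := Q.lam_del_le hX {x}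
  rw [sdiff_singleton_eq_erase] at l1
  obtain ⟨P, p, rfl, h⟩ := se_bp hX (by omega : Q.lam X = 1)
  have hs := se_side h hm h1 hN hN'
  generalize (P.del {p}).E \ X = Y at h hs
  have xp : x ≠ p := ne_of_mem_of_not_mem hx h.n2
  have xY : x ∉ Y := disjoint_right.1 h.d hx
  have eE : ((P.del {p}).del {x}).E = Y ∪ X.erase x := by
    have n1 := h.n1
    have n2 := h.n2
    ext z
    simp only [del_E, h.E, mem_sdiff, mem_insert, mem_union, mem_singleton, mem_erase]
    grind
  have dY : Disjoint Y (X.erase x) := h.d.mono_right (erase_subset _ _)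
  have rr : ∀ S ⊆ Y ∪ X.erase x, ((P.del {p}).del {x}).r S = P.r S := fun S hS => by
    have t := eE ▸ hS
    rw [r_del_of_disjoint _ (disjoint_singleton_right.2 fun a => by simpa using t a),
      r_del_of_disjoint _ (disjoint_singleton_right.2 fun a => by simpa using t a)]
  have a1 := ((P.del {p}).del {x}).lam_add (X.erase x)
  rw [eE, union_sdiff_cancel_right dY, rr _ Subset.rfl, rr _ subset_union_right,
    rr _ subset_union_left] at a1
  have hp : p ∈ P.cl (X.erase x) := by
    by_contra hp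
    have := se_skew h Subset.rfl (erase_subset x X) hp
    omega
  have a2 := se_link h Subset.rfl (erase_subset x X) hp
  have rd : ∀ S, x ∉ S → (P.del {x}).r S = P.r S := fun S hS =>
    r_del_of_disjoint _ (disjoint_singleton_right.2 hS)
  have pE : p ∈ (P.del {x}).E := mem_sdiff.2 ⟨(mem_cl.1 hp).1, by simpa using xp.symm⟩
  have hb : (P.del {x}).Bp p Y (X.erase x) := by
    refine ⟨?_, dY, h.n1, fun a => h.n2 (mem_of_mem_erase a), mem_cl.2 ⟨pE, ?_⟩, mem_cl.2 ⟨pE, ?_⟩,
      ?_, ?_⟩
    · ext z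
      simp only [del_E, h.E, mem_sdiff, mem_insert, mem_union, mem_singleton, mem_erase]
      grind
    · rw [rd _ xY, rd _ (by simp [xp, xY]), (mem_cl.1 h.c1).2]
    · rw [rd _ (notMem_erase _ _), rd _ (by simp [xp]), (mem_cl.1 hp).2]
    · rw [rd _ (by simp [xp]), h.one]
    · rw [rd _ xY, rd _ (notMem_erase _ _), rd _ (by simp [xY]), a2, (mem_cl.1 h.c1).2]
  have hm' := hb.minor
  rw [del_del, union_comm, ← del_del, del_eq_res P {x}, res_res,
    inter_eq_right.2 ((insert_subset_insert p subset_union_left).trans hb.E.ge :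
      insert p Y ⊆ P.E \ {x})] at hm'
  exact hm'.trans hs

theorem two_con (hX : X ⊆ Q.E) (hl : Q.lam X ≤ 1) (hm : Q.MinorAt N f C)
    (h1 : (N.E.filter fun i => f i ∈ X).card ≤ 1) (hN : N.Loopless) (hN' : N.dual.Loopless)
    (hx : x ∈ X) (h2 : 1 ≤ (Q.con {x}).lam (X.erase x)) : (Q.con {x}).HasMinor N := by
  refine HasMinor.of_dual ?_
  rw [dual_con]
  refine two_del (Q := Q.dual) hX (by rwa [lam_dual hX]) hm.dual h1 hN' (by rwa [dual_dual]) hx ?_
  rwa [← dual_con, lam_dual (by
    rw [con_E, sdiff_singleton_eq_erase]; exact erase_subset_erase x hX)]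

end BM

end Pool.Agent.P.MP_3f5ce9_co
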