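import Pool.Agent.P.MP_3f5ce9_co.W.SaC

/-!
The induction hypothesis up to series and parallel classes.
-/

open Finset

namespace Pool.Agent.P.MP_3f5ce9_co

namespace BM

variable {M N P : BM} {e x y : ℕ}

theorem sg_imp {C D : Finset ℕ} (h : M.del {x} = N.del {x}) (h1 : M.cyc D) (h2 : N.cyc D)
    (hx : x ∈ D) (hC : M.cyc C) : N.cyc C := by
  have k : ∀ C, M.cyc C → x ∉ C → N.cyc C := fun C a b =>
    (cyc_del_iff.1 (h ▸ cyc_del_iff.2 ⟨a, disjoint_singleton_right.2 b⟩ : (N.del {x}).cyc C)).1
  by_cases a : x ∈ C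
  · have := N.sd _ _ (k _ (M.sd _ _ hC h1) (by simp [mem_symmDiff, a, hx])) h2
    rwa [symmDiff_symmDiff_cancel_right] at this
  · exact k C hC a

theorem sg_ext {D : Finset ℕ} (hE : M.E = N.E) (h : M.del {x} = N.del {x}) (h1 : M.cyc D)
    (h2 : N.cyc D) (hx : x ∈ D) : M = N :=
  ext_cyc hE fun _ => ⟨sg_imp h h1 h2 hx, sg_imp h.symm h2 h1 hx⟩

theorem graphic_par (hc : P.cyc {x, y}) (h : (P.del {x}).Graphic) : P.Graphic := by
  obtain ⟨G, hG⟩ := h
  refine ⟨⟨fun e => if e = x then G.s y else G.s e,
    fun e => if e = x then if x = y then G.s y else G.t y else G.t e⟩,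
    sg_ext rfl ?_ hc ⟨P.sub _ hc, ?_⟩ (mem_insert_self _ _)⟩
  · rw [gm_del, hG]
    refine (gm_congr fun e he => Or.inl ?_).symm
    have : e ≠ x := by simpa using (mem_sdiff.1 he).2
    simp [this]
  · by_cases a : x = y
    · subst a
      rw [pair_eq_singleton, mn_single]
      simp
    · rw [GA.odd_insert (notMem_singleton.2 a), mn_single]
      simp [a, Ne.symm a]

theorem graphic_ser (hc : P.dual.cyc {x, y}) (h : (P.con {x}).Graphic) : P.Graphic := by
  obtain ⟨G, hG⟩ := h
  obtain ⟨z, hz⟩ := Infinite.exists_notMem_finset (GA.vs G P.E)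
  have hs : ∀ e ∈ P.E, G.s e ≠ z ∧ G.t e ≠ z := fun e he =>
    ⟨fun a => hz (a ▸ (GA.within_vs G _ e he).1), fun a => hz (a ▸ (GA.within_vs G _ e he).2)⟩
  have hx : x ∈ P.E := hc.1 (mem_insert_self _ _)
  have hy : y ∈ P.E := hc.1 (by simp)
  let G' : Gr ℕ ℕ := ⟨fun e => if e = x then z else G.s e,
    fun e => if e = x then G.t y else if e = y then z else G.t e⟩
  have k : P.dual = (gm G' P.E).dual := by
    refine sg_ext rfl ?_ hc (cocyc_gm.2 ⟨{z}, ?_⟩) (mem_insert_self _ _)
    · rw [← dual_con, ← dual_con, gm_con_single hx (u := z) (w := G.t y) (Or.inl (by simp [G'])),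
        hG, con_E, sdiff_singleton_eq_erase]
      refine congrArg _ (gm_congr fun e he => Or.inl ?_).symm
      obtain ⟨a, b⟩ := mem_erase.1 he
      have := hs e b
      by_cases c : e = y <;> simp_all [G', Gr.ctr]
    · ext e
      have := hs e
      have := hs y hy
      simp only [Gr.mem_cut, mem_insert, mem_singleton, G']
      by_cases a : e = x <;> by_cases c : e = y <;> simp_all
  exact ⟨G', by simpa using congrArg dual k⟩

theorem MinC.card (h : M.MinC N) : 6 ≤ M.E.card := h.nok.card.trans h.mn.card_le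

theorem MinC.simple (h : M.MinC N) : M.Simple := h.conn.simple (by have := h.card; omega)

theorem MinC.cosimple (h : M.MinC N) : M.dual.Simple := h.conn.cosimple (by have := h.card; omega)

theorem MinC.ihC (h : M.MinC N) (hP : M.HasMinor P) (hc : P.E.card < M.E.card) (hk : P.COK N) :
    P.Graphic := by
  induction hn : P.E.card using Nat.strong_induction_on generalizing P with
  | _ n ih =>
    by_cases a : ∃ x y, P.cyc {x, y}
    · obtain ⟨x, y, a⟩ := a
      have := card_del_single (P.sub _ a (mem_insert_self _ _))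
      exact graphic_par a (ih _ (by omega) (hP.trans (hasMinor_del _ _)) (by omega)
        (hk.del_par h.nok a) rfl)
    · exact h.ih P hP hc (hk.conn3 fun x y _ b => a ⟨x, y, b⟩) hk.mn

theorem MinC.ihD (h : M.MinC N) (hP : M.HasMinor P) (hc : P.E.card < M.E.card) (hk : P.DOK N) :
    P.Graphic := by
  induction hn : P.E.card using Nat.strong_induction_on generalizing P with
  | _ n ih =>
    by_cases a : ∃ x y, P.dual.cyc {x, y}
    · obtain ⟨x, y, a⟩ := a
      have := card_con_single (M := P) (a.1 (mem_insert_self _ _))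
      exact graphic_ser a (ih _ (by omega) (hP.trans (hasMinor_con _ _)) (by omega)
        (hk.con_ser h.nok a) rfl)
    · exact h.ih P hP hc (hk.conn3 fun x y _ b => a ⟨x, y, b⟩) hk.mn

theorem MinC.ihP (h : M.MinC N) (hP : M.HasMinor P) (hc : P.E.card < M.E.card) (he : e ∈ P.E)
    (hk : (P.del {e}).DOK N) : P.Graphic := by
  induction hn : P.E.card using Nat.strong_induction_on generalizing P with
  | _ n ih =>
    have := card_del_single he
    have g := h.ihD (hP.trans (hasMinor_del _ _)) (by omega) hk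
    by_cases h1 : ∃ x, P.cyc {e, x}
    · exact graphic_par h1.choose_spec g
    by_cases h2 : P.dual.cyc {e}
    · exact graphic_ser (y := e) (by rwa [pair_eq_singleton]) (con_eq_del_of_coloop h2 ▸ g)
    have k : ∀ y, y ≠ e → ¬ P.dual.cyc {y} ∧ ¬ P.dual.cyc {e, y} := fun y a =>
      ⟨fun b => hk.ll.not_cyc y (cocyc_del_single.2 ⟨by simpa using a.symm, Or.inl b⟩),
        fun b => hk.ll.not_cyc y (cocyc_del_single.2 ⟨by simpa using a.symm, Or.inr b⟩)⟩
    by_cases h3 : ∃ x y, x ≠ y ∧ P.dual.cyc {x, y}
    · obtain ⟨x, y, a, b⟩ := h3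
      have ex : e ≠ x := by
        rintro rfl
        exact (k y a.symm).2 b
      have ey : e ≠ y := by
        rintro rfl
        exact (k x a).2 (pair_comm x e ▸ b)
      have := card_con_single (M := P) (b.1 (mem_insert_self _ _))
      have c := hk.con_ser h.nok (cocyc_del_single.2 ⟨by simp [ex, ey], Or.inl b⟩)
      rw [del_con _ (by simpa using ex)] at c
      exact graphic_ser b (ih _ (by omega) (hP.trans (hasMinor_con _ _)) (by omega)
        (by simp [he, ex]) c rfl)
    have hs : P.dual.Simple := simple_of_pair fun x y b => by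
      by_cases a : x = y
      · subst a
        rw [pair_eq_singleton] at b
        by_cases c : x = e
        · exact h2 (c ▸ b)
        · exact (k x c).1 b
      · exact h3 ⟨x, y, a, b⟩
    rcases coext' he h2 hk.vc hk.ll with v | ⟨D, d1, d2, d3⟩
    · exact h.ih P hP hc (by simpa using (v.conn3 hs).dual) hk.mn.of_del
    · have c : (D.erase e).card ≤ 1 := card_le_one.2 fun p hp q hq => by
        by_contra a
        exact h3 ⟨p, q, a, hs.loopless.cyc_pair ((erase_subset _ _).trans (P.sub _ d1)) d3 hp hq a⟩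
      rw [← insert_erase d2] at d1
      rcases card_le_one_iff_subset_singleton.1 c with ⟨p, hp⟩
      rcases subset_singleton_iff.1 hp with a | a <;> rw [a] at d1
      · exact (h1 ⟨e, by simpa using d1⟩).elim
      · exact (h1 ⟨p, d1⟩).elim

end BM

end Pool.Agent.P.MP_3f5ce9_co
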