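import Pool.Agent.P.MP_3f5ce9_co.W.SaB

/-!
Elementary facts on cycle matroids of graphs.
-/

open Finset

namespace Pool.Agent.P.MP_3f5ce9_co

namespace BM

variable {N : BM} {G : Gr ℕ ℕ} {X Es F C : Finset ℕ} {e f g h u v w z a b c d x y : ℕ}

theorem sah_gv (h : G.Joins e a b) : GA.gv G e = symmDiff {a} {b} := by
  rcases h with ⟨rfl, rfl⟩ | ⟨rfl, rfl⟩
  · rfl
  · exact symmDiff_comm _ _

theorem sah_sd (A B C : Finset ℕ) : symmDiff (symmDiff A B) (symmDiff B C) = symmDiff A C := by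
  rw [symmDiff_assoc, symmDiff_symmDiff_cancel_left]

theorem norm_of_r (hX : G.Within F X) (hF : F ⊆ Es) (hne : X.Nonempty)
    (h : X.card ≤ (gm G Es).r F + 1) : G.Norm X F := by
  refine ⟨hX, hne, fun u hu w hw => ?_⟩
  have h1 := r_gm_add hF hX
  have h2 : (X.image (G.comp X F)).card ≤ 1 := by
    unfold Gr.ncomp at h1
    omega
  exact (Gr.comp_eq_iff hu hw).1
    (card_le_one.1 h2 _ (mem_image_of_mem _ hu) _ (mem_image_of_mem _ hw))

theorem norm_erase (h : G.Norm X Es) (hf : ¬ (gm G Es).dual.cyc {f}) : G.Norm X (Es.erase f) := by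
  have h1 := r_erase_of_not_coloop hf
  have h2 := r_gm_conn (Subset.refl Es) h
  rw [gm_E] at h1
  exact norm_of_r (h.within.mono (erase_subset _ _)) (erase_subset _ _) h.ne (by omega)

theorem gm_del_single (G : Gr ℕ ℕ) (Es : Finset ℕ) (f : ℕ) :
    (gm G Es).del {f} = gm G (Es.erase f) := by
  rw [gm_del, sdiff_singleton_eq_erase]

theorem loop_gm (he : e ∈ Es) : (gm G Es).cyc {e} ↔ G.s e = G.t e := by
  change {e} ⊆ Es ∧ oddSum (GA.gv G) {e} = ∅ ↔ _
  rw [GA.odd_single, singleton_subset_iff, ← bot_eq_empty, symmDiff_eq_bot, singleton_inj]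
  exact and_iff_right he

theorem Loopless.joins_ne (h : (gm G Es).Loopless) (he : e ∈ Es) (hj : G.Joins e u w) : u ≠ w := by
  intro e'
  refine h.not_cyc e ((loop_gm he).2 ?_)
  unfold Gr.Joins at hj
  omega

theorem Simple.joins_eq (h : (gm G Es).Simple) (he : e ∈ Es) (hf : f ∈ Es) (h1 : G.Joins e u w)
    (h2 : G.Joins f u w) : e = f := by
  by_contra hne
  refine h.not_pair e f ⟨insert_subset he (singleton_subset_iff.2 hf), ?_⟩
  change oddSum (GA.gv G) {e, f} = ∅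
  rw [GA.odd_insert (by simpa using hne), GA.odd_single, sah_gv h1, sah_gv h2, symmDiff_self]
  rfl

theorem joins_of_inc (h1 : G.Inc e u) (h2 : G.Inc e w) (hne : u ≠ w) : G.Joins e u w := by
  unfold Gr.Inc at h1 h2
  unfold Gr.Joins
  omega

theorem joins_right (h1 : G.Joins e u v) (h2 : G.Joins e u w) : v = w := by
  unfold Gr.Joins at h1 h2
  omega

theorem joins_cases (h1 : G.Joins e a b) (h2 : G.Joins e c d) :
    (a = c ∧ b = d) ∨ (a = d ∧ b = c) := by
  unfold Gr.Joins at h1 h2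
  omega

theorem cyc_tri_gm (hn : [e, f, g].Nodup) (he : e ∈ Es) (hf : f ∈ Es) (hg : g ∈ Es)
    (h1 : G.Joins e a b) (h2 : G.Joins f b c) (h3 : G.Joins g c a) : (gm G Es).cyc {e, f, g} := by
  simp only [List.nodup_cons, List.mem_cons, List.not_mem_nil, or_false, not_or] at hn
  refine ⟨insert_subset he (insert_subset hf (singleton_subset_iff.2 hg)), ?_⟩
  change oddSum (GA.gv G) {e, f, g} = ∅
  rw [GA.odd_insert (by simp [hn]), GA.odd_insert (by simp [hn]), GA.odd_single, sah_gv h1,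
    sah_gv h2, sah_gv h3, sah_sd, sah_sd, symmDiff_self]
  rfl

theorem cyc_quad_gm (hn : [e, f, g, h].Nodup) (he : e ∈ Es) (hf : f ∈ Es) (hg : g ∈ Es)
    (hh : h ∈ Es) (h1 : G.Joins e a b) (h2 : G.Joins f b c) (h3 : G.Joins g c d)
    (h4 : G.Joins h d a) : (gm G Es).cyc {e, f, g, h} := by
  simp only [List.nodup_cons, List.mem_cons, List.not_mem_nil, or_false, not_or] at hn
  refine ⟨insert_subset he (insert_subset hf (insert_subset hg (singleton_subset_iff.2 hh))), ?_⟩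
  change oddSum (GA.gv G) {e, f, g, h} = ∅
  rw [GA.odd_insert (by simp [hn]), GA.odd_insert (by simp [hn]), GA.odd_insert (by simp [hn]),
    GA.odd_single, sah_gv h1, sah_gv h2, sah_gv h3, sah_gv h4, sah_sd, sah_sd, sah_sd,
    symmDiff_self]
  rfl

theorem joins_of_tri (hn : [e, f, g].Nodup) (hC : (gm G Es).cyc {e, f, g}) (h1 : G.Joins e a b)
    (h2 : G.Joins f a c) (hne : b ≠ c) : G.Joins g b c := by
  simp only [List.nodup_cons, List.mem_cons, List.not_mem_nil, or_false, not_or] at hn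
  have h : oddSum (GA.gv G) {e, f, g} = ∅ := hC.2
  rw [GA.odd_insert (by simp [hn]), GA.odd_insert (by simp [hn]), GA.odd_single, sah_gv h1.symm,
    sah_gv h2, ← symmDiff_assoc, sah_sd, ← bot_eq_empty, symmDiff_eq_bot] at h
  have hb : b ∈ GA.gv G g := h ▸ (GA.mem_sd hne).2 (Or.inl rfl)
  have hc : c ∈ GA.gv G g := h ▸ (GA.mem_sd hne).2 (Or.inr rfl)
  simp only [mem_symmDiff, mem_singleton] at hb hc
  unfold Gr.Joins
  omega

theorem cyc_inc (hC : (gm G Es).cyc C) (he : e ∈ C) (hj : G.Joins e v w) (hne : v ≠ w) :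
    ∃ e' ∈ C, e' ≠ e ∧ G.Inc e' v := by
  have h : oddSum (GA.gv G) C = ∅ := hC.2
  by_contra hc
  have h1 := (GA.cyc_conn h he)
  have h2 := (hj.conn' h1).eq_of_isolated fun e' he' hi =>
    hc ⟨e', (mem_erase.1 he').2, (mem_erase.1 he').1, hi⟩
  exact hne h2.symm

theorem cocyc_star' (h : (gm G Es).Loopless) (v : ℕ) : (gm G Es).dual.cyc (G.star Es v) := by
  exact cocyc_star fun e he _ => h.joins_ne he (G.joins_st e)

theorem star_erase (G : Gr ℕ ℕ) (Es : Finset ℕ) (f v : ℕ) :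
    G.star (Es.erase f) v = (G.star Es v).erase f := by
  ext e
  simp only [Gr.mem_star, mem_erase]
  tauto

theorem handshake (hX : G.Within Es X) (hl : (gm G Es).Loopless) :
    ∑ v ∈ X, (G.star Es v).card = 2 * Es.card := by
  have h1 : ∀ e ∈ Es, (X.filter fun v => G.Inc e v).card = 2 := fun e he => by
    have : (X.filter fun v => G.Inc e v) = {G.s e, G.t e} := by
      ext v
      have := hX e he
      simp only [mem_filter, mem_insert, mem_singleton, Gr.Inc]
      grind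
    rw [this, card_pair (hl.joins_ne he (G.joins_st e))]
  unfold Gr.star
  simp only [card_filter] at h1 ⊢
  rw [Finset.sum_comm, sum_congr rfl h1, sum_const, smul_eq_mul, mul_comm]

theorem cut_compl (hX : G.Within Es X) (W : Finset ℕ) : G.cut Es (X \ W) = G.cut Es W := by
  ext e
  simp only [Gr.mem_cut, mem_sdiff]
  refine and_congr_right fun he => ?_
  have := hX e he
  tauto

theorem norm_ctr (h : G.Norm X Es) (hx : x ∈ Es) (hj : G.Joins x z a) (hne : a ≠ z) :
    (G.map (Gr.ctr z a)).Norm (X.erase z) (Es.erase x) := by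
  have hm := hj.mem h.within hx
  refine ⟨(h.within.ctr hm.2 hne).mono (erase_subset _ _), ⟨a, mem_erase.2 ⟨hne, hm.2⟩⟩,
    fun u hu w hw => ?_⟩
  have h1 := (h.conn u (mem_erase.1 hu).2 w (mem_erase.1 hw).2).map (Gr.ctr z a)
  rw [Gr.ctr_of_ne (mem_erase.1 hu).1, Gr.ctr_of_ne (mem_erase.1 hw).1] at h1
  refine h1.of_spans fun e he => ?_
  by_cases hex : e = x
  · subst hex
    refine (hj.map (Gr.ctr z a)).conn ?_
    rw [Gr.ctr_self, Gr.ctr_of_ne hne]
    exact Gr.Conn.refl _ _ _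
  · exact Gr.Conn.edge (mem_erase.2 ⟨hex, he⟩) (Gr.joins_st _ e)

theorem star_ctr_ne (h1 : v ≠ z) (h2 : v ≠ a) : (G.map (Gr.ctr z a)).star F v = G.star F v := by
  ext e
  simp only [Gr.mem_star, Gr.Inc, Gr.map_s, Gr.map_t, Gr.ctr]
  grind

theorem star_ctr (hne : a ≠ z) : (G.map (Gr.ctr z a)).star F a = G.star F z ∪ G.star F a := by
  ext e
  simp only [Gr.mem_star, mem_union, Gr.Inc, Gr.map_s, Gr.map_t, Gr.ctr]
  grind

theorem d2_ctr {z' x' y' a' b' : ℕ} (h : G.D2 Es z' x' y' a' b') (hj : G.Joins x z a)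
    (h1 : z' ≠ z) (h2 : z' ≠ a) (h3 : a' ≠ z) (h4 : b' ≠ z) :
    (G.map (Gr.ctr z a)).D2 (Es.erase x) z' x' y' a' b' := by
  have j1 := h.jx.map (Gr.ctr z a)
  have j2 := h.jy.map (Gr.ctr z a)
  rw [Gr.ctr_of_ne h1, Gr.ctr_of_ne h3] at j1
  rw [Gr.ctr_of_ne h1, Gr.ctr_of_ne h4] at j2
  refine ⟨?_, h.ne, j1, j2, h.az, h.bz⟩
  rw [star_ctr_ne h1 h2, star_erase, erase_eq_of_notMem, h.star]
  intro hx
  rcases hj.inc_iff.1 (Gr.mem_star.1 hx).2 with h' | h'
  · exact h1 h'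
  · exact h2 h'

theorem d2_symm (h : G.D2 Es z x y a b) : G.D2 Es z y x b a := by
  exact ⟨h.star.trans (pair_comm _ _), h.ne.symm, h.jy, h.jx, h.bz, h.az⟩

theorem d2_mem (h : G.D2 Es z x y a b) : x ∈ Es ∧ y ∈ Es := by
  have hx : x ∈ G.star Es z := by rw [h.star]; simp
  have hy : y ∈ G.star Es z := by rw [h.star]; simp
  exact ⟨(Gr.mem_star.1 hx).1, (Gr.mem_star.1 hy).1⟩

theorem d2_swp {z' x' y' a' b' : ℕ} (h : G.D2 Es z' x' y' a' b') (hx : x ∈ Es) (hy : y ∈ Es)
    (h1 : x ≠ x') (h2 : x ≠ y') (h3 : y ≠ x') (h4 : y ≠ y') : (G.swp x y).D2 Es z' x' y' a' b' := by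
  have hs : ∀ e, e ∈ Es ∧ G.Inc e z' ↔ e = x' ∨ e = y' := fun e => by
    rw [← Gr.mem_star, h.star, mem_insert, mem_singleton]
  refine ⟨?_, h.ne, ?_, ?_, h.az, h.bz⟩
  · ext e
    rw [Gr.mem_star, mem_insert, mem_singleton]
    change e ∈ Es ∧ G.Inc (Equiv.swap x y e) z' ↔ _
    have a1 := hs x
    have a2 := hs y
    have a3 := hs e
    rw [Equiv.swap_apply_def]
    split_ifs with b1 b2
    · subst b1
      tauto
    · subst b2
      tauto
    · exact a3
  · change G.Joins (Equiv.swap x y x') z' a'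
    rw [Equiv.swap_apply_of_ne_of_ne h1.symm h3.symm]
    exact h.jx
  · change G.Joins (Equiv.swap x y y') z' b'
    rw [Equiv.swap_apply_of_ne_of_ne h2.symm h4.symm]
    exact h.jy

/-- a cubic vertex becomes a vertex of degree two -/
theorem d2_of_star (hl : (gm G Es).Loopless) (hs : G.star Es c = {f, x, y}) (hn : [f, x, y].Nodup) :
    ∃ a b, G.D2 (Es.erase f) c x y a b := by
  simp only [List.nodup_cons, List.mem_cons, List.not_mem_nil, or_false, not_or] at hn
  have hx : x ∈ G.star Es c := by rw [hs]; simp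
  have hy : y ∈ G.star Es c := by rw [hs]; simp
  obtain ⟨a, ha⟩ := (Gr.mem_star.1 hx).2.exists_joins
  obtain ⟨b, hb⟩ := (Gr.mem_star.1 hy).2.exists_joins
  refine ⟨a, b, ?_, hn.2.1, ha, hb, (hl.joins_ne (Gr.mem_star.1 hx).1 ha).symm,
    (hl.joins_ne (Gr.mem_star.1 hy).1 hb).symm⟩
  rw [star_erase, hs, erase_insert (by simp [hn])]

end BM

end Pool.Agent.P.MP_3f5ce9_co
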