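import Pool.Agent.P.MP_3f5ce9_co.W.SaH

/-!
Three-connected graphs.
-/

open Finset

namespace Pool.Agent.P.MP_3f5ce9_co

namespace BM

variable {N : BM} {G : Gr ℕ ℕ} {X Es D U : Finset ℕ} {s u v w z : ℕ}

theorem sai_mem {e p q : ℕ} (hX : G.Within Es X) (he : e ∈ Es) (hj : G.Joins e p q) : q ∈ X := by
  rcases hj with h | h
  · exact h.2 ▸ (hX e he).2
  · exact h.1 ▸ (hX e he).1

theorem sai_cut {e p q : ℕ} {W : Finset ℕ} (hj : G.Joins e p q) :
    e ∈ G.cut Es W ↔ e ∈ Es ∧ ¬ (p ∈ W ↔ q ∈ W) := by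
  rw [Gr.mem_cut]
  rcases hj with h | h
  · rw [h.1, h.2]
  · rw [h.1, h.2, iff_comm (a := q ∈ W)]

theorem sai_wlog (hX : G.Within Es X) (hD : (gm G Es).dual.cyc D) (v : ℕ) :
    ∃ W, v ∉ W ∧ D = G.cut Es W := by
  obtain ⟨W, rfl⟩ := cocyc_gm.1 hD
  by_cases hv : v ∈ W
  · exact ⟨X \ W, fun h => (mem_sdiff.1 h).2 hv, (cut_compl hX W).symm⟩
  · exact ⟨W, hv, rfl⟩

theorem g3_of_cok (hn : G.Norm X Es) (h : (gm G Es).COK N) (hN : N.NOK) : G3 G X Es := by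
  exact ⟨hn, h.vc, h.ll, hN.r3.trans h.mn.r_le⟩

theorem G3.star_r (h : G3 G X Es) (hv : v ∈ X) : 3 ≤ (gm G Es).r (G.star Es v) := by
  refine h.vc.coc3 h.r3 (cocyc_star' h.ll v) ?_
  have h1 := r_gm_conn Subset.rfl h.norm
  have h2 := h.r3
  obtain ⟨w, hw, hne⟩ := exists_mem_ne (s := X) (by omega) v
  by_contra hn
  refine hne ((h.norm.conn v hv w hw).eq_of_isolated fun e he hi => hn ⟨e, ?_⟩)
  exact Gr.mem_star.2 ⟨he, hi⟩

theorem G3.star_card (h : G3 G X Es) (hv : v ∈ X) : 3 ≤ (G.star Es v).card := by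
  exact (h.star_r hv).trans ((gm G Es).r_le_card _)

theorem G3.star_ne (h : G3 G X Es) (hv : v ∈ X) (hne : v ≠ w) : G.star Es v ≠ G.star Es w := by
  intro he
  have h1 := h.star_r hv
  have h2 : G.Within (G.star Es v ∩ Es) {v, w} := by
    intro e he'
    have h3 := (mem_inter.1 he').1
    have h4 := joins_of_inc (Gr.mem_star.1 h3).2 (Gr.mem_star.1 (he ▸ h3)).2 hne
    rcases h4 with h4 | h4 <;> simp [h4.1, h4.2]
  have h3 := r_gm_lt h2 (insert_nonempty _ _)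
  have h4 : ({v, w} : Finset ℕ).card ≤ 2 := card_le_two
  omega

/-- two vertices do not separate -/
theorem G3.sep (h : G3 G X Es) (hU : U ⊆ X) (v w : ℕ)
    (hc : ∀ e ∈ Es, ∀ p q, G.Joins e p q → p ∈ U → q ∈ U ∨ q = v ∨ q = w) :
    U = ∅ ∨ ∀ p ∈ X, p ∈ U ∨ p = v ∨ p = w := by
  by_contra hn
  rw [not_or] at hn
  obtain ⟨hn1, hn2⟩ := hn
  obtain ⟨u, hu⟩ := nonempty_iff_ne_empty.2 hn1
  obtain ⟨p, hp, hp'⟩ : ∃ p ∈ X, ¬ (p ∈ U ∨ p = v ∨ p = w) := by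
    by_contra h1
    exact hn2 fun p hp => by_contra fun h2 => h1 ⟨p, hp, h2⟩
  set A := Es.filter fun e => G.s e ∈ U ∨ G.t e ∈ U with hA
  have hAE : A ⊆ Es := filter_subset _ _
  have h1 : G.Within (A ∩ Es) (U ∪ {v, w}) := by
    intro e he
    have h2 := mem_filter.1 (mem_inter.1 he).1
    have h3 := hc e h2.1 _ _ (G.joins_st e)
    have h4 := hc e h2.1 _ _ (G.joins_st e).symm
    simp only [mem_union, mem_insert, mem_singleton]
    tauto
  have h2 : G.Within ((Es \ A) ∩ Es) (X \ U) := by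
    intro e he
    have h2 := mem_sdiff.1 (mem_inter.1 he).1
    have h3 := h.norm.within e h2.1
    have h4 : ¬ (G.s e ∈ U ∨ G.t e ∈ U) := fun h5 => h2.2 (mem_filter.2 ⟨h2.1, h5⟩)
    simp only [mem_sdiff]
    tauto
  have h3 := r_gm_lt h1 ⟨u, mem_union_left _ hu⟩
  have h4 := r_gm_lt h2 ⟨p, mem_sdiff.2 ⟨hp, fun h5 => hp' (Or.inl h5)⟩⟩
  have h5 := r_gm_conn Subset.rfl h.norm
  have h6 := card_union_le U {v, w}
  have h7 : ({v, w} : Finset ℕ).card ≤ 2 := card_le_two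
  have h8 := card_sdiff_add_card_eq_card hU
  have h9 := (gm G Es).lam_add A
  have h10 := h.vc A hAE
  have h11 : G.star Es u ⊆ A := by
    intro e he
    have h12 := Gr.mem_star.1 he
    refine mem_filter.2 ⟨h12.1, ?_⟩
    rcases h12.2 with h13 | h13
    · exact Or.inl (h13 ▸ hu)
    · exact Or.inr (h13 ▸ hu)
  have h12 : G.star Es p ⊆ Es \ A := by
    intro e he
    have h13 := Gr.mem_star.1 he
    refine mem_sdiff.2 ⟨h13.1, fun h14 => hp' ?_⟩
    obtain ⟨q, hq⟩ := h13.2.exists_joins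
    have h15 := (mem_filter.1 h14).2
    by_cases h16 : q ∈ U
    · exact hc e h13.1 q p hq.symm h16
    · left
      rcases hq with h17 | h17 <;> rw [h17.1, h17.2] at h15 <;> tauto
  have h13 := (h.star_r (hU hu)).trans ((gm G Es).r_mono h11)
  have h14 := (h.star_r hp).trans ((gm G Es).r_mono h12)
  rw [gm_E] at h9 h10
  omega

theorem G3.min (h : G3 G X Es) (hD : (gm G Es).dual.cyc D) (hs : D ⊆ G.star Es v) :
    D = ∅ ∨ D = G.star Es v := by
  obtain ⟨W, hv, rfl⟩ := sai_wlog h.norm.within hD v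
  rcases h.sep (U := W ∩ X) inter_subset_right v v (fun e he p q hj hp => by
    by_cases hq : q ∈ W
    · exact Or.inl (mem_inter.2 ⟨hq, sai_mem h.norm.within he hj⟩)
    · have h1 := (mem_inter.1 hp).1
      have h2 := (Gr.mem_star.1 (hs ((sai_cut hj).2 ⟨he, fun h3 => hq (h3.1 h1)⟩))).2
      rcases hj.inc_iff.1 h2 with h3 | h3
      · exact absurd (h3 ▸ h1) hv
      · exact Or.inr (Or.inl h3.symm)) with h1 | h1
  · left
    refine eq_empty_of_forall_notMem fun e he => ?_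
    have h2 := Gr.mem_cut.1 he
    have h3 := h.norm.within e h2.1
    have h4 : ∀ p ∈ X, p ∉ W := fun p hp hW => notMem_empty p (h1 ▸ mem_inter.2 ⟨hW, hp⟩)
    exact h2.2 (iff_of_false (h4 _ h3.1) (h4 _ h3.2))
  · right
    refine Subset.antisymm hs fun e he => ?_
    have h2 := Gr.mem_star.1 he
    obtain ⟨q, hq⟩ := h2.2.exists_joins
    have h3 := h.ll.joins_ne h2.1 hq
    refine (sai_cut hq).2 ⟨h2.1, fun h4 => hv (h4.2 ?_)⟩
    rcases h1 q (sai_mem h.norm.within h2.1 hq) with h5 | h5 | h5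
    · exact (mem_inter.1 h5).1
    · exact absurd h5.symm h3
    · exact absurd h5.symm h3

theorem G3.sai_common {A : Finset ℕ} (h : G3 G X Es) (hA : A ⊆ Es \ G.star Es v)
    (h1 : A.Nonempty) (h2 : ((Es \ G.star Es v) \ A).Nonempty) :
    ∃ w, ∃ a ∈ A, ∃ b ∈ (Es \ G.star Es v) \ A, G.Inc a w ∧ G.Inc b w := by
  by_contra hn
  have hF : ∀ e, e ∈ Es \ G.star Es v ↔ e ∈ Es ∧ ¬ G.Inc e v := fun e => by
    rw [mem_sdiff, Gr.mem_star]; tauto
  have hU : ∀ p, p ∈ A.image G.s ∪ A.image G.t ↔ ∃ a ∈ A, G.Inc a p := fun p => by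
    simp only [mem_union, mem_image, Gr.Inc]
    constructor
    · rintro (⟨a, h3, h4⟩ | ⟨a, h3, h4⟩)
      · exact ⟨a, h3, Or.inl h4⟩
      · exact ⟨a, h3, Or.inr h4⟩
    · rintro ⟨a, h3, h4 | h4⟩
      · exact Or.inl ⟨a, h3, h4⟩
      · exact Or.inr ⟨a, h3, h4⟩
  rcases h.sep (U := A.image G.s ∪ A.image G.t) (fun p hp => by
      obtain ⟨a, h3, h4⟩ := (hU p).1 hp
      obtain ⟨q, hq⟩ := h4.exists_joins
      exact sai_mem h.norm.within ((hF a).1 (hA h3)).1 hq.symm) v v (fun e he p q hj hp => by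
    obtain ⟨a, h3, h4⟩ := (hU p).1 hp
    by_cases h5 : e ∈ A
    · exact Or.inl ((hU q).2 ⟨e, h5, hj.inc'⟩)
    · by_cases h6 : G.Inc e v
      · rcases hj.inc_iff.1 h6 with h7 | h7
        · exact absurd (h7 ▸ h4) ((hF a).1 (hA h3)).2
        · exact Or.inr (Or.inl h7.symm)
      · exact absurd ⟨p, a, h3, e, mem_sdiff.2 ⟨(hF e).2 ⟨he, h6⟩, h5⟩, h4, hj.inc⟩ hn) with h3 | h3
  · obtain ⟨a, ha⟩ := h1
    exact notMem_empty _ (h3 ▸ (hU (G.s a)).2 ⟨a, ha, Or.inl rfl⟩)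
  · obtain ⟨b, hb⟩ := h2
    have h4 := (hF b).1 (mem_sdiff.1 hb).1
    rcases h3 (G.s b) (h.norm.within b h4.1).1 with h5 | h5 | h5
    · obtain ⟨a, h6, h7⟩ := (hU _).1 h5
      exact hn ⟨G.s b, a, h6, b, hb, h7, Or.inl rfl⟩
    · exact h4.2 (Or.inl h5)
    · exact h4.2 (Or.inl h5)

theorem G3.nonsep (h : G3 G X Es) (v : ℕ) : (gm G (Es \ G.star Es v)).Conn2 := by
  intro A hA h1 h2
  by_contra hn
  have hl : (gm G (Es \ G.star Es v)).lam A = 0 := by omega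
  obtain ⟨w, a, ha, b, hb, haw, hbw⟩ := h.sai_common hA h1 h2
  have hF : ∀ e, e ∈ Es \ G.star Es v ↔ e ∈ Es ∧ ¬ G.Inc e v := fun e => by
    rw [mem_sdiff, Gr.mem_star]; tauto
  have h3 : (gm G (Es \ G.star Es v)).dual.cyc (G.star (Es \ G.star Es v) w) :=
    cocyc_star fun e he _ => h.ll.joins_ne ((hF e).1 he).1 (G.joins_st e)
  have h4 := cyc_inter_of_lam (M := (gm G (Es \ G.star Es v)).dual) hA ((lam_dual hA).trans hl) h3
  obtain ⟨W, hw, hW⟩ := sai_wlog (X := X) (h.norm.within.mono sdiff_subset) h4 w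
  have ha' := (hF a).1 (hA ha)
  have hb' := (hF b).1 (mem_sdiff.1 hb).1
  rcases h.sep (U := (W ∩ X).erase v) ((erase_subset _ _).trans inter_subset_right) v w
    (fun e he p q hj hp => by
      rw [mem_erase, mem_inter] at hp
      by_cases hq : q = v
      · exact Or.inr (Or.inl hq)
      by_cases hqW : q ∈ W
      · exact Or.inl (mem_erase.2 ⟨hq, mem_inter.2 ⟨hqW, sai_mem h.norm.within he hj⟩⟩)
      have h5 : e ∈ Es \ G.star Es v := (hF e).2 ⟨he, fun h6 => by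
        rcases hj.inc_iff.1 h6 with h7 | h7
        · exact hp.1 h7.symm
        · exact hq h7.symm⟩
      have h6 : e ∈ G.cut (Es \ G.star Es v) W := (sai_cut hj).2 ⟨h5, fun h7 => hqW (h7.1 hp.2.1)⟩
      rw [← hW] at h6
      rcases hj.inc_iff.1 (Gr.mem_star.1 (mem_inter.1 h6).1).2 with h7 | h7
      · exact absurd (h7 ▸ hp.2.1) hw
      · exact Or.inr (Or.inr h7.symm)) with h5 | h5
  · obtain ⟨q, hq⟩ := haw.exists_joins
    have h6 : a ∈ G.cut (Es \ G.star Es v) W :=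
      hW ▸ mem_inter.2 ⟨Gr.mem_star.2 ⟨hA ha, haw⟩, ha⟩
    have h7 := ((sai_cut hq).1 h6).2
    refine notMem_empty q (h5 ▸ mem_erase.2 ⟨fun h8 => ha'.2 (h8 ▸ hq.inc'),
      mem_inter.2 ⟨by tauto, sai_mem h.norm.within ha'.1 hq⟩⟩)
  · obtain ⟨q, hq⟩ := hbw.exists_joins
    have h6 : b ∉ G.cut (Es \ G.star Es v) W := fun h7 =>
      (mem_sdiff.1 hb).2 (mem_inter.1 (hW ▸ h7 : b ∈ G.star (Es \ G.star Es v) w ∩ A)).2
    rcases h5 q (sai_mem h.norm.within hb'.1 hq) with h7 | h7 | h7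
    · exact h6 ((sai_cut hq).2 ⟨(mem_sdiff.1 hb).1, fun h8 =>
        hw (h8.2 (mem_inter.1 (mem_of_mem_erase h7)).1)⟩)
    · exact hb'.2 (h7 ▸ hq.inc')
    · exact h.ll.joins_ne hb'.1 hq h7.symm

theorem nonsep2 (hn : G.Norm X Es) (hs : s ∈ Es) (hj : G.Joins s z u) (hne : u ≠ z)
    (hk : ((gm G Es).con {s}).COK N) (hN : N.NOK) :
    (gm G (Es \ (G.star Es z ∪ G.star Es u))).Conn2 := by
  rw [gm_con_single hs hj] at hk
  have h1 := (g3_of_cok (norm_ctr hn hs hj hne) hk hN).nonsep u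
  have h2 : Es.erase s \ (G.star (Es.erase s) z ∪ G.star (Es.erase s) u) =
      Es \ (G.star Es z ∪ G.star Es u) := by
    ext e
    simp only [mem_sdiff, mem_union, Gr.mem_star, mem_erase]
    have h3 : e = s → G.Inc e z := fun h4 => h4 ▸ hj.inc
    tauto
  rw [star_ctr hne, h2, gm_congr (G := G) fun e he => ?_] at h1
  · exact h1
  · rw [mem_sdiff, mem_union, Gr.mem_star, not_or] at he
    have h3 : ¬ G.Inc e z := fun h4 => he.2.1 ⟨he.1, h4⟩
    exact Or.inl ⟨Gr.ctr_of_ne fun h4 => h3 (Or.inl h4), Gr.ctr_of_ne fun h4 => h3 (Or.inr h4)⟩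

end BM

end Pool.Agent.P.MP_3f5ce9_co
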