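import Pool.Agent.P.MP_3f5ce9_co.W.SaH

/-!
Grafts.
-/

open Finset

namespace Pool.Agent.P.MP_3f5ce9_co

namespace BM

variable {M : BM} {G : Gr ℕ ℕ} {X Es T C D A E : Finset ℕ} {e f g x y k z a b c d p q v : ℕ}

theorem saj_add (ψ : Finset ℕ → Finset ℕ) (h0 : ψ ∅ = ∅)
    (h : ∀ S S', ψ (symmDiff S S') = symmDiff (ψ S) (ψ S')) (w : ℕ → Finset ℕ) (C : Finset ℕ) :
    oddSum (fun e => ψ (w e)) C = ψ (oddSum w C) := by
  induction C using Finset.induction_on with
  | empty => rw [oddSum_empty, oddSum_empty, h0]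
  | insert e C he ih => rw [GA.odd_insert he, GA.odd_insert he, ih, h]

theorem saj_gv (h : G.Joins x a b) :
    symmDiff ({G.s x} : Finset ℕ) {G.t x} = symmDiff {a} {b} := by
  rcases h with ⟨h1, h2⟩ | ⟨h1, h2⟩
  · rw [h1, h2]
  · rw [h1, h2, symmDiff_comm]

theorem saj_within (hX : G.Within Es X) (hx : x ∈ Es) (h : G.Joins x a b) : a ∈ X ∧ b ∈ X := by
  obtain ⟨h3, h4⟩ := hX x hx
  rcases h with ⟨h1, h2⟩ | ⟨h1, h2⟩
  · exact ⟨h1 ▸ h3, h2 ▸ h4⟩
  · exact ⟨h2 ▸ h4, h1 ▸ h3⟩

theorem saj_ctr_sd (a b : ℕ) (S S' : Finset ℕ) :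
    ctrT a b (symmDiff S S') = symmDiff (ctrT a b S) (ctrT a b S') := by
  unfold ctrT
  ext u
  by_cases h : a ∈ S <;> by_cases h' : a ∈ S' <;> simp [mem_symmDiff, h, h'] <;> grind

theorem saj_ctr_one (a b p : ℕ) : ctrT a b {p} = {Gr.ctr a b p} := by
  unfold ctrT Gr.ctr
  by_cases h : p = a
  · simp [h]
  · simp [h, Ne.symm h]

theorem saj_ctr_ker (hne : b ≠ a) (S : Finset ℕ) :
    ctrT a b S = ∅ ↔ S = ∅ ∨ S = symmDiff {a} {b} := by
  unfold ctrT
  by_cases h : a ∈ S
  · rw [if_pos h, symmDiff_eq_empty, or_iff_right (ne_empty_of_mem h), GA.erase_eq_sd h]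
    constructor
    · intro e
      rw [← e, symmDiff_symmDiff_cancel_left]
    · intro e
      rw [e, symmDiff_symmDiff_cancel_left]
  · rw [if_neg h, or_iff_left]
    rintro rfl
    exact h (by simp [mem_symmDiff, Ne.symm hne])

theorem saj_row (E : Finset ℕ) (w : ℕ → Finset ℕ) (v : ℕ) :
    (ofVec E w).dual.cyc (E.filter fun x => v ∈ w x) := by
  refine ⟨filter_subset _ _, fun C hC => ?_⟩
  have h1 : C ∩ (E.filter fun x => v ∈ w x) = C.filter fun x => v ∈ w x := by
    ext x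
    have := @hC.1 x
    simp only [mem_inter, mem_filter]
    tauto
  rw [h1, ← Nat.not_odd_iff_even, ← mem_oddSum, hC.2]
  exact notMem_empty _

theorem saj_even (a b : ℕ) : Even (symmDiff ({a} : Finset ℕ) {b}).card := by
  rw [← Nat.not_odd_iff_even, odd_card_symmDiff]
  simp

theorem card_ctrT (hne : b ≠ a) (T : Finset ℕ) :
    (ctrT a b T).card + (if a ∈ T ∧ b ∈ T then 2 else 0) = T.card := by
  unfold ctrT
  by_cases h : a ∈ T
  · have h1 := card_erase_add_one h
    by_cases h' : b ∈ T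
    · have h2 : b ∈ T.erase a := mem_erase.2 ⟨hne, h'⟩
      have h3 := card_erase_add_one h2
      rw [if_pos h, if_pos ⟨h, h'⟩, symmDiff_comm, ← GA.erase_eq_sd h2]
      omega
    · have h2 : b ∉ T.erase a := fun h2 => h' (mem_of_mem_erase h2)
      rw [if_pos h, if_neg fun h3 => h' h3.2, symmDiff_comm, ← GA.insert_eq_sd h2,
        card_insert_of_notMem h2]
      omega
  · simp [h]

/-- a linear involution of the vertex space -/
theorem ofVec_inv (v : ℕ → Finset ℕ) (hz : z ∉ A) :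
    ofVec E v = ofVec E fun e => if z ∈ v e then symmDiff (v e) A else v e := by
  refine ext_cyc rfl fun C => and_congr_right fun _ => ?_
  rw [saj_add (fun S => if z ∈ S then symmDiff S A else S) (by simp) (fun S S' => by
    ext u
    by_cases h : z ∈ S <;> by_cases h' : z ∈ S' <;> simp [mem_symmDiff, h, h'] <;> grind) v C]
  refine ⟨fun h => by simp [h], fun h => ?_⟩
  by_cases h1 : z ∈ oddSum v C
  · rw [if_pos h1, symmDiff_eq_empty] at h
    exact absurd (h ▸ h1) hz
  · rwa [if_neg h1] at h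

theorem graft_del' (hg : g ∉ D) : (graft G Es T g).del D = graft G (Es \ D) T g := by
  rw [del_eq_res, graft, ofVec_res, graft]
  congr 1
  ext u
  change _ ∈ insert g Es ∩ (insert g Es \ D) ↔ _
  simp only [mem_inter, mem_sdiff, mem_insert]
  grind

theorem graft_con (hg : g ∉ Es) (hx : x ∈ Es) (hj : G.Joins x a b) (hne : b ≠ a) :
    (graft G Es T g).con {x} = graft (G.map (Gr.ctr a b)) (Es.erase x) (ctrT a b T) g := by
  have hxg : x ≠ g := fun h => hg (h ▸ hx)
  have hE : insert g Es \ {x} = insert g (Es.erase x) := by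
    ext u
    simp only [mem_sdiff, mem_insert, mem_erase, mem_singleton]
    grind
  refine ext_cyc hE fun C => ?_
  rw [cyc_con_single]
  have h1 : (graft (G.map (Gr.ctr a b)) (Es.erase x) (ctrT a b T) g).cyc C ↔
      C ⊆ insert g (Es.erase x) ∧
        ctrT a b (oddSum (fun e => if e = g then T else symmDiff {G.s e} {G.t e}) C) = ∅ := by
    refine and_congr_right fun _ => ?_
    rw [← saj_add (ctrT a b) (by simp [ctrT]) (saj_ctr_sd a b), GA.odd_congr]
    intro e _
    split_ifs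
    · rfl
    · rw [saj_ctr_sd, saj_ctr_one, saj_ctr_one]; rfl
  rw [h1, saj_ctr_ker hne, ← hE, subset_sdiff, disjoint_singleton_right]
  constructor
  · rintro ⟨h2, h3 | h3⟩
    · exact ⟨⟨h3.1, h2⟩, Or.inl h3.2⟩
    · refine ⟨⟨(subset_insert _ _).trans h3.1, h2⟩, Or.inr ?_⟩
      have h4 := h3.2
      rw [GA.odd_insert h2, if_neg hxg, saj_gv hj, symmDiff_eq_empty] at h4
      exact h4.symm
  · rintro ⟨⟨h2, h3⟩, h4 | h4⟩
    · exact ⟨h3, Or.inl ⟨h2, h4⟩⟩
    · refine ⟨h3, Or.inr ⟨insert_subset (mem_insert_of_mem hx) h2, ?_⟩⟩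
      rw [GA.odd_insert h3, if_neg hxg, saj_gv hj, h4, symmDiff_self]
      rfl

theorem graft_graphic (hg : g ∉ Es) (he : Even T.card) (h2 : T.card ≤ 2) :
    (graft G Es T g).Graphic := by
  obtain ⟨p, q, hT⟩ : ∃ p q, T = symmDiff {p} {q} := by
    rcases he with ⟨n, hn⟩
    rcases (show T.card = 0 ∨ T.card = 2 by omega) with h | h
    · exact ⟨0, 0, by simp [card_eq_zero.1 h]⟩
    · obtain ⟨p, q, h1, rfl⟩ := card_eq_two.1 h
      exact ⟨p, q, GA.insert_eq_sd (by simpa using h1)⟩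
  refine ⟨⟨fun e => if e = g then p else G.s e, fun e => if e = g then q else G.t e⟩,
    ofVec_congr fun e _ => ?_⟩
  by_cases h : e = g <;> simp [h, hT]

theorem graft_swap (hg : g ∉ Es) (h : G.D2 Es z x y a b) (hz : z ∈ T) :
    graft G Es T g = graft (G.swp x y) Es (symmDiff T (symmDiff {a} {b})) g := by
  have hA : z ∉ symmDiff ({a} : Finset ℕ) {b} := by
    simp [mem_symmDiff, Ne.symm h.az, Ne.symm h.bz]
  rw [graft, ofVec_inv _ hA]
  refine ofVec_congr fun e he => ?_
  by_cases h1 : e = g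
  · simp [h1, hz]
  have he' : e ∈ Es := (mem_insert.1 he).resolve_left h1
  simp only [if_neg h1, Gr.swp]
  by_cases hx : e = x
  · subst hx
    rw [Equiv.swap_apply_left, saj_gv h.jx, saj_gv h.jy,
      if_pos (by simp [mem_symmDiff, Ne.symm h.az]), symmDiff_assoc, symmDiff_symmDiff_cancel_left]
  by_cases hy : e = y
  · subst hy
    rw [Equiv.swap_apply_right, saj_gv h.jx, saj_gv h.jy,
      if_pos (by simp [mem_symmDiff, Ne.symm h.bz]), symmDiff_assoc,
      symmDiff_comm ({a} : Finset ℕ) {b},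
      symmDiff_symmDiff_cancel_left]
  rw [Equiv.swap_apply_of_ne_of_ne hx hy, if_neg]
  intro h2
  have h3 : e ∈ G.star Es z := Gr.mem_star.2 ⟨he', by
    simp only [mem_symmDiff, mem_singleton] at h2
    unfold Gr.Inc
    grind⟩
  rw [h.star] at h3
  simp [hx, hy] at h3

theorem Gft.ground (h : M.Gft G X Es T e) : M.E = insert e Es := by
  rw [h.eq]; rfl

theorem Gft.del_e (h : M.Gft G X Es T e) : M.del {e} = gm G Es := by
  rw [h.eq, graft_del G T h.ne]

theorem Gft.cyc_of (h : M.Gft G X Es T e) (hC : (gm G Es).cyc C) : M.cyc C := by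
  rw [← h.del_e] at hC
  exact hC.1

theorem Gft.cyc_ins (h : M.Gft G X Es T e) (hC : C ⊆ Es) :
    M.cyc (insert e C) ↔ oddSum (fun x => symmDiff {G.s x} {G.t x}) C = T := by
  have h1 : e ∉ C := fun h1 => h.ne (hC h1)
  rw [h.eq]
  refine (and_iff_right (insert_subset_insert e hC)).trans ?_
  rw [GA.odd_insert h1, if_pos rfl, symmDiff_eq_empty, eq_comm, GA.odd_congr]
  intro x hx
  exact if_neg fun h2 : x = e => h1 (h2 ▸ hx)

theorem Gft.cyc_two (h : M.Gft G X Es T e) (hx : x ∈ Es) (hy : y ∈ Es) (hne : x ≠ y)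
    (h1 : G.Joins x a b) (h2 : G.Joins y c d)
    (hT : T = symmDiff (symmDiff {a} {b}) (symmDiff {c} {d})) : M.cyc {e, x, y} := by
  rw [h.cyc_ins (insert_subset hx (singleton_subset_iff.2 hy)),
    GA.odd_insert (by simpa using hne), GA.odd_single, saj_gv h1, saj_gv h2, hT]

theorem Gft.cyc_three (h : M.Gft G X Es T e) (hx : x ∈ Es) (hy : y ∈ Es) (hk : k ∈ Es)
    (hn : [x, y, k].Nodup) (h1 : G.Joins x a b) (h2 : G.Joins y c d) (h3 : G.Joins k p q)
    (hT : T = symmDiff (symmDiff (symmDiff {a} {b}) (symmDiff {c} {d})) (symmDiff {p} {q})) :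
    M.cyc {e, x, y, k} := by
  simp only [List.nodup_cons, List.mem_cons, List.not_mem_nil, or_false, not_or] at hn
  rw [h.cyc_ins (insert_subset hx (insert_subset hy (singleton_subset_iff.2 hk))),
    GA.odd_insert (by simpa using hn.1), GA.odd_insert (by simpa using hn.2.1), GA.odd_single,
    saj_gv h1, saj_gv h2, saj_gv h3, hT]
  exact (symmDiff_assoc _ _ _).symm

theorem Gft.cocyc_mem (h : M.Gft G X Es T e) (hl : ∀ x ∈ Es, G.Inc x v → G.s x ≠ G.t x)
    (hv : v ∈ T) : M.dual.cyc (insert e (G.star Es v)) := by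
  have h1 := saj_row (insert e Es) (fun x => if x = e then T else symmDiff {G.s x} {G.t x}) v
  have h2 : (Es.filter fun x => v ∈ if x = e then T else symmDiff {G.s x} {G.t x}) =
      G.star Es v := filter_congr fun x hx => by
    have h3 := hl x hx
    rw [if_neg fun h4 : x = e => h.ne (h4 ▸ hx)]
    simp only [mem_symmDiff, mem_singleton]
    unfold Gr.Inc at *
    grind
  rw [filter_insert, if_pos (by simpa using hv), h2] at h1
  rw [h.eq]
  exact h1

theorem Gft.cocyc_not (h : M.Gft G X Es T e) (hl : ∀ x ∈ Es, G.Inc x v → G.s x ≠ G.t x)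
    (hv : v ∉ T) : M.dual.cyc (G.star Es v) := by
  have h1 := saj_row (insert e Es) (fun x => if x = e then T else symmDiff {G.s x} {G.t x}) v
  have h2 : (Es.filter fun x => v ∈ if x = e then T else symmDiff {G.s x} {G.t x}) =
      G.star Es v := filter_congr fun x hx => by
    have h3 := hl x hx
    rw [if_neg fun h4 : x = e => h.ne (h4 ▸ hx)]
    simp only [mem_symmDiff, mem_singleton]
    unfold Gr.Inc at *
    grind
  rw [filter_insert, if_neg (by simpa using hv), h2] at h1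
  rw [h.eq]
  exact h1

theorem Gft.not_coloop (h : M.Gft G X Es T e) : ¬ M.dual.cyc {e} := by
  intro hc
  obtain ⟨P, h1, h2⟩ := GA.exists_tjoin h.even fun u hu w hw => h.norm.conn u (h.sub hu) w (h.sub hw)
  obtain ⟨x, -, h3, h4⟩ := cyc_other ((h.cyc_ins h1).2 h2) hc (mem_insert_self _ _)
    (mem_singleton_self _)
  exact h4 (mem_singleton.1 h3)

theorem Gft.r_eq (h : M.Gft G X Es T e) : M.r M.E + 1 = X.card := by
  rw [← r_del_single h.not_coloop, h.del_e]
  exact r_gm_conn Subset.rfl h.norm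

theorem Gft.ctr (h : M.Gft G X Es T e) (hx : x ∈ Es) (hj : G.Joins x a b) (hne : b ≠ a) :
    (M.con {x}).Gft (G.map (Gr.ctr a b)) (X.erase a) (Es.erase x) (ctrT a b T) e := by
  refine ⟨norm_ctr h.norm hx hj hne, fun h1 => h.ne (mem_of_mem_erase h1), ?_, ?_, ?_⟩
  · unfold ctrT
    split_ifs with h1
    · exact symmDiff_sub (erase_subset_erase a h.sub)
        (singleton_subset_iff.2 (mem_erase.2 ⟨hne, (saj_within h.norm.within hx hj).2⟩))
    · exact fun u hu => mem_erase.2 ⟨fun h2 => h1 (h2 ▸ hu), h.sub hu⟩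
  · have h1 := card_ctrT hne T
    have h2 := h.even
    rw [Nat.even_iff] at h2 ⊢
    split_ifs at h1 <;> omega
  · rw [h.eq, graft_con h.ne hx hj hne]

theorem Gft.del (h : M.Gft G X Es T e) (hf : f ∈ Es) (hc : ¬ (gm G Es).dual.cyc {f}) :
    (M.del {f}).Gft G X (Es.erase f) T e := by
  refine ⟨norm_erase h.norm hc, fun h1 => h.ne (mem_of_mem_erase h1), h.sub, h.even, ?_⟩
  have h1 : e ∉ ({f} : Finset ℕ) := fun h1 => h.ne ((mem_singleton.1 h1).symm ▸ hf)
  rw [h.eq, graft_del' h1, sdiff_singleton_eq_erase]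

theorem Gft.swap (h : M.Gft G X Es T e) (hd : G.D2 Es z x y a b) (hz : z ∈ T) :
    M.Gft (G.swp x y) X Es (symmDiff T (symmDiff {a} {b})) e := by
  obtain ⟨hx, hy⟩ := d2_mem hd
  have hs : ∀ u ∈ Es, Equiv.swap x y u ∈ Es := fun u hu => by
    rw [Equiv.swap_apply_def]
    split_ifs <;> assumption
  refine ⟨⟨fun u hu => h.norm.within _ (hs u hu), h.norm.ne, fun u hu w hw Y hY =>
    h.norm.conn u hu w hw Y fun g hg => ?_⟩, h.ne, symmDiff_sub h.sub (symmDiff_sub
      (singleton_subset_iff.2 (saj_within h.norm.within hx hd.jx).2)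
      (singleton_subset_iff.2 (saj_within h.norm.within hy hd.jy).2)), ?_,
    h.eq.trans (graft_swap h.ne hd hz)⟩
  · simpa [Gr.swp] using hY _ (hs g hg)
  · have h1 := h.even
    have h2 := saj_even a b
    rw [← Nat.not_odd_iff_even] at h1 h2 ⊢
    rw [odd_card_symmDiff]
    tauto

theorem Gft.graphic (h : M.Gft G X Es T e) (h2 : T.card ≤ 2) : M.Graphic := by
  rw [h.eq]
  exact graft_graphic h.ne h.even h2

theorem Gft.four (h : M.Gft G X Es T e) (hn : ¬ M.Graphic) : 4 ≤ T.card := by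
  have h1 : ¬ T.card ≤ 2 := fun h1 => hn (h.graphic h1)
  have h2 := Nat.even_iff.1 h.even
  omega

theorem exists_gft (he : e ∈ M.E) (hc : ¬ M.dual.cyc {e}) (hg : (M.del {e}).Graphic) :
    ∃ G X T, M.Gft G X (M.E.erase e) T e := by
  obtain ⟨G, X, h1, h2⟩ := hg.exists_norm
  have hE : (M.del {e}).E = M.E.erase e := sdiff_singleton_eq_erase _ _
  rw [hE] at h1 h2
  obtain ⟨T, h3, h4, h5⟩ := exists_graft he h2 h1.within (mem_cl_of_not_coloop he hc)
  exact ⟨G, X, T, h1, notMem_erase _ _, h3, h4, h5⟩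

end BM

end Pool.Agent.P.MP_3f5ce9_co
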