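import Pool.Agent.P.MP_3f5ce9_co.W.SaI
import Pool.Agent.P.MP_3f5ce9_co.W.SaJ

/-!
Cocycles that are vertex stars.
-/

open Finset

namespace Pool.Agent.P.MP_3f5ce9_co

namespace BM

variable {M P : BM} {G K : Gr ℕ ℕ} {X Es F T W : Finset ℕ} {e f x y x1 x2 x3 y1 y2 y3 : ℕ}

theorem sk_end (h : e ∈ K.cut F W) : ∃ p ∈ W, K.Inc e p := by
  have := (Gr.mem_cut.1 h).2
  by_cases h1 : K.s e ∈ W
  · exact ⟨_, h1, Or.inl rfl⟩
  · exact ⟨K.t e, by tauto, Or.inr rfl⟩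

theorem sk_ne (h : e ∈ K.cut F W) : K.s e ≠ K.t e := fun h1 => (Gr.mem_cut.1 h).2 (by rw [h1])

theorem sk_star {p a : ℕ} (hp : p ∈ W) (ha : a ∈ K.star F p) :
    a ∈ K.cut F W ∨ (K.s a ∈ W ∧ K.t a ∈ W) := by
  obtain ⟨h1, h2⟩ := Gr.mem_star.1 ha
  rw [Gr.mem_cut]
  rcases h2 with h2 | h2 <;> subst h2 <;> tauto

/-- one of the two sides of a cut, seen as the inside -/
theorem sk_side {q : ℕ → Prop} (hX : K.Within F X)
    (h : (∀ a ∈ F, K.s a ∈ W → K.t a ∈ W → q a) ∨ ∀ a ∈ F, K.s a ∉ W → K.t a ∉ W → q a) :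
    ∃ W', K.cut F W' = K.cut F W ∧ ∀ a ∈ F, K.s a ∈ W' → K.t a ∈ W' → q a := by
  rcases h with h | h
  · exact ⟨W, rfl, h⟩
  · exact ⟨X \ W, cut_compl hX W, fun a ha h1 h2 => h a ha (mem_sdiff.1 h1).2 (mem_sdiff.1 h2).2⟩

theorem sk_ng {t : ℕ} {E0 XK : Finset ℕ} (h : M.Gft G X Es T e) (h3 : G3 G X Es)
    (hn : K.Norm XK E0) (hM : M = gm K E0) (ht : t ∈ T) :
    ∃ p, K.Inc e p ∧ K.star E0 p = insert e (G.star Es t) := by
  have hD := h.cocyc_mem (fun x hx _ => h3.ll.joins_ne hx (G.joins_st x)) ht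
  have c1 : M.del (insert e (G.star Es t)) = gm G (Es \ G.star Es t) := by
    rw [insert_eq, ← del_del, h.del_e, gm_del]
  have c2 := h3.nonsep t
  obtain ⟨W, hW⟩ := cocyc_gm.1 (hM ▸ hD)
  rw [← c1, hM, gm_del, hW] at c2
  have key : (∀ a ∈ E0, K.s a ∈ W → K.t a ∈ W → False) ∨
      ∀ a ∈ E0, K.s a ∉ W → K.t a ∉ W → False := by
    by_contra hc
    push Not at hc
    obtain ⟨⟨a, a1, a2, a3, -⟩, b, b1, b2, b3, -⟩ := hc
    have s : (E0 \ K.cut E0 W).filter (fun a => K.s a ∈ W) ⊆ E0 \ K.cut E0 W := filter_subset _ _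
    have k1 := c2 _ s ⟨a, by simp [Gr.mem_cut, a1, a2, a3]⟩ ⟨b, by simp [Gr.mem_cut, b1, b2, b3]⟩
    have k2 := (gm K (E0 \ K.cut E0 W)).lam_add ((E0 \ K.cut E0 W).filter fun a => K.s a ∈ W)
    have k3 := r_gm_union (G := K) (Es := E0 \ K.cut E0 W)
      (F := (E0 \ K.cut E0 W).filter fun a => K.s a ∈ W)
      (D := (E0 \ K.cut E0 W) \ (E0 \ K.cut E0 W).filter fun a => K.s a ∈ W) (X := W) (Y := XK \ W)
      (fun c hc => by
        simp only [mem_filter, mem_sdiff, Gr.mem_cut] at hc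
        tauto)
      (fun c hc => by
        simp only [mem_filter, mem_sdiff, Gr.mem_cut] at hc ⊢
        have := hn.within c hc.1.1
        tauto) (by simp)
    rw [union_sdiff_of_subset s] at k3
    simp only [gm_E] at k2
    omega
  obtain ⟨W', w1, w2⟩ := sk_side hn.within key
  rw [← hW] at w1
  obtain ⟨p, p1, p2⟩ := sk_end (w1 ▸ mem_insert_self e _ : e ∈ K.cut E0 W')
  have s1 : ∀ a ∈ K.star E0 p, a ∈ K.cut E0 W' := fun a ha =>
    (sk_star p1 ha).resolve_right fun k => w2 a (Gr.mem_star.1 ha).1 k.1 k.2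
  have s2 : M.dual.cyc (K.star E0 p) :=
    hM ▸ cocyc_star fun a ha hi => sk_ne (s1 a (Gr.mem_star.2 ⟨ha, hi⟩))
  have s3 : e ∈ K.star E0 p :=
    Gr.mem_star.2 ⟨(Gr.mem_cut.1 (w1 ▸ mem_insert_self e _ : e ∈ K.cut E0 W')).1, p2⟩
  rw [w1] at s1
  have ne : e ∉ G.star Es t := fun a => h.ne (Gr.mem_star.1 a).1
  have s4 := (cocyc_del_single (e := e)).2 ⟨by simp [mem_symmDiff, s3], Or.inl (M.dual.sd _ _ hD s2)⟩
  rw [h.del_e] at s4
  refine ⟨p, p2, ?_⟩
  rcases h3.min (v := t) s4 (fun a ha => by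
    have := s1 a
    simp only [mem_symmDiff, mem_insert] at ha this
    grind) with k | k
  · exact (symmDiff_eq_empty.1 k).symm
  · refine absurd (?_ : M.dual.cyc {e}) h.not_coloop
    rw [show {e} = K.star E0 p from ?_]
    · exact s2
    ext a
    have k1 := s1 a
    have k2 := Finset.ext_iff.1 k a
    simp only [mem_symmDiff, mem_insert, mem_singleton] at k1 k2 ⊢
    grind

/-- a graphic graft of a three-connected graph has at most two odd vertices -/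
theorem Gft.ng (h : M.Gft G X Es T e) (h3 : G3 G X Es) (hg : M.Graphic) : T.card ≤ 2 := by
  obtain ⟨K, XK, hn, hM⟩ := hg.exists_norm
  by_contra hc
  obtain ⟨a, b, c, ha, hb, hc, n1, n2, n3⟩ := two_lt_card_iff.1 (not_le.1 hc)
  obtain ⟨p, p1, p2⟩ := sk_ng h h3 hn hM ha
  obtain ⟨q, q1, q2⟩ := sk_ng h h3 hn hM hb
  obtain ⟨r, r1, r2⟩ := sk_ng h h3 hn hM hc
  have key : ∀ u ∈ T, ∀ v, u ≠ v → insert e (G.star Es u) ≠ insert e (G.star Es v) :=
    fun u hu v hne k => h3.star_ne (h.sub hu) hne (by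
      rw [← erase_insert (fun a => h.ne (Gr.mem_star.1 a).1 : e ∉ G.star Es u), k,
        erase_insert fun a => h.ne (Gr.mem_star.1 a).1])
  have k1 := key a ha b n1
  have k2 := key a ha c n2
  have k3 := key b hb c n3
  unfold Gr.Inc at p1 q1 r1
  grind

theorem cut_core (hn : K.Norm X F) (hv : (gm K F).dual.VC) (hl : (gm K F).dual.Loopless)
    (hW : K.cut F W = {x, y}) (hne : x ≠ y) :
    (∀ a ∈ F, K.s a ∈ W → K.t a ∈ W → (gm K F).dual.cyc {a, x}) ∨
      ∀ a ∈ F, K.s a ∉ W → K.t a ∉ W → (gm K F).dual.cyc {a, x} := by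
  have hx : x ∈ K.cut F W := hW ▸ mem_insert_self _ _
  have hy : y ∈ K.cut F W := hW ▸ mem_insert_of_mem (mem_singleton_self _)
  have hc : ∀ a, a ∈ F ∧ ¬ (K.s a ∈ W ↔ K.t a ∈ W) ↔ a = x ∨ a = y := fun a => by
    rw [← Gr.mem_cut, hW]; simp
  have hxy : (gm K F).dual.cyc {x, y} := cocyc_gm.2 ⟨W, hW.symm⟩
  obtain ⟨p, p1, p2⟩ := sk_end (cut_compl hn.within W ▸ hx : x ∈ K.cut F (X \ W))
  obtain ⟨q, q1, q2⟩ := sk_end hy
  have s : insert x (F.filter fun a => K.s a ∈ W ∧ K.t a ∈ W) ⊆ F :=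
    insert_subset (Gr.mem_cut.1 hx).1 (filter_subset _ _)
  have k1 := r_gm_lt (G := K) (Es := F) (F := insert x (F.filter fun a => K.s a ∈ W ∧ K.t a ∈ W))
    (X := insert p (X ∩ W)) (fun a ha => by
      have k := hn.within a (mem_inter.1 ha).2
      have k' := hc x
      unfold Gr.Inc at p2
      simp only [mem_inter, mem_insert, mem_filter, mem_sdiff] at ha p1 ⊢
      grind) (insert_nonempty _ _)
  have k2 := r_gm_lt (G := K) (Es := F)
    (F := F \ insert x (F.filter fun a => K.s a ∈ W ∧ K.t a ∈ W))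
    (X := insert q (X \ W)) (fun a ha => by
      have k := hn.within a (mem_inter.1 ha).2
      have k' := hc y
      have k'' := hc a
      unfold Gr.Inc at q2
      simp only [mem_inter, mem_insert, mem_filter, mem_sdiff] at ha ⊢
      grind) (insert_nonempty _ _)
  have k3 := card_insert_le p (X ∩ W)
  have k4 := card_insert_le q (X \ W)
  have k5 := card_sdiff_add_card_inter X W
  have k6 := r_gm_conn (Subset.rfl (s := F)) hn
  have k7 := (gm K F).lam_add (insert x (F.filter fun a => K.s a ∈ W ∧ K.t a ∈ W))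
  have k8 := hv _ s
  rw [lam_dual (M := gm K F) s] at k8
  simp only [gm_E, dual_E] at k7 k8
  by_cases c : (gm K F).dual.r (insert x (F.filter fun a => K.s a ∈ W ∧ K.t a ∈ W)) ≤ 1
  · refine Or.inl fun a ha h1 h2 => hl.cyc_pair s c (by simp [ha, h1, h2]) (by simp) ?_
    have := hc x
    grind
  · refine Or.inr fun a ha h1 h2 => ?_
    have n1 : a ≠ x := by have := hc x; grind
    have n2 : a ≠ y := by have := hc y; grind
    have := hl.cyc_pair (X := F \ insert x (F.filter fun a => K.s a ∈ W ∧ K.t a ∈ W)) (x := a) (y := y)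
      sdiff_subset (by omega) (by simp [ha, h1, n1]) (by
        have := hc y
        simp only [mem_insert, mem_filter, mem_sdiff]
        grind) n2
    rw [show ({a, x} : Finset ℕ) = symmDiff {a, y} {x, y} by
      ext
      simp only [mem_symmDiff, mem_insert, mem_singleton]
      grind]
    exact (gm K F).dual.sd _ _ this hxy

theorem sk_cut (hW : K.cut Es W = {f, x, y}) (hd : f ≠ x ∧ f ≠ y) :
    K.cut (Es.erase f) W = {x, y} := by
  ext a
  have := Finset.ext_iff.1 hW a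
  simp only [Gr.mem_cut, mem_erase, mem_insert, mem_singleton] at this ⊢
  grind

/-- the end of `f` on the small side of a triad -/
theorem sk_triad (hn : K.Norm X Es) (hv : ((gm K Es).del {f}).dual.VC)
    (hl : ((gm K Es).del {f}).dual.Loopless) (hf : ¬ (gm K Es).dual.cyc {f}) (hd : [f, x, y].Nodup)
    (ht : (gm K Es).dual.cyc {f, x, y}) : ∃ p, K.Inc f p ∧ ∀ a ∈ K.star Es p,
      (a = f ∨ a = x ∨ a = y) ∨ ((gm K Es).del {f}).dual.cyc {a, x} ∧ a ≠ x ∧ a ≠ y := by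
  simp only [List.nodup_cons, List.mem_cons, List.not_mem_nil, List.nodup_nil] at hd
  obtain ⟨W, hW⟩ := cocyc_gm.1 ht
  rw [gm_del_single] at hv hl ⊢
  have k := cut_core (norm_erase hn hf) hv hl (sk_cut hW.symm (by grind)) (by grind)
  have fc : f ∈ K.cut Es W := hW ▸ mem_insert_self _ _
  obtain ⟨W', w1, w2⟩ := sk_side (W := W) (q := fun a => (gm K (Es.erase f)).dual.cyc {a, x}) hn.within
    (k.imp (fun k a ha h1 h2 => k a (mem_erase.2 ⟨fun e => (Gr.mem_cut.1 fc).2 (by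
      subst e; tauto), ha⟩) h1 h2) fun k a ha h1 h2 => k a (mem_erase.2 ⟨fun e =>
        (Gr.mem_cut.1 fc).2 (by subst e; tauto), ha⟩) h1 h2)
  obtain ⟨p, p1, p2⟩ := sk_end (w1 ▸ fc : f ∈ K.cut Es W')
  refine ⟨p, p2, fun a ha => ?_⟩
  by_cases c : a ∈ K.cut Es W'
  · rw [w1, ← hW] at c
    exact Or.inl (by simpa using c)
  · have k1 := (sk_star p1 ha).resolve_left c
    rw [w1, ← hW] at c
    exact Or.inr ⟨w2 a (Gr.mem_star.1 ha).1 k1.1 k1.2, by grind⟩

theorem star_triad (hn : G.Norm X Es) (hc : (gm G Es).Conn3) (h4 : 4 ≤ Es.card)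
    (hv : ((gm G Es).del {f}).dual.VC) (hd : [f, x, y].Nodup)
    (ht : (gm G Es).dual.cyc {f, x, y}) : ∃ v, G.Inc f v ∧ G.star Es v = {f, x, y} := by
  have hs := hc.cosimple h4
  obtain ⟨p, p1, p2⟩ := sk_triad hn hv (hs.del_coloopless f) (hs.not_single f) hd ht
  have hd' := hd
  simp only [List.nodup_cons, List.mem_cons, List.not_mem_nil, List.nodup_nil] at hd'
  have sp : ((gm G Es).del {f}).dual.cyc {x, y} := cocyc_del_single.2 ⟨by simp; grind, Or.inr ht⟩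
  refine ⟨p, p1, eq_of_subset_of_card_le (fun a ha => ?_) ?_⟩
  · rcases p2 a ha with k | ⟨k1, k2, k3⟩
    · simpa using k
    · refine absurd rfl (ser_disj hs k1 sp fun k => ?_).2.2.1
      have : a ∈ ({x, y} : Finset ℕ) := k ▸ mem_insert_self _ _
      grind
  · exact card_le_three.trans (hs.girth _ (cocyc_star' (hc.simple h4).loopless p)
      ⟨f, Gr.mem_star.2 ⟨(gm G Es).dual.sub _ ht (mem_insert_self _ _), p1⟩⟩)

theorem sk_one (hn : K.Norm X Es) (hv : ((gm K Es).del {e}).dual.VC)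
    (hl : ((gm K Es).del {e}).dual.Loopless) (he : ¬ (gm K Es).dual.cyc {e}) (hd : [e, x, y].Nodup)
    (ht : (gm K Es).dual.cyc {e, x, y}) : ∃ p, K.Inc e p ∧ (∃ a ∈ K.star Es p, a ≠ e) ∧
      ∀ a ∈ K.star Es p, a ≠ e → a = x ∨ a ≠ x ∧ ((gm K Es).del {e}).dual.cyc {a, x} := by
  obtain ⟨p, p1, p2⟩ := sk_triad hn hv hl he hd ht
  simp only [List.nodup_cons, List.mem_cons, List.not_mem_nil, List.nodup_nil] at hd
  obtain ⟨W, hW⟩ := cocyc_gm.1 ht
  have ec : e ∈ K.cut Es W := hW ▸ mem_insert_self _ _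
  refine ⟨p, p1, ?_, fun a ha hne => ?_⟩
  · by_contra hc
    push Not at hc
    refine he ?_
    rw [show {e} = K.star Es p from (eq_singleton_iff_unique_mem.2
      ⟨Gr.mem_star.2 ⟨(Gr.mem_cut.1 ec).1, p1⟩, hc⟩).symm]
    exact cocyc_star fun a ha hi => hc a (Gr.mem_star.2 ⟨ha, hi⟩) ▸ sk_ne ec
  · rcases p2 a ha with (k | k | k) | k
    · exact absurd k hne
    · exact Or.inl k
    · subst k
      exact Or.inr ⟨by grind, pair_comm x a ▸ cocyc_del_single.2 ⟨by simp; grind, Or.inr ht⟩⟩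
    · exact Or.inr ⟨k.2.1, k.1⟩

theorem sk_two {Q : BM} {a x x' : ℕ} (h1 : a = x ∨ a ≠ x ∧ Q.cyc {a, x})
    (h2 : a = x' ∨ a ≠ x' ∧ Q.cyc {a, x'}) (hne : x ≠ x') : Q.cyc {x, x'} := by
  rcases h1 with rfl | h1
  · exact (h2.resolve_left hne).2
  rcases h2 with rfl | h2
  · exact pair_comm a x ▸ h1.2
  rw [show ({x, x'} : Finset ℕ) = symmDiff {a, x} {a, x'} by
    ext
    simp only [mem_symmDiff, mem_insert, mem_singleton]
    grind]
  exact Q.sd _ _ h1.2 h2.2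

theorem not_graphic_three (hv : (P.del {e}).dual.VC) (hl : (P.del {e}).dual.Loopless)
    (he : ¬ P.dual.cyc {e}) (hn : [e, x1, x2, x3, y1, y2, y3].Nodup)
    (t1 : P.dual.cyc {e, x1, y1}) (t2 : P.dual.cyc {e, x2, y2}) (t3 : P.dual.cyc {e, x3, y3})
    (n1 : ¬ (P.del {e}).dual.cyc {x1, x2}) (n2 : ¬ (P.del {e}).dual.cyc {x1, x3})
    (n3 : ¬ (P.del {e}).dual.cyc {x2, x3}) : ¬ P.Graphic := by
  intro hg
  obtain ⟨K, X, hK, hM⟩ := hg.exists_norm
  generalize P.E = Es at hK hM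
  subst hM
  simp only [List.nodup_cons, List.mem_cons, List.not_mem_nil, List.nodup_nil] at hn
  obtain ⟨p, p1, ⟨a, a1, a2⟩, p2⟩ := sk_one hK hv hl he (by simp; grind) t1
  obtain ⟨q, q1, ⟨b, b1, b2⟩, q2⟩ := sk_one hK hv hl he (by simp; grind) t2
  obtain ⟨r, r1, -, r2⟩ := sk_one hK hv hl he (by simp; grind) t3
  have : p = q ∨ p = r ∨ q = r := by
    unfold Gr.Inc at p1 q1 r1
    grind
  rcases this with rfl | rfl | rfl
  · exact n1 (sk_two (p2 a a1 a2) (q2 a a1 a2) (by grind))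
  · exact n2 (sk_two (p2 a a1 a2) (r2 a a1 a2) (by grind))
  · exact n3 (sk_two (q2 b b1 b2) (r2 b b1 b2) (by grind))

theorem exists_d2 (hn : G.Norm X Es) (hv : (gm G Es).dual.VC) (hl : (gm G Es).dual.Loopless)
    (hne : x ≠ y) (ht : (gm G Es).dual.cyc {x, y})
    (h3 : ∀ a, a ≠ x → a ≠ y → ¬ (gm G Es).dual.cyc {a, x}) : ∃ z a b, G.D2 Es z x y a b := by
  obtain ⟨W, hW⟩ := cocyc_gm.1 ht
  obtain ⟨W', w1, w2⟩ := sk_side hn.within (cut_core hn hv hl hW.symm hne)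
  rw [← hW] at w1
  have hx : x ∈ G.cut Es W' := w1 ▸ mem_insert_self _ _
  have hy : y ∈ G.cut Es W' := w1 ▸ mem_insert_of_mem (mem_singleton_self _)
  obtain ⟨z, z1, z2⟩ := sk_end hx
  have s1 : ∀ a ∈ G.star Es z, a ∈ G.cut Es W' := fun a ha => by
    refine (sk_star z1 ha).elim id fun k => ?_
    by_contra hc
    exact h3 a (fun e => hc (e ▸ hx)) (fun e => hc (e ▸ hy)) (w2 a (Gr.mem_star.1 ha).1 k.1 k.2)
  have s2 : (gm G Es).dual.cyc (G.star Es z) :=
    cocyc_star fun a ha hi => sk_ne (s1 a (Gr.mem_star.2 ⟨ha, hi⟩))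
  have s3 : x ∈ G.star Es z := Gr.mem_star.2 ⟨(Gr.mem_cut.1 hx).1, z2⟩
  rw [w1] at s1
  have s4 : y ∈ G.star Es z := by
    by_contra hc
    refine hl.not_cyc x ?_
    rwa [show {x} = G.star Es z from (eq_singleton_iff_unique_mem.2 ⟨s3, fun a ha => by
      have := s1 a ha
      grind⟩).symm]
  obtain ⟨a, ha⟩ := z2.exists_joins
  obtain ⟨b, hb⟩ := (Gr.mem_star.1 s4).2.exists_joins
  have n1 := sk_ne hx
  have n2 := sk_ne hy
  refine ⟨z, a, b, Subset.antisymm s1 (insert_subset s3 (singleton_subset_iff.2 s4)), hne, ha, hb,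
    ?_, ?_⟩
  · unfold Gr.Joins at ha
    grind
  · unfold Gr.Joins at hb
    grind

end BM

end Pool.Agent.P.MP_3f5ce9_co
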