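import Pool.Agent.P.MP_3f5ce9_co.W.SaK

/-!
Grafts of subdivisions, one and two subdivided edges.
-/

open Finset

namespace Pool.Agent.P.MP_3f5ce9_co

namespace BM

variable {M N : BM} {G : Gr ℕ ℕ} {X Es T : Finset ℕ}
  {e z x y a b z1 x1 y1 a1 b1 z2 x2 y2 a2 b2 : ℕ}

theorem sl_card (h : a ≠ b) : (symmDiff ({a} : Finset ℕ) {b}).card = 2 := by
  have := card_symmDiff_add ({a} : Finset ℕ) {b}
  rw [singleton_inter_of_notMem (by simpa using h)] at this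
  simpa using this

theorem sl_two {U : Finset ℕ} (h : U.card ≤ 2) (he : Even U.card) (hz : z ∈ U) :
    ∃ t, t ≠ z ∧ ∀ v, v ∈ U ↔ v = z ∨ v = t := by
  have h1 := card_pos.2 ⟨z, hz⟩
  obtain ⟨p, q, hne, rfl⟩ := card_eq_two.1 (show U.card = 2 by
    obtain ⟨k, hk⟩ := he
    omega)
  simp only [mem_insert, mem_singleton] at hz ⊢
  rcases hz with rfl | rfl
  · exact ⟨q, hne.symm, fun v => Iff.rfl⟩
  · exact ⟨p, hne, fun v => or_comm⟩

theorem sl_le {U : Finset ℕ} (p q : ℕ) (h : ∀ v ∈ U, v = p ∨ v = q) : U.card ≤ 2 :=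
  (card_le_card (t := {p, q}) fun v hv => by simpa using h v hv).trans card_le_two

theorem sl_pure (ha : a ≠ z) (hb : b ≠ z) (hab : a ≠ b) (h1 : (ctrT z a T).card ≤ 2)
    (h2 : (ctrT z b T).card ≤ 2) :
    T.card ≤ 2 ∨ z ∈ T ∧ (symmDiff T (symmDiff {a} {b})).card ≤ 2 := by
  have e1 := card_ctrT ha T
  have e2 := card_ctrT hb T
  by_cases k1 : z ∈ T ∧ a ∈ T
  · by_cases k2 : z ∈ T ∧ b ∈ T
    · refine Or.inr ⟨k1.1, ?_⟩
      have e3 := card_symmDiff_add T (symmDiff {a} {b})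
      rw [inter_eq_right.2 (symmDiff_sub (by simpa using k1.2) (by simpa using k2.2)),
        sl_card hab] at e3
      rw [if_pos k1] at e1
      omega
    · rw [if_neg k2] at e2
      exact Or.inl (by omega)
  · rw [if_neg k1] at e1
    exact Or.inl (by omega)

theorem sl_even (ha : a ≠ z) (h : Even T.card) : Even (ctrT z a T).card := by
  have e1 := card_ctrT ha T
  rw [Nat.even_iff] at h ⊢
  split_ifs at e1 <;> omega

theorem sl_shift (D : Finset ℕ) (hz : z ∉ D) :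
    ctrT z a (symmDiff T D) = symmDiff (ctrT z a T) D := by
  unfold ctrT
  by_cases h : z ∈ T
  · rw [if_pos h, if_pos (mem_symmDiff.2 (Or.inl ⟨h, hz⟩))]
    ext v
    simp only [mem_symmDiff, mem_erase, mem_singleton]
    grind
  · rw [if_neg h, if_neg (by simp [mem_symmDiff, h, hz])]

theorem sl_mix (he : Even T.card) (hz : z1 ≠ z2) (n1 : a1 ≠ z2 ∧ b1 ≠ z2) (n2 : a2 ≠ z1 ∧ b2 ≠ z1)
    (m1 : a1 ≠ z1 ∧ b1 ≠ z1) (m2 : a2 ≠ z2 ∧ b2 ≠ z2) (d1 : a1 ≠ b1) (d2 : a2 ≠ b2)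
    (hne : ({a1, b1} : Finset ℕ) ≠ {a2, b2}) (t1 : z1 ∈ T) (t2 : z2 ∈ T)
    (h1 : (ctrT z1 a1 T).card ≤ 2) (h2 : (symmDiff (ctrT z1 b1 T) (symmDiff {a2} {b2})).card ≤ 2) :
    T.card ≤ 2 ∨ (symmDiff T (symmDiff {a1} {b1})).card ≤ 2 ∨
      (symmDiff T (symmDiff {a2} {b2})).card ≤ 2 ∨
        (symmDiff (symmDiff T (symmDiff {a1} {b1})) (symmDiff {a2} {b2})).card ≤ 2 := by
  obtain ⟨t, ht, k1⟩ := sl_two (z := z2) h1 (sl_even m1.1 he) (by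
    simp only [ctrT, if_pos t1, mem_symmDiff, mem_erase, mem_singleton]
    grind)
  obtain ⟨u, hu, k2⟩ := sl_two (z := z2) h2 (by
    have e1 := card_symmDiff_add (ctrT z1 b1 T) (symmDiff {a2} {b2})
    have e2 := sl_even m1.2 he
    rw [sl_card d2] at e1
    rw [Nat.even_iff] at e2 ⊢
    omega) (by
    simp only [ctrT, if_pos t1, mem_symmDiff, mem_erase, mem_singleton]
    grind)
  simp only [ctrT, if_pos t1, mem_symmDiff, mem_erase, mem_singleton] at k1 k2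
  have hT : ∀ v, v ∈ T ↔ v = z1 ∨ ¬ ((v = z2 ∨ v = t) ↔ v = a1) := fun v => by
    have := k1 v
    grind
  have hn : ¬ ((a1 = a2 ∧ b1 = b2) ∨ (a1 = b2 ∧ b1 = a2)) := by
    rintro (⟨rfl, rfl⟩ | ⟨rfl, rfl⟩)
    · exact hne rfl
    · exact hne (pair_comm _ _)
  have hk : t = a1 ∨ t = b1 ∨ ((a1 = a2 ∧ t = b2) ∨ (a1 = b2 ∧ t = a2)) ∨
      ((b1 = a2 ∧ t = b2) ∨ (b1 = b2 ∧ t = a2)) := by
    have := k2 a1
    have := k2 b1
    have := k2 a2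
    have := k2 b2
    have := k2 t
    have := k2 u
    simp only [hT] at *
    grind
  rcases hk with hk | hk | hk | hk
  · refine Or.inl (sl_le z1 z2 fun v => ?_)
    simp only [hT]
    grind
  · refine Or.inr (Or.inl (sl_le z1 z2 fun v => ?_))
    simp only [hT, mem_symmDiff, mem_singleton]
    grind
  · refine Or.inr (Or.inr (Or.inl (sl_le z1 z2 fun v => ?_)))
    simp only [hT, mem_symmDiff, mem_singleton]
    grind
  · refine Or.inr (Or.inr (Or.inr (sl_le z1 z2 fun v => ?_)))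
    simp only [hT, mem_symmDiff, mem_singleton]
    grind

theorem d2_ne (hN : N.NOK) (hk : (gm G Es).DOK N) (hd : G.D2 Es z x y a b) : a ≠ b := by
  rintro rfl
  exact hd.ne ((hk.simple hN).joins_eq (d2_mem hd).1 (d2_mem hd).2 hd.jx hd.jy)

theorem d2_cocyc (hd : G.D2 Es z x y a b) : (gm G Es).dual.cyc {x, y} := by
  rw [← hd.star]
  refine cocyc_star fun f hf hi => ?_
  have h : f ∈ G.star Es z := Gr.mem_star.2 ⟨hf, hi⟩
  have h1 := hd.jx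
  have h2 := hd.jy
  have h3 := hd.az
  have h4 := hd.bz
  rw [hd.star, mem_insert, mem_singleton] at h
  unfold Gr.Joins at h1 h2
  grind

theorem sl_edge (h1 : G.Joins x z1 a1) (h2 : G.Joins y z2 a2) (hz : z1 ≠ z2) (ha : a1 ≠ z2) :
    x ≠ y := by
  rintro rfl
  rcases joins_cases h1 h2 with h | h
  · exact hz h.1
  · exact ha h.2

theorem sl_pair (hN : N.NOK) (hk : (gm G Es).DOK N) (h1 : G.D2 Es z1 x1 y1 a b)
    (h2 : G.D2 Es z2 x2 y2 a b) (hz : z1 ≠ z2) : False := by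
  have e1 := sl_edge h1.jx h2.jx hz h2.az
  have e2 := sl_edge h1.jx h2.jy hz h2.az
  have e3 := sl_edge h1.jy h2.jx hz h2.bz
  have e4 := sl_edge h1.jy h2.jy hz h2.bz
  have e5 := h1.ne
  have e6 := h2.ne
  refine hk.not_cyc2 hN (d2_cocyc h1) (d2_cocyc h2) (cyc_quad_gm (by simp; grind) (d2_mem h1).1
    (d2_mem h2).1 (d2_mem h2).2 (d2_mem h1).2 h1.jx h2.jx.symm h2.jy h1.jy.symm)
    (insert_nonempty _ _) fun v => ?_
  simp only [mem_insert, mem_singleton]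
  tauto

theorem d2_pair_ne (hN : N.NOK) (hk : (gm G Es).DOK N) (h1 : G.D2 Es z1 x1 y1 a1 b1)
    (h2 : G.D2 Es z2 x2 y2 a2 b2) (hz : z1 ≠ z2) (ha : a1 ≠ z2) (hb : b1 ≠ z2) :
    ({a1, b1} : Finset ℕ) ≠ {a2, b2} := by
  intro h
  have e1 := d2_ne hN hk h1
  have k1 : a1 ∈ ({a2, b2} : Finset ℕ) := h ▸ mem_insert_self _ _
  have k2 : b1 ∈ ({a2, b2} : Finset ℕ) := h ▸ mem_insert_of_mem (mem_singleton_self _)
  simp only [mem_insert, mem_singleton] at k1 k2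
  rcases k1 with rfl | rfl <;> rcases k2 with rfl | rfl
  · exact e1 rfl
  · exact sl_pair hN hk h1 h2 hz
  · exact sl_pair hN hk h1 (d2_symm h2) hz
  · exact e1 rfl

theorem crit0 (h : M.Gft G X Es T e) (hN : N.NOK) (hk : (gm G Es).DOK N)
    (hs : ∀ p q, p ≠ q → ¬ (gm G Es).dual.cyc {p, q}) (hg : M.Graphic) : T.card ≤ 2 := by
  exact h.ng (g3_of_cok h.norm ((hk.conn3 hs).cok hN hk.mn) hN) hg

theorem sl_dok (hN : N.NOK) (hk : (gm G Es).DOK N) (hd : G.D2 Es z x y a b) :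
    (gm (G.map (Gr.ctr z a)) (Es.erase x)).DOK N :=
  gm_con_single (d2_mem hd).1 hd.jx ▸ hk.con_ser hN (d2_cocyc hd)

theorem sl_ser {p q : ℕ} (hd : G.D2 Es z x y a b)
    (h : (gm (G.map (Gr.ctr z a)) (Es.erase x)).dual.cyc {p, q}) :
    (gm G Es).dual.cyc {p, q} ∧ ({p, q} : Finset ℕ) ≠ {x, y} := by
  rw [← gm_con_single (d2_mem hd).1 hd.jx, cocyc_con_iff] at h
  exact ⟨h.1, fun e => disjoint_singleton_right.1 h.2 (e ▸ mem_insert_self _ _)⟩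

theorem sl_one (h : M.Gft G X Es T e) (hN : N.NOK) (hk : (gm G Es).DOK N) (hd : G.D2 Es z x y a b)
    (hs : ∀ p q, p ≠ q → (gm G Es).dual.cyc {p, q} → ({p, q} : Finset ℕ) = {x, y})
    (hx : (M.con {x}).Graphic) : (ctrT z a T).card ≤ 2 :=
  crit0 (h.ctr (d2_mem hd).1 hd.jx hd.az) hN (sl_dok hN hk hd)
    (fun p q hne hc => (sl_ser hd hc).2 (hs p q hne (sl_ser hd hc).1)) hx

theorem step1 (h : M.Gft G X Es T e) (hN : N.NOK) (hk : (gm G Es).DOK N) (hd : G.D2 Es z x y a b)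
    (hs : ∀ p q, p ≠ q → (gm G Es).dual.cyc {p, q} → ({p, q} : Finset ℕ) = {x, y})
    (hx : (M.con {x}).Graphic) (hy : (M.con {y}).Graphic) :
    T.card ≤ 2 ∨ z ∈ T ∧ (symmDiff T (symmDiff {a} {b})).card ≤ 2 := by
  exact sl_pure hd.az hd.bz (d2_ne hN hk hd) (sl_one h hN hk hd hs hx)
    (sl_one h hN hk (d2_symm hd) (fun p q hne hc => (hs p q hne hc).trans (pair_comm _ _)) hy)

theorem sl_step (h : M.Gft G X Es T e) (hN : N.NOK) (hk : (gm G Es).DOK N)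
    (h1 : G.D2 Es z1 x1 y1 a1 b1) (h2 : G.D2 Es z2 x2 y2 a2 b2) (hz : z1 ≠ z2)
    (n1 : a1 ≠ z2) (n2 : a2 ≠ z1 ∧ b2 ≠ z1)
    (hs : ∀ p q, p ≠ q → (gm G Es).dual.cyc {p, q} →
      ({p, q} : Finset ℕ) = {x1, y1} ∨ ({p, q} : Finset ℕ) = {x2, y2})
    (hx : (M.con {x1}).Graphic) : (ctrT z1 a1 T).card ≤ 2 ∨ z2 ∈ ctrT z1 a1 T ∧
      (symmDiff (ctrT z1 a1 T) (symmDiff {a2} {b2})).card ≤ 2 :=
  step1 (h.ctr (d2_mem h1).1 h1.jx h1.az) hN (sl_dok hN hk h1)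
    (d2_ctr h2 h1.jx hz.symm n1.symm n2.1 n2.2)
    (fun p q hne hc => (hs p q hne (sl_ser h1 hc).1).resolve_left (sl_ser h1 hc).2)
    (hx.con _) (hx.con _)

theorem step2 (h : M.Gft G X Es T e) (hN : N.NOK) (hk : (gm G Es).DOK N)
    (h1 : G.D2 Es z1 x1 y1 a1 b1) (h2 : G.D2 Es z2 x2 y2 a2 b2) (hz : z1 ≠ z2)
    (n1 : a1 ≠ z2 ∧ b1 ≠ z2) (n2 : a2 ≠ z1 ∧ b2 ≠ z1)
    (hs : ∀ p q, p ≠ q → (gm G Es).dual.cyc {p, q} →
      ({p, q} : Finset ℕ) = {x1, y1} ∨ ({p, q} : Finset ℕ) = {x2, y2})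
    (hx : (M.con {x1}).Graphic) (hy : (M.con {y1}).Graphic) :
    T.card ≤ 2 ∨ (z1 ∈ T ∧ (symmDiff T (symmDiff {a1} {b1})).card ≤ 2) ∨
      (z2 ∈ T ∧ (symmDiff T (symmDiff {a2} {b2})).card ≤ 2) ∨
      (z1 ∈ T ∧ z2 ∈ T ∧
        (symmDiff (symmDiff T (symmDiff {a1} {b1})) (symmDiff {a2} {b2})).card ≤ 2) := by
  have k1 := sl_step h hN hk h1 h2 hz n1.1 n2 hs hx
  have k2 := sl_step h hN hk (d2_symm h1) h2 hz n1.2 n2
    (fun p q hne hc => (hs p q hne hc).imp_left fun e => e.trans (pair_comm _ _)) hy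
  have d1 := d2_ne hN hk h1
  have d2 := d2_ne hN hk h2
  have hne := d2_pair_ne hN hk h1 h2 hz n1.1 n1.2
  by_cases t1 : z1 ∈ T
  swap
  · rw [ctrT, if_neg t1] at k1
    tauto
  have hm : ∀ c, c ≠ z2 → z2 ∈ ctrT z1 c T → z2 ∈ T := fun c hc => by
    simp only [ctrT, if_pos t1, mem_symmDiff, mem_erase, mem_singleton]
    grind
  have hD : z1 ∉ symmDiff ({a2} : Finset ℕ) {b2} := by
    simp only [mem_symmDiff, mem_singleton]
    grind
  rcases k1 with k1 | ⟨t2, k1⟩ <;> rcases k2 with k2 | ⟨t3, k2⟩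
  · have := sl_pure h1.az h1.bz d1 k1 k2
    tauto
  · have := sl_mix h.even hz n1 n2 ⟨h1.az, h1.bz⟩ ⟨h2.az, h2.bz⟩ d1 d2 hne t1 (hm _ n1.2 t3) k1 k2
    have := hm _ n1.2 t3
    tauto
  · have := sl_mix h.even hz n1.symm n2 ⟨h1.bz, h1.az⟩ ⟨h2.az, h2.bz⟩ d1.symm d2
      (pair_comm a1 b1 ▸ hne) t1 (hm _ n1.1 t2) k2 k1
    rw [symmDiff_comm ({b1} : Finset ℕ)] at this
    have := hm _ n1.1 t2
    tauto
  · rw [← sl_shift _ hD] at k1 k2
    have := sl_pure h1.az h1.bz d1 k1 k2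
    rw [symmDiff_right_comm] at this
    have := hm _ n1.1 t2
    tauto

end BM

end Pool.Agent.P.MP_3f5ce9_co
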