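import Pool.Agent.P.MP_3f5ce9_co.W.SaL
import Pool.Agent.P.MP_3f5ce9_co.W.SaG

/-!
Series pairs of a deletion in a minimal counterexample.
-/

open Finset

namespace Pool.Agent.P.MP_3f5ce9_co

namespace BM

variable {M N : BM} {G : Gr ℕ ℕ} {X Es T : Finset ℕ}
  {e z1 x1 y1 a1 b1 z2 x2 y2 a2 b2 z3 x3 y3 a3 b3 : ℕ}

theorem sm_far (h1 : G.D2 Es z1 x1 y1 a1 b1) (h2 : G.D2 Es z2 x2 y2 a2 b2)
    (n : x1 ≠ x2 ∧ x1 ≠ y2 ∧ y1 ≠ x2 ∧ y1 ≠ y2) : z1 ≠ z2 ∧ a1 ≠ z2 ∧ b1 ≠ z2 := by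
  have k : ∀ x ∈ Es, G.Inc x z2 → x = x2 ∨ x = y2 := fun x hx hi => by
    have : x ∈ G.star Es z2 := Gr.mem_star.2 ⟨hx, hi⟩
    simpa [h2.star] using this
  have m := d2_mem h1
  refine ⟨fun e => ?_, fun e => ?_, fun e => ?_⟩
  · have := k x1 m.1 (e ▸ h1.jx.inc); tauto
  · have := k x1 m.1 (e ▸ h1.jx.inc'); tauto
  · have := k y1 m.2 (e ▸ h1.jy.inc'); tauto

theorem sm_two {U : Finset ℕ} (h : U.card ≤ 2) (h1 : z1 ∈ U) (h2 : z2 ∈ U) (hne : z1 ≠ z2) :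
    U = {z1, z2} :=
  (eq_of_subset_of_card_le (insert_subset h1 (singleton_subset_iff.2 h2))
    (by rwa [card_pair hne])).symm

/-- the four sums of two pairs -/
def smSp (a1 b1 a2 b2 : ℕ) (R : Finset ℕ) : Prop :=
  R = ∅ ∨ R = symmDiff {a1} {b1} ∨ R = symmDiff {a2} {b2} ∨
    R = symmDiff (symmDiff {a1} {b1}) (symmDiff {a2} {b2})

theorem sm_half (h : M.Gft G X Es T e) (hN : N.NOK) (hk : (gm G Es).DOK N)
    (h1 : G.D2 Es z1 x1 y1 a1 b1) (h2 : G.D2 Es z2 x2 y2 a2 b2) (h3 : G.D2 Es z3 x3 y3 a3 b3)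
    (hn : [x1, x2, x3, y1, y2, y3].Nodup) (hT : z1 ∈ T ∧ z2 ∈ T ∧ z3 ∈ T)
    (hs : ∀ p q, p ≠ q → (gm G Es).dual.cyc {p, q} → ({p, q} : Finset ℕ) = {x1, y1} ∨
      ({p, q} : Finset ℕ) = {x2, y2} ∨ ({p, q} : Finset ℕ) = {x3, y3})
    (hx : (M.con {x3}).Graphic) :
    ∃ R, smSp a1 b1 a2 b2 R ∧ symmDiff (symmDiff (T.erase z3) {a3}) R = {z1, z2} := by
  simp only [List.nodup_cons, List.mem_cons, List.not_mem_nil, List.nodup_nil] at hn
  have f12 := sm_far h1 h2 (by grind)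
  have f21 := sm_far h2 h1 (by grind)
  have f13 := sm_far h1 h3 (by grind)
  have f31 := sm_far h3 h1 (by grind)
  have f23 := sm_far h2 h3 (by grind)
  have f32 := sm_far h3 h2 (by grind)
  have m := d2_mem h3
  have e1 := gm_con_single m.1 h3.jx
  have k := step2 (h.ctr m.1 h3.jx h3.az) hN (e1 ▸ hk.con_ser hN (d2_cocyc h3))
    (d2_ctr h1 h3.jx f13.1 f31.2.1.symm f13.2.1 f13.2.2)
    (d2_ctr h2 h3.jx f23.1 f32.2.1.symm f23.2.1 f23.2.2) f12.1 f12.2 f21.2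
    (fun p q hne hc => by
      rw [← e1, cocyc_con_iff] at hc
      rcases hs p q hne hc.1 with k | k | k
      · exact Or.inl k
      · exact Or.inr k
      · have := hc.2
        simp [k] at this) (hx.con _) (hx.con _)
  rw [ctrT, if_pos hT.2.2] at k
  have n1 := h1.az
  have n2 := h1.bz
  have n3 := h2.az
  have n4 := h2.bz
  rcases k with k | k | k | k
  · refine ⟨∅, Or.inl rfl, ?_⟩
    rw [← bot_eq_empty, symmDiff_bot]
    exact sm_two k (by simp [mem_symmDiff]; grind) (by simp [mem_symmDiff]; grind) f12.1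
  · exact ⟨_, Or.inr (Or.inl rfl),
      sm_two k.2 (by simp [mem_symmDiff]; grind) (by simp [mem_symmDiff]; grind) f12.1⟩
  · exact ⟨_, Or.inr (Or.inr (Or.inl rfl)),
      sm_two k.2 (by simp [mem_symmDiff]; grind) (by simp [mem_symmDiff]; grind) f12.1⟩
  · exact ⟨_, Or.inr (Or.inr (Or.inr rfl)), by
      rw [← symmDiff_assoc]
      exact sm_two k.2.2 (by simp [mem_symmDiff]; grind) (by simp [mem_symmDiff]; grind) f12.1⟩

theorem sm_span {P Q R R' : Finset ℕ} (h1 : R = ∅ ∨ R = P ∨ R = Q ∨ R = symmDiff P Q)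
    (h2 : R' = ∅ ∨ R' = P ∨ R' = Q ∨ R' = symmDiff P Q) :
    symmDiff R R' = ∅ ∨ symmDiff R R' = P ∨ symmDiff R R' = Q ∨ symmDiff R R' = symmDiff P Q := by
  rw [← bot_eq_empty] at *
  rcases h1 with h1 | h1 | h1 | h1 <;> rcases h2 with h2 | h2 | h2 | h2 <;> rw [h1, h2] <;>
    simp only [symmDiff_self, symmDiff_bot, bot_symmDiff, symmDiff_comm Q P,
      symmDiff_symmDiff_cancel_left, symmDiff_symmDiff_cancel_right,
      symmDiff_comm (symmDiff P Q) P, symmDiff_comm Q (symmDiff P Q), true_or, or_true]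

theorem sm_arith {R R' : Finset ℕ} (n1 : a1 ≠ b1) (n2 : a2 ≠ b2) (n3 : a3 ≠ b3)
    (m1 : ({a1, b1} : Finset ℕ) ≠ {a3, b3}) (m2 : ({a2, b2} : Finset ℕ) ≠ {a3, b3})
    (h1 : smSp a1 b1 a2 b2 R) (h2 : smSp a1 b1 a2 b2 R')
    (h : symmDiff {a3} R = symmDiff {b3} R') :
    (symmDiff {a3} {b3} : Finset ℕ) = symmDiff (symmDiff {a1} {b1}) (symmDiff {a2} {b2}) ∧
      ∃ c1 c2, (c1 = a1 ∨ c1 = b1) ∧ (c2 = a2 ∨ c2 = b2) ∧ R = symmDiff {c1} {c2} := by
  have k : (symmDiff {a3} {b3} : Finset ℕ) = symmDiff R R' := by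
    ext v
    have := Finset.ext_iff.1 h v
    simp only [mem_symmDiff] at this ⊢
    tauto
  have pr : ∀ {a b : ℕ}, a ≠ b → (symmDiff {a} {b} : Finset ℕ) = {a, b} := fun {a b} n => by
    ext
    simp only [mem_symmDiff, mem_insert, mem_singleton]
    omega
  have k0 : smSp a1 b1 a2 b2 (symmDiff R R') := sm_span h1 h2
  have k1 : (symmDiff {a3} {b3} : Finset ℕ) = symmDiff (symmDiff {a1} {b1}) (symmDiff {a2} {b2}) := by
    rw [← k] at k0
    rcases k0 with k0 | k0 | k0 | k0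
    · rw [pr n3] at k0
      exact absurd k0 (insert_ne_empty _ _)
    · rw [pr n3, pr n1] at k0
      exact absurd k0.symm m1
    · rw [pr n3, pr n2] at k0
      exact absurd k0.symm m2
    · exact k0
  refine ⟨k1, ?_⟩
  have l := Finset.ext_iff.1 k1
  have sh : a1 = a2 ∨ a1 = b2 ∨ b1 = a2 ∨ b1 = b2 := by
    have l1 := l a1
    have l2 := l b1
    have l3 := l a2
    simp only [mem_symmDiff, mem_singleton] at l1 l2 l3
    grind
  rcases sh with rfl | rfl | rfl | rfl <;> rcases h1 with rfl | rfl | rfl | rfl <;> first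
    | (refine ⟨_, _, Or.inl rfl, Or.inl rfl, ?_⟩; ext; simp [mem_symmDiff]; done)
    | (refine ⟨_, _, Or.inl rfl, Or.inr rfl, ?_⟩; ext; simp [mem_symmDiff]; done)
    | (refine ⟨_, _, Or.inr rfl, Or.inl rfl, ?_⟩; ext; simp [mem_symmDiff]; done)
    | (refine ⟨_, _, Or.inr rfl, Or.inr rfl, ?_⟩; ext; simp [mem_symmDiff]; done)
    | (refine ⟨_, _, Or.inl rfl, Or.inl rfl, ?_⟩; ext; simp only [mem_symmDiff, mem_singleton]; grind)
    | (refine ⟨_, _, Or.inl rfl, Or.inr rfl, ?_⟩; ext; simp only [mem_symmDiff, mem_singleton]; grind)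
    | (refine ⟨_, _, Or.inr rfl, Or.inl rfl, ?_⟩; ext; simp only [mem_symmDiff, mem_singleton]; grind)
    | (refine ⟨_, _, Or.inr rfl, Or.inr rfl, ?_⟩; ext; simp only [mem_symmDiff, mem_singleton]; grind)

theorem sm_fin (h : M.Gft G X Es T e) (h1 : G.D2 Es z1 x1 y1 a1 b1) (h2 : G.D2 Es z2 x2 y2 a2 b2)
    (h3 : G.D2 Es z3 x3 y3 a3 b3) (hn : [x1, x2, x3, y1, y2, y3].Nodup) (hT : z3 ∈ T)
    (hz : z1 ≠ z2)
    (k1 : (symmDiff {a3} {b3} : Finset ℕ) = symmDiff (symmDiff {a1} {b1}) (symmDiff {a2} {b2}))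
    (k2 : symmDiff (symmDiff (T.erase z3) {a3}) (symmDiff {a1} {a2}) = {z1, z2}) :
    M.cyc {x1, x2, x3, y1, y2, y3} ∧ M.cyc {e, x1, x2, x3} := by
  simp only [List.nodup_cons, List.mem_cons, List.not_mem_nil, List.nodup_nil] at hn
  have m1 := d2_mem h1
  have m2 := d2_mem h2
  have m3 := d2_mem h3
  have ne := h.ne
  have f13 := sm_far h1 h3 (by grind)
  have f23 := sm_far h2 h3 (by grind)
  have n3 := h3.az
  have c1 : M.cyc {e, x1, x2, x3} := h.cyc_three m1.1 m2.1 m3.1 (by simp; grind) h1.jx h2.jx h3.jx (by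
    ext v
    have := Finset.ext_iff.1 k2 v
    simp only [mem_symmDiff, mem_insert, mem_singleton, mem_erase] at this ⊢
    grind)
  have c2 : M.cyc {e, y1, y2, y3} := h.cyc_three m1.2 m2.2 m3.2 (by simp; grind) h1.jy h2.jy h3.jy (by
    ext v
    have l1 := Finset.ext_iff.1 k1 v
    have l2 := Finset.ext_iff.1 k2 v
    simp only [mem_symmDiff, mem_insert, mem_singleton, mem_erase] at l1 l2 ⊢
    grind)
  refine ⟨?_, c1⟩
  rw [show ({x1, x2, x3, y1, y2, y3} : Finset ℕ) = symmDiff {e, x1, x2, x3} {e, y1, y2, y3} by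
    ext
    simp only [mem_symmDiff, mem_insert, mem_singleton]
    grind]
  exact M.sd _ _ c1 c2

theorem step3 (h : M.Gft G X Es T e) (hN : N.NOK) (hk : (gm G Es).DOK N)
    (h1 : G.D2 Es z1 x1 y1 a1 b1) (h2 : G.D2 Es z2 x2 y2 a2 b2) (h3 : G.D2 Es z3 x3 y3 a3 b3)
    (hn : [x1, x2, x3, y1, y2, y3].Nodup) (hT : z1 ∈ T ∧ z2 ∈ T ∧ z3 ∈ T)
    (hs : ∀ p q, p ≠ q → (gm G Es).dual.cyc {p, q} → ({p, q} : Finset ℕ) = {x1, y1} ∨
      ({p, q} : Finset ℕ) = {x2, y2} ∨ ({p, q} : Finset ℕ) = {x3, y3})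
    (hx : (M.con {x3}).Graphic) (hy : (M.con {y3}).Graphic) :
    M.cyc {x1, x2, x3, y1, y2, y3} ∧
      ∃ s1 s2, (s1 = x1 ∨ s1 = y1) ∧ (s2 = x2 ∨ s2 = y2) ∧ M.cyc {e, s1, s2, x3} := by
  have hn' := hn
  simp only [List.nodup_cons, List.mem_cons, List.not_mem_nil, List.nodup_nil] at hn'
  obtain ⟨R, r1, r2⟩ := sm_half h hN hk h1 h2 h3 hn hT hs hx
  obtain ⟨R', r3, r4⟩ := sm_half h hN hk h1 h2 (d2_symm h3) (by simp; grind) hT
    (by rwa [pair_comm y3 x3]) hy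
  have f12 := sm_far h1 h2 (by grind)
  have f13 := sm_far h1 h3 (by grind)
  have f23 := sm_far h2 h3 (by grind)
  obtain ⟨k1, c1, c2, k2, k3, rfl⟩ := sm_arith (d2_ne hN hk h1) (d2_ne hN hk h2) (d2_ne hN hk h3)
    (d2_pair_ne hN hk h1 h3 f13.1 f13.2.1 f13.2.2) (d2_pair_ne hN hk h2 h3 f23.1 f23.2.1 f23.2.2)
    r1 r3 (by
      rw [← r4, symmDiff_assoc, symmDiff_assoc] at r2
      exact symmDiff_right_injective _ r2)
  rcases k2 with rfl | rfl <;> rcases k3 with rfl | rfl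
  · have := sm_fin h h1 h2 h3 hn hT.2.2 f12.1 k1 r2
    exact ⟨this.1, _, _, Or.inl rfl, Or.inl rfl, this.2⟩
  · have := sm_fin h h1 (d2_symm h2) h3 (by simp; grind) hT.2.2 f12.1
      (by rwa [symmDiff_comm ({c2} : Finset ℕ)]) r2
    exact ⟨by rw [show ({x1, x2, x3, y1, y2, y3} : Finset ℕ) = {x1, y2, x3, y1, x2, y3} by
      ext; simp only [mem_insert, mem_singleton]; omega]; exact this.1,
      _, _, Or.inl rfl, Or.inr rfl, this.2⟩
  · have := sm_fin h (d2_symm h1) h2 h3 (by simp; grind) hT.2.2 f12.1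
      (by rwa [symmDiff_comm ({c1} : Finset ℕ)]) r2
    exact ⟨by rw [show ({x1, x2, x3, y1, y2, y3} : Finset ℕ) = {y1, x2, x3, x1, y2, y3} by
      ext; simp only [mem_insert, mem_singleton]; omega]; exact this.1,
      _, _, Or.inr rfl, Or.inl rfl, this.2⟩
  · have := sm_fin h (d2_symm h1) (d2_symm h2) h3 (by simp; grind) hT.2.2 f12.1
      (by rwa [symmDiff_comm ({c1} : Finset ℕ), symmDiff_comm ({c2} : Finset ℕ)]) r2
    exact ⟨by rw [show ({x1, x2, x3, y1, y2, y3} : Finset ℕ) = {y1, y2, x3, x1, x2, y3} by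
      ext; simp only [mem_insert, mem_singleton]; omega]; exact this.1,
      _, _, Or.inr rfl, Or.inr rfl, this.2⟩

theorem sm_x7 (hs : M.dual.Simple) (p1 : (M.del {e}).dual.cyc {x1, y1})
    (p2 : (M.del {e}).dual.cyc {x2, y2}) (p3 : (M.del {e}).dual.cyc {x3, y3})
    (hn : [x1, x2, x3, y1, y2, y3].Nodup) (c1 : M.cyc {x1, x2, x3, y1, y2, y3})
    (c2 : M.cyc {e, x1, x2, x3})
    (ha : ∀ p q, p ≠ q → (M.del {e}).dual.cyc {p, q} → ({p, q} : Finset ℕ) = {x1, y1} ∨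
      ({p, q} : Finset ℕ) = {x2, y2} ∨ ({p, q} : Finset ℕ) = {x3, y3}) :
    M.X7 e x1 x2 x3 y1 y2 y3 := by
  obtain ⟨n1, t1⟩ := ser_triad hs p1
  obtain ⟨n2, t2⟩ := ser_triad hs p2
  obtain ⟨n3, t3⟩ := ser_triad hs p3
  simp only [List.nodup_cons, List.mem_cons, List.not_mem_nil, List.nodup_nil] at hn n1 n2 n3
  refine ⟨by simp; grind, t1, t2, t3, c2, ?_, ha⟩
  rw [show ({e, y1, y2, y3} : Finset ℕ) = symmDiff {x1, x2, x3, y1, y2, y3} {e, x1, x2, x3} by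
    ext
    simp only [mem_symmDiff, mem_insert, mem_singleton]
    grind]
  exact M.sd _ _ c1 c2

theorem MinC.klem (h : M.MinC N) (he : e ∈ M.E) (hk : (M.del {e}).DOK N) :
    (M.del {e}).Conn3 ∨ ∃ x1 x2 x3 y1 y2 y3, M.X7 e x1 x2 x3 y1 y2 y3 := by
  have hs := h.cosimple
  have c1 := card_del_single he
  obtain ⟨G, X, T, hT⟩ := exists_gft he (hs.not_single e) (h.ihD (M.hasMinor_del _) (by omega) hk)
  generalize M.E.erase e = Es at hT
  have eq := hT.del_e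
  have dk : ∀ {x y}, (M.del {e}).dual.cyc {x, y} →
      x ∈ M.E ∧ x ≠ e ∧ ((M.con {x}).del {e}).DOK N := fun {x y} hc => by
    have := mem_sdiff.1 ((M.del {e}).dual.sub _ hc (mem_insert_self _ _))
    have n : x ≠ e := by simpa using this.2
    exact ⟨this.1, n, del_con M (X := {e}) (Y := {x}) (by simpa using n.symm) ▸ hk.con_ser h.nok hc⟩
  have gr : ∀ {x y}, (M.del {e}).dual.cyc {x, y} → (M.con {x}).Graphic := fun {x y} hc => by
    obtain ⟨k1, k2, k3⟩ := dk hc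
    have := card_con_single k1
    exact h.ihP (M.hasMinor_con _) (by omega) (mem_sdiff.2 ⟨he, by simpa using k2.symm⟩) k3
  have d2 : ∀ {x y}, (M.del {e}).dual.cyc {x, y} → ∃ z a b, G.D2 Es z x y a b ∧ z ∈ T := by
    intro x y hc
    have n := (ser_triad hs hc).1
    simp only [List.nodup_cons, List.mem_cons, List.not_mem_nil, List.nodup_nil] at n
    obtain ⟨z, a, b, hd⟩ := exists_d2 hT.norm (eq ▸ hk.vc) (eq ▸ hk.ll) (by grind) (eq ▸ hc)
      fun a h1 h2 h3 => (ser_disj hs (eq ▸ h3) hc fun k => by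
        have : a ∈ ({x, y} : Finset ℕ) := k ▸ mem_insert_self _ _
        grind).2.2.1 rfl
    refine ⟨z, a, b, hd, by_contra fun hz => hs.not_pair x y ?_⟩
    rw [← hd.star]
    refine hT.cocyc_not (fun c hc hi => ?_) hz
    have k : c ∈ G.star Es z := Gr.mem_star.2 ⟨hc, hi⟩
    have j1 := hd.jx
    have j2 := hd.jy
    have j3 := hd.az
    have j4 := hd.bz
    rw [hd.star] at k
    unfold Gr.Joins at j1 j2
    grind
  by_cases s1 : ∀ p q, p ≠ q → ¬ (M.del {e}).dual.cyc {p, q}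
  · exact Or.inl (hk.conn3 s1)
  push Not at s1
  obtain ⟨x1, y1, n1, p1⟩ := s1
  obtain ⟨z1, a1, b1, h1, t1⟩ := d2 p1
  have p1' := pair_comm x1 y1 ▸ p1
  by_cases s2 : ∀ p q, p ≠ q → (M.del {e}).dual.cyc {p, q} → ({p, q} : Finset ℕ) = {x1, y1}
  · rcases step1 hT h.nok (eq ▸ hk) h1 (eq ▸ s2) (gr p1) (gr p1') with k | k
    · exact absurd (hT.graphic k) h.ng
    · exact absurd ((hT.swap h1 t1).graphic k.2) h.ng
  push Not at s2
  obtain ⟨x2, y2, n2, p2, m2⟩ := s2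
  obtain ⟨z2, a2, b2, h2, t2⟩ := d2 p2
  have d21 := ser_disj hs p2 p1 m2
  by_cases s3 : ∀ p q, p ≠ q → (M.del {e}).dual.cyc {p, q} →
      ({p, q} : Finset ℕ) = {x1, y1} ∨ ({p, q} : Finset ℕ) = {x2, y2}
  · have f12 := sm_far h1 h2 (by grind)
    have f21 := sm_far h2 h1 (by grind)
    rcases step2 hT h.nok (eq ▸ hk) h1 h2 f12.1 f12.2 f21.2 (eq ▸ s3) (gr p1) (gr p1') with
      k | k | k | k
    · exact absurd (hT.graphic k) h.ng
    · exact absurd ((hT.swap h1 t1).graphic k.2) h.ng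
    · exact absurd ((hT.swap h2 t2).graphic k.2) h.ng
    · exact absurd (((hT.swap h1 t1).swap (d2_swp h2 (d2_mem h1).1 (d2_mem h1).2 (by grind) (by grind)
        (by grind) (by grind)) (by simp [mem_symmDiff]; grind)).graphic k.2.2) h.ng
  push Not at s3
  obtain ⟨x3, y3, n3, p3, m31, m32⟩ := s3
  obtain ⟨z3, a3, b3, h3, t3⟩ := d2 p3
  have d31 := ser_disj hs p3 p1 m31
  have d32 := ser_disj hs p3 p2 m32
  by_cases s4 : ∀ p q, p ≠ q → (M.del {e}).dual.cyc {p, q} → ({p, q} : Finset ℕ) = {x1, y1} ∨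
      ({p, q} : Finset ℕ) = {x2, y2} ∨ ({p, q} : Finset ℕ) = {x3, y3}
  · obtain ⟨k1, s1, s2, k2, k3, k4⟩ := step3 hT h.nok (eq ▸ hk) h1 h2 h3 (by simp; grind)
      ⟨t1, t2, t3⟩ (eq ▸ s4) (gr p3) (gr (pair_comm x3 y3 ▸ p3))
    have p2' := pair_comm x2 y2 ▸ p2
    right
    rcases k2 with rfl | rfl <;> rcases k3 with rfl | rfl
    · exact ⟨_, _, _, _, _, _, sm_x7 hs p1 p2 p3 (by simp; grind) k1 k4 s4⟩
    · exact ⟨_, _, _, _, _, _, sm_x7 hs p1 p2' p3 (by simp; grind) (by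
        rwa [show ({s1, s2, x3, y1, x2, y3} : Finset ℕ) = {s1, x2, x3, y1, s2, y3} by
          ext; simp only [mem_insert, mem_singleton]; omega]) k4 (by rwa [pair_comm s2])⟩
    · exact ⟨_, _, _, _, _, _, sm_x7 hs p1' p2 p3 (by simp; grind) (by
        rwa [show ({s1, s2, x3, x1, y2, y3} : Finset ℕ) = {x1, s2, x3, s1, y2, y3} by
          ext; simp only [mem_insert, mem_singleton]; omega]) k4 (by rwa [pair_comm s1])⟩
    · exact ⟨_, _, _, _, _, _, sm_x7 hs p1' p2' p3 (by simp; grind) (by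
        rwa [show ({s1, s2, x3, x1, x2, y3} : Finset ℕ) = {x1, x2, x3, s1, s2, y3} by
          ext; simp only [mem_insert, mem_singleton]; omega]) k4
        (by rwa [pair_comm s1, pair_comm s2])⟩
  push Not at s4
  obtain ⟨x4, y4, n4, p4, m41, m42, m43⟩ := s4
  have d41 := ser_disj hs p4 p1 m41
  have d42 := ser_disj hs p4 p2 m42
  have d43 := ser_disj hs p4 p3 m43
  obtain ⟨k1, k2, k3⟩ := dk p4
  obtain ⟨u1, v1⟩ := ser_triad hs p1
  obtain ⟨u2, v2⟩ := ser_triad hs p2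
  obtain ⟨u3, v3⟩ := ser_triad hs p3
  simp only [List.nodup_cons, List.mem_cons, List.not_mem_nil, List.nodup_nil] at u1 u2 u3
  have ns : ∀ {x y x'}, (M.del {e}).dual.cyc {x, y} → x' ≠ y →
      ¬ ((M.con {x4}).del {e}).dual.cyc {x, x'} := fun {x y x'} q1 q2 q3 => by
    rw [← del_con M (X := {e}) (Y := {x4}) (by simpa using k2.symm), cocyc_con_iff] at q3
    refine (ser_disj hs q3.1 q1 fun k => ?_).1 rfl
    have l1 : y ∈ ({x, x'} : Finset ℕ) := k ▸ mem_insert_of_mem (mem_singleton_self _)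
    have l2 := (ser_triad hs q1).1
    simp only [List.nodup_cons, List.mem_cons, List.not_mem_nil, List.nodup_nil] at l2
    grind
  exact absurd (gr p4) (not_graphic_three k3.vc k3.ll (fun k => hs.not_single e (cocyc_con_iff.1 k).1)
    (by simp; grind) (cocyc_con_iff.2 ⟨v1, by simp; grind⟩) (cocyc_con_iff.2 ⟨v2, by simp; grind⟩)
    (cocyc_con_iff.2 ⟨v3, by simp; grind⟩) (ns p1 (by grind)) (ns p1 (by grind)) (ns p2 (by grind)))

end BM

end Pool.Agent.P.MP_3f5ce9_co
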