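import Pool.Agent.P.MP_3f5ce9_co.W.SaL
import Pool.Agent.P.MP_3f5ce9_co.W.SaG

/-!
Contractible and deletable edges of the graft.
-/

open Finset

namespace Pool.Agent.P.MP_3f5ce9_co

namespace BM

variable {M N : BM} {G : Gr ℕ ℕ} {X Es T : Finset ℕ} {e f g p q : ℕ}

theorem MinC.f1 (h : M.MinC N) (hg : M.Gft G X Es T e) (hx : g ∈ Es) (hj : G.Joins g p q)
    (hk : ((gm G Es).con {g}).COK N) : p ∈ T ∧ q ∈ T ∧ T.card = 4 := by
  have hs := h.simple
  have hne : q ≠ p := by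
    rintro rfl
    refine hs.not_single g (hg.cyc_of ((loop_gm hx).2 ?_))
    rcases hj with h1 | h1 <;> rw [h1.1, h1.2]
  have hc := hg.ctr hx hj hne
  rw [gm_con_single hx hj] at hk
  have hgE : g ∈ M.E := by rw [hg.ground]; exact mem_insert_of_mem hx
  have hk' : (M.con {g}).COK N := by
    refine COK.ext (e := e) ?_ ?_ ((hs.con_loopless g).not_cyc e) hc.not_coloop
    · rw [hc.del_e]; exact hk
    · rw [hc.ground]; exact mem_insert_self _ _
  have hgr : (M.con {g}).Graphic :=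
    h.ihC (hasMinor_con _ _) (by have := card_con_single hgE; omega) hk'
  have h2 := hc.ng (g3_of_cok hc.norm hk h.nok) hgr
  have h3 := card_ctrT hne T
  have h4 := hg.four h.ng
  by_cases h5 : p ∈ T ∧ q ∈ T
  · rw [if_pos h5] at h3
    exact ⟨h5.1, h5.2, by omega⟩
  · rw [if_neg h5] at h3
    omega

theorem so_three {S : Finset ℕ} (hf : f ∈ S) (h3 : S.card = 3) :
    ∃ x y, S = {f, x, y} ∧ [f, x, y].Nodup := by
  have h2 : (S.erase f).card = 2 := by rw [card_erase_of_mem hf, h3]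
  obtain ⟨x, y, hne, hxy⟩ := card_eq_two.1 h2
  have hx : x ∈ S.erase f := by rw [hxy]; simp
  have hy : y ∈ S.erase f := by rw [hxy]; simp
  refine ⟨x, y, ?_, ?_⟩
  · rw [← insert_erase hf, hxy]
  · have := (mem_erase.1 hx).1
    have := (mem_erase.1 hy).1
    simp
    omega

theorem so_card3 {x y : ℕ} (hn : [f, x, y].Nodup) : ({f, x, y} : Finset ℕ).card = 3 := by
  simp at hn
  rw [card_eq_three]
  exact ⟨f, x, y, hn.1.1, hn.1.2, hn.2, rfl⟩

theorem so_pair {x y a b : ℕ} (h1 : [f, x, y].Nodup) (h2 : [f, a, b].Nodup)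
    (h : ({f, x, y} : Finset ℕ) = {f, a, b}) : ({a, b} : Finset ℕ) = {x, y} := by
  simp at h1 h2
  ext v
  have := Finset.ext_iff.1 h v
  simp only [mem_insert, mem_singleton] at this ⊢
  omega

theorem so_swap {a b : ℕ} (h4 : 4 ≤ T.card) (h : (symmDiff T (symmDiff {a} {b})).card ≤ 2) :
    a ∈ T ∧ b ∈ T ∧ T.card = 4 := by
  by_cases hab : a = b
  · subst hab
    rw [symmDiff_self, symmDiff_bot] at h
    omega
  have hD : symmDiff ({a} : Finset ℕ) {b} = {a, b} := by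
    ext v
    simp only [mem_symmDiff, mem_insert, mem_singleton]
    omega
  rw [hD] at h
  have h1 := card_symmDiff_add T {a, b}
  have h2 : ({a, b} : Finset ℕ).card = 2 := card_pair hab
  have h3 : (T ∩ {a, b}).card ≤ 2 := h2 ▸ card_le_card inter_subset_right
  have h5 : T ∩ {a, b} = {a, b} := eq_of_subset_of_card_le inter_subset_right (by omega)
  have ha : a ∈ T ∩ {a, b} := by rw [h5]; simp
  have hb : b ∈ T ∩ {a, b} := by rw [h5]; simp
  exact ⟨(mem_inter.1 ha).1, (mem_inter.1 hb).1, by omega⟩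

theorem so_seven (hN : N.NOK) (hf : f ∈ Es) (hk : ((gm G Es).del {f}).DOK N) : 7 ≤ Es.card := by
  have h1 := hN.card
  have h2 := hk.mn.card_le
  have h3 := card_del_single (M := gm G Es) (e := f) hf
  have h4 : (gm G Es).E.card = Es.card := rfl
  omega

theorem so_one {c d x y a b : ℕ} (h4 : 4 ≤ T.card) (hj : G.Joins f c d)
    (hs : G.star Es c = {f, x, y}) (hn : [f, x, y].Nodup) (hd : G.D2 (Es.erase f) c x y a b)
    (h : c ∈ T ∧ (symmDiff T (symmDiff {a} {b})).card ≤ 2) : F2 G Es T f c d x y a b := by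
  obtain ⟨h1, h2, h3⟩ := so_swap h4 h.2
  exact ⟨hj, hs, hn, hd.jx, hd.jy, h.1, h1, h3, Or.inl h2⟩

theorem so_common {c d x1 y1 a1 b1 x2 y2 a2 b2 : ℕ} (hj : G.Joins f c d) (hcd : c ≠ d)
    (s1 : G.star Es c = {f, x1, y1}) (n1 : [f, x1, y1].Nodup)
    (s2 : G.star Es d = {f, x2, y2}) (n2 : [f, x2, y2].Nodup)
    (d1 : G.D2 (Es.erase f) c x1 y1 a1 b1) (d2 : G.D2 (Es.erase f) d x2 y2 a2 b2)
    (m1 : a1 ≠ d ∧ b1 ≠ d) (m2 : a2 ≠ c ∧ b2 ≠ c) (e1 : a1 ≠ b1) (e2 : a2 ≠ b2)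
    (hb : b1 = a2) (ha : a1 ≠ b2)
    (hT : ∀ v, v ∈ T ↔ v = c ∨ v = d ∨ ((v = a1 ∨ v = b1) ∧ ¬ (v = a2 ∨ v = b2)) ∨
      ((v = a2 ∨ v = b2) ∧ ¬ (v = a1 ∨ v = b1))) : F2 G Es T f c d x1 y1 a1 b1 := by
  have k1 := d1.az
  have k2 := d1.bz
  have k3 := d2.az
  have k4 := d2.bz
  have hTe : T = {c, d, a1, b2} := by
    ext v
    rw [hT]
    simp only [mem_insert, mem_singleton]
    omega
  refine ⟨hj, s1, n1, d1.jx, d1.jy, by rw [hTe]; simp, by rw [hTe]; simp, ?_,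
    Or.inr ⟨x2, y2, b2, s2, n2, hb ▸ d2.jx, d2.jy, ?_, hTe⟩⟩
  · rw [hTe, card_insert_of_notMem, card_insert_of_notMem, card_pair ha]
    · simp only [mem_insert, mem_singleton]
      omega
    · simp only [mem_insert, mem_singleton]
      omega
  · rw [hT]
    omega

theorem so_cok {x y : ℕ} (hN : N.NOK) (hs : (gm G Es).Simple) (hk : ((gm G Es).del {f}).DOK N)
    (hc : ((gm G Es).del {f}).dual.cyc {x, y}) (hne : f ≠ x) (hv : ((gm G Es).con {x}).VC) :
    ((gm G Es).con {x}).COK N := by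
  refine ⟨hv, hs.con_loopless x, ?_⟩
  have h1 := hk.mn.con_ser hN.cosimple hc
  rw [del_con _ (by simpa using hne)] at h1
  exact h1.of_del

theorem so_swap3 (x y : ℕ) : ({f, x, y} : Finset ℕ) = {f, y, x} := by rw [pair_comm x y]

theorem so_nd3 {x y : ℕ} (hn : [f, x, y].Nodup) : [f, y, x].Nodup := by
  simp at hn ⊢
  omega

theorem so_set {c d a1 b1 a2 b2 : ℕ} (kc : c ∈ T) (kd : d ∈ T)
    (k : (symmDiff (symmDiff T (symmDiff {a1} {b1})) (symmDiff {a2} {b2})).card ≤ 2) (hcd : c ≠ d)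
    (k1 : a1 ≠ c ∧ b1 ≠ c) (k2 : a2 ≠ c ∧ b2 ≠ c) (k3 : a1 ≠ d ∧ b1 ≠ d) (k4 : a2 ≠ d ∧ b2 ≠ d)
    (e1 : a1 ≠ b1) (e2 : a2 ≠ b2) (v : ℕ) :
    v ∈ T ↔ v = c ∨ v = d ∨ ((v = a1 ∨ v = b1) ∧ ¬ (v = a2 ∨ v = b2)) ∨
      ((v = a2 ∨ v = b2) ∧ ¬ (v = a1 ∨ v = b1)) := by
  have hU : ({c, d} : Finset ℕ) =
      symmDiff (symmDiff T (symmDiff {a1} {b1})) (symmDiff {a2} {b2}) := by
    refine eq_of_subset_of_card_le ?_ (by rw [card_pair hcd]; exact k)
    intro v hv
    simp only [mem_insert, mem_singleton] at hv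
    simp only [mem_symmDiff, mem_singleton]
    rcases hv with rfl | rfl
    · left
      exact ⟨Or.inl ⟨kc, by omega⟩, by omega⟩
    · left
      exact ⟨Or.inl ⟨kd, by omega⟩, by omega⟩
  have := Finset.ext_iff.1 hU v
  simp only [mem_symmDiff, mem_insert, mem_singleton] at this
  by_cases hv : v ∈ T
  · simp only [hv, true_and, not_true, and_false, or_false, true_iff] at this ⊢
    omega
  · simp only [hv, false_and, not_false_iff, and_true, false_or, false_iff] at this ⊢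
    omega

theorem so_five {c d a1 b1 a2 b2 : ℕ} (hcd : c ≠ d)
    (k1 : a1 ≠ c ∧ b1 ≠ c) (k2 : a2 ≠ c ∧ b2 ≠ c) (k3 : a1 ≠ d ∧ b1 ≠ d) (k4 : a2 ≠ d ∧ b2 ≠ d)
    (e1 : a1 ≠ b1) (k5 : b1 ≠ a2 ∧ b1 ≠ b2 ∧ a1 ≠ a2 ∧ a1 ≠ b2)
    (hT : ∀ v, v ∈ T ↔ v = c ∨ v = d ∨ ((v = a1 ∨ v = b1) ∧ ¬ (v = a2 ∨ v = b2)) ∨
      ((v = a2 ∨ v = b2) ∧ ¬ (v = a1 ∨ v = b1))) : 5 ≤ T.card := by
  have hsub : ({c, d, a1, b1, a2} : Finset ℕ) ⊆ T := by
    intro v hv
    simp only [mem_insert, mem_singleton] at hv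
    rw [hT]
    omega
  refine le_trans (le_of_eq ?_) (card_le_card hsub)
  rw [card_insert_of_notMem, card_insert_of_notMem, card_insert_of_notMem, card_pair k5.1]
  all_goals
    simp only [mem_insert, mem_singleton]
    omega

theorem so_two {c d x1 y1 x2 y2 : ℕ} (h : M.MinC N) (hg : M.Gft G X Es T e)
    (hc : (gm G Es).Conn3) (hf : f ∈ Es) (hk : ((gm G Es).del {f}).DOK N)
    (hd : (M.del {f}).Gft G X (Es.erase f) T e) (hgr : (M.del {f}).Graphic)
    (hj : G.Joins f c d)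
    (s1 : G.star Es c = {f, x1, y1}) (n1 : [f, x1, y1].Nodup)
    (s2 : G.star Es d = {f, x2, y2}) (n2 : [f, x2, y2].Nodup)
    (hser : ∀ x y, x ≠ y → (gm G (Es.erase f)).dual.cyc {x, y} →
      [f, x, y].Nodup ∧ (G.star Es c = {f, x, y} ∨ G.star Es d = {f, x, y})) :
    ∃ c d x y a b, F2 G Es T f c d x y a b := by
  have h7 := so_seven h.nok hf hk
  have hs : (gm G Es).Simple := hc.simple (by show 4 ≤ Es.card; omega)
  have hl := hs.loopless
  have h4 := hg.four h.ng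
  have hcd : c ≠ d := hl.joins_ne hf hj
  have hk' : (gm G (Es.erase f)).DOK N := by rw [← gm_del_single]; exact hk
  obtain ⟨a1, b1, d1⟩ := d2_of_star hl s1 n1
  obtain ⟨a2, b2, d2⟩ := d2_of_star hl s2 n2
  have x1m := mem_erase.1 (d2_mem d1).1
  have y1m := mem_erase.1 (d2_mem d1).2
  have x2m := mem_erase.1 (d2_mem d2).1
  have y2m := mem_erase.1 (d2_mem d2).2
  have m1 : a1 ≠ d ∧ b1 ≠ d :=
    ⟨fun h1 => x1m.1 (hs.joins_eq x1m.2 hf (h1 ▸ d1.jx) hj),
      fun h1 => y1m.1 (hs.joins_eq y1m.2 hf (h1 ▸ d1.jy) hj)⟩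
  have m2 : a2 ≠ c ∧ b2 ≠ c :=
    ⟨fun h1 => x2m.1 (hs.joins_eq x2m.2 hf (h1 ▸ d2.jx) hj.symm),
      fun h1 => y2m.1 (hs.joins_eq y2m.2 hf (h1 ▸ d2.jy) hj.symm)⟩
  have hst := step2 hd h.nok hk' d1 d2 hcd m1 m2 (fun x y hne hxy => by
    obtain ⟨k1, k2 | k2⟩ := hser x y hne hxy
    · exact Or.inl (so_pair n1 k1 (s1.symm.trans k2))
    · exact Or.inr (so_pair n2 k1 (s2.symm.trans k2))) (hgr.con _) (hgr.con _)
  rcases hst with k | k | k | ⟨kc, kd, k⟩
  · omega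
  · exact ⟨_, _, _, _, _, _, so_one h4 hj s1 n1 d1 k⟩
  · exact ⟨_, _, _, _, _, _, so_one h4 hj.symm s2 n2 d2 k⟩
  have e1 := d2_ne h.nok hk' d1
  have e2 := d2_ne h.nok hk' d2
  have e3 := d2_pair_ne h.nok hk' d1 d2 hcd m1.1 m1.2
  have hT := so_set kc kd k hcd ⟨d1.az, d1.bz⟩ m2 m1 ⟨d2.az, d2.bz⟩ e1 e2
  have e4 : ¬ (a1 = a2 ∧ b1 = b2) := fun h1 => e3 (by rw [h1.1, h1.2])
  have e5 : ¬ (a1 = b2 ∧ b1 = a2) := fun h1 => e3 (by rw [h1.1, h1.2, pair_comm])
  by_cases c1 : b1 = a2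
  · exact ⟨_, _, _, _, _, _, so_common hj hcd s1 n1 s2 n2 d1 d2 m1 m2 e1 e2 c1
      (fun h1 => e5 ⟨h1, c1⟩) hT⟩
  by_cases c2 : b1 = b2
  · exact ⟨_, _, _, _, _, _, so_common hj hcd s1 n1 (s2.trans (so_swap3 _ _)) (so_nd3 n2) d1
      (d2_symm d2) m1 m2.symm e1 e2.symm c2 (fun h1 => e4 ⟨h1, c2⟩)
      fun v => by rw [hT, or_comm (a := v = a2)]⟩
  by_cases c3 : a1 = a2
  · exact ⟨_, _, _, _, _, _, so_common hj hcd (s1.trans (so_swap3 _ _)) (so_nd3 n1) s2 n2
      (d2_symm d1) d2 m1.symm m2 e1.symm e2 c3 c2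
      fun v => by rw [hT, or_comm (a := v = a1)]⟩
  by_cases c4 : a1 = b2
  · exact ⟨_, _, _, _, _, _, so_common hj hcd (s1.trans (so_swap3 _ _)) (so_nd3 n1)
      (s2.trans (so_swap3 _ _)) (so_nd3 n2) (d2_symm d1) (d2_symm d2) m1.symm m2.symm e1.symm
      e2.symm c4 c1 fun v => by rw [hT, or_comm (a := v = a1), or_comm (a := v = a2)]⟩
  exfalso
  have h5 := so_five hcd ⟨d1.az, d1.bz⟩ m2 m1 ⟨d2.az, d2.bz⟩ e1 ⟨c1, c2, c3, c4⟩ hT
  have ht : (gm G Es).dual.cyc {f, x1, y1} := s1 ▸ cocyc_star' hl c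
  have hp : ((gm G Es).del {f}).dual.cyc {x1, y1} := by rw [gm_del_single]; exact d2_cocyc d1
  rcases hc.tl h7 n1 ht hk.vc with hv | hv
  · have := (h.f1 hg x1m.2 d1.jx (so_cok h.nok hs hk hp x1m.1.symm hv)).2.2
    omega
  · have := (h.f1 hg y1m.2 d1.jy (so_cok h.nok hs hk (pair_comm x1 y1 ▸ hp) y1m.1.symm hv)).2.2
    omega

theorem so_single {c d x y : ℕ} (h : M.MinC N) (hg : M.Gft G X Es T e)
    (hl : (gm G Es).Loopless) (hk : (gm G (Es.erase f)).DOK N)
    (hd : (M.del {f}).Gft G X (Es.erase f) T e) (hgr : (M.del {f}).Graphic)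
    (hj : G.Joins f c d) (s1 : G.star Es c = {f, x, y}) (n1 : [f, x, y].Nodup)
    (s2 : (G.star Es d).card ≠ 3)
    (hser : ∀ x y, x ≠ y → (gm G (Es.erase f)).dual.cyc {x, y} →
      [f, x, y].Nodup ∧ (G.star Es c = {f, x, y} ∨ G.star Es d = {f, x, y})) :
    ∃ c d x y a b, F2 G Es T f c d x y a b := by
  have h4 := hg.four h.ng
  obtain ⟨a, b, d1⟩ := d2_of_star hl s1 n1
  have hst := step1 hd h.nok hk d1 (fun x y hne hxy => by
    obtain ⟨k1, k2 | k2⟩ := hser x y hne hxy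
    · exact so_pair n1 k1 (s1.symm.trans k2)
    · exact absurd (k2 ▸ so_card3 k1) s2) (hgr.con _) (hgr.con _)
  rcases hst with k | k
  · omega
  · exact ⟨_, _, _, _, _, _, so_one h4 hj s1 n1 d1 k⟩

theorem MinC.f2 (h : M.MinC N) (hg : M.Gft G X Es T e) (hc : (gm G Es).Conn3) (hf : f ∈ Es)
    (hk : ((gm G Es).del {f}).DOK N) : ∃ c d x y a b, F2 G Es T f c d x y a b := by
  have h7 := so_seven h.nok hf hk
  have hE : 4 ≤ (gm G Es).E.card := by show 4 ≤ Es.card; omega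
  have hs : (gm G Es).Simple := hc.simple hE
  have hcs := hc.cosimple hE
  have hl := hs.loopless
  have hd := hg.del hf (hcs.not_single f)
  have hk' : (gm G (Es.erase f)).DOK N := by rw [← gm_del_single]; exact hk
  have hfE : f ∈ M.E := by rw [hg.ground]; exact mem_insert_of_mem hf
  have hgr : (M.del {f}).Graphic := by
    refine h.ihP (e := e) (hasMinor_del _ _) (by have := card_del_single hfE; omega) ?_ ?_
    · rw [hd.ground]; exact mem_insert_self _ _
    · rw [hd.del_e]; exact hk'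
  have hj := G.joins_st f
  have hser : ∀ x y, x ≠ y → (gm G (Es.erase f)).dual.cyc {x, y} →
      [f, x, y].Nodup ∧ (G.star Es (G.s f) = {f, x, y} ∨ G.star Es (G.t f) = {f, x, y}) := by
    intro x y _ hxy
    rw [← gm_del_single] at hxy
    obtain ⟨k1, k2⟩ := ser_triad hcs hxy
    obtain ⟨v, hv, hst⟩ := star_triad hg.norm hc hE hk.vc k1 k2
    refine ⟨k1, ?_⟩
    rcases hj.inc_iff.1 hv with rfl | rfl
    · exact Or.inl hst
    · exact Or.inr hst
  have f1 : f ∈ G.star Es (G.s f) := mem_filter.2 ⟨hf, hj.inc⟩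
  have f2 : f ∈ G.star Es (G.t f) := mem_filter.2 ⟨hf, hj.inc'⟩
  by_cases c1 : (G.star Es (G.s f)).card = 3
  · obtain ⟨x1, y1, s1, n1⟩ := so_three f1 c1
    by_cases c2 : (G.star Es (G.t f)).card = 3
    · obtain ⟨x2, y2, s2, n2⟩ := so_three f2 c2
      exact so_two h hg hc hf hk hd hgr hj s1 n1 s2 n2 hser
    · exact so_single h hg hl hk' hd hgr hj s1 n1 c2 hser
  · by_cases c2 : (G.star Es (G.t f)).card = 3
    · obtain ⟨x2, y2, s2, n2⟩ := so_three f2 c2
      exact so_single h hg hl hk' hd hgr hj.symm s2 n2 c1 fun x y hne hxy =>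
        ⟨(hser x y hne hxy).1, (hser x y hne hxy).2.symm⟩
    · have h2 := crit0 hd h.nok hk' (fun x y hne hxy => by
        obtain ⟨k1, k2 | k2⟩ := hser x y hne hxy
        · exact c1 (k2 ▸ so_card3 k1)
        · exact c2 (k2 ▸ so_card3 k1)) hgr
      have h4 := hg.four h.ng
      omega

theorem so_nd4 {a b c d : ℕ} (h : ({a, b, c, d} : Finset ℕ).card = 4) : [a, b, c, d].Nodup := by
  have h1 : (([a, b, c, d] : List ℕ) : Multiset ℕ).toFinset = {a, b, c, d} := by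
    ext v
    simp
  rw [← Multiset.coe_nodup, ← Multiset.toFinset_card_eq_card_iff_nodup, h1, h]
  rfl

theorem MinC.exists_cfg (h : M.MinC N) (hg : M.Gft G X Es T e) (hc : (gm G Es).Conn3)
    (hf : f ∈ Es) (hk : ((gm G Es).del {f}).DOK N) :
    ∃ f s s' z u w y y', M.SCfg N G X Es e f s s' z u w y y' := by
  obtain ⟨c, d, x, y, a, b, hF⟩ := h.f2 hg hc hf hk
  have h7 := so_seven h.nok hf hk
  have hE : 4 ≤ (gm G Es).E.card := by show 4 ≤ Es.card; omega
  have hs : (gm G Es).Simple := hc.simple hE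
  have hcs := hc.cosimple hE
  have hl := hs.loopless
  have hn := hF.ne
  have xm : x ∈ Es := by
    have : x ∈ G.star Es c := by rw [hF.star]; simp
    exact (mem_filter.1 this).1
  have ym : y ∈ Es := by
    have : y ∈ G.star Es c := by rw [hF.star]; simp
    exact (mem_filter.1 this).1
  simp at hn
  rcases hF.alt with hb | ⟨x', y', a', s2, n2, jx', jy', hb, hT⟩
  · have k1 : c ≠ a := hl.joins_ne xm hF.jx
    have k2 : c ≠ b := hl.joins_ne ym hF.jy
    have k3 : a ≠ b := fun h1 => hn.2 (hs.joins_eq xm ym hF.jx (h1 ▸ hF.jy))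
    have hsub : ({c, a, b} : Finset ℕ) ⊆ T := by
      intro v hv
      simp only [mem_insert, mem_singleton] at hv
      rcases hv with rfl | rfl | rfl
      · exact hF.cT
      · exact hF.aT
      · exact hb
    have h3 : ({c, a, b} : Finset ℕ).card = 3 := so_card3 (by simp; omega)
    obtain ⟨t, ht, htn⟩ := exists_mem_notMem_of_card_lt_card
      (s := ({c, a, b} : Finset ℕ)) (t := T) (by have := hF.card; omega)
    have hT : T = {c, a, b, t} := by
      symm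
      refine eq_of_subset_of_card_le ?_ ?_
      · intro v hv
        simp only [mem_insert, mem_singleton] at hv
        rcases hv with rfl | rfl | rfl | rfl
        · exact hF.cT
        · exact hF.aT
        · exact hb
        · exact ht
      · have h5 : ({c, a, b, t} : Finset ℕ) = insert t {c, a, b} := by
          ext v
          simp only [mem_insert, mem_singleton]
          omega
        rw [h5, card_insert_of_notMem htn, h3, hF.card]
    refine ⟨f, x, y, c, a, b, d, t, hT ▸ hg, so_nd4 (hT ▸ hF.card), hc, ?_, ?_, hF.jx, hF.jy,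
      hF.jf, hk⟩
    · rw [hF.star]
      ext v
      simp only [mem_insert, mem_singleton]
      omega
    · simp
      omega
  · have nd := so_nd4 (hT ▸ hF.card)
    have nd' := nd
    have n2' := n2
    simp at nd' n2'
    have xm' : x' ∈ Es := by
      have : x' ∈ G.star Es d := by rw [s2]; simp
      exact (mem_filter.1 this).1
    have k1 : y ≠ x' := fun h1 => nd'.1.1 (joins_right hF.jy.symm (h1 ▸ jx'.symm))
    have k2 : y ≠ y' := fun h1 => by
      have := joins_cases hF.jy (h1 ▸ jy')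
      omega
    have tri : (gm G Es).cyc {y, f, x'} :=
      cyc_tri_gm (by simp; omega) ym hf xm' hF.jy.symm hF.jf jx'
    have trd : (gm G Es).dual.cyc {f, x', y'} := s2 ▸ cocyc_star' hl d
    refine ⟨y, f, x, c, d, a, b, a', hT ▸ hg, nd, hc, hF.star, hF.ne, hF.jf, hF.jx, hF.jy,
      hc.fan' (by simp; omega) tri trd, hcs.del_coloopless y, ?_⟩
    have p1 : ((gm G Es).del {f}).dual.cyc {x', y'} := by
      have h1 := cocyc_del_of trd {f}
      have h2 : ({f, x', y'} : Finset ℕ) \ {f} = {x', y'} := by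
        ext v
        simp only [mem_sdiff, mem_insert, mem_singleton]
        omega
      rwa [h2] at h1
    have p2 : ((gm G Es).con {x'}).cyc {y, f} := by
      have h1 := cyc_con_of tri {x'}
      have h2 : ({y, f, x'} : Finset ℕ) \ {x'} = {y, f} := by
        ext v
        simp only [mem_sdiff, mem_insert, mem_singleton]
        omega
      rwa [h2] at h1
    have q1 := hk.mn.con_ser h.nok.cosimple p1
    rw [del_con _ (by simpa using n2'.1.1)] at q1
    have q2 := q1.of_del.del_par h.nok.simple p2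
    rw [← del_con _ (by simpa using k1)] at q2
    exact q2.of_con

end BM

end Pool.Agent.P.MP_3f5ce9_co
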