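import Pool.Agent.P.MP_3f5ce9_co.W.SaO

/-!
The configuration at a cubic vertex.
-/

open Finset

namespace Pool.Agent.P.MP_3f5ce9_co

namespace BM

variable {M N : BM} {G : Gr ℕ ℕ} {X Es : Finset ℕ} {e f s s' z u w y y' g : ℕ}

theorem saP_vec {a p q : ℕ} (h : G.Joins a p q) :
    symmDiff ({G.s a} : Finset ℕ) {G.t a} = symmDiff {p} {q} := by
  rcases h with ⟨rfl, rfl⟩ | ⟨rfl, rfl⟩
  exacts [rfl, symmDiff_comm _ _]

theorem saP_dd (h : M.SCfg N G X Es e f s s' z u w y y') :
    (M.del {f}).del {e} = (gm G Es).del {f} := by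
  rw [← h.gft.del_e, del_del, del_del, union_comm]

theorem SCfg.mirror (h : M.SCfg N G X Es e f s s' z u w y y') :
    M.SCfg N G X Es e f s' s z w u y y' := by
  have h1 := h.nd
  have h2 := h.ne
  refine ⟨?_, ?_, h.conn, ?_, ?_, h.js', h.js, h.jf, h.dok⟩
  · rw [insert_comm w u]; exact h.gft
  · simp at h1 ⊢; grind
  · rw [insert_comm]; exact h.star
  · simp at h2 ⊢; grind

theorem SCfg.mem (h : M.SCfg N G X Es e f s s' z u w y y') : s ∈ Es ∧ s' ∈ Es ∧ f ∈ Es := by
  have : ∀ a ∈ ({s, s', f} : Finset ℕ), a ∈ Es := fun a ha => (Gr.mem_star.1 (h.star ▸ ha)).1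
  exact ⟨this _ (by simp), this _ (by simp), this _ (by simp)⟩

theorem SCfg.card (h : M.SCfg N G X Es e f s s' z u w y y') (hN : N.NOK) : 7 ≤ Es.card := by
  have h1 := h.dok.mn.card_le
  have h2 := hN.card
  have h3 := card_del_single (M := gm G Es) h.mem.2.2
  rw [gm_E] at h3
  omega

theorem SCfg.simple (h : M.SCfg N G X Es e f s s' z u w y y') (hN : N.NOK) :
    (gm G Es).Simple ∧ (gm G Es).dual.Simple := by
  have : 4 ≤ (gm G Es).E.card := le_trans (by norm_num) (h.card hN)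
  exact ⟨h.conn.simple this, h.conn.cosimple this⟩

theorem SCfg.g3 (h : M.SCfg N G X Es e f s s' z u w y y') (hN : N.NOK) : G3 G X Es := by
  exact g3_of_cok h.gft.norm (h.conn.cok hN h.dok.mn.of_del) hN

theorem SCfg.yne (h : M.SCfg N G X Es e f s s' z u w y y') (hN : N.NOK) :
    y ≠ z ∧ y ≠ u ∧ y ≠ w ∧ y ∈ X := by
  have h1 := (h.simple hN).1
  have h2 := h.ne
  obtain ⟨m1, m2, m3⟩ := h.mem
  simp at h2
  refine ⟨(h1.loopless.joins_ne m3 h.jf).symm, ?_, ?_, (h.jf.mem h.gft.norm.within m3).2⟩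
  · rintro rfl
    exact h2.1.2 (h1.joins_eq m1 m3 h.js h.jf)
  · rintro rfl
    exact h2.2 (h1.joins_eq m2 m3 h.js' h.jf)

theorem SCfg.triad (h : M.SCfg N G X Es e f s s' z u w y y') (hN : N.NOK) :
    (gm G Es).dual.cyc {s, s', f} := by
  exact h.star ▸ cocyc_star' (h.simple hN).1.loopless z

theorem SCfg.quad (h : M.SCfg N G X Es e f s s' z u w y y') (hN : N.NOK) :
    M.dual.cyc {s, s', f, e} := by
  have h1 := h.gft.cocyc_mem (v := z)
    (fun x hx _ => (h.simple hN).1.loopless.joins_ne hx (G.joins_st x)) (by simp)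
  rw [h.star] at h1
  rwa [show ({s, s', f, e} : Finset ℕ) = {e, s, s', f} by ext; simp; tauto]

theorem saP_ser (h : M.SCfg N G X Es e f s s' z u w y y') (hN : N.NOK) :
    ((gm G Es).del {f}).dual.cyc {s, s'} := by
  have h2 := h.ne
  simp at h2
  refine cocyc_del_single.2 ⟨by simp; grind, Or.inr ?_⟩
  rw [show ({f, s, s'} : Finset ℕ) = {s, s', f} by ext; simp; tauto]
  exact h.triad hN

theorem SCfg.noadj (h : M.SCfg N G X Es e f s s' z u w y y') (hN : N.NOK) (hg : g ∈ Es) :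
    ¬ G.Joins g u w := by
  intro hj
  obtain ⟨m1, m2, m3⟩ := h.mem
  have h1 := h.nd
  have h2 := h.ne
  have h3 : g ∉ ({s, s', f} : Finset ℕ) := by
    rw [← h.star, Gr.mem_star, hj.inc_iff]
    simp at h1
    grind
  simp at h2 h3
  have h4 : (gm G Es).cyc {s, g, s'} :=
    cyc_tri_gm (by simp; grind) m1 hg m2 h.js hj h.js'.symm
  refine h.dok.not_cyc1 hN (c := g) (saP_ser h hN) (cyc_del_iff.2 ⟨h4, ?_⟩) (by simp) ?_
  · simp; grind
  · intro a; simp; tauto

theorem SCfg.hgm (h : M.SCfg N G X Es e f s s' z u w y y') :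
    ((gm G Es).del {f}).con {s} = gm (G.map (Gr.ctr z u)) ((Es.erase f).erase s) := by
  have h2 := h.ne
  simp at h2
  rw [gm_del_single, gm_con_single (mem_erase.2 ⟨h2.1.2, h.mem.1⟩) h.js]

theorem SCfg.hnorm (h : M.SCfg N G X Es e f s s' z u w y y') (hN : N.NOK) :
    (G.map (Gr.ctr z u)).Norm (X.erase z) ((Es.erase f).erase s) := by
  have h1 := h.nd
  have h2 := h.ne
  simp at h1 h2
  exact norm_ctr (norm_erase h.gft.norm ((h.simple hN).2.not_single f))
    (mem_erase.2 ⟨h2.1.2, h.mem.1⟩) h.js (Ne.symm h1.1.1)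

theorem SCfg.hdok (h : M.SCfg N G X Es e f s s' z u w y y') (hN : N.NOK) :
    (((gm G Es).del {f}).con {s}).DOK N := by
  exact h.dok.con_ser hN (saP_ser h hN)

theorem SCfg.mf (h : M.SCfg N G X Es e f s s' z u w y y') (hM : M.Ctx N) :
    (M.del {f}).Conn3 := by
  have hN := hM.nok
  have hE := h.gft.ground
  have m3 := h.mem.2.2
  have he := h.gft.ne
  have hef : e ≠ f := fun k => he (k ▸ m3)
  rcases hM.conn.ext3 (N := N) (le_trans (by norm_num) hM.toMinC.card)
    (hE ▸ mem_insert_self _ _) hef (saP_dd h ▸ h.dok) with k | ⟨x, x', k1, k2, k3⟩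
  · exact hM.k0 f (hE ▸ mem_insert_of_mem m3) k
  exfalso
  have hq := h.quad hN
  obtain ⟨t, t1, t2, t3⟩ := cyc_other (e := e) k2 hq (by simp) (by simp)
  simp at k1 t1 t2
  have k4 : (gm G Es).dual.cyc {x, x', f} :=
    h.gft.del_e ▸ cocyc_del_single.2 ⟨by simp; grind, Or.inl k3⟩
  have c1 := card_symmDiff_add {x, x', f} {s, s', f}
  have c2 : ({t, f} : Finset ℕ).card ≤ (({x, x', f} : Finset ℕ) ∩ {s, s', f}).card :=
    card_le_card fun a => by simp; grind
  rw [card_pair (by grind)] at c2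
  have c3 := card_le_three (a := x) (b := x') (c := f)
  have c4 := card_le_three (a := s) (b := s') (c := f)
  have k5 := (h.simple hN).2.cyc_eq (BM.sd _ _ _ k4 (h.triad hN)) (by omega)
  rw [← bot_eq_empty, symmDiff_eq_bot] at k5
  have k6 := BM.sd _ _ _ (k5 ▸ k3) hq
  apply h.gft.not_coloop
  have m1 := h.mem.1
  have m2 := h.mem.2.1
  rwa [show symmDiff ({s, s', f} : Finset ℕ) {s, s', f, e} = {e} by
    ext; simp [mem_symmDiff]; grind] at k6

theorem SCfg.ycard (h : M.SCfg N G X Es e f s s' z u w y y') (hM : M.Ctx N) (hy : y ≠ y') :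
    4 ≤ (G.star Es y).card := by
  have hN := hM.nok
  obtain ⟨y1, y2, y3, y4⟩ := h.yne hN
  have m3 := h.mem.2.2
  have h1 := (h.g3 hN).star_card y4
  by_contra h2
  have h3 := h.gft.cocyc_not (v := y)
    (fun x hx _ => (h.simple hN).1.loopless.joins_ne hx (G.joins_st x)) (by simp; grind)
  have h4 := card_del_single (M := M) (e := f) (h.gft.ground ▸ mem_insert_of_mem m3)
  have h5 := hM.toMinC.card
  have h6 := card_erase_add_one (Gr.mem_star.2 ⟨m3, h.jf.inc'⟩)
  have h7 := cocyc_del_of h3 {f}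
  rw [sdiff_singleton_eq_erase] at h7
  have h8 := ((h.mf hM).cosimple (by omega)).cyc_eq h7 (by omega)
  rw [h8, card_empty] at h6
  omega

theorem SCfg.hconn (h : M.SCfg N G X Es e f s s' z u w y y') (hM : M.Ctx N) (hy : y ≠ y') :
    (((gm G Es).del {f}).con {s}).Conn3 := by
  have hN := hM.nok
  refine (h.hdok hN).conn3 fun a b _ hc => ?_
  obtain ⟨h1, h2⟩ := cocyc_con_iff.1 hc
  obtain ⟨h3, h4⟩ := ser_triad (h.simple hN).2 h1
  obtain ⟨v, h5, h6⟩ := star_triad h.gft.norm h.conn (le_trans (by norm_num) (h.card hN))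
    h.dok.vc h3 h4
  rcases h.jf.inc_iff.1 h5 with rfl | rfl
  · have h7 : s ∈ ({f, a, b} : Finset ℕ) := by rw [← h6, h.star]; simp
    have h8 := h.ne
    simp at h2 h7 h8
    grind
  · have h7 := h.ycard hM hy
    have h8 := card_le_three (a := f) (b := a) (c := b)
    rw [h6] at h7
    omega

theorem SCfg.sym (h : M.SCfg N G X Es e f s s' z u w y y') (hM : M.Ctx N) :
    ∃ G' : Gr ℕ ℕ, M.SCfg N G' X (insert e (Es.erase f)) f e s s' z w u y' y ∧
      ∀ a, a ≠ s → a ≠ s' → a ≠ e → G'.s a = G.s a ∧ G'.t a = G.t a := by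
  have hN := hM.nok
  obtain ⟨y1, y2, y3, y4⟩ := h.yne hN
  obtain ⟨m1, m2, m3⟩ := h.mem
  have he := h.gft.ne
  have h1 := h.nd
  have h2 := h.ne
  have hT := h.gft.sub
  simp only [insert_subset_iff, singleton_subset_iff] at hT
  simp at h1 h2
  have e1 : s ≠ e := fun k => he (k ▸ m1)
  have e2 : s' ≠ e := fun k => he (k ▸ m2)
  have e3 : f ≠ e := fun k => he (k ▸ m3)
  obtain ⟨G', je, js, js', ho⟩ : ∃ G' : Gr ℕ ℕ, G'.Joins e z y' ∧ G'.Joins s z w ∧
      G'.Joins s' z u ∧ ∀ a, a ≠ s → a ≠ s' → a ≠ e → G'.s a = G.s a ∧ G'.t a = G.t a := by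
    refine ⟨⟨fun a => if a = e then z else G.s (Equiv.swap s s' a),
      fun a => if a = e then y' else G.t (Equiv.swap s s' a)⟩, Or.inl (by simp), ?_, ?_,
      fun a a1 a2 a3 => by simp [a3, Equiv.swap_apply_of_ne_of_ne a1 a2]⟩
    · simpa [Gr.Joins, e1] using h.js'
    · simpa [Gr.Joins, e2] using h.js
  have hf : f ∉ insert e (Es.erase f) := by simp [e3]
  have hs : ∀ a ∈ Es, G.Inc a z ↔ a = s ∨ a = s' ∨ a = f := fun a ha => by
    have := Gr.mem_star (G := G) (Es := Es) (z := z) (e := a)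
    rw [h.star] at this
    simpa [ha] using this.symm
  have hM' : M = graft G' (insert e (Es.erase f)) {z, w, u, y} f := by
    rw [h.gft.eq, graft, graft, insert_comm f e, insert_erase m3,
      ofVec_inv (z := z) (A := symmDiff {u} {w}) _ (by simp [mem_symmDiff]; grind)]
    refine ofVec_congr fun a ha => ?_
    by_cases a1 : a = e
    · subst a1
      rw [if_pos rfl, if_pos (by simp), if_neg e3.symm, saP_vec je]
      ext; simp [mem_symmDiff]; grind
    rw [if_neg a1]
    by_cases a2 : a = f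
    · subst a2
      rw [if_pos rfl, saP_vec h.jf, if_pos (by simp [mem_symmDiff]; grind)]
      ext; simp [mem_symmDiff]; grind
    rw [if_neg a2]
    by_cases a3 : a = s
    · subst a3
      rw [saP_vec h.js, saP_vec js, if_pos (by simp [mem_symmDiff]; grind)]
      ext; simp [mem_symmDiff]; grind
    by_cases a4 : a = s'
    · subst a4
      rw [saP_vec h.js', saP_vec js', if_pos (by simp [mem_symmDiff]; grind)]
      ext; simp [mem_symmDiff]; grind
    have a5 := (hs a ((mem_insert.1 ha).resolve_left a1)).not.2 (by grind)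
    rw [(ho a a3 a4 a1).1, (ho a a3 a4 a1).2, if_neg]
    simp [mem_symmDiff, Gr.Inc] at a5 ⊢
    grind
  have hd : M.del {f} = gm G' (insert e (Es.erase f)) := by
    conv_lhs => rw [hM']
    exact graft_del G' _ hf
  have hW : G'.Within (insert e (Es.erase f)) X := fun a ha => by
    by_cases a1 : a = e
    · have := a1 ▸ je
      unfold Gr.Joins at this; grind
    by_cases a3 : a = s
    · have := a3 ▸ js
      unfold Gr.Joins at this; grind
    by_cases a4 : a = s'
    · have := a4 ▸ js'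
      unfold Gr.Joins at this; grind
    rw [(ho a a3 a4 a1).1, (ho a a3 a4 a1).2]
    exact h.gft.norm.within a (mem_of_mem_erase ((mem_insert.1 ha).resolve_left a1))
  refine ⟨G', ⟨⟨norm_of_r hW Subset.rfl h.gft.norm.ne ?_, hf, ?_, ?_, hM'⟩, ?_, hd ▸ h.mf hM, ?_, ?_,
    js, js', je, ?_⟩, ho⟩
  · have k1 := r_del_single (hM.toMinC.cosimple.not_single f)
    rw [hd, gm_E] at k1
    rw [k1, h.gft.r_eq]
  · simp only [insert_subset_iff, singleton_subset_iff]
    exact ⟨hT.1, hT.2.2.1, hT.2.1, y4⟩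
  · rw [card_insert_of_notMem (by simp; grind), card_insert_of_notMem (by simp; grind),
      card_pair y2.symm]
    decide
  · simp; grind
  · ext a
    rw [Gr.mem_star]
    by_cases a1 : a = e
    · simp [a1, je.inc]
    by_cases a3 : a = s
    · simp [a3, js.inc, m1, h2.1.2]
    by_cases a4 : a = s'
    · simp [a4, js'.inc, m2, h2.2]
    have a5 := hs a
    rw [Gr.Inc, (ho a a3 a4 a1).1, (ho a a3 a4 a1).2, ← Gr.Inc]
    simp [a1, a3, a4] at a5 ⊢
    grind
  · simp; grind
  · rw [← hd, saP_dd h]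
    exact h.dok

theorem SCfg.gad4 (h : M.SCfg N G X Es e f s s' z u w y y) (hN : N.NOK) : M.Gad4 := by
  obtain ⟨y1, y2, y3, y4⟩ := h.yne hN
  obtain ⟨m1, m2, m3⟩ := h.mem
  have he := h.gft.ne
  have h1 := h.nd
  have h2 := h.ne
  have h3 := h.gft.cyc_three m1 m2 m3 h2 h.js h.js' h.jf (by
    simp at h1
    ext; simp [mem_symmDiff]; grind)
  have h4 : ({s, s', f, e} : Finset ℕ) = {e} ∪ {s, s', f} := by ext; simp; tauto
  refine ⟨s, s', f, e, by simp at h2 ⊢; grind, ?_, h.quad hN, ?_⟩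
  · rwa [show ({s, s', f, e} : Finset ℕ) = {e, s, s', f} by ext; simp; tauto]
  · rw [h4, ← del_del, h.gft.del_e, gm_del, ← h.star]
    exact (h.g3 hN).nonsep z

end BM

end Pool.Agent.P.MP_3f5ce9_co
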