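import Pool.Agent.P.MP_3f5ce9_co.W.SaP

/-!
A cubic neighbour gives the gadget.
-/

open Finset

namespace Pool.Agent.P.MP_3f5ce9_co

namespace BM

variable {M N : BM} {G : Gr ℕ ℕ} {X Es : Finset ℕ} {e f s s' z u w y y' g k : ℕ}

theorem sq_cyc {P : BM} {C D : Finset ℕ} (h : P.cyc C) (e : ∀ x, x ∈ C ↔ x ∈ D) : P.cyc D :=
  Finset.ext e ▸ h

theorem SCfg.sq_not (h : M.SCfg N G X Es e f s s' z u w y y') (hN : N.NOK) :
    s ∈ G.star Es u ∧ s' ∉ G.star Es u ∧ f ∉ G.star Es u ∧ e ∉ G.star Es u := by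
  have h1 := h.yne hN
  have h2 := h.nd
  have h3 := h.gft.ne
  simp only [Gr.mem_star, h.js.inc_iff, h.js'.inc_iff, h.jf.inc_iff, h.mem]
  simp at h2
  grind

theorem SCfg.q (h : M.SCfg N G X Es e f s s' z u w y y') (hM : M.Ctx N) (hy : y ≠ y')
    (hk : k ∈ Es) (hj : G.Joins k u y) (hn : [s, k, g].Nodup)
    (ht : (gm G Es).dual.cyc {s, k, g}) : M.Gad6 := by
  have hN := hM.nok
  obtain ⟨y1, y2, y3, -⟩ := h.yne hN
  obtain ⟨m1, m2, m3⟩ := h.mem
  obtain ⟨s1, s2⟩ := h.simple hN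
  have nd := h.nd
  have ne := h.ne
  have hz : ∀ a, a ∈ Es ∧ G.Inc a z ↔ a = s ∨ a = s' ∨ a = f := fun a => by
    rw [← Gr.mem_star, h.star]; simp
  have kz := hz k
  rw [hj.inc_iff] at kz
  simp at nd ne hn
  have tri : (gm G Es).cyc {f, s, k} :=
    cyc_tri_gm (by simp; grind) m3 m1 hk h.jf.symm h.js hj
  obtain ⟨v, v1, v2⟩ := star_triad (f := k) (x := s) (y := g) h.gft.norm h.conn
    (by have := h.card hN; omega) (h.conn.fan' (x2 := s) (x3 := f) (x4 := s') (by simp; grind)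
      (sq_cyc tri (by simp; grind)) (sq_cyc (h.triad hN) (by simp; grind))) (by simp; grind)
    (sq_cyc ht (by simp; grind))
  obtain rfl : v = u := by
    have : s ∈ G.star Es v := by simp [v2]
    rw [Gr.mem_star, h.js.inc_iff] at this
    rw [hj.inc_iff] at v1
    grind
  obtain ⟨-, n1, n2, n3⟩ := h.sq_not hN
  obtain ⟨g1, g2⟩ := Gr.mem_star.1 (show g ∈ G.star Es v by simp [v2])
  obtain ⟨p, g2⟩ := g2.exists_joins
  simp [v2] at n1 n2 n3
  have a1 := (h.hdok hN).mn
  have c1 := ((h.hconn hM hy).cok hN a1)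
  rw [del_con _ (by simp; grind)] at a1 c1
  have a2 := a1.of_del.del_par hN.simple (x := k) (y := f)
    (cyc_con_single.2 ⟨by simp; grind, .inr (sq_cyc tri (by simp; grind))⟩)
  rw [← del_con _ (by simp; grind)] at a2
  have a3 := a2.of_con.con_ser hN.cosimple (x := g) (y := s)
    (cocyc_del_single.2 ⟨by simp; grind, .inr (sq_cyc ht (by simp; grind))⟩)
  rw [del_con _ (by simp; grind)] at a3
  have a4 := (hM.toMinC.f1 h.gft g1 g2 ⟨h.conn.fan (x1 := f) (x2 := s) (x3 := k) (by simp; grind)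
    tri ht, s1.con_loopless g, a3.of_del⟩).2.1
  obtain rfl : p = y' := by
    have b1 := s1.loopless.joins_ne g1 g2
    have b2 := hz g
    have b3 := h.noadj hN g1
    rw [g2.inc_iff] at b2
    simp at a4
    grind
  have e1 := h.gft.ne
  refine ⟨s, f, k, e, s', g, ⟨by simp; grind, h.gft.cyc_of (sq_cyc tri (by simp; grind)),
    h.gft.cyc_two m2 g1 (by grind) h.js' g2 (by ext; simp [mem_symmDiff]; grind),
    sq_cyc (h.quad hN) (by simp; grind), sq_cyc (h.gft.cocyc_mem (v := v) (fun x hx _ =>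
      s1.loopless.joins_ne hx (G.joins_st x)) (by simp)) (by simp [v2]; grind)⟩, ?_⟩
  rw [show ({s, f, k, e, s', g} : Finset ℕ) = {e} ∪ (G.star Es z ∪ G.star Es v) by
    ext; simp [v2, h.star]; grind, ← del_del, h.gft.del_e, gm_del]
  exact nonsep2 h.gft.norm m1 h.js (by grind) (c1.ext (mem_sdiff.2 ⟨m3, by simp; grind⟩)
    ((s1.con_loopless s).not_cyc f) fun k => s2.not_single f (cocyc_con_iff.1 k).1) hN

theorem SCfg.qq (h : M.SCfg N G X Es e f s s' z u w y y') (hM : M.Ctx N) (hy : y ≠ y')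
    (hc : (G.star Es u).card = 3) (hk : k ∈ Es) (hj : G.Joins k u y ∨ G.Joins k u y') :
    M.Gad6 := by
  have hN := hM.nok
  obtain ⟨n0, n1, n2, n3⟩ := h.sq_not hN
  have nd := h.nd
  have ne := h.ne
  have y1 := (h.yne hN).1
  simp at nd ne
  have ks : k ≠ s := by
    rintro rfl
    rcases hj with hj | hj <;> have := joins_right h.js.symm hj <;> grind
  have k1 : k ∈ G.star Es u := Gr.mem_star.2 ⟨hk, hj.elim (·.inc) (·.inc)⟩
  obtain ⟨g, hg⟩ := card_eq_one.1 (show (((G.star Es u).erase s).erase k).card = 1 by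
    rw [card_erase_of_mem (mem_erase.2 ⟨ks, k1⟩), card_erase_of_mem n0, hc])
  have g1 : ∀ a, a ≠ k ∧ a ≠ s ∧ a ∈ G.star Es u ↔ a = g := fun a => by
    rw [← mem_singleton, ← hg]; simp
  have g2 := (g1 g).2 rfl
  have ll := (h.simple hN).1.loopless
  rcases hj with hj | hj
  · exact h.q (g := g) hM hy hk hj (by simp; grind) (sq_cyc (cocyc_star' ll u) (by simp; grind))
  · obtain ⟨G', h', e1⟩ := h.sym hM
    have e2 := e1 k ks (by grind) (by grind)
    have e3 := h.gft.ne
    have e4 := h.mem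
    refine h'.mirror.q (k := k) (g := g) hM hy.symm (by simp; grind)
      (by unfold Gr.Joins at hj ⊢; rwa [e2.1, e2.2]) (by simp; grind) ?_
    rw [← h'.gft.del_e]
    exact sq_cyc (cocyc_del_of (M.dual.sd _ _ (h.gft.cocyc_mem (v := u) (fun x hx _ =>
      ll.joins_ne hx (G.joins_st x)) (by simp)) (h.quad hN)) {f})
      (by simp only [mem_sdiff, mem_symmDiff, mem_insert, mem_singleton]; grind)

theorem SCfg.base (h : M.SCfg N G X Es e f s s' z u w y y') (hM : M.Ctx N) (hy : y ≠ y')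
    (hi : (((gm G Es).del {f}).con {s}).Iso N) (hc : 2 * N.E.card = 3 * (N.r N.E + 1))
    (hd : N.Dom) : M.Gad6 := by
  have hN := hM.nok
  obtain ⟨y1, y2, y3, y4⟩ := h.yne hN
  obtain ⟨m1, m2, m3⟩ := h.mem
  obtain ⟨s1, s2⟩ := h.simple hN
  obtain ⟨n0, n1, n2, -⟩ := h.sq_not hN
  obtain ⟨n3, n4, n5, -⟩ := h.mirror.sq_not hN
  have nd := h.nd
  have ne := h.ne
  simp at nd ne
  have m4 : s ∈ ((gm G Es).del {f}).E := mem_sdiff.2 ⟨m1, by simp; grind⟩
  have l1 := (h.dok.simple hN).loopless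
  have c1 := hi.card_eq
  have c2 := card_con_single m4
  have c3 := card_del_single (M := gm G Es) m3
  have r1 := hi.r_eq
  have r2 := r_con_single m4 (l1.not_cyc s)
  have r3 := r_del_single (s2.not_single f)
  have r4 := r_gm_conn Subset.rfl h.gft.norm
  have hw := h.gft.norm.within
  have c4 : ∀ v ∈ X, v ≠ y → (G.star Es v).card = 3 := fun v hv hne => by
    have a1 := handshake hw s1.loopless
    have a2 := h.ycard hM hy
    have a3 := (h.g3 hN).star_card hv
    have a4 := mem_erase.2 ⟨hne, hv⟩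
    rw [← add_sum_erase _ _ y4, ← add_sum_erase _ _ a4] at a1
    have a5 := card_nsmul_le_sum ((X.erase y).erase v) (fun v => (G.star Es v).card) 3 fun x hx =>
      (h.g3 hN).star_card (mem_of_mem_erase (mem_of_mem_erase hx))
    have a6 := card_erase_add_one a4
    have a7 := card_erase_add_one y4
    change _ = Es.card at c3
    change _ = (gm G Es).r Es at r3
    rw [smul_eq_mul] at a5
    omega
  have cu := c4 u (h.js.mem hw m1).2 y2.symm
  have cw := c4 w (h.js'.mem hw m2).2 y3.symm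
  have d1 := hi.dom hd (insert s' ((G.star Es u).erase s)) (G.star Es w)
    (cocyc_con_iff.2 ⟨sq_cyc (cocyc_del_of ((gm G Es).dual.sd _ _ (cocyc_star' s1.loopless u)
      (h.triad hN)) {f})
      (by simp only [mem_sdiff, mem_symmDiff, mem_insert, mem_singleton, mem_erase]; grind),
      by simp; grind⟩)
    (cocyc_con_iff.2 ⟨cocyc_del_single.2 ⟨n5, .inl (cocyc_star' s1.loopless w)⟩, by simpa⟩)
    (by rw [card_insert_of_notMem (by simp [n1]), card_erase_of_mem n0, cu]) cw
    (card_eq_one.2 ⟨s', by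
      ext a
      have := fun (a1 : a ∈ G.star Es u) (a2 : a ∈ G.star Es w) => h.noadj hN (Gr.mem_star.1 a1).1
        (joins_of_inc (Gr.mem_star.1 a1).2 (Gr.mem_star.1 a2).2 (by grind))
      simp only [mem_inter, mem_insert, mem_singleton, mem_erase]
      grind⟩)
  have d2 := ((gm G Es).del {f}).r_con {s} (insert s' ((G.star Es u).erase s) ∪ G.star Es w)
  rw [l1 s m4, r_del] at d2
  have d3 := (gm G Es).r_mono (show (insert s' ((G.star Es u).erase s) ∪ G.star Es w ∪ {s}) \ {f} ⊆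
    G.star Es u ∪ G.star Es w by
      intro a
      simp only [mem_sdiff, mem_union, mem_insert, mem_singleton, mem_erase]
      grind)
  by_contra hn
  have d4 := r_gm_lt (G := G) (Es := Es) (F := G.star Es u ∪ G.star Es w) (X := X.erase y)
    (fun a ha => by
      obtain ⟨a1, a2⟩ := mem_inter.1 ha
      have : ¬ G.Inc a y := fun k => hn ((mem_union.1 a1).elim
        (fun b => h.qq hM hy cu a2 (.inl (joins_of_inc (Gr.mem_star.1 b).2 k y2.symm)))
        fun b => h.mirror.qq hM hy cw a2 (.inl (joins_of_inc (Gr.mem_star.1 b).2 k y3.symm)))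
      have := hw a a2
      simp only [mem_erase, Gr.Inc] at *
      grind) ⟨z, mem_erase.2 ⟨y1.symm, (h.js.mem hw m1).1⟩⟩
  have a7 := card_erase_add_one y4
  change _ = (gm G Es).r Es at r3
  omega

end BM

end Pool.Agent.P.MP_3f5ce9_co
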