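import Pool.Agent.P.MP_3f5ce9_co.W.SaQ
import Pool.Agent.P.MP_3f5ce9_co.W.SaF

/-!
Every configuration contains the gadget.
-/

open Finset

namespace Pool.Agent.P.MP_3f5ce9_co

namespace BM

variable {M N : BM} {G : Gr ℕ ℕ} {X Es : Finset ℕ} {e f s s' z u w y y' g : ℕ}

theorem sr_cyc {C D : Finset ℕ} (h : M.cyc C) (e : C = D) : M.cyc D := e ▸ h

theorem sr_card {a b c : ℕ} (h : [a, b, c].Nodup) : ({a, b, c} : Finset ℕ).card = 3 := by
  simp only [List.nodup_cons, List.mem_cons, List.not_mem_nil, List.nodup_nil] at h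
  exact card_eq_three.2 ⟨a, b, c, by grind, by grind, by grind, rfl⟩

theorem sr_z (h : M.SCfg N G X Es e f s s' z u w y y') {k : ℕ} (hk : k ∈ Es) (hi : G.Inc k z) :
    k = s ∨ k = s' ∨ k = f := by
  have : k ∈ G.star Es z := Gr.mem_star.2 ⟨hk, hi⟩
  rw [h.star] at this
  simpa using this

theorem sr_eq (h : M.SCfg N G X Es e f s s' z u w y y') (hN : N.NOK) :
    (((gm G Es).del {f}).con {s}).del {s'} = (gm G Es).del {s, s', f} := by
  have ne := h.ne
  simp only [List.nodup_cons, List.mem_cons, List.not_mem_nil, List.nodup_nil] at ne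
  rw [← del_con _ (by simp; grind), con_eq_del_of_coloop, del_del, del_del]
  · exact congrArg _ (by ext; simp; grind)
  · exact sr_cyc (cocyc_del_of (cocyc_del_of (h.triad hN) {f}) {s'}) (by ext; simp; grind)

/-- a neighbour of `u` in `T` -/
theorem sr_nb (h : M.SCfg N G X Es e f s s' z u w y y') (hN : N.NOK) {k a : ℕ} (hk : k ∈ Es)
    (hs : k ≠ s) (hj : G.Joins k u a) (ha : a ∈ ({z, u, w, y'} : Finset ℕ)) : a = y' := by
  have nd := h.nd
  have yn := h.yne hN
  simp only [List.nodup_cons, List.mem_cons, List.not_mem_nil, List.nodup_nil] at nd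
  have h1 := (h.simple hN).1.loopless.joins_ne hk hj
  simp only [mem_insert, mem_singleton] at ha
  rcases ha with rfl | rfl | rfl | rfl
  · rcases sr_z h hk hj.inc' with rfl | rfl | rfl
    · exact absurd rfl hs
    · have := joins_cases hj h.js'; grind
    · have := joins_cases hj h.jf; grind
  · exact absurd rfl h1
  · exact absurd hj (h.noadj hN hk)
  · rfl

/-- a neighbour of `y'` in `T` -/
theorem sr_nb' (h : M.SCfg N G X Es e f s s' z u w y y') (hN : N.NOK) (hy : y ≠ y') {k a : ℕ}
    (hk : k ∈ Es) (hj : G.Joins k y' a) (ha : a ∈ ({z, u, w, y'} : Finset ℕ)) :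
    a = u ∨ a = w := by
  have nd := h.nd
  simp only [List.nodup_cons, List.mem_cons, List.not_mem_nil, List.nodup_nil] at nd
  have h1 := (h.simple hN).1.loopless.joins_ne hk hj
  simp only [mem_insert, mem_singleton] at ha
  rcases ha with rfl | rfl | rfl | rfl
  · rcases sr_z h hk hj.inc' with rfl | rfl | rfl
    · have := joins_cases hj h.js; grind
    · have := joins_cases hj h.js'; grind
    · have := joins_cases hj h.jf; grind
  · exact Or.inl rfl
  · exact Or.inr rfl
  · exact absurd rfl h1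

theorem sr_mem {c a b d : ℕ} (h : G.star Es c = {a, b, d}) : a ∈ Es ∧ b ∈ Es ∧ d ∈ Es :=
  ⟨(Gr.mem_star.1 (h ▸ by simp : a ∈ G.star Es c)).1,
    (Gr.mem_star.1 (h ▸ by simp : b ∈ G.star Es c)).1,
    (Gr.mem_star.1 (h ▸ by simp : d ∈ G.star Es c)).1⟩

theorem sr_uy (h : M.SCfg N G X Es e f s s' z u w y y') (hM : M.Ctx N) (hy : y ≠ y')
    (hk : ((gm G Es).del {s, s', f}).DOK N) {k : ℕ} (hm : k ∈ Es) (hj : G.Joins k u y) :
    M.Gad6 := by
  have hN := hM.nok
  have nd := h.nd
  have ne := h.ne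
  have yn := h.yne hN
  simp only [List.nodup_cons, List.mem_cons, List.not_mem_nil, List.nodup_nil] at nd ne
  have k1 : k ≠ s := by rintro rfl; have := joins_cases hj h.js; grind
  have k2 : k ≠ s' := by rintro rfl; have := joins_cases hj h.js'; grind
  have k3 : k ≠ f := by rintro rfl; have := joins_cases hj h.jf; grind
  have t1 : (gm G Es).cyc {k, s, f} :=
    cyc_tri_gm (by simp; grind) hm h.mem.1 h.mem.2.2 hj.symm h.js.symm h.jf
  have t2 : (gm G Es).dual.cyc {s, f, s'} := sr_cyc (h.triad hN) (by ext; simp; grind)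
  have m1 : (((gm G Es).con {s}).del {s'}).HasMinor N := by
    have := hk.mn
    rw [← sr_eq h hN, del_con _ (by simp; grind), del_del, union_comm, ← del_del] at this
    exact this.of_del
  have m2 : ((gm G Es).del {k}).HasMinor N := by
    have := m1.del_par hN.simple (x := k) (y := f)
      (cyc_del_iff.2 ⟨sr_cyc (cyc_con_of t1 {s}) (by ext; simp; grind), by simp; grind⟩)
    rw [del_del, union_comm, ← del_del, ← del_con _ (by simp; grind)] at this
    exact this.of_del.of_con
  obtain ⟨c, d, x, y0, a, b, F⟩ := hM.toMinC.f2 h.gft h.conn hm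
    ⟨h.conn.fan' (by simp; grind) t1 t2, (h.simple hN).2.del_coloopless k, m2⟩
  have c1 := F.cT
  simp only [mem_insert, mem_singleton] at c1
  obtain rfl : c = u := by have := joins_cases F.jf hj; grind
  exact h.qq hM hy (F.star ▸ sr_card F.ne) hm (Or.inl hj)

theorem SCfg.del_uw (h : M.SCfg N G X Es e f s s' z u w y y') (hM : M.Ctx N) (hy : y ≠ y')
    (hk : ((gm G Es).del {s, s', f}).DOK N) : M.Gad6 := by
  have hN := hM.nok
  have nd := h.nd
  have ne := h.ne
  have yn := h.yne hN
  have h7 := h.card hN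
  simp only [List.nodup_cons, List.mem_cons, List.not_mem_nil, List.nodup_nil] at nd ne
  have yT : y ∉ ({z, u, w, y'} : Finset ℕ) := by simp; grind
  rcases h.conn.ext4 (by rw [gm_E]; omega) h.ne (h.triad hN) hk with
    h1 | ⟨x, n1, h1⟩ | ⟨x, x', n1, h1, h2⟩
  · obtain ⟨c, d, x, y0, a, b, F⟩ := hM.toMinC.f2 h.gft h.conn h.mem.1 h1
    have n1 := F.ne
    obtain ⟨-, m1, m2⟩ := sr_mem F.star
    simp only [List.nodup_cons, List.mem_cons, List.not_mem_nil, List.nodup_nil] at n1
    rcases joins_cases F.jf h.js with ⟨rfl, rfl⟩ | ⟨rfl, rfl⟩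
    · have x1 : x ≠ f := by
        rintro rfl
        exact yT (joins_right F.jx h.jf ▸ F.aT)
      obtain rfl : y0 = f := by
        have := sr_z h m1 F.jx.inc
        have := sr_z h m2 F.jy.inc
        grind
      obtain rfl := joins_right F.jy h.jf
      rcases F.alt with h2 | ⟨x', y'', a', h2, -, h3, -⟩
      · exact absurd h2 yT
      · exact sr_uy h hM hy hk (sr_mem h2).2.1 h3
    · have := sr_nb h hN m1 (by grind) F.jx F.aT
      exact h.qq hM hy (F.star ▸ sr_card F.ne) m1 (Or.inr (this ▸ F.jx))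
  · simp only [List.nodup_cons, List.mem_cons, List.not_mem_nil, List.nodup_nil] at n1
    have h2 := joins_of_tri (by simp; grind) h1 h.jf h.js' yn.2.2.1
    refine sr_uy h.mirror hM hy ?_ ((gm G Es).sub _ h1 (by simp)) h2.symm
    rwa [insert_comm]
  · simp only [List.nodup_cons, List.mem_cons, List.not_mem_nil, List.nodup_nil] at n1
    have m1 : x ∈ Es := (gm G Es).sub _ h1 (by simp)
    have m2 : x' ∈ Es := (gm G Es).sub _ h1 (by simp)
    have t1 : (((gm G Es).del {f}).con {s}).dual.cyc {s', x, x'} := cocyc_con_iff.2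
      ⟨sr_cyc (cocyc_del_of ((gm G Es).dual.sd _ _ h2 (h.triad hN)) {f})
        (by ext; simp [mem_symmDiff]; grind), by simp; grind⟩
    have t2 := h.hconn hM hy
    have t3 := hk.vc
    rw [← sr_eq h hN] at t3
    rw [h.hgm] at t1 t2 t3
    have c1 := card_erase_of_mem h.mem.2.2
    have c2 := card_erase_of_mem (mem_erase.2 ⟨by grind, h.mem.1⟩ : s ∈ Es.erase f)
    obtain ⟨v, v1, v2⟩ := star_triad (h.hnorm hN) t2 (by omega) t3 (by simp; grind) t1
    have j1 := (h.js'.map (Gr.ctr z u)).inc_iff.1 v1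
    rw [Gr.ctr_self, show Gr.ctr z u w = w by simp [Gr.ctr]; grind] at j1
    rcases j1 with rfl | rfl
    · rw [star_ctr (by grind)] at v2
      have key : ∀ k, k = x ∨ k = x' → G.Inc k v := by
        intro k hk
        have k1 : k ∈ G.star ((Es.erase f).erase s) z ∪ G.star ((Es.erase f).erase s) v := by
          rw [v2]; simp; grind
        rcases mem_union.1 k1 with k2 | k2
        · have := sr_z h (k := k) (by grind) (Gr.mem_star.1 k2).2
          grind
        · exact (Gr.mem_star.1 k2).2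
      obtain ⟨k, k1, k2, k3⟩ := cyc_inc h1 (by simp) h.jf.symm yn.1
      simp only [mem_insert, mem_singleton] at k1
      have k4 : k ≠ s' := by
        rintro rfl
        have := h.js'.inc_iff.1 k3
        grind
      have k5 : k = x ∨ k = x' := by grind
      exact sr_uy h hM hy hk (k := k) (by grind) (joins_of_inc (key k k5) k3 yn.2.1.symm)
    · rw [star_ctr_ne (by grind) (by grind), star_erase, star_erase,
        erase_eq_of_notMem (a := f), erase_eq_of_notMem] at v2
      · have t4 := cocyc_star' (h.simple hN).1.loopless v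
        rw [v2] at t4
        exact absurd (sr_cyc ((gm G Es).dual.sd _ _ h2 t4) (by ext; simp [mem_symmDiff]; grind))
          ((h.simple hN).2.not_pair s s')
      · intro hh
        have := h.js.inc_iff.1 (Gr.mem_star.1 hh).2
        grind
      · intro hh
        have := h.jf.inc_iff.1 (Gr.mem_star.1 hh).2
        grind

theorem sr_exc (h : M.SCfg N G X Es e f s s' z u w y y') (hM : M.Ctx N) (hy : y ≠ y') {x : ℕ}
    (hn : [f, g, s, x].Nodup) (h1 : (gm G Es).cyc {f, s, x})
    (h2 : (gm G Es).dual.cyc {s, x, g}) : M.Gad6 := by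
  simp only [List.nodup_cons, List.mem_cons, List.not_mem_nil, List.nodup_nil] at hn
  have h3 := joins_of_tri (by simp; grind) h1 h.jf h.js (h.yne hM.nok).2.1
  exact h.q hM hy ((gm G Es).sub _ h1 (by simp)) h3.symm (by simp; grind) h2

theorem sr_cu (h : M.SCfg N G X Es e f s s' z u w y y') (hM : M.Ctx N) (hy : y ≠ y')
    (hs : g ≠ s) {d x y0 a b : ℕ} (F : F2 G Es {z, u, w, y'} g u d x y0 a b) : M.Gad6 := by
  have hN := hM.nok
  obtain ⟨m0, m1, m2⟩ := sr_mem F.star
  have n1 := F.ne
  simp only [List.nodup_cons, List.mem_cons, List.not_mem_nil, List.nodup_nil] at n1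
  have c3 : (G.star Es u).card = 3 := F.star ▸ sr_card F.ne
  rcases F.alt with h2 | ⟨x', y'', a', -, -, -, -, -, h2⟩
  · by_cases hx : x = s
    · exact h.qq hM hy c3 m2 (Or.inr (sr_nb h hN m2 (by grind) F.jy h2 ▸ F.jy))
    · exact h.qq hM hy c3 m1 (Or.inr (sr_nb h hN m1 hx F.jx F.aT ▸ F.jx))
  · exact h.qq hM hy c3 m0 (Or.inr (sr_nb h hN m0 hs F.jf (by rw [h2]; simp) ▸ F.jf))

theorem sr_quad (h : M.SCfg N G X Es e f s s' z u w y y') (hN : N.NOK) (hy : y ≠ y')
    (hn : g ≠ s ∧ g ≠ s' ∧ g ≠ f) (hk : (((gm G Es).del {g}).del {f}).DOK N) {x y0 : ℕ}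
    (h1 : G.star Es y' = {g, x, y0}) (n1 : g ≠ x ∧ g ≠ y0) (j1 : G.Joins x y' u)
    (j2 : G.Joins y0 y' w) : False := by
  have nd := h.nd
  have ne := h.ne
  simp only [List.nodup_cons, List.mem_cons, List.not_mem_nil, List.nodup_nil] at nd ne
  obtain ⟨-, m1, m2⟩ := sr_mem h1
  have key : ∀ k v, G.Joins k y' v → k ≠ s ∧ k ≠ s' ∧ k ≠ f := by
    intro k v hj
    refine ⟨?_, ?_, ?_⟩ <;> rintro rfl
    · have := joins_cases hj h.js; grind
    · have := joins_cases hj h.js'; grind
    · have := joins_cases hj h.jf; grind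
  have k1 := key _ _ j1
  have k2 := key _ _ j2
  have k3 : x ≠ y0 := by rintro rfl; have := joins_right j1 j2; grind
  have t1 : (gm G Es).cyc {s, x, y0, s'} :=
    cyc_quad_gm (by simp; grind) h.mem.1 m1 m2 h.mem.2.1 h.js j1.symm j2 h.js'.symm
  have t2 := cocyc_star' (h.simple hN).1.loopless y'
  rw [h1] at t2
  exact hk.not_cyc2 hN (a := s) (b := s') (c := x) (d := y0) (C := {s, x, y0, s'})
    (sr_cyc (cocyc_del_of (cocyc_del_of (h.triad hN) {g}) {f}) (by ext; simp; grind))
    (sr_cyc (cocyc_del_of (cocyc_del_of t2 {g}) {f}) (by ext; simp; grind))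
    (cyc_del_iff.2 ⟨cyc_del_iff.2 ⟨t1, by simp; grind⟩, by simp; grind⟩) (by simp)
    (by intro t; simp; grind)

theorem SCfg.del_other (h : M.SCfg N G X Es e f s s' z u w y y') (hM : M.Ctx N) (hy : y ≠ y')
    (hg : g ∈ Es) (hn : g ≠ s ∧ g ≠ s' ∧ g ≠ f)
    (hk : ((((gm G Es).del {f}).con {s}).del {g}).DOK N) : M.Gad6 := by
  have hN := hM.nok
  have ne := h.ne
  have h7 := h.card hN
  simp only [List.nodup_cons, List.mem_cons, List.not_mem_nil, List.nodup_nil] at ne
  have hP : (((gm G Es).del {g}).del {f}).DOK N := by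
    rw [← del_con _ (by simp; grind), del_del, union_comm, ← del_del] at hk
    exact hk.ser_ext (y := s') (by grind)
      (sr_cyc (cocyc_del_of (cocyc_del_of (h.triad hN) {g}) {f}) (by ext; simp; grind))
  rcases h.conn.ext3 (by rw [gm_E]; omega) h.mem.2.2 hn.2.2.symm hP with
    h1 | ⟨x, x', n1, h1, h2⟩
  · obtain ⟨c, d, x, y0, a, b, F⟩ := hM.toMinC.f2 h.gft h.conn hg h1
    have c1 := F.cT
    simp only [mem_insert, mem_singleton] at c1
    rcases c1 with rfl | rfl | rfl | rfl
    · have := sr_z h hg F.jf.inc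
      grind
    · exact sr_cu h hM hy hn.1 F
    · refine sr_cu h.mirror hM hy hn.2.1 (d := d) (x := x) (y0 := y0) (a := a) (b := b) ?_
      rwa [insert_comm c]
    · obtain ⟨m0, m1, m2⟩ := sr_mem F.star
      have n1 := F.ne
      simp only [List.nodup_cons, List.mem_cons, List.not_mem_nil, List.nodup_nil] at n1
      rcases F.alt with h2 | ⟨x', y'', a', h3, n3, -, -, -, h2⟩
      · exfalso
        have a1 := sr_nb' h hN hy m1 F.jx F.aT
        have a2 := sr_nb' h hN hy m2 F.jy h2
        have a3 : a ≠ b := by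
          rintro rfl
          have := (h.simple hN).1.joins_eq m1 m2 F.jx F.jy
          grind
        rcases a1 with rfl | rfl
        · obtain rfl : b = w := by grind
          exact sr_quad h hN hy hn hP F.star (by grind) F.jx F.jy
        · obtain rfl : b = u := by grind
          exact sr_quad h hN hy hn hP (F.star.trans (by rw [pair_comm])) (by grind) F.jy F.jx
      · rcases sr_nb' h hN hy m0 F.jf (by rw [h2]; simp) with rfl | rfl
        · exact h.qq hM hy (h3 ▸ sr_card n3) m0 (Or.inr F.jf.symm)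
        · exact h.mirror.qq hM hy (h3 ▸ sr_card n3) m0 (Or.inr F.jf.symm)
  · obtain ⟨t, t1, t2, t3⟩ := cyc_other h1 (h.triad hN) (e := f) (by simp) (by simp)
    have n2 := n1
    simp only [List.nodup_cons, List.mem_cons, List.not_mem_nil, List.nodup_nil] at n2
    have n3 : [f, g, x', x].Nodup := by simp; grind
    have h3 : (gm G Es).cyc {f, x', x} := by rwa [pair_comm]
    have h4 : (gm G Es).dual.cyc {x', x, g} := by rwa [insert_comm]
    simp only [mem_insert, mem_singleton] at t1 t2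
    rcases (by grind : x = s ∨ x' = s ∨ x = s' ∨ x' = s') with rfl | rfl | rfl | rfl
    · exact sr_exc h hM hy n1 h1 h2
    · exact sr_exc h hM hy n3 h3 h4
    · exact sr_exc h.mirror hM hy n1 h1 h2
    · exact sr_exc h.mirror hM hy n3 h3 h4

theorem SCfg.gad6 (h : M.SCfg N G X Es e f s s' z u w y y') (hM : M.Ctx N) (hy : y ≠ y')
    (hr : M.Reg) (hm : N.dual.MaxS) (hc : 2 * N.E.card = 3 * (N.r N.E + 1)) (hd : N.Dom) :
    M.Gad6 := by
  have hN := hM.nok
  have hH := h.hdok hN
  have h3 := h.hconn hM hy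
  have c1 := hH.mn.card_le
  have c2 := hN.card
  have r1 : (gm G Es).Reg := h.gft.del_e ▸ hr.del _
  by_cases h0 : (((gm G Es).del {f}).con {s}).dual.r (((gm G Es).del {f}).con {s}).E ≤
      N.dual.r N.E
  · exact h.base hM hy (hm.iso ((r1.del _).con _) (h3.cosimple (by omega)) hH.mn h0) hc hd
  obtain ⟨g, hg, hk⟩ := wdel h3 hN hH.mn (not_le.1 h0)
  simp only [con_E, del_E, gm_E, mem_sdiff, mem_singleton] at hg
  by_cases g1 : g = s'
  · subst g1
    exact h.del_uw hM hy (sr_eq h hN ▸ hk)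
  · exact h.del_other hM hy hg.1.1 ⟨hg.2, g1, hg.1.2⟩ hk

end BM

end Pool.Agent.P.MP_3f5ce9_co
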