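import Pool.Agent.P.MP_3f5ce9_co.W.Minor

/-!
Blocking sequences for a three-separation of a minor of rank six.
-/

open Finset

namespace Pool.Agent.P.MP_3f5ce9_co

namespace BM

variable {M N : BM} {C C' A A' A'' B P P' Q Q' : Finset ℕ}

/-- one half of the connectivity of `(P, Q)` in the minor on `P ∪ Q` -/
noncomputable def sbG (M : BM) (C P Q : Finset ℕ) : ℕ := M.r (P ∪ C \ Q) + (C ∩ Q).card

/-- `(P, Q)` is a three-separation of the minor on `P ∪ Q` -/
def SbLow (M : BM) (C P Q : Finset ℕ) : Prop := sbG M C P Q + sbG M C Q P ≤ 2 * C.card + 8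

/-- the connectivity of `(A, B)` is at least two -/
def SbBase (M : BM) (C A B : Finset ℕ) : Prop := 2 * C.card + 8 ≤ sbG M C A B + sbG M C B A

theorem sbG_mono (hP : P ⊆ P') (hQ : Q ⊆ Q') : sbG M C P Q ≤ sbG M C P' Q' := by
  have h1 : M.r (P ∪ C \ Q) ≤ M.r ((P' ∪ C \ Q') ∪ (C ∩ Q') \ (C ∩ Q)) := M.r_mono fun x hx => by
    have := @hP x
    simp only [mem_union, mem_sdiff, mem_inter] at hx ⊢
    tauto
  have h2 := M.r_union_le_card (P' ∪ C \ Q') ((C ∩ Q') \ (C ∩ Q))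
  have h3 := card_sdiff_add_card_eq_card (inter_subset_inter_left (s := C) hQ)
  unfold sbG
  omega

theorem sbG_sub (M : BM) (C P Q P' Q' : Finset ℕ) :
    sbG M C (P ∪ P') (Q ∩ Q') + sbG M C (P ∩ P') (Q ∪ Q') ≤ sbG M C P Q + sbG M C P' Q' := by
  have h1 := M.r_submod (P ∪ C \ Q) (P' ∪ C \ Q')
  have h2 : M.r (P ∪ P' ∪ C \ (Q ∩ Q')) ≤ M.r ((P ∪ C \ Q) ∪ (P' ∪ C \ Q')) :=
    M.r_mono fun x hx => by
      simp only [mem_union, mem_sdiff, mem_inter] at hx ⊢
      tauto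
  have h3 : M.r (P ∩ P' ∪ C \ (Q ∪ Q')) ≤ M.r ((P ∪ C \ Q) ∩ (P' ∪ C \ Q')) :=
    M.r_mono fun x hx => by
      simp only [mem_union, mem_sdiff, mem_inter] at hx ⊢
      tauto
  have h4 := card_union_add_card_inter (C ∩ Q) (C ∩ Q')
  rw [← inter_union_distrib_left, ← inter_inter_distrib_left] at h4
  unfold sbG
  omega

theorem SbLow.symm (h : M.SbLow C P Q) : M.SbLow C Q P := by
  unfold SbLow at h ⊢
  omega

theorem SbBase.symm (h : M.SbBase C P Q) : M.SbBase C Q P := by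
  unfold SbBase at h ⊢
  omega

theorem SbLow.mono (h : M.SbLow C P' Q') (hP : P ⊆ P') (hQ : Q ⊆ Q') : M.SbLow C P Q :=
  (Nat.add_le_add (sbG_mono hP hQ) (sbG_mono hQ hP)).trans h

theorem SbLow.union (hb : M.SbBase C A B) (h : M.SbLow C P Q) (h' : M.SbLow C P' Q)
    (hP : A ⊆ P) (hP' : A ⊆ P') (hQ : B ⊆ Q) : M.SbLow C (P ∪ P') Q := by
  have h1 := sbG_sub M C P Q P' Q
  have h2 := sbG_sub M C Q P Q P'
  have h3 : sbG M C A B ≤ _ := sbG_mono (subset_inter hP hP') hQ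
  have h4 : sbG M C B A ≤ _ := sbG_mono hQ (subset_inter hP hP')
  rw [inter_self, union_self] at h1 h2
  unfold SbLow SbBase at *
  omega

theorem SbLow.big (hb : M.SbBase C A B) (hQ : B ⊆ Q) (h0 : M.SbLow C A Q) (X : Finset ℕ)
    (h : ∀ x ∈ X, M.SbLow C (insert x A) Q) : M.SbLow C (X ∪ A) Q := by
  induction X using Finset.induction_on with
  | empty => rwa [empty_union]
  | insert x X _ ih =>
    refine (SbLow.union hb (h x (mem_insert_self _ _))
      (ih fun y hy => h y (mem_insert_of_mem hy)) (subset_insert _ _) subset_union_right hQ).mono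
      (fun y hy => ?_) Subset.rfl
    simp only [mem_union, mem_insert] at hy ⊢
    tauto

theorem SbLow.congr (h : M.SbLow C P Q) (hP : A'' ⊆ P) (hC : C \ A'' = C' \ A'')
    (hc : C.card = C'.card) (hd : Disjoint A'' Q) : M.SbLow C' P Q := by
  have k : ∀ x, x ∉ A'' → (x ∈ C ↔ x ∈ C') := fun x hx => by
    simpa [hx] using Finset.ext_iff.1 hC x
  have h1 : P ∪ C' \ Q = P ∪ C \ Q := by
    ext x
    have := k x
    have := @hP x
    simp only [mem_union, mem_sdiff]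
    tauto
  have h2 : C' ∩ Q = C ∩ Q := by
    ext x
    have := k x
    have := @disjoint_left.1 hd x
    simp only [mem_inter]
    tauto
  have h3 : C' \ P = C \ P := by
    ext x
    have := k x
    have := @hP x
    simp only [mem_sdiff]
    tauto
  have h4 := card_sdiff_add_card_inter C P
  have h5 := card_sdiff_add_card_inter C' P
  unfold SbLow sbG at h ⊢
  rw [h1, h2, h3] at *
  omega

/-- the tail of a blocking sequence -/
def SbBlk (M : BM) (C A B : Finset ℕ) : ℕ → ℕ → Prop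
  | 0, v => (v ∈ M.E ∧ v ∉ A ∧ v ∉ B) ∧ ¬ M.SbLow C (insert v A) B
  | k + 1, v => (v ∈ M.E ∧ v ∉ A ∧ v ∉ B) ∧
      ∃ w, ¬ M.SbLow C (insert v A) (insert w B) ∧ SbBlk M C A B k w

theorem SbBlk.mem {k v : ℕ} (h : M.SbBlk C A B k v) : v ∈ M.E ∧ v ∉ A ∧ v ∉ B := by
  cases k <;> exact h.1

theorem sb_induced (hb : M.SbBase C A B) (h0 : M.SbLow C A B) (hA : A ⊆ M.E) (hB : B ⊆ M.E)
    (hC : C ⊆ M.E) (hd : Disjoint A B) (hr : M.r M.E = C.card + 6)
    (h : ∀ k v, M.SbBlk C A B k v → M.SbLow C A (insert v B)) :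
    ∃ X, X ⊆ M.E ∧ A ⊆ X ∧ Disjoint X B ∧ M.lam X ≤ 2 := by
  classical
  let Y := M.E.filter fun w => ∃ k, M.SbBlk C A B k w
  have h1 : ∀ P, A ⊆ P → M.SbLow C P B → (∀ k w, M.SbBlk C A B k w → M.SbLow C P (insert w B)) →
      M.SbLow C P (Y ∪ B) := fun P hP p1 p2 =>
    (SbLow.big hb.symm hP p1.symm Y fun y hy =>
      let ⟨k, hk⟩ := (mem_filter.1 hy).2
      (p2 k y hk).symm).symm
  have h2 := SbLow.big hb subset_union_right (h1 A Subset.rfl h0 h) (M.E \ (Y ∪ B ∪ A))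
    fun x hx => by
      simp only [mem_sdiff, mem_union, not_or] at hx
      refine h1 _ (subset_insert _ _) (by_contra fun hc => hx.2.1.1 (mem_filter.2
        ⟨hx.1, 0, ⟨hx.1, hx.2.2, hx.2.1.2⟩, hc⟩)) fun k w hw => by_contra fun hc =>
          hx.2.1.1 (mem_filter.2 ⟨hx.1, k + 1, ⟨hx.1, hx.2.2, hx.2.1.2⟩, w, hc, hw⟩)
  have h3 : ∀ x, x ∈ Y → x ∈ M.E ∧ x ∉ A := fun x hx =>
    let ⟨k, hk⟩ := (mem_filter.1 hx).2
    ⟨hk.mem.1, hk.mem.2.1⟩
  have h4 : M.E \ (Y ∪ B ∪ A) ∪ A = M.E \ (Y ∪ B) := by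
    ext x
    have := h3 x
    have := @hA x
    have := @disjoint_left.1 hd x
    simp only [mem_union, mem_sdiff]
    tauto
  have h5 : Y ∪ B ⊆ M.E := union_subset (filter_subset _ _) hB
  rw [h4] at h2
  refine ⟨M.E \ (Y ∪ B), sdiff_subset, h4 ▸ subset_union_right,
    disjoint_of_subset_right subset_union_right sdiff_disjoint, ?_⟩
  generalize Y ∪ B = Z at h2 h5
  have h6 := M.lam_add (M.E \ Z)
  have h7 := M.r_mono (subset_union_left (s₁ := M.E \ Z) (s₂ := C \ Z))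
  have h8 := M.r_mono (subset_union_left (s₁ := Z) (s₂ := C \ (M.E \ Z)))
  have h9 := card_sdiff_add_card_inter C Z
  have h10 : C ∩ (M.E \ Z) = C \ Z := by
    ext x
    have := @hC x
    simp only [mem_inter, mem_sdiff]
    tauto
  rw [Finset.sdiff_sdiff_eq_self h5] at h6
  unfold SbLow sbG at h2
  rw [h10] at h2
  omega

theorem sb_transfer (hb : M.SbBase C' A' B) (hA : A ⊆ A'') (hA' : A' ⊆ A'')
    (hC : C \ A'' = C' \ A'') (hc : C.card = C'.card) (hd : Disjoint A'' B)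
    (h0 : M.SbLow C A'' B) (j : ℕ)
    (H : ∀ i < j, ∀ w, M.SbBlk C A B i w → M.SbLow C A'' (insert w B) ∧ w ∉ A'') :
    ∀ w ∉ A'', M.SbBlk C A B j w → M.SbBlk C' A' B j w := by
  have key : ∀ w Q, B ⊆ Q → Disjoint A'' Q → M.SbLow C A'' Q → M.SbLow C' (insert w A') Q →
      M.SbLow C (insert w A) Q := fun w Q q1 q2 q3 q4 =>
    ((SbLow.union hb (q3.congr Subset.rfl hC hc q2) q4 hA' (subset_insert _ _) q1).congr
      subset_union_left hC.symm hc.symm q2).mono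
        (insert_subset (mem_union_right _ (mem_insert_self _ _)) (hA.trans subset_union_left))
        Subset.rfl
  induction j with
  | zero =>
    exact fun w hw h => ⟨⟨h.1.1, fun h1 => hw (hA' h1), h.1.2.2⟩,
      fun h1 => h.2 (key w B Subset.rfl hd h0 h1)⟩
  | succ j ih =>
    rintro w hw ⟨h1, u, h2, h3⟩
    obtain ⟨h4, h5⟩ := H j (Nat.lt_succ_self j) u h3
    exact ⟨⟨h1.1, fun h => hw (hA' h), h1.2.2⟩, u, fun h => h2 (key w _ (subset_insert _ _)
      (disjoint_insert_right.2 ⟨h5, hd⟩) h4 h),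
      ih (fun i hi => H i (hi.trans (Nat.lt_succ_self j))) u h5 h3⟩

theorem MinorAt.sb_g {g : ℕ → ℕ} (h : M.MinorAt N g C) (hi : M.r C = C.card) {c : Finset ℕ}
    (hc : c ⊆ N.E) (hP : P ⊆ N.E) (hQ : Q ⊆ N.E) :
    sbG M (c.image g ∪ C) (P.image g) (Q.image g) = sbG N c P Q + C.card := by
  have k : ∀ x ∈ Q.image g, x ∉ C := fun x hx => by
    obtain ⟨y, hy, rfl⟩ := mem_image.1 hx
    exact (h.maps y (hQ hy)).2
  have h1 : P.image g ∪ (c.image g ∪ C) \ Q.image g = (P ∪ c \ Q).image g ∪ C := by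
    have e : (c \ Q).image g = c.image g \ Q.image g := by
      ext x
      simp only [mem_image, mem_sdiff]
      exact ⟨fun ⟨y, y1, y2⟩ => ⟨⟨y, y1.1, y2⟩, fun ⟨z, z1, z2⟩ =>
        y1.2 (h.inj (hQ z1) (hc y1.1) (z2.trans y2.symm) ▸ z1)⟩,
        fun ⟨⟨y, y1, y2⟩, y3⟩ => ⟨y, ⟨y1, fun y4 => y3 ⟨y, y4, y2⟩⟩, y2⟩⟩
    rw [image_union, e]
    ext x
    have := k x
    simp only [mem_union, mem_sdiff]
    tauto
  have h2 : (c.image g ∪ C) ∩ Q.image g = (c ∩ Q).image g := by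
    rw [image_inter_of_injOn _ _ (h.inj.mono (by
      rw [← coe_union]; exact coe_subset.2 (union_subset hc hQ)))]
    ext x
    have := k x
    simp only [mem_union, mem_inter]
    tauto
  have h3 := h.rk (P ∪ c \ Q) (union_subset hP (sdiff_subset.trans hc))
  unfold sbG
  rw [h1, h2, card_image_of_injOn (h.inj.mono (coe_subset.2 (inter_subset_left.trans hc)))]
  omega

theorem MinorAt.sb_card {g : ℕ → ℕ} (h : M.MinorAt N g C) {c : Finset ℕ} (hc : c ⊆ N.E) :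
    (c.image g ∪ C).card = c.card + C.card := by
  rw [card_union_of_disjoint, card_image_of_injOn (h.inj.mono (coe_subset.2 hc))]
  refine disjoint_left.2 fun x hx => ?_
  obtain ⟨y, hy, rfl⟩ := mem_image.1 hx
  exact (h.maps y (hc hy)).2

theorem MinorAt.sb_low {g : ℕ → ℕ} (h : M.MinorAt N g C) (hi : M.r C = C.card) {c : Finset ℕ}
    (hc : c ⊆ N.E) (hP : P ⊆ N.E) (hQ : Q ⊆ N.E) :
    M.SbLow (c.image g ∪ C) (P.image g) (Q.image g) ↔ N.SbLow c P Q := by
  unfold SbLow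
  rw [h.sb_g hi hc hP hQ, h.sb_g hi hc hQ hP, h.sb_card hc]
  omega

end BM

end Pool.Agent.P.MP_3f5ce9_co
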