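import Pool.Agent.P.MP_3f5ce9_co.W.SbA
import Pool.Agent.P.MP_3f5ce9_co.W.Bits

/-!
Standard representations of minors, built one element at a time.
-/

open Finset

namespace Pool.Agent.P.MP_3f5ce9_co

/-- the numbers whose binary digits lie in the listed places -/
def sbSubs : List ℕ → List ℕ
  | [] => [0]
  | j :: L => sbSubs L ++ (sbSubs L).map (· ||| 2 ^ j)

/-- a new row `t` and a new unit column `p` -/
def sbCo (p : ℕ) : List ℕ → ℕ → List ℕ
  | [], _ => [p]
  | x :: l, t => (if t % 2 = 1 then x ||| p else x) :: sbCo p l (t / 2)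

/-- coextension or extension -/
def sbExt (l : List ℕ) (b : Bool) (t : ℕ) : List ℕ :=
  if b then sbCo (2 ^ l.length) l t else l ++ [t]

/-- the possible new rows or columns -/
def sbOpt (n β : ℕ) (b : Bool) : List ℕ := sbSubs ((List.range n).filter fun j => β.testBit j != b)

/-- the new mask of contracted positions -/
def sbC (c n : ℕ) (b : Bool) : ℕ := if b then c ||| 2 ^ n else c

theorem sb_mem_subs (L : List ℕ) : ∀ t : ℕ, (∀ i, t.testBit i = true → i ∈ L) → t ∈ sbSubs L := by
  induction L with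
  | nil =>
    exact fun t h => List.mem_singleton.2 (Nat.eq_of_testBit_eq fun i => by
      rw [Nat.zero_testBit]
      exact Bool.eq_false_iff.2 fun h1 => List.not_mem_nil (h i h1))
  | cons j L ih =>
    intro t h
    rw [sbSubs, List.mem_append, List.mem_map]
    cases hj : t.testBit j
    · exact Or.inl (ih t fun i hi => (List.mem_cons.1 (h i hi)).resolve_left fun e => by
        simp [e, hj] at hi)
    · refine Or.inr ⟨t ^^^ 2 ^ j, ih _ fun i hi => ?_, Nat.eq_of_testBit_eq fun i => ?_⟩
      · rw [Nat.testBit_xor, Nat.testBit_two_pow] at hi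
        by_cases e : j = i
        · simp [← e, hj] at hi
        · exact (List.mem_cons.1 (h i (by simpa [e] using hi))).resolve_left (Ne.symm e)
      · rw [Nat.testBit_or, Nat.testBit_xor, Nat.testBit_two_pow]
        by_cases e : j = i
        · simp [← e, hj]
        · simp [e]

theorem sbCo_len (p : ℕ) (l : List ℕ) : ∀ t, (sbCo p l t).length = l.length + 1 := by
  induction l with
  | nil => exact fun _ => rfl
  | cons x l ih => exact fun t => congrArg (· + 1) (ih _)

theorem sbCo_last (p : ℕ) (l : List ℕ) : ∀ t, (sbCo p l t).getD l.length 0 = p := by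
  induction l with
  | nil => exact fun _ => rfl
  | cons x l ih => exact fun t => ih _

theorem sbCo_get (p : ℕ) (l : List ℕ) : ∀ t, ∀ i < l.length, (sbCo p l t).getD i 0 =
    if t.testBit i = true then l.getD i 0 ||| p else l.getD i 0 := by
  induction l with
  | nil => exact fun _ i hi => absurd hi (Nat.not_lt_zero i)
  | cons x l ih =>
    intro t i hi
    cases i with
    | zero => simp [sbCo, Nat.testBit_zero]
    | succ i =>
      rw [sbCo, List.getD_cons_succ, List.getD_cons_succ, Nat.testBit_add_one]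
      exact ih _ i (Nat.lt_of_succ_lt_succ hi)

theorem sbExt_len (l : List ℕ) (b : Bool) (t : ℕ) : (sbExt l b t).length = l.length + 1 := by
  cases b
  · exact List.length_append
  · exact sbCo_len _ _ _

theorem sb_succ {n m : ℕ} (h : m < 2 ^ n) : mset (n + 1) m = mset n m := by
  ext i
  rw [mem_mset, mem_mset]
  exact and_congr_left fun h1 => ⟨fun _ => by_contra fun h2 =>
    Bool.false_ne_true ((bt_hi h h2).symm.trans h1), Nat.lt_succ_of_lt⟩

theorem sb_ins {n i : ℕ} (m : ℕ) (h : i < n) : mset n (m ||| 2 ^ i) = insert i (mset n m) := by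
  rw [mset_union, mset_pow h, union_comm, insert_eq]

theorem sb_upd (g : ℕ → ℕ) (v : ℕ) {n : ℕ} {S : Finset ℕ} (h : S ⊆ range n) :
    S.image (Function.update g n v) = S.image g :=
  image_congr fun _ hx => Function.update_of_ne (mem_range.1 (h hx)).ne _ _

namespace BM

variable {M : BM} {g : ℕ → ℕ} {C : Finset ℕ} {β v : ℕ} {l : List ℕ}

/-- `l` is the standard representation of the minor given by `g` and `C` -/
structure SbStd (M : BM) (g : ℕ → ℕ) (C : Finset ℕ) (β : ℕ) (l : List ℕ) : Prop where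
  len : l.length ≤ 16
  lt : β < 2 ^ l.length
  inj : Set.InjOn g (range l.length)
  maps : ∀ i < l.length, g i ∈ M.E ∧ g i ∉ C
  base : M.IsBase ((mset l.length β).image g ∪ C)
  unit : ∀ j < l.length, β.testBit j = true → l.getD j 0 = 2 ^ j
  fund : ∀ i < l.length, β.testBit i = false →
    (∀ j, (l.getD i 0).testBit j = true → β.testBit j = true) ∧
      ∃ Z, M.cyc Z ∧ Z \ C = (insert i (mset l.length (l.getD i 0))).image g

theorem SbStd.small (h : M.SbStd g C β l) {i : ℕ} (hi : i < l.length) :
    l.getD i 0 < 2 ^ l.length := by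
  cases hb : β.testBit i
  · exact Nat.lt_pow_two_of_testBit _ fun j hj => Bool.eq_false_iff.2 fun h1 =>
      Bool.false_ne_true ((bt_hi h.lt (not_lt.2 hj)).symm.trans ((h.fund i hi hb).1 j h1))
  · rw [h.unit i hi hb]
    exact Nat.pow_lt_pow_right one_lt_two hi

theorem SbStd.bits (h : M.SbStd g C β l) : ∀ x ∈ l, x < 2 ^ 16 := fun x hx => by
  obtain ⟨i, hi, rfl⟩ := List.mem_iff_getElem.1 hx
  rw [← List.getD_eq_getElem _ 0 hi]
  exact (h.small hi).trans_le (Nat.pow_le_pow_right two_pos h.len)

theorem SbStd.ind (h : M.SbStd g C β l) : M.Indep C := h.base.1.subset subset_union_right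

theorem SbStd.minor (h : M.SbStd g C β l) : M.MinorAt (ofBits l) g C := by
  have hm : ∀ x ∈ range l.length, g x ∈ M.E \ C := fun x hx =>
    mem_sdiff.2 (h.maps x (mem_range.1 hx))
  have h1 : (M.con C).IsBase ((mset l.length β).image g) :=
    (isBase_con h.ind Subset.rfl h.ind.r_eq.symm).2 ⟨disjoint_left.2 fun x hx => by
      obtain ⟨y, hy, rfl⟩ := mem_image.1 hx
      exact (h.maps y (mem_mset.1 hy).1).2, h.base⟩
  have h2 : ((M.con C).pull g (range l.length)).IsBase (mset l.length β) :=
    (isBase_pull hm (le_antisymm (r_le_rE _ _) (h1.r_eq.ge.trans (r_mono _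
      (image_subset_image (mset_subset _ _)))))).2
      ⟨mset_subset _ _, h.inj.mono (coe_subset.2 (mset_subset _ _)), h1⟩
  have h3 : ∀ S ⊆ mset l.length β, oddSum (fun i => mset 16 (l.getD i 0)) S = S := fun S hS => by
    rw [lin_cg (ψ := fun x => {id x}) fun x hx => ?_, mn_inj (Set.injOn_id _), image_id]
    obtain ⟨a1, a2⟩ := mem_mset.1 (hS hx)
    rw [h.unit x a1 a2, mset_pow (a1.trans_le h.len), id]
  have h4 : (ofBits l).Indep (mset l.length β) :=
    ⟨mset_subset _ _, fun Z hZ hS => (h3 Z hS).symm.trans hZ.2⟩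
  have h5 : (M.con C).pull g (range l.length) = ofBits l := by
    refine bt_eq rfl (fun D hD => ?_) (h2.2.ge.trans (h4.card_le_r h4.1))
    have k : ∀ e ∈ D \ mset l.length β, e < l.length ∧ β.testBit e = false := fun e he => by
      have a1 := mem_range.1 (hD.1 (mem_sdiff.1 he).1)
      exact ⟨a1, Bool.eq_false_iff.2 fun a2 => (mem_sdiff.1 he).2 (mem_mset.2 ⟨a1, a2⟩)⟩
    have k2 : ∀ e ∈ D \ mset l.length β, mset l.length (l.getD e 0) ⊆ mset l.length β :=
      fun e he j hj => mem_mset.2 ⟨(mem_mset.1 hj).1,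
        (h.fund e (k e he).1 (k e he).2).1 j (mem_mset.1 hj).2⟩
    have k3 : ∀ e ∈ D \ mset l.length β,
        insert e (mset l.length (l.getD e 0)) ⊆ range l.length := fun e he =>
      insert_subset (mem_range.2 (k e he).1) (mset_subset _ _)
    rw [h2.cyc_eq hD (fun e => insert e (mset l.length (l.getD e 0))) fun e he =>
      ⟨(cyc_pull_inj h.inj).2 ⟨k3 e he, let ⟨Z, z1, z2⟩ := (h.fund e (k e he).1 (k e he).2).2
        ⟨Z, z1, z2.symm⟩⟩, mem_insert_self _ _, insert_subset_insert _ (k2 e he)⟩]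
    refine cyc_oddSum _ _ fun e he => ⟨k3 e he, ?_⟩
    change oddSum (fun i => mset 16 (l.getD i 0)) _ = ∅
    rw [lin_ins _ fun a => (mem_sdiff.1 he).2 (k2 e he a), h3 _ (k2 e he), symmDiff_eq_empty]
    ext j
    rw [mem_mset, mem_mset]
    exact and_congr_left fun a => ⟨fun _ => by_contra fun a2 => Bool.false_ne_true
      ((bt_hi (h.small (k e he).1) a2).symm.trans a), fun a2 => a2.trans_le h.len⟩
  rw [← h5]
  exact minorAt_pull h.ind.1 h.inj hm

theorem SbStd.inj' (h : M.SbStd g C β l) (hg : ∀ i < l.length, g i ≠ v) :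
    Set.InjOn (Function.update g l.length v) (range (l.length + 1)) := by
  intro a ha b hb e
  rw [mem_coe, mem_range, Nat.lt_succ_iff_lt_or_eq] at ha hb
  rcases ha with ha | rfl <;> rcases hb with hb | rfl
  · rw [Function.update_of_ne ha.ne, Function.update_of_ne hb.ne] at e
    exact h.inj (mem_coe.2 (mem_range.2 ha)) (mem_coe.2 (mem_range.2 hb)) e
  · rw [Function.update_of_ne ha.ne, Function.update_self] at e
    exact absurd e (hg a ha)
  · rw [Function.update_of_ne hb.ne, Function.update_self] at e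
    exact absurd e.symm (hg b hb)
  · rfl

theorem SbStd.extD (h : M.SbStd g C β l) (hn : l.length < 16) (hv : v ∈ M.E) (hC : v ∉ C)
    (hg : ∀ i < l.length, g i ≠ v) : ∃ t ∈ sbOpt l.length β false,
      M.SbStd (Function.update g l.length v) C β (sbExt l false t) := by
  obtain ⟨Z, z1, z2, z3⟩ := h.base.exists_cyc hv fun a => (mem_union.1 a).elim (fun a => by
    obtain ⟨y, hy, e⟩ := mem_image.1 a
    exact hg y (mem_mset.1 hy).1 e) hC
  obtain ⟨t, t1, t2⟩ := exists_mset (X := (mset l.length β).filter fun j => g j ∈ Z)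
    ((filter_subset _ _).trans (mset_subset _ _))
  have t3 : ∀ j, t.testBit j = true → j < l.length ∧ β.testBit j = true := fun j hj =>
    mem_mset.1 (mem_filter.1 (t2 ▸ mem_mset.2 ⟨by_contra fun a =>
      Bool.false_ne_true ((bt_hi t1 a).symm.trans hj), hj⟩ : j ∈ filter _ _)).1
  have e1 : ∀ i < l.length, (sbExt l false t).getD i 0 = l.getD i 0 := fun i hi =>
    List.getD_append _ _ _ _ hi
  have e2 : (sbExt l false t).getD l.length 0 = t := by
    simp [sbExt]
  refine ⟨t, sb_mem_subs _ _ fun j hj => by simpa using t3 j hj, ?_⟩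
  refine ⟨?_, ?_, ?_, ?_, ?_, ?_, ?_⟩ <;> rw [sbExt_len]
  · exact hn
  · exact h.lt.trans (Nat.pow_lt_pow_right one_lt_two (Nat.lt_succ_self _))
  · exact h.inj' hg
  · intro i hi
    rcases Nat.lt_succ_iff_lt_or_eq.1 hi with hi | rfl
    · rw [Function.update_of_ne hi.ne]
      exact h.maps i hi
    · rw [Function.update_self]
      exact ⟨hv, hC⟩
  · rw [sb_succ h.lt, sb_upd _ _ (mset_subset _ _)]
    exact h.base
  · intro j _ hj
    have a : j < l.length := by_contra fun a => Bool.false_ne_true ((bt_hi h.lt a).symm.trans hj)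
    rw [e1 j a, h.unit j a hj]
  · intro i hi hb
    rcases Nat.lt_succ_iff_lt_or_eq.1 hi with hi | rfl
    · rw [e1 i hi, sb_succ (h.small hi),
        sb_upd _ _ (insert_subset (mem_range.2 hi) (mset_subset _ _))]
      exact h.fund i hi hb
    · rw [e2, sb_succ t1, image_insert, Function.update_self, sb_upd _ _ (mset_subset _ _), ← t2]
      refine ⟨fun j hj => (t3 j hj).2, Z, z1, ?_⟩
      ext x
      simp only [mem_sdiff, mem_insert, mem_image, mem_filter]
      refine ⟨fun a => (mem_insert.1 (z3 a.1)).imp_right fun b => ?_, ?_⟩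
      · obtain ⟨y, hy, rfl⟩ := mem_image.1 ((mem_union.1 b).resolve_right a.2)
        exact ⟨y, ⟨hy, a.1⟩, rfl⟩
      · rintro (rfl | ⟨y, hy, rfl⟩)
        · exact ⟨z2, hC⟩
        · exact ⟨hy.2, (h.maps y (mem_mset.1 hy.1).1).2⟩

theorem SbStd.extC (h : M.SbStd g C β l) (hn : l.length < 16) (hC : v ∈ C) :
    ∃ t ∈ sbOpt l.length β true, M.SbStd (Function.update g l.length v) (C.erase v)
      (β ||| 2 ^ l.length) (sbExt l true t) := by
  choose! Z z1 z2 using fun i hi hb => (h.fund i hi hb).2
  have hg : ∀ i < l.length, g i ≠ v := fun i hi e => (h.maps i hi).2 (e ▸ hC)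
  obtain ⟨t, t1, t2⟩ := exists_mset
    (X := (range l.length).filter fun j => β.testBit j = false ∧ v ∈ Z j) (filter_subset _ _)
  have t3 : ∀ j < l.length, t.testBit j = true ↔ β.testBit j = false ∧ v ∈ Z j := fun j hj => by
    simpa [mem_mset, hj] using (Finset.ext_iff.1 t2 j).symm
  have e1 := sbCo_get (2 ^ l.length) l t
  have e2 := sbCo_last (2 ^ l.length) l t
  have e3 : sbExt l true t = sbCo (2 ^ l.length) l t := rfl
  have e4 : ∀ j < l.length, (β ||| 2 ^ l.length).testBit j = β.testBit j := fun j hj => by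
    simp [hj.ne']
  refine ⟨t, sb_mem_subs _ _ fun j hj => ?_, ?_⟩
  · have a : j < l.length := by_contra fun a => Bool.false_ne_true ((bt_hi t1 a).symm.trans hj)
    simpa [a] using ((t3 j a).1 hj).1
  refine ⟨?_, ?_, ?_, ?_, ?_, ?_, ?_⟩ <;> rw [sbExt_len]
  · exact hn
  · exact Nat.or_lt_two_pow (h.lt.trans (Nat.pow_lt_pow_right one_lt_two (Nat.lt_succ_self _)))
      (Nat.pow_lt_pow_right one_lt_two (Nat.lt_succ_self _))
  · exact h.inj' hg
  · intro i hi
    rcases Nat.lt_succ_iff_lt_or_eq.1 hi with hi | rfl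
    · rw [Function.update_of_ne hi.ne]
      exact ⟨(h.maps i hi).1, fun a => (h.maps i hi).2 (mem_of_mem_erase a)⟩
    · rw [Function.update_self]
      exact ⟨h.ind.1 hC, notMem_erase _ _⟩
  · rw [sb_ins _ (Nat.lt_succ_self _), sb_succ h.lt, image_insert, Function.update_self,
      sb_upd _ _ (mset_subset _ _), insert_union, ← union_insert, insert_erase hC]
    exact h.base
  · intro j hj hb
    rw [e3]
    rcases Nat.lt_succ_iff_lt_or_eq.1 hj with hj | rfl
    · rw [e4 j hj] at hb
      rw [e1 j hj, if_neg fun a => Bool.false_ne_true (((t3 j hj).1 a).1.symm.trans hb),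
        h.unit j hj hb]
    · exact e2
  · intro i hi hb
    have a : i < l.length := (Nat.lt_succ_iff_lt_or_eq.1 hi).resolve_right fun e => by
      simp [e] at hb
    rw [e4 i a] at hb
    have b := (h.fund i a hb).1
    have c := insert_subset (mem_range.2 a) (mset_subset l.length (l.getD i 0))
    rw [e3, e1 i a]
    split_ifs with ht
    · refine ⟨fun j hj => ?_, Z i, z1 i a hb, ?_⟩
      · rw [Nat.testBit_or, Bool.or_eq_true] at hj ⊢
        exact hj.imp_left (b j)
      · rw [sb_ins _ (Nat.lt_succ_self _), sb_succ (h.small a), insert_comm, image_insert,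
          Function.update_self, sb_upd _ _ c, ← z2 i a hb, sdiff_erase ((t3 i a).1 ht).2]
    · refine ⟨fun j hj => ?_, Z i, z1 i a hb, ?_⟩
      · rw [Nat.testBit_or, b j hj, Bool.true_or]
      · rw [sb_succ (h.small a), sb_upd _ _ c, ← z2 i a hb]
        ext x
        have : x ∈ Z i → x ≠ v := fun p q => ht ((t3 i a).2 ⟨hb, q ▸ p⟩)
        simp only [mem_sdiff, mem_erase]
        tauto

end BM

end Pool.Agent.P.MP_3f5ce9_co
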