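import Pool.Agent.P.MP_3f5ce9_co.W.SbA

/-!
Blocking sequences with an arbitrary threshold, and minors on supersets of a given minor.
-/

open Finset

namespace Pool.Agent.P.MP_3f5ce9_co

namespace BM

variable {M N : BM} {C C' A A' A'' B P P' Q Q' X Y Z : Finset ℕ} {t v w x y : ℕ} {f : ℕ → ℕ}

/-- the connectivity of `(P, Q)` in the minor on `P ∪ Q`, up to a constant -/
noncomputable def scMu (M : BM) (C P Q : Finset ℕ) : ℕ := sbG M C P Q + sbG M C Q P

theorem scMu_comm (M : BM) (C P Q : Finset ℕ) : scMu M C P Q = scMu M C Q P := add_comm _ _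

theorem scMu_mono (hP : P ⊆ P') (hQ : Q ⊆ Q') : scMu M C P Q ≤ scMu M C P' Q' :=
  Nat.add_le_add (sbG_mono hP hQ) (sbG_mono hQ hP)

/-- submodularity and monotonicity combined -/
theorem scMu_sub {P₁ Q₁ P₂ Q₂ : Finset ℕ} (h1 : P₁ ⊆ P ∪ P') (h2 : Q₁ ⊆ Q ∩ Q')
    (h3 : P₂ ⊆ P ∩ P') (h4 : Q₂ ⊆ Q ∪ Q') :
    scMu M C P₁ Q₁ + scMu M C P₂ Q₂ ≤ scMu M C P Q + scMu M C P' Q' := by
  have a1 := sbG_sub M C P Q P' Q'
  have a2 := sbG_sub M C Q P Q' P'
  have a3 : scMu M C P₁ Q₁ ≤ _ := scMu_mono h1 h2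
  have a4 : scMu M C P₂ Q₂ ≤ _ := scMu_mono h3 h4
  unfold scMu at *
  omega

theorem scMu_congr (hP : A'' ⊆ P) (hC : C \ A'' = C' \ A'') (hc : C.card = C'.card)
    (hd : Disjoint A'' Q) : scMu M C P Q = scMu M C' P Q := by
  have k : ∀ x, x ∉ A'' → (x ∈ C ↔ x ∈ C') := fun x hx => by
    simpa [hx] using Finset.ext_iff.1 hC x
  have h1 : P ∪ C' \ Q = P ∪ C \ Q := by
    ext x
    have := k x
    have := @hP x
    simp only [mem_union, mem_sdiff]
    tauto
  have h2 : C' ∩ Q = C ∩ Q := by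
    ext x
    have := k x
    have := @disjoint_left.1 hd x
    simp only [mem_inter]
    tauto
  have h3 : C' \ P = C \ P := by
    ext x
    have := k x
    have := @hP x
    simp only [mem_sdiff]
    tauto
  have h4 := card_sdiff_add_card_inter C P
  have h5 := card_sdiff_add_card_inter C' P
  unfold scMu sbG
  rw [h1, h2, h3] at *
  omega

theorem scMu_ins (hC : y ∉ C) (hP : y ∈ P) (hQ : y ∉ Q) :
    scMu M (insert y C) P Q = scMu M C P Q + 1 := by
  unfold scMu sbG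
  rw [insert_sdiff_of_notMem _ hQ, union_insert, insert_eq_of_mem (mem_union_left _ hP),
    insert_inter_of_notMem hQ, insert_sdiff_of_mem _ hP, insert_inter_of_mem hP,
    card_insert_of_notMem fun h => hC (mem_inter.1 h).1]
  omega

theorem scMu_dis (hP : Disjoint C P) (hQ : Disjoint C Q) :
    scMu M C P Q = M.r (P ∪ C) + M.r (Q ∪ C) := by
  unfold scMu sbG
  rw [sdiff_eq_self_of_disjoint hP, sdiff_eq_self_of_disjoint hQ, disjoint_iff_inter_eq_empty.1 hP,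
    disjoint_iff_inter_eq_empty.1 hQ]
  rfl

theorem sc_union (hb : t ≤ scMu M C A B) (h : scMu M C P Q ≤ t) (h' : scMu M C P' Q ≤ t)
    (hP : A ⊆ P) (hP' : A ⊆ P') (hQ : B ⊆ Q) : scMu M C (P ∪ P') Q ≤ t := by
  have : scMu M C (P ∪ P') Q + scMu M C A B ≤ scMu M C P Q + scMu M C P' Q :=
    scMu_sub Subset.rfl (inter_self Q).ge (subset_inter hP hP') (hQ.trans subset_union_left)
  omega

theorem sc_big (hb : t ≤ scMu M C A B) (hQ : B ⊆ Q) (h0 : scMu M C A Q ≤ t) (X : Finset ℕ)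
    (h : ∀ x ∈ X, scMu M C (insert x A) Q ≤ t) : scMu M C (X ∪ A) Q ≤ t := by
  induction X using Finset.induction_on with
  | empty => rwa [empty_union]
  | insert x X _ ih =>
    refine (scMu_mono (fun y hy => ?_) Subset.rfl).trans (sc_union hb (h x (mem_insert_self _ _))
      (ih fun y hy => h y (mem_insert_of_mem hy)) (subset_insert _ _) subset_union_right hQ)
    simp only [mem_union, mem_insert] at hy ⊢
    tauto

theorem sc_part (hC : C ⊆ M.E) (hZ : Z ⊆ M.E) :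
    M.lam (M.E \ Z) + M.r M.E + C.card ≤ scMu M C (M.E \ Z) Z := by
  have h6 := M.lam_add (M.E \ Z)
  have h7 := M.r_mono (subset_union_left (s₁ := M.E \ Z) (s₂ := C \ Z))
  have h8 := M.r_mono (subset_union_left (s₁ := Z) (s₂ := C \ (M.E \ Z)))
  have h9 := card_sdiff_add_card_inter C Z
  have h10 : C ∩ (M.E \ Z) = C \ Z := by
    ext x
    have := @hC x
    simp only [mem_inter, mem_sdiff]
    tauto
  rw [Finset.sdiff_sdiff_eq_self hZ] at h6
  unfold scMu sbG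
  rw [h10]
  omega

/-- the tail of a blocking sequence -/
def ScBlk (M : BM) (t : ℕ) (C A B : Finset ℕ) : ℕ → ℕ → Prop
  | 0, v => (v ∈ M.E ∧ v ∉ A ∧ v ∉ B) ∧ ¬ scMu M C (insert v A) B ≤ t
  | k + 1, v => (v ∈ M.E ∧ v ∉ A ∧ v ∉ B) ∧
      ∃ w, ¬ scMu M C (insert v A) (insert w B) ≤ t ∧ ScBlk M t C A B k w

theorem ScBlk.mem {k : ℕ} (h : M.ScBlk t C A B k v) : v ∈ M.E ∧ v ∉ A ∧ v ∉ B := by
  cases k <;> exact h.1

theorem sc_induced (hb : t ≤ scMu M C A B) (h0 : scMu M C A B ≤ t) (hA : A ⊆ M.E) (hB : B ⊆ M.E)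
    (hC : C ⊆ M.E) (hd : Disjoint A B)
    (h : ∀ k v, M.ScBlk t C A B k v → scMu M C A (insert v B) ≤ t) :
    ∃ Z, Z ⊆ M.E ∧ A ⊆ M.E \ Z ∧ B ⊆ Z ∧ M.lam (M.E \ Z) + M.r M.E + C.card ≤ t := by
  classical
  let Y := M.E.filter fun w => ∃ k, M.ScBlk t C A B k w
  have h1 : ∀ P, A ⊆ P → scMu M C P B ≤ t →
      (∀ k w, M.ScBlk t C A B k w → scMu M C P (insert w B) ≤ t) → scMu M C P (Y ∪ B) ≤ t :=
    fun P hP p1 p2 => scMu_comm M C _ _ ▸ sc_big (scMu_comm M C _ _ ▸ hb) hP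
      (scMu_comm M C _ _ ▸ p1) Y fun y hy =>
        let ⟨k, hk⟩ := (mem_filter.1 hy).2
        scMu_comm M C _ _ ▸ p2 k y hk
  have h2 := sc_big hb subset_union_right (h1 A Subset.rfl h0 h) (M.E \ (Y ∪ B ∪ A))
    fun x hx => by
      simp only [mem_sdiff, mem_union, not_or] at hx
      refine h1 _ (subset_insert _ _) (by_contra fun hc => hx.2.1.1 (mem_filter.2
        ⟨hx.1, 0, ⟨hx.1, hx.2.2, hx.2.1.2⟩, hc⟩)) fun k w hw => by_contra fun hc =>
          hx.2.1.1 (mem_filter.2 ⟨hx.1, k + 1, ⟨hx.1, hx.2.2, hx.2.1.2⟩, w, hc, hw⟩)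
  have h3 : ∀ x, x ∈ Y → x ∈ M.E ∧ x ∉ A := fun x hx =>
    let ⟨k, hk⟩ := (mem_filter.1 hx).2
    ⟨hk.mem.1, hk.mem.2.1⟩
  have h4 : M.E \ (Y ∪ B ∪ A) ∪ A = M.E \ (Y ∪ B) := by
    ext x
    have := h3 x
    have := @hA x
    have := @disjoint_left.1 hd x
    simp only [mem_union, mem_sdiff]
    tauto
  have h5 : Y ∪ B ⊆ M.E := union_subset (filter_subset _ _) hB
  exact ⟨Y ∪ B, h5, h4 ▸ subset_union_right, subset_union_right,
    (sc_part hC h5).trans (h4 ▸ h2)⟩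

theorem sc_transfer (hb : t ≤ scMu M C' A' B) (hA : A ⊆ A'') (hA' : A' ⊆ A'')
    (hC : C \ A'' = C' \ A'') (hc : C.card = C'.card) (hd : Disjoint A'' B)
    (h0 : scMu M C A'' B ≤ t) (j : ℕ)
    (H : ∀ i < j, ∀ w, M.ScBlk t C A B i w → scMu M C A'' (insert w B) ≤ t ∧ w ∉ A'') :
    ∀ w ∉ A'', M.ScBlk t C A B j w → M.ScBlk t C' A' B j w := by
  have key : ∀ w Q, B ⊆ Q → Disjoint A'' Q → scMu M C A'' Q ≤ t →
      scMu M C' (insert w A') Q ≤ t → scMu M C (insert w A) Q ≤ t := fun w Q q1 q2 q3 q4 =>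
    (scMu_mono (insert_subset (mem_union_right _ (mem_insert_self _ _))
      (hA.trans subset_union_left)) Subset.rfl).trans
      ((scMu_congr subset_union_left hC hc q2).trans_le
        (sc_union hb ((scMu_congr Subset.rfl hC hc q2).ge.trans q3) q4 hA' (subset_insert _ _) q1))
  induction j with
  | zero =>
    exact fun w hw h => ⟨⟨h.1.1, fun h1 => hw (hA' h1), h.1.2.2⟩,
      fun h1 => h.2 (key w B Subset.rfl hd h0 h1)⟩
  | succ j ih =>
    rintro w hw ⟨h1, u, h2, h3⟩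
    obtain ⟨h4, h5⟩ := H j (Nat.lt_succ_self j) u h3
    exact ⟨⟨h1.1, fun h => hw (hA' h), h1.2.2⟩, u, fun h => h2 (key w _ (subset_insert _ _)
      (disjoint_insert_right.2 ⟨h5, hd⟩) h4 h),
      ih (fun i hi => H i (hi.trans (Nat.lt_succ_self j))) u h5 h3⟩

/-- a minor with an independent set of contracted elements, of the right rank -/
structure ScSt (M N : BM) (f : ℕ → ℕ) (C : Finset ℕ) : Prop where
  mn : M.MinorAt N f C
  ind : M.r C = C.card
  rk : M.r M.E = C.card + N.r N.E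

theorem HasMinor.sc_st (h : M.HasMinor N) : ∃ f C, M.ScSt N f C := by
  obtain ⟨f, C0, h0⟩ := h
  obtain ⟨C, h1, h2, h4⟩ := h0.exists_indep
  exact ⟨f, C, h1, h2.r_eq, by rw [← h4, ← h1.rk _ Subset.rfl, h2.r_eq, add_comm]⟩

theorem ScSt.sub (h : M.ScSt N f C) : N.E.image f ⊆ M.E := h.mn.mn_img.trans sdiff_subset

theorem ScSt.dis (h : M.ScSt N f C) (hZ : Z ⊆ N.E.image f) : Disjoint C Z :=
  disjoint_right.2 fun _ hx => (mem_sdiff.1 (h.mn.mn_img (hZ hx))).2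

theorem ScSt.card (h : M.ScSt N f C) : (N.E.image f).card = N.E.card :=
  card_image_of_injOn h.mn.inj

theorem ScSt.pre (h : M.ScSt N f C) (hZ : Z ⊆ N.E.image f) : ∃ X ⊆ N.E, X.card = Z.card ∧
    M.r (Z ∪ C) = N.r X + C.card ∧ M.r (N.E.image f \ Z ∪ C) = N.r (N.E \ X) + C.card := by
  obtain ⟨X, h1, rfl⟩ := subset_image_iff.1 hZ
  refine ⟨X, h1, (card_image_of_injOn (h.mn.inj.mono (coe_subset.2 h1))).symm, ?_, ?_⟩
  · rw [← h.mn.rk X h1, h.ind]
  · rw [← image_sdiff_of_injOn h.mn.inj h1, ← h.mn.rk _ sdiff_subset, h.ind]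

theorem ScSt.small (h : M.ScSt N f C) (h3 : N.Conn3) (h4 : 4 ≤ N.E.card) (hZ : Z ⊆ N.E.image f)
    (hc : Z.card ≤ 2) :
    M.r (Z ∪ C) = Z.card + C.card ∧ M.r (N.E.image f \ Z ∪ C) = M.r M.E := by
  obtain ⟨X, h1, h2, a1, a2⟩ := h.pre hZ
  rw [a1, a2, (h3.simple h4 X h1 (h2 ▸ hc)).r_eq, h2,
    (indep_dual.1 (h3.dual.simple h4 X h1 (h2 ▸ hc))).2, h.rk, add_comm C.card]
  exact ⟨rfl, rfl⟩

theorem ScSt.conn (h : M.ScSt N f C) (h3 : N.Conn3) (hZ : Z ⊆ N.E.image f) :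
    min 2 (min Z.card (N.E.image f \ Z).card) + C.card + M.r M.E ≤
      scMu M C Z (N.E.image f \ Z) := by
  obtain ⟨X, h1, h2, a1, a2⟩ := h.pre hZ
  have a3 := h3 X h1
  have a4 := N.lam_add X
  have a5 := h.rk
  rw [card_sdiff_of_subset h1] at a3
  rw [scMu_dis (h.dis hZ) (h.dis sdiff_subset), a1, a2, card_sdiff_of_subset hZ, h.card, ← h2]
  omega

/-- the minor on a set containing the given minor -/
def scK (M : BM) (C X : Finset ℕ) : BM := (M.con (C \ X)).res X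

theorem scK_E (hX : X ⊆ M.E) : (M.scK C X).E = X :=
  inter_eq_right.2 (subset_sdiff.2 ⟨hX, disjoint_sdiff⟩)

theorem scK_minor (M : BM) (C X : Finset ℕ) : M.HasMinor (M.scK C X) :=
  (M.hasMinor_con _).trans (hasMinor_res _ _)

theorem ScSt.minor (h : M.ScSt N f C) (hY : N.E.image f ⊆ X) : (M.scK C X).HasMinor N := by
  refine ⟨f, C \ (C \ X), ?_⟩
  rw [scK, res_eq_del]
  refine (h.mn.con sdiff_subset).del (disjoint_left.2 fun x h1 h2 => (mem_sdiff.1 h2).2 ?_)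
  refine (mem_union.1 h1).elim (fun a => hY a) fun a => ?_
  simp only [mem_sdiff] at a
  tauto

theorem ScSt.lam (h : M.ScSt N f C) (hY : N.E.image f ⊆ X) (hX : X ⊆ M.E) (hP : P ⊆ X) :
    (M.scK C X).lam P + C.card + M.r M.E = scMu M C P (X \ P) := by
  have a0 : ∀ Z ⊆ X, (M.scK C X).r Z + (C \ X).card = M.r (Z ∪ C \ X) := fun Z hZ => by
    rw [scK, r_res_of_subset _ hZ, ← ((indep_iff.2 ⟨h.mn.sub, h.ind⟩).subset sdiff_subset).r_eq,
      r_con]
  have a1 := (M.scK C X).lam_add P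
  have a2 := a0 P hP
  have a3 := a0 (X \ P) sdiff_subset
  have a4 := a0 X Subset.rfl
  have a5 := M.r_mono (union_subset_union_left (t := C) hY)
  have a6 := h.mn.rk _ Subset.rfl
  have a7 := M.r_le_rE (X ∪ C)
  have a8 := card_sdiff_add_card_inter C X
  have a9 := card_sdiff_add_card_inter (C ∩ X) P
  have b1 := h.ind
  have b2 := h.rk
  have e1 : P ∪ C \ (X \ P) = P ∪ C \ X := by
    ext x
    simp only [mem_union, mem_sdiff]
    tauto
  have e2 : X \ P ∪ C \ P = X \ P ∪ C \ X := by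
    ext x
    have := @hP x
    simp only [mem_union, mem_sdiff]
    tauto
  rw [scK_E hX] at a1
  rw [union_sdiff_self_eq_union] at a4
  rw [inter_assoc, inter_eq_right.2 hP, inter_sdiff_assoc] at a9
  unfold scMu sbG
  rw [e1, e2]
  omega

theorem ScSt.conn3 (h : M.ScSt N f C) (h3 : N.Conn3) (h4 : 4 ≤ N.E.card) (hY : N.E.image f ⊆ X)
    (hX : X ⊆ M.E)
    (H1 : ∀ v ∈ X, v ∉ N.E.image f → C.card + M.r M.E + 1 ≤ scMu M C {v} (N.E.image f))
    (H2 : ∀ P ⊆ X, (P ∩ N.E.image f).card ≤ 1 → 2 ≤ P.card →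
      C.card + M.r M.E + 2 ≤ scMu M C P (X \ P)) : (M.scK C X).Conn3 := by
  have hc := h.card
  have k0 : ∀ P ⊆ X, scMu M C (P ∩ N.E.image f) (N.E.image f \ (P ∩ N.E.image f)) ≤
      scMu M C P (X \ P) := fun P _ => scMu_mono inter_subset_left fun x hx => by
    have := @hY x
    simp only [mem_sdiff, mem_inter] at hx ⊢
    tauto
  have k1 : ∀ P ⊆ X, (P ∩ N.E.image f).card ≤ 1 →
      min 2 P.card + C.card + M.r M.E ≤ scMu M C P (X \ P) := fun P hP h1 => by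
    have a1 := (h.conn h3 inter_subset_right).trans (k0 P hP)
    rw [card_sdiff_of_subset inter_subset_right] at a1
    by_cases h2 : 2 ≤ P.card
    · have := H2 P hP h1 h2
      omega
    by_cases h5 : P.card ≤ (P ∩ N.E.image f).card
    · omega
    obtain ⟨v, rfl⟩ := card_eq_one.1 (show P.card = 1 by omega)
    have h6 : v ∉ N.E.image f := fun a => h5 (by rw [singleton_inter_of_mem a])
    have h7 := (H1 v (hP (mem_singleton_self v)) h6).trans (scMu_mono Subset.rfl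
      (subset_sdiff.2 ⟨hY, disjoint_singleton_right.2 h6⟩))
    rw [card_singleton]
    omega
  intro P hP
  rw [scK_E hX] at hP ⊢
  have a0 := h.lam hY hX hP
  by_cases h1 : (P ∩ N.E.image f).card ≤ 1
  · have := k1 P hP h1
    omega
  by_cases h2 : (X \ P ∩ N.E.image f).card ≤ 1
  · have := k1 _ sdiff_subset h2
    rw [Finset.sdiff_sdiff_eq_self hP, scMu_comm] at this
    omega
  have a1 := (h.conn h3 inter_subset_right).trans (k0 P hP)
  have a2 : (X \ P ∩ N.E.image f).card ≤ (N.E.image f \ (P ∩ N.E.image f)).card :=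
    card_le_card fun x hx => by
      simp only [mem_sdiff, mem_inter] at hx ⊢
      tauto
  omega

end BM

end Pool.Agent.P.MP_3f5ce9_co
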