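import Pool.Agent.P.MP_3f5ce9_co.W.ScA

/-!
Growing a three-connected minor by one or two elements.
-/

open Finset

namespace Pool.Agent.P.MP_3f5ce9_co

namespace BM

variable {M N : BM} {C C' P Q X Y Z : Finset ℕ} {t i v w x y : ℕ} {f : ℕ → ℕ}

theorem sc_img (f : ℕ → ℕ) (w : ℕ) (hi : i ∉ X) : X.image (Function.update f i w) = X.image f :=
  image_congr fun _ hx => Function.update_of_ne (ne_of_mem_of_not_mem (mem_coe.1 hx) hi) _ _

theorem sc_img' (f : ℕ → ℕ) (w : ℕ) (hi : i ∈ X) :
    X.image (Function.update f i w) = insert w ((X.erase i).image f) := by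
  conv_lhs => rw [← insert_erase hi]
  rw [image_insert, Function.update_self, sc_img f w (notMem_erase _ _)]

theorem ScSt.upd (h : M.ScSt N f C) (hi : i ∈ N.E) (hw : w ∈ M.E) (hY : w ∉ N.E.image f)
    (h1 : C' ⊆ M.E) (h2 : w ∉ C') (h3 : Disjoint ((N.E.image f).erase (f i)) C')
    (h4 : C'.card = C.card) (h5 : ∀ Z ⊆ (N.E.image f).erase (f i), M.r (Z ∪ C') = M.r (Z ∪ C) ∧
      M.r (insert w Z ∪ C') = M.r (insert (f i) Z ∪ C)) :
    M.ScSt N (Function.update f i w) C' ∧
      N.E.image (Function.update f i w) = insert w ((N.E.image f).erase (f i)) := by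
  have k : ∀ e ∈ N.E, e ≠ i → f e ∈ (N.E.image f).erase (f i) := fun e he hn =>
    mem_erase.2 ⟨fun a => hn (h.mn.inj he hi a), mem_image_of_mem f he⟩
  have k1 : ∀ X ⊆ N.E, i ∉ X → X.image f ⊆ (N.E.image f).erase (f i) := fun X hX a =>
    image_subset_iff.2 fun e he => k e (hX he) fun b => a (b ▸ he)
  have h6 : M.r C' = M.r C := by simpa using (h5 ∅ (empty_subset _)).1
  refine ⟨⟨⟨fun a ha b hb e => ?_, h1, fun e he => ?_, fun X hX => ?_⟩, by rw [h6, h.ind, h4],
    h4 ▸ h.rk⟩, ?_⟩
  · by_cases e1 : a = i <;> by_cases e2 : b = i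
    · rw [e1, e2]
    · rw [e1, Function.update_self, Function.update_of_ne e2] at e
      exact absurd (e ▸ mem_image_of_mem f hb) hY
    · rw [e2, Function.update_self, Function.update_of_ne e1] at e
      exact absurd (e ▸ mem_image_of_mem f ha) hY
    · rw [Function.update_of_ne e1, Function.update_of_ne e2] at e
      exact h.mn.inj ha hb e
  · by_cases e1 : e = i
    · rw [e1, Function.update_self]
      exact ⟨hw, h2⟩
    · rw [Function.update_of_ne e1]
      exact ⟨(h.mn.maps e he).1, disjoint_left.1 h3 (k e he e1)⟩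
  · rw [h6, h.mn.rk X hX]
    by_cases a : i ∈ X
    · rw [sc_img' f w a, (h5 _ (k1 _ ((erase_subset _ _).trans hX) (notMem_erase _ _))).2,
        ← image_insert, insert_erase a]
    · rw [sc_img f w a, (h5 _ (k1 X hX a)).1]
  · rw [sc_img' f w hi]
    refine congrArg _ (Subset.antisymm (k1 _ (erase_subset _ _) (notMem_erase _ _)) fun x hx => ?_)
    obtain ⟨e, he, rfl⟩ := mem_image.1 (mem_of_mem_erase hx)
    exact mem_image_of_mem f (mem_erase.2 ⟨fun a => (mem_erase.1 hx).1 (a ▸ rfl), he⟩)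

theorem ScSt.one (h : M.ScSt N f C) (h3 : N.Conn3) (h4 : 4 ≤ N.E.card) (hy : y ∈ N.E.image f) :
    M.r (insert y C) = C.card + 1 ∧ M.r ((N.E.image f).erase y ∪ C) = M.r M.E := by
  have := h.small h3 h4 (singleton_subset_iff.2 hy) (by simp)
  rwa [card_singleton, add_comm, sdiff_singleton_eq_erase, ← insert_eq] at this

theorem ScSt.two (h : M.ScSt N f C) (h3 : N.Conn3) (h4 : 4 ≤ N.E.card) (hx : x ∈ N.E.image f)
    (hy : y ∈ N.E.image f) (hn : x ≠ y) : M.r (insert x (insert y C)) = C.card + 2 ∧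
      M.r (((N.E.image f).erase x).erase y ∪ C) = M.r M.E := by
  have := h.small h3 h4 (insert_subset hx (singleton_subset_iff.2 hy)) (card_le_two)
  rwa [card_pair hn, add_comm, insert_union, ← insert_eq, sdiff_insert, sdiff_singleton_eq_erase,
    erase_right_comm] at this

theorem ScSt.muD (h : M.ScSt N f C) (hP : P ⊆ N.E.image f) (hQ : Q ⊆ N.E.image f) (hw : w ∉ C) :
    scMu M C (insert w P) Q = M.r (insert w P ∪ C) + M.r (Q ∪ C) :=
  scMu_dis (disjoint_insert_right.2 ⟨hw, h.dis hP⟩) (h.dis hQ)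

theorem ScSt.muC (h : M.ScSt N f C) (hP : P ⊆ N.E.image f) (hQ : Q ⊆ N.E.image f) (hw : w ∈ C) :
    scMu M C (insert w P) Q = M.r (P ∪ C) + M.r (Q ∪ C.erase w) + 1 := by
  conv_lhs => rw [← insert_erase hw]
  rw [scMu_ins (notMem_erase _ _) (mem_insert_self _ _) (disjoint_left.1 (h.dis hQ) hw),
    scMu_dis (disjoint_insert_right.2 ⟨notMem_erase _ _, (h.dis hP).mono_left (erase_subset _ _)⟩)
      ((h.dis hQ).mono_left (erase_subset _ _)), insert_union, ← union_insert, insert_erase hw]

theorem ScSt.lowD (h : M.ScSt N f C) (h3 : N.Conn3) (h4 : 4 ≤ N.E.card) (hy : y ∈ N.E.image f)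
    (hw : w ∉ C) (hl : scMu M C {w, y} ((N.E.image f).erase y) ≤ C.card + M.r M.E + 1) :
    M.r (insert w (insert y C)) ≤ C.card + 1 := by
  rw [h.muD (singleton_subset_iff.2 hy) (erase_subset _ _) hw, (h.one h3 h4 hy).2, insert_union,
    ← insert_eq] at hl
  omega

theorem ScSt.lowC (h : M.ScSt N f C) (h3 : N.Conn3) (h4 : 4 ≤ N.E.card) (hy : y ∈ N.E.image f)
    (hw : w ∈ C) (hl : scMu M C {w, y} ((N.E.image f).erase y) ≤ C.card + M.r M.E + 1) :
    M.r ((N.E.image f).erase y ∪ C.erase w) < M.r M.E := by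
  rw [h.muC (singleton_subset_iff.2 hy) (erase_subset _ _) hw, ← insert_eq,
    (h.one h3 h4 hy).1] at hl
  omega

theorem ScSt.swap (h : M.ScSt N f C) (h3 : N.Conn3) (h4 : 4 ≤ N.E.card) (hy : y ∈ N.E.image f)
    (hw : w ∈ M.E) (hY : w ∉ N.E.image f)
    (hl : scMu M C {w, y} ((N.E.image f).erase y) ≤ C.card + M.r M.E + 1)
    (hn : C.card + M.r M.E + 1 ≤ scMu M C {w} (N.E.image f)) :
    ∃ f' C', M.ScSt N f' C' ∧ N.E.image f' = insert w ((N.E.image f).erase y) ∧
      C \ {w, y} = C' \ {w, y} ∧ C.card = C'.card ∧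
      ∀ x ∈ N.E.image f, x ≠ y → ∀ Q, x ∈ Q → w ∉ Q → y ∉ Q →
        scMu M C (insert w ((N.E.image f).erase x)) Q + (C.card + M.r M.E + 1) ≤
          scMu M C ((N.E.image f).erase x) Q +
            scMu M C' (insert w (((N.E.image f).erase x).erase y)) Q := by
  obtain ⟨i, hi, rfl⟩ := mem_image.1 hy
  have hy1 := h.one h3 h4 hy
  have hyC : f i ∉ C := (h.mn.maps i hi).2
  have sub : ∀ D x Q, x ∈ Q → scMu M D (insert w ((N.E.image f).erase x)) Q +
      scMu M D (((N.E.image f).erase x).erase (f i)) {x} ≤ scMu M D ((N.E.image f).erase x) Q +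
        scMu M D (insert w (((N.E.image f).erase x).erase (f i))) Q := fun D x Q hx =>
    scMu_sub (insert_subset (mem_union_right _ (mem_insert_self _ _)) subset_union_left)
      (inter_self Q).ge (subset_inter (erase_subset _ _) (subset_insert _ _))
      (singleton_subset_iff.2 (mem_union_left _ hx))
  have s1 : ∀ x, ((N.E.image f).erase x).erase (f i) ⊆ N.E.image f := fun x =>
    (erase_subset _ _).trans (erase_subset _ _)
  by_cases hC : w ∈ C
  · have a1 := h.lowC h3 h4 hy hC hl
    rw [← insert_empty_eq, h.muC (empty_subset _) Subset.rfl hC, empty_union, h.ind] at hn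
    have a2 : ∀ e Z, Z ⊆ (N.E.image f).erase (f i) →
        M.r M.E ≤ M.r (insert e ((N.E.image f).erase (f i) ∪ C.erase w)) →
        M.r (insert e (Z ∪ C.erase w)) = M.r (Z ∪ C.erase w) + 1 := fun e Z hZ he => by
      have b1 := M.r_dimin (union_subset_union_left (t := C.erase w) hZ) {e}
      have b2 := M.r_insert_le e (Z ∪ C.erase w)
      rw [union_comm _ {e}, union_comm _ {e}, ← insert_eq, ← insert_eq] at b1
      omega
    have a3 : (insert (f i) (C.erase w)).card = C.card := by
      rw [card_insert_of_notMem fun a => hyC (mem_of_mem_erase a), card_erase_add_one hC]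
    have a4 : w ∉ insert (f i) (C.erase w) := fun a =>
      (mem_insert.1 a).elim (fun b => hY (b ▸ hy)) (notMem_erase _ _)
    obtain ⟨b1, b2⟩ := h.upd hi hw hY
      (insert_subset (h.sub hy) ((erase_subset _ _).trans h.mn.sub)) a4
      (disjoint_insert_right.2 ⟨notMem_erase _ _,
        (h.dis (erase_subset _ _)).symm.mono_right (erase_subset _ _)⟩) a3 fun Z hZ => ⟨by
          rw [union_insert, a2 _ Z hZ (by rw [← insert_union, insert_erase hy]; omega),
            ← a2 w Z hZ (by rw [← union_insert, insert_erase hC, hy1.2]), ← union_insert,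
            insert_erase hC], by
          rw [insert_union, union_insert, insert_comm, ← union_insert, insert_erase hC,
            insert_union]⟩
    refine ⟨_, _, b1, b2, ?_, a3.symm, fun x hx hxy Q q1 q2 q3 => ?_⟩
    · ext z
      simp only [mem_sdiff, mem_insert, mem_singleton, mem_erase]
      tauto
    · have c0 := sub (insert (f i) C) x Q q1
      have c1 : f i ∈ (N.E.image f).erase x := mem_erase.2 ⟨hxy.symm, hy⟩
      have c2 : insert (f i) C = insert w (insert (f i) (C.erase w)) := by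
        rw [insert_comm, insert_erase hC]
      rw [scMu_ins hyC (mem_insert_of_mem c1) q3, scMu_ins hyC c1 q3,
        scMu_dis (disjoint_insert_left.2 ⟨notMem_erase _ _, h.dis (s1 x)⟩)
          (disjoint_insert_left.2 ⟨notMem_singleton.2 hxy.symm,
            h.dis (singleton_subset_iff.2 hx)⟩), union_insert, ← insert_union, insert_erase c1,
        (h.one h3 h4 hx).2, ← insert_eq, (h.two h3 h4 hx hy hxy).1, c2,
        scMu_ins a4 (mem_insert_self _ _) q2] at c0
      omega
  · have a1 := h.lowD h3 h4 hy hC hl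
    rw [← insert_empty_eq, h.muD (empty_subset _) Subset.rfl hC, insert_empty_eq,
      ← insert_eq] at hn
    have a2 := M.r_le_rE (N.E.image f ∪ C)
    have a3 := M.r_le_insert w (insert (f i) C)
    have a4 := M.r_mono (insert_subset_insert w (subset_insert (f i) C))
    obtain ⟨b1, b2⟩ := h.upd hi hw hY h.mn.sub hC (h.dis (erase_subset _ _)).symm rfl
      fun Z hZ => ⟨rfl, by
        rw [insert_union, insert_union, union_comm Z, ← insert_union, ← insert_union,
          M.r_union_congr (insert_subset_insert w (subset_insert (f i) C)) (by omega),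
          M.r_union_congr (subset_insert w (insert (f i) C)) (by omega)]⟩
    refine ⟨_, _, b1, b2, rfl, rfl, fun x hx hxy Q q1 _ _ => ?_⟩
    have c0 := sub C x Q q1
    rw [scMu_dis (h.dis (s1 x)) (h.dis (singleton_subset_iff.2 hx)), ← insert_eq,
      (h.one h3 h4 hx).1, (h.two h3 h4 hx hy hxy).2] at c0
    omega

theorem ScSt.base (h : M.ScSt N f C) (h3 : N.Conn3) (h4 : 4 ≤ N.E.card) (hx : x ∈ N.E.image f)
    (hQ : x ∈ Q) : C.card + M.r M.E + 1 ≤ scMu M C ((N.E.image f).erase x) Q := by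
  refine le_trans ?_ (scMu_mono Subset.rfl (singleton_subset_iff.2 hQ))
  rw [scMu_dis (h.dis (erase_subset _ _)) (h.dis (singleton_subset_iff.2 hx)), ← insert_eq,
    (h.one h3 h4 hx).1, (h.one h3 h4 hx).2]
  omega

theorem ScSt.base0 (h : M.ScSt N f C) : C.card + M.r M.E = scMu M C ∅ (N.E.image f) := by
  rw [scMu_dis (disjoint_empty_right _) (h.dis Subset.rfl), empty_union,
    ← h.mn.rk _ Subset.rfl, h.ind, h.rk, add_comm (N.r N.E)]

theorem ScSt.nl (h : M.ScSt N f C)
    (hl : scMu M C ((N.E.image f).erase x) Q ≤ C.card + M.r M.E + 1)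
    (hn : ¬ scMu M C ((N.E.image f).erase x) (insert w Q) ≤ C.card + M.r M.E + 1) :
    C.card + M.r M.E + 1 ≤ scMu M C {w} (N.E.image f) := by
  have a1 : scMu M C (insert w Q) ((N.E.image f).erase x) + scMu M C ∅ (N.E.image f) ≤
      scMu M C {w} (N.E.image f) + scMu M C Q ((N.E.image f).erase x) :=
    scMu_sub (insert_eq w Q).le (subset_inter (erase_subset _ _) Subset.rfl) (empty_subset _)
      subset_union_left
  rw [← h.base0, scMu_comm M C (insert w Q), scMu_comm M C Q] at a1
  omega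

/-- no minor isomorphic to `N` has a three-connected one element extension or coextension -/
def ScBad (M N : BM) : Prop := ∀ f C, M.ScSt N f C → ∀ v ∈ M.E, v ∉ N.E.image f →
  ∃ z ∈ N.E.image f, scMu M C {v, z} ((N.E.image f).erase z) ≤ C.card + M.r M.E + 1

theorem sc_main (h3 : N.Conn3) (h4 : 4 ≤ N.E.card) (ha : M.ScBad N)
    (hb : ∀ f C, M.ScSt N f C → ∀ x ∈ N.E.image f, ∀ v ∈ M.E, v ∉ N.E.image f → ∀ w ∈ M.E,
      w ∉ N.E.image f → w ≠ v →
      scMu M C ((N.E.image f).erase x) {v, x} ≤ C.card + M.r M.E + 1 →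
      C.card + M.r M.E + 1 ≤ scMu M C {v} (N.E.image f) →
      ¬ scMu M C ((N.E.image f).erase x) {w, v, x} ≤ C.card + M.r M.E + 1 →
      scMu M C (insert w ((N.E.image f).erase x)) {v, x} ≤ C.card + M.r M.E + 1)
    (k : ℕ) : ∀ f C, M.ScSt N f C → ∀ x ∈ N.E.image f, ∀ v ∈ M.E, v ∉ N.E.image f →
      scMu M C ((N.E.image f).erase x) {v, x} ≤ C.card + M.r M.E + 1 →
      C.card + M.r M.E + 1 ≤ scMu M C {v} (N.E.image f) →
      ∀ w, M.ScBlk (C.card + M.r M.E + 1) C ((N.E.image f).erase x) {v, x} k w →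
        scMu M C ((N.E.image f).erase x) {w, v, x} ≤ C.card + M.r M.E + 1 := by
  induction k using Nat.strong_induction_on with
  | _ k ih =>
  intro f C h x hx v hv hvY l0 n0 w b0
  by_contra b1
  obtain ⟨w1, w2, w3⟩ := b0.mem
  rw [mem_insert, mem_singleton, not_or] at w3
  have wY : w ∉ N.E.image f := fun a => w2 (mem_erase.2 ⟨w3.2, a⟩)
  have l1 := hb f C h x hx v hv hvY w w1 wY w3.1 l0 n0 b1
  rcases k with _ | k
  · exact b0.2 l1
  obtain ⟨m0, u, b2, b3⟩ := b0
  have ih0 := fun j hj => ih j hj f C h x hx v hv hvY l0 n0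
  have q0 : ∀ i ≤ k, ∀ u, M.ScBlk (C.card + M.r M.E + 1) C ((N.E.image f).erase x) {v, x} i u →
      u ∉ insert w ((N.E.image f).erase x) := fun i hi u hu hc =>
    (mem_insert.1 hc).elim (fun e => b1 (e ▸ ih0 i (by omega) u hu)) hu.mem.2.1
  obtain ⟨y, hy, l2⟩ := ha f C h w w1 wY
  have hxy : x ≠ y := fun e => b1 (by
    subst e
    rw [scMu_comm] at l0 ⊢
    refine (scMu_mono (fun z hz => ?_) Subset.rfl).trans (sc_union (A := {x})
      (scMu_comm M C _ _ ▸ h.base h3 h4 hx (mem_singleton_self x)) l2 l0 (subset_insert _ _)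
      (subset_insert _ _) Subset.rfl)
    simp only [mem_union, mem_insert, mem_singleton] at hz ⊢
    tauto)
  have hyA : y ∈ (N.E.image f).erase x := mem_erase.2 ⟨hxy.symm, hy⟩
  obtain ⟨f', C', h', e1, e2, e3, e4⟩ := h.swap h3 h4 hy w1 wY l2 (h.nl l0 b1)
  have e5 : (N.E.image f').erase x = insert w (((N.E.image f).erase x).erase y) := by
    rw [e1, erase_insert_of_ne w3.2, erase_right_comm]
  have hx' : x ∈ N.E.image f' := e1 ▸ mem_insert_of_mem (mem_erase.2 ⟨hxy, hx⟩)
  have hv' : v ∉ N.E.image f' := e1 ▸ fun a =>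
    (mem_insert.1 a).elim (fun b => w3.1 b.symm) fun b => hvY (mem_of_mem_erase b)
  have s1 : (N.E.image f').erase x ⊆ insert w ((N.E.image f).erase x) :=
    e5 ▸ insert_subset_insert _ (erase_subset _ _)
  have s2 : ({w, y} : Finset ℕ) ⊆ insert w ((N.E.image f).erase x) :=
    insert_subset_insert _ (singleton_subset_iff.2 hyA)
  have d1 : Disjoint (insert w ((N.E.image f).erase x)) {v, x} := disjoint_insert_left.2
    ⟨m0.2.2, disjoint_insert_right.2 ⟨fun a => hvY (mem_of_mem_erase a),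
      disjoint_singleton_right.2 (notMem_erase _ _)⟩⟩
  have e6 : C \ insert w ((N.E.image f).erase x) = C' \ insert w ((N.E.image f).erase x) := by
    rw [← union_eq_right.2 s2, ← sup_eq_union, ← sdiff_sdiff_left, ← sdiff_sdiff_left, e2]
  have l3 : scMu M C' (insert w ((N.E.image f).erase x)) {v, x} ≤ C.card + M.r M.E + 1 :=
    (scMu_congr Subset.rfl e6 e3 d1).ge.trans l1
  have base' := h'.base h3 h4 hx' (mem_insert_of_mem (mem_singleton_self x) : x ∈ {v, x})
  have n1 : C'.card + M.r M.E + 1 ≤ scMu M C' {v} (N.E.image f') := by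
    have a1 : scMu M C' {v, x} ((N.E.image f').erase x) + scMu M C' {v} (insert w (N.E.image f)) ≤
        scMu M C' {v} (N.E.image f') + scMu M C' {v, x} (insert w ((N.E.image f).erase x)) :=
      scMu_sub subset_union_right (subset_inter (erase_subset _ _) s1)
        (subset_inter Subset.rfl (by simp)) fun z hz => by
          by_cases a : z = x
          · exact mem_union_left _ (a ▸ hx')
          · exact mem_union_right _ ((mem_insert.1 hz).elim (fun b => b ▸ mem_insert_self _ _)
              fun b => mem_insert_of_mem (mem_erase.2 ⟨a, b⟩))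
    have a2 : scMu M C (insert w (N.E.image f)) {v} = scMu M C' (insert w (N.E.image f)) {v} :=
      scMu_congr (s2.trans (insert_subset_insert _ (erase_subset _ _))) e2 e3
        (disjoint_singleton_right.2 fun a => disjoint_left.1 d1 (s2 a) (mem_insert_self _ _))
    have a3 : scMu M C {v} (N.E.image f) ≤ _ := scMu_mono Subset.rfl (subset_insert w _)
    rw [scMu_comm M C' {v, x}, scMu_comm M C' {v, x}, scMu_comm M C' {v} (insert _ _)] at a1
    rw [scMu_comm M C {v} (insert _ _)] at a3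
    omega
  have u1 := q0 k le_rfl u b3
  have l4 := ih k (Nat.lt_succ_self k) f' C' h' x hx' v hv hv'
    ((scMu_mono s1 Subset.rfl).trans (e3 ▸ l3)) n1 u (e3 ▸ sc_transfer (e3 ▸ base')
      (subset_insert _ _) s1 e6 e3 d1 l1 k (fun i hi u hu => ⟨by_contra fun hc =>
        b1 (ih0 (i + 1) (by omega) w ⟨m0, u, hc, hu⟩), q0 i hi.le u hu⟩) u u1 b3)
  have l5 := ih0 k (Nat.lt_succ_self k) u b3
  have d2 : Disjoint (insert w ((N.E.image f).erase x)) {u, v, x} :=
    disjoint_insert_right.2 ⟨u1, d1⟩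
  have l6 := e4 x hx hxy {u, v, x} (by simp) (disjoint_left.1 d2 (mem_insert_self _ _))
    (disjoint_left.1 d2 (mem_insert_of_mem hyA))
  rw [e5] at l4
  omega

theorem ScSt.uniq (h : M.ScSt N f C) (h3 : N.Conn3) (h4 : 4 ≤ N.E.card) (hx : x ∈ N.E.image f)
    (hy : y ∈ N.E.image f) (hn : x ≠ y)
    (l0 : scMu M C {v, x} ((N.E.image f).erase x) ≤ C.card + M.r M.E + 1)
    (n0 : C.card + M.r M.E + 1 ≤ scMu M C {v} (N.E.image f)) :
    C.card + M.r M.E + 2 ≤ scMu M C {v, y} ((N.E.image f).erase y) := by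
  have a1 : scMu M C {x, y} (((N.E.image f).erase x).erase y) + scMu M C {v} (N.E.image f) ≤
      scMu M C {v, x} ((N.E.image f).erase x) + scMu M C {v, y} ((N.E.image f).erase y) :=
    scMu_sub (fun z hz => by simp only [mem_union, mem_insert, mem_singleton] at hz ⊢; tauto)
      (subset_inter (erase_subset _ _) (erase_subset_erase _ (erase_subset _ _)))
      (subset_inter (by simp) (by simp)) fun z hz => by
        simp only [mem_union, mem_erase]
        by_cases a : z = x
        · exact Or.inr ⟨a ▸ hn, hz⟩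
        · exact Or.inl ⟨a, hz⟩
  rw [scMu_dis (h.dis (insert_subset hx (singleton_subset_iff.2 hy)))
    (h.dis ((erase_subset _ _).trans (erase_subset _ _))), insert_union, ← insert_eq,
    (h.two h3 h4 hx hy hn).1, (h.two h3 h4 hx hy hn).2] at a1
  omega

theorem ScSt.good (h : M.ScSt N f C) (h3 : N.Conn3) (h4 : 4 ≤ N.E.card) (hv : v ∈ M.E)
    (hg : ∀ z ∈ N.E.image f, ¬ scMu M C {v, z} ((N.E.image f).erase z) ≤ C.card + M.r M.E + 1) :
    (M.scK C (insert v (N.E.image f))).Conn3 := by
  refine h.conn3 h3 h4 (subset_insert _ _) (insert_subset hv h.sub) (fun u h1 h2 => ?_)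
    fun P h1 h2 h5 => ?_
  · obtain ⟨z, hz⟩ := card_pos.1 (show 0 < (N.E.image f).card by rw [h.card]; omega)
    rw [(mem_insert.1 h1).resolve_right h2]
    refine h.nl (x := z) (Q := {z}) ?_ (scMu_comm M C _ _ ▸ hg z hz)
    rw [scMu_dis (h.dis (erase_subset _ _)) (h.dis (singleton_subset_iff.2 hz)), ← insert_eq,
      (h.one h3 h4 hz).1, (h.one h3 h4 hz).2]
    omega
  · have a1 : P ⊆ insert v (P ∩ N.E.image f) := fun z hz =>
      (mem_insert.1 (h1 hz)).elim (fun a => a ▸ mem_insert_self _ _)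
        fun a => mem_insert_of_mem (mem_inter.2 ⟨hz, a⟩)
    have a2 := (card_le_card a1).trans (card_insert_le _ _)
    obtain ⟨z, hz⟩ := card_eq_one.1 (show (P ∩ N.E.image f).card = 1 by omega)
    have a3 := mem_inter.1 (hz ▸ mem_singleton_self z : z ∈ P ∩ N.E.image f)
    rw [hz] at a1
    refine (not_le.1 (hg z a3.2)).trans_le (scMu_mono
      (eq_of_subset_of_card_le a1 (card_le_two.trans h5)).ge fun u hu => ?_)
    obtain ⟨u1, u2⟩ := mem_erase.1 hu
    exact mem_sdiff.2 ⟨mem_insert_of_mem u2,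
      fun a => u1 (mem_singleton.1 (hz ▸ mem_inter.2 ⟨a, u2⟩))⟩

end BM

end Pool.Agent.P.MP_3f5ce9_co
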