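import Pool.Agent.P.MP_3f5ce9_co.W.ScC
import Pool.Agent.P.MP_3f5ce9_co.W.SbC

/-!
Splitters with ten elements, reduced to a finite check.
-/

open Finset

namespace Pool.Agent.P.MP_3f5ce9_co

/-- bounds the connectivity of a pair of masks -/
def scLow (l : List ℕ) (β c P Q δ : ℕ) : Bool :=
  sbGB l c P Q + sbGB l c Q P ≤ sbPop l c + sbPop l β + δ

/-- runs a check over all extensions or all coextensions -/
def scAll (l : List ℕ) (β c : ℕ) (b : Bool) (T : List ℕ → ℕ → ℕ → Bool) : Bool :=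
  (sbOpt l.length β b).all fun t => T (sbExt l b t) (sbC β l.length b) (sbC c l.length b)

/-- checks a minor `K33` -/
def scK33 (T : List (List ℕ × List ℕ × ℕ)) (l : List ℕ) : Bool :=
  T.any fun e => e.1.contains (sbKey l) &&
    sbMin l [9, 17, 33, 10, 18, 34, 12, 20, 36] [27, 45, 195, 325] e.2.1 e.2.2

/-- checks that `l` is the standard representation of `l'` -/
def scStd (l' l : List ℕ) (β : ℕ) : Bool :=
  l'.all (· < 2 ^ 16) && l.length == l'.length && l.length ≤ 16 && β < 2 ^ l.length &&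
    rkm l' β == sbPop l' β && (elim l').length == sbPop l' β &&
    (List.range l.length).all fun i => if β.testBit i then l.getD i 0 == 2 ^ i
      else l.getD i 0 ||| β == β && xorAll (msel l' (l.getD i 0 ||| 2 ^ i)) == 0

/-- the check for one new element -/
def scT1 (O : List ℕ → Bool) (l : List ℕ) (β c : ℕ) : Bool :=
  O l || (List.range 10).any fun j => scLow l β c (2 ^ j ||| 2 ^ 10) (1023 ^^^ 2 ^ j) 1

/-- the check for the second element of a fan -/
def scF2 (O : List ℕ → Bool) (l : List ℕ) (β c : ℕ) : Bool :=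
  O l || scLow l β c (2 ^ 10 ||| 2 ^ 11) (2 ^ l.length - 1 - (2 ^ 10 ||| 2 ^ 11)) 1 ||
    (List.range 10).all fun j => sbPop l c + 1 < rkm l (2 ^ j ||| 2 ^ 11 ||| c) ||
      scLow l β c (2 ^ j ||| 2 ^ 11) (2 ^ l.length - 1 - (2 ^ j ||| 2 ^ 11)) 1 ||
      scLow l β c (2 ^ j ||| 2 ^ 10) (2 ^ l.length - 1 - (2 ^ j ||| 2 ^ 10)) 1

/-- the check for the first element of a fan -/
def scF1 (O : List ℕ → Bool) (l : List ℕ) (β c : ℕ) : Bool :=
  O l || scLow l β c (2 ^ 10) 1023 0 || scAll l β c false (scF2 O)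

theorem sc_erase {f : ℕ → ℕ} {S : Finset ℕ} {j : ℕ} (h : Set.InjOn f S) (hj : j ∈ S) :
    (S.erase j).image f = (S.image f).erase (f j) := by
  rw [← sdiff_singleton_eq_erase, image_sdiff_of_injOn h (singleton_subset_iff.2 hj),
    image_singleton, sdiff_singleton_eq_erase]

namespace BM

variable {M N : BM} {g f : ℕ → ℕ} {C C₀ : Finset ℕ} {β c v : ℕ} {l l' : List ℕ}

theorem sc_conn3 (hl : ∀ x ∈ l, x < 2 ^ 16) (h : ∀ m < 2 ^ l.length,
    min 2 (min (sbPop l m) (l.length - sbPop l m)) + (elim l).length ≤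
      rkm l m + rkm l (2 ^ l.length - 1 - m)) : (ofBits l).Conn3 := fun X hX => by
  obtain ⟨m, h1, rfl⟩ := exists_mset hX
  have a1 := (ofBits l).lam_add (mset l.length m)
  have a2 := h m h1
  rw [card_sdiff_of_subset hX, ofBits_E, card_range, card_mset]
  rw [ofBits_E, bt_rE hl, ← mset_compl h1, r_ofBits hl, r_ofBits hl] at a1
  unfold sbPop at a2
  omega

/-- a standard representation of a minor on a superset of a given minor -/
structure ScLv (M : BM) (C : Finset ℕ) (g : ℕ → ℕ) (C₀ : Finset ℕ) (β c : ℕ) (l : List ℕ) :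
    Prop where
  std : M.SbStd g C₀ β l
  lt : c < 2 ^ l.length
  hC : C = (mset l.length c).image g ∪ C₀

theorem ScSt.lv (h : M.ScSt (ofBits l') f C) (hs : scStd l' l β = true) : M.ScLv C f C β 0 l := by
  simp only [scStd, Bool.and_eq_true, List.all_eq_true, decide_eq_true_eq, beq_iff_eq,
    List.mem_range] at hs
  obtain ⟨⟨⟨⟨⟨⟨hl, e⟩, h1⟩, h2⟩, h3⟩, h4⟩, h5⟩ := hs
  refine ⟨⟨h1, h2, e ▸ coe_range l'.length ▸ h.mn.inj,
    fun i hi => h.mn.maps i (mem_range.2 (e ▸ hi)), ?_, fun i hi hb => by simpa [hb] using h5 i hi,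
    fun i hi hb => ?_⟩, Nat.two_pow_pos _, by rw [sb_zero, image_empty, empty_union]⟩
  · have a1 := h.mn.rk _ (mset_subset l'.length β)
    have a2 := h.mn.sb_card (mset_subset l'.length β)
    have a5 := h.ind
    have a6 := h.rk
    rw [r_ofBits hl] at a1
    rw [card_mset] at a2
    rw [ofBits_E, bt_rE hl] at a6
    unfold sbPop at h3 h4
    rw [e]
    exact isBase_iff.2 ⟨union_subset (image_subset_iff.2 fun x hx =>
      (h.mn.maps x (mset_subset _ _ hx)).1) h.mn.sub, by omega, by omega⟩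
  · have a := h5 i hi
    rw [hb, if_neg Bool.false_ne_true, Bool.and_eq_true, beq_iff_eq, beq_iff_eq] at a
    refine ⟨fun j hj => by rw [← a.1, Nat.testBit_or, hj, Bool.true_or], ?_⟩
    obtain ⟨Z, z1, z2⟩ := (h.mn.cyc (mset_subset l'.length _)).1 ((cyc_ofBits hl _).2 a.2)
    exact ⟨Z, z1, by rw [← z2, ← sb_ins _ hi, e]⟩

theorem ScLv.card (h : M.ScLv C g C₀ β c l) :
    C.card = sbPop l c + C₀.card ∧ M.r M.E = sbPop l β + C₀.card := by
  rw [← h.std.base.2, h.std.minor.sb_card (mset_subset _ _), card_mset, h.hC,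
    h.std.minor.sb_card (mset_subset _ _), card_mset]
  exact ⟨rfl, rfl⟩

theorem ScLv.low (h : M.ScLv C g C₀ β c l) (P Q δ : ℕ) : scLow l β c P Q δ = true ↔
    scMu M C ((mset l.length P).image g) ((mset l.length Q).image g) ≤ C.card + M.r M.E + δ := by
  have a := fun P Q => h.std.minor.sb_g h.std.ind.r_eq (mset_subset l.length c)
    (mset_subset l.length P) (mset_subset l.length Q)
  rw [scMu, h.card.1, h.card.2, h.hC, a, a, sb_gb h.std.bits, sb_gb h.std.bits, scLow,
    decide_eq_true_eq]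
  omega

theorem ScLv.r (h : M.ScLv C g C₀ β c l) (m : ℕ) :
    M.r ((mset l.length m).image g ∪ C) = rkm l (m ||| c) + C₀.card := by
  rw [← r_ofBits h.std.bits, ← h.std.ind.r_eq, h.std.minor.rk _ (mset_subset _ _), mset_union,
    image_union, union_assoc, ← h.hC]

theorem ScLv.ext (h : M.ScLv C g C₀ β c l) (hn : l.length < 16) (hv : v ∈ M.E)
    (hg : ∀ i < l.length, g i ≠ v) {T : List ℕ → ℕ → ℕ → Bool}
    (hT : scAll l β c (decide (v ∈ C)) T = true) :
    ∃ g' C₀' β' c' l', M.ScLv C g' C₀' β' c' l' ∧ T l' β' c' = true ∧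
      l'.length = l.length + 1 ∧ (∀ i < l.length, g' i = g i) ∧ g' l.length = v := by
  have h4 : ∀ b t, (mset (sbExt l b t).length c).image (Function.update g l.length v) =
      (mset l.length c).image g := fun b t => by
    rw [sbExt_len, sb_succ h.lt, sb_upd _ _ (mset_subset _ _)]
  have h5 : 2 ^ l.length < 2 ^ (l.length + 1) := Nat.pow_lt_pow_right one_lt_two (Nat.lt_succ_self _)
  by_cases hC : v ∈ C₀
  · obtain ⟨t, t1, t2⟩ := h.std.extC hn hC
    rw [decide_eq_true (h.hC ▸ mem_union_right _ hC)] at hT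
    refine ⟨_, _, _, c ||| 2 ^ l.length, _, ⟨t2, sbExt_len l true t ▸
      Nat.or_lt_two_pow (h.lt.trans h5) h5, ?_⟩, List.all_eq_true.1 hT t t1, sbExt_len _ _ _,
      fun i hi => Function.update_of_ne hi.ne _ _, Function.update_self _ _ _⟩
    rw [sb_ins _ (by rw [sbExt_len]; exact Nat.lt_succ_self _), image_insert, h4,
      Function.update_self, insert_union, ← union_insert, insert_erase hC]
    exact h.hC
  · obtain ⟨t, t1, t2⟩ := h.std.extD hn hv hC hg
    rw [decide_eq_false fun a => (mem_union.1 (h.hC ▸ a)).elim (fun a => by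
      obtain ⟨y, hy, e⟩ := mem_image.1 a
      exact hg y (mem_mset.1 hy).1 e) hC] at hT
    exact ⟨_, _, _, c, _, ⟨t2, sbExt_len l false t ▸ h.lt.trans h5, (h4 _ _).symm ▸ h.hC⟩,
      List.all_eq_true.1 hT t t1, sbExt_len _ _ _,
      fun i hi => Function.update_of_ne hi.ne _ _, Function.update_self _ _ _⟩

theorem ScLv.pair (h : M.ScLv C g C₀ β c l) (hs : M.ScSt N f C) (hn : 4 ≤ l.length)
    (hY : N.E.image f ⊆ (range l.length).image g)
    (h3 : (M.scK C ((range l.length).image g)).Conn3) {i j : ℕ} (hi : i < j) (hj : j < l.length) :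
    ¬ scLow l β c (2 ^ i ||| 2 ^ j) (2 ^ l.length - 1 - (2 ^ i ||| 2 ^ j)) 1 = true := by
  have a0 : (range l.length).image g ⊆ M.E :=
    image_subset_iff.2 fun x hx => (h.std.maps x (mem_range.1 hx)).1
  have a1 := mset_subset l.length (2 ^ i ||| 2 ^ j)
  have a2 := hs.lam hY a0 (image_subset_image a1)
  have a3 := h3 _ ((image_subset_image a1).trans (scK_E a0).ge)
  have a4 := h.std.inj
  have a5 : (mset l.length (2 ^ i ||| 2 ^ j)).card = 2 := by
    rw [sb_ins _ hj, mset_pow (hi.trans hj), card_pair hi.ne']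
  rw [scK_E a0, card_sdiff_of_subset (image_subset_image a1), card_image_of_injOn a4,
    card_image_of_injOn (a4.mono (coe_subset.2 a1)), a5, card_range] at a3
  rw [h.low, mset_compl (Nat.or_lt_two_pow (Nat.pow_lt_pow_right one_lt_two (hi.trans hj))
    (Nat.pow_lt_pow_right one_lt_two hj)), image_sdiff_of_injOn a4 a1]
  omega

theorem sc_spl {O : List ℕ → Bool} {p : Prop} (h3 : M.Conn3) (hN : (ofBits l').Conn3)
    (h : M.HasMinor (ofBits l')) (hl : l'.length = 10) (hl0 : l.length = 10)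
    (h0 : scStd l' l β = true) (h1 : ∀ b, scAll l β 0 b (scT1 O) = true)
    (h2 : scAll l β 0 true (scF1 O) = true)
    (hO : ∀ k, (∀ x ∈ k, x < 2 ^ 16) → M.HasMinor (ofBits k) → O k = true → p) :
    M.Iso (ofBits l') ∨ p := by
  refine or_iff_not_imp_right.2 fun hp => h.iso (not_lt.1 fun hlt => ?_)
  have hE : (ofBits l').E = range 10 := by rw [ofBits_E, hl]
  have h4 : 4 ≤ (ofBits l').E.card := by rw [hE, card_range]; decide
  have nO : ∀ {C g C₀ β c k}, M.ScLv C g C₀ β c k → ¬ O k = true := fun L a =>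
    hp (hO _ L.std.bits ⟨_, _, L.std.minor⟩ a)
  have lv1 : ∀ {f C v T}, M.ScSt (ofBits l') f C → v ∈ M.E → v ∉ (ofBits l').E.image f →
      scAll l β 0 (decide (v ∈ C)) T = true → ∃ g' C₀' β' c' l', M.ScLv C g' C₀' β' c' l' ∧
        T l' β' c' = true ∧ l'.length = 11 ∧ (∀ i < 10, g' i = f i) ∧ g' 10 = v :=
    fun {f C v T} s v1 v2 hT => by
      have := (s.lv h0).ext (by omega) v1
        (fun i hi e => v2 (mem_image.2 ⟨i, hE ▸ mem_range.2 (hl0 ▸ hi), e⟩)) hT
      rwa [hl0] at this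
  have im : ∀ {f g : ℕ → ℕ}, (∀ i < 10, g i = f i) → ∀ S ⊆ range 10, S.image g = S.image f :=
    fun e S hS => image_congr fun x hx => e x (mem_range.1 (hS hx))
  have ha : M.ScBad (ofBits l') := fun f C s v v1 v2 => by
    obtain ⟨g, C₀, β', c', k, L, T, n, e1, e2⟩ := lv1 s v1 v2 (h1 _)
    simp only [scT1, Bool.or_eq_true, List.any_eq_true, List.mem_range, nO L, L.low, n] at T
    obtain ⟨j, hj, T⟩ := T.resolve_left Bool.false_ne_true
    rw [sb_ins _ (by decide), mset_pow (by omega), image_insert, image_singleton, e2, e1 j hj,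
      (by decide : ∀ j < 10, mset 11 (1023 ^^^ 2 ^ j) = (range 10).erase j) j hj,
      im e1 _ (erase_subset _ _), ← hE, sc_erase s.mn.inj (hE ▸ mem_range.2 hj)] at T
    exact ⟨f j, mem_image_of_mem f (hE ▸ mem_range.2 hj), T⟩
  obtain ⟨f, C, a, b, c, d, s, k⟩ := sc_step h3 hN h4 h hlt ha
  obtain ⟨g, C₀, β', c', l1, L, T, n, e1, e2⟩ := lv1 (T := scF1 O) s (s.mn.sub k.hc)
    (disjoint_left.1 (s.dis Subset.rfl) k.hc) (by rw [decide_eq_true k.hc]; exact h2)
  simp only [scF1, Bool.or_eq_true, nO L, L.low, n] at T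
  rw [mset_pow (by decide), image_singleton, e2, (by decide : mset 11 1023 = range 10),
    im e1 _ Subset.rfl, ← hE] at T
  obtain ⟨g2, C2, β2, c2, l2, L2, T2, n2, e3, e4⟩ := L.ext (T := scF2 O) (by omega) k.hd.1
    (fun i hi e => by
      rcases (by omega : i < 10 ∨ i = 10) with a | rfl
      · exact k.hd.2.1 (mem_image.2 ⟨i, hE ▸ mem_range.2 a, (e1 i a).symm.trans e⟩)
      · exact k.hd.2.2 (e ▸ e2 ▸ k.hc))
    (by
      rw [decide_eq_false k.hd.2.2]
      exact T.resolve_left fun a => a.elim Bool.false_ne_true fun a => by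
        have := k.nc
        omega)
  rw [n] at n2 e3 e4
  have e5 : ∀ i < 10, g2 i = f i := fun i hi => (e3 i (by omega)).trans (e1 i hi)
  have e6 : (range l2.length).image g2 = insert c (insert d ((ofBits l').E.image f)) := by
    rw [n2, range_add_one, range_add_one, image_insert, image_insert, e4, e3 10 (by decide), e2,
      im e5 _ Subset.rfl, hE, insert_comm]
  have np := fun i j => L2.pair (i := i) (j := j) s (by omega)
    (((subset_insert _ _).trans (subset_insert _ _)).trans e6.ge) (by rw [e6]; exact k.c3)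
  obtain ⟨j, hj, rfl⟩ := mem_image.1 k.ha
  rw [hE, mem_range] at hj
  simp only [scF2, Bool.or_eq_true, nO L2, np 10 11 (by decide) (by omega), List.all_eq_true,
    List.mem_range, Bool.false_eq_true, false_or, decide_eq_true_eq] at T2
  have a1 := ((T2 j hj).resolve_right (np j 10 hj (by omega))).resolve_right
    (np j 11 (by omega) (by omega))
  have a2 := L2.r (2 ^ j ||| 2 ^ 11)
  have a3 := L2.card.1
  have a4 := s.lowD hN h4 k.ha k.hd.2.2 k.la
  rw [n2, sb_ins _ (by decide), mset_pow (by omega), image_insert, image_singleton, e4, e5 j hj,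
    insert_union, ← insert_eq] at a2
  omega

theorem sc_k33 {T : List (List ℕ × List ℕ × ℕ)} (hl : ∀ x ∈ l, x < 2 ^ 16)
    (h : scK33 T l = true) : (ofBits l).HasMinor K33 := by
  simp only [scK33, List.any_eq_true, Bool.and_eq_true] at h
  obtain ⟨e, -, -, h⟩ := h
  exact K33_eq ▸ ⟨_, _, (sb_min hl h (by decide)).1⟩

end BM

end Pool.Agent.P.MP_3f5ce9_co
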